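import Pool.Agent.AcyK.Defs
import Pool.Agent.Acy.BasicA

/-! # The large parameter, simultaneous goals, products of laws (module T) -/

set_option autoImplicit false
set_option linter.unusedSectionVars false

namespace Pool.Agent.AcyK

open Finset
open Pool.Agent.Acy (IsPM wt Ex Pr mean)
open scoped Classical

universe u v

namespace Big

variable {T : ℝ} (hT : Big T)

include hT

theorem old : Pool.Agent.Acy.Big T := by
  refine ⟨hT.big, le_trans ?_ hT.exp⟩
  have h1 : (1 : ℝ) ≤ T := le_trans (by norm_num) hT.big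
  exact pow_le_pow_right₀ h1 (by norm_num)

theorem pos : 0 < T := hT.old.pos

theorem one_le : 1 ≤ T := hT.old.one_le

theorem log_pos : 0 < Real.log T := hT.old.log_pos

/-- `exp (c log T) <= T` for `c <= 1`. -/
theorem exp_le {c : ℝ} (hc : c ≤ 1) : Real.exp (c * Real.log T) ≤ T := hT.old.exp_le hc

theorem log_le : Real.log T ≤ T / 100000 := by
  have h1 : Real.log (T ^ 200000) ≤ T := by
    have h2 := Real.log_le_log (pow_pos hT.pos 200000) hT.exp
    rwa [Real.log_exp] at h2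
  rw [Real.log_pow] at h1
  have := hT.log_pos
  push_cast at h1
  linarith

/-- Monotonicity of powers. -/
theorem pw {a b : ℕ} (h : a ≤ b) : T ^ a ≤ T ^ b := pow_le_pow_right₀ hT.one_le h

/-- Monotonicity of inverse powers. -/
theorem ipw {a b : ℕ} (h : a ≤ b) : 1 / T ^ b ≤ 1 / T ^ a := hT.old.ipw h

/-- Inverse powers are small. -/
theorem small {n : ℕ} (h : 1 ≤ n) : 1 / T ^ n ≤ 1 / 1000000 := hT.old.small h

/-- The fifth root of `T` is much smaller than `T`. -/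
theorem exp_fifth : Real.exp (Real.log T / 5) ≤ T / 10000 := hT.old.exp_fifth

/-- `T^(2/5) <= T / 1000`. -/
theorem exp_two_fifth : Real.exp (2 * Real.log T / 5) ≤ T / 1000 := by
  have h5 : Real.exp (Real.log T / 5) ^ 5 = T := by
    rw [← Real.exp_nat_mul]
    have : ((5 : ℕ) : ℝ) * (Real.log T / 5) = Real.log T := by
      push_cast
      ring
    rw [this, Real.exp_log hT.pos]
  have h2 : Real.exp (2 * Real.log T / 5) = Real.exp (Real.log T / 5) ^ 2 := by
    rw [← Real.exp_nat_mul]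
    congr 1
    push_cast
    ring
  rw [h2]
  set y := Real.exp (Real.log T / 5) with hy
  have hy0 : 0 < y := Real.exp_pos _
  have hy10 : 10 ≤ y := by
    by_contra hc
    push Not at hc
    have h1 : y ^ 5 < 10 ^ 5 := pow_lt_pow_left₀ hc hy0.le (by norm_num)
    have h2 := hT.big
    rw [h5] at h1
    norm_num at h1 h2
    linarith
  have h4 : (10 : ℝ) ^ 3 ≤ y ^ 3 := pow_le_pow_left₀ (by norm_num) hy10 3
  have h6 : y ^ 5 = y ^ 3 * y ^ 2 := by ring
  rw [← h5, h6, le_div_iff₀ (by norm_num)]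
  norm_num at h4
  have h7 : 0 ≤ y ^ 2 := by positivity
  nlinarith

end Big

section

variable {Q : Type u} [Fintype Q] [DecidableEq Q] {α β : Type*} [Fintype α] [Fintype β]

/-- Two goals can be reached simultaneously (local lemma). -/
theorem StepOK.and_exists {T : ℝ} (hT : Big T) {μ : Q → α → ℝ} (hμ : IsPM μ)
    {G₁ G₂ : (Q → α) → Prop} (h₁ : StepOK T μ G₁) (h₂ : StepOK T μ G₂) :
    ∃ ω, 0 < wt μ ω ∧ G₁ ω ∧ G₂ ω := by
  obtain ⟨κ₁, _, E₁, S₁, hd₁, hp₁, hs₁, hi₁, hg₁⟩ := h₁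
  obtain ⟨κ₂, _, E₂, S₂, hd₂, hp₂, hs₂, hi₂, hg₂⟩ := h₂
  have hT0 := hT.pos
  have hT1 := hT.one_le
  have hfl : ((⌊T ^ 60000⌋₊ : ℕ) : ℝ) ≤ T ^ 60000 := Nat.floor_le (by positivity)
  have hfl2 : ((⌊2 * T ^ 60000⌋₊ : ℕ) : ℝ) ≤ 2 * T ^ 60000 := Nat.floor_le (by positivity)
  have hexp : Real.exp (-T) * T ^ 200000 ≤ 1 := by
    have h := mul_le_mul_of_nonneg_left hT.exp (Real.exp_pos (-T)).le
    rwa [← Real.exp_add, neg_add_cancel, Real.exp_zero] at h
  have h8 : (8 : ℝ) ≤ T ^ 80000 :=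
    calc (8 : ℝ) ≤ T := by linarith [hT.big]
      _ = T ^ 1 := (pow_one T).symm
      _ ≤ T ^ 80000 := pow_le_pow_right₀ hT1 (by norm_num)
  obtain ⟨ω, hω, hE⟩ := Pool.Agent.Acy.lll_local hμ (Sum.elim E₁ E₂) (Sum.elim S₁ S₂) (by
      rintro (b | b)
      · exact hd₁ b
      · exact hd₂ b) (Real.exp (-T)) ⌊T ^ 60000⌋₊ ⌊2 * T ^ 60000⌋₊ (Real.exp_pos _).le (by
      rintro (b | b)
      · exact hp₁ b
      · exact hp₂ b) (by
      rintro (b | b)
      · exact Nat.le_floor (hs₁ b)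
      · exact Nat.le_floor (hs₂ b)) (by
      intro i
      refine Nat.le_floor ?_
      have h1 : (univ.filter fun b : κ₁ ⊕ κ₂ => i ∈ Sum.elim S₁ S₂ b).card ≤
          (univ.filter fun b => i ∈ S₁ b).card + (univ.filter fun b => i ∈ S₂ b).card := by
        have h2 : (univ.filter fun b : κ₁ ⊕ κ₂ => i ∈ Sum.elim S₁ S₂ b) =
            (univ.filter fun b => i ∈ S₁ b).disjSum (univ.filter fun b => i ∈ S₂ b) := by
          ext b
          rcases b with b | b <;> simp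
        rw [h2, card_disjSum]
      have h3 : ((univ.filter fun b : κ₁ ⊕ κ₂ => i ∈ Sum.elim S₁ S₂ b).card : ℝ) ≤
          (univ.filter fun b => i ∈ S₁ b).card + (univ.filter fun b => i ∈ S₂ b).card := by
        exact_mod_cast h1
      linarith [hi₁ i, hi₂ i]) (by
      push_cast
      have h1 : ((⌊T ^ 60000⌋₊ : ℕ) : ℝ) * ((⌊2 * T ^ 60000⌋₊ : ℕ) : ℝ) ≤
          T ^ 60000 * (2 * T ^ 60000) :=
        mul_le_mul hfl hfl2 (Nat.cast_nonneg _) (by positivity)
      calc 4 * Real.exp (-T) * (((⌊T ^ 60000⌋₊ : ℕ) : ℝ) * ((⌊2 * T ^ 60000⌋₊ : ℕ) : ℝ))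
          ≤ 4 * Real.exp (-T) * (T ^ 60000 * (2 * T ^ 60000)) :=
            mul_le_mul_of_nonneg_left h1 (by positivity)
        _ = Real.exp (-T) * (8 * T ^ 120000) := by
            rw [show (120000 : ℕ) = 60000 + 60000 from rfl, pow_add]
            ring
        _ ≤ Real.exp (-T) * (T ^ 80000 * T ^ 120000) :=
            mul_le_mul_of_nonneg_left (mul_le_mul_of_nonneg_right h8 (by positivity))
              (Real.exp_pos _).le
        _ = Real.exp (-T) * T ^ 200000 := by rw [← pow_add]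
        _ ≤ 1 := hexp) (by
      have h1 : (8 : ℝ) ≤ T ^ 200000 := h8.trans (pow_le_pow_right₀ hT1 (by norm_num))
      have h2 := Real.exp_pos (-T)
      nlinarith)
  exact ⟨ω, hω, hg₁ ω fun b => hE (.inl b), hg₂ ω fun b => hE (.inr b)⟩

theorem prodLaw_isPM {μ : Q → α → ℝ} {ν : Q → β → ℝ} (hμ : IsPM μ) (hν : IsPM ν) :
    IsPM (prodLaw μ ν) := by
  refine ⟨fun i a => mul_nonneg (hμ.nonneg i a.1) (hν.nonneg i a.2), fun i => ?_⟩
  unfold prodLaw
  rw [Fintype.sum_prod_type]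
  simp only
  have h1 : ∀ a, ∑ b, μ i a * ν i b = μ i a := by
    intro a
    rw [← Finset.mul_sum, hν.sum_one, mul_one]
  rw [Finset.sum_congr rfl fun a _ => h1 a, hμ.sum_one]

/-- Expectation of a function of the first components. -/
theorem Ex_prodLaw_fst {μ : Q → α → ℝ} {ν : Q → β → ℝ} (hν : IsPM ν)
    (f : (Q → α) → ℝ) : Ex (prodLaw μ ν) (fun ω => f fun y => (ω y).1) = Ex μ f := by
  unfold Ex
  let e : (Q → α × β) ≃ (Q → α) × (Q → β) :=
    { toFun := fun ω => (fun y => (ω y).1, fun y => (ω y).2)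
      invFun := fun ω y => (ω.1 y, ω.2 y)
      left_inv := fun ω => rfl
      right_inv := fun ω => rfl }
  have h1 : ∀ ω : Q → α × β, wt (prodLaw μ ν) ω * f (fun y => (ω y).1) =
      (fun q : (Q → α) × (Q → β) => wt μ q.1 * wt ν q.2 * f q.1) (e ω) := by
    intro ω
    show _ = wt μ (fun y => (ω y).1) * wt ν (fun y => (ω y).2) * f (fun y => (ω y).1)
    congr 1
    unfold wt prodLaw
    rw [← Finset.prod_mul_distrib]
  rw [Finset.sum_congr rfl fun ω _ => h1 ω,
    e.sum_comp (fun q : (Q → α) × (Q → β) => wt μ q.1 * wt ν q.2 * f q.1),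
    Fintype.sum_prod_type]
  refine Finset.sum_congr rfl fun ω _ => ?_
  simp only
  rw [← Finset.sum_mul, ← Finset.mul_sum, Pool.Agent.Acy.sum_wt hν, mul_one]

theorem Pr_prodLaw_fst {μ : Q → α → ℝ} {ν : Q → β → ℝ} (_hμ : IsPM μ) (hν : IsPM ν)
    (E : (Q → α) → Prop) : Pr (prodLaw μ ν) (fun ω => E fun y => (ω y).1) = Pr μ E :=
  Ex_prodLaw_fst hν (fun ω => if E ω then 1 else 0)

theorem StepOK.fst {T : ℝ} {μ : Q → α → ℝ} {ν : Q → β → ℝ} (hμ : IsPM μ) (hν : IsPM ν)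
    {G : (Q → α) → Prop} (h : StepOK T μ G) :
    StepOK T (prodLaw μ ν) (fun ω => G fun y => (ω y).1) := by
  obtain ⟨κ, hκ, E, S, hd, hp, hs, hi, hg⟩ := h
  refine ⟨κ, hκ, fun b ω => E b fun y => (ω y).1, S, ?_, ?_, hs, hi, ?_⟩
  · intro b ω ω' hω
    exact hd b fun i hi => by rw [hω i hi]
  · intro b
    rw [Pr_prodLaw_fst hμ hν]
    exact hp b
  · intro ω hω
    exact hg _ hω

theorem wt_fst_pos {μ : Q → α → ℝ} {ν : Q → β → ℝ} (hμ : IsPM μ) (hν : IsPM ν)
    {ω : Q → α × β} (h : 0 < wt (prodLaw μ ν) ω) : 0 < wt μ (fun y => (ω y).1) := by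
  have h1 : wt (prodLaw μ ν) ω = wt μ (fun y => (ω y).1) * wt ν (fun y => (ω y).2) := by
    unfold wt prodLaw
    rw [← Finset.prod_mul_distrib]
  rw [h1] at h
  exact pos_of_mul_pos_left h (Pool.Agent.Acy.wt_nonneg hν _)

end

end Pool.Agent.AcyK
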