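import Pool.Agent.AcyK.LamA
import Pool.Agent.AcyK.Tools

/-! # Auxiliary processes with explicit exponents (module OAX) -/

set_option autoImplicit false
set_option linter.unusedSectionVars false

namespace Pool.Agent.AcyK

open Finset
open Pool.Agent.Acy (IsPM wt Ex Pr mean)
open scoped Classical

universe u v w

section marg

variable {Q : Type u} [Fintype Q] [DecidableEq Q]

/-- Expectation under a relabelling of the values. -/
theorem Ex_equiv {α α' : Type*} [Fintype α] [Fintype α'] (μ : Q → α → ℝ) (e : α' ≃ α)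
    (f : (Q → α) → ℝ) :
    Ex (fun q a => μ q (e a)) (fun ω => f fun y => e (ω y)) = Ex μ f := by
  unfold Ex wt
  exact (Equiv.arrowCongr (Equiv.refl Q) e).sum_comp
    (fun ω : Q → α => (∏ i, μ i (ω i)) * f ω)

/-- A map of the values that respects the laws. -/
theorem LocOK.map {α α' : Type*} [Fintype α] [Fintype α'] {e : ℕ} {T : ℝ} {μ : Q → α → ℝ}
    {μ' : Q → α' → ℝ} (π : α' → α)
    (hπ : ∀ E : (Q → α) → Prop, Pr μ' (fun ω => E fun y => π (ω y)) = Pr μ E)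
    {G : (Q → α) → Prop} (h : LocOK e T μ G) : LocOK e T μ' (fun ω => G fun y => π (ω y)) := by
  obtain ⟨κ, hκ, E, S, hd, hp, hs, hi, hg⟩ := h
  refine ⟨κ, hκ, fun b ω => E b fun y => π (ω y), S, ?_, ?_, hs, hi, ?_⟩
  · intro b ω ω' hω
    exact hd b fun i hi => by rw [hω i hi]
  · intro b
    rw [hπ]
    exact hp b
  · intro ω hω
    exact hg _ hω

variable {α β γ : Type*} [Fintype α] [Fintype β] [Fintype γ]

theorem Pr_prod_left {p : Q → α → ℝ} {ν : Q → β → ℝ} {ν' : Q → γ → ℝ} (hν' : IsPM ν')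
    (E : (Q → α × β) → Prop) :
    Pr (prodLaw p (prodLaw ν ν')) (fun ω => E fun y => ((ω y).1, (ω y).2.1)) =
      Pr (prodLaw p ν) E := by
  have h1 := Ex_prodLaw_fst (μ := prodLaw p ν) hν' (fun ω => if E ω then (1 : ℝ) else 0)
  have h2 := Ex_equiv (prodLaw (prodLaw p ν) ν') (Equiv.prodAssoc α β γ).symm
    (fun ω => if E (fun y => (ω y).1) then (1 : ℝ) else 0)
  have h3 : (fun q (a : α × β × γ) => prodLaw (prodLaw p ν) ν' q ((Equiv.prodAssoc α β γ).symm a)) =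
      prodLaw p (prodLaw ν ν') := by
    funext q a
    simp only [prodLaw, Equiv.prodAssoc_symm_apply]
    ring
  rw [h3] at h2
  exact h2.trans h1

theorem Pr_prod_right {p : Q → α → ℝ} {ν : Q → β → ℝ} {ν' : Q → γ → ℝ} (hν : IsPM ν)
    (E : (Q → α × γ) → Prop) :
    Pr (prodLaw p (prodLaw ν ν')) (fun ω => E fun y => ((ω y).1, (ω y).2.2)) =
      Pr (prodLaw p ν') E := by
  have h1 := Ex_prodLaw_fst (μ := prodLaw p ν') hν (fun ω => if E ω then (1 : ℝ) else 0)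
  have h2 := Ex_equiv (prodLaw (prodLaw p ν') ν)
    (((Equiv.refl α).prodCongr (Equiv.prodComm β γ)).trans (Equiv.prodAssoc α γ β).symm)
    (fun ω => if E (fun y => (ω y).1) then (1 : ℝ) else 0)
  have h3 : (fun q (a : α × β × γ) => prodLaw (prodLaw p ν') ν q
      ((((Equiv.refl α).prodCongr (Equiv.prodComm β γ)).trans (Equiv.prodAssoc α γ β).symm) a)) =
      prodLaw p (prodLaw ν ν') := by
    funext q a
    rcases a with ⟨a, b, c⟩
    show p q a * ν' q c * ν q b = p q a * (ν q b * ν' q c)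
    ring
  rw [h3] at h2
  exact h2.trans h1

end marg

section aux

variable {Q ι : Type u} [Fintype Q] [DecidableEq Q] [Fintype ι] [DecidableEq ι]

/-- `AuxOK` with an explicit exponent. -/
def AuxLoc {σ : Type v} (e : ℕ) (D : NibData Q ι)
    (X : ℕ → (Q → Option (Fin D.k × ℕ)) → (ι → ℝ) → σ → Prop) : Prop :=
  ∀ m < D.M, ∀ (col : Q → Option (Fin D.k × ℕ)) (Y : ι → ℝ) (s : σ), X m col Y s →
    (∀ i, ((D.A i ∩ Un col).card : ℝ) ≤
      ((D.q : ℝ) - m) / D.q * (D.A i).card + m * D.T ^ 1502) →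
    ∃ XA : (Q → Option Bool) → Prop, LocOK e D.T (D.lawA m) XA ∧
    ∀ lam, XA lam →
    (∀ b i, |((D.A i ∩ Sel col lam b).card : ℝ) - D.t m * (D.A i ∩ Un col).card| ≤
      D.T ^ 1502) →
    (∀ b i, ((D.A i).card : ℝ) ≤ D.T ^ 1603 →
      |((D.A i ∩ Sel col lam b).card : ℝ) - D.t m * (D.A i ∩ Un col).card| ≤ D.T ^ 805) →
    ∀ p : Q → Fin D.k → ℝ, IsPM p → (∀ u c, p u c ≤ 2 * D.T / D.k) →
    (∀ z c, lam z = some true → 0 < p z c → ∀ u r, col u = some (c, r) →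
      D.K u z ≠ -1 ∧ D.h u z ≤ 1) →
    ∃ (β : Type u) (_ : Fintype β) (ν : Q → β → ℝ) (upd : (Q → Fin D.k × β) → σ), IsPM ν ∧
      LocOK e D.T (prodLaw p ν) (fun ω => ∀ Y' : ι → ℝ, (∀ i, 0 ≤ Y' i) →
        (∀ i, ((D.A i).card : ℝ) ≤ D.T ^ 1603 →
          Y' i ≤ Y i - D.Hz lam p col i + 1 / D.T ^ 1000) →
        X (m + 1) (updCol m col lam fun u => (ω u).1) Y' (upd ω))

theorem AuxLoc.mono {σ : Type v} {e e' : ℕ} {D : NibData Q ι} (hT : Big D.T) (he : e ≤ e')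
    {X : ℕ → (Q → Option (Fin D.k × ℕ)) → (ι → ℝ) → σ → Prop} (h : AuxLoc e D X) :
    AuxLoc e' D X := by
  intro m hm col Y s hX hU
  obtain ⟨XA, hXA, h1⟩ := h m hm col Y s hX hU
  refine ⟨XA, LocOK.mono hT hXA he, ?_⟩
  intro lam hlam h2 h3 p hp hp' hp0
  obtain ⟨β, hβ, ν, upd, hν, hG⟩ := h1 lam hlam h2 h3 p hp hp' hp0
  exact ⟨β, hβ, ν, upd, hν, LocOK.mono hT hG he⟩

/-- Two auxiliary processes can be run together, with explicit exponent. -/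
theorem AuxLoc.and_loc {σ : Type v} {τ : Type w} {e : ℕ} {D : NibData Q ι} (hT : Big D.T)
    {X : ℕ → (Q → Option (Fin D.k × ℕ)) → (ι → ℝ) → σ → Prop}
    {X' : ℕ → (Q → Option (Fin D.k × ℕ)) → (ι → ℝ) → τ → Prop}
    (h : AuxLoc e D X) (h' : AuxLoc e D X') :
    AuxLoc (e + 1) D (fun m col Y (s : σ × τ) => X m col Y s.1 ∧ X' m col Y s.2) := by
  rintro m hm col Y ⟨s, s'⟩ ⟨hX, hX'⟩ hU
  obtain ⟨XA, hXA, h1⟩ := h m hm col Y s hX hU
  obtain ⟨XA', hXA', h1'⟩ := h' m hm col Y s' hX' hU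
  refine ⟨fun lam => XA lam ∧ XA' lam, LocOK.and hT hXA hXA', ?_⟩
  rintro lam ⟨hlam, hlam'⟩ h2 h3 p hp hp' hp0
  obtain ⟨β, hβ, ν, upd, hν, hG⟩ := h1 lam hlam h2 h3 p hp hp' hp0
  obtain ⟨β', hβ', ν', upd', hν', hG'⟩ := h1' lam hlam' h2 h3 p hp hp' hp0
  refine ⟨β × β', inferInstance, prodLaw ν ν',
    fun ω => (upd fun y => ((ω y).1, (ω y).2.1), upd' fun y => ((ω y).1, (ω y).2.2)),
    prodLaw_isPM hν hν', ?_⟩
  have k1 := LocOK.map (fun a : Fin D.k × β × β' => (a.1, a.2.1))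
    (fun E => Pr_prod_left (p := p) (ν := ν) hν' E) hG
  have k2 := LocOK.map (fun a : Fin D.k × β × β' => (a.1, a.2.2))
    (fun E => Pr_prod_right (p := p) (ν' := ν') hν E) hG'
  have k3 := LocOK.and hT k1 k2
  obtain ⟨κ, hκ, E, S, hd, hpr, hs, hi, hg⟩ := k3
  refine ⟨κ, hκ, E, S, hd, hpr, hs, hi, ?_⟩
  intro ω hω Y' hY0 hY
  obtain ⟨g1, g2⟩ := hg ω hω
  exact ⟨g1 Y' hY0 hY, g2 Y' hY0 hY⟩

theorem AuxLoc.auxOK {σ : Type v} {e : ℕ} {D : NibData Q ι} (hT : Big D.T) (he : e ≤ 60000)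
    {X : ℕ → (Q → Option (Fin D.k × ℕ)) → (ι → ℝ) → σ → Prop} (h : AuxLoc e D X) :
    AuxOK D X := by
  intro m hm col Y s hX hU
  obtain ⟨XA, hXA, h1⟩ := h m hm col Y s hX hU
  refine ⟨XA, LocOK.stepOK hT hXA he, ?_⟩
  intro lam hlam h2 h3 p hp hp' hp0
  obtain ⟨β, hβ, ν, upd, hν, hG⟩ := h1 lam hlam h2 h3 p hp hp' hp0
  exact ⟨β, hβ, ν, upd, hν, LocOK.stepOK hT hG he⟩

/-- Two auxiliary processes can be run together. -/
theorem AuxLoc.and {σ : Type v} {τ : Type w} {e : ℕ} {D : NibData Q ι} (hT : Big D.T)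
    (he : e < 60000)
    {X : ℕ → (Q → Option (Fin D.k × ℕ)) → (ι → ℝ) → σ → Prop}
    {X' : ℕ → (Q → Option (Fin D.k × ℕ)) → (ι → ℝ) → τ → Prop}
    (h : AuxLoc e D X) (h' : AuxLoc e D X') :
    AuxOK D (fun m col Y (s : σ × τ) => X m col Y s.1 ∧ X' m col Y s.2) :=
  AuxLoc.auxOK hT he (AuxLoc.and_loc hT h h')

end aux

end Pool.Agent.AcyK
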