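import Pool.Agent.AcyK.LamA

/-! # Local counting lemma; statistics of kinds 1 and 2 (project MP_af9dfb_K, row D2) -/

set_option autoImplicit false
set_option linter.unusedSectionVars false

namespace Pool.Agent.AcyK

open Finset
open Pool.Agent.Acy (IsPM wt Ex Pr mean cnt ext Holds)
open scoped Classical

universe u v

section

variable {Q : Type u} [Fintype Q] [DecidableEq Q]

/-! ### The constants -/

/-- The constant of the counting lemma with at most `r` conditions. -/
noncomputable def cr (T : ℝ) (r : ℕ) : ℝ := Real.exp 1 * ((r * ⌈T⌉₊ + 1 : ℕ) : ℝ) ^ r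

theorem cr_pos (T : ℝ) (r : ℕ) : 0 < cr T r := by
  unfold cr
  positivity

theorem cr_aux {T : ℝ} (hT : Big T) (r : ℕ) :
    ((r * ⌈T⌉₊ + 1 : ℕ) : ℝ) ≤ r * T + (r + 1) := by
  have h2 : (⌈T⌉₊ : ℝ) < T + 1 := Nat.ceil_lt_add_one hT.pos.le
  push_cast
  have h3 : (r : ℝ) * ⌈T⌉₊ ≤ r * (T + 1) := mul_le_mul_of_nonneg_left h2.le (Nat.cast_nonneg _)
  linarith

theorem exp_one_le : Real.exp 1 ≤ 28 / 10 := by
  have := Real.exp_one_lt_d9
  linarith

theorem cr1 {T : ℝ} (hT : Big T) : cr T 1 ≤ 4 * T := by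
  have hTb := hT.big
  norm_num at hTb
  have h1 := cr_aux hT 1
  unfold cr
  calc Real.exp 1 * ((1 * ⌈T⌉₊ + 1 : ℕ) : ℝ) ^ 1 ≤ 28 / 10 * ((1 : ℕ) * T + ((1 : ℕ) + 1)) ^ 1 :=
        mul_le_mul exp_one_le (pow_le_pow_left₀ (Nat.cast_nonneg _) h1 1) (by positivity)
          (by norm_num)
    _ ≤ 4 * T := by push_cast; linarith

theorem cr2 {T : ℝ} (hT : Big T) : cr T 2 ≤ 12 * T ^ 2 := by
  have hTb := hT.big
  norm_num at hTb
  have hT0 := hT.pos
  have h1 := cr_aux hT 2
  unfold cr
  calc Real.exp 1 * ((2 * ⌈T⌉₊ + 1 : ℕ) : ℝ) ^ 2 ≤ 28 / 10 * ((2 : ℕ) * T + ((2 : ℕ) + 1)) ^ 2 :=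
        mul_le_mul exp_one_le (pow_le_pow_left₀ (Nat.cast_nonneg _) h1 2) (by positivity)
          (by norm_num)
    _ ≤ 28 / 10 * (202 / 100 * T) ^ 2 := by
        have h3 : ((2 : ℕ) : ℝ) * T + ((2 : ℕ) + 1) ≤ 202 / 100 * T := by push_cast; linarith
        gcongr
    _ ≤ 12 * T ^ 2 := by nlinarith [sq_nonneg T]

theorem cr3 {T : ℝ} (hT : Big T) : cr T 3 ≤ 100 * T ^ 3 := by
  have hTb := hT.big
  norm_num at hTb
  have hT0 := hT.pos
  have h1 := cr_aux hT 3
  unfold cr
  calc Real.exp 1 * ((3 * ⌈T⌉₊ + 1 : ℕ) : ℝ) ^ 3 ≤ 28 / 10 * ((3 : ℕ) * T + ((3 : ℕ) + 1)) ^ 3 :=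
        mul_le_mul exp_one_le (pow_le_pow_left₀ (Nat.cast_nonneg _) h1 3) (by positivity)
          (by norm_num)
    _ ≤ 28 / 10 * (31 / 10 * T) ^ 3 := by
        have h3 : ((3 : ℕ) : ℝ) * T + ((3 : ℕ) + 1) ≤ 31 / 10 * T := by push_cast; linarith
        gcongr
    _ ≤ 100 * T ^ 3 := by nlinarith [pow_pos hT0 3]

theorem cr5 {T : ℝ} (hT : Big T) : cr T 5 ≤ 20000 * T ^ 5 := by
  have hTb := hT.big
  norm_num at hTb
  have hT0 := hT.pos
  have h1 := cr_aux hT 5
  unfold cr
  calc Real.exp 1 * ((5 * ⌈T⌉₊ + 1 : ℕ) : ℝ) ^ 5 ≤ 28 / 10 * ((5 : ℕ) * T + ((5 : ℕ) + 1)) ^ 5 :=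
        mul_le_mul exp_one_le (pow_le_pow_left₀ (Nat.cast_nonneg _) h1 5) (by positivity)
          (by norm_num)
    _ ≤ 28 / 10 * (51 / 10 * T) ^ 5 := by
        have h3 : ((5 : ℕ) : ℝ) * T + ((5 : ℕ) + 1) ≤ 51 / 10 * T := by push_cast; linarith
        gcongr
    _ ≤ 20000 * T ^ 5 := by nlinarith [pow_pos hT0 5]

/-! ### The local counting lemma -/

/-- `cnt` depends only on the coordinates of the configurations of positive weight. -/
theorem cnt_congr {α : Type*} [Fintype α] [DecidableEq α] {U : Type*} [Fintype U] (w : U → ℝ)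
    (cd : U → Finset (Q × α)) (S : Finset Q)
    (hS : ∀ x, w x ≠ 0 → ∀ q ∈ cd x, q.1 ∈ S) {ω ω' : Q → α} (h : ∀ y ∈ S, ω y = ω' y) :
    cnt w cd ω = cnt w cd ω' := by
  unfold cnt
  refine sum_congr rfl fun x _ => ?_
  by_cases hw : w x = 0
  · simp [hw]
  · have h2 : Holds (cd x) ω ↔ Holds (cd x) ω' := by
      unfold Holds
      constructor
      · intro h1 q hq
        rw [← h q.1 (hS x hw q hq)]
        exact h1 q hq
      · intro h1 q hq
        rw [h q.1 (hS x hw q hq)]
        exact h1 q hq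
    simp only [h2]

/-- The counting lemma for a local family of configuration systems. -/
theorem loc_count {α : Type*} [Fintype α] [DecidableEq α] {T : ℝ} (hT : Big T)
    {μ : Q → α → ℝ} (hμ : IsPM μ) {κ : Type u} [Fintype κ] (P : κ → Prop) {U : Type*}
    [Fintype U] (w : κ → U → ℝ) (hw : ∀ a x, 0 ≤ w a x) (cd : κ → U → Finset (Q × α)) (r : ℕ)
    (hr : ∀ a x, (cd a x).card ≤ r) (M : κ → ℝ) (hM : ∀ a, P a → 0 < M a)
    (hext : ∀ a, P a → ∀ W : Finset (Q × α), W.card ≤ r → ext μ (w a) (cd a) W ≤ M a)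
    (S : κ → Finset Q) (hS : ∀ a, P a → ∀ x, w a x ≠ 0 → ∀ q ∈ cd a x, q.1 ∈ S a) (e : ℕ)
    (hcard : ∀ a, P a → ((S a).card : ℝ) ≤ T ^ e)
    (hdeg : ∀ y, ∃ F : Finset κ, (∀ a, P a → y ∈ S a → a ∈ F) ∧ (F.card : ℝ) ≤ T ^ e) :
    LocOK e T μ (fun ω => ∀ a, P a → cnt (w a) (cd a) ω ≤ cr T r * M a) := by
  refine ⟨κ, inferInstance, fun a ω => P a ∧ cr T r * M a < cnt (w a) (cd a) ω,
    fun a => if P a then S a else ∅, ?_, ?_, ?_, ?_, ?_⟩
  · intro a ω ω' h
    by_cases hP : P a
    · have h1 := cnt_congr (w a) (cd a) (S a) (hS a hP) (ω := ω) (ω' := ω')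
        (fun y hy => h y (by simp only [hP, if_true]; exact_mod_cast hy))
      simp only [h1]
    · simp only [hP, false_and]
  · intro a
    by_cases hP : P a
    · have h1 := Pool.Agent.Acy.count_tail hμ μ (fun _ _ => le_rfl) (w a) (hw a) (cd a) r (hr a)
        (M a) (hM a hP) (hext a hP) ⌈T⌉₊
      refine le_trans (Pool.Agent.Acy.Pr_mono hμ fun ω hω => ?_) (h1.trans ?_)
      · exact hω.2.le
      · exact Real.exp_le_exp.2 (neg_le_neg (Nat.le_ceil T))
    · have h1 : Pr μ (fun ω => P a ∧ cr T r * M a < cnt (w a) (cd a) ω) = 0 := by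
        unfold Pr Ex
        refine sum_eq_zero fun lam _ => ?_
        simp only [hP, false_and, if_false, mul_zero]
      rw [h1]
      exact (Real.exp_pos _).le
  · intro a
    by_cases hP : P a
    · simp only [hP, if_true]
      exact hcard a hP
    · simp only [hP, if_false, card_empty, Nat.cast_zero]
      exact pow_nonneg hT.pos.le _
  · intro y
    obtain ⟨F, hF1, hF2⟩ := hdeg y
    have h1 : (univ.filter fun a => y ∈ if P a then S a else ∅) ⊆ F := by
      intro a ha
      have h2 := (mem_filter.1 ha).2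
      by_cases hP : P a
      · rw [if_pos hP] at h2
        exact hF1 a hP h2
      · rw [if_neg hP] at h2
        exact absurd h2 (notMem_empty _)
    exact le_trans (by exact_mod_cast card_le_card h1) hF2
  · intro ω h a hP
    exact not_lt.1 fun h1 => h a ⟨hP, h1⟩

/-! ### Single picks and pairs of equal picks -/

/-- Extension sums of a system of single picks. -/
theorem ext_single {α : Type*} [Fintype α] [DecidableEq α] (μ : Q → α → ℝ)
    (g : Q → α → ℝ) (hg : ∀ u c, 0 ≤ g u c) (M : ℝ) (h0 : ∑ u, ∑ c, g u c * μ u c ≤ M)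
    (h1 : ∀ u c, g u c ≤ M) (W : Finset (Q × α)) :
    ext μ (fun U : Q × α => g U.1 U.2) (fun U => {U}) W ≤ M := by
  unfold Pool.Agent.Acy.ext
  by_cases hW : W = ∅
  · subst hW
    calc _ = ∑ U : Q × α, g U.1 U.2 * μ U.1 U.2 := by
          refine Finset.sum_congr rfl fun U _ => ?_
          rw [if_pos (empty_subset _), sdiff_empty]
          simp only [prod_singleton]
      _ = ∑ u, ∑ c, g u c * μ u c := by rw [Fintype.sum_prod_type]
      _ ≤ _ := h0
  · obtain ⟨q, hq⟩ := nonempty_iff_ne_empty.2 hW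
    calc _ ≤ ∑ U : Q × α, (if U = q then g q.1 q.2 else 0) := by
          refine Finset.sum_le_sum fun U _ => ?_
          by_cases hU : U = q
          · subst hU
            rw [if_pos rfl]
            split_ifs with h
            · have : ({U} : Finset (Q × α)) \ W = ∅ := by
                rw [sdiff_eq_empty_iff_subset]
                intro z hz
                simp only [mem_singleton] at hz
                rw [hz]; exact hq
              rw [this, prod_empty, mul_one]
            · exact hg _ _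
          · rw [if_neg hU, if_neg]
            intro h
            have := h hq
            simp only [mem_singleton] at this
            exact hU this.symm
      _ = g q.1 q.2 := by simp
      _ ≤ _ := h1 _ _

theorem cnt_single {α : Type*} [Fintype α] [DecidableEq α] (g : Q → α → ℝ) (ω : Q → α) :
    cnt (fun U : Q × α => g U.1 U.2) (fun U => {U}) ω = ∑ u, g u (ω u) := by
  unfold cnt
  rw [Fintype.sum_prod_type]
  refine Finset.sum_congr rfl fun u _ => ?_
  rw [Finset.sum_eq_single (ω u)]
  · have hh : Holds ({(u, ω u)} : Finset (Q × α)) ω := by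
      intro q hq
      rw [mem_singleton] at hq
      rw [hq]
    rw [if_pos hh]
  · intro c _ hc
    rw [if_neg]
    intro hh
    exact hc (hh (u, c) (mem_singleton_self _)).symm
  · intro h
    exact absurd (mem_univ _) h

/-- Local family of sums of functions of single picks. -/
theorem loc_single {α : Type*} [Fintype α] [DecidableEq α] {T : ℝ} (hT : Big T)
    {μ : Q → α → ℝ} (hμ : IsPM μ) {κ : Type u} [Fintype κ] (P : κ → Prop)
    (g : κ → Q → α → ℝ) (hg : ∀ a u c, 0 ≤ g a u c) (M : κ → ℝ) (hM : ∀ a, P a → 0 < M a)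
    (h0 : ∀ a, P a → ∑ u, ∑ c, g a u c * μ u c ≤ M a) (h1 : ∀ a, P a → ∀ u c, g a u c ≤ M a)
    (S : κ → Finset Q) (hS : ∀ a, P a → ∀ u c, g a u c ≠ 0 → u ∈ S a) (e : ℕ)
    (hcard : ∀ a, P a → ((S a).card : ℝ) ≤ T ^ e)
    (hdeg : ∀ y, ∃ F : Finset κ, (∀ a, P a → y ∈ S a → a ∈ F) ∧ (F.card : ℝ) ≤ T ^ e) :
    LocOK e T μ (fun ω => ∀ a, P a → ∑ u, g a u (ω u) ≤ 4 * T * M a) := by
  have h := loc_count hT hμ P (fun a (U : Q × α) => g a U.1 U.2) (fun a x => hg a _ _)
    (fun _ U => {U}) 1 (fun a x => by rw [card_singleton]) M hM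
    (fun a ha W _ => ext_single μ (g a) (hg a) (M a) (h0 a ha) (h1 a ha) W) S
    (fun a ha x hx q hq => by
      rw [mem_singleton] at hq
      rw [hq]
      exact hS a ha _ _ hx) e hcard hdeg
  obtain ⟨κ', hκ', E, S', hd, hp, hs, hi, hgood⟩ := h
  refine ⟨κ', hκ', E, S', hd, hp, hs, hi, fun ω hE a ha => ?_⟩
  have h2 := hgood ω hE a ha
  rw [cnt_single] at h2
  exact h2.trans (mul_le_mul_of_nonneg_right (cr1 hT) (hM a ha).le)

/-- Extension sums of a system of pairs of equal picks. -/
theorem ext_pair {α : Type*} [Fintype α] [DecidableEq α] {μ : Q → α → ℝ} (hμ : IsPM μ)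
    (g : Q → Q → α → ℝ) (hg : ∀ u u' c, 0 ≤ g u u' c) (hgd : ∀ u c, g u u c = 0) (M : ℝ)
    (h0 : ∑ u, ∑ u', ∑ c, g u u' c * (μ u c * μ u' c) ≤ M)
    (h1 : ∀ u c, ∑ u', (g u u' c + g u' u c) * μ u' c ≤ M)
    (h2 : ∀ u u' c, g u u' c + g u' u c ≤ M) (W : Finset (Q × α)) :
    ext μ (fun U : Q × Q × α => g U.1 U.2.1 U.2.2)
      (fun U => {(U.1, U.2.2), (U.2.1, U.2.2)}) W ≤ M := by
  set w : Q × Q × α → ℝ := fun U => g U.1 U.2.1 U.2.2 with hw'
  set cd : Q × Q × α → Finset (Q × α) := fun U => {(U.1, U.2.2), (U.2.1, U.2.2)} with hcd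
  have hμ0 : ∀ u c, 0 ≤ μ u c := hμ.nonneg
  have hw : ∀ U, 0 ≤ w U := fun U => hg _ _ _
  have hne : ∀ U, U.1 = U.2.1 → w U = 0 := by
    rintro ⟨u, u', c⟩ hU
    simp only at hU
    subst hU
    exact hgd u c
  have hcard : ∀ U : Q × Q × α, (cd U).card ≤ 2 := fun U => by
    refine (card_insert_le _ _).trans ?_
    rw [card_singleton]
  unfold Pool.Agent.Acy.ext
  rcases lt_trichotomy W.card 1 with hc | hc | hc
  · -- no condition
    have hW : W = ∅ := card_eq_zero.1 (by omega)
    subst hW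
    calc _ ≤ ∑ U : Q × Q × α, w U * (μ U.1 U.2.2 * μ U.2.1 U.2.2) := by
          refine Finset.sum_le_sum fun U _ => ?_
          rw [if_pos (empty_subset _), sdiff_empty]
          by_cases hU : U.1 = U.2.1
          · rw [hne U hU, zero_mul, zero_mul]
          · simp only [hcd]
            rw [prod_pair]
            intro h
            exact hU (Prod.ext_iff.1 h).1
      _ = ∑ u, ∑ u', ∑ c, g u u' c * (μ u c * μ u' c) := by
          simp only [Fintype.sum_prod_type, w]
      _ ≤ M := h0
  · -- one condition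
    obtain ⟨q, hq⟩ := card_eq_one.1 hc
    subst hq
    calc _ ≤ ∑ U : Q × Q × α,
          ((if U.1 = q.1 ∧ U.2.2 = q.2 then w U * μ U.2.1 q.2 else 0) +
           (if U.2.1 = q.1 ∧ U.2.2 = q.2 then w U * μ U.1 q.2 else 0)) := by
          refine Finset.sum_le_sum fun U _ => ?_
          have hn1 : (0 : ℝ) ≤ if U.1 = q.1 ∧ U.2.2 = q.2 then w U * μ U.2.1 q.2 else 0 := by
            split_ifs
            · exact mul_nonneg (hw U) (hμ0 _ _)
            · exact le_rfl
          have hn2 : (0 : ℝ) ≤ if U.2.1 = q.1 ∧ U.2.2 = q.2 then w U * μ U.1 q.2 else 0 := by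
            split_ifs
            · exact mul_nonneg (hw U) (hμ0 _ _)
            · exact le_rfl
          by_cases h : {q} ⊆ cd U
          · rw [if_pos h]
            by_cases hU : U.1 = U.2.1
            · rw [hne U hU, zero_mul]
              simp
            · have h3 : q ∈ cd U := h (mem_singleton_self q)
              have hne2 : ((U.1, U.2.2) : Q × α) ≠ (U.2.1, U.2.2) := fun hh =>
                hU (Prod.ext_iff.1 hh).1
              simp only [cd, mem_insert, mem_singleton] at h3
              rcases h3 with h3 | h3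
              · have h4 : cd U \ {q} = {(U.2.1, U.2.2)} := by
                  simp only [cd]
                  rw [h3]
                  ext z
                  simp only [mem_sdiff, mem_insert, mem_singleton]
                  constructor
                  · rintro ⟨rfl | rfl, hh⟩
                    · exact absurd rfl hh
                    · rfl
                  · rintro rfl
                    exact ⟨Or.inr rfl, fun hh => hne2 hh.symm⟩
                rw [h4, prod_singleton, if_pos (by rw [h3]; exact ⟨rfl, rfl⟩)]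
                have : q.2 = U.2.2 := by rw [h3]
                simp only [this] at hn2 ⊢
                linarith
              · have h4 : cd U \ {q} = {(U.1, U.2.2)} := by
                  simp only [cd]
                  rw [h3]
                  ext z
                  simp only [mem_sdiff, mem_insert, mem_singleton]
                  constructor
                  · rintro ⟨rfl | rfl, hh⟩
                    · rfl
                    · exact absurd rfl hh
                  · rintro rfl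
                    exact ⟨Or.inl rfl, fun hh => hne2 hh⟩
                rw [h4, prod_singleton,
                  if_pos (c := U.2.1 = q.1 ∧ U.2.2 = q.2) (by rw [h3]; exact ⟨rfl, rfl⟩)]
                have : q.2 = U.2.2 := by rw [h3]
                simp only [this] at hn1 ⊢
                linarith
          · rw [if_neg h]
            linarith
      _ = ∑ u', (g q.1 u' q.2 + g u' q.1 q.2) * μ u' q.2 := by
          simp only [add_mul]
          rw [Finset.sum_add_distrib, Finset.sum_add_distrib]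
          congr 1
          · simp only [Fintype.sum_prod_type, w]
            rw [Finset.sum_eq_single q.1]
            · refine Finset.sum_congr rfl fun u' _ => ?_
              rw [Finset.sum_eq_single q.2]
              · simp
              · intro c _ hc
                simp [hc]
              · intro h; exact absurd (mem_univ _) h
            · intro u _ hu
              simp [hu]
            · intro h; exact absurd (mem_univ _) h
          · simp only [Fintype.sum_prod_type, w]
            refine Finset.sum_congr rfl fun u _ => ?_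
            rw [Finset.sum_eq_single q.1]
            · rw [Finset.sum_eq_single q.2]
              · simp
              · intro c _ hc
                simp [hc]
              · intro h; exact absurd (mem_univ _) h
            · intro u' _ hu'
              simp [hu']
            · intro h; exact absurd (mem_univ _) h
      _ ≤ M := h1 q.1 q.2
  · -- both conditions
    obtain ⟨q, hq, q', hq', hne'⟩ := one_lt_card.1 hc
    calc _ ≤ ∑ U : Q × Q × α,
          ((if U = (q.1, q'.1, q.2) then w U else 0) +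
           (if U = (q'.1, q.1, q.2) then w U else 0)) := by
          refine Finset.sum_le_sum fun U _ => ?_
          have hn1 : (0 : ℝ) ≤ if U = (q.1, q'.1, q.2) then w U else 0 := by
            split_ifs
            · exact hw U
            · exact le_rfl
          have hn2 : (0 : ℝ) ≤ if U = (q'.1, q.1, q.2) then w U else 0 := by
            split_ifs
            · exact hw U
            · exact le_rfl
          by_cases h : W ⊆ cd U
          · rw [if_pos h]
            have h1 : cd U \ W = ∅ := by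
              rw [← card_eq_zero]
              rw [card_sdiff_of_subset h]
              have := hcard U
              omega
            rw [h1, prod_empty, mul_one]
            have h3 := h hq
            have h4 := h hq'
            simp only [cd, mem_insert, mem_singleton] at h3 h4
            rcases h3 with h3 | h3 <;> rcases h4 with h4 | h4
            · exact absurd (h3.trans h4.symm) hne'
            · have : U = (q.1, q'.1, q.2) := by rw [h3, h4]
              rw [if_pos this]
              linarith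
            · have : U = (q'.1, q.1, q.2) := by rw [h3, h4]
              rw [if_pos (c := U = (q'.1, q.1, q.2)) this]
              linarith
            · exact absurd (h3.trans h4.symm) hne'
          · rw [if_neg h]
            linarith
      _ = w (q.1, q'.1, q.2) + w (q'.1, q.1, q.2) := by
          rw [Finset.sum_add_distrib]
          simp
      _ ≤ M := h2 q.1 q'.1 q.2

theorem cnt_pair {α : Type*} [Fintype α] [DecidableEq α] (g : Q → Q → α → ℝ) (ω : Q → α) :
    cnt (fun U : Q × Q × α => g U.1 U.2.1 U.2.2)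
      (fun U => {(U.1, U.2.2), (U.2.1, U.2.2)}) ω =
      ∑ u, ∑ u', if ω u = ω u' then g u u' (ω u) else 0 := by
  have hHolds : ∀ (ω : Q → α) (u u' : Q) (c : α),
      Holds ({(u, c), (u', c)} : Finset (Q × α)) ω ↔ ω u = c ∧ ω u' = c := by
    intro ω u u' c
    constructor
    · intro hh
      exact ⟨hh (u, c) (by simp), hh (u', c) (by simp)⟩
    · rintro ⟨ha, hb⟩ z hz
      simp only [mem_insert, mem_singleton] at hz
      rcases hz with rfl | rfl
      · exact ha
      · exact hb
  unfold cnt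
  rw [Fintype.sum_prod_type]
  refine Finset.sum_congr rfl fun u _ => ?_
  rw [Fintype.sum_prod_type]
  refine Finset.sum_congr rfl fun u' _ => ?_
  simp only [hHolds]
  rw [Finset.sum_eq_single (ω u)]
  · by_cases hu : ω u = ω u'
    · rw [if_pos hu, if_pos ⟨rfl, hu.symm⟩]
    · rw [if_neg hu, if_neg]
      rintro ⟨-, h⟩
      exact hu h.symm
  · intro c _ hc
    rw [if_neg]
    rintro ⟨h, -⟩
    exact hc h.symm
  · intro h
    exact absurd (mem_univ _) h

/-- Local family of sums over pairs of equal picks. -/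
theorem loc_pair {α : Type*} [Fintype α] [DecidableEq α] {T : ℝ} (hT : Big T)
    {μ : Q → α → ℝ} (hμ : IsPM μ) {κ : Type u} [Fintype κ] (P : κ → Prop)
    (g : κ → Q → Q → α → ℝ) (hg : ∀ a u u' c, 0 ≤ g a u u' c) (hgd : ∀ a u c, g a u u c = 0)
    (M : κ → ℝ) (hM : ∀ a, P a → 0 < M a)
    (h0 : ∀ a, P a → ∑ u, ∑ u', ∑ c, g a u u' c * (μ u c * μ u' c) ≤ M a)
    (h1 : ∀ a, P a → ∀ u c, ∑ u', (g a u u' c + g a u' u c) * μ u' c ≤ M a)
    (h2 : ∀ a, P a → ∀ u u' c, g a u u' c + g a u' u c ≤ M a)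
    (S : κ → Finset Q) (hS : ∀ a, P a → ∀ u u' c, g a u u' c ≠ 0 → u ∈ S a ∧ u' ∈ S a) (e : ℕ)
    (hcard : ∀ a, P a → ((S a).card : ℝ) ≤ T ^ e)
    (hdeg : ∀ y, ∃ F : Finset κ, (∀ a, P a → y ∈ S a → a ∈ F) ∧ (F.card : ℝ) ≤ T ^ e) :
    LocOK e T μ (fun ω => ∀ a, P a →
      ∑ u, ∑ u', (if ω u = ω u' then g a u u' (ω u) else 0) ≤ 12 * T ^ 2 * M a) := by
  have h := loc_count hT hμ P (fun a (U : Q × Q × α) => g a U.1 U.2.1 U.2.2)
    (fun a x => hg a _ _ _) (fun _ U => {(U.1, U.2.2), (U.2.1, U.2.2)}) 2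
    (fun a x => by
      refine (card_insert_le _ _).trans ?_
      rw [card_singleton]) M hM
    (fun a ha W _ => ext_pair hμ (g a) (hg a) (hgd a) (M a) (h0 a ha) (h1 a ha) (h2 a ha) W) S
    (fun a ha x hx q hq => by
      have h3 := hS a ha _ _ _ hx
      simp only [mem_insert, mem_singleton] at hq
      rcases hq with hq | hq
      · rw [hq]; exact h3.1
      · rw [hq]; exact h3.2) e hcard hdeg
  obtain ⟨κ', hκ', E, S', hd, hp, hs, hi, hgood⟩ := h
  refine ⟨κ', hκ', E, S', hd, hp, hs, hi, fun ω hE a ha => ?_⟩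
  have h2 := hgood ω hE a ha
  rw [cnt_pair] at h2
  exact h2.trans (mul_le_mul_of_nonneg_right (cr2 hT) (hM a ha).le)

/-! ### Colours -/

/-- `y` has the colour `c`. -/
def HasC {k : ℕ} (col : Q → Option (Fin k × ℕ)) (y : Q) (c : Fin k) : Prop :=
  ∃ r, col y = some (c, r)

/-- `y` and `y'` have the same colour. -/
def SameC {k : ℕ} (col : Q → Option (Fin k × ℕ)) (y y' : Q) : Prop :=
  ∃ c, HasC col y c ∧ HasC col y' c

theorem HasC.uniq {k : ℕ} {col : Q → Option (Fin k × ℕ)} {y : Q} {c c' : Fin k}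
    (h : HasC col y c) (h' : HasC col y c') : c = c' := by
  obtain ⟨r, hr⟩ := h
  obtain ⟨r', hr'⟩ := h'
  rw [hr] at hr'
  simpa using (congrArg Prod.fst (Option.some.inj hr'))

theorem HasC.ne_none {k : ℕ} {col : Q → Option (Fin k × ℕ)} {y : Q} {c : Fin k}
    (h : HasC col y c) : col y ≠ none := by
  obtain ⟨r, hr⟩ := h
  rw [hr]
  simp

theorem exists_hasC {k : ℕ} {col : Q → Option (Fin k × ℕ)} {y : Q} (h : col y ≠ none) :
    ∃ c, HasC col y c := by
  obtain ⟨⟨c, r⟩, hcr⟩ := Option.ne_none_iff_exists'.1 h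
  exact ⟨c, r, hcr⟩

theorem mem_Sel {k : ℕ} {col : Q → Option (Fin k × ℕ)} {lam : Q → Option Bool} {y : Q} :
    y ∈ Sel col lam true ↔ col y = none ∧ lam y = some true := by
  simp [Sel]

theorem hasC_upd {k : ℕ} (m : ℕ) (col : Q → Option (Fin k × ℕ)) (lam : Q → Option Bool)
    (ω : Q → Fin k) (y : Q) (c : Fin k) : HasC (updCol m col lam ω) y c ↔
      HasC col y c ∨ (y ∈ Sel col lam true ∧ ω y = c) := by
  unfold HasC updCol
  rw [mem_Sel]
  by_cases h : col y = none ∧ lam y = some true
  · simp only [h, true_and, if_true]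
    simp
  · simp only [h, if_false, false_and, or_false]

theorem upd_ne_none {k : ℕ} (m : ℕ) (col : Q → Option (Fin k × ℕ)) (lam : Q → Option Bool)
    (ω : Q → Fin k) (y : Q) : updCol m col lam ω y ≠ none ↔
      col y ≠ none ∨ y ∈ Sel col lam true := by
  unfold updCol
  rw [mem_Sel]
  by_cases h : col y = none ∧ lam y = some true
  · simp [h]
  · simp only [h, if_false, or_false]

/-! ### Kind 1 -/

/-- Weight of the vertices of colour `c`. -/
noncomputable def L1 {k : ℕ} (col : Q → Option (Fin k × ℕ)) (g : Q → ℝ) (c : Fin k) : ℝ :=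
  ∑ y, if HasC col y c then g y else 0

/-- Weight of the coloured vertices. -/
noncomputable def C1 {k : ℕ} (col : Q → Option (Fin k × ℕ)) (g : Q → ℝ) : ℝ :=
  ∑ y, if col y ≠ none then g y else 0

theorem L1_nonneg {k : ℕ} (col : Q → Option (Fin k × ℕ)) {g : Q → ℝ} (hg : ∀ y, 0 ≤ g y)
    (c : Fin k) : 0 ≤ L1 col g c := by
  unfold L1
  refine Finset.sum_nonneg fun y _ => ?_
  split_ifs
  · exact hg y
  · exact le_rfl

theorem C1_nonneg {k : ℕ} (col : Q → Option (Fin k × ℕ)) {g : Q → ℝ} (hg : ∀ y, 0 ≤ g y) :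
    0 ≤ C1 col g := by
  unfold C1
  refine Finset.sum_nonneg fun y _ => ?_
  by_cases h : col y ≠ none
  · rw [if_pos h]
    exact hg y
  · rw [if_neg h]

theorem L1_upd {k : ℕ} (m : ℕ) (col : Q → Option (Fin k × ℕ)) (lam : Q → Option Bool)
    (ω : Q → Fin k) (g : Q → ℝ) (c : Fin k) : L1 (updCol m col lam ω) g c =
      L1 col g c + ∑ y, if y ∈ Sel col lam true ∧ ω y = c then g y else 0 := by
  unfold L1
  rw [← Finset.sum_add_distrib]
  refine Finset.sum_congr rfl fun y _ => ?_
  simp only [hasC_upd]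
  by_cases h1 : HasC col y c
  · have h2 : ¬ (y ∈ Sel col lam true ∧ ω y = c) := fun h => h1.ne_none (mem_Sel.1 h.1).1
    simp only [h1, h2, or_false, if_true, if_false, add_zero]
  · simp only [h1, false_or, if_false, zero_add]

theorem C1_upd {k : ℕ} (m : ℕ) (col : Q → Option (Fin k × ℕ)) (lam : Q → Option Bool)
    (ω : Q → Fin k) (g : Q → ℝ) : C1 (updCol m col lam ω) g =
      C1 col g + ∑ y ∈ Sel col lam true, g y := by
  unfold C1
  rw [← Finset.sum_ite_mem_eq (Sel col lam true) g, ← Finset.sum_add_distrib]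
  refine Finset.sum_congr rfl fun y _ => ?_
  simp only [upd_ne_none]
  by_cases h1 : col y = none
  · simp [h1]
  · have h2 : y ∉ Sel col lam true := fun h => h1 (mem_Sel.1 h).1
    simp [h1, h2]

theorem sum_L1 {k : ℕ} (col : Q → Option (Fin k × ℕ)) (g : Q → ℝ) :
    ∑ c, L1 col g c = C1 col g := by
  unfold L1 C1
  rw [Finset.sum_comm]
  refine Finset.sum_congr rfl fun y _ => ?_
  by_cases h : col y = none
  · have h1 : ∀ c, ¬ HasC col y c := fun c hc => hc.ne_none h
    simp [h1, h]
  · obtain ⟨c, hc⟩ := exists_hasC h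
    rw [Finset.sum_eq_single c]
    · simp [hc, h]
    · intro c' _ hc'
      rw [if_neg]
      intro h2
      exact hc' (h2.uniq hc)
    · intro h2
      exact absurd (mem_univ _) h2

/-- Kind 1: one round. -/
theorem kind1_loc {T : ℝ} (hT : Big T) {k : ℕ} {p : Q → Fin k → ℝ} (hp : IsPM p) {ρ : ℝ}
    (hpρ : ∀ u c, p u c ≤ ρ) (hρ : 0 ≤ ρ) (m : ℕ) (col : Q → Option (Fin k × ℕ))
    (lam : Q → Option Bool)
    {κ : Type u} [Fintype κ] (P : κ → Prop) (g : κ → Q → ℝ) (hg : ∀ a y, 0 ≤ g a y)
    (b : κ → ℝ) (hb : ∀ a, P a → 0 < b a) (hgb : ∀ a, P a → ∀ y, g a y ≤ b a)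
    (S : κ → Finset Q) (hS : ∀ a, P a → ∀ y, g a y ≠ 0 → y ∈ S a) (e : ℕ)
    (hcard : ∀ a, P a → ((S a).card : ℝ) ≤ T ^ e)
    (hdeg : ∀ y, ∃ F : Finset κ, (∀ a, P a → y ∈ S a → a ∈ F) ∧ (F.card : ℝ) * k ≤ T ^ e)
    (hinv : ∀ a, P a → ∀ c, L1 col (g a) c ≤ 4 * T * (ρ * C1 col (g a) + m * b a)) :
    LocOK e T p (fun ω => ∀ a, P a → ∀ c, L1 (updCol m col lam ω) (g a) c ≤
      4 * T * (ρ * C1 (updCol m col lam ω) (g a) + ((m + 1 : ℕ) : ℝ) * b a)) := by
  have h := loc_single hT hp (κ := κ × Fin k) (fun a => P a.1)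
    (fun a y c => if y ∈ Sel col lam true ∧ c = a.2 then g a.1 y else 0)
    (fun a y c => by
      split_ifs
      · exact hg _ _
      · exact le_rfl)
    (fun a => ρ * (∑ y ∈ Sel col lam true, g a.1 y) + b a.1)
    (fun a ha => by
      have h1 := hb a.1 ha
      have h2 : 0 ≤ ∑ y ∈ Sel col lam true, g a.1 y := Finset.sum_nonneg fun y _ => hg _ _
      have h3 : 0 ≤ ρ * (∑ y ∈ Sel col lam true, g a.1 y) := by positivity
      linarith)
    (fun a ha => by
      have h1 : ∑ u, ∑ c, (if u ∈ Sel col lam true ∧ c = a.2 then g a.1 u else 0) * p u c ≤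
          ρ * ∑ y ∈ Sel col lam true, g a.1 y := by
        rw [Finset.mul_sum, ← Finset.sum_ite_mem_eq (Sel col lam true)]
        refine Finset.sum_le_sum fun u _ => ?_
        by_cases hu : u ∈ Sel col lam true
        · rw [if_pos hu, Finset.sum_eq_single a.2]
          · simp only [hu, and_self, if_true]
            rw [mul_comm ρ]
            exact mul_le_mul_of_nonneg_left (hpρ _ _) (hg _ _)
          · intro c _ hc
            simp [hc]
          · intro h2
            exact absurd (mem_univ _) h2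
        · simp [hu]
      have h2 := hb a.1 ha
      linarith)
    (fun a ha u c => by
      have h2 : 0 ≤ ∑ y ∈ Sel col lam true, g a.1 y := Finset.sum_nonneg fun y _ => hg _ _
      have h3 : 0 ≤ ρ * (∑ y ∈ Sel col lam true, g a.1 y) := by positivity
      have h4 := hgb a.1 ha u
      have h5 := hb a.1 ha
      split_ifs <;> linarith)
    (fun a => S a.1)
    (fun a ha u c hne => by
      refine hS a.1 ha u fun h0 => hne ?_
      simp [h0]) e
    (fun a ha => hcard a.1 ha)
    (fun y => by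
      obtain ⟨F, hF1, hF2⟩ := hdeg y
      refine ⟨F ×ˢ univ, fun a ha hy => mem_product.2 ⟨hF1 a.1 ha hy, mem_univ _⟩, ?_⟩
      rw [card_product, card_univ, Fintype.card_fin]
      push_cast
      exact hF2)
  obtain ⟨κ', hκ', E, S', hd, hp', hs, hi, hgood⟩ := h
  refine ⟨κ', hκ', E, S', hd, hp', hs, hi, fun ω hE a ha c => ?_⟩
  have h2 := hgood ω hE (a, c) ha
  have h3 := hinv a ha c
  rw [L1_upd, C1_upd]
  push_cast
  simp only at h2
  have hT0 := hT.pos
  nlinarith

/-! ### Kind 2 -/

/-- Weight of the pairs of equal colours. -/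
noncomputable def S2 {k : ℕ} (col : Q → Option (Fin k × ℕ)) (g : Q → Q → ℝ) : ℝ :=
  ∑ y, ∑ y', if y ≠ y' ∧ SameC col y y' then g y y' else 0

/-- Weight of the pairs of coloured vertices. -/
noncomputable def C2 {k : ℕ} (col : Q → Option (Fin k × ℕ)) (g : Q → Q → ℝ) : ℝ :=
  ∑ y, ∑ y', if y ≠ y' ∧ col y ≠ none ∧ col y' ≠ none then g y y' else 0

theorem S2_nonneg {k : ℕ} (col : Q → Option (Fin k × ℕ)) {g : Q → Q → ℝ}
    (hg : ∀ y y', 0 ≤ g y y') : 0 ≤ S2 col g := by
  unfold S2
  refine Finset.sum_nonneg fun y _ => Finset.sum_nonneg fun y' _ => ?_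
  by_cases h : y ≠ y' ∧ SameC col y y'
  · rw [if_pos h]
    exact hg y y'
  · rw [if_neg h]

theorem C2_nonneg {k : ℕ} (col : Q → Option (Fin k × ℕ)) {g : Q → Q → ℝ}
    (hg : ∀ y y', 0 ≤ g y y') : 0 ≤ C2 col g := by
  unfold C2
  refine Finset.sum_nonneg fun y _ => Finset.sum_nonneg fun y' _ => ?_
  by_cases h : y ≠ y' ∧ col y ≠ none ∧ col y' ≠ none
  · rw [if_pos h]
    exact hg y y'
  · rw [if_neg h]

/-- New monochromatic pairs of a past and a new vertex. -/
noncomputable def newA {k : ℕ} (col : Q → Option (Fin k × ℕ)) (lam : Q → Option Bool)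
    (g : Q → Q → ℝ) (ω : Q → Fin k) : ℝ :=
  ∑ u, if u ∈ Sel col lam true then L1 col (fun y => g y u + g u y) (ω u) else 0

/-- New monochromatic pairs of new vertices. -/
noncomputable def newB {k : ℕ} (col : Q → Option (Fin k × ℕ)) (lam : Q → Option Bool)
    (g : Q → Q → ℝ) (ω : Q → Fin k) : ℝ :=
  ∑ u, ∑ u', if ω u = ω u' then
    (if u ∈ Sel col lam true ∧ u' ∈ Sel col lam true ∧ u ≠ u' then g u u' else 0) else 0

theorem S2_upd {k : ℕ} (m : ℕ) (col : Q → Option (Fin k × ℕ)) (lam : Q → Option Bool)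
    (ω : Q → Fin k) (g : Q → Q → ℝ) (hg : ∀ y y', 0 ≤ g y y') :
    S2 (updCol m col lam ω) g ≤ S2 col g + newA col lam g ω + newB col lam g ω := by
  have hA : newA col lam g ω =
      (∑ y, ∑ y', if y' ∈ Sel col lam true ∧ HasC col y (ω y') then g y y' else 0) +
      ∑ y, ∑ y', if y ∈ Sel col lam true ∧ HasC col y' (ω y) then g y y' else 0 := by
    rw [Finset.sum_comm, ← Finset.sum_add_distrib]
    unfold newA L1
    refine Finset.sum_congr rfl fun u _ => ?_
    by_cases hu : u ∈ Sel col lam true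
    · simp only [hu, true_and, if_true]
      rw [← Finset.sum_add_distrib]
      refine Finset.sum_congr rfl fun y _ => ?_
      split_ifs <;> simp
    · simp [hu]
  rw [hA]
  unfold S2 newB
  simp only [← Finset.sum_add_distrib]
  refine Finset.sum_le_sum fun y _ => Finset.sum_le_sum fun y' _ => ?_
  have e1 : (0 : ℝ) ≤ if y ≠ y' ∧ SameC col y y' then g y y' else 0 := by
    split_ifs
    · exact hg y y'
    · exact le_rfl
  have e2 : (0 : ℝ) ≤ if y' ∈ Sel col lam true ∧ HasC col y (ω y') then g y y' else 0 := by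
    split_ifs
    · exact hg y y'
    · exact le_rfl
  have e3 : (0 : ℝ) ≤ if y ∈ Sel col lam true ∧ HasC col y' (ω y) then g y y' else 0 := by
    split_ifs
    · exact hg y y'
    · exact le_rfl
  have e4 : (0 : ℝ) ≤ if ω y = ω y' then
      (if y ∈ Sel col lam true ∧ y' ∈ Sel col lam true ∧ y ≠ y' then g y y' else 0) else 0 := by
    split_ifs
    · exact hg y y'
    · exact le_rfl
    · exact le_rfl
  by_cases h : y ≠ y' ∧ SameC (updCol m col lam ω) y y'
  · rw [if_pos h]
    obtain ⟨hne, c, h1, h2⟩ := h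
    rw [hasC_upd] at h1 h2
    rcases h1 with h1 | h1 <;> rcases h2 with h2 | h2
    · rw [if_pos (c := y ≠ y' ∧ SameC col y y') ⟨hne, c, h1, h2⟩]
      linarith
    · rw [if_pos (c := y' ∈ Sel col lam true ∧ HasC col y (ω y')) ⟨h2.1, by rw [h2.2]; exact h1⟩]
      linarith
    · rw [if_pos (c := y ∈ Sel col lam true ∧ HasC col y' (ω y)) ⟨h1.1, by rw [h1.2]; exact h2⟩]
      linarith
    · rw [if_pos (c := ω y = ω y') (h1.2.trans h2.2.symm),
        if_pos (c := y ∈ Sel col lam true ∧ y' ∈ Sel col lam true ∧ y ≠ y') ⟨h1.1, h2.1, hne⟩]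
      linarith
  · rw [if_neg h]
    linarith

theorem C2_upd {k : ℕ} (m : ℕ) (col : Q → Option (Fin k × ℕ)) (lam : Q → Option Bool)
    (ω : Q → Fin k) (g : Q → Q → ℝ) :
    C2 (updCol m col lam ω) g = C2 col g +
      (∑ u ∈ Sel col lam true, C1 col (fun y => g y u + g u y)) +
      ∑ u, ∑ u', if u ∈ Sel col lam true ∧ u' ∈ Sel col lam true ∧ u ≠ u' then g u u' else 0 := by
  have hA : ∑ u ∈ Sel col lam true, C1 col (fun y => g y u + g u y) =
      (∑ y, ∑ y', if y' ∈ Sel col lam true ∧ col y ≠ none then g y y' else 0) +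
      ∑ y, ∑ y', if y ∈ Sel col lam true ∧ col y' ≠ none then g y y' else 0 := by
    rw [Finset.sum_comm, ← Finset.sum_add_distrib, ← Finset.sum_ite_mem_eq (Sel col lam true)]
    unfold C1
    refine Finset.sum_congr rfl fun u _ => ?_
    by_cases hu : u ∈ Sel col lam true
    · simp only [hu, true_and, if_true]
      rw [← Finset.sum_add_distrib]
      refine Finset.sum_congr rfl fun y _ => ?_
      split_ifs <;> simp
    · simp [hu]
  rw [hA]
  unfold C2
  simp only [← Finset.sum_add_distrib]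
  refine Finset.sum_congr rfl fun y _ => Finset.sum_congr rfl fun y' _ => ?_
  simp only [upd_ne_none]
  by_cases hy : y ∈ Sel col lam true <;> by_cases hy' : y' ∈ Sel col lam true
  · have h1 := (mem_Sel.1 hy).1
    have h2 := (mem_Sel.1 hy').1
    simp [hy, hy', h1, h2]
  · have h1 := (mem_Sel.1 hy).1
    by_cases h2 : col y' = none
    · simp [hy, hy', h1, h2]
    · have h3 : y ≠ y' := fun h => h2 (by rw [← h]; exact h1)
      simp [hy, hy', h1, h2, h3]
  · have h1 := (mem_Sel.1 hy').1
    by_cases h2 : col y = none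
    · simp [hy, hy', h1, h2]
    · have h3 : y ≠ y' := fun h => h2 (by rw [h]; exact h1)
      simp [hy, hy', h1, h2, h3]
  · simp [hy, hy']

/-- Kind 2: one round, with any constant `K ≥ 13 T ^ 2`. -/
theorem kind2_locK {T K : ℝ} (hT : Big T) (hK : 13 * T ^ 2 ≤ K) {k : ℕ} {p : Q → Fin k → ℝ} (hp : IsPM p) {ρ : ℝ}
    (hpρ : ∀ u c, p u c ≤ ρ) (hρ : 0 ≤ ρ) (m : ℕ) (col : Q → Option (Fin k × ℕ))
    (lam : Q → Option Bool)
    {κ : Type u} [Fintype κ] (P : κ → Prop) (g : κ → Q → Q → ℝ) (hg : ∀ a y y', 0 ≤ g a y y')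
    (b : κ → ℝ) (hb : ∀ a, P a → 0 < b a)
    (h1 : ∀ a, P a → ∀ y' ∈ Sel col lam true, ∀ c,
      L1 col (fun y => g a y y' + g a y' y) c ≤ b a)
    (h1' : ∀ a, P a → ∀ y' ∈ Sel col lam true,
      ρ * ∑ y ∈ Sel col lam true, (g a y y' + g a y' y) ≤ b a)
    (h2 : ∀ a, P a → ∀ y y', g a y y' + g a y' y ≤ b a)
    (S : κ → Finset Q) (hS : ∀ a, P a → ∀ y y', g a y y' ≠ 0 → y ∈ S a ∧ y' ∈ S a) (e : ℕ)
    (hcard : ∀ a, P a → ((S a).card : ℝ) ≤ T ^ e)
    (hdeg : ∀ y, ∃ F : Finset κ, (∀ a, P a → y ∈ S a → a ∈ F) ∧ (F.card : ℝ) ≤ T ^ e)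
    (hinv : ∀ a, P a → S2 col (g a) ≤ K * (ρ * C2 col (g a) + m * b a)) :
    LocOK (e + 1) T p (fun ω => ∀ a, P a → S2 (updCol m col lam ω) (g a) ≤
      K * (ρ * C2 (updCol m col lam ω) (g a) + ((m + 1 : ℕ) : ℝ) * b a)) := by
  have hT0 := hT.pos
  have hTb := hT.big
  norm_num at hTb
  have hAn : ∀ a, 0 ≤ ∑ u ∈ Sel col lam true, C1 col (fun y => g a y u + g a u y) := fun a =>
    Finset.sum_nonneg fun u _ => C1_nonneg col fun y => add_nonneg (hg _ _ _) (hg _ _ _)
  have hBn : ∀ a, (0 : ℝ) ≤ ∑ u, ∑ u', if u ∈ Sel col lam true ∧ u' ∈ Sel col lam true ∧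
      u ≠ u' then g a u u' else 0 := fun a =>
    Finset.sum_nonneg fun u _ => Finset.sum_nonneg fun u' _ => by
      split_ifs
      · exact hg _ _ _
      · exact le_rfl
  have hloc1 := loc_single hT hp P
    (fun a u c => if u ∈ Sel col lam true then L1 col (fun y => g a y u + g a u y) c else 0)
    (fun a y c => by
      split_ifs
      · exact L1_nonneg col (fun y => add_nonneg (hg _ _ _) (hg _ _ _)) c
      · exact le_rfl)
    (fun a => ρ * (∑ u ∈ Sel col lam true, C1 col (fun y => g a y u + g a u y)) + b a)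
    (fun a ha => by
      have h3 := hb a ha
      have h4 := mul_nonneg hρ (hAn a)
      linarith)
    (fun a ha => by
      have h3 : ∑ u, ∑ c, (if u ∈ Sel col lam true then
          L1 col (fun y => g a y u + g a u y) c else 0) * p u c ≤
          ρ * (∑ u ∈ Sel col lam true, C1 col (fun y => g a y u + g a u y)) := by
        rw [Finset.mul_sum, ← Finset.sum_ite_mem_eq (Sel col lam true)]
        refine Finset.sum_le_sum fun u _ => ?_
        by_cases hu : u ∈ Sel col lam true
        · simp only [hu, if_true]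
          rw [← sum_L1, Finset.mul_sum]
          refine Finset.sum_le_sum fun c _ => ?_
          rw [mul_comm ρ]
          exact mul_le_mul_of_nonneg_left (hpρ _ _)
            (L1_nonneg col (fun y => add_nonneg (hg _ _ _) (hg _ _ _)) c)
        · simp [hu]
      have h4 := hb a ha
      linarith)
    (fun a ha u c => by
      have h3 := hb a ha
      have h4 := mul_nonneg hρ (hAn a)
      split_ifs with hu
      · have h5 := h1 a ha u hu c
        linarith
      · linarith)
    S
    (fun a ha u c hne => by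
      by_contra hu
      apply hne
      split_ifs with h
      · unfold L1
        refine Finset.sum_eq_zero fun y _ => ?_
        have h3 : g a y u = 0 := by
          by_contra h4
          exact hu (hS a ha y u h4).2
        have h4 : g a u y = 0 := by
          by_contra h4
          exact hu (hS a ha u y h4).1
        simp [h3, h4]
      · rfl) e hcard hdeg
  have hloc2 := loc_pair hT hp P
    (fun a u u' (_ : Fin k) => if u ∈ Sel col lam true ∧ u' ∈ Sel col lam true ∧ u ≠ u' then
      g a u u' else 0)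
    (fun a u u' c => by
      split_ifs
      · exact hg _ _ _
      · exact le_rfl)
    (fun a u c => by simp)
    (fun a => ρ * (∑ u, ∑ u', if u ∈ Sel col lam true ∧ u' ∈ Sel col lam true ∧
      u ≠ u' then g a u u' else 0) + b a)
    (fun a ha => by
      have h3 := hb a ha
      have h4 := mul_nonneg hρ (hBn a)
      linarith)
    (fun a ha => by
      have h3 := hb a ha
      refine le_trans (b := ρ * (∑ u, ∑ u', if u ∈ Sel col lam true ∧ u' ∈ Sel col lam true ∧
        u ≠ u' then g a u u' else 0)) ?_ (by linarith)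
      rw [Finset.mul_sum]
      refine Finset.sum_le_sum fun u _ => ?_
      rw [Finset.mul_sum]
      refine Finset.sum_le_sum fun u' _ => ?_
      rw [← Finset.mul_sum, mul_comm ρ]
      refine mul_le_mul_of_nonneg_left ?_ (by
        split_ifs
        · exact hg _ _ _
        · exact le_rfl)
      calc ∑ c, p u c * p u' c ≤ ∑ c, p u c * ρ :=
            Finset.sum_le_sum fun c _ => mul_le_mul_of_nonneg_left (hpρ _ _) (hp.nonneg _ _)
        _ = ρ := by rw [← Finset.sum_mul, hp.sum_one, one_mul])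
    (fun a ha u c => by
      have h3 := hb a ha
      have h4 := mul_nonneg hρ (hBn a)
      by_cases hu : u ∈ Sel col lam true
      · refine le_trans (b := ρ * ∑ y ∈ Sel col lam true, (g a y u + g a u y)) ?_
          ((h1' a ha u hu).trans (by linarith))
        rw [Finset.mul_sum, ← Finset.sum_ite_mem_eq (Sel col lam true)]
        refine Finset.sum_le_sum fun u' _ => ?_
        by_cases hu' : u' ∈ Sel col lam true
        · simp only [hu, hu', true_and, if_true]
          have h5 : (if u ≠ u' then g a u u' else 0) + (if u' ≠ u then g a u' u else 0) ≤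
              g a u' u + g a u u' := by
            have h6 := hg a u u'
            have h7 := hg a u' u
            split_ifs <;> linarith
          calc _ ≤ (g a u' u + g a u u') * p u' c :=
                mul_le_mul_of_nonneg_right h5 (hp.nonneg _ _)
            _ ≤ (g a u' u + g a u u') * ρ :=
                mul_le_mul_of_nonneg_left (hpρ _ _) (add_nonneg (hg _ _ _) (hg _ _ _))
            _ = _ := mul_comm _ _
        · simp [hu']
      · have h5 : ∀ u', ((if u ∈ Sel col lam true ∧ u' ∈ Sel col lam true ∧ u ≠ u' then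
            g a u u' else 0) + (if u' ∈ Sel col lam true ∧ u ∈ Sel col lam true ∧ u' ≠ u then
            g a u' u else 0)) * p u' c = 0 := fun u' => by simp [hu]
        rw [Finset.sum_congr rfl fun u' _ => h5 u', Finset.sum_const_zero]
        linarith)
    (fun a ha u u' c => by
      have h3 := hb a ha
      have h4 := mul_nonneg hρ (hBn a)
      have h5 := h2 a ha u u'
      have h6 := hg a u u'
      have h7 := hg a u' u
      split_ifs <;> linarith)
    S
    (fun a ha u u' c hne => by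
      refine hS a ha u u' fun h0 => hne ?_
      simp [h0]) e hcard hdeg
  have hand := LocOK.and hT hloc1 hloc2
  obtain ⟨κ', hκ', E, S', hd, hp', hs, hi, hgood⟩ := hand
  refine ⟨κ', hκ', E, S', hd, hp', hs, hi, fun ω hE a ha => ?_⟩
  obtain ⟨hg1, hg2⟩ := hgood ω hE
  have k1 := hg1 a ha
  have k2 := hg2 a ha
  have k3 := S2_upd m col lam ω (g a) (hg a)
  have k4 := hinv a ha
  rw [C2_upd]
  have k5 : newA col lam (g a) ω ≤ 4 * T *
      (ρ * (∑ u ∈ Sel col lam true, C1 col (fun y => g a y u + g a u y)) + b a) := k1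
  have k6 : newB col lam (g a) ω ≤ 12 * T ^ 2 *
      (ρ * (∑ u, ∑ u', if u ∈ Sel col lam true ∧ u' ∈ Sel col lam true ∧
      u ≠ u' then g a u u' else 0) + b a) := k2
  have hAn' := hAn a
  have hBn' := hBn a
  set A := ∑ u ∈ Sel col lam true, C1 col (fun y => g a y u + g a u y)
  set B := ∑ u, ∑ u', if u ∈ Sel col lam true ∧ u' ∈ Sel col lam true ∧
      u ≠ u' then g a u u' else 0
  have hb' := hb a ha
  have k7 : 4 * T * (ρ * A + b a) ≤ T ^ 2 * (ρ * A + b a) := by
    apply mul_le_mul_of_nonneg_right _ (by positivity)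
    nlinarith
  have k8 : 0 ≤ T ^ 2 * (ρ * B) := by positivity
  have k9 : 0 ≤ T ^ 2 * (ρ * A) := by positivity
  have k10 : 13 * T ^ 2 * (ρ * A + ρ * B + b a) ≤ K * (ρ * A + ρ * B + b a) :=
    mul_le_mul_of_nonneg_right hK (by positivity)
  push_cast
  nlinarith

/-- Kind 2: one round. -/
theorem kind2_loc {T : ℝ} (hT : Big T) {k : ℕ} {p : Q → Fin k → ℝ} (hp : IsPM p) {ρ : ℝ}
    (hpρ : ∀ u c, p u c ≤ ρ) (hρ : 0 ≤ ρ) (m : ℕ) (col : Q → Option (Fin k × ℕ))
    (lam : Q → Option Bool)
    {κ : Type u} [Fintype κ] (P : κ → Prop) (g : κ → Q → Q → ℝ) (hg : ∀ a y y', 0 ≤ g a y y')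
    (b : κ → ℝ) (hb : ∀ a, P a → 0 < b a)
    (h1 : ∀ a, P a → ∀ y' ∈ Sel col lam true, ∀ c,
      L1 col (fun y => g a y y' + g a y' y) c ≤ b a)
    (h1' : ∀ a, P a → ∀ y' ∈ Sel col lam true,
      ρ * ∑ y ∈ Sel col lam true, (g a y y' + g a y' y) ≤ b a)
    (h2 : ∀ a, P a → ∀ y y', g a y y' + g a y' y ≤ b a)
    (S : κ → Finset Q) (hS : ∀ a, P a → ∀ y y', g a y y' ≠ 0 → y ∈ S a ∧ y' ∈ S a) (e : ℕ)
    (hcard : ∀ a, P a → ((S a).card : ℝ) ≤ T ^ e)
    (hdeg : ∀ y, ∃ F : Finset κ, (∀ a, P a → y ∈ S a → a ∈ F) ∧ (F.card : ℝ) ≤ T ^ e)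
    (hinv : ∀ a, P a → S2 col (g a) ≤ 13 * T ^ 2 * (ρ * C2 col (g a) + m * b a)) :
    LocOK (e + 1) T p (fun ω => ∀ a, P a → S2 (updCol m col lam ω) (g a) ≤
      13 * T ^ 2 * (ρ * C2 (updCol m col lam ω) (g a) + ((m + 1 : ℕ) : ℝ) * b a)) :=
  kind2_locK hT le_rfl hp hpρ hρ m col lam P g hg b hb h1 h1' h2 S hS e hcard hdeg hinv

end

end Pool.Agent.AcyK
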