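import Pool.Agent.AcyK.BasicA

/-! # The selection of a round is typical (module LA) -/

set_option autoImplicit false
set_option linter.unusedSectionVars false

namespace Pool.Agent.AcyK

open Finset
open Pool.Agent.Acy (IsPM wt Ex Pr mean)
open scoped Classical

universe u v

section loc

variable {Q : Type u} [Fintype Q] [DecidableEq Q] {α : Type*} [Fintype α]

/-- `StepOK` with an explicit exponent. -/
def LocOK (e : ℕ) (T : ℝ) (μ : Q → α → ℝ) (Good : (Q → α) → Prop) : Prop :=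
  ∃ (κ : Type u) (_ : Fintype κ) (E : κ → (Q → α) → Prop) (S : κ → Finset Q),
    (∀ b, DependsOn (E b) (S b : Set Q)) ∧ (∀ b, Pr μ (E b) ≤ Real.exp (-T)) ∧
    (∀ b, ((S b).card : ℝ) ≤ T ^ e) ∧
    (∀ i, ((univ.filter fun b => i ∈ S b).card : ℝ) ≤ T ^ e) ∧
    ∀ ω, (∀ b, ¬ E b ω) → Good ω

theorem LocOK.stepOK {e : ℕ} {T : ℝ} (hT : Big T) {μ : Q → α → ℝ} {G : (Q → α) → Prop}
    (h : LocOK e T μ G) (he : e ≤ 60000) : StepOK T μ G := by
  obtain ⟨κ, hκ, E, S, hd, hp, hs, hi, hg⟩ := h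
  exact ⟨κ, hκ, E, S, hd, hp, fun b => (hs b).trans (hT.pw he), fun i => (hi i).trans (hT.pw he),
    hg⟩

theorem LocOK.and {e : ℕ} {T : ℝ} (hT : Big T) {μ : Q → α → ℝ} {G₁ G₂ : (Q → α) → Prop}
    (h₁ : LocOK e T μ G₁) (h₂ : LocOK e T μ G₂) : LocOK (e + 1) T μ (fun ω => G₁ ω ∧ G₂ ω) := by
  obtain ⟨κ₁, _, E₁, S₁, hd₁, hp₁, hs₁, hi₁, hg₁⟩ := h₁
  obtain ⟨κ₂, _, E₂, S₂, hd₂, hp₂, hs₂, hi₂, hg₂⟩ := h₂
  have hT1 := hT.one_le
  have hT0 := hT.pos
  refine ⟨κ₁ ⊕ κ₂, inferInstance, Sum.elim E₁ E₂, Sum.elim S₁ S₂, ?_, ?_, ?_, ?_, ?_⟩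
  · rintro (b | b)
    · exact hd₁ b
    · exact hd₂ b
  · rintro (b | b)
    · exact hp₁ b
    · exact hp₂ b
  · rintro (b | b)
    · exact (hs₁ b).trans (hT.pw (Nat.le_succ e))
    · exact (hs₂ b).trans (hT.pw (Nat.le_succ e))
  · intro i
    have h1 : (univ.filter fun b : κ₁ ⊕ κ₂ => i ∈ Sum.elim S₁ S₂ b).card ≤
        (univ.filter fun b => i ∈ S₁ b).card + (univ.filter fun b => i ∈ S₂ b).card := by
      have h2 : (univ.filter fun b : κ₁ ⊕ κ₂ => i ∈ Sum.elim S₁ S₂ b) =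
          (univ.filter fun b => i ∈ S₁ b).disjSum (univ.filter fun b => i ∈ S₂ b) := by
        ext b
        rcases b with b | b <;> simp
      rw [h2, card_disjSum]
    have h3 : ((univ.filter fun b : κ₁ ⊕ κ₂ => i ∈ Sum.elim S₁ S₂ b).card : ℝ) ≤
        (univ.filter fun b => i ∈ S₁ b).card + (univ.filter fun b => i ∈ S₂ b).card := by
      exact_mod_cast h1
    have h4 : T ^ e + T ^ e ≤ T ^ (e + 1) := by
      have h5 : (2 : ℝ) ≤ T := by linarith [hT.big]
      have h6 : 0 ≤ T ^ e := by positivity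
      rw [pow_succ]
      nlinarith
    linarith [hi₁ i, hi₂ i]
  · exact fun ω hE => ⟨hg₁ ω fun b => hE (.inl b), hg₂ ω fun b => hE (.inr b)⟩

theorem LocOK.mono {e e' : ℕ} {T : ℝ} (hT : Big T) {μ : Q → α → ℝ} {G : (Q → α) → Prop}
    (h : LocOK e T μ G) (he : e ≤ e') : LocOK e' T μ G := by
  obtain ⟨κ, hκ, E, S, hd, hp, hs, hi, hg⟩ := h
  exact ⟨κ, hκ, E, S, hd, hp, fun b => (hs b).trans (hT.pw he), fun i => (hi i).trans (hT.pw he),
    hg⟩

end loc

section

variable {Q ι : Type u} [Fintype Q] [DecidableEq Q] [Fintype ι] [DecidableEq ι]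

namespace NibData

variable {D : NibData Q ι}

/-- The test function of a deviation. -/
noncomputable def YA (D : NibData Q ι) (S : NState Q D.k) (b : Bool) (w : Q → ℝ) (y : Q)
    (e : Option Bool) : ℝ :=
  if S.col y = none ∧ e = some b then w y else 0

theorem mean_YA (D : NibData Q ι) (S : NState Q D.k) (m : ℕ) (b : Bool) (w : Q → ℝ) (y : Q) :
    mean (D.lawA m) (D.YA S b w) y = if S.col y = none then D.t m * w y else 0 := by
  unfold mean YA lawA
  rw [Fintype.sum_eq_single (some b)]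
  · simp only [reduceCtorEq, if_false, and_true]
    split_ifs <;> simp
  · intro e he
    have h5 : ¬ (S.col y = none ∧ e = some b) := fun h => he h.2
    rw [if_neg h5, mul_zero]

theorem dev_eq (D : NibData Q ι) (S : NState Q D.k) (m : ℕ) (lam : Q → Option Bool) (b : Bool)
    (w : Q → ℝ) : D.dev S m lam b w =
      ∑ y, (D.YA S b w y (lam y) - mean (D.lawA m) (D.YA S b w) y) := by
  unfold dev
  rw [sum_sub_distrib]
  congr 1
  · unfold Sel YA
    rw [sum_filter]
  · unfold Un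
    rw [sum_filter, mul_sum]
    refine sum_congr rfl fun y _ => ?_
    rw [mean_YA]
    split_ifs <;> simp

theorem dev_congr (D : NibData Q ι) (S : NState Q D.k) (m : ℕ) {lam lam' : Q → Option Bool}
    (b : Bool) (w : Q → ℝ) (A : Finset Q) (h0 : ∀ y, y ∉ A → w y = 0)
    (h : ∀ y ∈ A, lam y = lam' y) : D.dev S m lam b w = D.dev S m lam' b w := by
  rw [dev_eq, dev_eq]
  refine sum_congr rfl fun y _ => ?_
  by_cases hy : y ∈ A
  · rw [h y hy]
  · unfold YA
    simp [h0 y hy]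

theorem exp_bd {T : ℝ} (hT : (1000000 : ℝ) ≤ T) {z : ℝ} (hz : z ≤ -(2 * T)) :
    2 * Real.exp z ≤ Real.exp (-T) := by
  have h1 : (2 : ℝ) ≤ Real.exp T := by
    have := Real.add_one_le_exp T
    linarith
  have h2 : Real.exp z ≤ Real.exp (-T) * Real.exp (-T) := by
    rw [← Real.exp_add]
    exact Real.exp_le_exp.mpr (by linarith)
  have h3 : Real.exp T * Real.exp (-T) = 1 := by rw [← Real.exp_add]; simp
  have h4 : 0 < Real.exp (-T) := Real.exp_pos _
  calc 2 * Real.exp z ≤ Real.exp T * (Real.exp (-T) * Real.exp (-T)) := by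
        apply mul_le_mul h1 h2 (Real.exp_pos _).le (Real.exp_pos _).le
    _ = Real.exp (-T) := by rw [← mul_assoc, h3, one_mul]

/-- Bernstein bound for a deviation. -/
theorem dev_tail (hD : D.Ok) {m : ℕ} (hm : m ≤ D.M) (S : NState Q D.k) (b : Bool) (w : Q → ℝ)
    (A : Finset Q) (n N : ℕ) (hA : (A.card : ℝ) ≤ D.T ^ N) (hw : ∀ y, |w y| ≤ D.T ^ 4)
    (h0 : ∀ y, y ∉ A → w y = 0) (hn : N + 8 ≤ 133 + 2 * n) (h4 : 5 ≤ n) :
    Pr (D.lawA m) (fun lam => ¬ |D.dev S m lam b w| ≤ D.T ^ (n + 2)) ≤ Real.exp (-D.T) := by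
  have hT : (1000000 : ℝ) ≤ D.T := by
    have := hD.big.big
    norm_num at this
    exact this
  have hT0 : 0 < D.T := by linarith
  have hp := lawA_isPM hD hm
  have ht0 := t_pos hD hm
  have ht1 := t_le hD hm
  have hY : ∀ y e, |D.YA S b w y e| ≤ D.T ^ 4 := by
    intro y e
    unfold YA
    split_ifs
    · exact hw y
    · rw [abs_zero]; positivity
  have hV : ∑ y, ∑ e, D.lawA m y e * D.YA S b w y e ^ 2 ≤ D.T ^ (2 * n) := by
    have h1 : ∀ y, ∑ e, D.lawA m y e * D.YA S b w y e ^ 2 ≤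
        if y ∈ A then 1 / D.T ^ 133 * D.T ^ 8 else 0 := by
      intro y
      have h2 : ∑ e, D.lawA m y e * D.YA S b w y e ^ 2 =
          if S.col y = none then D.t m * w y ^ 2 else 0 := by
        unfold YA lawA
        rw [Fintype.sum_eq_single (some b)]
        · simp only [reduceCtorEq, if_false, and_true]
          split_ifs <;> simp
        · intro e he
          have h5 : ¬ (S.col y = none ∧ e = some b) := fun h => he h.2
          rw [if_neg h5, zero_pow (by norm_num), mul_zero]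
      rw [h2]
      by_cases hy : y ∈ A
      · rw [if_pos hy]
        have h3 : w y ^ 2 ≤ D.T ^ 8 := by
          calc w y ^ 2 = |w y| ^ 2 := (sq_abs _).symm
            _ ≤ (D.T ^ 4) ^ 2 := pow_le_pow_left₀ (abs_nonneg _) (hw y) 2
            _ = _ := by rw [← pow_mul]
        split_ifs
        · exact mul_le_mul ht1 h3 (sq_nonneg _) (by positivity)
        · positivity
      · rw [if_neg hy, h0 y hy]
        simp
    calc _ ≤ ∑ y, (if y ∈ A then 1 / D.T ^ 133 * D.T ^ 8 else 0) :=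
          Finset.sum_le_sum fun y _ => h1 y
      _ = A.card * (1 / D.T ^ 133 * D.T ^ 8) := by
          rw [← Finset.sum_filter, Finset.sum_const, nsmul_eq_mul]
          congr 3
          ext u
          simp
      _ ≤ D.T ^ N * (1 / D.T ^ 133 * D.T ^ 8) := by gcongr
      _ = D.T ^ (N + 8) / D.T ^ 133 := by rw [pow_add]; ring
      _ ≤ D.T ^ (2 * n) := by
          rw [div_le_iff₀ (by positivity), ← pow_add]
          exact hD.big.pw (by omega)
  have ht := Pool.Agent.Acy.indep_tail hp (D.YA S b w) (D.T ^ 4) hY (D.T ^ (2 * n)) hV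
    (1 / (2 * D.T ^ n)) (by positivity)
    (by
      have e : 2 * (1 / (2 * D.T ^ n) * D.T ^ 4) = D.T ^ 4 / D.T ^ n := by
        field_simp
      rw [e, div_le_one (by positivity)]
      exact hD.big.pw (by omega)) (D.T ^ (n + 2))
  refine (Pool.Agent.Acy.Pr_mono hp fun lam hlam => ?_).trans (ht.trans (exp_bd hT ?_))
  · rw [dev_eq] at hlam
    exact (not_le.1 hlam).le
  · have e1 : (1 / (2 * D.T ^ n)) ^ 2 * D.T ^ (2 * n) = 1 / 4 := by
      have : D.T ^ (2 * n) = (D.T ^ n) ^ 2 := by rw [← pow_mul, mul_comm]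
      rw [this]
      field_simp
      norm_num
    have e2 : 1 / (2 * D.T ^ n) * D.T ^ (n + 2) = D.T ^ 2 / 2 := by
      rw [pow_add]
      field_simp
    rw [e1, e2]
    nlinarith

/-- A local family of deviations. -/
theorem loc_dev (hD : D.Ok) {m : ℕ} (hm : m ≤ D.M) (S : NState Q D.k) {κ : Type u} [Fintype κ]
    (b : κ → Bool) (P : κ → Prop) (w : κ → Q → ℝ) (A : κ → Finset Q) (n N e : ℕ)
    (hA : ∀ i, P i → ((A i).card : ℝ) ≤ D.T ^ N) (hw : ∀ i, P i → ∀ y, |w i y| ≤ D.T ^ 4)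
    (h0 : ∀ i, P i → ∀ y, y ∉ A i → w i y = 0) (hn : N + 8 ≤ 133 + 2 * n) (h4 : 5 ≤ n)
    (he : N ≤ e)
    (hdeg : ∀ y, ∃ F : Finset κ, (∀ i, P i → y ∈ A i → i ∈ F) ∧ (F.card : ℝ) ≤ D.T ^ e) :
    LocOK e D.T (D.lawA m)
      (fun lam => ∀ i, P i → |D.dev S m lam (b i) (w i)| ≤ D.T ^ (n + 2)) := by
  have hT := hD.big
  refine ⟨κ, inferInstance, fun i lam => P i ∧ ¬ |D.dev S m lam (b i) (w i)| ≤ D.T ^ (n + 2),
    fun i => if P i then A i else ∅, ?_, ?_, ?_, ?_, ?_⟩
  · intro i lam lam' h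
    by_cases hP : P i
    · have h1 := dev_congr D S m (lam := lam) (lam' := lam') (b i) (w i) (A i) (h0 i hP)
        (fun y hy => h y (by simp only [hP, if_true]; exact_mod_cast hy))
      simp only [h1]
    · simp only [hP, false_and]
  · intro i
    by_cases hP : P i
    · have h1 := dev_tail hD hm S (b i) (w i) (A i) n N (hA i hP) (hw i hP) (h0 i hP) hn h4
      refine le_trans (Pool.Agent.Acy.Pr_mono (lawA_isPM hD hm) fun lam hlam => ?_) h1
      exact hlam.2
    · have h1 : Pr (D.lawA m) (fun lam => P i ∧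
          ¬ |D.dev S m lam (b i) (w i)| ≤ D.T ^ (n + 2)) = 0 := by
        unfold Pr Ex
        refine sum_eq_zero fun lam _ => ?_
        simp only [hP, false_and, if_false, mul_zero]
      rw [h1]
      exact (Real.exp_pos _).le
  · intro i
    by_cases hP : P i
    · simp only [hP, if_true]
      exact (hA i hP).trans (hT.pw he)
    · simp only [hP, if_false, card_empty, Nat.cast_zero]
      exact pow_nonneg hT.pos.le _
  · intro y
    obtain ⟨F, hF1, hF2⟩ := hdeg y
    have h1 : (univ.filter fun i => y ∈ if P i then A i else ∅) ⊆ F := by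
      intro i hi
      have h2 := (mem_filter.1 hi).2
      by_cases hP : P i
      · rw [if_pos hP] at h2
        exact hF1 i hP h2
      · rw [if_neg hP] at h2
        exact absurd h2 (notMem_empty _)
    exact le_trans (by exact_mod_cast card_le_card h1) hF2
  · intro lam h i hP
    exact not_not.1 fun h1 => h i ⟨hP, h1⟩

/-! ### Degrees -/

theorem two_pow_le (hD : D.Ok) (n : ℕ) : 2 * D.T ^ n ≤ D.T ^ (n + 1) := by
  have h5 : (2 : ℝ) ≤ D.T := by linarith [hD.big.big]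
  have h6 : 0 ≤ D.T ^ n := pow_nonneg hD.big.pos.le _
  rw [pow_succ]
  nlinarith

/-- Degree of the family indexed by a sign, a vertex and a colour. -/
theorem deg1 (hD : D.Ok) (y : Q) : ∃ F : Finset (Bool × Q × Fin D.k),
    (∀ i : Bool × Q × Fin D.k, True → y ∈ D.R i.2.1 → i ∈ F) ∧ (F.card : ℝ) ≤ D.T ^ 16000 := by
  refine ⟨(univ : Finset Bool) ×ˢ (D.R y) ×ˢ (univ : Finset (Fin D.k)), ?_, ?_⟩
  · intro i _ hi
    simp only [mem_product, mem_univ, true_and, and_true]
    exact (mem_R_symm hD i.2.1 y).2 hi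
  rw [card_product, card_product, card_univ, card_univ, Fintype.card_bool, Fintype.card_fin]
  push_cast
  have h3 : ((D.R y).card : ℝ) * D.k ≤ D.T ^ 4017 * D.T ^ 4000 :=
    mul_le_mul (hD.R_card y) hD.k_hi (Nat.cast_nonneg _) (pow_nonneg hD.big.pos.le _)
  rw [← pow_add] at h3
  have h4 := two_pow_le hD (4017 + 4000)
  have h5 : D.T ^ (4017 + 4000 + 1) ≤ D.T ^ 16000 := hD.big.pw (by norm_num)
  linarith

/-- Degree of the family indexed by a tracked pair and a colour. -/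
theorem deg2 (hD : D.Ok) (y : Q) : ∃ F : Finset (Q × Q × Fin D.k),
    (∀ i : Q × Q × Fin D.k, D.pr i.1 i.2.1 → y ∈ D.R i.1 → i ∈ F) ∧
      (F.card : ℝ) ≤ D.T ^ 16000 := by
  refine ⟨(D.R y).biUnion fun z =>
    ({z} : Finset Q) ×ˢ (univ.filter fun z' => D.pr z z') ×ˢ (univ : Finset (Fin D.k)), ?_, ?_⟩
  · intro i hi hy
    simp only [mem_biUnion, mem_product, mem_univ, and_true, mem_singleton, mem_filter,
      true_and]
    exact ⟨i.1, (mem_R_symm hD i.1 y).2 hy, rfl, hi⟩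
  have h1 : ((D.R y).biUnion fun z => ({z} : Finset Q) ×ˢ (univ.filter fun z' => D.pr z z') ×ˢ
      (univ : Finset (Fin D.k))).card ≤
      ∑ z ∈ D.R y, (({z} : Finset Q) ×ˢ (univ.filter fun z' => D.pr z z') ×ˢ
        (univ : Finset (Fin D.k))).card := card_biUnion_le
  have h3 : ∑ z ∈ D.R y, (({z} : Finset Q) ×ˢ (univ.filter fun z' => D.pr z z') ×ˢ
      (univ : Finset (Fin D.k))).card =
      ∑ z ∈ D.R y, (univ.filter fun z' => D.pr z z').card * D.k := by
    refine sum_congr rfl fun z _ => ?_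
    rw [card_product, card_product, card_singleton, card_univ, Fintype.card_fin, one_mul]
  rw [h3] at h1
  have h2 : (((D.R y).biUnion fun z => ({z} : Finset Q) ×ˢ (univ.filter fun z' => D.pr z z') ×ˢ
      (univ : Finset (Fin D.k))).card : ℝ) ≤
      ∑ z ∈ D.R y, ((univ.filter fun z' => D.pr z z').card : ℝ) * D.k := by
    exact_mod_cast h1
  have h4 : ∑ z ∈ D.R y, ((univ.filter fun z' => D.pr z z').card : ℝ) * D.k ≤
      D.T ^ 4017 * (D.T ^ 7300 * D.T ^ 4000) := by
    calc ∑ z ∈ D.R y, ((univ.filter fun z' => D.pr z z').card : ℝ) * D.k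
        ≤ ∑ _z ∈ D.R y, D.T ^ 7300 * D.T ^ 4000 := sum_le_sum fun z _ =>
          mul_le_mul (hD.pr_card z) hD.k_hi (Nat.cast_nonneg _) (pow_nonneg hD.big.pos.le _)
      _ = (D.R y).card * (D.T ^ 7300 * D.T ^ 4000) := by rw [sum_const, nsmul_eq_mul]
      _ ≤ _ := mul_le_mul_of_nonneg_right (hD.R_card y)
          (mul_nonneg (pow_nonneg hD.big.pos.le _) (pow_nonneg hD.big.pos.le _))
  rw [← pow_add, ← pow_add] at h4
  exact h2.trans (h4.trans (hD.big.pw (by norm_num)))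

/-- Degree of the family indexed by a sign and a pair with a common related vertex. -/
theorem deg3 (hD : D.Ok) (u : Q) : ∃ F : Finset (Bool × Q × Q),
    (∀ i : Bool × Q × Q, (∃ x, i.2.1 ∈ D.R x ∧ i.2.2 ∈ D.R x) → u ∈ D.R i.2.1 → i ∈ F) ∧
      (F.card : ℝ) ≤ D.T ^ 16000 := by
  refine ⟨(univ : Finset Bool) ×ˢ ((D.R u).biUnion fun y =>
        ({y} : Finset Q) ×ˢ ((D.R y).biUnion D.R)), ?_, ?_⟩
  · rintro i ⟨x, hx, hx'⟩ hu
    simp only [mem_biUnion, mem_product, mem_univ, true_and, mem_singleton]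
    exact ⟨i.2.1, (mem_R_symm hD i.2.1 u).2 hu, rfl, x, (mem_R_symm hD x i.2.1).2 hx, hx'⟩
  rw [card_product, card_univ, Fintype.card_bool]
  push_cast
  have h2 : ((D.R u).biUnion fun y => ({y} : Finset Q) ×ˢ ((D.R y).biUnion D.R)).card ≤
      ∑ y ∈ D.R u, ∑ x ∈ D.R y, (D.R x).card := by
    refine card_biUnion_le.trans (sum_le_sum fun y _ => ?_)
    rw [card_product, card_singleton, one_mul]
    exact card_biUnion_le
  have h3 : (((D.R u).biUnion fun y => ({y} : Finset Q) ×ˢ ((D.R y).biUnion D.R)).card : ℝ) ≤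
      ∑ y ∈ D.R u, ∑ x ∈ D.R y, ((D.R x).card : ℝ) := by exact_mod_cast h2
  have hT0 := hD.big.pos
  have h4 : ∑ y ∈ D.R u, ∑ x ∈ D.R y, ((D.R x).card : ℝ) ≤
      D.T ^ 4017 * (D.T ^ 4017 * D.T ^ 4017) := by
    calc ∑ y ∈ D.R u, ∑ x ∈ D.R y, ((D.R x).card : ℝ)
        ≤ ∑ y ∈ D.R u, ∑ _x ∈ D.R y, D.T ^ 4017 :=
          sum_le_sum fun y _ => sum_le_sum fun x _ => hD.R_card x
      _ = ∑ y ∈ D.R u, (D.R y).card * D.T ^ 4017 := by
          refine sum_congr rfl fun y _ => ?_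
          rw [sum_const, nsmul_eq_mul]
      _ ≤ ∑ _y ∈ D.R u, D.T ^ 4017 * D.T ^ 4017 := sum_le_sum fun y _ =>
          mul_le_mul_of_nonneg_right (hD.R_card y) (by positivity)
      _ = (D.R u).card * (D.T ^ 4017 * D.T ^ 4017) := by rw [sum_const, nsmul_eq_mul]
      _ ≤ _ := mul_le_mul_of_nonneg_right (hD.R_card u) (by positivity)
  rw [← pow_add, ← pow_add] at h4
  have h6 := two_pow_le hD (4017 + (4017 + 4017))
  have h7 : D.T ^ (4017 + (4017 + 4017) + 1) ≤ D.T ^ 16000 := hD.big.pw (by norm_num)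
  linarith

/-- Degree of the family indexed by a sign and a vertex. -/
theorem deg4 (hD : D.Ok) (y : Q) : ∃ F : Finset (Bool × Q),
    (∀ i : Bool × Q, True → y ∈ D.R i.2 → i ∈ F) ∧ (F.card : ℝ) ≤ D.T ^ 16000 := by
  refine ⟨(univ : Finset Bool) ×ˢ (D.R y), ?_, ?_⟩
  · intro i _ hi
    simp only [mem_product, mem_univ, true_and]
    exact (mem_R_symm hD i.2 y).2 hi
  rw [card_product, card_univ, Fintype.card_bool]
  push_cast
  have h3 := hD.R_card y
  have h4 := two_pow_le hD 4017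
  have h5 : D.T ^ (4017 + 1) ≤ D.T ^ 16000 := hD.big.pw (by norm_num)
  linarith

/-- Degree of the families indexed by a sign and a tested set. -/
theorem deg5 (hD : D.Ok) (P : Bool × ι → Prop) (y : Q) : ∃ F : Finset (Bool × ι),
    (∀ i : Bool × ι, P i → y ∈ D.A i.2 → i ∈ F) ∧ (F.card : ℝ) ≤ D.T ^ 16000 := by
  refine ⟨(univ : Finset Bool) ×ˢ (univ.filter fun i => y ∈ D.A i), ?_, ?_⟩
  · intro i _ hi
    simp only [mem_product, mem_univ, true_and, mem_filter]
    exact hi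
  rw [card_product, card_univ, Fintype.card_bool]
  push_cast
  have h3 := hD.A_deg y
  have h4 := two_pow_le hD 7300
  have h5 : D.T ^ (7300 + 1) ≤ D.T ^ 16000 := hD.big.pw (by norm_num)
  linarith

/-! ### The ten families -/

/-- The selection of a round is typical outside a local family of unlikely events. -/
theorem goodA_stepOK (hD : D.Ok) {S : NState Q D.k} {m : ℕ} (hI : D.Inv S m) (hm : m < D.M) :
    StepOK D.T (D.lawA m) (D.GoodA S m) := by
  have hT := hD.big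
  have hT6 : (1000000 : ℝ) ≤ D.T := by
    have := hD.big.big
    norm_num at this
    exact this
  have hT0 : 0 < D.T := by linarith
  have hT1 := hT.one_le
  have hk := k_pos' hD
  have hm' := hm.le
  have p24 : D.T ^ 2 ≤ D.T ^ 4 := hT.pw (by norm_num)
  have p34 : D.T ^ 3 ≤ D.T ^ 4 := hT.pw (by norm_num)
  -- bounds for the weights
  have b1 : ∀ (b : Bool) (x y : Q) (c : Fin D.k), |D.a b x y * S.v y c| ≤ D.T ^ 4 := by
    intro b x y c
    rw [abs_mul, abs_of_nonneg (a_nonneg hD b x y)]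
    calc D.a b x y * |S.v y c| ≤ D.T * D.T :=
          mul_le_mul (a_le hD b x y) (v_abs hD hI hm' y c) (abs_nonneg _) hT0.le
      _ = D.T ^ 2 := by ring
      _ ≤ _ := p24
  have b2 : ∀ (b : Bool) (x y : Q) (c : Fin D.k) (p : ℝ), 0 ≤ p → p ≤ 2 * D.T / D.k →
      |D.k * (D.a b x y * p)| ≤ D.T ^ 4 := by
    intro b x y c p h0 h1
    have h2 := a_nonneg hD b x y
    rw [abs_of_nonneg (by positivity)]
    calc D.k * (D.a b x y * p) ≤ D.k * (D.T * (2 * D.T / D.k)) := by
          refine mul_le_mul_of_nonneg_left ?_ hk.le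
          exact mul_le_mul (a_le hD b x y) h1 h0 hT0.le
      _ = 2 * D.T ^ 2 := by
          field_simp
      _ ≤ D.T * D.T ^ 2 := mul_le_mul_of_nonneg_right (by linarith) (by positivity)
      _ = D.T ^ 3 := by ring
      _ ≤ _ := p34
  have b4 : ∀ (z z' y : Q) (c : Fin D.k), |D.K y z * D.K y z' * S.v y c| ≤ D.T ^ 4 := by
    intro z z' y c
    rw [abs_mul, abs_mul]
    calc |D.K y z| * |D.K y z'| * |S.v y c| ≤ D.T * D.T * D.T := by
          refine mul_le_mul (mul_le_mul (K_abs hD y z) (K_abs hD y z') (abs_nonneg _) hT0.le)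
            (v_abs hD hI hm' y c) (abs_nonneg _) (by positivity)
      _ = D.T ^ 3 := by ring
      _ ≤ _ := p34
  have b5 : ∀ (z z' y : Q) (p : ℝ), 0 ≤ p → p ≤ 2 * D.T / D.k →
      |D.k * (D.K y z * D.K y z' * p)| ≤ D.T ^ 4 := by
    intro z z' y p h0 h1
    rw [abs_mul, abs_mul, abs_mul, abs_of_nonneg hk.le, abs_of_nonneg h0]
    calc D.k * (|D.K y z| * |D.K y z'| * p) ≤ D.k * (D.T * D.T * (2 * D.T / D.k)) := by
          refine mul_le_mul_of_nonneg_left ?_ hk.le
          exact mul_le_mul (mul_le_mul (K_abs hD y z) (K_abs hD y z') (abs_nonneg _) hT0.le)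
            h1 h0 (by positivity)
      _ = 2 * D.T ^ 3 := by
          field_simp
      _ ≤ D.T * D.T ^ 3 := mul_le_mul_of_nonneg_right (by linarith) (by positivity)
      _ = _ := by ring
  have b7 : ∀ (y y' u : Q), |D.K u y * D.K u y'| ≤ D.T ^ 4 := by
    intro y y' u
    rw [abs_mul]
    calc |D.K u y| * |D.K u y'| ≤ D.T * D.T :=
          mul_le_mul (K_abs hD u y) (K_abs hD u y') (abs_nonneg _) hT0.le
      _ = D.T ^ 2 := by ring
      _ ≤ _ := p24
  have b8 : ∀ (P : Prop) [Decidable P], |(if P then (1 : ℝ) else 0)| ≤ D.T ^ 4 := by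
    intro P _
    have h1 : (1 : ℝ) ≤ D.T ^ 4 := one_le_pow₀ hT1
    split_ifs
    · rwa [abs_one]
    · rw [abs_zero]; positivity
  have f1 := loc_dev hD hm' S (κ := Bool × Q × Fin D.k) (fun _ => true) (fun _ => True)
    (fun i y => D.a i.1 i.2.1 y * S.v y i.2.2) (fun i => D.R i.2.1) 1998 4017 16000
    (fun i _ => hD.R_card _) (fun i _ y => b1 _ _ _ _)
    (fun i _ y hy => by rw [a_off hD _ _ _ hy, zero_mul]) (by norm_num) (by norm_num)
    (by norm_num) (deg1 hD)
  have f2 := loc_dev hD hm' S (κ := Bool × Q × Fin D.k) (fun _ => true) (fun _ => True)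
    (fun i y => D.k * (D.a i.1 i.2.1 y * D.pa S y i.2.2)) (fun i => D.R i.2.1) 1998 4017 16000
    (fun i _ => hD.R_card _)
    (fun i _ y => b2 _ _ _ i.2.2 _ (pa_nonneg hD hI hm' _ _) (pa_le hD hI hm' _ _))
    (fun i _ y hy => by rw [a_off hD _ _ _ hy, zero_mul, mul_zero]) (by norm_num) (by norm_num)
    (by norm_num) (deg1 hD)
  have f3 := loc_dev hD hm' S (κ := Bool × Q × Fin D.k) (fun _ => false) (fun _ => True)
    (fun i y => D.k * (D.a i.1 i.2.1 y * D.pf S y i.2.2)) (fun i => D.R i.2.1) 1998 4017 16000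
    (fun i _ => hD.R_card _)
    (fun i _ y => b2 _ _ _ i.2.2 _ (pf_nonneg hD hI hm' _ _) (pf_le hD hI hm' _ _))
    (fun i _ y hy => by rw [a_off hD _ _ _ hy, zero_mul, mul_zero]) (by norm_num) (by norm_num)
    (by norm_num) (deg1 hD)
  have f4 := loc_dev hD hm' S (κ := Q × Q × Fin D.k) (fun _ => true) (fun i => D.pr i.1 i.2.1)
    (fun i y => D.K y i.1 * D.K y i.2.1 * S.v y i.2.2) (fun i => D.R i.1) 1998 4017 16000
    (fun i _ => hD.R_card _) (fun i _ y => b4 _ _ _ _)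
    (fun i _ y hy => by rw [K_off' hD _ _ hy, zero_mul, zero_mul]) (by norm_num) (by norm_num)
    (by norm_num) (deg2 hD)
  have f5 := loc_dev hD hm' S (κ := Q × Q × Fin D.k) (fun _ => true) (fun i => D.pr i.1 i.2.1)
    (fun i y => D.k * (D.K y i.1 * D.K y i.2.1 * D.pa S y i.2.2)) (fun i => D.R i.1)
    1998 4017 16000 (fun i _ => hD.R_card _)
    (fun i _ y => b5 _ _ _ _ (pa_nonneg hD hI hm' _ _) (pa_le hD hI hm' _ _))
    (fun i _ y hy => by rw [K_off' hD _ _ hy, zero_mul, zero_mul, mul_zero]) (by norm_num)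
    (by norm_num) (by norm_num) (deg2 hD)
  have f6 := loc_dev hD hm' S (κ := Q × Q × Fin D.k) (fun _ => false) (fun i => D.pr i.1 i.2.1)
    (fun i y => D.k * (D.K y i.1 * D.K y i.2.1 * D.pf S y i.2.2)) (fun i => D.R i.1)
    1998 4017 16000 (fun i _ => hD.R_card _)
    (fun i _ y => b5 _ _ _ _ (pf_nonneg hD hI hm' _ _) (pf_le hD hI hm' _ _))
    (fun i _ y hy => by rw [K_off' hD _ _ hy, zero_mul, zero_mul, mul_zero]) (by norm_num)
    (by norm_num) (by norm_num) (deg2 hD)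
  have f7 := loc_dev hD hm' S (κ := Bool × Q × Q) (fun i => i.1)
    (fun i => ∃ x, i.2.1 ∈ D.R x ∧ i.2.2 ∈ D.R x)
    (fun i u => D.K u i.2.1 * D.K u i.2.2) (fun i => D.R i.2.1)
    1997 4017 16000 (fun i _ => hD.R_card _) (fun i _ y => b7 _ _ _)
    (fun i _ y hy => by rw [K_off' hD _ _ hy, zero_mul]) (by norm_num)
    (by norm_num) (by norm_num) (deg3 hD)
  have f8 := loc_dev hD hm' S (κ := Bool × Q) (fun i => i.1) (fun _ => True)
    (fun i u => if u ∈ D.R i.2 then 1 else 0) (fun i => D.R i.2)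
    1997 4017 16000 (fun i _ => hD.R_card _) (fun i _ y => b8 _)
    (fun i _ y hy => if_neg hy) (by norm_num) (by norm_num) (by norm_num) (deg4 hD)
  have f9 := loc_dev hD hm' S (κ := Bool × ι) (fun i => i.1) (fun _ => True)
    (fun i u => if u ∈ D.A i.2 then 1 else 0) (fun i => D.A i.2)
    1500 3000 16000 (fun i _ => hD.A_card _) (fun i _ y => b8 _)
    (fun i _ y hy => if_neg hy) (by norm_num) (by norm_num) (by norm_num) (deg5 hD _)
  have f10 := loc_dev hD hm' S (κ := Bool × ι) (fun i => i.1)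
    (fun i => ((D.A i.2).card : ℝ) ≤ D.T ^ 1603)
    (fun i u => if u ∈ D.A i.2 then 1 else 0) (fun i => D.A i.2)
    803 1603 16000 (fun i hi => hi) (fun i _ y => b8 _)
    (fun i _ y hy => if_neg hy) (by norm_num) (by norm_num) (by norm_num) (deg5 hD _)
  have g1 := LocOK.and hT (LocOK.and hT (LocOK.and hT f1 f2) (LocOK.and hT f3 f4))
    (LocOK.and hT (LocOK.and hT f5 f6) (LocOK.and hT f7 f8))
  have g2 := LocOK.and hT g1 (LocOK.mono hT (LocOK.and hT f9 f10) (Nat.le_add_right _ 2))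
  clear f1 f2 f3 f4 f5 f6 f7 f8 f9 f10 g1
  have g3 := LocOK.stepOK hT g2 (by norm_num)
  clear g2
  obtain ⟨κ, hκ, E, S', hd, hp, hs, hi, hg⟩ := g3
  refine ⟨κ, hκ, E, S', hd, hp, hs, hi, fun lam hE => ?_⟩
  obtain ⟨⟨⟨⟨h1, h2⟩, h3, h4⟩, ⟨h5, h6⟩, h7, h8⟩, h9, h10⟩ := hg lam hE
  exact
    { a1 := fun b x c => h1 (b, x, c) trivial
      a2 := fun b x c => h2 (b, x, c) trivial
      a3 := fun b x c => h3 (b, x, c) trivial
      a4 := fun z z' c h => h4 (z, z', c) h
      a5 := fun z z' c h => h5 (z, z', c) h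
      a6 := fun z z' c h => h6 (z, z', c) h
      a7 := fun b y y' h => h7 (b, y, y') h
      a8 := fun b x => h8 (b, x) trivial
      a9 := fun b i => h9 (b, i) trivial
      a10 := fun b i h => h10 (b, i) h }

end NibData

end

end Pool.Agent.AcyK
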