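import Pool.Agent.AcyK.Tools

/-! # The static random partition (project MP_af9dfb_K, module OP)

`N v` is the neighbourhood of `v` (a symmetric relation).  The vertices are put independently and
uniformly into `R` parts. -/

set_option autoImplicit false
set_option linter.unusedSectionVars false

namespace Pool.Agent.AcyK

open Finset
open Pool.Agent.Acy (IsPM wt Ex Pr mean)
open scoped Classical

universe u v

section

variable {V : Type u} [Fintype V] [DecidableEq V]

/-- The uniform law on the parts. -/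
noncomputable def unif (V : Type u) (R : ℕ) : V → Fin R → ℝ := fun _ _ => 1 / R

theorem unif_isPM {R : ℕ} (hR : 0 < R) : IsPM (unif V R) := by
  have hR' : (0 : ℝ) < R := by exact_mod_cast hR
  refine ⟨fun _ _ => by unfold unif; positivity, fun _ => ?_⟩
  unfold unif
  rw [Finset.sum_const, Finset.card_univ, Fintype.card_fin, nsmul_eq_mul]
  field_simp

/-- Weight of the part `j`. -/
noncomputable def wsum {R : ℕ} (w : V → ℝ) (j : Fin R) (ω : V → Fin R) : ℝ :=
  ∑ u, if ω u = j then w u else 0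

/-- Bernstein bound for the weight of a part. -/
theorem wsum_tail {T : ℝ} (hT : Big T) {R : ℕ} (hR : 0 < R) (w : V → ℝ) (j : Fin R)
    {B S τ : ℝ} (hB : 0 < B) (hw0 : ∀ u, 0 ≤ w u) (hwB : ∀ u, w u ≤ B)
    (hS : ∑ u, w u ≤ R * S) (h1 : 8 * (T + 1) * B ≤ τ) (h2 : 8 * (T + 1) * B * S ≤ τ ^ 2) :
    Pr (unif V R) (fun ω => S + τ < wsum w j ω) ≤ Real.exp (-T) := by
  have hR' : (0 : ℝ) < R := by exact_mod_cast hR
  have hpm := unif_isPM (V := V) hR
  have hT0 := hT.pos
  have hτ : 0 < τ := lt_of_lt_of_le (by positivity) h1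
  have hS0 : 0 ≤ S := by
    have h3 : 0 ≤ ∑ u, w u := Finset.sum_nonneg fun u _ => hw0 u
    by_contra hc
    push Not at hc
    have := mul_neg_of_pos_of_neg hR' hc
    linarith
  set Y : V → Fin R → ℝ := fun u a => if a = j then w u else 0 with hY
  have hYb : ∀ u a, |Y u a| ≤ B := by
    intro u a
    simp only [hY]
    split_ifs
    · rw [abs_of_nonneg (hw0 u)]; exact hwB u
    · rw [abs_zero]; exact hB.le
  have hmean : ∀ u, mean (unif V R) Y u = w u / R := by
    intro u
    unfold mean unif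
    simp only [hY, mul_ite, mul_zero, Finset.sum_ite_eq', mem_univ, if_true]
    ring
  have hV : ∑ u, ∑ a, unif V R u a * Y u a ^ 2 ≤ B * S := by
    have h3 : ∀ u, ∑ a, unif V R u a * Y u a ^ 2 ≤ B * (w u / R) := by
      intro u
      have h4 : ∀ a, unif V R u a * Y u a ^ 2 = if a = j then 1 / (R : ℝ) * w u ^ 2 else 0 := by
        intro a
        simp only [unif, hY]
        split_ifs <;> simp
      rw [Finset.sum_congr rfl fun a _ => h4 a, Finset.sum_ite_eq' , if_pos (mem_univ _)]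
      have h5 : w u ^ 2 ≤ B * w u := by
        rw [pow_two]; exact mul_le_mul_of_nonneg_right (hwB u) (hw0 u)
      calc 1 / (R : ℝ) * w u ^ 2 ≤ 1 / (R : ℝ) * (B * w u) :=
            mul_le_mul_of_nonneg_left h5 (by positivity)
        _ = B * (w u / R) := by ring
    refine (Finset.sum_le_sum fun u _ => h3 u).trans ?_
    rw [← Finset.mul_sum, ← Finset.sum_div]
    apply mul_le_mul_of_nonneg_left _ hB.le
    rw [div_le_iff₀ hR']
    linarith
  set l := τ / (2 * (B * S + τ * B)) with hl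
  have hden : 0 < B * S + τ * B := by positivity
  have hl0 : 0 ≤ l := by positivity
  have hlb : 2 * (l * B) ≤ 1 := by
    have h3 : 2 * (l * B) = τ * B / (B * S + τ * B) := by
      rw [hl]; field_simp
    rw [h3, div_le_one hden]
    nlinarith [mul_nonneg hB.le hS0]
  have key := Pool.Agent.Acy.indep_tail hpm Y B hYb (B * S) hV l hl0 hlb τ
  have hexp : l ^ 2 * (B * S) - l * τ ≤ -(T + 1) := by
    have h3 : l ^ 2 * (B * S) ≤ l ^ 2 * (B * S + τ * B) :=
      mul_le_mul_of_nonneg_left (by nlinarith) (sq_nonneg _)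
    have h4 : l ^ 2 * (B * S + τ * B) - l * τ = -(τ ^ 2 / (4 * (B * S + τ * B))) := by
      rw [hl]; field_simp; ring
    have h5 : T + 1 ≤ τ ^ 2 / (4 * (B * S + τ * B)) := by
      rw [le_div_iff₀ (by positivity)]
      nlinarith
    linarith
  have hfin : 2 * Real.exp (l ^ 2 * (B * S) - l * τ) ≤ Real.exp (-T) := by
    have h3 : Real.exp (l ^ 2 * (B * S) - l * τ) ≤ Real.exp (-(T + 1)) := Real.exp_le_exp.2 hexp
    have h4 : Real.exp (-T) = Real.exp 1 * Real.exp (-(T + 1)) := by
      rw [← Real.exp_add]; congr 1; ring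
    have h5 : (2 : ℝ) ≤ Real.exp 1 := by
      have := Real.add_one_le_exp (1 : ℝ)
      linarith
    rw [h4]
    have h6 := Real.exp_pos (-(T + 1))
    nlinarith
  refine le_trans (Pool.Agent.Acy.Pr_mono hpm fun ω hω => ?_) (key.trans hfin)
  have h6 : ∑ u, (Y u (ω u) - mean (unif V R) Y u) = wsum w j ω - (∑ u, w u) / R := by
    rw [Finset.sum_sub_distrib]
    unfold wsum
    congr 1
    rw [Finset.sum_div]
    exact Finset.sum_congr rfl fun u _ => hmean u
  rw [h6]
  have h7 : (∑ u, w u) / R ≤ S := by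
    rw [div_le_iff₀ hR']; linarith
  refine le_trans ?_ (le_abs_self _)
  linarith

/-- A family of weights can be balanced simultaneously. -/
theorem wsum_stepOK {T : ℝ} (hT : Big T) {R : ℕ} (hR : 0 < R) {κ : Type u} [Fintype κ]
    (w : κ → V → ℝ) (Su : κ → Finset V) (B S τ : κ → ℝ) (hB : ∀ b, 0 < B b)
    (hw0 : ∀ b u, 0 ≤ w b u) (hwB : ∀ b u, w b u ≤ B b)
    (hsu : ∀ b u, u ∉ Su b → w b u = 0) (hS : ∀ b, ∑ u, w b u ≤ R * S b)
    (h1 : ∀ b, 8 * (T + 1) * B b ≤ τ b) (h2 : ∀ b, 8 * (T + 1) * B b * S b ≤ τ b ^ 2)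
    (hcard : ∀ b, ((Su b).card : ℝ) ≤ T ^ 60000)
    (hdeg : ∀ i, ((univ.filter fun b => i ∈ Su b).card : ℝ) * R ≤ T ^ 60000) :
    StepOK T (unif V R) (fun ω => ∀ b j, wsum (w b) j ω ≤ S b + τ b) := by
  refine ⟨κ × Fin R, inferInstance, fun e ω => S e.1 + τ e.1 < wsum (w e.1) e.2 ω,
    fun e => Su e.1, ?_, ?_, ?_, ?_, ?_⟩
  · rintro ⟨b, j⟩ ω ω' hω
    have h3 : wsum (w b) j ω = wsum (w b) j ω' := by
      unfold wsum
      refine Finset.sum_congr rfl fun u _ => ?_
      by_cases hu : u ∈ Su b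
      · rw [hω u (by exact_mod_cast hu)]
      · rw [hsu b u hu]; simp
    simp only [h3]
  · rintro ⟨b, j⟩
    exact wsum_tail hT hR (w b) j (hB b) (hw0 b) (hwB b) (hS b) (h1 b) (h2 b)
  · rintro ⟨b, j⟩
    exact hcard b
  · intro i
    refine le_trans (le_of_eq ?_) (hdeg i)
    have h3 : (univ.filter fun e : κ × Fin R => i ∈ Su e.1) =
        (univ.filter fun b => i ∈ Su b) ×ˢ (univ : Finset (Fin R)) := by
      ext ⟨b, j⟩
      simp
    rw [h3, Finset.card_product, Finset.card_univ, Fintype.card_fin]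
    push_cast
    ring
  · intro ω hω b j
    exact not_lt.1 (hω (b, j))

/-- Common neighbours. -/
noncomputable def cN (N : V → Finset V) (u x : V) : Finset V := N u ∩ N x

/-- What the random partition satisfies. -/
structure PartOK (T am : ℝ) (R : ℕ) (N : V → Finset V) (part : V → Fin R) : Prop where
  b1 : ∀ v j, (((N v).filter fun z => part z = j).card : ℝ) ≤ 3 * T ^ 2800
  b2 : ∀ u x, ((cN N u x).card : ℝ) ≤ T ^ 2401 → ∀ j,
    (((cN N u x).filter fun z => part z = j).card : ℝ) ≤ T ^ 1603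
  b2r : ∀ u x, T ^ 2385 ≤ ((cN N u x).card : ℝ) → ∀ j,
    (((cN N u x).filter fun z => part z = j).card : ℝ) ≤ 101 / 100 * (cN N u x).card / R
  b2l : ∀ u x, ((cN N u x).card : ℝ) < T ^ 2385 → ∀ j,
    (((cN N u x).filter fun z => part z = j).card : ℝ) ≤ T ^ 1590
  b2s : ∀ s : ℝ, T ^ 2385 ≤ s → ∀ u x, ((cN N u x).card : ℝ) < s → ∀ j,
    (((cN N u x).filter fun z => part z = j).card : ℝ) ≤ 21 / 10 * (s / T ^ 800)
  b3s : ∀ x j, ((univ.filter fun u => u ≠ x ∧ am < ((cN N u x).card : ℝ) ∧ part u = j).card : ℝ) ≤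
    101 / 100 * (T ^ 7200 / (am * R))
  b3q : ∀ x j, ∑ u ∈ univ.filter (fun u => u ≠ x ∧ T ^ 2385 ≤ ((cN N u x).card : ℝ) ∧
    ((cN N u x).card : ℝ) ≤ am ∧ part u = j), ((cN N u x).card : ℝ) ^ 2 ≤
    102 / 100 * (am * T ^ 7200 / R)
  b3c : ∀ x j, ((univ.filter fun u => u ≠ x ∧ T ^ 2385 ≤ ((cN N u x).card : ℝ) ∧
    part u = j).card : ℝ) ≤ T ^ 4016
  b3t : ∀ x j, ((univ.filter fun u => u ≠ x ∧ T ^ 3000 < ((cN N u x).card : ℝ) ∧
    part u = j).card : ℝ) ≤ T ^ 3402

section

variable {T am : ℝ} {R : ℕ} {N : V → Finset V}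

theorem cN_sum (hT : Big T) (hsym : ∀ u v, u ∈ N v → v ∈ N u)
    (hdeg : ∀ v, ((N v).card : ℝ) ≤ T ^ 3600) (x : V) :
    ∑ u, ((cN N u x).card : ℝ) ≤ T ^ 7200 := by
  have h1 : ∑ u, (cN N u x).card = ∑ z ∈ N x, (N z).card := by
    have h2 : ∀ u, (cN N u x).card = ∑ z ∈ N x, if z ∈ N u then 1 else 0 := by
      intro u
      rw [Finset.sum_ite_mem]
      simp only [sum_const, smul_eq_mul, mul_one]
      unfold cN
      rw [inter_comm]
    rw [Finset.sum_congr rfl fun u _ => h2 u, Finset.sum_comm]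
    refine Finset.sum_congr rfl fun z _ => ?_
    rw [Finset.sum_boole]
    simp only [Nat.cast_id]
    congr 1
    ext u
    simp only [mem_filter, mem_univ, true_and]
    exact ⟨fun h => hsym _ _ h, fun h => hsym _ _ h⟩
  have h3 : ∑ u, ((cN N u x).card : ℝ) = ∑ z ∈ N x, ((N z).card : ℝ) := by exact_mod_cast h1
  rw [h3]
  calc ∑ z ∈ N x, ((N z).card : ℝ) ≤ ∑ z ∈ N x, T ^ 3600 := Finset.sum_le_sum fun z _ => hdeg z
    _ = (N x).card * T ^ 3600 := by rw [Finset.sum_const, nsmul_eq_mul]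
    _ ≤ T ^ 3600 * T ^ 3600 := mul_le_mul_of_nonneg_right (hdeg x) (pow_nonneg hT.pos.le _)
    _ = T ^ 7200 := by rw [← pow_add]

theorem cN_count (hT : Big T) (hsym : ∀ u v, u ∈ N v → v ∈ N u)
    (hdeg : ∀ v, ((N v).card : ℝ) ≤ T ^ 3600) (x : V) {a : ℝ} (p : V → Prop)
    (hd : DecidablePred p) (hp : ∀ u, p u → a ≤ ((cN N u x).card : ℝ)) :
    ((univ.filter p).card : ℝ) * a ≤ T ^ 7200 := by
  calc ((univ.filter p).card : ℝ) * a = ∑ _u ∈ univ.filter p, a := by
        rw [Finset.sum_const, nsmul_eq_mul]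
    _ ≤ ∑ u ∈ univ.filter p, ((cN N u x).card : ℝ) :=
        Finset.sum_le_sum fun u hu => hp u (mem_filter.1 hu).2
    _ ≤ ∑ u, ((cN N u x).card : ℝ) :=
        Finset.sum_le_sum_of_subset_of_nonneg (Finset.filter_subset _ _) fun _ _ _ =>
          Nat.cast_nonneg _
    _ ≤ T ^ 7200 := cN_sum hT hsym hdeg x

theorem cN_comm (N : V → Finset V) (u x : V) : cN N u x = cN N x u := by
  unfold cN; rw [inter_comm]

/-- Vertices with a common neighbour. -/
noncomputable def N2 (N : V → Finset V) (x : V) : Finset V :=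
  univ.filter fun u => (cN N u x).Nonempty

theorem N2_card (hT : Big T) (hsym : ∀ u v, u ∈ N v → v ∈ N u)
    (hdeg : ∀ v, ((N v).card : ℝ) ≤ T ^ 3600) (x : V) : ((N2 N x).card : ℝ) ≤ T ^ 7200 := by
  have h := cN_count hT hsym hdeg x (a := 1) (fun u => (cN N u x).Nonempty) (fun _ => inferInstance)
    (fun u hu => by
    have : 1 ≤ (cN N u x).card := Finset.card_pos.2 hu
    exact_mod_cast this)
  rw [mul_one] at h
  convert h using 2
  unfold N2
  congr

theorem N2_of_lt {x u : V} (h : (0 : ℝ) < ((cN N u x).card : ℝ)) : u ∈ N2 N x := by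
  unfold N2
  rw [mem_filter]
  refine ⟨mem_univ _, Finset.card_pos.1 ?_⟩
  exact_mod_cast h

/-- Indicator sums. -/
theorem wsum_ind {R : ℕ} (p₁ p₂ : V → Prop) (hd : DecidablePred fun u => p₁ u ∧ p₂ u) (j : Fin R)
    (ω : V → Fin R) (hd' : DecidablePred fun u => p₁ u ∧ p₂ u ∧ ω u = j) :
    wsum (fun u => @ite ℝ (p₁ u ∧ p₂ u) (hd u) 1 0) j ω =
      ((@Finset.filter V (fun u => p₁ u ∧ p₂ u ∧ ω u = j) hd' univ).card : ℝ) := by
  unfold wsum
  rw [Finset.card_filter]
  push_cast
  refine Finset.sum_congr rfl fun u _ => ?_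
  by_cases h1 : ω u = j <;> by_cases h2 : p₁ u ∧ p₂ u <;> simp [h1, h2]

theorem wsum_mem {R : ℕ} (A : Finset V) (hd : DecidablePred fun u => u ∈ A) (j : Fin R)
    (ω : V → Fin R) :
    wsum (fun u => @ite ℝ (u ∈ A) (hd u) 1 0) j ω =
      ((A.filter fun u => ω u = j).card : ℝ) := by
  unfold wsum
  rw [Finset.card_filter]
  push_cast
  rw [← Finset.sum_filter, ← Finset.sum_filter, ← Finset.sum_filter, Finset.filter_filter]
  refine Finset.sum_congr ?_ fun _ _ => rfl
  ext u
  simp [and_comm]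

/-- A coordinate is relevant for few events. -/
theorem deg_count (hT : Big T) (hsym : ∀ u v, u ∈ N v → v ∈ N u)
    (hdeg : ∀ v, ((N v).card : ℝ) ≤ T ^ 3600) (i : V) :
    ((univ.filter fun b : V ⊕ (V × V) ⊕ V ⊕ V ⊕ V ⊕ V =>
      i ∈ Sum.elim N (Sum.elim (fun e : V × V => cN N e.1 e.2) (Sum.elim (N2 N) (Sum.elim (N2 N)
        (Sum.elim (N2 N) (N2 N))))) b).card : ℝ) ≤ 6 * T ^ 7200 := by
  have hT0 := hT.pos
  have h1 : ∀ hd : (∀ v, Decidable (i ∈ N v)),
      ∑ v, @ite ℝ (i ∈ N v) (hd v) 1 0 ≤ T ^ 7200 := by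
    intro hd
    rw [Finset.sum_boole]
    have h2 : (univ.filter fun v => i ∈ N v) = N i := by
      ext v
      simp only [mem_filter, mem_univ, true_and]
      exact ⟨fun h => hsym _ _ h, fun h => hsym _ _ h⟩
    rw [h2]
    exact (hdeg i).trans (hT.pw (by norm_num))
  have h2 : ∀ hd : (∀ e : V × V, Decidable (i ∈ cN N e.1 e.2)),
      ∑ e : V × V, @ite ℝ (i ∈ cN N e.1 e.2) (hd e) 1 0 ≤ T ^ 7200 := by
    intro hd
    rw [Finset.sum_boole]
    have h3 : (univ.filter fun e : V × V => i ∈ cN N e.1 e.2) ⊆ N i ×ˢ N i := by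
      rintro ⟨u, x⟩ he
      rw [mem_filter] at he
      have h4 : i ∈ N u ∩ N x := he.2
      rw [mem_inter] at h4
      exact mem_product.2 ⟨hsym _ _ h4.1, hsym _ _ h4.2⟩
    have h4 := Finset.card_le_card h3
    rw [Finset.card_product] at h4
    have h5 : ((univ.filter fun e : V × V => i ∈ cN N e.1 e.2).card : ℝ) ≤
        (N i).card * (N i).card := by exact_mod_cast h4
    refine h5.trans ?_
    calc ((N i).card : ℝ) * (N i).card ≤ T ^ 3600 * T ^ 3600 :=
          mul_le_mul (hdeg i) (hdeg i) (Nat.cast_nonneg _) (by positivity)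
      _ = T ^ 7200 := by rw [← pow_add]
  have h3 : ∀ hd : (∀ x, Decidable (i ∈ N2 N x)),
      ∑ x, @ite ℝ (i ∈ N2 N x) (hd x) 1 0 ≤ T ^ 7200 := by
    intro hd
    rw [Finset.sum_boole]
    have h4 : (univ.filter fun x => i ∈ N2 N x) = N2 N i := by
      ext x
      simp only [N2, mem_filter, mem_univ, true_and]
      rw [cN_comm]
    rw [h4]
    exact N2_card hT hsym hdeg i
  have h4 : ((univ.filter fun b : V ⊕ (V × V) ⊕ V ⊕ V ⊕ V ⊕ V =>
      i ∈ Sum.elim N (Sum.elim (fun e : V × V => cN N e.1 e.2) (Sum.elim (N2 N) (Sum.elim (N2 N)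
        (Sum.elim (N2 N) (N2 N))))) b).card : ℝ) =
      ∑ b : V ⊕ (V × V) ⊕ V ⊕ V ⊕ V ⊕ V, (if i ∈ Sum.elim N (Sum.elim
        (fun e : V × V => cN N e.1 e.2) (Sum.elim (N2 N) (Sum.elim (N2 N)
        (Sum.elim (N2 N) (N2 N))))) b then (1 : ℝ) else 0) := by
    rw [Finset.sum_boole]
  rw [h4]
  simp only [Fintype.sum_sum_type, Sum.elim_inl, Sum.elim_inr]
  refine le_trans (add_le_add (h1 _) (add_le_add (h2 _) (add_le_add (h3 _) (add_le_add (h3 _)
    (add_le_add (h3 _) (h3 _)))))) ?_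
  linarith

theorem exists_part (hT : Big T) (hR1 : T ^ 800 / 2 ≤ R) (hR2 : (R : ℝ) ≤ T ^ 800)
    (ham0 : 0 < am) (ham : am ≤ T ^ 2401) (hsym : ∀ u v, u ∈ N v → v ∈ N u)
    (hdeg : ∀ v, ((N v).card : ℝ) ≤ T ^ 3600) : ∃ part : V → Fin R, PartOK T am R N part := by
  have hT0 := hT.pos
  have hT1 := hT.one_le
  have hTb := hT.big
  have hR' : (0 : ℝ) < R := lt_of_lt_of_le (by positivity) hR1
  have hR : 0 < R := by exact_mod_cast hR'
  have h8 : 8 * (T + 1) ≤ T ^ 2 := by nlinarith
  have h800 : 800 * (T + 1) ≤ T ^ 2 := by nlinarith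
  have h80000 : 80000 * (T + 1) ≤ T ^ 3 := by nlinarith [pow_pos hT0 2, pow_pos hT0 3]
  have ge1 : ∀ n : ℕ, (1 : ℝ) ≤ T ^ n := fun n => one_le_pow₀ hT1
  have hd2 : ∀ n : ℕ, 2 * T ^ n ≤ T ^ (n + 1) := fun n => by
    rw [pow_succ]
    nlinarith [pow_pos hT0 n]
  have hin : ∀ u x : V, T ^ 2385 ≤ ((cN N u x).card : ℝ) → u ∈ N2 N x := fun u x h =>
    N2_of_lt (lt_of_lt_of_le (by positivity) h)
  -- lower bounds of the means
  have hm1 : T ^ 3999 ≤ T ^ 7200 / (am * R) := by
    rw [le_div_iff₀ (by positivity)]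
    calc T ^ 3999 * (am * R) ≤ T ^ 3999 * (T ^ 2401 * T ^ 800) := by gcongr
      _ = T ^ 7200 := by rw [← pow_add, ← pow_add]
  have hm2 : T ^ 3 * am ^ 2 ≤ am * T ^ 7200 / R := by
    rw [le_div_iff₀ hR']
    calc T ^ 3 * am ^ 2 * R = am * (T ^ 3 * am * R) := by ring
      _ ≤ am * (T ^ 3 * T ^ 2401 * T ^ 800) := by gcongr
      _ = am * T ^ 3204 := by rw [← pow_add, ← pow_add]
      _ ≤ am * T ^ 7200 := mul_le_mul_of_nonneg_left (hT.pw (by norm_num)) ham0.le
  have hok := wsum_stepOK (V := V) hT hR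
    (κ := V ⊕ (V × V) ⊕ V ⊕ V ⊕ V ⊕ V)
    (Sum.elim (fun v u => if u ∈ N v then (1 : ℝ) else 0)
      (Sum.elim (fun e u => if u ∈ cN N e.1 e.2 then (1 : ℝ) else 0)
      (Sum.elim (fun x u => if u ≠ x ∧ am < ((cN N u x).card : ℝ) then (1 : ℝ) else 0)
      (Sum.elim (fun x u => if u ≠ x ∧ T ^ 2385 ≤ ((cN N u x).card : ℝ) ∧
        ((cN N u x).card : ℝ) ≤ am then ((cN N u x).card : ℝ) ^ 2 else 0)
      (Sum.elim (fun x u => if u ≠ x ∧ T ^ 2385 ≤ ((cN N u x).card : ℝ) then (1 : ℝ) else 0)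
      (fun x u => if u ≠ x ∧ T ^ 3000 < ((cN N u x).card : ℝ) then (1 : ℝ) else 0))))))
    (Sum.elim N (Sum.elim (fun e : V × V => cN N e.1 e.2) (Sum.elim (N2 N) (Sum.elim (N2 N)
        (Sum.elim (N2 N) (N2 N))))))
    (Sum.elim (fun _ => 1) (Sum.elim (fun _ => 1) (Sum.elim (fun _ => 1)
      (Sum.elim (fun _ => am ^ 2) (Sum.elim (fun _ => 1) (fun _ => 1))))))
    (Sum.elim (fun _ => 2 * T ^ 2800) (Sum.elim (fun e => ((cN N e.1 e.2).card : ℝ) / R)
      (Sum.elim (fun _ => T ^ 7200 / (am * R)) (Sum.elim (fun _ => am * T ^ 7200 / R)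
      (Sum.elim (fun _ => 2 * T ^ 4015) (fun _ => 2 * T ^ 3400))))))
    (Sum.elim (fun _ => T ^ 2800) (Sum.elim (fun e => if T ^ 2385 ≤ ((cN N e.1 e.2).card : ℝ)
        then 1 / 100 * (((cN N e.1 e.2).card : ℝ) / R) else 1 / 100 * T ^ 1585)
      (Sum.elim (fun _ => 1 / 100 * (T ^ 7200 / (am * R)))
      (Sum.elim (fun _ => 1 / 100 * (am * T ^ 7200 / R))
      (Sum.elim (fun _ => T ^ 4015) (fun _ => T ^ 3401))))))
    ?_ ?_ ?_ ?_ ?_ ?_ ?_ ?_ ?_
  · obtain ⟨ω, -, hω, -⟩ := StepOK.and_exists hT (unif_isPM (V := V) hR) hok hok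
    have e1 := fun v j => hω (Sum.inl v) j
    have e2 := fun e j => hω (Sum.inr (Sum.inl e)) j
    have e3 := fun x j => hω (Sum.inr (Sum.inr (Sum.inl x))) j
    have e4 := fun x j => hω (Sum.inr (Sum.inr (Sum.inr (Sum.inl x)))) j
    have e5 := fun x j => hω (Sum.inr (Sum.inr (Sum.inr (Sum.inr (Sum.inl x))))) j
    have e6 := fun x j => hω (Sum.inr (Sum.inr (Sum.inr (Sum.inr (Sum.inr x))))) j
    simp only [Sum.elim_inl, Sum.elim_inr] at e1 e2 e3 e4 e5 e6
    have c1 : ∀ v j, (((N v).filter fun z => ω z = j).card : ℝ) ≤ 3 * T ^ 2800 := by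
      intro v j
      have h := e1 v j
      rw [wsum_mem] at h
      linarith
    have c2r : ∀ u x, T ^ 2385 ≤ ((cN N u x).card : ℝ) → ∀ j,
        (((cN N u x).filter fun z => ω z = j).card : ℝ) ≤
          101 / 100 * (cN N u x).card / R := by
      intro u x hux j
      have h := e2 (u, x) j
      rw [wsum_mem] at h
      simp only [if_pos hux] at h
      refine h.trans (le_of_eq ?_)
      ring
    have c2m : ∀ u x, ((cN N u x).card : ℝ) < T ^ 2385 → ∀ j,
        (((cN N u x).filter fun z => ω z = j).card : ℝ) ≤ 21 / 10 * T ^ 1585 := by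
      intro u x hux j
      have h := e2 (u, x) j
      rw [wsum_mem] at h
      simp only [if_neg (not_le.2 hux)] at h
      have h3 : ((cN N u x).card : ℝ) / R ≤ 2 * T ^ 1585 := by
        rw [div_le_iff₀ hR']
        calc ((cN N u x).card : ℝ) ≤ T ^ 2385 := hux.le
          _ = 2 * T ^ 1585 * (T ^ 800 / 2) := by
            rw [show (2385 : ℕ) = 1585 + 800 from rfl, pow_add]; ring
          _ ≤ 2 * T ^ 1585 * R := by gcongr
      have h4 : 0 < T ^ 1585 := by positivity
      linarith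
    have c2l : ∀ u x, ((cN N u x).card : ℝ) < T ^ 2385 → ∀ j,
        (((cN N u x).filter fun z => ω z = j).card : ℝ) ≤ T ^ 1590 := by
      intro u x hux j
      refine (c2m u x hux j).trans ?_
      have h5 := hd2 1585
      have h6 : T ^ (1585 + 2) ≤ T ^ 1590 := hT.pw (by norm_num)
      have h7 := hd2 1586
      have h8 : 0 < T ^ 1585 := by positivity
      norm_num at h5 h6 h7
      linarith
    refine ⟨ω, c1, ?_, c2r, c2l, ?_, ?_, ?_, ?_, ?_⟩
    · intro u x hux j
      by_cases h : T ^ 2385 ≤ ((cN N u x).card : ℝ)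
      · refine (c2r u x h j).trans ?_
        rw [div_le_iff₀ hR']
        calc 101 / 100 * ((cN N u x).card : ℝ) ≤ 2 * T ^ 2401 := by linarith
          _ = 4 * T ^ 1601 * (T ^ 800 / 2) := by
            rw [show (2401 : ℕ) = 1601 + 800 from rfl, pow_add]; ring
          _ ≤ 4 * T ^ 1601 * R := by gcongr
          _ ≤ T ^ 1603 * R := by
            gcongr
            rw [show (1603 : ℕ) = 2 + 1601 from rfl, pow_add]
            gcongr
            nlinarith
      · exact (c2l u x (not_le.1 h) j).trans (hT.pw (by norm_num))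
    · intro s hs u x hux j
      by_cases h : T ^ 2385 ≤ ((cN N u x).card : ℝ)
      · refine (c2r u x h j).trans ?_
        rw [← mul_div_assoc, div_le_div_iff₀ hR' (by positivity)]
        have hs0 : 0 ≤ s := le_trans (by positivity) hs
        calc 101 / 100 * ((cN N u x).card : ℝ) * T ^ 800 ≤ 101 / 100 * s * T ^ 800 := by gcongr
          _ ≤ 21 / 10 * s * (T ^ 800 / 2) := by
            have : 0 ≤ s * T ^ 800 := by positivity
            nlinarith
          _ ≤ 21 / 10 * s * R := by gcongr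
      · refine (c2m u x (not_le.1 h) j).trans ?_
        apply mul_le_mul_of_nonneg_left _ (by norm_num)
        rw [le_div_iff₀ (by positivity), ← pow_add]
        exact hs
    · intro x j
      have h := e3 x j
      rw [wsum_ind] at h
      refine h.trans (le_of_eq ?_)
      ring
    · intro x j
      have h := e4 x j
      have h3 : wsum (fun u => if u ≠ x ∧ T ^ 2385 ≤ ((cN N u x).card : ℝ) ∧
        ((cN N u x).card : ℝ) ≤ am then ((cN N u x).card : ℝ) ^ 2 else 0) j ω =
        ∑ u ∈ univ.filter (fun u => u ≠ x ∧ T ^ 2385 ≤ ((cN N u x).card : ℝ) ∧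
          ((cN N u x).card : ℝ) ≤ am ∧ ω u = j), ((cN N u x).card : ℝ) ^ 2 := by
        unfold wsum
        rw [Finset.sum_filter]
        refine Finset.sum_congr rfl fun u _ => ?_
        by_cases h4 : ω u = j
        · simp only [h4, if_true, and_true]
        · simp only [h4, if_false, and_false]
      rw [h3] at h
      refine h.trans ?_
      have : 0 ≤ am * T ^ 7200 / R := by positivity
      linarith
    · intro x j
      have h := e5 x j
      rw [wsum_ind] at h
      refine h.trans ?_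
      have h4 : 3 * T ^ 4015 ≤ T ^ 4016 := by
        rw [show (4016 : ℕ) = 4015 + 1 from rfl, pow_succ T 4015]
        nlinarith [pow_pos hT0 4015]
      linarith
    · intro x j
      have h := e6 x j
      rw [wsum_ind] at h
      refine h.trans ?_
      have h4 := hd2 3400
      have h5 := hd2 3401
      norm_num at h4 h5
      linarith
  -- B > 0
  · rintro (v | e | x | x | x | x) <;> simp only [Sum.elim_inl, Sum.elim_inr] <;> positivity
  -- w ≥ 0
  · rintro (v | e | x | x | x | x) u <;> simp only [Sum.elim_inl, Sum.elim_inr] <;>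
      split_ifs <;> positivity
  -- w ≤ B
  · rintro (v | e | x | x | x | x) u <;> simp only [Sum.elim_inl, Sum.elim_inr]
    · split_ifs <;> norm_num
    · split_ifs <;> norm_num
    · split_ifs <;> norm_num
    · split_ifs with h
      · exact pow_le_pow_left₀ (Nat.cast_nonneg _) h.2.2 2
      · positivity
    · split_ifs <;> norm_num
    · split_ifs <;> norm_num
  -- support
  · rintro (v | e | x | x | x | x) u hu <;> simp only [Sum.elim_inl, Sum.elim_inr] at hu ⊢
    · rw [if_neg hu]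
    · rw [if_neg hu]
    · rw [if_neg]
      rintro ⟨-, h⟩
      exact hu (N2_of_lt (ham0.trans h))
    · rw [if_neg]
      rintro ⟨-, h, -⟩
      exact hu (hin u x h)
    · rw [if_neg]
      rintro ⟨-, h⟩
      exact hu (hin u x h)
    · rw [if_neg]
      rintro ⟨-, h⟩
      exact hu (N2_of_lt (lt_trans (by positivity) h))
  -- means
  · rintro (v | e | x | x | x | x) <;> simp only [Sum.elim_inl, Sum.elim_inr]
    · rw [Finset.sum_ite_mem, univ_inter, Finset.sum_const, nsmul_eq_mul, mul_one]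
      calc ((N v).card : ℝ) ≤ T ^ 3600 := hdeg v
        _ = T ^ 800 / 2 * (2 * T ^ 2800) := by
          rw [show (3600 : ℕ) = 800 + 2800 from rfl, pow_add]; ring
        _ ≤ R * (2 * T ^ 2800) := by gcongr
    · rw [Finset.sum_ite_mem, univ_inter, Finset.sum_const, nsmul_eq_mul, mul_one]
      rw [mul_div_cancel₀ _ hR'.ne']
    · rw [Finset.sum_boole]
      have h := cN_count hT hsym hdeg x (a := am)
        (fun u => u ≠ x ∧ am < ((cN N u x).card : ℝ)) (fun _ => inferInstance)
        (fun u hu => hu.2.le)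
      have h3 : (R : ℝ) * (T ^ 7200 / (am * R)) = T ^ 7200 / am := by
        field_simp
      rw [h3, le_div_iff₀ ham0]
      convert h using 3
    · have h3 : (R : ℝ) * (am * T ^ 7200 / R) = am * T ^ 7200 := by
        field_simp
      rw [h3]
      calc ∑ u, (if u ≠ x ∧ T ^ 2385 ≤ ((cN N u x).card : ℝ) ∧
            ((cN N u x).card : ℝ) ≤ am then ((cN N u x).card : ℝ) ^ 2 else 0)
          ≤ ∑ u, am * ((cN N u x).card : ℝ) := by
            refine Finset.sum_le_sum fun u _ => ?_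
            split_ifs with h
            · rw [pow_two]
              exact mul_le_mul_of_nonneg_right h.2.2 (Nat.cast_nonneg _)
            · positivity
        _ = am * ∑ u, ((cN N u x).card : ℝ) := by rw [Finset.mul_sum]
        _ ≤ am * T ^ 7200 := mul_le_mul_of_nonneg_left (cN_sum hT hsym hdeg x) ham0.le
    · rw [Finset.sum_boole]
      have h := cN_count hT hsym hdeg x (a := T ^ 2385)
        (fun u => u ≠ x ∧ T ^ 2385 ≤ ((cN N u x).card : ℝ)) (fun _ => inferInstance)
        (fun u hu => hu.2)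
      have h3 : ((univ.filter fun u => u ≠ x ∧ T ^ 2385 ≤ ((cN N u x).card : ℝ)).card : ℝ) ≤
          T ^ 4815 := by
        rw [show (7200 : ℕ) = 4815 + 2385 from rfl, pow_add] at h
        exact le_of_mul_le_mul_right h (by positivity)
      calc _ ≤ T ^ 4815 := h3
        _ = T ^ 800 / 2 * (2 * T ^ 4015) := by
          rw [show (4815 : ℕ) = 800 + 4015 from rfl, pow_add]; ring
        _ ≤ R * (2 * T ^ 4015) := by gcongr
    · rw [Finset.sum_boole]
      have h := cN_count hT hsym hdeg x (a := T ^ 3000)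
        (fun u => u ≠ x ∧ T ^ 3000 < ((cN N u x).card : ℝ)) (fun _ => inferInstance)
        (fun u hu => hu.2.le)
      have h3 : ((univ.filter fun u => u ≠ x ∧ T ^ 3000 < ((cN N u x).card : ℝ)).card : ℝ) ≤
          T ^ 4200 := by
        rw [show (7200 : ℕ) = 4200 + 3000 from rfl, pow_add] at h
        exact le_of_mul_le_mul_right h (by positivity)
      calc _ ≤ T ^ 4200 := h3
        _ = T ^ 800 / 2 * (2 * T ^ 3400) := by
          rw [show (4200 : ℕ) = 800 + 3400 from rfl, pow_add]; ring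
        _ ≤ R * (2 * T ^ 3400) := by gcongr
  -- first condition
  · have hp2 : ∀ n : ℕ, 2 ≤ n → 8 * (T + 1) * 1 ≤ T ^ n := fun n hn => by
      rw [mul_one]; exact h8.trans (hT.pw hn)
    rintro (v | e | x | x | x | x) <;> simp only [Sum.elim_inl, Sum.elim_inr]
    · exact hp2 _ (by norm_num)
    · split_ifs with h
      · rw [mul_one]
        have h3 : T ^ 1585 ≤ ((cN N e.1 e.2).card : ℝ) / R := by
          rw [le_div_iff₀ hR']
          calc T ^ 1585 * R ≤ T ^ 1585 * T ^ 800 := by gcongr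
            _ = T ^ 2385 := by rw [← pow_add]
            _ ≤ _ := h
        have h4 : T ^ 2 ≤ T ^ 1585 := hT.pw (by norm_num)
        linarith
      · rw [mul_one]
        have h4 : T ^ 2 ≤ T ^ 1585 := hT.pw (by norm_num)
        linarith
    · rw [mul_one]
      have h4 : T ^ 2 ≤ T ^ 3999 := hT.pw (by norm_num)
      linarith
    · have h4 : 800 * (T + 1) * am ^ 2 ≤ T ^ 3 * am ^ 2 := by
        apply mul_le_mul_of_nonneg_right _ (by positivity)
        exact h800.trans (hT.pw (by norm_num))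
      linarith
    · exact hp2 _ (by norm_num)
    · exact hp2 _ (by norm_num)
  -- second condition
  · have hpp : ∀ a b : ℕ, a + 3 ≤ 2 * b → 8 * (T + 1) * 1 * (2 * T ^ a) ≤ (T ^ b) ^ 2 := by
      intro a b hab
      calc 8 * (T + 1) * 1 * (2 * T ^ a) = (16 * (T + 1)) * T ^ a := by ring
        _ ≤ T ^ 3 * T ^ a := by
          gcongr
          nlinarith [pow_pos hT0 3, pow_pos hT0 2]
        _ = T ^ (a + 3) := by rw [← pow_add]; congr 1; omega
        _ ≤ T ^ (2 * b) := hT.pw hab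
        _ = (T ^ b) ^ 2 := by rw [← pow_mul]; congr 1; omega
    have hsq : ∀ B S : ℝ, 0 ≤ B → 0 ≤ S → T ^ 3 * B ≤ S →
        8 * (T + 1) * B * S ≤ (1 / 100 * S) ^ 2 := by
      intro B S hB hS h
      have h3 : 80000 * (T + 1) * B ≤ S :=
        (mul_le_mul_of_nonneg_right h80000 hB).trans h
      nlinarith [mul_le_mul_of_nonneg_right h3 hS]
    rintro (v | e | x | x | x | x) <;> simp only [Sum.elim_inl, Sum.elim_inr]
    · exact hpp _ _ (by norm_num)
    · split_ifs with h
      · apply hsq 1 _ (by norm_num) (by positivity)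
        rw [mul_one]
        have h3 : T ^ 1585 ≤ ((cN N e.1 e.2).card : ℝ) / R := by
          rw [le_div_iff₀ hR']
          calc T ^ 1585 * R ≤ T ^ 1585 * T ^ 800 := by gcongr
            _ = T ^ 2385 := by rw [← pow_add]
            _ ≤ _ := h
        exact (hT.pw (by norm_num)).trans h3
      · have h3 : ((cN N e.1 e.2).card : ℝ) / R ≤ 2 * T ^ 1585 := by
          rw [div_le_iff₀ hR']
          calc ((cN N e.1 e.2).card : ℝ) ≤ T ^ 2385 := (not_le.1 h).le
            _ = 2 * T ^ 1585 * (T ^ 800 / 2) := by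
              rw [show (2385 : ℕ) = 1585 + 800 from rfl, pow_add]; ring
            _ ≤ 2 * T ^ 1585 * R := by gcongr
        calc 8 * (T + 1) * 1 * (((cN N e.1 e.2).card : ℝ) / R)
            ≤ 8 * (T + 1) * 1 * (2 * T ^ 1585) := mul_le_mul_of_nonneg_left h3 (by positivity)
          _ = (16 * (T + 1)) * T ^ 1585 := by ring
          _ ≤ (1 / 10000 * T ^ 1585) * T ^ 1585 := by
            apply mul_le_mul_of_nonneg_right _ (by positivity)
            have h4 : T ^ 4 ≤ T ^ 1585 := hT.pw (by norm_num)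
            have h5 : 160000 * (T + 1) ≤ T ^ 4 / 10000 := by
              have h6 : 80000 * (T + 1) ≤ T ^ 3 := h80000
              have h7 : (T : ℝ) ^ 4 = T * T ^ 3 := by ring
              rw [h7]
              have h8 : (20000 : ℝ) ≤ T := by linarith
              nlinarith [pow_pos hT0 3]
            linarith
          _ = (1 / 100 * T ^ 1585) ^ 2 := by ring
    · apply hsq 1 _ (by norm_num) (by positivity)
      rw [mul_one]
      exact (hT.pw (by norm_num)).trans hm1
    · exact hsq (am ^ 2) _ (by positivity) (by positivity) hm2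
    · exact hpp _ _ (by norm_num)
    · exact hpp _ _ (by norm_num)
  -- sizes
  · rintro (v | e | x | x | x | x) <;> simp only [Sum.elim_inl, Sum.elim_inr]
    · exact (hdeg v).trans (hT.pw (by norm_num))
    · have h3 : (cN N e.1 e.2).card ≤ (N e.1).card := Finset.card_le_card inter_subset_left
      have h4 : ((cN N e.1 e.2).card : ℝ) ≤ ((N e.1).card : ℝ) := by exact_mod_cast h3
      exact h4.trans ((hdeg _).trans (hT.pw (by norm_num)))
    · exact (N2_card hT hsym hdeg x).trans (hT.pw (by norm_num))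
    · exact (N2_card hT hsym hdeg x).trans (hT.pw (by norm_num))
    · exact (N2_card hT hsym hdeg x).trans (hT.pw (by norm_num))
    · exact (N2_card hT hsym hdeg x).trans (hT.pw (by norm_num))
  -- degrees
  · intro i
    have h3 := deg_count hT hsym hdeg i
    calc _ ≤ (6 * T ^ 7200) * T ^ 800 := mul_le_mul h3 hR2 hR'.le (by positivity)
      _ = 6 * T ^ 8000 := by rw [mul_assoc, ← pow_add]
      _ ≤ T * T ^ 8000 := by gcongr; linarith
      _ = T ^ 8001 := by rw [← pow_succ']
      _ ≤ T ^ 60000 := hT.pw (by norm_num)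

end

end

end Pool.Agent.AcyK
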