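import Pool.Agent.AcyK.ODefs

/-! # The outer process (project MP_af9dfb_K): static facts (row OS) -/

set_option autoImplicit false
set_option linter.unusedSectionVars false

namespace Pool.Agent.AcyK

open Finset
open Pool.Agent.Acy (IsPM wt Ex Pr mean)
open scoped Classical

universe u v w

section

variable {V : Type u} [Fintype V] [DecidableEq V]

namespace OData

variable {D : OData V}

section
variable (hD : D.Ok)
include hD

theorem T1 : 1 ≤ D.T := hD.big.one_le

theorem T0 : 0 < D.T := hD.big.pos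

theorem k_pos : (0 : ℝ) < D.k := lt_of_lt_of_le (pow_pos (T0 hD) _) hD.k_lo

theorem R_pos : (0 : ℝ) < D.R :=
  lt_of_lt_of_le (by have := pow_pos (T0 hD) 800; linarith) hD.R_lo

omit hD in
theorem th_pos : 0 < D.th := Real.exp_pos _

theorem th_pow : D.th ^ 10 = D.T := by
  unfold th
  rw [← Real.exp_nat_mul]
  have h : ((10 : ℕ) : ℝ) * (Real.log D.T / 10) = Real.log D.T := by push_cast; ring
  rw [h, Real.exp_log (T0 hD)]

theorem th_ge : 4 ≤ D.th := by
  have h := hD.NN_le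
  have h1 : (0 : ℝ) ≤ (D.NN : ℝ) := Nat.cast_nonneg _
  linarith

/-- `th ^ 4 <= T / 1000` (from `Big.exp_two_fifth`). -/
theorem th4 : D.th ^ 4 ≤ D.T / 1000 := by
  unfold th
  rw [← Real.exp_nat_mul]
  have h : ((4 : ℕ) : ℝ) * (Real.log D.T / 10) = 2 * Real.log D.T / 5 := by push_cast; ring
  rw [h]
  exact hD.big.exp_two_fifth

theorem th2 : D.th ^ 2 ≤ D.T / 10000 := by
  unfold th
  rw [← Real.exp_nat_mul]
  have h : ((2 : ℕ) : ℝ) * (Real.log D.T / 10) = Real.log D.T / 5 := by push_cast; ring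
  rw [h]
  exact hD.big.exp_fifth

theorem tau_ge : 1 ≤ D.tau := by
  unfold tau
  have h1 : (0 : ℝ) ≤ (D.NN : ℝ) := Nat.cast_nonneg _
  have h2 : 0 ≤ Real.log (2 * D.NN + 2) := Real.log_nonneg (by linarith)
  linarith

theorem tau_le : D.tau ≤ D.T := by
  unfold tau
  have h1 : (0 : ℝ) ≤ (D.NN : ℝ) := Nat.cast_nonneg _
  have h2 : Real.log (2 * D.NN + 2) ≤ Real.log D.th :=
    Real.log_le_log (by linarith) (by have := hD.NN_le; linarith)
  have h3 : Real.log D.th = Real.log D.T / 10 := by unfold th; rw [Real.log_exp]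
  have h4 := hD.big.log_le
  have h5 := hD.big.big
  have h6 := hD.big.log_pos
  linarith

/-- A power divided by `k`. -/
theorem div_k {a b : ℕ} (h : a + b ≤ 3999) : D.T ^ a / D.k ≤ 1 / D.T ^ b := by
  rw [div_le_div_iff₀ (k_pos hD) (pow_pos (T0 hD) _), one_mul, ← pow_add]
  exact (hD.big.pw h).trans hD.k_lo

theorem div_k' {a b : ℕ} (h : a ≤ 3999 + b) : D.T ^ a / D.k ≤ D.T ^ b := by
  rw [div_le_iff₀ (k_pos hD)]
  calc D.T ^ a ≤ D.T ^ (b + 3999) := hD.big.pw (by omega)
    _ = D.T ^ b * D.T ^ 3999 := pow_add _ _ _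
    _ ≤ D.T ^ b * D.k := mul_le_mul_of_nonneg_left hD.k_lo (pow_nonneg (T0 hD).le _)

theorem mM {m : ℕ} (h : m ≤ D.M) : (m : ℝ) ≤ D.T ^ 150 := by
  have h1 : (m : ℝ) ≤ D.M := by exact_mod_cast h
  have h2 := hD.M_le
  have h3 := hD.q_hi
  have h4 : 0 ≤ D.T ^ 133 := pow_nonneg (T0 hD).le _
  linarith

theorem lv_lt (v : V) : D.lv v < D.R := (D.part v).2

omit hD in
theorem lv_eq_iff {v : V} {j : Fin D.R} : D.lv v = j ↔ D.part v = j := by
  unfold lv
  exact ⟨fun h => Fin.ext h, fun h => by rw [h]⟩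

theorem cN_comm' (u x : V) : cN D.N u x = cN D.N x u := cN_comm _ _ _

theorem cod_comm (u x : V) : D.cod u x = D.cod x u := by
  unfold cod
  rw [cN_comm]

theorem rel_symm {u x : V} (h : D.rel u x) : D.rel x u := by
  obtain ⟨h1, h2, h3, h4, h5⟩ := h
  refine ⟨h1.symm, h2.symm, fun h => h3 (hD.N_symm _ _ h), ?_, ?_⟩
  · rw [cod_comm hD]; exact h4
  · rw [cod_comm hD]; exact h5

theorem spe_symm {u x : V} (h : D.spe u x) : D.spe x u := by
  obtain ⟨h1, h2, h3⟩ := h
  refine ⟨h1.symm, h2.symm, ?_⟩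
  rcases h3 with h3 | h3
  · exact Or.inl (hD.N_symm _ _ h3)
  · right; rw [cod_comm hD]; exact h3

theorem rel_not_spe {u x : V} (h : D.rel u x) : ¬ D.spe u x := by
  rintro ⟨-, -, h3 | h3⟩
  · exact h.2.2.1 h3
  · exact absurd h.2.2.2.2 (not_le.2 h3)

omit hD in
theorem mem_cN {u x z : V} : z ∈ cN D.N u x ↔ z ∈ D.N u ∧ z ∈ D.N x := by
  unfold cN
  rw [mem_inter]

/-- `u, x` are common neighbours of `z, z'` iff `z, z'` are common neighbours of `u, x`. -/
theorem cN_swap {u x z z' : V} (hz : z ∈ cN D.N u x) (hz' : z' ∈ cN D.N u x) :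
    u ∈ cN D.N z z' ∧ x ∈ cN D.N z z' := by
  rw [mem_cN] at hz hz'
  rw [mem_cN, mem_cN]
  exact ⟨⟨hD.N_symm _ _ hz.1, hD.N_symm _ _ hz'.1⟩, ⟨hD.N_symm _ _ hz.2, hD.N_symm _ _ hz'.2⟩⟩

theorem cj_comm (j : ℕ) (u x : V) : D.cj j u x = D.cj j x u := by
  unfold cj
  rw [cN_comm]

theorem prs_comm (j : ℕ) (u x : V) : D.prs j u x = D.prs j x u := by
  unfold prs
  rw [cN_comm]

theorem b1 (v : V) (j : ℕ) :
    (((D.N v).filter fun z => D.lv z = j).card : ℝ) ≤ 3 * D.T ^ 2800 := by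
  by_cases hj : j < D.R
  · refine le_trans ?_ (hD.part_ok.b1 v ⟨j, hj⟩)
    rw [Nat.cast_le]
    apply Finset.card_le_card
    intro z hz
    rw [mem_filter] at hz ⊢
    exact ⟨hz.1, Fin.ext hz.2⟩
  · have h : ((D.N v).filter fun z => D.lv z = j) = ∅ := by
      apply Finset.filter_eq_empty_iff.2
      intro z _ hz
      exact hj (hz ▸ lv_lt hD z)
    rw [h, Finset.card_empty]
    have := pow_pos (T0 hD) 2800
    push_cast
    linarith

/-- Transfer of a bound on common neighbours in one part. -/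
theorem cj_le {B : ℝ} (hB : 0 ≤ B) {u x : V} (j : ℕ)
    (h : ∀ j : Fin D.R, (((cN D.N u x).filter fun z => D.part z = j).card : ℝ) ≤ B) :
    ((D.cj j u x).card : ℝ) ≤ B := by
  by_cases hj : j < D.R
  · refine le_trans ?_ (h ⟨j, hj⟩)
    rw [Nat.cast_le]
    apply Finset.card_le_card
    intro z hz
    unfold cj at hz
    rw [mem_filter] at hz ⊢
    exact ⟨hz.1, Fin.ext hz.2⟩
  · have h : D.cj j u x = ∅ := by
      unfold cj
      apply Finset.filter_eq_empty_iff.2
      intro z _ hz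
      exact hj (hz ▸ lv_lt hD z)
    rw [h, Finset.card_empty]
    push_cast
    exact hB

theorem b2 {u x : V} (h : D.cod u x ≤ D.T ^ 2401) (j : ℕ) :
    ((D.cj j u x).card : ℝ) ≤ D.T ^ 1603 :=
  cj_le hD (pow_nonneg (T0 hD).le _) j fun j => hD.part_ok.b2 u x h j

theorem b2r {u x : V} (h : D.T ^ 2385 ≤ D.cod u x) (j : ℕ) :
    ((D.cj j u x).card : ℝ) ≤ 101 / 100 * D.cod u x / D.R := by
  have hR := R_pos hD
  have h0 : 0 ≤ D.cod u x := by unfold cod; exact Nat.cast_nonneg _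
  exact cj_le hD (by positivity) j fun j => hD.part_ok.b2r u x h j

theorem b2l {u x : V} (h : D.cod u x < D.T ^ 2385) (j : ℕ) :
    ((D.cj j u x).card : ℝ) ≤ D.T ^ 1590 :=
  cj_le hD (pow_nonneg (T0 hD).le _) j fun j => hD.part_ok.b2l u x h j

/-- From `b3s` and `par1`, plus the neighbours (`b1`). -/
theorem spe_card (x : V) : ((univ.filter fun u => D.spe u x).card : ℝ) ≤ D.k / 1950 := by
  have hT0 := T0 hD
  have hR := R_pos hD
  have hk := k_pos hD
  have ham := hD.am_pos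
  have h1 := hD.part_ok.b3s x (D.part x)
  have h2 := b1 hD x (D.lv x)
  have h3 : ((univ.filter fun u => D.spe u x).card : ℝ) ≤
      ((univ.filter fun u => u ≠ x ∧ D.am < ((cN D.N u x).card : ℝ) ∧
        D.part u = D.part x).card : ℝ) +
      (((D.N x).filter fun z => D.lv z = D.lv x).card : ℝ) := by
    rw [← Nat.cast_add, Nat.cast_le]
    refine le_trans (Finset.card_le_card ?_) (Finset.card_union_le _ _)
    intro u hu
    rw [mem_filter] at hu
    rw [mem_union, mem_filter, mem_filter]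
    obtain ⟨-, h4, h5, h6⟩ := hu
    rcases h6 with h6 | h6
    · exact Or.inr ⟨h6, h5⟩
    · exact Or.inl ⟨mem_univ _, h4, h6, Fin.ext h5⟩
  have h4 : D.T ^ 7200 / (D.am * D.R) ≤ D.k / 2000 := by
    rw [div_le_div_iff₀ (by positivity) (by norm_num)]
    have := hD.par1
    linarith
  have h5 : 3 * D.T ^ 2800 ≤ D.k / 1000000 := by
    have h6 := hD.big.big
    have h7 : D.T ^ 3999 = D.T ^ 2800 * D.T ^ 1199 := by rw [← pow_add]
    have h8 : D.T ^ 2 ≤ D.T ^ 1199 := hD.big.pw (by norm_num)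
    have h9 : (3000000 : ℝ) ≤ D.T ^ 2 := by nlinarith
    have h10 : 3000000 * D.T ^ 2800 ≤ D.T ^ 3999 := by
      rw [h7, mul_comm]
      exact mul_le_mul_of_nonneg_left (h9.trans h8) (by positivity)
    have := hD.k_lo
    linarith
  linarith

theorem rel_card (x : V) : ((univ.filter fun u => D.rel u x).card : ℝ) ≤ D.T ^ 4016 := by
  refine le_trans ?_ (hD.part_ok.b3c x (D.part x))
  rw [Nat.cast_le]
  apply Finset.card_le_card
  intro u hu
  rw [mem_filter] at hu ⊢
  obtain ⟨-, h1, h2, h3, h4, h5⟩ := hu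
  exact ⟨mem_univ _, h1, h4, Fin.ext h2⟩

theorem rp_card (x : V) :
    ((univ.filter fun u => D.rel u x ∨ D.spe u x).card : ℝ) ≤ D.T ^ 4017 := by
  have h1 := rel_card hD x
  have h2 := spe_card hD x
  have hT0 := T0 hD
  have h3 : ((univ.filter fun u => D.rel u x ∨ D.spe u x).card : ℝ) ≤
      ((univ.filter fun u => D.rel u x).card : ℝ) +
      ((univ.filter fun u => D.spe u x).card : ℝ) := by
    rw [← Nat.cast_add, Nat.cast_le, Finset.filter_or]
    exact Finset.card_union_le _ _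
  have h4 : D.T ^ 4000 ≤ D.T ^ 4016 := hD.big.pw (by norm_num)
  have h5 : D.T ^ 4017 = D.T ^ 4016 * D.T := pow_succ _ _
  have h6 := hD.big.big
  have h7 : D.T ^ 4016 * 2 ≤ D.T ^ 4016 * D.T :=
    mul_le_mul_of_nonneg_left (by linarith) (by positivity)
  have h8 := hD.k_hi
  have h9 := k_pos hD
  linarith

theorem tw_card (x : V) : ((univ.filter fun u => D.lv x = D.lv u ∧ (x = u ∨
    D.T ^ 3000 < D.cod x u)).card : ℝ) ≤ D.T ^ 3405 := by
  have hT0 := T0 hD
  have h1 := hD.part_ok.b3t x (D.part x)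
  have h3 : ((univ.filter fun u => D.lv x = D.lv u ∧ (x = u ∨
      D.T ^ 3000 < D.cod x u)).card : ℝ) ≤
      ((({x} : Finset V)).card : ℝ) +
      ((univ.filter fun u => u ≠ x ∧ D.T ^ 3000 < ((cN D.N u x).card : ℝ) ∧
        D.part u = D.part x).card : ℝ) := by
    rw [← Nat.cast_add, Nat.cast_le]
    refine le_trans (Finset.card_le_card ?_) (Finset.card_union_le _ _)
    intro u hu
    rw [mem_filter] at hu
    rw [mem_union, mem_filter, mem_singleton]
    obtain ⟨-, h4, h5⟩ := hu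
    by_cases hux : u = x
    · exact Or.inl hux
    · right
      rcases h5 with h5 | h5
      · exact absurd h5.symm hux
      · refine ⟨mem_univ _, hux, ?_, Fin.ext h4.symm⟩
        rw [cod_comm hD] at h5
        exact h5
  rw [Finset.card_singleton] at h3
  push_cast at h3
  have h4 : (1 : ℝ) ≤ D.T ^ 3402 := one_le_pow₀ (T1 hD)
  have h5 : D.T ^ 3403 = D.T ^ 3402 * D.T := pow_succ _ _
  have h6 := hD.big.big
  have h7 : D.T ^ 3402 * 2 ≤ D.T ^ 3402 * D.T :=
    mul_le_mul_of_nonneg_left (by linarith) (by positivity)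
  have h8 : D.T ^ 3403 ≤ D.T ^ 3405 := hD.big.pw (by norm_num)
  linarith

omit hD in
/-- Pairs of common neighbours inside one part, counted by the first element. -/
theorem prs_card_le {u x : V} (j : ℕ) {B : ℝ} (hB : ∀ i, ((D.cj i u x).card : ℝ) ≤ B) :
    ((D.prs j u x).card : ℝ) ≤ D.cod u x * B := by
  have h1 : (D.prs j u x).card ≤ ∑ z ∈ cN D.N u x, (D.cj (D.lv z) u x).card := by
    rw [← Finset.card_sigma]
    refine Finset.card_le_card_of_injOn (fun e => (⟨e.1, e.2⟩ : Σ _ : V, V)) ?_ ?_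
    · intro e he
      have he' : e ∈ D.prs j u x := he
      unfold prs at he'
      rw [mem_filter, mem_product] at he'
      have : (⟨e.1, e.2⟩ : Σ _ : V, V) ∈ (cN D.N u x).sigma fun z => D.cj (D.lv z) u x := by
        rw [mem_sigma]
        refine ⟨he'.1.1, ?_⟩
        unfold cj
        rw [mem_filter]
        exact ⟨he'.1.2, he'.2.2.1.symm⟩
      exact this
    · intro e _ e' _ h
      simp only [Sigma.mk.injEq, heq_eq_eq] at h
      exact Prod.ext h.1 h.2
  calc ((D.prs j u x).card : ℝ) ≤ ((∑ z ∈ cN D.N u x, (D.cj (D.lv z) u x).card : ℕ) : ℝ) := by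
        exact_mod_cast h1
    _ = ∑ z ∈ cN D.N u x, ((D.cj (D.lv z) u x).card : ℝ) := by push_cast; rfl
    _ ≤ ∑ _z ∈ cN D.N u x, B := Finset.sum_le_sum fun z _ => hB _
    _ = D.cod u x * B := by rw [Finset.sum_const, nsmul_eq_mul]; rfl

/-- Pairs inside one part in the common neighbourhood. -/
theorem prs_card {u x : V} (h : D.cod u x ≤ D.am) (j : ℕ) :
    ((D.prs j u x).card : ℝ) ≤ D.T ^ 4004 := by
  have h1 : D.cod u x ≤ D.T ^ 2401 := h.trans hD.am_hi
  refine (prs_card_le j fun i => b2 hD h1 i).trans ?_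
  calc D.cod u x * D.T ^ 1603 ≤ D.T ^ 2401 * D.T ^ 1603 :=
        mul_le_mul_of_nonneg_right h1 (pow_nonneg (T0 hD).le _)
    _ = D.T ^ 4004 := by rw [← pow_add]

/-- Pairs in the common neighbourhood of a light pair (part `B` of the covariance). -/
theorem prs_card_light {z z' : V} (h : D.cod z z' < D.T ^ 2385) (j : ℕ) :
    ((D.prs j z z').card : ℝ) ≤ D.T ^ 3975 := by
  refine (prs_card_le j fun i => b2l hD h i).trans ?_
  calc D.cod z z' * D.T ^ 1590 ≤ D.T ^ 2385 * D.T ^ 1590 :=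
        mul_le_mul_of_nonneg_right h.le (pow_nonneg (T0 hD).le _)
    _ = D.T ^ 3975 := by rw [← pow_add]

/-- The initial value of `Om` (from `b2r`, `b3q`, `par1`, `par2`). -/
theorem om_init (x : V) : 12 / 10 * D.tau * (2 / D.k * ∑ u,
    (if D.rel u x then ((D.prs 0 u x).card : ℝ) else 0)) ≤ D.k * Real.log D.T / 80000 := by
  have hT0 := T0 hD
  have hR := R_pos hD
  have hk := k_pos hD
  have ham := hD.am_pos
  have htau : 0 < D.tau := lt_of_lt_of_le one_pos (tau_ge hD)
  have hlog := hD.big.log_pos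
  have h1 : ∑ u, (if D.rel u x then ((D.prs 0 u x).card : ℝ) else 0) ≤
      101 / 100 / D.R * (102 / 100 * (D.am * D.T ^ 7200 / D.R)) := by
    have h2 : ∀ u, (if D.rel u x then ((D.prs 0 u x).card : ℝ) else 0) ≤
        101 / 100 / D.R * (if u ≠ x ∧ D.T ^ 2385 ≤ ((cN D.N u x).card : ℝ) ∧
          ((cN D.N u x).card : ℝ) ≤ D.am ∧ D.part u = D.part x then
            ((cN D.N u x).card : ℝ) ^ 2 else 0) := by
      intro u
      by_cases hu : D.rel u x
      · obtain ⟨h3, h4, h5, h6, h7⟩ := id hu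
        rw [if_pos hu, if_pos ⟨h3, h6, h7, Fin.ext h4⟩]
        refine (prs_card_le 0 fun i => b2r hD h6 i).trans (le_of_eq ?_)
        unfold cod
        ring
      · rw [if_neg hu]
        apply mul_nonneg (by positivity)
        split_ifs <;> positivity
    refine (Finset.sum_le_sum fun u _ => h2 u).trans ?_
    rw [← Finset.mul_sum]
    apply mul_le_mul_of_nonneg_left _ (by positivity)
    refine le_trans (le_of_eq ?_) (hD.part_ok.b3q x (D.part x))
    rw [Finset.sum_filter]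
  have h3 : D.T ^ 7200 ≤ D.R * D.k * D.am / 2000 := by
    have := hD.par1
    linarith
  have h4 : D.tau * D.am ^ 2 ≤ D.R * D.k * Real.log D.T / 100 := by
    have := hD.par2
    linarith
  calc 12 / 10 * D.tau * (2 / D.k * ∑ u,
        (if D.rel u x then ((D.prs 0 u x).card : ℝ) else 0))
      ≤ 12 / 10 * D.tau * (2 / D.k *
        (101 / 100 / D.R * (102 / 100 * (D.am * D.T ^ 7200 / D.R)))) := by gcongr
    _ ≤ 12 / 10 * D.tau * (2 / D.k *
        (101 / 100 / D.R * (102 / 100 * (D.am * (D.R * D.k * D.am / 2000) / D.R)))) := by gcongr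
    _ = 12 / 10 * 2 * (101 / 100) * (102 / 100) / 2000 / D.R * (D.tau * D.am ^ 2) := by
        field_simp
    _ ≤ 12 / 10 * 2 * (101 / 100) * (102 / 100) / 2000 / D.R *
        (D.R * D.k * Real.log D.T / 100) := by gcongr
    _ = 12 / 10 * 2 * (101 / 100) * (102 / 100) / 2000 / 100 * (D.k * Real.log D.T) := by
        field_simp
    _ ≤ D.k * Real.log D.T / 80000 := by
        have := mul_pos hk hlog
        linarith

/-- Vertices `u` of the part of `x` adjacent to both `z` and `z'`. -/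
theorem both_card {z z' : V} (h : D.cod z z' ≤ D.T ^ 2401) (x : V) :
    ((univ.filter fun u => D.lv u = D.lv x ∧ z ∈ D.N u ∧ z' ∈ D.N u).card : ℝ) ≤
      D.T ^ 1603 := by
  refine le_trans ?_ (b2 hD h (D.lv x))
  rw [Nat.cast_le]
  apply Finset.card_le_card
  intro u hu
  rw [mem_filter] at hu
  unfold cj
  rw [mem_filter, mem_cN]
  exact ⟨⟨hD.N_symm _ _ hu.2.2.1, hD.N_symm _ _ hu.2.2.2⟩, hu.2.1⟩

end

end OData

end

end Pool.Agent.AcyK
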