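import Pool.Agent.AcyK.DDefs
import Pool.Agent.AcyK.OStat
import Pool.Agent.Acy.Count

/-! # Basic lemmas of the D-part (project MP_af9dfb_K, helper44) -/

set_option autoImplicit false
set_option linter.unusedSectionVars false

namespace Pool.Agent.AcyK

open Finset
open Pool.Agent.Acy (IsPM wt Ex Pr mean cnt ext Holds)
open scoped Classical

universe u v

section

variable {V : Type u} [Fintype V] [DecidableEq V]

/-! ## Counting lemmas -/

section cl

variable {ι α : Type*} [Fintype ι] [DecidableEq ι] [Fintype α] [DecidableEq α] {T : ℝ}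
  (hT : Big T) {μ : ι → α → ℝ} (h : IsPM μ) {κ : Type*} [Fintype κ]
  (π : ι → α → ℝ) (hπ : ∀ i a, μ i a ≤ π i a) (w : κ → ℝ) (hw : ∀ U, 0 ≤ w U)
  (cd : κ → Finset (ι × α)) (M : ℝ) (hM : 0 < M)

include hT h hπ hw hM

theorem count_gen (r : ℕ) (K : ℝ) (hr : ∀ U, (cd U).card ≤ r)
    (hK : 3 * ((r : ℝ) * (T + 1) + 1) ^ r ≤ K)
    (hext : ∀ W : Finset (ι × α), W.card ≤ r → ext π w cd W ≤ M) :
    Pr μ (fun ω => ¬ cnt w cd ω ≤ K * M) ≤ Real.exp (-T) := by
  have hT0 := hT.pos
  have hm1 : T ≤ (⌈T⌉₊ : ℝ) := Nat.le_ceil _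
  have hm2 : (⌈T⌉₊ : ℝ) < T + 1 := Nat.ceil_lt_add_one hT0.le
  have key := Pool.Agent.Acy.count_tail h π hπ w hw cd r hr M hM hext ⌈T⌉₊
  refine le_trans (Pool.Agent.Acy.Pr_mono h fun ω hω => ?_)
    (key.trans (Real.exp_le_exp.mpr (by linarith)))
  push Not at hω
  refine le_trans (mul_le_mul_of_nonneg_right ?_ hM.le) hω.le
  refine le_trans ?_ hK
  have he : Real.exp 1 ≤ 3 := by
    have := Real.exp_one_lt_d9
    linarith
  have h1 : ((r * ⌈T⌉₊ + 1 : ℕ) : ℝ) ≤ (r : ℝ) * (T + 1) + 1 := by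
    push_cast
    have := mul_le_mul_of_nonneg_left hm2.le (Nat.cast_nonneg (α := ℝ) r)
    linarith
  exact mul_le_mul he (pow_le_pow_left₀ (Nat.cast_nonneg _) h1 r) (by positivity) (by norm_num)

/-- One condition. -/
theorem count1 (hr : ∀ U, (cd U).card ≤ 1)
    (hext : ∀ W : Finset (ι × α), W.card ≤ 1 → ext π w cd W ≤ M) :
    Pr μ (fun ω => ¬ cnt w cd ω ≤ 4 * T * M) ≤ Real.exp (-T) := by
  have hb := hT.big
  norm_num at hb
  refine count_gen hT h π hπ w hw cd M hM 1 (4 * T) hr ?_ hext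
  norm_num
  linarith

/-- At most two conditions. -/
theorem count2 (hr : ∀ U, (cd U).card ≤ 2)
    (hext : ∀ W : Finset (ι × α), W.card ≤ 2 → ext π w cd W ≤ M) :
    Pr μ (fun ω => ¬ cnt w cd ω ≤ 13 * T ^ 2 * M) ≤ Real.exp (-T) := by
  have hb := hT.big
  norm_num at hb
  refine count_gen hT h π hπ w hw cd M hM 2 (13 * T ^ 2) hr ?_ hext
  norm_num
  nlinarith

/-- At most three conditions. -/
theorem count3 (hr : ∀ U, (cd U).card ≤ 3)
    (hext : ∀ W : Finset (ι × α), W.card ≤ 3 → ext π w cd W ≤ M) :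
    Pr μ (fun ω => ¬ cnt w cd ω ≤ 100 * T ^ 3 * M) ≤ Real.exp (-T) := by
  have hb := hT.big
  norm_num at hb
  refine count_gen hT h π hπ w hw cd M hM 3 (100 * T ^ 3) hr ?_ hext
  have h1 : ((3 : ℕ) : ℝ) * (T + 1) + 1 ≤ 31 / 10 * T := by
    norm_num
    linarith
  have h2 : 0 ≤ ((3 : ℕ) : ℝ) * (T + 1) + 1 := by
    norm_num
    linarith
  have h3 := pow_le_pow_left₀ h2 h1 3
  have h4 : 0 ≤ T ^ 3 := by positivity
  have h5 : (31 / 10 * T) ^ 3 = 29791 / 1000 * T ^ 3 := by ring
  rw [h5] at h3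
  have h6 := mul_le_mul_of_nonneg_left h3 (show (0 : ℝ) ≤ 3 by norm_num)
  refine h6.trans ?_
  linarith

end cl

namespace OData

variable {D : OData V}

theorem cN_comm (N : V → Finset V) (u x : V) : cN N u x = cN N x u := by
  unfold cN
  exact inter_comm _ _

theorem cod_symm (u x : V) : D.cod u x = D.cod x u := by
  unfold cod
  rw [cN_comm]

/-! ## Numbers -/

section num

variable (hD : D.Ok)
include hD

theorem Tb : (1000000 : ℝ) ≤ D.T := by
  have := hD.big.big
  norm_num at this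
  exact this

theorem T1' : 1 ≤ D.T := hD.big.one_le

theorem Tp (a : ℕ) : 0 < D.T ^ a := pow_pos (T0 hD) a

theorem k0 : (0 : ℝ) < D.k := lt_of_lt_of_le (Tp hD 3999) hD.k_lo

theorem rho_pos : 0 < D.rho := by
  have := T0 hD
  have := k0 hD
  unfold rho
  positivity

theorem rho_le : D.rho ≤ 2 / D.T ^ 3998 := by
  have h0 := T0 hD
  unfold rho
  rw [div_le_div_iff₀ (k0 hD) (Tp hD _)]
  have h1 := hD.k_lo
  have h2 : D.T ^ 3999 = D.T ^ 3998 * D.T := pow_succ D.T 3998
  rw [h2] at h1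
  linarith

theorem rho_mul_le2 {a b : ℕ} (h : a ≤ b + 3998) : D.rho * D.T ^ a ≤ 2 * D.T ^ b := by
  have h1 := mul_le_mul_of_nonneg_right (rho_le hD) (Tp hD a).le
  refine h1.trans ?_
  rw [div_mul_eq_mul_div, div_le_iff₀ (Tp hD _), mul_assoc, ← pow_add]
  exact mul_le_mul_of_nonneg_left (hD.big.pw h) (by norm_num)

theorem rho_mul_le {a b : ℕ} (h : a + 1 ≤ b + 3998) : D.rho * D.T ^ a ≤ D.T ^ b := by
  rcases Nat.eq_zero_or_pos b with hb | hb
  · subst hb
    have h1 := mul_le_mul_of_nonneg_right (rho_le hD) (Tp hD a).le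
    refine h1.trans ?_
    rw [div_mul_eq_mul_div, div_le_iff₀ (Tp hD _), pow_zero, one_mul]
    calc 2 * D.T ^ a ≤ D.T * D.T ^ a :=
          mul_le_mul_of_nonneg_right (by linarith [Tb hD]) (Tp hD a).le
      _ = D.T ^ (a + 1) := (pow_succ' D.T a).symm
      _ ≤ D.T ^ 3998 := hD.big.pw (by omega)
  · obtain ⟨c, rfl⟩ : ∃ c, b = c + 1 := ⟨b - 1, by omega⟩
    refine (rho_mul_le2 hD (b := c) (by omega)).trans ?_
    rw [pow_succ' D.T c]
    exact mul_le_mul_of_nonneg_right (by linarith [Tb hD]) (Tp hD c).le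

theorem m_le {m : ℕ} (h : m ≤ D.M) : (m : ℝ) ≤ D.T ^ 150 := by
  have h1 : (m : ℝ) ≤ D.M := by exact_mod_cast h
  have h2 := hD.M_le
  have h3 := hD.q_hi
  have h4 := Tp hD 133
  linarith

theorem am_lo : D.T ^ 2385 ≤ D.am := by
  have h1 := hD.par1
  have h0 := hD.am_pos
  have hk := k0 hD
  have h2 : (D.R : ℝ) * D.k * D.am ≤ D.T ^ 800 * D.T ^ 4000 * D.am := by
    apply mul_le_mul_of_nonneg_right _ h0.le
    exact mul_le_mul hD.R_hi hD.k_hi hk.le (Tp hD _).le
  rw [← pow_add] at h2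
  have h3 : D.T ^ 7200 = D.T ^ (800 + 4000) * D.T ^ 2400 := by rw [← pow_add]
  rw [h3] at h1
  have h4 := Tp hD (800 + 4000)
  have h5 : D.T ^ 2400 ≤ D.am := by
    have h6 : D.T ^ (800 + 4000) * D.T ^ 2400 ≤ D.T ^ (800 + 4000) * D.am := by
      have h7 := mul_pos h4 (Tp hD 2400)
      linarith
    exact le_of_mul_le_mul_left h6 h4
  exact (hD.big.pw (by norm_num)).trans h5

theorem R_posN : 0 < D.R := by
  have h1 := hD.R_lo
  have h2 := Tp hD 800
  have h3 : (0 : ℝ) < D.R := by linarith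
  exact_mod_cast h3

theorem lv_lt_R (v : V) : D.lv v < D.R := (D.part v).isLt

/-! ## Graph -/

theorem N_comm {u v : V} : u ∈ D.N v ↔ v ∈ D.N u := ⟨hD.N_symm u v, hD.N_symm v u⟩

theorem Spc_symm {u v : V} (h : D.Spc u v) : D.Spc v u := by
  unfold Spc at h ⊢
  rw [cod_symm, N_comm hD]
  exact h

theorem Rp_symm {u v : V} (h : D.Rp u v) : D.Rp v u := by
  unfold Rp at h ⊢
  rw [cod_symm, N_comm hD]
  exact ⟨h.1.symm, h.2⟩

/-- A pair that is not special has small codegree. -/
theorem cod_le_of_not_Spc {u v : V} (h : ¬ D.Spc u v) : D.cod u v ≤ D.am := by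
  unfold Spc at h
  push Not at h
  exact h.2

theorem cod_le' {u v : V} (h : ¬ D.Spc u v) : D.cod u v ≤ D.T ^ 2401 :=
  (cod_le_of_not_Spc hD h).trans hD.am_hi

theorem not_mem_of_not_Spc {u v : V} (h : ¬ D.Spc u v) : u ∉ D.N v := fun h1 => h (.inl h1)

theorem cod_lt_of_not_Rp {u v : V} (hne : u ≠ v) (h : ¬ D.Rp u v) : D.cod u v < D.T ^ 2385 := by
  unfold Rp at h
  push Not at h
  exact (h hne).2

theorem not_Spc_of_not_Rp {u v : V} (hne : u ≠ v) (h : ¬ D.Rp u v) : ¬ D.Spc u v := by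
  unfold Rp at h
  unfold Spc
  push Not at h ⊢
  have h1 := h hne
  exact ⟨h1.1, h1.2.le.trans (am_lo hD)⟩

theorem Nc (v : V) : ((D.N v).card : ℝ) ≤ D.T ^ 3600 := hD.deg v

theorem pb1 (v : V) (i : ℕ) :
    (((D.N v).filter fun z => D.lv z = i).card : ℝ) ≤ 3 * D.T ^ 2800 := by
  by_cases hi : i < D.R
  · have h1 := hD.part_ok.b1 v ⟨i, hi⟩
    have h2 : ((D.N v).filter fun z => D.lv z = i) =
        (D.N v).filter fun z => D.part z = ⟨i, hi⟩ := by
      apply filter_congr
      intro z _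
      unfold lv
      rw [Fin.ext_iff]
    rw [h2]
    exact h1
  · have h2 : ((D.N v).filter fun z => D.lv z = i) = ∅ := by
      apply filter_eq_empty_iff.2
      intro z _ h
      exact hi (h ▸ lv_lt_R hD z)
    rw [h2, card_empty]
    have := Tp hD 2800
    push_cast
    linarith

theorem pb2 {u x : V} (h : D.cod u x ≤ D.T ^ 2401) (i : ℕ) :
    (((cN D.N u x).filter fun z => D.lv z = i).card : ℝ) ≤ D.T ^ 1603 := by
  by_cases hi : i < D.R
  · have h1 := hD.part_ok.b2 u x h ⟨i, hi⟩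
    have h2 : ((cN D.N u x).filter fun z => D.lv z = i) =
        (cN D.N u x).filter fun z => D.part z = ⟨i, hi⟩ := by
      apply filter_congr
      intro z _
      unfold lv
      rw [Fin.ext_iff]
    rw [h2]
    exact h1
  · have h2 : ((cN D.N u x).filter fun z => D.lv z = i) = ∅ := by
      apply filter_eq_empty_iff.2
      intro z _ h
      exact hi (h ▸ lv_lt_R hD z)
    rw [h2, card_empty]
    have := Tp hD 1603
    push_cast
    linarith

theorem pb2s {s : ℝ} (hs : D.T ^ 2385 ≤ s) {u x : V} (h : D.cod u x < s) (i : ℕ) :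
    (((cN D.N u x).filter fun z => D.lv z = i).card : ℝ) ≤ 21 / 10 * (s / D.T ^ 800) := by
  have hs0 : 0 ≤ s := (Tp hD _).le.trans hs
  by_cases hi : i < D.R
  · have h1 := hD.part_ok.b2s s hs u x h ⟨i, hi⟩
    have h2 : ((cN D.N u x).filter fun z => D.lv z = i) =
        (cN D.N u x).filter fun z => D.part z = ⟨i, hi⟩ := by
      apply filter_congr
      intro z _
      unfold lv
      rw [Fin.ext_iff]
    rw [h2]
    exact h1
  · have h2 : ((cN D.N u x).filter fun z => D.lv z = i) = ∅ := by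
      apply filter_eq_empty_iff.2
      intro z _ h
      exact hi (h ▸ lv_lt_R hD z)
    rw [h2, card_empty]
    have := Tp hD 800
    push_cast
    positivity

end num

/-! ## Colourings -/

section col

variable {f f' : V → Option (Fin D.k × ℕ)}

theorem hasCol_iff {z : V} {c : Fin D.k} : hasCol f z c ↔ ∃ r, f z = some (c, r) := Iff.rfl

theorem hasCol_ne_none {z : V} {c : Fin D.k} (h : hasCol f z c) : f z ≠ none := by
  obtain ⟨r, hr⟩ := h
  rw [hr]
  exact Option.some_ne_none _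

theorem hasCol_unique {z : V} {c c' : Fin D.k} (h : hasCol f z c) (h' : hasCol f z c') :
    c = c' := by
  obtain ⟨r, hr⟩ := h
  obtain ⟨r', hr'⟩ := h'
  rw [hr] at hr'
  simp only [Option.some.injEq, Prod.mk.injEq] at hr'
  exact hr'.1

theorem exists_hasCol {z : V} (h : f z ≠ none) : ∃ c, hasCol f z c := by
  obtain ⟨e, he⟩ := Option.ne_none_iff_exists'.1 h
  exact ⟨e.1, e.2, he⟩

theorem hasCol_congr {z : V} (h : f z = f' z) (c : Fin D.k) : hasCol f z c ↔ hasCol f' z c := by
  unfold hasCol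
  rw [h]

theorem rd_some {z : V} {c : Fin D.k} {r : ℕ} (h : f z = some (c, r)) : D.rd f z = r := by
  unfold rd
  rw [h]
  rfl

theorem rd_congr {z : V} (h : f z = f' z) : D.rd f z = D.rd f' z := by
  unfold rd
  rw [h]

theorem Same.symm {u v : V} (h : D.Same f u v) : D.Same f v u := by
  obtain ⟨h1, h2, c, h3, h4⟩ := h
  exact ⟨h1.symm, h2.symm, c, h4, h3⟩

theorem Same_comm {u v : V} : D.Same f u v ↔ D.Same f v u := ⟨Same.symm, Same.symm⟩

theorem Same.trans {u v w : V} (h : D.Same f u v) (h' : D.Same f v w) (hne : u ≠ w) :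
    D.Same f u w := by
  obtain ⟨_, h2, c, h3, h4⟩ := h
  obtain ⟨_, h6, c', h7, h8⟩ := h'
  have := hasCol_unique h4 h7
  subst this
  exact ⟨hne, h2.trans h6, c, h3, h8⟩

theorem Same.left_ne_none {u v : V} (h : D.Same f u v) : f u ≠ none := by
  obtain ⟨_, _, c, h3, _⟩ := h
  exact hasCol_ne_none h3

theorem Same.right_ne_none {u v : V} (h : D.Same f u v) : f v ≠ none := h.symm.left_ne_none

theorem Same.hasCol {u v : V} (h : D.Same f u v) {c : Fin D.k} (hc : hasCol f u c) :
    Pool.Agent.AcyK.hasCol f v c := by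
  obtain ⟨_, _, c', h3, h4⟩ := h
  have := hasCol_unique hc h3
  subst this
  exact h4

theorem Same_congr {u v : V} (hu : f u = f' u) (hv : f v = f' v) :
    D.Same f u v ↔ D.Same f' u v := by
  unfold Same sameCol hasCol
  rw [hu, hv]

/-- `E3` only looks at smaller parts. -/
theorem E3_congr {v u u' : V} (h : ∀ z, D.lv z < D.lv v → f z = f' z) :
    D.E3 f v u u' ↔ D.E3 f' v u u' := by
  have key : ∀ g g' : V → Option (Fin D.k × ℕ), (∀ z, D.lv z < D.lv v → g z = g' z) →
      D.E3 g v u u' → D.E3 g' v u u' := by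
    rintro g g' hg ⟨z, z', z'', h1, h2, h3, h4, h5, h6, h7, h8, h9⟩
    have e1 := hg z h6
    have e2 := hg z' (h2.2.1 ▸ h6)
    have e3 := hg z'' (h3.2.1 ▸ h6)
    exact ⟨z, z', z'', h1, (Same_congr e1 e2).1 h2, (Same_congr e1 e3).1 h3, h4, h5, h6, h7, h8,
      h9⟩
  exact ⟨key f f' h, key f' f fun z hz => (h z hz).symm⟩

/-- `Cf` only looks at smaller parts. -/
theorem Cf_congr {v x : V} (h : ∀ z, D.lv z < D.lv v → f z = f' z) :
    D.Cf f v x ↔ D.Cf f' v x := by
  have key : ∀ g g' : V → Option (Fin D.k × ℕ), (∀ z, D.lv z < D.lv v → g z = g' z) →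
      D.Cf g v x → D.Cf g' v x := by
    rintro g g' hg ⟨h1, h2, h3, z, z', h4, h5, h6, h7, h8⟩
    exact ⟨h1, h2, h3, z, z', (Same_congr (hg z h6) (hg z' (h4.2.1 ▸ h6))).1 h4, h5, h6, h7, h8⟩
  exact ⟨key f f' h, key f' f fun z hz => (h z hz).symm⟩

theorem Drop_mono {v : V} (hv : f v = f' v) (h1 : ∀ z, D.lv z < D.lv v → f z = f' z)
    (h2 : ∀ z, D.lv z = D.lv v → f z ≠ none → D.rd f z ≤ D.rd f v → f z = f' z)
    (h : D.Drop f v) : D.Drop f' v := by
  obtain ⟨h0, h⟩ := h
  refine ⟨hv ▸ h0, ?_⟩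
  have hr := rd_congr hv
  rcases h with ⟨x, g1, g2, g3⟩ | ⟨x, g1, g2, g3⟩ |
    ⟨z, z', u, u', g1, g2, g3, g4, g5, g6, g7, g8, g9, g10, g11, g12, g13, g14⟩ |
    ⟨u, u', g0, g1, g2, g3, g4, g5⟩
  · have e := h2 x g1.2.1.symm g1.right_ne_none g2.le
    refine .inl ⟨x, (Same_congr hv e).1 g1, ?_, g3⟩
    rw [← rd_congr e, ← hr]
    exact g2
  · have e := h2 x g1.2.1.symm g1.right_ne_none g2
    refine .inr (.inl ⟨x, (Same_congr hv e).1 g1, ?_, (Cf_congr h1).1 g3⟩)
    rw [← rd_congr e, ← hr]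
    exact g2
  · have e1 := h2 z g3 g1.left_ne_none g11
    have e2 := h2 z' (g1.2.1.symm.trans g3) g1.right_ne_none g12
    have e3 := h2 u g8.2.1.symm g8.right_ne_none g13
    have e4 := h2 u' g9.2.1.symm g9.right_ne_none g14
    refine .inr (.inr (.inl ⟨z, z', u, u', (Same_congr e1 e2).1 g1, g2, g3, g4, g5, g6, g7,
      (Same_congr hv e3).1 g8, (Same_congr hv e4).1 g9, fun h => g10 ((Same_congr hv e1).2 h),
      ?_, ?_, ?_, ?_⟩))
    · rw [← rd_congr e1, ← hr]; exact g11
    · rw [← rd_congr e2, ← hr]; exact g12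
    · rw [← rd_congr e3, ← hr]; exact g13
    · rw [← rd_congr e4, ← hr]; exact g14
  · have e3 := h2 u g1.2.1.symm g1.right_ne_none g3
    have e4 := h2 u' g2.2.1.symm g2.right_ne_none g4
    refine .inr (.inr (.inr ⟨u, u', g0, (Same_congr hv e3).1 g1, (Same_congr hv e4).1 g2, ?_, ?_,
      (E3_congr h1).1 g5⟩))
    · rw [← rd_congr e3, ← hr]; exact g3
    · rw [← rd_congr e4, ← hr]; exact g4

/-- The rules only look at smaller parts and earlier rounds. -/
theorem Drop_congr {v : V} (hv : f v = f' v) (h1 : ∀ z, D.lv z < D.lv v → f z = f' z)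
    (h2 : ∀ z, D.lv z = D.lv v → f z ≠ none → D.rd f z ≤ D.rd f v → f z = f' z)
    (h3 : ∀ z, D.lv z = D.lv v → f' z ≠ none → D.rd f' z ≤ D.rd f' v → f z = f' z) :
    D.Drop f v ↔ D.Drop f' v :=
  ⟨Drop_mono hv h1 h2, Drop_mono hv.symm (fun z hz => (h1 z hz).symm)
    fun z a b c => (h3 z a b c).symm⟩

end col

/-! ## One round -/

section round

variable {j m : ℕ} {C col : V → Option (Fin D.k × ℕ)} {lam : V → Option Bool}
  {ω : V → Fin D.k}

theorem addCol_of {v : V} (h : D.lv v = j) : D.addCol C j col v = col v := by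
  unfold addCol
  rw [if_pos h]

theorem addCol_ne {v : V} (h : D.lv v ≠ j) : D.addCol C j col v = C v := by
  unfold addCol
  rw [if_neg h]

/-- The colouring after the picks. -/
theorem upd_now {y : V} (h : D.Now j col lam y) :
    D.addCol C j (updCol m col lam ω) y = some (ω y, m) := by
  obtain ⟨h1, h2, h3⟩ := h
  rw [addCol_of h1]
  unfold updCol
  rw [if_pos ⟨h2, h3⟩]

theorem upd_not_now {y : V} (h : ¬ D.Now j col lam y) :
    D.addCol C j (updCol m col lam ω) y = D.addCol C j col y := by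
  by_cases h1 : D.lv y = j
  · rw [addCol_of h1, addCol_of h1]
    unfold updCol
    rw [if_neg fun h2 => h ⟨h1, h2.1, h2.2⟩]
  · rw [addCol_ne h1, addCol_ne h1]

theorem now_none {y : V} (h : D.Now j col lam y) : D.addCol C j col y = none := by
  rw [addCol_of h.1]
  exact h.2.1

theorem upd_lt {z : V} (h : D.lv z < j) :
    D.addCol C j (updCol m col lam ω) z = D.addCol C j col z := by
  rw [addCol_ne h.ne, addCol_ne h.ne]

theorem rd_now {y : V} (h : D.Now j col lam y) :
    D.rd (D.addCol C j (updCol m col lam ω)) y = m := rd_some (upd_now h)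

theorem hasCol_now {y : V} (h : D.Now j col lam y) {c : Fin D.k} :
    hasCol (D.addCol C j (updCol m col lam ω)) y c ↔ ω y = c := by
  unfold hasCol
  rw [upd_now h]
  constructor
  · rintro ⟨r, hr⟩
    simp only [Option.some.injEq, Prod.mk.injEq] at hr
    exact hr.1
  · rintro rfl
    exact ⟨m, rfl⟩

theorem hasCol_not_now {y : V} (h : ¬ D.Now j col lam y) {c : Fin D.k} :
    hasCol (D.addCol C j (updCol m col lam ω)) y c ↔ hasCol (D.addCol C j col) y c :=
  hasCol_congr (upd_not_now h) c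

/-- Old vertices of part `j` have an earlier round. -/
theorem rd_lt {y : V} (hlt : ∀ v c r, D.lv v = j → D.addCol C j col v = some (c, r) → r < m)
    (hj : D.lv y = j) (h : D.addCol C j col y ≠ none) : D.rd (D.addCol C j col) y < m := by
  obtain ⟨e, he⟩ := Option.ne_none_iff_exists'.1 h
  obtain ⟨c, r⟩ := e
  rw [rd_some he]
  exact hlt y c r hj he

/-- A vertex of part `j` with round `m` is new. -/
theorem now_of_rd {y : V} (hlt : ∀ v c r, D.lv v = j → D.addCol C j col v = some (c, r) → r < m)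
    (hj : D.lv y = j) (hn : D.addCol C j (updCol m col lam ω) y ≠ none)
    (h : D.rd (D.addCol C j (updCol m col lam ω)) y = m) : D.Now j col lam y := by
  by_contra hc
  rw [upd_not_now hc] at hn
  rw [rd_congr (upd_not_now hc)] at h
  have := rd_lt hlt hj hn
  omega

/-- A coloured vertex of part `j` is new or was coloured before. -/
theorem now_or {y : V} (hn : D.addCol C j (updCol m col lam ω) y ≠ none) :
    D.Now j col lam y ∨ (¬ D.Now j col lam y ∧ D.addCol C j col y ≠ none) := by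
  by_cases h : D.Now j col lam y
  · exact .inl h
  · rw [upd_not_now h] at hn
    exact .inr ⟨h, hn⟩

end round

/-! ## Balls and local families -/

/-- Ball of radius `r`. -/
noncomputable def ball (D : OData V) : ℕ → V → Finset V
  | 0, v => {v}
  | r + 1, v => (ball D r v).biUnion fun u => insert u (D.N u)

theorem self_mem_ball (r : ℕ) (v : V) : v ∈ D.ball r v := by
  induction r with
  | zero => simp [ball]
  | succ r ih =>
    rw [ball, mem_biUnion]
    exact ⟨v, ih, mem_insert_self _ _⟩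

theorem ball_succ_of_mem {r : ℕ} {v u : V} (h : u ∈ D.ball r v) : u ∈ D.ball (r + 1) v := by
  rw [ball, mem_biUnion]
  exact ⟨u, h, mem_insert_self _ _⟩

theorem ball_mono {r r' : ℕ} (h : r ≤ r') (v : V) : D.ball r v ⊆ D.ball r' v := by
  induction h with
  | refl => exact fun _ h => h
  | step _ ih => exact fun u hu => ball_succ_of_mem (ih hu)

/-- A neighbour of a vertex of the ball. -/
theorem ball_step {r : ℕ} {v u z : V} (h : u ∈ D.ball r v) (hz : z ∈ D.N u) :
    z ∈ D.ball (r + 1) v := by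
  rw [ball, mem_biUnion]
  exact ⟨u, h, mem_insert_of_mem hz⟩

theorem mem_ball_one {v z : V} (hz : z ∈ D.N v) : z ∈ D.ball 1 v :=
  ball_step (self_mem_ball 0 v) hz

section ballsec

variable (hD : D.Ok)
include hD

theorem ball_card (r : ℕ) (v : V) : ((D.ball r v).card : ℝ) ≤ D.T ^ (3601 * r) := by
  induction r with
  | zero => simp [ball]
  | succ r ih =>
    have h1 : ((D.ball (r + 1) v).card : ℝ) ≤ ∑ u ∈ D.ball r v, D.T ^ 3601 := by
      rw [ball]
      have h2 : (((D.ball r v).biUnion fun u => insert u (D.N u)).card : ℝ) ≤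
          ∑ u ∈ D.ball r v, ((insert u (D.N u)).card : ℝ) := by
        exact_mod_cast card_biUnion_le
      refine h2.trans (sum_le_sum fun u _ => ?_)
      have h3 : ((insert u (D.N u)).card : ℝ) ≤ (D.N u).card + 1 := by
        exact_mod_cast card_insert_le _ _
      have h4 := Nc hD u
      have h5 : D.T ^ 3600 + 1 ≤ D.T ^ 3601 := by
        rw [pow_succ D.T 3600]
        have := hD.big.pw (Nat.zero_le 3600)
        rw [pow_zero] at this
        nlinarith [Tb hD]
      linarith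
    rw [sum_const, nsmul_eq_mul] at h1
    refine h1.trans ?_
    calc ((D.ball r v).card : ℝ) * D.T ^ 3601 ≤ D.T ^ (3601 * r) * D.T ^ 3601 :=
          mul_le_mul_of_nonneg_right ih (Tp hD _).le
      _ = D.T ^ (3601 * (r + 1)) := by rw [← pow_add]; ring_nf

theorem ball_one_symm {u v : V} (h : u ∈ insert v (D.N v)) : v ∈ insert u (D.N u) := by
  rw [mem_insert] at h ⊢
  rcases h with h | h
  · exact .inl h.symm
  · exact .inr ((N_comm hD).1 h)

/-- The ball, from the other side. -/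
theorem ball_succ' {r : ℕ} {v u z : V} (hz : u ∈ insert v (D.N v)) (h : z ∈ D.ball r u) :
    z ∈ D.ball (r + 1) v := by
  induction r generalizing z with
  | zero =>
    rw [ball, mem_singleton] at h
    subst h
    rw [ball, mem_biUnion]
    exact ⟨v, self_mem_ball 0 v, hz⟩
  | succ r ih =>
    rw [ball, mem_biUnion] at h
    obtain ⟨y, hy, hy'⟩ := h
    rw [ball, mem_biUnion]
    exact ⟨y, ih hy, hy'⟩

theorem ball_symm {r : ℕ} {u v : V} (h : u ∈ D.ball r v) : v ∈ D.ball r u := by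
  induction r generalizing u with
  | zero =>
    rw [ball, mem_singleton] at h ⊢
    exact h.symm
  | succ r ih =>
    rw [ball, mem_biUnion] at h
    obtain ⟨y, hy, hy'⟩ := h
    exact ball_succ' hD (ball_one_symm hD hy') (ih hy)

/-- A local family of events: the event `b` depends on the ball of radius `r` around `root b`, and
at most `T ^ n` events have the same root. -/
theorem locOK_of_root {α : Type*} [Fintype α] {μ : V → α → ℝ} {κ : Type u} [Fintype κ]
    (root : κ → V) (r n e : ℕ)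
    (hn : ∀ v, ((univ.filter fun b => root b = v).card : ℝ) ≤ D.T ^ n) (he : 3601 * r + n ≤ e)
    (E : κ → (V → α) → Prop) (hdep : ∀ b, DependsOn (E b) (D.ball r (root b) : Set V))
    (hp : ∀ b, Pr μ (E b) ≤ Real.exp (-D.T)) : LocOK e D.T μ (fun ω => ∀ b, ¬ E b ω) := by
  refine ⟨κ, inferInstance, E, fun b => D.ball r (root b), hdep, hp, fun b => ?_, fun i => ?_,
    fun ω h => h⟩
  · exact (ball_card hD r (root b)).trans (hD.big.pw (by omega))
  · have h1 : (univ.filter fun b => i ∈ D.ball r (root b)) ⊆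
        (D.ball r i).biUnion fun v => univ.filter fun b => root b = v := by
      intro b hb
      rw [mem_filter] at hb
      rw [mem_biUnion]
      exact ⟨root b, ball_symm hD hb.2, by simp⟩
    have h2 : ((univ.filter fun b => i ∈ D.ball r (root b)).card : ℝ) ≤
        ∑ v ∈ D.ball r i, ((univ.filter fun b => root b = v).card : ℝ) := by
      have h3 := (card_le_card h1).trans card_biUnion_le
      exact_mod_cast h3
    refine h2.trans ((sum_le_sum fun v _ => hn v).trans ?_)
    rw [sum_const, nsmul_eq_mul]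
    calc ((D.ball r i).card : ℝ) * D.T ^ n ≤ D.T ^ (3601 * r) * D.T ^ n :=
          mul_le_mul_of_nonneg_right (ball_card hD r i) (Tp hD _).le
      _ = D.T ^ (3601 * r + n) := (pow_add _ _ _).symm
      _ ≤ D.T ^ e := hD.big.pw he

/-- The index set of one colour for every vertex. -/
theorem card_root_col (v : V) :
    ((univ.filter fun b : V × Fin D.k => b.1 = v).card : ℝ) ≤ D.T ^ 4000 := by
  have h1 : (univ.filter fun b : V × Fin D.k => b.1 = v) =
      (univ : Finset (Fin D.k)).map ⟨fun c => (v, c), fun a b h => by simpa using h⟩ := by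
    ext ⟨a, c⟩
    rw [mem_filter, mem_map]
    constructor
    · rintro ⟨_, h⟩
      exact ⟨c, mem_univ _, Prod.ext h.symm rfl⟩
    · rintro ⟨c', _, h⟩
      exact ⟨mem_univ _, (congrArg Prod.fst h).symm⟩
  rw [h1, card_map, card_univ, Fintype.card_fin]
  exact hD.k_hi

theorem card_root_id (v : V) : ((univ.filter fun b : V => b = v).card : ℝ) ≤ D.T ^ 0 := by
  have h1 : (univ.filter fun b : V => b = v) = {v} := by
    ext b
    simp
  rw [h1, card_singleton, pow_zero, Nat.cast_one]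

end ballsec

end OData

/-- A local goal for `μ` is a local goal for a product law. -/
theorem LocOK.fst {α β : Type*} [Fintype α] [Fintype β] {e : ℕ} {T : ℝ} {μ : V → α → ℝ}
    {ν : V → β → ℝ} (hμ : IsPM μ) (hν : IsPM ν) {G : (V → α) → Prop} (h : LocOK e T μ G) :
    LocOK e T (prodLaw μ ν) (fun ω => G fun y => (ω y).1) := by
  obtain ⟨κ, hκ, E, S, hd, hp, hs, hi, hg⟩ := h
  refine ⟨κ, hκ, fun b ω => E b fun y => (ω y).1, S, ?_, ?_, hs, hi, ?_⟩
  · intro b ω ω' hω
    exact hd b fun i hi => by rw [hω i hi]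
  · intro b
    rw [Pr_prodLaw_fst hμ hν]
    exact hp b
  · intro ω hω
    exact hg _ hω

/-- Weakening of a local goal. -/
theorem LocOK.imp {α : Type*} [Fintype α] {e : ℕ} {T : ℝ} {μ : V → α → ℝ}
    {G G' : (V → α) → Prop} (h : LocOK e T μ G) (hi : ∀ ω, G ω → G' ω) : LocOK e T μ G' := by
  obtain ⟨κ, hκ, E, S, hd, hp, hs, hi', hg⟩ := h
  exact ⟨κ, hκ, E, S, hd, hp, hs, hi', fun ω hω => hi ω (hg ω hω)⟩

end

end Pool.Agent.AcyK
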