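import Pool.Agent.AcyK.DRecol

/-! # Patterns in two-coloured cores (row CYC of MP_af9dfb_K, helper14)

A core is a finite set `C` of vertices in which every vertex has at least two neighbours in `C`
(`D1.exists_core` extracts one from a cycle). The patterns are centred at a prescribed vertex. -/

set_option autoImplicit false
set_option linter.unusedSectionVars false

namespace Pool.Agent.AcyK

open Finset
open scoped Classical

universe u v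

variable {V : Type u} [Fintype V] {γ : Type v}

/-- Two distinct neighbours inside the core. -/
theorem core_two {G : SimpleGraph V} {C : Finset V} (hC : ∀ v ∈ C, 1 < (nb G v ∩ C).card)
    {v : V} (hv : v ∈ C) : ∃ z z', z ∈ C ∧ z' ∈ C ∧ z ≠ z' ∧ G.Adj v z ∧ G.Adj v z' := by
  obtain ⟨z, hz, z', hz', hne⟩ := one_lt_card.mp (hC v hv)
  simp only [mem_inter, mem_nb] at hz hz'
  exact ⟨z, z', hz.2, hz'.2, hne, hz.1, hz'.1⟩

/-- A second neighbour inside the core. -/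
theorem core_other {G : SimpleGraph V} {C : Finset V} (hC : ∀ v ∈ C, 1 < (nb G v ∩ C).card)
    {z : V} (hz : z ∈ C) (v : V) : ∃ u, u ∈ C ∧ u ≠ v ∧ G.Adj z u := by
  obtain ⟨y, y', hy, hy', hne, h, h'⟩ := core_two hC hz
  by_cases hyv : y = v
  · exact ⟨y', hy', fun h'' => hne (hyv.trans h''.symm), h'⟩
  · exact ⟨y, hy, hyv, h⟩

/-- The pattern used when both colours are in one part: the two neighbours `z, z'` of `v` and their
other neighbours `u, u'` (which may coincide). -/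
theorem core_at_two {G : SimpleGraph V} {C : Finset V} {f : V → γ} {a b : γ}
    (hC : ∀ v ∈ C, 1 < (nb G v ∩ C).card)
    (hp : ∀ u ∈ C, ∀ v ∈ C, G.Adj u v → f u ≠ f v) (hab : ∀ v ∈ C, f v = a ∨ f v = b)
    {v : V} (hv : v ∈ C) (hfv : f v = a) :
    ∃ z z' u u', z ∈ C ∧ z' ∈ C ∧ u ∈ C ∧ u' ∈ C ∧ z ≠ z' ∧ u ≠ v ∧ u' ≠ v ∧
      f z = b ∧ f z' = b ∧ f u = a ∧ f u' = a ∧
      G.Adj v z ∧ G.Adj v z' ∧ G.Adj z u ∧ G.Adj z' u' := by
  have hb : ∀ z ∈ C, G.Adj v z → f z = b := fun z hz h =>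
    (hab z hz).resolve_left fun h' => hp v hv z hz h (hfv.trans h'.symm)
  have ha : ∀ z ∈ C, f z = b → ∀ u ∈ C, G.Adj z u → f u = a := fun z hz h u hu h' =>
    (hab u hu).resolve_right fun h'' => hp z hz u hu h' (h.trans h''.symm)
  obtain ⟨z, z', hz, hz', hne, h1, h2⟩ := core_two hC hv
  obtain ⟨u, hu, huv, h3⟩ := core_other hC hz v
  obtain ⟨u', hu', huv', h4⟩ := core_other hC hz' v
  exact ⟨z, z', u, u', hz, hz', hu, hu', hne, huv, huv', hb z hz h1, hb z' hz' h2,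
    ha z hz (hb z hz h1) u hu h3, ha z' hz' (hb z' hz' h2) u' hu' h4, h1, h2, h3, h4⟩

/-- The two patterns centred at `v`: a 4-cycle `v z u z'`, or a path `z'' u z v z' u'` on six
distinct vertices. -/
theorem core_at {G : SimpleGraph V} {C : Finset V} {f : V → γ} {a b : γ}
    (hC : ∀ v ∈ C, 1 < (nb G v ∩ C).card)
    (hp : ∀ u ∈ C, ∀ v ∈ C, G.Adj u v → f u ≠ f v) (hab : ∀ v ∈ C, f v = a ∨ f v = b)
    {v : V} (hv : v ∈ C) (hfv : f v = a) :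
    (∃ z u z', z ∈ C ∧ u ∈ C ∧ z' ∈ C ∧ z ≠ z' ∧ u ≠ v ∧ f z = b ∧ f z' = b ∧ f u = a ∧
      G.Adj v z ∧ G.Adj z u ∧ G.Adj u z' ∧ G.Adj z' v) ∨
    (∃ z'' u z z' u', z'' ∈ C ∧ u ∈ C ∧ z ∈ C ∧ z' ∈ C ∧ u' ∈ C ∧
      z ≠ z' ∧ z ≠ z'' ∧ z' ≠ z'' ∧ u ≠ v ∧ u' ≠ v ∧ u ≠ u' ∧
      f u = a ∧ f u' = a ∧ f z = b ∧ f z' = b ∧ f z'' = b ∧
      G.Adj u z'' ∧ G.Adj z u ∧ G.Adj v z ∧ G.Adj v z' ∧ G.Adj z' u') := by
  obtain ⟨z, z', u, u', hz, hz', hu, hu', hne, huv, huv', fz, fz', fu, fu', h1, h2, h3, h4⟩ :=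
    core_at_two hC hp hab hv hfv
  by_cases huu : u = u'
  · subst huu
    exact Or.inl ⟨z, u, z', hz, hu, hz', hne, huv, fz, fz', fu, h1, h3, h4.symm, h2.symm⟩
  obtain ⟨z'', hz'', hzz, h5⟩ := core_other hC hu z
  have fz'' : f z'' = b :=
    (hab z'' hz'').resolve_left fun h => hp u hu z'' hz'' h5 (fu.trans h.symm)
  by_cases hzz' : z'' = z'
  · subst hzz'
    exact Or.inl ⟨z, u, z'', hz, hu, hz', hne, huv, fz, fz', fu, h1, h3, h5, h2.symm⟩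
  exact Or.inr ⟨z'', u, z, z', u', hz'', hu, hz, hz', hu', hne, Ne.symm hzz, Ne.symm hzz', huv,
    huv', huu, fu, fu', fz, fz', fz'', h5, h3, h1, h2, h4⟩

/-- Form of the skeleton: patterns in a two-coloured cycle. -/
theorem core_patterns (G : SimpleGraph V) (S : Set V) (f : V → γ) (a b : γ)
    (hp : ∀ u ∈ S, ∀ v ∈ S, G.Adj u v → f u ≠ f v) (hab : ∀ v ∈ S, f v = a ∨ f v = b)
    (hn : ¬ (G.induce S).IsAcyclic) :
    (∃ x z x' z', x ∈ S ∧ z ∈ S ∧ x' ∈ S ∧ z' ∈ S ∧ x ≠ x' ∧ z ≠ z' ∧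
      f x = a ∧ f x' = a ∧ f z = b ∧ f z' = b ∧
      G.Adj x z ∧ G.Adj z x' ∧ G.Adj x' z' ∧ G.Adj z' x) ∨
    (∃ z'' u z x z' u', z'' ∈ S ∧ u ∈ S ∧ z ∈ S ∧ x ∈ S ∧ z' ∈ S ∧ u' ∈ S ∧
      z ≠ z' ∧ z ≠ z'' ∧ z' ≠ z'' ∧ x ≠ u ∧ x ≠ u' ∧ u ≠ u' ∧
      f x = a ∧ f u = a ∧ f u' = a ∧ f z = b ∧ f z' = b ∧ f z'' = b ∧
      G.Adj z'' u ∧ G.Adj u z ∧ G.Adj z x ∧ G.Adj x z' ∧ G.Adj z' u') := by
  obtain ⟨C, ⟨v0, hv0⟩, hCS, hC⟩ := D1.exists_core G S hn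
  have hp' : ∀ u ∈ C, ∀ v ∈ C, G.Adj u v → f u ≠ f v :=
    fun u hu v hv => hp u (hCS u hu) v (hCS v hv)
  have hab' : ∀ v ∈ C, f v = a ∨ f v = b := fun v hv => hab v (hCS v hv)
  obtain ⟨v, hv, hfv⟩ : ∃ v ∈ C, f v = a := by
    rcases hab' v0 hv0 with h | h
    · exact ⟨v0, hv0, h⟩
    · obtain ⟨z, hz, -, hz'⟩ := core_other hC hv0 v0
      exact ⟨z, hz, (hab' z hz).resolve_right fun h' => hp' v0 hv0 z hz hz' (h.trans h'.symm)⟩
  rcases core_at hC hp' hab' hv hfv with ⟨z, u, z', hz, hu, hz', h1, h2, h3, h4, h5, h6, h7, h8, h9⟩ |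
    ⟨z'', u, z, z', u', hz'', hu, hz, hz', hu', h1, h2, h3, h4, h5, h6, h7, h8, h9, h10, h11, h12,
      h13, h14, h15, h16⟩
  · exact Or.inl ⟨v, z, u, z', hCS v hv, hCS z hz, hCS u hu, hCS z' hz', Ne.symm h2, h1, hfv, h5,
      h3, h4, h6, h7, h8, h9⟩
  · exact Or.inr ⟨z'', u, z, v, z', u', hCS _ hz'', hCS u hu, hCS z hz, hCS v hv, hCS _ hz',
      hCS _ hu', h1, h2, h3, Ne.symm h4, Ne.symm h5, h6, hfv, h7, h8, h9, h10, h11, h12.symm,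
      h13.symm, h14.symm, h15, h16⟩

end Pool.Agent.AcyK
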