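import Mathlib

/-! # Graph notation of the end game (project MP_af9dfb_K) -/

set_option autoImplicit false
set_option linter.unusedSectionVars false

namespace Pool.Agent.AcyK

open Finset
open scoped Classical

universe u

/-- Acyclic colouring of a simple graph: proper, and two colour classes induce a forest. -/
def IsAcyclicColouring {V α : Type*} (G : SimpleGraph V) (f : V → α) : Prop :=
  (∀ u v, G.Adj u v → f u ≠ f v) ∧ ∀ a b : α, (G.induce {v | f v = a ∨ f v = b}).IsAcyclic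

section

variable {V : Type u} [Fintype V]

/-- Neighbourhood. -/
noncomputable def nb (G : SimpleGraph V) (v : V) : Finset V := univ.filter fun z => G.Adj v z

/-- Common neighbourhood. -/
noncomputable def cn (G : SimpleGraph V) (u v : V) : Finset V :=
  univ.filter fun z => G.Adj u z ∧ G.Adj v z

@[simp] theorem mem_nb (G : SimpleGraph V) (v z : V) : z ∈ nb G v ↔ G.Adj v z := by
  simp [nb]

@[simp] theorem mem_cn (G : SimpleGraph V) (u v z : V) : z ∈ cn G u v ↔ G.Adj u z ∧ G.Adj v z := by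
  simp [cn]

theorem cn_symm (G : SimpleGraph V) (u v : V) : cn G u v = cn G v u := by
  ext z
  simp only [mem_cn]
  tauto

/-- Hypotheses of the recolouring lemma: `D` is the set of dropped vertices, `f` the colouring
outside `D`, `n` the number of new colours. -/
structure RecolOk {γ : Type*} (G : SimpleGraph V) (D : Finset V) (f : V → γ) (n : ℕ)
    (dD a c3 c4 c5 : ℝ) : Prop where
  proper : ∀ u v, u ∉ D → v ∉ D → G.Adj u v → f u ≠ f v
  acyc : ∀ α β : γ, (G.induce {v | v ∉ D ∧ (f v = α ∨ f v = β)}).IsAcyclic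
  a_pos : 0 < a
  deg : ∀ v, ((nb G v ∩ D).card : ℝ) ≤ dD
  mono : ∀ y ∈ D, (((D.filter fun y' => y' ≠ y ∧ ∃ z z', z ∉ D ∧ z' ∉ D ∧ z ≠ z' ∧
    z ∈ cn G y y' ∧ z' ∈ cn G y y' ∧ f z = f z').card : ℕ) : ℝ) ≤ c3
  pairs : ∀ y ∈ D, ((univ.filter fun w : V × V => w.1 ∉ D ∧ w.2 ∉ D ∧ w.1 ≠ w.2 ∧
    w.1 ∈ nb G y ∧ w.2 ∈ nb G y ∧ f w.1 = f w.2).card : ℝ) ≤ c4
  paths : ∀ y ∈ D, ∑ w : V × V, (if w.1 ∉ D ∧ w.2 ∉ D ∧ w.1 ≠ w.2 ∧ w.1 ∈ nb G y ∧
    f w.1 = f w.2 then ((cn G w.1 w.2 ∩ D).card : ℝ) else 0) ≤ c5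
  n_pos : 0 < n
  num : 2 * (dD + c3 + dD ^ 2 / a) + (4 * a * dD ^ 2 + c4 * dD ^ 2 + 2 * c5 * dD) / (n / 2) +
    5 * dD ^ 4 / (n / 2) ^ 2 ≤ n / 2

end

end Pool.Agent.AcyK
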