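import Pool.Agent.AcyK.DRosen
import Pool.Agent.AcyK.GraphDefs

/-! # Recolouring of a sparse set of vertices (module D1 of MP_af9dfb_K, helper44) -/

set_option autoImplicit false
set_option linter.unusedSectionVars false

namespace Pool.Agent.AcyK.D1

open Finset
open scoped Classical

universe u v

section

variable {V : Type u} [Fintype V] [DecidableEq V] {α : Type v}

/-- `f` is an acyclic colouring of the subgraph induced by `A`: proper, and no two-coloured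
subgraph of minimum degree at least two. -/
def AcycOn (N : V → Finset V) (A : Finset V) (f : V → α) : Prop :=
  (∀ u ∈ A, ∀ v ∈ A, v ∈ N u → f u ≠ f v) ∧
  ∀ C ⊆ A, C.Nonempty → (∀ v ∈ C, 1 < (N v ∩ C).card) → ¬ ∃ a b, ∀ v ∈ C, f v = a ∨ f v = b

/-- Number of elements with a property. -/
noncomputable def num {β : Type*} [Fintype β] (P : β → Prop) : ℝ := ((univ.filter P).card : ℝ)

/-- Counting by fibres. -/
theorem card_le_fib {β γ : Type*} [DecidableEq γ] (S : Finset β) (g : β → γ) (t : Finset γ) {a b : ℝ}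
    (hb0 : 0 ≤ b) (hg : ∀ x ∈ S, g x ∈ t) (ht : (t.card : ℝ) ≤ a)
    (hb : ∀ y ∈ t, ((S.filter fun x => g x = y).card : ℝ) ≤ b) : (S.card : ℝ) ≤ a * b := by
  rw [card_eq_sum_card_fiberwise (f := g) (t := t) (fun x hx => hg x hx)]
  push_cast
  calc ∑ y ∈ t, ((S.filter fun x => g x = y).card : ℝ) ≤ ∑ _y ∈ t, b := sum_le_sum hb
    _ = t.card * b := by rw [sum_const, nsmul_eq_mul]
    _ ≤ a * b := mul_le_mul_of_nonneg_right ht hb0

/-- Counting along four successive choices. -/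
theorem card_chain4 {β : Type*} (S : Finset β) (g₁ g₂ g₃ g₄ : β → V) (F₁ : Finset V)
    (F₂ : V → Finset V) (F₃ F₄ : V → V → V → Finset V) {m : ℝ}
    (h1 : ∀ x ∈ S, g₁ x ∈ F₁) (h2 : ∀ x ∈ S, g₂ x ∈ F₂ (g₁ x))
    (h3 : ∀ x ∈ S, g₃ x ∈ F₃ (g₁ x) (g₂ x) (g₂ x))
    (h4 : ∀ x ∈ S, g₄ x ∈ F₄ (g₁ x) (g₂ x) (g₃ x))
    (c1 : (F₁.card : ℝ) ≤ m) (c2 : ∀ a, ((F₂ a).card : ℝ) ≤ m)
    (c3 : ∀ a b c, ((F₃ a b c).card : ℝ) ≤ m) (c4 : ∀ a b c, ((F₄ a b c).card : ℝ) ≤ m)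
    (hinj : ∀ x ∈ S, ∀ y ∈ S, g₁ x = g₁ y → g₂ x = g₂ y → g₃ x = g₃ y → g₄ x = g₄ y → x = y) :
    (S.card : ℝ) ≤ m ^ 4 := by
  have hm : 0 ≤ m := (Nat.cast_nonneg _).trans c1
  have e : m ^ 4 = m * (m * (m * (m * 1))) := by ring
  rw [e]
  refine card_le_fib S g₁ F₁ (by positivity) h1 c1 fun y₁ _ => ?_
  refine card_le_fib _ g₂ (F₂ y₁) (by positivity) ?_ (c2 y₁) fun y₂ _ => ?_
  · intro x hx
    have hx' := mem_filter.mp hx
    rw [← hx'.2]
    exact h2 x hx'.1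
  refine card_le_fib _ g₃ (F₃ y₁ y₂ y₂) (by positivity) ?_ (c3 _ _ _) fun y₃ _ => ?_
  · intro x hx
    have hx' := mem_filter.mp hx
    have hx'' := mem_filter.mp hx'.1
    rw [← hx'.2, ← hx''.2]
    exact h3 x hx''.1
  refine card_le_fib _ g₄ (F₄ y₁ y₂ y₃) (by positivity) ?_ (c4 _ _ _) fun y₄ _ => ?_
  · intro x hx
    have hx' := mem_filter.mp hx
    have hx'' := mem_filter.mp hx'.1
    have hx3 := mem_filter.mp hx''.1
    rw [← hx'.2, ← hx''.2, ← hx3.2]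
    exact h4 x hx3.1
  · have : (((((S.filter fun x => g₁ x = y₁).filter fun x => g₂ x = y₂).filter
        fun x => g₃ x = y₃).filter fun x => g₄ x = y₄).card) ≤ 1 := by
      refine card_le_one.mpr fun x hx y hy => ?_
      simp only [mem_filter] at hx hy
      exact hinj x hx.1.1.1.1 y hy.1.1.1.1 (hx.1.1.1.2.trans hy.1.1.1.2.symm)
        (hx.1.1.2.trans hy.1.1.2.symm) (hx.1.2.trans hy.1.2.symm) (hx.2.trans hy.2.symm)
    exact_mod_cast this

variable (N : V → Finset V) (D : Finset V) (sp : V → V → Prop) (f : V → α)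

/-- Pairs that must get different colours. -/
def P1 (p : V × V) : Prop := p.1 ∈ D ∧ p.2 ∈ D ∧ p.1 ≠ p.2 ∧ sp p.1 p.2

/-- 4-cycles in `D`. -/
def P2 (p : V × V × V × V) : Prop :=
  (p.1 ∈ D ∧ p.2.1 ∈ D ∧ p.2.2.1 ∈ D ∧ p.2.2.2 ∈ D) ∧
  (p.1 ≠ p.2.1 ∧ p.1 ≠ p.2.2.1 ∧ p.1 ≠ p.2.2.2 ∧ p.2.1 ≠ p.2.2.1 ∧ p.2.1 ≠ p.2.2.2 ∧
    p.2.2.1 ≠ p.2.2.2) ∧
  (p.2.1 ∈ N p.1 ∧ p.2.2.1 ∈ N p.2.1 ∧ p.2.2.2 ∈ N p.2.2.1 ∧ p.1 ∈ N p.2.2.2) ∧
  (¬ sp p.1 p.2.2.1 ∧ ¬ sp p.2.1 p.2.2.2)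

/-- Paths on five vertices in `D`. -/
def P3 (p : V × V × V × V × V) : Prop :=
  (p.1 ∈ D ∧ p.2.1 ∈ D ∧ p.2.2.1 ∈ D ∧ p.2.2.2.1 ∈ D ∧ p.2.2.2.2 ∈ D) ∧
  (p.1 ≠ p.2.1 ∧ p.1 ≠ p.2.2.1 ∧ p.1 ≠ p.2.2.2.1 ∧ p.1 ≠ p.2.2.2.2 ∧
    p.2.1 ≠ p.2.2.1 ∧ p.2.1 ≠ p.2.2.2.1 ∧ p.2.1 ≠ p.2.2.2.2 ∧
    p.2.2.1 ≠ p.2.2.2.1 ∧ p.2.2.1 ≠ p.2.2.2.2 ∧ p.2.2.2.1 ≠ p.2.2.2.2) ∧
  (p.2.1 ∈ N p.1 ∧ p.2.2.1 ∈ N p.2.1 ∧ p.2.2.2.1 ∈ N p.2.2.1 ∧ p.2.2.2.2 ∈ N p.2.2.2.1)

/-- Triples in `D` joined by monochromatic vertices outside `D`. -/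
def P4 (p : V × V × V) : Prop :=
  (p.1 ∈ D ∧ p.2.1 ∈ D ∧ p.2.2 ∈ D) ∧ (p.1 ≠ p.2.1 ∧ p.1 ≠ p.2.2 ∧ p.2.1 ≠ p.2.2) ∧
  ∃ z z', z ∉ D ∧ z' ∉ D ∧ z ≠ z' ∧ f z = f z' ∧ z ∈ N p.1 ∧ z ∈ N p.2.1 ∧ z' ∈ N p.2.1 ∧
    z' ∈ N p.2.2

/-- All structures. -/
abbrev KK : Type u :=
  {p : V × V // P1 D sp p} ⊕ {p : V × V × V × V // P2 N D sp p} ⊕
    {p : V × V × V × V × V // P3 N D p} ⊕ {p : V × V × V // P4 N D f p}

/-- Vertex sets of the structures. -/
noncomputable def XX : KK N D sp f → Finset V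
  | .inl p => {p.1.1, p.1.2}
  | .inr (.inl p) => {p.1.1, p.1.2.1, p.1.2.2.1, p.1.2.2.2}
  | .inr (.inr (.inl p)) => {p.1.1, p.1.2.1, p.1.2.2.1, p.1.2.2.2.1, p.1.2.2.2.2}
  | .inr (.inr (.inr p)) => {p.1.1, p.1.2.1, p.1.2.2}

/-- Classes of the structures. -/
noncomputable def CL : KK N D sp f → V → Bool
  | .inl _, _ => true
  | .inr (.inl p), x => decide (x = p.1.1 ∨ x = p.1.2.2.1)
  | .inr (.inr (.inl p)), x => decide (x = p.1.2.1 ∨ x = p.1.2.2.2.1)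
  | .inr (.inr (.inr _)), _ => true

/-- Kept vertices. -/
noncomputable def KE : KK N D sp f → V → Finset V
  | .inl p, v => {if v = p.1.1 then p.1.2 else p.1.1}
  | .inr (.inl p), v => {if v = p.1.1 then p.1.2.2.1 else p.1.1,
      if v = p.1.2.1 then p.1.2.2.2 else p.1.2.1}
  | .inr (.inr (.inl p)), v => {if v = p.1.1 then p.1.2.2.1 else p.1.1,
      if v = p.1.2.1 then p.1.2.2.2.1 else p.1.2.1}
  | .inr (.inr (.inr p)), v => {if v = p.1.1 then p.1.2.1 else p.1.1}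

/-- Number of equalities minus one. -/
def EE : KK N D sp f → ℕ
  | .inl _ => 0
  | .inr (.inl _) => 1
  | .inr (.inr (.inl _)) => 2
  | .inr (.inr (.inr _)) => 1

theorem KE_sub (s : KK N D sp f) (v : V) (hv : v ∈ XX N D sp f s) :
    KE N D sp f s v ⊆ (XX N D sp f s).erase v := by
  rcases s with ⟨⟨a, b⟩, hp⟩ | ⟨⟨a, b, c, d⟩, hp⟩ | ⟨⟨a, b, c, d, e⟩, hp⟩ | ⟨⟨a, b, c⟩, hp⟩
  · simp only [P1] at hp
    simp only [XX, KE, mem_insert, mem_singleton] at hv ⊢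
    intro x hx
    simp only [mem_singleton] at hx
    simp only [mem_erase, mem_insert, mem_singleton]
    rcases hv with rfl | rfl <;> grind
  · simp only [P2] at hp
    simp only [XX, KE, mem_insert, mem_singleton] at hv ⊢
    intro x hx
    simp only [mem_insert, mem_singleton] at hx
    simp only [mem_erase, mem_insert, mem_singleton]
    obtain ⟨-, ⟨h1, h2, h3, h4, h5, h6⟩, -, -⟩ := hp
    rcases hv with rfl | rfl | rfl | rfl <;> grind
  · simp only [P3] at hp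
    simp only [XX, KE, mem_insert, mem_singleton] at hv ⊢
    intro x hx
    simp only [mem_insert, mem_singleton] at hx
    simp only [mem_erase, mem_insert, mem_singleton]
    obtain ⟨-, ⟨h1, h2, h3, h4, h5, h6, h7, h8, h9, h10⟩, -⟩ := hp
    rcases hv with rfl | rfl | rfl | rfl | rfl <;> grind
  · simp only [P4] at hp
    simp only [XX, KE, mem_insert, mem_singleton] at hv ⊢
    intro x hx
    simp only [mem_singleton] at hx
    simp only [mem_erase, mem_insert, mem_singleton]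
    obtain ⟨-, ⟨h1, h2, h3⟩, -⟩ := hp
    rcases hv with rfl | rfl | rfl <;> grind

theorem KE_cl (s : KK N D sp f) (v : V) (hv : v ∈ XX N D sp f s) (x : V)
    (hx : x ∈ XX N D sp f s) : ∃ y ∈ KE N D sp f s v, CL N D sp f s y = CL N D sp f s x := by
  rcases s with ⟨⟨a, b⟩, hp⟩ | ⟨⟨a, b, c, d⟩, hp⟩ | ⟨⟨a, b, c, d, e⟩, hp⟩ | ⟨⟨a, b, c⟩, hp⟩
  · simp [KE, CL]
  · simp only [P2] at hp
    simp only [XX, KE, CL, mem_insert, mem_singleton] at hv hx ⊢
    obtain ⟨-, ⟨h1, h2, h3, h4, h5, h6⟩, -, -⟩ := hp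
    by_cases hx' : x = a ∨ x = c
    · refine ⟨if v = a then c else a, Or.inl rfl, ?_⟩
      rw [decide_eq_decide]
      split_ifs <;> grind
    · refine ⟨if v = b then d else b, Or.inr rfl, ?_⟩
      rw [decide_eq_decide]
      split_ifs <;> grind
  · simp only [P3] at hp
    simp only [XX, KE, CL, mem_insert, mem_singleton] at hv hx ⊢
    obtain ⟨-, ⟨h1, h2, h3, h4, h5, h6, h7, h8, h9, h10⟩, -⟩ := hp
    by_cases hx' : x = b ∨ x = d
    · refine ⟨if v = b then d else b, Or.inr rfl, ?_⟩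
      rw [decide_eq_decide]
      split_ifs <;> grind
    · refine ⟨if v = a then c else a, Or.inl rfl, ?_⟩
      rw [decide_eq_decide]
      split_ifs <;> grind
  · simp [KE, CL]

theorem card_XX (s : KK N D sp f) (v : V) (hv : v ∈ XX N D sp f s) :
    (XX N D sp f s).card = (KE N D sp f s v).card + (EE N D sp f s + 1) := by
  rcases s with ⟨⟨a, b⟩, hp⟩ | ⟨⟨a, b, c, d⟩, hp⟩ | ⟨⟨a, b, c, d, e⟩, hp⟩ | ⟨⟨a, b, c⟩, hp⟩
  · simp only [P1] at hp
    simp only [XX, KE, EE, card_singleton]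
    rw [card_pair hp.2.2.1]
  · simp only [P2] at hp
    simp only [XX, KE, EE, mem_insert, mem_singleton] at hv ⊢
    obtain ⟨-, ⟨h1, h2, h3, h4, h5, h6⟩, -, -⟩ := hp
    have e1 : ({a, b, c, d} : Finset V).card = 4 := by
      rw [card_insert_of_notMem, card_insert_of_notMem, card_insert_of_notMem, card_singleton]
      all_goals simp; try tauto
    have e2 : ({if v = a then c else a, if v = b then d else b} : Finset V).card = 2 := by
      apply card_pair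
      split_ifs <;> grind
    rw [e1, e2]
  · simp only [P3] at hp
    simp only [XX, KE, EE, mem_insert, mem_singleton] at hv ⊢
    obtain ⟨-, ⟨h1, h2, h3, h4, h5, h6, h7, h8, h9, h10⟩, -⟩ := hp
    have e1 : ({a, b, c, d, e} : Finset V).card = 5 := by
      rw [card_insert_of_notMem, card_insert_of_notMem, card_insert_of_notMem,
        card_insert_of_notMem, card_singleton]
      all_goals simp; try tauto
    have e2 : ({if v = a then c else a, if v = b then d else b} : Finset V).card = 2 := by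
      apply card_pair
      split_ifs <;> grind
    rw [e1, e2]
  · simp only [P4] at hp
    simp only [XX, KE, EE, card_singleton]
    obtain ⟨-, ⟨h1, h2, h3⟩, -⟩ := hp
    rw [card_insert_of_notMem, card_pair h3]
    simp only [mem_insert, mem_singleton, not_or]
    exact ⟨h1, h2⟩

theorem XX_nonempty (s : KK N D sp f) : (XX N D sp f s).Nonempty := by
  rcases s with p | p | p | p <;> exact ⟨_, mem_insert_self _ _⟩

theorem num_nonneg {β : Type*} [Fintype β] (P : β → Prop) : 0 ≤ num P := Nat.cast_nonneg _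

theorem num_eq {β : Type*} [Fintype β] (P : β → Prop) [DecidablePred P] :
    num P = ((univ.filter P).card : ℝ) := by
  unfold num
  congr

theorem num_mono {β : Type*} [Fintype β] {P Q : β → Prop} (h : ∀ p, P p → Q p) :
    num P ≤ num Q := by
  unfold num
  have : (univ.filter P).card ≤ (univ.filter Q).card :=
    card_le_card fun p hp => mem_filter.mpr ⟨mem_univ _, h p (mem_filter.mp hp).2⟩
  exact_mod_cast this

/-- Transport of a count along an injection. -/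
theorem num_map {β γ : Type*} [Fintype β] [Fintype γ] (P : β → Prop) (Q : γ → Prop)
    (e : β → γ) (he : ∀ p q, P p → P q → e p = e q → p = q) (h : ∀ p, P p → Q (e p)) :
    num P ≤ num Q := by
  unfold num
  have : (univ.filter P).card ≤ (univ.filter Q).card := by
    refine card_le_card_of_injOn e ?_ ?_
    · intro p hp
      have := (mem_filter.mp (mem_coe.mp hp)).2
      exact mem_coe.mpr (mem_filter.mpr ⟨mem_univ _, h p this⟩)
    · intro p hp q hq hpq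
      exact he p q (mem_filter.mp (mem_coe.mp hp)).2 (mem_filter.mp (mem_coe.mp hq)).2 hpq
  exact_mod_cast this

/-- A count bounded by the cardinality of a finset. -/
theorem num_le_card {β γ : Type*} [Fintype β] (P : β → Prop) (A : Finset γ)
    (e : β → γ) (he : ∀ p q, P p → P q → e p = e q → p = q) (h : ∀ p, P p → e p ∈ A) :
    num P ≤ A.card := by
  unfold num
  have : (univ.filter P).card ≤ A.card := by
    refine card_le_card_of_injOn e ?_ ?_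
    · intro p hp
      exact mem_coe.mpr (h p (mem_filter.mp (mem_coe.mp hp)).2)
    · intro p hp q hq hpq
      exact he p q (mem_filter.mp (mem_coe.mp hp)).2 (mem_filter.mp (mem_coe.mp hq)).2 hpq
  exact_mod_cast this

/-- Splitting a count according to the position of a vertex. -/
theorem num_or {β : Type*} [Fintype β] (P Q R : β → Prop) {a b : ℝ}
    (h1 : num (fun p => P p ∧ Q p) ≤ a) (h2 : num (fun p => P p ∧ R p) ≤ b) :
    num (fun p => P p ∧ (Q p ∨ R p)) ≤ a + b := by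
  have h3 : (univ.filter fun p => P p ∧ (Q p ∨ R p)) ⊆
      (univ.filter fun p => P p ∧ Q p) ∪ (univ.filter fun p => P p ∧ R p) := by
    intro p hp
    simp only [mem_union, mem_filter, mem_univ, true_and] at hp ⊢
    rcases hp.2 with h | h
    · exact Or.inl ⟨hp.1, h⟩
    · exact Or.inr ⟨hp.1, h⟩
  have h4 := (card_le_card h3).trans (card_union_le _ _)
  have h5 : ((univ.filter fun p => P p ∧ (Q p ∨ R p)).card : ℝ) ≤
      (univ.filter fun p => P p ∧ Q p).card + (univ.filter fun p => P p ∧ R p).card := by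
    exact_mod_cast h4
  rw [num_eq] at h1 h2 ⊢
  linarith

theorem sum_subtype_le {β : Type*} [Fintype β] (P Q : β → Prop) {c d : ℝ} (hc : 0 ≤ c)
    (hd : num (fun p => P p ∧ Q p) ≤ d) (q : {p // P p} → Prop) [DecidablePred q]
    (hq : ∀ p, q p ↔ Q p.1) : ∑ p : {p // P p}, (if q p then c else 0) ≤ d * c := by
  rw [← sum_filter, sum_const, nsmul_eq_mul]
  refine mul_le_mul_of_nonneg_right (le_trans ?_ hd) hc
  rw [num_eq]
  have : (univ.filter q).card ≤ (univ.filter fun p => P p ∧ Q p).card := by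
    refine card_le_card_of_injOn Subtype.val ?_ (fun _ _ _ _ h => Subtype.ext h)
    intro p hp
    have := (mem_filter.mp (mem_coe.mp hp)).2
    exact mem_coe.mpr (mem_filter.mpr ⟨mem_univ _, p.2, (hq p).mp this⟩)
  exact_mod_cast this

/-- The sum over all structures containing a vertex. -/
theorem sum_KK (v : V) (w : ℕ → ℝ) (hw : ∀ i, 0 ≤ w i) {c1 c2 c3 c4 : ℝ}
    (h1 : num (fun p : V × V => P1 D sp p ∧ (v = p.1 ∨ v = p.2)) ≤ c1)
    (h2 : num (fun p : V × V × V × V => P2 N D sp p ∧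
      (v = p.1 ∨ v = p.2.1 ∨ v = p.2.2.1 ∨ v = p.2.2.2)) ≤ c2)
    (h3 : num (fun p : V × V × V × V × V => P3 N D p ∧
      (v = p.1 ∨ v = p.2.1 ∨ v = p.2.2.1 ∨ v = p.2.2.2.1 ∨ v = p.2.2.2.2)) ≤ c3)
    (h4 : num (fun p : V × V × V => P4 N D f p ∧ (v = p.1 ∨ v = p.2.1 ∨ v = p.2.2)) ≤ c4) :
    ∑ s with v ∈ XX N D sp f s, w (EE N D sp f s) ≤
      c1 * w 0 + (c2 * w 1 + (c3 * w 2 + c4 * w 1)) := by
  rw [sum_filter, Fintype.sum_sum_type, Fintype.sum_sum_type, Fintype.sum_sum_type]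
  refine add_le_add ?_ (add_le_add ?_ (add_le_add ?_ ?_))
  · exact sum_subtype_le _ _ (hw 0) h1 (fun p => v ∈ XX N D sp f (.inl p)) fun p => by
      simp only [XX, mem_insert, mem_singleton]
  · exact sum_subtype_le _ _ (hw 1) h2 (fun p => v ∈ XX N D sp f (.inr (.inl p))) fun p => by
      simp only [XX, mem_insert, mem_singleton]
  · exact sum_subtype_le _ _ (hw 2) h3 (fun p => v ∈ XX N D sp f (.inr (.inr (.inl p))))
      fun p => by simp only [XX, mem_insert, mem_singleton]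
  · exact sum_subtype_le _ _ (hw 1) h4 (fun p => v ∈ XX N D sp f (.inr (.inr (.inr p))))
      fun p => by simp only [XX, mem_insert, mem_singleton]

theorem count1 (hsp : ∀ u v, sp u v → sp v u) (v : V) {m1 : ℝ}
    (h1 : num (fun x => x ∈ D ∧ x ≠ v ∧ sp v x) ≤ m1) :
    num (fun p : V × V => P1 D sp p ∧ (v = p.1 ∨ v = p.2)) ≤ m1 + m1 := by
  refine num_or _ _ _ ?_ ?_
  · refine le_trans (num_map _ _ (fun p : V × V => p.2) ?_ ?_) h1
    · rintro ⟨a, b⟩ ⟨a', b'⟩ ⟨-, h2⟩ ⟨-, h4⟩ h5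
      simp only at h2 h4 h5
      rw [← h2, ← h4, h5]
    · rintro ⟨a, b⟩ ⟨⟨ha, hb, hab, hs⟩, hv⟩
      simp only at ha hb hab hs hv ⊢
      subst hv
      exact ⟨hb, hab.symm, hs⟩
  · refine le_trans (num_map _ _ (fun p : V × V => p.1) ?_ ?_) h1
    · rintro ⟨a, b⟩ ⟨a', b'⟩ ⟨-, h2⟩ ⟨-, h4⟩ h5
      simp only at h2 h4 h5
      rw [← h2, ← h4, h5]
    · rintro ⟨a, b⟩ ⟨⟨ha, hb, hab, hs⟩, hv⟩
      simp only at ha hb hab hs hv ⊢
      subst hv
      exact ⟨ha, hab, hsp _ _ hs⟩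

theorem P2_rot (hsp : ∀ u v, sp u v → sp v u) {a b c d : V} (h : P2 N D sp (a, b, c, d)) :
    P2 N D sp (b, c, d, a) := by
  obtain ⟨⟨h1, h2, h3, h4⟩, ⟨n1, n2, n3, n4, n5, n6⟩, ⟨e1, e2, e3, e4⟩, s1, s2⟩ := h
  exact ⟨⟨h2, h3, h4, h1⟩, ⟨n4, n5, n1.symm, n6, n2.symm, n3.symm⟩, ⟨e2, e3, e4, e1⟩, s2,
    fun h => s1 (hsp _ _ h)⟩

theorem count2 (hsp : ∀ u v, sp u v → sp v u) (v : V) {m2 : ℝ}
    (h2 : num (fun p : V × V × V × V => P2 N D sp p ∧ v = p.1) ≤ m2) :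
    num (fun p : V × V × V × V => P2 N D sp p ∧
      (v = p.1 ∨ v = p.2.1 ∨ v = p.2.2.1 ∨ v = p.2.2.2)) ≤ m2 + (m2 + (m2 + m2)) := by
  have r4 : num (fun p : V × V × V × V => P2 N D sp p ∧ v = p.2.2.2) ≤ m2 := by
    refine le_trans (num_map _ _
      (fun p : V × V × V × V => (p.2.2.2, p.1, p.2.1, p.2.2.1)) ?_ ?_) h2
    · rintro ⟨a, b, c, d⟩ ⟨a', b', c', d'⟩ - - h
      simp only [Prod.mk.injEq] at h ⊢
      exact ⟨h.2.1, h.2.2.1, h.2.2.2, h.1⟩
    · rintro ⟨a, b, c, d⟩ ⟨hp, hv⟩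
      exact ⟨P2_rot N D sp hsp (P2_rot N D sp hsp (P2_rot N D sp hsp hp)), hv⟩
  have r3 : num (fun p : V × V × V × V => P2 N D sp p ∧ v = p.2.2.1) ≤ m2 := by
    refine le_trans (num_map _ _
      (fun p : V × V × V × V => (p.2.2.1, p.2.2.2, p.1, p.2.1)) ?_ ?_) h2
    · rintro ⟨a, b, c, d⟩ ⟨a', b', c', d'⟩ - - h
      simp only [Prod.mk.injEq] at h ⊢
      exact ⟨h.2.2.1, h.2.2.2, h.1, h.2.1⟩
    · rintro ⟨a, b, c, d⟩ ⟨hp, hv⟩
      exact ⟨P2_rot N D sp hsp (P2_rot N D sp hsp hp), hv⟩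
  have r2 : num (fun p : V × V × V × V => P2 N D sp p ∧ v = p.2.1) ≤ m2 := by
    refine le_trans (num_map _ _
      (fun p : V × V × V × V => (p.2.1, p.2.2.1, p.2.2.2, p.1)) ?_ ?_) h2
    · rintro ⟨a, b, c, d⟩ ⟨a', b', c', d'⟩ - - h
      simp only [Prod.mk.injEq] at h ⊢
      exact ⟨h.2.2.2, h.1, h.2.1, h.2.2.1⟩
    · rintro ⟨a, b, c, d⟩ ⟨hp, hv⟩
      exact ⟨P2_rot N D sp hsp hp, hv⟩
  exact num_or _ _ _ h2 (num_or _ _ _ r2 (num_or _ _ _ r3 r4))

/-- Counting along four successive choices. -/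
theorem num_chain4 {β : Type*} [Fintype β] (P : β → Prop) (g₁ g₂ g₃ g₄ : β → V) (F₁ : Finset V)
    (F₂ : V → Finset V) (F₃ F₄ : V → V → V → Finset V) {m : ℝ}
    (h : ∀ x, P x → g₁ x ∈ F₁ ∧ g₂ x ∈ F₂ (g₁ x) ∧ g₃ x ∈ F₃ (g₁ x) (g₂ x) (g₂ x) ∧
      g₄ x ∈ F₄ (g₁ x) (g₂ x) (g₃ x))
    (c1 : (F₁.card : ℝ) ≤ m) (c2 : ∀ a, ((F₂ a).card : ℝ) ≤ m)
    (c3 : ∀ a b c, ((F₃ a b c).card : ℝ) ≤ m) (c4 : ∀ a b c, ((F₄ a b c).card : ℝ) ≤ m)
    (hinj : ∀ x, P x → ∀ y, P y → g₁ x = g₁ y → g₂ x = g₂ y → g₃ x = g₃ y → g₄ x = g₄ y →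
      x = y) : num P ≤ m ^ 4 := by
  unfold num
  refine card_chain4 _ g₁ g₂ g₃ g₄ F₁ F₂ F₃ F₄ ?_ ?_ ?_ ?_ c1 c2 c3 c4 ?_
  · exact fun x hx => (h x (mem_filter.mp hx).2).1
  · exact fun x hx => (h x (mem_filter.mp hx).2).2.1
  · exact fun x hx => (h x (mem_filter.mp hx).2).2.2.1
  · exact fun x hx => (h x (mem_filter.mp hx).2).2.2.2
  · exact fun x hx y hy => hinj x (mem_filter.mp hx).2 y (mem_filter.mp hy).2

theorem count3 (hsym : ∀ u v, v ∈ N u → u ∈ N v) (v : V) {m3 : ℝ}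
    (h3 : ∀ v, ((N v ∩ D).card : ℝ) ≤ m3) :
    num (fun p : V × V × V × V × V => P3 N D p ∧
      (v = p.1 ∨ v = p.2.1 ∨ v = p.2.2.1 ∨ v = p.2.2.2.1 ∨ v = p.2.2.2.2)) ≤
      m3 ^ 4 + (m3 ^ 4 + (m3 ^ 4 + (m3 ^ 4 + m3 ^ 4))) := by
  have s1 : num (fun p : V × V × V × V × V => P3 N D p ∧ v = p.1) ≤ m3 ^ 4 := by
    refine num_chain4 _ (fun p => p.2.1) (fun p => p.2.2.1) (fun p => p.2.2.2.1)
      (fun p => p.2.2.2.2) (N v ∩ D) (fun a => N a ∩ D) (fun _ b _ => N b ∩ D)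
      (fun _ _ c => N c ∩ D) ?_ (h3 _) (fun _ => h3 _) (fun _ _ _ => h3 _)
      (fun _ _ _ => h3 _) ?_
    · rintro ⟨a, b, c, d, e⟩ ⟨⟨⟨ha, hb, hc, hd, he⟩, -, e1, e2, e3, e4⟩, hv⟩
      simp only at ha hb hc hd he e1 e2 e3 e4 hv ⊢
      subst hv
      exact ⟨mem_inter.mpr ⟨e1, hb⟩, mem_inter.mpr ⟨e2, hc⟩, mem_inter.mpr ⟨e3, hd⟩,
        mem_inter.mpr ⟨e4, he⟩⟩
    · rintro ⟨a, b, c, d, e⟩ ⟨-, h1⟩ ⟨a', b', c', d', e'⟩ ⟨-, h2⟩ h3 h4 h5 h6
      simp only at h1 h2 h3 h4 h5 h6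
      rw [← h1, ← h2, h3, h4, h5, h6]
  have s2 : num (fun p : V × V × V × V × V => P3 N D p ∧ v = p.2.1) ≤ m3 ^ 4 := by
    refine num_chain4 _ (fun p => p.1) (fun p => p.2.2.1) (fun p => p.2.2.2.1)
      (fun p => p.2.2.2.2) (N v ∩ D) (fun _ => N v ∩ D) (fun _ b _ => N b ∩ D)
      (fun _ _ c => N c ∩ D) ?_ (h3 _) (fun _ => h3 _) (fun _ _ _ => h3 _)
      (fun _ _ _ => h3 _) ?_
    · rintro ⟨a, b, c, d, e⟩ ⟨⟨⟨ha, hb, hc, hd, he⟩, -, e1, e2, e3, e4⟩, hv⟩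
      simp only at ha hb hc hd he e1 e2 e3 e4 hv ⊢
      subst hv
      exact ⟨mem_inter.mpr ⟨hsym _ _ e1, ha⟩, mem_inter.mpr ⟨e2, hc⟩, mem_inter.mpr ⟨e3, hd⟩,
        mem_inter.mpr ⟨e4, he⟩⟩
    · rintro ⟨a, b, c, d, e⟩ ⟨-, h1⟩ ⟨a', b', c', d', e'⟩ ⟨-, h2⟩ h3 h4 h5 h6
      simp only at h1 h2 h3 h4 h5 h6
      rw [← h1, ← h2, h3, h4, h5, h6]
  have s3 : num (fun p : V × V × V × V × V => P3 N D p ∧ v = p.2.2.1) ≤ m3 ^ 4 := by
    refine num_chain4 _ (fun p => p.2.1) (fun p => p.1) (fun p => p.2.2.2.1)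
      (fun p => p.2.2.2.2) (N v ∩ D) (fun a => N a ∩ D) (fun _ _ _ => N v ∩ D)
      (fun _ _ c => N c ∩ D) ?_ (h3 _) (fun _ => h3 _) (fun _ _ _ => h3 _)
      (fun _ _ _ => h3 _) ?_
    · rintro ⟨a, b, c, d, e⟩ ⟨⟨⟨ha, hb, hc, hd, he⟩, -, e1, e2, e3, e4⟩, hv⟩
      simp only at ha hb hc hd he e1 e2 e3 e4 hv ⊢
      subst hv
      exact ⟨mem_inter.mpr ⟨hsym _ _ e2, hb⟩, mem_inter.mpr ⟨hsym _ _ e1, ha⟩,
        mem_inter.mpr ⟨e3, hd⟩, mem_inter.mpr ⟨e4, he⟩⟩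
    · rintro ⟨a, b, c, d, e⟩ ⟨-, h1⟩ ⟨a', b', c', d', e'⟩ ⟨-, h2⟩ h3 h4 h5 h6
      simp only at h1 h2 h3 h4 h5 h6
      rw [← h1, ← h2, h3, h4, h5, h6]
  have rev : ∀ a b c d e : V, P3 N D (a, b, c, d, e) → P3 N D (e, d, c, b, a) := by
    rintro a b c d e ⟨⟨ha, hb, hc, hd, he⟩, ⟨n1, n2, n3, n4, n5, n6, n7, n8, n9, n10⟩,
      e1, e2, e3, e4⟩
    exact ⟨⟨he, hd, hc, hb, ha⟩, ⟨n10.symm, n9.symm, n7.symm, n4.symm, n8.symm, n6.symm,
      n3.symm, n5.symm, n2.symm, n1.symm⟩, hsym _ _ e4, hsym _ _ e3, hsym _ _ e2, hsym _ _ e1⟩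
  have s4 : num (fun p : V × V × V × V × V => P3 N D p ∧ v = p.2.2.2.1) ≤ m3 ^ 4 := by
    refine le_trans (num_map _ _ (fun p : V × V × V × V × V =>
      (p.2.2.2.2, p.2.2.2.1, p.2.2.1, p.2.1, p.1)) ?_ ?_) s2
    · rintro ⟨a, b, c, d, e⟩ ⟨a', b', c', d', e'⟩ - - h
      simp only [Prod.mk.injEq] at h ⊢
      exact ⟨h.2.2.2.2, h.2.2.2.1, h.2.2.1, h.2.1, h.1⟩
    · rintro ⟨a, b, c, d, e⟩ ⟨hp, hv⟩
      exact ⟨rev _ _ _ _ _ hp, hv⟩
  have s5 : num (fun p : V × V × V × V × V => P3 N D p ∧ v = p.2.2.2.2) ≤ m3 ^ 4 := by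
    refine le_trans (num_map _ _ (fun p : V × V × V × V × V =>
      (p.2.2.2.2, p.2.2.2.1, p.2.2.1, p.2.1, p.1)) ?_ ?_) s1
    · rintro ⟨a, b, c, d, e⟩ ⟨a', b', c', d', e'⟩ - - h
      simp only [Prod.mk.injEq] at h ⊢
      exact ⟨h.2.2.2.2, h.2.2.2.1, h.2.2.1, h.2.1, h.1⟩
    · rintro ⟨a, b, c, d, e⟩ ⟨hp, hv⟩
      exact ⟨rev _ _ _ _ _ hp, hv⟩
  exact num_or _ _ _ s1 (num_or _ _ _ s2 (num_or _ _ _ s3 (num_or _ _ _ s4 s5)))

theorem XX_sub (s : KK N D sp f) : XX N D sp f s ⊆ D := by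
  intro x hx
  rcases s with ⟨⟨a, b⟩, hp⟩ | ⟨⟨a, b, c, d⟩, hp⟩ | ⟨⟨a, b, c, d, e⟩, hp⟩ | ⟨⟨a, b, c⟩, hp⟩
  · simp only [XX, mem_insert, mem_singleton] at hx
    rcases hx with rfl | rfl
    · exact hp.1
    · exact hp.2.1
  · simp only [XX, mem_insert, mem_singleton] at hx
    obtain ⟨⟨h1, h2, h3, h4⟩, -⟩ := hp
    rcases hx with rfl | rfl | rfl | rfl <;> assumption
  · simp only [XX, mem_insert, mem_singleton] at hx
    obtain ⟨⟨h1, h2, h3, h4, h5⟩, -⟩ := hp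
    rcases hx with rfl | rfl | rfl | rfl | rfl <;> assumption
  · simp only [XX, mem_insert, mem_singleton] at hx
    obtain ⟨⟨h1, h2, h3⟩, -⟩ := hp
    rcases hx with rfl | rfl | rfl <;> assumption

/-- A count is at most the sum of the counts of the fibres over a set of witnesses. -/
theorem num_le_sum {β γ : Type*} [Fintype β] (P : β → Prop) (A : Finset γ) (Q : γ → β → Prop)
    (h : ∀ p, P p → ∃ a ∈ A, Q a p) : num P ≤ ∑ a ∈ A, num (Q a) := by
  have h1 : (univ.filter P) ⊆ A.biUnion fun a => univ.filter (Q a) := by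
    intro p hp
    obtain ⟨a, ha, hq⟩ := h p (mem_filter.mp hp).2
    exact mem_biUnion.mpr ⟨a, ha, mem_filter.mpr ⟨mem_univ _, hq⟩⟩
  have h2 := (card_le_card h1).trans card_biUnion_le
  unfold num
  exact_mod_cast h2

theorem count4 (hsym : ∀ u v, v ∈ N u → u ∈ N v) (v : V) {m3 m4 m5 : ℝ}
    (h3 : ∀ v, ((N v ∩ D).card : ℝ) ≤ m3)
    (h4 : num (fun p : V × V => p.1 ∉ D ∧ p.2 ∉ D ∧ p.1 ≠ p.2 ∧ f p.1 = f p.2 ∧
      p.1 ∈ N v ∧ p.2 ∈ N v) ≤ m4)
    (h5 : num (fun p : V × V × V => p.1 ∉ D ∧ p.2.2 ∉ D ∧ p.1 ≠ p.2.2 ∧ f p.1 = f p.2.2 ∧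
      p.1 ∈ N v ∧ p.2.1 ∈ N p.1 ∩ D ∧ p.2.2 ∈ N p.2.1) ≤ m5) :
    num (fun p : V × V × V => P4 N D f p ∧ (v = p.1 ∨ v = p.2.1 ∨ v = p.2.2)) ≤
      m5 * m3 + (m4 * (m3 * m3) + m5 * m3) := by
  have hm3 : 0 ≤ m3 := (Nat.cast_nonneg _).trans (h3 v)
  have s1 : num (fun p : V × V × V => P4 N D f p ∧ v = p.1) ≤ m5 * m3 := by
    refine le_trans (num_le_sum _ (univ.filter fun p : V × V × V => p.1 ∉ D ∧ p.2.2 ∉ D ∧
      p.1 ≠ p.2.2 ∧ f p.1 = f p.2.2 ∧ p.1 ∈ N v ∧ p.2.1 ∈ N p.1 ∩ D ∧ p.2.2 ∈ N p.2.1)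
      (fun q p => p.1 = v ∧ p.2.1 = q.2.1 ∧ p.2.2 ∈ N q.2.2 ∩ D) ?_) ?_
    · rintro ⟨a, b, c⟩ ⟨⟨⟨ha, hb, hc⟩, -, z, z', hz, hz', hne, hf, e1, e2, e3, e4⟩, hv⟩
      simp only at ha hb hc e1 e2 e3 e4 hv
      subst hv
      refine ⟨(z, b, z'), mem_filter.mpr ⟨mem_univ _, hz, hz', hne, hf, e1,
        mem_inter.mpr ⟨hsym _ _ e2, hb⟩, e3⟩,
        rfl, rfl, mem_inter.mpr ⟨hsym _ _ ?_, hc⟩⟩
      exact hsym _ _ (hsym _ _ e4)
    · calc ∑ q ∈ univ.filter (fun p : V × V × V => p.1 ∉ D ∧ p.2.2 ∉ D ∧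
            p.1 ≠ p.2.2 ∧ f p.1 = f p.2.2 ∧ p.1 ∈ N v ∧ p.2.1 ∈ N p.1 ∩ D ∧ p.2.2 ∈ N p.2.1),
            num (fun p : V × V × V => p.1 = v ∧ p.2.1 = q.2.1 ∧ p.2.2 ∈ N q.2.2 ∩ D)
          ≤ ∑ _q ∈ univ.filter (fun p : V × V × V => p.1 ∉ D ∧ p.2.2 ∉ D ∧
            p.1 ≠ p.2.2 ∧ f p.1 = f p.2.2 ∧ p.1 ∈ N v ∧ p.2.1 ∈ N p.1 ∩ D ∧ p.2.2 ∈ N p.2.1), m3 := by
            refine sum_le_sum fun q _ => le_trans (num_le_card _ (N q.2.2 ∩ D)
              (fun p : V × V × V => p.2.2) ?_ ?_) (h3 _)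
            · rintro ⟨a, b, c⟩ ⟨a', b', c'⟩ ⟨h1, h2, -⟩ ⟨h3, h4, -⟩ h5
              simp only at h1 h2 h3 h4 h5
              rw [h1, h2, h3, h4, h5]
            · rintro ⟨a, b, c⟩ ⟨-, -, h⟩
              exact h
        _ = num (fun p : V × V × V => p.1 ∉ D ∧ p.2.2 ∉ D ∧ p.1 ≠ p.2.2 ∧ f p.1 = f p.2.2 ∧
            p.1 ∈ N v ∧ p.2.1 ∈ N p.1 ∩ D ∧ p.2.2 ∈ N p.2.1) * m3 := by
            rw [sum_const, nsmul_eq_mul, num_eq]
        _ ≤ m5 * m3 := mul_le_mul_of_nonneg_right h5 hm3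
  have s3 : num (fun p : V × V × V => P4 N D f p ∧ v = p.2.2) ≤ m5 * m3 := by
    refine le_trans (num_map _ _ (fun p : V × V × V => (p.2.2, p.2.1, p.1)) ?_ ?_) s1
    · rintro ⟨a, b, c⟩ ⟨a', b', c'⟩ - - h
      simp only [Prod.mk.injEq] at h ⊢
      exact ⟨h.2.2, h.2.1, h.1⟩
    · rintro ⟨a, b, c⟩ ⟨⟨⟨ha, hb, hc⟩, ⟨n1, n2, n3⟩, z, z', hz, hz', hne, hf, e1, e2, e3, e4⟩, hv⟩
      exact ⟨⟨⟨hc, hb, ha⟩, ⟨n3.symm, n2.symm, n1.symm⟩, z', z, hz', hz, hne.symm, hf.symm,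
        e4, e3, e2, e1⟩, hv⟩
  have s2 : num (fun p : V × V × V => P4 N D f p ∧ v = p.2.1) ≤ m4 * (m3 * m3) := by
    refine le_trans (num_le_sum _ (univ.filter fun p : V × V => p.1 ∉ D ∧ p.2 ∉ D ∧
      p.1 ≠ p.2 ∧ f p.1 = f p.2 ∧ p.1 ∈ N v ∧ p.2 ∈ N v)
      (fun q p => p.2.1 = v ∧ p.1 ∈ N q.1 ∩ D ∧ p.2.2 ∈ N q.2 ∩ D) ?_) ?_
    · rintro ⟨a, b, c⟩ ⟨⟨⟨ha, hb, hc⟩, -, z, z', hz, hz', hne, hf, e1, e2, e3, e4⟩, hv⟩
      simp only at ha hb hc e1 e2 e3 e4 hv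
      subst hv
      exact ⟨(z, z'), mem_filter.mpr ⟨mem_univ _, hz, hz', hne, hf, e2, e3⟩, rfl,
        mem_inter.mpr ⟨hsym _ _ e1, ha⟩, mem_inter.mpr ⟨hsym _ _ e4, hc⟩⟩
    · calc ∑ q ∈ univ.filter (fun p : V × V => p.1 ∉ D ∧ p.2 ∉ D ∧
            p.1 ≠ p.2 ∧ f p.1 = f p.2 ∧ p.1 ∈ N v ∧ p.2 ∈ N v),
            num (fun p : V × V × V => p.2.1 = v ∧ p.1 ∈ N q.1 ∩ D ∧ p.2.2 ∈ N q.2 ∩ D)
          ≤ ∑ _q ∈ univ.filter (fun p : V × V => p.1 ∉ D ∧ p.2 ∉ D ∧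
            p.1 ≠ p.2 ∧ f p.1 = f p.2 ∧ p.1 ∈ N v ∧ p.2 ∈ N v), (m3 * m3) := by
            refine sum_le_sum fun q _ => le_trans (num_le_card _ ((N q.1 ∩ D) ×ˢ (N q.2 ∩ D))
              (fun p : V × V × V => (p.1, p.2.2)) ?_ ?_) ?_
            · rintro ⟨a, b, c⟩ ⟨a', b', c'⟩ ⟨h1, -⟩ ⟨h3, -⟩ h5
              simp only [Prod.mk.injEq] at h1 h3 h5 ⊢
              exact ⟨h5.1, h1.trans h3.symm, h5.2⟩
            · rintro ⟨a, b, c⟩ ⟨-, h1, h2⟩
              exact mem_product.mpr ⟨h1, h2⟩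
            · rw [card_product]
              push_cast
              exact mul_le_mul (h3 _) (h3 _) (Nat.cast_nonneg _) hm3
        _ = num (fun p : V × V => p.1 ∉ D ∧ p.2 ∉ D ∧ p.1 ≠ p.2 ∧ f p.1 = f p.2 ∧
            p.1 ∈ N v ∧ p.2 ∈ N v) * (m3 * m3) := by
            rw [sum_const, nsmul_eq_mul, num_eq]
        _ ≤ m4 * (m3 * m3) := mul_le_mul_of_nonneg_right h4 (mul_nonneg hm3 hm3)
  exact num_or _ _ _ s1 (num_or _ _ _ s2 s3)

/-- RECOLOURING (Theorem D): if `f` is an acyclic colouring outside a sparse set `D` and few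
structures are monochromatic, then `D` can be coloured with a new palette. -/
theorem recolour (hsym : ∀ u v, v ∈ N u → u ∈ N v) (hirr : ∀ v, v ∉ N v)
    (hac : AcycOn N (univ \ D) f) (hsp : ∀ u v, sp u v → sp v u)
    (hadj : ∀ u v, v ∈ N u → sp u v)
    (hconf : ∀ u ∈ D, ∀ v ∈ D, u ≠ v → ∀ z z', z ≠ z' → z ∉ D → z' ∉ D → z ∈ N u → z ∈ N v →
      z' ∈ N u → z' ∈ N v → f z = f z' → sp u v)
    {m1 m2 m3 m4 m5 : ℝ}
    (h1 : ∀ v ∈ D, num (fun x => x ∈ D ∧ x ≠ v ∧ sp v x) ≤ m1)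
    (h2 : ∀ v ∈ D, num (fun p : V × V × V × V => P2 N D sp p ∧ v = p.1) ≤ m2)
    (h3 : ∀ v, ((N v ∩ D).card : ℝ) ≤ m3)
    (h4 : ∀ v ∈ D, num (fun p : V × V => p.1 ∉ D ∧ p.2 ∉ D ∧ p.1 ≠ p.2 ∧ f p.1 = f p.2 ∧
      p.1 ∈ N v ∧ p.2 ∈ N v) ≤ m4)
    (h5 : ∀ v ∈ D, num (fun p : V × V × V => p.1 ∉ D ∧ p.2.2 ∉ D ∧ p.1 ≠ p.2.2 ∧
      f p.1 = f p.2.2 ∧ p.1 ∈ N v ∧ p.2.1 ∈ N p.1 ∩ D ∧ p.2.2 ∈ N p.2.1) ≤ m5)
    {n : ℕ} (hn : 0 < n)
    (hsum : 2 * m1 / n + 8 * m2 / (n : ℝ) ^ 2 + 20 * m3 ^ 4 / (n : ℝ) ^ 3 +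
      2 * (m4 * m3 ^ 2 + 2 * m5 * m3) / (n : ℝ) ^ 2 ≤ 1 / 2) :
    ∃ g : V → Fin n, AcycOn N univ
      (fun v => if v ∈ D then (Sum.inr (g v) : α ⊕ Fin n) else Sum.inl (f v)) := by
  obtain ⟨g, hg⟩ := exists_avoid_mono hn (XX N D sp f) (CL N D sp f) (KE N D sp f)
    (EE N D sp f) (XX_nonempty N D sp f) (fun s v hv => KE_sub N D sp f s v hv)
    (fun s v hv x hx => KE_cl N D sp f s v hv x hx) (fun s v hv => card_XX N D sp f s v hv)
    (by
      intro v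
      by_cases hv : v ∈ D
      · refine le_trans (sum_KK N D sp f v (fun i => (2 : ℝ) ^ i / (n : ℝ) ^ (i + 1))
          (fun i => by positivity) (count1 D sp hsp v (h1 v hv)) (count2 N D sp hsp v (h2 v hv))
          (count3 N D hsym v h3) (count4 N D f hsym v h3 (h4 v hv) (h5 v hv)))
          (le_trans (le_of_eq ?_) hsum)
        have hn' : (n : ℝ) ≠ 0 := by exact_mod_cast hn.ne'
        field_simp
        ring
      · rw [filter_false_of_mem, sum_empty]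
        · norm_num
        · intro s _ hs
          refine hv (XX_sub N D sp f s hs))
  refine ⟨g, ?_⟩
  -- consequences
  have g1 : ∀ u ∈ D, ∀ v ∈ D, u ≠ v → sp u v → g u ≠ g v := by
    intro u hu v hv huv hs he
    refine hg (.inl ⟨(u, v), hu, hv, huv, hs⟩) ?_
    intro x hx y hy _
    simp only [XX, mem_insert, mem_singleton] at hx hy
    rcases hx with rfl | rfl <;> rcases hy with rfl | rfl <;> simp [he]
  set F : V → α ⊕ Fin n := fun v => if v ∈ D then (Sum.inr (g v) : α ⊕ Fin n)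
    else Sum.inl (f v) with hF
  have FD : ∀ v ∈ D, F v = Sum.inr (g v) := fun v hv => if_pos hv
  have FN : ∀ v, v ∉ D → F v = Sum.inl (f v) := fun v hv => if_neg hv
  have hmem : ∀ u v, F u = F v → u ∈ D → v ∈ D := by
    intro u v h hu
    by_contra hv
    rw [FD u hu, FN v hv] at h
    exact Sum.inr_ne_inl h
  have hprop : ∀ u v, v ∈ N u → F u ≠ F v := by
    intro u v huv h
    have hne : u ≠ v := fun h => hirr v (h ▸ huv)
    by_cases hu : u ∈ D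
    · have hv := hmem u v h hu
      rw [FD u hu, FD v hv] at h
      exact g1 u hu v hv hne (hadj u v huv) (Sum.inr_injective h)
    · have hv : v ∉ D := fun hv => hu (hmem v u h.symm hv)
      rw [FN u hu, FN v hv] at h
      exact hac.1 u (by simp [hu]) v (by simp [hv]) huv (Sum.inl_injective h)
  refine ⟨fun u _ v _ huv => hprop u v huv, ?_⟩
  rintro C - ⟨v0, hv0⟩ hdeg ⟨a, b, hab⟩
  -- neighbours in C of a vertex of C have the same colour
  have hopp : ∀ x ∈ C, ∀ y ∈ C, ∀ y' ∈ C, y ∈ N x → y' ∈ N x → F y = F y' := by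
    intro x hx y hy y' hy' h1 h2
    have n1 := hprop x y h1
    have n2 := hprop x y' h2
    rcases hab x hx with e | e <;> rcases hab y hy with e1 | e1 <;>
      rcases hab y' hy' with e2 | e2
    · exact e1.trans e2.symm
    · exact absurd (e.trans e1.symm) n1
    · exact absurd (e.trans e2.symm) n2
    · exact e1.trans e2.symm
    · exact e1.trans e2.symm
    · exact absurd (e.trans e2.symm) n2
    · exact absurd (e.trans e1.symm) n1
    · exact e1.trans e2.symm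
  have hother : ∀ x ∈ C, ∀ y ∈ C, y ∈ N x → ∃ w ∈ C, w ∈ N y ∧ w ≠ x ∧ F w = F x := by
    intro x hx y hy hxy
    obtain ⟨w, hw, hwx⟩ := exists_mem_ne (hdeg y hy) x
    have hw' := mem_inter.mp hw
    exact ⟨w, hw'.2, hw'.1, hwx, hopp y hy w hw'.2 x hx hw'.1 (hsym _ _ hxy)⟩
  by_cases hCD : ∃ v ∈ C, v ∈ D
  · obtain ⟨v, hvC, hvD⟩ := hCD
    obtain ⟨z, hz, z', hz', hzz⟩ := one_lt_card.mp (hdeg v hvC)
    obtain ⟨hzN, hzC⟩ := mem_inter.mp hz
    obtain ⟨hzN', hzC'⟩ := mem_inter.mp hz'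
    have hFz : F z = F z' := hopp v hvC z hzC z' hzC' hzN hzN'
    obtain ⟨u, huC, huN, huv, hFu⟩ := hother v hvC z hzC hzN
    obtain ⟨u', huC', huN', huv', hFu'⟩ := hother v hvC z' hzC' hzN'
    have huD : u ∈ D := hmem v u hFu.symm hvD
    have huD' : u' ∈ D := hmem v u' hFu'.symm hvD
    have gu : g u = g v := by
      rw [FD u huD, FD v hvD] at hFu
      exact Sum.inr_injective hFu
    have gu' : g u' = g v := by
      rw [FD u' huD', FD v hvD] at hFu'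
      exact Sum.inr_injective hFu'
    have nvz : v ≠ z := fun h => hirr z (h ▸ hzN)
    have nvz' : v ≠ z' := fun h => hirr z' (h ▸ hzN')
    have nuz : u ≠ z := fun h => hirr u (h.symm ▸ huN)
    have nuz' : u' ≠ z' := fun h => hirr u' (h.symm ▸ huN')
    have nFvz : F v ≠ F z := hprop v z hzN
    have nuz2 : u ≠ z' := by
      rintro rfl
      exact nFvz (hFu.symm.trans hFz.symm)
    have nuz3 : u' ≠ z := by
      rintro rfl
      exact nFvz (hFu'.symm.trans rfl)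
    by_cases hzD : z ∈ D
    · have hzD' : z' ∈ D := hmem z z' hFz hzD
      have gz : g z = g z' := by
        rw [FD z hzD, FD z' hzD'] at hFz
        exact Sum.inr_injective hFz
      by_cases huu : u = u'
      · subst huu
        by_cases s1 : sp v u
        · exact g1 v hvD u huD huv.symm s1 gu.symm
        by_cases s2 : sp z z'
        · exact g1 z hzD z' hzD' hzz s2 gz
        refine hg (.inr (.inl ⟨(v, z, u, z'), ⟨hvD, hzD, huD, hzD'⟩,
          ⟨nvz, huv.symm, nvz', nuz.symm, hzz, nuz2⟩,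
          ⟨hzN, huN, hsym _ _ huN', hsym _ _ hzN'⟩, s1, s2⟩)) ?_
        have key : ∀ x, (x = v ∨ x = z ∨ x = u ∨ x = z') →
            g x = if decide (x = v ∨ x = u) then g v else g z := by
          intro x hx
          by_cases h : x = v ∨ x = u
          · rw [decide_eq_true h, if_pos rfl]
            rcases h with h | h
            · rw [h]
            · rw [h, gu]
          · rw [decide_eq_false h]
            rcases hx with h1 | h1 | h1 | h1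
            · exact absurd (Or.inl h1) h
            · simp [h1]
            · exact absurd (Or.inr h1) h
            · simp [h1, gz]
        intro x hx y hy hxy
        simp only [XX, mem_insert, mem_singleton] at hx hy
        simp only [CL] at hxy
        rw [key x hx, key y hy, hxy]
      · refine hg (.inr (.inr (.inl ⟨(u, z, v, z', u'), ⟨huD, hzD, hvD, hzD', huD'⟩,
          ⟨nuz, huv, nuz2, huu, nvz.symm, hzz, nuz3.symm, nvz', huv'.symm, nuz'.symm⟩,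
          hsym _ _ huN, hsym _ _ hzN, hzN', huN'⟩))) ?_
        have key : ∀ x, (x = u ∨ x = z ∨ x = v ∨ x = z' ∨ x = u') →
            g x = if decide (x = z ∨ x = z') then g z else g v := by
          intro x hx
          by_cases h : x = z ∨ x = z'
          · rw [decide_eq_true h, if_pos rfl]
            rcases h with h | h
            · rw [h]
            · rw [h, gz]
          · rw [decide_eq_false h]
            rcases hx with h1 | h1 | h1 | h1 | h1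
            · simp [h1, gu]
            · exact absurd (Or.inl h1) h
            · simp [h1]
            · exact absurd (Or.inr h1) h
            · simp [h1, gu']
        intro x hx y hy hxy
        simp only [XX, mem_insert, mem_singleton] at hx hy
        simp only [CL] at hxy
        rw [key x hx, key y hy, hxy]
    · have hzD' : z' ∉ D := fun h => hzD (hmem z' z hFz.symm h)
      have fz : f z = f z' := by
        rw [FN z hzD, FN z' hzD'] at hFz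
        exact Sum.inl_injective hFz
      by_cases huu : u = u'
      · subst huu
        exact g1 v hvD u huD huv.symm (hconf v hvD u huD huv.symm z z' hzz hzD hzD' hzN
          (hsym _ _ huN) hzN' (hsym _ _ huN') fz) gu.symm
      · refine hg (.inr (.inr (.inr ⟨(u, v, u'), ⟨huD, hvD, huD'⟩, ⟨huv, huu, huv'.symm⟩,
          z, z', hzD, hzD', hzz, fz, hsym _ _ huN, hzN, hzN', hsym _ _ huN'⟩))) ?_
        intro x hx y hy _
        simp only [XX, mem_insert, mem_singleton] at hx hy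
        rcases hx with rfl | rfl | rfl <;> rcases hy with rfl | rfl | rfl <;>
          simp only [gu, gu']
  · push Not at hCD
    obtain ⟨v1, hv1⟩ := card_pos.mp (lt_trans Nat.zero_lt_one (hdeg v0 hv0))
    obtain ⟨hv1N, hv1C⟩ := mem_inter.mp hv1
    refine hac.2 C (fun x hx => by simp [hCD x hx]) ⟨v0, hv0⟩ hdeg ⟨f v0, f v1, ?_⟩
    intro x hx
    have n1 := hprop v0 v1 hv1N
    have e0 := FN v0 (hCD v0 hv0)
    have e1 := FN v1 (hCD v1 hv1C)
    have e2 := FN x (hCD x hx)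
    have : F x = F v0 ∨ F x = F v1 := by
      rcases hab x hx with h | h <;> rcases hab v0 hv0 with h' | h' <;>
        rcases hab v1 hv1C with h'' | h''
      · exact Or.inl (h.trans h'.symm)
      · exact Or.inl (h.trans h'.symm)
      · exact Or.inr (h.trans h''.symm)
      · exact absurd (h'.trans h''.symm) n1
      · exact absurd (h'.trans h''.symm) n1
      · exact Or.inr (h.trans h''.symm)
      · exact Or.inl (h.trans h'.symm)
      · exact Or.inl (h.trans h'.symm)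
    rcases this with h | h
    · left
      rw [e2, e0] at h
      exact Sum.inl_injective h
    · right
      rw [e2, e1] at h
      exact Sum.inl_injective h

end

/-- Extraction of a core from a graph with a cycle. -/
theorem exists_core {V : Type u} [Fintype V] (G : SimpleGraph V) (S : Set V)
    (hn : ¬ (G.induce S).IsAcyclic) : ∃ C : Finset V, C.Nonempty ∧ (∀ v ∈ C, v ∈ S) ∧
      ∀ v ∈ C, 1 < (nb G v ∩ C).card := by
  unfold SimpleGraph.IsAcyclic at hn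
  push Not at hn
  obtain ⟨x, c, hc⟩ := hn
  refine ⟨univ.filter fun v => ∃ y ∈ c.support, y.1 = v, ⟨x.1, ?_⟩, ?_, ?_⟩
  · exact mem_filter.mpr ⟨mem_univ _, x, c.start_mem_support, rfl⟩
  · intro v hv
    obtain ⟨-, y, -, rfl⟩ := mem_filter.mp hv
    exact y.2
  · intro v hv
    obtain ⟨-, y, hy, rfl⟩ := mem_filter.mp hv
    obtain ⟨y1, y2, h12, heq⟩ := Set.ncard_eq_two.mp (hc.ncard_neighborSet_toSubgraph_eq_two hy)
    have h1 : y1 ∈ c.toSubgraph.neighborSet y := by rw [heq]; simp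
    have h2 : y2 ∈ c.toSubgraph.neighborSet y := by rw [heq]; simp
    have a1 : c.toSubgraph.Adj y y1 := h1
    have a2 : c.toSubgraph.Adj y y2 := h2
    have m1 : y1 ∈ c.support := c.mem_verts_toSubgraph.mp (c.toSubgraph.edge_vert a1.symm)
    have m2 : y2 ∈ c.support := c.mem_verts_toSubgraph.mp (c.toSubgraph.edge_vert a2.symm)
    have b1 : G.Adj y.1 y1.1 := a1.adj_sub
    have b2 : G.Adj y.1 y2.1 := a2.adj_sub
    refine one_lt_card.mpr ⟨y1.1, ?_, y2.1, ?_, fun h => h12 (Subtype.ext h)⟩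
    · exact mem_inter.mpr ⟨(mem_nb G _ _).mpr b1, mem_filter.mpr ⟨mem_univ _, y1, m1, rfl⟩⟩
    · exact mem_inter.mpr ⟨(mem_nb G _ _).mpr b2, mem_filter.mpr ⟨mem_univ _, y2, m2, rfl⟩⟩

/-- A forest has no core. -/
theorem no_core {V : Type u} [Fintype V] (G : SimpleGraph V) (S : Set V)
    (h : (G.induce S).IsAcyclic) (C : Finset V) (hC : C.Nonempty) (hCS : ∀ v ∈ C, v ∈ S)
    (hdeg : ∀ v ∈ C, 1 < (nb G v ∩ C).card) : False := by
  obtain ⟨v0, hv0⟩ := hC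
  set H : SimpleGraph {x // x ∈ C} := G.comap Subtype.val with hH
  have hHa : H.IsAcyclic := by
    refine h.comap (f := ⟨fun x => ⟨x.1, hCS _ x.2⟩, fun {a b} hab => hab⟩) ?_
    intro x y hxy
    exact Subtype.ext (Subtype.mk.inj hxy)
  set c := H.connectedComponentMk ⟨v0, hv0⟩ with hc
  have hT := hHa.isTree_connectedComponent c
  have hnb : ∀ w : c, ∀ y (hy : y ∈ C), G.Adj w.1.1 y → (⟨y, hy⟩ : {x // x ∈ C}) ∈ c.supp := by
    intro w y hy hwy
    have h1 : H.Adj w.1 ⟨y, hy⟩ := hwy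
    have h2 : H.connectedComponentMk w.1 = c := w.2
    have h3 : H.connectedComponentMk (⟨y, hy⟩ : {x // x ∈ C}) = H.connectedComponentMk w.1 :=
      (SimpleGraph.ConnectedComponent.connectedComponentMk_eq_of_adj h1).symm
    exact h3.trans h2
  have key : ∀ w : c, 1 < c.toSimpleGraph.degree w := by
    intro w
    obtain ⟨y1, h1, y2, h2, h12⟩ := one_lt_card.mp (hdeg w.1.1 w.1.2)
    obtain ⟨h1a, h1b⟩ := mem_inter.mp h1
    obtain ⟨h2a, h2b⟩ := mem_inter.mp h2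
    rw [mem_nb] at h1a h2a
    rw [← SimpleGraph.card_neighborFinset_eq_degree]
    refine one_lt_card.mpr ⟨⟨⟨y1, h1b⟩, hnb w y1 h1b h1a⟩, ?_, ⟨⟨y2, h2b⟩, hnb w y2 h2b h2a⟩, ?_, ?_⟩
    · rw [SimpleGraph.mem_neighborFinset]
      exact h1a
    · rw [SimpleGraph.mem_neighborFinset]
      exact h2a
    · intro he
      exact h12 (congrArg (fun z : c => z.1.1) he)
  have : Nontrivial c := by
    have w : c := ⟨⟨v0, hv0⟩, rfl⟩
    have h1 := key w
    rw [← SimpleGraph.card_neighborFinset_eq_degree] at h1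
    obtain ⟨a, -, b, -, hab⟩ := one_lt_card.mp h1
    exact ⟨⟨a, b, hab⟩⟩
  obtain ⟨w, hw⟩ := hT.exists_vert_degree_one_of_nontrivial
  have := key w
  omega

/-- RC2: the recolouring lemma in the form of `RecolOk`. -/
theorem recolour_ok {V : Type u} [Fintype V] {γ : Type v} {G : SimpleGraph V} {D : Finset V}
    {f : V → γ} {n : ℕ} {dD a c3 c4 c5 : ℝ} (h : RecolOk G D f n dD a c3 c4 c5) :
    ∃ g : V → γ ⊕ Fin n, IsAcyclicColouring G g := by
  have ha := h.a_pos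
  have hsym : ∀ u v, v ∈ nb G u → u ∈ nb G v := by
    intro u v huv
    rw [mem_nb] at huv ⊢
    exact huv.symm
  have hac : AcycOn (nb G) (univ \ D) f := by
    refine ⟨fun u hu v hv huv => ?_, ?_⟩
    · exact h.proper u v (mem_sdiff.mp hu).2 (mem_sdiff.mp hv).2 ((mem_nb _ _ _).mp huv)
    · rintro C hC hne hdeg ⟨α, β, hab⟩
      exact no_core G _ (h.acyc α β) C hne
        (fun v hv => ⟨(mem_sdiff.mp (hC hv)).2, hab v hv⟩) hdeg
  set mo : V → V → Prop := fun u v => ∃ z z', z ∉ D ∧ z' ∉ D ∧ z ≠ z' ∧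
    z ∈ cn G u v ∧ z' ∈ cn G u v ∧ f z = f z' with hmo
  set sp : V → V → Prop := fun u v => G.Adj u v ∨ (a ≤ ((cn G u v ∩ D).card : ℝ) ∨ mo u v)
    with hsp
  have hspsymm : ∀ u v, sp u v → sp v u := by
    intro u v huv
    rcases huv with h1 | h1 | ⟨z, z', h1, h2, h3, h4, h5, h6⟩
    · exact Or.inl h1.symm
    · rw [cn_symm] at h1
      exact Or.inr (Or.inl h1)
    · rw [cn_symm] at h4 h5
      exact Or.inr (Or.inr ⟨z, z', h1, h2, h3, h4, h5, h6⟩)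
  have hdD : ∀ v : V, 0 ≤ dD := fun v => (Nat.cast_nonneg _).trans (h.deg v)
  obtain ⟨g, hg⟩ := recolour (nb G) D sp f hsym (fun v => by simp) hac hspsymm
    (fun u v huv => Or.inl ((mem_nb _ _ _).mp huv))
    (by
      intro u _ v _ _ z z' hzz hz hz' h1 h2 h3 h4 hf
      rw [mem_nb] at h1 h2 h3 h4
      exact Or.inr (Or.inr ⟨z, z', hz, hz', hzz, (mem_cn _ _ _ _).mpr ⟨h1, h2⟩,
        (mem_cn _ _ _ _).mpr ⟨h3, h4⟩, hf⟩))
    (m1 := dD + (dD ^ 2 / a + c3)) (m2 := dD * (dD * a)) (m3 := dD) (m4 := c4) (m5 := c5)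
    (by
      intro v hv
      have hd0 := hdD v
      have e : (fun x => x ∈ D ∧ x ≠ v ∧ sp v x) = fun x => (x ∈ D ∧ x ≠ v) ∧
          (G.Adj v x ∨ (a ≤ ((cn G v x ∩ D).card : ℝ) ∨ mo v x)) := by
        funext x
        simp only [hsp, and_assoc]
      rw [e]
      refine num_or _ _ _ ?_ (num_or _ _ _ ?_ ?_)
      · refine le_trans (num_le_card _ (nb G v ∩ D) id (fun _ _ _ _ h => h) ?_) (h.deg v)
        rintro x ⟨⟨hx, -⟩, hvx⟩
        exact mem_inter.mpr ⟨(mem_nb _ _ _).mpr hvx, hx⟩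
      · rw [le_div_iff₀ ha]
        have h1 : num (fun x => (x ∈ D ∧ x ≠ v) ∧ a ≤ ((cn G v x ∩ D).card : ℝ)) * a ≤
            ∑ x ∈ D, ((cn G v x ∩ D).card : ℝ) := by
          rw [num_eq, ← nsmul_eq_mul, ← sum_const]
          refine le_trans (sum_le_sum fun x hx => (mem_filter.mp hx).2.2)
            (sum_le_sum_of_subset_of_nonneg ?_ fun _ _ _ => Nat.cast_nonneg _)
          intro x hx
          exact (mem_filter.mp hx).2.1.1
        refine h1.trans ?_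
        have h2 : ∀ x ∈ D, ((cn G v x ∩ D).card : ℝ) =
            ∑ z ∈ nb G v ∩ D, if x ∈ nb G z then (1 : ℝ) else 0 := by
          intro x _
          rw [sum_boole]
          congr 2
          ext z
          simp only [mem_inter, mem_cn, mem_filter, mem_nb]
          constructor
          · rintro ⟨⟨h1, h2⟩, h3⟩
            exact ⟨⟨h1, h3⟩, h2.symm⟩
          · rintro ⟨⟨h1, h3⟩, h2⟩
            exact ⟨⟨h1, h2.symm⟩, h3⟩
        rw [sum_congr rfl h2, sum_comm]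
        calc ∑ z ∈ nb G v ∩ D, ∑ x ∈ D, (if x ∈ nb G z then (1 : ℝ) else 0)
            ≤ ∑ z ∈ nb G v ∩ D, dD := by
              refine sum_le_sum fun z _ => ?_
              rw [sum_boole]
              refine le_trans (le_of_eq ?_) (h.deg z)
              congr 2
              ext x
              simp only [mem_inter, mem_filter]
              tauto
          _ = ((nb G v ∩ D).card : ℝ) * dD := by rw [sum_const, nsmul_eq_mul]
          _ ≤ dD * dD := mul_le_mul_of_nonneg_right (h.deg v) hd0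
          _ = dD ^ 2 := by ring
      · refine le_trans (num_le_card _ _ id (fun _ _ _ _ h => h) ?_) (h.mono v hv)
        rintro x ⟨⟨hx, hxv⟩, hm⟩
        exact mem_filter.mpr ⟨hx, hxv, hm⟩)
    (by
      intro v _
      have hd0 := hdD v
      rw [num_eq]
      refine card_le_fib _ (fun p : V × V × V × V => p.2.1) (nb G v ∩ D)
        (mul_nonneg hd0 ha.le) ?_ (h.deg v) fun u _ => ?_
      · rintro ⟨x, y, z, w⟩ hp
        obtain ⟨⟨⟨h1, h2, h3, h4⟩, -, ⟨e1, e2, e3, e4⟩, -⟩, hv⟩ := (mem_filter.mp hp).2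
        simp only at h2 e1 hv ⊢
        rw [hv]
        exact mem_inter.mpr ⟨e1, h2⟩
      refine card_le_fib _ (fun p : V × V × V × V => p.2.2.1) (nb G u ∩ D) ha.le ?_
        (h.deg u) fun w _ => ?_
      · rintro ⟨x, y, z, w⟩ hp
        obtain ⟨hp, hu⟩ := mem_filter.mp hp
        obtain ⟨⟨⟨h1, h2, h3, h4⟩, -, ⟨e1, e2, e3, e4⟩, -⟩, hv⟩ := (mem_filter.mp hp).2
        simp only at h3 e2 hu ⊢
        rw [← hu]
        exact mem_inter.mpr ⟨e2, h3⟩
      · by_cases hw : sp v w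
        · rw [card_eq_zero.mpr]
          · simpa using ha.le
          · rw [filter_eq_empty_iff]
            rintro ⟨x, y, z, w'⟩ hp hzw
            obtain ⟨hp, hu⟩ := mem_filter.mp hp
            obtain ⟨⟨-, -, -, s1, -⟩, hv⟩ := (mem_filter.mp hp).2
            simp only at s1 hzw hv
            subst hv
            subst hzw
            exact s1 hw
        · have hlt : ((cn G v w ∩ D).card : ℝ) < a := by
            by_contra hc
            exact hw (Or.inr (Or.inl (not_lt.mp hc)))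
          refine le_trans ?_ hlt.le
          have : ((((univ.filter fun p : V × V × V × V => P2 (nb G) D sp p ∧ v = p.1).filter
              fun p => p.2.1 = u).filter fun p => p.2.2.1 = w).card) ≤ (cn G v w ∩ D).card := by
            refine card_le_card_of_injOn (fun p : V × V × V × V => p.2.2.2) ?_ ?_
            · rintro ⟨x, y, z, w'⟩ hp
              obtain ⟨hp, hzw⟩ := mem_filter.mp (mem_coe.mp hp)
              obtain ⟨hp, hu⟩ := mem_filter.mp hp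
              obtain ⟨⟨⟨h1, h2, h3, h4⟩, -, ⟨e1, e2, e3, e4⟩, -⟩, hv⟩ := (mem_filter.mp hp).2
              simp only at h4 e3 e4 hzw hu hv
              subst hv
              subst hzw
              rw [mem_nb] at e3 e4
              exact mem_coe.mpr (mem_inter.mpr ⟨(mem_cn _ _ _ _).mpr ⟨e4.symm, e3⟩, h4⟩)
            · rintro ⟨x, y, z, w'⟩ hp ⟨x', y', z', w''⟩ hp' hh
              obtain ⟨hp, h1⟩ := mem_filter.mp (mem_coe.mp hp)
              obtain ⟨hp, h2⟩ := mem_filter.mp hp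
              have h3 := (mem_filter.mp hp).2.2
              obtain ⟨hp', h1'⟩ := mem_filter.mp (mem_coe.mp hp')
              obtain ⟨hp', h2'⟩ := mem_filter.mp hp'
              have h3' := (mem_filter.mp hp').2.2
              simp only at h1 h2 h3 h1' h2' h3' hh
              rw [← h3, ← h3', h1, h1', h2, h2', hh]
          exact_mod_cast this)
    h.deg
    (by
      intro v hv
      refine le_trans (le_of_eq ?_) (h.pairs v hv)
      rw [num_eq]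
      congr 2
      ext p
      simp only [mem_filter, mem_univ, true_and]
      tauto)
    (by
      intro v hv
      refine le_trans (num_le_sum _ (univ.filter fun w : V × V => w.1 ∉ D ∧ w.2 ∉ D ∧
        w.1 ≠ w.2 ∧ w.1 ∈ nb G v ∧ f w.1 = f w.2)
        (fun w p => p.1 = w.1 ∧ p.2.2 = w.2 ∧ p.2.1 ∈ cn G w.1 w.2 ∩ D) ?_)
        (le_trans ?_ (h.paths v hv))
      · rintro ⟨z, y, z'⟩ ⟨h1, h2, h3, h4, h5, h6, h7⟩
        simp only at h1 h2 h3 h4 h5 h6 h7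
        have h8 := mem_inter.mp h6
        rw [mem_nb] at h7 h8
        exact ⟨(z, z'), mem_filter.mpr ⟨mem_univ _, h1, h2, h3, h5, h4⟩, rfl, rfl,
          mem_inter.mpr ⟨(mem_cn _ _ _ _).mpr ⟨h8.1, h7.symm⟩, h8.2⟩⟩
      · rw [sum_filter]
        refine sum_le_sum fun w _ => ?_
        split_ifs with hw
        · refine num_le_card _ _ (fun p : V × V × V => p.2.1) ?_ ?_
          · rintro ⟨x, y, z⟩ ⟨x', y', z'⟩ ⟨h1, h2, -⟩ ⟨h3, h4, -⟩ h5
            simp only at h1 h2 h3 h4 h5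
            rw [h1, h2, h3, h4, h5]
          · rintro ⟨x, y, z⟩ ⟨-, -, h1⟩
            exact h1
        · exact le_refl _)
    h.n_pos
    (by
      have hn : (0 : ℝ) < n := by exact_mod_cast h.n_pos
      have hnum := h.num
      have e : 2 * (dD + (dD ^ 2 / a + c3)) / n + 8 * (dD * (dD * a)) / (n : ℝ) ^ 2 +
          20 * dD ^ 4 / (n : ℝ) ^ 3 + 2 * (c4 * dD ^ 2 + 2 * c5 * dD) / (n : ℝ) ^ 2 =
          (2 * (dD + c3 + dD ^ 2 / a) + (4 * a * dD ^ 2 + c4 * dD ^ 2 + 2 * c5 * dD) / (n / 2) +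
            5 * dD ^ 4 / (n / 2) ^ 2) / n := by
        field_simp
        ring
      rw [e, div_le_iff₀ hn]
      linarith)
  refine ⟨_, fun u v huv => hg.1 u (mem_univ _) v (mem_univ _) ((mem_nb _ _ _).mpr huv), ?_⟩
  intro α β
  by_contra hcon
  obtain ⟨C, hC, hCS, hdeg⟩ := exists_core G _ hcon
  exact hg.2 C (subset_univ _) hC hdeg ⟨α, β, hCS⟩

end Pool.Agent.AcyK.D1
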