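import Pool.Agent.AcyK.DDefs
import Pool.Agent.AcyK.OStat

/-! # Static sums of the D-part (project MP_af9dfb_K, row D5) -/

set_option autoImplicit false
set_option linter.unusedSectionVars false

namespace Pool.Agent.AcyK

open Finset
open Pool.Agent.Acy (IsPM wt Ex Pr mean)
open scoped Classical

universe u v

section

variable {V : Type u} [Fintype V] [DecidableEq V]

namespace OData

variable {D : OData V}

/-! ## Counting neighbours -/

theorem ds_nb (hD : D.Ok) (a : V) (i : ℕ) :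
    (∑ y, if D.lv y = i ∧ y ∈ D.N a then (1 : ℝ) else 0) ≤ 3 * D.T ^ 2800 := by
  refine le_trans (le_of_eq ?_) (b1 hD a i)
  rw [← Finset.natCast_card_filter]
  congr 1
  congr 1
  ext y
  rw [mem_filter, mem_filter]
  exact ⟨fun h => ⟨h.2.2, h.2.1⟩, fun h => ⟨mem_univ _, h.2, h.1⟩⟩

theorem ds_deg (hD : D.Ok) (a : V) :
    (∑ y, if y ∈ D.N a then (1 : ℝ) else 0) ≤ D.T ^ 3600 := by
  refine le_trans (le_of_eq ?_) (hD.deg a)
  rw [← Finset.natCast_card_filter]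
  congr 1
  congr 1
  ext y
  rw [mem_filter]
  exact ⟨fun h => h.2, fun h => ⟨mem_univ _, h⟩⟩

/-- A double sum through a middle vertex. -/
theorem ds_two (hD : D.Ok) (i : ℕ) (w : V → ℝ) (hw : ∀ x, 0 ≤ w x) {B : ℝ}
    (hB : ∑ x, w x ≤ B) :
    ∑ y, ∑ x, w x * (if D.lv y = i ∧ y ∈ D.N x then (1 : ℝ) else 0) ≤
      B * (3 * D.T ^ 2800) := by
  rw [Finset.sum_comm]
  have h3 : (0 : ℝ) ≤ 3 * D.T ^ 2800 := by have := pow_pos (T0 hD) 2800; linarith
  calc ∑ x, ∑ y, w x * (if D.lv y = i ∧ y ∈ D.N x then (1 : ℝ) else 0)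
      = ∑ x, w x * ∑ y, (if D.lv y = i ∧ y ∈ D.N x then (1 : ℝ) else 0) := by
        refine Finset.sum_congr rfl fun x _ => ?_
        rw [Finset.mul_sum]
    _ ≤ ∑ x, w x * (3 * D.T ^ 2800) :=
        Finset.sum_le_sum fun x _ => mul_le_mul_of_nonneg_left (ds_nb hD x i) (hw x)
    _ = (∑ x, w x) * (3 * D.T ^ 2800) := by rw [Finset.sum_mul]
    _ ≤ B * (3 * D.T ^ 2800) := mul_le_mul_of_nonneg_right hB h3

theorem ds_ind (p : Prop) [Decidable p] : (0 : ℝ) ≤ if p then (1 : ℝ) else 0 := by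
  split_ifs <;> norm_num

/-! ## Nonnegativity of the weights -/

theorem wB_nonneg (a y : V) : 0 ≤ D.wB a y := ds_ind _

theorem wL_nonneg (a : V) (j : ℕ) (y : V) : 0 ≤ D.wL a j y := by
  unfold wL
  split_ifs
  · exact Nat.cast_nonneg _
  · exact le_rfl

theorem wN_nonneg (v y : V) : 0 ≤ D.wN v y := ds_ind _

theorem wM_nonneg (a b y y' : V) : 0 ≤ D.wM a b y y' := ds_ind _

theorem wP_nonneg (v y y' : V) : 0 ≤ D.wP v y y' := by
  unfold wP
  split_ifs
  · unfold cod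
    exact Nat.cast_nonneg _
  · exact le_rfl

theorem wQ_nonneg (v : V) (s : ℝ) (j : ℕ) (y y' : V) : 0 ≤ D.wQ v s j y y' := by
  unfold wQ
  split_ifs
  · exact Nat.cast_nonneg _
  · exact le_rfl

theorem wC_nonneg (f : V → Option (Fin D.k × ℕ)) (v u u' : V) : 0 ≤ D.wC f v u u' := ds_ind _

/-! ## Total weights -/

/-- Total weights of the statistics. -/
theorem sum_wB (hD : D.Ok) (a : V) (i : ℕ) :
    (∑ y, if D.lv y = i then D.wB a y else 0) ≤ 3 * D.T ^ 2800 := by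
  refine le_trans (le_of_eq ?_) (ds_nb hD a i)
  refine Finset.sum_congr rfl fun y _ => ?_
  unfold wB
  by_cases h1 : D.lv y = i <;> by_cases h2 : y ∈ D.N a <;> simp [h1, h2]

theorem sum_wL (hD : D.Ok) (a : V) (j i : ℕ) :
    (∑ y, if D.lv y = i then D.wL a j y else 0) ≤ 9 * D.T ^ 5600 := by
  have h1 : ∀ y, (if D.lv y = i then D.wL a j y else 0) ≤
      ∑ x, (if D.lv x = j ∧ x ∈ D.N a then (1 : ℝ) else 0) *
        (if D.lv y = i ∧ y ∈ D.N x then (1 : ℝ) else 0) := by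
    intro y
    have h0 : 0 ≤ ∑ x, (if D.lv x = j ∧ x ∈ D.N a then (1 : ℝ) else 0) *
        (if D.lv y = i ∧ y ∈ D.N x then (1 : ℝ) else 0) :=
      Finset.sum_nonneg fun x _ => mul_nonneg (ds_ind _) (ds_ind _)
    by_cases hy : D.lv y = i
    · rw [if_pos hy]
      unfold wL
      split_ifs with h
      · have h2 : ((cN D.N a y).filter fun x => D.lv x = j) =
            univ.filter fun x => x ∈ cN D.N a y ∧ D.lv x = j := by
          ext x
          simp only [mem_filter, mem_univ, true_and]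
        rw [h2, Finset.natCast_card_filter]
        refine Finset.sum_le_sum fun x _ => ?_
        split_ifs with h3 h4 h5 h6
        · norm_num
        · exact absurd ⟨hy, hD.N_symm _ _ (mem_cN.1 h3.1).2⟩ h5
        · exact absurd ⟨h3.2, (mem_cN.1 h3.1).1⟩ h4
        · exact absurd ⟨h3.2, (mem_cN.1 h3.1).1⟩ h4
        all_goals norm_num
      · exact h0
    · rw [if_neg hy]
      exact h0
  refine (Finset.sum_le_sum fun y _ => h1 y).trans ?_
  refine (ds_two hD i _ (fun x => ds_ind _) (ds_nb hD a j)).trans (le_of_eq ?_)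
  have h2 : D.T ^ 5600 = D.T ^ 2800 * D.T ^ 2800 := by rw [← pow_add]
  rw [h2]
  ring

theorem sum_wN (hD : D.Ok) (v : V) (i : ℕ) :
    (∑ y, if D.lv y = i then D.wN v y else 0) ≤ 3 * D.T ^ 6400 := by
  have h1 : ∀ y, (if D.lv y = i then D.wN v y else 0) ≤
      ∑ x, (if x ∈ D.N v then (1 : ℝ) else 0) *
        (if D.lv y = i ∧ y ∈ D.N x then (1 : ℝ) else 0) := by
    intro y
    have hp : ∀ x, 0 ≤ (if x ∈ D.N v then (1 : ℝ) else 0) *
        (if D.lv y = i ∧ y ∈ D.N x then (1 : ℝ) else 0) :=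
      fun x => mul_nonneg (ds_ind _) (ds_ind _)
    by_cases hy : D.lv y = i
    · rw [if_pos hy]
      unfold wN
      split_ifs with h
      · obtain ⟨x, hx⟩ := h
        rw [mem_cN] at hx
        refine le_trans ?_ (Finset.single_le_sum (fun x _ => hp x) (mem_univ x))
        rw [if_pos hx.1, if_pos ⟨hy, hD.N_symm _ _ hx.2⟩]
        norm_num
      · exact Finset.sum_nonneg fun x _ => hp x
    · rw [if_neg hy]
      exact Finset.sum_nonneg fun x _ => hp x
  refine (Finset.sum_le_sum fun y _ => h1 y).trans ?_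
  refine (ds_two hD i _ (fun x => ds_ind _) (ds_deg hD v)).trans (le_of_eq ?_)
  have h2 : D.T ^ 6400 = D.T ^ 3600 * D.T ^ 2800 := by rw [← pow_add]
  rw [h2]
  ring

theorem sum_wM (hD : D.Ok) (a b : V) (i : ℕ) :
    (∑ y, ∑ y', if D.lv y = i ∧ D.lv y' = i then D.wM a b y y' else 0) ≤
      9 * D.T ^ 5600 := by
  have h1 : ∀ y y', (if D.lv y = i ∧ D.lv y' = i then D.wM a b y y' else 0) =
      (if D.lv y = i ∧ y ∈ D.N a then (1 : ℝ) else 0) *
        (if D.lv y' = i ∧ y' ∈ D.N b then (1 : ℝ) else 0) := by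
    intro y y'
    unfold wM
    by_cases h1 : D.lv y = i <;> by_cases h2 : D.lv y' = i <;> by_cases h3 : y ∈ D.N a <;>
      by_cases h4 : y' ∈ D.N b <;> simp [h1, h2, h3, h4]
  simp_rw [h1]
  rw [← Finset.sum_mul_sum]
  have h2 : D.T ^ 5600 = D.T ^ 2800 * D.T ^ 2800 := by rw [← pow_add]
  have h3 : (0 : ℝ) ≤ 3 * D.T ^ 2800 := by have := pow_pos (T0 hD) 2800; linarith
  calc _ ≤ (3 * D.T ^ 2800) * (3 * D.T ^ 2800) :=
        mul_le_mul (ds_nb hD a i) (ds_nb hD b i)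
          (Finset.sum_nonneg fun y _ => ds_ind _) h3
    _ = 9 * D.T ^ 5600 := by rw [h2]; ring

/-- Total codegree towards one part. -/
theorem ds_cod (hD : D.Ok) (y : V) (i : ℕ) :
    (∑ y', if D.lv y' = i then D.cod y y' else 0) ≤ 3 * D.T ^ 6400 := by
  have h1 : ∀ y', (if D.lv y' = i then D.cod y y' else 0) =
      ∑ x, (if x ∈ D.N y then (1 : ℝ) else 0) *
        (if D.lv y' = i ∧ y' ∈ D.N x then (1 : ℝ) else 0) := by
    intro y'
    by_cases hy : D.lv y' = i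
    · rw [if_pos hy]
      unfold cod
      have h2 : cN D.N y y' = univ.filter fun x => x ∈ cN D.N y y' := by
        ext x
        simp only [mem_filter, mem_univ, true_and]
      rw [h2, Finset.natCast_card_filter]
      refine Finset.sum_congr rfl fun x _ => ?_
      have h3 : x ∈ cN D.N y y' ↔ x ∈ D.N y ∧ y' ∈ D.N x := by
        rw [mem_cN]
        exact ⟨fun h => ⟨h.1, hD.N_symm _ _ h.2⟩, fun h => ⟨h.1, hD.N_symm _ _ h.2⟩⟩
      by_cases h4 : x ∈ D.N y <;> by_cases h5 : y' ∈ D.N x <;> simp [h3, h4, h5, hy]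
    · rw [if_neg hy]
      symm
      refine Finset.sum_eq_zero fun x _ => ?_
      rw [if_neg (show ¬ (D.lv y' = i ∧ y' ∈ D.N x) from fun h => hy h.1), mul_zero]
  simp_rw [h1]
  refine (ds_two hD i _ (fun x => ds_ind _) (ds_deg hD y)).trans (le_of_eq ?_)
  have h2 : D.T ^ 6400 = D.T ^ 3600 * D.T ^ 2800 := by rw [← pow_add]
  rw [h2]
  ring

theorem sum_wP (hD : D.Ok) (v : V) (i : ℕ) :
    (∑ y, ∑ y', if D.lv y = i ∧ D.lv y' = i then D.wP v y y' else 0) ≤
      9 * D.T ^ 9200 := by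
  have h0 : (0 : ℝ) ≤ 3 * D.T ^ 6400 := by have := pow_pos (T0 hD) 6400; linarith
  have h1 : ∀ y, (∑ y', if D.lv y = i ∧ D.lv y' = i then D.wP v y y' else 0) ≤
      (if D.lv y = i ∧ y ∈ D.N v then (1 : ℝ) else 0) * (3 * D.T ^ 6400) := by
    intro y
    by_cases hy : D.lv y = i ∧ y ∈ D.N v
    · rw [if_pos hy, one_mul]
      refine le_trans (Finset.sum_le_sum fun y' _ => ?_) (ds_cod hD y i)
      by_cases hy' : D.lv y' = i
      · rw [if_pos ⟨hy.1, hy'⟩, if_pos hy']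
        unfold wP
        split_ifs
        · exact le_rfl
        · unfold cod
          exact Nat.cast_nonneg _
      · rw [if_neg (fun h => hy' h.2), if_neg hy']
    · rw [if_neg hy, zero_mul]
      refine le_of_eq (Finset.sum_eq_zero fun y' _ => ?_)
      split_ifs with h
      · unfold wP
        rw [if_neg (fun h' => hy ⟨h.1, h'.1⟩)]
      · rfl
  refine (Finset.sum_le_sum fun y _ => h1 y).trans ?_
  rw [← Finset.sum_mul]
  refine (mul_le_mul_of_nonneg_right (ds_nb hD v i) h0).trans (le_of_eq ?_)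
  have h2 : D.T ^ 9200 = D.T ^ 2800 * D.T ^ 6400 := by rw [← pow_add]
  rw [h2]
  ring

/-- Squares of common neighbourhoods. -/
theorem ds_sq (hD : D.Ok) (v : V) {s : ℝ} (hs : D.T ^ 2385 ≤ s) (j i : ℕ) :
    (∑ x, if D.lv x = j ∧ x ≠ v ∧ D.cod x v < s then
      (∑ y, if D.lv y = i ∧ y ∈ cN D.N v x then (1 : ℝ) else 0) ^ 2 else 0) ≤
      19 * (s * D.T ^ 4800) := by
  have hT := T0 hD
  have hs0 : 0 < s := lt_of_lt_of_le (pow_pos hT _) hs
  have h1 : ∀ x, D.cod x v < s →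
      (∑ y, if D.lv y = i ∧ y ∈ cN D.N v x then (1 : ℝ) else 0) ≤
        21 / 10 * (s / D.T ^ 800) := by
    intro x hx
    rw [← Finset.natCast_card_filter]
    have h2 : (univ.filter fun y => D.lv y = i ∧ y ∈ cN D.N v x) = D.cj i x v := by
      unfold cj
      ext y
      rw [mem_filter, mem_filter, cN_comm]
      exact ⟨fun h => ⟨h.2.2, h.2.1⟩, fun h => ⟨mem_univ _, h.2, h.1⟩⟩
    rw [h2]
    refine cj_le hD (by positivity) i fun i => hD.part_ok.b2s s hs x v hx i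
  have h2 : ∀ x, (if D.lv x = j ∧ x ≠ v ∧ D.cod x v < s then
      (∑ y, if D.lv y = i ∧ y ∈ cN D.N v x then (1 : ℝ) else 0) ^ 2 else 0) ≤
      21 / 10 * (s / D.T ^ 800) * ∑ y, (if D.lv y = i ∧ y ∈ D.N v then (1 : ℝ) else 0) *
        (if D.lv x = j ∧ x ∈ D.N y then (1 : ℝ) else 0) := by
    intro x
    have h3 : 0 ≤ ∑ y, (if D.lv y = i ∧ y ∈ D.N v then (1 : ℝ) else 0) *
        (if D.lv x = j ∧ x ∈ D.N y then (1 : ℝ) else 0) :=
      Finset.sum_nonneg fun y _ => mul_nonneg (ds_ind _) (ds_ind _)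
    split_ifs with hx
    · rw [pow_two]
      have h4 : (∑ y, if D.lv y = i ∧ y ∈ cN D.N v x then (1 : ℝ) else 0) =
          ∑ y, (if D.lv y = i ∧ y ∈ D.N v then (1 : ℝ) else 0) *
            (if D.lv x = j ∧ x ∈ D.N y then (1 : ℝ) else 0) := by
        refine Finset.sum_congr rfl fun y _ => ?_
        have h5 : y ∈ cN D.N v x ↔ y ∈ D.N v ∧ x ∈ D.N y := by
          rw [mem_cN]
          exact ⟨fun h => ⟨h.1, hD.N_symm _ _ h.2⟩, fun h => ⟨h.1, hD.N_symm _ _ h.2⟩⟩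
        by_cases h6 : D.lv y = i <;> by_cases h7 : y ∈ D.N v <;> by_cases h8 : x ∈ D.N y <;>
          simp [h5, h6, h7, h8, hx.1]
      rw [h4]
      refine mul_le_mul_of_nonneg_right ?_ h3
      rw [← h4]
      exact h1 x hx.2.2
    · positivity
  refine (Finset.sum_le_sum fun x _ => h2 x).trans ?_
  rw [← Finset.mul_sum]
  have h3 := ds_two hD j (fun y => if D.lv y = i ∧ y ∈ D.N v then (1 : ℝ) else 0)
    (fun y => ds_ind _) (ds_nb hD v i)
  have h4 : 0 ≤ 21 / 10 * (s / D.T ^ 800) := by positivity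
  refine (mul_le_mul_of_nonneg_left h3 h4).trans ?_
  have h5 : D.T ^ 2800 * D.T ^ 2800 = D.T ^ 4800 * D.T ^ 800 := by rw [← pow_add, ← pow_add]
  have h6 : 21 / 10 * (s / D.T ^ 800) * (3 * D.T ^ 2800 * (3 * D.T ^ 2800)) =
      189 / 10 * (s * D.T ^ 4800) := by
    have h7 : D.T ^ 800 ≠ 0 := (pow_pos hT _).ne'
    calc 21 / 10 * (s / D.T ^ 800) * (3 * D.T ^ 2800 * (3 * D.T ^ 2800))
        = 189 / 10 * (s * (D.T ^ 2800 * D.T ^ 2800) / D.T ^ 800) := by ring
      _ = 189 / 10 * (s * D.T ^ 4800) := by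
          rw [h5]
          congr 1
          rw [div_eq_iff h7]
          ring
  rw [h6]
  have h7 : 0 < s * D.T ^ 4800 := by positivity
  linarith

theorem sum_wQ (hD : D.Ok) (v : V) {s : ℝ} (hs : D.T ^ 2385 ≤ s) (j i : ℕ) :
    (∑ y, ∑ y', if D.lv y = i ∧ D.lv y' = i then D.wQ v s j y y' else 0) ≤
      19 * (s * D.T ^ 4800) := by
  refine le_trans ?_ (ds_sq hD v hs j i)
  have h1 : ∀ y y', (if D.lv y = i ∧ D.lv y' = i then D.wQ v s j y y' else 0) ≤
      ∑ x, if D.lv x = j ∧ x ≠ v ∧ D.cod x v < s then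
        (if D.lv y = i ∧ y ∈ cN D.N v x then (1 : ℝ) else 0) *
        (if D.lv y' = i ∧ y' ∈ cN D.N v x then (1 : ℝ) else 0) else 0 := by
    intro y y'
    have hp : ∀ x, 0 ≤ (if D.lv x = j ∧ x ≠ v ∧ D.cod x v < s then
        (if D.lv y = i ∧ y ∈ cN D.N v x then (1 : ℝ) else 0) *
        (if D.lv y' = i ∧ y' ∈ cN D.N v x then (1 : ℝ) else 0) else 0) := by
      intro x
      split_ifs <;> norm_num
    by_cases hy : D.lv y = i ∧ D.lv y' = i
    · rw [if_pos hy]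
      unfold wQ
      split_ifs with h
      · have h2 : ((cN D.N y y').filter fun x => D.lv x = j ∧ x ≠ v ∧ D.cod x v < s) =
            univ.filter fun x => x ∈ cN D.N y y' ∧ D.lv x = j ∧ x ≠ v ∧ D.cod x v < s := by
          ext x
          simp only [mem_filter, mem_univ, true_and]
        rw [h2, Finset.natCast_card_filter]
        refine Finset.sum_le_sum fun x _ => ?_
        by_cases hx : x ∈ cN D.N y y' ∧ D.lv x = j ∧ x ≠ v ∧ D.cod x v < s
        · have h3 := mem_cN.1 hx.1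
          rw [if_pos hx, if_pos hx.2,
            if_pos ⟨hy.1, mem_cN.2 ⟨h.1.1, hD.N_symm _ _ h3.1⟩⟩,
            if_pos ⟨hy.2, mem_cN.2 ⟨h.1.2, hD.N_symm _ _ h3.2⟩⟩]
          norm_num
        · rw [if_neg hx]
          exact hp x
      · exact Finset.sum_nonneg fun x _ => hp x
    · rw [if_neg hy]
      exact Finset.sum_nonneg fun x _ => hp x
  refine (Finset.sum_le_sum fun y _ => Finset.sum_le_sum fun y' _ => h1 y y').trans ?_
  have h2 : ∀ y, (∑ y', ∑ x, if D.lv x = j ∧ x ≠ v ∧ D.cod x v < s then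
        (if D.lv y = i ∧ y ∈ cN D.N v x then (1 : ℝ) else 0) *
        (if D.lv y' = i ∧ y' ∈ cN D.N v x then (1 : ℝ) else 0) else 0) =
      ∑ x, ∑ y', if D.lv x = j ∧ x ≠ v ∧ D.cod x v < s then
        (if D.lv y = i ∧ y ∈ cN D.N v x then (1 : ℝ) else 0) *
        (if D.lv y' = i ∧ y' ∈ cN D.N v x then (1 : ℝ) else 0) else 0 :=
    fun y => Finset.sum_comm
  simp_rw [h2]
  rw [Finset.sum_comm]
  refine le_of_eq (Finset.sum_congr rfl fun x _ => ?_)
  by_cases hx : D.lv x = j ∧ x ≠ v ∧ D.cod x v < s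
  · simp only [if_pos hx]
    rw [pow_two, Finset.sum_mul_sum]
  · simp only [if_neg hx, Finset.sum_const_zero]

/-! ## The running bounds give the final bounds -/

theorem rho_nonneg (hD : D.Ok) : 0 ≤ D.rho := by
  unfold rho
  have h1 := k_pos hD
  have h2 := T0 hD
  positivity

theorem rho_pow (hD : D.Ok) {a b : ℕ} (h : a + 1 ≤ 3999 + b) :
    D.rho * D.T ^ a ≤ 2 * D.T ^ b := by
  have h1 : D.rho * D.T ^ a = 2 * (D.T ^ (a + 1) / D.k) := by
    unfold rho
    rw [pow_succ]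
    ring
  rw [h1]
  have h2 := div_k' hD h
  linarith

theorem C1_le (f : V → Option (Fin D.k × ℕ)) (i : ℕ) {w : V → ℝ} (hw : ∀ y, 0 ≤ w y) :
    D.C1 f i w ≤ ∑ y, if D.lv y = i then w y else 0 := by
  unfold C1
  refine Finset.sum_le_sum fun y _ => ?_
  by_cases h : D.lv y = i
  · rw [if_pos h]
    split_ifs
    · exact le_rfl
    · exact hw y
  · rw [if_neg (fun h' => h h'.1), if_neg h]

theorem C2_le (f : V → Option (Fin D.k × ℕ)) (i : ℕ) {w : V → V → ℝ}
    (hw : ∀ y y', 0 ≤ w y y') :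
    D.C2 f i w ≤ ∑ y, ∑ y', if D.lv y = i ∧ D.lv y' = i then w y y' else 0 := by
  unfold C2
  refine Finset.sum_le_sum fun y _ => Finset.sum_le_sum fun y' _ => ?_
  by_cases h : D.lv y = i ∧ D.lv y' = i
  · rw [if_pos h]
    split_ifs
    · exact le_rfl
    · exact hw y y'
  · rw [if_neg (fun h' => h ⟨h'.1.1, h'.2.1.1⟩), if_neg h]

theorem bd1_le (hD : D.Ok) (f : V → Option (Fin D.k × ℕ)) (j : ℕ) {m : ℕ} (hm : m ≤ D.M)
    {w : V → ℝ} (hw : ∀ y, 0 ≤ w y) {b B : ℝ} (hb : 0 ≤ b)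
    (hB : (∑ y, if D.lv y = j then w y else 0) ≤ B) :
    D.bd1 f j m w b ≤ 4 * D.T * (D.rho * B + D.T ^ 150 * b) := by
  unfold bd1
  have h1 := (C1_le f j hw).trans hB
  have h2 := mM hD hm
  have h3 := rho_nonneg hD
  have h4 := T0 hD
  gcongr

theorem bd2_le (hD : D.Ok) (f : V → Option (Fin D.k × ℕ)) (j : ℕ) {m : ℕ} (hm : m ≤ D.M)
    {w : V → V → ℝ} (hw : ∀ y y', 0 ≤ w y y') {b B : ℝ} (hb : 0 ≤ b)
    (hB : (∑ y, ∑ y', if D.lv y = j ∧ D.lv y' = j then w y y' else 0) ≤ B) :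
    D.bd2 f j m w b ≤ 26 * D.T ^ 2 * (D.rho * B + D.T ^ 150 * b) := by
  unfold bd2
  have h1 := (C2_le f j hw).trans hB
  have h2 := mM hD hm
  have h3 := rho_nonneg hD
  have h4 := T0 hD
  gcongr

/-- `c T^a <= T^b` for `a < b` and `c <= 10^6`. -/
theorem num_pow (hD : D.Ok) {c : ℝ} (hc : c ≤ 1000000) {a b : ℕ} (h : a < b) :
    c * D.T ^ a ≤ D.T ^ b := by
  have h1 : D.T ^ (a + 1) ≤ D.T ^ b := hD.big.pw h
  have h2 := hD.big.big
  have h3 := pow_pos (T0 hD) a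
  refine le_trans ?_ h1
  rw [pow_succ, mul_comm]
  norm_num at h2
  exact mul_le_mul_of_nonneg_left (by linarith) h3.le

/-- The running bounds give the final bounds. -/
theorem stat_of_prog (hD : D.Ok) {f : V → Option (Fin D.k × ℕ)} {j : ℕ} {m : ℕ}
    (hm : m ≤ D.M) (h : D.ProgS f j m) : D.DStat f j := by
  have hT := T0 hD
  have hr := rho_nonneg hD
  refine ⟨fun a c => ?_, fun a j' c => ?_, fun v c => ?_, fun a b hab => ?_, fun v => ?_,
    fun v s j' hs => ?_⟩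
  · refine (h.sB a c).trans ((bd1_le hD f j hm (wB_nonneg a) zero_le_one
      (sum_wB hD a j)).trans ?_)
    have h1 : D.rho * D.T ^ 2800 ≤ 2 * D.T ^ 0 := rho_pow hD (by norm_num)
    have h2 : (1 : ℝ) * D.T ^ 0 ≤ D.T ^ 150 := num_pow hD (by norm_num) (by norm_num)
    have h3 : 28 * D.T ^ 151 ≤ D.T ^ 152 := num_pow hD (by norm_num) (by norm_num)
    have h4 : D.T ^ 151 = D.T ^ 150 * D.T := pow_succ _ _
    calc 4 * D.T * (D.rho * (3 * D.T ^ 2800) + D.T ^ 150 * 1)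
        = 4 * D.T * (3 * (D.rho * D.T ^ 2800) + D.T ^ 150) := by ring
      _ ≤ 4 * D.T * (3 * (2 * D.T ^ 150) + D.T ^ 150) := by
          refine mul_le_mul_of_nonneg_left ?_ (by positivity)
          linarith
      _ = 28 * D.T ^ 151 := by rw [h4]; ring
      _ ≤ D.T ^ 152 := h3
  · refine (h.sL a j' c).trans ((bd1_le hD f j hm (wL_nonneg a j') (by positivity)
      (sum_wL hD a j' j)).trans ?_)
    have h1 : D.rho * D.T ^ 5600 ≤ 2 * D.T ^ 1602 := rho_pow hD (by norm_num)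
    have h2 : (1 : ℝ) * D.T ^ 1602 ≤ D.T ^ 1753 := num_pow hD (by norm_num) (by norm_num)
    have h3 : 76 * D.T ^ 1754 ≤ D.T ^ 1756 := num_pow hD (by norm_num) (by norm_num)
    have h4 : D.T ^ 1754 = D.T ^ 1753 * D.T := pow_succ _ _
    have h5 : D.T ^ 150 * D.T ^ 1603 = D.T ^ 1753 := by rw [← pow_add]
    calc 4 * D.T * (D.rho * (9 * D.T ^ 5600) + D.T ^ 150 * D.T ^ 1603)
        = 4 * D.T * (9 * (D.rho * D.T ^ 5600) + D.T ^ 1753) := by rw [h5]; ring
      _ ≤ 4 * D.T * (9 * (2 * D.T ^ 1753) + D.T ^ 1753) := by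
          refine mul_le_mul_of_nonneg_left ?_ (by positivity)
          linarith
      _ = 76 * D.T ^ 1754 := by rw [h4]; ring
      _ ≤ D.T ^ 1756 := h3
  · refine (h.sN v c).trans ((bd1_le hD f j hm (wN_nonneg v) zero_le_one
      (sum_wN hD v j)).trans ?_)
    have h1 : D.rho * D.T ^ 6400 ≤ 2 * D.T ^ 2402 := rho_pow hD (by norm_num)
    have h2 : (1 : ℝ) * D.T ^ 150 ≤ D.T ^ 2402 := num_pow hD (by norm_num) (by norm_num)
    have h3 : 28 * D.T ^ 2403 ≤ D.T ^ 2405 := num_pow hD (by norm_num) (by norm_num)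
    have h4 : D.T ^ 2403 = D.T ^ 2402 * D.T := pow_succ _ _
    calc 4 * D.T * (D.rho * (3 * D.T ^ 6400) + D.T ^ 150 * 1)
        = 4 * D.T * (3 * (D.rho * D.T ^ 6400) + D.T ^ 150) := by ring
      _ ≤ 4 * D.T * (3 * (2 * D.T ^ 2402) + D.T ^ 2402) := by
          refine mul_le_mul_of_nonneg_left ?_ (by positivity)
          linarith
      _ = 28 * D.T ^ 2403 := by rw [h4]; ring
      _ ≤ D.T ^ 2405 := h3
  · refine (h.sM a b hab).trans ((bd2_le hD f j hm (wM_nonneg a b) (by positivity)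
      (sum_wM hD a b j)).trans ?_)
    have h1 : D.rho * D.T ^ 5600 ≤ 2 * D.T ^ 1602 := rho_pow hD (by norm_num)
    have h2 : (1 : ℝ) * D.T ^ 303 ≤ D.T ^ 1602 := num_pow hD (by norm_num) (by norm_num)
    have h3 : 494 * D.T ^ 1604 ≤ D.T ^ 1605 := num_pow hD (by norm_num) (by norm_num)
    have h4 : D.T ^ 1604 = D.T ^ 1602 * D.T ^ 2 := by rw [← pow_add]
    have h5 : D.T ^ 150 * D.T ^ 153 = D.T ^ 303 := by rw [← pow_add]
    calc 26 * D.T ^ 2 * (D.rho * (9 * D.T ^ 5600) + D.T ^ 150 * D.T ^ 153)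
        = 26 * D.T ^ 2 * (9 * (D.rho * D.T ^ 5600) + D.T ^ 303) := by rw [h5]; ring
      _ ≤ 26 * D.T ^ 2 * (9 * (2 * D.T ^ 1602) + D.T ^ 1602) := by
          refine mul_le_mul_of_nonneg_left ?_ (by positivity)
          linarith
      _ = 494 * D.T ^ 1604 := by rw [h4]; ring
      _ ≤ D.T ^ 1605 := h3
  · refine (h.sP v).trans ((bd2_le hD f j hm (wP_nonneg v) (by positivity)
      (sum_wP hD v j)).trans ?_)
    have h1 : D.rho * D.T ^ 9200 ≤ 2 * D.T ^ 5202 := rho_pow hD (by norm_num)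
    have h2 : 13 * D.T ^ 2707 ≤ D.T ^ 5202 := num_pow hD (by norm_num) (by norm_num)
    have h4 : D.T ^ 5204 = D.T ^ 5202 * D.T ^ 2 := by rw [← pow_add]
    have h5 : D.T ^ 150 * D.T ^ 2557 = D.T ^ 2707 := by rw [← pow_add]
    calc 26 * D.T ^ 2 * (D.rho * (9 * D.T ^ 9200) + D.T ^ 150 * D.T ^ 2557)
        = 26 * D.T ^ 2 * (9 * (D.rho * D.T ^ 9200) + D.T ^ 2707) := by rw [h5]; ring
      _ ≤ 26 * D.T ^ 2 * (9 * (2 * D.T ^ 5202) + D.T ^ 5202 / 13) := by
          refine mul_le_mul_of_nonneg_left ?_ (by positivity)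
          linarith
      _ = 470 * D.T ^ 5204 := by rw [h4]; ring
  · have hs' : D.T ^ 2385 ≤ s := by
      rcases hs with hs | hs
      · exact hs.ge
      · rw [hs]
        exact hD.big.pw (by norm_num)
    refine (h.sQ v s j' hs).trans ((bd2_le hD f j hm (wQ_nonneg v s j') (by positivity)
      (sum_wQ hD v hs' j' j)).trans ?_)
    have hs0 : 0 < s := lt_of_lt_of_le (pow_pos hT _) hs'
    have h1 : D.rho * D.T ^ 4800 ≤ 2 * D.T ^ 802 := rho_pow hD (by norm_num)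
    have h2 : 26 * D.T ^ 1907 ≤ D.T ^ 2385 := num_pow hD (by norm_num) (by norm_num)
    have h3 : (1 : ℝ) ≤ D.T ^ 802 := one_le_pow₀ (T1 hD)
    have h4 : D.T ^ 804 = D.T ^ 802 * D.T ^ 2 := by rw [← pow_add]
    have h5 : D.T ^ 150 * D.T ^ 1757 = D.T ^ 1907 := by rw [← pow_add]
    have h6 : 26 * D.T ^ 1907 ≤ s * D.T ^ 802 := by
      calc 26 * D.T ^ 1907 ≤ s := h2.trans hs'
        _ = s * 1 := (mul_one _).symm
        _ ≤ s * D.T ^ 802 := mul_le_mul_of_nonneg_left h3 hs0.le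
    have h7 : 0 < s * D.T ^ 802 := by positivity
    have h8 : s * (D.rho * D.T ^ 4800) ≤ s * (2 * D.T ^ 802) :=
      mul_le_mul_of_nonneg_left h1 hs0.le
    calc 26 * D.T ^ 2 * (D.rho * (19 * (s * D.T ^ 4800)) + D.T ^ 150 * D.T ^ 1757)
        = 26 * D.T ^ 2 * (19 * (s * (D.rho * D.T ^ 4800)) + D.T ^ 1907) := by rw [h5]; ring
      _ ≤ 26 * D.T ^ 2 * (19 * (s * (2 * D.T ^ 802)) + s * D.T ^ 802 / 26) := by
          refine mul_le_mul_of_nonneg_left ?_ (by positivity)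
          linarith
      _ = 989 * (s * D.T ^ 804) := by rw [h4]; ring
      _ ≤ 1000 * (s * D.T ^ 804) := by
          have : 0 < s * D.T ^ 804 := by positivity
          linarith

/-! ## Pairs with `E3` -/

theorem wC_le (hD : D.Ok) {f : V → Option (Fin D.k × ℕ)} (v u u' : V)
    (hu : D.lv u = D.lv v) (hu' : D.lv u' = D.lv v) :
    D.wC f v u u' ≤ ∑ z, ∑ z', (if D.Same f z z' ∧ D.lv z < D.lv v ∧ z ∈ D.N v ∧ z' ∈ D.N v
      then (1 : ℝ) else 0) * ((if D.lv u' = D.lv v ∧ u' ∈ D.N z' then (1 : ℝ) else 0) *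
      ∑ z'', if D.Same f z z'' ∧ ¬ D.Spc z z'' ∧ D.lv u = D.lv v ∧ u ∈ cN D.N z z'' then
        (1 : ℝ) else 0) := by
  have hp1 : ∀ z, 0 ≤ ∑ z'', (if D.Same f z z'' ∧ ¬ D.Spc z z'' ∧ D.lv u = D.lv v ∧
      u ∈ cN D.N z z'' then (1 : ℝ) else 0) := fun z => Finset.sum_nonneg fun _ _ => ds_ind _
  have hp2 : ∀ z z', 0 ≤ (if D.Same f z z' ∧ D.lv z < D.lv v ∧ z ∈ D.N v ∧ z' ∈ D.N v
      then (1 : ℝ) else 0) * ((if D.lv u' = D.lv v ∧ u' ∈ D.N z' then (1 : ℝ) else 0) *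
      ∑ z'', if D.Same f z z'' ∧ ¬ D.Spc z z'' ∧ D.lv u = D.lv v ∧ u ∈ cN D.N z z'' then
        (1 : ℝ) else 0) :=
    fun z z' => mul_nonneg (ds_ind _) (mul_nonneg (ds_ind _) (hp1 z))
  unfold wC
  split_ifs with h
  · obtain ⟨z, z', z'', -, h1, h2, h3, h4, h5, h6, h7, h8⟩ := h
    rw [mem_cN] at h6 h7
    refine le_trans ?_ (Finset.single_le_sum
      (fun z _ => Finset.sum_nonneg fun z' _ => hp2 z z') (mem_univ z))
    refine le_trans ?_ (Finset.single_le_sum (fun z' _ => hp2 z z') (mem_univ z'))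
    rw [if_pos ⟨h1, h5, h6.1, h7.1⟩, if_pos ⟨hu', hD.N_symm _ _ h7.2⟩, one_mul, one_mul]
    refine le_trans ?_ (Finset.single_le_sum (fun _ _ => ds_ind _) (mem_univ z''))
    rw [if_pos ⟨h2, h4, hu, mem_cN.2 ⟨hD.N_symm _ _ h6.2, hD.N_symm _ _ h8⟩⟩]
  · exact Finset.sum_nonneg fun z _ => Finset.sum_nonneg fun z' _ => hp2 z z'

/-- Second steps from `z`. -/
theorem wC_aux {f : V → Option (Fin D.k × ℕ)} (v z : V)
    (h : ∀ i, i < D.lv v → D.DStat f i) (hz : D.lv z < D.lv v) (hT : 0 < D.T) :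
    (∑ u, ∑ z'', if D.Same f z z'' ∧ ¬ D.Spc z z'' ∧ D.lv u = D.lv v ∧ u ∈ cN D.N z z'' then
        (1 : ℝ) else 0) ≤ D.T ^ 1756 := by
  by_cases hc : ∃ c, hasCol f z c
  · obtain ⟨c, hc⟩ := hc
    refine le_trans ?_ ((h _ hz).sL z (D.lv v) c)
    rw [Finset.sum_comm]
    unfold L1
    refine Finset.sum_le_sum fun z'' _ => ?_
    by_cases h1 : D.Same f z z'' ∧ ¬ D.Spc z z''
    · have h2 : hasCol f z'' c := by
        obtain ⟨c', h3, h4⟩ := h1.1.2.2
        obtain ⟨r, hr⟩ := hc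
        obtain ⟨r', hr'⟩ := h3
        rw [hr] at hr'
        have : c = c' := by
          injection hr' with h5
          exact congrArg Prod.fst h5
        rw [this]
        exact h4
      rw [if_pos ⟨h1.1.2.1.symm, h2⟩]
      unfold wL
      rw [if_pos ⟨h1.1.1, h1.2⟩]
      have h3 : ((cN D.N z z'').filter fun x => D.lv x = D.lv v) =
          univ.filter fun x => D.lv x = D.lv v ∧ x ∈ cN D.N z z'' := by
        ext x
        rw [mem_filter, mem_filter]
        exact ⟨fun h => ⟨mem_univ _, h.2, h.1⟩, fun h => ⟨h.2.2, h.2.1⟩⟩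
      rw [h3, Finset.natCast_card_filter]
      refine Finset.sum_le_sum fun u _ => ?_
      by_cases h4 : D.lv u = D.lv v ∧ u ∈ cN D.N z z''
      · rw [if_pos ⟨h1.1, h1.2, h4⟩, if_pos h4]
      · rw [if_neg (fun h5 => h4 h5.2.2), if_neg h4]
    · refine le_trans (le_of_eq (Finset.sum_eq_zero fun u _ => ?_)) ?_
      · rw [if_neg (fun h2 => h1 ⟨h2.1, h2.2.1⟩)]
      · split_ifs
        · exact wL_nonneg _ _ _
        · exact le_rfl
  · refine le_trans (le_of_eq (Finset.sum_eq_zero fun u _ => Finset.sum_eq_zero fun z'' _ => ?_))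
      (pow_pos hT _).le
    rw [if_neg]
    rintro ⟨⟨-, -, c, h1, -⟩, -⟩
    exact hc ⟨c, h1⟩

/-- Sum over the smaller parts. -/
theorem ds_parts (j : ℕ) (f : V → Option (Fin D.k × ℕ)) (w : V → V → ℝ)
    {B : ℝ} (hB : ∀ i, i < j → D.S2 f i w ≤ B) :
    (∑ z, ∑ z', if D.Same f z z' ∧ D.lv z < j then w z z' else 0) ≤ j * B := by
  have h1 : ∀ z z', (if D.Same f z z' ∧ D.lv z < j then w z z' else 0) =
      ∑ i ∈ Finset.range j, if D.lv z = i ∧ D.Same f z z' then w z z' else 0 := by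
    intro z z'
    by_cases h : D.Same f z z' ∧ D.lv z < j
    · rw [if_pos h, Finset.sum_eq_single (D.lv z)]
      · rw [if_pos ⟨rfl, h.1⟩]
      · intro i _ hi
        rw [if_neg (fun h' => hi h'.1.symm)]
      · intro h'
        exact absurd (Finset.mem_range.2 h.2) h'
    · rw [if_neg h]
      symm
      refine Finset.sum_eq_zero fun i hi => ?_
      rw [if_neg]
      rintro ⟨h2, h3⟩
      exact h ⟨h3, h2 ▸ Finset.mem_range.1 hi⟩
  have h2 : (∑ z, ∑ z', if D.Same f z z' ∧ D.lv z < j then w z z' else 0) =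
      ∑ i ∈ Finset.range j, D.S2 f i w := by
    simp_rw [h1]
    unfold S2
    have h3 : ∀ z, (∑ z', ∑ i ∈ Finset.range j,
        if D.lv z = i ∧ D.Same f z z' then w z z' else 0) =
        ∑ i ∈ Finset.range j, ∑ z', if D.lv z = i ∧ D.Same f z z' then w z z' else 0 :=
      fun z => Finset.sum_comm
    simp_rw [h3]
    rw [Finset.sum_comm]
  rw [h2]
  refine (Finset.sum_le_sum fun i hi => hB i (Finset.mem_range.1 hi)).trans (le_of_eq ?_)
  rw [Finset.sum_const, Finset.card_range, nsmul_eq_mul]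

theorem ds_lv (hD : D.Ok) (v : V) : (D.lv v : ℝ) ≤ D.T ^ 800 := by
  have h1 : (D.lv v : ℝ) ≤ D.R := by exact_mod_cast (lv_lt hD v).le
  exact h1.trans hD.R_hi

/-- Pairs `(u, u')` in the part of `v` with `E3`. -/
theorem sum_wC (hD : D.Ok) {f : V → Option (Fin D.k × ℕ)} (v : V)
    (h : ∀ i, i < D.lv v → D.DStat f i) :
    (∑ u, ∑ u', if D.lv u = D.lv v ∧ D.lv u' = D.lv v then D.wC f v u u' else 0) ≤
      D.T ^ 7000 := by
  have hT := T0 hD
  set S : V → V → ℝ := fun z u => ∑ z'', if D.Same f z z'' ∧ ¬ D.Spc z z'' ∧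
    D.lv u = D.lv v ∧ u ∈ cN D.N z z'' then (1 : ℝ) else 0 with hS
  have hS0 : ∀ z u, 0 ≤ S z u := fun z u => Finset.sum_nonneg fun _ _ => ds_ind _
  set A : V → V → ℝ := fun z z' => if D.Same f z z' ∧ D.lv z < D.lv v ∧ z ∈ D.N v ∧
    z' ∈ D.N v then (1 : ℝ) else 0 with hA
  set I : V → V → ℝ := fun z' u' => if D.lv u' = D.lv v ∧ u' ∈ D.N z' then (1 : ℝ) else 0
    with hI
  have h1 : ∀ u u', (if D.lv u = D.lv v ∧ D.lv u' = D.lv v then D.wC f v u u' else 0) ≤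
      ∑ z, ∑ z', A z z' * (I z' u' * S z u) := by
    intro u u'
    split_ifs with h2
    · exact wC_le hD v u u' h2.1 h2.2
    · exact Finset.sum_nonneg fun z _ => Finset.sum_nonneg fun z' _ =>
        mul_nonneg (ds_ind _) (mul_nonneg (ds_ind _) (hS0 z u))
  refine (Finset.sum_le_sum fun u _ => Finset.sum_le_sum fun u' _ => h1 u u').trans ?_
  have h2 : (∑ u, ∑ u', ∑ z, ∑ z', A z z' * (I z' u' * S z u)) =
      ∑ z, ∑ z', A z z' * ((∑ u', I z' u') * ∑ u, S z u) := by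
    have e1 : ∀ u, (∑ u', ∑ z, ∑ z', A z z' * (I z' u' * S z u)) =
        ∑ z, ∑ z', A z z' * ((∑ u', I z' u') * S z u) := by
      intro u
      rw [Finset.sum_comm]
      refine Finset.sum_congr rfl fun z _ => ?_
      rw [Finset.sum_comm]
      refine Finset.sum_congr rfl fun z' _ => ?_
      rw [Finset.sum_mul, Finset.mul_sum]
    simp_rw [e1]
    rw [Finset.sum_comm]
    refine Finset.sum_congr rfl fun z _ => ?_
    rw [Finset.sum_comm]
    refine Finset.sum_congr rfl fun z' _ => ?_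
    rw [Finset.mul_sum, Finset.mul_sum]
  rw [h2]
  have h3 : ∀ z z', A z z' * ((∑ u', I z' u') * ∑ u, S z u) ≤
      A z z' * (3 * D.T ^ 2800 * D.T ^ 1756) := by
    intro z z'
    by_cases hz : D.Same f z z' ∧ D.lv z < D.lv v ∧ z ∈ D.N v ∧ z' ∈ D.N v
    · refine mul_le_mul_of_nonneg_left ?_ (ds_ind _)
      have h4 := ds_nb hD z' (D.lv v)
      have h5 := wC_aux v z h hz.2.1 hT
      exact mul_le_mul h4 h5 (Finset.sum_nonneg fun u _ => hS0 z u) (by positivity)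
    · have h4 : A z z' = 0 := by
        rw [hA]
        exact if_neg hz
      rw [h4, zero_mul, zero_mul]
  refine (Finset.sum_le_sum fun z _ => Finset.sum_le_sum fun z' _ => h3 z z').trans ?_
  have h4 : (∑ z, ∑ z', A z z') ≤ D.T ^ 800 * D.T ^ 1605 := by
    have h5 : ∀ z z', A z z' = if D.Same f z z' ∧ D.lv z < D.lv v then D.wM v v z z' else 0 := by
      intro z z'
      rw [hA]
      unfold wM
      by_cases h6 : D.Same f z z' <;> by_cases h7 : D.lv z < D.lv v <;> simp [h6, h7]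
    simp_rw [h5]
    refine (ds_parts (D.lv v) f (D.wM v v) fun i hi => (h i hi).sM v v (Or.inl rfl)).trans ?_
    exact mul_le_mul_of_nonneg_right (ds_lv hD v) (by positivity)
  have h5 : (∑ z, ∑ z', A z z' * (3 * D.T ^ 2800 * D.T ^ 1756)) =
      (∑ z, ∑ z', A z z') * (3 * D.T ^ 2800 * D.T ^ 1756) := by
    rw [Finset.sum_mul]
    refine Finset.sum_congr rfl fun z _ => ?_
    rw [Finset.sum_mul]
  rw [h5]
  refine (mul_le_mul_of_nonneg_right h4 (by positivity)).trans ?_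
  have h6 : D.T ^ 800 * D.T ^ 1605 * (3 * D.T ^ 2800 * D.T ^ 1756) = 3 * D.T ^ 6961 := by
    have : D.T ^ 6961 = D.T ^ 800 * D.T ^ 1605 * D.T ^ 2800 * D.T ^ 1756 := by
      rw [← pow_add, ← pow_add, ← pow_add]
    rw [this]
    ring
  rw [h6]
  exact num_pow hD (by norm_num) (by norm_num)

/-- Monochromatic pairs `(u, u')` with `E3`. -/
theorem cp_le (hD : D.Ok) {f : V → Option (Fin D.k × ℕ)} {m : ℕ} (hm : m ≤ D.M) (v : V)
    (h : ∀ i, i < D.lv v → D.DStat f i) (hp : D.ProgS f (D.lv v) m) :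
    D.S2 f (D.lv v) (D.wC f v) ≤ D.T ^ 3006 := by
  have hT := T0 hD
  refine (hp.sC v rfl).trans ((bd2_le hD f (D.lv v) hm (wC_nonneg f v) (by positivity)
    (sum_wC hD v h)).trans ?_)
  have h1 : D.rho * D.T ^ 7000 ≤ 2 * D.T ^ 3002 := rho_pow hD (by norm_num)
  have h2 : (1 : ℝ) * D.T ^ 2556 ≤ D.T ^ 3002 := num_pow hD (by norm_num) (by norm_num)
  have h3 : 78 * D.T ^ 3004 ≤ D.T ^ 3006 := num_pow hD (by norm_num) (by norm_num)
  have h4 : D.T ^ 3004 = D.T ^ 3002 * D.T ^ 2 := by rw [← pow_add]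
  have h5 : D.T ^ 150 * D.T ^ 2406 = D.T ^ 2556 := by rw [← pow_add]
  calc 26 * D.T ^ 2 * (D.rho * D.T ^ 7000 + D.T ^ 150 * D.T ^ 2406)
      = 26 * D.T ^ 2 * (D.rho * D.T ^ 7000 + D.T ^ 2556) := by rw [h5]
    _ ≤ 26 * D.T ^ 2 * (2 * D.T ^ 3002 + D.T ^ 3002) := by
        refine mul_le_mul_of_nonneg_left ?_ (by positivity)
        linarith
    _ = 78 * D.T ^ 3004 := by rw [h4]; ring
    _ ≤ D.T ^ 3006 := h3

/-- Conflicts of a vertex. -/
theorem cf_count (hD : D.Ok) {f : V → Option (Fin D.k × ℕ)} (v : V)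
    (h : ∀ i, i < D.lv v → D.DStat f i) :
    ((univ.filter fun x => D.Cf f v x).card : ℝ) ≤ 1000 * D.T ^ 3989 := by
  have hT := T0 hD
  set s : ℝ := D.T ^ 2385 with hs
  have hp : ∀ x z z', (0 : ℝ) ≤ if D.Same f z z' ∧ D.lv z < D.lv v then
      (if ((z ∈ D.N v ∧ z' ∈ D.N v) ∧ ¬ D.Spc z z') ∧ x ∈ cN D.N z z' ∧ D.lv x = D.lv v ∧
        x ≠ v ∧ D.cod x v < s then (1 : ℝ) else 0) else 0 := by
    intro x z z'
    split_ifs <;> norm_num
  have h1 : ∀ x, (if D.Cf f v x then (1 : ℝ) else 0) ≤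
      ∑ z, ∑ z', if D.Same f z z' ∧ D.lv z < D.lv v then
        (if ((z ∈ D.N v ∧ z' ∈ D.N v) ∧ ¬ D.Spc z z') ∧ x ∈ cN D.N z z' ∧ D.lv x = D.lv v ∧
          x ≠ v ∧ D.cod x v < s then (1 : ℝ) else 0) else 0 := by
    intro x
    split_ifs with hx
    · obtain ⟨h2, h3, h4, z, z', h5, h6, h7, h8, h9⟩ := hx
      rw [mem_cN] at h8 h9
      have h10 : D.cod x v < s := by
        rw [cod_comm hD]
        by_contra h11
        exact h4 ⟨h2.symm, Or.inr (not_lt.1 h11)⟩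
      refine le_trans ?_ (Finset.single_le_sum
        (fun z _ => Finset.sum_nonneg fun z' _ => hp x z z') (mem_univ z))
      refine le_trans ?_ (Finset.single_le_sum (fun z' _ => hp x z z') (mem_univ z'))
      rw [if_pos ⟨h5, h7⟩, if_pos ⟨⟨⟨h8.1, h9.1⟩, h6⟩,
        mem_cN.2 ⟨hD.N_symm _ _ h8.2, hD.N_symm _ _ h9.2⟩, h3, h2, h10⟩]
    · exact Finset.sum_nonneg fun z _ => Finset.sum_nonneg fun z' _ => hp x z z'
  rw [Finset.natCast_card_filter]
  refine (Finset.sum_le_sum fun x _ => h1 x).trans ?_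
  have h2 : (∑ x, ∑ z, ∑ z', if D.Same f z z' ∧ D.lv z < D.lv v then
        (if ((z ∈ D.N v ∧ z' ∈ D.N v) ∧ ¬ D.Spc z z') ∧ x ∈ cN D.N z z' ∧ D.lv x = D.lv v ∧
          x ≠ v ∧ D.cod x v < s then (1 : ℝ) else 0) else 0) =
      ∑ z, ∑ z', if D.Same f z z' ∧ D.lv z < D.lv v then D.wQ v s (D.lv v) z z' else 0 := by
    rw [Finset.sum_comm]
    refine Finset.sum_congr rfl fun z _ => ?_
    rw [Finset.sum_comm]
    refine Finset.sum_congr rfl fun z' _ => ?_
    by_cases h3 : D.Same f z z' ∧ D.lv z < D.lv v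
    · simp only [if_pos h3]
      unfold wQ
      by_cases h4 : (z ∈ D.N v ∧ z' ∈ D.N v) ∧ ¬ D.Spc z z'
      · rw [if_pos h4]
        have h5 : ((cN D.N z z').filter fun x => D.lv x = D.lv v ∧ x ≠ v ∧ D.cod x v < s) =
            univ.filter fun x => x ∈ cN D.N z z' ∧ D.lv x = D.lv v ∧ x ≠ v ∧
              D.cod x v < s := by
          ext x
          simp only [mem_filter, mem_univ, true_and]
        rw [h5, Finset.natCast_card_filter]
        refine Finset.sum_congr rfl fun x _ => ?_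
        by_cases h6 : x ∈ cN D.N z z' ∧ D.lv x = D.lv v ∧ x ≠ v ∧ D.cod x v < s
        · rw [if_pos ⟨h4, h6⟩, if_pos h6]
        · rw [if_neg (fun h7 => h6 h7.2), if_neg h6]
      · rw [if_neg h4]
        refine Finset.sum_eq_zero fun x _ => ?_
        rw [if_neg (fun h7 => h4 h7.1)]
    · simp only [if_neg h3, Finset.sum_const_zero]
  rw [h2]
  refine (ds_parts (D.lv v) f (D.wQ v s (D.lv v))
    fun i hi => (h i hi).sQ v s (D.lv v) (Or.inl rfl)).trans ?_
  have h3 : (0 : ℝ) ≤ 1000 * (s * D.T ^ 804) := by positivity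
  refine (mul_le_mul_of_nonneg_right (ds_lv hD v) h3).trans (le_of_eq ?_)
  have h4 : D.T ^ 3989 = D.T ^ 800 * D.T ^ 2385 * D.T ^ 804 := by
    rw [← pow_add, ← pow_add]
  rw [h4, hs]
  ring

end OData

end

end Pool.Agent.AcyK
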