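import Pool.Agent.AcyK.Tools

/-! # Consequences of `Ok` and `Inv` (module BA) -/

set_option autoImplicit false
set_option linter.unusedSectionVars false

namespace Pool.Agent.AcyK

open Finset
open Pool.Agent.Acy (IsPM wt Ex Pr mean)
open scoped Classical

universe u v

variable {Q ι : Type u} [Fintype Q] [DecidableEq Q] [Fintype ι] [DecidableEq ι]

namespace NibData

variable {D : NibData Q ι}

section ok

variable (hD : D.Ok)

include hD

theorem k_pos : 0 < D.k := by
  have h1 := hD.k_lo
  have h2 : (0 : ℝ) < D.T ^ 3999 := pow_pos hD.big.pos _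
  have h3 : (0 : ℝ) < D.k := lt_of_lt_of_le h2 h1
  exact_mod_cast h3

theorem k_pos' : (0 : ℝ) < D.k := by
  exact_mod_cast k_pos hD

theorem k_inv_le : 1 / (D.k : ℝ) ≤ 1 / D.T ^ 3999 :=
  one_div_le_one_div_of_le (pow_pos hD.big.pos _) hD.k_lo

theorem exp_h_le (x y : Q) : Real.exp (Real.log D.T / 10 * D.h x y) ≤ D.T / 10000 := by
  have h1 : Real.log D.T / 10 * D.h x y ≤ Real.log D.T / 5 := by
    have h2 := hD.h_le x y
    have h3 := hD.big.log_pos
    nlinarith
  exact (Real.exp_le_exp.mpr h1).trans hD.big.exp_fifth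

theorem K_ge (x y : Q) : -1 ≤ D.K x y := by
  rcases hD.K_cases x y with h | h
  · rw [h]
  · linarith

theorem one_add_K_le (x y : Q) : 1 + D.K x y ≤ D.T / 10000 := by
  have hT := hD.big.big
  rcases hD.K_cases x y with h | h
  · rw [h]
    norm_num at hT ⊢
    linarith
  · exact (hD.K_exp x y (by linarith)).trans (exp_h_le hD x y)

theorem K_le (x y : Q) : D.K x y ≤ D.T := by
  have h1 := one_add_K_le hD x y
  have h2 := hD.big.pos
  linarith

theorem K_abs (x y : Q) : |D.K x y| ≤ D.T := by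
  have h1 := K_ge hD x y
  have h2 := hD.big.one_le
  exact abs_le.mpr ⟨by linarith, K_le hD x y⟩

theorem a_nonneg (b : Bool) (x y : Q) : 0 ≤ D.a b x y := by
  have h1 := K_ge hD y x
  have h2 := hD.h_nonneg y x
  cases b
  · simp only [a, Bool.false_eq_true, if_false]
    exact mul_nonneg (by linarith) h2
  · simp only [a, if_true]
    split_ifs <;> norm_num

theorem a_le (b : Bool) (x y : Q) : D.a b x y ≤ D.T := by
  have h1 := one_add_K_le hD y x
  have h2 := hD.h_nonneg y x
  have h3 := hD.h_le y x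
  have hT := hD.big.big
  norm_num at hT
  have h4 := K_ge hD y x
  cases b
  · simp only [a, Bool.false_eq_true, if_false]
    nlinarith
  · simp only [a, if_true]
    split_ifs <;> linarith

theorem K_off' (x y : Q) (h : y ∉ D.R x) : D.K y x = 0 := by
  apply hD.K_off
  intro hc
  exact h (Finset.mem_filter.mpr ⟨mem_univ _, hc⟩)

theorem h_off' (x y : Q) (h : y ∉ D.R x) : D.h y x = 0 := by
  apply hD.h_off
  intro hc
  exact h (Finset.mem_filter.mpr ⟨mem_univ _, hc⟩)

theorem a_off (b : Bool) (x y : Q) (h : y ∉ D.R x) : D.a b x y = 0 := by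
  cases b
  · simp only [a, Bool.false_eq_true, if_false]
    rw [h_off' hD x y h, mul_zero]
  · simp only [a, if_true]
    rw [K_off' hD x y h]
    norm_num

theorem mem_R_symm (x y : Q) : x ∈ D.R y ↔ y ∈ D.R x := by
  simp only [R, Finset.mem_filter, Finset.mem_univ, true_and]
  exact ⟨fun h => hD.rp_symm _ _ h, fun h => hD.rp_symm _ _ h⟩

/-- From `1 + K ≤ exp ((l/10) h)`: `K ≤ (l/10) h (1 + K)`. -/
theorem K_abs_le (x y : Q) :
    |D.K y x| ≤ Real.log D.T / 10 * D.a false x y + D.a true x y := by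
  have hl := hD.big.log_pos
  have hh := hD.h_nonneg y x
  rcases hD.K_cases y x with h | h
  · have h1 : D.a true x y = 1 := by simp [a, h]
    have h2 := a_nonneg hD false x y
    rw [h, h1]
    have : |(-1 : ℝ)| = 1 := by norm_num
    rw [this]
    have : 0 ≤ Real.log D.T / 10 * D.a false x y := by positivity
    linarith
  · have h0 : D.K y x ≠ -1 := by linarith
    have h1 := hD.K_exp y x h0
    have h2 := a_nonneg hD true x y
    have h3 : D.a false x y = (2 + D.K y x) * D.h y x := by simp [a]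
    rw [abs_of_nonneg h, h3]
    -- log (1 + K) ≤ (l/10) h and log (1+K) ≥ K / (1+K)
    have h4 : Real.log (1 + D.K y x) ≤ Real.log D.T / 10 * D.h y x := by
      rw [Real.log_le_iff_le_exp (by linarith)]
      exact h1
    have h5 : 1 - (1 + D.K y x)⁻¹ ≤ Real.log (1 + D.K y x) :=
      Real.one_sub_inv_le_log_of_pos (by linarith)
    have h6 : D.K y x = (1 + D.K y x) * (1 - (1 + D.K y x)⁻¹) := by
      have : (1 + D.K y x) ≠ 0 := by linarith
      field_simp
      ring
    have h7 : D.K y x ≤ (1 + D.K y x) * (Real.log D.T / 10 * D.h y x) := by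
      calc D.K y x = (1 + D.K y x) * (1 - (1 + D.K y x)⁻¹) := h6
        _ ≤ (1 + D.K y x) * (Real.log D.T / 10 * D.h y x) :=
            mul_le_mul_of_nonneg_left (h5.trans h4) (by linarith)
    have h8 : (1 + D.K y x) * (Real.log D.T / 10 * D.h y x) ≤
        (2 + D.K y x) * (Real.log D.T / 10 * D.h y x) :=
      mul_le_mul_of_nonneg_right (by linarith) (by positivity)
    have h9 : (2 + D.K y x) * (Real.log D.T / 10 * D.h y x) =
        Real.log D.T / 10 * ((2 + D.K y x) * D.h y x) := by ring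
    linarith

theorem chi_nonneg (x y : Q) : 0 ≤ D.chi x y := by
  unfold chi
  have := K_ge hD x y
  split_ifs
  · linarith
  · exact le_rfl

theorem chi_le (x y : Q) : D.chi x y ≤ D.T := by
  unfold chi
  have h1 := one_add_K_le hD x y
  have h2 := hD.big.pos
  split_ifs
  · linarith
  · exact h2.le

theorem chi_symm (x y : Q) : D.chi x y = D.chi y x := by
  unfold chi
  rw [hD.h_symm x y, hD.K_symm x y]

theorem q_sub {m : ℕ} (hm : m ≤ D.M) : D.T ^ 133 ≤ (D.q : ℝ) - m := by
  have h1 := hD.M_le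
  have h2 : (m : ℝ) ≤ D.M := by exact_mod_cast hm
  linarith

theorem t_pos {m : ℕ} (hm : m ≤ D.M) : 0 < D.t m := by
  have h1 := q_sub hD hm
  have h2 : 0 < D.T ^ 133 := pow_pos hD.big.pos _
  unfold t
  exact one_div_pos.mpr (by linarith)

theorem t_le {m : ℕ} (hm : m ≤ D.M) : D.t m ≤ 1 / D.T ^ 133 := by
  have h1 := q_sub hD hm
  have h2 : 0 < D.T ^ 133 := pow_pos hD.big.pos _
  unfold t
  exact one_div_le_one_div_of_le h2 h1

theorem M_le_T : (D.M : ℝ) ≤ D.T ^ 150 := by
  have h1 := hD.M_le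
  have h2 := hD.q_hi
  have h3 : 0 < D.T ^ 133 := pow_pos hD.big.pos _
  linarith

theorem m_le_T {m : ℕ} (hm : m ≤ D.M) : (m : ℝ) ≤ D.T ^ 150 := by
  have h1 := M_le_T hD
  have h2 : (m : ℝ) ≤ D.M := by exact_mod_cast hm
  linarith

theorem sg_nonneg {m : ℕ} (hm : m ≤ D.M) : 0 ≤ D.sg m := by
  unfold sg
  refine Finset.sum_nonneg fun i hi => ?_
  have : i < m := Finset.mem_range.mp hi
  exact (t_pos hD (by omega)).le

/-- `1/n ≤ log (n/(n-1))`, telescoping: `sg m ≤ log q ≤ 150 log T`. -/
theorem sg_le {m : ℕ} (hm : m ≤ D.M) : D.sg m ≤ D.T / 100 := by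
  have hT0 := hD.big.pos
  have hT1 := hD.big.one_le
  have h133 : (1 : ℝ) ≤ D.T ^ 133 := one_le_pow₀ hT1
  have key : ∀ n, n ≤ m → D.sg n ≤ Real.log D.q - Real.log ((D.q : ℝ) - n) := by
    intro n
    induction n with
    | zero =>
      intro _
      simp [sg]
    | succ n ih =>
      intro hn
      have h1 := ih (by omega)
      have h2 := q_sub hD (m := n) (by omega)
      have h3 := q_sub hD (m := n + 1) (by omega)
      push_cast at h3
      have h4 : D.sg (n + 1) = D.sg n + D.t n := by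
        unfold sg
        rw [Finset.sum_range_succ]
      rw [h4]
      have h5 : (0 : ℝ) < (D.q : ℝ) - n := by linarith
      have h6 : (0 : ℝ) < (D.q : ℝ) - (n + 1) := by linarith
      have h7 : D.t n ≤ Real.log ((D.q : ℝ) - n) - Real.log ((D.q : ℝ) - (n + 1)) := by
        rw [← Real.log_div h5.ne' h6.ne']
        have h8 := Real.one_sub_inv_le_log_of_pos (div_pos h5 h6)
        refine le_trans (le_of_eq ?_) h8
        unfold t
        rw [inv_div]
        field_simp
        ring
      push_cast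
      linarith
  have h1 := key m le_rfl
  have h2 := q_sub hD hm
  have h3 : 0 ≤ Real.log ((D.q : ℝ) - m) := Real.log_nonneg (by linarith)
  have hq : (0 : ℝ) < D.q := by
    have := hD.M_le
    have h4 : (0 : ℝ) ≤ D.M := Nat.cast_nonneg _
    linarith
  have h4 : Real.log D.q ≤ 150 * Real.log D.T := by
    have h5 := Real.log_le_log hq hD.q_hi
    rw [Real.log_pow] at h5
    push_cast at h5
    exact h5
  have h5 := hD.big.log_le
  linarith

theorem two_t_le {m : ℕ} (hm : m ≤ D.M) : 2 * D.t m ≤ 1 := by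
  have h1 := t_le hD hm
  have h2 := hD.big.small (n := 133) (by norm_num)
  linarith

theorem lawA_isPM {m : ℕ} (hm : m ≤ D.M) : IsPM (D.lawA m : Q → Option Bool → ℝ) := by
  have h1 := t_pos hD hm
  have h2 := two_t_le hD hm
  refine ⟨fun i e => ?_, fun i => ?_⟩
  · unfold lawA
    split_ifs
    · linarith
    · exact h1.le
  · rw [Fintype.sum_option, Fintype.sum_bool]
    unfold lawA
    simp
    ring

end ok

theorem sg_succ (m : ℕ) : D.sg (m + 1) = D.sg m + D.t m := by
  unfold sg
  rw [Finset.sum_range_succ]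

/-- Selected vertices. -/
theorem LL_eq (S : NState Q D.k) (lam : Q → Option Bool) :
    D.LL S lam = Sel S.col lam true ∪ Sel S.col lam false := by
  ext u
  simp only [LL, Sel, mem_filter, mem_univ, true_and, mem_union]
  rcases hl : lam u with _ | b
  · simp
  · cases b <;> simp

theorem Sel_disj (S : NState Q D.k) (lam : Q → Option Bool) :
    Disjoint (Sel S.col lam true) (Sel S.col lam false) := by
  rw [Finset.disjoint_left]
  intro u h1 h2
  simp only [Sel, mem_filter, mem_univ, true_and] at h1 h2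
  rw [h1.2] at h2
  simpa using h2.2

theorem U1_eq (S : NState Q D.k) (lam : Q → Option Bool) :
    D.U1 S lam = Un S.col \ Sel S.col lam true := by
  ext u
  simp only [U1, Un, Sel, mem_filter, mem_univ, true_and, mem_sdiff, not_and]
  tauto

theorem Sel_sub (S : NState Q D.k) (lam : Q → Option Bool) (b : Bool) :
    Sel S.col lam b ⊆ Un S.col := by
  intro u hu
  simp only [Sel, Un, mem_filter, mem_univ, true_and] at hu ⊢
  exact hu.1

theorem U1_sub (S : NState Q D.k) (lam : Q → Option Bool) : D.U1 S lam ⊆ Un S.col := by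
  rw [U1_eq]
  exact sdiff_subset

theorem LL_sub (S : NState Q D.k) (lam : Q → Option Bool) : D.LL S lam ⊆ Un S.col := by
  rw [LL_eq]
  exact union_subset (Sel_sub S lam true) (Sel_sub S lam false)

theorem U1_union (S : NState Q D.k) (lam : Q → Option Bool) :
    D.U1 S lam ∪ Sel S.col lam true = Un S.col := by
  rw [U1_eq]
  exact sdiff_union_of_subset (Sel_sub S lam true)

theorem U1_disj (S : NState Q D.k) (lam : Q → Option Bool) :
    Disjoint (D.U1 S lam) (Sel S.col lam true) := by
  rw [U1_eq]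
  exact sdiff_disjoint

/-- The uncoloured vertices after the round. -/
theorem Un_step (S : NState Q D.k) (m : ℕ) (lam : Q → Option Bool) (ω : Q → Fin D.k) :
    Un (D.step S m lam ω).col = D.U1 S lam := by
  ext u
  simp only [Un, U1, step, updCol, mem_filter, mem_univ, true_and]
  by_cases h : S.col u = none ∧ lam u = some true
  · rw [if_pos h]
    simp [h.1, h.2]
  · rw [if_neg h]
    constructor
    · intro h1
      exact ⟨h1, fun h2 => h ⟨h1, h2⟩⟩
    · intro h1
      exact h1.1

/-- The law of a vertex selected for a real pick. -/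
theorem p_real (S : NState Q D.k) {lam : Q → Option Bool} {u : Q} (h : lam u = some true)
    (c : Fin D.k) : D.p S lam u c = D.pa S u c := by
  unfold p
  rw [if_neg (by rw [h]; simp)]

theorem p_phantom (S : NState Q D.k) {lam : Q → Option Bool} {u : Q} (h : lam u = some false)
    (c : Fin D.k) : D.p S lam u c = D.pf S u c := by
  unfold p
  rw [if_pos h]

section inv

variable (hD : D.Ok) {S : NState Q D.k} {m : ℕ} (hI : D.Inv S m) (hm : m ≤ D.M)

include hD hI hm

theorem v_le' (x : Q) (c : Fin D.k) : S.v x c ≤ D.T / 1000 := by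
  have h1 := hI.v_hi x c
  have h2 := hI.be_le x c
  have h3 := hI.ac_true x c
  have h4 := hD.big.log_pos
  have h5 : Real.log D.T / 10 * S.be x c + 2 * S.ac true x c ≤ 2 * Real.log D.T / 5 := by
    nlinarith
  exact (h1.trans (Real.exp_le_exp.mpr h5)).trans hD.big.exp_two_fifth

theorem v_le (x : Q) (c : Fin D.k) : S.v x c ≤ D.T := by
  have h1 := v_le' hD hI hm x c
  have h2 := hD.big.pos
  linarith

theorem v_lo' (x : Q) (c : Fin D.k) : -(1 / 1000000) ≤ S.v x c := by
  have h1 := hI.v_lo x c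
  have h2 := hD.big.small (n := 100) (by norm_num)
  linarith

theorem v_abs (x : Q) (c : Fin D.k) : |S.v x c| ≤ D.T := by
  have h1 := v_lo' hD hI hm x c
  have h2 := hD.big.one_le
  exact abs_le.mpr ⟨by linarith, v_le hD hI hm x c⟩

/-- Most of the mass is alive. -/
theorem mA_ge (x : Q) : 9 / 10 * (D.k : ℝ) ≤ D.mA S x := by
  have hT := hD.big
  have hT0 := hT.pos
  have hk := k_pos' hD
  have hTb := hT.big
  norm_num at hTb
  have hjq : (m : ℝ) ≤ D.T ^ 150 := m_le_T hD hm
  have hj0 : (0 : ℝ) ≤ m := Nat.cast_nonneg m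
  -- small quantities
  have e1 : (m : ℝ) * D.k / D.T ^ 180 ≤ D.k / 1000000 := by
    rw [div_le_div_iff₀ (by positivity) (by norm_num)]
    have h1 : D.T ^ 180 = D.T ^ 150 * (D.T ^ 29 * D.T) := by ring
    have h2 : (1 : ℝ) ≤ D.T ^ 29 := one_le_pow₀ hT.one_le
    have h3 : (1000000 : ℝ) ≤ D.T ^ 29 * D.T := by nlinarith
    have h4 : (m : ℝ) * 1000000 ≤ D.T ^ 180 := by
      rw [h1]
      exact mul_le_mul hjq h3 (by norm_num) (by positivity)
    nlinarith
  set ε : ℝ := 1 / D.T ^ 100 with hε
  have hε0 : 0 < ε := by positivity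
  have e2 : ε ≤ 1 / 1000000 := hT.small (by norm_num)
  obtain ⟨O, hO, hdead⟩ := hI.dead x
  have e3 : D.T * (O.card : ℝ) ≤ D.k / 1000000 := by
    have h1 : (m : ℝ) * D.k / D.T ^ 165 ≤ D.k / D.T ^ 15 := by
      rw [div_le_div_iff₀ (by positivity) (by positivity)]
      have h2 : D.T ^ 165 = D.T ^ 150 * D.T ^ 15 := by ring
      rw [h2]
      have h3 : (m : ℝ) * D.T ^ 15 ≤ D.T ^ 150 * D.T ^ 15 :=
        mul_le_mul_of_nonneg_right hjq (by positivity)
      nlinarith
    have h2 : D.T * (O.card : ℝ) ≤ D.T * (D.k / D.T ^ 15) :=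
      mul_le_mul_of_nonneg_left (hO.trans h1) hT0.le
    have h3 : D.T * (D.k / D.T ^ 15) = D.k * (1 / D.T ^ 14) := by
      field_simp
    have h4 := hT.small (n := 14) (by norm_num)
    rw [h3] at h2
    nlinarith
  -- number of colours with large double count
  set N : Finset (Fin D.k) := univ.filter fun c => D.k / D.T ^ 20 < S.pd x c with hN
  have e4 : D.T * (N.card : ℝ) ≤ D.k / 1000000 := by
    have h1 : (N.card : ℝ) * (D.k / D.T ^ 20) ≤ ∑ c, S.pd x c := by
      calc (N.card : ℝ) * (D.k / D.T ^ 20) = ∑ c ∈ N, (D.k / D.T ^ 20 : ℝ) := by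
            rw [Finset.sum_const, nsmul_eq_mul]
        _ ≤ ∑ c ∈ N, S.pd x c := by
            refine Finset.sum_le_sum fun c hc => ?_
            exact (Finset.mem_filter.mp hc).2.le
        _ ≤ ∑ c, S.pd x c :=
            Finset.sum_le_sum_of_subset_of_nonneg (Finset.subset_univ _)
              fun c _ _ => hI.pd_nonneg x c
    have h2 : (N.card : ℝ) * (D.k / D.T ^ 20) ≤ D.T ^ 150 * D.T ^ 7810 :=
      h1.trans ((hI.pds x).trans (mul_le_mul_of_nonneg_right hjq (by positivity)))
    have h3 : (N.card : ℝ) * D.k ≤ D.T ^ 7980 := by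
      have h4 : (N.card : ℝ) * (D.k / D.T ^ 20) = (N.card : ℝ) * D.k / D.T ^ 20 := by ring
      rw [h4, div_le_iff₀ (by positivity)] at h2
      calc (N.card : ℝ) * D.k ≤ D.T ^ 150 * D.T ^ 7810 * D.T ^ 20 := h2
        _ = D.T ^ 7980 := by ring
    have h5 := hD.k_lo
    have h6 : (N.card : ℝ) * D.T ^ 3999 ≤ D.T ^ 3981 * D.T ^ 3999 := by
      calc (N.card : ℝ) * D.T ^ 3999 ≤ (N.card : ℝ) * D.k :=
            mul_le_mul_of_nonneg_left h5 (Nat.cast_nonneg _)
        _ ≤ D.T ^ 7980 := h3
        _ = D.T ^ 3981 * D.T ^ 3999 := by rw [← pow_add]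
    have h7 : (N.card : ℝ) ≤ D.T ^ 3981 := le_of_mul_le_mul_right h6 (by positivity)
    have h8 : D.T * (N.card : ℝ) ≤ D.T ^ 3982 := by
      calc D.T * (N.card : ℝ) ≤ D.T * D.T ^ 3981 := mul_le_mul_of_nonneg_left h7 hT0.le
        _ = D.T ^ 3982 := by rw [← pow_succ']
    have h9 : D.T ^ 3999 = D.T ^ 3982 * (D.T ^ 16 * D.T) := by
      rw [← pow_succ, ← pow_add]
    have h10 : (1 : ℝ) ≤ D.T ^ 16 := one_le_pow₀ hT.one_le
    have h11 : (1000000 : ℝ) ≤ D.T ^ 16 * D.T := by nlinarith
    have h12 : D.T ^ 3982 * 1000000 ≤ D.k := by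
      refine le_trans ?_ h5
      rw [h9]
      exact mul_le_mul_of_nonneg_left h11 (by positivity)
    linarith
  -- the budget sum
  have hsumv : ∑ c, S.v x c ≤ D.k + D.k / 1000000 := by
    have := (abs_le.mp (hI.mass x)).2
    linarith
  have hsumv' : (D.k : ℝ) - D.k / 1000000 ≤ ∑ c, S.v x c := by
    have := (abs_le.mp (hI.mass x)).1
    linarith
  have hsumε : ∑ _c : Fin D.k, ε = ε * D.k := by
    rw [Finset.sum_const, Finset.card_univ, Fintype.card_fin, nsmul_eq_mul, mul_comm]
  have hεk : ε * D.k ≤ D.k / 1000000 := by nlinarith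
  have hac : ∑ c, S.v x c * S.ac false x c ≤ 1 / 50 * (D.k + D.k / 1000000 + D.k / 1000000) := by
    calc ∑ c, S.v x c * S.ac false x c ≤ ∑ c, 1 / 50 * (S.v x c + ε) := by
          refine Finset.sum_le_sum fun c _ => ?_
          have h1 := hI.v_lo x c
          have h2 := hI.ac_false x c
          have h3 := hI.ac_nonneg false x c
          have h4 : 0 ≤ S.v x c + ε := by linarith
          nlinarith
      _ = 1 / 50 * (∑ c, S.v x c + ε * D.k) := by
          rw [← Finset.mul_sum, Finset.sum_add_distrib, hsumε]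
      _ ≤ _ := by
          have : ∑ c, S.v x c + ε * D.k ≤ D.k + D.k / 1000000 + D.k / 1000000 := by linarith
          linarith
  have hbe : ∑ c, S.v x c * S.be x c ≤
      D.k / 1000000 + 2 * (1 / 50 * (D.k + D.k / 1000000 + D.k / 1000000)) := by
    have h1 := (hI.bud x).trans e1
    have h2 : ∑ c, S.v x c * (S.be x c - 2 * S.ac false x c) =
        ∑ c, S.v x c * S.be x c - 2 * ∑ c, S.v x c * S.ac false x c := by
      rw [Finset.mul_sum, ← Finset.sum_sub_distrib]
      exact Finset.sum_congr rfl fun c _ => by ring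
    rw [h2] at h1
    linarith
  -- the dead mass
  have hdm : ∑ c, (if S.al x c then 0 else S.v x c) ≤
      ε * D.k + (∑ c, S.v x c * S.be x c + 3 * (ε * D.k)) + D.T * N.card + D.T * O.card := by
    have h1 : ∀ c, (if S.al x c then 0 else S.v x c) ≤
        ε + (S.v x c * S.be x c + 3 * ε) + (if c ∈ N then D.T else 0) +
          (if c ∈ O then D.T else 0) := by
      intro c
      have h2 := hI.v_lo x c
      have h3 := hI.be_nonneg x c
      have h4 := hI.be_le x c
      have h5 := v_le hD hI hm x c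
      have h6 : 0 ≤ S.v x c + ε := by linarith
      have h7 : 0 ≤ (if c ∈ N then D.T else 0) := by split_ifs <;> linarith
      have h8 : 0 ≤ (if c ∈ O then D.T else 0) := by split_ifs <;> linarith
      have h9 : 0 ≤ S.v x c * S.be x c + 3 * ε := by
        have : S.v x c * S.be x c + 3 * ε = (S.v x c + ε) * S.be x c + ε * (3 - S.be x c) := by
          ring
        rw [this]
        have h10 : 0 ≤ ε * (3 - S.be x c) := mul_nonneg hε0.le (by linarith)
        have h11 : 0 ≤ (S.v x c + ε) * S.be x c := mul_nonneg h6 h3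
        linarith
      split_ifs with hal
      · linarith
      · linarith
      · linarith
      · linarith
      · rcases hdead c hal with h | h | h | h <;> linarith
      · rcases hdead c hal with h | h | h | h <;> linarith
      · rcases hdead c hal with h | h | h | h <;> linarith
      · rename_i hn ho
        rcases hdead c hal with h | h | h | h
        · linarith
        · have : S.v x c * S.be x c + 3 * ε =
              (S.v x c + ε) + (S.v x c + ε) * (S.be x c - 1) + ε * (3 - S.be x c) - 0 := by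
            ring
          have h10 : 0 ≤ ε * (3 - S.be x c) := mul_nonneg hε0.le (by linarith)
          have h11 : 0 ≤ (S.v x c + ε) * (S.be x c - 1) := mul_nonneg h6 (by linarith)
          linarith
        · exact absurd (show c ∈ N by rw [hN]; exact Finset.mem_filter.mpr ⟨mem_univ c, h⟩) hn
        · exact absurd h ho
    calc ∑ c, (if S.al x c then 0 else S.v x c)
        ≤ ∑ c, (ε + (S.v x c * S.be x c + 3 * ε) + (if c ∈ N then D.T else 0) +
          (if c ∈ O then D.T else 0)) := Finset.sum_le_sum fun c _ => h1 c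
      _ = _ := by
          rw [Finset.sum_add_distrib, Finset.sum_add_distrib, Finset.sum_add_distrib,
            Finset.sum_add_distrib, hsumε, ← Finset.sum_filter, ← Finset.sum_filter]
          simp only [Finset.sum_const, nsmul_eq_mul, Finset.card_univ, Fintype.card_fin,
            Finset.filter_mem_eq_inter, Finset.univ_inter]
          ring
  have hA : D.mA S x = ∑ c, S.v x c - ∑ c, (if S.al x c then 0 else S.v x c) := by
    rw [← Finset.sum_sub_distrib]
    refine Finset.sum_congr rfl fun c _ => ?_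
    split_ifs <;> ring
  rw [hA]
  linarith

theorem mA_pos (x : Q) : 0 < D.mA S x := by
  have h1 := mA_ge hD hI hm x
  have h2 := k_pos' hD
  linarith

theorem mP_bd (x : Q) : |D.mP S x - D.k| ≤ D.k / D.T ^ 29 := by
  have hT := hD.big
  have hT0 := hT.pos
  have hk := k_pos' hD
  have hTb := hT.big
  norm_num at hTb
  have hjq : (m : ℝ) ≤ D.T ^ 150 := m_le_T hD hm
  have h1 := abs_le.mp (hI.mass x)
  have h2 : (m : ℝ) * D.k / D.T ^ 180 ≤ D.k / D.T ^ 30 := by
    rw [div_le_div_iff₀ (by positivity) (by positivity)]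
    have h3 : D.T ^ 180 = D.T ^ 150 * D.T ^ 30 := by ring
    rw [h3]
    have h4 : (m : ℝ) * D.T ^ 30 ≤ D.T ^ 150 * D.T ^ 30 :=
      mul_le_mul_of_nonneg_right hjq (by positivity)
    nlinarith
  have h3 : ∑ c, S.v x c ≤ D.mP S x := Finset.sum_le_sum fun c _ => le_max_left _ _
  have h4 : D.mP S x ≤ ∑ c, S.v x c + D.k * (1 / D.T ^ 100) := by
    have h5 : D.mP S x ≤ ∑ c, (S.v x c + 1 / D.T ^ 100) := by
      refine Finset.sum_le_sum fun c _ => ?_
      have h6 := hI.v_lo x c
      have h7 : 0 < 1 / D.T ^ 100 := by positivity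
      exact max_le (by linarith) (by linarith)
    rw [Finset.sum_add_distrib, Finset.sum_const, Finset.card_univ, Fintype.card_fin,
      nsmul_eq_mul] at h5
    exact h5
  have h5 : D.k * (1 / D.T ^ 100) ≤ D.k / D.T ^ 30 := by
    rw [mul_one_div]
    exact div_le_div_of_nonneg_left hk.le (by positivity) (hT.pw (by norm_num))
  have h6 : 2 * (D.k / D.T ^ 30) ≤ D.k / D.T ^ 29 := by
    rw [mul_div_assoc', div_le_div_iff₀ (by positivity) (by positivity)]
    have h7 : D.T ^ 30 = D.T * D.T ^ 29 := by ring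
    rw [h7]
    have h8 : 0 < D.k * D.T ^ 29 := by positivity
    nlinarith
  have h7 : 0 ≤ D.k / D.T ^ 30 := by positivity
  rw [abs_le]
  constructor <;> linarith

theorem mP_bd' (x : Q) : |D.mP S x - D.k| ≤ D.k / 1000000 := by
  have h1 := mP_bd hD hI hm x
  have hk := k_pos' hD
  have h2 := hD.big.small (n := 29) (by norm_num)
  have h3 : (D.k : ℝ) / D.T ^ 29 = D.k * (1 / D.T ^ 29) := by ring
  rw [h3] at h1
  nlinarith

theorem mP_pos (x : Q) : 0 < D.mP S x := by
  have h1 := abs_le.mp (mP_bd' hD hI hm x)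
  have hk := k_pos' hD
  linarith

theorem pa_nonneg (x : Q) (c : Fin D.k) : 0 ≤ D.pa S x c := by
  unfold pa
  split_ifs with h
  · exact div_nonneg (hI.al_pos x c h).le (mA_pos hD hI hm x).le
  · exact le_rfl

theorem pf_nonneg (x : Q) (c : Fin D.k) : 0 ≤ D.pf S x c := by
  have hk := k_pos' hD
  have hP := mP_pos hD hI hm x
  have hA := mA_pos hD hI hm x
  unfold pf pa
  split_ifs with h
  · have hv := hI.al_pos x c h
    rw [max_eq_left hv.le, sub_nonneg, div_le_div_iff₀ hA hP]
    have h1 := abs_le.mp (mP_bd' hD hI hm x)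
    have h2 := mA_ge hD hI hm x
    nlinarith
  · rw [sub_zero]
    have : 0 ≤ max (S.v x c) 0 := le_max_right _ _
    positivity

theorem pa_le_v (x : Q) (c : Fin D.k) (h : S.al x c) : D.pa S x c ≤ 2 / D.k * S.v x c := by
  have h1 := mA_ge hD hI hm x
  have h2 := k_pos' hD
  have h3 := hI.al_pos x c h
  unfold pa
  rw [if_pos h]
  calc S.v x c / D.mA S x ≤ S.v x c / (D.k / 2) :=
        div_le_div_of_nonneg_left h3.le (by positivity) (by linarith)
    _ = 2 / D.k * S.v x c := by
        field_simp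

theorem pa_le (x : Q) (c : Fin D.k) : D.pa S x c ≤ 2 * D.T / D.k := by
  have h2 := k_pos' hD
  by_cases h : S.al x c
  · refine (pa_le_v hD hI hm x c h).trans ?_
    have h4 := v_le hD hI hm x c
    have h5 : (0 : ℝ) < 2 / D.k := by positivity
    calc 2 / D.k * S.v x c ≤ 2 / D.k * D.T := mul_le_mul_of_nonneg_left h4 h5.le
      _ = 2 * D.T / D.k := by ring
  · unfold pa
    rw [if_neg h]
    have := hD.big.pos
    positivity

theorem pf_le (x : Q) (c : Fin D.k) : D.pf S x c ≤ 2 * D.T / D.k := by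
  have hk := k_pos' hD
  have hT := hD.big.pos
  have h1 := pa_nonneg hD hI hm x c
  have h2 := abs_le.mp (mP_bd' hD hI hm x)
  have h3 := v_le' hD hI hm x c
  have h4 : 2 * max (S.v x c) 0 / D.mP S x ≤ 2 * D.T / D.k := by
    have h5 : max (S.v x c) 0 ≤ D.T / 1000 := max_le h3 (by positivity)
    have h6 : 0 ≤ max (S.v x c) 0 := le_max_right _ _
    rw [div_le_div_iff₀ (mP_pos hD hI hm x) hk]
    have h7 : 2 * max (S.v x c) 0 * D.k ≤ 2 * (D.T / 1000) * D.k :=
      mul_le_mul_of_nonneg_right (by linarith) hk.le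
    have h8 : 2 * (D.T / 1000) * D.k ≤ 2 * D.T * D.mP S x := by
      have : (D.k : ℝ) / 1000 ≤ D.mP S x := by linarith
      nlinarith
    linarith
  unfold pf
  linarith

theorem p_nonneg (lam : Q → Option Bool) (x : Q) (c : Fin D.k) : 0 ≤ D.p S lam x c := by
  unfold p
  split_ifs
  · exact pf_nonneg hD hI hm x c
  · exact pa_nonneg hD hI hm x c

theorem p_le (lam : Q → Option Bool) (x : Q) (c : Fin D.k) :
    D.p S lam x c ≤ 2 * D.T / D.k := by
  unfold p
  split_ifs
  · exact pf_le hD hI hm x c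
  · exact pa_le hD hI hm x c

theorem pa_sum (x : Q) : ∑ c, D.pa S x c = 1 := by
  have h1 : ∑ c, D.pa S x c = D.mA S x / D.mA S x := by
    unfold mA
    rw [Finset.sum_div]
    refine Finset.sum_congr rfl fun c _ => ?_
    unfold pa
    split_ifs
    · rfl
    · rw [zero_div]
  rw [h1, div_self (mA_pos hD hI hm x).ne']

theorem pf_sum (x : Q) : ∑ c, D.pf S x c = 1 := by
  unfold pf
  rw [Finset.sum_sub_distrib, pa_sum hD hI hm x]
  have h1 : ∑ c, 2 * max (S.v x c) 0 / D.mP S x = 2 * D.mP S x / D.mP S x := by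
    rw [← Finset.sum_div, ← Finset.mul_sum]
    rfl
  rw [h1, mul_div_assoc, div_self (mP_pos hD hI hm x).ne']
  norm_num

theorem p_isPM (lam : Q → Option Bool) : IsPM (D.p S lam) := by
  refine ⟨fun x c => p_nonneg hD hI hm lam x c, fun x => ?_⟩
  unfold p
  by_cases h : lam x = some false
  · simp only [h, if_true]
    exact pf_sum hD hI hm x
  · simp only [h, if_false]
    exact pa_sum hD hI hm x

theorem al_of_pa_pos (x : Q) (c : Fin D.k) (h : 0 < D.pa S x c) : S.al x c := by
  by_contra hc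
  unfold pa at h
  rw [if_neg hc] at h
  exact lt_irrefl _ h

/-- Absolute sums seen from an alive pair, one kind. -/
theorem sum_abs_a' (b : Bool) (x : Q) (c : Fin D.k) (h : S.al x c) :
    1 / (D.k : ℝ) * ∑ y ∈ Un S.col, D.a b x y * |S.v y c| ≤
      1 / D.k * (∑ y, D.a b x y) + 1 / 1000 := by
  have hT := hD.big
  have hT0 := hT.pos
  have hk := k_pos' hD
  have h6 : (0 : ℝ) < 1 / D.T ^ 100 := by positivity
  have h1 : ∑ y ∈ Un S.col, D.a b x y * |S.v y c| ≤
      ∑ y ∈ Un S.col, D.a b x y * S.v y c +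
        ∑ y, (if y ∈ D.R x then D.T * (2 * (1 / D.T ^ 100)) else 0) := by
    have h2 : ∑ y ∈ Un S.col, D.a b x y * |S.v y c| ≤
        ∑ y ∈ Un S.col, (D.a b x y * S.v y c +
          (if y ∈ D.R x then D.T * (2 * (1 / D.T ^ 100)) else 0)) := by
      refine Finset.sum_le_sum fun y _ => ?_
      have h3 := a_nonneg hD b x y
      have h4 := a_le hD b x y
      have h5 := hI.v_lo y c
      by_cases hy : y ∈ D.R x
      · rw [if_pos hy]
        have h7 : |S.v y c| ≤ S.v y c + 2 * (1 / D.T ^ 100) := by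
          rw [abs_le]
          constructor <;> linarith
        calc D.a b x y * |S.v y c| ≤ D.a b x y * (S.v y c + 2 * (1 / D.T ^ 100)) :=
              mul_le_mul_of_nonneg_left h7 h3
          _ = D.a b x y * S.v y c + D.a b x y * (2 * (1 / D.T ^ 100)) := by ring
          _ ≤ _ := by
              have := mul_le_mul_of_nonneg_right h4
                (show (0 : ℝ) ≤ 2 * (1 / D.T ^ 100) by positivity)
              linarith
      · rw [if_neg hy, a_off hD b x y hy]
        simp
    rw [Finset.sum_add_distrib] at h2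
    refine h2.trans ?_
    have h8 : ∑ y ∈ Un S.col, (if y ∈ D.R x then D.T * (2 * (1 / D.T ^ 100)) else 0) ≤
        ∑ y, (if y ∈ D.R x then D.T * (2 * (1 / D.T ^ 100)) else 0) := by
      refine Finset.sum_le_sum_of_subset_of_nonneg (Finset.subset_univ _) fun y _ _ => ?_
      split_ifs <;> positivity
    linarith
  have h2 : (∑ y, if y ∈ D.R x then D.T * (2 * (1 / D.T ^ 100)) else 0) ≤
      D.T ^ 4017 * (D.T * (2 * (1 / D.T ^ 100))) := by
    rw [← Finset.sum_filter, Finset.sum_const, nsmul_eq_mul]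
    have : (univ.filter fun y => y ∈ D.R x) = D.R x := by
      ext y
      simp
    rw [this]
    exact mul_le_mul_of_nonneg_right (hD.R_card x) (by positivity)
  have h3 : D.T ^ 4017 * (D.T * (2 * (1 / D.T ^ 100))) = 2 * D.T ^ 3918 := by
    field_simp
  have h4 : 1 / (D.k : ℝ) * (2 * D.T ^ 3918) ≤ 1 / 1000000 := by
    have h5 : 1 / (D.k : ℝ) * (2 * D.T ^ 3918) = 2 * D.T ^ 3918 / D.k := by ring
    rw [h5, div_le_div_iff₀ hk (by norm_num), one_mul]
    refine le_trans ?_ hD.k_lo
    have h7 : D.T ^ 3999 = D.T ^ 3918 * (D.T ^ 79 * D.T * D.T) := by ring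
    rw [h7]
    have h8 : (1 : ℝ) ≤ D.T ^ 79 := one_le_pow₀ hT.one_le
    have h9 := hT.big
    norm_num at h9
    have h10 : (2000000 : ℝ) ≤ D.T ^ 79 * D.T * D.T := by
      have : (1000000 : ℝ) ≤ D.T ^ 79 * D.T := by nlinarith
      nlinarith
    have h11 : 0 < D.T ^ 3918 := by positivity
    nlinarith
  -- the prediction
  have hp := hI.pred b x c h
  have hac := hI.ac_nonneg b x c
  have hm0 : (m : ℝ) / D.T ^ 180 ≤ 1 / 1000000 := by
    have h5 := m_le_T hD hm
    calc (m : ℝ) / D.T ^ 180 ≤ D.T ^ 150 / D.T ^ 180 :=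
          div_le_div_of_nonneg_right h5 (by positivity)
      _ = 1 / D.T ^ 30 := by
          rw [div_eq_div_iff (by positivity) (by positivity)]
          ring
      _ ≤ _ := hT.small (by norm_num)
  have hsg : D.sg m / D.T ^ 20 ≤ 1 / 1000000 := by
    have h5 := sg_le hD hm
    calc D.sg m / D.T ^ 20 ≤ D.T / D.T ^ 20 :=
          div_le_div_of_nonneg_right (by linarith) (by positivity)
      _ = 1 / D.T ^ 19 := by
          rw [div_eq_div_iff (by positivity) (by positivity)]
          ring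
      _ ≤ _ := hT.small (by norm_num)
  have hpd : 6 * D.T ^ 3 / D.k * S.pd x c ≤ 6 * (1 / 1000000) := by
    calc 6 * D.T ^ 3 / D.k * S.pd x c ≤ 6 * D.T ^ 3 / D.k * (D.k / D.T ^ 20) :=
          mul_le_mul_of_nonneg_left (hI.pd_al x c h) (by positivity)
      _ = 6 * (1 / D.T ^ 17) := by
          field_simp
      _ ≤ _ := by
          have := hT.small (n := 17) (by norm_num)
          linarith
  unfold Nf at hp
  have h5 := mul_le_mul_of_nonneg_left (h1.trans (add_le_add le_rfl (h2.trans h3.le)))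
    (show (0 : ℝ) ≤ 1 / D.k by positivity)
  rw [mul_add] at h5
  have h7 : 2 / (D.k : ℝ) * ∑ y ∈ Un S.col, D.a b x y * S.v y c =
      2 * (1 / D.k * ∑ y ∈ Un S.col, D.a b x y * S.v y c) := by ring
  have h8 : 2 / (D.k : ℝ) * (∑ y, D.a b x y) = 2 * (1 / D.k * ∑ y, D.a b x y) := by ring
  rw [h7, h8] at hp
  linarith

theorem sum_abs_a (b : Bool) (x : Q) (c : Fin D.k) (h : S.al x c) :
    1 / (D.k : ℝ) * ∑ y ∈ Un S.col, D.a b x y * |S.v y c| ≤ D.T / 100 := by
  have h1 := sum_abs_a' hD hI hm b x c h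
  have hk := k_pos' hD
  have hT := hD.big
  have hTb := hT.big
  norm_num at hTb
  have hl := hT.log_le
  cases b
  · have h2 : 1 / (D.k : ℝ) * (∑ y, D.a false x y) ≤ 1 / 200 := by
      calc 1 / (D.k : ℝ) * (∑ y, D.a false x y) ≤ 1 / D.k * (D.k / 200) :=
            mul_le_mul_of_nonneg_left (hD.h_sum x) (by positivity)
        _ = 1 / 200 := by field_simp
    linarith
  · have h2 : 1 / (D.k : ℝ) * (∑ y, D.a true x y) ≤ Real.log D.T / 80 := by
      calc 1 / (D.k : ℝ) * (∑ y, D.a true x y) ≤ 1 / D.k * (Real.log D.T / 80 * D.k) :=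
            mul_le_mul_of_nonneg_left (hD.cf_sum x) (by positivity)
        _ = Real.log D.T / 80 := by field_simp
    linarith

/-- Absolute sums seen from an alive pair. -/
theorem sum_abs_K (z : Q) (c : Fin D.k) (h : S.al z c) :
    1 / (D.k : ℝ) * ∑ y ∈ Un S.col, |D.K y z| * |S.v y c| ≤ D.T / 100 := by
  have hk := k_pos' hD
  have hT := hD.big
  have hTb := hT.big
  norm_num at hTb
  have hl := hT.log_le
  have hl0 := hT.log_pos
  have h1 := sum_abs_a' hD hI hm false z c h
  have h2 := sum_abs_a' hD hI hm true z c h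
  have h3 : 1 / (D.k : ℝ) * (∑ y, D.a false z y) ≤ 1 / 200 := by
    calc 1 / (D.k : ℝ) * (∑ y, D.a false z y) ≤ 1 / D.k * (D.k / 200) :=
          mul_le_mul_of_nonneg_left (hD.h_sum z) (by positivity)
      _ = 1 / 200 := by field_simp
  have h4 : 1 / (D.k : ℝ) * (∑ y, D.a true z y) ≤ Real.log D.T / 80 := by
    calc 1 / (D.k : ℝ) * (∑ y, D.a true z y) ≤ 1 / D.k * (Real.log D.T / 80 * D.k) :=
          mul_le_mul_of_nonneg_left (hD.cf_sum z) (by positivity)
      _ = Real.log D.T / 80 := by field_simp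
  have h5 : 1 / (D.k : ℝ) * ∑ y ∈ Un S.col, |D.K y z| * |S.v y c| ≤
      Real.log D.T / 10 * (1 / D.k * ∑ y ∈ Un S.col, D.a false z y * |S.v y c|) +
        1 / D.k * ∑ y ∈ Un S.col, D.a true z y * |S.v y c| := by
    have h6 : ∑ y ∈ Un S.col, |D.K y z| * |S.v y c| ≤
        ∑ y ∈ Un S.col, (Real.log D.T / 10 * (D.a false z y * |S.v y c|) +
          D.a true z y * |S.v y c|) := by
      refine Finset.sum_le_sum fun y _ => ?_
      have h7 := mul_le_mul_of_nonneg_right (K_abs_le hD z y) (abs_nonneg (S.v y c))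
      refine h7.trans (le_of_eq ?_)
      ring
    rw [Finset.sum_add_distrib, ← Finset.mul_sum] at h6
    have h7 := mul_le_mul_of_nonneg_left h6 (show (0 : ℝ) ≤ 1 / D.k by positivity)
    refine h7.trans (le_of_eq ?_)
    ring
  have h6 : Real.log D.T / 10 * (1 / D.k * ∑ y ∈ Un S.col, D.a false z y * |S.v y c|) ≤
      Real.log D.T / 10 * (1 / 200 + 1 / 1000) :=
    mul_le_mul_of_nonneg_left (by linarith) (by positivity)
  linarith

theorem pd_avg (z : Q) : 1 / (D.k : ℝ) * ∑ c, S.pd z c ≤ D.T ^ 7960 / D.k := by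
  have hk := k_pos' hD
  have hT0 := hD.big.pos
  have h1 := hI.pds z
  have h2 := m_le_T hD hm
  have h3 : ∑ c, S.pd z c ≤ D.T ^ 7960 := by
    calc ∑ c, S.pd z c ≤ m * D.T ^ 7810 := h1
      _ ≤ D.T ^ 150 * D.T ^ 7810 := mul_le_mul_of_nonneg_right h2 (by positivity)
      _ = D.T ^ 7960 := by rw [← pow_add]
  calc 1 / (D.k : ℝ) * ∑ c, S.pd z c ≤ 1 / D.k * D.T ^ 7960 :=
        mul_le_mul_of_nonneg_left h3 (by positivity)
    _ = _ := by ring

end inv

end NibData

end Pool.Agent.AcyK
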