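import Pool.Agent.AcyK.BasicA

/-! # Picks and centred sums (module BC) -/

set_option autoImplicit false
set_option linter.unusedSectionVars false

namespace Pool.Agent.AcyK

open Finset
open Pool.Agent.Acy (IsPM wt Ex Pr mean)
open scoped Classical

universe u v

section

variable {Q ι : Type u} [Fintype Q] [DecidableEq Q] [Fintype ι] [DecidableEq ι]

namespace NibData

variable {D : NibData Q ι}

section picks

variable (S : NState Q D.k) (lam : Q → Option Bool) (ω : Q → Fin D.k)

/-- The picks of `c` seen from `x` are related vertices. -/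
theorem pk_eq (hD : D.Ok) (x : Q) (c : Fin D.k) :
    D.pk S lam ω x c = ∑ u ∈ (D.R x ∩ D.LL S lam).filter (fun u => ω u = c), D.K u x := by
  unfold pk
  symm
  refine Finset.sum_subset ?_ ?_
  · intro u hu
    rw [Finset.mem_filter, Finset.mem_inter] at hu
    rw [Finset.mem_filter]
    exact ⟨hu.1.2, hu.2⟩
  · intro u hu hu'
    rw [Finset.mem_filter] at hu
    refine K_off' hD x u ?_
    intro hR
    exact hu' (by rw [Finset.mem_filter, Finset.mem_inter]; exact ⟨⟨hR, hu.1⟩, hu.2⟩)

theorem hk_eq (hD : D.Ok) (x : Q) (c : Fin D.k) :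
    D.hk S lam ω x c = ∑ u ∈ (D.R x ∩ D.LL S lam).filter (fun u => ω u = c), D.h u x := by
  unfold hk
  symm
  refine Finset.sum_subset ?_ ?_
  · intro u hu
    rw [Finset.mem_filter, Finset.mem_inter] at hu
    rw [Finset.mem_filter]
    exact ⟨hu.1.2, hu.2⟩
  · intro u hu hu'
    rw [Finset.mem_filter] at hu
    refine h_off' hD x u ?_
    intro hR
    exact hu' (by rw [Finset.mem_filter, Finset.mem_inter]; exact ⟨⟨hR, hu.1⟩, hu.2⟩)

/-- Picks in a round with at most one related pick. -/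
theorem pk_zero (hD : D.Ok) (x : Q) (c : Fin D.k) (h : D.J S lam ω x c = 0) :
    D.pk S lam ω x c = 0 ∧ D.hk S lam ω x c = 0 := by
  unfold J at h
  rw [Finset.card_eq_zero] at h
  rw [pk_eq S lam ω hD, hk_eq S lam ω hD, h]
  simp

theorem pk_one (hD : D.Ok) (x : Q) (c : Fin D.k) (h : D.J S lam ω x c = 1) :
    ∃ u ∈ D.LL S lam, ω u = c ∧ u ∈ D.R x ∧ D.pk S lam ω x c = D.K u x ∧
      D.hk S lam ω x c = D.h u x := by
  unfold J at h
  rw [Finset.card_eq_one] at h
  obtain ⟨u, hu⟩ := h
  have hmem : u ∈ (D.R x ∩ D.LL S lam).filter (fun u => ω u = c) := by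
    rw [hu]; exact Finset.mem_singleton_self u
  rw [Finset.mem_filter, Finset.mem_inter] at hmem
  refine ⟨u, hmem.1.2, hmem.2, hmem.1.1, ?_, ?_⟩
  · rw [pk_eq S lam ω hD, hu, Finset.sum_singleton]
  · rw [hk_eq S lam ω hD, hu, Finset.sum_singleton]

theorem pk_abs (hD : D.Ok) (x : Q) (c : Fin D.k) :
    |D.pk S lam ω x c| ≤ D.T * D.J S lam ω x c := by
  rw [pk_eq S lam ω hD]
  refine (Finset.abs_sum_le_sum_abs _ _).trans ?_
  refine (Finset.sum_le_sum (fun u _ => K_abs hD u x)).trans ?_
  rw [Finset.sum_const, nsmul_eq_mul, mul_comm]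
  exact le_rfl

theorem hk_nonneg (hD : D.Ok) (x : Q) (c : Fin D.k) : 0 ≤ D.hk S lam ω x c :=
  Finset.sum_nonneg fun u _ => hD.h_nonneg u x

theorem hk_le (hD : D.Ok) (x : Q) (c : Fin D.k) :
    D.hk S lam ω x c ≤ 2 * D.J S lam ω x c := by
  rw [hk_eq S lam ω hD]
  refine (Finset.sum_le_sum (fun u _ => hD.h_le u x)).trans ?_
  rw [Finset.sum_const, nsmul_eq_mul, mul_comm]
  exact le_rfl

theorem J_mul_nonneg (x : Q) (c : Fin D.k) :
    0 ≤ (D.J S lam ω x c : ℝ) * ((D.J S lam ω x c : ℝ) - 1) := by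
  rcases Nat.eq_zero_or_pos (D.J S lam ω x c) with h | h
  · rw [h]; simp
  · have h1 : (1 : ℝ) ≤ (D.J S lam ω x c : ℝ) := by exact_mod_cast h
    exact mul_nonneg (by linarith) (by linarith)

theorem dbl_nonneg (x : Q) (c : Fin D.k) : 0 ≤ D.dbl S lam ω x c :=
  Finset.sum_nonneg fun y _ => J_mul_nonneg S lam ω y c

theorem sum_J (x : Q) :
    ∑ c, (D.J S lam ω x c : ℝ) = ((D.R x ∩ D.LL S lam).card : ℝ) := by
  unfold J
  rw [← Nat.cast_sum]
  congr 1
  exact (Finset.card_eq_sum_card_fiberwise (fun u _ => Finset.mem_univ (ω u))).symm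

/-- Centred sums as sums over the colours. -/
theorem cen_eq (Y : Q → Fin D.k → ℝ) :
    D.cen S lam Y ω = ∑ c, ∑ u, ((if ω u = c then 1 else 0) - D.p S lam u c) * Y u c := by
  unfold cen mean
  rw [Finset.sum_comm]
  refine Finset.sum_congr rfl fun u _ => ?_
  simp_rw [sub_mul]
  rw [Finset.sum_sub_distrib]
  congr 1
  simp

theorem pk_sub_cmp (x : Q) (c : Fin D.k) : D.pk S lam ω x c - D.cmp S lam x c =
    ∑ u ∈ D.LL S lam, ((if ω u = c then 1 else 0) - D.p S lam u c) * D.K u x := by
  unfold pk cmp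
  simp_rw [sub_mul]
  rw [Finset.sum_sub_distrib]
  congr 1
  rw [Finset.sum_filter]
  refine Finset.sum_congr rfl fun u _ => ?_
  split_ifs <;> simp

/-- Sums over the selected vertices as sums over all vertices. -/
theorem sum_LL_ite (f : Q → ℝ) : ∑ u ∈ D.LL S lam, f u = ∑ u, if u ∈ D.LL S lam then f u else 0 := by
  rw [← Finset.sum_filter]
  refine Finset.sum_congr ?_ fun _ _ => rfl
  ext u
  simp

/-- Generic form of the centred sums. -/
theorem cen_gen (P : Fin D.k → Prop) (w : Fin D.k → ℝ) (g : Q → Fin D.k → ℝ) :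
    D.cen S lam (fun u c => if u ∈ D.LL S lam ∧ P c then w c * g u c else 0) ω =
      ∑ c, if P c then w c * (∑ u ∈ D.LL S lam,
        ((if ω u = c then 1 else 0) - D.p S lam u c) * g u c) else 0 := by
  rw [cen_eq]
  refine Finset.sum_congr rfl fun c _ => ?_
  by_cases hc : P c
  · rw [if_pos hc, sum_LL_ite, Finset.mul_sum]
    refine Finset.sum_congr rfl fun u _ => ?_
    by_cases hu : u ∈ D.LL S lam
    · have e : (if u ∈ D.LL S lam ∧ P c then w c * g u c else 0) = w c * g u c :=
        if_pos ⟨hu, hc⟩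
      rw [e, if_pos hu]; ring
    · have e : (if u ∈ D.LL S lam ∧ P c then w c * g u c else 0) = 0 :=
        if_neg (fun h => hu h.1)
      rw [e, if_neg hu]; ring
  · rw [if_neg hc]
    refine Finset.sum_eq_zero fun u _ => ?_
    have e : (if u ∈ D.LL S lam ∧ P c then w c * g u c else 0) = 0 :=
      if_neg (fun h => hc h.2)
    rw [e]; ring

/-- Sum of the centred picks against the kernel. -/
theorem cen_Y1 (x : Q) : D.cen S lam (D.Y1 S lam x) ω =
    ∑ c, if S.al x c then S.v x c * (D.pk S lam ω x c - D.cmp S lam x c) else 0 := by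
  have h := cen_gen (D := D) S lam ω (fun c => S.al x c) (fun c => S.v x c) (fun u _ => D.K u x)
  simp only [← pk_sub_cmp] at h
  exact h

theorem cen_Y2 (x : Q) : D.cen S lam (D.Y2 S lam x) ω = ∑ c, if S.al x c then
    S.v x c * (D.pk S lam ω x c - D.cmp S lam x c) *
      (S.be x c - 2 * S.ac false x c - 2 * D.dac S lam false x c) else 0 := by
  have h := cen_gen (D := D) S lam ω (fun c => S.al x c)
    (fun c => S.v x c * (S.be x c - 2 * S.ac false x c - 2 * D.dac S lam false x c))
    (fun u _ => D.K u x)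
  simp only [← pk_sub_cmp] at h
  have e1 : D.Y2 S lam x = fun u c => if u ∈ D.LL S lam ∧ S.al x c then
      S.v x c * (S.be x c - 2 * S.ac false x c - 2 * D.dac S lam false x c) * D.K u x
      else 0 := by
    funext u c
    unfold Y2
    split_ifs
    · ring
    · rfl
  rw [e1, h]
  refine Finset.sum_congr rfl fun c _ => ?_
  split_ifs
  · ring
  · rfl

theorem cen_Y3 (x : Q) : D.cen S lam (D.Y3 S lam x) ω = ∑ c, if S.al x c then
    S.v x c * (∑ u ∈ D.LL S lam, ((if ω u = c then 1 else 0) - D.p S lam u c) *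
      ((2 + D.K u x) * D.h u x)) else 0 :=
  cen_gen (D := D) S lam ω (fun c => S.al x c) (fun c => S.v x c)
    (fun u _ => (2 + D.K u x) * D.h u x)

theorem cen_Y4 (b : Bool) (x : Q) (c : Fin D.k) : D.cen S lam (D.Y4 S lam b x c) ω =
    ∑ u ∈ D.LL S lam, ((if ω u = c then 1 else 0) - D.p S lam u c) *
      (if |D.G S lam b u x c| ≤ D.d3 then D.G S lam b u x c else 0) := by
  rw [cen_eq, Finset.sum_eq_single c]
  · rw [sum_LL_ite]
    refine Finset.sum_congr rfl fun u _ => ?_
    by_cases hu : u ∈ D.LL S lam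
    · by_cases hg : |D.G S lam b u x c| ≤ D.d3
      · have e : D.Y4 S lam b x c u c = D.G S lam b u x c := if_pos ⟨hu, rfl, hg⟩
        rw [e, if_pos hu, if_pos hg]
      · have e : D.Y4 S lam b x c u c = 0 := if_neg (fun h => hg h.2.2)
        rw [e, if_pos hu, if_neg hg]
    · have e : D.Y4 S lam b x c u c = 0 := if_neg (fun h => hu h.1)
      rw [e, if_neg hu]; ring
  · intro c' _ hc'
    refine Finset.sum_eq_zero fun u _ => ?_
    have e : D.Y4 S lam b x c u c' = 0 := if_neg (fun h => hc' h.2.1)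
    rw [e]; ring
  · intro h; exact absurd (Finset.mem_univ c) h

theorem cen_Y7 (z z' : Q) (c : Fin D.k) : D.cen S lam (D.Y7 S lam z z' c) ω =
    ∑ u ∈ D.LL S lam, ((if ω u = c then 1 else 0) - D.p S lam u c) *
      (if |D.GK S lam u z z' c| ≤ D.d3 then D.GK S lam u z z' c else 0) := by
  rw [cen_eq, Finset.sum_eq_single c]
  · rw [sum_LL_ite]
    refine Finset.sum_congr rfl fun u _ => ?_
    by_cases hu : u ∈ D.LL S lam
    · by_cases hg : |D.GK S lam u z z' c| ≤ D.d3
      · have e : D.Y7 S lam z z' c u c = D.GK S lam u z z' c := if_pos ⟨hu, rfl, hg⟩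
        rw [e, if_pos hu, if_pos hg]
      · have e : D.Y7 S lam z z' c u c = 0 := if_neg (fun h => hg h.2.2)
        rw [e, if_pos hu, if_neg hg]
    · have e : D.Y7 S lam z z' c u c = 0 := if_neg (fun h => hu h.1)
      rw [e, if_neg hu]; ring
  · intro c' _ hc'
    refine Finset.sum_eq_zero fun u _ => ?_
    have e : D.Y7 S lam z z' c u c' = 0 := if_neg (fun h => hc' h.2.1)
    rw [e]; ring
  · intro h; exact absurd (Finset.mem_univ c) h

theorem cen_Y9 (z z' : Q) : D.cen S lam (D.Y9 S lam z z') ω =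
    ∑ c, if S.al z c then S.v z c * S.v z' c * (D.pk S lam ω z c - D.cmp S lam z c)
      else 0 := by
  have h := cen_gen (D := D) S lam ω (fun c => S.al z c) (fun c => S.v z c * S.v z' c)
    (fun u _ => D.K u z)
  simp only [← pk_sub_cmp] at h
  exact h

theorem cen_Y10 (z z' : Q) : D.cen S lam (D.Y10 S lam z z') ω =
    (∑ c, if S.al z c ∧ S.al z' c then S.v z c * S.v z' c *
      (∑ u ∈ (D.LL S lam).filter (fun u => ω u = c), D.K u z * D.K u z') else 0) -
    ∑ c, if S.al z c ∧ S.al z' c then S.v z c * S.v z' c * D.delta S lam z z' c else 0 := by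
  have h := cen_gen (D := D) S lam ω (fun c => S.al z c ∧ S.al z' c)
    (fun c => S.v z c * S.v z' c) (fun u _ => D.K u z * D.K u z')
  have e2 : D.cen S lam (D.Y10 S lam z z') ω = ∑ c, if S.al z c ∧ S.al z' c then
      S.v z c * S.v z' c * (∑ u ∈ D.LL S lam,
        ((if ω u = c then 1 else 0) - D.p S lam u c) * (D.K u z * D.K u z')) else 0 := by
    refine (congrArg (fun Y => D.cen S lam Y ω) ?_).trans (h.trans ?_)
    · funext u c
      unfold Y10
      by_cases h1 : u ∈ D.LL S lam ∧ (S.al z c ∧ S.al z' c)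
      · rw [if_pos h1, if_pos h1]
      · rw [if_neg h1, if_neg h1]
    · refine Finset.sum_congr rfl fun c _ => ?_
      by_cases h1 : S.al z c ∧ S.al z' c
      · rw [if_pos h1, if_pos h1]
      · rw [if_neg h1, if_neg h1]
  rw [e2, ← Finset.sum_sub_distrib]
  refine Finset.sum_congr rfl fun c _ => ?_
  by_cases h1 : S.al z c ∧ S.al z' c
  · rw [if_pos h1, if_pos h1, if_pos h1, ← mul_sub]
    congr 1
    unfold delta
    simp_rw [sub_mul]
    rw [Finset.sum_sub_distrib]
    congr 1
    rw [Finset.sum_filter]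
    refine Finset.sum_congr rfl fun u _ => ?_
    split_ifs <;> simp
  · rw [if_neg h1, if_neg h1, if_neg h1, sub_zero]

theorem cen_Y12 (i : ι) : D.cen S lam (D.Y12 S lam i) ω =
    ∑ z ∈ D.A i ∩ D.U1 S lam, ∑ c, if S.al z c then
      D.nc S i c * S.v z c * (D.pk S lam ω z c - D.cmp S lam z c) else 0 := by
  symm
  rw [Finset.sum_comm, cen_eq]
  refine Finset.sum_congr rfl fun c _ => ?_
  have e1 : ∀ u, ((if ω u = c then 1 else 0) - D.p S lam u c) * D.Y12 S lam i u c =
      if u ∈ D.LL S lam then ∑ z ∈ D.A i ∩ D.U1 S lam,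
        ((if ω u = c then 1 else 0) - D.p S lam u c) *
          (if S.al z c then D.nc S i c * S.v z c * D.K u z else 0) else 0 := by
    intro u
    unfold Y12
    by_cases hu : u ∈ D.LL S lam
    · rw [if_pos hu, if_pos hu, Finset.mul_sum, Finset.mul_sum]
      refine Finset.sum_congr rfl fun z _ => ?_
      split_ifs <;> ring
    · rw [if_neg hu, if_neg hu, mul_zero]
  rw [Finset.sum_congr rfl fun u _ => e1 u, ← sum_LL_ite, Finset.sum_comm]
  refine Finset.sum_congr rfl fun z _ => ?_
  rw [pk_sub_cmp]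
  by_cases hz : S.al z c
  · simp only [if_pos hz]
    rw [Finset.mul_sum]
    refine Finset.sum_congr rfl fun u _ => ?_
    ring
  · simp only [if_neg hz, mul_zero, Finset.sum_const_zero]

/-- Change of a linear statistic. -/
theorem sum_eff_gen (_x : Q) (c : Fin D.k) (w : Q → ℝ) :
    ∑ y ∈ D.U1 S lam, (if S.al y c then w y * (D.pk S lam ω y c - D.cmp S lam y c) else 0) =
      ∑ u ∈ D.LL S lam, ((if ω u = c then 1 else 0) - D.p S lam u c) *
        ∑ y ∈ D.U1 S lam, (if S.al y c then w y * D.K u y else 0) := by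
  have e1 : ∀ y, (if S.al y c then w y * (D.pk S lam ω y c - D.cmp S lam y c) else 0) =
      ∑ u ∈ D.LL S lam, ((if ω u = c then 1 else 0) - D.p S lam u c) *
        (if S.al y c then w y * D.K u y else 0) := by
    intro y
    rw [pk_sub_cmp]
    by_cases hy : S.al y c
    · simp only [if_pos hy]
      rw [Finset.mul_sum]
      refine Finset.sum_congr rfl fun u _ => ?_
      ring
    · simp only [if_neg hy, mul_zero, Finset.sum_const_zero]
  simp_rw [e1]
  rw [Finset.sum_comm]
  refine Finset.sum_congr rfl fun u _ => ?_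
  rw [← Finset.mul_sum]

theorem sum_eff (b : Bool) (x : Q) (c : Fin D.k) :
    2 / D.k * (∑ y ∈ D.U1 S lam, if S.al y c then
        D.a b x y * S.v y c * (D.pk S lam ω y c - D.cmp S lam y c) else 0) =
      ∑ u ∈ D.LL S lam, ((if ω u = c then 1 else 0) - D.p S lam u c) *
        D.G S lam b u x c := by
  have h := sum_eff_gen (D := D) S lam ω x c (fun y => D.a b x y * S.v y c)
  rw [h, Finset.mul_sum]
  refine Finset.sum_congr rfl fun u _ => ?_
  unfold G
  ring

theorem sum_effK (z z' : Q) (c : Fin D.k) :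
    1 / D.k * (∑ y ∈ D.U1 S lam, if S.al y c then
        D.K y z * D.K y z' * S.v y c * (D.pk S lam ω y c - D.cmp S lam y c) else 0) =
      ∑ u ∈ D.LL S lam, ((if ω u = c then 1 else 0) - D.p S lam u c) *
        D.GK S lam u z z' c := by
  have h := sum_eff_gen (D := D) S lam ω z c (fun y => D.K y z * D.K y z' * S.v y c)
  rw [h, Finset.mul_sum]
  refine Finset.sum_congr rfl fun u _ => ?_
  unfold GK
  ring

end picks

end NibData

end

end Pool.Agent.AcyK
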