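import Pool.Agent.AcyK.Triv
import Pool.Agent.Acy.Low

/-! # The lower bound: bipartite graphs of large acyclic chromatic number -/

set_option autoImplicit false

namespace Pool.Agent.AcyK.Lower

open Finset Filter Asymptotics
open scoped Classical

/-! ## Graphs given by a relation -/

/-- The bipartite graph of a relation. -/
def bip {A B : Type} (R : A → B → Prop) : SimpleGraph (A ⊕ B) where
  Adj x y := (∃ a b, x = Sum.inl a ∧ y = Sum.inr b ∧ R a b) ∨
    (∃ a b, y = Sum.inl a ∧ x = Sum.inr b ∧ R a b)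
  symm := ⟨fun x y h => h.symm⟩
  loopless := ⟨fun x h => by
    rcases h with ⟨a, b, h1, h2, -⟩ | ⟨a, b, h1, h2, -⟩
    · rw [h1] at h2; exact Sum.inl_ne_inr h2
    · rw [h1] at h2; exact Sum.inl_ne_inr h2⟩

theorem bip_lr {A B : Type} (R : A → B → Prop) (a : A) (b : B) :
    (bip R).Adj (Sum.inl a) (Sum.inr b) ↔ R a b := by
  simp [bip]

theorem bip_rl {A B : Type} (R : A → B → Prop) (a : A) (b : B) :
    (bip R).Adj (Sum.inr b) (Sum.inl a) ↔ R a b := by
  simp [bip]

theorem bip_ll {A B : Type} (R : A → B → Prop) (a a' : A) :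
    ¬ (bip R).Adj (Sum.inl a) (Sum.inl a') := by
  simp [bip]

theorem bip_rr {A B : Type} (R : A → B → Prop) (b b' : B) :
    ¬ (bip R).Adj (Sum.inr b) (Sum.inr b') := by
  simp [bip]

theorem bip_bipartite {A B : Type} (R : A → B → Prop) : (bip R).IsBipartite := by
  refine ⟨SimpleGraph.Coloring.mk (fun x => if x.isLeft then 0 else 1) ?_⟩
  intro x y h
  rcases x with a | b <;> rcases y with a' | b'
  · exact absurd h (bip_ll R a a')
  · simp
  · simp
  · exact absurd h (bip_rr R b b')

theorem degree_inl {A B : Type} [Fintype A] [Fintype B] (R : A → B → Prop) (a : A)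
    [DecidableRel (bip R).Adj] :
    (bip R).degree (Sum.inl a) = (univ.filter fun b => R a b).card := by
  rw [← SimpleGraph.card_neighborFinset_eq_degree]
  have : (bip R).neighborFinset (Sum.inl a) = (univ.filter fun b => R a b).map
      Function.Embedding.inr := by
    ext x
    rcases x with a' | b
    · simp [SimpleGraph.mem_neighborFinset, bip_ll]
    · simp [SimpleGraph.mem_neighborFinset, bip_lr]
  rw [this, Finset.card_map]

theorem degree_inr {A B : Type} [Fintype A] [Fintype B] (R : A → B → Prop) (b : B)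
    [DecidableRel (bip R).Adj] :
    (bip R).degree (Sum.inr b) = (univ.filter fun a => R a b).card := by
  rw [← SimpleGraph.card_neighborFinset_eq_degree]
  have : (bip R).neighborFinset (Sum.inr b) = (univ.filter fun a => R a b).map
      Function.Embedding.inl := by
    ext x
    rcases x with a' | b'
    · simp [SimpleGraph.mem_neighborFinset, bip_rl]
    · simp [SimpleGraph.mem_neighborFinset, bip_rr]
  rw [this, Finset.card_map]

/-- An injective colouring is acyclic. -/
theorem of_injective {V α : Type*} [Fintype V] (G : SimpleGraph V) {f : V → α}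
    (hf : Function.Injective f) : IsAcyclicColouring G f := by
  refine ⟨fun u v h he => G.ne_of_adj h (hf he), fun a b x c hc => ?_⟩
  have h3 := hc.three_le_length
  have hnd := hc.support_nodup
  have hlen : c.support.tail.length = c.length := by simp
  have h1 : ((c.support.tail.map fun y => f y.1).toFinset).card = c.length := by
    rw [List.toFinset_card_of_nodup, List.length_map, hlen]
    exact hnd.map fun y y' h => Subtype.ext (hf h)
  have h2 : (c.support.tail.map fun y => f y.1).toFinset ⊆ {a, b} := by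
    intro y hy
    simp only [List.mem_toFinset, List.mem_map] at hy
    obtain ⟨w, -, rfl⟩ := hy
    have := w.2
    simp only [Set.mem_ofPred_eq] at this
    simp only [Finset.mem_insert, Finset.mem_singleton]
    exact this
  have h4 := Finset.card_le_card h2
  have h5 : ({a, b} : Finset α).card ≤ 2 := Finset.card_le_two
  omega

theorem exists_colouring {V : Type*} [Fintype V] (G : SimpleGraph V) :
    ∃ f : V → Fin (acyclicNumber G), IsAcyclicColouring G f := by
  have : {n | ∃ f : V → Fin n, IsAcyclicColouring G f}.Nonempty :=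
    ⟨Fintype.card V, Fintype.equivFin V, of_injective G (Fintype.equivFin V).injective⟩
  exact Nat.sInf_mem this

/-- A two-coloured 4-cycle is forbidden. -/
theorem no_four_cycle {V α : Type*} {G : SimpleGraph V} {f : V → α} (h : IsAcyclicColouring G f)
    {u u' z z' : V} (hu : u ≠ u') (hz : z ≠ z') (h1 : G.Adj u z) (h2 : G.Adj z u')
    (h3 : G.Adj u' z') (h4 : G.Adj z' u) (e1 : f u = f u') (e2 : f z = f z') : False := by
  set S : Set V := {v | f v = f u ∨ f v = f z} with hS
  have mu : u ∈ S := Or.inl rfl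
  have mu' : u' ∈ S := Or.inl e1.symm
  have mz : z ∈ S := Or.inr rfl
  have mz' : z' ∈ S := Or.inr e2.symm
  have a1 : (G.induce S).Adj ⟨u, mu⟩ ⟨z, mz⟩ := h1
  have a2 : (G.induce S).Adj ⟨z, mz⟩ ⟨u', mu'⟩ := h2
  have a3 : (G.induce S).Adj ⟨u', mu'⟩ ⟨z', mz'⟩ := h3
  have a4 : (G.induce S).Adj ⟨z', mz'⟩ ⟨u, mu⟩ := h4
  have n1 := h1.ne
  have n2 := h2.ne
  have n3 := h3.ne
  have n4 := h4.ne
  refine h.2 (f u) (f z) (SimpleGraph.Walk.cons a1 (.cons a2 (.cons a3 (.cons a4 .nil)))) ?_
  rw [SimpleGraph.Walk.cons_isCycle_iff]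
  refine ⟨?_, ?_⟩
  · simp only [SimpleGraph.Walk.cons_isPath_iff, SimpleGraph.Walk.isPath_iff_nil, SimpleGraph.Walk.nil_nil,
      SimpleGraph.Walk.support_cons, SimpleGraph.Walk.support_nil, List.mem_cons,
      List.not_mem_nil, or_false, Subtype.mk.injEq, not_or, true_and]
    refine ⟨⟨n4, ?_⟩, ?_⟩ <;> tauto
  · simp only [SimpleGraph.Walk.edges_cons, SimpleGraph.Walk.edges_nil, List.mem_cons,
      List.not_mem_nil, or_false, Sym2.eq_iff, Subtype.mk.injEq]
    tauto

/-! ## The graph of a relation together with a star -/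

/-- The relation `N` together with a star with `d` leaves. -/
def rel {n : ℕ} (N : Fin n → Finset (Fin n)) (d : ℕ) : Fin n ⊕ Fin d → Fin n ⊕ Unit → Prop
  | Sum.inl u, Sum.inl z => z ∈ N u
  | Sum.inr _, Sum.inr _ => True
  | _, _ => False

theorem maxDegree_rel {n : ℕ} (N : Fin n → Finset (Fin n)) {d : ℕ} (hd : 1 ≤ d)
    (h1 : ∀ u, (N u).card ≤ d) (h2 : ∀ z, (univ.filter fun u => z ∈ N u).card ≤ d)
    [DecidableRel (bip (rel N d)).Adj] : (bip (rel N d)).maxDegree = d := by
  refine le_antisymm (SimpleGraph.maxDegree_le_of_forall_degree_le _ _ ?_) ?_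
  · rintro ((u | i) | (z | c))
    · rw [degree_inl]
      refine (Finset.card_le_card (t := (N u).map Function.Embedding.inl) ?_).trans ?_
      · intro b hb
        rcases b with z | c
        · simp only [mem_filter, mem_univ, true_and, rel] at hb
          exact Finset.mem_map.2 ⟨z, hb, rfl⟩
        · simp only [mem_filter, mem_univ, true_and, rel] at hb
      · rw [Finset.card_map]; exact h1 u
    · rw [degree_inl]
      refine (Finset.card_le_card (t := {Sum.inr ()}) ?_).trans (by simpa using hd)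
      intro b hb
      rcases b with z | c
      · simp only [mem_filter, mem_univ, true_and, rel] at hb
      · simp
    · rw [degree_inr]
      refine (Finset.card_le_card
        (t := (univ.filter fun u => z ∈ N u).map Function.Embedding.inl) ?_).trans ?_
      · intro a ha
        rcases a with u | i
        · simp only [mem_filter, mem_univ, true_and, rel] at ha
          exact Finset.mem_map.2 ⟨u, by simpa using ha, rfl⟩
        · simp only [mem_filter, mem_univ, true_and, rel] at ha
      · rw [Finset.card_map]; exact h2 z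
    · rw [degree_inr]
      refine (Finset.card_le_card
        (t := (univ : Finset (Fin d)).map Function.Embedding.inr) ?_).trans (by simp)
      intro a ha
      rcases a with u | i
      · simp only [mem_filter, mem_univ, true_and, rel] at ha
      · exact Finset.mem_map.2 ⟨i, mem_univ _, rfl⟩
  · refine le_trans ?_ (SimpleGraph.degree_le_maxDegree _ (Sum.inr (Sum.inr ())))
    rw [degree_inr]
    refine le_trans (b := ((univ : Finset (Fin d)).map
      (Function.Embedding.inr : Fin d ↪ Fin n ⊕ Fin d)).card) (by simp) (Finset.card_le_card ?_)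
    intro a ha
    obtain ⟨i, -, rfl⟩ := Finset.mem_map.1 ha
    simp [rel]

/-- Every degree occurs. -/
theorem exists_degree (d : ℕ) : ∃ (V : Type) (_ : Fintype V) (G : SimpleGraph V)
    (_ : DecidableRel G.Adj), G.IsBipartite ∧ G.maxDegree = d := by
  rcases Nat.eq_zero_or_pos d with rfl | hd
  · refine ⟨Unit, inferInstance, ⊥, inferInstance, ?_, ?_⟩
    · exact ⟨SimpleGraph.Coloring.mk (fun _ => 0) (fun h => absurd h (by simp))⟩
    · exact Nat.le_zero.1 (SimpleGraph.maxDegree_le_of_forall_degree_le _ _ fun v => by simp)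
  · refine ⟨_, inferInstance, bip (rel (n := 0) (fun _ => ∅) d), Classical.decRel _,
      bip_bipartite _, ?_⟩
    exact maxDegree_rel _ hd (fun u => u.elim0) (fun z => z.elim0)

/-- The growth function. -/
noncomputable def g (d : ℕ) : ℝ := (d : ℝ) ^ ((4 : ℝ) / 3) / Real.log d ^ ((1 : ℝ) / 3)

theorem g_cube {d : ℕ} (hd : 1 < d) : g d ^ 3 * Real.log d = (d : ℝ) ^ 4 := by
  have hd1 : (1 : ℝ) < d := by exact_mod_cast hd
  have hlog : 0 < Real.log d := Real.log_pos hd1
  have h0 : (0 : ℝ) ≤ d := by linarith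
  rw [g, div_pow, ← Real.rpow_natCast, ← Real.rpow_mul h0, ← Real.rpow_natCast,
    ← Real.rpow_mul hlog.le]
  norm_num
  field_simp

theorem g_nonneg (d : ℕ) : 0 ≤ g d := by
  have : 0 ≤ Real.log d := Real.log_natCast_nonneg d
  unfold g; positivity

theorem g_tendsto : Tendsto g atTop atTop := by
  have h1 : Tendsto (fun d : ℕ => (d : ℝ)) atTop atTop := tendsto_natCast_atTop_atTop
  refine tendsto_atTop_mono' atTop ?_ h1
  filter_upwards [eventually_ge_atTop 2] with d hd
  have hd1 : (1 : ℝ) < d := by exact_mod_cast hd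
  have hlog : 0 < Real.log d := Real.log_pos hd1
  have hle : Real.log d ≤ d := (Real.log_le_sub_one_of_pos (by linarith)).trans (by linarith)
  have h3 := g_cube (d := d) hd
  refine le_of_pow_le_pow_left₀ (n := 3) (by norm_num) (g_nonneg d) ?_
  refine le_of_mul_le_mul_right ?_ hlog
  rw [h3]
  calc (d : ℝ) ^ 3 * Real.log d ≤ (d : ℝ) ^ 3 * d := by gcongr
    _ = (d : ℝ) ^ 4 := by ring

/-- Bipartite graphs of large acyclic chromatic number. -/
theorem lower_bip : ∀ᶠ d : ℕ in atTop, ∃ (V : Type) (_ : Fintype V) (G : SimpleGraph V)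
    (_ : DecidableRel G.Adj), G.IsBipartite ∧ G.maxDegree = d ∧
      g d / 128 ≤ (acyclicNumber G : ℝ) := by
  obtain ⟨n₀, h₀⟩ := Pool.Agent.Acy.lower_core
  filter_upwards [eventually_ge_atTop 3, g_tendsto.eventually_ge_atTop (32 * (n₀ + 2))]
    with d hd hg
  set n : ℕ := ⌊g d / 32⌋₊ with hn
  have hgn := g_nonneg d
  have hn1 : (n : ℝ) ≤ g d / 32 := Nat.floor_le (by positivity)
  have hn2 : g d / 32 < n + 1 := Nat.lt_floor_add_one _
  have hn3 : n₀ ≤ n := by
    rw [hn]; refine Nat.le_floor ?_; linarith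
  have hn4 : 1 ≤ n := by
    rw [hn]; refine Nat.le_floor ?_
    have : (0 : ℝ) ≤ n₀ := Nat.cast_nonneg _
    push_cast; linarith
  have hn4' : (1 : ℝ) ≤ n := by exact_mod_cast hn4
  have hd3 : (3 : ℝ) ≤ d := by exact_mod_cast hd
  have hlogd1 : 1 ≤ Real.log d := by
    rw [Real.le_log_iff_exp_le (by linarith)]
    have := Real.exp_one_lt_d9
    linarith
  have h3 := g_cube (d := d) (by omega)
  have hgd : g d ^ 3 ≤ (d : ℝ) ^ 4 := by
    rw [← h3]
    exact le_mul_of_one_le_right (by positivity) hlogd1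
  have hlogn0 : 0 ≤ Real.log n := Real.log_natCast_nonneg n
  have hlogn : 3 * Real.log n ≤ 4 * Real.log d := by
    have e1 : 3 * Real.log n = Real.log ((n : ℝ) ^ 3) := by rw [Real.log_pow]; norm_num
    have e2 : 4 * Real.log d = Real.log ((d : ℝ) ^ 4) := by rw [Real.log_pow]; norm_num
    rw [e1, e2]
    refine Real.log_le_log (by positivity) ?_
    refine le_trans (pow_le_pow_left₀ (by positivity) (hn1.trans ?_) 3) hgd
    linarith
  have hdeg : 8 * (n : ℝ) ^ ((3 : ℝ) / 4) * Real.log n ^ ((1 : ℝ) / 4) ≤ d := by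
    refine le_of_pow_le_pow_left₀ (n := 4) (by norm_num) (by positivity) ?_
    have e1 : ((n : ℝ) ^ ((3 : ℝ) / 4)) ^ 4 = (n : ℝ) ^ 3 := by
      rw [← Real.rpow_natCast, ← Real.rpow_mul (by positivity), ← Real.rpow_natCast]
      norm_num
    have e2 : (Real.log n ^ ((1 : ℝ) / 4)) ^ 4 = Real.log n := by
      rw [← Real.rpow_natCast, ← Real.rpow_mul hlogn0]
      norm_num
    rw [mul_pow, mul_pow, e1, e2]
    have e3 : (n : ℝ) ^ 3 ≤ (g d / 32) ^ 3 := pow_le_pow_left₀ (by positivity) hn1 3
    have e4 : (n : ℝ) ^ 3 * Real.log n ≤ (g d / 32) ^ 3 * (4 / 3 * Real.log d) := by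
      refine mul_le_mul e3 (by linarith) hlogn0 (by positivity)
    have e5 : (g d / 32) ^ 3 * (4 / 3 * Real.log d) = (d : ℝ) ^ 4 / 24576 := by
      rw [← h3]; ring
    have e6 : (0 : ℝ) ≤ (d : ℝ) ^ 4 := by positivity
    calc (8 : ℝ) ^ 4 * (n : ℝ) ^ 3 * Real.log n = 4096 * ((n : ℝ) ^ 3 * Real.log n) := by ring
      _ ≤ 4096 * ((d : ℝ) ^ 4 / 24576) := by rw [← e5]; gcongr
      _ ≤ (d : ℝ) ^ 4 := by linarith
  obtain ⟨N, hN1, hN2, hN3⟩ := h₀ n hn3
  refine ⟨_, inferInstance, bip (rel N d), Classical.decRel _, bip_bipartite _, ?_, ?_⟩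
  · refine maxDegree_rel N (by omega) (fun u => ?_) (fun z => ?_)
    · have : ((N u).card : ℝ) ≤ d := (hN1 u).trans hdeg
      exact_mod_cast this
    · have : ((univ.filter fun u => z ∈ N u).card : ℝ) ≤ d := (hN2 z).trans hdeg
      exact_mod_cast this
  obtain ⟨f, hf⟩ := exists_colouring (bip (rel N d))
  have hkey : n ≤ 2 * acyclicNumber (bip (rel N d)) := by
    by_contra hcon
    push Not at hcon
    obtain ⟨u, u', z, z', huu, hzz, e1, e2, m1, m2, m3, m4⟩ := hN3 _ hcon
      (fun z => f (Sum.inr (Sum.inl z))) (fun u => f (Sum.inl (Sum.inl u)))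
    refine no_four_cycle hf (u := Sum.inl (Sum.inl u)) (u' := Sum.inl (Sum.inl u'))
      (z := Sum.inr (Sum.inl z)) (z' := Sum.inr (Sum.inl z')) ?_ ?_ ?_ ?_ ?_ ?_ e1 e2
    · simpa using huu
    · simpa using hzz
    · rw [bip_lr]; exact m1
    · rw [bip_rl]; exact m3
    · rw [bip_lr]; exact m4
    · rw [bip_rl]; exact m2
  have hfin' : (n : ℝ) ≤ 2 * acyclicNumber (bip (rel N d)) := by exact_mod_cast hkey
  have : 64 ≤ g d := by
    have : (0 : ℝ) ≤ n₀ := Nat.cast_nonneg _
    linarith
  linarith

end Pool.Agent.AcyK.Lower
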