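import Pool.Agent.AcyK.Fin
import Pool.Agent.AcyK.Lower

/-! # Classes of graphs: definitions and bounds for the hand-ins of MP_af9dfb_co

Write `a(G)` for the acyclic chromatic number and `f_P(d)` for the maximum of `a(G)` over the graphs
of maximum degree `d` of a class `P`. -/

set_option autoImplicit false

namespace Pool.Agent.AcyK.Classes

open Finset Filter Asymptotics
open scoped Classical

/-- An acyclic colouring of `G`: it is proper and the union of any two colour classes induces a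
forest. -/
def IsAcyclicColouring {V α : Type*} (G : SimpleGraph V) (f : V → α) : Prop :=
  (∀ u v, G.Adj u v → f u ≠ f v) ∧ ∀ a b : α, (G.induce {v | f v = a ∨ f v = b}).IsAcyclic

/-- The acyclic chromatic number `a(G)`: the least number of colours in an acyclic colouring. -/
noncomputable def acyclicNumber {V : Type*} (G : SimpleGraph V) : ℕ :=
  sInf {n | ∃ f : V → Fin n, IsAcyclicColouring G f}

/-- A class of graphs. -/
def GraphClass : Type 1 := ∀ V : Type, SimpleGraph V → Prop

/-- The values `a(G)` for `G` a finite graph of the class `P` with maximum degree `d`. -/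
def values (P : GraphClass) (d : ℕ) : Set ℕ :=
  {m | ∃ (V : Type) (_ : Fintype V) (G : SimpleGraph V) (_ : DecidableRel G.Adj),
    P V G ∧ G.maxDegree = d ∧ acyclicNumber G = m}

/-- `f_P(d)`, the maximum of `a(G)` over the finite graphs `G` of the class `P` with maximum
degree `d`. -/
noncomputable def fmax (P : GraphClass) (d : ℕ) : ℕ := sSup (values P d)

/-- Bipartite graphs. -/
def bipartite : GraphClass := fun _ G => G.IsBipartite

/-- Graphs with clique number less than `t`. -/
def cliqueFree (t : ℕ) : GraphClass := fun _ G => G.CliqueFree t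

/-- Graphs of chromatic number at most `r`. -/
def colourable (r : ℕ) : GraphClass := fun _ G => G.Colorable r

/-- Graphs without an induced complete multipartite graph `K_{2,...,2}` with `t` classes of size
two. For `t = 3` this is the octahedron. -/
def cocktailFree (t : ℕ) : GraphClass := fun _ G =>
  ¬ (SimpleGraph.completeMultipartiteGraph fun _ : Fin t => Fin 2).IsIndContained G

/-- Graphs in which the common neighbourhood of any two non-adjacent vertices induces an
`r`-colourable graph. -/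
def locallyColourable (r : ℕ) : GraphClass := fun _ G =>
  ∀ z z', z ≠ z' → ¬ G.Adj z z' → (G.induce (G.commonNeighbors z z')).Colorable r

/-! ## Auxiliary facts -/

theorem acyclicNumber_eq {V : Type*} (G : SimpleGraph V) :
    Pool.Agent.AcyK.acyclicNumber G = acyclicNumber G := rfl

theorem nb_card {V : Type*} [Fintype V] (G : SimpleGraph V) [DecidableRel G.Adj] {d : ℕ}
    (h : G.maxDegree ≤ d) (v : V) : (Pool.Agent.AcyK.nb G v).card ≤ d := by
  refine le_trans (le_of_eq ?_) ((G.degree_le_maxDegree v).trans h)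
  rw [← SimpleGraph.card_neighborFinset_eq_degree]
  congr 1
  ext u
  simp [SimpleGraph.mem_neighborFinset]

/-- An upper bound for all the graphs of the class is an upper bound for the maximum. -/
theorem fmax_le {P : GraphClass} {d : ℕ} {B : ℝ} (hB : 0 ≤ B)
    (h : ∀ (V : Type) [Fintype V] (G : SimpleGraph V) [DecidableRel G.Adj], G.maxDegree ≤ d →
      P V G → (acyclicNumber G : ℝ) ≤ B) :
    (fmax P d : ℝ) ≤ B := by
  have h1 : fmax P d ≤ ⌊B⌋₊ := by
    refine csSup_le' ?_
    rintro m ⟨V, _, G, _, hP, hmax, rfl⟩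
    exact Nat.le_floor (h V G hmax.le hP)
  exact (Nat.cast_le.2 h1).trans (Nat.floor_le hB)

theorem values_bddAbove (P : GraphClass) (d : ℕ) : BddAbove (values P d) := by
  refine ⟨⌊14 * ((d + 1 : ℕ) : ℝ) ^ ((4 : ℝ) / 3)⌋₊, ?_⟩
  rintro m ⟨V, _, G, _, -, hmax, rfl⟩
  refine Nat.le_floor ?_
  rw [← acyclicNumber_eq]
  exact Pool.Agent.AcyK.triv_bound G (by omega) fun v => (nb_card G hmax.le v).trans (Nat.le_succ d)

theorem isGreatest {P : GraphClass}
    (hP : ∀ (V : Type) [Finite V] (G : SimpleGraph V), bipartite V G → P V G) (d : ℕ) :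
    IsGreatest (values P d) (fmax P d) := by
  obtain ⟨V, _, G, _, hb, hmax⟩ := Pool.Agent.AcyK.Lower.exists_degree d
  exact ⟨Nat.sSup_mem ⟨_, V, inferInstance, G, inferInstance, hP V G hb, hmax, rfl⟩
    (values_bddAbove P d), fun _ hm => le_csSup (values_bddAbove P d) hm⟩

theorem fmax_mono {P P' : GraphClass} (h : ∀ V G, P V G → P' V G) (d : ℕ) :
    fmax P d ≤ fmax P' d := by
  refine csSup_le' ?_
  rintro m ⟨V, hV, G, hG, hP, hmax, rfl⟩
  exact le_csSup (values_bddAbove P' d) ⟨V, hV, G, hG, h V G hP, hmax, rfl⟩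

theorem lower {P : GraphClass}
    (hP : ∀ (V : Type) [Finite V] (G : SimpleGraph V), bipartite V G → P V G) :
    ∀ᶠ d : ℕ in atTop, (d : ℝ) ^ ((4 : ℝ) / 3) / Real.log d ^ ((1 : ℝ) / 3) ≤
      128 * (fmax P d : ℝ) := by
  filter_upwards [Pool.Agent.AcyK.Lower.lower_bip] with d hd
  obtain ⟨V, hV, G, hG, hb, hmax, hle⟩ := hd
  have h1 : acyclicNumber G ≤ fmax P d :=
    le_csSup (values_bddAbove P d) ⟨V, hV, G, hG, hP V G hb, hmax, rfl⟩
  have h2 : (acyclicNumber G : ℝ) ≤ fmax P d := by exact_mod_cast h1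
  rw [acyclicNumber_eq] at hle
  have h3 : Pool.Agent.AcyK.Lower.g d = (d : ℝ) ^ ((4 : ℝ) / 3) / Real.log d ^ ((1 : ℝ) / 3) := rfl
  rw [h3] at hle
  linarith

theorem cliqueFree_cocktailFree (t : ℕ) (V : Type) (G : SimpleGraph V) (h : cliqueFree t V G) :
    cocktailFree t V G := by
  rintro ⟨f⟩
  have e : (⊤ : SimpleGraph (Fin t)) ↪g G :=
    { toFun := fun i => f ⟨i, 0⟩
      inj' := fun i j hij => by
        have := f.injective hij
        exact congrArg Sigma.fst this
      map_rel_iff' := by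
        intro i j
        rw [SimpleGraph.top_adj]
        exact f.map_rel_iff'.trans Iff.rfl }
  exact SimpleGraph.not_cliqueFree_of_top_embedding ⟨e.toCopy⟩ h

theorem colourable_locallyColourable (r : ℕ) (V : Type) (G : SimpleGraph V)
    (h : colourable r V G) : locallyColourable r V G := by
  intro z z' _ _
  obtain ⟨c⟩ := h
  exact ⟨c.comp (SimpleGraph.Embedding.induce _).toHom⟩

theorem bipartite_colourable {r : ℕ} (hr : 2 ≤ r) (V : Type) (G : SimpleGraph V)
    (h : bipartite V G) : colourable r V G :=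
  SimpleGraph.Colorable.mono hr h

theorem bipartite_cliqueFree (V : Type) (G : SimpleGraph V) (h : bipartite V G) :
    cliqueFree 3 V G := SimpleGraph.Colorable.cliqueFree h (by norm_num)

theorem bipartite_cocktailFree (V : Type) (G : SimpleGraph V) (h : bipartite V G) :
    cocktailFree 3 V G := cliqueFree_cocktailFree 3 V G (bipartite_cliqueFree V G h)

theorem bipartite_locallyColourable (V : Type) (G : SimpleGraph V) (h : bipartite V G) :
    locallyColourable 2 V G :=
  colourable_locallyColourable 2 V G h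

theorem rpow_split {X : ℝ} (hX : 0 ≤ X) {d : ℕ} (hd : 1 ≤ d) :
    (X / Real.log d) ^ ((1 : ℝ) / 3) * (d : ℝ) ^ ((4 : ℝ) / 3) =
      X ^ ((1 : ℝ) / 3) * ((d : ℝ) ^ ((4 : ℝ) / 3) / Real.log d ^ ((1 : ℝ) / 3)) := by
  have h1 : 0 ≤ Real.log d := Real.log_natCast_nonneg d
  rw [Real.div_rpow hX h1]
  ring

/-- Upper bound for locally colourable graphs. -/
theorem upper_loc : ∃ C : ℝ, ∀ᶠ d : ℕ in atTop, ∀ r : ℕ, 1 ≤ r →
    ∀ (V : Type) [Fintype V] (G : SimpleGraph V) [DecidableRel G.Adj], G.maxDegree ≤ d →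
    (G.Colorable r ∨
      ∀ z z', z ≠ z' → ¬ G.Adj z z' → (G.induce (G.commonNeighbors z z')).Colorable r) →
    (acyclicNumber G : ℝ) ≤
      C * ((1 + Real.log r) / Real.log d) ^ ((1 : ℝ) / 3) * (d : ℝ) ^ ((4 : ℝ) / 3) := by
  obtain ⟨d₀, h₀⟩ := Pool.Agent.AcyK.upper_col.{0}
  refine ⟨500000, ?_⟩
  filter_upwards [eventually_ge_atTop d₀] with d hd r hr V _ G _ hmax hG
  have hG' : locallyColourable r V G := by
    rcases hG with hG | hG
    · exact colourable_locallyColourable r V G hG
    · exact hG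
  have := h₀ d hd V G (fun v => nb_card G hmax v) r hr fun z z' h3 h4 => hG' z z' h3 h4
  rw [← acyclicNumber_eq, mul_assoc]
  exact this

/-- Upper bound for graphs without induced `K_{2,...,2}`. -/
theorem upper_cocktail : ∃ C : ℝ, ∀ᶠ d : ℕ in atTop, ∀ t : ℕ, 3 ≤ t →
    ∀ (V : Type) [Fintype V] (G : SimpleGraph V) [DecidableRel G.Adj], G.maxDegree ≤ d →
    (G.CliqueFree t ∨
      ¬ (SimpleGraph.completeMultipartiteGraph fun _ : Fin t => Fin 2).IsIndContained G) →
    (acyclicNumber G : ℝ) ≤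
      C * ((1 + ((t : ℝ) - 3) * Real.log (Real.log d)) / Real.log d) ^ ((1 : ℝ) / 3) *
        (d : ℝ) ^ ((4 : ℝ) / 3) := by
  obtain ⟨d₀, h₀⟩ := Pool.Agent.AcyK.upper_free.{0}
  refine ⟨500000, ?_⟩
  filter_upwards [eventually_ge_atTop d₀] with d hd t ht V _ G _ hmax hG
  have hG' : cocktailFree t V G := by
    rcases hG with hG | hG
    · exact cliqueFree_cocktailFree t V G hG
    · exact hG
  have := h₀ d hd V G (fun v => nb_card G hmax v) t ht hG'
  rw [← acyclicNumber_eq, mul_assoc]
  exact this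

/-- The sharp order for the classes between the bipartite graphs and the union of the two
classes. -/
theorem sharp {P : GraphClass}
    (hP : ∀ (V : Type) [Finite V] (G : SimpleGraph V), bipartite V G → P V G)
    (h : ∃ r, ∀ (V : Type) [Finite V] (G : SimpleGraph V), P V G →
      cocktailFree 3 V G ∨ locallyColourable r V G) :
    (fun d : ℕ => (fmax P d : ℝ)) =Θ[atTop]
      fun d : ℕ => (d : ℝ) ^ ((4 : ℝ) / 3) / Real.log d ^ ((1 : ℝ) / 3) := by
  have hg : ∀ d : ℕ, 0 ≤ (d : ℝ) ^ ((4 : ℝ) / 3) / Real.log d ^ ((1 : ℝ) / 3) := fun d => by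
    have := Real.log_natCast_nonneg d
    positivity
  have hup : ∃ C : ℝ, ∀ᶠ d : ℕ in atTop, (fmax P d : ℝ) ≤
      C * ((d : ℝ) ^ ((4 : ℝ) / 3) / Real.log d ^ ((1 : ℝ) / 3)) := by
    obtain ⟨r, h⟩ := h
    obtain ⟨C₁, hC₁⟩ := upper_cocktail
    obtain ⟨C₂, hC₂⟩ := upper_loc
    refine ⟨|C₁| + |C₂| * (1 + Real.log ((r + 1 : ℕ) : ℝ)) ^ ((1 : ℝ) / 3), ?_⟩
    filter_upwards [hC₁, hC₂, eventually_ge_atTop 1] with d hd hd' hd1
    have h3 : 0 ≤ 1 + Real.log ((r + 1 : ℕ) : ℝ) := by
      have := Real.log_natCast_nonneg (r + 1)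
      linarith
    have h6 : 0 ≤ (1 + Real.log ((r + 1 : ℕ) : ℝ)) ^ ((1 : ℝ) / 3) := Real.rpow_nonneg h3 _
    refine fmax_le (mul_nonneg (by positivity) (hg d)) fun V _ G _ hmax hPG => ?_
    rw [add_mul]
    rcases h V G hPG with h5 | h5
    · have h1 := hd 3 le_rfl V G hmax (Or.inr h5)
      have e : (1 + (((3 : ℕ) : ℝ) - 3) * Real.log (Real.log d)) = 1 := by
        push_cast
        ring
      rw [e, mul_assoc, rpow_split zero_le_one hd1, Real.one_rpow, one_mul] at h1
      have h7 := mul_le_mul_of_nonneg_right (le_abs_self C₁) (hg d)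
      have h8 : 0 ≤ |C₂| * (1 + Real.log ((r + 1 : ℕ) : ℝ)) ^ ((1 : ℝ) / 3) *
          ((d : ℝ) ^ ((4 : ℝ) / 3) / Real.log d ^ ((1 : ℝ) / 3)) :=
        mul_nonneg (mul_nonneg (abs_nonneg _) h6) (hg d)
      linarith
    · have h1 := hd' (r + 1) (Nat.le_add_left 1 r) V G hmax (Or.inr fun z z' h8 h9 =>
        SimpleGraph.Colorable.mono (Nat.le_succ r) (h5 z z' h8 h9))
      rw [mul_assoc, rpow_split h3 hd1, ← mul_assoc] at h1
      have h7 := mul_le_mul_of_nonneg_right (mul_le_mul_of_nonneg_right (le_abs_self C₂) h6) (hg d)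
      have h8 : 0 ≤ |C₁| * ((d : ℝ) ^ ((4 : ℝ) / 3) / Real.log d ^ ((1 : ℝ) / 3)) :=
        mul_nonneg (abs_nonneg _) (hg d)
      linarith
  obtain ⟨C, hC⟩ := hup
  refine ⟨IsBigO.of_bound C ?_, IsBigO.of_bound 128 ?_⟩
  · filter_upwards [hC] with d hd
    rw [Real.norm_of_nonneg (hg d), Real.norm_of_nonneg (Nat.cast_nonneg _)]
    exact hd
  · filter_upwards [lower hP] with d hd
    rw [Real.norm_of_nonneg (hg d), Real.norm_of_nonneg (Nat.cast_nonneg _)]
    exact hd

/-- For every fixed `t` the acyclic chromatic number of the graphs of maximum degree at most `d` and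
clique number less than `t` is `o(d^(4/3))`. -/
theorem small (t : ℕ) (ε : ℝ) (hε : 0 < ε) : ∀ᶠ d : ℕ in atTop,
    ∀ (V : Type) [Fintype V] (G : SimpleGraph V) [DecidableRel G.Adj], G.maxDegree ≤ d →
    G.CliqueFree t → (acyclicNumber G : ℝ) ≤ ε * (d : ℝ) ^ ((4 : ℝ) / 3) := by
  obtain ⟨C, hC⟩ := upper_cocktail
  set s : ℕ := t + 3 with hs
  have htend : Tendsto (fun d : ℕ => Real.log (d : ℝ)) atTop atTop :=
    Real.tendsto_log_atTop.comp tendsto_natCast_atTop_atTop
  have h1 : Tendsto (fun x : ℝ => (1 + ((s : ℝ) - 3) * Real.log x) / x) atTop (nhds 0) := by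
    have h2 : Tendsto (fun x : ℝ => 1 / x) atTop (nhds 0) := by
      simpa using tendsto_inv_atTop_zero (𝕜 := ℝ)
    have h3 : Tendsto (fun x : ℝ => Real.log x / x) atTop (nhds 0) := by
      have := Real.isLittleO_log_id_atTop.tendsto_div_nhds_zero
      simpa using this
    have h4 := h2.add (h3.const_mul ((s : ℝ) - 3))
    simp only [mul_zero, add_zero] at h4
    refine h4.congr fun x => ?_
    ring
  have h2 : Tendsto (fun d : ℕ => C * ((1 + ((s : ℝ) - 3) * Real.log (Real.log d)) /
      Real.log d) ^ ((1 : ℝ) / 3)) atTop (nhds 0) := by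
    have h3 := (h1.comp htend).rpow_const (p := (1 : ℝ) / 3) (Or.inr (by norm_num))
    rw [Real.zero_rpow (by norm_num)] at h3
    have h4 := h3.const_mul C
    rw [mul_zero] at h4
    exact h4
  filter_upwards [hC, h2.eventually (gt_mem_nhds hε)] with d hd hd2 V _ G _ hmax hG
  have h3 : (0 : ℝ) ≤ (d : ℝ) ^ ((4 : ℝ) / 3) := by positivity
  exact (hd s (by omega) V G hmax (Or.inl (SimpleGraph.CliqueFree.mono (by omega) hG))).trans
    (mul_le_mul_of_nonneg_right hd2.le h3)

end Pool.Agent.AcyK.Classes
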