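import Pool.Agent.AcyK.ODefs
import Pool.Agent.AcyK.GraphDefs

/-! # Definitions for the dropped set (project MP_af9dfb_K, D-part, helper44)

A colouring is `f : V → Option (Fin k × ℕ)` (colour and round in the part of the vertex); vertices
of different parts have disjoint palettes. In part `j` the current colouring is
`D.addCol C j col` (`C`: the earlier parts). -/

set_option autoImplicit false
set_option linter.unusedSectionVars false

namespace Pool.Agent.AcyK

open Finset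
open Pool.Agent.Acy (IsPM wt Ex Pr mean)
open scoped Classical

universe u v

section

variable {V : Type u} [Fintype V] [DecidableEq V]

namespace OData

variable (D : OData V)

/-- Special pairs. -/
def Spc (u v : V) : Prop := u ∈ D.N v ∨ D.am < D.cod u v

/-- Relevant or special pairs. -/
def Rp (u v : V) : Prop := u ≠ v ∧ (u ∈ D.N v ∨ D.T ^ 2385 ≤ D.cod u v)

/-- Bound for the probability of a colour. -/
noncomputable def rho : ℝ := 2 * D.T / D.k

/-- Round of a vertex. -/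
def rd (f : V → Option (Fin D.k × ℕ)) (v : V) : ℕ := ((f v).map Prod.snd).getD 0

/-- Different vertices of the same part with the same colour. -/
def Same (f : V → Option (Fin D.k × ℕ)) (u v : V) : Prop :=
  u ≠ v ∧ D.lv u = D.lv v ∧ sameCol f u v

/-- What the engine gives: vertices with the same colour and different rounds. -/
def Sep (f : V → Option (Fin D.k × ℕ)) : Prop :=
  ∀ u x, D.Same f u x → D.rd f u ≠ D.rd f x → ¬ D.Spc u x ∧
    (D.Rp u x → ∀ z ∈ cN D.N u x, ∀ z' ∈ cN D.N u x, D.lv z < D.lv u → ¬ D.Same f z z')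

/-- Two paths from `v` with monochromatic inner vertices in an earlier part (cycles of length at
least six). -/
def E3 (f : V → Option (Fin D.k × ℕ)) (v u u' : V) : Prop :=
  ∃ z z' z'', z' ≠ z'' ∧ D.Same f z z' ∧ D.Same f z z'' ∧ ¬ D.Spc z z' ∧ ¬ D.Spc z z'' ∧
    D.lv z < D.lv v ∧ z ∈ cN D.N v u ∧ z' ∈ cN D.N v u' ∧ z'' ∈ D.N u

/-- `x` is in conflict with `v` (a light pair with two monochromatic common neighbours in an
earlier part). -/
def Cf (f : V → Option (Fin D.k × ℕ)) (v x : V) : Prop :=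
  x ≠ v ∧ D.lv x = D.lv v ∧ ¬ D.Rp v x ∧ ∃ z z', D.Same f z z' ∧ ¬ D.Spc z z' ∧
    D.lv z < D.lv v ∧ z ∈ cN D.N v x ∧ z' ∈ cN D.N v x

/-- Rule (a). -/
def RA (f : V → Option (Fin D.k × ℕ)) (v : V) : Prop :=
  ∃ x, D.Same f v x ∧ D.rd f x = D.rd f v ∧ D.Rp v x

/-- Rule (b). -/
def RB (f : V → Option (Fin D.k × ℕ)) (v : V) : Prop :=
  ∃ x, D.Same f v x ∧ D.rd f x ≤ D.rd f v ∧ D.Cf f v x

/-- Rule (c). -/
def RC (f : V → Option (Fin D.k × ℕ)) (v : V) : Prop :=
  ∃ z z' u u', D.Same f z z' ∧ ¬ D.Spc z z' ∧ D.lv z = D.lv v ∧ z ∈ D.N v ∧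
    z' ∈ D.N v ∧ u ∈ D.N z ∧ u' ∈ D.N z' ∧ D.Same f v u ∧ D.Same f v u' ∧
    ¬ D.Same f v z ∧ D.rd f z ≤ D.rd f v ∧ D.rd f z' ≤ D.rd f v ∧ D.rd f u ≤ D.rd f v ∧
    D.rd f u' ≤ D.rd f v

/-- Rule (d). -/
def RD (f : V → Option (Fin D.k × ℕ)) (v : V) : Prop :=
  ∃ u u', u ≠ u' ∧ D.Same f v u ∧ D.Same f v u' ∧ D.rd f u ≤ D.rd f v ∧ D.rd f u' ≤ D.rd f v ∧
    D.E3 f v u u'

/-- Dropped vertices. -/
def Drop (f : V → Option (Fin D.k × ℕ)) (v : V) : Prop :=
  f v ≠ none ∧ (D.RA f v ∨ D.RB f v ∨ D.RC f v ∨ D.RD f v)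

/-- Vertices that are recoloured. -/
noncomputable def DD (f : V → Option (Fin D.k × ℕ)) : Finset V :=
  univ.filter fun v => f v = none ∨ D.Drop f v

/-- The colour with its palette. -/
def phi (f : V → Option (Fin D.k × ℕ)) (v : V) : Fin D.R × Option (Fin D.k) :=
  (D.part v, (f v).map Prod.fst)

/-! ## Statistics -/

/-- Weight of the vertices of part `i` and colour `c`. -/
noncomputable def L1 (f : V → Option (Fin D.k × ℕ)) (i : ℕ) (c : Fin D.k) (w : V → ℝ) : ℝ :=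
  ∑ y, if D.lv y = i ∧ hasCol f y c then w y else 0

/-- Weight of the coloured vertices of part `i`. -/
noncomputable def C1 (f : V → Option (Fin D.k × ℕ)) (i : ℕ) (w : V → ℝ) : ℝ :=
  ∑ y, if D.lv y = i ∧ f y ≠ none then w y else 0

/-- Weight of the monochromatic pairs of part `i`. -/
noncomputable def S2 (f : V → Option (Fin D.k × ℕ)) (i : ℕ) (w : V → V → ℝ) : ℝ :=
  ∑ y, ∑ y', if D.lv y = i ∧ D.Same f y y' then w y y' else 0

/-- Weight of the pairs of coloured vertices of part `i`. -/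
noncomputable def C2 (f : V → Option (Fin D.k × ℕ)) (i : ℕ) (w : V → V → ℝ) : ℝ :=
  ∑ y, ∑ y', if (D.lv y = i ∧ f y ≠ none) ∧ (D.lv y' = i ∧ f y' ≠ none) ∧ y ≠ y' then
    w y y' else 0

/-- Weight `B`: neighbours. -/
noncomputable def wB (a y : V) : ℝ := if y ∈ D.N a then 1 else 0

/-- Weight `L`: paths of length two through part `j`. -/
noncomputable def wL (a : V) (j : ℕ) (y : V) : ℝ :=
  if a ≠ y ∧ ¬ D.Spc a y then (((cN D.N a y).filter fun x => D.lv x = j).card : ℝ) else 0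

/-- Weight `N`: vertices at distance two. -/
noncomputable def wN (v y : V) : ℝ := if (cN D.N v y).Nonempty then 1 else 0

/-- Weight `M`. -/
noncomputable def wM (a b y y' : V) : ℝ := if y ∈ D.N a ∧ y' ∈ D.N b then 1 else 0

/-- Weight `P`. -/
noncomputable def wP (v y y' : V) : ℝ :=
  if y ∈ D.N v ∧ ¬ D.Spc y y' then D.cod y y' else 0

/-- Weight `Q`. -/
noncomputable def wQ (v : V) (s : ℝ) (j : ℕ) (y y' : V) : ℝ :=
  if (y ∈ D.N v ∧ y' ∈ D.N v) ∧ ¬ D.Spc y y' then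
    (((cN D.N y y').filter fun x => D.lv x = j ∧ x ≠ v ∧ D.cod x v < s).card : ℝ) else 0

/-- Weight `C`. -/
noncomputable def wC (f : V → Option (Fin D.k × ℕ)) (v u u' : V) : ℝ :=
  if D.E3 f v u u' then 1 else 0

/-- The final bounds for part `i`. -/
structure DStat (f : V → Option (Fin D.k × ℕ)) (i : ℕ) : Prop where
  sB : ∀ a c, D.L1 f i c (D.wB a) ≤ D.T ^ 152
  sL : ∀ a j c, D.L1 f i c (D.wL a j) ≤ D.T ^ 1756
  sN : ∀ v c, D.L1 f i c (D.wN v) ≤ D.T ^ 2405
  sM : ∀ a b, (a = b ∨ (cN D.N a b).Nonempty) → D.S2 f i (D.wM a b) ≤ D.T ^ 1605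
  sP : ∀ v, D.S2 f i (D.wP v) ≤ 470 * D.T ^ 5204
  sQ : ∀ v s j, (s = D.T ^ 2385 ∨ s = D.T ^ 2394) →
    D.S2 f i (D.wQ v s j) ≤ 1000 * (s * D.T ^ 804)

/-- Running bound of kind 1. -/
noncomputable def bd1 (f : V → Option (Fin D.k × ℕ)) (j : ℕ) (m : ℕ) (w : V → ℝ)
    (b : ℝ) : ℝ := 4 * D.T * (D.rho * D.C1 f j w + m * b)

/-- Running bound of kind 2. -/
noncomputable def bd2 (f : V → Option (Fin D.k × ℕ)) (j : ℕ) (m : ℕ) (w : V → V → ℝ)
    (b : ℝ) : ℝ := 26 * D.T ^ 2 * (D.rho * D.C2 f j w + m * b)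

/-- The running invariants in part `j` before round `m`, without the dropped vertices. -/
structure ProgS (f : V → Option (Fin D.k × ℕ)) (j : ℕ) (m : ℕ) : Prop where
  lt : ∀ v c r, D.lv v = j → f v = some (c, r) → r < m
  sB : ∀ a c, D.L1 f j c (D.wB a) ≤ D.bd1 f j m (D.wB a) 1
  sL : ∀ a j' c, D.L1 f j c (D.wL a j') ≤ D.bd1 f j m (D.wL a j') (D.T ^ 1603)
  sN : ∀ v c, D.L1 f j c (D.wN v) ≤ D.bd1 f j m (D.wN v) 1
  sM : ∀ a b, (a = b ∨ (cN D.N a b).Nonempty) →
    D.S2 f j (D.wM a b) ≤ D.bd2 f j m (D.wM a b) (D.T ^ 153)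
  sP : ∀ v, D.S2 f j (D.wP v) ≤ D.bd2 f j m (D.wP v) (D.T ^ 2557)
  sQ : ∀ v s j', (s = D.T ^ 2385 ∨ s = D.T ^ 2394) →
    D.S2 f j (D.wQ v s j') ≤ D.bd2 f j m (D.wQ v s j') (D.T ^ 1757)
  sC : ∀ v, D.lv v = j → D.S2 f j (D.wC f v) ≤ D.bd2 f j m (D.wC f v) (D.T ^ 2406)

/-- Bound for the number of dropped vertices of part `i` in `N(w)`. -/
def DrB (f : V → Option (Fin D.k × ℕ)) (i : ℕ) (m : ℕ) : Prop :=
  ∀ w, ((univ.filter fun v => D.lv v = i ∧ v ∈ D.N w ∧ D.Drop f v).card : ℝ) ≤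
    4 * D.T * (D.rho * (1000 * D.T ^ 3989) *
      ((univ.filter fun v => D.lv v = i ∧ v ∈ D.N w ∧ f v ≠ none).card : ℝ)) +
      m * D.T ^ 2640

/-- The running invariants in part `j` before round `m`. -/
structure Prog (f : V → Option (Fin D.k × ℕ)) (j : ℕ) (m : ℕ) : Prop
    extends D.ProgS f j m where
  dr : D.DrB f j m

/-! ## One part -/

/-- What is known at the start of part `j`. -/
structure Past (C : V → Option (Fin D.k × ℕ)) (j : ℕ) : Prop where
  later : ∀ v, j ≤ D.lv v → C v = none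
  stat : ∀ i, i < j → D.DStat C i
  dr : ∀ i, i < j → D.DrB C i D.M

/-- Vertices of part `j` that get their real colour in the round. -/
def Now (j : ℕ) (col : V → Option (Fin D.k × ℕ)) (lam : V → Option Bool) (y : V) : Prop :=
  D.lv y = j ∧ col y = none ∧ lam y = some true

/-- The selection is typical. -/
structure LamOK (j : ℕ) (C col : V → Option (Fin D.k × ℕ)) (lam : V → Option Bool) :
    Prop where
  nbr : ∀ w, ((univ.filter fun y => y ∈ D.N w ∧ D.Now j col lam y).card : ℝ) ≤ D.T ^ 2668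
  rp : ∀ v, D.lv v = j →
    ((univ.filter fun y => D.Rp v y ∧ D.Now j col lam y).card : ℝ) ≤ D.T ^ 3886
  cf : ∀ v, D.lv v = j →
    ((univ.filter fun y => D.Cf C v y ∧ D.Now j col lam y).card : ℝ) ≤ D.T ^ 3886

/-- Everything known in round `m` of part `j` before the picks. -/
structure DRnd (j : ℕ) (C : V → Option (Fin D.k × ℕ)) (m : ℕ)
    (col : V → Option (Fin D.k × ℕ)) (lam : V → Option Bool) (p : V → Fin D.k → ℝ) :
    Prop where
  ok : D.Ok
  past : D.Past C j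
  m_lt : m < D.M
  prog : D.Prog (D.addCol C j col) j m
  lam : D.LamOK j C col lam
  pm : IsPM p
  p_le : ∀ u c, p u c ≤ D.rho

/-- Number of vertices of `N(w)` that get their colour in the round and satisfy `Rule`. -/
noncomputable def newc (j : ℕ) (col : V → Option (Fin D.k × ℕ)) (lam : V → Option Bool)
    (w : V) (Rule : V → Prop) : ℝ :=
  ((univ.filter fun y => y ∈ D.N w ∧ D.Now j col lam y ∧ Rule y).card : ℝ)

end OData

end

end Pool.Agent.AcyK
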