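import Pool.Agent.AcyK.DBase
import Pool.Agent.AcyK.DStat
import Pool.Agent.AcyK.DClaim
import Pool.Agent.AcyK.DRecol

/-! # The recolouring lemma applies (row D7c of MP_af9dfb_K, helper37) -/

set_option autoImplicit false
set_option linter.unusedSectionVars false

namespace Pool.Agent.AcyK

open Finset
open scoped Classical

universe u v

section

variable {V : Type u} [Fintype V] [DecidableEq V]

namespace OData

variable {D : OData V} {f : V → Option (Fin D.k × ℕ)}

/-- `mem_filter` for any decidability instance. -/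
theorem fin_mf {α : Type*} {p : α → Prop} {i : DecidablePred p} {s : Finset α} {a : α} :
    a ∈ @Finset.filter α p i s ↔ a ∈ s ∧ p a := @Finset.mem_filter α p i s a

/-- `mem_inter` for any decidability instance. -/
theorem fin_mi {α : Type*} {i : DecidableEq α} {s t : Finset α} {a : α} :
    a ∈ @Inter.inter (Finset α) (@Finset.instInter α i) s t ↔ a ∈ s ∧ a ∈ t :=
  Finset.mem_inter

theorem fin_ne_none {u : V} (h : u ∉ D.DD f) : f u ≠ none := by
  intro h1
  exact h (by unfold DD; simp [h1])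

theorem fin_not_RA {u : V} (h : u ∉ D.DD f) : ¬ D.RA f u := by
  intro h1
  apply h
  unfold DD
  rw [fin_mf]
  exact ⟨mem_univ _, .inr ⟨fin_ne_none h, .inl h1⟩⟩

theorem fin_not_Spc (hD : D.Ok) (H : D.Sep f) {u x : V} (hu : u ∉ D.DD f)
    (h : D.Same f u x) : ¬ D.Spc u x := by
  by_cases hr : D.rd f u = D.rd f x
  · have h1 := fin_not_RA hu
    unfold RA at h1
    push Not at h1
    exact not_Spc_of_not_Rp hD h.1 (h1 x h hr.symm)
  · exact (H u x h hr).1

theorem fin_same {u x : V} (hne : u ≠ x) (hu : f u ≠ none) (h : D.phi f u = D.phi f x) :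
    D.Same f u x := by
  unfold phi at h
  rw [Prod.mk.injEq] at h
  obtain ⟨h1, h2⟩ := h
  obtain ⟨c, r, hr⟩ := exists_hasCol hu
  rw [hr] at h2
  refine ⟨hne, ?_, c, ⟨r, hr⟩, ?_⟩
  · unfold lv
    rw [h1]
  · rcases hx : f x with _ | ⟨c', r'⟩
    · rw [hx] at h2
      simp at h2
    · rw [hx] at h2
      simp only [Option.map_some, Option.some.injEq] at h2
      rw [h2]
      exact ⟨r', hx⟩

theorem fin_sum_lv (hD : D.Ok) (y : V) (P : Prop) (a : ℝ) :
    (∑ i ∈ range D.R, if D.lv y = i ∧ P then a else 0) = if P then a else 0 := by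
  by_cases h : P
  · simp only [h, and_true, if_true]
    rw [Finset.sum_ite_eq]
    rw [if_pos (mem_range.2 (lv_lt_R hD y))]
  · simp [h]

theorem fin_sum_S2 (hD : D.Ok) (w : V → V → ℝ) : (∑ i ∈ range D.R, D.S2 f i w) =
    ∑ y, ∑ y', if D.Same f y y' then w y y' else 0 := by
  unfold S2
  rw [sum_comm]
  refine sum_congr rfl fun y _ => ?_
  rw [sum_comm]
  refine sum_congr rfl fun y' _ => ?_
  exact fin_sum_lv hD y _ _

theorem fin_sum_fib (hD : D.Ok) (S : Finset V) :
    (∑ i ∈ range D.R, ((S.filter fun v => D.lv v = i).card : ℝ)) = S.card := by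
  rw [card_eq_sum_card_fiberwise (f := D.lv) (t := range D.R)
    (fun x _ => mem_coe.2 (mem_range.2 (lv_lt_R hD x)))]
  push_cast
  rfl

/-- The dropped and the uncoloured vertices in a neighbourhood. -/
theorem fin_deg (hD : D.Ok) (hd : ∀ i, i < D.R → D.DrB f i D.M)
    (hu : ∀ w, (((D.N w).filter fun v => f v = none).card : ℝ) ≤ D.T ^ 3592) (w : V) :
    (((D.N w).filter fun v => v ∈ D.DD f).card : ℝ) ≤ 8002 * D.T ^ 3592 := by
  have hT := Tb hD
  have h0 := T0 hD
  have h1 : ((D.N w).filter fun v => v ∈ D.DD f) ⊆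
      ((D.N w).filter fun v => f v = none) ∪ ((D.N w).filter fun v => D.Drop f v) := by
    intro v hv
    rw [mem_filter] at hv
    obtain ⟨h2, h3⟩ := hv
    unfold DD at h3
    rw [mem_filter] at h3
    rw [mem_union, mem_filter, mem_filter]
    rcases h3.2 with h4 | h4
    · exact .inl ⟨h2, h4⟩
    · exact .inr ⟨h2, h4⟩
  have h2 : (((D.N w).filter fun v => v ∈ D.DD f).card : ℝ) ≤
      (((D.N w).filter fun v => f v = none).card : ℝ) +
        (((D.N w).filter fun v => D.Drop f v).card : ℝ) := by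
    have := (card_le_card h1).trans (card_union_le _ _)
    exact_mod_cast this
  have h3 : (((D.N w).filter fun v => D.Drop f v).card : ℝ) ≤
      4 * D.T * (D.rho * (1000 * D.T ^ 3989) * (D.N w).card) + D.R * (D.M * D.T ^ 2640) := by
    rw [← fin_sum_fib hD, ← fin_sum_fib hD (D.N w), mul_sum, mul_sum]
    have h4 : (D.R : ℝ) * (D.M * D.T ^ 2640) = ∑ i ∈ range D.R, (D.M * D.T ^ 2640 : ℝ) := by
      rw [sum_const, card_range, nsmul_eq_mul]
    rw [h4, ← sum_add_distrib]
    refine sum_le_sum fun i hi => ?_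
    have h5 := hd i (mem_range.1 hi) w
    refine le_trans ?_ (h5.trans ?_)
    · apply Nat.cast_le.2
      apply card_le_card
      intro v hv
      rw [mem_filter, mem_filter] at hv
      rw [mem_filter]
      exact ⟨mem_univ _, hv.2, hv.1.1, hv.1.2⟩
    · have h6 : ((univ.filter fun v => D.lv v = i ∧ v ∈ D.N w ∧ f v ≠ none).card : ℝ) ≤
          (((D.N w).filter fun v => D.lv v = i).card : ℝ) := by
        apply Nat.cast_le.2
        apply card_le_card
        intro v hv
        rw [mem_filter] at hv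
        rw [mem_filter]
        exact ⟨hv.2.2.1, hv.2.1⟩
      have h7 := (rho_pos hD).le
      gcongr
  have h4 : 4 * D.T * (D.rho * (1000 * D.T ^ 3989) * (D.N w).card) ≤ 8000 * D.T ^ 3592 := by
    have h5 := Nc hD w
    have h7 := (rho_pos hD).le
    calc 4 * D.T * (D.rho * (1000 * D.T ^ 3989) * (D.N w).card)
        ≤ 4 * D.T * (D.rho * (1000 * D.T ^ 3989) * D.T ^ 3600) := by gcongr
      _ = 4000 * (D.rho * D.T ^ 7590) := by ring
      _ ≤ 4000 * (2 * D.T ^ 3592) := by
          have := rho_mul_le2 hD (a := 7590) (b := 3592) (by norm_num)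
          linarith
      _ = 8000 * D.T ^ 3592 := by ring
  have h5 : (D.R : ℝ) * (D.M * D.T ^ 2640) ≤ D.T ^ 3592 := by
    have h6 := m_le hD (le_refl D.M)
    calc (D.R : ℝ) * (D.M * D.T ^ 2640) ≤ D.T ^ 800 * (D.T ^ 150 * D.T ^ 2640) := by
          have := hD.R_hi
          gcongr
      _ = D.T ^ 3590 := by ring
      _ ≤ D.T ^ 3592 := hD.big.pw (by norm_num)
  have h6 := hu w
  linarith

/-- Pairs of large codegree with `y` inside a set that is sparse in all neighbourhoods. -/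
theorem fin_heavy (hD : D.Ok) (A : Finset V) {b : ℝ} (hb0 : 0 ≤ b)
    (hb : ∀ w, (((D.N w).filter fun v => v ∈ A).card : ℝ) ≤ b) (y : V)
    (hA : ∀ y' ∈ A, D.T ^ 2394 ≤ D.cod y y') : (A.card : ℝ) * D.T ^ 2394 ≤ D.T ^ 3600 * b := by
  calc (A.card : ℝ) * D.T ^ 2394 = ∑ y' ∈ A, D.T ^ 2394 := by
        rw [sum_const, nsmul_eq_mul]
    _ ≤ ∑ y' ∈ A, D.cod y y' := sum_le_sum hA
    _ = ∑ y' ∈ A, ∑ z ∈ D.N y, if z ∈ D.N y' then (1 : ℝ) else 0 := by
        refine sum_congr rfl fun y' _ => ?_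
        unfold cod cN
        rw [← sum_filter, sum_const, nsmul_eq_mul, mul_one]
        congr 2
    _ = ∑ z ∈ D.N y, ∑ y' ∈ A, if z ∈ D.N y' then (1 : ℝ) else 0 := sum_comm
    _ ≤ ∑ z ∈ D.N y, b := by
        refine sum_le_sum fun z _ => ?_
        refine le_trans (le_of_eq ?_) (hb z)
        rw [← sum_filter, sum_const, nsmul_eq_mul, mul_one]
        congr 2
        ext y'
        rw [mem_filter, mem_filter, N_comm hD (u := z)]
        tauto
    _ = (D.N y).card * b := by rw [sum_const, nsmul_eq_mul]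
    _ ≤ D.T ^ 3600 * b := mul_le_mul_of_nonneg_right (Nc hD y) hb0

/-- Vertices of small codegree with a monochromatic pair of common neighbours. -/
theorem fin_mono (hD : D.Ok) (hs : ∀ i, i < D.R → D.DStat f i) (y : V) (B : Finset V)
    (hB : ∀ x ∈ B, x ≠ y ∧ D.cod x y < D.T ^ 2394 ∧ ∃ z z', D.Same f z z' ∧ ¬ D.Spc z z' ∧
      z ∈ cN D.N y x ∧ z' ∈ cN D.N y x) : (B.card : ℝ) ≤ 1000 * D.T ^ 4798 := by
  set s : ℝ := D.T ^ 2394 with hsdef
  set S : V × V → Finset V := fun e => if D.Same f e.1 e.2 ∧ (e.1 ∈ D.N y ∧ e.2 ∈ D.N y) ∧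
    ¬ D.Spc e.1 e.2 then (cN D.N e.1 e.2).filter fun x => x ≠ y ∧ D.cod x y < s else ∅ with hS
  have h1 : B ⊆ (univ : Finset (V × V)).biUnion S := by
    intro x hx
    obtain ⟨h2, h3, z, z', h4, h5, h6, h7⟩ := hB x hx
    rw [mem_biUnion]
    refine ⟨(z, z'), mem_univ _, ?_⟩
    rw [mem_cN] at h6 h7
    simp only [hS]
    rw [if_pos ⟨h4, ⟨h6.1, h7.1⟩, h5⟩, mem_filter, mem_cN]
    exact ⟨⟨(N_comm hD).1 h6.2, (N_comm hD).1 h7.2⟩, h2, h3⟩
  have h2 : (B.card : ℝ) ≤ ∑ e : V × V, ((S e).card : ℝ) := by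
    have := (card_le_card h1).trans card_biUnion_le
    exact_mod_cast this
  have h3 : (∑ e : V × V, ((S e).card : ℝ)) =
      ∑ j ∈ range D.R, ∑ i ∈ range D.R, D.S2 f i (D.wQ y s j) := by
    have h4 : ∀ j, (∑ i ∈ range D.R, D.S2 f i (D.wQ y s j)) =
        ∑ z, ∑ z', if D.Same f z z' then D.wQ y s j z z' else 0 := fun j => fin_sum_S2 hD _
    simp only [h4]
    rw [sum_comm, Fintype.sum_prod_type]
    refine sum_congr rfl fun z _ => ?_
    rw [sum_comm]
    refine sum_congr rfl fun z' _ => ?_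
    simp only [hS]
    by_cases h5 : D.Same f z z'
    · by_cases h6 : (z ∈ D.N y ∧ z' ∈ D.N y) ∧ ¬ D.Spc z z'
      · rw [if_pos ⟨h5, h6⟩, ← fin_sum_fib hD]
        refine sum_congr rfl fun j _ => ?_
        rw [if_pos h5]
        unfold wQ
        rw [if_pos h6, filter_filter]
        congr 2
        ext x
        simp only [mem_filter]
        tauto
      · rw [if_neg fun h => h6 h.2]
        unfold wQ
        simp [h6]
    · rw [if_neg fun h => h5 h.1]
      simp [h5]
  rw [h3] at h2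
  have h0 := T0 hD
  calc (B.card : ℝ) ≤ ∑ j ∈ range D.R, ∑ i ∈ range D.R, D.S2 f i (D.wQ y s j) := h2
    _ ≤ ∑ j ∈ range D.R, ∑ i ∈ range D.R, 1000 * (s * D.T ^ 804) :=
        sum_le_sum fun j _ => sum_le_sum fun i hi =>
          (hs i (mem_range.1 hi)).sQ y s j (.inr rfl)
    _ = D.R * (D.R * (1000 * (s * D.T ^ 804))) := by
        rw [sum_const, sum_const, card_range, nsmul_eq_mul, nsmul_eq_mul]
    _ ≤ D.T ^ 800 * (D.T ^ 800 * (1000 * (s * D.T ^ 804))) := by
        have := hD.R_hi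
        gcongr
    _ = 1000 * D.T ^ 4798 := by
        rw [hsdef]
        ring

theorem recol_ok (hD : D.Ok) {G : SimpleGraph V} (hG : ∀ v, D.N v = nb G v)
    {f : V → Option (Fin D.k × ℕ)} (hs : ∀ i, i < D.R → D.DStat f i)
    (hd : ∀ i, i < D.R → D.DrB f i D.M)
    (hu : ∀ w, (((D.N w).filter fun v => f v = none).card : ℝ) ≤ D.T ^ 3592)
    (H : D.Sep f) {n : ℕ} (hn : 100 * D.T ^ 4799 ≤ n) :
    RecolOk G (D.DD f) (D.phi f) n (D.T ^ 3593) (D.T ^ 2394) (D.T ^ 4799) (D.T ^ 2406)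
      (D.T ^ 6005) := by
  have hT := Tb hD
  have h0 := T0 hD
  have hp : ∀ a b : ℕ, D.T ^ (a + b) = D.T ^ a * D.T ^ b := fun a b => pow_add _ _ _
  have hb1 : 8002 * D.T ^ 3592 ≤ D.T ^ 3593 := by
    rw [pow_succ' D.T 3592]
    have := Tp hD 3592
    nlinarith
  have hcn : ∀ u v z, z ∈ cn G u v ↔ z ∈ cN D.N u v := by
    intro u v z
    rw [mem_cn, mem_cN, hG, hG, mem_nb, mem_nb]
  have hdeg := fin_deg hD hd hu
  obtain ⟨hc1, hc2⟩ := claim hD hG H
  have hn0 : 0 < (n : ℝ) := by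
    have := Tp hD 4799
    linarith
  refine ⟨hc1, hc2, Tp hD _, ?_, ?_, ?_, ?_, ?_, ?_⟩
  · intro v
    refine le_trans ?_ ((hdeg v).trans hb1)
    apply Nat.cast_le.2
    apply card_le_card
    intro x hx
    rw [fin_mi, ← hG] at hx
    rw [mem_filter]
    exact hx
  · intro y hy
    set A : Finset V := (D.DD f).filter fun y' => D.T ^ 2394 ≤ D.cod y y' with hA
    set B : Finset V := univ.filter fun x => x ≠ y ∧ D.cod x y < D.T ^ 2394 ∧
      ∃ z z', D.Same f z z' ∧ ¬ D.Spc z z' ∧ z ∈ cN D.N y x ∧ z' ∈ cN D.N y x with hB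
    have h1 : (B.card : ℝ) ≤ 1000 * D.T ^ 4798 :=
      fin_mono hD hs y B fun x hx => (mem_filter.1 hx).2
    have h2 : (A.card : ℝ) ≤ 8002 * D.T ^ 4798 := by
      have h3 := fin_heavy hD A (b := 8002 * D.T ^ 3592) (by positivity) (fun w => by
        refine le_trans ?_ (hdeg w)
        apply Nat.cast_le.2
        apply card_le_card
        intro x hx
        rw [mem_filter] at hx ⊢
        exact ⟨hx.1, (mem_filter.1 hx.2).1⟩) y (fun y' h => (mem_filter.1 h).2)
      have h4 : D.T ^ 3600 * (8002 * D.T ^ 3592) = 8002 * D.T ^ 4798 * D.T ^ 2394 := by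
        ring
      rw [h4] at h3
      exact le_of_mul_le_mul_right h3 (Tp hD _)
    have h3 : 9002 * D.T ^ 4798 ≤ D.T ^ 4799 := by
      rw [pow_succ' D.T 4798]
      have := Tp hD 4798
      nlinarith
    refine le_trans ?_ (le_trans (add_le_add h2 h1) (by linarith))
    have h4 : ∀ S : Finset V, S ⊆ A ∪ B → (S.card : ℝ) ≤ (A.card : ℝ) + B.card := by
      intro S hS
      have := (card_le_card hS).trans (card_union_le _ _)
      exact_mod_cast this
    apply h4
    intro y' hy'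
    rw [fin_mf] at hy'
    obtain ⟨h5, h6, z, z', h7, h8, h9, h10, h11, h12⟩ := hy'
    rw [mem_union]
    by_cases h13 : D.T ^ 2394 ≤ D.cod y y'
    · exact .inl (mem_filter.2 ⟨h5, h13⟩)
    · right
      rw [hB, mem_filter]
      have h14 := fin_same h9 (fin_ne_none h7) h12
      refine ⟨mem_univ _, h6, ?_, z, z', h14, fin_not_Spc hD H h7 h14, (hcn _ _ _).1 h10,
        (hcn _ _ _).1 h11⟩
      rw [cod_symm]
      exact not_le.1 h13
  · intro y hy
    have h1 : ∀ S : Finset (V × V), (∀ w ∈ S, D.Same f w.1 w.2 ∧ w.1 ∈ D.N y ∧ w.2 ∈ D.N y) →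
        (S.card : ℝ) ≤ ∑ z, ∑ z', if D.Same f z z' then D.wM y y z z' else 0 := by
      intro S hS
      rw [← Fintype.sum_prod_type' (f := fun z z' => if D.Same f z z' then D.wM y y z z' else 0)]
      calc (S.card : ℝ) = ∑ w ∈ S, (1 : ℝ) := by rw [sum_const, nsmul_eq_mul, mul_one]
        _ = ∑ w ∈ S, if D.Same f w.1 w.2 then D.wM y y w.1 w.2 else 0 := by
            refine sum_congr rfl fun w hw => ?_
            obtain ⟨h2, h3, h4⟩ := hS w hw
            unfold wM
            rw [if_pos h2, if_pos ⟨h3, h4⟩]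
        _ ≤ _ := by
            apply sum_le_sum_of_subset_of_nonneg (subset_univ S)
            intro w _ _
            unfold wM
            split_ifs <;> norm_num
    rw [← fin_sum_S2 hD] at h1
    refine (h1 _ ?_).trans ?_
    · intro w hw
      rw [fin_mf] at hw
      obtain ⟨_, h2, h3, h4, h5, h6, h7⟩ := hw
      rw [← hG] at h5 h6
      exact ⟨fin_same h4 (fin_ne_none h2) h7, h5, h6⟩
    · calc (∑ i ∈ range D.R, D.S2 f i (D.wM y y)) ≤ ∑ i ∈ range D.R, D.T ^ 1605 :=
            sum_le_sum fun i hi => (hs i (mem_range.1 hi)).sM y y (.inl rfl)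
        _ = D.R * D.T ^ 1605 := by rw [sum_const, card_range, nsmul_eq_mul]
        _ ≤ D.T ^ 800 * D.T ^ 1605 := by
            have := hD.R_hi
            gcongr
        _ = D.T ^ 2405 := by ring
        _ ≤ D.T ^ 2406 := hD.big.pw (by norm_num)
  · intro y hy
    have h1 : (∑ w : V × V, (if w.1 ∉ D.DD f ∧ w.2 ∉ D.DD f ∧ w.1 ≠ w.2 ∧ w.1 ∈ nb G y ∧
        D.phi f w.1 = D.phi f w.2 then ((cn G w.1 w.2 ∩ D.DD f).card : ℝ) else 0)) ≤
        ∑ z, ∑ z', if D.Same f z z' then D.wP y z z' else 0 := by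
      rw [← Fintype.sum_prod_type' (f := fun z z' => if D.Same f z z' then D.wP y z z' else 0)]
      refine sum_le_sum fun w _ => ?_
      have h5 : 0 ≤ D.wP y w.1 w.2 := by
        unfold wP cod
        split_ifs
        · exact Nat.cast_nonneg _
        · exact le_rfl
      split_ifs with h2 h3 h3
      · obtain ⟨h6, h7, h8, h9, h10⟩ := h2
        unfold wP
        rw [← hG] at h9
        rw [if_pos ⟨h9, fin_not_Spc hD H h6 h3⟩]
        unfold cod
        apply Nat.cast_le.2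
        apply card_le_card
        intro x hx
        rw [mem_inter] at hx
        exact (hcn _ _ _).1 hx.1
      · exact absurd (fin_same h2.2.2.1 (fin_ne_none h2.1) h2.2.2.2.2) h3
      · exact h5
      · exact le_rfl
    rw [← fin_sum_S2 hD] at h1
    refine le_trans ?_ (h1.trans ?_)
    · apply le_of_eq
      refine sum_congr rfl fun w _ => ?_
      split_ifs
      · rw [Nat.cast_inj]
        congr 1
        ext x
        simp only [mem_inter]
      · rfl
    · calc (∑ i ∈ range D.R, D.S2 f i (D.wP y)) ≤ ∑ i ∈ range D.R, 470 * D.T ^ 5204 :=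
            sum_le_sum fun i hi => (hs i (mem_range.1 hi)).sP y
        _ = D.R * (470 * D.T ^ 5204) := by rw [sum_const, card_range, nsmul_eq_mul]
        _ ≤ D.T ^ 800 * (470 * D.T ^ 5204) := by
            have := hD.R_hi
            gcongr
        _ = 470 * D.T ^ 6004 := by ring
        _ ≤ D.T ^ 6005 := by
            rw [pow_succ' D.T 6004]
            have := Tp hD 6004
            nlinarith
  · exact_mod_cast hn0
  · have e1 : (D.T ^ 3593) ^ 2 / D.T ^ 2394 = D.T ^ 4792 := by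
      rw [div_eq_iff (Tp hD _).ne', ← pow_mul, ← pow_add]
    have e2 : D.T ^ 4792 ≤ D.T ^ 4799 := hD.big.pw (by norm_num)
    have e3 : D.T ^ 3593 ≤ D.T ^ 4799 := hD.big.pw (by norm_num)
    have hn2 : 50 * D.T ^ 4799 ≤ (n : ℝ) / 2 := by linarith
    have hn3 : 0 < (n : ℝ) / 2 := by linarith
    have h4799 := Tp hD 4799
    have e4 : (4 * D.T ^ 2394 * (D.T ^ 3593) ^ 2 + D.T ^ 2406 * (D.T ^ 3593) ^ 2 +
        2 * D.T ^ 6005 * D.T ^ 3593) / (n / 2) ≤ D.T ^ 4799 := by
      rw [div_le_iff₀ hn3]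
      have h1 : 4 * D.T ^ 2394 * (D.T ^ 3593) ^ 2 + D.T ^ 2406 * (D.T ^ 3593) ^ 2 +
          2 * D.T ^ 6005 * D.T ^ 3593 = 4 * D.T ^ 9580 + D.T ^ 9592 + 2 * D.T ^ 9598 := by ring
      have h2 : D.T ^ 9580 ≤ D.T ^ 9598 := hD.big.pw (by norm_num)
      have h3 : D.T ^ 9592 ≤ D.T ^ 9598 := hD.big.pw (by norm_num)
      have h4 : D.T ^ 4799 * (50 * D.T ^ 4799) = 50 * D.T ^ 9598 := by ring
      have h5 : D.T ^ 4799 * (50 * D.T ^ 4799) ≤ D.T ^ 4799 * (n / 2) :=
        mul_le_mul_of_nonneg_left hn2 h4799.le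
      have h6 := Tp hD 9598
      rw [h1]
      linarith
    have e5 : 5 * (D.T ^ 3593) ^ 4 / ((n : ℝ) / 2) ^ 2 ≤ D.T ^ 4799 := by
      rw [div_le_iff₀ (by positivity)]
      have h1 : 5 * (D.T ^ 3593) ^ 4 = 5 * D.T ^ 14372 := by ring
      have h2 : D.T ^ 14372 ≤ D.T ^ 14397 := hD.big.pw (by norm_num)
      have h3 : (50 * D.T ^ 4799) ^ 2 ≤ ((n : ℝ) / 2) ^ 2 := by
        gcongr
      have h4 : D.T ^ 4799 * (50 * D.T ^ 4799) ^ 2 = 2500 * D.T ^ 14397 := by ring
      have h5 : D.T ^ 4799 * (50 * D.T ^ 4799) ^ 2 ≤ D.T ^ 4799 * (n / 2) ^ 2 :=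
        mul_le_mul_of_nonneg_left h3 h4799.le
      have h6 := Tp hD 14397
      rw [h1]
      linarith
    rw [e1]
    linarith

theorem final_colouring (hD : D.Ok) {G : SimpleGraph V} (hG : ∀ v, D.N v = nb G v)
    {f : V → Option (Fin D.k × ℕ)} (hs : ∀ i, i < D.R → D.DStat f i)
    (hd : ∀ i, i < D.R → D.DrB f i D.M)
    (hu : ∀ w, (((D.N w).filter fun v => f v = none).card : ℝ) ≤ D.T ^ 3592)
    (H : D.Sep f) {n : ℕ} (hn : 100 * D.T ^ 4799 ≤ n) :
    ∃ F : V → (Fin D.R × Option (Fin D.k)) ⊕ Fin n, IsAcyclicColouring G F :=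
  D1.recolour_ok (recol_ok hD hG hs hd hu H hn)

end OData

end

end Pool.Agent.AcyK
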