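import Pool.Agent.AcyK.DStat
import Pool.Agent.AcyK.DKind

/-! # The selection of a round and the dropped vertices (row D7a) -/

set_option autoImplicit false
set_option linter.unusedSectionVars false

namespace Pool.Agent.AcyK

open Finset
open Pool.Agent.Acy (IsPM wt Ex Pr mean)
open scoped Classical

universe u v

section

variable {V : Type u} [Fintype V] [DecidableEq V]

/-- Balls. -/
noncomputable def ldBall (N : V → Finset V) : ℕ → V → Finset V
  | 0, v => {v}
  | n + 1, v => ldBall N n v ∪ (ldBall N n v).biUnion N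

theorem ldBall_mono1 (N : V → Finset V) (n : ℕ) (v : V) : ldBall N n v ⊆ ldBall N (n + 1) v := by
  intro y hy
  show y ∈ ldBall N n v ∪ (ldBall N n v).biUnion N
  exact mem_union_left _ hy

theorem ldBall_right {N : V → Finset V} {n : ℕ} {v y z : V} (hy : y ∈ ldBall N n v)
    (hz : z ∈ N y) : z ∈ ldBall N (n + 1) v := by
  show z ∈ ldBall N n v ∪ (ldBall N n v).biUnion N
  exact mem_union_right _ (mem_biUnion.2 ⟨y, hy, hz⟩)

theorem ldBall_left {N : V → Finset V} {n : ℕ} {v w y : V} (hw : w ∈ N v)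
    (hy : y ∈ ldBall N n w) : y ∈ ldBall N (n + 1) v := by
  induction n generalizing y with
  | zero =>
    have h : y = w := mem_singleton.1 hy
    rw [h]
    exact ldBall_right (mem_singleton_self v) hw
  | succ n ih =>
    have h : y ∈ ldBall N n w ∪ (ldBall N n w).biUnion N := hy
    rcases mem_union.1 h with h | h
    · exact ldBall_mono1 N (n + 1) v (ih h)
    · obtain ⟨y', h1, h2⟩ := mem_biUnion.1 h
      exact ldBall_right (ih h1) h2

theorem ldBall_symm {N : V → Finset V} (hN : ∀ u v, u ∈ N v → v ∈ N u) {n : ℕ} {v y : V}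
    (hy : y ∈ ldBall N n v) : v ∈ ldBall N n y := by
  induction n generalizing y with
  | zero =>
    have h : y = v := mem_singleton.1 hy
    rw [h]
    exact mem_singleton_self v
  | succ n ih =>
    have h : y ∈ ldBall N n v ∪ (ldBall N n v).biUnion N := hy
    rcases mem_union.1 h with h | h
    · exact ldBall_mono1 N n y (ih h)
    · obtain ⟨y', h1, h2⟩ := mem_biUnion.1 h
      exact ldBall_left (hN _ _ h2) (ih h1)

theorem ldBall_card {N : V → Finset V} {T : ℝ} (hT : Big T)
    (hd : ∀ v, ((N v).card : ℝ) ≤ T ^ 3600) (n : ℕ) (v : V) :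
    ((ldBall N n v).card : ℝ) ≤ T ^ (3601 * n) := by
  induction n with
  | zero =>
    show ((({v} : Finset V)).card : ℝ) ≤ T ^ 0
    rw [card_singleton]
    simp
  | succ n ih =>
    have h1 : ((ldBall N (n + 1) v).card : ℝ) ≤
        (ldBall N n v).card + ((ldBall N n v).biUnion N).card := by
      exact_mod_cast card_union_le _ _
    have h2 : (((ldBall N n v).biUnion N).card : ℝ) ≤ (ldBall N n v).card * T ^ 3600 := by
      have h3 : (((ldBall N n v).biUnion N).card : ℝ) ≤ ∑ y ∈ ldBall N n v, ((N y).card : ℝ) := by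
        exact_mod_cast card_biUnion_le
      refine h3.trans ((sum_le_sum fun y _ => hd y).trans (le_of_eq ?_))
      rw [sum_const, nsmul_eq_mul]
    have hT1 := hT.one_le
    have h4 : (1 : ℝ) ≤ T ^ 3600 := one_le_pow₀ hT1
    have h5 : (2 : ℝ) * T ^ 3600 ≤ T ^ 3601 := by
      rw [pow_succ]
      nlinarith [hT.big]
    have h6 : (0 : ℝ) ≤ (ldBall N n v).card := Nat.cast_nonneg _
    have h7 : T ^ (3601 * (n + 1)) = T ^ (3601 * n) * T ^ 3601 := by
      rw [← pow_add]
      ring_nf
    rw [h7]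
    have h8 : ((ldBall N n v).card : ℝ) * T ^ 3601 ≤ T ^ (3601 * n) * T ^ 3601 :=
      mul_le_mul_of_nonneg_right ih (pow_nonneg hT.pos.le _)
    nlinarith

namespace OData

variable {D : OData V}

theorem ld_cf_ball {f : V → Option (Fin D.k × ℕ)} (hD : D.Ok) {v x : V} (h : D.Cf f v x) :
    x ∈ ldBall D.N 2 v := by
  obtain ⟨_, _, _, z, _, _, _, _, hz, _⟩ := h
  have h1 := mem_cN.1 hz
  exact ldBall_right (ldBall_right (mem_singleton_self v) h1.1) (hD.N_symm _ _ h1.2)

theorem ld_rp_ball (hD : D.Ok) {v x : V} (h : D.Rp v x) : x ∈ ldBall D.N 2 v := by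
  rcases h.2 with h | h
  · exact ldBall_mono1 D.N 1 v (ldBall_right (mem_singleton_self v) (hD.N_symm _ _ h))
  · have h1 : 0 < D.cod v x := lt_of_lt_of_le (pow_pos (T0 hD) _) h
    have h2 : 0 < (cN D.N v x).card := by
      have h3 : (0 : ℝ) < ((cN D.N v x).card : ℝ) := h1
      exact_mod_cast h3
    obtain ⟨z, hz⟩ := card_pos.1 h2
    have h3 := mem_cN.1 hz
    exact ldBall_right (ldBall_right (mem_singleton_self v) h3.1) (hD.N_symm _ _ h3.2)

/-- Number of the selected partners. -/
theorem ld_aux (hD : D.Ok) {j : ℕ} {μ : V → Option Bool → ℝ} (hμ : IsPM μ)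
    (h1 : ∀ y, μ y (some true) ≤ 1 / D.T ^ 133) (col : V → Option (Fin D.k × ℕ))
    (R : V → V → Prop) (hR : ∀ v y, R v y → y ∈ ldBall D.N 2 v)
    (hc : ∀ v, D.lv v = j → ((univ.filter fun y => R v y ∧ D.lv y = j).card : ℝ) ≤ D.T ^ 4017) :
    LocOK 39999 D.T μ (fun lam => ∀ v, D.lv v = j →
      ((univ.filter fun y => R v y ∧ D.Now j col lam y).card : ℝ) ≤ D.T ^ 3886) := by
  have hT := hD.big
  have hT0 := hT.pos
  have hT1 := hT.one_le
  have hcard : ∀ v, ((ldBall D.N 2 v).card : ℝ) ≤ D.T ^ 39999 := fun v =>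
    (ldBall_card hT hD.deg 2 v).trans (pow_le_pow_right₀ hT1 (by norm_num))
  have hone : (1 : ℝ) ≤ D.T ^ 3884 := one_le_pow₀ hT1
  have h := loc_single hT hμ (fun v : V => D.lv v = j)
    (fun v y a => if (R v y ∧ D.lv y = j ∧ col y = none) ∧ a = some true then (1 : ℝ) else 0)
    (fun v y a => by split_ifs <;> norm_num) (fun _ => D.T ^ 3884)
    (fun v _ => pow_pos hT0 _) ?_ ?_ (fun v => ldBall D.N 2 v) ?_ 39999
    (fun v _ => hcard v) ?_
  · obtain ⟨κ, hκ, E, S, hd, hp, hs, hi, hg⟩ := h
    refine ⟨κ, hκ, E, S, hd, hp, hs, hi, fun lam hE v hv => ?_⟩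
    have h2 := hg lam hE v hv
    have h3 : ((univ.filter fun y => R v y ∧ D.Now j col lam y).card : ℝ) =
        ∑ y, (if (R v y ∧ D.lv y = j ∧ col y = none) ∧ lam y = some true then (1 : ℝ) else 0) := by
      rw [sum_boole]
      refine congrArg (fun s : Finset V => (s.card : ℝ)) (filter_congr fun y _ => ?_)
      unfold Now
      tauto
    rw [h3]
    refine h2.trans ?_
    have h4 : D.T ^ 3886 = D.T * D.T * D.T ^ 3884 := by
      rw [show (3886 : ℕ) = 3884 + 1 + 1 from rfl, pow_succ, pow_succ]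
      ring
    rw [h4]
    have h5 := hT.big
    have h6 : 4 * D.T ≤ D.T * D.T := by nlinarith
    exact mul_le_mul_of_nonneg_right h6 (by positivity)
  · intro v hv
    have h2 : ∀ y, ∑ a, (if (R v y ∧ D.lv y = j ∧ col y = none) ∧ a = some true then (1 : ℝ)
        else 0) * μ y a ≤ (if R v y ∧ D.lv y = j then 1 / D.T ^ 133 else 0) := by
      intro y
      by_cases hy : R v y ∧ D.lv y = j ∧ col y = none
      · rw [if_pos ⟨hy.1, hy.2.1⟩]
        rw [Finset.sum_eq_single (some true)]
        · rw [if_pos ⟨hy, rfl⟩, one_mul]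
          exact h1 y
        · intro b _ hb
          rw [if_neg (fun hh => hb hh.2), zero_mul]
        · intro hh
          exact absurd (mem_univ _) hh
      · rw [Finset.sum_eq_zero]
        · split_ifs
          · positivity
          · exact le_rfl
        · intro b _
          rw [if_neg (fun hh => hy hh.1), zero_mul]
    refine (sum_le_sum fun y _ => h2 y).trans ?_
    rw [← sum_filter, sum_const, nsmul_eq_mul]
    have h3 := mul_le_mul_of_nonneg_right (hc v hv) (show 0 ≤ 1 / D.T ^ 133 by positivity)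
    refine h3.trans (le_of_eq ?_)
    rw [show (4017 : ℕ) = 3884 + 133 from rfl, pow_add]
    field_simp
  · intro v _ y a
    split_ifs
    · exact hone
    · exact zero_le_one.trans hone
  · intro v _ y a hne
    by_cases hy : (R v y ∧ D.lv y = j ∧ col y = none) ∧ a = some true
    · exact hR v y hy.1.1
    · exact absurd (if_neg hy) hne
  · intro y
    exact ⟨ldBall D.N 2 y, fun v _ hv => ldBall_symm hD.N_symm hv, hcard y⟩

/-- Two parts of `LamOK` (the part `nbr` comes from the tested sets). -/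
theorem lam_step (hD : D.Ok) {j : ℕ} {C : V → Option (Fin D.k × ℕ)} (hp : D.Past C j)
    {μ : V → Option Bool → ℝ} (hμ : IsPM μ) (h1 : ∀ y, μ y (some true) ≤ 1 / D.T ^ 133)
    (col : V → Option (Fin D.k × ℕ)) :
    LocOK 40000 D.T μ (fun lam =>
      (∀ v, D.lv v = j →
        ((univ.filter fun y => D.Rp v y ∧ D.Now j col lam y).card : ℝ) ≤ D.T ^ 3886) ∧
      ∀ v, D.lv v = j →
        ((univ.filter fun y => D.Cf C v y ∧ D.Now j col lam y).card : ℝ) ≤ D.T ^ 3886) := by
  have hT := hD.big
  refine LocOK.and hT (ld_aux hD hμ h1 col D.Rp (fun v y h => ld_rp_ball hD h) ?_)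
    (ld_aux hD hμ h1 col (D.Cf C) (fun v y h => ld_cf_ball hD h) ?_)
  · intro v hv
    refine le_trans ?_ (rp_card hD v)
    have h2 : (univ.filter fun y => D.Rp v y ∧ D.lv y = j) ⊆
        (univ.filter fun u => D.rel u v ∨ D.spe u v) := by
      intro y hy
      rw [mem_filter] at hy ⊢
      obtain ⟨_, ⟨hne, h⟩, hj⟩ := hy
      refine ⟨mem_univ _, ?_⟩
      have hl : D.lv y = D.lv v := by rw [hj, hv]
      by_cases hs : y ∈ D.N v ∨ D.am < D.cod y v
      · exact Or.inr ⟨fun h => hne h.symm, hl, hs⟩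
      · have hs1 : y ∉ D.N v := fun h => hs (Or.inl h)
        have hs2 : D.cod y v ≤ D.am := not_lt.1 fun h => hs (Or.inr h)
        refine Or.inl ⟨fun h => hne h.symm, hl, hs1, ?_, hs2⟩
        rcases h with h | h
        · exact absurd (hD.N_symm _ _ h) hs1
        · rwa [cod_comm hD]
    exact_mod_cast card_le_card h2
  · intro v hv
    have h2 := cf_count hD (f := C) v (fun i hi => hp.stat i (by rw [← hv]; exact hi))
    have h3 : ((univ.filter fun y => D.Cf C v y ∧ D.lv y = j).card : ℝ) ≤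
        ((univ.filter fun y => D.Cf C v y).card : ℝ) := by
      exact_mod_cast card_le_card (fun y hy => by
        rw [mem_filter] at hy ⊢
        exact ⟨hy.1, hy.2.1⟩)
    refine h3.trans (h2.trans ?_)
    have h4 : D.T ^ 4017 = D.T ^ 28 * D.T ^ 3989 := by rw [← pow_add]
    rw [h4]
    have h5 : (1000 : ℝ) ≤ D.T ^ 28 := by
      have h6 := hT.big
      calc (1000 : ℝ) ≤ D.T := by linarith
        _ = D.T ^ 1 := (pow_one _).symm
        _ ≤ D.T ^ 28 := pow_le_pow_right₀ hT.one_le (by norm_num)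
    exact mul_le_mul_of_nonneg_right h5 (pow_nonneg hT.pos.le _)

end OData

end

end Pool.Agent.AcyK
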