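import Mathlib

/-! # Rosenfeld counting (module D1 of MP_af9dfb_K, helper44) -/

set_option autoImplicit false
set_option linter.unusedSectionVars false

namespace Pool.Agent.AcyK.D1

open Finset
open scoped Classical

universe u v

section Rosenfeld

variable {V : Type u} [Fintype V] [DecidableEq V] {κ : Type v} [Fintype κ] {n : ℕ}

/-- Functions that avoid all the forbidden structures inside `S`. -/
noncomputable def Av (X : κ → Finset V) (E : κ → (V → Fin n) → Prop) (S : Finset V) :
    Finset (V → Fin n) :=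
  univ.filter fun f => ∀ s, X s ⊆ S → ¬ E s f

theorem mem_Av {X : κ → Finset V} {E : κ → (V → Fin n) → Prop} {S : Finset V} {f : V → Fin n} :
    f ∈ Av X E S ↔ ∀ s, X s ⊆ S → ¬ E s f := by
  simp [Av]

/-- One structure: few functions realise it. -/
theorem card_bad {X : κ → Finset V} {E : κ → (V → Fin n) → Prop}
    (hdep : ∀ s f g, (∀ x ∈ X s, f x = g x) → E s f → E s g) (S : Finset V) (v : V)
    (hv : v ∉ S) (s : κ) (R : Finset V) (hR : v ∉ R)
    (huniq : ∀ f g, E s f → E s g → (∀ x, x ∉ insert v R → f x = g x) → f = g) :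
    ((Av X E S).filter fun f => E s f).card * n ^ (R.card + 1) ≤ (Av X E (S \ R)).card := by
  have hc : n ^ (R.card + 1) = Fintype.card ({x // x ∈ insert v R} → Fin n) := by
    rw [Fintype.card_fun, Fintype.card_fin, Fintype.card_coe, card_insert_of_notMem hR]
  rw [hc, ← card_univ, ← card_product]
  refine card_le_card_of_injOn
    (fun q x => if h : x ∈ insert v R then q.2 ⟨x, h⟩ else q.1 x) ?_ ?_
  · rintro ⟨f, g⟩ hq
    simp only [coe_product, Set.mem_prod, mem_coe, mem_filter] at hq
    rw [mem_coe, mem_Av]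
    intro s' hs' hE
    refine mem_Av.mp hq.1.1 s' (hs'.trans sdiff_subset) (hdep s' _ _ ?_ hE)
    intro x hx
    have hx' := mem_sdiff.mp (hs' hx)
    have : x ∉ insert v R := by
      rw [mem_insert, not_or]
      exact ⟨fun h => hv (h ▸ hx'.1), hx'.2⟩
    simp only [dif_neg this]
  · rintro ⟨f, g⟩ hq ⟨f', g'⟩ hq' heq
    simp only [coe_product, Set.mem_prod, mem_coe, mem_filter] at hq hq'
    have h1 : f = f' := by
      refine huniq f f' hq.1.2 hq'.1.2 fun x hx => ?_
      have := congrFun heq x
      simpa only [dif_neg hx] using this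
    have h2 : g = g' := by
      funext x
      have := congrFun heq x.1
      simpa only [dif_pos x.2] using this
    rw [h1, h2]

/-- Removing vertices costs at most a factor two per vertex. -/
theorem card_Av_sdiff {X : κ → Finset V} {E : κ → (V → Fin n) → Prop} (S : Finset V)
    (ih : ∀ S' : Finset V, S'.card < S.card → ∀ v ∉ S',
      ((Av X E S').card : ℝ) ≤ 2 * (Av X E (insert v S')).card) (R : Finset V) :
    R ⊆ S → ((Av X E (S \ R)).card : ℝ) ≤ 2 ^ R.card * (Av X E S).card := by
  induction R using Finset.induction_on with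
  | empty => intro _; simp
  | insert a R ha hind =>
    intro hR
    have hR' : R ⊆ S := (subset_insert a R).trans hR
    have haS : a ∈ S := hR (mem_insert_self a R)
    have e1 : S \ insert a R = (S \ R).erase a := by
      ext x
      simp only [mem_sdiff, mem_insert, mem_erase, not_or]
      tauto
    have e2 : insert a ((S \ R).erase a) = S \ R := insert_erase (mem_sdiff.mpr ⟨haS, ha⟩)
    have hlt : ((S \ R).erase a).card < S.card := by
      refine lt_of_lt_of_le (card_erase_lt_of_mem (mem_sdiff.mpr ⟨haS, ha⟩)) ?_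
      exact card_le_card sdiff_subset
    have h1 := ih _ hlt a (notMem_erase a _)
    rw [e2] at h1
    rw [e1, card_insert_of_notMem ha, pow_succ]
    calc ((Av X E ((S \ R).erase a)).card : ℝ) ≤ 2 * (Av X E (S \ R)).card := h1
      _ ≤ 2 * (2 ^ R.card * (Av X E S).card) := by
          have := hind hR'
          linarith
      _ = _ := by ring

/-- Rosenfeld counting: the number of good functions grows. -/
theorem card_Av_insert (hn : 0 < n) {X : κ → Finset V} {E : κ → (V → Fin n) → Prop}
    (hdep : ∀ s f g, (∀ x ∈ X s, f x = g x) → E s f → E s g)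
    (rem : κ → V → Finset V) (hrem : ∀ s, ∀ v ∈ X s, rem s v ⊆ (X s).erase v)
    (huniq : ∀ s, ∀ v ∈ X s, ∀ f g, E s f → E s g →
      (∀ x, x ∉ insert v (rem s v) → f x = g x) → f = g)
    (hsum : ∀ v, ∑ s with v ∈ X s, (2 : ℝ) ^ (rem s v).card / (n : ℝ) ^ ((rem s v).card + 1)
      ≤ 1 / 2) (S : Finset V) :
    ∀ v ∉ S, ((Av X E S).card : ℝ) ≤ 2 * (Av X E (insert v S)).card := by
  induction h : S.card using Nat.strong_induction_on generalizing S with
  | _ N ih =>
    intro v hv
    have ih' : ∀ S' : Finset V, S'.card < S.card → ∀ v ∉ S',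
        ((Av X E S').card : ℝ) ≤ 2 * (Av X E (insert v S')).card := by
      intro S' hS' w hw
      exact ih S'.card (h ▸ hS') S' rfl w hw
    have hn' : (0 : ℝ) < n := by exact_mod_cast hn
    set W := univ.filter fun s => v ∈ X s ∧ X s ⊆ insert v S with hW
    have hsub : Av X E S ⊆ Av X E (insert v S) ∪
        W.biUnion fun s => (Av X E S).filter fun f => E s f := by
      intro f hf
      rw [mem_union]
      by_cases hf2 : f ∈ Av X E (insert v S)
      · exact Or.inl hf2
      · right
        rw [mem_Av] at hf2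
        push Not at hf2
        obtain ⟨s, hs, hE⟩ := hf2
        have hvs : v ∈ X s := by
          by_contra hvs
          refine mem_Av.mp hf s (fun x hx => ?_) hE
          rcases mem_insert.mp (hs hx) with h1 | h1
          · exact absurd (h1 ▸ hx) hvs
          · exact h1
        exact mem_biUnion.mpr ⟨s, mem_filter.mpr ⟨mem_univ _, hvs, hs⟩, mem_filter.mpr ⟨hf, hE⟩⟩
    have hc1 : ((Av X E S).card : ℝ) ≤ (Av X E (insert v S)).card +
        ∑ s ∈ W, (((Av X E S).filter fun f => E s f).card : ℝ) := by
      have h1 := (card_le_card hsub).trans (card_union_le _ _)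
      have h2 := h1.trans (Nat.add_le_add_left card_biUnion_le _)
      exact_mod_cast h2
    have hc2 : ∀ s ∈ W, (((Av X E S).filter fun f => E s f).card : ℝ) ≤
        (2 : ℝ) ^ (rem s v).card / (n : ℝ) ^ ((rem s v).card + 1) * (Av X E S).card := by
      intro s hs
      obtain ⟨-, hvs, hsS⟩ := mem_filter.mp hs
      have hvr : v ∉ rem s v := fun hr => (mem_erase.mp (hrem s v hvs hr)).1 rfl
      have h1 := card_bad hdep S v hv s (rem s v) hvr (huniq s v hvs)
      have hRS : rem s v ⊆ S := by
        intro x hx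
        have hx' := mem_erase.mp (hrem s v hvs hx)
        rcases mem_insert.mp (hsS hx'.2) with h2 | h2
        · exact absurd h2 hx'.1
        · exact h2
      have h2 := card_Av_sdiff (E := E) S ih' (rem s v) hRS
      have h3 : (((Av X E S).filter fun f => E s f).card : ℝ) * (n : ℝ) ^ ((rem s v).card + 1) ≤
          (Av X E (S \ rem s v)).card := by exact_mod_cast h1
      rw [div_mul_eq_mul_div, le_div_iff₀ (by positivity)]
      exact h3.trans h2
    have hc3 : ∑ s ∈ W, (((Av X E S).filter fun f => E s f).card : ℝ) ≤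
        1 / 2 * (Av X E S).card := by
      calc ∑ s ∈ W, (((Av X E S).filter fun f => E s f).card : ℝ)
          ≤ ∑ s ∈ W, (2 : ℝ) ^ (rem s v).card / (n : ℝ) ^ ((rem s v).card + 1) *
            (Av X E S).card := sum_le_sum hc2
        _ = (∑ s ∈ W, (2 : ℝ) ^ (rem s v).card / (n : ℝ) ^ ((rem s v).card + 1)) *
            (Av X E S).card := by rw [sum_mul]
        _ ≤ 1 / 2 * (Av X E S).card := by
            refine mul_le_mul_of_nonneg_right (le_trans ?_ (hsum v)) (Nat.cast_nonneg _)
            refine sum_le_sum_of_subset_of_nonneg ?_ fun s _ _ => by positivity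
            intro s hs
            exact mem_filter.mpr ⟨mem_univ _, (mem_filter.mp hs).2.1⟩
    linarith

/-- Existence of a function avoiding all structures. -/
theorem exists_avoid (hn : 0 < n) {X : κ → Finset V} {E : κ → (V → Fin n) → Prop}
    (hne : ∀ s, (X s).Nonempty)
    (hdep : ∀ s f g, (∀ x ∈ X s, f x = g x) → E s f → E s g)
    (rem : κ → V → Finset V) (hrem : ∀ s, ∀ v ∈ X s, rem s v ⊆ (X s).erase v)
    (huniq : ∀ s, ∀ v ∈ X s, ∀ f g, E s f → E s g →
      (∀ x, x ∉ insert v (rem s v) → f x = g x) → f = g)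
    (hsum : ∀ v, ∑ s with v ∈ X s, (2 : ℝ) ^ (rem s v).card / (n : ℝ) ^ ((rem s v).card + 1)
      ≤ 1 / 2) : ∃ f : V → Fin n, ∀ s, ¬ E s f := by
  have key : ∀ S : Finset V, 0 < (Av X E S).card := by
    intro S
    induction S using Finset.induction_on with
    | empty =>
      have : Nonempty (Fin n) := ⟨⟨0, hn⟩⟩
      refine card_pos.mpr ⟨fun _ => ⟨0, hn⟩, mem_Av.mpr fun s hs => ?_⟩
      obtain ⟨x, hx⟩ := hne s
      exact absurd (hs hx) (notMem_empty x)
    | insert a S ha ih =>
      have h1 := card_Av_insert hn hdep rem hrem huniq hsum S a ha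
      have h2 : (0 : ℝ) < (Av X E S).card := by exact_mod_cast ih
      have h3 : (0 : ℝ) < (Av X E (insert a S)).card := by linarith
      exact_mod_cast h3
  obtain ⟨f, hf⟩ := card_pos.mp (key univ)
  exact ⟨f, fun s => mem_Av.mp hf s (subset_univ _)⟩

/-- The structure `s` with vertex set `X s` and classes `cl s` is monochromatic on each class. -/
def Mono (X : κ → Finset V) (cl : κ → V → Bool) (s : κ) (f : V → Fin n) : Prop :=
  ∀ x ∈ X s, ∀ y ∈ X s, cl s x = cl s y → f x = f y

/-- Rosenfeld counting for structures given by classes. `K s v` is the set of kept vertices. -/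
theorem exists_avoid_mono (hn : 0 < n) (X : κ → Finset V) (cl : κ → V → Bool)
    (K : κ → V → Finset V) (e : κ → ℕ) (hne : ∀ s, (X s).Nonempty)
    (hK : ∀ s, ∀ v ∈ X s, K s v ⊆ (X s).erase v)
    (hcl : ∀ s, ∀ v ∈ X s, ∀ x ∈ X s, ∃ y ∈ K s v, cl s y = cl s x)
    (he : ∀ s, ∀ v ∈ X s, (X s).card = (K s v).card + (e s + 1))
    (hsum : ∀ v, ∑ s with v ∈ X s, (2 : ℝ) ^ (e s) / (n : ℝ) ^ (e s + 1) ≤ 1 / 2) :
    ∃ f : V → Fin n, ∀ s, ¬ Mono X cl s f := by
  have hcard : ∀ s, ∀ v ∈ X s, (((X s).erase v) \ K s v).card = e s := by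
    intro s v hv
    have h1 := he s v hv
    have h2 := card_sdiff_add_card_eq_card (hK s v hv)
    rw [card_erase_of_mem hv] at h2
    omega
  refine exists_avoid hn (X := X) (E := Mono X cl) hne ?_
    (fun s v => ((X s).erase v) \ K s v) ?_ ?_ ?_
  · intro s f g hfg hf x hx y hy hxy
    rw [← hfg x hx, ← hfg y hy]
    exact hf x hx y hy hxy
  · intro s v _
    exact sdiff_subset
  · intro s v hv f g hf hg hfg
    have hKx : ∀ y ∈ K s v, y ∉ insert v (((X s).erase v) \ K s v) := by
      intro y hy
      rw [mem_insert, not_or]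
      exact ⟨(mem_erase.mp (hK s v hv hy)).1, fun h => (mem_sdiff.mp h).2 hy⟩
    funext x
    by_cases hx : x ∈ insert v (((X s).erase v) \ K s v)
    · have hxX : x ∈ X s := by
        rcases mem_insert.mp hx with h | h
        · rw [h]; exact hv
        · exact (mem_erase.mp (mem_sdiff.mp h).1).2
      obtain ⟨y, hy, hyx⟩ := hcl s v hv x hxX
      have hyX : y ∈ X s := (mem_erase.mp (hK s v hv hy)).2
      rw [← hf y hyX x hxX hyx, ← hg y hyX x hxX hyx]
      exact hfg y (hKx y hy)
    · exact hfg x hx
  · intro v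
    refine le_trans (le_of_eq (sum_congr rfl fun s hs => ?_)) (hsum v)
    rw [hcard s v (mem_filter.mp hs).2]

end Rosenfeld

end Pool.Agent.AcyK.D1
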