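import Pool.Agent.AcyK.DBase
import Pool.Agent.AcyK.DKind
import Pool.Agent.AcyK.Count5

/-! # Dropped vertices, rule (c) (row D4) -/

set_option autoImplicit false
set_option linter.unusedSectionVars false

namespace Pool.Agent.AcyK

open Finset
open Pool.Agent.Acy (IsPM wt Ex Pr mean cnt ext Holds)
open scoped Classical

universe u v

section

variable {V : Type u} [Fintype V] [DecidableEq V]

namespace OData

/-! ### The measure `e` -/

section defs

variable (D : OData V) (j : ℕ) (f : V → Option (Fin D.k × ℕ)) (Nw : V → Prop)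
  (W : Finset (V × Fin D.k))

/-- Vertices coloured before. -/
noncomputable def eA (y : V) (c : Fin D.k) : ℝ := if D.lv y = j ∧ hasCol f y c then 1 else 0

/-- Vertices that pick now. -/
noncomputable def eB (y : V) (c : Fin D.k) : ℝ :=
  if Nw y then (if (y, c) ∈ W then 1 else D.rho) else 0

/-- The measure. -/
noncomputable def em (y : V) (c : Fin D.k) : ℝ := D.eA j f y c + D.eB Nw W y c

/-- Number of conditions with the colour `c`. -/
noncomputable def wc (c : Fin D.k) : ℝ := ((W.filter fun q => q.2 = c).card : ℝ)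

end defs

variable {D : OData V} {j : ℕ} {f : V → Option (Fin D.k × ℕ)} {Nw : V → Prop}
  {W : Finset (V × Fin D.k)}

theorem ite0_dc {P : Prop} [Decidable P] {a : ℝ} (h : 0 ≤ a) : 0 ≤ if P then a else 0 := by
  split_ifs
  · exact h
  · exact le_rfl

theorem wB_nonneg_dc (a y : V) : 0 ≤ D.wB a y := by
  unfold wB
  split_ifs <;> norm_num

theorem wB_le_dc (a y : V) : D.wB a y ≤ 1 := by
  unfold wB
  split_ifs <;> norm_num

theorem eA_nonneg_dc (y : V) (c : Fin D.k) : 0 ≤ D.eA j f y c := by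
  unfold eA
  split_ifs <;> norm_num

theorem wc_nonneg_dc (c : Fin D.k) : 0 ≤ D.wc W c := Nat.cast_nonneg _

theorem wc_le_dc (hW : W.card ≤ 5) (c : Fin D.k) : D.wc W c ≤ 5 := by
  unfold wc
  have h1 : (W.filter fun q => q.2 = c).card ≤ W.card := card_le_card (filter_subset _ _)
  exact_mod_cast h1.trans hW

theorem sum_wc_dc (hW : W.card ≤ 5) : ∑ c, D.wc W c ≤ 5 := by
  unfold wc
  have h1 : ∑ c : Fin D.k, (W.filter fun q => q.2 = c).card = W.card :=
    (card_eq_sum_card_fiberwise (t := univ) fun _ _ => mem_coe.2 (mem_univ _)).symm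
  rw [← h1] at hW
  exact_mod_cast hW

section

variable (hD : D.Ok)
include hD

theorem eB_nonneg_dc (y : V) (c : Fin D.k) : 0 ≤ D.eB Nw W y c := by
  have := rho_pos hD
  unfold eB
  split_ifs
  · norm_num
  · exact this.le
  · exact le_rfl

theorem em_nonneg_dc (y : V) (c : Fin D.k) : 0 ≤ D.em j f Nw W y c :=
  add_nonneg (eA_nonneg_dc _ _) (eB_nonneg_dc hD _ _)

theorem eB_le_dc (y : V) (c : Fin D.k) : D.eB Nw W y c ≤
    D.rho * (if Nw y then 1 else 0) + (if (y, c) ∈ W then 1 else 0) := by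
  have := rho_pos hD
  unfold eB
  split_ifs <;> linarith

end

/-- Facts used for the measure. -/
structure CH (D : OData V) (j : ℕ) (f : V → Option (Fin D.k × ℕ)) (Nw : V → Prop) : Prop where
  ok : D.Ok
  now : ∀ y, Nw y → D.lv y = j ∧ f y = none
  nbr : ∀ w, ((univ.filter fun y => y ∈ D.N w ∧ Nw y).card : ℝ) ≤ D.T ^ 2668
  l1 : ∀ a c, D.L1 f j c (D.wB a) ≤ D.T ^ 152
  s2 : ∀ a b, (a = b ∨ (cN D.N a b).Nonempty) → D.S2 f j (D.wM a b) ≤ D.T ^ 1609

section

variable (H : CH D j f Nw) (hW : W.card ≤ 5)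
include H

theorem beta_le_dc : D.rho * D.T ^ 2668 ≤ 1 := by
  have h := rho_mul_le H.ok (a := 2668) (b := 0) (by norm_num)
  rwa [pow_zero] at h

/-- `L1` is the sum of `eA`. -/
theorem sum_eA_dc (a : V) (c : Fin D.k) : ∑ y, D.wB a y * D.eA j f y c = D.L1 f j c (D.wB a) := by
  unfold L1 eA
  refine sum_congr rfl fun y _ => ?_
  split_ifs <;> simp

theorem sum_sum_eA_dc (a : V) : ∑ c, ∑ y, D.wB a y * D.eA j f y c ≤ 3 * D.T ^ 2800 := by
  rw [sum_comm]
  have h1 : ∀ y, ∑ c, D.wB a y * D.eA j f y c ≤ if y ∈ D.N a ∧ D.lv y = j then 1 else 0 := by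
    intro y
    rw [← mul_sum]
    unfold wB eA
    by_cases h1 : y ∈ D.N a
    · by_cases h2 : D.lv y = j
      · simp only [h1, h2, true_and, and_self, if_true, one_mul]
        by_cases h3 : ∃ c, hasCol f y c
        · obtain ⟨c, hc⟩ := h3
          rw [sum_eq_single c]
          · split_ifs <;> norm_num
          · intro c' _ hc'
            rw [if_neg]
            intro h4
            exact hc' (hasCol_unique h4 hc)
          · intro h4
            exact absurd (mem_univ _) h4
        · push Not at h3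
          rw [sum_eq_zero]
          · norm_num
          · intro c _
            rw [if_neg (h3 c)]
      · simp [h2]
    · simp [h1]
  refine (sum_le_sum fun y _ => h1 y).trans ?_
  rw [← sum_filter, sum_const, nsmul_eq_mul, mul_one]
  refine le_trans ?_ (pb1 H.ok a j)
  have h2 : (univ.filter fun y => y ∈ D.N a ∧ D.lv y = j) ⊆
      (D.N a).filter fun z => D.lv z = j := by
    intro y hy
    rw [mem_filter] at hy ⊢
    exact hy.2
  exact_mod_cast card_le_card h2

theorem sum_eB_dc (a : V) (c : Fin D.k) :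
    ∑ y, D.wB a y * D.eB Nw W y c ≤ D.rho * D.T ^ 2668 + D.wc W c := by
  have hr := rho_pos H.ok
  calc ∑ y, D.wB a y * D.eB Nw W y c
      ≤ ∑ y, (D.rho * (if y ∈ D.N a ∧ Nw y then 1 else 0) +
          (if (y, c) ∈ W then 1 else 0)) := by
        refine sum_le_sum fun y _ => ?_
        refine (mul_le_mul_of_nonneg_left (eB_le_dc H.ok y c) (wB_nonneg_dc a y)).trans ?_
        unfold wB
        by_cases h1 : y ∈ D.N a
        · simp [h1]
        · simp only [h1, false_and, if_false, zero_mul, mul_zero, zero_add]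
          split_ifs <;> norm_num
    _ = D.rho * ((univ.filter fun y => y ∈ D.N a ∧ Nw y).card : ℝ) +
          ((univ.filter fun y : V => (y, c) ∈ W).card : ℝ) := by
        rw [sum_add_distrib, ← mul_sum, ← sum_filter, ← sum_filter, sum_const, sum_const,
          nsmul_eq_mul, nsmul_eq_mul, mul_one, mul_one]
    _ ≤ D.rho * D.T ^ 2668 + D.wc W c := by
        refine add_le_add (mul_le_mul_of_nonneg_left (H.nbr a) hr.le) ?_
        unfold wc
        have h1 : (univ.filter fun y : V => (y, c) ∈ W).card ≤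
            (W.filter fun q => q.2 = c).card := by
          refine card_le_card_of_injOn (fun y => (y, c)) ?_ ?_
          · intro y hy
            have hy' := (mem_filter.1 (mem_coe.1 hy)).2
            exact mem_coe.2 (mem_filter.2 ⟨hy', rfl⟩)
          · intro y _ y' _ h
            exact (Prod.ext_iff.1 h).1
        exact_mod_cast h1

/-- (e1_dc). -/
theorem e1_dc (a : V) (c : Fin D.k) (hW : W.card ≤ 5) :
    ∑ y, D.wB a y * D.em j f Nw W y c ≤ D.T ^ 153 := by
  have h1 : ∑ y, D.wB a y * D.em j f Nw W y c =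
      ∑ y, D.wB a y * D.eA j f y c + ∑ y, D.wB a y * D.eB Nw W y c := by
    rw [← sum_add_distrib]
    exact sum_congr rfl fun y _ => by unfold em; ring
  rw [h1, sum_eA_dc H]
  have h2 := sum_eB_dc H (W := W) a c
  have h3 := H.l1 a c
  have h4 := beta_le_dc H
  have h5 := wc_le_dc hW c
  have h6 : D.T ^ 153 = D.T * D.T ^ 152 := by ring
  have h7 : (1 : ℝ) ≤ D.T ^ 152 := one_le_pow₀ H.ok.big.one_le
  have h8 := Tb H.ok
  nlinarith

/-- (e2_dc). -/
theorem e2_dc (a b : V) (hab : a = b ∨ (cN D.N a b).Nonempty) (hW : W.card ≤ 5) :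
    ∑ c, ∑ y, ∑ y', (if y ≠ y' then (D.wB a y * D.em j f Nw W y c) *
      (D.wB b y' * D.em j f Nw W y' c) else 0) ≤ D.T ^ 1610 := by
  have hr := rho_pos H.ok
  have hT := Tb H.ok
  have hT0 := T0 H.ok
  set XA : V → Fin D.k → ℝ := fun a c => ∑ y, D.wB a y * D.eA j f y c with hXA
  set XB : V → Fin D.k → ℝ := fun a c => ∑ y, D.wB a y * D.eB Nw W y c with hXB
  have hXA0 : ∀ a c, 0 ≤ XA a c := fun a c =>
    sum_nonneg fun y _ => mul_nonneg (wB_nonneg_dc _ _) (eA_nonneg_dc _ _)
  have hXB0 : ∀ a c, 0 ≤ XB a c := fun a c =>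
    sum_nonneg fun y _ => mul_nonneg (wB_nonneg_dc _ _) (eB_nonneg_dc H.ok _ _)
  have hXA1 : ∀ a c, XA a c ≤ D.T ^ 152 := fun a c => (sum_eA_dc H a c).le.trans (H.l1 a c)
  have hXA2 : ∀ a, ∑ c, XA a c ≤ 3 * D.T ^ 2800 := fun a => sum_sum_eA_dc H a
  have hXB1 : ∀ a c, XB a c ≤ D.rho * D.T ^ 2668 + D.wc W c := fun a c => sum_eB_dc H a c
  -- the past pairs
  have hpp : ∑ c, ∑ y, ∑ y', (if y ≠ y' then (D.wB a y * D.eA j f y c) *
      (D.wB b y' * D.eA j f y' c) else 0) ≤ D.S2 f j (D.wM a b) := by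
    calc ∑ c, ∑ y, ∑ y', (if y ≠ y' then (D.wB a y * D.eA j f y c) *
        (D.wB b y' * D.eA j f y' c) else 0)
        = ∑ y, ∑ y', ∑ c, (if y ≠ y' then (D.wB a y * D.eA j f y c) *
            (D.wB b y' * D.eA j f y' c) else 0) := by
          rw [sum_comm]
          exact sum_congr rfl fun y _ => sum_comm
      _ ≤ D.S2 f j (D.wM a b) := by
          unfold S2
          refine sum_le_sum fun y _ => sum_le_sum fun y' _ => ?_
          by_cases hne : y ≠ y'
          · simp only [hne, ne_eq, not_false_eq_true, if_true]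
            have h1 : ∀ c, (D.wB a y * D.eA j f y c) * (D.wB b y' * D.eA j f y' c) =
                D.wM a b y y' * (D.eA j f y c * D.eA j f y' c) := by
              intro c
              unfold wB wM
              by_cases h2 : y ∈ D.N a <;> by_cases h3 : y' ∈ D.N b <;> simp [h2, h3]
            simp only [h1]
            rw [← mul_sum]
            have hM0 : 0 ≤ D.wM a b y y' := by
              unfold wM
              split_ifs <;> norm_num
            have h4 : ∑ c, D.eA j f y c * D.eA j f y' c ≤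
                if D.lv y = j ∧ D.Same f y y' then 1 else 0 := by
              by_cases h5 : ∃ c, D.eA j f y c * D.eA j f y' c ≠ 0
              · obtain ⟨c, hc⟩ := h5
                have h6 : D.lv y = j ∧ hasCol f y c := by
                  by_contra h7
                  exact (left_ne_zero_of_mul hc) (if_neg h7)
                have h8 : D.lv y' = j ∧ hasCol f y' c := by
                  by_contra h7
                  exact (right_ne_zero_of_mul hc) (if_neg h7)
                rw [if_pos ⟨h6.1, hne, h6.1.trans h8.1.symm, c, h6.2, h8.2⟩,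
                  sum_eq_single c]
                · unfold eA
                  rw [if_pos h6, if_pos h8, one_mul]
                · intro c' _ hc'
                  unfold eA
                  rw [if_neg, zero_mul]
                  intro h9
                  exact hc' (hasCol_unique h9.2 h6.2)
                · intro h9
                  exact absurd (mem_univ _) h9
              · push Not at h5
                rw [sum_eq_zero fun c _ => h5 c]
                split_ifs <;> norm_num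
            refine (mul_le_mul_of_nonneg_left h4 hM0).trans ?_
            split_ifs
            · rw [mul_one]
            · rw [mul_zero]
          · simp only [hne, if_false, sum_const_zero]
            split_ifs
            · unfold wM
              split_ifs <;> norm_num
            · exact le_rfl
  have hsplit : ∀ c, ∑ y, ∑ y', (if y ≠ y' then (D.wB a y * D.em j f Nw W y c) *
      (D.wB b y' * D.em j f Nw W y' c) else 0) ≤
      ∑ y, ∑ y', (if y ≠ y' then (D.wB a y * D.eA j f y c) *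
        (D.wB b y' * D.eA j f y' c) else 0) +
      (XA a c * XB b c + XB a c * XA b c + XB a c * XB b c) := by
    intro c
    simp only [hXA, hXB]
    rw [sum_mul_sum, sum_mul_sum, sum_mul_sum, ← sum_add_distrib, ← sum_add_distrib,
      ← sum_add_distrib]
    refine sum_le_sum fun y _ => ?_
    rw [← sum_add_distrib, ← sum_add_distrib, ← sum_add_distrib]
    refine sum_le_sum fun y' _ => ?_
    have a1 := eA_nonneg_dc (D := D) (j := j) (f := f) y c
    have a2 := eA_nonneg_dc (D := D) (j := j) (f := f) y' c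
    have a3 := eB_nonneg_dc H.ok (Nw := Nw) (W := W) y c
    have a4 := eB_nonneg_dc H.ok (Nw := Nw) (W := W) y' c
    have a5 := wB_nonneg_dc (D := D) a y
    have a6 := wB_nonneg_dc (D := D) b y'
    have b1 := mul_nonneg (mul_nonneg a5 a1) (mul_nonneg a6 a4)
    have b2 := mul_nonneg (mul_nonneg a5 a3) (mul_nonneg a6 a2)
    have b3 := mul_nonneg (mul_nonneg a5 a3) (mul_nonneg a6 a4)
    unfold em
    split_ifs
    · refine le_of_eq ?_
      ring
    · linarith
  refine (sum_le_sum fun c _ => hsplit c).trans ?_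
  rw [sum_add_distrib, sum_add_distrib, sum_add_distrib]
  have hw5 := sum_wc_dc hW
  have hβ := beta_le_dc H
  have hβ0 : 0 ≤ D.rho * D.T ^ 2668 := mul_nonneg hr.le (Tp H.ok _).le
  have hAB : ∀ a b, ∑ c, XA a c * XB b c ≤ D.T ^ 1608 := by
    intro a b
    calc ∑ c, XA a c * XB b c ≤ ∑ c, (D.rho * D.T ^ 2668 * XA a c + D.T ^ 152 * D.wc W c) := by
          refine sum_le_sum fun c _ => ?_
          have h1 := mul_le_mul_of_nonneg_left (hXB1 b c) (hXA0 a c)
          have h2 := mul_le_mul_of_nonneg_right (hXA1 a c) (wc_nonneg_dc (D := D) (W := W) c)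
          linarith
      _ = D.rho * D.T ^ 2668 * ∑ c, XA a c + D.T ^ 152 * ∑ c, D.wc W c := by
          rw [sum_add_distrib, ← mul_sum, ← mul_sum]
      _ ≤ D.rho * D.T ^ 2668 * (3 * D.T ^ 2800) + D.T ^ 152 * 5 :=
          add_le_add (mul_le_mul_of_nonneg_left (hXA2 a) hβ0)
            (mul_le_mul_of_nonneg_left hw5 (Tp H.ok _).le)
      _ = 3 * (D.rho * D.T ^ 5468) + 5 * D.T ^ 152 := by ring
      _ ≤ 3 * D.T ^ 1600 + 5 * D.T ^ 1600 := by
          have h1 := rho_mul_le H.ok (a := 5468) (b := 1600) (by norm_num)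
          have h2 := H.ok.big.pw (show 152 ≤ 1600 by norm_num)
          linarith
      _ ≤ D.T * D.T ^ 1600 := by
          have := Tp H.ok 1600
          nlinarith
      _ = D.T ^ 1601 := by ring
      _ ≤ D.T ^ 1608 := H.ok.big.pw (by norm_num)
  have hBB : ∑ c, XB a c * XB b c ≤ D.T ^ 1608 := by
    calc ∑ c, XB a c * XB b c ≤ ∑ c, (2 * (D.rho * D.T ^ 2668) ^ 2 + 10 * D.wc W c) := by
          refine sum_le_sum fun c _ => ?_
          have h0 := wc_nonneg_dc (D := D) (W := W) c
          have h1 := wc_le_dc (D := D) hW c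
          refine (mul_le_mul (hXB1 a c) (hXB1 b c) (hXB0 b c) (add_nonneg hβ0 h0)).trans ?_
          nlinarith [sq_nonneg (D.rho * D.T ^ 2668 - D.wc W c)]
      _ = D.k * (2 * (D.rho * D.T ^ 2668) ^ 2) + 10 * ∑ c, D.wc W c := by
          rw [sum_add_distrib, sum_const, nsmul_eq_mul, card_univ, Fintype.card_fin, ← mul_sum]
      _ = 2 * (D.k * D.rho) * (D.rho * D.T ^ 5336) + 10 * ∑ c, D.wc W c := by ring
      _ = 2 * (2 * D.T) * (D.rho * D.T ^ 5336) + 10 * ∑ c, D.wc W c := by
          have hk := k0 H.ok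
          have : D.k * D.rho = 2 * D.T := by
            unfold rho
            field_simp
          rw [this]
      _ ≤ 2 * (2 * D.T) * D.T ^ 1600 + 10 * 5 := by
          have h1 := rho_mul_le H.ok (a := 5336) (b := 1600) (by norm_num)
          have h2 := mul_le_mul_of_nonneg_left h1 (show 0 ≤ 2 * (2 * D.T) by linarith)
          linarith
      _ ≤ D.T * D.T ^ 1601 := by
          have h3 : D.T ^ 1601 = D.T * D.T ^ 1600 := by ring
          have h4 : (1 : ℝ) ≤ D.T ^ 1600 := one_le_pow₀ H.ok.big.one_le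
          have h5 : D.T * (D.T * D.T ^ 1600) ≥ 1000000 * (D.T * D.T ^ 1600) :=
            mul_le_mul_of_nonneg_right hT (by positivity)
          have h6 : D.T * D.T ^ 1600 ≥ 1000000 * 1 :=
            mul_le_mul hT h4 (by norm_num) hT0.le
          rw [h3]
          linarith
      _ = D.T ^ 1602 := by ring
      _ ≤ D.T ^ 1608 := H.ok.big.pw (by norm_num)
  have hBA : ∑ c, XB a c * XA b c ≤ D.T ^ 1608 := by
    refine le_trans (le_of_eq ?_) (hAB b a)
    exact sum_congr rfl fun c _ => mul_comm _ _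
  have h1 := hAB a b
  have h2 := H.s2 a b hab
  have h3 := H.ok.big.pw (show 1608 ≤ 1609 by norm_num)
  have h4 : D.T ^ 1610 = D.T * D.T ^ 1609 := by ring
  have h5 := Tp H.ok 1609
  rw [h4]
  nlinarith [hpp]

/-- (e3_dc). -/
theorem e3_dc (y : V) (hW : W.card ≤ 5) : ∑ c, D.em j f Nw W y c ≤ 3 * D.T := by
  have hr := rho_pos H.ok
  have hT := Tb H.ok
  have hk := k0 H.ok
  have hkr : D.k * D.rho = 2 * D.T := by
    unfold rho
    field_simp
  have h1 : ∑ c, D.eA j f y c ≤ 1 := by
    by_cases h3 : ∃ c, hasCol f y c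
    · obtain ⟨c, hc⟩ := h3
      rw [sum_eq_single c]
      · unfold eA
        split_ifs <;> norm_num
      · intro c' _ hc'
        unfold eA
        rw [if_neg]
        intro h4
        exact hc' (hasCol_unique h4.2 hc)
      · intro h4
        exact absurd (mem_univ _) h4
    · push Not at h3
      rw [sum_eq_zero]
      · norm_num
      · intro c _
        unfold eA
        rw [if_neg fun h => h3 c h.2]
  have h2 : ∑ c, D.eB Nw W y c ≤ 2 * D.T + 5 := by
    calc ∑ c, D.eB Nw W y c ≤ ∑ c, (D.rho + D.wc W c) := by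
          refine sum_le_sum fun c _ => (eB_le_dc H.ok y c).trans (add_le_add ?_ ?_)
          · split_ifs
            · rw [mul_one]
            · rw [mul_zero]
              exact hr.le
          · split_ifs with h3
            · unfold wc
              have h4 : 1 ≤ (W.filter fun q => q.2 = c).card :=
                card_pos.2 ⟨(y, c), mem_filter.2 ⟨h3, rfl⟩⟩
              exact_mod_cast h4
            · exact wc_nonneg_dc c
      _ = D.k * D.rho + ∑ c, D.wc W c := by
          rw [sum_add_distrib, sum_const, nsmul_eq_mul, card_univ, Fintype.card_fin]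
      _ ≤ 2 * D.T + 5 := by
          rw [hkr]
          linarith [sum_wc_dc (D := D) hW]
  unfold em
  rw [sum_add_distrib]
  linarith

/-- Inner sum: `v` has the colour `c`, and `u`, `u'` too. -/
noncomputable def BC (D : OData V) (j : ℕ) (f : V → Option (Fin D.k × ℕ)) (Nw : V → Prop)
    (W : Finset (V × Fin D.k)) (z z' : V) (c : Fin D.k) : ℝ :=
  ∑ u, ∑ u', ((if u ≠ u' then (D.wB z u * D.em j f Nw W u c) *
      (D.wB z' u' * D.em j f Nw W u' c) else 0) +
    (if u = u' then D.wB z u * (D.wB z' u * D.em j f Nw W u c) else 0))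

omit H in
theorem BC_nonneg_dc (hD : D.Ok) (z z' : V) (c : Fin D.k) : 0 ≤ D.BC j f Nw W z z' c := by
  unfold BC
  refine sum_nonneg fun u _ => sum_nonneg fun u' _ => add_nonneg ?_ ?_
  · split_ifs
    · exact mul_nonneg (mul_nonneg (wB_nonneg_dc _ _) (em_nonneg_dc hD _ _))
        (mul_nonneg (wB_nonneg_dc _ _) (em_nonneg_dc hD _ _))
    · exact le_rfl
  · split_ifs
    · exact mul_nonneg (wB_nonneg_dc _ _) (mul_nonneg (wB_nonneg_dc _ _) (em_nonneg_dc hD _ _))
    · exact le_rfl

/-- One colour. -/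
theorem BC_le_dc (hW : W.card ≤ 5) (z z' : V) (c : Fin D.k) :
    D.BC j f Nw W z z' c ≤ D.T ^ 308 := by
  have hT := Tb H.ok
  have hT0 := T0 H.ok
  have hz := e1_dc H z c hW
  have hz' := e1_dc H z' c hW
  have h0 : ∀ z, 0 ≤ ∑ y, D.wB z y * D.em j f Nw W y c := fun z =>
    sum_nonneg fun y _ => mul_nonneg (wB_nonneg_dc _ _) (em_nonneg_dc H.ok _ _)
  have h1 : D.BC j f Nw W z z' c ≤ (∑ y, D.wB z y * D.em j f Nw W y c) *
      (∑ y, D.wB z' y * D.em j f Nw W y c) + ∑ y, D.wB z y * D.em j f Nw W y c := by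
    unfold BC
    rw [sum_mul_sum, ← sum_add_distrib]
    refine sum_le_sum fun u _ => ?_
    rw [sum_add_distrib]
    refine add_le_add (sum_le_sum fun u' _ => ?_) ?_
    · split_ifs
      · exact le_rfl
      · exact mul_nonneg (mul_nonneg (wB_nonneg_dc _ _) (em_nonneg_dc H.ok _ _))
          (mul_nonneg (wB_nonneg_dc _ _) (em_nonneg_dc H.ok _ _))
    · rw [sum_ite_eq univ u]
      simp only [mem_univ, if_true]
      refine mul_le_mul_of_nonneg_left ?_ (wB_nonneg_dc _ _)
      exact mul_le_of_le_one_left (em_nonneg_dc H.ok _ _) (wB_le_dc _ _)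
  refine h1.trans ?_
  have h2 := mul_le_mul hz hz' (h0 z') (Tp H.ok 153).le
  have h3 : D.T ^ 153 * D.T ^ 153 = D.T ^ 306 := by ring
  have h4 := H.ok.big.pw (show 153 ≤ 306 by norm_num)
  have h5 : D.T ^ 308 = D.T * (D.T * D.T ^ 306) := by ring
  have h6 := Tp H.ok 306
  have h7 : D.T ^ 306 ≤ D.T * D.T ^ 306 := le_mul_of_one_le_left h6.le (by linarith)
  have h8 : 2 * (D.T * D.T ^ 306) ≤ D.T * (D.T * D.T ^ 306) :=
    mul_le_mul_of_nonneg_right (by linarith) (by positivity)
  linarith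

/-- All colours. -/
theorem sum_BC_dc (hW : W.card ≤ 5) {z z' : V} (hs : ¬ D.Spc z z')
    (hn : (cN D.N z z').Nonempty) :
    ∑ c, D.BC j f Nw W z z' c ≤ D.T ^ 1611 := by
  have hT := Tb H.ok
  have hT0 := T0 H.ok
  have h1 : ∑ c, D.BC j f Nw W z z' c =
      (∑ c, ∑ u, ∑ u', (if u ≠ u' then (D.wB z u * D.em j f Nw W u c) *
        (D.wB z' u' * D.em j f Nw W u' c) else 0)) +
      ∑ c, ∑ u, D.wB z u * (D.wB z' u * D.em j f Nw W u c) := by
    unfold BC
    rw [← sum_add_distrib]
    refine sum_congr rfl fun c _ => ?_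
    rw [← sum_add_distrib]
    refine sum_congr rfl fun u _ => ?_
    rw [sum_add_distrib, sum_ite_eq univ u]
    simp only [mem_univ, if_true]
  have h2 : ∑ c, ∑ u, D.wB z u * (D.wB z' u * D.em j f Nw W u c) ≤
      3 * D.T * D.T ^ 1603 := by
    rw [sum_comm]
    have h3 : ∀ u, ∑ c, D.wB z u * (D.wB z' u * D.em j f Nw W u c) ≤
        3 * D.T * (if u ∈ cN D.N z z' ∧ D.lv u = j then 1 else 0) := by
      intro u
      rw [← mul_sum, ← mul_sum]
      have h4 := e3_dc H (W := W) u hW
      by_cases h5 : D.lv u = j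
      · unfold wB
        by_cases h6 : u ∈ D.N z <;> by_cases h7 : u ∈ D.N z' <;>
          simp [h5, h6, h7, mem_cN, h4]
      · have h6 : ∑ c, D.em j f Nw W u c = 0 := by
          refine sum_eq_zero fun c _ => ?_
          unfold em eA eB
          rw [if_neg fun h => h5 h.1, if_neg fun h => h5 (H.now u h).1, add_zero]
        rw [h6]
        simp [h5]
    refine (sum_le_sum fun u _ => h3 u).trans ?_
    rw [← mul_sum, ← sum_filter, sum_const, nsmul_eq_mul, mul_one]
    refine mul_le_mul_of_nonneg_left ?_ (by linarith)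
    refine le_trans (le_of_eq ?_) (pb2 H.ok (cod_le' H.ok hs) j)
    congr 2
    ext u
    simp [mem_filter]
  have h3 := e2_dc H (W := W) z z' (Or.inr hn) hW
  rw [h1]
  have h4 : 3 * D.T * D.T ^ 1603 ≤ D.T ^ 1610 := by
    have h5 : 3 * D.T * D.T ^ 1603 ≤ D.T * D.T * D.T ^ 1603 :=
      mul_le_mul_of_nonneg_right (by nlinarith) (Tp H.ok _).le
    have h6 : D.T * D.T * D.T ^ 1603 = D.T ^ 1605 := by ring
    have h7 := H.ok.big.pw (show 1605 ≤ 1610 by norm_num)
    linarith
  have h5 : D.T ^ 1611 = D.T * D.T ^ 1610 := by ring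
  have h6 := Tp H.ok 1610
  have h7 : 2 * D.T ^ 1610 ≤ D.T * D.T ^ 1610 := mul_le_mul_of_nonneg_right (by linarith) h6.le
  linarith

/-- With the colour of `v`. -/
theorem sum_vBC_dc (hW : W.card ≤ 5) {v z z' : V} (hv : Nw v) (hs : ¬ D.Spc z z')
    (hn : (cN D.N z z').Nonempty) :
    ∑ c, D.em j f Nw W v c * D.BC j f Nw W z z' c ≤
      D.rho * D.T ^ 1611 + ((W.filter fun q => q.1 = v).card : ℝ) * D.T ^ 308 := by
  have hr := rho_pos H.ok
  have h1 : ∀ c, D.em j f Nw W v c * D.BC j f Nw W z z' c ≤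
      D.rho * D.BC j f Nw W z z' c + (if (v, c) ∈ W then 1 else 0) * D.T ^ 308 := by
    intro c
    have h2 : D.em j f Nw W v c ≤ D.rho + (if (v, c) ∈ W then 1 else 0) := by
      unfold em eA
      rw [if_neg fun h => hasCol_ne_none h.2 (H.now v hv).2, zero_add]
      refine (eB_le_dc H.ok v c).trans ?_
      rw [if_pos hv, mul_one]
    have h3 := BC_nonneg_dc H.ok (j := j) (f := f) (Nw := Nw) (W := W) z z' c
    refine (mul_le_mul_of_nonneg_right h2 h3).trans ?_
    rw [add_mul]
    refine add_le_add le_rfl (mul_le_mul_of_nonneg_left (BC_le_dc H hW z z' c) ?_)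
    split_ifs <;> norm_num
  refine (sum_le_sum fun c _ => h1 c).trans ?_
  rw [sum_add_distrib, ← mul_sum, ← sum_mul]
  refine add_le_add (mul_le_mul_of_nonneg_left (sum_BC_dc H hW hs hn) hr.le)
    (mul_le_mul_of_nonneg_right ?_ (Tp H.ok _).le)
  rw [← sum_filter, sum_const, nsmul_eq_mul, mul_one]
  have h2 : (univ.filter fun c : Fin D.k => (v, c) ∈ W).card ≤
      (W.filter fun q => q.1 = v).card := by
    refine card_le_card_of_injOn (fun c => (v, c)) ?_ ?_
    · intro c hc
      have hc' := (mem_filter.1 (mem_coe.1 hc)).2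
      exact mem_coe.2 (mem_filter.2 ⟨hc', rfl⟩)
    · intro c _ c' _ h
      exact (Prod.ext_iff.1 h).2
  exact_mod_cast h2

/-- Middle sum. -/
noncomputable def AC (D : OData V) (j : ℕ) (f : V → Option (Fin D.k × ℕ)) (Nw : V → Prop)
    (W : Finset (V × Fin D.k)) (v z z' : V) : ℝ :=
  ∑ c, (if z ≠ z' then (D.wB v z * D.em j f Nw W z c) *
    (D.wB v z' * D.em j f Nw W z' c) else 0)

omit H in
theorem AC_nonneg_dc (hD : D.Ok) (v z z' : V) : 0 ≤ D.AC j f Nw W v z z' := by
  unfold AC
  refine sum_nonneg fun c _ => ?_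
  split_ifs
  · exact mul_nonneg (mul_nonneg (wB_nonneg_dc _ _) (em_nonneg_dc hD _ _))
      (mul_nonneg (wB_nonneg_dc _ _) (em_nonneg_dc hD _ _))
  · exact le_rfl

theorem sum_AC_dc (hW : W.card ≤ 5) (v : V) :
    ∑ z, ∑ z', D.AC j f Nw W v z z' ≤ D.T ^ 1610 := by
  refine le_trans (le_of_eq ?_) (e2_dc H (W := W) v v (Or.inl rfl) hW)
  unfold AC
  rw [sum_comm (s := univ (α := Fin D.k))]
  exact sum_congr rfl fun z _ => sum_comm

/-- The total. -/
noncomputable def FC (D : OData V) (j : ℕ) (f : V → Option (Fin D.k × ℕ)) (Nw : V → Prop)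
    (W : Finset (V × Fin D.k)) (w : V) : ℝ :=
  ∑ v, ∑ z, ∑ z', if (v ∈ D.N w ∧ Nw v) ∧ ¬ D.Spc z z' ∧ (cN D.N z z').Nonempty then
    D.AC j f Nw W v z z' * ∑ c, D.em j f Nw W v c * D.BC j f Nw W z z' c else 0

theorem FC_le_dc (hW : W.card ≤ 5) (w : V) : D.FC j f Nw W w ≤ D.T ^ 2000 := by
  have hr := rho_pos H.ok
  have hT := Tb H.ok
  have hT0 := T0 H.ok
  set wv : V → ℝ := fun v => ((W.filter fun q => q.1 = v).card : ℝ) with hwv
  have hwv0 : ∀ v, 0 ≤ wv v := fun v => Nat.cast_nonneg _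
  have hsw : ∑ v, wv v ≤ 5 := by
    have h1 : ∑ v : V, (W.filter fun q => q.1 = v).card = W.card :=
      (card_eq_sum_card_fiberwise (t := univ) fun _ _ => mem_coe.2 (mem_univ _)).symm
    rw [← h1] at hW
    simp only [hwv]
    exact_mod_cast hW
  calc D.FC j f Nw W w
      ≤ ∑ v, ∑ z, ∑ z', (if v ∈ D.N w ∧ Nw v then D.AC j f Nw W v z z' *
          (D.rho * D.T ^ 1611 + wv v * D.T ^ 308) else 0) := by
        unfold FC
        refine sum_le_sum fun v _ => sum_le_sum fun z _ => sum_le_sum fun z' _ => ?_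
        by_cases h1 : v ∈ D.N w ∧ Nw v
        · rw [if_pos (c := v ∈ D.N w ∧ Nw v) h1]
          split_ifs with h2
          · exact mul_le_mul_of_nonneg_left (sum_vBC_dc H hW h1.2 h2.2.1 h2.2.2)
              (AC_nonneg_dc H.ok _ _ _)
          · exact mul_nonneg (AC_nonneg_dc H.ok _ _ _) (add_nonneg
              (mul_nonneg hr.le (Tp H.ok _).le) (mul_nonneg (hwv0 v) (Tp H.ok _).le))
        · rw [if_neg (c := v ∈ D.N w ∧ Nw v) h1, if_neg fun h => h1 h.1]
    _ = ∑ v, (if v ∈ D.N w ∧ Nw v then (∑ z, ∑ z', D.AC j f Nw W v z z') *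
          (D.rho * D.T ^ 1611 + wv v * D.T ^ 308) else 0) := by
        refine sum_congr rfl fun v _ => ?_
        split_ifs
        · rw [sum_mul]
          exact sum_congr rfl fun z _ => by rw [sum_mul]
        · simp
    _ ≤ ∑ v, (if v ∈ D.N w ∧ Nw v then D.T ^ 1610 *
          (D.rho * D.T ^ 1611 + wv v * D.T ^ 308) else 0) := by
        refine sum_le_sum fun v _ => ?_
        split_ifs
        · exact mul_le_mul_of_nonneg_right (sum_AC_dc H hW v) (add_nonneg
              (mul_nonneg hr.le (Tp H.ok _).le) (mul_nonneg (hwv0 v) (Tp H.ok _).le))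
        · exact le_rfl
    _ ≤ ∑ v, ((if v ∈ D.N w ∧ Nw v then 1 else 0) * (D.T ^ 1610 * (D.rho * D.T ^ 1611)) +
          wv v * (D.T ^ 1610 * D.T ^ 308)) := by
        refine sum_le_sum fun v _ => ?_
        split_ifs
        · refine le_of_eq ?_
          ring
        · rw [zero_mul, zero_add]
          exact mul_nonneg (hwv0 v) (by positivity)
    _ = ((univ.filter fun y => y ∈ D.N w ∧ Nw y).card : ℝ) *
          (D.T ^ 1610 * (D.rho * D.T ^ 1611)) + (∑ v, wv v) * (D.T ^ 1610 * D.T ^ 308) := by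
        rw [sum_add_distrib, ← sum_mul, ← sum_mul, ← sum_filter, sum_const, nsmul_eq_mul,
          mul_one]
    _ ≤ D.T ^ 2668 * (D.T ^ 1610 * (D.rho * D.T ^ 1611)) + 5 * (D.T ^ 1610 * D.T ^ 308) := by
        refine add_le_add (mul_le_mul_of_nonneg_right (H.nbr w) ?_)
          (mul_le_mul_of_nonneg_right hsw (by positivity))
        exact mul_nonneg (Tp H.ok _).le (mul_nonneg hr.le (Tp H.ok _).le)
    _ = D.rho * D.T ^ 5889 + 5 * D.T ^ 1918 := by ring
    _ ≤ D.T ^ 1998 + 5 * D.T ^ 1998 := by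
        have h1 := rho_mul_le H.ok (a := 5889) (b := 1998) (by norm_num)
        have h2 := H.ok.big.pw (show 1918 ≤ 1998 by norm_num)
        linarith
    _ ≤ D.T * D.T ^ 1998 := by
        have := Tp H.ok 1998
        nlinarith
    _ = D.T ^ 1999 := by ring
    _ ≤ D.T ^ 2000 := H.ok.big.pw (by norm_num)

end

/-! ### Configurations -/

/-- Index of a configuration: `v`, `(z, z')`, `(c', c)`, `(u, u')`. -/
abbrev CI (V : Type u) (k : ℕ) : Type u := V × (V × V) × (Fin k × Fin k) × (V × V)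

/-- All conditions. -/
noncomputable def S5 (D : OData V) (U : CI V D.k) : Finset (V × Fin D.k) :=
  {(U.1, U.2.2.1.2), (U.2.1.1, U.2.2.1.1), (U.2.1.2, U.2.2.1.1), (U.2.2.2.1, U.2.2.1.2),
    (U.2.2.2.2, U.2.2.1.2)}

/-- Conditions on the picks. -/
noncomputable def cdC (D : OData V) (Nw : V → Prop) (U : CI V D.k) : Finset (V × Fin D.k) :=
  (D.S5 U).filter fun q => Nw q.1

/-- The configuration is possible. -/
def PC (D : OData V) (j : ℕ) (f : V → Option (Fin D.k × ℕ)) (Nw : V → Prop) (w : V)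
    (U : CI V D.k) : Prop :=
  (U.1 ∈ D.N w ∧ Nw U.1) ∧ (U.2.1.1 ≠ U.2.1.2 ∧ ¬ D.Spc U.2.1.1 U.2.1.2) ∧
    (U.2.1.1 ∈ D.N U.1 ∧ U.2.1.2 ∈ D.N U.1) ∧
    (U.2.2.2.1 ∈ D.N U.2.1.1 ∧ U.2.2.2.2 ∈ D.N U.2.1.2) ∧
    (U.2.2.1.1 ≠ U.2.2.1.2 ∧ U.2.2.2.1 ≠ U.1 ∧ U.2.2.2.2 ≠ U.1) ∧
    ∀ q ∈ D.S5 U, Nw q.1 ∨ (D.lv q.1 = j ∧ hasCol f q.1 q.2)

/-- Weight of a configuration. -/
noncomputable def wtC (D : OData V) (j : ℕ) (f : V → Option (Fin D.k × ℕ)) (Nw : V → Prop)
    (w : V) (U : CI V D.k) : ℝ := if D.PC j f Nw w U then 1 else 0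

theorem S5_card_dc (U : CI V D.k) : (D.S5 U).card ≤ 5 := by
  unfold S5
  refine (card_insert_le _ _).trans ?_
  refine (Nat.add_le_add_right (card_insert_le _ _) 1).trans ?_
  refine (Nat.add_le_add_right (Nat.add_le_add_right (card_insert_le _ _) 1) 1).trans ?_
  refine (Nat.add_le_add_right (Nat.add_le_add_right (Nat.add_le_add_right
    (card_insert_le _ _) 1) 1) 1).trans ?_
  rw [card_singleton]

theorem cdC_card_dc (U : CI V D.k) : (D.cdC Nw U).card ≤ 5 :=
  (card_le_card (filter_subset _ _)).trans (S5_card_dc U)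

section

variable (H : CH D j f Nw)
include H

/-- The product of the bounds. -/
theorem prod_eq_dc {w : V} {U : CI V D.k} (hU : D.PC j f Nw w U) :
    ∏ _q ∈ D.cdC Nw U \ W, D.rho = ∏ q ∈ D.S5 U, D.em j f Nw W q.1 q.2 := by
  have h1 : ∏ q ∈ D.S5 U, D.em j f Nw W q.1 q.2 = ∏ q ∈ D.cdC Nw U, D.em j f Nw W q.1 q.2 := by
    unfold cdC
    rw [prod_filter]
    refine prod_congr rfl fun q hq => ?_
    split_ifs with h2
    · rfl
    · have h3 := (hU.2.2.2.2.2 q hq).resolve_left h2
      unfold em eA eB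
      rw [if_pos h3, if_neg h2, add_zero]
  rw [h1]
  have h2 : ∀ q ∈ D.cdC Nw U, D.em j f Nw W q.1 q.2 = if q ∈ W then 1 else D.rho := by
    intro q hq
    have h3 := (mem_filter.1 hq).2
    unfold em eA eB
    rw [if_neg fun h => hasCol_ne_none h.2 (H.now _ h3).2, if_pos h3, zero_add]
  rw [prod_congr rfl h2, prod_ite]
  rw [prod_const_one, one_mul]
  refine prod_congr ?_ fun _ _ => rfl
  ext q
  simp [mem_sdiff]

/-- The product over the conditions, in terms of the slots. -/
theorem prod_S5_dc {w : V} {U : CI V D.k} (hU : D.PC j f Nw w U) :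
    ∏ q ∈ D.S5 U, D.em j f Nw W q.1 q.2 =
      (D.em j f Nw W U.2.1.1 U.2.2.1.1 * D.em j f Nw W U.2.1.2 U.2.2.1.1) *
      (D.em j f Nw W U.1 U.2.2.1.2 *
        (if U.2.2.2.1 ≠ U.2.2.2.2 then D.em j f Nw W U.2.2.2.1 U.2.2.1.2 *
          D.em j f Nw W U.2.2.2.2 U.2.2.1.2 else D.em j f Nw W U.2.2.2.1 U.2.2.1.2)) := by
  obtain ⟨v, ⟨z, z'⟩, ⟨c', c⟩, u, u'⟩ := U
  obtain ⟨-, ⟨h1, -⟩, -, -, ⟨h2, h3, h4⟩, -⟩ := hU
  simp only at h1 h2 h3 h4
  unfold S5
  simp only
  have a1 : (v, c) ∉ ({(z, c'), (z', c'), (u, c), (u', c)} : Finset (V × Fin D.k)) := by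
    simp only [mem_insert, mem_singleton, Prod.mk.injEq, not_or, not_and]
    exact ⟨fun _ h => h2 h.symm, fun _ h => h2 h.symm, fun h => absurd h.symm h3,
      fun h => absurd h.symm h4⟩
  have a2 : (z, c') ∉ ({(z', c'), (u, c), (u', c)} : Finset (V × Fin D.k)) := by
    simp only [mem_insert, mem_singleton, Prod.mk.injEq, not_or, not_and]
    exact ⟨fun h => absurd h h1, fun _ h => h2 h, fun _ h => h2 h⟩
  have a3 : (z', c') ∉ ({(u, c), (u', c)} : Finset (V × Fin D.k)) := by
    simp only [mem_insert, mem_singleton, Prod.mk.injEq, not_or, not_and]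
    exact ⟨fun _ h => h2 h, fun _ h => h2 h⟩
  rw [prod_insert a1, prod_insert a2, prod_insert a3]
  by_cases huu : u = u'
  · subst huu
    simp only [ne_eq, not_true_eq_false, if_false, insert_eq_of_mem, mem_singleton,
      prod_singleton]
    ring
  · have a4 : (u, c) ∉ ({(u', c)} : Finset (V × Fin D.k)) := by
      simp only [mem_singleton, Prod.mk.injEq, not_and]
      exact fun h => absurd h huu
    rw [prod_insert a4, prod_singleton]
    simp only [ne_eq, huu, not_false_eq_true, if_true]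
    ring

/-- Extension sums. -/
theorem extC_dc (w : V) (hW : W.card ≤ 5) :
    ext (fun _ _ => D.rho) (D.wtC j f Nw w) (D.cdC Nw) W ≤ D.T ^ 2000 := by
  refine le_trans ?_ (FC_le_dc H hW w)
  have hr := rho_pos H.ok
  unfold Pool.Agent.Acy.ext
  set G : CI V D.k → ℝ := fun U =>
    if (U.1 ∈ D.N w ∧ Nw U.1) ∧ ¬ D.Spc U.2.1.1 U.2.1.2 ∧ (cN D.N U.2.1.1 U.2.1.2).Nonempty then
      (if U.2.1.1 ≠ U.2.1.2 then (D.wB U.1 U.2.1.1 * D.em j f Nw W U.2.1.1 U.2.2.1.1) *
        (D.wB U.1 U.2.1.2 * D.em j f Nw W U.2.1.2 U.2.2.1.1) else 0) *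
      (D.em j f Nw W U.1 U.2.2.1.2 *
        ((if U.2.2.2.1 ≠ U.2.2.2.2 then (D.wB U.2.1.1 U.2.2.2.1 *
            D.em j f Nw W U.2.2.2.1 U.2.2.1.2) *
          (D.wB U.2.1.2 U.2.2.2.2 * D.em j f Nw W U.2.2.2.2 U.2.2.1.2) else 0) +
        (if U.2.2.2.1 = U.2.2.2.2 then D.wB U.2.1.1 U.2.2.2.1 * (D.wB U.2.1.2 U.2.2.2.1 *
          D.em j f Nw W U.2.2.2.1 U.2.2.1.2) else 0))) else 0 with hG
  have hG0 : ∀ U, 0 ≤ G U := by
    intro U
    simp only [hG]
    exact ite0_dc (mul_nonneg (ite0_dc (mul_nonneg (mul_nonneg (wB_nonneg_dc _ _) (em_nonneg_dc H.ok _ _))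
      (mul_nonneg (wB_nonneg_dc _ _) (em_nonneg_dc H.ok _ _)))) (mul_nonneg (em_nonneg_dc H.ok _ _)
      (add_nonneg (ite0_dc (mul_nonneg (mul_nonneg (wB_nonneg_dc _ _) (em_nonneg_dc H.ok _ _))
        (mul_nonneg (wB_nonneg_dc _ _) (em_nonneg_dc H.ok _ _)))) (ite0_dc (mul_nonneg (wB_nonneg_dc _ _)
          (mul_nonneg (wB_nonneg_dc _ _) (em_nonneg_dc H.ok _ _)))))))
  have h1 : ∀ U, (if W ⊆ D.cdC Nw U then D.wtC j f Nw w U * ∏ q ∈ D.cdC Nw U \ W, D.rho else 0) ≤
      G U := by
    intro U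
    split_ifs with hsub
    · by_cases hU : D.PC j f Nw w U
      · unfold wtC
        rw [if_pos hU, one_mul, prod_eq_dc H hU, prod_S5_dc H hU]
        obtain ⟨g1, ⟨g2, g3⟩, ⟨g4, g5⟩, ⟨g6, g7⟩, g8, g9⟩ := hU
        have hne : (cN D.N U.2.1.1 U.2.1.2).Nonempty :=
          ⟨U.1, mem_cN.2 ⟨(N_comm H.ok).1 g4, (N_comm H.ok).1 g5⟩⟩
        have w1 : D.wB U.1 U.2.1.1 = 1 := if_pos g4
        have w2 : D.wB U.1 U.2.1.2 = 1 := if_pos g5
        have w3 : D.wB U.2.1.1 U.2.2.2.1 = 1 := if_pos g6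
        have w4 : D.wB U.2.1.2 U.2.2.2.2 = 1 := if_pos g7
        have hGU : G U = (D.em j f Nw W U.2.1.1 U.2.2.1.1 * D.em j f Nw W U.2.1.2 U.2.2.1.1) *
            (D.em j f Nw W U.1 U.2.2.1.2 *
              (if U.2.2.2.1 ≠ U.2.2.2.2 then D.em j f Nw W U.2.2.2.1 U.2.2.1.2 *
                D.em j f Nw W U.2.2.2.2 U.2.2.1.2 else D.em j f Nw W U.2.2.2.1 U.2.2.1.2)) := by
          simp only [hG]
          rw [if_pos ⟨g1, g3, hne⟩, if_pos g2, w1, w2, w3, w4]
          by_cases huu : U.2.2.2.1 = U.2.2.2.2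
          · have w5 : D.wB U.2.1.2 U.2.2.2.1 = 1 := by rw [huu]; exact w4
            rw [w5, if_neg (not_not.2 huu), if_pos huu, if_neg (not_not.2 huu)]
            ring
          · rw [if_pos huu, if_neg huu, if_pos huu]
            ring
        rw [hGU]
      · unfold wtC
        rw [if_neg hU, zero_mul]
        exact hG0 U
    · exact hG0 U
  refine (sum_le_sum fun U _ => h1 U).trans (le_of_eq ?_)
  unfold FC
  simp only [Fintype.sum_prod_type]
  refine sum_congr rfl fun v _ => sum_congr rfl fun z _ => sum_congr rfl fun z' _ => ?_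
  simp only [hG]
  by_cases h2 : (v ∈ D.N w ∧ Nw v) ∧ ¬ D.Spc z z' ∧ (cN D.N z z').Nonempty
  swap
  · simp only [if_neg h2, sum_const_zero]
  · simp only [if_pos h2]
    unfold AC BC
    rw [sum_mul_sum]
    refine sum_congr rfl fun c' _ => sum_congr rfl fun c _ => ?_
    rw [mul_sum, mul_sum]
    refine sum_congr rfl fun u _ => ?_
    rw [mul_sum, mul_sum]

end

/-- The facts hold in a round. -/
theorem CH_of_rnd {j : ℕ} {C : V → Option (Fin D.k × ℕ)} {m : ℕ}
    {col : V → Option (Fin D.k × ℕ)} {lam : V → Option Bool}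
    {p : V → Fin D.k → ℝ} (h : D.DRnd j C m col lam p) :
    CH D j (D.addCol C j col) (D.Now j col lam) := by
  have hD := h.ok
  have hT := Tb hD
  have hT0 := T0 hD
  have hr := rho_pos hD
  have hm := m_le hD h.m_lt.le
  refine ⟨hD, fun y hy => ⟨hy.1, now_none hy⟩, h.lam.nbr, fun a c => ?_, fun a b hab => ?_⟩
  · refine (h.prog.sB a c).trans ?_
    unfold bd1
    have h1 : D.C1 (D.addCol C j col) j (D.wB a) ≤ 3 * D.T ^ 2800 := by
      unfold C1
      calc _ ≤ ∑ y, (if y ∈ D.N a ∧ D.lv y = j then (1 : ℝ) else 0) := by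
            refine sum_le_sum fun y _ => ?_
            unfold wB
            by_cases h2 : y ∈ D.N a <;> by_cases h3 : D.lv y = j <;> simp [h2, h3]
            split_ifs <;> norm_num
        _ = ((univ.filter fun y => y ∈ D.N a ∧ D.lv y = j).card : ℝ) := by
            rw [← sum_filter, sum_const, nsmul_eq_mul, mul_one]
        _ ≤ _ := by
            refine le_trans (le_of_eq ?_) (pb1 hD a j)
            congr 2
            ext y
            simp [mem_filter]
    have h2 : D.rho * D.C1 (D.addCol C j col) j (D.wB a) ≤ 1 := by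
      calc D.rho * D.C1 (D.addCol C j col) j (D.wB a) ≤ D.rho * (3 * D.T ^ 2800) :=
            mul_le_mul_of_nonneg_left h1 hr.le
        _ ≤ D.rho * (D.T * D.T ^ 2800) := mul_le_mul_of_nonneg_left
            (mul_le_mul_of_nonneg_right (by linarith) (Tp hD _).le) hr.le
        _ = D.rho * D.T ^ 2801 := by ring
        _ ≤ D.T ^ 0 := rho_mul_le hD (by norm_num)
        _ = 1 := pow_zero _
    have h3 : (1 : ℝ) ≤ D.T ^ 150 := one_le_pow₀ hD.big.one_le
    calc 4 * D.T * (D.rho * D.C1 (D.addCol C j col) j (D.wB a) + m * 1)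
        ≤ 4 * D.T * (D.T ^ 150 + D.T ^ 150) :=
          mul_le_mul_of_nonneg_left (by linarith) (by linarith)
      _ = 8 * D.T ^ 151 := by ring
      _ ≤ D.T * D.T ^ 151 := mul_le_mul_of_nonneg_right (by linarith) (Tp hD _).le
      _ = D.T ^ 152 := by ring
  · refine (h.prog.sM a b hab).trans ?_
    unfold bd2
    have hN : ∀ a, ∑ y, D.wB a y * (if D.lv y = j then (1 : ℝ) else 0) ≤ 3 * D.T ^ 2800 := by
      intro a
      calc _ = ∑ y, (if y ∈ D.N a ∧ D.lv y = j then (1 : ℝ) else 0) := by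
            refine sum_congr rfl fun y _ => ?_
            unfold wB
            by_cases h2 : y ∈ D.N a <;> by_cases h3 : D.lv y = j <;> simp [h2, h3]
        _ = ((univ.filter fun y => y ∈ D.N a ∧ D.lv y = j).card : ℝ) := by
            rw [← sum_filter, sum_const, nsmul_eq_mul, mul_one]
        _ ≤ _ := by
            refine le_trans (le_of_eq ?_) (pb1 hD a j)
            congr 2
            ext y
            simp [mem_filter]
    have h1 : D.C2 (D.addCol C j col) j (D.wM a b) ≤ (3 * D.T ^ 2800) * (3 * D.T ^ 2800) := by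
      calc D.C2 (D.addCol C j col) j (D.wM a b) ≤
          (∑ y, D.wB a y * (if D.lv y = j then (1 : ℝ) else 0)) *
            (∑ y, D.wB b y * (if D.lv y = j then (1 : ℝ) else 0)) := by
            unfold C2
            rw [sum_mul_sum]
            refine sum_le_sum fun y _ => sum_le_sum fun y' _ => ?_
            have h0 : (0 : ℝ) ≤ (D.wB a y * (if D.lv y = j then (1 : ℝ) else 0)) *
                (D.wB b y' * (if D.lv y' = j then (1 : ℝ) else 0)) :=
              mul_nonneg (mul_nonneg (wB_nonneg_dc _ _) (ite0_dc zero_le_one))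
                (mul_nonneg (wB_nonneg_dc _ _) (ite0_dc zero_le_one))
            by_cases h2 : (D.lv y = j ∧ D.addCol C j col y ≠ none) ∧
              (D.lv y' = j ∧ D.addCol C j col y' ≠ none) ∧ y ≠ y'
            · rw [if_pos h2, if_pos h2.1.1, if_pos h2.2.1.1]
              unfold wM wB
              by_cases h3 : y ∈ D.N a <;> by_cases h4 : y' ∈ D.N b <;> simp [h3, h4]
            · rw [if_neg h2]
              exact h0
        _ ≤ _ := mul_le_mul (hN a) (hN b)
            (sum_nonneg fun y _ => mul_nonneg (wB_nonneg_dc _ _) (ite0_dc zero_le_one))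
            (by positivity)
    have h2 : D.rho * D.C2 (D.addCol C j col) j (D.wM a b) ≤ D.T ^ 1604 := by
      calc D.rho * D.C2 (D.addCol C j col) j (D.wM a b)
          ≤ D.rho * ((3 * D.T ^ 2800) * (3 * D.T ^ 2800)) :=
            mul_le_mul_of_nonneg_left h1 hr.le
        _ = D.rho * (9 * D.T ^ 5600) := by ring
        _ ≤ D.rho * (D.T * D.T ^ 5600) := mul_le_mul_of_nonneg_left
            (mul_le_mul_of_nonneg_right (by linarith) (Tp hD _).le) hr.le
        _ = D.rho * D.T ^ 5601 := by ring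
        _ ≤ D.T ^ 1604 := rho_mul_le hD (by norm_num)
    have h3 : (m : ℝ) * D.T ^ 153 ≤ D.T ^ 1604 := by
      calc (m : ℝ) * D.T ^ 153 ≤ D.T ^ 150 * D.T ^ 153 :=
            mul_le_mul_of_nonneg_right hm (Tp hD _).le
        _ = D.T ^ 303 := by ring
        _ ≤ D.T ^ 1604 := hD.big.pw (by norm_num)
    calc 26 * D.T ^ 2 * (D.rho * D.C2 (D.addCol C j col) j (D.wM a b) + m * D.T ^ 153)
        ≤ 26 * D.T ^ 2 * (D.T ^ 1604 + D.T ^ 1604) :=
          mul_le_mul_of_nonneg_left (by linarith) (by positivity)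
      _ = 52 * D.T ^ 1606 := by ring
      _ ≤ D.T * D.T ^ 1606 := mul_le_mul_of_nonneg_right (by linarith) (Tp hD _).le
      _ = D.T ^ 1607 := by ring
      _ ≤ D.T ^ 1609 := hD.big.pw (by norm_num)

/-- The number of dropped vertices is at most the number of configurations. -/
theorem newc_le_cnt {j : ℕ} {C : V → Option (Fin D.k × ℕ)} {m : ℕ}
    {col : V → Option (Fin D.k × ℕ)} {lam : V → Option Bool} (hD : D.Ok) (ω : V → Fin D.k)
    (w : V) : D.newc j col lam w (D.RC (D.addCol C j (updCol m col lam ω))) ≤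
      cnt (D.wtC j (D.addCol C j col) (D.Now j col lam) w) (D.cdC (D.Now j col lam)) ω := by
  unfold newc cnt
  rw [card_filter]
  push_cast
  rw [Fintype.sum_prod_type]
  have hn : ∀ U : CI V D.k, 0 ≤ (if Holds (D.cdC (D.Now j col lam) U) ω then
      D.wtC j (D.addCol C j col) (D.Now j col lam) w U else 0) := by
    intro U
    refine ite0_dc ?_
    unfold wtC
    exact ite0_dc zero_le_one
  refine sum_le_sum fun v _ => ?_
  split_ifs with h
  swap
  · exact sum_nonneg fun U _ => hn (v, U)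
  obtain ⟨h1, h2, z, z', u, u', h3, h4, h5, h6, h7, h8, h9, h10, h11, h12, -⟩ := h
  set g := D.addCol C j (updCol m col lam ω) with hg
  obtain ⟨c', hc1, hc2⟩ := h3.2.2
  obtain ⟨c, hc3, hc4⟩ := h10.2.2
  have hc5 : hasCol g u' c := h11.hasCol hc3
  have hcc : c' ≠ c := by
    intro hcc
    refine h12 ⟨fun hvz => ?_, h5.symm, c, hc3, hcc ▸ hc1⟩
    subst hvz
    exact hD.N_irrefl _ h6
  have hlj := h2.1
  have hz : D.lv z = j := h5.trans hlj
  have hz' : D.lv z' = j := h3.2.1.symm.trans hz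
  have hu : D.lv u = j := h10.2.1.symm.trans hlj
  have hu' : D.lv u' = j := h11.2.1.symm.trans hlj
  set U : CI V D.k := (v, (z, z'), (c', c), (u, u')) with hUdef
  have key : ∀ q ∈ D.S5 U, D.lv q.1 = j ∧ hasCol g q.1 q.2 := by
    intro q hq
    unfold S5 at hq
    simp only [mem_insert, mem_singleton, hUdef] at hq
    rcases hq with rfl | rfl | rfl | rfl | rfl
    · exact ⟨hlj, hc3⟩
    · exact ⟨hz, hc1⟩
    · exact ⟨hz', hc2⟩
    · exact ⟨hu, hc4⟩
    · exact ⟨hu', hc5⟩
  have hP : D.PC j (D.addCol C j col) (D.Now j col lam) w U := by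
    refine ⟨⟨h1, h2⟩, ⟨h3.1, h4⟩, ⟨h6, h7⟩, ⟨h8, h9⟩, ⟨hcc, h10.1.symm, h11.1.symm⟩,
      fun q hq => ?_⟩
    by_cases hq1 : D.Now j col lam q.1
    · exact Or.inl hq1
    · exact Or.inr ⟨(key q hq).1, (hasCol_not_now hq1).1 (key q hq).2⟩
  have hH : Holds (D.cdC (D.Now j col lam) U) ω := by
    intro q hq
    have hq' := mem_filter.1 hq
    exact (hasCol_now hq'.2).1 (key q hq'.1).2
  refine le_trans ?_ (single_le_sum (f := fun U' => if Holds (D.cdC (D.Now j col lam) (v, U')) ω
    then D.wtC j (D.addCol C j col) (D.Now j col lam) w (v, U') else 0)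
    (fun U' _ => hn (v, U')) (mem_univ ((z, z'), (c', c), (u, u'))))
  have e1_dc : Holds (D.cdC (D.Now j col lam) (v, (z, z'), (c', c), (u, u'))) ω := hH
  have e2_dc : D.wtC j (D.addCol C j col) (D.Now j col lam) w (v, (z, z'), (c', c), (u, u')) = 1 :=
    if_pos hP
  simp only [e1_dc, if_true, e2_dc, le_refl]

theorem dropC_step {j : ℕ} {C : V → Option (Fin D.k × ℕ)} {m : ℕ}
    {col : V → Option (Fin D.k × ℕ)} {lam : V → Option Bool}
    {p : V → Fin D.k → ℝ} (h : D.DRnd j C m col lam p) :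
    LocOK 40000 D.T p (fun ω => ∀ w,
      D.newc j col lam w (D.RC (D.addCol C j (updCol m col lam ω))) ≤ D.T ^ 2630) := by
  have hD := h.ok
  have H := CH_of_rnd h
  have hloc := locOK_of_root (μ := p) hD (fun w : V => w) 3 0 40000
    (fun v => card_root_id hD v) (by norm_num)
    (fun w ω => D.T ^ 6 * D.T ^ 2000 ≤ cnt (D.wtC j (D.addCol C j col) (D.Now j col lam) w)
      (D.cdC (D.Now j col lam)) ω) ?_ ?_
  · refine LocOK.imp hloc fun ω hω w => (newc_le_cnt hD ω w).trans ?_
    have h1 := (not_le.1 (hω w)).le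
    refine h1.trans ?_
    rw [← pow_add]
    exact hD.big.pw (by norm_num)
  · intro w ω ω' hω
    have h1 := cnt_congr (D.wtC j (D.addCol C j col) (D.Now j col lam) w)
      (D.cdC (D.Now j col lam)) (D.ball 3 w) (fun U hU q hq => ?_) (ω := ω) (ω' := ω')
      (fun y hy => hω y (by exact_mod_cast hy))
    · simp only [h1]
    · have hP : D.PC j (D.addCol C j col) (D.Now j col lam) w U := by
        by_contra hc
        exact hU (if_neg hc)
      obtain ⟨⟨g1, -⟩, -, ⟨g4, g5⟩, ⟨g6, g7⟩, -⟩ := hP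
      have b1 : U.1 ∈ D.ball 1 w := mem_ball_one g1
      have b2 : U.2.1.1 ∈ D.ball 2 w := ball_step b1 g4
      have b3 : U.2.1.2 ∈ D.ball 2 w := ball_step b1 g5
      have b4 : U.2.2.2.1 ∈ D.ball 3 w := ball_step b2 g6
      have b5 : U.2.2.2.2 ∈ D.ball 3 w := ball_step b3 g7
      have hq' := (mem_filter.1 hq).1
      unfold S5 at hq'
      simp only [mem_insert, mem_singleton] at hq'
      rcases hq' with rfl | rfl | rfl | rfl | rfl
      · exact ball_mono (by norm_num) w b1
      · exact ball_mono (by norm_num) w b2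
      · exact ball_mono (by norm_num) w b3
      · exact b4
      · exact b5
  · intro w
    refine (count_T5 hD.big h.pm (fun _ _ => D.rho) h.p_le
      (D.wtC j (D.addCol C j col) (D.Now j col lam) w)
      (fun U => by unfold wtC; exact ite0_dc zero_le_one) (D.cdC (D.Now j col lam))
      (fun U => cdC_card_dc U) (D.T ^ 2000) (Tp hD _) (fun W hW => extC_dc H w hW)).trans ?_
    exact Real.exp_le_exp.2 (by linarith [T0 hD])

end OData

end

end Pool.Agent.AcyK
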