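import Pool.Agent.AcyK.DStepA
import Pool.Agent.AcyK.DKinds
import Pool.Agent.AcyK.DropAB
import Pool.Agent.AcyK.DropC
import Pool.Agent.AcyK.DropD

/-! # One round of the D-part (row D7b of MP_af9dfb_K, helper14) -/

set_option autoImplicit false
set_option linter.unusedSectionVars false

namespace Pool.Agent.AcyK

open Finset
open Pool.Agent.Acy (IsPM wt Ex Pr mean)
open scoped Classical

universe u v

section

variable {V : Type u} [Fintype V] [DecidableEq V]

namespace OData

variable {D : OData V}

theorem prog_step {j : ℕ} {C : V → Option (Fin D.k × ℕ)} {m : ℕ}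
    {col : V → Option (Fin D.k × ℕ)} {lam : V → Option Bool}
    {p : V → Fin D.k → ℝ} (h : D.DRnd j C m col lam p) :
    LocOK 40010 D.T p (fun ω => D.Prog (D.addCol C j (updCol m col lam ω)) j (m + 1)) :=
  prog_combine h (kinds_step h) (dropA_step h) (dropB_step h) (dropC_step h) (dropD_step h)

end OData

end

end Pool.Agent.AcyK
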