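import Pool.Agent.AcyK.DBase
import Pool.Agent.AcyK.DStat

/-! # The running invariants of the D-part (row D7b of MP_af9dfb_K, helper14)

`prog_init`, `past_next`, and the combination of the six events of a round. -/

set_option autoImplicit false
set_option linter.unusedSectionVars false

namespace Pool.Agent.AcyK

open Finset
open Pool.Agent.Acy (IsPM wt Ex Pr mean)
open scoped Classical

universe u v

section

variable {V : Type u} [Fintype V] [DecidableEq V]

namespace OData

variable {D : OData V}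

/-! ## The start of a part -/

theorem L1_none {f : V → Option (Fin D.k × ℕ)} {j : ℕ} (h : ∀ y, D.lv y = j → f y = none)
    (c : Fin D.k) (w : V → ℝ) : D.L1 f j c w = 0 := by
  unfold L1
  refine sum_eq_zero fun y _ => ?_
  rw [if_neg]
  rintro ⟨h1, h2⟩
  exact hasCol_ne_none h2 (h y h1)

theorem C1_none {f : V → Option (Fin D.k × ℕ)} {j : ℕ} (h : ∀ y, D.lv y = j → f y = none)
    (w : V → ℝ) : D.C1 f j w = 0 := by
  unfold C1
  refine sum_eq_zero fun y _ => ?_
  rw [if_neg]
  rintro ⟨h1, h2⟩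
  exact h2 (h y h1)

theorem S2_none {f : V → Option (Fin D.k × ℕ)} {j : ℕ} (h : ∀ y, D.lv y = j → f y = none)
    (w : V → V → ℝ) : D.S2 f j w = 0 := by
  unfold S2
  refine sum_eq_zero fun y _ => sum_eq_zero fun y' _ => ?_
  rw [if_neg]
  rintro ⟨h1, h2⟩
  exact h2.left_ne_none (h y h1)

theorem C2_none {f : V → Option (Fin D.k × ℕ)} {j : ℕ} (h : ∀ y, D.lv y = j → f y = none)
    (w : V → V → ℝ) : D.C2 f j w = 0 := by
  unfold C2
  refine sum_eq_zero fun y _ => sum_eq_zero fun y' _ => ?_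
  rw [if_neg]
  rintro ⟨⟨h1, h2⟩, -⟩
  exact h2 (h y h1)

theorem prog_init (hD : D.Ok) {j : ℕ} {C : V → Option (Fin D.k × ℕ)}
    (_hp : D.Past C j) : D.Prog (D.addCol C j fun _ => none) j 0 := by
  have hn : ∀ y, D.lv y = j → D.addCol C j (fun _ => none) y = none := fun y hy => by
    rw [addCol_of hy]
  have hb1 : ∀ w b, D.bd1 (D.addCol C j fun _ => none) j 0 w b = 0 := by
    intro w b
    unfold bd1
    rw [C1_none hn]
    simp
  have hb2 : ∀ w b, D.bd2 (D.addCol C j fun _ => none) j 0 w b = 0 := by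
    intro w b
    unfold bd2
    rw [C2_none hn]
    simp
  refine ⟨⟨?_, ?_, ?_, ?_, ?_, ?_, ?_, ?_⟩, ?_⟩
  · intro v c r hv h
    rw [hn v hv] at h
    exact absurd h (by simp)
  · intro a c
    rw [L1_none hn, hb1]
  · intro a j' c
    rw [L1_none hn, hb1]
  · intro v c
    rw [L1_none hn, hb1]
  · intro a b _
    rw [S2_none hn, hb2]
  · intro v
    rw [S2_none hn, hb2]
  · intro v s j' _
    rw [S2_none hn, hb2]
  · intro v _
    rw [S2_none hn, hb2]
  · intro w
    have h1 : (univ.filter fun v => D.lv v = j ∧ v ∈ D.N w ∧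
        D.Drop (D.addCol C j fun _ => none) v) = ∅ := by
      apply filter_eq_empty_iff.2
      rintro v - ⟨h1, -, h2⟩
      exact h2.1 (hn v h1)
    rw [h1, card_empty]
    have h2 := T0 hD
    have h3 := rho_pos hD
    push_cast
    positivity

/-! ## The end of a part -/

theorem L1_congr {f f' : V → Option (Fin D.k × ℕ)} {i : ℕ} (h : ∀ y, D.lv y = i → f y = f' y)
    (c : Fin D.k) (w : V → ℝ) : D.L1 f i c w = D.L1 f' i c w := by
  unfold L1
  refine sum_congr rfl fun y _ => ?_
  by_cases h1 : D.lv y = i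
  · have h2 : (D.lv y = i ∧ hasCol f y c) ↔ (D.lv y = i ∧ hasCol f' y c) := by
      rw [hasCol_congr (h y h1)]
    exact if_congr h2 rfl rfl
  · rw [if_neg fun h' => h1 h'.1, if_neg fun h' => h1 h'.1]

theorem S2_congr {f f' : V → Option (Fin D.k × ℕ)} {i : ℕ} (h : ∀ y, D.lv y = i → f y = f' y)
    (w : V → V → ℝ) : D.S2 f i w = D.S2 f' i w := by
  unfold S2
  refine sum_congr rfl fun y _ => sum_congr rfl fun y' _ => ?_
  have h2 : (D.lv y = i ∧ D.Same f y y') ↔ (D.lv y = i ∧ D.Same f' y y') := by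
    constructor
    · rintro ⟨h1, h3⟩
      exact ⟨h1, (Same_congr (h y h1) (h y' (h3.2.1.symm.trans h1))).1 h3⟩
    · rintro ⟨h1, h3⟩
      exact ⟨h1, (Same_congr (h y h1) (h y' (h3.2.1.symm.trans h1))).2 h3⟩
  exact if_congr h2 rfl rfl

theorem DStat.congr {f f' : V → Option (Fin D.k × ℕ)} {i : ℕ}
    (h : ∀ y, D.lv y = i → f y = f' y) (hs : D.DStat f i) : D.DStat f' i := by
  refine ⟨?_, ?_, ?_, ?_, ?_, ?_⟩
  · intro a c
    rw [← L1_congr h]
    exact hs.sB a c
  · intro a j c
    rw [← L1_congr h]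
    exact hs.sL a j c
  · intro v c
    rw [← L1_congr h]
    exact hs.sN v c
  · intro a b hab
    rw [← S2_congr h]
    exact hs.sM a b hab
  · intro v
    rw [← S2_congr h]
    exact hs.sP v
  · intro v s j hj
    rw [← S2_congr h]
    exact hs.sQ v s j hj

theorem DrB.congr {f f' : V → Option (Fin D.k × ℕ)} {i m : ℕ}
    (h : ∀ y, D.lv y ≤ i → f y = f' y) (hs : D.DrB f i m) : D.DrB f' i m := by
  intro w
  have h1 : (univ.filter fun v => D.lv v = i ∧ v ∈ D.N w ∧ D.Drop f' v) =
      univ.filter fun v => D.lv v = i ∧ v ∈ D.N w ∧ D.Drop f v := by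
    apply filter_congr
    intro v _
    refine and_congr_right fun hv => and_congr_right fun _ => ?_
    exact (Drop_congr (h v hv.le) (fun z hz => h z (hz.le.trans hv.le))
      (fun z hz _ _ => h z (hz.le.trans hv.le)) fun z hz _ _ => h z (hz.le.trans hv.le)).symm
  have h2 : (univ.filter fun v => D.lv v = i ∧ v ∈ D.N w ∧ f' v ≠ none) =
      univ.filter fun v => D.lv v = i ∧ v ∈ D.N w ∧ f v ≠ none := by
    apply filter_congr
    intro v _
    refine and_congr_right fun hv => and_congr_right fun _ => ?_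
    rw [h v hv.le]
  rw [h1, h2]
  exact hs w

/-- The end of part `j`. -/
theorem past_next (hD : D.Ok) {j : ℕ} {C : V → Option (Fin D.k × ℕ)} (hp : D.Past C j)
    {col : V → Option (Fin D.k × ℕ)} (h : D.Prog (D.addCol C j col) j D.M) :
    D.Past (D.addCol C j col) (j + 1) := by
  have hlow : ∀ i, i < j → ∀ y, D.lv y ≤ i → C y = D.addCol C j col y := fun i hi y hy =>
    (addCol_ne (hy.trans_lt hi).ne).symm
  refine ⟨?_, ?_, ?_⟩
  · intro v hv
    rw [addCol_ne (by omega)]
    exact hp.later v (by omega)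
  · intro i hi
    rcases Nat.lt_succ_iff_lt_or_eq.1 hi with h1 | h1
    · exact (hp.stat i h1).congr fun y hy => hlow i h1 y hy.le
    · subst h1
      exact stat_of_prog hD le_rfl h.toProgS
  · intro i hi
    rcases Nat.lt_succ_iff_lt_or_eq.1 hi with h1 | h1
    · exact (hp.dr i h1).congr fun y hy => hlow i h1 y hy
    · subst h1
      exact h.dr

/-! ## One round -/

section

variable {j m : ℕ} {C col : V → Option (Fin D.k × ℕ)} {lam : V → Option Bool}
  {ω : V → Fin D.k} {p : V → Fin D.k → ℝ}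

theorem newc_true (w : V) : D.newc j col lam w (fun _ => True) =
    ((univ.filter fun y => y ∈ D.N w ∧ D.Now j col lam y).card : ℝ) := by
  unfold newc
  rw [Nat.cast_inj]
  apply congrArg
  ext y
  simp

theorem dst_cu (A B : Finset V) : ((A ∪ B).card : ℝ) ≤ A.card + B.card := by
  exact_mod_cast card_union_le A B

/-- The vertices coloured before the round are dropped before or never. -/
theorem drop_old (h : D.DRnd j C m col lam p) {v : V} (hv : D.lv v = j)
    (hn : ¬ D.Now j col lam v) :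
    D.Drop (D.addCol C j (updCol m col lam ω)) v → D.Drop (D.addCol C j col) v := by
  have e1 := upd_not_now (C := C) (m := m) (ω := ω) hn
  intro hd
  have hne : D.addCol C j col v ≠ none := by
    rw [← e1]
    exact hd.1
  have hr : D.rd (D.addCol C j (updCol m col lam ω)) v < m := by
    obtain ⟨⟨c, r⟩, hc⟩ := Option.ne_none_iff_exists'.1 hne
    rw [rd_congr e1, rd_some hc]
    exact h.prog.lt v c r hv hc
  refine Drop_mono e1 ?_ ?_ hd
  · intro z hz
    exact upd_lt (hv ▸ hz)
  · intro z _ _ hz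
    apply upd_not_now
    intro hz'
    rw [rd_now hz'] at hz
    omega

theorem drB_next (h : D.DRnd j C m col lam p)
    (hA : ∀ w, D.newc j col lam w (D.RA (D.addCol C j (updCol m col lam ω))) ≤ D.T ^ 2630)
    (hB : ∀ w, D.newc j col lam w (D.RB (D.addCol C j (updCol m col lam ω))) ≤
      4 * D.T * (D.rho * (1000 * D.T ^ 3989) * D.newc j col lam w (fun _ => True)) +
        D.T ^ 2630)
    (hC : ∀ w, D.newc j col lam w (D.RC (D.addCol C j (updCol m col lam ω))) ≤ D.T ^ 2630)
    (hR : ∀ w, D.newc j col lam w (D.RD (D.addCol C j (updCol m col lam ω))) ≤ D.T ^ 2630) :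
    D.DrB (D.addCol C j (updCol m col lam ω)) j (m + 1) := by
  intro w
  have hD := h.ok
  have h0 := h.prog.dr w
  set f' := D.addCol C j (updCol m col lam ω) with hf'
  set f := D.addCol C j col with hf
  -- dropped vertices
  have h1 : (univ.filter fun v => D.lv v = j ∧ v ∈ D.N w ∧ D.Drop f' v) ⊆
      ((((univ.filter fun v => D.lv v = j ∧ v ∈ D.N w ∧ D.Drop f v) ∪
        (univ.filter fun y => y ∈ D.N w ∧ D.Now j col lam y ∧ D.RA f' y)) ∪
        (univ.filter fun y => y ∈ D.N w ∧ D.Now j col lam y ∧ D.RB f' y)) ∪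
        (univ.filter fun y => y ∈ D.N w ∧ D.Now j col lam y ∧ D.RC f' y)) ∪
        (univ.filter fun y => y ∈ D.N w ∧ D.Now j col lam y ∧ D.RD f' y) := by
    intro v hv
    simp only [mem_filter, mem_union, mem_univ, true_and] at hv ⊢
    obtain ⟨hv1, hv2, hv3⟩ := hv
    by_cases hn : D.Now j col lam v
    · rcases hv3.2 with g | g | g | g
      · exact .inl (.inl (.inl (.inr ⟨hv2, hn, g⟩)))
      · exact .inl (.inl (.inr ⟨hv2, hn, g⟩))
      · exact .inl (.inr ⟨hv2, hn, g⟩)
      · exact .inr ⟨hv2, hn, g⟩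
    · exact .inl (.inl (.inl (.inl ⟨hv1, hv2, drop_old h hv1 hn hv3⟩)))
  have h2 : ((univ.filter fun v => D.lv v = j ∧ v ∈ D.N w ∧ D.Drop f' v).card : ℝ) ≤
      (univ.filter fun v => D.lv v = j ∧ v ∈ D.N w ∧ D.Drop f v).card +
        D.newc j col lam w (D.RA f') + D.newc j col lam w (D.RB f') +
        D.newc j col lam w (D.RC f') + D.newc j col lam w (D.RD f') := by
    have h3 := card_le_card h1
    have h4 : ((univ.filter fun v => D.lv v = j ∧ v ∈ D.N w ∧ D.Drop f' v).card : ℝ) ≤
        ((((((univ.filter fun v => D.lv v = j ∧ v ∈ D.N w ∧ D.Drop f v) ∪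
        (univ.filter fun y => y ∈ D.N w ∧ D.Now j col lam y ∧ D.RA f' y)) ∪
        (univ.filter fun y => y ∈ D.N w ∧ D.Now j col lam y ∧ D.RB f' y)) ∪
        (univ.filter fun y => y ∈ D.N w ∧ D.Now j col lam y ∧ D.RC f' y)) ∪
        (univ.filter fun y => y ∈ D.N w ∧ D.Now j col lam y ∧ D.RD f' y)).card : ℝ) := by
      exact_mod_cast h3
    have h5 := dst_cu ((((univ.filter fun v => D.lv v = j ∧ v ∈ D.N w ∧ D.Drop f v) ∪
        (univ.filter fun y => y ∈ D.N w ∧ D.Now j col lam y ∧ D.RA f' y)) ∪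
        (univ.filter fun y => y ∈ D.N w ∧ D.Now j col lam y ∧ D.RB f' y)) ∪
        (univ.filter fun y => y ∈ D.N w ∧ D.Now j col lam y ∧ D.RC f' y))
        (univ.filter fun y => y ∈ D.N w ∧ D.Now j col lam y ∧ D.RD f' y)
    have h6 := dst_cu (((univ.filter fun v => D.lv v = j ∧ v ∈ D.N w ∧ D.Drop f v) ∪
        (univ.filter fun y => y ∈ D.N w ∧ D.Now j col lam y ∧ D.RA f' y)) ∪
        (univ.filter fun y => y ∈ D.N w ∧ D.Now j col lam y ∧ D.RB f' y))
        (univ.filter fun y => y ∈ D.N w ∧ D.Now j col lam y ∧ D.RC f' y)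
    have h7 := dst_cu ((univ.filter fun v => D.lv v = j ∧ v ∈ D.N w ∧ D.Drop f v) ∪
        (univ.filter fun y => y ∈ D.N w ∧ D.Now j col lam y ∧ D.RA f' y))
        (univ.filter fun y => y ∈ D.N w ∧ D.Now j col lam y ∧ D.RB f' y)
    have h8 := dst_cu (univ.filter fun v => D.lv v = j ∧ v ∈ D.N w ∧ D.Drop f v)
        (univ.filter fun y => y ∈ D.N w ∧ D.Now j col lam y ∧ D.RA f' y)
    unfold newc
    linarith
  -- coloured vertices
  have h3 : (univ.filter fun v => D.lv v = j ∧ v ∈ D.N w ∧ f v ≠ none).card +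
      (univ.filter fun y => y ∈ D.N w ∧ D.Now j col lam y).card ≤
      (univ.filter fun v => D.lv v = j ∧ v ∈ D.N w ∧ f' v ≠ none).card := by
    rw [← card_union_of_disjoint]
    · apply card_le_card
      intro v hv
      simp only [mem_filter, mem_union, mem_univ, true_and] at hv ⊢
      by_cases hn : D.Now j col lam v
      · have hw : v ∈ D.N w := by
          rcases hv with g | g
          · exact g.2.1
          · exact g.1
        refine ⟨hn.1, hw, ?_⟩
        rw [hf', upd_now hn]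
        exact Option.some_ne_none _
      · rcases hv with g | g
        · refine ⟨g.1, g.2.1, ?_⟩
          rw [hf', upd_not_now hn]
          exact g.2.2
        · exact absurd g.2 hn
    · rw [disjoint_left]
      intro v hv hv'
      simp only [mem_filter, mem_univ, true_and] at hv hv'
      exact hv.2.2 (now_none hv'.2)
  have h4 : ((univ.filter fun v => D.lv v = j ∧ v ∈ D.N w ∧ f v ≠ none).card : ℝ) +
      D.newc j col lam w (fun _ => True) ≤
      ((univ.filter fun v => D.lv v = j ∧ v ∈ D.N w ∧ f' v ≠ none).card : ℝ) := by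
    have h5 := (Nat.cast_le (α := ℝ)).2 h3
    rw [Nat.cast_add] at h5
    rw [newc_true]
    exact h5
  have hA' := hA w
  have hB' := hB w
  have hC' := hC w
  have hR' := hR w
  have hT := T0 hD
  have hrho := rho_pos hD
  have h5 : 4 * D.T ^ 2630 ≤ D.T ^ 2640 := by
    have e : D.T ^ 2640 = D.T ^ 10 * D.T ^ 2630 := by rw [← pow_add]
    rw [e]
    apply mul_le_mul_of_nonneg_right _ (Tp hD 2630).le
    have h6 := hD.big.pw (show 1 ≤ 10 by norm_num)
    have h7 := Tb hD
    rw [pow_one] at h6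
    linarith
  have h6 : 4 * D.T * (D.rho * (1000 * D.T ^ 3989) *
      ((univ.filter fun v => D.lv v = j ∧ v ∈ D.N w ∧ f v ≠ none).card : ℝ)) +
      4 * D.T * (D.rho * (1000 * D.T ^ 3989) * D.newc j col lam w (fun _ => True)) ≤
      4 * D.T * (D.rho * (1000 * D.T ^ 3989) *
      ((univ.filter fun v => D.lv v = j ∧ v ∈ D.N w ∧ f' v ≠ none).card : ℝ)) := by
    rw [← mul_add, ← mul_add]
    apply mul_le_mul_of_nonneg_left _ (by positivity)
    exact mul_le_mul_of_nonneg_left h4 (by have := Tp hD 3989; positivity)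
  push_cast
  rw [add_mul, one_mul]
  linarith

/-- The six events of a round together. -/
theorem prog_combine (h : D.DRnd j C m col lam p)
    (hK : LocOK 40000 D.T p (fun ω => D.ProgS (D.addCol C j (updCol m col lam ω)) j (m + 1)))
    (hA : LocOK 40000 D.T p (fun ω => ∀ w,
      D.newc j col lam w (D.RA (D.addCol C j (updCol m col lam ω))) ≤ D.T ^ 2630))
    (hB : LocOK 40000 D.T p (fun ω => ∀ w,
      D.newc j col lam w (D.RB (D.addCol C j (updCol m col lam ω))) ≤
        4 * D.T * (D.rho * (1000 * D.T ^ 3989) * D.newc j col lam w (fun _ => True)) +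
          D.T ^ 2630))
    (hC : LocOK 40000 D.T p (fun ω => ∀ w,
      D.newc j col lam w (D.RC (D.addCol C j (updCol m col lam ω))) ≤ D.T ^ 2630))
    (hR : LocOK 40000 D.T p (fun ω => ∀ w,
      D.newc j col lam w (D.RD (D.addCol C j (updCol m col lam ω))) ≤ D.T ^ 2630)) :
    LocOK 40010 D.T p (fun ω => D.Prog (D.addCol C j (updCol m col lam ω)) j (m + 1)) := by
  have hb := h.ok.big
  have h1 := hK.and hb hA
  have h2 := h1.and hb (hB.mono hb (show 40000 ≤ 40001 by norm_num))
  have h3 := h2.and hb (hC.mono hb (show 40000 ≤ 40002 by norm_num))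
  have h4 := h3.and hb (hR.mono hb (show 40000 ≤ 40003 by norm_num))
  obtain ⟨κ, hκ, E, S, hd, hp, hs, hi, hg⟩ := h4.mono hb (show 40004 ≤ 40010 by norm_num)
  refine ⟨κ, hκ, E, S, hd, hp, hs, hi, fun ω hE => ?_⟩
  obtain ⟨⟨⟨⟨g1, g2⟩, g3⟩, g4⟩, g5⟩ := hg ω hE
  exact ⟨g1, drB_next h g2 g3 g4 g5⟩

end

end OData

end

end Pool.Agent.AcyK
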