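import Pool.Agent.AcyK.OBas

/-! # Row OP1: the hypotheses of the inner engine (project MP_af9dfb_K) -/

set_option autoImplicit false
set_option linter.unusedSectionVars false

namespace Pool.Agent.AcyK

open Finset
open Pool.Agent.Acy (IsPM wt Ex Pr mean)
open scoped Classical

universe u v w

section

variable {V : Type u} [Fintype V] [DecidableEq V]

namespace OPart

variable {E : OPart V} {C : V → Option (Fin E.k × ℕ)}

section
variable (hE : E.Ok C)
include hE

theorem pa_log : 1 ≤ Real.log E.T := by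
  have hT := hE.dat.big
  rw [Real.le_log_iff_exp_le hT.pos]
  have h1 := Real.exp_one_lt_d9
  have h2 := hT.big
  norm_num at h2
  linarith

/-- Powers of `T` are small against `k`. -/
theorem pa_pw {a : ℕ} (h : a ≤ 3998) : E.T ^ a ≤ (E.k : ℝ) / 1000000 := by
  have hT := hE.dat.big
  have hb : (1000000 : ℝ) ≤ E.T := by
    have := hT.big
    norm_num at this
    exact this
  rw [le_div_iff₀ (by norm_num)]
  calc E.T ^ a * 1000000 ≤ E.T ^ 3998 * E.T :=
        mul_le_mul (hT.pw h) hb (by norm_num) (pow_nonneg hT.pos.le _)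
    _ = E.T ^ 3999 := (pow_succ _ _).symm
    _ ≤ E.k := hE.dat.k_lo

theorem pa_j : (E.j : ℝ) ≤ E.T ^ 800 := by
  have h1 : (E.j : ℝ) ≤ E.R := by exact_mod_cast hE.j_lt.le
  exact h1.trans hE.dat.R_hi

theorem pa_jmul {a : ℕ} : (E.j : ℝ) * E.T ^ a ≤ E.T ^ (800 + a) := by
  rw [pow_add]
  exact mul_le_mul_of_nonneg_right (pa_j hE) (pow_nonneg hE.dat.big.pos.le _)

theorem pa_s0_one {u x : V} (h : E.s0.X u x ≠ 0) : 1 ≤ E.s0.X u x :=
  (hE.inv.cases u x).resolve_left h

theorem pa_s0_log (u x : V) : 0 ≤ E.s0.X u x * Real.log (E.s0.X u x) := by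
  rcases hE.inv.cases u x with h | h
  · rw [h]
    simp
  · exact mul_nonneg (by linarith) (Real.log_nonneg h)

theorem la0_nonneg (x : V) : 0 ≤ E.La E.s0 x := by
  unfold OData.La
  refine Finset.sum_nonneg fun u _ => ?_
  split_ifs
  · exact pa_s0_log hE u x
  · exact le_rfl

theorem omA_nonneg (j : ℕ) (x : V) : 0 ≤ 2 / (E.k : ℝ) * (∑ u, if E.rel u x ∧ E.s0.nf u x then
    E.s0.X u x * ∑ e ∈ E.prs j u x, E.chi E.s0 e.1 e.2 else 0) := by
  refine mul_nonneg (by positivity) (Finset.sum_nonneg fun u _ => ?_)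
  split_ifs
  · exact mul_nonneg (s0_nonneg hE u x) (Finset.sum_nonneg fun e _ => chi_nonneg hE _ _)
  · exact le_rfl

theorem omB_nonneg (x : V) :
    0 ≤ ∑ u, if E.rel u x ∧ E.s0.st u x = .frY then E.s0.X u x else 0 := by
  refine Finset.sum_nonneg fun u _ => ?_
  split_ifs
  · exact s0_nonneg hE u x
  · exact le_rfl

theorem om0_nonneg (j : ℕ) (x : V) : 0 ≤ E.Om E.s0 j x := by
  unfold OData.Om
  have h1 := omA_nonneg hE j x
  have h2 := omB_nonneg hE x
  have h3 := hE.dat.big.log_pos
  have h4 : 0 ≤ 4 * Real.log E.T * ∑ u, (if E.rel u x ∧ E.s0.st u x = .frY then E.s0.X u x else 0) :=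
    mul_nonneg (by positivity) h2
  linarith

theorem pa_bd_le : E.Bd E.j ≤ E.k * Real.log E.T / 40000 := by
  unfold OData.Bd
  have h1 := (pa_jmul hE (a := 3189)).trans (pa_pw hE (a := 800 + 3189) (by norm_num))
  have h3 := pa_log hE
  have h4 : (0 : ℝ) ≤ E.k := by positivity
  have h5 : (E.k : ℝ) ≤ E.k * Real.log E.T := by nlinarith
  generalize (E.j : ℝ) * E.T ^ 3189 = z at *
  linarith

theorem la0_le {x : V} (hx : E.j ≤ E.lv x) : E.La E.s0 x ≤ E.k * Real.log E.T / 40000 := by
  have h1 := hE.inv.la x hx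
  have h2 := om0_nonneg hE E.j x
  have h3 := OData.tau_ge hE.dat
  have h4 := pa_bd_le hE
  have h5 : 0 ≤ 12 / 10 * E.tau * E.Om E.s0 E.j x := by positivity
  linarith

theorem om0_le {x : V} (hx : E.j ≤ E.lv x) : E.Om E.s0 E.j x ≤ E.k * Real.log E.T / 40000 := by
  have h1 := hE.inv.la x hx
  have h2 := om0_nonneg hE E.j x
  have h3 := OData.tau_ge hE.dat
  have h4 := pa_bd_le hE
  have h5 := la0_nonneg hE x
  have h6 : E.Om E.s0 E.j x ≤ 12 / 10 * E.tau * E.Om E.s0 E.j x := by nlinarith
  linarith

/-- Number of dead pairs. -/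
theorem dead_card {x : V} (hx : E.lv x = E.j) :
    ((univ.filter fun u => E.rel u x ∧ E.s0.X u x = 0).card : ℝ) ≤
      Real.log E.T / 80 * E.k := by
  have h1 : ((univ.filter fun u => E.rel u x ∧ E.s0.X u x = 0).card : ℝ) ≤
      E.La E.s0 x - E.Ma E.s0 x := by
    unfold OData.La OData.Ma
    rw [← Finset.sum_sub_distrib, ← Finset.sum_boole]
    refine Finset.sum_le_sum fun u _ => ?_
    unfold OData.K
    by_cases hr : E.rel u x
    · simp only [hr, true_and, if_true]
      rcases hE.inv.cases u x with h | h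
      · rw [h]
        simp
      · have h0 : E.s0.X u x ≠ 0 := by
          intro h0
          rw [h0] at h
          norm_num at h
        rw [if_neg h0]
        have h2 := Real.one_sub_inv_le_log_of_pos (show 0 < E.s0.X u x by linarith)
        have h3 : E.s0.X u x * (1 - (E.s0.X u x)⁻¹) = E.s0.X u x - 1 := by
          field_simp
        have h4 := mul_le_mul_of_nonneg_left h2 (show 0 ≤ E.s0.X u x by linarith)
        linarith
    · simp [hr]
  have h2 := la0_le hE (x := x) hx.ge
  have h3 := hE.inv.ma x hx.ge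
  have h4 := h3.trans ((pa_jmul hE (a := 2584)).trans (pa_pw hE (a := 800 + 2584) (by norm_num)))
  have h6 := neg_abs_le (E.Ma E.s0 x)
  have h7 := pa_log hE
  have h8 : (0 : ℝ) ≤ E.k := by positivity
  have h9 : (E.k : ℝ) ≤ E.k * Real.log E.T := by nlinarith
  clear h3
  linarith

/-! The kernel and the hazard. -/

theorem K0_symm (u x : V) : E.K E.s0 u x = E.K E.s0 x u := by
  unfold OData.K
  by_cases h : E.rel u x
  · rw [if_pos h, if_pos (OData.rel_symm hE.dat h), hE.inv.X_symm]
  · rw [if_neg h, if_neg fun h' => h (OData.rel_symm hE.dat h')]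

theorem hz0_symm (u x : V) : E.hz E.s0 u x = E.hz E.s0 x u := by
  unfold OData.hz
  by_cases h1 : E.spe u x
  · rw [if_pos h1, if_pos (OData.spe_symm hE.dat h1)]
  · rw [if_neg h1, if_neg fun h' => h1 (OData.spe_symm hE.dat h')]
    by_cases h : E.rel u x
    · rw [if_pos h, if_pos (OData.rel_symm hE.dat h), hE.inv.X_symm, hE.inv.st_symm]
    · rw [if_neg h, if_neg fun h' => h (OData.rel_symm hE.dat h')]

omit hE in
theorem K0_off {u x : V} (h : ¬ E.rel u x) : E.K E.s0 u x = 0 := by
  unfold OData.K
  rw [if_neg h]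

omit hE in
theorem hz0_off {u x : V} (h : ¬ E.rel u x) (h' : ¬ E.spe u x) : E.hz E.s0 u x = 0 := by
  unfold OData.hz
  rw [if_neg h', if_neg h]

omit hE in
theorem pa_rel_lv {u x : V} (h : E.rel u x) : E.lv u = E.lv x := h.2.1

omit hE in
theorem pa_spe_lv {u x : V} (h : E.spe u x) : E.lv u = E.lv x := h.2.1

omit hE in
theorem nibK {x : V} (hx : E.lv x = E.j) (y : V) : E.nib.K y x = E.K E.s0 y x := by
  show (if E.lv y = E.j then E.K E.s0 y x else 0) = _
  by_cases hy : E.lv y = E.j
  · rw [if_pos hy]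
  · rw [if_neg hy, K0_off]
    intro h
    exact hy ((pa_rel_lv h).trans hx)

omit hE in
theorem nibK' {x : V} (hx : E.lv x = E.j) (y : V) : E.nib.K x y = E.K E.s0 x y := by
  show (if E.lv x = E.j then E.K E.s0 x y else 0) = _
  rw [if_pos hx]

omit hE in
theorem nibK0 {x : V} (hx : E.lv x ≠ E.j) (y : V) : E.nib.K y x = 0 := by
  show (if E.lv y = E.j then E.K E.s0 y x else 0) = _
  by_cases hy : E.lv y = E.j
  · rw [if_pos hy, K0_off]
    intro h
    exact hx ((pa_rel_lv h).symm.trans hy)
  · rw [if_neg hy]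

omit hE in
theorem nibK0' {x : V} (hx : E.lv x ≠ E.j) (y : V) : E.nib.K x y = 0 := by
  show (if E.lv x = E.j then E.K E.s0 x y else 0) = _
  rw [if_neg hx]

omit hE in
theorem nibh {x : V} (hx : E.lv x = E.j) (y : V) : E.nib.h y x = E.hz E.s0 y x := by
  show (if E.lv y = E.j then E.hz E.s0 y x else 0) = _
  by_cases hy : E.lv y = E.j
  · rw [if_pos hy]
  · rw [if_neg hy, hz0_off]
    · intro h
      exact hy ((pa_rel_lv h).trans hx)
    · intro h
      exact hy ((pa_spe_lv h).trans hx)

omit hE in
theorem nibh' {x : V} (hx : E.lv x = E.j) (y : V) : E.nib.h x y = E.hz E.s0 x y := by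
  show (if E.lv x = E.j then E.hz E.s0 x y else 0) = _
  rw [if_pos hx]

omit hE in
theorem nibh0 {x : V} (hx : E.lv x ≠ E.j) (y : V) : E.nib.h y x = 0 := by
  show (if E.lv y = E.j then E.hz E.s0 y x else 0) = _
  by_cases hy : E.lv y = E.j
  · rw [if_pos hy, hz0_off]
    · intro h
      exact hx ((pa_rel_lv h).symm.trans hy)
    · intro h
      exact hx ((pa_spe_lv h).symm.trans hy)
  · rw [if_neg hy]

omit hE in
theorem nibh0' {x : V} (hx : E.lv x ≠ E.j) (y : V) : E.nib.h x y = 0 := by
  show (if E.lv x = E.j then E.hz E.s0 x y else 0) = _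
  rw [if_neg hx]

theorem pa_th_sq : E.th ^ 2 = Real.exp (Real.log E.T / 5) := by
  unfold OData.th
  rw [← Real.exp_nat_mul]
  congr 1
  push_cast
  ring

theorem pa_th_sq_le : E.th ^ 2 ≤ E.T := by
  rw [pa_th_sq hE]
  have := hE.dat.big.exp_fifth
  have := hE.dat.big.pos
  linarith

theorem hz0_nonneg (u x : V) : 0 ≤ E.hz E.s0 u x := by
  unfold OData.hz
  have h := hE.dat.big.log_pos
  split_ifs with h1 h2 h3 h4
  · norm_num
  · exact le_rfl
  · exact mul_nonneg (by positivity) (Real.log_nonneg (pa_s0_one hE h3))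
  · norm_num
  · exact le_rfl

theorem hz0_le (u x : V) : E.hz E.s0 u x ≤ 2 := by
  unfold OData.hz
  have h := hE.dat.big.log_pos
  split_ifs with h1 h2 h3 h4
  · exact le_rfl
  · norm_num
  · have h5 : Real.log (E.s0.X u x) ≤ Real.log E.T / 5 := by
      rw [Real.log_le_iff_le_exp (by linarith [pa_s0_one hE h3]), ← pa_th_sq hE]
      exact hE.inv.X_le u x
    calc 10 / Real.log E.T * Real.log (E.s0.X u x)
        ≤ 10 / Real.log E.T * (Real.log E.T / 5) :=
          mul_le_mul_of_nonneg_left h5 (by positivity)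
      _ = 2 := by field_simp; norm_num
  · exact le_rfl
  · norm_num

theorem K0_exp (u x : V) (h : E.K E.s0 u x ≠ -1) :
    1 + E.K E.s0 u x ≤ Real.exp (Real.log E.T / 10 * E.hz E.s0 u x) := by
  have hl := hE.dat.big.log_pos
  by_cases hr : E.rel u x
  · have hs := OData.rel_not_spe hE.dat hr
    have hK : E.K E.s0 u x = E.s0.X u x - 1 := by
      unfold OData.K
      rw [if_pos hr]
    have h0 : E.s0.X u x ≠ 0 := by
      intro h0
      apply h
      rw [hK, h0]
      norm_num
    have h1 := pa_s0_one hE h0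
    unfold OData.hz
    rw [hK, if_neg hs, if_pos hr, if_neg h0]
    split_ifs with ha
    · have h2 : Real.log E.T / 10 * (10 / Real.log E.T * Real.log (E.s0.X u x)) =
          Real.log (E.s0.X u x) := by field_simp
      rw [h2, Real.exp_log (by linarith)]
      linarith
    · have h2 : Real.log E.T / 10 * 2 = Real.log E.T / 5 := by ring
      rw [h2, ← pa_th_sq hE]
      have := hE.inv.X_le u x
      linarith
  · rw [K0_off hr]
    have h1 : 0 ≤ Real.log E.T / 10 * E.hz E.s0 u x :=
      mul_nonneg (by positivity) (hz0_nonneg hE u x)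
    have h2 := Real.one_le_exp h1
    linarith

theorem K0_cases (u x : V) : E.K E.s0 u x = -1 ∨ 0 ≤ E.K E.s0 u x := by
  unfold OData.K
  by_cases hr : E.rel u x
  · rw [if_pos hr]
    rcases hE.inv.cases u x with h | h
    · left
      rw [h]
      norm_num
    · right
      linarith
  · rw [if_neg hr]
    right
    exact le_rfl

theorem h_sum_le {x : V} (hx : E.lv x = E.j) :
    ∑ y, (2 + E.nib.K y x) * E.nib.h x y ≤ (E.k : ℝ) / 200 := by
  have hl := pa_log hE
  have hl0 : 0 < Real.log E.T := by linarith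
  have hth : 0 ≤ E.th ^ 2 := by positivity
  have h1 : ∀ y, (2 + E.nib.K y x) * E.nib.h x y ≤
      4 * (if E.spe y x then 1 else 0) +
      40 / Real.log E.T * (if E.rel y x then E.s0.X y x * Real.log (E.s0.X y x) else 0) +
      4 * (if E.rel y x ∧ E.s0.st y x = .frY then E.s0.X y x else 0) +
      4 * E.th ^ 2 * (if E.rel y x ∧ E.s0.st y x = .frO then 1 else 0) := by
    intro y
    rw [nibK hx, nibh' hx, hz0_symm hE x y]
    have e1 : (0 : ℝ) ≤ 4 * (if E.spe y x then 1 else 0) := by positivity
    have e2 : 0 ≤ 40 / Real.log E.T *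
        (if E.rel y x then E.s0.X y x * Real.log (E.s0.X y x) else 0) := by
      refine mul_nonneg (by positivity) ?_
      split_ifs
      · exact pa_s0_log hE y x
      · exact le_rfl
    have e3 : 0 ≤ 4 * (if E.rel y x ∧ E.s0.st y x = .frY then E.s0.X y x else 0) := by
      refine mul_nonneg (by norm_num) ?_
      split_ifs
      · exact s0_nonneg hE y x
      · exact le_rfl
    have e4 : 0 ≤ 4 * E.th ^ 2 * (if E.rel y x ∧ E.s0.st y x = .frO then 1 else 0) := by
      positivity
    by_cases hs : E.spe y x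
    · have hr : ¬ E.rel y x := fun h => OData.rel_not_spe hE.dat h hs
      rw [K0_off hr]
      have h2 : E.hz E.s0 y x = 2 := by
        unfold OData.hz
        rw [if_pos hs]
      rw [h2, if_pos hs] at *
      linarith
    · by_cases hr : E.rel y x
      · have hK : E.K E.s0 y x = E.s0.X y x - 1 := by
          unfold OData.K
          rw [if_pos hr]
        rw [hK]
        unfold OData.hz
        rw [if_neg hs, if_pos hr]
        by_cases h0 : E.s0.X y x = 0
        · rw [if_pos h0, mul_zero]
          linarith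
        · rw [if_neg h0]
          have hX := pa_s0_one hE h0
          have hlX := Real.log_nonneg hX
          cases hst : E.s0.st y x with
          | act =>
            simp only [hst, if_true, hr, true_and] at *
            have h3 : (2 + (E.s0.X y x - 1)) * (10 / Real.log E.T * Real.log (E.s0.X y x)) ≤
                40 / Real.log E.T * (E.s0.X y x * Real.log (E.s0.X y x)) := by
              have h4 : (2 + (E.s0.X y x - 1)) * (10 / Real.log E.T * Real.log (E.s0.X y x)) =
                  (1 + E.s0.X y x) * (10 * (Real.log (E.s0.X y x) / Real.log E.T)) := by ring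
              have h5 : 40 / Real.log E.T * (E.s0.X y x * Real.log (E.s0.X y x)) =
                  (4 * E.s0.X y x) * (10 * (Real.log (E.s0.X y x) / Real.log E.T)) := by ring
              rw [h4, h5]
              refine mul_le_mul_of_nonneg_right (by linarith) (by positivity)
            linarith
          | asl => exact absurd hst (hE.inv.no_asl y x)
          | frY =>
            simp only [hst, if_true, hr, true_and] at *
            simp only [reduceCtorEq, if_false] at *
            linarith
          | frS =>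
            have h3 := hE.inv.frS_ge y x hst
            have h4 : Real.log E.T / 10 ≤ Real.log (E.s0.X y x) := by
              rw [Real.le_log_iff_exp_le (by linarith)]
              exact h3
            have h5 : 4 * E.s0.X y x ≤
                40 / Real.log E.T * (E.s0.X y x * Real.log (E.s0.X y x)) := by
              have h6 : 4 * E.s0.X y x =
                40 / Real.log E.T * (E.s0.X y x * (Real.log E.T / 10)) := by
                field_simp
                norm_num
              rw [h6]
              refine mul_le_mul_of_nonneg_left ?_ (by positivity)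
              exact mul_le_mul_of_nonneg_left h4 (by linarith)
            simp only [hst, if_true, hr, true_and] at *
            simp only [reduceCtorEq, if_false] at *
            linarith
          | frO =>
            have h3 := hE.inv.X_le y x
            simp only [hst, if_true, hr, true_and] at *
            simp only [reduceCtorEq, if_false] at *
            linarith
      · rw [hz0_off hr hs, mul_zero]
        linarith
  refine (Finset.sum_le_sum fun y _ => h1 y).trans ?_
  rw [Finset.sum_add_distrib, Finset.sum_add_distrib, Finset.sum_add_distrib, ← Finset.mul_sum,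
    ← Finset.mul_sum, ← Finset.mul_sum, ← Finset.mul_sum, Finset.sum_boole, Finset.sum_boole]
  have h2 := OData.spe_card hE.dat x
  have h3 := la0_le hE (x := x) hx.ge
  have h4 := om0_le hE (x := x) hx.ge
  have h5 := omA_nonneg hE E.j x
  have h6 := hE.inv.nF x hx.ge
  have h7 := pa_jmul hE (a := 3121)
  unfold OData.nF at h6
  unfold OData.La at h3
  unfold OData.Om at h4
  have h8 := hE.dat.big.pos
  have h9 : 4 * E.th ^ 2 * ((univ.filter fun y => E.rel y x ∧ E.s0.st y x = .frO).card : ℝ) ≤
      4 * (E.k / 1000000) := by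
    calc 4 * E.th ^ 2 * ((univ.filter fun y => E.rel y x ∧ E.s0.st y x = .frO).card : ℝ)
        ≤ 4 * E.T * E.T ^ (800 + 3121) := by
          refine mul_le_mul ?_ (h6.trans h7) (by positivity) (by positivity)
          have := pa_th_sq_le hE
          linarith
      _ = 4 * E.T ^ (800 + 3121 + 1) := by rw [pow_succ]; ring
      _ ≤ 4 * (E.k / 1000000) :=
          mul_le_mul_of_nonneg_left (pa_pw hE (by norm_num)) (by norm_num)
  have h10 : 40 / Real.log E.T *
      ∑ y, (if E.rel y x then E.s0.X y x * Real.log (E.s0.X y x) else 0) ≤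
      40 / Real.log E.T * (E.k * Real.log E.T / 40000) :=
    mul_le_mul_of_nonneg_left h3 (by positivity)
  have h11 : 40 / Real.log E.T * (E.k * Real.log E.T / 40000) = E.k / 1000 := by
    field_simp
    ring
  have h12 : 4 * ∑ y, (if E.rel y x ∧ E.s0.st y x = .frY then E.s0.X y x else 0) ≤
      E.k / 40000 := by
    have h13 : Real.log E.T *
        (4 * ∑ y, (if E.rel y x ∧ E.s0.st y x = .frY then E.s0.X y x else 0)) ≤
        Real.log E.T * (E.k / 40000) := by
      have e1 : Real.log E.T *
        (4 * ∑ y, (if E.rel y x ∧ E.s0.st y x = .frY then E.s0.X y x else 0)) =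
        4 * Real.log E.T * ∑ y, (if E.rel y x ∧ E.s0.st y x = .frY then E.s0.X y x else 0) := by
        ring
      rw [e1]
      linarith
    exact le_of_mul_le_mul_left h13 hl0
  have hk : (0 : ℝ) ≤ E.k := by positivity
  linarith

theorem gram_le {y y' : V} (h : ¬ E.nib.tw y y') :
    |∑ u, E.nib.K u y * E.nib.K u y'| ≤ E.T ^ 3430 := by
  have hT := hE.dat.big
  have h0 : |(0 : ℝ)| ≤ E.T ^ 3430 := by
    rw [abs_zero]
    exact pow_nonneg hT.pos.le _
  by_cases hy : E.lv y = E.j
  · by_cases hy' : E.lv y' = E.j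
    · have hne : y ≠ y' := by
        intro he
        exact h ⟨hy, hy', Or.inl he⟩
      have hc : E.cod y y' ≤ E.T ^ 3000 := by
        by_contra hc
        push Not at hc
        exact h ⟨hy, hy', Or.inr hc⟩
      have h1 : ∑ u, E.nib.K u y * E.nib.K u y' = E.Gr E.s0 y y' := by
        unfold OData.Gr
        refine Finset.sum_congr rfl fun u _ => ?_
        rw [nibK hy, nibK hy']
      rw [h1]
      refine (hE.inv.gr y y' hy.ge (hy.trans hy'.symm) hne hc).trans ?_
      have h2 : (((cN E.N y y').filter fun z => E.lv z < E.j).card : ℝ) ≤ E.T ^ 3000 := by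
        refine le_trans ?_ hc
        unfold OData.cod
        exact_mod_cast Finset.card_le_card (Finset.filter_subset _ _)
      have h3 := pa_jmul hE (a := 2584)
      calc (((cN E.N y y').filter fun z => E.lv z < E.j).card : ℝ) * E.T ^ 429 +
            E.j * E.T ^ 2584 ≤ E.T ^ 3000 * E.T ^ 429 + E.T ^ (800 + 2584) :=
            add_le_add (mul_le_mul_of_nonneg_right h2 (pow_nonneg hT.pos.le _)) h3
        _ ≤ E.T ^ 3429 + E.T ^ 3429 := by
            rw [← pow_add]
            exact add_le_add (hT.pw (by norm_num)) (hT.pw (by norm_num))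
        _ = 2 * E.T ^ 3429 := by ring
        _ ≤ E.T * E.T ^ 3429 := by
            refine mul_le_mul_of_nonneg_right ?_ (pow_nonneg hT.pos.le _)
            have := hT.big
            norm_num at this
            linarith
        _ = E.T ^ 3430 := (pow_succ' _ _).symm
    · have h1 : ∑ u, E.nib.K u y * E.nib.K u y' = 0 := by
        refine Finset.sum_eq_zero fun u _ => ?_
        rw [nibK0 hy', mul_zero]
      rw [h1]
      exact h0
  · have h1 : ∑ u, E.nib.K u y * E.nib.K u y' = 0 := by
      refine Finset.sum_eq_zero fun u _ => ?_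
      rw [nibK0 hy, zero_mul]
    rw [h1]
    exact h0

/-! The hypotheses of the inner engine. -/

theorem nib_A_card (i : (V × V) ⊕ V) : ((E.nib.A i).card : ℝ) ≤ E.T ^ 3000 := by
  have hT := hE.dat.big
  rcases i with P | v
  · show (((if E.cod P.1 P.2 ≤ E.am then E.A P.1 P.2 else ∅ : Finset V)).card : ℝ) ≤ _
    split_ifs with h
    · exact (OData.b2 hE.dat (h.trans hE.dat.am_hi) E.j).trans (hT.pw (by norm_num))
    · rw [Finset.card_empty, Nat.cast_zero]
      exact pow_nonneg hT.pos.le _
  · show ((((E.N v).filter fun z => E.lv z = E.j)).card : ℝ) ≤ _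
    refine (OData.b1 hE.dat v E.j).trans ?_
    calc 3 * E.T ^ 2800 ≤ E.T * E.T ^ 2800 := by
          refine mul_le_mul_of_nonneg_right ?_ (pow_nonneg hT.pos.le _)
          have := hT.big
          norm_num at this
          linarith
      _ = E.T ^ 2801 := (pow_succ' _ _).symm
      _ ≤ E.T ^ 3000 := hT.pw (by norm_num)

theorem nib_A_deg (y : V) :
    ((univ.filter fun i => y ∈ E.nib.A i).card : ℝ) ≤ E.T ^ 7300 := by
  have hT := hE.dat.big
  have h1 : (univ.filter fun i => y ∈ E.nib.A i) ⊆ (E.N y ×ˢ E.N y).disjSum (E.N y) := by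
    intro i hi
    rw [mem_filter] at hi
    rcases i with P | v
    · have h2 : y ∈ (if E.cod P.1 P.2 ≤ E.am then E.A P.1 P.2 else ∅ : Finset V) := hi.2
      split_ifs at h2 with h3
      · have h4 : y ∈ E.N P.1 ∩ E.N P.2 := (mem_filter.1 h2).1
        rw [mem_inter] at h4
        rw [Finset.inl_mem_disjSum, mem_product]
        exact ⟨hE.dat.N_symm _ _ h4.1, hE.dat.N_symm _ _ h4.2⟩
      · simp at h2
    · have h2 : y ∈ (E.N v).filter fun z => E.lv z = E.j := hi.2
      rw [Finset.inr_mem_disjSum]
      exact hE.dat.N_symm _ _ (mem_filter.1 h2).1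
  have h2 : ((univ.filter fun i => y ∈ E.nib.A i).card : ℝ) ≤
      ((E.N y).card : ℝ) * (E.N y).card + (E.N y).card := by
    have h3 := Finset.card_le_card h1
    rw [Finset.card_disjSum, Finset.card_product] at h3
    exact_mod_cast h3
  have h3 := hE.dat.deg y
  have h4 : (0 : ℝ) ≤ ((E.N y).card : ℝ) := Nat.cast_nonneg _
  calc ((univ.filter fun i => y ∈ E.nib.A i).card : ℝ) ≤
        ((E.N y).card : ℝ) * (E.N y).card + (E.N y).card := h2
    _ ≤ E.T ^ 3600 * E.T ^ 3600 + E.T ^ 3600 :=
        add_le_add (mul_le_mul h3 h3 h4 (pow_nonneg hT.pos.le _)) h3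
    _ ≤ E.T ^ 7200 + E.T ^ 7200 := by
        rw [← pow_add]
        exact add_le_add (hT.pw (by norm_num)) (hT.pw (by norm_num))
    _ = 2 * E.T ^ 7200 := by ring
    _ ≤ E.T * E.T ^ 7200 := by
        refine mul_le_mul_of_nonneg_right ?_ (pow_nonneg hT.pos.le _)
        have := hT.big
        norm_num at this
        linarith
    _ = E.T ^ 7201 := (pow_succ' _ _).symm
    _ ≤ E.T ^ 7300 := hT.pw (by norm_num)

theorem nib_pr_card (y : V) :
    ((univ.filter fun y' => E.nib.pr y y').card : ℝ) ≤ E.T ^ 7300 := by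
  have hT := hE.dat.big
  have h1 := cN_count hT hE.dat.N_symm hE.dat.deg y (a := 1) (fun y' => E.nib.pr y y')
    (fun y' => inferInstance) (by
      intro u hu
      have h2 : 0 < E.cod y u := hu.2.2.2.1
      rw [OData.cod_comm hE.dat] at h2
      unfold OData.cod at h2
      have h3 : 0 < (cN E.N u y).card := by exact_mod_cast h2
      exact_mod_cast h3)
  rw [mul_one] at h1
  exact h1.trans (hT.pw (by norm_num))

theorem nib_pr_aux {y y' v : V} (hy : E.lv y = E.j) (hy' : E.lv y' = E.j) (hne : y ≠ y')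
    (hv : y ∈ E.N v) (hv' : y' ∈ E.N v) (hh : E.nib.h y y' ≤ 1) : E.nib.pr y y' := by
  have hT := hE.dat.big
  have hs : ¬ E.spe y y' := by
    intro hs
    rw [nibh' hy] at hh
    unfold OData.hz at hh
    rw [if_pos hs] at hh
    norm_num at hh
  have hc : E.cod y y' ≤ E.am := by
    by_contra hc
    push Not at hc
    exact hs ⟨hne, hy.trans hy'.symm, Or.inr hc⟩
  refine ⟨hy, hy', hne, ?_, hc.trans (hE.dat.am_hi.trans (hT.pw (by norm_num)))⟩
  have h1 : v ∈ cN E.N y y' :=
    mem_inter.2 ⟨hE.dat.N_symm _ _ hv, hE.dat.N_symm _ _ hv'⟩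
  have h2 : 0 < (cN E.N y y').card := Finset.card_pos.2 ⟨v, h1⟩
  show (0 : ℝ) < ((cN E.N y y').card : ℝ)
  exact_mod_cast h2

theorem nib_A_pr (i : (V × V) ⊕ V) {y y' : V} (hy : y ∈ E.nib.A i) (hy' : y' ∈ E.nib.A i)
    (hne : y ≠ y') (hh : E.nib.h y y' ≤ 1) : E.nib.pr y y' := by
  rcases i with P | v
  · have h1 : y ∈ (if E.cod P.1 P.2 ≤ E.am then E.A P.1 P.2 else ∅ : Finset V) := hy
    have h2 : y' ∈ (if E.cod P.1 P.2 ≤ E.am then E.A P.1 P.2 else ∅ : Finset V) := hy'
    split_ifs at h1 h2 with h3
    · have h4 := mem_filter.1 h1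
      have h5 := mem_filter.1 h2
      exact nib_pr_aux hE h4.2 h5.2 hne (mem_inter.1 h4.1).1 (mem_inter.1 h5.1).1 hh
    · simp at h1
  · have h1 : y ∈ (E.N v).filter fun z => E.lv z = E.j := hy
    have h2 : y' ∈ (E.N v).filter fun z => E.lv z = E.j := hy'
    have h4 := mem_filter.1 h1
    have h5 := mem_filter.1 h2
    exact nib_pr_aux hE h4.2 h5.2 hne h4.1 h5.1 hh

theorem nib_K_symm (x y : V) : E.nib.K x y = E.nib.K y x := by
  by_cases hx : E.lv x = E.j
  · rw [nibK' hx, nibK hx, K0_symm hE]
  · rw [nibK0' hx, nibK0 hx]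

theorem nib_h_symm (x y : V) : E.nib.h x y = E.nib.h y x := by
  by_cases hx : E.lv x = E.j
  · rw [nibh' hx, nibh hx, hz0_symm hE]
  · rw [nibh0' hx, nibh0 hx]

theorem nib_cf_sum (x : V) : ∑ y, E.nib.a true x y ≤ Real.log E.T / 80 * E.k := by
  have hl := hE.dat.big.log_pos
  have h1 : ∀ y, E.nib.a true x y = if E.nib.K y x = -1 then 1 else 0 := fun y => rfl
  rw [Finset.sum_congr rfl fun y _ => h1 y]
  by_cases hx : E.lv x = E.j
  · refine le_trans (le_of_eq ?_) (dead_card hE hx)
    rw [Finset.sum_boole]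
    congr 2
    ext u
    simp only [mem_filter, mem_univ, true_and]
    rw [nibK hx]
    unfold OData.K
    by_cases hr : E.rel u x
    · rw [if_pos hr]
      constructor
      · intro h
        exact ⟨hr, by linarith⟩
      · intro h
        rw [h.2]
        norm_num
    · rw [if_neg hr]
      constructor
      · intro h
        norm_num at h
      · intro h
        exact absurd h.1 hr
  · have h2 : ∀ y, (if E.nib.K y x = -1 then (1 : ℝ) else 0) = 0 := by
      intro y
      rw [nibK0 hx, if_neg (by norm_num)]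
    rw [Finset.sum_congr rfl fun y _ => h2 y, Finset.sum_const_zero]
    positivity

theorem nib_h_sum (x : V) : ∑ y, E.nib.a false x y ≤ (E.k : ℝ) / 200 := by
  have h1 : ∀ y, E.nib.a false x y = (2 + E.nib.K y x) * E.nib.h y x := fun y => rfl
  rw [Finset.sum_congr rfl fun y _ => h1 y]
  by_cases hx : E.lv x = E.j
  · refine le_trans (le_of_eq ?_) (h_sum_le hE hx)
    refine Finset.sum_congr rfl fun y _ => ?_
    rw [nib_h_symm hE y x]
  · have h2 : ∀ y, (2 + E.nib.K y x) * E.nib.h y x = 0 := by
      intro y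
      rw [nibh0 hx, mul_zero]
    rw [Finset.sum_congr rfl fun y _ => h2 y, Finset.sum_const_zero]
    positivity

theorem nib_ok : E.nib.Ok where
  big := hE.dat.big
  k_lo := hE.dat.k_lo
  k_hi := hE.dat.k_hi
  q_hi := hE.dat.q_hi
  M_le := hE.dat.M_le
  rp_symm := by
    rintro x y ⟨hx, h | h⟩
    · exact ⟨(pa_rel_lv h).symm.trans hx, Or.inl (OData.rel_symm hE.dat h)⟩
    · exact ⟨(pa_spe_lv h).symm.trans hx, Or.inr (OData.spe_symm hE.dat h)⟩
  rp_irrefl := by
    rintro x ⟨_, h | h⟩
    · exact h.1 rfl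
    · exact h.1 rfl
  K_symm := nib_K_symm hE
  h_symm := nib_h_symm hE
  K_off := by
    intro x y h
    by_cases hx : E.lv x = E.j
    · rw [nibK' hx, K0_off]
      intro hr
      exact h ⟨hx, Or.inl hr⟩
    · exact nibK0' hx y
  h_off := by
    intro x y h
    by_cases hx : E.lv x = E.j
    · rw [nibh' hx, hz0_off]
      · intro hr
        exact h ⟨hx, Or.inl hr⟩
      · intro hr
        exact h ⟨hx, Or.inr hr⟩
    · exact nibh0' hx y
  K_cases := by
    intro x y
    by_cases hx : E.lv x = E.j
    · rw [nibK' hx]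
      exact K0_cases hE x y
    · right
      rw [nibK0' hx]
  K_exp := by
    intro x y h
    by_cases hx : E.lv x = E.j
    · rw [nibK' hx] at h
      rw [nibK' hx, nibh' hx]
      exact K0_exp hE x y h
    · rw [nibK0' hx, nibh0' hx, mul_zero, Real.exp_zero, add_zero]
  h_nonneg := by
    intro x y
    by_cases hx : E.lv x = E.j
    · rw [nibh' hx]
      exact hz0_nonneg hE x y
    · rw [nibh0' hx]
  h_le := by
    intro x y
    by_cases hx : E.lv x = E.j
    · rw [nibh' hx]
      exact hz0_le hE x y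
    · rw [nibh0' hx]
      norm_num
  R_card := by
    intro x
    refine le_trans ?_ (OData.rp_card hE.dat x)
    unfold NibData.R
    exact_mod_cast Finset.card_le_card fun u hu => by
      rw [mem_filter] at hu ⊢
      exact ⟨hu.1, hu.2.2⟩
  cf_sum := nib_cf_sum hE
  h_sum := nib_h_sum hE
  tw_card := by
    intro x
    refine le_trans ?_ (OData.tw_card hE.dat x)
    exact_mod_cast Finset.card_le_card fun u hu => by
      rw [mem_filter] at hu ⊢
      exact ⟨hu.1, hu.2.1.trans hu.2.2.1.symm, hu.2.2.2⟩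
  gram := fun y y' h => gram_le hE h
  pr_symm := by
    rintro y y' ⟨h1, h2, h3, h4, h5⟩
    refine ⟨h2, h1, h3.symm, ?_, ?_⟩
    · rw [OData.cod_comm hE.dat]
      exact h4
    · rw [OData.cod_comm hE.dat]
      exact h5
  pr_tw := by
    rintro y y' ⟨_, _, h3, _, h5⟩ ⟨_, _, h6 | h6⟩
    · exact h3 h6
    · exact absurd h5 (not_le.2 h6)
  pr_card := nib_pr_card hE
  A_card := nib_A_card hE
  A_deg := nib_A_deg hE
  A_pr := fun i _ y hy y' hy' hne hh _ => nib_A_pr hE i hy hy' hne hh

end

end OPart

end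

end Pool.Agent.AcyK
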