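import Pool.Agent.AcyK.OStat

/-! # The outer process (project MP_af9dfb_K): start, freezing, lottery (row OP3) -/

set_option autoImplicit false
set_option linter.unusedSectionVars false

namespace Pool.Agent.AcyK

open Finset
open Pool.Agent.Acy (IsPM wt Ex Pr mean)
open scoped Classical

universe u v w

section

variable {V : Type u} [Fintype V] [DecidableEq V]

namespace OData

variable {D : OData V}

theorem pinv_zero (hD : D.Ok) :
    D.PInv ⟨fun _ _ => 1, fun _ _ => .act⟩ 0 (fun _ => none) := by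
  have hth := th_ge hD
  have hk := k_pos hD
  have htau := tau_ge hD
  have hMa : ∀ x, D.Ma ⟨fun _ _ => 1, fun _ _ => .act⟩ x = 0 := by
    intro x
    unfold Ma K
    apply Finset.sum_eq_zero
    intro u _
    split_ifs <;> simp
  have hK : ∀ u x, D.K ⟨fun _ _ => 1, fun _ _ => .act⟩ u x = 0 := by
    intro u x
    unfold K
    split_ifs <;> simp
  refine ⟨fun _ _ => rfl, fun _ _ => rfl, fun _ _ => Or.inr le_rfl, fun _ _ => ?_, fun _ _ => ?_,
    fun _ _ h => ?_, fun _ _ h => ?_, fun _ _ _ _ _ _ _ _ _ _ _ h => ?_, fun x _ => ?_,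
    fun x _ => ?_, fun y y' _ _ _ _ => ?_, fun x _ => ?_⟩
  · show (1 : ℝ) ≤ D.th ^ 2
    nlinarith
  · exact Stat.noConfusion
  · exact absurd h Stat.noConfusion
  · exact absurd rfl h
  · exact absurd h (Nat.not_lt_zero _)
  · rw [hMa]; simp
  · have h1 : D.La ⟨fun _ _ => 1, fun _ _ => .act⟩ x = 0 := by
      unfold La
      apply Finset.sum_eq_zero
      intro u _
      split_ifs <;> simp
    have h2 : D.Om ⟨fun _ _ => 1, fun _ _ => .act⟩ 0 x ≤
        2 / D.k * ∑ u, (if D.rel u x then ((D.prs 0 u x).card : ℝ) else 0) := by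
      unfold Om
      have h3 : ∑ u, (if D.rel u x ∧ (Stat.act : Stat) = .frY then (1 : ℝ) else 0) = 0 := by
        apply Finset.sum_eq_zero
        intro u _
        rw [if_neg]
        rintro ⟨-, h⟩
        exact Stat.noConfusion h
      simp only [h3, mul_zero, add_zero, one_mul]
      apply mul_le_mul_of_nonneg_left _ (by positivity)
      apply Finset.sum_le_sum
      intro u _
      by_cases hu : D.rel u x
      · rw [if_pos hu]
        have h4 : ∀ e : V × V, D.chi ⟨fun _ _ => 1, fun _ _ => .act⟩ e.1 e.2 ≤ 1 := by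
          intro e
          unfold chi
          split_ifs <;> simp
        have h5 : ∑ e ∈ D.prs 0 u x, D.chi ⟨fun _ _ => 1, fun _ _ => .act⟩ e.1 e.2 ≤
            ((D.prs 0 u x).card : ℝ) := by
          refine (Finset.sum_le_sum fun e _ => h4 e).trans ?_
          rw [Finset.sum_const, nsmul_eq_mul, mul_one]
        split_ifs
        · exact h5
        · positivity
      · rw [if_neg hu, if_neg fun h => hu h.1]
    have h3 := om_init hD x
    have h4 : 12 / 10 * D.tau * D.Om ⟨fun _ _ => 1, fun _ _ => .act⟩ 0 x ≤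
        12 / 10 * D.tau * (2 / D.k * ∑ u, (if D.rel u x then ((D.prs 0 u x).card : ℝ) else 0)) :=
      mul_le_mul_of_nonneg_left h2 (by linarith)
    rw [h1]
    unfold Bd
    push_cast
    linarith
  · unfold Gr
    have h1 : ∑ u, D.K ⟨fun _ _ => 1, fun _ _ => .act⟩ u y *
        D.K ⟨fun _ _ => 1, fun _ _ => .act⟩ u y' = 0 := by
      apply Finset.sum_eq_zero
      intro u _
      rw [hK, zero_mul]
    rw [h1, abs_zero]
    exact add_nonneg (mul_nonneg (Nat.cast_nonneg _) (pow_nonneg (T0 hD).le _))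
      (mul_nonneg (Nat.cast_nonneg _) (pow_nonneg (T0 hD).le _))
  · unfold nF
    have h1 : (univ.filter fun u => D.rel u x ∧ (Stat.act : Stat) = .frO) = ∅ := by
      apply Finset.filter_eq_empty_iff.2
      rintro u _ ⟨-, h⟩
      exact Stat.noConfusion h
    simp only [h1, Finset.card_empty]
    push_cast
    linarith

section frz

variable {s : OState V} {j : ℕ} {C : V → Option (Fin D.k × ℕ)}

/-- The pairs considered for freezing. -/
def fc (D : OData V) (s : OState V) (j : ℕ) (u x : V) : Prop :=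
  D.rel u x ∧ j ≤ D.lv u ∧ s.st u x = .act ∧ s.X u x ≠ 0

theorem frz_X (u x : V) : (D.frz s j).X u x = s.X u x := rfl

theorem frz_neg {u x : V} (h : ¬ D.fc s j u x) : (D.frz s j).st u x = s.st u x := if_neg h

theorem frz_pos {u x : V} (h : D.fc s j u x) : (D.frz s j).st u x =
    if Real.log D.T < D.Yj s j u x then .frY else if D.th < s.X u x then .frS else .act :=
  if_pos h

theorem frz_cases (u x : V) : (D.frz s j).st u x = s.st u x ∨
    (D.fc s j u x ∧ Real.log D.T < D.Yj s j u x ∧ (D.frz s j).st u x = .frY) ∨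
    (D.fc s j u x ∧ D.th < s.X u x ∧ (D.frz s j).st u x = .frS) := by
  by_cases h : D.fc s j u x
  · rw [frz_pos h]
    split_ifs with h1 h2
    · exact Or.inr (Or.inl ⟨h, h1, rfl⟩)
    · exact Or.inr (Or.inr ⟨h, h2, rfl⟩)
    · exact Or.inl h.2.2.1.symm
  · exact Or.inl (frz_neg h)

theorem frz_nf {u x : V} (h : (D.frz s j).nf u x) : s.nf u x := by
  rcases frz_cases (D := D) (s := s) (j := j) u x with h1 | ⟨-, -, h1⟩ | ⟨-, -, h1⟩
  · unfold OState.nf at h ⊢
    rw [h1] at h
    exact h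
  · unfold OState.nf at h
    rw [h1] at h
    rcases h with h | h <;> exact Stat.noConfusion h
  · unfold OState.nf at h
    rw [h1] at h
    rcases h with h | h <;> exact Stat.noConfusion h

theorem frz_act {u x : V} (h : (D.frz s j).st u x = .act) : s.st u x = .act := by
  rcases frz_cases (D := D) (s := s) (j := j) u x with h1 | ⟨-, -, h1⟩ | ⟨-, -, h1⟩
  · rw [← h1]; exact h
  · rw [h1] at h; exact Stat.noConfusion h
  · rw [h1] at h; exact Stat.noConfusion h

theorem frz_frO {u x : V} : (D.frz s j).st u x = .frO ↔ s.st u x = .frO := by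
  rcases frz_cases (D := D) (s := s) (j := j) u x with h1 | ⟨h2, -, h1⟩ | ⟨h2, -, h1⟩
  · rw [h1]
  · rw [h1]
    constructor
    · intro h; exact Stat.noConfusion h
    · intro h
      rw [h2.2.2.1] at h
      exact Stat.noConfusion h
  · rw [h1]
    constructor
    · intro h; exact Stat.noConfusion h
    · intro h
      rw [h2.2.2.1] at h
      exact Stat.noConfusion h

theorem frz_chi (h0 : ∀ u x, 0 ≤ s.X u x) (u x : V) : D.chi (D.frz s j) u x ≤ D.chi s u x := by
  unfold chi
  by_cases h1 : D.spe u x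
  · rw [if_pos h1, if_pos h1]
  · rw [if_neg h1, if_neg h1]
    by_cases h2 : D.rel u x
    · rw [if_pos h2, if_pos h2]
      by_cases h3 : (D.frz s j).nf u x
      · rw [if_pos h3, if_pos (frz_nf h3)]
        exact le_rfl
      · rw [if_neg h3]
        split_ifs
        · exact h0 u x
        · exact le_rfl
    · rw [if_neg h2, if_neg h2]

theorem chi_nonneg (h0 : ∀ u x, 0 ≤ s.X u x) (u x : V) : 0 ≤ D.chi s u x := by
  unfold chi
  split_ifs
  · exact le_rfl
  · exact h0 u x
  · exact le_rfl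
  · exact zero_le_one

theorem Yj_chi (hD : D.Ok) (h0 : ∀ u x, 0 ≤ s.X u x) (u x : V) : 4 * D.Yj s j u x ≤
    2 / D.k * ∑ e ∈ D.prs j u x, D.chi s e.1 e.2 := by
  have hk := k_pos hD
  unfold Yj
  have h1 : ∑ e ∈ D.prs j u x, (if D.rel e.1 e.2 ∧ s.st e.1 e.2 = .act then
      s.X e.1 e.2 else 0) ≤ ∑ e ∈ D.prs j u x, D.chi s e.1 e.2 := by
    apply Finset.sum_le_sum
    intro e _
    split_ifs with h
    · have hnf : s.nf e.1 e.2 := Or.inl h.2
      unfold chi
      rw [if_neg (rel_not_spe hD h.1), if_pos h.1, if_pos hnf]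
    · exact chi_nonneg h0 _ _
  calc 4 * (1 / (2 * D.k) * ∑ e ∈ D.prs j u x, (if D.rel e.1 e.2 ∧ s.st e.1 e.2 = .act then
      s.X e.1 e.2 else 0)) = 2 / D.k * ∑ e ∈ D.prs j u x,
        (if D.rel e.1 e.2 ∧ s.st e.1 e.2 = .act then s.X e.1 e.2 else 0) := by
        field_simp
        ring
    _ ≤ _ := mul_le_mul_of_nonneg_left h1 (by positivity)

theorem frz_Yj (hD : D.Ok) (h0 : ∀ u x, 0 ≤ s.X u x) (u x : V) :
    D.Yj (D.frz s j) j u x ≤ D.Yj s j u x := by
  have hk := k_pos hD
  unfold Yj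
  apply mul_le_mul_of_nonneg_left _ (by positivity)
  apply Finset.sum_le_sum
  intro e _
  by_cases h : D.rel e.1 e.2 ∧ (D.frz s j).st e.1 e.2 = .act
  · rw [if_pos h, if_pos ⟨h.1, frz_act h.2⟩]
    exact le_rfl
  · rw [if_neg h]
    split_ifs
    · exact h0 _ _
    · exact le_rfl

theorem Yj_comm (hD : D.Ok) (u x : V) : D.Yj s j u x = D.Yj s j x u := by
  unfold Yj
  rw [prs_comm hD]

theorem frz_Om (hD : D.Ok) (h0 : ∀ u x, 0 ≤ s.X u x) (x : V) :
    D.Om (D.frz s j) j x ≤ D.Om s j x := by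
  have hk := k_pos hD
  have hlog := hD.big.log_pos
  unfold Om
  rw [Finset.mul_sum, Finset.mul_sum, ← Finset.sum_add_distrib, Finset.mul_sum, Finset.mul_sum,
    ← Finset.sum_add_distrib]
  apply Finset.sum_le_sum
  intro u _
  have h1 : ∑ e ∈ D.prs j u x, D.chi (D.frz s j) e.1 e.2 ≤
      ∑ e ∈ D.prs j u x, D.chi s e.1 e.2 := Finset.sum_le_sum fun e _ => frz_chi h0 _ _
  have h2 : 0 ≤ ∑ e ∈ D.prs j u x, D.chi s e.1 e.2 :=
    Finset.sum_nonneg fun e _ => chi_nonneg h0 _ _
  have h3 := h0 u x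
  by_cases hr : D.rel u x
  · rcases frz_cases (D := D) (s := s) (j := j) u x with h4 | ⟨h5, h6, h4⟩ | ⟨h5, h6, h4⟩
    · have h5 : (D.frz s j).nf u x ↔ s.nf u x := by
        unfold OState.nf
        rw [h4]
      simp only [h4, h5, frz_X]
      apply add_le_add_left
      split_ifs
      · apply mul_le_mul_of_nonneg_left _ (by positivity)
        exact mul_le_mul_of_nonneg_left h1 h3
      · exact le_rfl
    · have h7 : ¬ (D.frz s j).nf u x := by
        unfold OState.nf
        rw [h4]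
        rintro (h | h) <;> exact Stat.noConfusion h
      have h8 : s.nf u x := Or.inl h5.2.2.1
      rw [if_neg fun h => h7 h.2, if_pos ⟨hr, h4⟩, if_pos ⟨hr, h8⟩, frz_X, if_neg]
      · have h9 := Yj_chi (j := j) hD h0 u x
        have h10 : 4 * Real.log D.T ≤ 2 / D.k * ∑ e ∈ D.prs j u x, D.chi s e.1 e.2 := by
          linarith
        have h11 := mul_le_mul_of_nonneg_right h10 h3
        linarith
      · rintro ⟨-, h⟩
        rw [h5.2.2.1] at h
        exact Stat.noConfusion h
    · have h7 : ¬ (D.frz s j).nf u x := by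
        unfold OState.nf
        rw [h4]
        rintro (h | h) <;> exact Stat.noConfusion h
      have h8 : s.nf u x := Or.inl h5.2.2.1
      rw [if_neg fun h => h7 h.2, if_neg, if_pos ⟨hr, h8⟩, if_neg]
      · have : 0 ≤ 2 / (D.k : ℝ) * (s.X u x * ∑ e ∈ D.prs j u x, D.chi s e.1 e.2) := by
          positivity
        linarith
      · rintro ⟨-, h⟩
        rw [h5.2.2.1] at h
        exact Stat.noConfusion h
      · rintro ⟨-, h⟩
        rw [h4] at h
        exact Stat.noConfusion h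
  · rw [if_neg fun h => hr h.1, if_neg fun h => hr h.1, if_neg fun h => hr h.1,
      if_neg fun h => hr h.1]

theorem pinv_frz (hD : D.Ok) {s : OState V} {j : ℕ} {C : V → Option (Fin D.k × ℕ)}
    (h : D.PInv s j C) : D.PInvF (D.frz s j) j C := by
  have h0 : ∀ u x, 0 ≤ s.X u x := by
    intro u x
    rcases h.cases u x with h1 | h1
    · rw [h1]
    · linarith
  have hth := th_ge hD
  have hfc : ∀ u x, D.fc s j u x → D.fc s j x u := by
    rintro u x ⟨h1, h2, h3, h4⟩
    refine ⟨rel_symm hD h1, ?_, ?_, ?_⟩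
    · rw [← h1.2.1]; exact h2
    · rw [h.st_symm]; exact h3
    · rw [h.X_symm]; exact h4
  refine ⟨⟨h.X_symm, ?_, h.cases, h.X_le, ?_, ?_, ?_, ?_, h.ma, ?_, h.gr, ?_⟩, ?_, ?_⟩
  · intro u x
    by_cases h1 : D.fc s j u x
    · rw [frz_pos h1, frz_pos (hfc _ _ h1), Yj_comm hD, h.X_symm u x]
    · rw [frz_neg h1, frz_neg fun h2 => h1 (hfc _ _ h2), h.st_symm]
  · intro u x
    rcases frz_cases (D := D) (s := s) (j := j) u x with h1 | ⟨-, -, h1⟩ | ⟨-, -, h1⟩
    · rw [h1]; exact h.no_asl u x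
    · rw [h1]; exact Stat.noConfusion
    · rw [h1]; exact Stat.noConfusion
  · intro u x h2
    rcases frz_cases (D := D) (s := s) (j := j) u x with h1 | ⟨-, -, h1⟩ | ⟨-, h3, h1⟩
    · rw [h1] at h2
      exact h.frS_ge u x h2
    · rw [h1] at h2
      exact Stat.noConfusion h2
    · exact h3.le
  · intro u x h2
    rcases frz_cases (D := D) (s := s) (j := j) u x with h1 | ⟨h3, -, -⟩ | ⟨h3, -, -⟩
    · rw [h1] at h2
      exact h.fr_ne u x h2
    · exact h3.2.2.2
    · exact h3.2.2.2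
  · intro u x h1 h2 h3
    exact h.inj u x h1 (frz_act h2) h3
  · intro x hx
    have h1 := h.la x hx
    have h2 := frz_Om (j := j) hD h0 x
    have h3 := tau_ge hD
    have h4 : 12 / 10 * D.tau * D.Om (D.frz s j) j x ≤ 12 / 10 * D.tau * D.Om s j x :=
      mul_le_mul_of_nonneg_left h2 (by linarith)
    have h5 : D.La (D.frz s j) x = D.La s x := rfl
    rw [h5]
    linarith
  · intro x hx
    have h1 := h.nF x hx
    have h2 : D.nF (D.frz s j) x = D.nF s x := by
      unfold nF
      congr 2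
      ext u
      simp only [mem_filter, frz_frO]
    rw [h2]
    exact h1
  · intro u x hr hj h2
    rw [frz_X]
    by_cases h3 : s.X u x = 0
    · rw [h3]; linarith
    · have h4 : D.fc s j u x := ⟨hr, hj, frz_act h2, h3⟩
      rw [frz_pos h4] at h2
      by_contra h5
      push Not at h5
      rw [if_pos h5] at h2
      split_ifs at h2
  · intro u x hr hj h2 h3
    have h4 : D.fc s j u x := ⟨hr, hj, frz_act h2, h3⟩
    refine (frz_Yj hD h0 u x).trans ?_
    rw [frz_pos h4] at h2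
    by_contra h5
    push Not at h5
    rw [if_pos h5] at h2
    exact Stat.noConfusion h2

end frz

theorem exists_lottery (hD : D.Ok) (hS : Splittable D.N D.NN (1 / (100 * Real.log D.T)))
    {s : OState V} {j : ℕ} (hj : j < D.R) {C : V → Option (Fin D.k × ℕ)}
    (h : D.PInvF s j C) : ∃ (J : V → V → V → V → Fin (D.NN + 1))
    (qq : V → V → Fin (D.NN + 1) → ℝ), ({ D with j := j, s0 := s, J := J, qq := qq } :
      OPart V).Ok C := by
  have hk := k_pos hD
  have hlog := hD.big.log_pos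
  have hX0 : ∀ u x, 0 ≤ s.X u x := by
    intro u x
    rcases h.cases u x with h1 | h1
    · rw [h1]
    · linarith
  -- the weights
  let μ : V → V → V → V → ℝ := fun z z' a b =>
    if a ∈ cN D.N z z' ∧ b ∈ cN D.N z z' ∧ D.rel a b ∧ j + 1 ≤ D.lv a ∧ s.st a b = .act then
      s.X a b else 0
  have hμ0 : ∀ z z' a b, 0 ≤ μ z z' a b := by
    intro z z' a b
    simp only [μ]
    split_ifs
    · exact hX0 _ _
    · exact le_rfl
  have hμs : ∀ z z' a b, μ z z' a b = μ z z' b a := by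
    intro z z' a b
    simp only [μ]
    by_cases h1 : a ∈ cN D.N z z' ∧ b ∈ cN D.N z z' ∧ D.rel a b ∧ j + 1 ≤ D.lv a ∧
        s.st a b = .act
    · obtain ⟨h2, h3, h4, h5, h6⟩ := h1
      rw [if_pos ⟨h2, h3, h4, h5, h6⟩, if_pos ⟨h3, h2, rel_symm hD h4, by rw [← h4.2.1]; exact h5,
        by rw [h.st_symm]; exact h6⟩, h.X_symm]
    · rw [if_neg h1, if_neg]
      rintro ⟨h2, h3, h4, h5, h6⟩
      exact h1 ⟨h3, h2, rel_symm hD h4, by rw [← h4.2.1]; exact h5,
        by rw [h.st_symm]; exact h6⟩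
  have hex : ∀ z z' : V, ∃ (J : V → V → Fin (D.NN + 1)) (qq : Fin (D.NN + 1) → ℝ),
      (∀ u x, J u x = J x u) ∧ (∀ i, 1 / (2 * (D.NN : ℝ) + 2) ≤ qq i) ∧ ∑ i, qq i ≤ 1 ∧
      (D.rel z z' → ∀ u x, μ z z' u x ≠ 0 →
        ∑ a ∈ cN D.N u x, ∑ b ∈ cN D.N u x, (if J a b = J u x then μ z z' a b else 0) ≤
          2 * (1 / (100 * Real.log D.T)) * qq (J u x) * ∑ a, ∑ b, μ z z' a b) := by
    intro z z'
    by_cases hr : D.rel z z'
    · obtain ⟨J, qq, h1, h2, h3, h4⟩ := hS z z' hr.1 hr.2.2.1 (μ z z') (hμ0 z z') (hμs z z')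
        (by
          intro u x hne
          simp only [μ] at hne
          have h1 : u ∈ cN D.N z z' ∧ x ∈ cN D.N z z' ∧ D.rel u x ∧ j + 1 ≤ D.lv u ∧
              s.st u x = .act := by
            by_contra h2
            exact hne (if_neg h2)
          exact ⟨h1.2.2.1.1, h1.2.2.1.2.2.1, h1.1, h1.2.1⟩)
      exact ⟨J, qq, h1, h2, h3, fun _ => h4⟩
    · refine ⟨fun _ _ => 0, fun _ => 1 / ((D.NN : ℝ) + 1), fun _ _ => rfl, fun _ => ?_, ?_,
        fun h1 => absurd h1 hr⟩
      · have : (0 : ℝ) ≤ (D.NN : ℝ) := Nat.cast_nonneg _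
        apply one_div_le_one_div_of_le <;> linarith
      · rw [Finset.sum_const, Finset.card_univ, Fintype.card_fin, nsmul_eq_mul]
        push_cast
        have : (0 : ℝ) ≤ (D.NN : ℝ) := Nat.cast_nonneg _
        rw [mul_one_div, div_self (by linarith)]
  choose J qq hJ hqlo hqsum hsp using hex
  refine ⟨J, qq, ⟨hD, hj, h, hJ, hqlo, hqsum, ?_⟩⟩
  intro z z' hr hz hst hXne u x hsite hst' hXne' hu hx
  have hr' : D.rel z z' := hr
  have hz' : D.lv z = j := hz
  have hst0 : s.st z z' = .act := hst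
  have hX1 : s.X z z' ≠ 0 := hXne
  have hru : D.rel u x := hsite.1
  have hju : j < D.lv u := hsite.2
  have hstu : s.st u x = .act := hst'
  have hXu : s.X u x ≠ 0 := hXne'
  have hμu : μ z z' u x ≠ 0 := by
    simp only [μ]
    rw [if_pos ⟨hu, hx, hru, hju, hstu⟩]
    exact hXu
  have h1 := hsp z z' hr' u x hμu
  -- the sum over `prs`
  have h2 : ∑ e ∈ D.prs (j + 1) u x, (if e.1 ∈ cN D.N z z' ∧ e.2 ∈ cN D.N z z' ∧
      D.rel e.1 e.2 ∧ s.st e.1 e.2 = .act ∧ J z z' e.1 e.2 = J z z' u x then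
        s.X e.1 e.2 else 0) ≤
      ∑ a ∈ cN D.N u x, ∑ b ∈ cN D.N u x,
        (if J z z' a b = J z z' u x then μ z z' a b else 0) := by
    rw [← Finset.sum_product']
    unfold prs
    rw [Finset.sum_filter]
    apply Finset.sum_le_sum
    intro e _
    split_ifs with h3 h4 h5 h6
    · simp only [μ]
      rw [if_pos ⟨h4.1, h4.2.1, h4.2.2.1, h3.2.2, h4.2.2.2.1⟩]
    · exact absurd h4.2.2.2.2 h5
    · exact hμ0 _ _ _ _
    · exact le_rfl
    · exact hμ0 _ _ _ _
    · exact le_rfl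
  -- the total weight
  have h3 : ∑ a, ∑ b, μ z z' a b ≤ 2 * D.k * Real.log D.T := by
    have h4 := h.act_Y z z' hr' (by rw [hz']) hst0 hX1
    have h5 : ∑ a, ∑ b, μ z z' a b ≤ ∑ e ∈ D.prs j z z',
        (if D.rel e.1 e.2 ∧ s.st e.1 e.2 = .act then s.X e.1 e.2 else 0) := by
      rw [← Finset.sum_product']
      rw [← Finset.sum_filter_of_ne (p := fun e : V × V => e ∈ D.prs j z z')]
      · have h6 : ((univ ×ˢ univ : Finset (V × V)).filter fun e => e ∈ D.prs j z z') =
            D.prs j z z' := by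
          ext e
          simp
        rw [h6]
        apply Finset.sum_le_sum
        intro e _
        simp only [μ]
        split_ifs with h7 h8 h8
        · exact le_rfl
        · exact absurd ⟨h7.2.2.1, h7.2.2.2.2⟩ h8
        · exact hX0 _ _
        · exact le_rfl
      · intro e _ hne
        simp only [μ] at hne
        have h7 : e.1 ∈ cN D.N z z' ∧ e.2 ∈ cN D.N z z' ∧ D.rel e.1 e.2 ∧
            j + 1 ≤ D.lv e.1 ∧ s.st e.1 e.2 = .act := by
          by_contra h2
          exact hne (if_neg h2)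
        unfold prs
        rw [mem_filter, mem_product]
        exact ⟨⟨h7.1, h7.2.1⟩, h7.2.2.1.1, h7.2.2.1.2.1, by omega⟩
    unfold Yj at h4
    rw [one_div, inv_mul_le_iff₀ (by positivity)] at h4
    linarith
  have hq0 : 0 ≤ qq z z' (J z z' u x) := by
    refine le_trans ?_ (hqlo z z' _)
    have : (0 : ℝ) ≤ (D.NN : ℝ) := Nat.cast_nonneg _
    positivity
  show 1 / (2 * (D.k : ℝ)) * (∑ e ∈ D.prs (j + 1) u x, if e.1 ∈ cN D.N z z' ∧
      e.2 ∈ cN D.N z z' ∧ D.rel e.1 e.2 ∧ s.st e.1 e.2 = .act ∧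
      J z z' e.1 e.2 = J z z' u x then s.X e.1 e.2 else 0) ≤ qq z z' (J z z' u x) / 50
  calc 1 / (2 * (D.k : ℝ)) * (∑ e ∈ D.prs (j + 1) u x, if e.1 ∈ cN D.N z z' ∧
      e.2 ∈ cN D.N z z' ∧ D.rel e.1 e.2 ∧ s.st e.1 e.2 = .act ∧
      J z z' e.1 e.2 = J z z' u x then s.X e.1 e.2 else 0)
      ≤ 1 / (2 * (D.k : ℝ)) * (2 * (1 / (100 * Real.log D.T)) * qq z z' (J z z' u x) *
        ∑ a, ∑ b, μ z z' a b) := mul_le_mul_of_nonneg_left (h2.trans h1) (by positivity)
    _ ≤ 1 / (2 * (D.k : ℝ)) * (2 * (1 / (100 * Real.log D.T)) * qq z z' (J z z' u x) *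
        (2 * D.k * Real.log D.T)) := by gcongr
    _ = qq z z' (J z z' u x) / 50 := by
        field_simp
        ring

end OData

end

end Pool.Agent.AcyK
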