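import Pool.Agent.AcyK.OPartD
import Pool.Agent.AcyK.OPartA
import Pool.Agent.AcyK.OPartC
import Pool.Agent.AcyK.DStep
import Pool.Agent.AcyK.DLam

/-! # All parts are coloured (row D8) -/

set_option autoImplicit false
set_option linter.unusedSectionVars false

namespace Pool.Agent.AcyK

open Finset
open Pool.Agent.Acy (IsPM wt Ex Pr mean)
open scoped Classical

universe u v

section

variable {V : Type u} [Fintype V] [DecidableEq V]

namespace OData

variable {D : OData V}

/-- Few selected neighbours (from the tested sets). -/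
theorem top_nbr {E : OPart V} {C : V → Option (Fin E.k × ℕ)} (hE : E.Ok C) {m : ℕ}
    (hm : m < E.M) {col : V → Option (Fin E.k × ℕ)} {lam : V → Option Bool}
    (h9 : ∀ b i, |((E.nib.A i ∩ Sel col lam b).card : ℝ) -
      E.nib.t m * (E.nib.A i ∩ Un col).card| ≤ E.nib.T ^ 1502) (w : V) :
    ((univ.filter fun y => y ∈ E.N w ∧ E.Now E.j col lam y).card : ℝ) ≤ E.T ^ 2668 := by
  have hT := hE.dat.big
  have hT0 := hT.pos
  have hTb := hT.big
  have hnib := OPart.nib_ok hE
  have ht1 : E.nib.t m ≤ 1 / E.T ^ 133 := NibData.t_le hnib hm.le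
  have h1 := h9 true (Sum.inr w)
  have h2 : E.nib.A (Sum.inr w) = (E.N w).filter fun z => E.lv z = E.j := rfl
  have h3 := OData.b1 hE.dat w E.j
  have h4 : ((E.nib.A (Sum.inr w) ∩ Un col).card : ℝ) ≤ 3 * E.T ^ 2800 := by
    have h5 : (E.nib.A (Sum.inr w) ∩ Un col).card ≤ (E.nib.A (Sum.inr w)).card :=
      Finset.card_le_card inter_subset_left
    have h6 : ((E.nib.A (Sum.inr w) ∩ Un col).card : ℝ) ≤ ((E.nib.A (Sum.inr w)).card : ℝ) := by
      exact_mod_cast h5
    rw [h2] at h6 ⊢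
    exact h6.trans h3
  have h5 : (univ.filter fun y => y ∈ E.N w ∧ E.Now E.j col lam y) =
      E.nib.A (Sum.inr w) ∩ Sel col lam true := by
    rw [h2]
    ext z
    rw [mem_filter, mem_inter, mem_filter]
    unfold Sel Now
    rw [mem_filter]
    constructor
    · rintro ⟨h5, h6, h7, h8, h9⟩
      exact ⟨⟨h6, h7⟩, h5, h8, h9⟩
    · rintro ⟨⟨h6, h7⟩, h5, h8, h9⟩
      exact ⟨h5, h6, h7, h8, h9⟩
  rw [h5]
  have h6 := (abs_le.1 h1).2
  have h7 : E.nib.t m * ((E.nib.A (Sum.inr w) ∩ Un col).card : ℝ) ≤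
      1 / E.T ^ 133 * (3 * E.T ^ 2800) :=
    mul_le_mul ht1 h4 (Nat.cast_nonneg _) (by positivity)
  have h8 : 1 / E.T ^ 133 * (3 * E.T ^ 2800) = 3 * E.T ^ 2667 := by
    rw [show (2800 : ℕ) = 133 + 2667 from rfl, pow_add]
    field_simp
  have h11 : E.T ^ 2668 = E.T ^ 2667 * E.T := pow_succ _ _
  have h12 : E.T ^ 1502 ≤ E.T ^ 2667 := hT.pw (by norm_num)
  have h13 := pow_pos hT0 2667
  have h14 : E.nib.T = E.T := rfl
  rw [h14] at h6
  rw [h11]
  nlinarith

/-- The D-process is an auxiliary process. -/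
theorem aux_drop {E : OPart V} {C : V → Option (Fin E.k × ℕ)} (hE : E.Ok C)
    (hp : E.Past C E.j) : AuxLoc 40010 E.nib
    (fun m col _ (_ : PUnit.{v + 1}) => E.Prog (E.addCol C E.j col) E.j m) := by
  intro m hm col Y s hX _
  have hT := hE.dat.big
  have hnib := OPart.nib_ok hE
  have hD := hE.dat
  refine ⟨_, LocOK.mono hT (OData.lam_step hD hp (NibData.lawA_isPM hnib hm.le)
    (fun y => ?_) col) (by norm_num), ?_⟩
  · have ht1 : E.nib.t m ≤ 1 / E.T ^ 133 := NibData.t_le hnib hm.le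
    unfold NibData.lawA
    rw [if_neg (by simp)]
    exact ht1
  · intro lam hlam h9 _ p hpm hpl _
    have hR : E.DRnd E.j C m col lam p :=
      ⟨hD, hp, hm, hX, ⟨top_nbr hE hm h9, hlam.1, hlam.2⟩, hpm, hpl⟩
    refine ⟨PUnit.{u + 1}, inferInstance, fun _ _ => 1, fun _ => PUnit.unit, ⟨?_, ?_⟩, ?_⟩
    · intro _ _
      exact zero_le_one
    · intro _
      simp
    · have h1 : IsPM (fun (_ : V) (_ : PUnit.{u + 1}) => (1 : ℝ)) :=
        ⟨fun _ _ => zero_le_one, fun _ => by simp⟩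
      exact LocOK.imp (LocOK.fst hpm h1 (prog_step hR)) fun ω hω Y' _ _ => hω

/-- What is known about the vertices with the same colour in the parts below `j`. -/
def SepB (D : OData V) (f : V → Option (Fin D.k × ℕ)) (j : ℕ) : Prop :=
  ∀ u x, D.lv u < j → D.Same f u x → D.rd f u ≠ D.rd f x → ¬ D.Spc u x ∧
    (D.Rp u x → ∀ z ∈ cN D.N u x, ∀ z' ∈ cN D.N u x, D.lv z < D.lv u → ¬ D.Same f z z')

/-- Few uncoloured neighbours in the parts below `j`. -/
def UncB (D : OData V) (f : V → Option (Fin D.k × ℕ)) (j : ℕ) : Prop :=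
  ∀ i, i < j → ∀ w, (((D.N w).filter fun z => D.lv z = i ∧ f z = none).card : ℝ) ≤
    ((D.q : ℝ) - D.M) / D.q * (3 * D.T ^ 2800) + D.T ^ 1652

/-- Below part `j` nothing changes. -/
theorem top_lt {j : ℕ} {C col : V → Option (Fin D.k × ℕ)} {z : V} (h : D.lv z < j) :
    D.addCol C j col z = C z := by
  unfold addCol
  rw [if_neg (by omega)]

theorem top_same {f g : V → Option (Fin D.k × ℕ)} {u x : V} (hu : f u = g u) (hx : f x = g x)
    (h : D.Same f u x) : D.Same g u x := by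
  obtain ⟨h1, h2, c, ⟨r, h3⟩, r', h4⟩ := h
  exact ⟨h1, h2, c, ⟨r, by rw [← hu, h3]⟩, r', by rw [← hx, h4]⟩

theorem sepB_next (hD : D.Ok) {j : ℕ} {C col : V → Option (Fin D.k × ℕ)} (h : D.SepB C j)
    (hc : ∀ v x c r r', D.lv v = j → D.lv x = j → v ≠ x → col v = some (c, r) →
      col x = some (c, r') → r ≠ r' → ¬ D.spe v x ∧
      (D.rel v x → ∀ z ∈ cN D.N v x, ∀ z' ∈ cN D.N v x, z ≠ z' → D.lv z = D.lv z' →
        D.lv z < j → ¬ sameCol C z z')) : D.SepB (D.addCol C j col) (j + 1) := by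
  intro u x hu hs hr
  rcases Nat.lt_succ_iff_lt_or_eq.mp hu with hu' | hu'
  · have hx' : D.lv x < j := by rw [← hs.2.1]; exact hu'
    have e1 := top_lt (D := D) (C := C) (col := col) hu'
    have e2 := top_lt (D := D) (C := C) (col := col) hx'
    have h1 : D.Same C u x := top_same e1 e2 hs
    have h2 : D.rd C u ≠ D.rd C x := by
      unfold rd at hr ⊢
      rw [e1, e2] at hr
      exact hr
    obtain ⟨h3, h4⟩ := h u x hu' h1 h2
    refine ⟨h3, fun h5 z hz z' hz' hl h6 => ?_⟩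
    have hz1 : D.lv z < j := hl.trans hu'
    have hz2 : D.lv z' < j := by rw [← h6.2.1]; exact hz1
    exact h4 h5 z hz z' hz' hl (top_same (top_lt hz1) (top_lt hz2) h6)
  · have hx' : D.lv x = j := by rw [← hs.2.1]; exact hu'
    have e1 : D.addCol C j col u = col u := by unfold addCol; rw [if_pos hu']
    have e2 : D.addCol C j col x = col x := by unfold addCol; rw [if_pos hx']
    obtain ⟨hne, hl, c, ⟨r, h3⟩, r', h4⟩ := hs
    rw [e1] at h3
    rw [e2] at h4
    have hrr : r ≠ r' := by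
      intro h5
      apply hr
      unfold rd
      rw [e1, e2, h3, h4, h5]
    obtain ⟨h5, h6⟩ := hc u x c r r' hu' hx' hne h3 h4 hrr
    have h7 : ¬ D.Spc u x := fun h8 => h5 ⟨hne, hl, h8⟩
    refine ⟨h7, fun h8 z hz z' hz' hlt h9 => ?_⟩
    have hrel : D.rel u x := by
      unfold Spc at h7
      push Not at h7
      refine ⟨hne, hl, h7.1, ?_, h7.2⟩
      rcases h8.2 with h10 | h10
      · exact absurd h10 h7.1
      · exact h10
    have hz1 : D.lv z < j := by rw [← hu']; exact hlt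
    have hz2 : D.lv z' < j := by rw [← h9.2.1]; exact hz1
    have h10 := top_same (top_lt (D := D) (C := C) (col := col) hz1)
      (top_lt (D := D) (C := C) (col := col) hz2) h9
    exact h6 hrel z hz z' hz' h10.1 h10.2.1 hz1 h10.2.2

theorem uncB_next {j : ℕ} {C col : V → Option (Fin D.k × ℕ)} (h : D.UncB C j)
    (hc : ∀ v, (((D.N v).filter fun z => D.lv z = j ∧ col z = none).card : ℝ) ≤
      ((D.q : ℝ) - D.M) / D.q * (3 * D.T ^ 2800) + D.T ^ 1652) :
    D.UncB (D.addCol C j col) (j + 1) := by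
  intro i hi w
  rcases Nat.lt_succ_iff_lt_or_eq.mp hi with hi' | hi'
  · have h1 : ((D.N w).filter fun z => D.lv z = i ∧ D.addCol C j col z = none) =
        (D.N w).filter fun z => D.lv z = i ∧ C z = none := by
      refine filter_congr fun z _ => ?_
      constructor
      · rintro ⟨h2, h3⟩
        exact ⟨h2, by rw [top_lt (h2 ▸ hi')] at h3; exact h3⟩
      · rintro ⟨h2, h3⟩
        exact ⟨h2, by rw [top_lt (h2 ▸ hi')]; exact h3⟩
    rw [h1]
    exact h i hi' w
  · subst hi'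
    have h1 : ((D.N w).filter fun z => D.lv z = i ∧ D.addCol C i col z = none) =
        (D.N w).filter fun z => D.lv z = i ∧ col z = none := by
      refine filter_congr fun z _ => ?_
      constructor
      · rintro ⟨h2, h3⟩
        exact ⟨h2, by unfold addCol at h3; rw [if_pos h2] at h3; exact h3⟩
      · rintro ⟨h2, h3⟩
        exact ⟨h2, by unfold addCol; rw [if_pos h2]; exact h3⟩
    rw [h1]
    exact hc w

/-- The parts below `j` have been coloured. -/
theorem parts_upto (hD : D.Ok) (hS : Splittable D.N D.NN (1 / (100 * Real.log D.T))) :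
    ∀ j, j ≤ D.R → ∃ (C : V → Option (Fin D.k × ℕ)) (s : OState V),
      D.PInv s j C ∧ D.Past C j ∧ D.SepB C j ∧ D.UncB C j := by
  intro j
  induction j with
  | zero =>
    intro _
    refine ⟨fun _ => none, _, pinv_zero hD, ⟨fun _ _ => rfl, fun i hi => absurd hi (by omega),
      fun i hi => absurd hi (by omega)⟩, fun u x hu => absurd hu (by omega),
      fun i hi => absurd hi (by omega)⟩
  | succ j ih =>
    intro hj
    obtain ⟨C, s, h1, h2, h3, h4⟩ := ih (by omega)
    obtain ⟨J, qq, hE⟩ := exists_lottery hD hS (show j < D.R by omega) (pinv_frz hD h1)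
    obtain ⟨col, Y, s', t, h5, h6, h7, h8⟩ := OPart.run_part hE (σ := PUnit.{1})
      (e := 40010) (by norm_num) (by norm_num)
      (fun m col _ _ => D.Prog (D.addCol C j col) j m) (aux_drop hE h2) PUnit.unit
      (prog_init hD h2)
    exact ⟨D.addCol C j col, s', h6, past_next hD h2 h5, sepB_next hD h3 h7, uncB_next h4 h8⟩

/-- All parts. -/
theorem all_parts (hD : D.Ok) (hS : Splittable D.N D.NN (1 / (100 * Real.log D.T)))
    (hM : ((D.q : ℝ) - D.M) / D.q ≤ 1 / D.T ^ 10) :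
    ∃ f : V → Option (Fin D.k × ℕ), (∀ i, i < D.R → D.DStat f i) ∧
      (∀ i, i < D.R → D.DrB f i D.M) ∧
      (∀ w, (((D.N w).filter fun v => f v = none).card : ℝ) ≤ D.T ^ 3592) ∧ D.Sep f := by
  obtain ⟨C, s, -, h2, h3, h4⟩ := parts_upto hD hS D.R le_rfl
  refine ⟨C, h2.stat, h2.dr, fun w => ?_, fun u x => h3 u x (lv_lt hD u)⟩
  have hT := hD.big
  have hT0 := hT.pos
  have hT1 := hT.one_le
  have hTb := hT.big
  have e1 : ((D.N w).filter fun v => C v = none) =
      (range D.R).biUnion fun i => (D.N w).filter fun v => D.lv v = i ∧ C v = none := by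
    ext v
    simp only [mem_filter, mem_biUnion, mem_range]
    constructor
    · rintro ⟨h5, h6⟩
      exact ⟨D.lv v, lv_lt hD v, h5, rfl, h6⟩
    · rintro ⟨i, -, h5, -, h6⟩
      exact ⟨h5, h6⟩
  have e2 : (((D.N w).filter fun v => C v = none).card : ℝ) ≤
      ∑ i ∈ range D.R, (((D.N w).filter fun v => D.lv v = i ∧ C v = none).card : ℝ) := by
    rw [e1]
    exact_mod_cast card_biUnion_le
  have e3 : ∑ i ∈ range D.R, (((D.N w).filter fun v => D.lv v = i ∧ C v = none).card : ℝ) ≤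
      ∑ _i ∈ range D.R, (3 * D.T ^ 2790 + D.T ^ 1652) := by
    refine sum_le_sum fun i hi => ?_
    refine (h4 i (mem_range.mp hi) w).trans ?_
    have h5 : ((D.q : ℝ) - D.M) / D.q * (3 * D.T ^ 2800) ≤ 1 / D.T ^ 10 * (3 * D.T ^ 2800) :=
      mul_le_mul_of_nonneg_right hM (by positivity)
    have h6 : 1 / D.T ^ 10 * (3 * D.T ^ 2800) = 3 * D.T ^ 2790 := by
      rw [show (2800 : ℕ) = 10 + 2790 from rfl, pow_add]
      field_simp
    linarith
  rw [sum_const, card_range, nsmul_eq_mul] at e3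
  have e4 : D.T ^ 1652 ≤ D.T ^ 2790 := hT.pw (by norm_num)
  have e5 : (D.R : ℝ) * (3 * D.T ^ 2790 + D.T ^ 1652) ≤ D.T ^ 800 * (4 * D.T ^ 2790) := by
    apply mul_le_mul hD.R_hi _ (by positivity) (by positivity)
    linarith
  have e6 : D.T ^ 800 * (4 * D.T ^ 2790) = 4 * D.T ^ 3590 := by
    rw [show (3590 : ℕ) = 800 + 2790 from rfl, pow_add]
    ring
  have e7 : 4 * D.T ^ 3590 ≤ D.T ^ 3592 := by
    have h5 : D.T ^ 3592 = D.T ^ 2 * D.T ^ 3590 := by rw [← pow_add]
    rw [h5]
    have h6 : (4 : ℝ) ≤ D.T ^ 2 := by nlinarith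
    exact mul_le_mul_of_nonneg_right h6 (by positivity)
  linarith

end OData

end

end Pool.Agent.AcyK
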