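import Pool.Agent.Acy.CountT

/-! # Definitions for the accurate semi-random colouring (project MP_af9dfb_K)

One part of the vertex set is coloured with `k` colours, `T ^ 3999 <= k <= T ^ 4000`, in
`M < q <= T ^ 150` rounds.  In round `m` every uncoloured vertex is selected with probability
`1 / (q - m)` for a real pick and with probability `1 / (q - m)` for a phantom pick. -/

set_option autoImplicit false
set_option linter.unusedSectionVars false

namespace Pool.Agent.AcyK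

open Finset
open Pool.Agent.Acy (IsPM wt Ex Pr mean)
open scoped Classical

universe u v

/-- The large parameter. -/
structure Big (T : ℝ) : Prop where
  big : (10 : ℝ) ^ 6 ≤ T
  exp : T ^ 200000 ≤ Real.exp T

/-- `Good` can be reached by avoiding a local family of events of probability at most
`exp (-T)`. -/
def StepOK {Q : Type u} [Fintype Q] [DecidableEq Q] {α : Type*} [Fintype α] (T : ℝ)
    (μ : Q → α → ℝ) (Good : (Q → α) → Prop) : Prop :=
  ∃ (κ : Type u) (_ : Fintype κ) (E : κ → (Q → α) → Prop) (S : κ → Finset Q),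
    (∀ b, DependsOn (E b) (S b : Set Q)) ∧ (∀ b, Pr μ (E b) ≤ Real.exp (-T)) ∧
    (∀ b, ((S b).card : ℝ) ≤ T ^ 60000) ∧
    (∀ i, ((univ.filter fun b => i ∈ S b).card : ℝ) ≤ T ^ 60000) ∧
    ∀ ω, (∀ b, ¬ E b ω) → Good ω

/-- Product of two laws at each coordinate. -/
def prodLaw {Q α β : Type*} (μ : Q → α → ℝ) (ν : Q → β → ℝ) : Q → α × β → ℝ :=
  fun y e => μ y e.1 * ν y e.2

section

variable {Q ι : Type u} [Fintype Q] [DecidableEq Q] [Fintype ι] [DecidableEq ι]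

/-- Static data of the semi-random colouring of `Q`. -/
structure NibData (Q ι : Type u) where
  /-- large parameter -/
  T : ℝ
  /-- number of colours -/
  k : ℕ
  /-- length of the time scale -/
  q : ℕ
  /-- number of rounds -/
  M : ℕ
  /-- related pairs -/
  rp : Q → Q → Prop
  /-- compensation kernel, `-1` = conflict -/
  K : Q → Q → ℝ
  /-- normalised hazard, `2` = forbidden pair -/
  h : Q → Q → ℝ
  /-- twins -/
  tw : Q → Q → Prop
  /-- tracked pairs -/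
  pr : Q → Q → Prop
  /-- tested sets -/
  A : ι → Finset Q

namespace NibData

variable (D : NibData Q ι)

/-- The two kinds of test weights: conflicts (`true`) and hazards (`false`). -/
noncomputable def a (b : Bool) (x y : Q) : ℝ :=
  if b then (if D.K y x = -1 then 1 else 0) else (2 + D.K y x) * D.h y x

/-- Related vertices. -/
noncomputable def R (x : Q) : Finset Q := univ.filter fun u => D.rp u x

/-- Weight of a pair that may become monochromatic. -/
noncomputable def chi (x y : Q) : ℝ := if D.h x y ≤ 1 then 1 + D.K x y else 0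

/-- The hypotheses of the nibble. -/
structure Ok : Prop where
  big : Big D.T
  k_lo : D.T ^ 3999 ≤ D.k
  k_hi : (D.k : ℝ) ≤ D.T ^ 4000
  q_hi : (D.q : ℝ) ≤ D.T ^ 150
  M_le : (D.M : ℝ) + D.T ^ 133 ≤ D.q
  rp_symm : ∀ x y, D.rp x y → D.rp y x
  rp_irrefl : ∀ x, ¬ D.rp x x
  K_symm : ∀ x y, D.K x y = D.K y x
  h_symm : ∀ x y, D.h x y = D.h y x
  K_off : ∀ x y, ¬ D.rp x y → D.K x y = 0
  h_off : ∀ x y, ¬ D.rp x y → D.h x y = 0
  K_cases : ∀ x y, D.K x y = -1 ∨ 0 ≤ D.K x y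
  K_exp : ∀ x y, D.K x y ≠ -1 → 1 + D.K x y ≤ Real.exp (Real.log D.T / 10 * D.h x y)
  h_nonneg : ∀ x y, 0 ≤ D.h x y
  h_le : ∀ x y, D.h x y ≤ 2
  R_card : ∀ x, ((D.R x).card : ℝ) ≤ D.T ^ 4017
  cf_sum : ∀ x, ∑ y, D.a true x y ≤ Real.log D.T / 80 * D.k
  h_sum : ∀ x, ∑ y, D.a false x y ≤ (D.k : ℝ) / 200
  tw_card : ∀ x, ((univ.filter fun y => D.tw x y).card : ℝ) ≤ D.T ^ 3405
  gram : ∀ y y', ¬ D.tw y y' → |∑ u, D.K u y * D.K u y'| ≤ D.T ^ 3430
  pr_symm : ∀ y y', D.pr y y' → D.pr y' y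
  pr_tw : ∀ y y', D.pr y y' → ¬ D.tw y y'
  pr_card : ∀ y, ((univ.filter fun y' => D.pr y y').card : ℝ) ≤ D.T ^ 7300
  A_card : ∀ i, ((D.A i).card : ℝ) ≤ D.T ^ 3000
  A_deg : ∀ y, ((univ.filter fun i => y ∈ D.A i).card : ℝ) ≤ D.T ^ 7300
  A_pr : ∀ i, ((D.A i).card : ℝ) ≤ D.T ^ 1603 → ∀ y ∈ D.A i, ∀ y' ∈ D.A i, y ≠ y' →
    D.h y y' ≤ 1 → D.K y y' ≠ -1 → D.pr y y'

/-- Selection probability of round `m` (for each of the two kinds). -/
noncomputable def t (m : ℕ) : ℝ := 1 / ((D.q : ℝ) - m)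

/-- The sum of the selection probabilities of the rounds before `m`. -/
noncomputable def sg (m : ℕ) : ℝ := ∑ i ∈ range m, D.t i

/-- The law of the selection: `some true` = real pick, `some false` = phantom pick. -/
noncomputable def lawA (m : ℕ) : Q → Option Bool → ℝ :=
  fun _ e => if e = none then 1 - 2 * D.t m else D.t m

end NibData

/-- State of the process: formal weights, alive pairs, budgets, accumulated hazards, accumulated
double counts, colours with the round in which they were assigned. -/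
structure NState (Q : Type u) (k : ℕ) where
  v : Q → Fin k → ℝ
  al : Q → Fin k → Prop
  be : Q → Fin k → ℝ
  ac : Bool → Q → Fin k → ℝ
  pd : Q → Fin k → ℝ
  col : Q → Option (Fin k × ℕ)

/-- Initial state. -/
def NState.init (Q : Type u) (k : ℕ) : NState Q k where
  v := fun _ _ => 1
  al := fun _ _ => True
  be := fun _ _ => 0
  ac := fun _ _ _ => 0
  pd := fun _ _ => 0
  col := fun _ => none

/-- Uncoloured vertices. -/
noncomputable def Un {k : ℕ} (col : Q → Option (Fin k × ℕ)) : Finset Q :=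
  univ.filter fun u => col u = none

/-- Uncoloured vertices selected with label `b`. -/
noncomputable def Sel {k : ℕ} (col : Q → Option (Fin k × ℕ)) (lam : Q → Option Bool) (b : Bool) :
    Finset Q :=
  univ.filter fun u => col u = none ∧ lam u = some b

/-- Colouring after the picks `ω` of round `m`. -/
noncomputable def updCol {k : ℕ} (m : ℕ) (col : Q → Option (Fin k × ℕ)) (lam : Q → Option Bool)
    (ω : Q → Fin k) (u : Q) : Option (Fin k × ℕ) :=
  if col u = none ∧ lam u = some true then some (ω u, m) else col u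

/-- Colours used on `B`. -/
noncomputable def colsOn {k : ℕ} (col : Q → Option (Fin k × ℕ)) (B : Finset Q) : Finset (Fin k) :=
  univ.filter fun c => ∃ z ∈ B, ∃ r, col z = some (c, r)

namespace NibData

variable (D : NibData Q ι) (S : NState Q D.k) (m : ℕ) (lam : Q → Option Bool)

/-- All selected vertices. -/
noncomputable def LL : Finset Q := univ.filter fun u => S.col u = none ∧ lam u ≠ none

/-- The uncoloured vertices that are not selected for a real pick. -/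
noncomputable def U1 : Finset Q := univ.filter fun u => S.col u = none ∧ lam u ≠ some true

/-- Positive mass. -/
noncomputable def mP (x : Q) : ℝ := ∑ c, max (S.v x c) 0

/-- Alive mass. -/
noncomputable def mA (x : Q) : ℝ := ∑ c, if S.al x c then S.v x c else 0

/-- Law of the real picks. -/
noncomputable def pa (x : Q) (c : Fin D.k) : ℝ := if S.al x c then S.v x c / D.mA S x else 0

/-- Law of the phantom picks. -/
noncomputable def pf (x : Q) (c : Fin D.k) : ℝ := 2 * max (S.v x c) 0 / D.mP S x - D.pa S x c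

/-- Law of the picks. -/
noncomputable def p (x : Q) (c : Fin D.k) : ℝ :=
  if lam x = some false then D.pf S x c else D.pa S x c

/-- Number of related selected vertices that pick `c`. -/
noncomputable def J (ω : Q → Fin D.k) (x : Q) (c : Fin D.k) : ℕ :=
  ((D.R x ∩ D.LL S lam).filter fun u => ω u = c).card

/-- The compensator. -/
noncomputable def cmp (x : Q) (c : Fin D.k) : ℝ := ∑ u ∈ D.LL S lam, D.p S lam u c * D.K u x

/-- Sum of the kernel over the selected vertices that pick `c`. -/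
noncomputable def pk (ω : Q → Fin D.k) (x : Q) (c : Fin D.k) : ℝ :=
  ∑ u ∈ (D.LL S lam).filter fun u => ω u = c, D.K u x

/-- Sum of the hazards over the selected vertices that pick `c`. -/
noncomputable def hk (ω : Q → Fin D.k) (x : Q) (c : Fin D.k) : ℝ :=
  ∑ u ∈ (D.LL S lam).filter fun u => ω u = c, D.h u x

/-- Effect of the pick of `u` on the prediction for `(x, c)`. -/
noncomputable def G (b : Bool) (u x : Q) (c : Fin D.k) : ℝ :=
  2 / D.k * ∑ y ∈ D.U1 S lam, if S.al y c then D.a b x y * S.v y c * D.K u y else 0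

/-- Threshold for bad picks. -/
noncomputable def d3 : ℝ := 1 / D.T ^ 190

/-- Increment of the accumulated hazard. -/
noncomputable def dac (b : Bool) (x : Q) (c : Fin D.k) : ℝ :=
  ∑ u ∈ D.LL S lam, D.p S lam u c * D.a b x u

/-- Double count. -/
noncomputable def dbl (ω : Q → Fin D.k) (x : Q) (c : Fin D.k) : ℝ :=
  ∑ y ∈ D.R x, (D.J S lam ω y c : ℝ) * ((D.J S lam ω y c : ℝ) - 1)

/-- One round. -/
noncomputable def step (ω : Q → Fin D.k) : NState Q D.k where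
  v := fun x c => if S.al x c then
    (if D.J S lam ω x c ≤ 1 then S.v x c * (1 + D.pk S lam ω x c - D.cmp S lam x c) else 0)
    else S.v x c
  be := fun x c =>
    if S.al x c ∧ D.J S lam ω x c ≤ 1 then S.be x c + D.hk S lam ω x c else S.be x c
  ac := fun b x c => if S.al x c then S.ac b x c + D.dac S lam b x c else S.ac b x c
  pd := fun x c => if S.al x c then S.pd x c + D.dbl S lam ω x c else S.pd x c
  al := fun x c => S.al x c ∧ D.J S lam ω x c ≤ 1 ∧
    (∀ u ∈ D.LL S lam, ω u = c → D.K u x ≠ -1) ∧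
    (S.be x c + D.hk S lam ω x c ≤ 1) ∧
    (S.pd x c + D.dbl S lam ω x c ≤ D.k / D.T ^ 20) ∧
    (∀ b, ∀ u ∈ D.LL S lam, ω u = c → |D.G S lam b u x c| ≤ D.d3)
  col := updCol m S.col lam ω

/-- Prediction of the future hazard. -/
noncomputable def Nf (b : Bool) (x : Q) (c : Fin D.k) : ℝ :=
  2 / D.k * ∑ y ∈ Un S.col, D.a b x y * S.v y c

/-- Prediction after the selection. -/
noncomputable def Nf1 (b : Bool) (x : Q) (c : Fin D.k) : ℝ :=
  2 / D.k * ∑ y ∈ D.U1 S lam, D.a b x y * S.v y c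

/-- The drift of the product of the weights of `z` and `z'`. -/
noncomputable def kap (z z' : Q) (c : Fin D.k) : ℝ :=
  1 / D.k * ∑ y ∈ Un S.col, D.K y z * D.K y z' * S.v y c

/-- `kap` after the selection. -/
noncomputable def kap1 (z z' : Q) (c : Fin D.k) : ℝ :=
  1 / D.k * ∑ y ∈ D.U1 S lam, D.K y z * D.K y z' * S.v y c

/-- The actual drift of the product of the weights of `z` and `z'` in the round. -/
noncomputable def delta (z z' : Q) (c : Fin D.k) : ℝ :=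
  ∑ u ∈ D.LL S lam, D.p S lam u c * (D.K u z * D.K u z')

/-- Effect of the pick of `u` on `kap`. -/
noncomputable def GK (u z z' : Q) (c : Fin D.k) : ℝ :=
  1 / D.k * ∑ y ∈ D.U1 S lam, if S.al y c then D.K y z * D.K y z' * S.v y c * D.K u y else 0

/-- Normalised inner product of the weights. -/
noncomputable def II (z z' : Q) : ℝ := 1 / D.k * ∑ c, S.v z c * S.v z' c

/-- Number of vertices of `A i` of real colour `c`. -/
noncomputable def nc (i : ι) (c : Fin D.k) : ℝ :=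
  (((D.A i).filter fun z => ∃ r, S.col z = some (c, r)).card : ℝ)

/-- First part of the predicted hazard: pairs of uncoloured vertices. -/
noncomputable def YbU (i : ι) : ℝ :=
  ∑ z ∈ D.A i ∩ Un S.col, ∑ z' ∈ (D.A i ∩ Un S.col).erase z, D.chi z z'

/-- Second part of the predicted hazard: an uncoloured and a coloured vertex. -/
noncomputable def YbC (i : ι) : ℝ :=
  ∑ z ∈ D.A i ∩ Un S.col, ∑ c, if S.al z c then D.nc S i c * S.v z c else 0

/-- Predicted total hazard of a tested set. -/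
noncomputable def Yb (i : ι) : ℝ :=
  2 / D.k * ((1 + 1 / D.T ^ 5) * D.YbU S i + D.YbC S i)

/-- Hazard of the tested set in one round. -/
noncomputable def Hz (p : Q → Fin D.k → ℝ) (col : Q → Option (Fin D.k × ℕ)) (i : ι) : ℝ :=
  ∑ z ∈ D.A i ∩ Sel col lam true, ∑ c ∈ colsOn col (D.A i), p z c

/-- The invariants at the beginning of round `m`. -/
structure Inv : Prop where
  al_pos : ∀ x c, S.al x c → 0 < S.v x c
  v_lo : ∀ x c, -(1 / D.T ^ 100) ≤ S.v x c
  v_hi : ∀ x c, S.v x c ≤ Real.exp (Real.log D.T / 10 * S.be x c + 2 * S.ac true x c)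
  be_nonneg : ∀ x c, 0 ≤ S.be x c
  be_le : ∀ x c, S.be x c ≤ 3
  be_al : ∀ x c, S.al x c → S.be x c ≤ 1
  ac_nonneg : ∀ b x c, 0 ≤ S.ac b x c
  ac_true : ∀ x c, S.ac true x c ≤ Real.log D.T / 20
  ac_false : ∀ x c, S.ac false x c ≤ 1 / 50
  pd_nonneg : ∀ x c, 0 ≤ S.pd x c
  pd_al : ∀ x c, S.al x c → S.pd x c ≤ D.k / D.T ^ 20
  pred : ∀ b x c, S.al x c → S.ac b x c + D.Nf S b x c ≤
    2 / D.k * (∑ y, D.a b x y) + m / D.T ^ 180 + D.sg m / D.T ^ 20 + 6 * D.T ^ 3 / D.k * S.pd x c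
  mass : ∀ x, |∑ c, S.v x c - D.k| ≤ m * D.k / D.T ^ 180
  bud : ∀ x, ∑ c, S.v x c * (S.be x c - 2 * S.ac false x c) ≤ m * D.k / D.T ^ 180
  dead : ∀ x, ∃ O : Finset (Fin D.k), (O.card : ℝ) ≤ m * D.k / D.T ^ 165 ∧
    ∀ c, ¬ S.al x c → S.v x c ≤ 1 / D.T ^ 100 ∨ 1 < S.be x c ∨ D.k / D.T ^ 20 < S.pd x c ∨ c ∈ O
  pds : ∀ x, ∑ c, S.pd x c ≤ m * D.T ^ 7810
  sep : ∀ x c, S.al x c → ∀ u r, S.col u = some (c, r) → D.K u x ≠ -1 ∧ D.h u x ≤ 1
  col_lt : ∀ u c r, S.col u = some (c, r) → r < m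
  col_ok : ∀ u y c r r', S.col u = some (c, r) → S.col y = some (c, r') → r < r' →
    D.K u y ≠ -1 ∧ D.h u y ≤ 1
  gramU : ∀ y y', ¬ D.tw y y' → (∃ x, y ∈ D.R x ∧ y' ∈ D.R x) →
    |∑ u ∈ Un S.col, D.K u y * D.K u y'| ≤ D.T ^ 3430 + m * D.T ^ 2000
  kapB : ∀ z z', D.pr z z' → ∃ O : Finset (Fin D.k), (O.card : ℝ) ≤ m * D.T ^ 3831 ∧
    ∀ c ∉ O, S.al z c → |D.kap S z z' c| ≤
      1 / D.T ^ 460 + m / D.T ^ 180 + 6 * D.T ^ 4 / D.k * S.pd z c
  iiB : ∀ z z', D.pr z z' → |D.II S z z' - 1| ≤ m / D.T ^ 200 + D.sg m / D.T ^ 12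
  cardU : ∀ i, ((D.A i ∩ Un S.col).card : ℝ) ≤
    ((D.q : ℝ) - m) / D.q * (D.A i).card + m * D.T ^ 1502
  ncol : ∀ i, ((D.A i).card : ℝ) ≤ D.T ^ 1603 → ∀ c, D.nc S i c ≤ m * D.T ^ 4

/-- Deviation of a weighted count of the selected vertices from its mean. -/
noncomputable def dev (b : Bool) (w : Q → ℝ) : ℝ :=
  ∑ y ∈ Sel S.col lam b, w y - D.t m * ∑ y ∈ Un S.col, w y

/-- The selection of round `m` is typical. -/
structure GoodA : Prop where
  a1 : ∀ b x c, |D.dev S m lam true fun y => D.a b x y * S.v y c| ≤ D.T ^ 2000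
  a2 : ∀ b x c, |D.dev S m lam true fun y => D.k * (D.a b x y * D.pa S y c)| ≤ D.T ^ 2000
  a3 : ∀ b x c, |D.dev S m lam false fun y => D.k * (D.a b x y * D.pf S y c)| ≤ D.T ^ 2000
  a4 : ∀ z z' c, D.pr z z' →
    |D.dev S m lam true fun y => D.K y z * D.K y z' * S.v y c| ≤ D.T ^ 2000
  a5 : ∀ z z' c, D.pr z z' →
    |D.dev S m lam true fun y => D.k * (D.K y z * D.K y z' * D.pa S y c)| ≤ D.T ^ 2000
  a6 : ∀ z z' c, D.pr z z' →
    |D.dev S m lam false fun y => D.k * (D.K y z * D.K y z' * D.pf S y c)| ≤ D.T ^ 2000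
  a7 : ∀ b y y', (∃ x, y ∈ D.R x ∧ y' ∈ D.R x) →
    |D.dev S m lam b fun u => D.K u y * D.K u y'| ≤ D.T ^ 1999
  a8 : ∀ b x, |D.dev S m lam b fun u => if u ∈ D.R x then 1 else 0| ≤ D.T ^ 1999
  a9 : ∀ b i, |D.dev S m lam b fun u => if u ∈ D.A i then 1 else 0| ≤ D.T ^ 1502
  a10 : ∀ b i, ((D.A i).card : ℝ) ≤ D.T ^ 1603 →
    |D.dev S m lam b fun u => if u ∈ D.A i then 1 else 0| ≤ D.T ^ 805

/-- The centred sum attached to a test function `Y`. -/
noncomputable def cen (Y : Q → Fin D.k → ℝ) (ω : Q → Fin D.k) : ℝ :=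
  ∑ u, (Y u (ω u) - mean (D.p S lam) Y u)

/-- Test function for the mass. -/
noncomputable def Y1 (x : Q) (u : Q) (c : Fin D.k) : ℝ :=
  if u ∈ D.LL S lam ∧ S.al x c then S.v x c * D.K u x else 0

/-- Test function for the budget. -/
noncomputable def Y2 (x : Q) (u : Q) (c : Fin D.k) : ℝ :=
  if u ∈ D.LL S lam ∧ S.al x c then
    S.v x c * D.K u x * (S.be x c - 2 * S.ac false x c - 2 * D.dac S lam false x c) else 0

/-- Second test function for the budget. -/
noncomputable def Y3 (x : Q) (u : Q) (c : Fin D.k) : ℝ :=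
  if u ∈ D.LL S lam ∧ S.al x c then S.v x c * ((2 + D.K u x) * D.h u x) else 0

/-- Test function for the predictions. -/
noncomputable def Y4 (b : Bool) (x : Q) (c₀ : Fin D.k) (u : Q) (c : Fin D.k) : ℝ :=
  if u ∈ D.LL S lam ∧ c = c₀ ∧ |D.G S lam b u x c₀| ≤ D.d3 then D.G S lam b u x c₀ else 0

/-- Test function for `kap`. -/
noncomputable def Y7 (z z' : Q) (c₀ : Fin D.k) (u : Q) (c : Fin D.k) : ℝ :=
  if u ∈ D.LL S lam ∧ c = c₀ ∧ |D.GK S lam u z z' c₀| ≤ D.d3 then D.GK S lam u z z' c₀ else 0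

/-- First test function for `II`. -/
noncomputable def Y9 (z z' : Q) (u : Q) (c : Fin D.k) : ℝ :=
  if u ∈ D.LL S lam ∧ S.al z c then S.v z c * S.v z' c * D.K u z else 0

/-- Second test function for `II`. -/
noncomputable def Y10 (z z' : Q) (u : Q) (c : Fin D.k) : ℝ :=
  if u ∈ D.LL S lam ∧ S.al z c ∧ S.al z' c then
    S.v z c * S.v z' c * (D.K u z * D.K u z') else 0

/-- Test function for the hazard of coloured vertices of `A i`. -/
noncomputable def Y12 (i : ι) (u : Q) (c : Fin D.k) : ℝ :=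
  if u ∈ D.LL S lam then
    D.nc S i c * ∑ z ∈ D.A i ∩ D.U1 S lam, (if S.al z c then S.v z c * D.K u z else 0) else 0

/-- Test function for the hazard of the vertices of `A i` selected for a real pick. -/
noncomputable def Y13 (i : ι) (u : Q) (c : Fin D.k) : ℝ :=
  if u ∈ D.A i ∩ Sel S.col lam true then
    ∑ z ∈ D.A i ∩ D.U1 S lam, (if S.al z c then S.v z c * D.chi z u else 0) else 0

/-- The picks of round `m` are typical. -/
structure GoodB (ω : Q → Fin D.k) : Prop where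
  e1 : ∀ x, |D.cen S lam (D.Y1 S lam x) ω| ≤ D.T ^ 2000
  e2 : ∀ x, |D.cen S lam (D.Y2 S lam x) ω| ≤ D.T ^ 2000
  e3 : ∀ x, |D.cen S lam (D.Y3 S lam x) ω| ≤ D.T ^ 2000
  e4 : ∀ b x c, |D.cen S lam (D.Y4 S lam b x c) ω| ≤ 1 / D.T ^ 187
  e5 : ∀ b x, (((D.LL S lam).filter fun u => D.d3 < |D.G S lam b u x (ω u)|).card : ℝ) ≤
    D.T ^ 3830
  e6 : ∀ x, ∑ c, (D.J S lam ω x c : ℝ) * ((D.J S lam ω x c : ℝ) - 1) ≤ D.T ^ 3778
  e7 : ∀ z z' c, D.pr z z' → |D.cen S lam (D.Y7 S lam z z' c) ω| ≤ 1 / D.T ^ 187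
  e8 : ∀ z z', D.pr z z' →
    (((D.LL S lam).filter fun u => D.d3 < |D.GK S lam u z z' (ω u)|).card : ℝ) ≤ D.T ^ 3830
  e9 : ∀ z z', D.pr z z' → |D.cen S lam (D.Y9 S lam z z') ω| ≤ D.T ^ 2000
  e10 : ∀ z z', D.pr z z' → |D.cen S lam (D.Y10 S lam z z') ω| ≤ D.T ^ 2000
  e11 : ∀ z z', D.pr z z' → ((((D.R z ∩ D.LL S lam) ×ˢ (D.R z' ∩ D.LL S lam)).filter
    fun e => e.1 ≠ e.2 ∧ ω e.1 = ω e.2).card : ℝ) ≤ D.T ^ 3778
  e12 : ∀ i, ((D.A i).card : ℝ) ≤ D.T ^ 1603 → |D.cen S lam (D.Y12 S lam i) ω| ≤ D.T ^ 2500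
  e13 : ∀ i, ((D.A i).card : ℝ) ≤ D.T ^ 1603 → |D.cen S lam (D.Y13 S lam i) ω| ≤ D.T ^ 2500
  e14 : ∀ i, ((D.A i).card : ℝ) ≤ D.T ^ 1603 →
    ((((D.A i ∩ D.U1 S lam) ×ˢ (D.A i ∩ Sel S.col lam true) ×ˢ D.LL S lam).filter
      fun e => e.2.2 ∈ D.R e.1 ∧ e.2.2 ≠ e.2.1 ∧ ω e.2.1 = ω e.2.2).card : ℝ) ≤ D.T ^ 2970
  e15 : ∀ i, ((D.A i).card : ℝ) ≤ D.T ^ 1603 →
    ∑ z ∈ D.A i ∩ D.U1 S lam, ∑ u ∈ D.R z ∩ D.LL S lam, D.nc S i (ω u) ≤ D.T ^ 3100
  e16 : ∀ i, ((D.A i).card : ℝ) ≤ D.T ^ 1603 → ∀ c : Fin D.k,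
    (((D.A i ∩ Sel S.col lam true).filter fun z => ω z = c).card : ℝ) ≤ D.T ^ 4
  e17 : ∀ i, ((D.A i).card : ℝ) ≤ D.T ^ 1603 →
    ∑ z ∈ D.A i ∩ D.U1 S lam, ∑ c, D.nc S i c *
      ((D.J S lam ω z c : ℝ) * ((D.J S lam ω z c : ℝ) - 1)) ≤ D.T ^ 2990

end NibData

/-- An auxiliary process with states in `σ` can be run along the semi-random colouring. -/
def AuxOK {σ : Type v} (D : NibData Q ι)
    (X : ℕ → (Q → Option (Fin D.k × ℕ)) → (ι → ℝ) → σ → Prop) : Prop :=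
  ∀ m < D.M, ∀ (col : Q → Option (Fin D.k × ℕ)) (Y : ι → ℝ) (s : σ), X m col Y s →
    (∀ i, ((D.A i ∩ Un col).card : ℝ) ≤
      ((D.q : ℝ) - m) / D.q * (D.A i).card + m * D.T ^ 1502) →
    ∃ XA : (Q → Option Bool) → Prop, StepOK D.T (D.lawA m) XA ∧
    ∀ lam, XA lam →
    (∀ b i, |((D.A i ∩ Sel col lam b).card : ℝ) - D.t m * (D.A i ∩ Un col).card| ≤
      D.T ^ 1502) →
    (∀ b i, ((D.A i).card : ℝ) ≤ D.T ^ 1603 →
      |((D.A i ∩ Sel col lam b).card : ℝ) - D.t m * (D.A i ∩ Un col).card| ≤ D.T ^ 805) →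
    ∀ p : Q → Fin D.k → ℝ, IsPM p → (∀ u c, p u c ≤ 2 * D.T / D.k) →
    (∀ z c, lam z = some true → 0 < p z c → ∀ u r, col u = some (c, r) →
      D.K u z ≠ -1 ∧ D.h u z ≤ 1) →
    ∃ (β : Type u) (_ : Fintype β) (ν : Q → β → ℝ) (upd : (Q → Fin D.k × β) → σ), IsPM ν ∧
      StepOK D.T (prodLaw p ν) (fun ω => ∀ Y' : ι → ℝ, (∀ i, 0 ≤ Y' i) →
        (∀ i, ((D.A i).card : ℝ) ≤ D.T ^ 1603 →
          Y' i ≤ Y i - D.Hz lam p col i + 1 / D.T ^ 1000) →
        X (m + 1) (updCol m col lam fun u => (ω u).1) Y' (upd ω))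

end

end Pool.Agent.AcyK
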