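import Pool.Agent.AcyK.BasicA

/-! # Consequences of a typical selection, part 1 (module LB1) -/

set_option autoImplicit false
set_option linter.unusedSectionVars false

namespace Pool.Agent.AcyK

open Finset
open Pool.Agent.Acy (IsPM wt Ex Pr mean)
open scoped Classical

universe u v

section

variable {Q ι : Type u} [Fintype Q] [DecidableEq Q] [Fintype ι] [DecidableEq ι]

namespace NibData

variable {D : NibData Q ι}

/-- Sums over the selected vertices, by kind. -/
theorem sum_LL_kinds (S : NState Q D.k) (lam : Q → Option Bool) (f : Q → ℝ) :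
    ∑ u ∈ D.LL S lam, f u = ∑ u ∈ Sel S.col lam true, f u + ∑ u ∈ Sel S.col lam false, f u := by
  rw [LL_eq, Finset.sum_union (Sel_disj S lam)]

/-- Sums of the laws of the picks over the selected vertices, by kind. -/
theorem sum_p_kinds (S : NState Q D.k) (lam : Q → Option Bool) (c : Fin D.k) (f : Q → ℝ) :
    ∑ u ∈ D.LL S lam, D.p S lam u c * f u = ∑ u ∈ Sel S.col lam true, D.pa S u c * f u +
      ∑ u ∈ Sel S.col lam false, D.pf S u c * f u := by
  rw [sum_LL_kinds]
  congr 1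
  · refine Finset.sum_congr rfl fun u hu => ?_
    have h1 : lam u = some true := (Finset.mem_filter.mp hu).2.2
    unfold p
    rw [if_neg (by rw [h1]; simp)]
  · refine Finset.sum_congr rfl fun u hu => ?_
    have h1 : lam u = some false := (Finset.mem_filter.mp hu).2.2
    unfold p
    rw [if_pos h1]

/-- Sums over the vertices not selected for a real pick. -/
theorem sum_U1_eq_sub (S : NState Q D.k) (lam : Q → Option Bool) (f : Q → ℝ) :
    ∑ u ∈ D.U1 S lam, f u = ∑ u ∈ Un S.col, f u - ∑ u ∈ Sel S.col lam true, f u := by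
  rw [U1_eq]
  have h := Finset.sum_sdiff (f := f) (Sel_sub S lam true)
  linarith

theorem sum_ite_mem_card (s B : Finset Q) : (∑ u ∈ s, if u ∈ B then (1 : ℝ) else 0) =
    ((B ∩ s).card : ℝ) := by
  rw [← Finset.sum_filter, Finset.sum_const, nsmul_eq_mul, mul_one,
    Finset.filter_mem_eq_inter, Finset.inter_comm]

/-- The total weights of the tests are at most `T k`. -/
theorem sum_a_le (hD : D.Ok) (b : Bool) (x : Q) (s : Finset Q) :
    ∑ y ∈ s, D.a b x y ≤ D.T * D.k := by
  have hT := hD.big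
  have hT0 := hT.pos
  have hk := k_pos' hD
  have hTb := hT.big
  norm_num at hTb
  have h1 : ∑ y ∈ s, D.a b x y ≤ ∑ y, D.a b x y :=
    Finset.sum_le_sum_of_subset_of_nonneg (Finset.subset_univ _) fun y _ _ => a_nonneg hD b x y
  refine h1.trans ?_
  cases b
  · refine (hD.h_sum x).trans ?_
    nlinarith
  · refine (hD.cf_sum x).trans ?_
    have h2 := hT.log_le
    have h3 := hT.log_pos
    have h4 : Real.log D.T / 80 ≤ D.T := by linarith
    exact mul_le_mul_of_nonneg_right h4 hk.le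

section lam

variable (hD : D.Ok) {S : NState Q D.k} {m : ℕ} (hI : D.Inv S m) (hm : m < D.M)
  {lam : Q → Option Bool} (hA : D.GoodA S m lam)

include hD hI hm hA

theorem RV_card_one (b : Bool) (x : Q) :
    ((D.R x ∩ Sel S.col lam b).card : ℝ) ≤ D.T ^ 3884 + D.T ^ 1999 := by
  have hT0 := hD.big.pos
  have h1 := (abs_le.mp (hA.a8 b x)).2
  unfold dev at h1
  rw [sum_ite_mem_card, sum_ite_mem_card] at h1
  have h2 := t_le hD hm.le
  have h3 := t_pos hD hm.le
  have h4 : ((D.R x ∩ Un S.col).card : ℝ) ≤ D.T ^ 4017 := by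
    refine le_trans ?_ (hD.R_card x)
    exact_mod_cast Finset.card_le_card Finset.inter_subset_left
  have h5 : D.t m * ((D.R x ∩ Un S.col).card : ℝ) ≤ 1 / D.T ^ 133 * D.T ^ 4017 :=
    mul_le_mul h2 h4 (Nat.cast_nonneg _) (by positivity)
  have h6 : 1 / D.T ^ 133 * D.T ^ 4017 = D.T ^ 3884 := by
    rw [show (4017 : ℕ) = 133 + 3884 from rfl, pow_add]
    field_simp
  linarith

theorem RV_card (x : Q) : ((D.R x ∩ D.LL S lam).card : ℝ) ≤ D.T ^ 3885 := by
  have hT := hD.big
  have hT0 := hT.pos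
  have hTb := hT.big
  norm_num at hTb
  have h1 := RV_card_one hD hI hm hA true x
  have h2 := RV_card_one hD hI hm hA false x
  have h3 : ((D.R x ∩ D.LL S lam).card : ℝ) ≤
      (D.R x ∩ Sel S.col lam true).card + (D.R x ∩ Sel S.col lam false).card := by
    rw [LL_eq, Finset.inter_union_distrib_left]
    exact_mod_cast Finset.card_union_le _ _
  have h4 : D.T ^ 1999 ≤ D.T ^ 3884 := hT.pw (by norm_num)
  have h5 : D.T ^ 3885 = D.T * D.T ^ 3884 := by ring
  have h6 : 0 < D.T ^ 3884 := by positivity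
  rw [h5]
  nlinarith

theorem AS_card_gen (b : Bool) (i : ι) (hi : ((D.A i).card : ℝ) ≤ D.T ^ 1603) :
    ((D.A i ∩ Sel S.col lam b).card : ℝ) ≤ D.T ^ 1471 := by
  have hT := hD.big
  have hT0 := hT.pos
  have hTb := hT.big
  norm_num at hTb
  have h1 := (abs_le.mp (hA.a10 b i hi)).2
  unfold dev at h1
  rw [sum_ite_mem_card, sum_ite_mem_card] at h1
  have h2 := t_le hD hm.le
  have h4 : ((D.A i ∩ Un S.col).card : ℝ) ≤ D.T ^ 1603 := by
    refine le_trans ?_ hi
    exact_mod_cast Finset.card_le_card Finset.inter_subset_left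
  have h5 : D.t m * ((D.A i ∩ Un S.col).card : ℝ) ≤ 1 / D.T ^ 133 * D.T ^ 1603 :=
    mul_le_mul h2 h4 (Nat.cast_nonneg _) (by positivity)
  have h6 : 1 / D.T ^ 133 * D.T ^ 1603 = D.T ^ 1470 := by
    rw [show (1603 : ℕ) = 133 + 1470 from rfl, pow_add]
    field_simp
  have h7 : D.T ^ 805 ≤ D.T ^ 1470 := hT.pw (by norm_num)
  have h8 : D.T ^ 1471 = D.T * D.T ^ 1470 := by ring
  have h9 : 0 < D.T ^ 1470 := by positivity
  rw [h8]
  nlinarith

theorem AS_card (i : ι) (hi : ((D.A i).card : ℝ) ≤ D.T ^ 1603) :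
    ((D.A i ∩ Sel S.col lam true).card : ℝ) ≤ D.T ^ 1471 :=
  AS_card_gen hD hI hm hA true i hi

/-- A sum over the selected vertices of terms supported on the related vertices. -/
theorem sum_V_le (x : Q) (f : Q → ℝ) (C : ℝ) (hC : 0 ≤ C)
    (h0 : ∀ y, y ∉ D.R x → f y ≤ 0) (h1 : ∀ y ∈ D.R x, f y ≤ C) :
    ∑ y ∈ D.LL S lam, f y ≤ D.T ^ 3885 * C := by
  calc ∑ y ∈ D.LL S lam, f y ≤ ∑ y ∈ D.LL S lam, (if y ∈ D.R x then C else 0) := by
        refine Finset.sum_le_sum fun y _ => ?_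
        split_ifs with hy
        · exact h1 y hy
        · exact h0 y hy
    _ = ((D.R x ∩ D.LL S lam).card : ℝ) * C := by
        rw [← Finset.sum_filter, Finset.sum_const, nsmul_eq_mul, Finset.filter_mem_eq_inter,
          Finset.inter_comm]
    _ ≤ D.T ^ 3885 * C := mul_le_mul_of_nonneg_right (RV_card hD hI hm hA x) hC

theorem small_VT {C : ℝ} {n : ℕ} (hn : n + 110 ≤ 3999) (hC : C ≤ D.T ^ n / D.k) :
    C ≤ 1 / D.T ^ 110 := by
  have hT0 := hD.big.pos
  have hk := k_pos' hD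
  refine hC.trans ?_
  rw [div_le_div_iff₀ hk (by positivity), one_mul, ← pow_add]
  exact (hD.big.pw hn).trans hD.k_lo

theorem cmp_abs (x : Q) (c : Fin D.k) : |D.cmp S lam x c| ≤ 1 / D.T ^ 110 := by
  have hT := hD.big
  have hT0 := hT.pos
  have hk := k_pos' hD
  have hTb := hT.big
  norm_num at hTb
  have h1 : |D.cmp S lam x c| ≤ ∑ u ∈ D.LL S lam, |D.p S lam u c * D.K u x| :=
    Finset.abs_sum_le_sum_abs _ _
  have h2 : ∑ u ∈ D.LL S lam, |D.p S lam u c * D.K u x| ≤
      D.T ^ 3885 * (2 * D.T / D.k * D.T) := by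
    apply sum_V_le hD hI hm hA x _ _ (by positivity)
    · intro y hy
      rw [K_off' hD x y hy]
      simp
    · intro y _
      rw [abs_mul, abs_of_nonneg (p_nonneg hD hI hm.le lam y c)]
      exact mul_le_mul (p_le hD hI hm.le lam y c) (K_abs hD y x) (abs_nonneg _) (by positivity)
  apply small_VT hD hI hm hA (n := 3888) (by norm_num)
  refine h1.trans (h2.trans ?_)
  have h3 : D.T ^ 3885 * (2 * D.T / D.k * D.T) = 2 * D.T ^ 3887 / D.k := by ring
  rw [h3]
  apply div_le_div_of_nonneg_right _ hk.le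
  have h4 : D.T ^ 3888 = D.T * D.T ^ 3887 := by ring
  rw [h4]
  exact mul_le_mul_of_nonneg_right (by linarith) (by positivity)

/-- The growth per round is at most twice the increment of the accumulated conflict hazard. -/
theorem cmp_lo (x : Q) (c : Fin D.k) : -D.cmp S lam x c ≤ 2 * D.dac S lam true x c := by
  unfold cmp dac
  rw [← Finset.sum_neg_distrib, Finset.mul_sum]
  refine Finset.sum_le_sum fun u _ => ?_
  have h3 := p_nonneg hD hI hm.le lam u c
  rcases hD.K_cases u x with hK | hK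
  · have : D.a true x u = 1 := by
      simp [a, hK]
    rw [this, hK]
    linarith
  · have h5 : 0 ≤ D.a true x u := a_nonneg hD true x u
    have h6 : 0 ≤ D.p S lam u c * D.a true x u := mul_nonneg h3 h5
    have h7 : 0 ≤ D.p S lam u c * D.K u x := mul_nonneg h3 hK
    linarith

theorem dac_nonneg (b : Bool) (x : Q) (c : Fin D.k) : 0 ≤ D.dac S lam b x c := by
  unfold dac
  exact Finset.sum_nonneg fun y _ =>
    mul_nonneg (p_nonneg hD hI hm.le lam y c) (a_nonneg hD b x y)

theorem dac_le (b : Bool) (x : Q) (c : Fin D.k) : D.dac S lam b x c ≤ 1 / D.T ^ 110 := by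
  have hT := hD.big
  have hT0 := hT.pos
  have hk := k_pos' hD
  have hTb := hT.big
  norm_num at hTb
  have h2 : ∑ u ∈ D.LL S lam, D.p S lam u c * D.a b x u ≤
      D.T ^ 3885 * (2 * D.T / D.k * D.T) := by
    apply sum_V_le hD hI hm hA x _ _ (by positivity)
    · intro y hy
      rw [a_off hD b x y hy]
      simp
    · intro y _
      exact mul_le_mul (p_le hD hI hm.le lam y c) (a_le hD b x y) (a_nonneg hD b x y)
        (by positivity)
  apply small_VT hD hI hm hA (n := 3888) (by norm_num)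
  refine h2.trans ?_
  have h3 : D.T ^ 3885 * (2 * D.T / D.k * D.T) = 2 * D.T ^ 3887 / D.k := by ring
  rw [h3]
  apply div_le_div_of_nonneg_right _ hk.le
  have h4 : D.T ^ 3888 = D.T * D.T ^ 3887 := by ring
  rw [h4]
  exact mul_le_mul_of_nonneg_right (by linarith) (by positivity)

/-- Expected budget increase of the picks of the round. -/
theorem sum_p_h (x : Q) (c : Fin D.k) :
    ∑ u ∈ D.LL S lam, D.p S lam u c * ((2 + D.K u x) * D.h u x) ≤
      2 * D.dac S lam false x c := by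
  have h1 : ∑ u ∈ D.LL S lam, D.p S lam u c * ((2 + D.K u x) * D.h u x) =
      D.dac S lam false x c := by
    unfold dac
    refine Finset.sum_congr rfl fun u _ => ?_
    simp [a]
  have h2 := dac_nonneg hD hI hm hA false x c
  rw [h1]
  linarith

/-- The mass of a round is part of the prediction. -/
theorem dac_add_le (b : Bool) (x : Q) (c : Fin D.k) (h : S.al x c) :
    D.dac S lam b x c + D.Nf1 S lam b x c ≤
      D.Nf S b x c + D.t m / D.T ^ 20 + 1 / D.T ^ 200 := by
  have hT := hD.big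
  have hT0 := hT.pos
  have hk := k_pos' hD
  have hTb := hT.big
  norm_num at hTb
  have ht0 := t_pos hD hm.le
  -- the two kinds of selected vertices
  set Ua : ℝ := ∑ y ∈ Un S.col, D.a b x y * D.pa S y c with hUa
  set Uf : ℝ := ∑ y ∈ Un S.col, D.a b x y * D.pf S y c with hUf
  set Uv : ℝ := ∑ y ∈ Un S.col, D.a b x y * S.v y c with hUv
  have e1 : D.dac S lam b x c ≤ D.t m * Ua + D.t m * Uf + 2 * D.T ^ 2000 / D.k := by
    unfold dac
    rw [sum_p_kinds]
    have h1 := (abs_le.mp (hA.a2 b x c)).2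
    have h2 := (abs_le.mp (hA.a3 b x c)).2
    unfold dev at h1 h2
    simp only [← Finset.mul_sum] at h1 h2
    have h3 : ∑ u ∈ Sel S.col lam true, D.pa S u c * D.a b x u =
        ∑ u ∈ Sel S.col lam true, D.a b x u * D.pa S u c :=
      Finset.sum_congr rfl fun u _ => mul_comm _ _
    have h4 : ∑ u ∈ Sel S.col lam false, D.pf S u c * D.a b x u =
        ∑ u ∈ Sel S.col lam false, D.a b x u * D.pf S u c :=
      Finset.sum_congr rfl fun u _ => mul_comm _ _
    rw [h3, h4]
    rw [← hUa] at h1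
    rw [← hUf] at h2
    set Va := ∑ u ∈ Sel S.col lam true, D.a b x u * D.pa S u c
    set Vf := ∑ u ∈ Sel S.col lam false, D.a b x u * D.pf S u c
    have h5 : (D.k : ℝ) * (Va + Vf) ≤
        D.k * (D.t m * Ua + D.t m * Uf + 2 * D.T ^ 2000 / D.k) := by
      have h6 : (D.k : ℝ) * (D.t m * Ua + D.t m * Uf + 2 * D.T ^ 2000 / D.k) =
          D.t m * (D.k * Ua) + D.t m * (D.k * Uf) + 2 * D.T ^ 2000 := by
        field_simp
      rw [h6]
      linarith
    exact le_of_mul_le_mul_left h5 hk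
  have e2 : D.Nf1 S lam b x c ≤ D.Nf S b x c - D.t m * (2 / D.k * Uv) +
      2 * D.T ^ 2000 / D.k := by
    unfold Nf1 Nf
    rw [sum_U1_eq_sub, ← hUv]
    have h1 := (abs_le.mp (hA.a1 b x c)).1
    unfold dev at h1
    rw [← hUv] at h1
    set Va := ∑ u ∈ Sel S.col lam true, D.a b x u * S.v u c
    have h2 : (2 : ℝ) / D.k * (D.t m * Uv - Va) ≤ 2 / D.k * D.T ^ 2000 :=
      mul_le_mul_of_nonneg_left (by linarith) (by positivity)
    have h3 : 2 * D.T ^ 2000 / (D.k : ℝ) = 2 / D.k * D.T ^ 2000 := by ring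
    rw [h3]
    linarith
  have e3 : Ua + Uf - 2 / D.k * Uv ≤ 1 / D.T ^ 20 := by
    have h1 : Ua + Uf - 2 / D.k * Uv = ∑ y ∈ Un S.col,
        D.a b x y * (D.pa S y c + D.pf S y c - 2 / D.k * S.v y c) := by
      rw [hUa, hUf, hUv, Finset.mul_sum, ← Finset.sum_add_distrib, ← Finset.sum_sub_distrib]
      refine Finset.sum_congr rfl fun y _ => ?_
      ring
    have h2 : ∀ y, D.pa S y c + D.pf S y c - 2 / D.k * S.v y c ≤
        4 / D.T ^ 29 * (1 / D.k * |S.v y c|) + 2 / D.T ^ 100 * (1 / D.k) := by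
      intro y
      have h3 : D.pa S y c + D.pf S y c = 2 * max (S.v y c) 0 / D.mP S y := by
        unfold pf
        ring
      have h4 := mP_bd hD hI hm.le y
      have h5 := mP_pos hD hI hm.le y
      have h6 := hI.v_lo y c
      have h7 : (0 : ℝ) < 1 / D.T ^ 100 := by positivity
      have h8 : (D.k : ℝ) / D.T ^ 29 ≤ D.k / 2 := by
        apply div_le_div_of_nonneg_left hk.le (by norm_num)
        have : D.T ^ 1 ≤ D.T ^ 29 := hT.pw (by norm_num)
        rw [pow_one] at this
        linarith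
      have h9 : (D.k : ℝ) / 2 ≤ D.mP S y := by
        have := (abs_le.mp h4).1
        linarith
      rw [h3]
      set w := max (S.v y c) 0 with hw
      have hw0 : 0 ≤ w := le_max_right _ _
      have hwabs : w ≤ |S.v y c| := max_le (le_abs_self _) (abs_nonneg _)
      have hwv : w ≤ S.v y c + 1 / D.T ^ 100 := max_le (by linarith) (by linarith)
      have h10 : 2 * w / D.mP S y - 2 * w / D.k ≤ 4 / D.T ^ 29 * (1 / D.k * w) := by
        have h11 : 2 * w / D.mP S y - 2 * w / D.k =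
            2 * w * ((D.k - D.mP S y) / (D.k * D.mP S y)) := by
          field_simp
        rw [h11]
        have h12 : (D.k - D.mP S y) / (D.k * D.mP S y) ≤ (D.k / D.T ^ 29) / (D.k * (D.k / 2)) := by
          have h13 : (D.k : ℝ) - D.mP S y ≤ D.k / D.T ^ 29 := by
            have := (abs_le.mp h4).1
            linarith
          calc (D.k - D.mP S y) / (D.k * D.mP S y) ≤ (D.k / D.T ^ 29) / (D.k * D.mP S y) :=
                div_le_div_of_nonneg_right h13 (by positivity)
            _ ≤ (D.k / D.T ^ 29) / (D.k * (D.k / 2)) :=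
                div_le_div_of_nonneg_left (by positivity) (by positivity)
                  (mul_le_mul_of_nonneg_left h9 hk.le)
        calc 2 * w * ((D.k - D.mP S y) / (D.k * D.mP S y))
            ≤ 2 * w * ((D.k / D.T ^ 29) / (D.k * (D.k / 2))) :=
              mul_le_mul_of_nonneg_left h12 (by positivity)
          _ = 4 / D.T ^ 29 * (1 / D.k * w) := by
              field_simp
              ring
      have h14 : 4 / D.T ^ 29 * (1 / D.k * w) ≤ 4 / D.T ^ 29 * (1 / D.k * |S.v y c|) :=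
        mul_le_mul_of_nonneg_left (mul_le_mul_of_nonneg_left hwabs (by positivity))
          (by positivity)
      have h15 : 2 * w / D.k - 2 / D.k * S.v y c ≤ 2 / D.T ^ 100 * (1 / D.k) := by
        have h16 : 2 * w / D.k - 2 / D.k * S.v y c = 2 / D.k * (w - S.v y c) := by ring
        have h17 : 2 / D.T ^ 100 * (1 / (D.k : ℝ)) = 2 / D.k * (1 / D.T ^ 100) := by ring
        rw [h16, h17]
        exact mul_le_mul_of_nonneg_left (by linarith) (by positivity)
      linarith
    have h3 : ∑ y ∈ Un S.col, D.a b x y * (D.pa S y c + D.pf S y c - 2 / D.k * S.v y c) ≤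
        ∑ y ∈ Un S.col, D.a b x y *
          (4 / D.T ^ 29 * (1 / D.k * |S.v y c|) + 2 / D.T ^ 100 * (1 / D.k)) :=
      Finset.sum_le_sum fun y _ => mul_le_mul_of_nonneg_left (h2 y) (a_nonneg hD b x y)
    have h4 : ∑ y ∈ Un S.col, D.a b x y *
          (4 / D.T ^ 29 * (1 / D.k * |S.v y c|) + 2 / D.T ^ 100 * (1 / D.k)) =
        4 / D.T ^ 29 * (1 / D.k * ∑ y ∈ Un S.col, D.a b x y * |S.v y c|) +
          2 / D.T ^ 100 * (1 / D.k) * ∑ y ∈ Un S.col, D.a b x y := by
      rw [Finset.mul_sum, Finset.mul_sum, Finset.mul_sum, ← Finset.sum_add_distrib]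
      refine Finset.sum_congr rfl fun y _ => ?_
      ring
    have h5 : 4 / D.T ^ 29 * (1 / D.k * ∑ y ∈ Un S.col, D.a b x y * |S.v y c|) ≤
        4 / D.T ^ 29 * (D.T / 100) :=
      mul_le_mul_of_nonneg_left (sum_abs_a hD hI hm.le b x c h) (by positivity)
    have h6 : 2 / D.T ^ 100 * (1 / (D.k : ℝ)) * ∑ y ∈ Un S.col, D.a b x y ≤
        2 / D.T ^ 100 * (1 / (D.k : ℝ)) * (D.T * D.k) :=
      mul_le_mul_of_nonneg_left (sum_a_le hD b x _) (by positivity)
    have h7 : 4 / D.T ^ 29 * (D.T / 100) = 1 / D.T ^ 20 * (1 / 25 / D.T ^ 8) := by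
      field_simp
      norm_num
    have h8 : 2 / D.T ^ 100 * (1 / (D.k : ℝ)) * (D.T * D.k) = 1 / D.T ^ 20 * (2 / D.T ^ 79) := by
      field_simp
    have h9 : (1 : ℝ) / 25 / D.T ^ 8 ≤ 1 / 25 := by
      have : (1 : ℝ) ≤ D.T ^ 8 := one_le_pow₀ hT.one_le
      exact div_le_self (by norm_num) this
    have h10 : 2 / D.T ^ 79 ≤ 1 / 2 := by
      have h11 := hT.small (n := 79) (by norm_num)
      have h12 : 2 / D.T ^ 79 = 2 * (1 / D.T ^ 79) := by ring
      rw [h12]
      linarith
    have h11 : (0 : ℝ) < 1 / D.T ^ 20 := by positivity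
    rw [h1]
    refine h3.trans ?_
    rw [h4]
    rw [h7] at h5
    rw [h8] at h6
    nlinarith
  have e4 : D.t m * Ua + D.t m * Uf - D.t m * (2 / D.k * Uv) ≤ D.t m / D.T ^ 20 := by
    have h1 := mul_le_mul_of_nonneg_left e3 ht0.le
    have h2 : D.t m / D.T ^ 20 = D.t m * (1 / D.T ^ 20) := by ring
    rw [h2]
    linarith
  have e5 : 2 * D.T ^ 2000 / (D.k : ℝ) + 2 * D.T ^ 2000 / D.k ≤ 1 / D.T ^ 200 := by
    have h1 : 2 * D.T ^ 2000 / (D.k : ℝ) + 2 * D.T ^ 2000 / D.k = 4 * D.T ^ 2000 / D.k := by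
      ring
    rw [h1, div_le_div_iff₀ hk (by positivity), one_mul]
    calc 4 * D.T ^ 2000 * D.T ^ 200 ≤ D.T * D.T ^ 2000 * D.T ^ 200 := by
          apply mul_le_mul_of_nonneg_right _ (by positivity)
          exact mul_le_mul_of_nonneg_right (by linarith) (by positivity)
      _ = D.T ^ 2201 := by ring
      _ ≤ D.T ^ 3999 := hT.pw (by norm_num)
      _ ≤ D.k := hD.k_lo
  linarith

theorem Nf1_lo (b : Bool) (x : Q) (c : Fin D.k) : -(1 / D.T ^ 60) ≤ D.Nf1 S lam b x c := by
  have hT := hD.big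
  have hT0 := hT.pos
  have hk := k_pos' hD
  have h6 : (0 : ℝ) < 1 / D.T ^ 100 := by positivity
  have h1 : -(∑ y ∈ D.U1 S lam, D.a b x y * S.v y c) ≤
      (∑ y ∈ D.U1 S lam, D.a b x y) * (1 / D.T ^ 100) := by
    rw [← Finset.sum_neg_distrib, Finset.sum_mul]
    refine Finset.sum_le_sum fun y _ => ?_
    have h3 := a_nonneg hD b x y
    have h5 := hI.v_lo y c
    calc -(D.a b x y * S.v y c) = D.a b x y * (-S.v y c) := by ring
      _ ≤ D.a b x y * (1 / D.T ^ 100) := mul_le_mul_of_nonneg_left (by linarith) h3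
  have h2 : (∑ y ∈ D.U1 S lam, D.a b x y) * (1 / D.T ^ 100) ≤ D.T * D.k * (1 / D.T ^ 100) :=
    mul_le_mul_of_nonneg_right (sum_a_le hD b x _) h6.le
  have h3 : 2 / (D.k : ℝ) * (D.T * D.k * (1 / D.T ^ 100)) = 2 / D.T ^ 99 := by
    field_simp
  have h4 : 2 / D.T ^ 99 ≤ 1 / D.T ^ 60 := by
    have h5 : 2 / D.T ^ 99 = 1 / D.T ^ 60 * (2 * (1 / D.T ^ 39)) := by
      field_simp
    have h7 := hT.small (n := 39) (by norm_num)
    have h8 : (0 : ℝ) < 1 / D.T ^ 60 := by positivity
    rw [h5]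
    nlinarith
  have h5 := mul_le_mul_of_nonneg_left (h1.trans h2) (show (0 : ℝ) ≤ 2 / D.k by positivity)
  rw [h3] at h5
  unfold Nf1
  linarith

theorem cardU_step (i : ι) : ((D.A i ∩ D.U1 S lam).card : ℝ) ≤
    ((D.q : ℝ) - (m + 1 : ℕ)) / D.q * (D.A i).card + (m + 1 : ℕ) * D.T ^ 1502 := by
  have hT := hD.big
  have hT0 := hT.pos
  have h1 := (abs_le.mp (hA.a9 true i)).1
  unfold dev at h1
  rw [sum_ite_mem_card, sum_ite_mem_card] at h1
  have h2 : ((D.A i ∩ D.U1 S lam).card : ℝ) = (D.A i ∩ Un S.col).card -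
      (D.A i ∩ Sel S.col lam true).card := by
    rw [← sum_ite_mem_card, ← sum_ite_mem_card, ← sum_ite_mem_card, sum_U1_eq_sub]
  have h3 := hI.cardU i
  have ht0 := t_pos hD hm.le
  have ht1 := t_le hD hm.le
  have h4 : 1 / D.T ^ 133 ≤ 1 / 1000000 := hT.small (by norm_num)
  have h5 : 0 < (D.q : ℝ) - m := by
    unfold t at ht0
    exact one_div_pos.mp ht0
  have h6 : (0 : ℝ) < D.q := by
    have : (0 : ℝ) ≤ m := Nat.cast_nonneg m
    linarith
  have h7 : 0 ≤ 1 - D.t m := by linarith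
  have h8 : (1 - D.t m) * ((D.A i ∩ Un S.col).card : ℝ) ≤
      (1 - D.t m) * (((D.q : ℝ) - m) / D.q * (D.A i).card + m * D.T ^ 1502) :=
    mul_le_mul_of_nonneg_left h3 h7
  have h9 : (1 - D.t m) * (((D.q : ℝ) - m) / D.q * (D.A i).card) =
      ((D.q : ℝ) - (m + 1 : ℕ)) / D.q * (D.A i).card := by
    unfold t
    push_cast
    field_simp
    ring
  have h10 : (1 - D.t m) * (m * D.T ^ 1502) ≤ m * D.T ^ 1502 := by
    have h11 : 0 ≤ (m : ℝ) * D.T ^ 1502 := by positivity
    nlinarith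
  rw [mul_add, h9] at h8
  rw [h2]
  push_cast at h8 ⊢
  linarith

end lam

end NibData

end

end Pool.Agent.AcyK
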