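import Pool.Agent.AcyK.BasicA
import Pool.Agent.AcyK.LamB
import Pool.Agent.AcyK.LamC
import Pool.Agent.Acy.Mgf

/-! # Probability estimates: centred sums (module EA) -/

set_option autoImplicit false
set_option linter.unusedSectionVars false

namespace Pool.Agent.AcyK

open Finset
open Pool.Agent.Acy (IsPM wt Ex Pr mean indep_tail Pr_mono)
open scoped Classical

universe u

namespace NibData

variable {Q ι : Type u} [Fintype Q] [DecidableEq Q] [Fintype ι] [DecidableEq ι] {D : NibData Q ι}
  (hD : D.Ok) {S : NState Q D.k} {m : ℕ} (hI : D.Inv S m) (hm : m < D.M)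
  {lam : Q → Option Bool} (hA : D.GoodA S m lam)

theorem evA_exp {T : ℝ} (hT : (1000000 : ℝ) ≤ T) {z : ℝ} (hz : z ≤ -(2 * T)) :
    2 * Real.exp z ≤ Real.exp (-T) := by
  have h1 : (2 : ℝ) ≤ Real.exp T := by
    have := Real.add_one_le_exp T
    linarith
  have h2 : Real.exp z ≤ Real.exp (-T) * Real.exp (-T) := by
    rw [← Real.exp_add]
    exact Real.exp_le_exp.mpr (by linarith)
  have h3 : Real.exp T * Real.exp (-T) = 1 := by rw [← Real.exp_add]; simp
  have h4 : 0 < Real.exp (-T) := Real.exp_pos _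
  calc 2 * Real.exp z ≤ Real.exp T * (Real.exp (-T) * Real.exp (-T)) := by
        apply mul_le_mul h1 h2 (Real.exp_pos _).le (Real.exp_pos _).le
    _ = Real.exp (-T) := by rw [← mul_assoc, h3, one_mul]

include hD hI hm hA

/-- Test functions supported on the related vertices of the round. -/
theorem evA_core (x : Q) (Y : Q → Fin D.k → ℝ) (hY : ∀ u c, |Y u c| ≤ D.T ^ 4)
    (h0 : ∀ u c, u ∉ D.R x ∩ D.LL S lam → Y u c = 0) :
    Pr (D.p S lam) (fun ω => ¬ |D.cen S lam Y ω| ≤ D.T ^ 2000) ≤ Real.exp (-D.T) := by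
  have hT : (1000000 : ℝ) ≤ D.T := by
    have := hD.big.big
    norm_num at this
    exact this
  have hT0 : 0 < D.T := by linarith
  have hp := p_isPM hD hI hm.le lam
  have hV : ∑ u, ∑ c, D.p S lam u c * Y u c ^ 2 ≤ D.T ^ 3893 := by
    have h1 : ∀ u, ∑ c, D.p S lam u c * Y u c ^ 2 ≤ if u ∈ D.R x ∩ D.LL S lam then D.T ^ 8 else 0 := by
      intro u
      split_ifs with hu
      · calc ∑ c, D.p S lam u c * Y u c ^ 2 ≤ ∑ c, D.p S lam u c * D.T ^ 8 := by
              refine Finset.sum_le_sum fun c _ => mul_le_mul_of_nonneg_left ?_ (hp.nonneg u c)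
              have := hY u c
              calc Y u c ^ 2 = |Y u c| ^ 2 := (sq_abs _).symm
                _ ≤ (D.T ^ 4) ^ 2 := pow_le_pow_left₀ (abs_nonneg _) this 2
                _ = _ := by rw [← pow_mul]
          _ = D.T ^ 8 := by rw [← Finset.sum_mul, hp.sum_one, one_mul]
      · refine le_of_eq (Finset.sum_eq_zero fun c _ => ?_)
        rw [h0 u c hu]; ring
    calc _ ≤ ∑ u, (if u ∈ D.R x ∩ D.LL S lam then D.T ^ 8 else 0) :=
          Finset.sum_le_sum fun u _ => h1 u
      _ = (D.R x ∩ D.LL S lam).card * D.T ^ 8 := by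
          rw [← Finset.sum_filter, Finset.sum_const, nsmul_eq_mul]
          congr 3
          ext u
          simp
      _ ≤ D.T ^ 3885 * D.T ^ 8 := by
          have := RV_card hD hI hm hA x
          gcongr
      _ = _ := by rw [← pow_add]
  have ht := indep_tail hp Y (D.T ^ 4) hY (D.T ^ 3893) hV (1 / (2 * D.T ^ 1893)) (by positivity)
    (by
      have e : 2 * (1 / (2 * D.T ^ 1893) * D.T ^ 4) = D.T ^ 4 / D.T ^ 1893 := by
        field_simp
      rw [e, div_le_one (by positivity)]
      exact pow_le_pow_right₀ (by linarith) (by norm_num)) (D.T ^ 2000)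
  refine (Pr_mono hp fun ω hω => (not_le.1 hω).le).trans (ht.trans (evA_exp hT ?_))
  have e1 : (1 / (2 * D.T ^ 1893)) ^ 2 * D.T ^ 3893 = D.T ^ 107 / 4 := by
    have : D.T ^ 3893 = D.T ^ 107 * (D.T ^ 1893) ^ 2 := by rw [← pow_mul, ← pow_add]
    rw [this]
    field_simp
    norm_num
  have e2 : 1 / (2 * D.T ^ 1893) * D.T ^ 2000 = D.T ^ 107 / 2 := by
    have : D.T ^ 2000 = D.T ^ 107 * D.T ^ 1893 := by rw [← pow_add]
    rw [this]
    field_simp
  rw [e1, e2]
  have e3 : 8 * D.T ≤ D.T ^ 107 := by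
    have : D.T ^ 2 ≤ D.T ^ 107 := pow_le_pow_right₀ (by linarith) (by norm_num)
    nlinarith
  linarith

theorem e1_tail (x : Q) :
    Pr (D.p S lam) (fun ω => ¬ |D.cen S lam (D.Y1 S lam x) ω| ≤ D.T ^ 2000) ≤ Real.exp (-D.T) := by
  have hT : (1000000 : ℝ) ≤ D.T := by
    have := hD.big.big
    norm_num at this
    exact this
  refine evA_core hD hI hm hA x _ (fun u c => ?_) (fun u c hu => ?_)
  · unfold Y1
    split_ifs
    · rw [abs_mul]
      have h1 := v_abs hD hI hm.le x c
      have h2 := K_abs hD u x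
      calc |S.v x c| * |D.K u x| ≤ D.T * D.T := by gcongr
        _ = D.T ^ 2 := by ring
        _ ≤ D.T ^ 4 := pow_le_pow_right₀ (by linarith) (by norm_num)
    · rw [abs_zero]; positivity
  · unfold Y1
    split_ifs with h
    · have : u ∉ D.R x := by
        intro hR
        apply hu
        rw [mem_inter]
        exact ⟨hR, h.1⟩
      rw [K_off' hD x u this, mul_zero]
    · rfl

theorem e2_tail (x : Q) :
    Pr (D.p S lam) (fun ω => ¬ |D.cen S lam (D.Y2 S lam x) ω| ≤ D.T ^ 2000) ≤ Real.exp (-D.T) := by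
  have hT : (1000000 : ℝ) ≤ D.T := by
    have := hD.big.big
    norm_num at this
    exact this
  refine evA_core hD hI hm hA x _ (fun u c => ?_) (fun u c hu => ?_)
  · unfold Y2
    split_ifs
    · rw [abs_mul, abs_mul]
      have h1 := v_abs hD hI hm.le x c
      have h2 := K_abs hD u x
      have h3 : |S.be x c - 2 * S.ac false x c - 2 * D.dac S lam false x c| ≤ D.T := by
        have hb0 := hI.be_nonneg x c
        have hb1 := hI.be_le x c
        have ha0 := hI.ac_nonneg false x c
        have ha1 := hI.ac_false x c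
        have hd0 := dac_nonneg hD hI hm hA false x c
        have hd1 : D.dac S lam false x c ≤ 1 := (dac_le hD hI hm hA false x c).trans (by
          rw [div_le_one (by positivity)]
          exact one_le_pow₀ (by linarith))
        rw [abs_le]
        constructor <;> linarith
      calc |S.v x c| * |D.K u x| * |S.be x c - 2 * S.ac false x c - 2 * D.dac S lam false x c| ≤
            D.T * D.T * D.T := by gcongr
        _ = D.T ^ 3 := by ring
        _ ≤ D.T ^ 4 := pow_le_pow_right₀ (by linarith) (by norm_num)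
    · rw [abs_zero]; positivity
  · unfold Y2
    split_ifs with h
    · have : u ∉ D.R x := by
        intro hR
        apply hu
        rw [mem_inter]
        exact ⟨hR, h.1⟩
      rw [K_off' hD x u this, mul_zero, zero_mul]
    · rfl

theorem e3_tail (x : Q) :
    Pr (D.p S lam) (fun ω => ¬ |D.cen S lam (D.Y3 S lam x) ω| ≤ D.T ^ 2000) ≤ Real.exp (-D.T) := by
  have hT : (1000000 : ℝ) ≤ D.T := by
    have := hD.big.big
    norm_num at this
    exact this
  refine evA_core hD hI hm hA x _ (fun u c => ?_) (fun u c hu => ?_)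
  · unfold Y3
    split_ifs
    · rw [abs_mul]
      have h1 := v_abs hD hI hm.le x c
      have h2 : |(2 + D.K u x) * D.h u x| ≤ D.T := by
        have a1 := a_nonneg hD false x u
        have a2 := a_le hD false x u
        simp only [a, Bool.false_eq_true, if_false] at a1 a2
        rw [abs_of_nonneg a1]
        exact a2
      calc |S.v x c| * |(2 + D.K u x) * D.h u x| ≤ D.T * D.T := by gcongr
        _ = D.T ^ 2 := by ring
        _ ≤ D.T ^ 4 := pow_le_pow_right₀ (by linarith) (by norm_num)
    · rw [abs_zero]; positivity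
  · unfold Y3
    split_ifs with h
    · have : u ∉ D.R x := by
        intro hR
        apply hu
        rw [mem_inter]
        exact ⟨hR, h.1⟩
      rw [h_off' hD x u this, mul_zero, mul_zero]
    · rfl

/-- Test functions supported on one colour. -/
theorem evA_core2 (Y : Q → Fin D.k → ℝ) (g : Q → ℝ) (c : Fin D.k)
    (hY : ∀ u c', Y u c' = if u ∈ D.LL S lam ∧ c' = c ∧ |g u| ≤ D.d3 then g u else 0)
    (hg : ∑ u ∈ D.LL S lam, D.p S lam u c * g u ^ 2 ≤ 1 / D.T ^ 554) :
    Pr (D.p S lam) (fun ω => ¬ |D.cen S lam Y ω| ≤ 1 / D.T ^ 187) ≤ Real.exp (-D.T) := by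
  have hT : (1000000 : ℝ) ≤ D.T := by
    have := hD.big.big
    norm_num at this
    exact this
  have hT0 : 0 < D.T := by linarith
  have hp := p_isPM hD hI hm.le lam
  have hY1 : ∀ u c', |Y u c'| ≤ 1 / D.T ^ 190 := by
    intro u c'
    rw [hY]
    split_ifs with h
    · exact h.2.2
    · rw [abs_zero]; positivity
  have hV : ∑ u, ∑ c', D.p S lam u c' * Y u c' ^ 2 ≤ 1 / D.T ^ 554 := by
    refine le_trans ?_ hg
    have hfil : D.LL S lam = univ.filter fun u => u ∈ D.LL S lam := by
      ext u
      simp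
    rw [hfil, Finset.sum_filter]
    refine Finset.sum_le_sum fun u _ => ?_
    rw [Finset.sum_eq_single c]
    · rw [hY]
      split_ifs with h1 h2 h2
      · exact le_rfl
      · exact absurd h1.1 h2
      · have := mul_nonneg (hp.nonneg u c) (sq_nonneg (g u))
        simpa using this
      · simp
    · intro c' _ hc'
      rw [hY, if_neg (fun h => hc' h.2.1)]
      ring
    · intro h
      exact absurd (mem_univ c) h
  have ht := indep_tail hp Y (1 / D.T ^ 190) hY1 (1 / D.T ^ 554) hV (D.T ^ 190 / 2)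
    (by positivity)
    (by
      have e : 2 * (D.T ^ 190 / 2 * (1 / D.T ^ 190)) = 1 := by
        field_simp
      rw [e]) (1 / D.T ^ 187)
  refine (Pr_mono hp fun ω hω => (not_le.1 hω).le).trans (ht.trans (evA_exp hT ?_))
  have e1 : (D.T ^ 190 / 2) ^ 2 * (1 / D.T ^ 554) ≤ 1 := by
    have e0 : (D.T ^ 190) ^ 2 ≤ D.T ^ 554 := by
      rw [← pow_mul]
      exact pow_le_pow_right₀ (by linarith) (by norm_num)
    rw [mul_one_div, div_le_one (by positivity), div_pow]
    have : 0 ≤ (D.T ^ 190) ^ 2 := by positivity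
    linarith
  have e2 : D.T ^ 190 / 2 * (1 / D.T ^ 187) = D.T ^ 3 / 2 := by
    have : D.T ^ 190 = D.T ^ 3 * D.T ^ 187 := by rw [← pow_add]
    rw [this]
    field_simp
  rw [e2]
  have e3 : 8 * D.T ≤ D.T ^ 3 := by
    have : D.T ^ 3 = D.T * D.T ^ 2 := by ring
    have : (8 : ℝ) ≤ D.T ^ 2 := by nlinarith
    nlinarith
  linarith

theorem e4_tail (b : Bool) (x : Q) (c : Fin D.k) : Pr (D.p S lam)
    (fun ω => ¬ |D.cen S lam (D.Y4 S lam b x c) ω| ≤ 1 / D.T ^ 187) ≤ Real.exp (-D.T) :=
  evA_core2 hD hI hm hA _ (fun u => D.G S lam b u x c) c (fun _ _ => rfl)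
    (qv_le hD hI hm hA b x c)

theorem e7_tail (z z' : Q) (c : Fin D.k) (_hp : D.pr z z') : Pr (D.p S lam)
    (fun ω => ¬ |D.cen S lam (D.Y7 S lam z z' c) ω| ≤ 1 / D.T ^ 187) ≤ Real.exp (-D.T) :=
  evA_core2 hD hI hm hA _ (fun u => D.GK S lam u z z' c) c (fun _ _ => rfl)
    (qvK_le hD hI hm hA z z' c)

theorem e9_tail (z z' : Q) (_hp : D.pr z z') : Pr (D.p S lam)
    (fun ω => ¬ |D.cen S lam (D.Y9 S lam z z') ω| ≤ D.T ^ 2000) ≤ Real.exp (-D.T) := by
  have hT : (1000000 : ℝ) ≤ D.T := by
    have := hD.big.big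
    norm_num at this
    exact this
  refine evA_core hD hI hm hA z _ (fun u c => ?_) (fun u c hu => ?_)
  · unfold Y9
    split_ifs
    · rw [abs_mul, abs_mul]
      have h1 := v_abs hD hI hm.le z c
      have h1' := v_abs hD hI hm.le z' c
      have h2 := K_abs hD u z
      calc |S.v z c| * |S.v z' c| * |D.K u z| ≤ D.T * D.T * D.T := by gcongr
        _ = D.T ^ 3 := by ring
        _ ≤ D.T ^ 4 := pow_le_pow_right₀ (by linarith) (by norm_num)
    · rw [abs_zero]; positivity
  · unfold Y9
    split_ifs with h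
    · have : u ∉ D.R z := by
        intro hR
        apply hu
        rw [mem_inter]
        exact ⟨hR, h.1⟩
      rw [K_off' hD z u this, mul_zero]
    · rfl

theorem e10_tail (z z' : Q) (_hp : D.pr z z') : Pr (D.p S lam)
    (fun ω => ¬ |D.cen S lam (D.Y10 S lam z z') ω| ≤ D.T ^ 2000) ≤ Real.exp (-D.T) := by
  have hT : (1000000 : ℝ) ≤ D.T := by
    have := hD.big.big
    norm_num at this
    exact this
  refine evA_core hD hI hm hA z _ (fun u c => ?_) (fun u c hu => ?_)
  · unfold Y10
    split_ifs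
    · rw [abs_mul, abs_mul, abs_mul]
      have h1 := v_abs hD hI hm.le z c
      have h1' := v_abs hD hI hm.le z' c
      have h2 := K_abs hD u z
      have h2' := K_abs hD u z'
      calc |S.v z c| * |S.v z' c| * (|D.K u z| * |D.K u z'|) ≤ D.T * D.T * (D.T * D.T) := by
            gcongr
        _ = D.T ^ 4 := by ring
    · rw [abs_zero]; positivity
  · unfold Y10
    split_ifs with h
    · have : u ∉ D.R z := by
        intro hR
        apply hu
        rw [mem_inter]
        exact ⟨hR, h.1⟩
      rw [K_off' hD z u this, zero_mul, mul_zero]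
    · rfl

end NibData

end Pool.Agent.AcyK
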