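import Pool.Agent.AcyK.LamB
import Pool.Agent.AcyK.LamC

/-! # Probability estimates: counts (module EvB) -/

set_option autoImplicit false
set_option linter.unusedSectionVars false

namespace Pool.Agent.AcyK

open Finset
open Pool.Agent.Acy (IsPM wt Ex Pr mean cnt Holds count_T Pr_mono)
open scoped Classical

universe u v

section

variable {Q ι : Type u} [Fintype Q] [DecidableEq Q] [Fintype ι] [DecidableEq ι]

theorem evB_exp {T : ℝ} (hT : (1000000 : ℝ) ≤ T) : Real.exp (-(2 * T)) ≤ Real.exp (-T) :=
  Real.exp_le_exp.mpr (by linarith)

namespace NibData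

variable {D : NibData Q ι}
variable (hD : D.Ok) {S : NState Q D.k} {m : ℕ} (hI : D.Inv S m) (hm : m < D.M)
  {lam : Q → Option Bool} (hA : D.GoodA S m lam)
include hD hI hm hA

/-- Number of picks with a large effect. -/
theorem evB_big (g : Q → Fin D.k → ℝ)
    (hg : ∀ c, ∑ u ∈ D.LL S lam, D.p S lam u c * g u c ^ 2 ≤ 1 / D.T ^ 554) :
    Pr (D.p S lam) (fun ω =>
      ¬ (((D.LL S lam).filter fun u => D.d3 < |g u (ω u)|).card : ℝ) ≤ D.T ^ 3830) ≤
      Real.exp (-D.T) := by
  have hT : (1000000 : ℝ) ≤ D.T := by
    have := hD.big.big
    norm_num at this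
    exact this
  have hT0 : 0 < D.T := by linarith
  have hp := p_isPM hD hI hm.le lam
  let w : Q × Fin D.k → ℝ := fun U => if U.1 ∈ D.LL S lam ∧ D.d3 < |g U.1 U.2| then 1 else 0
  let cd : Q × Fin D.k → Finset (Q × Fin D.k) := fun U => {U}
  have hw : ∀ U, 0 ≤ w U := fun U => by
    simp only [w]
    split_ifs <;> norm_num
  have hw1 : ∀ U, w U ≤ 1 := fun U => by
    simp only [w]
    split_ifs <;> norm_num
  have hcnt : ∀ ω : Q → Fin D.k,
      (((D.LL S lam).filter fun u => D.d3 < |g u (ω u)|).card : ℝ) = cnt w cd ω := by
    intro ω
    unfold cnt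
    rw [Fintype.sum_prod_type]
    rw [Finset.card_filter]
    push_cast
    rw [← Finset.sum_filter_add_sum_filter_not univ (fun u => u ∈ D.LL S lam)
      (fun u => ∑ c, if Holds (cd (u, c)) ω then w (u, c) else 0)]
    have hz : ∑ u ∈ univ.filter (fun u => u ∉ D.LL S lam),
        ∑ c, (if Holds (cd (u, c)) ω then w (u, c) else 0) = 0 := by
      refine Finset.sum_eq_zero fun u hu => Finset.sum_eq_zero fun c _ => ?_
      have h1 : w (u, c) = 0 := by
        simp only [w]
        rw [if_neg]
        intro h2
        exact (mem_filter.1 hu).2 h2.1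
      rw [h1, ite_self]
    rw [hz, add_zero, Finset.filter_mem_eq_inter, Finset.univ_inter]
    refine Finset.sum_congr rfl fun u hu => ?_
    rw [Finset.sum_eq_single (ω u)]
    · have hh : Holds (cd (u, ω u)) ω := by
        intro q hq
        rw [mem_singleton] at hq
        rw [hq]
      rw [if_pos hh]
      simp only [w]
      by_cases h2 : D.d3 < |g u (ω u)| <;> simp [hu, h2]
    · intro c _ hc
      rw [if_neg]
      intro hh
      exact hc (hh (u, c) (mem_singleton_self _)).symm
    · intro h
      exact absurd (mem_univ _) h
  have hM : (1 : ℝ) ≤ D.T ^ 3826 := one_le_pow₀ (by linarith)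
  have hext0 : ∑ U : Q × Fin D.k, w U * D.p S lam U.1 U.2 ≤ D.T ^ 3826 := by
    rw [Fintype.sum_prod_type_right]
    have h1 : ∀ c : Fin D.k, ∑ u, w (u, c) * D.p S lam u c ≤ D.T ^ 380 * (1 / D.T ^ 554) := by
      intro c
      have h2 := hg c
      calc ∑ u, w (u, c) * D.p S lam u c ≤
            ∑ u, D.T ^ 380 * (if u ∈ D.LL S lam then D.p S lam u c * g u c ^ 2 else 0) := by
            refine Finset.sum_le_sum fun u _ => ?_
            simp only [w]
            by_cases h3 : u ∈ D.LL S lam
            · by_cases h4 : D.d3 < |g u c|
              · simp only [h3, h4, and_self, if_true, one_mul]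
                have h5 : (1 : ℝ) ≤ D.T ^ 380 * g u c ^ 2 := by
                  have h6 : D.d3 ^ 2 ≤ g u c ^ 2 := by
                    rw [← sq_abs (g u c)]
                    exact pow_le_pow_left₀ (by unfold d3; positivity) h4.le 2
                  have h7 : D.T ^ 380 * D.d3 ^ 2 = 1 := by
                    unfold d3
                    rw [div_pow, one_pow, ← pow_mul]
                    exact mul_one_div_cancel (pow_pos hT0 _).ne'
                  calc (1 : ℝ) = D.T ^ 380 * D.d3 ^ 2 := h7.symm
                    _ ≤ _ := mul_le_mul_of_nonneg_left h6 (by positivity)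
                have h8 := mul_le_mul_of_nonneg_left h5 (hp.nonneg u c)
                linarith
              · simp only [h3, h4, and_false, if_false, zero_mul, if_true]
                exact mul_nonneg (pow_pos hT0 _).le
                  (mul_nonneg (hp.nonneg u c) (sq_nonneg (g u c)))
            · simp only [h3, false_and, if_false, zero_mul, mul_zero]
              exact le_rfl
        _ = D.T ^ 380 * ∑ u ∈ D.LL S lam, D.p S lam u c * g u c ^ 2 := by
            rw [← Finset.mul_sum, ← Finset.sum_filter, Finset.filter_mem_eq_inter,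
              Finset.univ_inter]
        _ ≤ _ := mul_le_mul_of_nonneg_left h2 (by positivity)
    calc _ ≤ ∑ _c : Fin D.k, D.T ^ 380 * (1 / D.T ^ 554) := Finset.sum_le_sum fun c _ => h1 c
      _ = D.k * (D.T ^ 380 * (1 / D.T ^ 554)) := by
          rw [Finset.sum_const, card_univ, Fintype.card_fin, nsmul_eq_mul]
      _ ≤ D.T ^ 4000 * (D.T ^ 380 * (1 / D.T ^ 554)) := by
          have := hD.k_hi
          gcongr
      _ = D.T ^ 3826 := by
          have e : D.T ^ 4000 * D.T ^ 380 = D.T ^ 3826 * D.T ^ 554 := by
            rw [← pow_add, ← pow_add]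
          rw [← mul_assoc, e, mul_assoc, mul_one_div_cancel (pow_pos hT0 _).ne', mul_one]
  have ht := count_T hD.big.old hp (D.p S lam) (fun i a => le_rfl) w hw cd
    (fun U => by simp only [cd, card_singleton]; norm_num) (D.T ^ 3826) (by positivity) (by
      intro W _
      unfold Pool.Agent.Acy.ext
      by_cases hW : W = ∅
      · subst hW
        calc _ = ∑ U : Q × Fin D.k, w U * D.p S lam U.1 U.2 := by
              refine Finset.sum_congr rfl fun U _ => ?_
              rw [if_pos (empty_subset _), sdiff_empty]
              simp only [cd, prod_singleton]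
          _ ≤ _ := hext0
      · obtain ⟨q, hq⟩ := nonempty_iff_ne_empty.2 hW
        calc _ ≤ ∑ U : Q × Fin D.k, (if U = q then (1 : ℝ) else 0) := by
              refine Finset.sum_le_sum fun U _ => ?_
              by_cases hU : U = q
              · subst hU
                rw [if_pos rfl]
                split_ifs with h
                · have : cd U \ W = ∅ := by
                    rw [sdiff_eq_empty_iff_subset]
                    intro z hz
                    simp only [cd, mem_singleton] at hz
                    rw [hz]; exact hq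
                  rw [this, prod_empty, mul_one]
                  exact hw1 U
                · norm_num
              · rw [if_neg hU, if_neg]
                intro h
                have := h hq
                simp only [cd, mem_singleton] at this
                exact hU this.symm
          _ = 1 := by simp
          _ ≤ _ := hM)
  refine (Pr_mono hp fun ω hω => ?_).trans (ht.trans (evB_exp hT))
  rw [← hcnt]
  have h1 := (not_le.1 hω).le
  refine le_trans ?_ h1
  rw [← pow_add]

theorem e5_tail (b : Bool) (x : Q) : Pr (D.p S lam) (fun ω =>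
    ¬ (((D.LL S lam).filter fun u => D.d3 < |D.G S lam b u x (ω u)|).card : ℝ) ≤
      D.T ^ 3830) ≤ Real.exp (-D.T) :=
  evB_big hD hI hm hA (fun u c => D.G S lam b u x c) (qv_le hD hI hm hA b x)

theorem e8_tail (z z' : Q) (_hp : D.pr z z') : Pr (D.p S lam) (fun ω =>
    ¬ (((D.LL S lam).filter fun u => D.d3 < |D.GK S lam u z z' (ω u)|).card : ℝ) ≤
      D.T ^ 3830) ≤ Real.exp (-D.T) :=
  evB_big hD hI hm hA (fun u c => D.GK S lam u z z' c) (qvK_le hD hI hm hA z z')

/-- Number of pairs in `P × R` with equal picks. -/
theorem evB_pairs (P R : Finset Q) (hP : (P.card : ℝ) ≤ D.T ^ 3885)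
    (hR : (R.card : ℝ) ≤ D.T ^ 3885) :
    Pr (D.p S lam) (fun ω =>
      ¬ (((P ×ˢ R).filter fun e => e.1 ≠ e.2 ∧ ω e.1 = ω e.2).card : ℝ) ≤ D.T ^ 3778) ≤
      Real.exp (-D.T) := by
  have hT : (1000000 : ℝ) ≤ D.T := by
    have := hD.big.big
    norm_num at this
    exact this
  have hT0 : 0 < D.T := by linarith
  have hk0 : (0 : ℝ) < D.k := k_pos' hD
  have hp := p_isPM hD hI hm.le lam
  let w : Q × Q × Fin D.k → ℝ := fun U =>
    if U.1 ∈ P ∧ U.2.1 ∈ R ∧ U.1 ≠ U.2.1 then 1 else 0
  let cd : Q × Q × Fin D.k → Finset (Q × Fin D.k) := fun U => {(U.1, U.2.2), (U.2.1, U.2.2)}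
  have hw : ∀ U, 0 ≤ w U := fun U => by
    simp only [w]
    split_ifs <;> norm_num
  have hcnt : ∀ ω : Q → Fin D.k,
      (((P ×ˢ R).filter fun e => e.1 ≠ e.2 ∧ ω e.1 = ω e.2).card : ℝ) = cnt w cd ω := by
    intro ω
    unfold cnt
    have h0 : (((P ×ˢ R).filter fun e => e.1 ≠ e.2 ∧ ω e.1 = ω e.2).card : ℝ) =
        ∑ q : Q × Q, if q ∈ (P ×ˢ R).filter fun e => e.1 ≠ e.2 ∧ ω e.1 = ω e.2
          then (1 : ℝ) else 0 := by
      rw [← Finset.sum_filter, Finset.sum_const, nsmul_eq_mul, mul_one]
      congr 2
      ext q
      simp
    rw [h0, Fintype.sum_prod_type]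
    conv_rhs => rw [Fintype.sum_prod_type]
    refine Finset.sum_congr rfl fun u _ => ?_
    rw [Fintype.sum_prod_type]
    refine Finset.sum_congr rfl fun u' _ => ?_
    have h4 : ∀ c, Holds (cd (u, u', c)) ω ↔ ω u = c ∧ ω u' = c := by
      intro c
      constructor
      · intro hh
        exact ⟨hh (u, c) (by simp [cd]), hh (u', c) (by simp [cd])⟩
      · rintro ⟨ha, hb⟩ z hz
        simp only [cd, mem_insert, mem_singleton] at hz
        rcases hz with rfl | rfl
        · exact ha
        · exact hb
    rw [Finset.sum_eq_single (ω u)]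
    · by_cases h5 : (u, u') ∈ (P ×ˢ R).filter fun e => e.1 ≠ e.2 ∧ ω e.1 = ω e.2
      · rw [if_pos h5]
        rw [mem_filter, mem_product] at h5
        rw [if_pos ((h4 _).2 ⟨rfl, h5.2.2.symm⟩)]
        simp only [w]
        rw [if_pos ⟨h5.1.1, h5.1.2, h5.2.1⟩]
      · rw [if_neg h5]
        split_ifs with h6
        · simp only [w]
          rw [if_neg]
          rintro ⟨h7, h8, h9⟩
          obtain ⟨-, h11⟩ := (h4 _).1 h6
          apply h5
          rw [mem_filter, mem_product]
          exact ⟨⟨h7, h8⟩, h9, h11.symm⟩
        · rfl
    · intro c _ hc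
      rw [if_neg]
      intro hh
      exact hc ((h4 c).1 hh).1.symm
    · intro h
      exact absurd (mem_univ _) h
  have hπ0 : (0 : ℝ) ≤ 2 * D.T / D.k := by positivity
  have hπle : 2 * D.T / D.k ≤ 1 / D.T ^ 3900 := by
    rw [div_le_div_iff₀ hk0 (by positivity), one_mul]
    refine le_trans ?_ hD.k_lo
    calc 2 * D.T * D.T ^ 3900 ≤ D.T ^ 2 * D.T ^ 3900 := by
          have : 2 * D.T ≤ D.T ^ 2 := by nlinarith
          gcongr
      _ = D.T ^ 3902 := by rw [← pow_add]
      _ ≤ _ := pow_le_pow_right₀ (by linarith) (by norm_num)
  have hone : (2 : ℝ) ≤ 4 * D.T ^ 3773 := by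
    have : (1 : ℝ) ≤ D.T ^ 3773 := one_le_pow₀ (by linarith)
    linarith
  have hw1 : ∀ U, w U ≤ 1 := fun U => by
    simp only [w]
    split_ifs <;> norm_num
  have e1 : ∀ (X : Finset Q) (g : ℝ), ∑ u : Q, (if u ∈ X then g else 0) = X.card * g := by
    intro X g
    rw [← Finset.sum_filter, Finset.sum_const, nsmul_eq_mul]
    congr 3
    ext u
    simp
  have ht := count_T hD.big.old hp (fun _ _ => 2 * D.T / D.k)
    (fun i a => p_le hD hI hm.le lam i a) w hw cd
    (fun U => by
      refine (card_insert_le _ _).trans ?_
      rw [card_singleton]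
      norm_num) (4 * D.T ^ 3773) (by positivity) (by
      intro W _
      unfold Pool.Agent.Acy.ext
      simp only [prod_const]
      rcases lt_trichotomy W.card 1 with hc | hc | hc
      · -- no condition
        have hW : W = ∅ := card_eq_zero.1 (by omega)
        subst hW
        calc _ ≤ ∑ U : Q × Q × Fin D.k, (if U.1 ∈ P ∧ U.2.1 ∈ R then
              (2 * D.T / D.k) ^ 2 else 0) := by
              refine Finset.sum_le_sum fun U _ => ?_
              rw [if_pos (empty_subset _), sdiff_empty]
              simp only [w]
              by_cases h1 : U.1 ∈ P ∧ U.2.1 ∈ R ∧ U.1 ≠ U.2.1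
              · rw [if_pos h1, if_pos ⟨h1.1, h1.2.1⟩, one_mul]
                have : (cd U).card = 2 := by
                  simp only [cd]
                  rw [card_pair]
                  intro h
                  exact h1.2.2 (Prod.ext_iff.1 h).1
                rw [this]
              · rw [if_neg h1, zero_mul]
                split_ifs <;> positivity
          _ = P.card * (R.card * (D.k * (2 * D.T / D.k) ^ 2)) := by
              simp only [Fintype.sum_prod_type, ite_and]
              have e2 : ∀ u : Q, ∑ u' : Q, ∑ _c : Fin D.k, (if u ∈ P then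
                  (if u' ∈ R then (2 * D.T / (D.k : ℝ)) ^ 2 else 0) else 0) =
                  if u ∈ P then R.card * (D.k * (2 * D.T / (D.k : ℝ)) ^ 2) else 0 := by
                intro u
                by_cases h1 : u ∈ P
                · simp only [h1, if_true]
                  rw [← e1]
                  refine Finset.sum_congr rfl fun u' _ => ?_
                  rw [Finset.sum_const, card_univ, Fintype.card_fin, nsmul_eq_mul]
                  split_ifs <;> simp
                · simp only [h1, if_false, Finset.sum_const_zero]
              rw [Finset.sum_congr rfl fun u _ => e2 u, e1]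
          _ ≤ D.T ^ 3885 * (D.T ^ 3885 * (D.k * (2 * D.T / D.k) ^ 2)) := by
              gcongr
          _ ≤ 4 * D.T ^ 3773 := by
              have e3 : (D.k : ℝ) * (2 * D.T / D.k) ^ 2 = 4 * D.T ^ 2 / D.k := by
                field_simp
                ring
              rw [e3, ← mul_assoc, ← pow_add, mul_div_assoc', div_le_iff₀ hk0]
              have e4 := hD.k_lo
              calc D.T ^ (3885 + 3885) * (4 * D.T ^ 2) = 4 * D.T ^ 3773 * D.T ^ 3999 := by
                    rw [mul_assoc, ← pow_add]
                    have : D.T ^ (3885 + 3885) * (4 * D.T ^ 2) = 4 * (D.T ^ (3885 + 3885) * D.T ^ 2) := by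
                      ring
                    rw [this, ← pow_add]
                _ ≤ _ := by gcongr
      · -- one condition
        obtain ⟨q, hq⟩ := card_eq_one.1 hc
        subst hq
        calc _ ≤ ∑ U : Q × Q × Fin D.k,
              ((if U.1 = q.1 ∧ U.2.2 = q.2 ∧ U.2.1 ∈ R then 2 * D.T / D.k else 0) +
               (if U.2.1 = q.1 ∧ U.2.2 = q.2 ∧ U.1 ∈ P then 2 * D.T / D.k else 0)) := by
              refine Finset.sum_le_sum fun U _ => ?_
              have hn1 : (0 : ℝ) ≤ if U.1 = q.1 ∧ U.2.2 = q.2 ∧ U.2.1 ∈ R then
                  2 * D.T / D.k else 0 := by split_ifs <;> positivity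
              have hn2 : (0 : ℝ) ≤ if U.2.1 = q.1 ∧ U.2.2 = q.2 ∧ U.1 ∈ P then
                  2 * D.T / D.k else 0 := by split_ifs <;> positivity
              by_cases h : {q} ⊆ cd U
              · rw [if_pos h]
                simp only [w]
                by_cases h1 : U.1 ∈ P ∧ U.2.1 ∈ R ∧ U.1 ≠ U.2.1
                · rw [if_pos h1, one_mul]
                  have h2 : (cd U \ {q}).card = 1 := by
                    rw [card_sdiff_of_subset h, card_singleton]
                    simp only [cd]
                    rw [card_pair]
                    intro h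
                    exact h1.2.2 (Prod.ext_iff.1 h).1
                  rw [h2, pow_one]
                  have h3 : q ∈ cd U := h (mem_singleton_self q)
                  simp only [cd, mem_insert, mem_singleton] at h3
                  rcases h3 with h3 | h3
                  · rw [if_pos (by rw [h3]; exact ⟨rfl, rfl, h1.2.1⟩)]
                    linarith
                  · rw [if_pos (c := U.2.1 = q.1 ∧ U.2.2 = q.2 ∧ U.1 ∈ P)
                      (by rw [h3]; exact ⟨rfl, rfl, h1.1⟩)]
                    linarith
                · rw [if_neg h1, zero_mul]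
                  linarith
              · rw [if_neg h]
                linarith
          _ = R.card * (2 * D.T / D.k) + P.card * (2 * D.T / D.k) := by
              rw [Finset.sum_add_distrib]
              have e2 : ∑ U : Q × Q × Fin D.k, (if U.1 = q.1 ∧ U.2.2 = q.2 ∧ U.2.1 ∈ R then
                  2 * D.T / D.k else 0) = R.card * (2 * D.T / D.k) := by
                simp only [Fintype.sum_prod_type, ite_and]
                rw [Finset.sum_eq_single q.1]
                · simp only [if_true]
                  rw [Finset.sum_comm, Finset.sum_eq_single q.2]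
                  · simp only [if_true]
                    exact e1 _ _
                  · intro c _ hc
                    simp [hc]
                  · intro h; exact absurd (mem_univ _) h
                · intro u _ hu
                  simp [hu]
                · intro h; exact absurd (mem_univ _) h
              have e3 : ∑ U : Q × Q × Fin D.k, (if U.2.1 = q.1 ∧ U.2.2 = q.2 ∧ U.1 ∈ P then
                  2 * D.T / D.k else 0) = P.card * (2 * D.T / D.k) := by
                simp only [Fintype.sum_prod_type, ite_and]
                have e4 : ∀ u : Q, ∑ u' : Q, ∑ c : Fin D.k, (if u' = q.1 then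
                    (if c = q.2 then (if u ∈ P then 2 * D.T / (D.k : ℝ) else 0) else 0) else 0) =
                    if u ∈ P then 2 * D.T / (D.k : ℝ) else 0 := by
                  intro u
                  rw [Finset.sum_eq_single q.1]
                  · rw [Finset.sum_eq_single q.2]
                    · simp
                    · intro c _ hc
                      simp [hc]
                    · intro h; exact absurd (mem_univ _) h
                  · intro u' _ hu'
                    simp [hu']
                  · intro h; exact absurd (mem_univ _) h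
                rw [Finset.sum_congr rfl fun u _ => e4 u, e1]
              rw [e2, e3]
          _ ≤ D.T ^ 3885 * (1 / D.T ^ 3900) + D.T ^ 3885 * (1 / D.T ^ 3900) := by
              gcongr
          _ ≤ 2 := by
              have : D.T ^ 3885 * (1 / D.T ^ 3900) ≤ 1 := by
                rw [mul_one_div, div_le_one (by positivity)]
                exact pow_le_pow_right₀ (by linarith) (by norm_num)
              linarith
          _ ≤ _ := hone
      · -- both conditions
        obtain ⟨q, hq, q', hq', hne⟩ := one_lt_card.1 hc
        calc _ ≤ ∑ U : Q × Q × Fin D.k,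
              ((if U = (q.1, q'.1, q.2) then (1 : ℝ) else 0) +
               (if U = (q'.1, q.1, q.2) then (1 : ℝ) else 0)) := by
              refine Finset.sum_le_sum fun U _ => ?_
              have hn1 : (0 : ℝ) ≤ if U = (q.1, q'.1, q.2) then (1 : ℝ) else 0 := by
                split_ifs <;> norm_num
              have hn2 : (0 : ℝ) ≤ if U = (q'.1, q.1, q.2) then (1 : ℝ) else 0 := by
                split_ifs <;> norm_num
              by_cases h : W ⊆ cd U
              · rw [if_pos h]
                have h1 : cd U \ W = ∅ := by
                  rw [← card_eq_zero]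
                  rw [card_sdiff_of_subset h]
                  have : (cd U).card ≤ 2 := by
                    refine (card_insert_le _ _).trans ?_
                    rw [card_singleton]
                  omega
                rw [h1, card_empty, pow_zero, mul_one]
                refine (hw1 U).trans ?_
                have h3 := h hq
                have h4 := h hq'
                simp only [cd, mem_insert, mem_singleton] at h3 h4
                rcases h3 with h3 | h3 <;> rcases h4 with h4 | h4
                · exact absurd (h3.trans h4.symm) hne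
                · have : U = (q.1, q'.1, q.2) := by rw [h3, h4]
                  rw [if_pos this]
                  linarith
                · have : U = (q'.1, q.1, q.2) := by rw [h3, h4]
                  rw [if_pos (c := U = (q'.1, q.1, q.2)) this]
                  linarith
                · exact absurd (h3.trans h4.symm) hne
              · rw [if_neg h]
                linarith
          _ = 2 := by
              rw [Finset.sum_add_distrib]
              simp
              norm_num
          _ ≤ _ := hone)
  refine (Pr_mono hp fun ω hω => ?_).trans (ht.trans (evB_exp hT))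
  rw [← hcnt]
  have h1 := (not_le.1 hω).le
  refine le_trans ?_ h1
  calc D.T ^ 4 * (4 * D.T ^ 3773) = 4 * D.T ^ 3777 := by
        have : D.T ^ 3777 = D.T ^ 4 * D.T ^ 3773 := by rw [← pow_add]
        rw [this]; ring
    _ ≤ D.T * D.T ^ 3777 := by
        have : 0 ≤ D.T ^ 3777 := by positivity
        nlinarith
    _ = D.T ^ 3778 := by rw [← pow_succ']

theorem e11_tail (z z' : Q) (_hp : D.pr z z') : Pr (D.p S lam) (fun ω =>
    ¬ ((((D.R z ∩ D.LL S lam) ×ˢ (D.R z' ∩ D.LL S lam)).filter
      fun e => e.1 ≠ e.2 ∧ ω e.1 = ω e.2).card : ℝ) ≤ D.T ^ 3778) ≤ Real.exp (-D.T) :=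
  evB_pairs hD hI hm hA _ _ (RV_card hD hI hm hA z) (RV_card hD hI hm hA z')

omit hD hI hm hA in
theorem evB_J (ω : Q → Fin D.k) (x : Q) :
    ∑ c, (D.J S lam ω x c : ℝ) * ((D.J S lam ω x c : ℝ) - 1) =
      ((((D.R x ∩ D.LL S lam) ×ˢ (D.R x ∩ D.LL S lam)).filter
        fun e => e.1 ≠ e.2 ∧ ω e.1 = ω e.2).card : ℝ) := by
  set RV : Finset Q := D.R x ∩ D.LL S lam with hRV
  have h1 : ∀ c, ((D.J S lam ω x c : ℝ) * ((D.J S lam ω x c : ℝ) - 1)) =
      ((RV.filter fun u => ω u = c).offDiag.card : ℝ) := by
    intro c
    rw [offDiag_card]
    have : (RV.filter fun u => ω u = c).card ≤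
        (RV.filter fun u => ω u = c).card * (RV.filter fun u => ω u = c).card :=
      Nat.le_mul_self _
    rw [Nat.cast_sub this]
    unfold J
    push_cast
    ring
  have h2 : ((RV ×ˢ RV).filter fun e => e.1 ≠ e.2 ∧ ω e.1 = ω e.2) =
      univ.biUnion fun c => (RV.filter fun u => ω u = c).offDiag := by
    ext e
    simp only [mem_filter, mem_product, mem_biUnion, mem_univ, true_and, mem_offDiag]
    constructor
    · rintro ⟨⟨h3, h4⟩, h5, h6⟩
      exact ⟨ω e.1, ⟨h3, rfl⟩, ⟨h4, h6.symm⟩, h5⟩
    · rintro ⟨c, ⟨h3, h4⟩, ⟨h5, h6⟩, h7⟩
      exact ⟨⟨h3, h5⟩, h7, h4.trans h6.symm⟩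
  rw [h2, Finset.card_biUnion]
  · push_cast
    exact Finset.sum_congr rfl fun c _ => h1 c
  · intro c _ c' _ hcc
    show Disjoint _ _
    rw [Finset.disjoint_left]
    intro e he he'
    rw [mem_offDiag, mem_filter] at he he'
    exact hcc (he.1.2.symm.trans he'.1.2)

theorem e6_tail (x : Q) : Pr (D.p S lam) (fun ω =>
    ¬ ∑ c, (D.J S lam ω x c : ℝ) * ((D.J S lam ω x c : ℝ) - 1) ≤ D.T ^ 3778) ≤
      Real.exp (-D.T) := by
  have h := evB_pairs hD hI hm hA _ _ (RV_card hD hI hm hA x) (RV_card hD hI hm hA x)
  refine le_trans (le_of_eq ?_) h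
  congr 1
  funext ω
  rw [evB_J]

end NibData

end

end Pool.Agent.AcyK
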