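import Pool.Agent.AcyK.LamB

/-! # Probability estimates for the tested sets (module EY) -/

set_option autoImplicit false
set_option linter.unusedSectionVars false

namespace Pool.Agent.AcyK

open Finset
open Pool.Agent.Acy (IsPM wt Ex Pr mean cnt Holds count_T indep_tail Pr_mono)
open scoped Classical

universe u v

section generic

variable {Q : Type*} [Fintype Q] [DecidableEq Q] {α : Type*} [Fintype α] [DecidableEq α]

/-- Weighted counts of single picks. -/
theorem single_tail {T : ℝ} (hT : Big T) {μ : Q → α → ℝ} (h : IsPM μ) (g : Q → α → ℝ)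
    (hg : ∀ u c, 0 ≤ g u c) (M : ℝ) (hM : 0 < M) (h0 : ∑ u, ∑ c, g u c * μ u c ≤ M)
    (h1 : ∀ u c, g u c ≤ M) :
    Pr μ (fun ω => T ^ 4 * M ≤ ∑ u, g u (ω u)) ≤ Real.exp (-(2 * T)) := by
  let w : Q × α → ℝ := fun U => g U.1 U.2
  let cd : Q × α → Finset (Q × α) := fun U => {U}
  have hcnt : ∀ ω : Q → α, ∑ u, g u (ω u) = cnt w cd ω := by
    intro ω
    unfold cnt
    rw [Fintype.sum_prod_type]
    refine Finset.sum_congr rfl fun u _ => ?_
    rw [Finset.sum_eq_single (ω u)]
    · have hh : Holds (cd (u, ω u)) ω := by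
        intro q hq
        rw [mem_singleton] at hq
        rw [hq]
      rw [if_pos hh]
    · intro c _ hc
      rw [if_neg]
      intro hh
      exact hc (hh (u, c) (mem_singleton_self _)).symm
    · intro h
      exact absurd (mem_univ _) h
  have ht := count_T hT.old h μ (fun i a => le_rfl) w (fun U => hg _ _) cd
    (fun U => by simp only [cd, card_singleton]; norm_num) M hM (by
      intro W _
      unfold Pool.Agent.Acy.ext
      by_cases hW : W = ∅
      · subst hW
        calc _ = ∑ U : Q × α, w U * μ U.1 U.2 := by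
              refine Finset.sum_congr rfl fun U _ => ?_
              rw [if_pos (empty_subset _), sdiff_empty]
              simp only [cd, prod_singleton]
          _ = ∑ u, ∑ c, g u c * μ u c := by rw [Fintype.sum_prod_type]
          _ ≤ _ := h0
      · obtain ⟨q, hq⟩ := nonempty_iff_ne_empty.2 hW
        calc _ ≤ ∑ U : Q × α, (if U = q then w q else 0) := by
              refine Finset.sum_le_sum fun U _ => ?_
              by_cases hU : U = q
              · subst hU
                rw [if_pos rfl]
                split_ifs with h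
                · have : cd U \ W = ∅ := by
                    rw [sdiff_eq_empty_iff_subset]
                    intro z hz
                    simp only [cd, mem_singleton] at hz
                    rw [hz]; exact hq
                  rw [this, prod_empty, mul_one]
                · exact hg _ _
              · rw [if_neg hU, if_neg]
                intro h
                have := h hq
                simp only [cd, mem_singleton] at this
                exact hU this.symm
          _ = w q := by simp
          _ ≤ _ := h1 _ _)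
  simpa only [hcnt] using ht

/-- Weighted counts of pairs of equal picks. -/
theorem pair_tail {T : ℝ} (hT : Big T) {μ : Q → α → ℝ} (h : IsPM μ) (π : ℝ) (hπ0 : 0 ≤ π)
    (hπ : ∀ i a, μ i a ≤ π) (g : Q → Q → α → ℝ) (hg : ∀ u u' c, 0 ≤ g u u' c)
    (hgd : ∀ u c, g u u c = 0) (M : ℝ) (hM : 0 < M)
    (h0 : ∑ u, ∑ u', ∑ c, g u u' c * π ^ 2 ≤ M)
    (h1 : ∀ u c, ∑ u', g u u' c * π ≤ M / 2) (h1' : ∀ u c, ∑ u', g u' u c * π ≤ M / 2)
    (h2 : ∀ u u' c, g u u' c ≤ M / 2) :
    Pr μ (fun ω => T ^ 4 * M ≤ ∑ u, ∑ u', if ω u = ω u' then g u u' (ω u) else 0) ≤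
      Real.exp (-(2 * T)) := by
  let w : Q × Q × α → ℝ := fun U => g U.1 U.2.1 U.2.2
  let cd : Q × Q × α → Finset (Q × α) := fun U => {(U.1, U.2.2), (U.2.1, U.2.2)}
  have hw : ∀ U, 0 ≤ w U := fun U => hg _ _ _
  have hHolds : ∀ (ω : Q → α) (u u' : Q) (c : α),
      Holds (cd (u, u', c)) ω ↔ ω u = c ∧ ω u' = c := by
    intro ω u u' c
    constructor
    · intro hh
      exact ⟨hh (u, c) (by simp [cd]), hh (u', c) (by simp [cd])⟩
    · rintro ⟨ha, hb⟩ z hz
      simp only [cd, mem_insert, mem_singleton] at hz
      rcases hz with rfl | rfl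
      · exact ha
      · exact hb
  have hcnt : ∀ ω : Q → α, (∑ u, ∑ u', if ω u = ω u' then g u u' (ω u) else 0) =
      cnt w cd ω := by
    intro ω
    unfold cnt
    rw [Fintype.sum_prod_type]
    refine Finset.sum_congr rfl fun u _ => ?_
    rw [Fintype.sum_prod_type]
    refine Finset.sum_congr rfl fun u' _ => ?_
    simp only [hHolds]
    rw [Finset.sum_eq_single (ω u)]
    · by_cases hu : ω u = ω u'
      · rw [if_pos hu, if_pos ⟨rfl, hu.symm⟩]
      · rw [if_neg hu, if_neg]
        rintro ⟨-, h⟩
        exact hu h.symm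
    · intro c _ hc
      rw [if_neg]
      rintro ⟨h, -⟩
      exact hc h.symm
    · intro h
      exact absurd (mem_univ _) h
  have hne : ∀ U, U.1 = U.2.1 → w U = 0 := by
    rintro ⟨u, u', c⟩ hU
    simp only at hU
    subst hU
    exact hgd u c
  have hcard : ∀ U : Q × Q × α, U.1 ≠ U.2.1 → (cd U).card = 2 := by
    intro U hU
    simp only [cd]
    rw [card_pair]
    intro h
    exact hU (Prod.ext_iff.1 h).1
  have ht := count_T hT.old h (fun _ _ => π) hπ w hw cd
    (fun U => by
      refine (card_insert_le _ _).trans ?_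
      rw [card_singleton]
      norm_num) M hM (by
      intro W _
      unfold Pool.Agent.Acy.ext
      simp only [prod_const]
      rcases lt_trichotomy W.card 1 with hc | hc | hc
      · -- no condition
        have hW : W = ∅ := card_eq_zero.1 (by omega)
        subst hW
        calc _ ≤ ∑ U : Q × Q × α, w U * π ^ 2 := by
              refine Finset.sum_le_sum fun U _ => ?_
              rw [if_pos (empty_subset _), sdiff_empty]
              by_cases hU : U.1 = U.2.1
              · rw [hne U hU, zero_mul, zero_mul]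
              · rw [hcard U hU]
          _ = ∑ u, ∑ u', ∑ c, g u u' c * π ^ 2 := by
              simp only [Fintype.sum_prod_type, w]
          _ ≤ M := h0
      · -- one condition
        obtain ⟨q, hq⟩ := card_eq_one.1 hc
        subst hq
        calc _ ≤ ∑ U : Q × Q × α,
              ((if U.1 = q.1 ∧ U.2.2 = q.2 then w U * π else 0) +
               (if U.2.1 = q.1 ∧ U.2.2 = q.2 then w U * π else 0)) := by
              refine Finset.sum_le_sum fun U _ => ?_
              have hn : 0 ≤ w U * π := mul_nonneg (hw U) hπ0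
              have hn1 : (0 : ℝ) ≤ if U.1 = q.1 ∧ U.2.2 = q.2 then w U * π else 0 := by
                split_ifs
                · exact hn
                · exact le_rfl
              have hn2 : (0 : ℝ) ≤ if U.2.1 = q.1 ∧ U.2.2 = q.2 then w U * π else 0 := by
                split_ifs
                · exact hn
                · exact le_rfl
              by_cases h : {q} ⊆ cd U
              · rw [if_pos h]
                by_cases hU : U.1 = U.2.1
                · rw [hne U hU, zero_mul, zero_mul]
                  simp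
                · have h2 : (cd U \ {q}).card = 1 := by
                    rw [card_sdiff_of_subset h, card_singleton, hcard U hU]
                  rw [h2, pow_one]
                  have h3 : q ∈ cd U := h (mem_singleton_self q)
                  simp only [cd, mem_insert, mem_singleton] at h3
                  rcases h3 with h3 | h3
                  · rw [if_pos (by rw [h3]; exact ⟨rfl, rfl⟩)]
                    linarith
                  · rw [if_pos (c := U.2.1 = q.1 ∧ U.2.2 = q.2) (by rw [h3]; exact ⟨rfl, rfl⟩)]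
                    linarith
              · rw [if_neg h]
                linarith
          _ = ∑ u', g q.1 u' q.2 * π + ∑ u, g u q.1 q.2 * π := by
              rw [Finset.sum_add_distrib]
              congr 1
              · simp only [Fintype.sum_prod_type, w]
                rw [Finset.sum_eq_single q.1]
                · refine Finset.sum_congr rfl fun u' _ => ?_
                  rw [Finset.sum_eq_single q.2]
                  · simp
                  · intro c _ hc
                    simp [hc]
                  · intro h; exact absurd (mem_univ _) h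
                · intro u _ hu
                  simp [hu]
                · intro h; exact absurd (mem_univ _) h
              · simp only [Fintype.sum_prod_type, w]
                refine Finset.sum_congr rfl fun u _ => ?_
                rw [Finset.sum_eq_single q.1]
                · rw [Finset.sum_eq_single q.2]
                  · simp
                  · intro c _ hc
                    simp [hc]
                  · intro h; exact absurd (mem_univ _) h
                · intro u' _ hu'
                  simp [hu']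
                · intro h; exact absurd (mem_univ _) h
          _ ≤ M := by
              have := h1 q.1 q.2
              have := h1' q.1 q.2
              linarith
      · -- both conditions
        obtain ⟨q, hq, q', hq', hne'⟩ := one_lt_card.1 hc
        calc _ ≤ ∑ U : Q × Q × α,
              ((if U = (q.1, q'.1, q.2) then w U else 0) +
               (if U = (q'.1, q.1, q.2) then w U else 0)) := by
              refine Finset.sum_le_sum fun U _ => ?_
              have hn1 : (0 : ℝ) ≤ if U = (q.1, q'.1, q.2) then w U else 0 := by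
                split_ifs
                · exact hw U
                · exact le_rfl
              have hn2 : (0 : ℝ) ≤ if U = (q'.1, q.1, q.2) then w U else 0 := by
                split_ifs
                · exact hw U
                · exact le_rfl
              by_cases h : W ⊆ cd U
              · rw [if_pos h]
                have h1 : cd U \ W = ∅ := by
                  rw [← card_eq_zero]
                  rw [card_sdiff_of_subset h]
                  have : (cd U).card ≤ 2 := by
                    refine (card_insert_le _ _).trans ?_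
                    rw [card_singleton]
                  omega
                rw [h1, card_empty, pow_zero, mul_one]
                have h3 := h hq
                have h4 := h hq'
                simp only [cd, mem_insert, mem_singleton] at h3 h4
                rcases h3 with h3 | h3 <;> rcases h4 with h4 | h4
                · exact absurd (h3.trans h4.symm) hne'
                · have : U = (q.1, q'.1, q.2) := by rw [h3, h4]
                  rw [if_pos this]
                  linarith
                · have : U = (q'.1, q.1, q.2) := by rw [h3, h4]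
                  rw [if_pos (c := U = (q'.1, q.1, q.2)) this]
                  linarith
                · exact absurd (h3.trans h4.symm) hne'
              · rw [if_neg h]
                linarith
          _ = w (q.1, q'.1, q.2) + w (q'.1, q.1, q.2) := by
              rw [Finset.sum_add_distrib]
              simp
          _ ≤ M := by
              have := h2 q.1 q'.1 q.2
              have := h2 q'.1 q.1 q.2
              simp only [w]
              linarith)
  simpa only [hcnt] using ht

end generic

namespace NibData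

variable {Q ι : Type u} [Fintype Q] [DecidableEq Q] [Fintype ι] [DecidableEq ι]
  {D : NibData Q ι}

/-- The number of uncoloured vertices of the tested set which are related to `u`. -/
noncomputable def nR (D : NibData Q ι) (S : NState Q D.k) (lam : Q → Option Bool) (i : ι)
    (u : Q) : ℝ :=
  (((D.A i ∩ D.U1 S lam).filter fun z => u ∈ D.R z).card : ℝ)

theorem nR_nonneg (S : NState Q D.k) (lam : Q → Option Bool) (i : ι) (u : Q) :
    0 ≤ D.nR S lam i u := Nat.cast_nonneg _

theorem nR_le (S : NState Q D.k) (lam : Q → Option Bool) {i : ι}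
    (hi : ((D.A i).card : ℝ) ≤ D.T ^ 1603) (u : Q) : D.nR S lam i u ≤ D.T ^ 1603 := by
  refine le_trans ?_ hi
  unfold nR
  exact_mod_cast Finset.card_le_card ((Finset.filter_subset _ _).trans Finset.inter_subset_left)

theorem nc_nonneg (S : NState Q D.k) (i : ι) (c : Fin D.k) : 0 ≤ D.nc S i c :=
  Nat.cast_nonneg _

/-- Every vertex has at most one colour. -/
theorem sum_nc (S : NState Q D.k) {i : ι} (hi : ((D.A i).card : ℝ) ≤ D.T ^ 1603) :
    ∑ c, D.nc S i c ≤ D.T ^ 1603 := by
  refine le_trans ?_ hi
  unfold nc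
  rw [← Nat.cast_sum]
  have h1 : ∑ c : Fin D.k, ((D.A i).filter fun z => ∃ r, S.col z = some (c, r)).card =
      ((univ : Finset (Fin D.k)).biUnion fun c =>
        (D.A i).filter fun z => ∃ r, S.col z = some (c, r)).card := by
    rw [Finset.card_biUnion]
    intro c _ c' _ hcc
    rw [Function.onFun, Finset.disjoint_left]
    intro z hz hz'
    obtain ⟨-, r, hr⟩ := Finset.mem_filter.1 hz
    obtain ⟨-, r', hr'⟩ := Finset.mem_filter.1 hz'
    rw [hr] at hr'
    simp only [Option.some.injEq, Prod.mk.injEq] at hr'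
    exact hcc hr'.1
  rw [h1]
  refine Nat.cast_le.2 (Finset.card_le_card ?_)
  intro z hz
  obtain ⟨c, -, hc⟩ := Finset.mem_biUnion.1 hz
  exact (Finset.mem_filter.1 hc).1

variable (hD : D.Ok) {S : NState Q D.k} {m : ℕ} (hI : D.Inv S m) (hm : m < D.M)
  {lam : Q → Option Bool} (hA : D.GoodA S m lam)

include hD in
theorem two_T_div_k : 2 * D.T / D.k ≤ 1 / D.T ^ 3997 := by
  have hT := hD.big
  have hT0 := hT.pos
  rw [div_le_div_iff₀ (k_pos' hD) (by positivity), one_mul]
  refine le_trans ?_ hD.k_lo
  have h1 := hT.big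
  calc 2 * D.T * D.T ^ 3997 ≤ D.T ^ 2 * D.T ^ 3997 := by
        have : 2 * D.T ≤ D.T ^ 2 := by nlinarith
        gcongr
    _ = D.T ^ 3999 := by rw [← pow_add]

include hD hI hm in
theorem nc_le {i : ι} (hi : ((D.A i).card : ℝ) ≤ D.T ^ 1603) (c : Fin D.k) :
    D.nc S i c ≤ D.T ^ 154 := by
  have hT0 := hD.big.pos
  refine (hI.ncol i hi c).trans ?_
  have h1 : (m : ℝ) ≤ D.T ^ 150 := by
    have h2 : (m : ℝ) ≤ D.M := by exact_mod_cast hm.le
    exact h2.trans (M_le_T hD)
  calc (m : ℝ) * D.T ^ 4 ≤ D.T ^ 150 * D.T ^ 4 := by gcongr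
    _ = D.T ^ 154 := by rw [← pow_add]

include hD hI hm hA

theorem sum_nR {i : ι} (hi : ((D.A i).card : ℝ) ≤ D.T ^ 1603) :
    ∑ u ∈ D.LL S lam, D.nR S lam i u ≤ D.T ^ 5488 := by
  have hT0 := hD.big.pos
  have h1 : ∑ u ∈ D.LL S lam, D.nR S lam i u =
      ∑ z ∈ D.A i ∩ D.U1 S lam, ((D.R z ∩ D.LL S lam).card : ℝ) := by
    have h2 : ∀ u, D.nR S lam i u = ∑ z ∈ D.A i ∩ D.U1 S lam, if u ∈ D.R z then (1 : ℝ) else 0 := by
      intro u
      rw [← Finset.sum_filter, Finset.sum_const, nsmul_eq_mul, mul_one]
      rfl
    simp only [h2]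
    rw [Finset.sum_comm]
    refine Finset.sum_congr rfl fun z _ => ?_
    rw [← Finset.sum_filter, Finset.sum_const, nsmul_eq_mul, mul_one]
    congr 2
    ext u
    simp only [mem_filter, mem_inter]
    tauto
  rw [h1]
  calc ∑ z ∈ D.A i ∩ D.U1 S lam, ((D.R z ∩ D.LL S lam).card : ℝ)
      ≤ ∑ _z ∈ D.A i ∩ D.U1 S lam, D.T ^ 3885 :=
        Finset.sum_le_sum fun z _ => RV_card hD hI hm hA z
    _ = ((D.A i ∩ D.U1 S lam).card : ℝ) * D.T ^ 3885 := by
        rw [Finset.sum_const, nsmul_eq_mul]
    _ ≤ D.T ^ 1603 * D.T ^ 3885 := by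
        have h3 : ((D.A i ∩ D.U1 S lam).card : ℝ) ≤ D.T ^ 1603 := by
          refine le_trans ?_ hi
          exact_mod_cast Finset.card_le_card Finset.inter_subset_left
        gcongr
    _ = D.T ^ 5488 := by rw [← pow_add]

theorem evY_core (Y : Q → Fin D.k → ℝ) (hY : ∀ u c, |Y u c| ≤ D.T ^ 2440)
    (hV : ∑ u, ∑ c, D.p S lam u c * Y u c ^ 2 ≤ D.T ^ 4870) :
    Pr (D.p S lam) (fun ω => ¬ |D.cen S lam Y ω| ≤ D.T ^ 2500) ≤ Real.exp (-D.T) := by
  have hT := hD.big.big
  have hT0 := hD.big.pos
  have hT1 := hD.big.one_le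
  have hp := p_isPM hD hI hm.le lam
  have ht := indep_tail hp Y (D.T ^ 2440) hY (D.T ^ 4870) hV (1 / (2 * D.T ^ 2440))
    (by positivity)
    (by
      have e : 2 * (1 / (2 * D.T ^ 2440) * D.T ^ 2440) = 1 := by
        field_simp
      rw [e]) (D.T ^ 2500)
  refine (Pr_mono hp fun ω hω => (not_le.1 hω).le).trans (ht.trans ?_)
  have e1 : (1 / (2 * D.T ^ 2440)) ^ 2 * D.T ^ 4870 ≤ 1 := by
    have e0 : D.T ^ 4870 ≤ (D.T ^ 2440) ^ 2 := by
      rw [← pow_mul]
      exact pow_le_pow_right₀ hT1 (by norm_num)
    have e00 : (0 : ℝ) < D.T ^ 2440 := by positivity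
    rw [div_pow, one_pow, one_div, inv_mul_le_iff₀ (by positivity)]
    nlinarith
  have e2 : 1 / (2 * D.T ^ 2440) * D.T ^ 2500 = D.T ^ 60 / 2 := by
    have : D.T ^ 2500 = D.T ^ 60 * D.T ^ 2440 := by rw [← pow_add]
    rw [this]
    field_simp
  have e3 : 8 * D.T ≤ D.T ^ 60 := by
    have h2 : D.T ^ 2 ≤ D.T ^ 60 := pow_le_pow_right₀ hT1 (by norm_num)
    nlinarith
  have hz : (1 / (2 * D.T ^ 2440)) ^ 2 * D.T ^ 4870 - 1 / (2 * D.T ^ 2440) * D.T ^ 2500 ≤
      -(2 * D.T) := by
    rw [e2]
    linarith
  have h1 : (2 : ℝ) ≤ Real.exp D.T := by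
    have := Real.add_one_le_exp D.T
    linarith
  have h2 : Real.exp ((1 / (2 * D.T ^ 2440)) ^ 2 * D.T ^ 4870 -
      1 / (2 * D.T ^ 2440) * D.T ^ 2500) ≤ Real.exp (-D.T) * Real.exp (-D.T) := by
    rw [← Real.exp_add]
    exact Real.exp_le_exp.mpr (by linarith)
  have h3 : Real.exp D.T * Real.exp (-D.T) = 1 := by rw [← Real.exp_add]; simp
  calc _ ≤ Real.exp D.T * (Real.exp (-D.T) * Real.exp (-D.T)) :=
        mul_le_mul h1 h2 (Real.exp_pos _).le (Real.exp_pos _).le
    _ = Real.exp (-D.T) := by rw [← mul_assoc, h3, one_mul]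

theorem e12_tail (i : ι) (hi : ((D.A i).card : ℝ) ≤ D.T ^ 1603) : Pr (D.p S lam)
    (fun ω => ¬ |D.cen S lam (D.Y12 S lam i) ω| ≤ D.T ^ 2500) ≤ Real.exp (-D.T) := by
  have hT := hD.big.big
  have hT0 := hD.big.pos
  have hT1 := hD.big.one_le
  have hp := p_isPM hD hI hm.le lam
  have hY : ∀ u c, |D.Y12 S lam i u c| ≤ if u ∈ D.LL S lam then
      D.nc S i c * (D.T ^ 2 * D.nR S lam i u) else 0 := by
    intro u c
    unfold Y12
    split_ifs with hu
    · rw [abs_mul, abs_of_nonneg (nc_nonneg S i c)]
      refine mul_le_mul_of_nonneg_left ?_ (nc_nonneg S i c)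
      refine (Finset.abs_sum_le_sum_abs _ _).trans ?_
      have h1 : D.T ^ 2 * D.nR S lam i u =
          ∑ z ∈ D.A i ∩ D.U1 S lam, if u ∈ D.R z then D.T ^ 2 else 0 := by
        rw [← Finset.sum_filter, Finset.sum_const, nsmul_eq_mul, mul_comm]
        rfl
      rw [h1]
      refine Finset.sum_le_sum fun z _ => ?_
      split_ifs with h2 h3 h3
      · rw [abs_mul, sq]
        exact mul_le_mul (v_abs hD hI hm.le z c) (K_abs hD u z) (abs_nonneg _) hT0.le
      · rw [K_off' hD z u h3, mul_zero, abs_zero]
      · rw [abs_zero]; positivity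
      · rw [abs_zero]
    · rw [abs_zero]
  refine evY_core hD hI hm hA _ (fun u c => (hY u c).trans ?_) ?_
  · split_ifs
    · calc D.nc S i c * (D.T ^ 2 * D.nR S lam i u) ≤ D.T ^ 154 * (D.T ^ 2 * D.T ^ 1603) := by
            have h1 := nc_le hD hI hm hi c
            have h2 := nR_le S lam hi u
            have h3 := nR_nonneg (D := D) S lam i u
            gcongr
        _ = D.T ^ 1759 := by rw [← pow_add, ← pow_add]
        _ ≤ D.T ^ 2440 := pow_le_pow_right₀ hT1 (by norm_num)
    · positivity
  · have h1 : ∀ u, ∑ c, D.p S lam u c * D.Y12 S lam i u c ^ 2 ≤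
        if u ∈ D.LL S lam then (1 / D.T ^ 3997 * D.T ^ 3364) * D.nR S lam i u else 0 := by
      intro u
      by_cases hu : u ∈ D.LL S lam
      · rw [if_pos hu]
        have h2 : ∀ c, D.p S lam u c * D.Y12 S lam i u c ^ 2 ≤
            (1 / D.T ^ 3997 * (D.T ^ 154 * (D.T ^ 4 * D.T ^ 1603)) * D.nR S lam i u) *
              D.nc S i c := by
          intro c
          have h3 := hY u c
          rw [if_pos hu] at h3
          have h4 : D.Y12 S lam i u c ^ 2 ≤ (D.nc S i c * (D.T ^ 2 * D.nR S lam i u)) ^ 2 := by
            rw [← sq_abs]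
            exact pow_le_pow_left₀ (abs_nonneg _) h3 2
          have h5 : (D.nc S i c * (D.T ^ 2 * D.nR S lam i u)) ^ 2 ≤
              (D.T ^ 154 * (D.T ^ 4 * D.T ^ 1603) * D.nR S lam i u) * D.nc S i c := by
            have h6 := nc_le hD hI hm hi c
            have h7 := nR_le S lam hi u
            have h8 := nR_nonneg (D := D) S lam i u
            have h9 := nc_nonneg (D := D) S i c
            calc (D.nc S i c * (D.T ^ 2 * D.nR S lam i u)) ^ 2 =
                (D.nc S i c * (D.T ^ 4 * D.nR S lam i u) * D.nR S lam i u) * D.nc S i c := by ring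
              _ ≤ (D.T ^ 154 * (D.T ^ 4 * D.T ^ 1603) * D.nR S lam i u) * D.nc S i c := by
                  gcongr
          have h10 : D.p S lam u c ≤ 1 / D.T ^ 3997 :=
            (p_le hD hI hm.le lam u c).trans (two_T_div_k hD)
          calc D.p S lam u c * D.Y12 S lam i u c ^ 2 ≤ 1 / D.T ^ 3997 *
              ((D.T ^ 154 * (D.T ^ 4 * D.T ^ 1603) * D.nR S lam i u) * D.nc S i c) :=
                mul_le_mul h10 (h4.trans h5) (sq_nonneg _) (by positivity)
            _ = _ := by ring
        calc ∑ c, D.p S lam u c * D.Y12 S lam i u c ^ 2 ≤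
            ∑ c, (1 / D.T ^ 3997 * (D.T ^ 154 * (D.T ^ 4 * D.T ^ 1603)) * D.nR S lam i u) *
              D.nc S i c := Finset.sum_le_sum fun c _ => h2 c
          _ = (1 / D.T ^ 3997 * (D.T ^ 154 * (D.T ^ 4 * D.T ^ 1603)) * D.nR S lam i u) *
              ∑ c, D.nc S i c := by rw [Finset.mul_sum]
          _ ≤ (1 / D.T ^ 3997 * (D.T ^ 154 * (D.T ^ 4 * D.T ^ 1603)) * D.nR S lam i u) *
              D.T ^ 1603 := by
              have h11 := sum_nc S hi
              have h8 := nR_nonneg (D := D) S lam i u
              gcongr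
          _ = (1 / D.T ^ 3997 * (D.T ^ 154 * (D.T ^ 4 * D.T ^ 1603) * D.T ^ 1603)) *
              D.nR S lam i u := by ring
          _ = _ := by rw [← pow_add, ← pow_add, ← pow_add]
      · rw [if_neg hu]
        refine le_of_eq (Finset.sum_eq_zero fun c _ => ?_)
        unfold Y12
        rw [if_neg hu]
        ring
    calc _ ≤ ∑ u, (if u ∈ D.LL S lam then (1 / D.T ^ 3997 * D.T ^ 3364) * D.nR S lam i u
          else 0) := Finset.sum_le_sum fun u _ => h1 u
      _ = (1 / D.T ^ 3997 * D.T ^ 3364) * ∑ u ∈ D.LL S lam, D.nR S lam i u := by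
          rw [← Finset.sum_filter, Finset.filter_mem_eq_inter, Finset.univ_inter, Finset.mul_sum]
      _ ≤ (1 / D.T ^ 3997 * D.T ^ 3364) * D.T ^ 5488 := by
          have := sum_nR hD hI hm hA hi
          gcongr
      _ ≤ D.T ^ 4870 := by
          rw [one_div_mul_eq_div, div_mul_eq_mul_div, ← pow_add, div_le_iff₀ (by positivity),
            ← pow_add]
          exact pow_le_pow_right₀ hT1 (by norm_num)

theorem e13_tail (i : ι) (hi : ((D.A i).card : ℝ) ≤ D.T ^ 1603) : Pr (D.p S lam)
    (fun ω => ¬ |D.cen S lam (D.Y13 S lam i) ω| ≤ D.T ^ 2500) ≤ Real.exp (-D.T) := by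
  have hT := hD.big.big
  have hT0 := hD.big.pos
  have hT1 := hD.big.one_le
  have hp := p_isPM hD hI hm.le lam
  have hY : ∀ u c, |D.Y13 S lam i u c| ≤ if u ∈ D.A i ∩ Sel S.col lam true then
      D.T ^ 1605 else 0 := by
    intro u c
    unfold Y13
    split_ifs with hu
    · refine (Finset.abs_sum_le_sum_abs _ _).trans ?_
      calc ∑ z ∈ D.A i ∩ D.U1 S lam, |if S.al z c then S.v z c * D.chi z u else 0|
          ≤ ∑ _z ∈ D.A i ∩ D.U1 S lam, D.T ^ 2 := by
            refine Finset.sum_le_sum fun z _ => ?_
            split_ifs with h2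
            · rw [abs_mul, sq, abs_of_nonneg (chi_nonneg hD z u)]
              exact mul_le_mul (v_abs hD hI hm.le z c) (chi_le hD z u) (chi_nonneg hD z u) hT0.le
            · rw [abs_zero]; positivity
        _ = ((D.A i ∩ D.U1 S lam).card : ℝ) * D.T ^ 2 := by
            rw [Finset.sum_const, nsmul_eq_mul]
        _ ≤ D.T ^ 1603 * D.T ^ 2 := by
            have h3 : ((D.A i ∩ D.U1 S lam).card : ℝ) ≤ D.T ^ 1603 := by
              refine le_trans ?_ hi
              exact_mod_cast Finset.card_le_card Finset.inter_subset_left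
            gcongr
        _ = D.T ^ 1605 := by rw [← pow_add]
    · rw [abs_zero]
  refine evY_core hD hI hm hA _ (fun u c => (hY u c).trans ?_) ?_
  · split_ifs
    · exact pow_le_pow_right₀ hT1 (by norm_num)
    · positivity
  · have h1 : ∀ u, ∑ c, D.p S lam u c * D.Y13 S lam i u c ^ 2 ≤
        if u ∈ D.A i ∩ Sel S.col lam true then D.T ^ 3210 else 0 := by
      intro u
      by_cases hu : u ∈ D.A i ∩ Sel S.col lam true
      · rw [if_pos hu]
        calc ∑ c, D.p S lam u c * D.Y13 S lam i u c ^ 2 ≤ ∑ c, D.p S lam u c * D.T ^ 3210 := by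
              refine Finset.sum_le_sum fun c _ => mul_le_mul_of_nonneg_left ?_ (hp.nonneg u c)
              have h3 := hY u c
              rw [if_pos hu] at h3
              calc D.Y13 S lam i u c ^ 2 = |D.Y13 S lam i u c| ^ 2 := (sq_abs _).symm
                _ ≤ (D.T ^ 1605) ^ 2 := pow_le_pow_left₀ (abs_nonneg _) h3 2
                _ = D.T ^ 3210 := by rw [← pow_mul]
          _ = D.T ^ 3210 := by rw [← Finset.sum_mul, hp.sum_one, one_mul]
      · rw [if_neg hu]
        refine le_of_eq (Finset.sum_eq_zero fun c _ => ?_)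
        unfold Y13
        rw [if_neg hu]
        ring
    calc _ ≤ ∑ u, (if u ∈ D.A i ∩ Sel S.col lam true then D.T ^ 3210 else 0) :=
          Finset.sum_le_sum fun u _ => h1 u
      _ = ((D.A i ∩ Sel S.col lam true).card : ℝ) * D.T ^ 3210 := by
          rw [← Finset.sum_filter, Finset.filter_mem_eq_inter, Finset.univ_inter,
            Finset.sum_const, nsmul_eq_mul]
      _ ≤ D.T ^ 1471 * D.T ^ 3210 := by
          have := AS_card hD hI hm hA i hi
          gcongr
      _ = D.T ^ 4681 := by rw [← pow_add]
      _ ≤ D.T ^ 4870 := pow_le_pow_right₀ hT1 (by norm_num)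

theorem evY_exp {T : ℝ} (hT : 0 ≤ T) : Real.exp (-(2 * T)) ≤ Real.exp (-T) :=
  Real.exp_le_exp.mpr (by linarith)

theorem e16_tail (i : ι) (hi : ((D.A i).card : ℝ) ≤ D.T ^ 1603) (c : Fin D.k) :
    Pr (D.p S lam) (fun ω =>
      ¬ (((D.A i ∩ Sel S.col lam true).filter fun z => ω z = c).card : ℝ) ≤ D.T ^ 4) ≤
      Real.exp (-D.T) := by
  have hT0 := hD.big.pos
  have hT1 := hD.big.one_le
  have hp := p_isPM hD hI hm.le lam
  have hAS := AS_card hD hI hm hA i hi
  have ht := single_tail hD.big hp (fun u c' => if u ∈ D.A i ∩ Sel S.col lam true ∧ c' = c then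
    (1 : ℝ) else 0) (fun u c' => by split_ifs <;> norm_num) 1 one_pos
    (by
      calc ∑ u, ∑ c', (if u ∈ D.A i ∩ Sel S.col lam true ∧ c' = c then (1 : ℝ) else 0) *
            D.p S lam u c' ≤ ∑ u, (if u ∈ D.A i ∩ Sel S.col lam true then 1 / D.T ^ 3997
              else 0) := by
            refine Finset.sum_le_sum fun u _ => ?_
            split_ifs with hu
            · rw [Finset.sum_eq_single c]
              · simp only [hu, and_self, if_true, one_mul]
                exact (p_le hD hI hm.le lam u c).trans (two_T_div_k hD)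
              · intro c' _ hc'
                simp [hc']
              · intro h; exact absurd (mem_univ _) h
            · simp [hu]
        _ = ((D.A i ∩ Sel S.col lam true).card : ℝ) * (1 / D.T ^ 3997) := by
            rw [← Finset.sum_filter, Finset.filter_mem_eq_inter, Finset.univ_inter,
              Finset.sum_const, nsmul_eq_mul]
        _ ≤ D.T ^ 1471 * (1 / D.T ^ 3997) := by gcongr
        _ ≤ 1 := by
            rw [mul_one_div, div_le_one (by positivity)]
            exact pow_le_pow_right₀ hT1 (by norm_num))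
    (fun u c' => by split_ifs <;> norm_num)
  refine (Pr_mono hp fun ω hω => ?_).trans (ht.trans (evY_exp hD hI hm hA hT0.le))
  rw [mul_one]
  refine (not_le.1 hω).le.trans (le_of_eq ?_)
  rw [Finset.card_filter, ← Finset.sum_filter]
  push_cast
  rw [← Finset.sum_filter]
  refine Finset.sum_congr ?_ fun _ _ => rfl
  ext z
  simp only [mem_filter, mem_univ, true_and]

theorem e15_tail (i : ι) (hi : ((D.A i).card : ℝ) ≤ D.T ^ 1603) : Pr (D.p S lam)
    (fun ω => ¬ ∑ z ∈ D.A i ∩ D.U1 S lam, ∑ u ∈ D.R z ∩ D.LL S lam, D.nc S i (ω u) ≤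
      D.T ^ 3100) ≤ Real.exp (-D.T) := by
  have hT0 := hD.big.pos
  have hT1 := hD.big.one_le
  have hp := p_isPM hD hI hm.le lam
  have ht := single_tail hD.big hp (fun u c => if u ∈ D.LL S lam then
    D.nR S lam i u * D.nc S i c else 0) (fun u c => by
      split_ifs
      · exact mul_nonneg (nR_nonneg S lam i u) (nc_nonneg S i c)
      · exact le_rfl) (D.T ^ 3095) (by positivity)
    (by
      calc ∑ u, ∑ c, (if u ∈ D.LL S lam then D.nR S lam i u * D.nc S i c else 0) *
            D.p S lam u c ≤ ∑ u, (if u ∈ D.LL S lam then (1 / D.T ^ 3997 * D.T ^ 1603) *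
              D.nR S lam i u else 0) := by
            refine Finset.sum_le_sum fun u _ => ?_
            split_ifs with hu
            · calc ∑ c, D.nR S lam i u * D.nc S i c * D.p S lam u c ≤
                  ∑ c, (D.nR S lam i u * (1 / D.T ^ 3997)) * D.nc S i c := by
                    refine Finset.sum_le_sum fun c _ => ?_
                    have h1 : D.p S lam u c ≤ 1 / D.T ^ 3997 :=
                      (p_le hD hI hm.le lam u c).trans (two_T_div_k hD)
                    have h2 := mul_le_mul_of_nonneg_left h1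
                      (mul_nonneg (nR_nonneg S lam i u) (nc_nonneg S i c))
                    linarith
                _ = (D.nR S lam i u * (1 / D.T ^ 3997)) * ∑ c, D.nc S i c := by
                    rw [Finset.mul_sum]
                _ ≤ (D.nR S lam i u * (1 / D.T ^ 3997)) * D.T ^ 1603 := by
                    have h3 := sum_nc S hi
                    have h4 := nR_nonneg (D := D) S lam i u
                    gcongr
                _ = _ := by ring
            · simp
        _ = (1 / D.T ^ 3997 * D.T ^ 1603) * ∑ u ∈ D.LL S lam, D.nR S lam i u := by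
            rw [← Finset.sum_filter, Finset.filter_mem_eq_inter, Finset.univ_inter,
              Finset.mul_sum]
        _ ≤ (1 / D.T ^ 3997 * D.T ^ 1603) * D.T ^ 5488 := by
            have := sum_nR hD hI hm hA hi
            gcongr
        _ ≤ D.T ^ 3095 := by
            rw [one_div_mul_eq_div, div_mul_eq_mul_div, ← pow_add, div_le_iff₀ (by positivity),
              ← pow_add]
            exact pow_le_pow_right₀ hT1 (by norm_num))
    (fun u c => by
      split_ifs
      · calc D.nR S lam i u * D.nc S i c ≤ D.T ^ 1603 * D.T ^ 154 := by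
              have h1 := nc_le hD hI hm hi c
              have h2 := nR_le S lam hi u
              have h3 := nc_nonneg (D := D) S i c
              gcongr
          _ = D.T ^ 1757 := by rw [← pow_add]
          _ ≤ _ := pow_le_pow_right₀ hT1 (by norm_num)
      · positivity)
  refine (Pr_mono hp fun ω hω => ?_).trans (ht.trans (evY_exp hD hI hm hA hT0.le))
  have h1 : D.T ^ 4 * D.T ^ 3095 ≤ D.T ^ 3100 := by
    rw [← pow_add]
    exact pow_le_pow_right₀ hT1 (by norm_num)
  refine (h1.trans (not_le.1 hω).le).trans (le_of_eq ?_)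
  have h2 : ∀ u, (if u ∈ D.LL S lam then D.nR S lam i u * D.nc S i (ω u) else 0) =
      ∑ z ∈ D.A i ∩ D.U1 S lam, if u ∈ D.R z ∧ u ∈ D.LL S lam then D.nc S i (ω u) else 0 := by
    intro u
    by_cases hu : u ∈ D.LL S lam
    · simp only [hu, and_true, if_true]
      rw [← Finset.sum_filter, Finset.sum_const, nsmul_eq_mul]
      rfl
    · simp [hu]
  simp only [h2]
  rw [Finset.sum_comm]
  refine Finset.sum_congr rfl fun z _ => ?_
  rw [← Finset.sum_filter]
  refine Finset.sum_congr ?_ fun _ _ => rfl
  ext u
  simp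

theorem pw_half {a b : ℕ} (h : a + 1 ≤ b) : D.T ^ a ≤ D.T ^ b / 2 := by
  have hT := hD.big.big
  have hT0 := hD.big.pos
  have h1 : D.T ^ (a + 1) ≤ D.T ^ b := hD.big.pw h
  have h2 : 0 < D.T ^ a := by positivity
  rw [pow_succ] at h1
  nlinarith

theorem e14_tail (i : ι) (hi : ((D.A i).card : ℝ) ≤ D.T ^ 1603) : Pr (D.p S lam)
    (fun ω => ¬ ((((D.A i ∩ D.U1 S lam) ×ˢ (D.A i ∩ Sel S.col lam true) ×ˢ D.LL S lam).filter
      fun e => e.2.2 ∈ D.R e.1 ∧ e.2.2 ≠ e.2.1 ∧ ω e.2.1 = ω e.2.2).card : ℝ) ≤
        D.T ^ 2970) ≤ Real.exp (-D.T) := by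
  have hT0 := hD.big.pos
  have hT1 := hD.big.one_le
  have hp := p_isPM hD hI hm.le lam
  have hAS := AS_card hD hI hm hA i hi
  have hnR := sum_nR hD hI hm hA hi
  have ht := pair_tail hD.big hp (1 / D.T ^ 3997) (by positivity)
    (fun u c => (p_le hD hI hm.le lam u c).trans (two_T_div_k hD))
    (fun u u' _ => if u ∈ D.A i ∩ Sel S.col lam true ∧ u' ∈ D.LL S lam ∧ u' ≠ u then
      D.nR S lam i u' else 0)
    (fun u u' _ => by
      split_ifs
      · exact nR_nonneg S lam i u'
      · exact le_rfl) (fun u c => by simp) (D.T ^ 2965) (by positivity)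
    (by
      calc ∑ u, ∑ u', ∑ _c : Fin D.k, (if u ∈ D.A i ∩ Sel S.col lam true ∧ u' ∈ D.LL S lam ∧
            u' ≠ u then D.nR S lam i u' else 0) * (1 / D.T ^ 3997) ^ 2
          ≤ ∑ u, if u ∈ D.A i ∩ Sel S.col lam true then
              D.T ^ 5488 * (D.T ^ 4000 * (1 / D.T ^ 3997) ^ 2) else 0 := by
            refine Finset.sum_le_sum fun u _ => ?_
            split_ifs with hu
            · calc ∑ u', ∑ _c : Fin D.k, (if u ∈ D.A i ∩ Sel S.col lam true ∧
                  u' ∈ D.LL S lam ∧ u' ≠ u then D.nR S lam i u' else 0) * (1 / D.T ^ 3997) ^ 2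
                  ≤ ∑ u', (if u' ∈ D.LL S lam then D.nR S lam i u' *
                    (D.T ^ 4000 * (1 / D.T ^ 3997) ^ 2) else 0) := by
                    refine Finset.sum_le_sum fun u' _ => ?_
                    rw [Finset.sum_const, card_univ, Fintype.card_fin, nsmul_eq_mul]
                    have hk := hD.k_hi
                    have hn := nR_nonneg (D := D) S lam i u'
                    by_cases h1 : u' ∈ D.LL S lam
                    · rw [if_pos h1]
                      split_ifs
                      · calc (D.k : ℝ) * (D.nR S lam i u' * (1 / D.T ^ 3997) ^ 2) =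
                              D.nR S lam i u' * (D.k * (1 / D.T ^ 3997) ^ 2) := by ring
                          _ ≤ _ := by gcongr
                      · rw [zero_mul, mul_zero]
                        positivity
                    · rw [if_neg h1, if_neg (fun h => h1 h.2.1), zero_mul, mul_zero]
                _ = (∑ u' ∈ D.LL S lam, D.nR S lam i u') *
                    (D.T ^ 4000 * (1 / D.T ^ 3997) ^ 2) := by
                    rw [← Finset.sum_filter, Finset.filter_mem_eq_inter, Finset.univ_inter,
                      Finset.sum_mul]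
                _ ≤ _ := by gcongr
            · refine le_of_eq (Finset.sum_eq_zero fun u' _ => Finset.sum_eq_zero fun c _ => ?_)
              rw [if_neg (fun h => hu h.1), zero_mul]
        _ = ((D.A i ∩ Sel S.col lam true).card : ℝ) *
            (D.T ^ 5488 * (D.T ^ 4000 * (1 / D.T ^ 3997) ^ 2)) := by
            rw [← Finset.sum_filter, Finset.filter_mem_eq_inter, Finset.univ_inter,
              Finset.sum_const, nsmul_eq_mul]
        _ ≤ D.T ^ 1471 * (D.T ^ 5488 * (D.T ^ 4000 * (1 / D.T ^ 3997) ^ 2)) := by gcongr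
        _ = D.T ^ 2965 := by
            rw [div_pow, one_pow, ← pow_mul, mul_one_div, mul_div_assoc', mul_div_assoc',
              div_eq_iff (by positivity), ← pow_add, ← pow_add, ← pow_add])
    (fun u c => by
      calc ∑ u', (if u ∈ D.A i ∩ Sel S.col lam true ∧ u' ∈ D.LL S lam ∧ u' ≠ u then
            D.nR S lam i u' else 0) * (1 / D.T ^ 3997)
          ≤ ∑ u', (if u' ∈ D.LL S lam then D.nR S lam i u' * (1 / D.T ^ 3997) else 0) := by
            refine Finset.sum_le_sum fun u' _ => ?_
            have hn := nR_nonneg (D := D) S lam i u'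
            by_cases h2 : u' ∈ D.LL S lam
            · rw [if_pos h2]
              split_ifs
              · exact le_rfl
              · rw [zero_mul]; positivity
            · rw [if_neg h2, if_neg (fun h => h2 h.2.1), zero_mul]
        _ = (∑ u' ∈ D.LL S lam, D.nR S lam i u') * (1 / D.T ^ 3997) := by
            rw [← Finset.sum_filter, Finset.filter_mem_eq_inter, Finset.univ_inter,
              Finset.sum_mul]
        _ ≤ D.T ^ 5488 * (1 / D.T ^ 3997) := by gcongr
        _ = D.T ^ 1491 := by
            rw [mul_one_div, div_eq_iff (by positivity), ← pow_add]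
        _ ≤ _ := pw_half hD hI hm hA (by norm_num))
    (fun u c => by
      calc ∑ u', (if u' ∈ D.A i ∩ Sel S.col lam true ∧ u ∈ D.LL S lam ∧ u ≠ u' then
            D.nR S lam i u else 0) * (1 / D.T ^ 3997)
          ≤ ∑ u', (if u' ∈ D.A i ∩ Sel S.col lam true then D.T ^ 1603 * (1 / D.T ^ 3997)
              else 0) := by
            refine Finset.sum_le_sum fun u' _ => ?_
            have hn := nR_le (D := D) S lam hi u
            by_cases h2 : u' ∈ D.A i ∩ Sel S.col lam true
            · rw [if_pos h2]
              split_ifs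
              · gcongr
              · rw [zero_mul]; positivity
            · rw [if_neg h2, if_neg (fun h => h2 h.1), zero_mul]
        _ = ((D.A i ∩ Sel S.col lam true).card : ℝ) * (D.T ^ 1603 * (1 / D.T ^ 3997)) := by
            rw [← Finset.sum_filter, Finset.filter_mem_eq_inter, Finset.univ_inter,
              Finset.sum_const, nsmul_eq_mul]
        _ ≤ D.T ^ 1471 * (D.T ^ 1603 * (1 / D.T ^ 3997)) := by gcongr
        _ ≤ D.T ^ 0 := by
            rw [mul_one_div, mul_div_assoc', div_le_iff₀ (by positivity), ← pow_add, ← pow_add]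
            exact pow_le_pow_right₀ hT1 (by norm_num)
        _ ≤ _ := pw_half hD hI hm hA (by norm_num))
    (fun u u' c => by
      have h1 := nR_le S lam hi u'
      have h2 := pw_half hD hI hm hA (a := 1603) (b := 2965) (by norm_num)
      have h3 : 0 < D.T ^ 2965 := by positivity
      split_ifs
      · linarith
      · linarith)
  refine (Pr_mono hp fun ω hω => ?_).trans (ht.trans (evY_exp hD hI hm hA hT0.le))
  have h1 : D.T ^ 4 * D.T ^ 2965 ≤ D.T ^ 2970 := by
    rw [← pow_add]
    exact pow_le_pow_right₀ hT1 (by norm_num)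
  refine (h1.trans (not_le.1 hω).le).trans (le_of_eq ?_)
  rw [Finset.card_filter]
  push_cast
  rw [Finset.sum_product]
  simp only [Finset.sum_product]
  rw [Finset.sum_comm]
  have h2 : ∀ u, (∑ u', if ω u = ω u' then (if u ∈ D.A i ∩ Sel S.col lam true ∧
      u' ∈ D.LL S lam ∧ u' ≠ u then D.nR S lam i u' else 0) else 0) =
      if u ∈ D.A i ∩ Sel S.col lam true then ∑ z ∈ D.A i ∩ D.U1 S lam, ∑ u' ∈ D.LL S lam,
        (if u' ∈ D.R z ∧ u' ≠ u ∧ ω u = ω u' then (1 : ℝ) else 0) else 0 := by
    intro u
    by_cases hu : u ∈ D.A i ∩ Sel S.col lam true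
    · rw [if_pos hu, Finset.sum_comm]
      rw [← Finset.sum_subset (Finset.subset_univ (D.LL S lam))]
      · refine Finset.sum_congr rfl fun u' hu' => ?_
        by_cases h3 : ω u = ω u'
        · by_cases h4 : u' ≠ u
          · rw [if_pos h3, if_pos ⟨hu, hu', h4⟩]
            unfold nR
            rw [Finset.card_filter]
            push_cast
            refine Finset.sum_congr rfl fun z _ => ?_
            by_cases h5 : u' ∈ D.R z
            · rw [if_pos h5, if_pos ⟨h5, h4, h3⟩]
            · rw [if_neg h5, if_neg (fun h => h5 h.1)]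
          · rw [if_pos h3, if_neg (fun h => h4 h.2.2)]
            refine (Finset.sum_eq_zero fun z _ => ?_).symm
            rw [if_neg (fun h => h4 h.2.1)]
        · rw [if_neg h3]
          refine (Finset.sum_eq_zero fun z _ => ?_).symm
          rw [if_neg (fun h => h3 h.2.2)]
      · intro u' _ hu'
        rw [if_neg (fun h : _ ∧ _ ∧ _ => hu' h.2.1), ite_self]
    · rw [if_neg hu]
      refine Finset.sum_eq_zero fun u' _ => ?_
      rw [if_neg (fun h : _ ∧ _ ∧ _ => hu h.1), ite_self]
  simp only [h2]
  rw [← Finset.sum_filter, Finset.filter_mem_eq_inter, Finset.univ_inter]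

omit hD hI hm hA in
/-- The number of uncoloured vertices of the tested set which are related to `u` and `u'`. -/
noncomputable def nR2 (D : NibData Q ι) (S : NState Q D.k) (lam : Q → Option Bool) (i : ι)
    (u u' : Q) : ℝ :=
  (((D.A i ∩ D.U1 S lam).filter fun z => u ∈ D.R z ∧ u' ∈ D.R z).card : ℝ)

omit hD hI hm hA in
theorem nR2_nonneg (S : NState Q D.k) (lam : Q → Option Bool) (i : ι) (u u' : Q) :
    0 ≤ D.nR2 S lam i u u' := Nat.cast_nonneg _

omit hD hI hm hA in
theorem nR2_symm (S : NState Q D.k) (lam : Q → Option Bool) (i : ι) (u u' : Q) :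
    D.nR2 S lam i u u' = D.nR2 S lam i u' u := by
  unfold nR2
  simp only [and_comm]

omit hD hI hm hA in
theorem nR2_le (S : NState Q D.k) (lam : Q → Option Bool) {i : ι}
    (hi : ((D.A i).card : ℝ) ≤ D.T ^ 1603) (u u' : Q) : D.nR2 S lam i u u' ≤ D.T ^ 1603 := by
  refine le_trans ?_ hi
  unfold nR2
  exact_mod_cast Finset.card_le_card ((Finset.filter_subset _ _).trans Finset.inter_subset_left)

theorem sum_nR2 (i : ι) (u : Q) :
    ∑ u' ∈ D.LL S lam, D.nR2 S lam i u u' ≤ D.T ^ 3885 * D.nR S lam i u := by
  have h2 : ∀ u', D.nR2 S lam i u u' = ∑ z ∈ D.A i ∩ D.U1 S lam,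
      if u ∈ D.R z ∧ u' ∈ D.R z then (1 : ℝ) else 0 := by
    intro u'
    rw [← Finset.sum_filter, Finset.sum_const, nsmul_eq_mul, mul_one]
    rfl
  have h3 : D.T ^ 3885 * D.nR S lam i u =
      ∑ z ∈ D.A i ∩ D.U1 S lam, if u ∈ D.R z then D.T ^ 3885 else 0 := by
    rw [← Finset.sum_filter, Finset.sum_const, nsmul_eq_mul, mul_comm]
    rfl
  simp only [h2]
  rw [h3, Finset.sum_comm]
  refine Finset.sum_le_sum fun z _ => ?_
  by_cases hu : u ∈ D.R z
  · simp only [hu, true_and, if_true]
    rw [← Finset.sum_filter, Finset.sum_const, nsmul_eq_mul, mul_one]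
    have h4 := RV_card hD hI hm hA z
    refine le_trans (le_of_eq ?_) h4
    congr 2
    ext u'
    simp only [mem_filter, mem_inter]
    tauto
  · simp [hu]

theorem e17_tail (i : ι) (hi : ((D.A i).card : ℝ) ≤ D.T ^ 1603) : Pr (D.p S lam)
    (fun ω => ¬ ∑ z ∈ D.A i ∩ D.U1 S lam, ∑ c, D.nc S i c *
      ((D.J S lam ω z c : ℝ) * ((D.J S lam ω z c : ℝ) - 1)) ≤ D.T ^ 2990) ≤
      Real.exp (-D.T) := by
  have hT0 := hD.big.pos
  have hT1 := hD.big.one_le
  have hp := p_isPM hD hI hm.le lam
  have hnR := sum_nR hD hI hm hA hi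
  let g : Q → Q → Fin D.k → ℝ := fun u u' c => if u ≠ u' ∧ u ∈ D.LL S lam ∧ u' ∈ D.LL S lam then
    D.nc S i c * D.nR2 S lam i u u' else 0
  have hg0 : ∀ u u' c, 0 ≤ g u u' c := by
    intro u u' c
    simp only [g]
    split_ifs
    · exact mul_nonneg (nc_nonneg S i c) (nR2_nonneg S lam i u u')
    · exact le_rfl
  have hgs : ∀ u u' c, g u u' c = g u' u c := by
    intro u u' c
    simp only [g]
    rw [nR2_symm]
    by_cases h : u ≠ u' ∧ u ∈ D.LL S lam ∧ u' ∈ D.LL S lam
    · rw [if_pos h, if_pos ⟨h.1.symm, h.2.2, h.2.1⟩]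
    · rw [if_neg h, if_neg]
      rintro ⟨h1, h2, h3⟩
      exact h ⟨h1.symm, h3, h2⟩
  have hg1 : ∀ u c, ∑ u', g u u' c * (1 / D.T ^ 3997) ≤ D.T ^ 2985 / 2 := by
    intro u c
    calc ∑ u', g u u' c * (1 / D.T ^ 3997)
        ≤ ∑ u', (if u' ∈ D.LL S lam then D.nR2 S lam i u u' * (D.T ^ 154 * (1 / D.T ^ 3997))
            else 0) := by
          refine Finset.sum_le_sum fun u' _ => ?_
          have h1 := nc_le hD hI hm hi c
          have h3 := nR2_nonneg (D := D) S lam i u u'
          simp only [g]
          by_cases h2 : u' ∈ D.LL S lam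
          · rw [if_pos h2]
            split_ifs
            · calc D.nc S i c * D.nR2 S lam i u u' * (1 / D.T ^ 3997) =
                    D.nR2 S lam i u u' * (D.nc S i c * (1 / D.T ^ 3997)) := by ring
                _ ≤ _ := by gcongr
            · rw [zero_mul]; positivity
          · rw [if_neg h2, if_neg (fun h => h2 h.2.2), zero_mul]
      _ = (∑ u' ∈ D.LL S lam, D.nR2 S lam i u u') * (D.T ^ 154 * (1 / D.T ^ 3997)) := by
          rw [← Finset.sum_filter, Finset.filter_mem_eq_inter, Finset.univ_inter,
            Finset.sum_mul]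
      _ ≤ (D.T ^ 3885 * D.T ^ 1603) * (D.T ^ 154 * (1 / D.T ^ 3997)) := by
          have h1 := sum_nR2 hD hI hm hA i u
          have h2 := nR_le S lam hi u
          have h4 : ∑ u' ∈ D.LL S lam, D.nR2 S lam i u u' ≤ D.T ^ 3885 * D.T ^ 1603 :=
            h1.trans (by gcongr)
          gcongr
      _ = D.T ^ 1645 := by
          rw [mul_one_div, mul_div_assoc', div_eq_iff (by positivity), ← pow_add, ← pow_add,
            ← pow_add]
      _ ≤ _ := pw_half hD hI hm hA (by norm_num)
  have ht := pair_tail hD.big hp (1 / D.T ^ 3997) (by positivity)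
    (fun u c => (p_le hD hI hm.le lam u c).trans (two_T_div_k hD)) g hg0
    (fun u c => by simp [g]) (D.T ^ 2985) (by positivity)
    (by
      calc ∑ u, ∑ u', ∑ c, g u u' c * (1 / D.T ^ 3997) ^ 2
          ≤ ∑ u, if u ∈ D.LL S lam then
              D.nR S lam i u * (D.T ^ 3885 * (D.T ^ 1603 * (1 / D.T ^ 3997) ^ 2)) else 0 := by
            refine Finset.sum_le_sum fun u _ => ?_
            by_cases hu : u ∈ D.LL S lam
            · rw [if_pos hu]
              calc ∑ u', ∑ c, g u u' c * (1 / D.T ^ 3997) ^ 2
                  ≤ ∑ u', (if u' ∈ D.LL S lam then D.nR2 S lam i u u' *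
                    (D.T ^ 1603 * (1 / D.T ^ 3997) ^ 2) else 0) := by
                    refine Finset.sum_le_sum fun u' _ => ?_
                    have hn := nR2_nonneg (D := D) S lam i u u'
                    by_cases h1 : u' ∈ D.LL S lam
                    · rw [if_pos h1]
                      calc ∑ c, g u u' c * (1 / D.T ^ 3997) ^ 2
                          ≤ ∑ c, (D.nR2 S lam i u u' * (1 / D.T ^ 3997) ^ 2) * D.nc S i c := by
                            refine Finset.sum_le_sum fun c _ => ?_
                            have hc := nc_nonneg (D := D) S i c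
                            simp only [g]
                            split_ifs
                            · exact le_of_eq (by ring)
                            · rw [zero_mul]; positivity
                        _ = (D.nR2 S lam i u u' * (1 / D.T ^ 3997) ^ 2) * ∑ c, D.nc S i c := by
                            rw [Finset.mul_sum]
                        _ ≤ (D.nR2 S lam i u u' * (1 / D.T ^ 3997) ^ 2) * D.T ^ 1603 := by
                            have := sum_nc S hi
                            gcongr
                        _ = _ := by ring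
                    · rw [if_neg h1]
                      refine le_of_eq (Finset.sum_eq_zero fun c _ => ?_)
                      simp only [g]
                      rw [if_neg (fun h => h1 h.2.2), zero_mul]
                _ = (∑ u' ∈ D.LL S lam, D.nR2 S lam i u u') *
                    (D.T ^ 1603 * (1 / D.T ^ 3997) ^ 2) := by
                    rw [← Finset.sum_filter, Finset.filter_mem_eq_inter, Finset.univ_inter,
                      Finset.sum_mul]
                _ ≤ (D.T ^ 3885 * D.nR S lam i u) * (D.T ^ 1603 * (1 / D.T ^ 3997) ^ 2) := by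
                    have := sum_nR2 hD hI hm hA i u
                    gcongr
                _ = _ := by ring
            · rw [if_neg hu]
              refine le_of_eq (Finset.sum_eq_zero fun u' _ => Finset.sum_eq_zero fun c _ => ?_)
              simp only [g]
              rw [if_neg (fun h => hu h.2.1), zero_mul]
        _ = (∑ u ∈ D.LL S lam, D.nR S lam i u) *
            (D.T ^ 3885 * (D.T ^ 1603 * (1 / D.T ^ 3997) ^ 2)) := by
            rw [← Finset.sum_filter, Finset.filter_mem_eq_inter, Finset.univ_inter,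
              Finset.sum_mul]
        _ ≤ D.T ^ 5488 * (D.T ^ 3885 * (D.T ^ 1603 * (1 / D.T ^ 3997) ^ 2)) := by gcongr
        _ = D.T ^ 2982 := by
            rw [div_pow, one_pow, ← pow_mul, mul_one_div, mul_div_assoc', mul_div_assoc',
              div_eq_iff (by positivity), ← pow_add, ← pow_add, ← pow_add]
        _ ≤ _ := pow_le_pow_right₀ hT1 (by norm_num))
    hg1 (fun u c => by
      refine le_trans (le_of_eq ?_) (hg1 u c)
      exact Finset.sum_congr rfl fun u' _ => by rw [hgs])
    (fun u u' c => by
      have h1 := nR2_le S lam hi u u'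
      have h1' := nR2_nonneg (D := D) S lam i u u'
      have h4 := nc_le hD hI hm hi c
      have h4' := nc_nonneg (D := D) S i c
      have h2 := pw_half hD hI hm hA (a := 1757) (b := 2985) (by norm_num)
      have h3 : 0 < D.T ^ 2985 := by positivity
      simp only [g]
      split_ifs
      · calc D.nc S i c * D.nR2 S lam i u u' ≤ D.T ^ 154 * D.T ^ 1603 := by gcongr
          _ = D.T ^ 1757 := by rw [← pow_add]
          _ ≤ _ := h2
      · linarith)
  refine (Pr_mono hp fun ω hω => ?_).trans (ht.trans (evY_exp hD hI hm hA hT0.le))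
  have h1 : D.T ^ 4 * D.T ^ 2985 ≤ D.T ^ 2990 := by
    rw [← pow_add]
    exact pow_le_pow_right₀ hT1 (by norm_num)
  refine (h1.trans (not_le.1 hω).le).trans (le_of_eq ?_)
  have hJ : ∀ z c, (D.J S lam ω z c : ℝ) * ((D.J S lam ω z c : ℝ) - 1) =
      ∑ u, ∑ u', if ω u = c ∧ ω u' = c then (if (u ≠ u' ∧ u ∈ D.LL S lam ∧ u' ∈ D.LL S lam) ∧
        u ∈ D.R z ∧ u' ∈ D.R z then (1 : ℝ) else 0) else 0 := by
    intro z c
    have h2 : (D.J S lam ω z c : ℝ) * ((D.J S lam ω z c : ℝ) - 1) =
        ((((D.R z ∩ D.LL S lam).filter fun u => ω u = c).offDiag).card : ℝ) := by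
      rw [offDiag_card]
      have : ((D.R z ∩ D.LL S lam).filter fun u => ω u = c).card ≤
          ((D.R z ∩ D.LL S lam).filter fun u => ω u = c).card *
            ((D.R z ∩ D.LL S lam).filter fun u => ω u = c).card :=
        Nat.le_mul_self _
      rw [Nat.cast_sub this]
      unfold J
      push_cast
      ring
    rw [h2, ← Fintype.sum_prod_type' (f := fun u u' =>
      if ω u = c ∧ ω u' = c then (if (u ≠ u' ∧ u ∈ D.LL S lam ∧ u' ∈ D.LL S lam) ∧
        u ∈ D.R z ∧ u' ∈ D.R z then (1 : ℝ) else 0) else 0)]
    have h3 : (((((D.R z ∩ D.LL S lam).filter fun u => ω u = c).offDiag).card : ℕ) : ℝ) =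
        ∑ q : Q × Q, if q ∈ ((D.R z ∩ D.LL S lam).filter fun u => ω u = c).offDiag then
          (1 : ℝ) else 0 := by
      rw [← Finset.sum_filter, Finset.sum_const, nsmul_eq_mul, mul_one]
      congr 2
      ext q
      simp
    rw [h3]
    refine Finset.sum_congr rfl fun q _ => ?_
    rw [← ite_and]
    refine if_congr ?_ rfl rfl
    rw [mem_offDiag, mem_filter, mem_filter, mem_inter, mem_inter]
    tauto
  simp only [hJ, Finset.mul_sum]
  have hswap : (∑ z ∈ D.A i ∩ D.U1 S lam, ∑ c, ∑ u, ∑ u', D.nc S i c *
      (if ω u = c ∧ ω u' = c then (if (u ≠ u' ∧ u ∈ D.LL S lam ∧ u' ∈ D.LL S lam) ∧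
        u ∈ D.R z ∧ u' ∈ D.R z then (1 : ℝ) else 0) else 0)) =
      ∑ u, ∑ u', ∑ z ∈ D.A i ∩ D.U1 S lam, ∑ c, D.nc S i c *
      (if ω u = c ∧ ω u' = c then (if (u ≠ u' ∧ u ∈ D.LL S lam ∧ u' ∈ D.LL S lam) ∧
        u ∈ D.R z ∧ u' ∈ D.R z then (1 : ℝ) else 0) else 0) := by
    have h5 : ∀ z, (∑ c, ∑ u, ∑ u', D.nc S i c *
      (if ω u = c ∧ ω u' = c then (if (u ≠ u' ∧ u ∈ D.LL S lam ∧ u' ∈ D.LL S lam) ∧
        u ∈ D.R z ∧ u' ∈ D.R z then (1 : ℝ) else 0) else 0)) = ∑ u, ∑ u', ∑ c, D.nc S i c *
      (if ω u = c ∧ ω u' = c then (if (u ≠ u' ∧ u ∈ D.LL S lam ∧ u' ∈ D.LL S lam) ∧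
        u ∈ D.R z ∧ u' ∈ D.R z then (1 : ℝ) else 0) else 0) := by
      intro z
      rw [Finset.sum_comm]
      refine Finset.sum_congr rfl fun u _ => ?_
      rw [Finset.sum_comm]
    simp only [h5]
    rw [Finset.sum_comm]
    refine Finset.sum_congr rfl fun u _ => ?_
    rw [Finset.sum_comm]
  rw [hswap]
  refine Finset.sum_congr rfl fun u _ => Finset.sum_congr rfl fun u' _ => ?_
  by_cases hu : ω u = ω u'
  · rw [if_pos hu]
    have h6 : ∀ z, (∑ c, D.nc S i c *
      (if ω u = c ∧ ω u' = c then (if (u ≠ u' ∧ u ∈ D.LL S lam ∧ u' ∈ D.LL S lam) ∧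
        u ∈ D.R z ∧ u' ∈ D.R z then (1 : ℝ) else 0) else 0)) = D.nc S i (ω u) *
        (if (u ≠ u' ∧ u ∈ D.LL S lam ∧ u' ∈ D.LL S lam) ∧
        u ∈ D.R z ∧ u' ∈ D.R z then (1 : ℝ) else 0) := by
      intro z
      rw [Finset.sum_eq_single (ω u)]
      · rw [if_pos ⟨rfl, hu.symm⟩]
      · intro c _ hc
        rw [if_neg (fun h => hc h.1.symm), mul_zero]
      · intro h; exact absurd (mem_univ _) h
    simp only [h6]
    rw [← Finset.mul_sum]
    simp only [g]
    by_cases hP : u ≠ u' ∧ u ∈ D.LL S lam ∧ u' ∈ D.LL S lam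
    · rw [if_pos hP]
      congr 1
      unfold nR2
      rw [Finset.card_filter]
      push_cast
      refine Finset.sum_congr rfl fun z _ => ?_
      by_cases h7 : u ∈ D.R z ∧ u' ∈ D.R z
      · rw [if_pos h7, if_pos ⟨hP, h7⟩]
      · rw [if_neg h7, if_neg (fun h => h7 h.2)]
    · rw [if_neg hP]
      have h8 : ∀ z ∈ D.A i ∩ D.U1 S lam, (if (u ≠ u' ∧ u ∈ D.LL S lam ∧ u' ∈ D.LL S lam) ∧
        u ∈ D.R z ∧ u' ∈ D.R z then (1 : ℝ) else 0) = 0 := by
        intro z _
        rw [if_neg (fun h => hP h.1)]
      rw [Finset.sum_eq_zero h8, mul_zero]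
  · rw [if_neg hu]
    refine Finset.sum_eq_zero fun z _ => Finset.sum_eq_zero fun c _ => ?_
    rw [if_neg (fun h => hu (h.1.trans h.2.symm)), mul_zero]

end NibData

end Pool.Agent.AcyK
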