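import Pool.Agent.AcyK.EvA
import Pool.Agent.AcyK.EvB
import Pool.Agent.AcyK.EvY

/-! # Probability estimates: the local family (module EC) -/

set_option autoImplicit false
set_option linter.unusedSectionVars false

namespace Pool.Agent.AcyK

open Finset
open Pool.Agent.Acy (IsPM wt Ex Pr mean)
open scoped Classical

universe u v

section

variable {Q ι : Type u} [Fintype Q] [DecidableEq Q] [Fintype ι] [DecidableEq ι]

namespace NibData

/-- Related vertices of first and second order. -/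
noncomputable def R2 (D : NibData Q ι) (x : Q) : Finset Q := D.R x ∪ (D.R x).biUnion D.R

/-- Vertices of a tested set and their related vertices. -/
noncomputable def RA (D : NibData Q ι) (i : ι) : Finset Q := D.A i ∪ (D.A i).biUnion D.R

variable {D : NibData Q ι}

theorem mem_R2_of_R {x u : Q} (h : u ∈ D.R x) : u ∈ D.R2 x := mem_union_left _ h

theorem mem_R2_of_RR {x y u : Q} (h : y ∈ D.R x) (h' : u ∈ D.R y) : u ∈ D.R2 x :=
  mem_union_right _ (mem_biUnion.2 ⟨y, h, h'⟩)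

theorem mem_R2_symm (hD : D.Ok) {x u : Q} (h : u ∈ D.R2 x) : x ∈ D.R2 u := by
  rcases mem_union.1 h with h1 | h1
  · exact mem_R2_of_R ((mem_R_symm hD x u).2 h1)
  · obtain ⟨y, hy, hu⟩ := mem_biUnion.1 h1
    exact mem_R2_of_RR ((mem_R_symm hD y u).2 hu) ((mem_R_symm hD x y).2 hy)

theorem R2_card (hD : D.Ok) (x : Q) : ((D.R2 x).card : ℝ) ≤ 2 * D.T ^ 8034 := by
  have h1 : ((D.R2 x).card : ℝ) ≤ (D.R x).card + ∑ y ∈ D.R x, ((D.R y).card : ℝ) := by
    have h2 := card_union_le (D.R x) ((D.R x).biUnion D.R)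
    have h3 : ((D.R x).biUnion D.R).card ≤ ∑ y ∈ D.R x, (D.R y).card := card_biUnion_le
    have h4 : (D.R2 x).card ≤ (D.R x).card + ∑ y ∈ D.R x, (D.R y).card :=
      h2.trans (Nat.add_le_add_left h3 _)
    exact_mod_cast h4
  have h2 : ∑ y ∈ D.R x, ((D.R y).card : ℝ) ≤ D.T ^ 8034 := by
    calc ∑ y ∈ D.R x, ((D.R y).card : ℝ) ≤ ∑ _y ∈ D.R x, D.T ^ 4017 :=
          sum_le_sum fun y _ => hD.R_card y
      _ = (D.R x).card * D.T ^ 4017 := by rw [sum_const, nsmul_eq_mul]
      _ ≤ D.T ^ 4017 * D.T ^ 4017 :=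
          mul_le_mul_of_nonneg_right (hD.R_card x) (pow_nonneg (hD.big.pos).le _)
      _ = D.T ^ 8034 := by rw [← pow_add]
  have h3 : D.T ^ 4017 ≤ D.T ^ 8034 := pow_le_pow_right₀ hD.big.one_le (by norm_num)
  linarith [hD.R_card x]

theorem RA_card (hD : D.Ok) (i : ι) : ((D.RA i).card : ℝ) ≤ 2 * D.T ^ 8034 := by
  have h1 : ((D.RA i).card : ℝ) ≤ (D.A i).card + ∑ y ∈ D.A i, ((D.R y).card : ℝ) := by
    have h2 := card_union_le (D.A i) ((D.A i).biUnion D.R)
    have h3 : ((D.A i).biUnion D.R).card ≤ ∑ y ∈ D.A i, (D.R y).card := card_biUnion_le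
    have h4 : (D.RA i).card ≤ (D.A i).card + ∑ y ∈ D.A i, (D.R y).card :=
      h2.trans (Nat.add_le_add_left h3 _)
    exact_mod_cast h4
  have h2 : ∑ y ∈ D.A i, ((D.R y).card : ℝ) ≤ D.T ^ 8034 := by
    calc ∑ y ∈ D.A i, ((D.R y).card : ℝ) ≤ ∑ _y ∈ D.A i, D.T ^ 4017 :=
          sum_le_sum fun y _ => hD.R_card y
      _ = (D.A i).card * D.T ^ 4017 := by rw [sum_const, nsmul_eq_mul]
      _ ≤ D.T ^ 3000 * D.T ^ 4017 :=
          mul_le_mul_of_nonneg_right (hD.A_card i) (pow_nonneg (hD.big.pos).le _)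
      _ = D.T ^ 7017 := by rw [← pow_add]
      _ ≤ D.T ^ 8034 := pow_le_pow_right₀ hD.big.one_le (by norm_num)
  have h3 : D.T ^ 3000 ≤ D.T ^ 8034 := pow_le_pow_right₀ hD.big.one_le (by norm_num)
  linarith [hD.A_card i]

/-- A centred sum depends only on the coordinates with nonzero test function. -/
theorem cen_congr (S : NState Q D.k) (lam : Q → Option Bool) {Y : Q → Fin D.k → ℝ} {A : Finset Q}
    (hY : ∀ u, u ∉ A → ∀ c, Y u c = 0) {ω ω' : Q → Fin D.k} (h : ∀ u ∈ A, ω u = ω' u) :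
    D.cen S lam Y ω = D.cen S lam Y ω' := by
  unfold cen
  refine sum_congr rfl fun u _ => ?_
  by_cases hu : u ∈ A
  · rw [h u hu]
  · rw [hY u hu, hY u hu]

theorem G_zero (hD : D.Ok) (S : NState Q D.k) (lam : Q → Option Bool) (b : Bool) (u x : Q)
    (c : Fin D.k) (hu : u ∉ D.R2 x) : D.G S lam b u x c = 0 := by
  unfold G
  rw [mul_eq_zero]
  right
  refine sum_eq_zero fun y _ => ?_
  split_ifs with h
  · by_cases hy : y ∈ D.R x
    · have h1 : u ∉ D.R y := fun h2 => hu (mem_R2_of_RR hy h2)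
      rw [K_off' hD y u h1, mul_zero]
    · rw [a_off hD b x y hy, zero_mul, zero_mul]
  · rfl

theorem GK_zero (hD : D.Ok) (S : NState Q D.k) (lam : Q → Option Bool) (u z z' : Q)
    (c : Fin D.k) (hu : u ∉ D.R2 z) : D.GK S lam u z z' c = 0 := by
  unfold GK
  rw [mul_eq_zero]
  right
  refine sum_eq_zero fun y _ => ?_
  split_ifs with h
  · by_cases hy : y ∈ D.R z
    · have h1 : u ∉ D.R y := fun h2 => hu (mem_R2_of_RR hy h2)
      rw [K_off' hD y u h1, mul_zero]
    · rw [K_off' hD z y hy, zero_mul, zero_mul, zero_mul]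
  · rfl

section zero
variable (hD : D.Ok) (S : NState Q D.k) (lam : Q → Option Bool)
include hD

theorem Y1_zero (x u : Q) (hu : u ∉ D.R2 x) (c : Fin D.k) : D.Y1 S lam x u c = 0 := by
  unfold Y1
  split_ifs
  · rw [K_off' hD x u fun h => hu (mem_R2_of_R h), mul_zero]
  · rfl

theorem Y2_zero (x u : Q) (hu : u ∉ D.R2 x) (c : Fin D.k) : D.Y2 S lam x u c = 0 := by
  unfold Y2
  split_ifs
  · rw [K_off' hD x u fun h => hu (mem_R2_of_R h), mul_zero, zero_mul]
  · rfl

theorem Y3_zero (x u : Q) (hu : u ∉ D.R2 x) (c : Fin D.k) : D.Y3 S lam x u c = 0 := by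
  unfold Y3
  split_ifs
  · rw [h_off' hD x u fun h => hu (mem_R2_of_R h), mul_zero, mul_zero]
  · rfl

theorem Y4_zero (b : Bool) (x : Q) (c₀ : Fin D.k) (u : Q) (hu : u ∉ D.R2 x) (c : Fin D.k) :
    D.Y4 S lam b x c₀ u c = 0 := by
  unfold Y4
  split_ifs
  · exact G_zero hD S lam b u x c₀ hu
  · rfl

theorem Y7_zero (z z' : Q) (c₀ : Fin D.k) (u : Q) (hu : u ∉ D.R2 z) (c : Fin D.k) :
    D.Y7 S lam z z' c₀ u c = 0 := by
  unfold Y7
  split_ifs
  · exact GK_zero hD S lam u z z' c₀ hu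
  · rfl

theorem Y9_zero (z z' u : Q) (hu : u ∉ D.R2 z) (c : Fin D.k) : D.Y9 S lam z z' u c = 0 := by
  unfold Y9
  split_ifs
  · rw [K_off' hD z u fun h => hu (mem_R2_of_R h), mul_zero]
  · rfl

theorem Y10_zero (z z' u : Q) (hu : u ∉ D.R2 z) (c : Fin D.k) : D.Y10 S lam z z' u c = 0 := by
  unfold Y10
  split_ifs
  · rw [K_off' hD z u fun h => hu (mem_R2_of_R h), zero_mul, mul_zero]
  · rfl

theorem Y12_zero (i : ι) (u : Q) (hu : u ∉ D.RA i) (c : Fin D.k) : D.Y12 S lam i u c = 0 := by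
  unfold Y12
  split_ifs
  · rw [mul_eq_zero]
    right
    refine sum_eq_zero fun z hz => ?_
    split_ifs
    · have h1 : u ∉ D.R z := fun h =>
        hu (mem_union_right _ (mem_biUnion.2 ⟨z, (mem_inter.1 hz).1, h⟩))
      rw [K_off' hD z u h1, mul_zero]
    · rfl
  · rfl

omit hD in
theorem Y13_zero (i : ι) (u : Q) (hu : u ∉ D.RA i) (c : Fin D.k) : D.Y13 S lam i u c = 0 := by
  unfold Y13
  rw [if_neg]
  intro h
  exact hu (mem_union_left _ (mem_inter.1 h).1)

end zero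

theorem J_congr (S : NState Q D.k) (lam : Q → Option Bool) (x : Q) {ω ω' : Q → Fin D.k}
    (h : ∀ u ∈ D.R x, ω u = ω' u) (c : Fin D.k) : D.J S lam ω x c = D.J S lam ω' x c := by
  unfold J
  congr 1
  refine filter_congr fun u hu => ?_
  rw [h u (mem_inter.1 hu).1]

theorem d3_pos (hD : D.Ok) : 0 < D.d3 := by
  unfold d3
  exact div_pos one_pos (pow_pos hD.big.pos _)

/-- Labels of the events. -/
abbrev LabA (k : ℕ) : Type := Fin 4 ⊕ ((Bool × Fin k) ⊕ Bool)

/-- Labels of the events of a pair. -/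
abbrev LabP (k : ℕ) : Type := Fin 4 ⊕ Fin k

/-- Labels of the events of a tested set. -/
abbrev LabI (k : ℕ) : Type := Fin 5 ⊕ Fin k

/-- The events of a vertex. -/
noncomputable def EvX (D : NibData Q ι) (S : NState Q D.k) (lam : Q → Option Bool)
    (x : Q) (l : LabA D.k) (ω : Q → Fin D.k) : Prop :=
  match l with
  | .inl i =>
    if i = 0 then ¬ |D.cen S lam (D.Y1 S lam x) ω| ≤ D.T ^ 2000
    else if i = 1 then ¬ |D.cen S lam (D.Y2 S lam x) ω| ≤ D.T ^ 2000
    else if i = 2 then ¬ |D.cen S lam (D.Y3 S lam x) ω| ≤ D.T ^ 2000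
    else ¬ ∑ c, (D.J S lam ω x c : ℝ) * ((D.J S lam ω x c : ℝ) - 1) ≤ D.T ^ 3778
  | .inr (.inl bc) => ¬ |D.cen S lam (D.Y4 S lam bc.1 x bc.2) ω| ≤ 1 / D.T ^ 187
  | .inr (.inr b') =>
    ¬ (((D.LL S lam).filter fun u => D.d3 < |D.G S lam b' u x (ω u)|).card : ℝ) ≤ D.T ^ 3830

/-- The events of a pair. -/
noncomputable def EvP (D : NibData Q ι) (S : NState Q D.k) (lam : Q → Option Bool)
    (z z' : Q) (l : LabP D.k) (ω : Q → Fin D.k) : Prop :=
  match l with
  | .inl i =>
    if i = 0 then ¬ (((D.LL S lam).filter fun u => D.d3 < |D.GK S lam u z z' (ω u)|).card : ℝ) ≤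
      D.T ^ 3830
    else if i = 1 then ¬ |D.cen S lam (D.Y9 S lam z z') ω| ≤ D.T ^ 2000
    else if i = 2 then ¬ |D.cen S lam (D.Y10 S lam z z') ω| ≤ D.T ^ 2000
    else ¬ ((((D.R z ∩ D.LL S lam) ×ˢ (D.R z' ∩ D.LL S lam)).filter
      fun e => e.1 ≠ e.2 ∧ ω e.1 = ω e.2).card : ℝ) ≤ D.T ^ 3778
  | .inr c => ¬ |D.cen S lam (D.Y7 S lam z z' c) ω| ≤ 1 / D.T ^ 187

/-- The events of a tested set. -/
noncomputable def EvI (D : NibData Q ι) (S : NState Q D.k) (lam : Q → Option Bool)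
    (i : ι) (l : LabI D.k) (ω : Q → Fin D.k) : Prop :=
  match l with
  | .inl j =>
    if j = 0 then ¬ |D.cen S lam (D.Y12 S lam i) ω| ≤ D.T ^ 2500
    else if j = 1 then ¬ |D.cen S lam (D.Y13 S lam i) ω| ≤ D.T ^ 2500
    else if j = 2 then
      ¬ ((((D.A i ∩ D.U1 S lam) ×ˢ (D.A i ∩ Sel S.col lam true) ×ˢ D.LL S lam).filter
        fun e => e.2.2 ∈ D.R e.1 ∧ e.2.2 ≠ e.2.1 ∧ ω e.2.1 = ω e.2.2).card : ℝ) ≤ D.T ^ 2970
    else if j = 3 then
      ¬ ∑ z ∈ D.A i ∩ D.U1 S lam, ∑ u ∈ D.R z ∩ D.LL S lam, D.nc S i (ω u) ≤ D.T ^ 3100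
    else ¬ ∑ z ∈ D.A i ∩ D.U1 S lam, ∑ c, D.nc S i c *
        ((D.J S lam ω z c : ℝ) * ((D.J S lam ω z c : ℝ) - 1)) ≤ D.T ^ 2990
  | .inr c => ¬ (((D.A i ∩ Sel S.col lam true).filter fun z => ω z = c).card : ℝ) ≤ D.T ^ 4

/-- Index type of the events. -/
abbrev EvIdx (Q ι : Type u) (k : ℕ) : Type u :=
  (Q × LabA k) ⊕ (((Q × Q) × LabP k) ⊕ (ι × LabI k))

/-- The events. -/
noncomputable def Ev (D : NibData Q ι) (S : NState Q D.k) (lam : Q → Option Bool)
    (b : EvIdx Q ι D.k) (ω : Q → Fin D.k) : Prop :=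
  match b with
  | .inl e => D.EvX S lam e.1 e.2 ω
  | .inr (.inl e) => D.pr e.1.1 e.1.2 ∧ D.EvP S lam e.1.1 e.1.2 e.2 ω
  | .inr (.inr e) => ((D.A e.1).card : ℝ) ≤ D.T ^ 1603 ∧ D.EvI S lam e.1 e.2 ω

/-- The supports of the events. -/
noncomputable def Su (D : NibData Q ι) (b : EvIdx Q ι D.k) : Finset Q :=
  match b with
  | .inl e => D.R2 e.1
  | .inr (.inl e) => if D.pr e.1.1 e.1.2 then D.R2 e.1.1 ∪ D.R2 e.1.2 else ∅
  | .inr (.inr e) => D.RA e.1

theorem depX (hD : D.Ok) (S : NState Q D.k) (lam : Q → Option Bool) (x : Q) (l : LabA D.k) :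
    DependsOn (D.EvX S lam x l) (D.R2 x : Set Q) := by
  intro ω ω' h
  have h1 : ∀ u ∈ D.R2 x, ω u = ω' u := fun u hu => h u (by exact_mod_cast hu)
  rcases l with i | bc | b'
  · have e1 := cen_congr S lam (Y1_zero hD S lam x) h1
    have e2 := cen_congr S lam (Y2_zero hD S lam x) h1
    have e3 := cen_congr S lam (Y3_zero hD S lam x) h1
    have e4 : ∀ c, D.J S lam ω x c = D.J S lam ω' x c :=
      J_congr S lam x fun u hu => h1 u (mem_R2_of_R hu)
    simp only [EvX, e1, e2, e3, e4]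
  · have e1 := cen_congr S lam (Y4_zero hD S lam bc.1 x bc.2) h1
    simp only [EvX, e1]
  · have e1 : ((D.LL S lam).filter fun u => D.d3 < |D.G S lam b' u x (ω u)|) =
        ((D.LL S lam).filter fun u => D.d3 < |D.G S lam b' u x (ω' u)|) := by
      refine filter_congr fun u _ => ?_
      by_cases hu : u ∈ D.R2 x
      · rw [h1 u hu]
      · rw [G_zero hD S lam b' u x _ hu, G_zero hD S lam b' u x _ hu]
    simp only [EvX, e1]

theorem depP (hD : D.Ok) (S : NState Q D.k) (lam : Q → Option Bool) (z z' : Q)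
    (l : LabP D.k) :
    DependsOn (D.EvP S lam z z' l) ((D.R2 z ∪ D.R2 z' : Finset Q) : Set Q) := by
  intro ω ω' h
  have h0 : ∀ u ∈ D.R2 z ∪ D.R2 z', ω u = ω' u := fun u hu => h u (by exact_mod_cast hu)
  have h1 : ∀ u ∈ D.R2 z, ω u = ω' u := fun u hu => h0 u (mem_union_left _ hu)
  have h2 : ∀ u ∈ D.R2 z', ω u = ω' u := fun u hu => h0 u (mem_union_right _ hu)
  rcases l with i | c
  · have e1 : ((D.LL S lam).filter fun u => D.d3 < |D.GK S lam u z z' (ω u)|) =
        ((D.LL S lam).filter fun u => D.d3 < |D.GK S lam u z z' (ω' u)|) := by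
      refine filter_congr fun u _ => ?_
      by_cases hu : u ∈ D.R2 z
      · rw [h1 u hu]
      · rw [GK_zero hD S lam u z z' _ hu, GK_zero hD S lam u z z' _ hu]
    have e2 := cen_congr S lam (Y9_zero hD S lam z z') h1
    have e3 := cen_congr S lam (Y10_zero hD S lam z z') h1
    have e4 : (((D.R z ∩ D.LL S lam) ×ˢ (D.R z' ∩ D.LL S lam)).filter
        fun e => e.1 ≠ e.2 ∧ ω e.1 = ω e.2) =
        (((D.R z ∩ D.LL S lam) ×ˢ (D.R z' ∩ D.LL S lam)).filter
        fun e => e.1 ≠ e.2 ∧ ω' e.1 = ω' e.2) := by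
      refine filter_congr fun e he => ?_
      obtain ⟨ha, hb⟩ := mem_product.1 he
      rw [h1 e.1 (mem_R2_of_R (mem_inter.1 ha).1), h2 e.2 (mem_R2_of_R (mem_inter.1 hb).1)]
    simp only [EvP, e1, e2, e3, e4]
  · have e1 := cen_congr S lam (Y7_zero hD S lam z z' c) h1
    simp only [EvP, e1]

theorem depI (hD : D.Ok) (S : NState Q D.k) (lam : Q → Option Bool) (i : ι)
    (l : LabI D.k) : DependsOn (D.EvI S lam i l) (D.RA i : Set Q) := by
  intro ω ω' h
  have h1 : ∀ u ∈ D.RA i, ω u = ω' u := fun u hu => h u (by exact_mod_cast hu)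
  have hA : ∀ u ∈ D.A i, ω u = ω' u := fun u hu => h1 u (mem_union_left _ hu)
  have hR : ∀ z ∈ D.A i, ∀ u ∈ D.R z, ω u = ω' u := fun z hz u hu =>
    h1 u (mem_union_right _ (mem_biUnion.2 ⟨z, hz, hu⟩))
  rcases l with j | c
  · have e1 := cen_congr S lam (Y12_zero hD S lam i) h1
    have e2 := cen_congr S lam (Y13_zero S lam i) h1
    have e3 : (((D.A i ∩ D.U1 S lam) ×ˢ (D.A i ∩ Sel S.col lam true) ×ˢ D.LL S lam).filter
        fun e => e.2.2 ∈ D.R e.1 ∧ e.2.2 ≠ e.2.1 ∧ ω e.2.1 = ω e.2.2) =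
        (((D.A i ∩ D.U1 S lam) ×ˢ (D.A i ∩ Sel S.col lam true) ×ˢ D.LL S lam).filter
        fun e => e.2.2 ∈ D.R e.1 ∧ e.2.2 ≠ e.2.1 ∧ ω' e.2.1 = ω' e.2.2) := by
      refine filter_congr fun e he => ?_
      obtain ⟨ha, hb⟩ := mem_product.1 he
      obtain ⟨hb, -⟩ := mem_product.1 hb
      by_cases he' : e.2.2 ∈ D.R e.1
      · rw [hA e.2.1 (mem_inter.1 hb).1, hR e.1 (mem_inter.1 ha).1 e.2.2 he']
      · simp [he']
    have e4 : (∑ z ∈ D.A i ∩ D.U1 S lam, ∑ u ∈ D.R z ∩ D.LL S lam, D.nc S i (ω u)) =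
        ∑ z ∈ D.A i ∩ D.U1 S lam, ∑ u ∈ D.R z ∩ D.LL S lam, D.nc S i (ω' u) := by
      refine sum_congr rfl fun z hz => sum_congr rfl fun u hu => ?_
      rw [hR z (mem_inter.1 hz).1 u (mem_inter.1 hu).1]
    have e5 : (∑ z ∈ D.A i ∩ D.U1 S lam, ∑ c, D.nc S i c *
        ((D.J S lam ω z c : ℝ) * ((D.J S lam ω z c : ℝ) - 1))) =
        ∑ z ∈ D.A i ∩ D.U1 S lam, ∑ c, D.nc S i c *
        ((D.J S lam ω' z c : ℝ) * ((D.J S lam ω' z c : ℝ) - 1)) := by
      refine sum_congr rfl fun z hz => sum_congr rfl fun c _ => ?_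
      rw [J_congr S lam z (hR z (mem_inter.1 hz).1) c]
    simp only [EvI, e1, e2, e3, e4, e5]
  · have e1 : ((D.A i ∩ Sel S.col lam true).filter fun z => ω z = c) =
        ((D.A i ∩ Sel S.col lam true).filter fun z => ω' z = c) := by
      refine filter_congr fun z hz => ?_
      rw [hA z (mem_inter.1 hz).1]
    simp only [EvI, e1]

/-- Vertices adjacent to a tested pair. -/
theorem card_pairs (hD : D.Ok) (u : Q) :
    ((univ.filter fun e : Q × Q => D.pr e.1 e.2 ∧ (u ∈ D.R2 e.1 ∨ u ∈ D.R2 e.2)).card : ℝ) ≤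
      4 * D.T ^ 15334 := by
  have hT := hD.big
  have hsub : (univ.filter fun e : Q × Q => D.pr e.1 e.2 ∧ (u ∈ D.R2 e.1 ∨ u ∈ D.R2 e.2)) ⊆
      ((D.R2 u).biUnion fun x => (univ.filter fun y => D.pr x y).image fun y => (x, y)) ∪
      ((D.R2 u).biUnion fun x => (univ.filter fun y => D.pr x y).image fun y => (y, x)) := by
    intro e he
    obtain ⟨-, hp, h | h⟩ := mem_filter.1 he
    · refine mem_union_left _ (mem_biUnion.2 ⟨e.1, mem_R2_symm hD h, mem_image.2 ⟨e.2, ?_, rfl⟩⟩)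
      exact mem_filter.2 ⟨mem_univ _, hp⟩
    · refine mem_union_right _
        (mem_biUnion.2 ⟨e.2, mem_R2_symm hD h, mem_image.2 ⟨e.1, ?_, rfl⟩⟩)
      exact mem_filter.2 ⟨mem_univ _, hD.pr_symm _ _ hp⟩
  have h1 : ∀ f : Q → Q → Q × Q, ((((D.R2 u).biUnion fun x =>
      (univ.filter fun y => D.pr x y).image (f x)).card : ℕ) : ℝ) ≤ 2 * D.T ^ 15334 := by
    intro f
    have h2 : (((D.R2 u).biUnion fun x => (univ.filter fun y => D.pr x y).image (f x)).card) ≤
        ∑ x ∈ D.R2 u, (univ.filter fun y => D.pr x y).card :=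
      card_biUnion_le.trans (sum_le_sum fun x _ => card_image_le)
    have h3 : (((((D.R2 u).biUnion fun x => (univ.filter fun y => D.pr x y).image (f x)).card
        : ℕ)) : ℝ) ≤ ∑ x ∈ D.R2 u, ((univ.filter fun y => D.pr x y).card : ℝ) := by
      exact_mod_cast h2
    calc _ ≤ _ := h3
      _ ≤ ∑ _x ∈ D.R2 u, D.T ^ 7300 := sum_le_sum fun x _ => hD.pr_card x
      _ = (D.R2 u).card * D.T ^ 7300 := by rw [sum_const, nsmul_eq_mul]
      _ ≤ 2 * D.T ^ 8034 * D.T ^ 7300 :=
          mul_le_mul_of_nonneg_right (R2_card hD u) (pow_nonneg hT.pos.le _)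
      _ = 2 * D.T ^ 15334 := by rw [mul_assoc, ← pow_add]
  have h2 := card_le_card hsub
  have h3 := h2.trans (card_union_le _ _)
  have h4 : ((univ.filter fun e : Q × Q => D.pr e.1 e.2 ∧
      (u ∈ D.R2 e.1 ∨ u ∈ D.R2 e.2)).card : ℝ) ≤
      (((D.R2 u).biUnion fun x => (univ.filter fun y => D.pr x y).image fun y => (x, y)).card : ℝ) +
      (((D.R2 u).biUnion fun x => (univ.filter fun y => D.pr x y).image fun y => (y, x)).card : ℝ) := by
    exact_mod_cast h3
  have h5 := h1 fun x y => (x, y)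
  have h6 := h1 fun x y => (y, x)
  linarith

/-- Tested sets near a vertex. -/
theorem card_sets (hD : D.Ok) (u : Q) :
    ((univ.filter fun i : ι => u ∈ D.RA i).card : ℝ) ≤ 2 * D.T ^ 11317 := by
  have hT := hD.big
  have hsub : (univ.filter fun i : ι => u ∈ D.RA i) ⊆
      (univ.filter fun i => u ∈ D.A i) ∪
      ((D.R u).biUnion fun z => univ.filter fun i => z ∈ D.A i) := by
    intro i hi
    rcases mem_union.1 (mem_filter.1 hi).2 with h | h
    · exact mem_union_left _ (mem_filter.2 ⟨mem_univ _, h⟩)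
    · obtain ⟨z, hz, hu⟩ := mem_biUnion.1 h
      exact mem_union_right _ (mem_biUnion.2
        ⟨z, (mem_R_symm hD z u).2 hu, mem_filter.2 ⟨mem_univ _, hz⟩⟩)
  have h1 : ((((D.R u).biUnion fun z => univ.filter fun i => z ∈ D.A i).card : ℕ) : ℝ) ≤
      D.T ^ 11317 := by
    have h2 : ((D.R u).biUnion fun z => univ.filter fun i => z ∈ D.A i).card ≤
        ∑ z ∈ D.R u, (univ.filter fun i => z ∈ D.A i).card := card_biUnion_le
    have h3 : ((((D.R u).biUnion fun z => univ.filter fun i => z ∈ D.A i).card : ℕ) : ℝ) ≤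
        ∑ z ∈ D.R u, ((univ.filter fun i => z ∈ D.A i).card : ℝ) := by exact_mod_cast h2
    calc _ ≤ _ := h3
      _ ≤ ∑ _z ∈ D.R u, D.T ^ 7300 := sum_le_sum fun z _ => hD.A_deg z
      _ = (D.R u).card * D.T ^ 7300 := by rw [sum_const, nsmul_eq_mul]
      _ ≤ D.T ^ 4017 * D.T ^ 7300 :=
          mul_le_mul_of_nonneg_right (hD.R_card u) (pow_nonneg hT.pos.le _)
      _ = D.T ^ 11317 := by rw [← pow_add]
  have h2 := (card_le_card hsub).trans (card_union_le _ _)
  have h3 : ((univ.filter fun i : ι => u ∈ D.RA i).card : ℝ) ≤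
      ((univ.filter fun i => u ∈ D.A i).card : ℝ) +
      (((D.R u).biUnion fun z => univ.filter fun i => z ∈ D.A i).card : ℝ) := by
    exact_mod_cast h2
  have h4 := hD.A_deg u
  have h5 : D.T ^ 7300 ≤ D.T ^ 11317 := pow_le_pow_right₀ hT.one_le (by norm_num)
  linarith

theorem two_mul_pow_le {T : ℝ} (hT : Big T) {a b : ℕ} (h : a + 1 ≤ b) :
    16 * T ^ a ≤ T ^ b := by
  have h3 : (16 : ℝ) ≤ T := by linarith [hT.big]
  calc 16 * T ^ a ≤ T * T ^ a := mul_le_mul_of_nonneg_right h3 (pow_nonneg hT.pos.le _)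
    _ = T ^ (a + 1) := by rw [← pow_succ']
    _ ≤ T ^ b := pow_le_pow_right₀ hT.one_le h

theorem Su_card (hD : D.Ok) (b : EvIdx Q ι D.k) : ((D.Su b).card : ℝ) ≤ D.T ^ 60000 := by
  have hT := hD.big
  have h0 := two_mul_pow_le hT (a := 8034) (b := 60000) (by norm_num)
  have hp : 0 ≤ D.T ^ 8034 := pow_nonneg hT.pos.le _
  rcases b with e | e | e
  · have := R2_card hD e.1
    show ((D.R2 e.1).card : ℝ) ≤ _
    linarith
  · show (((if D.pr e.1.1 e.1.2 then D.R2 e.1.1 ∪ D.R2 e.1.2 else ∅ : Finset Q)).card : ℝ) ≤ _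
    split_ifs
    · have h1 := R2_card hD e.1.1
      have h2 := R2_card hD e.1.2
      have h3 : ((D.R2 e.1.1 ∪ D.R2 e.1.2).card : ℝ) ≤
          (D.R2 e.1.1).card + (D.R2 e.1.2).card := by
        exact_mod_cast card_union_le _ _
      linarith
    · simp only [card_empty, Nat.cast_zero]
      exact pow_nonneg hT.pos.le _
  · have := RA_card hD e.1
    show ((D.RA e.1).card : ℝ) ≤ _
    linarith

theorem Su_deg (hD : D.Ok) (u : Q) :
    ((univ.filter fun b : EvIdx Q ι D.k => u ∈ D.Su b).card : ℝ) ≤ D.T ^ 60000 := by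
  have hT := hD.big
  have hT0 := hT.pos
  have hsub : (univ.filter fun b : EvIdx Q ι D.k => u ∈ D.Su b) ⊆
      (((D.R2 u) ×ˢ (univ : Finset (LabA D.k))).map ⟨Sum.inl, Sum.inl_injective⟩) ∪
      ((((univ.filter fun e : Q × Q => D.pr e.1 e.2 ∧ (u ∈ D.R2 e.1 ∨ u ∈ D.R2 e.2)) ×ˢ
        (univ : Finset (LabP D.k))).map ⟨fun e => Sum.inr (Sum.inl e),
          Sum.inr_injective.comp Sum.inl_injective⟩) ∪
      (((univ.filter fun i : ι => u ∈ D.RA i) ×ˢ (univ : Finset (LabI D.k))).map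
        ⟨fun e => Sum.inr (Sum.inr e), Sum.inr_injective.comp Sum.inr_injective⟩)) := by
    intro b hb
    have hb := (mem_filter.1 hb).2
    rcases b with e | e | e
    · exact mem_union_left _ (mem_map.2
        ⟨e, mem_product.2 ⟨mem_R2_symm hD hb, mem_univ _⟩, rfl⟩)
    · refine mem_union_right _ (mem_union_left _ (mem_map.2
        ⟨e, mem_product.2 ⟨mem_filter.2 ⟨mem_univ _, ?_⟩, mem_univ _⟩, rfl⟩))
      have hb' : u ∈ (if D.pr e.1.1 e.1.2 then D.R2 e.1.1 ∪ D.R2 e.1.2 else ∅ : Finset Q) := hb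
      split_ifs at hb' with hp
      · exact ⟨hp, mem_union.1 hb'⟩
      · simp at hb'
    · exact mem_union_right _ (mem_union_right _ (mem_map.2
        ⟨e, mem_product.2 ⟨mem_filter.2 ⟨mem_univ _, hb⟩, mem_univ _⟩, rfl⟩))
  have hcA : Fintype.card (LabA D.k) = 6 + 2 * D.k := by
    simp [LabA]
    ring
  have hcP : Fintype.card (LabP D.k) = 4 + D.k := by simp [LabP]
  have hcI : Fintype.card (LabI D.k) = 5 + D.k := by simp [LabI]
  have h1 := (card_le_card hsub).trans ((card_union_le _ _).trans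
    (Nat.add_le_add_left (card_union_le _ _) _))
  rw [card_map, card_map, card_map, card_product, card_product, card_product, card_univ,
    card_univ, card_univ, hcA, hcP, hcI] at h1
  have h2 : ((univ.filter fun b : EvIdx Q ι D.k => u ∈ D.Su b).card : ℝ) ≤
      (D.R2 u).card * (6 + 2 * D.k) +
      ((univ.filter fun e : Q × Q =>
        D.pr e.1 e.2 ∧ (u ∈ D.R2 e.1 ∨ u ∈ D.R2 e.2)).card * (4 + D.k) +
      (univ.filter fun i : ι => u ∈ D.RA i).card * (5 + D.k)) := by
    exact_mod_cast h1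
  have hk := hD.k_hi
  have h8 : (16 : ℝ) ≤ D.T ^ 4000 := by
    have := one_le_pow₀ hT.one_le (n := 3999)
    have h3 : (16 : ℝ) ≤ D.T := by linarith [hT.big]
    calc (16 : ℝ) ≤ D.T * 1 := by linarith
      _ ≤ D.T * D.T ^ 3999 := mul_le_mul_of_nonneg_left this hT0.le
      _ = D.T ^ 4000 := by rw [← pow_succ']
  have hk0 : (0 : ℝ) ≤ D.k := Nat.cast_nonneg _
  have e1 : (6 + 2 * D.k : ℝ) ≤ 3 * D.T ^ 4000 := by linarith
  have e2 : (4 + D.k : ℝ) ≤ 3 * D.T ^ 4000 := by linarith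
  have e3 : (5 + D.k : ℝ) ≤ 3 * D.T ^ 4000 := by linarith
  have f1 : ((D.R2 u).card : ℝ) ≤ 4 * D.T ^ 15334 := by
    have := R2_card hD u
    have h9 : D.T ^ 8034 ≤ D.T ^ 15334 := pow_le_pow_right₀ hT.one_le (by norm_num)
    have h10 : 0 ≤ D.T ^ 15334 := pow_nonneg hT0.le _
    linarith
  have f2 := card_pairs hD u
  have f3 : ((univ.filter fun i : ι => u ∈ D.RA i).card : ℝ) ≤ 4 * D.T ^ 15334 := by
    have := card_sets hD u
    have h9 : D.T ^ 11317 ≤ D.T ^ 15334 := pow_le_pow_right₀ hT.one_le (by norm_num)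
    have h10 : 0 ≤ D.T ^ 15334 := pow_nonneg hT0.le _
    linarith
  have key : ∀ a b : ℝ, 0 ≤ b → a ≤ 4 * D.T ^ 15334 → b ≤ 3 * D.T ^ 4000 →
      a * b ≤ 12 * D.T ^ 19334 := by
    intro a b hb h h'
    calc a * b ≤ (4 * D.T ^ 15334) * (3 * D.T ^ 4000) :=
          mul_le_mul h h' hb (by positivity)
      _ = 12 * (D.T ^ 15334 * D.T ^ 4000) := by ring
      _ = 12 * D.T ^ 19334 := by rw [← pow_add]
  have g1 := key _ _ (by positivity) f1 e1
  have g2 := key _ _ (by positivity) f2 e2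
  have g3 := key _ _ (by positivity) f3 e3
  have h11 := two_mul_pow_le hT (a := 19334) (b := 19335) (by norm_num)
  have h12 := two_mul_pow_le hT (a := 19335) (b := 60000) (by norm_num)
  have h13 : 0 ≤ D.T ^ 19334 := pow_nonneg hT0.le _
  linarith

/-- `GoodB` is reached by avoiding a local family of unlikely events. -/
theorem goodB_stepOK (hD : D.Ok) {S : NState Q D.k} {m : ℕ} (hI : D.Inv S m) (hm : m < D.M)
    {lam : Q → Option Bool} (hA : D.GoodA S m lam) :
    StepOK D.T (D.p S lam) (D.GoodB S lam) := by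
  have hT := hD.big
  have hT1 := hT.one_le
  have hT0 := hT.pos
  have hfalse : Pr (D.p S lam) (fun _ => False) ≤ Real.exp (-D.T) := by
    have : Pr (D.p S lam) (fun _ => False) = 0 := by
      simp [Pr, Ex]
    rw [this]
    exact (Real.exp_pos _).le
  refine ⟨EvIdx Q ι D.k, inferInstance, D.Ev S lam, D.Su, ?_, ?_, Su_card hD, Su_deg hD, ?_⟩
  · rintro (⟨x, l⟩ | ⟨⟨z, z'⟩, l⟩ | ⟨i, l⟩) ω ω' h
    · exact depX hD S lam x l h
    · by_cases hp : D.pr z z'
      · have hS : D.Su (Sum.inr (Sum.inl ((z, z'), l))) = D.R2 z ∪ D.R2 z' := if_pos hp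
        rw [hS] at h
        have := depP hD S lam z z' l h
        simp only [Ev, this]
      · simp only [Ev, hp, false_and]
    · have := depI hD S lam i l h
      simp only [Ev, this]
  · intro b
    show Pr (D.p S lam) (fun ω => D.Ev S lam b ω) ≤ Real.exp (-D.T)
    rcases b with ⟨x, l⟩ | ⟨⟨z, z'⟩, l⟩ | ⟨i, l⟩
    · rcases l with j | bc | b'
      · by_cases h0 : j = 0
        · subst h0
          exact e1_tail hD hI hm hA x
        by_cases h1 : j = 1
        · subst h1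
          exact e2_tail hD hI hm hA x
        by_cases h2 : j = 2
        · subst h2
          exact e3_tail hD hI hm hA x
        · simp only [Ev, EvX, if_neg h0, if_neg h1, if_neg h2]
          exact e6_tail hD hI hm hA x
      · exact e4_tail hD hI hm hA bc.1 x bc.2
      · exact e5_tail hD hI hm hA b' x
    · by_cases hp : D.pr z z'
      · rcases l with j | c
        · by_cases h0 : j = 0
          · subst h0
            simp only [Ev, EvP, hp, true_and, if_true]
            exact e8_tail hD hI hm hA z z' hp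
          by_cases h1 : j = 1
          · subst h1
            simp only [Ev, EvP, hp, true_and, if_neg h0, if_true]
            exact e9_tail hD hI hm hA z z' hp
          by_cases h2 : j = 2
          · subst h2
            simp only [Ev, EvP, hp, true_and, if_neg h0, if_neg h1, if_true]
            exact e10_tail hD hI hm hA z z' hp
          · simp only [Ev, EvP, hp, true_and, if_neg h0, if_neg h1, if_neg h2]
            exact e11_tail hD hI hm hA z z' hp
        · simp only [Ev, EvP, hp, true_and]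
          exact e7_tail hD hI hm hA z z' c hp
      · simp only [Ev, hp, false_and]
        exact hfalse
    · by_cases hi : ((D.A i).card : ℝ) ≤ D.T ^ 1603
      · rcases l with j | c
        · by_cases h0 : j = 0
          · subst h0
            simp only [Ev, EvI, hi, true_and, if_true]
            exact e12_tail hD hI hm hA i hi
          by_cases h1 : j = 1
          · subst h1
            simp only [Ev, EvI, hi, true_and, if_neg h0, if_true]
            exact e13_tail hD hI hm hA i hi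
          by_cases h2 : j = 2
          · subst h2
            simp only [Ev, EvI, hi, true_and, if_neg h0, if_neg h1, if_true]
            exact e14_tail hD hI hm hA i hi
          by_cases h3 : j = 3
          · subst h3
            simp only [Ev, EvI, hi, true_and, if_neg h0, if_neg h1, if_neg h2, if_true]
            exact e15_tail hD hI hm hA i hi
          · simp only [Ev, EvI, hi, true_and, if_neg h0, if_neg h1, if_neg h2, if_neg h3]
            exact e17_tail hD hI hm hA i hi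
        · simp only [Ev, EvI, hi, true_and]
          exact e16_tail hD hI hm hA i hi c
      · simp only [Ev, hi, false_and]
        exact hfalse
  · intro ω hω
    have hX : ∀ x l, ¬ D.EvX S lam x l ω := fun x l h => hω (Sum.inl (x, l)) h
    have hP : ∀ z z' l, D.pr z z' → ¬ D.EvP S lam z z' l ω := fun z z' l hp h =>
      hω (Sum.inr (Sum.inl ((z, z'), l))) ⟨hp, h⟩
    have hI' : ∀ i l, ((D.A i).card : ℝ) ≤ D.T ^ 1603 → ¬ D.EvI S lam i l ω := fun i l hi h =>
      hω (Sum.inr (Sum.inr (i, l))) ⟨hi, h⟩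
    refine ⟨fun x => ?_, fun x => ?_, fun x => ?_, fun b x c => ?_, fun b x => ?_, fun x => ?_,
      fun z z' c hp => ?_, fun z z' hp => ?_, fun z z' hp => ?_, fun z z' hp => ?_,
      fun z z' hp => ?_, fun i hi => ?_, fun i hi => ?_, fun i hi => ?_, fun i hi => ?_,
      fun i hi c => ?_, fun i hi => ?_⟩
    · exact not_not.1 fun h => hX x (.inl 0) (by simpa [EvX] using h)
    · exact not_not.1 fun h => hX x (.inl 1) (by simpa [EvX] using h)
    · exact not_not.1 fun h => hX x (.inl 2) (by simpa [EvX] using h)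
    · exact not_not.1 fun h => hX x (.inr (.inl (b, c))) h
    · exact not_not.1 fun h => hX x (.inr (.inr b)) h
    · exact not_not.1 fun h => hX x (.inl 3) (by simpa [EvX] using h)
    · exact not_not.1 fun h => hP z z' (.inr c) hp h
    · exact not_not.1 fun h => hP z z' (.inl 0) hp (by simpa [EvP] using h)
    · exact not_not.1 fun h => hP z z' (.inl 1) hp (by simpa [EvP] using h)
    · exact not_not.1 fun h => hP z z' (.inl 2) hp (by simpa [EvP] using h)
    · exact not_not.1 fun h => hP z z' (.inl 3) hp (by simpa [EvP] using h)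
    · exact not_not.1 fun h => hI' i (.inl 0) hi (by simpa [EvI] using h)
    · exact not_not.1 fun h => hI' i (.inl 1) hi (by simpa [EvI] using h)
    · exact not_not.1 fun h => hI' i (.inl 2) hi (by simpa [EvI] using h)
    · exact not_not.1 fun h => hI' i (.inl 3) hi (by simpa [EvI] using h)
    · exact not_not.1 fun h => hI' i (.inr c) hi h
    · exact not_not.1 fun h => hI' i (.inl 4) hi (by simpa [EvI] using h)

end NibData

end

end Pool.Agent.AcyK
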