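import Pool.Agent.AcyK.ODefs
import Pool.Agent.AcyK.GraphDefs

/-! # Splitting for colourable common neighbourhoods (row FS2 of MP_af9dfb_K, helper14) -/

set_option autoImplicit false
set_option linter.unusedSectionVars false

namespace Pool.Agent.AcyK

open Finset
open scoped Classical

universe u

/-- Row FS2 (SplitC.lean): colourable common neighbourhoods. `J u x = min` of the colours. -/
theorem splittable_of_colorable {V : Type u} [Fintype V] [DecidableEq V] (G : SimpleGraph V)
    {r : ℕ} (hr : 1 ≤ r)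
    (h : ∀ z z', z ≠ z' → ¬ G.Adj z z' →
      (G.induce {v | G.Adj z v ∧ G.Adj z' v}).Colorable r)
    {ε : ℝ} (hε : 0 < ε) : Splittable (nb G) (r - 1) ε := by
  intro z z' hzz hz μ h0 _ hsup
  have hadj : ¬ G.Adj z z' := fun h' => hz ((mem_nb G z' z).2 h'.symm)
  obtain ⟨c⟩ := h z z' hzz hadj
  have hr1 : r = r - 1 + 1 := (Nat.sub_add_cancel hr).symm
  have hmem : ∀ u, u ∈ cN (nb G) z z' → G.Adj z u ∧ G.Adj z' u := by
    intro u hu
    unfold cN at hu
    rw [mem_inter, mem_nb, mem_nb] at hu
    exact hu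
  set col : V → Fin (r - 1 + 1) := fun v =>
    if hv : G.Adj z v ∧ G.Adj z' v then Fin.cast hr1 (c ⟨v, hv⟩) else 0 with hcol
  have hne : ∀ u v, (G.Adj z u ∧ G.Adj z' u) → (G.Adj z v ∧ G.Adj z' v) → G.Adj u v →
      col u ≠ col v := by
    intro u v hu hv huv he
    have h1 : col u = Fin.cast hr1 (c ⟨u, hu⟩) := by rw [hcol]; simp only [dif_pos hu]
    have h2 : col v = Fin.cast hr1 (c ⟨v, hv⟩) := by rw [hcol]; simp only [dif_pos hv]
    rw [h1, h2] at he
    have h3 : c ⟨u, hu⟩ = c ⟨v, hv⟩ := Fin.cast_injective hr1 he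
    exact c.valid (show (G.induce {v | G.Adj z v ∧ G.Adj z' v}).Adj ⟨u, hu⟩ ⟨v, hv⟩ from huv) h3
  have hrR : ((r - 1 : ℕ) : ℝ) = r - 1 := by
    rw [Nat.cast_sub hr, Nat.cast_one]
  have hr0 : (0 : ℝ) < r := by exact_mod_cast hr
  refine ⟨fun u x => min (col u) (col x), fun _ => 1 / (2 * r), fun u x => min_comm _ _,
    fun i => ?_, ?_, ?_⟩
  · rw [hrR]
    apply le_of_eq
    congr 1
    ring
  · rw [sum_const, card_univ, Fintype.card_fin, nsmul_eq_mul, ← hr1]
    rw [mul_one_div, div_le_one (by positivity)]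
    linarith
  · intro u x hux
    obtain ⟨-, -, hu, hx⟩ := hsup u x hux
    have hz0 : ∑ s ∈ cN (nb G) u x, ∑ s' ∈ cN (nb G) u x,
        (if min (col s) (col s') = min (col u) (col x) then μ s s' else 0) = 0 := by
      refine sum_eq_zero fun s hs => sum_eq_zero fun s' hs' => ?_
      split_ifs with he
      · by_contra hcon
        obtain ⟨-, -, h1, h2⟩ := hsup s s' hcon
        unfold cN at hs hs'
        rw [mem_inter, mem_nb, mem_nb] at hs hs'
        have a1 := hne u s (hmem u hu) (hmem s h1) hs.1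
        have a2 := hne x s (hmem x hx) (hmem s h1) hs.2
        have a3 := hne u s' (hmem u hu) (hmem s' h2) hs'.1
        have a4 := hne x s' (hmem x hx) (hmem s' h2) hs'.2
        rcases min_choice (col s) (col s') with g | g <;>
          rcases min_choice (col u) (col x) with g' | g' <;> rw [g, g'] at he
        · exact a1 he.symm
        · exact a2 he.symm
        · exact a3 he.symm
        · exact a4 he.symm
      · rfl
    rw [hz0]
    have h5 : 0 ≤ ∑ s, ∑ s', μ s s' := sum_nonneg fun s _ => sum_nonneg fun s' _ => h0 s s'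
    positivity

end Pool.Agent.AcyK
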