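import Mathlib

/-! # The splitting lemma (project MP_af9dfb_K, row SPL) -/

set_option autoImplicit false
set_option linter.unusedSectionVars false

namespace Pool.Agent.AcyK

open Finset
open scoped Classical

section

variable {S : Type*} [Fintype S]

/-- Extraction of a large subset with small inner degrees. -/
theorem split_extract {ε : ℝ} (hε : 0 < ε) (hε' : ε ≤ 1 / 2) (Γ : SimpleGraph S) (μ : S → ℝ)
    (hμ : ∀ s, 0 ≤ μ s) : ∀ (r : ℕ) (F : Finset S),
    (∀ T ⊆ F, Γ.IsClique (T : Set S) → T.card ≤ r) →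
    ∃ J ⊆ F, ε ^ r * ∑ s ∈ F, μ s ≤ ∑ s ∈ J, μ s ∧
      ∀ s ∈ J, ∑ s' ∈ J.filter (fun s' => Γ.Adj s s'), μ s' ≤ ε * ∑ s' ∈ J, μ s' := by
  intro r
  induction r with
  | zero =>
    intro F hF
    have hF0 : F = ∅ := by
      rw [eq_empty_iff_forall_notMem]
      intro s hs
      have := hF {s} (singleton_subset_iff.2 hs) (by simp)
      simp at this
    subst hF0
    exact ⟨∅, subset_refl _, by simp, by simp⟩
  | succ r ih =>
    intro F hF
    by_cases h : ∀ s ∈ F, ∑ s' ∈ F.filter (fun s' => Γ.Adj s s'), μ s' ≤ ε * ∑ s' ∈ F, μ s'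
    · refine ⟨F, subset_refl _, ?_, h⟩
      have h1 : 0 ≤ ∑ s ∈ F, μ s := sum_nonneg fun s _ => hμ s
      have h2 : ε ^ (r + 1) ≤ 1 := pow_le_one₀ hε.le (by linarith)
      nlinarith
    · push_neg at h
      obtain ⟨s, hs, hlt⟩ := h
      obtain ⟨J, hJF, hJ1, hJ2⟩ := ih (F.filter fun s' => Γ.Adj s s') (by
        intro T hT hc
        have h1 : insert s T ⊆ F := insert_subset hs (hT.trans (filter_subset _ _))
        have h2 : Γ.IsClique ((insert s T : Finset S) : Set S) := by
          rw [coe_insert, SimpleGraph.isClique_insert]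
          refine ⟨hc, fun b hb _ => (mem_filter.1 (hT hb)).2⟩
        have h3 : s ∉ T := fun h => Γ.loopless.irrefl _ (mem_filter.1 (hT h)).2
        have h4 := hF _ h1 h2
        rw [card_insert_of_notMem h3] at h4
        omega)
      refine ⟨J, hJF.trans (filter_subset _ _), ?_, hJ2⟩
      have h5 : 0 < ε ^ r := by positivity
      calc ε ^ (r + 1) * ∑ s ∈ F, μ s = ε ^ r * (ε * ∑ s ∈ F, μ s) := by ring
        _ ≤ ε ^ r * ∑ s' ∈ F.filter (fun s' => Γ.Adj s s'), μ s' :=
            mul_le_mul_of_nonneg_left hlt.le h5.le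
        _ ≤ _ := hJ1

/-- The inequality between the constants. -/
theorem split_const (r : ℕ) {ε : ℝ} (hε : 0 < ε) (hε' : ε ≤ 1 / 2) :
    (1 - ε ^ r) ^ ⌈1 / ε ^ (2 * r + 4)⌉₊ ≤ ε / ((⌈1 / ε ^ (2 * r + 4)⌉₊ : ℝ) + 1) := by
  set N := ⌈1 / ε ^ (2 * r + 4)⌉₊ with hN
  set y := 1 / ε with hy
  have hy2 : 2 ≤ y := by
    rw [hy, le_div_iff₀ hε]
    linarith
  have hy0 : 0 < y := by linarith
  have hye : ∀ n : ℕ, 1 / ε ^ n = y ^ n := fun n => by rw [hy, one_div_pow]
  have hNlo : y ^ (2 * r + 4) ≤ N := by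
    rw [← hye]
    exact Nat.le_ceil _
  have hNhi : (N : ℝ) < y ^ (2 * r + 4) + 1 := by
    rw [← hye]
    exact Nat.ceil_lt_add_one (by positivity)
  have hp1 : 1 ≤ y ^ (2 * r + 4) := one_le_pow₀ (by linarith)
  have hN1 : (N : ℝ) + 1 ≤ 3 * y ^ (2 * r + 4) := by linarith
  have he1 : ε ^ r ≤ 1 := pow_le_one₀ hε.le (by linarith)
  have he0 : 0 < ε ^ r := by positivity
  have h1 : (1 - ε ^ r) ^ N ≤ Real.exp (-(ε ^ r * N)) := by
    have h2 : 1 - ε ^ r ≤ Real.exp (-ε ^ r) := by
      have := Real.add_one_le_exp (-ε ^ r)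
      linarith
    calc (1 - ε ^ r) ^ N ≤ Real.exp (-ε ^ r) ^ N :=
          pow_le_pow_left₀ (by linarith) h2 N
      _ = Real.exp (-(ε ^ r * N)) := by
          rw [← Real.exp_nat_mul]
          congr 1
          ring
  have h3 : y ^ (r + 4) ≤ ε ^ r * N := by
    have h4 : ε ^ r * y ^ (2 * r + 4) = y ^ (r + 4) := by
      have h5 : ε ^ r * y ^ r = 1 := by
        rw [← mul_pow, hy, mul_one_div_cancel hε.ne', one_pow]
      calc ε ^ r * y ^ (2 * r + 4) = (ε ^ r * y ^ r) * y ^ (r + 4) := by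
            rw [show 2 * r + 4 = r + (r + 4) by ring, pow_add]
            ring
        _ = _ := by rw [h5, one_mul]
    rw [← h4]
    exact mul_le_mul_of_nonneg_left hNlo he0.le
  have h6 : Real.exp (-(ε ^ r * N)) ≤ Real.exp (-y ^ (r + 4)) :=
    Real.exp_le_exp.2 (by linarith)
  have h7 : 3 * y ^ (2 * r + 5) ≤ Real.exp (y ^ (r + 4)) := by
    have h8 := Real.quadratic_le_exp_of_nonneg (x := y ^ (r + 4)) (by positivity)
    have h9 : y ^ (r + 4) ^ 1 = y ^ (r + 4) := by rw [pow_one]
    have h10 : (y ^ (r + 4)) ^ 2 = y ^ 3 * y ^ (2 * r + 5) := by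
      rw [← pow_mul, ← pow_add]
      congr 1
      ring
    have h11 : (8 : ℝ) ≤ y ^ 3 := by
      calc (8 : ℝ) = 2 ^ 3 := by norm_num
        _ ≤ y ^ 3 := pow_le_pow_left₀ (by norm_num) hy2 3
    have h12 : 0 < y ^ (2 * r + 5) := by positivity
    have h13 : 0 < y ^ (r + 4) := by positivity
    rw [h10] at h8
    nlinarith
  have hN0 : (0 : ℝ) < (N : ℝ) + 1 := by positivity
  rw [le_div_iff₀ hN0]
  calc (1 - ε ^ r) ^ N * ((N : ℝ) + 1) ≤ Real.exp (-y ^ (r + 4)) * (3 * y ^ (2 * r + 4)) :=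
        mul_le_mul (h1.trans h6) hN1 hN0.le (Real.exp_pos _).le
    _ = ε * (3 * y ^ (2 * r + 5) / Real.exp (y ^ (r + 4))) := by
        have h14 : ε * y ^ (2 * r + 5) = y ^ (2 * r + 4) := by
          rw [pow_succ y (2 * r + 4), mul_comm (y ^ (2 * r + 4)) y, ← mul_assoc, hy,
            mul_one_div_cancel hε.ne', one_mul]
        rw [Real.exp_neg, ← h14]
        field_simp
    _ ≤ ε * 1 := by
        apply mul_le_mul_of_nonneg_left _ hε.le
        rw [div_le_one (Real.exp_pos _)]
        exact h7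
    _ = ε := mul_one _

end

/-- The splitting lemma for weighted graphs without `K_(r+1)`. -/
theorem split_cliqueFree {S : Type*} [Fintype S] (r : ℕ) {ε : ℝ} (hε : 0 < ε) (hε' : ε ≤ 1 / 2) :
    ∀ (Γ : SimpleGraph S), Γ.CliqueFree (r + 1) → ∀ μ : S → ℝ, (∀ s, 0 ≤ μ s) →
    ∃ (J : S → Fin (⌈1 / ε ^ (2 * r + 4)⌉₊ + 1)) (q : Fin (⌈1 / ε ^ (2 * r + 4)⌉₊ + 1) → ℝ),
      (∀ i, 1 / (2 * (⌈1 / ε ^ (2 * r + 4)⌉₊ + 1) : ℝ) ≤ q i) ∧ ∑ i, q i ≤ 1 ∧
      ∀ s, ∑ s' ∈ univ.filter (fun s' => Γ.Adj s s' ∧ J s' = J s), μ s' ≤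
        2 * ε * q (J s) * ∑ s', μ s' := by
  intro Γ hΓ μ hμ
  have hconst := split_const r hε hε'
  set N := ⌈1 / ε ^ (2 * r + 4)⌉₊ with hN
  have hN0 : (0 : ℝ) < (N : ℝ) + 1 := by positivity
  set M := ∑ s, μ s with hM
  have hM0 : 0 ≤ M := sum_nonneg fun s _ => hμ s
  -- the extraction
  have hclq : ∀ F : Finset S, ∀ T ⊆ F, Γ.IsClique (T : Set S) → T.card ≤ r := by
    intro F T _ hT
    by_contra hcon
    push_neg at hcon
    obtain ⟨T', hT', hcard⟩ := exists_subset_card_eq hcon
    exact hΓ T' ⟨hT.subset (by exact_mod_cast hT'), hcard⟩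
  choose ext hext1 hext2 hext3 using fun F : Finset S =>
    split_extract hε hε' Γ μ hμ r F (hclq F)
  -- the remaining sets
  let R : ℕ → Finset S := fun n => Nat.rec univ (fun _ F => F \ ext F) n
  have hR0 : R 0 = univ := rfl
  have hRs : ∀ n, R (n + 1) = R n \ ext (R n) := fun n => rfl
  have he1 : ε ^ r ≤ 1 := pow_le_one₀ hε.le (by linarith)
  have hRm : ∀ n, ∑ s ∈ R n, μ s ≤ (1 - ε ^ r) ^ n * M := by
    intro n
    induction n with
    | zero => rw [hR0, pow_zero, one_mul]
    | succ n ih =>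
      have h1 := sum_sdiff (f := μ) (hext1 (R n))
      have h2 := hext2 (R n)
      rw [hRs, pow_succ]
      have h3 : 0 ≤ 1 - ε ^ r := by linarith
      calc ∑ s ∈ R n \ ext (R n), μ s ≤ (1 - ε ^ r) * ∑ s ∈ R n, μ s := by linarith
        _ ≤ (1 - ε ^ r) * ((1 - ε ^ r) ^ n * M) := mul_le_mul_of_nonneg_left ih h3
        _ = _ := by ring
  have hRanti : ∀ n m, n ≤ m → R m ⊆ R n := by
    intro n m hnm
    induction m, hnm using Nat.le_induction with
    | base => exact subset_refl _
    | succ m _ ih =>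
      rw [hRs]
      exact sdiff_subset.trans ih
  -- the classes
  let J : S → Fin (N + 1) := fun s =>
    if h : ∃ n, n < N ∧ s ∈ ext (R n) then ⟨Nat.find h, by
      have := (Nat.find_spec h).1
      omega⟩ else ⟨N, Nat.lt_succ_self N⟩
  have hJ1 : ∀ s n, n < N → s ∈ ext (R n) → (J s : ℕ) = n := by
    intro s n hn hs
    have hex : ∃ n, n < N ∧ s ∈ ext (R n) := ⟨n, hn, hs⟩
    have h1 : J s = ⟨Nat.find hex, by
      have := (Nat.find_spec hex).1
      omega⟩ := dif_pos hex
    rw [h1]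
    show Nat.find hex = n
    have h2 : Nat.find hex ≤ n := Nat.find_min' hex ⟨hn, hs⟩
    by_contra hne
    have h3 : Nat.find hex + 1 ≤ n := by omega
    have h4 := hRanti _ _ h3 (hext1 _ hs)
    rw [hRs, mem_sdiff] at h4
    exact h4.2 (Nat.find_spec hex).2
  have hJ2 : ∀ s, (J s : ℕ) < N → s ∈ ext (R (J s : ℕ)) := by
    intro s hs
    by_cases hex : ∃ n, n < N ∧ s ∈ ext (R n)
    · have h1 : J s = ⟨Nat.find hex, by
        have := (Nat.find_spec hex).1
        omega⟩ := dif_pos hex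
      rw [h1]
      exact (Nat.find_spec hex).2
    · have h1 : J s = ⟨N, Nat.lt_succ_self N⟩ := dif_neg hex
      rw [h1] at hs
      exact absurd hs (lt_irrefl _)
  have hJ3 : ∀ s, (∀ n, n < N → s ∉ ext (R n)) → ∀ n, n ≤ N → s ∈ R n := by
    intro s hs n
    induction n with
    | zero => intro _; rw [hR0]; exact mem_univ _
    | succ n ih =>
      intro hn
      rw [hRs, mem_sdiff]
      exact ⟨ih (by omega), hs n (by omega)⟩
  rcases hM0.eq_or_lt with hM00 | hMpos
  · -- no mass
    have hz : ∀ s, μ s = 0 := by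
      intro s
      have := (sum_eq_zero_iff_of_nonneg fun s _ => hμ s).1 hM00.symm s (mem_univ s)
      exact this
    refine ⟨J, fun _ => 1 / ((N : ℝ) + 1), fun i => ?_, ?_, fun s => ?_⟩
    · rw [div_le_div_iff₀ (by positivity) hN0]
      linarith
    · rw [sum_const, card_univ, Fintype.card_fin, nsmul_eq_mul]
      push_cast
      rw [mul_one_div_cancel hN0.ne']
    · rw [← hM00, mul_zero]
      exact le_of_eq (sum_eq_zero fun s' _ => hz s')
  · set cl : Fin (N + 1) → ℝ := fun i => ∑ s ∈ univ.filter (fun s => J s = i), μ s with hcl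
    have hcl0 : ∀ i, 0 ≤ cl i := fun i => sum_nonneg fun s _ => hμ s
    have hclsum : ∑ i, cl i = M := by
      rw [hcl, hM]
      exact sum_fiberwise _ _ _
    refine ⟨J, fun i => (cl i / M + 1 / ((N : ℝ) + 1)) / 2, fun i => ?_, ?_, fun s => ?_⟩
    · have h1 : 0 ≤ cl i / M := div_nonneg (hcl0 i) hM0
      have h2 : 1 / (2 * ((N : ℝ) + 1)) = (1 / ((N : ℝ) + 1)) / 2 := by
        field_simp
      rw [h2]
      linarith
    · rw [← sum_div, sum_add_distrib, ← sum_div, hclsum, div_self hMpos.ne', sum_const,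
        card_univ, Fintype.card_fin, nsmul_eq_mul]
      push_cast
      rw [mul_one_div_cancel hN0.ne']
      norm_num
    · by_cases hs : (J s : ℕ) < N
      · -- an extracted class
        have hcls : univ.filter (fun s' => J s' = J s) = ext (R (J s : ℕ)) := by
          ext s'
          rw [mem_filter]
          constructor
          · rintro ⟨_, h⟩
            have h1 : (J s' : ℕ) = J s := by rw [h]
            have h2 := hJ2 s' (by rw [h1]; exact hs)
            rwa [h1] at h2
          · intro h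
            refine ⟨mem_univ _, ?_⟩
            apply Fin.ext
            exact hJ1 s' _ hs h
        have h1 := hext3 _ s (hJ2 s hs)
        have h2 : univ.filter (fun s' => Γ.Adj s s' ∧ J s' = J s) =
            (ext (R (J s : ℕ))).filter fun s' => Γ.Adj s s' := by
          rw [← hcls, filter_filter]
          ext s'
          simp only [mem_filter, mem_univ, true_and, and_comm]
        have h3 : ∑ s' ∈ ext (R (J s : ℕ)), μ s' = cl (J s) := by
          rw [hcl, ← hcls]
        rw [h2]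
        refine h1.trans ?_
        rw [h3]
        have h4 : 0 < 1 / ((N : ℝ) + 1) := by positivity
        have h5 : cl (J s) = cl (J s) / M * M := by field_simp
        calc ε * cl (J s) = 2 * ε * ((cl (J s) / M) / 2) * M := by
              rw [h5]
              field_simp
          _ ≤ 2 * ε * ((cl (J s) / M + 1 / ((N : ℝ) + 1)) / 2) * M := by
              apply mul_le_mul_of_nonneg_right _ hM0
              apply mul_le_mul_of_nonneg_left _ (by positivity)
              linarith
      · -- the rest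
        have hsub : univ.filter (fun s' => Γ.Adj s s' ∧ J s' = J s) ⊆ R N := by
          intro s' hs'
          obtain ⟨_, _, h⟩ := mem_filter.1 hs'
          refine hJ3 s' ?_ N le_rfl
          intro n hn hmem
          have h1 := hJ1 s' n hn hmem
          have h2 : (J s' : ℕ) = J s := by rw [h]
          omega
        have h1 : ∑ s' ∈ univ.filter (fun s' => Γ.Adj s s' ∧ J s' = J s), μ s' ≤
            ∑ s' ∈ R N, μ s' :=
          sum_le_sum_of_subset_of_nonneg hsub fun s' _ _ => hμ s'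
        have h2 := (h1.trans (hRm N)).trans (mul_le_mul_of_nonneg_right hconst hM0)
        refine h2.trans ?_
        apply mul_le_mul_of_nonneg_right _ hM0
        have h3 : 0 ≤ cl (J s) / M := div_nonneg (hcl0 _) hM0
        calc ε / ((N : ℝ) + 1) = 2 * ε * ((0 + 1 / ((N : ℝ) + 1)) / 2) := by ring
          _ ≤ _ := by
              apply mul_le_mul_of_nonneg_left _ (by positivity)
              linarith

end Pool.Agent.AcyK
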