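import Pool.Agent.AcyK.ODefs
import Pool.Agent.AcyK.GraphDefs
import Pool.Agent.AcyK.Split

/-! # Graphs without induced `K_(t x 2)` are splittable (row FS1 of MP_af9dfb_K, helper37) -/

set_option autoImplicit false
set_option linter.unusedSectionVars false

namespace Pool.Agent.AcyK

open Finset
open scoped Classical

universe u

section

variable {V : Type u} (G : SimpleGraph V)

/-- All four cross pairs are adjacent. -/
def Cross (p q : V × V) : Prop :=
  (G.Adj p.1 q.1 ∧ G.Adj p.1 q.2) ∧ G.Adj p.2 q.1 ∧ G.Adj p.2 q.2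

/-- A family of `t` non-edges with all cross pairs adjacent is an induced `K_(t x 2)`. -/
theorem ind_of_pairs {t : ℕ} (g : Fin t → V × V) (h1 : ∀ i, (g i).1 ≠ (g i).2)
    (h2 : ∀ i, ¬ G.Adj (g i).1 (g i).2) (h3 : ∀ i j, i ≠ j → Cross G (g i) (g j)) :
    (SimpleGraph.completeMultipartiteGraph fun _ : Fin t => Fin 2).IsIndContained G := by
  have key : ∀ v w : (_ : Fin t) × Fin 2,
      G.Adj (if v.2 = 0 then (g v.1).1 else (g v.1).2)
        (if w.2 = 0 then (g w.1).1 else (g w.1).2) ↔ v.1 ≠ w.1 := by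
    rintro ⟨i, a⟩ ⟨j, b⟩
    constructor
    · intro h hij
      simp only at hij h
      subst hij
      have h4 := h2 i
      have h5 := fun h : G.Adj (g i).2 (g i).1 => h4 h.symm
      split_ifs at h
      · exact G.loopless.irrefl _ h
      · exact h4 h
      · exact h5 h
      · exact G.loopless.irrefl _ h
    · intro hij
      obtain ⟨⟨h4, h5⟩, h6, h7⟩ := h3 i j hij
      simp only
      split_ifs
      · exact h4
      · exact h5
      · exact h6
      · exact h7
  refine ⟨⟨⟨fun v => if v.2 = 0 then (g v.1).1 else (g v.1).2, ?_⟩, ?_⟩⟩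
  · rintro ⟨i, a⟩ ⟨j, b⟩ h
    simp only at h
    by_cases hij : i = j
    · subst hij
      have h4 := h1 i
      have h5 := h4.symm
      congr
      by_cases ha : a = 0 <;> by_cases hb : b = 0
      · rw [ha, hb]
      · rw [if_pos ha, if_neg hb] at h
        exact absurd h h4
      · rw [if_neg ha, if_pos hb] at h
        exact absurd h h5
      · omega
    · have := (key ⟨i, a⟩ ⟨j, b⟩).2 hij
      simp only at this
      rw [h] at this
      exact absurd this (G.loopless.irrefl _)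
  · rintro v w
    exact key v w

/-- Pairs of distinct non-adjacent common neighbours of `z` and `z'`. -/
def Gd (z z' : V) (p : V × V) : Prop :=
  (p.1 ≠ p.2 ∧ ¬ G.Adj p.1 p.2) ∧ Cross G (z, z') p

/-- The link graph. -/
def Lk (z z' : V) : SimpleGraph (Sym2 V) where
  Adj P Q := ∃ p q : V × V, P = s(p.1, p.2) ∧ Q = s(q.1, q.2) ∧ Gd G z z' p ∧ Gd G z z' q ∧
    Cross G p q
  symm := ⟨by
    rintro P Q ⟨p, q, h1, h2, h3, h4, ⟨h5, h6⟩, h7, h8⟩
    exact ⟨q, p, h2, h1, h4, h3, ⟨h5.symm, h7.symm⟩, h6.symm, h8.symm⟩⟩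
  loopless := ⟨by
    rintro P ⟨p, q, h1, h2, h3, h4, ⟨h5, h6⟩, h7, h8⟩
    rw [h1, Sym2.eq_iff] at h2
    rcases h2 with ⟨h9, h10⟩ | ⟨h9, h10⟩
    · rw [h9] at h5
      exact G.loopless.irrefl _ h5
    · rw [h9] at h6
      exact G.loopless.irrefl _ h6⟩

theorem cross_of_adj {z z' : V} {p q : V × V}
    (h : (Lk G z z').Adj s(p.1, p.2) s(q.1, q.2)) : Cross G p q := by
  obtain ⟨p', q', h1, h2, h3, h4, ⟨h5, h6⟩, h7, h8⟩ := h
  rw [Sym2.eq_iff] at h1 h2
  rcases h1 with ⟨a1, a2⟩ | ⟨a1, a2⟩ <;> rcases h2 with ⟨b1, b2⟩ | ⟨b1, b2⟩ <;>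
    (unfold Cross; rw [a1, a2, b1, b2])
  · exact ⟨⟨h5, h6⟩, h7, h8⟩
  · exact ⟨⟨h6, h5⟩, h8, h7⟩
  · exact ⟨⟨h7, h8⟩, h5, h6⟩
  · exact ⟨⟨h8, h7⟩, h6, h5⟩

theorem cliqueFree_of_free {t : ℕ} (ht : 3 ≤ t)
    (hG : ¬ (SimpleGraph.completeMultipartiteGraph fun _ : Fin t => Fin 2).IsIndContained G)
    {z z' : V} (hz : z ≠ z') (hzz : ¬ G.Adj z z') : (Lk G z z').CliqueFree (t - 2 + 1) := by
  obtain ⟨t', rfl⟩ : ∃ t', t = t' + 1 := ⟨t - 1, by omega⟩
  intro T hT
  have hc : T.card = t' := by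
    rw [hT.card_eq]
    omega
  have hcl : ∀ P ∈ T, ∀ Q ∈ T, P ≠ Q → (Lk G z z').Adj P Q := fun P hP Q hQ hne =>
    hT.isClique hP hQ hne
  have hrep : ∀ P ∈ T, ∃ p : V × V, P = s(p.1, p.2) ∧ Gd G z z' p := by
    intro P hP
    obtain ⟨Q, hQ, hne⟩ := exists_mem_ne (s := T) (by omega) P
    obtain ⟨p, q, h1, h2, h3, h4, h5⟩ := hcl P hP Q hQ hne.symm
    exact ⟨p, h1, h3⟩
  set e := T.equivFinOfCardEq hc with he
  have hrep' : ∀ i : Fin t', ∃ p : V × V, ((e.symm i : T) : Sym2 V) = s(p.1, p.2) ∧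
      Gd G z z' p := fun i => hrep _ (e.symm i).2
  choose f hf1 hf2 using hrep'
  apply hG
  refine ind_of_pairs G (Fin.cons (z, z') f) ?_ ?_ ?_
  · intro i
    refine Fin.cases ?_ ?_ i
    · exact hz
    · intro i
      rw [Fin.cons_succ]
      exact (hf2 i).1.1
  · intro i
    refine Fin.cases ?_ ?_ i
    · exact hzz
    · intro i
      rw [Fin.cons_succ]
      exact (hf2 i).1.2
  · intro i j
    refine Fin.cases ?_ ?_ i
    · refine Fin.cases ?_ ?_ j
      · intro h
        exact absurd rfl h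
      · intro j _
        rw [Fin.cons_zero, Fin.cons_succ]
        exact (hf2 j).2
    · intro i
      refine Fin.cases ?_ ?_ j
      · intro _
        rw [Fin.cons_zero, Fin.cons_succ]
        obtain ⟨⟨h1, h2⟩, h3, h4⟩ := (hf2 i).2
        exact ⟨⟨h1.symm, h3.symm⟩, h2.symm, h4.symm⟩
      · intro j hij
        rw [Fin.cons_succ, Fin.cons_succ]
        have hij' : i ≠ j := fun h => hij (by rw [h])
        apply cross_of_adj G (z := z) (z' := z')
        rw [← hf1 i, ← hf1 j]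
        apply hcl _ (e.symm i).2 _ (e.symm j).2
        intro h
        exact hij' (e.symm.injective (Subtype.ext h))

variable [Fintype V] [DecidableEq V]

theorem gd_of_mu {z z' : V} {μ : V → V → ℝ}
    (hμ : ∀ u x, μ u x ≠ 0 → u ≠ x ∧ u ∉ nb G x ∧ u ∈ cN (nb G) z z' ∧ x ∈ cN (nb G) z z')
    {u x : V} (h : μ u x ≠ 0) : Gd G z z' (u, x) := by
  obtain ⟨h1, h2, h3, h4⟩ := hμ u x h
  unfold cN at h3 h4
  rw [mem_inter, mem_nb, mem_nb] at h3 h4
  rw [mem_nb] at h2
  exact ⟨⟨h1, fun h => h2 h.symm⟩, ⟨h3.1, h4.1⟩, h3.2, h4.2⟩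

theorem splittable_of_free {V : Type u} [Fintype V] [DecidableEq V] (G : SimpleGraph V) {t : ℕ}
    (ht : 3 ≤ t)
    (hG : ¬ (SimpleGraph.completeMultipartiteGraph fun _ : Fin t => Fin 2).IsIndContained G)
    {ε : ℝ} (hε : 0 < ε) (hε' : ε ≤ 1 / 2) : Splittable (nb G) ⌈1 / ε ^ (2 * t)⌉₊ ε := by
  intro z z' hz hzz μ hμ0 hμs hμ
  rw [mem_nb] at hzz
  have hzz' : ¬ G.Adj z z' := fun h => hzz h.symm
  have hcf := cliqueFree_of_free G ht hG hz hzz'
  have e2 : 2 * (t - 2) + 4 = 2 * t := by omega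
  set μ' : Sym2 V → ℝ := fun P => ∑ e : V × V, if s(e.1, e.2) = P then μ e.1 e.2 else 0 with hμ'
  have hμ'0 : ∀ P, 0 ≤ μ' P := by
    intro P
    refine sum_nonneg fun e _ => ?_
    split_ifs
    · exact hμ0 _ _
    · exact le_rfl
  have key := split_cliqueFree (t - 2) hε hε' (Lk G z z') hcf μ' hμ'0
  rw [e2] at key
  obtain ⟨J, q, hq1, hq2, hJ⟩ := key
  have hfib : ∀ F : Sym2 V → Prop, (∑ P, if F P then μ' P else 0) =
      ∑ s, ∑ s', if F s(s, s') then μ s s' else 0 := by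
    intro F
    rw [← Fintype.sum_prod_type' (f := fun s s' => if F s(s, s') then μ s s' else 0)]
    simp only [hμ']
    have : ∀ P : Sym2 V, (if F P then ∑ e : V × V, (if s(e.1, e.2) = P then μ e.1 e.2 else 0)
        else 0) = ∑ e : V × V, if s(e.1, e.2) = P then (if F P then μ e.1 e.2 else 0) else 0 := by
      intro P
      by_cases h : F P
      · rw [if_pos h]
        refine sum_congr rfl fun e _ => ?_
        rw [if_pos h]
      · rw [if_neg h]
        symm
        apply sum_eq_zero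
        intro e _
        rw [if_neg h]
        split_ifs <;> rfl
    rw [sum_congr rfl fun P _ => this P, sum_comm]
    refine sum_congr rfl fun e _ => ?_
    rw [sum_ite_eq, if_pos (mem_univ _)]
  refine ⟨fun u x => J s(u, x), q, fun u x => congrArg J Sym2.eq_swap, ?_, hq2, ?_⟩
  · intro i
    refine le_trans (le_of_eq ?_) (hq1 i)
    congr 1
    ring
  · intro u x hux
    have hP := gd_of_mu G hμ hux
    have h1 := hJ s(u, x)
    have h2 : (∑ s', μ' s') = ∑ s, ∑ s', μ s s' := by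
      have := hfib fun _ => True
      simpa using this
    rw [h2] at h1
    refine le_trans ?_ h1
    have h4 : (∑ s' ∈ univ.filter (fun s' => (Lk G z z').Adj s(u, x) s' ∧ J s' = J s(u, x)),
        μ' s') = ∑ s, ∑ s', if (Lk G z z').Adj s(u, x) s(s, s') ∧ J s(s, s') = J s(u, x) then
          μ s s' else 0 := by
      rw [sum_filter]
      convert hfib fun P => (Lk G z z').Adj s(u, x) P ∧ J P = J s(u, x)
    refine le_trans ?_ (le_of_eq h4.symm)
    have h3 : ∀ (A : Finset V) (F : V → V → ℝ), (∀ s s', 0 ≤ F s s') →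
        ∀ F' : V → V → ℝ, (∀ s s', 0 ≤ F' s s') → (∀ s ∈ A, ∀ s' ∈ A, F s s' ≤ F' s s') →
        ∑ s ∈ A, ∑ s' ∈ A, F s s' ≤ ∑ s, ∑ s', F' s s' := by
      intro A F _ F' hF' hle
      calc ∑ s ∈ A, ∑ s' ∈ A, F s s' ≤ ∑ s ∈ A, ∑ s' ∈ A, F' s s' :=
            sum_le_sum fun s hs => sum_le_sum fun s' hs' => hle s hs s' hs'
        _ ≤ ∑ s ∈ A, ∑ s', F' s s' := sum_le_sum fun s _ =>
            sum_le_sum_of_subset_of_nonneg (subset_univ _) fun s' _ _ => hF' s s'
        _ ≤ ∑ s, ∑ s', F' s s' :=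
            sum_le_sum_of_subset_of_nonneg (subset_univ _) fun s _ _ =>
              sum_nonneg fun s' _ => hF' s s'
    refine h3 _ _ ?_ _ ?_ ?_
    · intro s s'
      split_ifs
      · exact hμ0 _ _
      · exact le_rfl
    · intro s s'
      split_ifs
      · exact hμ0 _ _
      · exact le_rfl
    · intro s hs s' hs'
      by_cases hJJ : J s(s, s') = J s(u, x)
      · rw [if_pos hJJ]
        by_cases hm : μ s s' = 0
        · rw [hm]
          split_ifs <;> exact le_rfl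
        · rw [if_pos]
          refine ⟨⟨(u, x), (s, s'), rfl, rfl, hP, gd_of_mu G hμ hm, ?_⟩, hJJ⟩
          unfold cN at hs hs'
          rw [mem_inter, mem_nb, mem_nb] at hs hs'
          exact ⟨⟨hs.1, hs'.1⟩, hs.2, hs'.2⟩
      · rw [if_neg hJJ]
        split_ifs
        · exact hμ0 _ _
        · exact le_rfl

/-- The case `t = 3`: the link graphs have no edges. -/
theorem splittable_octahedron {V : Type u} [Fintype V] [DecidableEq V] (G : SimpleGraph V)
    (hG : ¬ (SimpleGraph.completeMultipartiteGraph fun _ : Fin 3 => Fin 2).IsIndContained G)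
    {ε : ℝ} (hε : 0 < ε) : Splittable (nb G) 0 ε := by
  intro z z' hz hzz μ hμ0 hμs hμ
  rw [mem_nb] at hzz
  have hzz' : ¬ G.Adj z z' := fun h => hzz h.symm
  refine ⟨fun _ _ => 0, fun _ => 1, fun _ _ => rfl, fun _ => by norm_num, by simp, ?_⟩
  intro u x hux
  have hP := gd_of_mu G hμ hux
  have h0 : 0 ≤ 2 * ε * 1 * ∑ s, ∑ s', μ s s' := by
    have : 0 ≤ ∑ s, ∑ s', μ s s' := sum_nonneg fun s _ => sum_nonneg fun s' _ => hμ0 s s'
    positivity
  refine le_trans (le_of_eq ?_) h0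
  apply sum_eq_zero
  intro s hs
  apply sum_eq_zero
  intro s' hs'
  rw [if_pos rfl]
  by_contra hm
  apply hG
  have hQ := gd_of_mu G hμ hm
  have hC : Cross G (u, x) (s, s') := by
    unfold cN at hs hs'
    rw [mem_inter, mem_nb, mem_nb] at hs hs'
    exact ⟨⟨hs.1, hs'.1⟩, hs.2, hs'.2⟩
  have hsym : ∀ p q, Cross G p q → Cross G q p := by
    rintro p q ⟨⟨h1, h2⟩, h3, h4⟩
    exact ⟨⟨h1.symm, h3.symm⟩, h2.symm, h4.symm⟩
  refine ind_of_pairs G ![(z, z'), (u, x), (s, s')] ?_ ?_ ?_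
  · intro i
    fin_cases i
    · exact hz
    · exact hP.1.1
    · exact hQ.1.1
  · intro i
    fin_cases i
    · exact hzz'
    · exact hP.1.2
    · exact hQ.1.2
  · intro i j hij
    fin_cases i <;> fin_cases j
    · exact absurd rfl hij
    · exact hP.2
    · exact hQ.2
    · exact hsym _ _ hP.2
    · exact absurd rfl hij
    · exact hC
    · exact hsym _ _ hQ.2
    · exact hsym _ _ hC
    · exact absurd rfl hij

end

end Pool.Agent.AcyK
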