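import Pool.Agent.AcyK.Top
import Pool.Agent.AcyK.SplitG
import Pool.Agent.AcyK.SplitC

/-! # The upper bounds for classes of graphs (project MP_af9dfb_K) -/

set_option autoImplicit false
set_option linter.unusedSectionVars false

namespace Pool.Agent.AcyK

open Finset
open scoped Classical

universe u

/-- Comparison of the bounds. -/
theorem bnd_le {d NN : ℕ} (hd : 3 ≤ d) {X : ℝ} (hX : 0 ≤ X)
    (h : 1 + Real.log (2 * NN + 2) ≤ 8 * X) :
    bnd d NN ≤ 2 * ((X / Real.log d) ^ ((1 : ℝ) / 3) * (d : ℝ) ^ ((4 : ℝ) / 3)) := by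
  have hd3 : (3 : ℝ) ≤ d := by exact_mod_cast hd
  have hlog : 0 < Real.log d := Real.log_pos (by linarith)
  have h0 : 0 ≤ 1 + Real.log (2 * (NN : ℝ) + 2) := by
    have : 0 ≤ Real.log (2 * (NN : ℝ) + 2) := Real.log_nonneg (by
      have : (0 : ℝ) ≤ NN := Nat.cast_nonneg _
      linarith)
    linarith
  have h1 : ((1 + Real.log (2 * NN + 2)) / Real.log d) ^ ((1 : ℝ) / 3) ≤
      (8 * (X / Real.log d)) ^ ((1 : ℝ) / 3) := by
    refine Real.rpow_le_rpow (div_nonneg h0 hlog.le) ?_ (by norm_num)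
    rw [← mul_div_assoc]
    exact div_le_div_of_nonneg_right h hlog.le
  have h2 : (8 * (X / Real.log d)) ^ ((1 : ℝ) / 3) = 2 * (X / Real.log d) ^ ((1 : ℝ) / 3) := by
    rw [Real.mul_rpow (by norm_num) (div_nonneg hX hlog.le)]
    congr 1
    rw [show (8 : ℝ) = 2 ^ (3 : ℕ) by norm_num, ← Real.rpow_natCast, ← Real.rpow_mul (by norm_num)]
    norm_num
  have h3 : (0 : ℝ) ≤ (d : ℝ) ^ ((4 : ℝ) / 3) := by positivity
  unfold bnd
  rw [h2] at h1
  calc _ ≤ 2 * (X / Real.log d) ^ ((1 : ℝ) / 3) * (d : ℝ) ^ ((4 : ℝ) / 3) :=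
        mul_le_mul_of_nonneg_right h1 h3
    _ = _ := by ring

/-- Colourable common neighbourhoods. -/
theorem upper_col : ∃ d₀ : ℕ, ∀ d : ℕ, d₀ ≤ d → ∀ (V : Type u) [Fintype V] [DecidableEq V]
    (G : SimpleGraph V), (∀ v, (nb G v).card ≤ d) → ∀ r : ℕ, 1 ≤ r →
    (∀ z z', z ≠ z' → ¬ G.Adj z z' → (G.induce {v | G.Adj z v ∧ G.Adj z' v}).Colorable r) →
    (acyclicNumber G : ℝ) ≤
      500000 * (((1 + Real.log r) / Real.log d) ^ ((1 : ℝ) / 3) * (d : ℝ) ^ ((4 : ℝ) / 3)) := by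
  obtain ⟨d₀, h₀⟩ := upper_core
  refine ⟨max d₀ 3, fun d hd V _ _ G hdeg r hr hG => ?_⟩
  have hd3 : 3 ≤ d := le_trans (le_max_right _ _) hd
  have hd3' : (3 : ℝ) ≤ d := by exact_mod_cast hd3
  have hlog : 0 < Real.log d := Real.log_pos (by linarith)
  have h1 := h₀ d (le_trans (le_max_left _ _) hd) V G hdeg (r - 1)
    (splittable_of_colorable G hr hG (by positivity))
  have hr' : (1 : ℝ) ≤ r := by exact_mod_cast hr
  have hlr : 0 ≤ Real.log r := Real.log_nonneg hr'
  have h2 : bnd d (r - 1) ≤ 2 * (((1 + Real.log r) / Real.log d) ^ ((1 : ℝ) / 3) *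
      (d : ℝ) ^ ((4 : ℝ) / 3)) := by
    refine bnd_le hd3 (by linarith) ?_
    have e1 : 2 * ((r - 1 : ℕ) : ℝ) + 2 = 2 * r := by
      rw [Nat.cast_sub hr]
      push_cast
      ring
    rw [e1, Real.log_mul (by norm_num) (by linarith)]
    have := Real.log_two_lt_d9
    linarith
  linarith

/-- No induced octahedron. -/
theorem upper_oct : ∃ d₀ : ℕ, ∀ d : ℕ, d₀ ≤ d → ∀ (V : Type u) [Fintype V] [DecidableEq V]
    (G : SimpleGraph V), (∀ v, (nb G v).card ≤ d) →
    ¬ (SimpleGraph.completeMultipartiteGraph fun _ : Fin 3 => Fin 2).IsIndContained G →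
    (acyclicNumber G : ℝ) ≤
      500000 * ((1 / Real.log d) ^ ((1 : ℝ) / 3) * (d : ℝ) ^ ((4 : ℝ) / 3)) := by
  obtain ⟨d₀, h₀⟩ := upper_core
  refine ⟨max d₀ 3, fun d hd V _ _ G hdeg hG => ?_⟩
  have hd3 : 3 ≤ d := le_trans (le_max_right _ _) hd
  have hd3' : (3 : ℝ) ≤ d := by exact_mod_cast hd3
  have hlog : 0 < Real.log d := Real.log_pos (by linarith)
  have h1 := h₀ d (le_trans (le_max_left _ _) hd) V G hdeg 0
    (splittable_octahedron G hG (by positivity))
  have h2 : bnd d 0 ≤ 2 * ((1 / Real.log d) ^ ((1 : ℝ) / 3) * (d : ℝ) ^ ((4 : ℝ) / 3)) := by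
    refine bnd_le hd3 (by norm_num) ?_
    have := Real.log_two_lt_d9
    rw [Nat.cast_zero, mul_zero, zero_add]
    linarith
  linarith

/-- No induced complete multipartite graph with `t` classes of size two. -/
theorem upper_free : ∃ d₀ : ℕ, ∀ d : ℕ, d₀ ≤ d → ∀ (V : Type u) [Fintype V] [DecidableEq V]
    (G : SimpleGraph V), (∀ v, (nb G v).card ≤ d) → ∀ t : ℕ, 3 ≤ t →
    ¬ (SimpleGraph.completeMultipartiteGraph fun _ : Fin t => Fin 2).IsIndContained G →
    (acyclicNumber G : ℝ) ≤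
      500000 * (((1 + ((t : ℝ) - 3) * Real.log (Real.log d)) / Real.log d) ^ ((1 : ℝ) / 3) *
        (d : ℝ) ^ ((4 : ℝ) / 3)) := by
  obtain ⟨d₀, h₀⟩ := upper_core
  obtain ⟨d₁, h₁⟩ := upper_oct
  have htend : Filter.Tendsto (fun d : ℕ => Real.log (d : ℝ)) Filter.atTop Filter.atTop :=
    Real.tendsto_log_atTop.comp tendsto_natCast_atTop_atTop
  obtain ⟨d₂, h₂⟩ := Filter.eventually_atTop.1 (htend.eventually_ge_atTop 100)
  refine ⟨max (max d₀ d₁) (max d₂ 3), fun d hd V _ _ G hdeg t ht hG => ?_⟩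
  have hd3 : 3 ≤ d := le_trans (le_trans (le_max_right _ _) (le_max_right _ _)) hd
  have hd3' : (3 : ℝ) ≤ d := by exact_mod_cast hd3
  have hl : 100 ≤ Real.log d := h₂ d (le_trans (le_trans (le_max_left _ _) (le_max_right _ _)) hd)
  have hl0 : 0 < Real.log d := by linarith
  have hll : 0 ≤ Real.log (Real.log d) := Real.log_nonneg (by linarith)
  rcases Nat.eq_or_lt_of_le ht with h3 | h4
  · subst h3
    have := h₁ d (le_trans (le_trans (le_max_right _ _) (le_max_left _ _)) hd) V G hdeg hG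
    have e : (1 + (((3 : ℕ) : ℝ) - 3) * Real.log (Real.log d)) = 1 := by
      push_cast
      ring
    rw [e]
    exact this
  · have hε : 0 < 1 / (100 * (Real.log d / 3600)) := by positivity
    have hε' : 1 / (100 * (Real.log (d : ℝ) / 3600)) ≤ 1 / 2 :=
      one_div_le_one_div_of_le (by norm_num) (by linarith)
    have h1 := h₀ d (le_trans (le_trans (le_max_left _ _) (le_max_left _ _)) hd) V G hdeg _
      (splittable_of_free G ht hG hε hε')
    set L : ℝ := Real.log d with hL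
    set NN : ℕ := ⌈1 / (1 / (100 * (L / 3600))) ^ (2 * t)⌉₊ with hNN
    have ht4 : (4 : ℝ) ≤ t := by exact_mod_cast h4
    have e1 : 1 / (1 / (100 * (L / 3600))) ^ (2 * t) = (L / 36) ^ (2 * t) := by
      rw [one_div, one_div, inv_pow, inv_inv]
      congr 1
      ring
    have e2 : (NN : ℝ) ≤ (L / 36) ^ (2 * t) + 1 := by
      rw [hNN, e1]
      exact (Nat.ceil_lt_add_one (by positivity)).le
    have e3 : (1 : ℝ) ≤ (L / 36) ^ (2 * t) := one_le_pow₀ (by linarith)
    have e4 : (L / 36) ^ (2 * t) ≤ L ^ (2 * t) :=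
      pow_le_pow_left₀ (by positivity) (by linarith) _
    have e5 : 2 * (NN : ℝ) + 2 ≤ 6 * L ^ (2 * t) := by linarith
    have e6 : Real.log (2 * (NN : ℝ) + 2) ≤ Real.log 6 + 2 * t * Real.log L := by
      have hN0 : (0 : ℝ) ≤ NN := Nat.cast_nonneg _
      calc Real.log (2 * (NN : ℝ) + 2) ≤ Real.log (6 * L ^ (2 * t)) :=
            Real.log_le_log (by linarith) e5
        _ = Real.log 6 + 2 * t * Real.log L := by
            rw [Real.log_mul (by norm_num) (by positivity), Real.log_pow]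
            push_cast
            ring
    have e7 : Real.log 6 ≤ 3 := by
      have h8 : Real.log 6 ≤ Real.log (2 ^ 3 : ℝ) := Real.log_le_log (by norm_num) (by norm_num)
      rw [Real.log_pow] at h8
      have := Real.log_two_lt_d9
      push_cast at h8
      linarith
    have h2 : bnd d NN ≤ 2 * (((1 + ((t : ℝ) - 3) * Real.log L) / L) ^ ((1 : ℝ) / 3) *
        (d : ℝ) ^ ((4 : ℝ) / 3)) := by
      have h3' : 0 ≤ ((t : ℝ) - 3) * Real.log L := mul_nonneg (by linarith) hll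
      refine bnd_le hd3 (by linarith) ?_
      have h5 : 2 * t * Real.log L ≤ 8 * (((t : ℝ) - 3) * Real.log L) := by
        have : 2 * (t : ℝ) ≤ 8 * ((t : ℝ) - 3) := by linarith
        calc 2 * t * Real.log L ≤ 8 * ((t : ℝ) - 3) * Real.log L :=
              mul_le_mul_of_nonneg_right this hll
          _ = _ := by ring
      linarith
    linarith

end Pool.Agent.AcyK
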