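import Pool.Agent.AcyK.LamB
import Pool.Agent.AcyK.LamC
import Pool.Agent.AcyK.BasicC

/-! # One round: the predictions (module SB) -/

set_option autoImplicit false
set_option linter.unusedSectionVars false

namespace Pool.Agent.AcyK

open Finset
open Pool.Agent.Acy (IsPM wt Ex Pr mean)
open scoped Classical

universe u v

section

variable {Q ι : Type u} [Fintype Q] [DecidableEq Q] [Fintype ι] [DecidableEq ι]

namespace NibData

variable {D : NibData Q ι}

section stepB
variable (hD : D.Ok) {S : NState Q D.k} {m : ℕ} (hI : D.Inv S m) (hm : m < D.M)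
  {lam : Q → Option Bool} (hA : D.GoodA S m lam) (ω : Q → Fin D.k)
include hD hI hm hA

/-- Change of one term of a linear statistic with weights `w`. -/
theorem step_term_gen (w : Q → ℝ) (C : ℝ) (hw : ∀ y, |w y| ≤ C) (R : Finset Q)
    (hR : ∀ y, y ∉ R → w y = 0) (y : Q) (c : Fin D.k) :
    |w y * (D.step S m lam ω).v y c - (w y * S.v y c +
      (if S.al y c then w y * S.v y c * (D.pk S lam ω y c - D.cmp S lam y c) else 0))| ≤
      (if y ∈ R then C * D.T ^ 2 * ((D.J S lam ω y c : ℝ) * ((D.J S lam ω y c : ℝ) - 1)) else 0) := by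
  have hT := hD.big
  have hT0 := hT.pos
  have hT1 := hT.one_le
  have hC0 : 0 ≤ C := (abs_nonneg _).trans (hw y)
  have hJ0 := J_mul_nonneg (D := D) S lam ω y c
  have hlast : 0 ≤ (if y ∈ R then
      C * D.T ^ 2 * ((D.J S lam ω y c : ℝ) * ((D.J S lam ω y c : ℝ) - 1)) else 0) := by
    split_ifs
    · positivity
    · exact le_rfl
  by_cases hal : S.al y c
  · rw [if_pos hal]
    by_cases hJ : D.J S lam ω y c ≤ 1
    · have hv : (D.step S m lam ω).v y c =
          S.v y c * (1 + D.pk S lam ω y c - D.cmp S lam y c) := by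
        show (if S.al y c then (if D.J S lam ω y c ≤ 1 then
          S.v y c * (1 + D.pk S lam ω y c - D.cmp S lam y c) else 0) else S.v y c) = _
        rw [if_pos hal, if_pos hJ]
      rw [hv]
      have : w y * (S.v y c * (1 + D.pk S lam ω y c - D.cmp S lam y c)) -
          (w y * S.v y c + w y * S.v y c * (D.pk S lam ω y c - D.cmp S lam y c)) = 0 := by
        ring
      rw [this, abs_zero]
      exact hlast
    · have hv : (D.step S m lam ω).v y c = 0 := by
        show (if S.al y c then (if D.J S lam ω y c ≤ 1 then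
          S.v y c * (1 + D.pk S lam ω y c - D.cmp S lam y c) else 0) else S.v y c) = _
        rw [if_pos hal, if_neg hJ]
      rw [hv, mul_zero, zero_sub, abs_neg]
      by_cases hyR : y ∈ R
      · rw [if_pos hyR]
        have hJ2 : (2 : ℝ) ≤ (D.J S lam ω y c : ℝ) := by
          have : 2 ≤ D.J S lam ω y c := by omega
          exact_mod_cast this
        have hv0 := hI.al_pos y c hal
        have hv1 := v_le' hD hI hm.le y c
        have hpk := pk_abs S lam ω hD y c
        have hcmp := cmp_abs hD hI hm hA y c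
        have h110 : 1 / D.T ^ 110 ≤ 1 / 1000000 := hT.small (by norm_num)
        have h1 : |1 + (D.pk S lam ω y c - D.cmp S lam y c)| ≤
            2 * (D.T * D.J S lam ω y c) := by
          have h2 := abs_le.mp hpk
          have h3 := abs_le.mp (hcmp.trans h110)
          have h4 : 2 ≤ D.T * D.J S lam ω y c := by nlinarith
          rw [abs_le]
          constructor <;> linarith
        have h5 : w y * S.v y c +
            w y * S.v y c * (D.pk S lam ω y c - D.cmp S lam y c) =
            w y * (S.v y c * (1 + (D.pk S lam ω y c - D.cmp S lam y c))) := by ring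
        rw [h5, abs_mul, abs_mul, abs_of_pos hv0]
        have h10 : (D.J S lam ω y c : ℝ) ≤
            (D.J S lam ω y c : ℝ) * ((D.J S lam ω y c : ℝ) - 1) := by
          nlinarith
        have h11 : S.v y c * |1 + (D.pk S lam ω y c - D.cmp S lam y c)| ≤
            D.T ^ 2 * ((D.J S lam ω y c : ℝ) * ((D.J S lam ω y c : ℝ) - 1)) := by
          calc S.v y c * |1 + (D.pk S lam ω y c - D.cmp S lam y c)|
              ≤ (D.T / 1000) * (2 * (D.T * D.J S lam ω y c)) :=
                mul_le_mul hv1 h1 (abs_nonneg _) (by positivity)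
            _ = D.T ^ 2 * (1 / 500 * (D.J S lam ω y c : ℝ)) := by ring
            _ ≤ _ := by
                refine mul_le_mul_of_nonneg_left ?_ (by positivity)
                linarith
        calc |w y| * (S.v y c * |1 + (D.pk S lam ω y c - D.cmp S lam y c)|)
            ≤ C * (D.T ^ 2 * ((D.J S lam ω y c : ℝ) * ((D.J S lam ω y c : ℝ) - 1))) :=
              mul_le_mul (hw y) h11 (by positivity) hC0
          _ = _ := by ring
      · rw [hR y hyR, if_neg hyR]
        simp
  · rw [if_neg hal]
    have hv : (D.step S m lam ω).v y c = S.v y c := by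
      show (if S.al y c then (if D.J S lam ω y c ≤ 1 then
        S.v y c * (1 + D.pk S lam ω y c - D.cmp S lam y c) else 0) else S.v y c) = _
      rw [if_neg hal]
    rw [hv, add_zero, sub_self, abs_zero]
    exact hlast

/-- Linear part: the good picks are controlled by the centred sum, the bad picks by the quadratic
variation. -/
theorem step_lin_gen (c : Fin D.k) (g : Q → ℝ) (e q : ℝ)
    (h4 : |∑ u ∈ D.LL S lam, ((if ω u = c then 1 else 0) - D.p S lam u c) *
      (if |g u| ≤ D.d3 then g u else 0)| ≤ e)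
    (hbad : ∀ u ∈ D.LL S lam, ω u = c → |g u| ≤ D.d3)
    (hq : ∑ u ∈ D.LL S lam, D.p S lam u c * g u ^ 2 ≤ q) :
    |∑ u ∈ D.LL S lam, ((if ω u = c then 1 else 0) - D.p S lam u c) * g u| ≤
      e + D.T ^ 190 * q := by
  have hT := hD.big
  have hT0 := hT.pos
  have hd : 0 < D.d3 := by
    unfold d3
    positivity
  have h1 : ∀ u ∈ D.LL S lam, |((if ω u = c then 1 else 0) - D.p S lam u c) * g u -
      ((if ω u = c then 1 else 0) - D.p S lam u c) * (if |g u| ≤ D.d3 then g u else 0)| ≤
      D.T ^ 190 * (D.p S lam u c * g u ^ 2) := by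
    intro u hu
    have hp := p_nonneg hD hI hm.le lam u c
    have hpos : 0 ≤ D.T ^ 190 * (D.p S lam u c * g u ^ 2) := by positivity
    by_cases hg : |g u| ≤ D.d3
    · rw [if_pos hg, sub_self, abs_zero]
      exact hpos
    · rw [if_neg hg, mul_zero, sub_zero]
      have hω : ω u ≠ c := fun h' => hg (hbad u hu h')
      rw [if_neg hω, zero_sub, abs_mul, abs_neg, abs_of_nonneg hp]
      have h2 : D.d3 * |g u| ≤ g u ^ 2 := by
        rw [← sq_abs, pow_two]
        exact mul_le_mul_of_nonneg_right (not_le.mp hg).le (abs_nonneg _)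
      have h3 : |g u| ≤ D.T ^ 190 * g u ^ 2 := by
        have h5 : D.T ^ 190 * (D.d3 * |g u|) = |g u| := by
          unfold d3
          field_simp
        rw [← h5]
        exact mul_le_mul_of_nonneg_left h2 (by positivity)
      calc D.p S lam u c * |g u| ≤ D.p S lam u c * (D.T ^ 190 * g u ^ 2) :=
          mul_le_mul_of_nonneg_left h3 hp
        _ = _ := by ring
  have h2 : |∑ u ∈ D.LL S lam, ((if ω u = c then 1 else 0) - D.p S lam u c) * g u -
      ∑ u ∈ D.LL S lam, ((if ω u = c then 1 else 0) - D.p S lam u c) *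
        (if |g u| ≤ D.d3 then g u else 0)| ≤ D.T ^ 190 * q := by
    rw [← Finset.sum_sub_distrib]
    refine (Finset.abs_sum_le_sum_abs _ _).trans ((Finset.sum_le_sum h1).trans ?_)
    rw [← Finset.mul_sum]
    exact mul_le_mul_of_nonneg_left hq (by positivity)
  have h3 := abs_sub_abs_le_abs_sub
    (∑ u ∈ D.LL S lam, ((if ω u = c then 1 else 0) - D.p S lam u c) * g u)
    (∑ u ∈ D.LL S lam, ((if ω u = c then 1 else 0) - D.p S lam u c) *
        (if |g u| ≤ D.d3 then g u else 0))
  linarith

/-- Linear part. -/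
theorem step_lin (hG : D.GoodB S lam ω) (b : Bool) (x : Q) (c : Fin D.k)
    (h : (D.step S m lam ω).al x c) :
    |∑ u ∈ D.LL S lam, ((if ω u = c then 1 else 0) - D.p S lam u c) * D.G S lam b u x c| ≤
      1 / D.T ^ 187 + 1 / D.T ^ 364 := by
  have hT := hD.big
  have hT0 := hT.pos
  have h4 := hG.e4 b x c
  rw [cen_Y4] at h4
  have h := step_lin_gen hD hI hm hA ω c (fun u => D.G S lam b u x c) _ _ h4
    (fun u hu hc => h.2.2.2.2.2 b u hu hc) (qv_le hD hI hm hA b x c)
  have h5 : D.T ^ 190 * (1 / D.T ^ 554) = 1 / D.T ^ 364 := by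
    field_simp
  rw [h5] at h
  exact h

theorem step_pred (hG : D.GoodB S lam ω) (b : Bool) (x : Q) (c : Fin D.k)
    (h : (D.step S m lam ω).al x c) :
    (D.step S m lam ω).ac b x c + D.Nf (D.step S m lam ω) b x c ≤
      2 / D.k * (∑ y, D.a b x y) + (m + 1 : ℕ) / D.T ^ 180 + D.sg (m + 1) / D.T ^ 20 +
        6 * D.T ^ 3 / D.k * (D.step S m lam ω).pd x c := by
  have hT := hD.big
  have hT0 := hT.pos
  have hk := k_pos' hD
  have hal : S.al x c := h.1
  have hac : (D.step S m lam ω).ac b x c = S.ac b x c + D.dac S lam b x c := by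
    show (if S.al x c then S.ac b x c + D.dac S lam b x c else S.ac b x c) = _
    rw [if_pos hal]
  have hpd : (D.step S m lam ω).pd x c = S.pd x c + D.dbl S lam ω x c := by
    show (if S.al x c then S.pd x c + D.dbl S lam ω x c else S.pd x c) = _
    rw [if_pos hal]
  have hlin := (le_abs_self _).trans (step_lin hD hI hm hA ω hG b x c h)
  rw [← sum_eff] at hlin
  have haa : ∀ y, |D.a b x y| ≤ D.T := fun y => by
    rw [abs_of_nonneg (a_nonneg hD b x y)]
    exact a_le hD b x y
  have hterm : ∀ y ∈ D.U1 S lam, D.a b x y * (D.step S m lam ω).v y c ≤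
      D.a b x y * S.v y c +
      (if S.al y c then D.a b x y * S.v y c * (D.pk S lam ω y c - D.cmp S lam y c) else 0) +
      (if y ∈ D.R x then D.T ^ 3 * ((D.J S lam ω y c : ℝ) * ((D.J S lam ω y c : ℝ) - 1)) else 0) := by
    intro y _
    have h1 := (le_abs_self _).trans (step_term_gen hD hI hm hA ω (fun y => D.a b x y) D.T haa
      (D.R x) (fun y hy => a_off hD b x y hy) y c)
    have h2 : D.T * D.T ^ 2 = D.T ^ 3 := by ring
    rw [h2] at h1
    linarith
  have hsum := Finset.sum_le_sum hterm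
  rw [Finset.sum_add_distrib, Finset.sum_add_distrib] at hsum
  have hdbl : (∑ y ∈ D.U1 S lam, if y ∈ D.R x then
      D.T ^ 3 * ((D.J S lam ω y c : ℝ) * ((D.J S lam ω y c : ℝ) - 1)) else 0) ≤
      D.T ^ 3 * D.dbl S lam ω x c := by
    unfold dbl
    rw [Finset.mul_sum, ← Finset.sum_filter]
    refine Finset.sum_le_sum_of_subset_of_nonneg ?_ ?_
    · intro y hy
      exact (Finset.mem_filter.1 hy).2
    · intro y _ _
      have := J_mul_nonneg (D := D) S lam ω y c
      positivity
  have hN : D.Nf (D.step S m lam ω) b x c ≤ D.Nf1 S lam b x c +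
      (1 / D.T ^ 187 + 1 / D.T ^ 364) + 2 * D.T ^ 3 / D.k * D.dbl S lam ω x c := by
    have h1 := mul_le_mul_of_nonneg_left (hsum.trans (add_le_add_right hdbl _))
      (by positivity : (0 : ℝ) ≤ 2 / D.k)
    have h2 : 2 / (D.k : ℝ) * (D.T ^ 3 * D.dbl S lam ω x c) =
        2 * D.T ^ 3 / D.k * D.dbl S lam ω x c := by ring
    rw [mul_add, mul_add, h2] at h1
    unfold Nf Nf1
    rw [Un_step]
    linarith
  have hd := dac_add_le hD hI hm hA b x c hal
  have hp := hI.pred b x c hal
  have hdn := dbl_nonneg (D := D) S lam ω x c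
  have h3 : 2 * D.T ^ 3 / D.k * D.dbl S lam ω x c ≤ 6 * D.T ^ 3 / D.k * D.dbl S lam ω x c := by
    have h4 : 0 ≤ D.T ^ 3 / D.k * D.dbl S lam ω x c := by positivity
    have h5 : 6 * D.T ^ 3 / D.k * D.dbl S lam ω x c =
      6 * (D.T ^ 3 / D.k * D.dbl S lam ω x c) := by ring
    have h6 : 2 * D.T ^ 3 / D.k * D.dbl S lam ω x c =
      2 * (D.T ^ 3 / D.k * D.dbl S lam ω x c) := by ring
    linarith
  have h187 : 1 / D.T ^ 187 ≤ 1 / 1000000 * (1 / D.T ^ 180) := by
    have h6 : 1 / D.T ^ 187 = 1 / D.T ^ 7 * (1 / D.T ^ 180) := by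
      field_simp
    rw [h6]
    exact mul_le_mul_of_nonneg_right (hT.small (by norm_num)) (by positivity)
  have h366 : 1 / D.T ^ 364 ≤ 1 / D.T ^ 187 := hT.ipw (by norm_num)
  have h200 : 1 / D.T ^ 200 ≤ 1 / D.T ^ 187 := hT.ipw (by norm_num)
  have h180 : 0 < 1 / D.T ^ 180 := by positivity
  have hfin : ((m + 1 : ℕ) : ℝ) / D.T ^ 180 = m / D.T ^ 180 + 1 / D.T ^ 180 := by
    push_cast
    ring
  have hsg : D.sg (m + 1) / D.T ^ 20 = D.sg m / D.T ^ 20 + D.t m / D.T ^ 20 := by
    rw [sg_succ, add_div]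
  rw [hac, hpd, hfin, hsg, mul_add]
  linarith

end stepB

end NibData

end

end Pool.Agent.AcyK
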