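import Pool.Agent.AcyK.LamB
import Pool.Agent.AcyK.BasicC

/-! # One round: the sums over the colours (module SC) -/

set_option autoImplicit false
set_option linter.unusedSectionVars false

namespace Pool.Agent.AcyK

open Finset
open Pool.Agent.Acy (IsPM wt Ex Pr mean)
open scoped Classical

universe u

namespace NibData

variable {Q ι : Type u} [Fintype Q] [DecidableEq Q] [Fintype ι] [DecidableEq ι] {D : NibData Q ι}

/-- Powers of `T` against the number of colours. -/
theorem stC_k_div (hD : D.Ok) (m n : ℕ) (h : m + n ≤ 3999) : D.T ^ m ≤ D.k / D.T ^ n := by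
  have h1 := hD.big.one_le
  have h0 := hD.big.pos
  rw [le_div_iff₀ (by positivity), ← pow_add]
  exact (pow_le_pow_right₀ h1 h).trans hD.k_lo

theorem stC_T_ge (hD : D.Ok) : (1000000 : ℝ) ≤ D.T := by
  have := hD.big.big
  norm_num at this
  exact this

/-- At least two picks. -/
theorem stC_J_two (S : NState Q D.k) (lam : Q → Option Bool) (ω : Q → Fin D.k) (x : Q) (c : Fin D.k) (h : ¬ D.J S lam ω x c ≤ 1) :
    (2 : ℝ) ≤ D.J S lam ω x c ∧ (D.J S lam ω x c : ℝ) ≤ (D.J S lam ω x c : ℝ) * ((D.J S lam ω x c : ℝ) - 1) := by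
  have h2 : 2 ≤ D.J S lam ω x c := by omega
  have h3 : (2 : ℝ) ≤ D.J S lam ω x c := by exact_mod_cast h2
  refine ⟨h3, ?_⟩
  nlinarith

variable (hD : D.Ok) {S : NState Q D.k} {m : ℕ} (hI : D.Inv S m) (hm : m < D.M)
  {lam : Q → Option Bool} (hA : D.GoodA S m lam) (ω : Q → Fin D.k)

include hD hI hm hA

/-- The compensated growth. -/
theorem stC_grow (x : Q) (c : Fin D.k) (h : ¬ D.J S lam ω x c ≤ 1) :
    |S.v x c * (D.pk S lam ω x c - D.cmp S lam x c)| ≤ 2 * D.T ^ 2 * D.J S lam ω x c := by
  have hT := stC_T_ge hD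
  obtain ⟨h2, -⟩ := stC_J_two S lam ω x c h
  have hv := v_abs hD hI hm.le x c
  have hpk := pk_abs S lam ω hD x c
  have hc : |D.cmp S lam x c| ≤ 1 := (cmp_abs hD hI hm hA x c).trans (by
    rw [div_le_one (by positivity)]; exact one_le_pow₀ (by linarith))
  have h3 : |D.pk S lam ω x c - D.cmp S lam x c| ≤ 2 * D.T * D.J S lam ω x c := by
    have := abs_sub (D.pk S lam ω x c) (D.cmp S lam x c)
    have h4 : 1 ≤ D.T * D.J S lam ω x c := by nlinarith
    linarith
  rw [abs_mul]
  calc |S.v x c| * |D.pk S lam ω x c - D.cmp S lam x c| ≤ D.T * (2 * D.T * D.J S lam ω x c) := by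
        gcongr
    _ = _ := by ring

variable (hG : D.GoodB S lam ω)

include hG

theorem step_mass (x : Q) :
    |∑ c, (D.step S m lam ω).v x c - D.k| ≤ (m + 1 : ℕ) * D.k / D.T ^ 180 := by
  have hT := stC_T_ge hD
  have key : ∀ c, |(D.step S m lam ω).v x c - S.v x c -
      (if S.al x c then S.v x c * (D.pk S lam ω x c - D.cmp S lam x c) else 0)| ≤
      3 * D.T ^ 2 * ((D.J S lam ω x c : ℝ) * ((D.J S lam ω x c : ℝ) - 1)) := by
    intro c
    have hJ := J_mul_nonneg S lam ω x c
    unfold step
    simp only
    by_cases ha : S.al x c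
    · by_cases h : D.J S lam ω x c ≤ 1
      · simp only [ha, h, if_true]
        have : S.v x c * (1 + D.pk S lam ω x c - D.cmp S lam x c) - S.v x c -
            S.v x c * (D.pk S lam ω x c - D.cmp S lam x c) = 0 := by ring
        rw [this, abs_zero]
        positivity
      · simp only [ha, h, if_true, if_false]
        obtain ⟨h2, h3⟩ := stC_J_two S lam ω x c h
        have hg := stC_grow hD hI hm hA ω x c h
        have hv := v_abs hD hI hm.le x c
        have h4 : |0 - S.v x c - S.v x c * (D.pk S lam ω x c - D.cmp S lam x c)| ≤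
            |S.v x c| + |S.v x c * (D.pk S lam ω x c - D.cmp S lam x c)| := by
          have := abs_sub (0 - S.v x c) (S.v x c * (D.pk S lam ω x c - D.cmp S lam x c))
          rw [zero_sub, abs_neg] at this
          rw [zero_sub]
          exact this
        have h5 : D.T ≤ D.T ^ 2 * D.J S lam ω x c := by nlinarith
        calc _ ≤ D.T + 2 * D.T ^ 2 * D.J S lam ω x c := by linarith
          _ ≤ 3 * D.T ^ 2 * D.J S lam ω x c := by linarith
          _ ≤ _ := by
            have : (0 : ℝ) ≤ 3 * D.T ^ 2 := by positivity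
            exact mul_le_mul_of_nonneg_left h3 this
    · simp only [ha, if_false]
      simp only [sub_self, abs_zero]
      positivity
  have h1 : ∑ c, (D.step S m lam ω).v x c - D.k = (∑ c, S.v x c - D.k) +
      (∑ c, if S.al x c then S.v x c * (D.pk S lam ω x c - D.cmp S lam x c) else 0) +
      ∑ c, ((D.step S m lam ω).v x c - S.v x c -
      (if S.al x c then S.v x c * (D.pk S lam ω x c - D.cmp S lam x c) else 0)) := by
    rw [Finset.sum_sub_distrib, Finset.sum_sub_distrib]; ring
  have h2 : |∑ c, if S.al x c then S.v x c * (D.pk S lam ω x c - D.cmp S lam x c) else 0| ≤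
      D.T ^ 2000 := by
    rw [← cen_Y1 S lam ω]; exact hG.e1 x
  have h3 : |∑ c, ((D.step S m lam ω).v x c - S.v x c -
      (if S.al x c then S.v x c * (D.pk S lam ω x c - D.cmp S lam x c) else 0))| ≤
      3 * D.T ^ 2 * D.T ^ 3778 := by
    calc _ ≤ ∑ c, |(D.step S m lam ω).v x c - S.v x c -
          (if S.al x c then S.v x c * (D.pk S lam ω x c - D.cmp S lam x c) else 0)| :=
          Finset.abs_sum_le_sum_abs _ _
      _ ≤ ∑ c, 3 * D.T ^ 2 * ((D.J S lam ω x c : ℝ) * ((D.J S lam ω x c : ℝ) - 1)) :=
          Finset.sum_le_sum fun c _ => key c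
      _ = 3 * D.T ^ 2 * ∑ c, ((D.J S lam ω x c : ℝ) * ((D.J S lam ω x c : ℝ) - 1)) := by
          rw [Finset.mul_sum]
      _ ≤ _ := by
          have := hG.e6 x
          gcongr
  have h4 := hI.mass x
  have h5 : D.T ^ 3790 ≤ D.k / D.T ^ 180 := stC_k_div hD 3790 180 (by norm_num)
  have h6 : D.T ^ 2000 + 3 * D.T ^ 2 * D.T ^ 3778 ≤ D.T ^ 3790 := by
    have e1 : D.T ^ 2000 ≤ D.T ^ 3780 := pow_le_pow_right₀ (by linarith) (by norm_num)
    have e2 : D.T ^ 2 * D.T ^ 3778 = D.T ^ 3780 := by rw [← pow_add]
    have e3 : D.T ^ 3790 = D.T ^ 10 * D.T ^ 3780 := by rw [← pow_add]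
    have e4 : (4 : ℝ) ≤ D.T ^ 10 := by
      have : D.T ≤ D.T ^ 10 := le_self_pow₀ (by linarith) (by norm_num)
      linarith
    have e5 : 0 ≤ D.T ^ 3780 := by positivity
    rw [e3, mul_assoc, e2]
    nlinarith
  rw [h1]
  have h7 : ((m + 1 : ℕ) : ℝ) * D.k / D.T ^ 180 = m * D.k / D.T ^ 180 + D.k / D.T ^ 180 := by
    push_cast; ring
  rw [h7]
  refine (abs_add_le _ _).trans ?_
  have h8 := abs_add_le (∑ c, S.v x c - D.k)
    (∑ c, if S.al x c then S.v x c * (D.pk S lam ω x c - D.cmp S lam x c) else 0)
  linarith

/-- The budget of one colour. -/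
theorem stC_bud (x : Q) (c : Fin D.k) :
    (D.step S m lam ω).v x c * ((D.step S m lam ω).be x c - 2 * (D.step S m lam ω).ac false x c) -
      S.v x c * (S.be x c - 2 * S.ac false x c) ≤
    (if S.al x c then S.v x c * (D.pk S lam ω x c - D.cmp S lam x c) *
        (S.be x c - 2 * S.ac false x c - 2 * D.dac S lam false x c) else 0) +
      (if S.al x c then S.v x c * (∑ u ∈ D.LL S lam, ((if ω u = c then 1 else 0) - D.p S lam u c) *
        ((2 + D.K u x) * D.h u x)) else 0) +
      9 * D.T ^ 2 * ((D.J S lam ω x c : ℝ) * ((D.J S lam ω x c : ℝ) - 1)) := by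
  have hT := stC_T_ge hD
  have hJ := J_mul_nonneg S lam ω x c
  by_cases ha : S.al x c
  · have hvp := hI.al_pos x c ha
    have hsp := sum_p_h hD hI hm hA x c
    have hnn : ∀ u, 0 ≤ (2 + D.K u x) * D.h u x := by
      intro u
      have := a_nonneg hD false x u
      simpa [a] using this
    have hsum : ∑ u ∈ D.LL S lam, ((if ω u = c then (1 : ℝ) else 0) - D.p S lam u c) *
        ((2 + D.K u x) * D.h u x) =
        ∑ u ∈ D.LL S lam, (if ω u = c then (2 + D.K u x) * D.h u x else 0) -
        ∑ u ∈ D.LL S lam, D.p S lam u c * ((2 + D.K u x) * D.h u x) := by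
      rw [← Finset.sum_sub_distrib]
      refine Finset.sum_congr rfl fun u _ => ?_
      split_ifs <;> ring
    have hpicks : 0 ≤ ∑ u ∈ D.LL S lam, (if ω u = c then (2 + D.K u x) * D.h u x else 0) :=
      Finset.sum_nonneg fun u _ => by
        split_ifs
        · exact hnn u
        · exact le_rfl
    have hdac0 := dac_nonneg hD hI hm hA false x c
    have hdac1 : D.dac S lam false x c ≤ 1 / 1000 := (dac_le hD hI hm hA false x c).trans (by
      rw [div_le_div_iff₀ (by positivity) (by norm_num)]
      have : D.T ≤ D.T ^ 110 := le_self_pow₀ (by linarith) (by norm_num)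
      linarith)
    by_cases h : D.J S lam ω x c ≤ 1
    · have hv' : (D.step S m lam ω).v x c = S.v x c * (1 + D.pk S lam ω x c - D.cmp S lam x c) := by
        simp only [step, ha, h, if_true]
      have hb' : (D.step S m lam ω).be x c = S.be x c + D.hk S lam ω x c := by
        simp only [step, ha, h, and_self, if_true]
      have hc' : (D.step S m lam ω).ac false x c = S.ac false x c + D.dac S lam false x c := by
        simp only [step, ha, if_true]
      rw [hv', hb', hc']
      simp only [ha, if_true]
      rw [hsum]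
      have key : (1 + D.pk S lam ω x c - D.cmp S lam x c) * D.hk S lam ω x c ≤
          ∑ u ∈ D.LL S lam, (if ω u = c then (2 + D.K u x) * D.h u x else 0) := by
        rcases Nat.le_one_iff_eq_zero_or_eq_one.1 h with h0 | h1
        · obtain ⟨-, e2⟩ := pk_zero S lam ω hD x c h0
          rw [e2, mul_zero]
          exact hpicks
        · obtain ⟨u, hu1, hu2, -, e1, e2⟩ := pk_one S lam ω hD x c h1
          rw [e1, e2]
          have huV : u ∈ D.LL S lam := hu1
          have hc : |D.cmp S lam x c| ≤ 1 := (cmp_abs hD hI hm hA x c).trans (by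
            rw [div_le_one (by positivity)]; exact one_le_pow₀ (by linarith))
          have hc2 := (abs_le.1 hc).1
          have hh := hD.h_nonneg u x
          calc (1 + D.K u x - D.cmp S lam x c) * D.h u x ≤ (2 + D.K u x) * D.h u x := by
                apply mul_le_mul_of_nonneg_right _ hh
                linarith
            _ = (if ω u = c then (2 + D.K u x) * D.h u x else 0) := by rw [if_pos hu2]
            _ ≤ _ := Finset.single_le_sum (f := fun u => if ω u = c then
                  (2 + D.K u x) * D.h u x else 0) (fun v _ => by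
                    split_ifs
                    · exact hnn v
                    · exact le_rfl) huV
      have hJ' : 0 ≤ 9 * D.T ^ 2 * ((D.J S lam ω x c : ℝ) * ((D.J S lam ω x c : ℝ) - 1)) := by
        positivity
      have key2 := mul_le_mul_of_nonneg_left key hvp.le
      have key3 := mul_le_mul_of_nonneg_left hsp hvp.le
      nlinarith
    · have hv' : (D.step S m lam ω).v x c = 0 := by
        simp only [step, ha, h, if_true, if_false]
      rw [hv', zero_mul]
      simp only [ha, if_true]
      rw [hsum]
      obtain ⟨h2, h3⟩ := stC_J_two S lam ω x c h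
      have hg := stC_grow hD hI hm hA ω x c h
      have hv := (abs_le.1 (v_abs hD hI hm.le x c)).2
      have hb0 := hI.be_nonneg x c
      have hb1 := hI.be_al x c ha
      have ha0 := hI.ac_nonneg false x c
      have ha1 := hI.ac_false x c
      have e1 : |S.v x c * (D.pk S lam ω x c - D.cmp S lam x c) *
          (S.be x c - 2 * S.ac false x c - 2 * D.dac S lam false x c)| ≤
          2 * D.T ^ 2 * D.J S lam ω x c := by
        rw [abs_mul]
        have e2 : |S.be x c - 2 * S.ac false x c - 2 * D.dac S lam false x c| ≤ 1 := by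
          rw [abs_le]; constructor <;> linarith
        calc _ ≤ 2 * D.T ^ 2 * D.J S lam ω x c * 1 := by
              apply mul_le_mul hg e2 (abs_nonneg _)
              positivity
          _ = _ := mul_one _
      have e3 := (abs_le.1 e1).1
      have e4 : 0 ≤ S.v x c * ∑ u ∈ D.LL S lam, (if ω u = c then (2 + D.K u x) * D.h u x else 0) :=
        mul_nonneg hvp.le hpicks
      have e5 : S.v x c * ∑ u ∈ D.LL S lam, D.p S lam u c * ((2 + D.K u x) * D.h u x) ≤ D.T := by
        calc _ ≤ S.v x c * (2 * D.dac S lam false x c) :=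
              mul_le_mul_of_nonneg_left hsp hvp.le
          _ ≤ S.v x c * 1 := by
              apply mul_le_mul_of_nonneg_left _ hvp.le
              linarith
          _ ≤ _ := by linarith
      have e6 : -(S.v x c * (S.be x c - 2 * S.ac false x c)) ≤ D.T := by
        have : S.v x c * (2 * S.ac false x c - S.be x c) ≤ S.v x c * 1 := by
          apply mul_le_mul_of_nonneg_left _ hvp.le
          linarith
        nlinarith
      have h5 : D.T ≤ D.T ^ 2 * D.J S lam ω x c := by nlinarith
      have e7 : 9 * D.T ^ 2 * (D.J S lam ω x c : ℝ) ≤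
          9 * D.T ^ 2 * ((D.J S lam ω x c : ℝ) * ((D.J S lam ω x c : ℝ) - 1)) :=
        mul_le_mul_of_nonneg_left h3 (by positivity)
      rw [mul_sub]
      linarith
  · have hv' : (D.step S m lam ω).v x c = S.v x c := by
      simp only [step, ha, if_false]
    have hb' : (D.step S m lam ω).be x c = S.be x c := by
      simp only [step, ha, false_and, if_false]
    have hc' : (D.step S m lam ω).ac false x c = S.ac false x c := by
      simp only [step, ha, if_false]
    rw [hv', hb', hc']
    simp only [ha, if_false]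
    rw [sub_self]
    positivity

theorem step_bud (x : Q) :
    ∑ c, (D.step S m lam ω).v x c * ((D.step S m lam ω).be x c - 2 * (D.step S m lam ω).ac false x c) ≤
      (m + 1 : ℕ) * D.k / D.T ^ 180 := by
  have hT := stC_T_ge hD
  have h1 := Finset.sum_le_sum fun (c : Fin D.k) (_ : c ∈ univ) => stC_bud hD hI hm hA ω hG x c
  rw [Finset.sum_add_distrib, Finset.sum_add_distrib, Finset.sum_sub_distrib, ← cen_Y2, ← cen_Y3,
    ← Finset.mul_sum] at h1
  have h2 := (abs_le.1 (hG.e2 x)).2
  have h3 := (abs_le.1 (hG.e3 x)).2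
  have h4 := hI.bud x
  have h5 : 9 * D.T ^ 2 * ∑ c, ((D.J S lam ω x c : ℝ) * ((D.J S lam ω x c : ℝ) - 1)) ≤
      9 * D.T ^ 2 * D.T ^ 3778 := mul_le_mul_of_nonneg_left (hG.e6 x) (by positivity)
  have h6 : D.T ^ 3790 ≤ D.k / D.T ^ 180 := stC_k_div hD 3790 180 (by norm_num)
  have h7 : 2 * D.T ^ 2000 + 9 * D.T ^ 2 * D.T ^ 3778 ≤ D.T ^ 3790 := by
    have e1 : D.T ^ 2000 ≤ D.T ^ 3780 := pow_le_pow_right₀ (by linarith) (by norm_num)
    have e2 : D.T ^ 2 * D.T ^ 3778 = D.T ^ 3780 := by rw [← pow_add]
    have e3 : D.T ^ 3790 = D.T ^ 10 * D.T ^ 3780 := by rw [← pow_add]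
    have e4 : (11 : ℝ) ≤ D.T ^ 10 := by
      have : D.T ≤ D.T ^ 10 := le_self_pow₀ (by linarith) (by norm_num)
      linarith
    have e5 : 0 ≤ D.T ^ 3780 := by positivity
    rw [e3, mul_assoc 9, e2]
    nlinarith
  have h8 : ((m + 1 : ℕ) : ℝ) * D.k / D.T ^ 180 = m * D.k / D.T ^ 180 + D.k / D.T ^ 180 := by
    push_cast; ring
  rw [h8]
  linarith

theorem step_dead (x : Q) : ∃ O : Finset (Fin D.k),
    (O.card : ℝ) ≤ (m + 1 : ℕ) * D.k / D.T ^ 165 ∧
    ∀ c, ¬ (D.step S m lam ω).al x c → (D.step S m lam ω).v x c ≤ 1 / D.T ^ 100 ∨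
      1 < (D.step S m lam ω).be x c ∨ D.k / D.T ^ 20 < (D.step S m lam ω).pd x c ∨ c ∈ O := by
  have hT := stC_T_ge hD
  obtain ⟨O, hO, hO2⟩ := hI.dead x
  let N : Bool → Finset (Fin D.k) := fun b =>
    ((D.LL S lam).filter fun u => D.d3 < |D.G S lam b u x (ω u)|).image ω
  have hN : ∀ b, ((N b).card : ℝ) ≤ D.T ^ 3830 := fun b => by
    refine le_trans ?_ (hG.e5 b x)
    exact_mod_cast card_image_le
  refine ⟨O ∪ (N true ∪ N false), ?_, ?_⟩
  · have h1 : ((O ∪ (N true ∪ N false)).card : ℝ) ≤ O.card + ((N true).card + (N false).card) := by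
      have := (card_union_le O (N true ∪ N false)).trans
        (Nat.add_le_add_left (card_union_le (N true) (N false)) _)
      exact_mod_cast this
    have h2 : 2 * D.T ^ 3830 ≤ D.k / D.T ^ 165 := by
      have e1 := stC_k_div hD 3831 165 (by norm_num)
      have e2 : D.T ^ 3831 = D.T * D.T ^ 3830 := by rw [pow_succ']
      have e3 : 0 ≤ D.T ^ 3830 := by positivity
      nlinarith
    have h3 : ((m + 1 : ℕ) : ℝ) * D.k / D.T ^ 165 = m * D.k / D.T ^ 165 + D.k / D.T ^ 165 := by
      push_cast; ring
    rw [h3]
    have := hN true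
    have := hN false
    linarith
  · intro c hc
    by_cases ha : S.al x c
    · by_cases h : D.J S lam ω x c ≤ 1
      · have hv' : (D.step S m lam ω).v x c = S.v x c * (1 + D.pk S lam ω x c - D.cmp S lam x c) := by
          simp only [step, ha, h, if_true]
        have hb' : (D.step S m lam ω).be x c = S.be x c + D.hk S lam ω x c := by
          simp only [step, ha, h, and_self, if_true]
        have hp' : (D.step S m lam ω).pd x c = S.pd x c + D.dbl S lam ω x c := by
          simp only [step, ha, if_true]
        by_cases c1 : ∀ u ∈ D.LL S lam, ω u = c → D.K u x ≠ -1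
        · by_cases c2 : S.be x c + D.hk S lam ω x c ≤ 1
          · by_cases c3 : S.pd x c + D.dbl S lam ω x c ≤ D.k / D.T ^ 20
            · by_cases c4 : ∀ b, ∀ u ∈ D.LL S lam, ω u = c → |D.G S lam b u x c| ≤ D.d3
              · exact absurd ⟨ha, h, c1, c2, c3, c4⟩ hc
              · push Not at c4
                obtain ⟨b, u, hu1, hu2, hu3⟩ := c4
                right; right; right
                have hm : c ∈ N b := by
                  refine mem_image.2 ⟨u, mem_filter.2 ⟨hu1, ?_⟩, hu2⟩
                  rw [hu2]; exact hu3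
                rw [mem_union, mem_union]
                cases b
                · exact Or.inr (Or.inr hm)
                · exact Or.inr (Or.inl hm)
            · right; right; left
              rw [hp']
              exact not_le.1 c3
          · right; left
            rw [hb']
            exact not_le.1 c2
        · left
          push Not at c1
          obtain ⟨u, hu1, hu2, hu3⟩ := c1
          have hJ1 : D.J S lam ω x c = 1 := by
            refine le_antisymm h ?_
            unfold J
            refine Finset.card_pos.2 ⟨u, ?_⟩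
            rw [mem_filter, mem_inter]
            refine ⟨⟨?_, ?_⟩, hu2⟩
            · by_contra hR
              have := K_off' hD x u hR
              rw [hu3] at this
              norm_num at this
            · exact hu1
          obtain ⟨w, hw1, hw2, hw3, e1, -⟩ := pk_one S lam ω hD x c hJ1
          have hpk : D.pk S lam ω x c = -1 := by
            have hmm : ∀ y ∈ D.LL S lam, ω y = c → y ∈ D.R x →
                y ∈ (D.R x ∩ D.LL S lam).filter fun u => ω u = c := by
              intro y h1 h2 h3
              rw [mem_filter, mem_inter]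
              exact ⟨⟨h3, h1⟩, h2⟩
            have huR : u ∈ D.R x := by
              by_contra hR
              have := K_off' hD x u hR
              rw [hu3] at this
              norm_num at this
            have : u = w := Finset.card_le_one.1 (by unfold J at hJ1; exact hJ1.le) u
              (hmm u hu1 hu2 huR) w (hmm w hw1 hw2 hw3)
            rw [e1, ← this, hu3]
          rw [hv', hpk]
          have hvp := hI.al_pos x c ha
          have hv := (abs_le.1 (v_abs hD hI hm.le x c)).2
          have hcm := (abs_le.1 (cmp_abs hD hI hm hA x c)).1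
          have e2 : S.v x c * (1 + -1 - D.cmp S lam x c) ≤ D.T * (1 / D.T ^ 110) := by
            have e3 : 1 + -1 - D.cmp S lam x c ≤ 1 / D.T ^ 110 := by linarith
            have e4 : (0 : ℝ) ≤ 1 / D.T ^ 110 := by positivity
            calc _ ≤ S.v x c * (1 / D.T ^ 110) := mul_le_mul_of_nonneg_left e3 hvp.le
              _ ≤ _ := mul_le_mul_of_nonneg_right hv e4
          refine e2.trans ?_
          have hTp : 0 < D.T := by linarith
          rw [mul_one_div, div_le_div_iff₀ (by positivity) (by positivity), one_mul,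
            ← pow_succ']
          exact pow_le_pow_right₀ (by linarith) (by norm_num)
      · left
        have hv' : (D.step S m lam ω).v x c = 0 := by
          simp only [step, ha, h, if_true, if_false]
        rw [hv']
        positivity
    · have hv' : (D.step S m lam ω).v x c = S.v x c := by
        simp only [step, ha, if_false]
      have hb' : (D.step S m lam ω).be x c = S.be x c := by
        simp only [step, ha, false_and, if_false]
      have hp' : (D.step S m lam ω).pd x c = S.pd x c := by
        simp only [step, ha, if_false]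
      rw [hv', hb', hp']
      rcases hO2 c ha with h | h | h | h
      · exact Or.inl h
      · exact Or.inr (Or.inl h)
      · exact Or.inr (Or.inr (Or.inl h))
      · exact Or.inr (Or.inr (Or.inr (mem_union_left _ h)))

theorem step_pds (x : Q) :
    ∑ c, (D.step S m lam ω).pd x c ≤ (m + 1 : ℕ) * D.T ^ 7810 := by
  have hT := stC_T_ge hD
  have h1 : ∀ c, (D.step S m lam ω).pd x c ≤ S.pd x c + D.dbl S lam ω x c := by
    intro c
    have := dbl_nonneg S lam ω x c
    unfold step
    simp only
    split_ifs <;> linarith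
  have h2 : ∑ c, D.dbl S lam ω x c ≤ D.T ^ 7795 := by
    unfold dbl
    rw [Finset.sum_comm]
    calc _ ≤ ∑ y ∈ D.R x, D.T ^ 3778 := Finset.sum_le_sum fun y _ => hG.e6 y
      _ = (D.R x).card * D.T ^ 3778 := by rw [Finset.sum_const, nsmul_eq_mul]
      _ ≤ D.T ^ 4017 * D.T ^ 3778 := by
          have := hD.R_card x
          gcongr
      _ = _ := by rw [← pow_add]
  have h3 : D.T ^ 7795 ≤ D.T ^ 7810 := pow_le_pow_right₀ (by linarith) (by norm_num)
  have h4 := hI.pds x
  have h5 : ((m + 1 : ℕ) : ℝ) * D.T ^ 7810 = m * D.T ^ 7810 + D.T ^ 7810 := by push_cast; ring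
  rw [h5]
  calc _ ≤ ∑ c, (S.pd x c + D.dbl S lam ω x c) := Finset.sum_le_sum fun c _ => h1 c
    _ = ∑ c, S.pd x c + ∑ c, D.dbl S lam ω x c := Finset.sum_add_distrib
    _ ≤ _ := by linarith

end NibData

end Pool.Agent.AcyK
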