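import Pool.Agent.AcyK.LamB
import Pool.Agent.AcyK.LamC
import Pool.Agent.AcyK.BasicC

/-! # One round: the inner products of the weights of two tracked vertices (row SI) -/

set_option autoImplicit false
set_option linter.unusedSectionVars false

namespace Pool.Agent.AcyK

open Finset
open Pool.Agent.Acy (IsPM wt Ex Pr mean)
open scoped Classical

universe u

namespace NibData

variable {Q ι : Type u} [Fintype Q] [DecidableEq Q] [Fintype ι] [DecidableEq ι]
  {D : NibData Q ι}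

theorem stI_T_ge (hD : D.Ok) : (1000000 : ℝ) ≤ D.T := by
  have := hD.big.big
  norm_num at this
  exact this

/-- At least two picks. -/
theorem stI_J_two (S : NState Q D.k) (lam : Q → Option Bool) (ω : Q → Fin D.k) (x : Q)
    (c : Fin D.k) (h : ¬ D.J S lam ω x c ≤ 1) :
    (2 : ℝ) ≤ D.J S lam ω x c := by
  have h2 : 2 ≤ D.J S lam ω x c := by omega
  exact_mod_cast h2

theorem stI_cen (S : NState Q D.k) (lam : Q → Option Bool) (ω : Q → Fin D.k) (z z' : Q) :
    D.cen S lam (D.Y10 S lam z z') ω = ∑ c, if S.al z c ∧ S.al z' c then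
      S.v z c * S.v z' c * (∑ u ∈ D.LL S lam, ((if ω u = c then 1 else 0) - D.p S lam u c) *
        (D.K u z * D.K u z')) else 0 := by
  have h := cen_gen S lam ω (fun c => S.al z c ∧ S.al z' c) (fun c => S.v z c * S.v z' c)
      (fun u _ => D.K u z * D.K u z')
  convert h using 1
  · congr 1
    funext u c
    unfold Y10
    congr
  · refine Finset.sum_congr rfl fun c _ => ?_
    congr

/-- The linear change of the weight of `x`. -/
noncomputable def stI_A (D : NibData Q ι) (S : NState Q D.k) (lam : Q → Option Bool)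
    (ω : Q → Fin D.k) (x : Q) (c : Fin D.k) : ℝ :=
  if S.al x c then S.v x c * (D.pk S lam ω x c - D.cmp S lam x c) else 0

/-- The error of the linear change. -/
noncomputable def stI_E (D : NibData Q ι) (S : NState Q D.k) (m : ℕ) (lam : Q → Option Bool)
    (ω : Q → Fin D.k) (x : Q) (c : Fin D.k) : ℝ :=
  (D.step S m lam ω).v x c - S.v x c - stI_A D S lam ω x c

section

variable (hD : D.Ok) {S : NState Q D.k} {m : ℕ} (hI : D.Inv S m) (hm : m < D.M)
  {lam : Q → Option Bool} (hA : D.GoodA S m lam) (ω : Q → Fin D.k)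
include hD hI hm hA

theorem stI_cmp_one (x : Q) (c : Fin D.k) : |D.cmp S lam x c| ≤ 1 := by
  have hT := stI_T_ge hD
  refine (cmp_abs hD hI hm hA x c).trans ?_
  rw [div_le_one (by positivity)]
  exact one_le_pow₀ (by linarith)

theorem stI_E_zero (x : Q) (c : Fin D.k) (h : D.J S lam ω x c ≤ 1) :
    stI_E D S m lam ω x c = 0 := by
  unfold stI_E stI_A step
  simp only
  by_cases ha : S.al x c
  · simp only [ha, h, if_true]
    ring
  · simp only [ha, if_false]
    ring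

theorem stI_E_abs (x : Q) (c : Fin D.k) (h : ¬ D.J S lam ω x c ≤ 1) :
    |stI_E D S m lam ω x c| ≤ 3 * D.T ^ 2 * D.J S lam ω x c := by
  have hT := stI_T_ge hD
  have h2 := stI_J_two S lam ω x c h
  have hv := v_abs hD hI hm.le x c
  have hpk := pk_abs S lam ω hD x c
  have hc := stI_cmp_one hD hI hm hA x c
  unfold stI_E stI_A step
  simp only
  by_cases ha : S.al x c
  · simp only [ha, h, if_true, if_false]
    have h3 : |D.pk S lam ω x c - D.cmp S lam x c| ≤ 2 * D.T * D.J S lam ω x c := by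
      have := abs_sub (D.pk S lam ω x c) (D.cmp S lam x c)
      have h4 : 1 ≤ D.T * D.J S lam ω x c := by nlinarith
      linarith
    have h4 : |S.v x c * (D.pk S lam ω x c - D.cmp S lam x c)| ≤
        D.T * (2 * D.T * D.J S lam ω x c) := by
      rw [abs_mul]
      gcongr
    have h5 : |0 - S.v x c - S.v x c * (D.pk S lam ω x c - D.cmp S lam x c)| ≤
        |S.v x c| + |S.v x c * (D.pk S lam ω x c - D.cmp S lam x c)| := by
      have := abs_sub (0 - S.v x c) (S.v x c * (D.pk S lam ω x c - D.cmp S lam x c))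
      rw [zero_sub, abs_neg] at this
      rw [zero_sub]
      exact this
    have h6 : D.T ≤ D.T ^ 2 * D.J S lam ω x c := by nlinarith
    calc _ ≤ D.T + D.T * (2 * D.T * D.J S lam ω x c) := by linarith
      _ = D.T + 2 * (D.T ^ 2 * D.J S lam ω x c) := by ring
      _ ≤ _ := by linarith
  · simp only [ha, if_false, sub_self, abs_zero]
    positivity

theorem stI_new_abs (x : Q) (c : Fin D.k) :
    |(D.step S m lam ω).v x c| ≤ 2 * D.T ^ 2 := by
  have hT := stI_T_ge hD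
  have hv := v_abs hD hI hm.le x c
  have hc := stI_cmp_one hD hI hm hA x c
  have hTT : D.T ≤ D.T ^ 2 := by nlinarith
  unfold step
  simp only
  by_cases ha : S.al x c
  · by_cases h : D.J S lam ω x c ≤ 1
    · simp only [ha, h, if_true]
      have hpk := pk_abs S lam ω hD x c
      have hJ : (D.J S lam ω x c : ℝ) ≤ 1 := by exact_mod_cast h
      have h1 : D.T * D.J S lam ω x c ≤ D.T := by nlinarith
      have h2 : |1 + D.pk S lam ω x c - D.cmp S lam x c| ≤ 2 * D.T := by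
        have e1 := abs_le.1 (hpk.trans h1)
        have e2 := abs_le.1 hc
        rw [abs_le]
        constructor <;> linarith
      rw [abs_mul]
      calc _ ≤ D.T * (2 * D.T) := by gcongr
        _ = _ := by ring
    · simp only [ha, h, if_true, if_false, abs_zero]
      positivity
  · simp only [ha, if_false]
    linarith

theorem stI_err (z z' : Q) (c : Fin D.k) :
    |(D.step S m lam ω).v z c * (D.step S m lam ω).v z' c - S.v z c * S.v z' c -
      stI_A D S lam ω z c * S.v z' c - stI_A D S lam ω z' c * S.v z c -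
      stI_A D S lam ω z c * stI_A D S lam ω z' c| ≤
    15 * D.T ^ 4 * ((D.J S lam ω z c : ℝ) * ((D.J S lam ω z c : ℝ) - 1)) +
    15 * D.T ^ 4 * ((D.J S lam ω z' c : ℝ) * ((D.J S lam ω z' c : ℝ) - 1)) := by
  have hT := stI_T_ge hD
  have n1 := stI_new_abs hD hI hm hA ω z c
  have n2 := stI_new_abs hD hI hm hA ω z' c
  have hid : (D.step S m lam ω).v z c * (D.step S m lam ω).v z' c - S.v z c * S.v z' c -
      stI_A D S lam ω z c * S.v z' c - stI_A D S lam ω z' c * S.v z c -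
      stI_A D S lam ω z c * stI_A D S lam ω z' c =
      stI_E D S m lam ω z c * (D.step S m lam ω).v z' c +
      (D.step S m lam ω).v z c * stI_E D S m lam ω z' c -
      stI_E D S m lam ω z c * stI_E D S m lam ω z' c := by
    unfold stI_E
    ring
  rw [hid]
  have hJ1 := J_mul_nonneg S lam ω z c
  have hJ2 := J_mul_nonneg S lam ω z' c
  by_cases a1 : D.J S lam ω z c ≤ 1
  · have e1 := stI_E_zero hD hI hm hA ω z c a1
    rw [e1, zero_mul, zero_mul, zero_add, sub_zero]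
    by_cases a2 : D.J S lam ω z' c ≤ 1
    · have e2 := stI_E_zero hD hI hm hA ω z' c a2
      rw [e2, mul_zero, abs_zero]
      positivity
    · have e2 := stI_E_abs hD hI hm hA ω z' c a2
      have j2 := stI_J_two S lam ω z' c a2
      have j3 : (D.J S lam ω z' c : ℝ) ≤
          (D.J S lam ω z' c : ℝ) * ((D.J S lam ω z' c : ℝ) - 1) := by nlinarith
      rw [abs_mul]
      calc _ ≤ 2 * D.T ^ 2 * (3 * D.T ^ 2 * D.J S lam ω z' c) := by gcongr
        _ = 6 * D.T ^ 4 * D.J S lam ω z' c := by ring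
        _ ≤ 6 * D.T ^ 4 * ((D.J S lam ω z' c : ℝ) * ((D.J S lam ω z' c : ℝ) - 1)) := by gcongr
        _ ≤ 15 * D.T ^ 4 * ((D.J S lam ω z' c : ℝ) * ((D.J S lam ω z' c : ℝ) - 1)) := by
            gcongr
            norm_num
        _ ≤ _ := by
            have : 0 ≤ 15 * D.T ^ 4 *
              ((D.J S lam ω z c : ℝ) * ((D.J S lam ω z c : ℝ) - 1)) := by positivity
            linarith
  · have e1 := stI_E_abs hD hI hm hA ω z c a1
    have j1 := stI_J_two S lam ω z c a1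
    have j3 : (D.J S lam ω z c : ℝ) ≤
        (D.J S lam ω z c : ℝ) * ((D.J S lam ω z c : ℝ) - 1) := by nlinarith
    have b1 : |stI_E D S m lam ω z c * (D.step S m lam ω).v z' c| ≤
        6 * D.T ^ 4 * ((D.J S lam ω z c : ℝ) * ((D.J S lam ω z c : ℝ) - 1)) := by
      rw [abs_mul]
      calc _ ≤ 3 * D.T ^ 2 * D.J S lam ω z c * (2 * D.T ^ 2) := by gcongr
        _ = 6 * D.T ^ 4 * D.J S lam ω z c := by ring
        _ ≤ _ := by gcongr
    by_cases a2 : D.J S lam ω z' c ≤ 1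
    · have e2 := stI_E_zero hD hI hm hA ω z' c a2
      rw [e2, mul_zero, mul_zero, add_zero, sub_zero]
      refine b1.trans ?_
      have : 0 ≤ 15 * D.T ^ 4 *
        ((D.J S lam ω z' c : ℝ) * ((D.J S lam ω z' c : ℝ) - 1)) := by positivity
      have h4 : 0 ≤ D.T ^ 4 * ((D.J S lam ω z c : ℝ) * ((D.J S lam ω z c : ℝ) - 1)) := by
        positivity
      linarith
    · have e2 := stI_E_abs hD hI hm hA ω z' c a2
      have j2 := stI_J_two S lam ω z' c a2
      have j4 : (D.J S lam ω z' c : ℝ) ≤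
          (D.J S lam ω z' c : ℝ) * ((D.J S lam ω z' c : ℝ) - 1) := by nlinarith
      have b2 : |(D.step S m lam ω).v z c * stI_E D S m lam ω z' c| ≤
          6 * D.T ^ 4 * ((D.J S lam ω z' c : ℝ) * ((D.J S lam ω z' c : ℝ) - 1)) := by
        rw [abs_mul]
        calc _ ≤ 2 * D.T ^ 2 * (3 * D.T ^ 2 * D.J S lam ω z' c) := by gcongr
          _ = 6 * D.T ^ 4 * D.J S lam ω z' c := by ring
          _ ≤ _ := by gcongr
      have b3 : |stI_E D S m lam ω z c * stI_E D S m lam ω z' c| ≤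
          9 * D.T ^ 4 * ((D.J S lam ω z c : ℝ) * ((D.J S lam ω z c : ℝ) - 1) +
            (D.J S lam ω z' c : ℝ) * ((D.J S lam ω z' c : ℝ) - 1)) := by
        rw [abs_mul]
        have hJJ : (D.J S lam ω z c : ℝ) * D.J S lam ω z' c ≤
            (D.J S lam ω z c : ℝ) * ((D.J S lam ω z c : ℝ) - 1) +
            (D.J S lam ω z' c : ℝ) * ((D.J S lam ω z' c : ℝ) - 1) := by
          nlinarith [sq_nonneg ((D.J S lam ω z c : ℝ) - D.J S lam ω z' c)]
        calc _ ≤ 3 * D.T ^ 2 * D.J S lam ω z c * (3 * D.T ^ 2 * D.J S lam ω z' c) := by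
              gcongr
          _ = 9 * D.T ^ 4 * (D.J S lam ω z c * D.J S lam ω z' c) := by ring
          _ ≤ _ := by gcongr
      have t1 := abs_sub (stI_E D S m lam ω z c * (D.step S m lam ω).v z' c +
        (D.step S m lam ω).v z c * stI_E D S m lam ω z' c)
        (stI_E D S m lam ω z c * stI_E D S m lam ω z' c)
      have t2 := abs_add_le (stI_E D S m lam ω z c * (D.step S m lam ω).v z' c)
        ((D.step S m lam ω).v z c * stI_E D S m lam ω z' c)
      linarith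

/-- The off-diagonal pairs. -/
theorem stI_off (z z' : Q) :
    ∑ c, |D.pk S lam ω z c * D.pk S lam ω z' c -
      ∑ u ∈ (D.LL S lam).filter (fun u => ω u = c), D.K u z * D.K u z'| ≤
    D.T ^ 2 * ((((D.R z ∩ D.LL S lam) ×ˢ (D.R z' ∩ D.LL S lam)).filter
      fun e => e.1 ≠ e.2 ∧ ω e.1 = ω e.2).card : ℝ) := by
  have hT := stI_T_ge hD
  have h1 : ∀ c, D.pk S lam ω z c * D.pk S lam ω z' c -
      ∑ u ∈ (D.LL S lam).filter (fun u => ω u = c), D.K u z * D.K u z' =
      ∑ e ∈ ((D.R z ∩ D.LL S lam) ×ˢ (D.R z' ∩ D.LL S lam)).filter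
        (fun e => e.1 ≠ e.2 ∧ ω e.1 = ω e.2),
        if ω e.1 = c then D.K e.1 z * D.K e.2 z' else 0 := by
    intro c
    rw [pk_eq S lam ω hD z c, pk_eq S lam ω hD z' c, Finset.sum_mul_sum, ← Finset.sum_product']
    have e1 : ∑ u ∈ (D.LL S lam).filter (fun u => ω u = c), D.K u z * D.K u z' =
        ∑ e ∈ (((D.R z ∩ D.LL S lam).filter (fun u => ω u = c)) ×ˢ
          ((D.R z' ∩ D.LL S lam).filter (fun u => ω u = c))).filter (fun e => e.1 = e.2),
          D.K e.1 z * D.K e.2 z' := by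
      symm
      have e2 : (((D.R z ∩ D.LL S lam).filter (fun u => ω u = c)) ×ˢ
          ((D.R z' ∩ D.LL S lam).filter (fun u => ω u = c))).filter (fun e => e.1 = e.2) =
          (((D.R z ∩ D.R z' ∩ D.LL S lam).filter (fun u => ω u = c))).image
            (fun u => (u, u)) := by
        ext ⟨a, b⟩
        simp only [mem_filter, mem_product, mem_image, mem_inter, Prod.mk.injEq]
        constructor
        · rintro ⟨⟨⟨⟨h1, h2⟩, h3⟩, ⟨⟨h4, h5⟩, h6⟩⟩, h7⟩
          subst h7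
          exact ⟨a, ⟨⟨⟨h1, h4⟩, h2⟩, h3⟩, rfl, rfl⟩
        · rintro ⟨w, ⟨⟨⟨h1, h4⟩, h2⟩, h3⟩, h5, h6⟩
          subst h5
          subst h6
          exact ⟨⟨⟨⟨h1, h2⟩, h3⟩, ⟨⟨h4, h2⟩, h3⟩⟩, rfl⟩
      rw [e2, Finset.sum_image (by
        intro a _ b _ hab
        exact (Prod.mk.injEq _ _ _ _ ▸ hab).1)]
      refine Finset.sum_subset ?_ ?_
      · intro a ha
        simp only [mem_filter, mem_inter] at ha ⊢
        exact ⟨ha.1.2, ha.2⟩
      · intro a ha hna
        simp only [mem_filter, mem_inter] at ha hna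
        by_cases hz : a ∈ D.R z
        · have hz' : a ∉ D.R z' := fun h => hna ⟨⟨⟨hz, h⟩, ha.1⟩, ha.2⟩
          rw [K_off' hD z' a hz', mul_zero]
        · rw [K_off' hD z a hz, zero_mul]
    rw [e1]
    have e3 := Finset.sum_filter_add_sum_filter_not
      (((D.R z ∩ D.LL S lam).filter (fun u => ω u = c)) ×ˢ
          ((D.R z' ∩ D.LL S lam).filter (fun u => ω u = c))) (fun e => e.1 = e.2)
      (fun e => D.K e.1 z * D.K e.2 z')
    rw [← e3, add_sub_cancel_left, ← Finset.sum_filter]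
    refine Finset.sum_congr ?_ fun _ _ => rfl
    ext ⟨a, b⟩
    simp only [mem_filter, mem_product, mem_inter]
    constructor
    · rintro ⟨⟨⟨⟨h1, h2⟩, h3⟩, ⟨⟨h4, h5⟩, h6⟩⟩, h7⟩
      exact ⟨⟨⟨⟨h1, h2⟩, ⟨h4, h5⟩⟩, h7, h3.trans h6.symm⟩, h3⟩
    · rintro ⟨⟨⟨⟨h1, h2⟩, ⟨h4, h5⟩⟩, h7, h8⟩, h3⟩
      exact ⟨⟨⟨⟨h1, h2⟩, h3⟩, ⟨⟨h4, h5⟩, h8.symm.trans h3⟩⟩, h7⟩
  calc _ = ∑ c, |∑ e ∈ ((D.R z ∩ D.LL S lam) ×ˢ (D.R z' ∩ D.LL S lam)).filter
        (fun e => e.1 ≠ e.2 ∧ ω e.1 = ω e.2),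
        if ω e.1 = c then D.K e.1 z * D.K e.2 z' else 0| :=
        Finset.sum_congr rfl fun c _ => by rw [h1 c]
    _ ≤ ∑ c, ∑ e ∈ ((D.R z ∩ D.LL S lam) ×ˢ (D.R z' ∩ D.LL S lam)).filter
        (fun e => e.1 ≠ e.2 ∧ ω e.1 = ω e.2),
        |if ω e.1 = c then D.K e.1 z * D.K e.2 z' else 0| :=
        Finset.sum_le_sum fun c _ => Finset.abs_sum_le_sum_abs _ _
    _ = ∑ e ∈ ((D.R z ∩ D.LL S lam) ×ˢ (D.R z' ∩ D.LL S lam)).filter
        (fun e => e.1 ≠ e.2 ∧ ω e.1 = ω e.2),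
        ∑ c, |if ω e.1 = c then D.K e.1 z * D.K e.2 z' else 0| := Finset.sum_comm
    _ ≤ ∑ e ∈ ((D.R z ∩ D.LL S lam) ×ˢ (D.R z' ∩ D.LL S lam)).filter
        (fun e => e.1 ≠ e.2 ∧ ω e.1 = ω e.2), D.T ^ 2 := by
        refine Finset.sum_le_sum fun e _ => ?_
        rw [Finset.sum_eq_single (ω e.1)]
        · rw [if_pos rfl, abs_mul, sq]
          have k1 := K_abs hD e.1 z
          have k2 := K_abs hD e.2 z'
          gcongr
        · intro c _ hc
          rw [if_neg (Ne.symm hc), abs_zero]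
        · intro h
          exact absurd (mem_univ _) h
    _ = _ := by rw [Finset.sum_const, nsmul_eq_mul, mul_comm]

theorem stI_k_inv (n : ℕ) (h : n ≤ 3999) : D.T ^ n / D.k ≤ 1 / D.T ^ (3999 - n) := by
  have hT := stI_T_ge hD
  have hk := k_pos' hD
  rw [div_le_div_iff₀ hk (by positivity), one_mul, ← pow_add]
  rw [show n + (3999 - n) = 3999 by omega]
  exact hD.k_lo

theorem stI_delta (z z' : Q) (hp : D.pr z z') :
    ∑ c, (if S.al z c then |D.delta S lam z z' c| else 0) ≤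
      D.k * (D.t m / D.T ^ 15 + 1 / D.T ^ 1800) := by
  have hT := stI_T_ge hD
  have hk := k_pos' hD
  have ht := t_pos hD hm.le
  have hTp : 0 < D.T := by linarith
  obtain ⟨O, hO, hO2⟩ := hI.kapB z z' hp
  have hmM : (m : ℝ) ≤ D.T ^ 150 := by
    have h1 : (m : ℝ) ≤ D.M := by exact_mod_cast hm.le
    exact h1.trans (M_le_T hD)
  have hpd0 := fun c => hI.pd_nonneg z c
  have hpt : ∀ c, (if S.al z c then |D.delta S lam z z' c| else 0) ≤
      (2 * D.t m * (1 / D.T ^ 460 + m / D.T ^ 180 + 6 * D.T ^ 4 / D.k * S.pd z c) +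
        D.t m / D.T ^ 20 + 1 / D.T ^ 1900) +
      (if c ∈ O then 2 * D.t m * D.T ^ 2 + 1 / D.T ^ 1900 else 0) := by
    intro c
    have hpd := hpd0 c
    have hn1 : 0 ≤ 2 * D.t m * (1 / D.T ^ 460 + m / D.T ^ 180 + 6 * D.T ^ 4 / D.k * S.pd z c) +
        D.t m / D.T ^ 20 + 1 / D.T ^ 1900 := by positivity
    have hn2 : 0 ≤ 2 * D.t m * D.T ^ 2 + 1 / D.T ^ 1900 := by positivity
    by_cases ha : S.al z c
    · rw [if_pos ha]
      by_cases hc : c ∈ O
      · rw [if_pos hc]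
        have := delta_le' hD hI hm hA z z' hp c ha
        linarith
      · rw [if_neg hc, add_zero]
        have h1 := delta_le hD hI hm hA z z' hp c ha
        have h2 := hO2 c hc ha
        have h3 : 2 * D.t m * |D.kap S z z' c| ≤
            2 * D.t m * (1 / D.T ^ 460 + m / D.T ^ 180 + 6 * D.T ^ 4 / D.k * S.pd z c) := by
          gcongr
        linarith
    · rw [if_neg ha]
      split_ifs <;> linarith
  have hsum : ∑ c : Fin D.k, ((2 * D.t m * (1 / D.T ^ 460 + m / D.T ^ 180 +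
      6 * D.T ^ 4 / D.k * S.pd z c) + D.t m / D.T ^ 20 + 1 / D.T ^ 1900) +
      (if c ∈ O then 2 * D.t m * D.T ^ 2 + 1 / D.T ^ 1900 else 0)) =
      D.k * (2 * D.t m * (1 / D.T ^ 460 + m / D.T ^ 180) + D.t m / D.T ^ 20 +
        1 / D.T ^ 1900) + 12 * D.t m * D.T ^ 4 * (1 / (D.k : ℝ) * ∑ c, S.pd z c) +
      O.card * (2 * D.t m * D.T ^ 2 + 1 / D.T ^ 1900) := by
    rw [Finset.sum_add_distrib, ← Finset.sum_filter, Finset.filter_mem_eq_inter,
      Finset.univ_inter, Finset.sum_const, nsmul_eq_mul]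
    congr 1
    have e1 : ∀ c : Fin D.k, 2 * D.t m * (1 / D.T ^ 460 + m / D.T ^ 180 +
        6 * D.T ^ 4 / D.k * S.pd z c) + D.t m / D.T ^ 20 + 1 / D.T ^ 1900 =
        (2 * D.t m * (1 / D.T ^ 460 + m / D.T ^ 180) + D.t m / D.T ^ 20 + 1 / D.T ^ 1900) +
        (12 * D.t m * D.T ^ 4 * (1 / (D.k : ℝ))) * S.pd z c := by
      intro c
      ring
    rw [Finset.sum_congr rfl fun c _ => e1 c, Finset.sum_add_distrib, Finset.sum_const,
      Finset.card_univ, Fintype.card_fin, nsmul_eq_mul, ← Finset.mul_sum]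
    ring
  refine (Finset.sum_le_sum fun c _ => hpt c).trans ?_
  rw [hsum]
  have hpa := pd_avg hD hI hm.le z
  -- all bounds as fractions of `k`
  have f1 : 12 * D.t m * D.T ^ 4 * (1 / (D.k : ℝ) * ∑ c, S.pd z c) ≤
      D.k * (D.t m / D.T ^ 30) := by
    have g1 : (D.T ^ 3999) * (D.T ^ 3999) ≤ D.k * D.k := by
      have := hD.k_lo
      gcongr
    have g2 : D.T ^ 7960 / D.k ≤ D.k / D.T ^ 38 := by
      rw [div_le_div_iff₀ hk (by positivity), ← pow_add]
      refine le_trans ?_ g1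
      rw [← pow_add]
    have g3 : 12 * D.T ^ 4 / D.T ^ 38 ≤ 1 / D.T ^ 30 := by
      rw [div_le_div_iff₀ (by positivity) (by positivity), one_mul]
      have : D.T ^ 38 = D.T ^ 4 * D.T ^ 30 * D.T ^ 4 := by rw [← pow_add, ← pow_add]
      rw [this]
      have h4 : (12 : ℝ) ≤ D.T ^ 4 := by
        have : D.T ≤ D.T ^ 4 := le_self_pow₀ (by linarith) (by norm_num)
        linarith
      have h5 : 0 ≤ D.T ^ 4 * D.T ^ 30 := by positivity
      nlinarith
    calc _ ≤ 12 * D.t m * D.T ^ 4 * (D.k / D.T ^ 38) := by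
          gcongr
          exact hpa.trans g2
      _ = D.k * (D.t m * (12 * D.T ^ 4 / D.T ^ 38)) := by ring
      _ ≤ D.k * (D.t m * (1 / D.T ^ 30)) := by gcongr
      _ = _ := by ring
  have f2 : (O.card : ℝ) ≤ D.k * (1 / D.T ^ 18) := by
    refine hO.trans ?_
    calc _ ≤ D.T ^ 150 * D.T ^ 3831 := by gcongr
      _ = D.T ^ 3981 := by rw [← pow_add]
      _ ≤ _ := by
        rw [mul_one_div, le_div_iff₀ (by positivity), ← pow_add]
        exact hD.k_lo
  have f3 : (m : ℝ) / D.T ^ 180 ≤ 1 / D.T ^ 30 := by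
    rw [div_le_div_iff₀ (by positivity) (by positivity), one_mul]
    calc (m : ℝ) * D.T ^ 30 ≤ D.T ^ 150 * D.T ^ 30 := by gcongr
      _ = _ := by rw [← pow_add]
  have f4 : (1 : ℝ) / D.T ^ 460 ≤ 1 / D.T ^ 30 := hD.big.ipw (by norm_num)
  have f5 : O.card * (2 * D.t m * D.T ^ 2 + 1 / D.T ^ 1900) ≤
      D.k * (1 / D.T ^ 18) * (2 * D.t m * D.T ^ 2 + 1 / D.T ^ 1900) := by gcongr
  have f6 : D.k * (2 * D.t m * (1 / D.T ^ 460 + m / D.T ^ 180) + D.t m / D.T ^ 20 +
        1 / D.T ^ 1900) ≤ D.k * (2 * D.t m * (1 / D.T ^ 30 + 1 / D.T ^ 30) + D.t m / D.T ^ 20 +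
        1 / D.T ^ 1900) := by gcongr
  refine (add_le_add (add_le_add f6 f1) f5).trans ?_
  -- now in terms of `e = 1 / T`
  set e : ℝ := 1 / D.T with he
  have he0 : 0 < e := by positivity
  have he1 : e ≤ 1 / 1000000 := by
    rw [he]
    exact one_div_le_one_div_of_le (by norm_num) hT
  have hpow : ∀ n : ℕ, 1 / D.T ^ n = e ^ n := fun n => by rw [he, one_div_pow]
  have hdiv : ∀ n : ℕ, D.t m / D.T ^ n = D.t m * e ^ n := fun n => by
    rw [← hpow, mul_one_div]
  have hT2 : D.T ^ 2 * e ^ 2 = 1 := by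
    rw [he, ← mul_pow, mul_one_div_cancel hTp.ne', one_pow]
  rw [hpow, hpow, hpow, hpow, hdiv, hdiv, hdiv]
  have hle : ∀ a b : ℕ, b ≤ a → e ^ a ≤ e ^ b := fun a b h =>
    pow_le_pow_of_le_one he0.le (by linarith) h
  have k1 : e ^ 18 * D.T ^ 2 = e ^ 16 := by
    have : e ^ 18 = e ^ 16 * e ^ 2 := by rw [← pow_add]
    rw [this, mul_assoc, mul_comm (e ^ 2), hT2, mul_one]
  have k2 : e ^ 16 = e * e ^ 15 := by rw [pow_succ']
  have k3 : e ^ 30 ≤ e ^ 16 := hle _ _ (by norm_num)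
  have k4 : e ^ 20 ≤ e ^ 16 := hle _ _ (by norm_num)
  have k5 : e ^ 1900 = e * e ^ 1899 := by rw [pow_succ']
  have k6 : e ^ 1899 ≤ e ^ 1800 := hle _ _ (by norm_num)
  have k7 : e ^ 18 ≤ 1 := pow_le_one₀ he0.le (by linarith)
  have k8 : 0 < e ^ 15 := by positivity
  have k9 : 0 < e ^ 1899 := by positivity
  have hin : 2 * D.t m * (e ^ 30 + e ^ 30) + D.t m * e ^ 20 + e ^ 1900 + D.t m * e ^ 30 +
      e ^ 18 * (2 * D.t m * D.T ^ 2 + e ^ 1900) ≤ D.t m * e ^ 15 + e ^ 1800 := by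
    have l1 : e ^ 18 * (2 * D.t m * D.T ^ 2 + e ^ 1900) =
        2 * D.t m * e ^ 16 + e ^ 18 * e ^ 1900 := by
      rw [mul_add, ← k1]; ring
    rw [l1]
    have l2 : e ^ 18 * e ^ 1900 ≤ e ^ 1900 := by
      have : 0 ≤ e ^ 1900 := by positivity
      nlinarith
    have l3 : D.t m * e ^ 30 ≤ D.t m * e ^ 16 := by gcongr
    have l4 : D.t m * e ^ 20 ≤ D.t m * e ^ 16 := by gcongr
    have l5 : D.t m * e ^ 16 = e * (D.t m * e ^ 15) := by rw [k2]; ring
    have l6 : 8 * (e * (D.t m * e ^ 15)) ≤ D.t m * e ^ 15 := by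
      have : 0 < D.t m * e ^ 15 := by positivity
      nlinarith
    have l7 : 2 * e ^ 1900 ≤ e ^ 1800 := by
      rw [k5]
      nlinarith
    nlinarith
  calc _ = D.k * (2 * D.t m * (e ^ 30 + e ^ 30) + D.t m * e ^ 20 + e ^ 1900 +
        D.t m * e ^ 30 + e ^ 18 * (2 * D.t m * D.T ^ 2 + e ^ 1900)) := by ring
    _ ≤ _ := by gcongr

/-- The product of the linear changes. -/
theorem stI_AA (z z' : Q) :
    ∑ c, stI_A D S lam ω z c * stI_A D S lam ω z' c =
      D.cen S lam (D.Y10 S lam z z') ω +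
      (∑ c, if S.al z c ∧ S.al z' c then S.v z c * S.v z' c * D.delta S lam z z' c else 0) +
      (∑ c, if S.al z c ∧ S.al z' c then S.v z c * S.v z' c *
        (D.pk S lam ω z c * D.pk S lam ω z' c -
          ∑ u ∈ (D.LL S lam).filter (fun u => ω u = c), D.K u z * D.K u z') else 0) +
      (∑ c, if S.al z c ∧ S.al z' c then S.v z c * S.v z' c *
        (D.cmp S lam z c * D.cmp S lam z' c - D.cmp S lam z c * D.pk S lam ω z' c -
          D.cmp S lam z' c * D.pk S lam ω z c) else 0) := by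
  have h1 : ∀ c, ∑ u ∈ D.LL S lam, ((if ω u = c then 1 else 0) - D.p S lam u c) *
      (D.K u z * D.K u z') =
      ∑ u ∈ (D.LL S lam).filter (fun u => ω u = c), D.K u z * D.K u z' -
        D.delta S lam z z' c := by
    intro c
    unfold delta
    rw [Finset.sum_filter, ← Finset.sum_sub_distrib]
    refine Finset.sum_congr rfl fun u _ => ?_
    split_ifs <;> ring
  rw [stI_cen S lam ω z z', ← Finset.sum_add_distrib, ← Finset.sum_add_distrib,
    ← Finset.sum_add_distrib]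
  refine Finset.sum_congr rfl fun c _ => ?_
  rw [h1 c]
  unfold stI_A
  by_cases h1 : S.al z c
  · by_cases h2 : S.al z' c
    · simp only [h1, h2, and_self, if_true]
      ring
    · simp only [h1, h2, and_false, if_true, if_false]
      ring
  · simp only [h1, false_and, if_false]
    ring

theorem stI_vv (z z' : Q) (c : Fin D.k) : |S.v z c * S.v z' c| ≤ D.T ^ 2 := by
  have hT := stI_T_ge hD
  have h1 := v_abs hD hI hm.le z c
  have h2 := v_abs hD hI hm.le z' c
  rw [abs_mul, sq]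
  gcongr

theorem stI_cmp_sum (z z' : Q) :
    ∑ c, |if S.al z c ∧ S.al z' c then S.v z c * S.v z' c *
        (D.cmp S lam z c * D.cmp S lam z' c - D.cmp S lam z c * D.pk S lam ω z' c -
          D.cmp S lam z' c * D.pk S lam ω z c) else 0| ≤
    D.k * (1 / D.T ^ 218) + 2 * D.T ^ 3779 := by
  have hT := stI_T_ge hD
  have hTp : 0 < D.T := by linarith
  have hpt : ∀ c, |if S.al z c ∧ S.al z' c then S.v z c * S.v z' c *
        (D.cmp S lam z c * D.cmp S lam z' c - D.cmp S lam z c * D.pk S lam ω z' c -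
          D.cmp S lam z' c * D.pk S lam ω z c) else 0| ≤
      D.T ^ 2 * (1 / D.T ^ 110 * (1 / D.T ^ 110)) +
        D.T ^ 2 * (1 / D.T ^ 110 * (D.T * D.J S lam ω z' c)) +
        D.T ^ 2 * (1 / D.T ^ 110 * (D.T * D.J S lam ω z c)) := by
    intro c
    have c1 := cmp_abs hD hI hm hA z c
    have c2 := cmp_abs hD hI hm hA z' c
    have p1 := pk_abs S lam ω hD z c
    have p2 := pk_abs S lam ω hD z' c
    have hv := stI_vv hD hI hm hA z z' c
    split_ifs
    · rw [abs_mul]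
      have t1 := abs_sub (D.cmp S lam z c * D.cmp S lam z' c - D.cmp S lam z c *
        D.pk S lam ω z' c) (D.cmp S lam z' c * D.pk S lam ω z c)
      have t2 := abs_sub (D.cmp S lam z c * D.cmp S lam z' c)
        (D.cmp S lam z c * D.pk S lam ω z' c)
      have u1 : |D.cmp S lam z c * D.cmp S lam z' c| ≤ 1 / D.T ^ 110 * (1 / D.T ^ 110) := by
        rw [abs_mul]; gcongr
      have u2 : |D.cmp S lam z c * D.pk S lam ω z' c| ≤
          1 / D.T ^ 110 * (D.T * D.J S lam ω z' c) := by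
        rw [abs_mul]; gcongr
      have u3 : |D.cmp S lam z' c * D.pk S lam ω z c| ≤
          1 / D.T ^ 110 * (D.T * D.J S lam ω z c) := by
        rw [abs_mul]; gcongr
      calc _ ≤ D.T ^ 2 * (1 / D.T ^ 110 * (1 / D.T ^ 110) +
            1 / D.T ^ 110 * (D.T * D.J S lam ω z' c) +
            1 / D.T ^ 110 * (D.T * D.J S lam ω z c)) := by
            apply mul_le_mul hv _ (abs_nonneg _) (by positivity)
            linarith
        _ = _ := by ring
    · rw [abs_zero]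
      positivity
  have hb : ∀ x : Q, ∑ c, (D.J S lam ω x c : ℝ) ≤ D.T ^ 3885 := fun x => by
    rw [sum_J S lam ω x]
    exact RV_card hD hI hm hA x
  have hJz := hb z
  have hJz' := hb z'
  have q1 : D.T ^ 2 * (1 / D.T ^ 110 * (1 / D.T ^ 110)) = 1 / D.T ^ 218 := by
    have : D.T ^ 2 * (1 / D.T ^ 110 * (1 / D.T ^ 110)) = D.T ^ 2 / (D.T ^ 110 * D.T ^ 110) := by
      rw [div_mul_div_comm, one_mul, mul_one_div]
    rw [this, div_eq_div_iff (by positivity) (by positivity), one_mul, ← pow_add, ← pow_add]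
  have q2 : D.T ^ 2 * (1 / D.T ^ 110 * (D.T * D.T ^ 3885)) ≤ D.T ^ 3779 := by
    have : D.T ^ 2 * (1 / D.T ^ 110 * (D.T * D.T ^ 3885)) =
        (D.T ^ 2 * (D.T * D.T ^ 3885)) / D.T ^ 110 := by ring
    rw [this, div_le_iff₀ (by positivity), ← pow_succ', ← pow_add, ← pow_add]
    exact pow_le_pow_right₀ (by linarith) (by norm_num)
  calc _ ≤ ∑ c, (D.T ^ 2 * (1 / D.T ^ 110 * (1 / D.T ^ 110)) +
        D.T ^ 2 * (1 / D.T ^ 110 * (D.T * D.J S lam ω z' c)) +
        D.T ^ 2 * (1 / D.T ^ 110 * (D.T * D.J S lam ω z c))) :=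
        Finset.sum_le_sum fun c _ => hpt c
    _ = D.k * (D.T ^ 2 * (1 / D.T ^ 110 * (1 / D.T ^ 110))) +
        D.T ^ 2 * (1 / D.T ^ 110 * (D.T * ∑ c, (D.J S lam ω z' c : ℝ))) +
        D.T ^ 2 * (1 / D.T ^ 110 * (D.T * ∑ c, (D.J S lam ω z c : ℝ))) := by
        rw [Finset.sum_add_distrib, Finset.sum_add_distrib, Finset.sum_const,
          Finset.card_univ, Fintype.card_fin, nsmul_eq_mul]
        simp only [← Finset.mul_sum]
    _ ≤ D.k * (D.T ^ 2 * (1 / D.T ^ 110 * (1 / D.T ^ 110))) +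
        D.T ^ 2 * (1 / D.T ^ 110 * (D.T * D.T ^ 3885)) +
        D.T ^ 2 * (1 / D.T ^ 110 * (D.T * D.T ^ 3885)) := by gcongr
    _ ≤ _ := by
        rw [q1]
        linarith

theorem step_iiB (hG : D.GoodB S lam ω) (z z' : Q) (hp : D.pr z z') :
    |D.II (D.step S m lam ω) z z' - 1| ≤
      (m + 1 : ℕ) / D.T ^ 200 + D.sg (m + 1) / D.T ^ 12 := by
  have hT := stI_T_ge hD
  have hTp : 0 < D.T := by linarith
  have hk := k_pos' hD
  have ht := t_pos hD hm.le
  -- the errors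
  have b1 : |∑ c, ((D.step S m lam ω).v z c * (D.step S m lam ω).v z' c -
      S.v z c * S.v z' c - stI_A D S lam ω z c * S.v z' c - stI_A D S lam ω z' c * S.v z c -
      stI_A D S lam ω z c * stI_A D S lam ω z' c)| ≤ 30 * D.T ^ 4 * D.T ^ 3778 := by
    refine (Finset.abs_sum_le_sum_abs _ _).trans ?_
    refine (Finset.sum_le_sum fun c _ => stI_err hD hI hm hA ω z z' c).trans ?_
    rw [Finset.sum_add_distrib, ← Finset.mul_sum, ← Finset.mul_sum]
    have h1 := mul_le_mul_of_nonneg_left (hG.e6 z)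
      (show 0 ≤ 15 * D.T ^ 4 by positivity)
    have h2 := mul_le_mul_of_nonneg_left (hG.e6 z')
      (show 0 ≤ 15 * D.T ^ 4 by positivity)
    linarith
  have b2 : |∑ c, stI_A D S lam ω z c * S.v z' c| ≤ D.T ^ 2000 := by
    have h1 := hG.e9 z z' hp
    rw [cen_Y9 S lam ω z z'] at h1
    convert h1 using 2
    refine Finset.sum_congr rfl fun c _ => ?_
    unfold stI_A
    split_ifs <;> ring
  have b3 : |∑ c, stI_A D S lam ω z' c * S.v z c| ≤ D.T ^ 2000 := by
    have h1 := hG.e9 z' z (hD.pr_symm z z' hp)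
    rw [cen_Y9 S lam ω z' z] at h1
    convert h1 using 2
    refine Finset.sum_congr rfl fun c _ => ?_
    unfold stI_A
    split_ifs <;> ring
  have b4 := hG.e10 z z' hp
  have b5 : |∑ c, if S.al z c ∧ S.al z' c then S.v z c * S.v z' c * D.delta S lam z z' c
      else 0| ≤ D.T ^ 2 * (D.k * (D.t m / D.T ^ 15 + 1 / D.T ^ 1800)) := by
    refine (Finset.abs_sum_le_sum_abs _ _).trans ?_
    refine le_trans ?_ (mul_le_mul_of_nonneg_left (stI_delta hD hI hm hA z z' hp)
      (show 0 ≤ D.T ^ 2 by positivity))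
    rw [Finset.mul_sum]
    refine Finset.sum_le_sum fun c _ => ?_
    by_cases h1 : S.al z c
    · rw [if_pos h1]
      by_cases h2 : S.al z' c
      · rw [if_pos ⟨h1, h2⟩, abs_mul]
        have := stI_vv hD hI hm hA z z' c
        gcongr
      · rw [if_neg (fun h => h2 h.2), abs_zero]
        positivity
    · rw [if_neg h1, if_neg (fun h => h1 h.1), abs_zero, mul_zero]
  have b6 : |∑ c, if S.al z c ∧ S.al z' c then S.v z c * S.v z' c *
        (D.pk S lam ω z c * D.pk S lam ω z' c -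
          ∑ u ∈ (D.LL S lam).filter (fun u => ω u = c), D.K u z * D.K u z') else 0| ≤
      D.T ^ 2 * (D.T ^ 2 * D.T ^ 3778) := by
    refine (Finset.abs_sum_le_sum_abs _ _).trans ?_
    have h1 := stI_off hD hI hm hA ω z z'
    have h2 : D.T ^ 2 * ((((D.R z ∩ D.LL S lam) ×ˢ (D.R z' ∩ D.LL S lam)).filter
      fun e => e.1 ≠ e.2 ∧ ω e.1 = ω e.2).card : ℝ) ≤ D.T ^ 2 * D.T ^ 3778 :=
      mul_le_mul_of_nonneg_left (hG.e11 z z' hp) (by positivity)
    refine le_trans ?_ (mul_le_mul_of_nonneg_left (h1.trans h2)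
      (show 0 ≤ D.T ^ 2 by positivity))
    rw [Finset.mul_sum]
    refine Finset.sum_le_sum fun c _ => ?_
    split_ifs
    · rw [abs_mul]
      have := stI_vv hD hI hm hA z z' c
      gcongr
    · rw [abs_zero]
      positivity
  have b7 := (Finset.abs_sum_le_sum_abs _ _).trans (stI_cmp_sum hD hI hm hA ω z z')
  have hAA := stI_AA hD hI hm hA ω z z'
  have hold := hI.iiB z z' hp
  have hdiff : D.II (D.step S m lam ω) z z' - 1 = (D.II S z z' - 1) + 1 / D.k *
      ((∑ c, ((D.step S m lam ω).v z c * (D.step S m lam ω).v z' c -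
      S.v z c * S.v z' c - stI_A D S lam ω z c * S.v z' c - stI_A D S lam ω z' c * S.v z c -
      stI_A D S lam ω z c * stI_A D S lam ω z' c)) +
      (∑ c, stI_A D S lam ω z c * S.v z' c) + (∑ c, stI_A D S lam ω z' c * S.v z c) +
      ∑ c, stI_A D S lam ω z c * stI_A D S lam ω z' c) := by
    unfold II
    rw [← Finset.sum_add_distrib, ← Finset.sum_add_distrib, ← Finset.sum_add_distrib]
    have : ∀ c, (D.step S m lam ω).v z c * (D.step S m lam ω).v z' c - S.v z c * S.v z' c -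
        stI_A D S lam ω z c * S.v z' c - stI_A D S lam ω z' c * S.v z c -
        stI_A D S lam ω z c * stI_A D S lam ω z' c + stI_A D S lam ω z c * S.v z' c +
        stI_A D S lam ω z' c * S.v z c + stI_A D S lam ω z c * stI_A D S lam ω z' c =
        (D.step S m lam ω).v z c * (D.step S m lam ω).v z' c - S.v z c * S.v z' c := by
      intro c
      ring
    rw [Finset.sum_congr rfl fun c _ => this c, Finset.sum_sub_distrib]
    ring
  set X1 := ∑ c, ((D.step S m lam ω).v z c * (D.step S m lam ω).v z' c -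
      S.v z c * S.v z' c - stI_A D S lam ω z c * S.v z' c - stI_A D S lam ω z' c * S.v z c -
      stI_A D S lam ω z c * stI_A D S lam ω z' c)
  set X2 := ∑ c, stI_A D S lam ω z c * S.v z' c
  set X3 := ∑ c, stI_A D S lam ω z' c * S.v z c
  set X4 := D.cen S lam (D.Y10 S lam z z') ω
  set X5 := ∑ c, if S.al z c ∧ S.al z' c then S.v z c * S.v z' c * D.delta S lam z z' c
      else 0
  set X6 := ∑ c, if S.al z c ∧ S.al z' c then S.v z c * S.v z' c *
        (D.pk S lam ω z c * D.pk S lam ω z' c -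
          ∑ u ∈ (D.LL S lam).filter (fun u => ω u = c), D.K u z * D.K u z') else 0
  set X7 := ∑ c, if S.al z c ∧ S.al z' c then S.v z c * S.v z' c *
        (D.cmp S lam z c * D.cmp S lam z' c - D.cmp S lam z c * D.pk S lam ω z' c -
          D.cmp S lam z' c * D.pk S lam ω z c) else 0
  rw [hdiff, hAA]
  have hX : |X1 + X2 + X3 + (X4 + X5 + X6 + X7)| ≤ 30 * D.T ^ 4 * D.T ^ 3778 + D.T ^ 2000 +
      D.T ^ 2000 + (D.T ^ 2000 + D.T ^ 2 * (D.k * (D.t m / D.T ^ 15 + 1 / D.T ^ 1800)) +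
      D.T ^ 2 * (D.T ^ 2 * D.T ^ 3778) + (D.k * (1 / D.T ^ 218) + 2 * D.T ^ 3779)) := by
    have a1 := abs_le.1 b1
    have a2 := abs_le.1 b2
    have a3 := abs_le.1 b3
    have a4 := abs_le.1 b4
    have a5 := abs_le.1 b5
    have a6 := abs_le.1 b6
    have a7 := abs_le.1 b7
    rw [abs_le]
    constructor <;> linarith
  have hlow : 30 * D.T ^ 4 * D.T ^ 3778 + D.T ^ 2000 + D.T ^ 2000 + (D.T ^ 2000 +
      D.T ^ 2 * (D.T ^ 2 * D.T ^ 3778) + 2 * D.T ^ 3779) ≤ D.k * (1 / D.T ^ 209) := by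
    have e1 : D.T ^ 2000 ≤ D.T ^ 3782 := pow_le_pow_right₀ (by linarith) (by norm_num)
    have e2 : D.T ^ 3779 ≤ D.T ^ 3782 := pow_le_pow_right₀ (by linarith) (by norm_num)
    have e3 : D.T ^ 4 * D.T ^ 3778 = D.T ^ 3782 := by rw [← pow_add]
    have e4 : D.T ^ 2 * (D.T ^ 2 * D.T ^ 3778) = D.T ^ 3782 := by rw [← pow_add, ← pow_add]
    have e5 : D.T ^ 3790 ≤ D.k * (1 / D.T ^ 209) := by
      rw [mul_one_div, le_div_iff₀ (by positivity), ← pow_add]
      exact hD.k_lo
    have e6 : D.T ^ 3790 = D.T ^ 8 * D.T ^ 3782 := by rw [← pow_add]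
    have e7 : (1000 : ℝ) ≤ D.T ^ 8 := by
      have : D.T ≤ D.T ^ 8 := le_self_pow₀ (by linarith) (by norm_num)
      linarith
    have e8 : 0 ≤ D.T ^ 3782 := by positivity
    rw [mul_assoc, e3, e4]
    nlinarith
  have hfin : 1 / (D.k : ℝ) * |X1 + X2 + X3 + (X4 + X5 + X6 + X7)| ≤
      1 / D.T ^ 200 + D.t m / D.T ^ 12 := by
    have g1 : |X1 + X2 + X3 + (X4 + X5 + X6 + X7)| ≤ D.k * (1 / D.T ^ 209 + 1 / D.T ^ 218 +
        D.T ^ 2 * (D.t m / D.T ^ 15 + 1 / D.T ^ 1800)) := by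
      refine hX.trans ?_
      have : D.k * (1 / D.T ^ 209 + 1 / D.T ^ 218 +
        D.T ^ 2 * (D.t m / D.T ^ 15 + 1 / D.T ^ 1800)) = D.k * (1 / D.T ^ 209) +
        D.k * (1 / D.T ^ 218) + D.T ^ 2 * (D.k * (D.t m / D.T ^ 15 + 1 / D.T ^ 1800)) := by
        ring
      rw [this]
      linarith
    have g2 : D.T ^ 2 * (D.t m / D.T ^ 15 + 1 / D.T ^ 1800) =
        D.t m / D.T ^ 13 + 1 / D.T ^ 1798 := by
      have h1 : D.T ^ 15 = D.T ^ 2 * D.T ^ 13 := by rw [← pow_add]
      have h2 : D.T ^ 1800 = D.T ^ 2 * D.T ^ 1798 := by rw [← pow_add]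
      rw [h1, h2]
      field_simp
    have g3 : D.t m / D.T ^ 13 ≤ D.t m / D.T ^ 12 := by
      have := hD.big.pw (show 12 ≤ 13 by norm_num)
      gcongr
    have g4 : 1 / D.T ^ 209 + 1 / D.T ^ 218 + 1 / D.T ^ 1798 ≤ 1 / D.T ^ 200 := by
      have h1 : 1 / D.T ^ 209 ≤ 1 / D.T ^ 201 := hD.big.ipw (by norm_num)
      have h2 : 1 / D.T ^ 218 ≤ 1 / D.T ^ 201 := hD.big.ipw (by norm_num)
      have h3 : 1 / D.T ^ 1798 ≤ 1 / D.T ^ 201 := hD.big.ipw (by norm_num)
      have h4 : 3 * (1 / D.T ^ 201) ≤ 1 / D.T ^ 200 := by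
        rw [mul_one_div, div_le_div_iff₀ (by positivity) (by positivity), one_mul,
          show D.T ^ 201 = D.T * D.T ^ 200 by rw [pow_succ']]
        have : 0 < D.T ^ 200 := by positivity
        nlinarith
      linarith
    calc _ ≤ 1 / (D.k : ℝ) * (D.k * (1 / D.T ^ 209 + 1 / D.T ^ 218 +
        D.T ^ 2 * (D.t m / D.T ^ 15 + 1 / D.T ^ 1800))) := by gcongr
      _ = 1 / D.T ^ 209 + 1 / D.T ^ 218 +
        D.T ^ 2 * (D.t m / D.T ^ 15 + 1 / D.T ^ 1800) := by
          rw [← mul_assoc, one_div_mul_cancel hk.ne', one_mul]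
      _ ≤ _ := by
          rw [g2]
          linarith
  have hsg := sg_succ (D := D) m
  refine (abs_add_le _ _).trans ?_
  rw [abs_mul, abs_of_pos (show (0 : ℝ) < 1 / D.k by positivity), hsg]
  have hexp : ((m + 1 : ℕ) : ℝ) / D.T ^ 200 + (D.sg m + D.t m) / D.T ^ 12 =
      (m / D.T ^ 200 + D.sg m / D.T ^ 12) + (1 / D.T ^ 200 + D.t m / D.T ^ 12) := by
    push_cast
    ring
  rw [hexp]
  linarith

end

end NibData

end Pool.Agent.AcyK
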