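import Pool.Agent.AcyK.LamC
import Pool.Agent.AcyK.BasicC
import Pool.Agent.AcyK.LamB

/-! # One round: the drift of the products (module StepK) -/

set_option autoImplicit false
set_option linter.unusedSectionVars false

namespace Pool.Agent.AcyK

open Finset
open Pool.Agent.Acy (IsPM wt Ex Pr mean)
open scoped Classical

universe u v

section

variable {Q ι : Type u} [Fintype Q] [DecidableEq Q] [Fintype ι] [DecidableEq ι]

namespace NibData

variable {D : NibData Q ι}

section step
variable (hD : D.Ok) {S : NState Q D.k} {m : ℕ} (hI : D.Inv S m) (hm : m < D.M)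
  {lam : Q → Option Bool} (hA : D.GoodA S m lam) (ω : Q → Fin D.k)
include hD hI hm hA

/-- Change of one term of `kap`. -/
theorem stepK_term (z z' y : Q) (c : Fin D.k) :
    |D.K y z * D.K y z' * (D.step S m lam ω).v y c - (D.K y z * D.K y z' * S.v y c +
      (if S.al y c then
        D.K y z * D.K y z' * S.v y c * (D.pk S lam ω y c - D.cmp S lam y c) else 0))| ≤
      (if y ∈ D.R z then
        6 * D.T ^ 4 * ((D.J S lam ω y c : ℝ) * ((D.J S lam ω y c : ℝ) - 1)) else 0) := by
  have hT := hD.big
  have hT0 := hT.pos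
  have hT1 := hT.one_le
  have hJ0 := J_mul_nonneg S lam ω y c
  have hlast : 0 ≤ (if y ∈ D.R z then
      6 * D.T ^ 4 * ((D.J S lam ω y c : ℝ) * ((D.J S lam ω y c : ℝ) - 1)) else 0) := by
    split_ifs
    · positivity
    · exact le_rfl
  by_cases hal : S.al y c
  · rw [if_pos hal]
    by_cases hJ : D.J S lam ω y c ≤ 1
    · have hv : (D.step S m lam ω).v y c =
          S.v y c * (1 + D.pk S lam ω y c - D.cmp S lam y c) := by
        show (if S.al y c then (if D.J S lam ω y c ≤ 1 then
          S.v y c * (1 + D.pk S lam ω y c - D.cmp S lam y c) else 0) else S.v y c) = _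
        rw [if_pos hal, if_pos hJ]
      rw [hv]
      have e0 : D.K y z * D.K y z' * (S.v y c * (1 + D.pk S lam ω y c - D.cmp S lam y c)) -
          (D.K y z * D.K y z' * S.v y c +
            D.K y z * D.K y z' * S.v y c * (D.pk S lam ω y c - D.cmp S lam y c)) = 0 := by
        ring
      rw [e0, abs_zero]
      exact hlast
    · have hv : (D.step S m lam ω).v y c = 0 := by
        show (if S.al y c then (if D.J S lam ω y c ≤ 1 then
          S.v y c * (1 + D.pk S lam ω y c - D.cmp S lam y c) else 0) else S.v y c) = _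
        rw [if_pos hal, if_neg hJ]
      rw [hv]
      by_cases hyR : y ∈ D.R z
      · rw [if_pos hyR]
        have hJ2 : (2 : ℝ) ≤ (D.J S lam ω y c : ℝ) := by
          have : 2 ≤ D.J S lam ω y c := by omega
          exact_mod_cast this
        have hv0 := hI.al_pos y c hal
        have hv1 := v_le hD hI hm.le y c
        have hpk := pk_abs S lam ω hD y c
        have hcmp := cmp_abs hD hI hm hA y c
        have h110 : 1 / D.T ^ 110 ≤ 1 / 1000000 := hT.small (by norm_num)
        have hK1 := K_abs hD y z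
        have hK2 := K_abs hD y z'
        have e0 : D.K y z * D.K y z' * 0 - (D.K y z * D.K y z' * S.v y c +
            D.K y z * D.K y z' * S.v y c * (D.pk S lam ω y c - D.cmp S lam y c)) =
            -(D.K y z * D.K y z' * (S.v y c * (1 + D.pk S lam ω y c - D.cmp S lam y c))) := by
          ring
        rw [e0, abs_neg, abs_mul, abs_mul, abs_mul, abs_of_pos hv0]
        have h1 : |1 + D.pk S lam ω y c - D.cmp S lam y c| ≤ D.T * D.J S lam ω y c + 2 := by
          have h2 := abs_le.mp hpk
          have h3 := abs_le.mp hcmp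
          rw [abs_le]
          constructor
          · linarith [h2.1, h2.2, h3.1, h3.2]
          · linarith [h2.1, h2.2, h3.1, h3.2]
        have hJJ : (D.J S lam ω y c : ℝ) ≤
            (D.J S lam ω y c : ℝ) * ((D.J S lam ω y c : ℝ) - 1) := by
          nlinarith
        have h1' : D.T * D.J S lam ω y c + 2 ≤
            6 * D.T * ((D.J S lam ω y c : ℝ) * ((D.J S lam ω y c : ℝ) - 1)) := by
          have h2 : D.T * D.J S lam ω y c ≤
              D.T * ((D.J S lam ω y c : ℝ) * ((D.J S lam ω y c : ℝ) - 1)) :=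
            mul_le_mul_of_nonneg_left hJJ hT0.le
          have h3 : (2 : ℝ) ≤ (D.J S lam ω y c : ℝ) * ((D.J S lam ω y c : ℝ) - 1) := by
            linarith
          have h4 : (2 : ℝ) ≤
              D.T * ((D.J S lam ω y c : ℝ) * ((D.J S lam ω y c : ℝ) - 1)) := by
            nlinarith
          nlinarith
        have h5 : |D.K y z| * |D.K y z'| ≤ D.T * D.T :=
          mul_le_mul hK1 hK2 (abs_nonneg _) hT0.le
        have h6 : S.v y c * |1 + D.pk S lam ω y c - D.cmp S lam y c| ≤
            D.T * (6 * D.T * ((D.J S lam ω y c : ℝ) * ((D.J S lam ω y c : ℝ) - 1))) :=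
          mul_le_mul hv1 (h1.trans h1') (abs_nonneg _) hT0.le
        calc |D.K y z| * |D.K y z'| * (S.v y c * |1 + D.pk S lam ω y c - D.cmp S lam y c|)
            ≤ D.T * D.T *
              (D.T * (6 * D.T * ((D.J S lam ω y c : ℝ) * ((D.J S lam ω y c : ℝ) - 1)))) :=
              mul_le_mul h5 h6 (by positivity) (by positivity)
          _ = 6 * D.T ^ 4 * ((D.J S lam ω y c : ℝ) * ((D.J S lam ω y c : ℝ) - 1)) := by ring
      · rw [K_off' hD z y hyR]
        simp only [zero_mul, add_zero, sub_self, abs_zero]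
        exact hlast
  · have hv : (D.step S m lam ω).v y c = S.v y c := by
      show (if S.al y c then (if D.J S lam ω y c ≤ 1 then
        S.v y c * (1 + D.pk S lam ω y c - D.cmp S lam y c) else 0) else S.v y c) = _
      rw [if_neg hal]
    rw [if_neg hal, hv, add_zero, sub_self, abs_zero]
    exact hlast

/-- Linear part. -/
theorem stepK_lin (hG : D.GoodB S lam ω) (z z' : Q) (hp : D.pr z z') (c : Fin D.k)
    (hc : ∀ u ∈ D.LL S lam, ω u = c → |D.GK S lam u z z' c| ≤ D.d3) :
    |∑ u ∈ D.LL S lam, ((if ω u = c then 1 else 0) - D.p S lam u c) * D.GK S lam u z z' c| ≤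
      1 / D.T ^ 187 + 1 / D.T ^ 364 := by
  have hT := hD.big
  have hT0 := hT.pos
  have hd : 0 < D.d3 := by
    unfold d3
    positivity
  have h4 := hG.e7 z z' c hp
  rw [cen_Y7] at h4
  have hq := qvK_le hD hI hm hA z z' c
  have h1 : ∀ u ∈ D.LL S lam,
      |((if ω u = c then 1 else 0) - D.p S lam u c) * D.GK S lam u z z' c -
        ((if ω u = c then 1 else 0) - D.p S lam u c) *
        (if |D.GK S lam u z z' c| ≤ D.d3 then D.GK S lam u z z' c else 0)| ≤
      D.T ^ 190 * (D.p S lam u c * D.GK S lam u z z' c ^ 2) := by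
    intro u hu
    have hp := p_nonneg hD hI hm.le lam u c
    have hpos : 0 ≤ D.T ^ 190 * (D.p S lam u c * D.GK S lam u z z' c ^ 2) := by positivity
    by_cases hg : |D.GK S lam u z z' c| ≤ D.d3
    · rw [if_pos hg, sub_self, abs_zero]
      exact hpos
    · have hω : ω u ≠ c := fun h' => hg (hc u hu h')
      rw [if_neg hg, mul_zero, sub_zero, if_neg hω, zero_sub, abs_mul, abs_neg, abs_of_nonneg hp]
      have h2 : D.d3 * |D.GK S lam u z z' c| ≤ D.GK S lam u z z' c ^ 2 := by
        rw [← sq_abs, pow_two]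
        exact mul_le_mul_of_nonneg_right (not_le.mp hg).le (abs_nonneg _)
      have h3 : |D.GK S lam u z z' c| ≤ D.T ^ 190 * D.GK S lam u z z' c ^ 2 := by
        have h5 : D.T ^ 190 * (D.d3 * |D.GK S lam u z z' c|) = |D.GK S lam u z z' c| := by
          unfold d3
          field_simp
        rw [← h5]
        exact mul_le_mul_of_nonneg_left h2 (by positivity)
      calc D.p S lam u c * |D.GK S lam u z z' c|
          ≤ D.p S lam u c * (D.T ^ 190 * D.GK S lam u z z' c ^ 2) :=
            mul_le_mul_of_nonneg_left h3 hp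
        _ = _ := by ring
  have h5 : D.T ^ 190 * (1 / D.T ^ 554) = 1 / D.T ^ 364 := by
    field_simp
  have h6 : |∑ u ∈ D.LL S lam, ((if ω u = c then 1 else 0) - D.p S lam u c) *
        D.GK S lam u z z' c -
      ∑ u ∈ D.LL S lam, ((if ω u = c then 1 else 0) - D.p S lam u c) *
        (if |D.GK S lam u z z' c| ≤ D.d3 then D.GK S lam u z z' c else 0)| ≤
      1 / D.T ^ 364 := by
    rw [← Finset.sum_sub_distrib, ← h5]
    refine (Finset.abs_sum_le_sum_abs _ _).trans ((Finset.sum_le_sum h1).trans ?_)
    rw [← Finset.mul_sum]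
    exact mul_le_mul_of_nonneg_left hq (by positivity)
  have h7 := abs_le.mp h4
  have h8 := abs_le.mp h6
  rw [abs_le]
  constructor
  · linarith [h7.1, h7.2, h8.1, h8.2]
  · linarith [h7.1, h7.2, h8.1, h8.2]

theorem step_kapB (hG : D.GoodB S lam ω) (z z' : Q) (hp : D.pr z z') :
    ∃ O : Finset (Fin D.k), (O.card : ℝ) ≤ (m + 1 : ℕ) * D.T ^ 3831 ∧
    ∀ c ∉ O, (D.step S m lam ω).al z c → |D.kap (D.step S m lam ω) z z' c| ≤
      1 / D.T ^ 460 + (m + 1 : ℕ) / D.T ^ 180 +
        6 * D.T ^ 4 / D.k * (D.step S m lam ω).pd z c := by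
  have hT := hD.big
  have hT0 := hT.pos
  have hT1 := hT.one_le
  have hk := k_pos' hD
  obtain ⟨O, hO1, hO2⟩ := hI.kapB z z' hp
  refine ⟨O ∪ ((D.LL S lam).filter fun u => D.d3 < |D.GK S lam u z z' (ω u)|).image ω, ?_, ?_⟩
  · have h1 : ((O ∪ ((D.LL S lam).filter fun u =>
        D.d3 < |D.GK S lam u z z' (ω u)|).image ω).card : ℝ) ≤
        (O.card : ℝ) + (((D.LL S lam).filter fun u =>
          D.d3 < |D.GK S lam u z z' (ω u)|).card : ℝ) := by
      have h2 := (Finset.card_union_le O (((D.LL S lam).filter fun u =>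
        D.d3 < |D.GK S lam u z z' (ω u)|).image ω)).trans
          (Nat.add_le_add_left (Finset.card_image_le) _)
      exact_mod_cast h2
    have h3 := hG.e8 z z' hp
    have h4 : D.T ^ 3830 ≤ D.T ^ 3831 := hT.pw (by norm_num)
    push_cast
    linarith
  · intro c hc hal'
    rw [Finset.mem_union, not_or] at hc
    obtain ⟨hcO, hcb⟩ := hc
    have hal : S.al z c := hal'.1
    have hbad : ∀ u ∈ D.LL S lam, ω u = c → |D.GK S lam u z z' c| ≤ D.d3 := by
      intro u hu huc
      by_contra hlt
      apply hcb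
      rw [Finset.mem_image]
      refine ⟨u, ?_, huc⟩
      rw [Finset.mem_filter]
      refine ⟨hu, ?_⟩
      rw [huc]
      exact not_le.mp hlt
    have hpd : (D.step S m lam ω).pd z c = S.pd z c + D.dbl S lam ω z c := by
      show (if S.al z c then S.pd z c + D.dbl S lam ω z c else S.pd z c) = _
      rw [if_pos hal]
    have hlin := stepK_lin hD hI hm hA ω hG z z' hp c hbad
    rw [← sum_effK] at hlin
    -- the change of the statistic
    have hdiff : |D.kap (D.step S m lam ω) z z' c - (D.kap1 S lam z z' c +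
        1 / D.k * (∑ y ∈ D.U1 S lam, if S.al y c then
          D.K y z * D.K y z' * S.v y c * (D.pk S lam ω y c - D.cmp S lam y c) else 0))| ≤
        6 * D.T ^ 4 / D.k * D.dbl S lam ω z c := by
      have e1 : D.kap (D.step S m lam ω) z z' c - (D.kap1 S lam z z' c +
          1 / D.k * (∑ y ∈ D.U1 S lam, if S.al y c then
            D.K y z * D.K y z' * S.v y c * (D.pk S lam ω y c - D.cmp S lam y c) else 0)) =
          1 / D.k * ∑ y ∈ D.U1 S lam, (D.K y z * D.K y z' * (D.step S m lam ω).v y c -
            (D.K y z * D.K y z' * S.v y c + (if S.al y c then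
              D.K y z * D.K y z' * S.v y c * (D.pk S lam ω y c - D.cmp S lam y c)
                else 0))) := by
        unfold kap kap1
        rw [Un_step, Finset.sum_sub_distrib, Finset.sum_add_distrib]
        ring
      rw [e1, abs_mul, abs_of_pos (by positivity : (0 : ℝ) < 1 / D.k)]
      have h1 : |∑ y ∈ D.U1 S lam, (D.K y z * D.K y z' * (D.step S m lam ω).v y c -
            (D.K y z * D.K y z' * S.v y c + (if S.al y c then
              D.K y z * D.K y z' * S.v y c * (D.pk S lam ω y c - D.cmp S lam y c)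
                else 0)))| ≤ 6 * D.T ^ 4 * D.dbl S lam ω z c := by
        refine (Finset.abs_sum_le_sum_abs _ _).trans ?_
        refine (Finset.sum_le_sum fun y _ => stepK_term hD hI hm hA ω z z' y c).trans ?_
        have h2 : (∑ y ∈ D.U1 S lam, if y ∈ D.R z then
            6 * D.T ^ 4 * ((D.J S lam ω y c : ℝ) * ((D.J S lam ω y c : ℝ) - 1)) else 0) ≤
            ∑ y, if y ∈ D.R z then
            6 * D.T ^ 4 * ((D.J S lam ω y c : ℝ) * ((D.J S lam ω y c : ℝ) - 1)) else 0 := by
          refine Finset.sum_le_sum_of_subset_of_nonneg (Finset.subset_univ _) ?_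
          intro y _ _
          have hJ0 := J_mul_nonneg S lam ω y c
          split_ifs
          · positivity
          · exact le_rfl
        refine h2.trans (le_of_eq ?_)
        unfold dbl
        rw [Finset.mul_sum, ← Finset.sum_filter]
        refine Finset.sum_congr ?_ fun _ _ => rfl
        ext y
        simp
      calc 1 / (D.k : ℝ) * _ ≤ 1 / D.k * (6 * D.T ^ 4 * D.dbl S lam ω z c) :=
            mul_le_mul_of_nonneg_left h1 (by positivity)
        _ = _ := by ring
    have hk1 := kap1_le hD hI hm hA z z' hp c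
    have hk0 := hO2 c hcO hal
    have h187 : 1 / D.T ^ 187 ≤ 1 / 1000000 * (1 / D.T ^ 180) := by
      have h6 : 1 / D.T ^ 187 = 1 / D.T ^ 7 * (1 / D.T ^ 180) := by
        field_simp
      rw [h6]
      exact mul_le_mul_of_nonneg_right (hT.small (by norm_num)) (by positivity)
    have h364 : 1 / D.T ^ 364 ≤ 1 / D.T ^ 187 := hT.ipw (by norm_num)
    have h1900 : 1 / D.T ^ 1900 ≤ 1 / D.T ^ 187 := hT.ipw (by norm_num)
    have h180 : 0 < 1 / D.T ^ 180 := by positivity
    have hfin : ((m + 1 : ℕ) : ℝ) / D.T ^ 180 = m / D.T ^ 180 + 1 / D.T ^ 180 := by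
      push_cast
      ring
    have t1 := abs_le.mp hdiff
    have t2 := abs_le.mp hlin
    have t3 := abs_le.mp (hk1.trans (add_le_add_left hk0 _))
    rw [hpd, hfin, mul_add, abs_le]
    constructor
    · linarith [t1.1, t1.2, t2.1, t2.2, t3.1, t3.2]
    · linarith [t1.1, t1.2, t2.1, t2.2, t3.1, t3.2]

end step

end NibData

end

end Pool.Agent.AcyK
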