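import Pool.Agent.AcyK.LamB
import Pool.Agent.AcyK.BasicC

/-! # The predicted hazard of a tested set (module SY) -/

set_option autoImplicit false
set_option linter.unusedSectionVars false

namespace Pool.Agent.AcyK

open Finset
open Pool.Agent.Acy (IsPM wt Ex Pr mean)
open scoped Classical

universe u v

section

variable {Q ι : Type u} [Fintype Q] [DecidableEq Q] [Fintype ι] [DecidableEq ι]

namespace NibData

variable {D : NibData Q ι}

/-! ## Nonnegativity and the number of vertices of a colour -/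

theorem nc_nonneg (S : NState Q D.k) (i : ι) (c : Fin D.k) : 0 ≤ D.nc S i c := by
  unfold nc
  positivity

theorem YbU_nonneg (hD : D.Ok) (S : NState Q D.k) (i : ι) : 0 ≤ D.YbU S i :=
  Finset.sum_nonneg fun z _ => Finset.sum_nonneg fun z' _ => chi_nonneg hD z z'

theorem YbC_nonneg {S : NState Q D.k} {m : ℕ} (hI : D.Inv S m) (i : ι) : 0 ≤ D.YbC S i := by
  refine Finset.sum_nonneg fun z _ => Finset.sum_nonneg fun c _ => ?_
  split_ifs with h
  · exact mul_nonneg (nc_nonneg S i c) (hI.al_pos z c h).le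
  · exact le_rfl

theorem Yb_nonneg (hD : D.Ok) {S : NState Q D.k} {m : ℕ} (hI : D.Inv S m) (i : ι) :
    0 ≤ D.Yb S i := by
  unfold Yb
  have h1 := YbU_nonneg hD S i
  have h2 := YbC_nonneg hI i
  have h3 := k_pos' hD
  have h4 := hD.big.pos
  positivity

/-- The number of vertices of a given colour after the round. -/
theorem nc_step (S : NState Q D.k) (m : ℕ) (lam : Q → Option Bool) (ω : Q → Fin D.k) (i : ι)
    (c : Fin D.k) : D.nc (D.step S m lam ω) i c =
      D.nc S i c + (((D.A i ∩ Sel S.col lam true).filter fun z => ω z = c).card : ℝ) := by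
  unfold nc
  rw [← Nat.cast_add, ← Finset.card_union_of_disjoint]
  · congr 2
    ext z
    simp only [Finset.mem_filter, Finset.mem_union, Finset.mem_inter, Sel, Finset.mem_univ,
      true_and]
    show (z ∈ D.A i ∧ ∃ r, updCol m S.col lam ω z = some (c, r)) ↔ _
    unfold updCol
    by_cases h : S.col z = none ∧ lam z = some true
    · rw [if_pos h]
      simp only [Option.some.injEq, Prod.mk.injEq, exists_and_left, exists_eq', and_true]
      constructor
      · rintro ⟨h1, h2⟩
        exact Or.inr ⟨⟨h1, h⟩, h2⟩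
      · rintro (⟨h1, r, h2⟩ | ⟨⟨h1, -⟩, h2⟩)
        · rw [h.1] at h2
          exact absurd h2 (by simp)
        · exact ⟨h1, h2⟩
    · rw [if_neg h]
      constructor
      · exact fun h1 => Or.inl h1
      · rintro (h1 | ⟨⟨h1, h2⟩, -⟩)
        · exact h1
        · exact absurd h2 h
  · rw [Finset.disjoint_left]
    intro z h1 h2
    simp only [Finset.mem_filter, Finset.mem_inter, Sel, Finset.mem_univ, true_and] at h1 h2
    obtain ⟨-, r, hr⟩ := h1
    rw [h2.1.2.1] at hr
    exact absurd hr (by simp)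

/-! ## The pairs of uncoloured vertices -/

theorem AU_eq (S : NState Q D.k) (lam : Q → Option Bool) (i : ι) :
    D.A i ∩ Un S.col = (D.A i ∩ D.U1 S lam) ∪ (D.A i ∩ Sel S.col lam true) := by
  ext z
  simp only [Finset.mem_inter, Finset.mem_union, Un, U1, Sel, Finset.mem_filter,
    Finset.mem_univ, true_and]
  tauto

theorem AU_disj (S : NState Q D.k) (lam : Q → Option Bool) (i : ι) :
    Disjoint (D.A i ∩ D.U1 S lam) (D.A i ∩ Sel S.col lam true) := by
  rw [Finset.disjoint_left]
  intro z h1 h2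
  simp only [Finset.mem_inter, U1, Sel, Finset.mem_filter, Finset.mem_univ, true_and] at h1 h2
  exact h1.2.2 h2.2.2

theorem YbU_step (hD : D.Ok) (S : NState Q D.k) (m : ℕ) (lam : Q → Option Bool)
    (ω : Q → Fin D.k) (i : ι) :
    D.YbU (D.step S m lam ω) i + 2 * ∑ z ∈ D.A i ∩ D.U1 S lam,
      ∑ z' ∈ D.A i ∩ Sel S.col lam true, D.chi z z' ≤ D.YbU S i := by
  unfold YbU
  rw [Un_step, AU_eq S lam i, Finset.sum_union (AU_disj S lam i)]
  set U := D.A i ∩ D.U1 S lam with hU
  set B := D.A i ∩ Sel S.col lam true with hB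
  have hdis : Disjoint U B := AU_disj S lam i
  have h1 : ∀ z ∈ U, ∑ z' ∈ (U ∪ B).erase z, D.chi z z' =
      ∑ z' ∈ U.erase z, D.chi z z' + ∑ z' ∈ B, D.chi z z' := by
    intro z hz
    have hzB : z ∉ B := Finset.disjoint_left.1 hdis hz
    rw [Finset.erase_union_distrib, Finset.erase_eq_of_notMem hzB, Finset.sum_union]
    exact Finset.disjoint_of_subset_left (Finset.erase_subset _ _) hdis
  have h2 : ∀ z ∈ B, ∑ z' ∈ U, D.chi z z' ≤ ∑ z' ∈ (U ∪ B).erase z, D.chi z z' := by
    intro z hz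
    have hzU : z ∉ U := fun h => Finset.disjoint_left.1 hdis h hz
    refine Finset.sum_le_sum_of_subset_of_nonneg ?_ fun z' _ _ => chi_nonneg hD z z'
    intro z' hz'
    rw [Finset.mem_erase]
    exact ⟨fun h => hzU (h ▸ hz'), Finset.mem_union_left _ hz'⟩
  rw [Finset.sum_congr rfl h1, Finset.sum_add_distrib]
  have h3 : ∑ z ∈ B, ∑ z' ∈ U, D.chi z z' = ∑ z ∈ U, ∑ z' ∈ B, D.chi z z' := by
    rw [Finset.sum_comm]
    exact Finset.sum_congr rfl fun z _ => Finset.sum_congr rfl fun z' _ => chi_symm hD z' z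
  have h4 := Finset.sum_le_sum h2
  rw [h3] at h4
  linarith

/-! ## The hazard of the round -/

section
variable (hD : D.Ok) {S : NState Q D.k} {m : ℕ} (hI : D.Inv S m) (hm : m < D.M)
include hD hI hm

theorem Hz_le (lam : Q → Option Bool) (i : ι) :
    D.Hz lam (D.p S lam) S.col i ≤ 2 / D.k * ∑ z ∈ D.A i ∩ Sel S.col lam true, ∑ c,
      (if S.al z c then D.nc S i c * S.v z c else 0) := by
  unfold Hz
  rw [Finset.mul_sum]
  refine Finset.sum_le_sum fun z hz => ?_
  have hz' : lam z = some true := by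
    simp only [Finset.mem_inter, Sel, Finset.mem_filter, Finset.mem_univ, true_and] at hz
    exact hz.2.2
  rw [Finset.mul_sum]
  have hk := k_pos' hD
  have hterm : ∀ c, 0 ≤ 2 / (D.k : ℝ) * (if S.al z c then D.nc S i c * S.v z c else 0) := by
    intro c
    refine mul_nonneg (by positivity) ?_
    split_ifs with h
    · exact mul_nonneg (nc_nonneg S i c) (hI.al_pos z c h).le
    · exact le_rfl
  refine le_trans (Finset.sum_le_sum (g := fun c => 2 / (D.k : ℝ) *
      (if S.al z c then D.nc S i c * S.v z c else 0)) ?_)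
    (Finset.sum_le_sum_of_subset_of_nonneg (Finset.subset_univ _) fun c _ _ => hterm c)
  intro c hc
  have hnc : 1 ≤ D.nc S i c := by
    simp only [colsOn, Finset.mem_filter, Finset.mem_univ, true_and] at hc
    obtain ⟨u, hu, r, hr⟩ := hc
    unfold nc
    have : 0 < ((D.A i).filter fun z => ∃ r, S.col z = some (c, r)).card :=
      Finset.card_pos.2 ⟨u, Finset.mem_filter.2 ⟨hu, r, hr⟩⟩
    exact_mod_cast this
  have hp : D.p S lam z c = D.pa S z c := by
    unfold p
    rw [if_neg (by rw [hz']; simp)]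
  rw [hp]
  by_cases h : S.al z c
  · rw [if_pos h]
    have h1 := pa_le_v hD hI hm.le z c h
    have h2 := hI.al_pos z c h
    calc D.pa S z c ≤ 2 / D.k * S.v z c := h1
      _ ≤ 2 / D.k * (D.nc S i c * S.v z c) := by
        refine mul_le_mul_of_nonneg_left ?_ (by positivity)
        nlinarith
  · rw [if_neg h, mul_zero]
    by_contra hc'
    exact h (al_of_pa_pos hD hI hm.le z c (not_le.1 hc'))

end

/-! ## Change of the weights -/

section lam
variable (hD : D.Ok) {S : NState Q D.k} {m : ℕ} (hI : D.Inv S m) (hm : m < D.M)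
  {lam : Q → Option Bool} (hA : D.GoodA S m lam) (ω : Q → Fin D.k)
include hD hI hm hA

/-- The new alive weight is at most the ideal one, up to errors. -/
theorem alv_step_le (z : Q) (c : Fin D.k) :
    (if (D.step S m lam ω).al z c then (D.step S m lam ω).v z c else 0) ≤
      (if S.al z c then S.v z c else 0) +
      (if S.al z c then S.v z c * (D.pk S lam ω z c - D.cmp S lam z c) else 0) +
      1 / D.T ^ 109 * (D.J S lam ω z c : ℝ) +
      D.T ^ 2 * ((D.J S lam ω z c : ℝ) * ((D.J S lam ω z c : ℝ) - 1)) := by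
  have hT := hD.big.pos
  have hT1 := hD.big.one_le
  have hJJ := J_mul_nonneg (D := D) S lam ω z c
  have hJ0 : (0 : ℝ) ≤ (D.J S lam ω z c : ℝ) := Nat.cast_nonneg _
  have he1 : 0 ≤ 1 / D.T ^ 109 * (D.J S lam ω z c : ℝ) := by positivity
  have he2 : 0 ≤ D.T ^ 2 * ((D.J S lam ω z c : ℝ) * ((D.J S lam ω z c : ℝ) - 1)) :=
    mul_nonneg (by positivity) hJJ
  by_cases hal : S.al z c
  · rw [if_pos hal, if_pos hal]
    have hv := hI.al_pos z c hal
    have hvT := v_le hD hI hm.le z c
    have hcmp := cmp_abs hD hI hm hA z c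
    have hcmp' := abs_le.1 hcmp
    have hT110 : D.T * (1 / D.T ^ 110) = 1 / D.T ^ 109 := by
      rw [pow_succ D.T 109]
      field_simp
    have hsm : 1 / D.T ^ 110 ≤ 1 / 1000000 := hD.big.small (by norm_num)
    by_cases hal' : (D.step S m lam ω).al z c
    · rw [if_pos hal']
      have hJ1 : D.J S lam ω z c ≤ 1 := hal'.2.1
      have hv' : (D.step S m lam ω).v z c =
          S.v z c * (1 + D.pk S lam ω z c - D.cmp S lam z c) := by
        show (if S.al z c then (if D.J S lam ω z c ≤ 1 then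
          S.v z c * (1 + D.pk S lam ω z c - D.cmp S lam z c) else 0) else S.v z c) = _
        rw [if_pos hal, if_pos hJ1]
      rw [hv']
      nlinarith
    · rw [if_neg hal']
      rcases Nat.lt_trichotomy (D.J S lam ω z c) 1 with h | h | h
      · have h0 : D.J S lam ω z c = 0 := by omega
        have hpk := (pk_zero S lam ω hD z c h0).1
        rw [hpk]
        have : 0 ≤ S.v z c * (1 - D.cmp S lam z c) := by
          refine mul_nonneg hv.le ?_
          linarith [hcmp'.2]
        nlinarith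
      · obtain ⟨u, -, -, -, hpk, -⟩ := pk_one S lam ω hD z c h
        rw [hpk, h]
        have hK := K_ge hD u z
        have h1 : 0 ≤ S.v z c * (1 + D.K u z) := mul_nonneg hv.le (by linarith)
        have h2 : S.v z c * D.cmp S lam z c ≤ 1 / D.T ^ 109 := by
          calc S.v z c * D.cmp S lam z c ≤ S.v z c * (1 / D.T ^ 110) :=
                mul_le_mul_of_nonneg_left hcmp'.2 hv.le
            _ ≤ D.T * (1 / D.T ^ 110) := mul_le_mul_of_nonneg_right hvT (by positivity)
            _ = 1 / D.T ^ 109 := hT110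
        push_cast
        nlinarith
      · have hJ2 : (2 : ℝ) ≤ (D.J S lam ω z c : ℝ) := by exact_mod_cast h
        have hpk := (abs_le.1 (pk_abs S lam ω hD z c)).1
        have h1 : S.v z c * D.pk S lam ω z c ≥ -(D.T ^ 2 * (D.J S lam ω z c : ℝ)) := by
          have h11 : S.v z c * D.pk S lam ω z c ≥ S.v z c * -(D.T * (D.J S lam ω z c : ℝ)) :=
            mul_le_mul_of_nonneg_left hpk hv.le
          have h12 : S.v z c * (D.T * (D.J S lam ω z c : ℝ)) ≤
              D.T * (D.T * (D.J S lam ω z c : ℝ)) :=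
            mul_le_mul_of_nonneg_right hvT (by positivity)
          nlinarith
        have h2 : D.T ^ 2 * (D.J S lam ω z c : ℝ) ≤
            D.T ^ 2 * ((D.J S lam ω z c : ℝ) * ((D.J S lam ω z c : ℝ) - 1)) := by
          refine mul_le_mul_of_nonneg_left ?_ (by positivity)
          nlinarith
        have h3 : 0 ≤ S.v z c * (1 - D.cmp S lam z c) := by
          refine mul_nonneg hv.le ?_
          linarith [hcmp'.2]
        nlinarith
  · have hal' : ¬ (D.step S m lam ω).al z c := fun h => hal h.1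
    rw [if_neg hal, if_neg hal', if_neg hal]
    linarith

/-- The new alive weight of `z` at the colour picked by `z'`. -/
theorem alv_pick_le (z z' : Q) (hz' : z' ∈ D.LL S lam) :
    (if (D.step S m lam ω).al z (ω z') then (D.step S m lam ω).v z (ω z') else 0) ≤
      (if S.al z (ω z') then S.v z (ω z') * D.chi z z' else 0) + 1 / D.T ^ 109 +
      D.T ^ 2 * (((D.LL S lam).filter fun u => u ∈ D.R z ∧ u ≠ z' ∧ ω z' = ω u).card : ℝ) := by
  have hT := hD.big.pos
  have hT1 := hD.big.one_le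
  set N := (D.LL S lam).filter fun u => u ∈ D.R z ∧ u ≠ z' ∧ ω z' = ω u with hN
  have he : 0 ≤ D.T ^ 2 * (N.card : ℝ) := by positivity
  have he1 : 0 ≤ 1 / D.T ^ 109 := by positivity
  by_cases hal' : (D.step S m lam ω).al z (ω z')
  · have hal : S.al z (ω z') := hal'.1
    rw [if_pos hal', if_pos hal]
    have hv := hI.al_pos z _ hal
    have hvT := v_le hD hI hm.le z (ω z')
    have hcmp' := abs_le.1 (cmp_abs hD hI hm hA z (ω z'))
    have hT110 : D.T * (1 / D.T ^ 110) = 1 / D.T ^ 109 := by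
      rw [pow_succ D.T 109]
      field_simp
    have hsm : 1 / D.T ^ 110 ≤ 1 / 1000000 := hD.big.small (by norm_num)
    have hcv : -(S.v z (ω z') * D.cmp S lam z (ω z')) ≤ 1 / D.T ^ 109 := by
      calc -(S.v z (ω z') * D.cmp S lam z (ω z')) = S.v z (ω z') * -D.cmp S lam z (ω z') := by
            ring
        _ ≤ S.v z (ω z') * (1 / D.T ^ 110) :=
            mul_le_mul_of_nonneg_left (by linarith [hcmp'.1]) hv.le
        _ ≤ D.T * (1 / D.T ^ 110) := mul_le_mul_of_nonneg_right hvT (by positivity)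
        _ = 1 / D.T ^ 109 := hT110
    have hJ1 : D.J S lam ω z (ω z') ≤ 1 := hal'.2.1
    have hv' : (D.step S m lam ω).v z (ω z') =
        S.v z (ω z') * (1 + D.pk S lam ω z (ω z') - D.cmp S lam z (ω z')) := by
      show (if S.al z (ω z') then (if D.J S lam ω z (ω z') ≤ 1 then
        S.v z (ω z') * (1 + D.pk S lam ω z (ω z') - D.cmp S lam z (ω z')) else 0)
          else S.v z (ω z')) = _
      rw [if_pos hal, if_pos hJ1]
    rw [hv']
    have hchi0 := chi_nonneg hD z z'
    rcases Nat.lt_or_ge (D.J S lam ω z (ω z')) 1 with h | h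
    · have h0 : D.J S lam ω z (ω z') = 0 := by omega
      have hpk := (pk_zero S lam ω hD z _ h0).1
      have hR : z' ∉ D.R z := by
        intro hR
        have : z' ∈ (D.R z ∩ D.LL S lam).filter fun u => ω u = ω z' :=
          Finset.mem_filter.2 ⟨Finset.mem_inter.2 ⟨hR, hz'⟩, rfl⟩
        have h2 : 0 < D.J S lam ω z (ω z') := Finset.card_pos.2 ⟨z', this⟩
        omega
      have hchi : D.chi z z' = 1 := by
        unfold chi
        rw [hD.h_symm z z', hD.K_symm z z', h_off' hD z z' hR, K_off' hD z z' hR]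
        norm_num
      rw [hpk, hchi]
      nlinarith
    · have h1 : D.J S lam ω z (ω z') = 1 := by omega
      obtain ⟨u, huL, huc, huR, hpk, hhk⟩ := pk_one S lam ω hD z _ h1
      rw [hpk]
      by_cases hu : u = z'
      · subst hu
        have hbe : S.be z (ω u) + D.hk S lam ω z (ω u) ≤ 1 := hal'.2.2.2.1
        rw [hhk] at hbe
        have hb0 := hI.be_nonneg z (ω u)
        have hchi : D.chi z u = 1 + D.K u z := by
          unfold chi
          rw [hD.h_symm z u, hD.K_symm z u, if_pos (by linarith)]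
        rw [hchi]
        nlinarith
      · have hN1 : (1 : ℝ) ≤ (N.card : ℝ) := by
          have : 0 < N.card := Finset.card_pos.2
            ⟨u, Finset.mem_filter.2 ⟨huL, huR, hu, huc.symm⟩⟩
          exact_mod_cast this
        have hK := one_add_K_le hD u z
        have hK0 := K_ge hD u z
        have h3 : S.v z (ω z') * (1 + D.K u z) ≤ D.T ^ 2 := by
          calc S.v z (ω z') * (1 + D.K u z) ≤ D.T * (1 + D.K u z) :=
                mul_le_mul_of_nonneg_right hvT (by linarith)
            _ ≤ D.T * (D.T / 10000) := mul_le_mul_of_nonneg_left hK hT.le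
            _ ≤ D.T ^ 2 := by nlinarith
        have h4 : D.T ^ 2 ≤ D.T ^ 2 * (N.card : ℝ) := by
          nlinarith [sq_nonneg D.T]
        have h5 : 0 ≤ S.v z (ω z') * D.chi z z' := mul_nonneg hv.le hchi0
        nlinarith
  · rw [if_neg hal']
    have : 0 ≤ (if S.al z (ω z') then S.v z (ω z') * D.chi z z' else 0) := by
      split_ifs with h
      · exact mul_nonneg (hI.al_pos z _ h).le (chi_nonneg hD z z')
      · exact le_rfl
    linarith


/-- The part of the new second sum that comes from the old coloured vertices. -/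
theorem YbC_old (hG : D.GoodB S lam ω) (i : ι) (hi : ((D.A i).card : ℝ) ≤ D.T ^ 1603) :
    ∑ z ∈ D.A i ∩ D.U1 S lam, ∑ c, D.nc S i c *
      (if (D.step S m lam ω).al z c then (D.step S m lam ω).v z c else 0) ≤
    (∑ z ∈ D.A i ∩ D.U1 S lam, ∑ c, if S.al z c then D.nc S i c * S.v z c else 0) +
      3 * D.T ^ 2992 := by
  have hT := hD.big.pos
  have hT1 := hD.big.one_le
  have h15 := hG.e15 i hi
  have h17 := hG.e17 i hi
  have h12 := (abs_le.1 (hG.e12 i hi)).2
  rw [cen_Y12] at h12
  have hterm : ∀ z ∈ D.A i ∩ D.U1 S lam, ∀ c ∈ (univ : Finset (Fin D.k)), D.nc S i c *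
      (if (D.step S m lam ω).al z c then (D.step S m lam ω).v z c else 0) ≤
      (if S.al z c then D.nc S i c * S.v z c else 0) +
      (if S.al z c then D.nc S i c * S.v z c *
        (D.pk S lam ω z c - D.cmp S lam z c) else 0) +
      1 / D.T ^ 109 * (D.nc S i c * (D.J S lam ω z c : ℝ)) +
      D.T ^ 2 * (D.nc S i c *
        ((D.J S lam ω z c : ℝ) * ((D.J S lam ω z c : ℝ) - 1))) := by
    intro z _ c _
    refine le_trans (mul_le_mul_of_nonneg_left (alv_step_le hD hI hm hA ω z c)
      (nc_nonneg S i c)) (le_of_eq ?_)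
    by_cases h : S.al z c
    · simp only [if_pos h]
      ring
    · simp only [if_neg h]
      ring
  refine le_trans (Finset.sum_le_sum fun z hz => Finset.sum_le_sum (hterm z hz)) ?_
  simp only [Finset.sum_add_distrib, ← Finset.mul_sum]
  have hJs : ∀ z, ∑ c, D.nc S i c * (D.J S lam ω z c : ℝ) =
      ∑ u ∈ D.R z ∩ D.LL S lam, D.nc S i (ω u) := by
    intro z
    have h1 : ∀ c, D.nc S i c * (D.J S lam ω z c : ℝ) =
        ∑ u ∈ D.R z ∩ D.LL S lam, if ω u = c then D.nc S i c else 0 := by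
      intro c
      unfold J
      rw [← Finset.sum_filter, Finset.sum_const, nsmul_eq_mul]
      ring
    simp only [h1]
    rw [Finset.sum_comm]
    refine Finset.sum_congr rfl fun u _ => ?_
    rw [Finset.sum_ite_eq]
    simp
  simp only [hJs]
  have e1 : 1 / D.T ^ 109 * (∑ z ∈ D.A i ∩ D.U1 S lam,
      ∑ u ∈ D.R z ∩ D.LL S lam, D.nc S i (ω u)) ≤ D.T ^ 2992 := by
    calc 1 / D.T ^ 109 * (∑ z ∈ D.A i ∩ D.U1 S lam,
        ∑ u ∈ D.R z ∩ D.LL S lam, D.nc S i (ω u)) ≤ 1 / D.T ^ 109 * D.T ^ 3100 :=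
          mul_le_mul_of_nonneg_left h15 (by positivity)
      _ = D.T ^ 2991 := by
          rw [show (3100 : ℕ) = 109 + 2991 by norm_num, pow_add]
          field_simp
      _ ≤ D.T ^ 2992 := hD.big.pw (by norm_num)
  have e2 : D.T ^ 2 * (∑ z ∈ D.A i ∩ D.U1 S lam, ∑ c, D.nc S i c *
      ((D.J S lam ω z c : ℝ) * ((D.J S lam ω z c : ℝ) - 1))) ≤ D.T ^ 2992 := by
    calc D.T ^ 2 * (∑ z ∈ D.A i ∩ D.U1 S lam, ∑ c, D.nc S i c *
        ((D.J S lam ω z c : ℝ) * ((D.J S lam ω z c : ℝ) - 1))) ≤ D.T ^ 2 * D.T ^ 2990 :=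
          mul_le_mul_of_nonneg_left h17 (by positivity)
      _ = D.T ^ 2992 := by rw [← pow_add]
  have e3 : D.T ^ 2500 ≤ D.T ^ 2992 := hD.big.pw (by norm_num)
  linarith

/-- The part of the new second sum that comes from the new coloured vertices. -/
theorem YbC_new (hG : D.GoodB S lam ω) (i : ι) (hi : ((D.A i).card : ℝ) ≤ D.T ^ 1603) :
    ∑ z ∈ D.A i ∩ D.U1 S lam, ∑ c,
      (((D.A i ∩ Sel S.col lam true).filter fun z' => ω z' = c).card : ℝ) *
      (if (D.step S m lam ω).al z c then (D.step S m lam ω).v z c else 0) ≤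
    (∑ z' ∈ D.A i ∩ Sel S.col lam true, D.Y13 S lam i z' (ω z')) + 2 * D.T ^ 2992 := by
  have hT := hD.big.pos
  have hT1 := hD.big.one_le
  set U := D.A i ∩ D.U1 S lam with hU
  set B := D.A i ∩ Sel S.col lam true with hB
  have hBL : ∀ z' ∈ B, z' ∈ D.LL S lam := by
    intro z' hz'
    rw [LL_eq]
    exact Finset.mem_union_left _ (Finset.mem_inter.1 hz').2
  set F : Q → Fin D.k → ℝ := fun z c =>
    (if (D.step S m lam ω).al z c then (D.step S m lam ω).v z c else 0) with hF
  have h1 : ∀ z, ∑ c, ((B.filter fun z' => ω z' = c).card : ℝ) * F z c =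
      ∑ z' ∈ B, F z (ω z') := by
    intro z
    have h11 : ∀ c, ((B.filter fun z' => ω z' = c).card : ℝ) * F z c =
        ∑ z' ∈ B, if ω z' = c then F z c else 0 := by
      intro c
      rw [← Finset.sum_filter, Finset.sum_const, nsmul_eq_mul]
    simp only [h11]
    rw [Finset.sum_comm]
    refine Finset.sum_congr rfl fun u _ => ?_
    rw [Finset.sum_ite_eq]
    simp
  refine le_trans (le_of_eq (Finset.sum_congr rfl fun z _ => h1 z)) ?_
  have h2 : ∀ z ∈ U, ∀ z' ∈ B, F z (ω z') ≤
      (if S.al z (ω z') then S.v z (ω z') * D.chi z z' else 0) + 1 / D.T ^ 109 +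
      D.T ^ 2 * (((D.LL S lam).filter fun u => u ∈ D.R z ∧ u ≠ z' ∧ ω z' = ω u).card : ℝ) :=
    fun z _ z' hz' => alv_pick_le hD hI hm hA ω z z' (hBL z' hz')
  refine le_trans (Finset.sum_le_sum fun z hz => Finset.sum_le_sum (h2 z hz)) ?_
  simp only [Finset.sum_add_distrib, ← Finset.mul_sum]
  have e1 : ∑ z ∈ U, ∑ z' ∈ B, (if S.al z (ω z') then S.v z (ω z') * D.chi z z' else 0) =
      ∑ z' ∈ B, D.Y13 S lam i z' (ω z') := by
    rw [Finset.sum_comm]
    refine Finset.sum_congr rfl fun z' hz' => ?_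
    unfold Y13
    rw [if_pos hz']
  have e2 : ∑ z ∈ U, ∑ z' ∈ B, 1 / D.T ^ 109 ≤ D.T ^ 2992 := by
    rw [Finset.sum_const, Finset.sum_const, nsmul_eq_mul, nsmul_eq_mul]
    have hBc : (B.card : ℝ) ≤ D.T ^ 1471 := AS_card hD hI hm hA i hi
    have hUc : (U.card : ℝ) ≤ D.T ^ 1603 :=
      le_trans (by exact_mod_cast Finset.card_le_card Finset.inter_subset_left) hi
    calc (U.card : ℝ) * ((B.card : ℝ) * (1 / D.T ^ 109)) ≤
        D.T ^ 1603 * (D.T ^ 1471 * (1 / D.T ^ 109)) := by
          refine mul_le_mul hUc ?_ (by positivity) (by positivity)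
          exact mul_le_mul_of_nonneg_right hBc (by positivity)
      _ = D.T ^ 2965 := by
          rw [show (2965 : ℕ) = 1603 + 1362 by norm_num, pow_add,
            show (1471 : ℕ) = 1362 + 109 by norm_num, pow_add]
          field_simp
      _ ≤ D.T ^ 2992 := hD.big.pw (by norm_num)
  have e3 : D.T ^ 2 * ∑ z ∈ U, ∑ z' ∈ B,
      (((D.LL S lam).filter fun u => u ∈ D.R z ∧ u ≠ z' ∧ ω z' = ω u).card : ℝ) ≤
      D.T ^ 2992 := by
    have h14 := hG.e14 i hi
    have hcard : ∑ z ∈ U, ∑ z' ∈ B,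
        (((D.LL S lam).filter fun u => u ∈ D.R z ∧ u ≠ z' ∧ ω z' = ω u).card : ℝ) =
        (((U ×ˢ B ×ˢ D.LL S lam).filter
          fun e => e.2.2 ∈ D.R e.1 ∧ e.2.2 ≠ e.2.1 ∧ ω e.2.1 = ω e.2.2).card : ℝ) := by
      simp only [Finset.card_filter, Finset.sum_product]
      push_cast
      rfl
    rw [hcard]
    calc D.T ^ 2 * (((U ×ˢ B ×ˢ D.LL S lam).filter
          fun e => e.2.2 ∈ D.R e.1 ∧ e.2.2 ≠ e.2.1 ∧ ω e.2.1 = ω e.2.2).card : ℝ) ≤
        D.T ^ 2 * D.T ^ 2970 := mul_le_mul_of_nonneg_left h14 (by positivity)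
      _ = D.T ^ 2972 := by rw [← pow_add]
      _ ≤ D.T ^ 2992 := hD.big.pw (by norm_num)
  rw [e1]
  linarith

end lam

/-! ## The mean of the new part -/

section
variable (hD : D.Ok) {S : NState Q D.k} {m : ℕ} (hI : D.Inv S m) (hm : m < D.M)
include hD hI hm

/-- The correlation of the pick of `z'` with the weight of `z`. -/
theorem corr_le (lam : Q → Option Bool) (i : ι) (hi : ((D.A i).card : ℝ) ≤ D.T ^ 1603)
    (z z' : Q) (hz : z ∈ D.A i) (hz' : z' ∈ D.A i) (hne : z ≠ z') (hl : lam z' = some true)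
    (hh : D.h z z' ≤ 1) (hK : D.K z z' ≠ -1) :
    ∑ c, D.p S lam z' c * (if S.al z c then S.v z c else 0) ≤ 2 * (1 + 1 / D.T ^ 5) := by
  have hT := hD.big.pos
  have hT1 := hD.big.one_le
  have hk := k_pos' hD
  have hpr := hD.A_pr i hi z hz z' hz' hne hh hK
  have hII := (abs_le.1 (hI.iiB z z' hpr)).2
  have hδ : (0 : ℝ) < 1 / D.T ^ 100 := by positivity
  have hprod : ∀ x y : ℝ, -(1 / D.T ^ 100) ≤ x → x ≤ D.T → -(1 / D.T ^ 100) ≤ y → y ≤ D.T →
      0 ≤ x * y + 1 / D.T ^ 99 := by
    intro x y h1 h2 h3 h4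
    have h99 : D.T * (1 / D.T ^ 100) = 1 / D.T ^ 99 := by
      rw [pow_succ D.T 99]
      field_simp
    have hδT : 1 / D.T ^ 100 ≤ D.T := by
      have := hD.big.small (n := 100) (by norm_num)
      linarith
    rw [← h99]
    rcases le_total 0 x with hx | hx
    · rcases le_total 0 y with hy | hy
      · positivity
      · nlinarith
    · rcases le_total 0 y with hy | hy
      · nlinarith
      · have := mul_nonneg_of_nonpos_of_nonpos hx hy
        positivity
  have hterm : ∀ c ∈ (univ : Finset (Fin D.k)),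
      D.p S lam z' c * (if S.al z c then S.v z c else 0) ≤
        2 / D.k * (S.v z c * S.v z' c + 1 / D.T ^ 99) := by
    intro c _
    have hp : D.p S lam z' c = D.pa S z' c := by
      unfold p
      rw [if_neg (by rw [hl]; simp)]
    have hnn := hprod (S.v z c) (S.v z' c) (hI.v_lo z c) (v_le hD hI hm.le z c)
      (hI.v_lo z' c) (v_le hD hI hm.le z' c)
    have h2k : (0 : ℝ) ≤ 2 / D.k := by positivity
    rw [hp]
    by_cases h1 : S.al z c
    · rw [if_pos h1]
      have hv := hI.al_pos z c h1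
      by_cases h2 : S.al z' c
      · have h3 := pa_le_v hD hI hm.le z' c h2
        calc D.pa S z' c * S.v z c ≤ 2 / D.k * S.v z' c * S.v z c :=
              mul_le_mul_of_nonneg_right h3 hv.le
          _ = 2 / D.k * (S.v z c * S.v z' c) := by ring
          _ ≤ 2 / D.k * (S.v z c * S.v z' c + 1 / D.T ^ 99) := by
              refine mul_le_mul_of_nonneg_left ?_ h2k
              have : (0 : ℝ) ≤ 1 / D.T ^ 99 := by positivity
              linarith
      · have h3 : D.pa S z' c = 0 := by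
          unfold pa
          rw [if_neg h2]
        rw [h3, zero_mul]
        exact mul_nonneg h2k hnn
    · rw [if_neg h1, mul_zero]
      exact mul_nonneg h2k hnn
  refine le_trans (Finset.sum_le_sum hterm) ?_
  rw [← Finset.mul_sum, Finset.sum_add_distrib, Finset.sum_const, Finset.card_univ,
    Fintype.card_fin, nsmul_eq_mul]
  have hIIe : ∑ c, S.v z c * S.v z' c = D.k * D.II S z z' := by
    unfold II
    field_simp
  rw [hIIe]
  have h1 : 2 / (D.k : ℝ) * (D.k * D.II S z z' + D.k * (1 / D.T ^ 99)) =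
      2 * (D.II S z z' + 1 / D.T ^ 99) := by
    field_simp
  rw [h1]
  have hmq : (m : ℝ) ≤ D.T ^ 150 := by
    have h2 : (m : ℝ) ≤ D.M := by exact_mod_cast hm.le
    exact h2.trans (M_le_T hD)
  have h2 : (m : ℝ) / D.T ^ 200 ≤ 1 / D.T ^ 50 := by
    rw [div_le_div_iff₀ (by positivity) (by positivity), one_mul,
      show (200 : ℕ) = 150 + 50 by norm_num, pow_add]
    exact mul_le_mul_of_nonneg_right hmq (by positivity)
  have hw : ∀ a : ℕ, 1 ≤ a → 1 / D.T ^ (a + 5) ≤ 1 / 1000000 * (1 / D.T ^ 5) := by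
    intro a ha
    have h := hD.big.small ha
    have h5 : 1 / D.T ^ (a + 5) = 1 / D.T ^ a * (1 / D.T ^ 5) := by
      rw [pow_add]
      field_simp
    rw [h5]
    exact mul_le_mul_of_nonneg_right h (by positivity)
  have h3 : D.sg m / D.T ^ 12 ≤ 1 / 1000000 * (1 / D.T ^ 5) := by
    have h31 := sg_le hD hm.le
    refine le_trans ?_ (hw 6 (by norm_num))
    calc D.sg m / D.T ^ 12 ≤ D.T / D.T ^ 12 := by
          refine div_le_div_of_nonneg_right ?_ (by positivity)
          linarith
      _ = 1 / D.T ^ (6 + 5) := by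
          rw [show (12 : ℕ) = (6 + 5) + 1 by norm_num, pow_succ]
          field_simp
  have h4 := hw 45 (by norm_num)
  have h5 := hw 94 (by norm_num)
  norm_num at h4 h5 h2 h3 hII ⊢
  have h6 : (0 : ℝ) ≤ (D.T ^ 5)⁻¹ := by positivity
  linarith

/-- The mean of the new part is compensated by the pairs that disappear. -/
theorem mean_Y13 (lam : Q → Option Bool) (i : ι) (hi : ((D.A i).card : ℝ) ≤ D.T ^ 1603) :
    ∑ u, mean (D.p S lam) (D.Y13 S lam i) u ≤ 2 * (1 + 1 / D.T ^ 5) *
      ∑ z ∈ D.A i ∩ D.U1 S lam, ∑ z' ∈ D.A i ∩ Sel S.col lam true, D.chi z z' := by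
  set U := D.A i ∩ D.U1 S lam with hU
  set B := D.A i ∩ Sel S.col lam true with hB
  have h1 : ∑ u, mean (D.p S lam) (D.Y13 S lam i) u =
      ∑ z' ∈ B, ∑ z ∈ U, D.chi z z' *
        ∑ c, D.p S lam z' c * (if S.al z c then S.v z c else 0) := by
    have h11 : ∀ u, mean (D.p S lam) (D.Y13 S lam i) u = if u ∈ B then
        ∑ z ∈ U, D.chi z u * ∑ c, D.p S lam u c * (if S.al z c then S.v z c else 0) else 0 := by
      intro u
      unfold mean Y13
      by_cases hu : u ∈ B
      · simp only [if_pos hu, ← hB, ← hU]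
        simp only [Finset.mul_sum]
        rw [Finset.sum_comm]
        refine Finset.sum_congr rfl fun z _ => Finset.sum_congr rfl fun c _ => ?_
        split_ifs
        · ring
        · ring
      · simp only [if_neg hu, ← hB, mul_zero, Finset.sum_const_zero]
    simp only [h11]
    rw [← Finset.sum_filter, Finset.filter_mem_eq_inter, Finset.univ_inter]
  rw [h1, Finset.sum_comm, Finset.mul_sum]
  refine Finset.sum_le_sum fun z hz => ?_
  rw [Finset.mul_sum]
  refine Finset.sum_le_sum fun z' hz' => ?_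
  rw [mul_comm (2 * (1 + 1 / D.T ^ 5))]
  by_cases hc : D.chi z z' = 0
  · rw [hc, zero_mul, zero_mul]
  refine mul_le_mul_of_nonneg_left ?_ (chi_nonneg hD z z')
  have hzA := (Finset.mem_inter.1 hz).1
  have hz'A := (Finset.mem_inter.1 hz').1
  have hl : lam z' = some true := by
    have := (Finset.mem_inter.1 hz').2
    simp only [Sel, Finset.mem_filter, Finset.mem_univ, true_and] at this
    exact this.2
  have hne : z ≠ z' := by
    intro h
    have h2 := (Finset.mem_inter.1 hz).2
    simp only [U1, Finset.mem_filter, Finset.mem_univ, true_and] at h2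
    rw [h] at h2
    exact h2.2 hl
  have hh : D.h z z' ≤ 1 := by
    by_contra h
    apply hc
    unfold chi
    rw [if_neg h]
  have hK : D.K z z' ≠ -1 := by
    intro h
    apply hc
    unfold chi
    rw [if_pos hh, h]
    norm_num
  exact corr_le hD hI hm lam i hi z z' hzA hz'A hne hl hh hK

end

/-! ## The results -/

section lam
variable (hD : D.Ok) {S : NState Q D.k} {m : ℕ} (hI : D.Inv S m) (hm : m < D.M)
  {lam : Q → Option Bool} (hA : D.GoodA S m lam) (ω : Q → Fin D.k)
include hD hI hm hA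

theorem step_ncol (hG : D.GoodB S lam ω) (i : ι) (hi : ((D.A i).card : ℝ) ≤ D.T ^ 1603)
    (c : Fin D.k) : D.nc (D.step S m lam ω) i c ≤ (m + 1 : ℕ) * D.T ^ 4 := by
  rw [nc_step]
  have h1 := hI.ncol i hi c
  have h2 := hG.e16 i hi c
  push_cast
  linarith

theorem YbC_step (hG : D.GoodB S lam ω) (i : ι) (hi : ((D.A i).card : ℝ) ≤ D.T ^ 1603) :
    D.YbC (D.step S m lam ω) i ≤
      (∑ z ∈ D.A i ∩ D.U1 S lam, ∑ c, if S.al z c then D.nc S i c * S.v z c else 0) +
      2 * (1 + 1 / D.T ^ 5) *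
        (∑ z ∈ D.A i ∩ D.U1 S lam, ∑ z' ∈ D.A i ∩ Sel S.col lam true, D.chi z z') +
      6 * D.T ^ 2992 := by
  have h1 := YbC_old hD hI hm hA ω hG i hi
  have h2 := YbC_new hD hI hm hA ω hG i hi
  have h3 := mean_Y13 hD hI hm lam i hi
  have h4 := (abs_le.1 (hG.e13 i hi)).2
  have h5 : D.T ^ 2500 ≤ D.T ^ 2992 := hD.big.pw (by norm_num)
  have h6 : ∑ z' ∈ D.A i ∩ Sel S.col lam true, D.Y13 S lam i z' (ω z') =
      ∑ u, D.Y13 S lam i u (ω u) := by
    refine Finset.sum_subset (Finset.subset_univ _) fun u _ hu => ?_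
    unfold Y13
    rw [if_neg hu]
  unfold cen at h4
  rw [Finset.sum_sub_distrib, ← h6] at h4
  have h7 : D.YbC (D.step S m lam ω) i =
      ∑ z ∈ D.A i ∩ D.U1 S lam, ∑ c, D.nc S i c *
        (if (D.step S m lam ω).al z c then (D.step S m lam ω).v z c else 0) +
      ∑ z ∈ D.A i ∩ D.U1 S lam, ∑ c,
        (((D.A i ∩ Sel S.col lam true).filter fun z' => ω z' = c).card : ℝ) *
        (if (D.step S m lam ω).al z c then (D.step S m lam ω).v z c else 0) := by
    unfold YbC
    rw [Un_step, ← Finset.sum_add_distrib]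
    refine Finset.sum_congr rfl fun z _ => ?_
    rw [← Finset.sum_add_distrib]
    refine Finset.sum_congr rfl fun c _ => ?_
    rw [nc_step]
    split_ifs
    · ring
    · ring
  rw [h7]
  linarith

theorem step_Yb (hG : D.GoodB S lam ω) (i : ι) (hi : ((D.A i).card : ℝ) ≤ D.T ^ 1603) :
    D.Yb (D.step S m lam ω) i ≤
      D.Yb S i - D.Hz lam (D.p S lam) S.col i + 1 / D.T ^ 1000 := by
  have hT := hD.big.pos
  have hk := k_pos' hD
  have h1 := YbC_step hD hI hm hA ω hG i hi
  have h2 := YbU_step hD S m lam ω i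
  have h3 := Hz_le hD hI hm lam i
  have h4 : D.YbC S i =
      (∑ z ∈ D.A i ∩ D.U1 S lam, ∑ c, if S.al z c then D.nc S i c * S.v z c else 0) +
      ∑ z ∈ D.A i ∩ Sel S.col lam true, ∑ c,
        (if S.al z c then D.nc S i c * S.v z c else 0) := by
    unfold YbC
    rw [AU_eq S lam i, Finset.sum_union (AU_disj S lam i)]
  set X := ∑ z ∈ D.A i ∩ D.U1 S lam, ∑ c, (if S.al z c then D.nc S i c * S.v z c else 0)
  set W := ∑ z ∈ D.A i ∩ Sel S.col lam true, ∑ c,
        (if S.al z c then D.nc S i c * S.v z c else 0)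
  set C := ∑ z ∈ D.A i ∩ D.U1 S lam, ∑ z' ∈ D.A i ∩ Sel S.col lam true, D.chi z z'
  have hε : (0 : ℝ) < 1 + 1 / D.T ^ 5 := by positivity
  have h5 : (1 + 1 / D.T ^ 5) * D.YbU (D.step S m lam ω) i + D.YbC (D.step S m lam ω) i ≤
      (1 + 1 / D.T ^ 5) * D.YbU S i + D.YbC S i - W + 6 * D.T ^ 2992 := by
    have h51 := mul_le_mul_of_nonneg_left h2 hε.le
    rw [h4]
    nlinarith
  have h6 : 2 / (D.k : ℝ) * (6 * D.T ^ 2992) ≤ 1 / D.T ^ 1000 := by
    have h61 : 12 * (D.T ^ 2992 * D.T ^ 1000) ≤ D.T ^ 3999 := by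
      rw [← pow_add, show (3999 : ℕ) = 7 + (2992 + 1000) by norm_num, pow_add D.T 7]
      refine mul_le_mul_of_nonneg_right ?_ (by positivity)
      calc (12 : ℝ) ≤ D.T := by linarith [hD.big.big]
        _ = D.T ^ 1 := (pow_one _).symm
        _ ≤ D.T ^ 7 := hD.big.pw (by norm_num)
    have h62 := hD.k_lo
    rw [div_mul_eq_mul_div, div_le_div_iff₀ hk (by positivity)]
    nlinarith
  unfold Yb
  have h7 := mul_le_mul_of_nonneg_left h5 (by positivity : (0 : ℝ) ≤ 2 / D.k)
  have h8 : 2 / (D.k : ℝ) * ((1 + 1 / D.T ^ 5) * D.YbU S i + D.YbC S i - W +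
      6 * D.T ^ 2992) = 2 / D.k * ((1 + 1 / D.T ^ 5) * D.YbU S i + D.YbC S i) -
      2 / D.k * W + 2 / (D.k : ℝ) * (6 * D.T ^ 2992) := by ring
  rw [h8] at h7
  linarith

end lam

end NibData

end

end Pool.Agent.AcyK
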