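import Pool.Agent.AcyK.LamA
import Pool.Agent.AcyK.StepA
import Pool.Agent.AcyK.StepB
import Pool.Agent.AcyK.StepC
import Pool.Agent.AcyK.StepK
import Pool.Agent.AcyK.StepI
import Pool.Agent.AcyK.StepY
import Pool.Agent.AcyK.EvC

/-! # Iteration of the rounds (project MP_af9dfb_K, module IT) -/

set_option autoImplicit false
set_option linter.unusedSectionVars false

namespace Pool.Agent.AcyK

open Finset
open Pool.Agent.Acy (IsPM wt Ex Pr mean)
open scoped Classical

universe u v

section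

variable {Q ι : Type u} [Fintype Q] [DecidableEq Q] [Fintype ι] [DecidableEq ι]

namespace NibData

variable {D : NibData Q ι}

theorem inv_init (hD : D.Ok) : D.Inv (NState.init Q D.k) 0 := by
  have hT0 := hD.big.pos
  have hT1 := hD.big.one_le
  have hl := hD.big.log_pos
  have hUn : Un (NState.init Q D.k).col = univ := by
    ext u
    simp [Un, NState.init]
  have hk0 : (0 : ℝ) < D.k := lt_of_lt_of_le (by positivity) hD.k_lo
  constructor
  · intro x c _
    exact one_pos
  · intro x c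
    have : 0 ≤ 1 / D.T ^ 100 := by positivity
    show -(1 / D.T ^ 100) ≤ (1 : ℝ)
    linarith
  · intro x c
    show (1 : ℝ) ≤ Real.exp (Real.log D.T / 10 * 0 + 2 * 0)
    simp
  · intro x c
    exact le_refl (0 : ℝ)
  · intro x c
    show (0 : ℝ) ≤ 3
    norm_num
  · intro x c _
    show (0 : ℝ) ≤ 1
    norm_num
  · intro b x c
    exact le_refl (0 : ℝ)
  · intro x c
    show (0 : ℝ) ≤ Real.log D.T / 20
    positivity
  · intro x c
    show (0 : ℝ) ≤ 1 / 50
    norm_num
  · intro x c
    exact le_refl (0 : ℝ)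
  · intro x c _
    show (0 : ℝ) ≤ D.k / D.T ^ 20
    positivity
  · intro b x c _
    show (0 : ℝ) + D.Nf (NState.init Q D.k) b x c ≤
      2 / D.k * (∑ y, D.a b x y) + (0 : ℕ) / D.T ^ 180 + D.sg 0 / D.T ^ 20 +
        6 * D.T ^ 3 / D.k * 0
    unfold Nf
    rw [hUn]
    simp [NState.init, sg]
  · intro x
    show |∑ _c : Fin D.k, (1 : ℝ) - D.k| ≤ (0 : ℕ) * D.k / D.T ^ 180
    simp
  · intro x
    show ∑ _c : Fin D.k, (1 : ℝ) * (0 - 2 * 0) ≤ (0 : ℕ) * D.k / D.T ^ 180
    simp
  · intro x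
    refine ⟨∅, by simp, fun c hc => absurd trivial hc⟩
  · intro x
    show ∑ _c : Fin D.k, (0 : ℝ) ≤ (0 : ℕ) * D.T ^ 7810
    simp
  · intro x c _ u r hu
    simp [NState.init] at hu
  · intro u c r hu
    simp [NState.init] at hu
  · intro u y c r r' hu
    simp [NState.init] at hu
  · intro y y' hy _
    rw [hUn]
    have := hD.gram y y' hy
    have h0 : (0 : ℝ) ≤ ((0 : ℕ) : ℝ) * D.T ^ 2000 := by simp
    linarith
  · intro z z' hz
    refine ⟨∅, by simp, fun c _ _ => ?_⟩
    have h1 := hD.gram z z' (hD.pr_tw z z' hz)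
    unfold kap
    rw [hUn]
    have e1 : ∑ y, D.K y z * D.K y z' * (NState.init Q D.k).v y c = ∑ y, D.K y z * D.K y z' := by
      refine Finset.sum_congr rfl fun y _ => ?_
      show D.K y z * D.K y z' * 1 = _
      ring
    rw [e1, abs_mul, abs_of_pos (by positivity : (0 : ℝ) < 1 / D.k)]
    have h2 : 1 / (D.k : ℝ) * |∑ y, D.K y z * D.K y z'| ≤ 1 / D.T ^ 3999 * D.T ^ 3430 := by
      refine mul_le_mul (one_div_le_one_div_of_le (by positivity) hD.k_lo) h1 (abs_nonneg _)
        (by positivity)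
    have h3 : 1 / D.T ^ 3999 * D.T ^ 3430 = 1 / D.T ^ 569 := by
      rw [show (3999 : ℕ) = 3430 + 569 from rfl, pow_add]
      field_simp
    have h4 : 1 / D.T ^ 569 ≤ 1 / D.T ^ 460 :=
      one_div_le_one_div_of_le (by positivity) (pow_le_pow_right₀ hT1 (by norm_num))
    have h5 : 6 * D.T ^ 4 / D.k * (NState.init Q D.k).pd z c = 0 := by
      show 6 * D.T ^ 4 / D.k * 0 = 0
      ring
    rw [h5]
    have h6 : ((0 : ℕ) : ℝ) / D.T ^ 180 = 0 := by simp
    rw [h6]
    linarith
  · intro z z' _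
    have h1 : D.II (NState.init Q D.k) z z' = 1 := by
      unfold II
      have : ∑ c : Fin D.k, (NState.init Q D.k).v z c * (NState.init Q D.k).v z' c = D.k := by
        show ∑ _c : Fin D.k, (1 : ℝ) * 1 = D.k
        simp
      rw [this]
      field_simp
    rw [h1]
    simp [sg]
  · intro i
    rw [hUn, Finset.inter_univ]
    have hq : (D.q : ℝ) ≠ 0 := by
      have h1 := hD.M_le
      have h2 : (0 : ℝ) ≤ D.M := Nat.cast_nonneg _
      have h3 : (0 : ℝ) < D.T ^ 133 := by positivity
      have h4 : (0 : ℝ) < D.q := by linarith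
      exact h4.ne'
    simp [hq]
  · intro i _ c
    show (((D.A i).filter fun z => ∃ r, (NState.init Q D.k).col z = some (c, r)).card : ℝ) ≤
      (0 : ℕ) * D.T ^ 4
    simp [NState.init]

theorem inv_step (hD : D.Ok) {S : NState Q D.k} {m : ℕ} (hI : D.Inv S m) (hm : m < D.M)
    {lam : Q → Option Bool} (hA : D.GoodA S m lam) (ω : Q → Fin D.k)
    (hw : 0 < wt (D.p S lam) ω) (hG : D.GoodB S lam ω) : D.Inv (D.step S m lam ω) (m + 1) where
  al_pos := step_al_pos hD hI hm hA ω
  v_lo := step_v_lo hD hI hm hA ω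
  v_hi := step_v_hi hD hI hm hA ω
  be_nonneg := step_be_nonneg hD hI hm hA ω
  be_le := step_be_le hD hI hm hA ω
  be_al := step_be_al hD hI hm hA ω
  ac_nonneg := step_ac_nonneg hD hI hm hA ω
  ac_true := step_ac_true hD hI hm hA ω
  ac_false := step_ac_false hD hI hm hA ω
  pd_nonneg := step_pd_nonneg hD hI hm hA ω
  pd_al := step_pd_al hD hI hm hA ω
  pred := step_pred hD hI hm hA ω hG
  mass := step_mass hD hI hm hA ω hG
  bud := step_bud hD hI hm hA ω hG
  dead := step_dead hD hI hm hA ω hG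
  pds := step_pds hD hI hm hA ω hG
  sep := step_sep hD hI hm hA ω
  col_lt := step_col_lt hD hI hm hA ω
  col_ok := step_col_ok hD hI hm hA ω hw
  gramU := by
    intro y y' h1 h2
    rw [Un_step]
    exact gramU_step hD hI hm hA y y' h1 h2
  kapB := step_kapB hD hI hm hA ω hG
  iiB := step_iiB hD hI hm hA ω hG
  cardU := by
    intro i
    rw [Un_step]
    exact cardU_step hD hI hm hA i
  ncol := step_ncol hD hI hm hA ω hG

/-- The semi-random colouring, together with any auxiliary process. -/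
theorem nibble (hD : D.Ok) {σ : Type v}
    (X : ℕ → (Q → Option (Fin D.k × ℕ)) → (ι → ℝ) → σ → Prop) (hX : AuxOK D X) (s₀ : σ)
    (h0 : X 0 (fun _ => none) (D.Yb (NState.init Q D.k)) s₀) :
    ∃ (col : Q → Option (Fin D.k × ℕ)) (Y : ι → ℝ) (s : σ), X D.M col Y s ∧
      (∀ u y c r r', col u = some (c, r) → col y = some (c, r') → r < r' →
        D.K u y ≠ -1 ∧ D.h u y ≤ 1) ∧
      ∀ i, ((D.A i ∩ Un col).card : ℝ) ≤
        ((D.q : ℝ) - D.M) / D.q * (D.A i).card + D.M * D.T ^ 1502 := by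
  have key : ∀ m, m ≤ D.M → ∃ (S : NState Q D.k) (s : σ), D.Inv S m ∧
      X m S.col (D.Yb S) s := by
    intro m
    induction m with
    | zero => exact fun _ => ⟨NState.init Q D.k, s₀, inv_init hD, h0⟩
    | succ m ih =>
      intro hm
      obtain ⟨S, s, hI, hXm⟩ := ih (Nat.le_of_succ_le hm)
      have hm' : m < D.M := hm
      obtain ⟨XA, hXA, hB⟩ := hX m hm' S.col (D.Yb S) s hXm hI.cardU
      obtain ⟨lam, -, hGA, hXAl⟩ := StepOK.and_exists hD.big (lawA_isPM hD hm'.le)
        (goodA_stepOK hD hI hm') hXA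
      have e1 : ∀ b i, D.dev S m lam b (fun u => if u ∈ D.A i then 1 else 0) =
          ((D.A i ∩ Sel S.col lam b).card : ℝ) - D.t m * (D.A i ∩ Un S.col).card := by
        intro b i
        unfold dev
        rw [← Finset.sum_filter, ← Finset.sum_filter, Finset.sum_const, Finset.sum_const,
          nsmul_eq_mul, nsmul_eq_mul, mul_one, mul_one, Finset.filter_mem_eq_inter,
          Finset.filter_mem_eq_inter, Finset.inter_comm, Finset.inter_comm (Un S.col)]
      have hcard : ∀ b i, |((D.A i ∩ Sel S.col lam b).card : ℝ) -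
          D.t m * (D.A i ∩ Un S.col).card| ≤ D.T ^ 1502 := by
        intro b i
        rw [← e1]
        exact hGA.a9 b i
      have hcard' : ∀ b i, ((D.A i).card : ℝ) ≤ D.T ^ 1603 →
          |((D.A i ∩ Sel S.col lam b).card : ℝ) - D.t m * (D.A i ∩ Un S.col).card| ≤
            D.T ^ 805 := by
        intro b i hi
        rw [← e1]
        exact hGA.a10 b i hi
      have hp0 : ∀ z c, lam z = some true → 0 < D.p S lam z c → ∀ u r, S.col u = some (c, r) →
          D.K u z ≠ -1 ∧ D.h u z ≤ 1 := by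
        intro z c hz hpz u r hu
        have h1 : D.p S lam z c = D.pa S z c := by
          unfold p
          rw [if_neg (by rw [hz]; simp)]
        rw [h1] at hpz
        exact hI.sep z c (al_of_pa_pos hD hI hm'.le z c hpz) u r hu
      obtain ⟨β, hβ, ν, upd, hν, hstep⟩ := hB lam hXAl hcard hcard' (D.p S lam)
        (p_isPM hD hI hm'.le lam) (p_le hD hI hm'.le lam) hp0
      have hpm := p_isPM hD hI hm'.le lam
      obtain ⟨ω, hw, hG, hX'⟩ := StepOK.and_exists hD.big (prodLaw_isPM hpm hν)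
        (StepOK.fst hpm hν (goodB_stepOK hD hI hm' hGA)) hstep
      have hI' := inv_step hD hI hm' hGA (fun y => (ω y).1) (wt_fst_pos hpm hν hw) hG
      refine ⟨D.step S m lam fun y => (ω y).1, upd ω, hI', ?_⟩
      exact hX' (D.Yb (D.step S m lam fun y => (ω y).1)) (fun i => Yb_nonneg hD hI' i)
        (fun i hi => step_Yb hD hI hm' hGA _ hG i hi)
  obtain ⟨S, s, hI, hXs⟩ := key D.M le_rfl
  exact ⟨S.col, D.Yb S, s, hXs, hI.col_ok, hI.cardU⟩

end NibData

end

end Pool.Agent.AcyK
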