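import Pool.Agent.AcyK.OStat

/-! # The outer process: consequences of the hypotheses of a round (row OB) -/

set_option autoImplicit false
set_option linter.unusedSectionVars false

namespace Pool.Agent.AcyK

open Finset
open Pool.Agent.Acy (IsPM wt Ex Pr mean)
open scoped Classical

universe u v w

section

variable {V : Type u} [Fintype V] [DecidableEq V]

/-- The number of colours used on a set. -/
theorem colsOn_card {k : ℕ} (col : V → Option (Fin k × ℕ)) (B : Finset V) :
    (colsOn col B).card ≤ B.card := by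
  have h : ∀ c ∈ colsOn col B, ∃ z ∈ B, ∃ r, col z = some (c, r) := by
    intro c hc
    unfold colsOn at hc
    exact (mem_filter.1 hc).2
  rcases isEmpty_or_nonempty V with hV | hV
  · have h0 : colsOn col B = ∅ := by
      rw [eq_empty_iff_forall_notMem]
      intro c hc
      obtain ⟨z, -⟩ := h c hc
      exact hV.elim z
    rw [h0]
    exact Nat.zero_le _
  choose! f hf using h
  refine card_le_card_of_injOn f (fun c hc => (hf c hc).1) ?_
  intro c hc c' hc' he
  obtain ⟨-, r, hr⟩ := hf c hc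
  obtain ⟨-, r', hr'⟩ := hf c' hc'
  rw [he, hr'] at hr
  simp only [Option.some.injEq, Prod.mk.injEq] at hr
  exact hr.1.symm

theorem mem_colsOn {k : ℕ} {col : V → Option (Fin k × ℕ)} {B : Finset V} {c : Fin k} :
    c ∈ colsOn col B ↔ ∃ z ∈ B, hasCol col z c := by
  unfold colsOn hasCol
  simp

namespace OPart

variable {E : OPart V} {C : V → Option (Fin E.k × ℕ)}

section
variable (hE : E.Ok C)
include hE

theorem s0_nonneg (u x : V) : 0 ≤ E.s0.X u x := by
  rcases hE.inv.cases u x with h | h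
  · exact h.ge
  · linarith

theorem chi_nonneg (u x : V) : 0 ≤ E.chi E.s0 u x := by
  unfold OData.chi
  have := s0_nonneg hE u x
  split_ifs <;> linarith

theorem chi_le (u x : V) : E.chi E.s0 u x ≤ E.th ^ 2 := by
  have h1 := OData.th_ge hE.dat
  have h2 : (1 : ℝ) ≤ E.th ^ 2 := by nlinarith
  have h3 := hE.inv.X_le u x
  unfold OData.chi
  split_ifs <;> linarith

theorem A_card' {u x : V} (h : E.cod u x ≤ E.am) : ((E.A u x).card : ℝ) ≤ E.T ^ 1603 :=
  OData.b2 hE.dat (h.trans hE.dat.am_hi) E.j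

theorem qq_pos (z z' : V) (i : Fin (E.NN + 1)) : 0 < E.qq z z' i :=
  lt_of_lt_of_le (by positivity) (hE.qq_lo z z' i)

theorem y0_nonneg (u x : V) : 0 ≤ E.y0 u x := by
  have hT := OData.T0 hE.dat
  have hk := OData.k_pos hE.dat
  unfold y0
  refine mul_nonneg (by positivity) (mul_nonneg (by positivity) ?_)
  exact sum_nonneg fun z _ => sum_nonneg fun z' _ => chi_nonneg hE z z'

theorem y0_bd {u x : V} (h : E.cod u x ≤ E.am) : E.y0 u x ≤ 1 / E.T ^ 785 := by
  have hT := OData.T0 hE.dat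
  have hT1 := OData.T1 hE.dat
  have hk := OData.k_pos hE.dat
  have hb := hE.dat.big
  have hA := A_card' hE h
  have hth : E.th ^ 2 ≤ E.T / 10000 := OData.th2 hE.dat
  have hth0 : 0 < E.th := OData.th_pos
  have h1 : ∑ z ∈ E.A u x, ∑ z' ∈ (E.A u x).erase z, E.chi E.s0 z z' ≤
      E.T ^ 3206 * (E.T / 10000) := by
    have h2 : ∀ z ∈ E.A u x, ∑ z' ∈ (E.A u x).erase z, E.chi E.s0 z z' ≤
        E.T ^ 1603 * (E.T / 10000) := by
      intro z _
      refine (sum_le_card_nsmul _ _ _ fun z' _ => (chi_le hE z z').trans hth).trans ?_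
      rw [nsmul_eq_mul]
      apply mul_le_mul_of_nonneg_right _ (by positivity)
      refine le_trans ?_ hA
      exact_mod_cast card_le_card (erase_subset _ _)
    refine (sum_le_card_nsmul _ _ _ h2).trans ?_
    rw [nsmul_eq_mul]
    calc ((E.A u x).card : ℝ) * (E.T ^ 1603 * (E.T / 10000)) ≤
        E.T ^ 1603 * (E.T ^ 1603 * (E.T / 10000)) :=
          mul_le_mul_of_nonneg_right hA (by positivity)
      _ = E.T ^ 3206 * (E.T / 10000) := by
          rw [← mul_assoc, ← pow_add]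
  have h5 : 1 / E.T ^ 5 ≤ 1 := by
    rw [div_le_one (by positivity)]
    exact one_le_pow₀ hT1
  have h3 : (1 + 1 / E.T ^ 5) * ∑ z ∈ E.A u x, ∑ z' ∈ (E.A u x).erase z, E.chi E.s0 z z' ≤
      2 * (E.T ^ 3206 * (E.T / 10000)) := by
    have h4 : 0 ≤ E.T ^ 3206 * (E.T / 10000) := by positivity
    have h6 : 0 ≤ 1 / E.T ^ 5 := by positivity
    calc (1 + 1 / E.T ^ 5) * ∑ z ∈ E.A u x, ∑ z' ∈ (E.A u x).erase z, E.chi E.s0 z z' ≤
        (1 + 1 / E.T ^ 5) * (E.T ^ 3206 * (E.T / 10000)) :=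
          mul_le_mul_of_nonneg_left h1 (by linarith)
      _ ≤ 2 * (E.T ^ 3206 * (E.T / 10000)) := mul_le_mul_of_nonneg_right (by linarith) h4
  have h7 : E.T ^ 3207 / E.k ≤ 1 / E.T ^ 792 := OData.div_k hE.dat (by norm_num)
  have h8 : 1 / E.T ^ 792 ≤ 1 / E.T ^ 785 := hb.ipw (by norm_num)
  unfold y0
  calc 2 / (E.k : ℝ) * ((1 + 1 / E.T ^ 5) *
        ∑ z ∈ E.A u x, ∑ z' ∈ (E.A u x).erase z, E.chi E.s0 z z') ≤
        2 / (E.k : ℝ) * (2 * (E.T ^ 3206 * (E.T / 10000))) :=
          mul_le_mul_of_nonneg_left h3 (by positivity)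
    _ = 4 / 10000 * (E.T ^ 3207 / E.k) := by
        have h9 : E.T ^ 3207 = E.T ^ 3206 * E.T := by rw [← pow_succ]
        rw [h9]; ring
    _ ≤ 1 * (E.T ^ 3207 / E.k) := by
        apply mul_le_mul_of_nonneg_right (by norm_num) (by positivity)
    _ ≤ 1 / E.T ^ 785 := by linarith

end

end OPart

namespace ORd

variable {E : ORd V} {C : V → Option (Fin E.k × ℕ)}

section
variable (hE : E.Ok C)
include hE

theorem site_symm {u x : V} (h : E.site u x) : E.site x u := by
  refine ⟨OData.rel_symm hE.prt_ok.dat h.1, ?_⟩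
  have := h.1.2.1
  rw [← this]
  exact h.2

theorem act_symm {u x : V} (h : E.act u x) : E.act x u := by
  refine ⟨site_symm hE h.1, ?_, ?_⟩
  · rw [hE.inv.st_symm]; exact h.2.1
  · rw [hE.inv.X_symm]; exact h.2.2

theorem A_card {u x : V} (h : E.rel u x) : ((E.A u x).card : ℝ) ≤ E.T ^ 1603 :=
  OPart.A_card' hE.prt_ok h.2.2.2.2

theorem X_nonneg (u x : V) : 0 ≤ E.s.X u x := by
  rcases hE.inv.cases u x with h | h
  · exact h.ge
  · linarith

theorem m_le : (E.m : ℝ) ≤ E.T ^ 150 := OData.mM hE.prt_ok.dat hE.m_lt.le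

theorem acc_le {u x : V} (h : E.site u x) : E.acc E.m E.Y u x ≤ 1 / E.T ^ 780 := by
  have hT := OData.T0 hE.prt_ok.dat
  have hT1 := OData.T1 hE.prt_ok.dat
  have hb := hE.prt_ok.dat.big
  have h1 := OPart.y0_bd hE.prt_ok h.1.2.2.2.2
  have h2 := hE.inv.Y_nonneg u x
  have h3 : (E.m : ℝ) / E.T ^ 1000 ≤ 1 / E.T ^ 850 := by
    rw [div_le_div_iff₀ (by positivity) (by positivity)]
    have h4 : E.T ^ 1000 = E.T ^ 150 * E.T ^ 850 := by rw [← pow_add]
    rw [h4, one_mul]
    exact mul_le_mul_of_nonneg_right (m_le hE) (by positivity)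
  have h5 : 1 / E.T ^ 850 ≤ 1 / E.T ^ 785 := hb.ipw (by norm_num)
  have h6 : 2 * (1 / E.T ^ 785) ≤ 1 / E.T ^ 780 := by
    have h7 : E.T ^ 785 = E.T ^ 780 * E.T ^ 5 := by rw [← pow_add]
    have h8 : 2 ≤ E.T ^ 5 := by
      have h9 := hb.big
      calc (2 : ℝ) ≤ E.T := by linarith
        _ ≤ E.T ^ 5 := by
          have := pow_le_pow_right₀ hT1 (show 1 ≤ 5 by norm_num)
          simpa using this
    rw [h7, mul_one_div, div_le_div_iff₀ (by positivity) (by positivity)]
    have h10 : 0 < E.T ^ 780 := by positivity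
    nlinarith
  unfold OPart.acc
  linarith

/-- The exponential of the accumulated hazard. -/
theorem exp_acc_le {u x : V} (h : E.site u x) :
    Real.exp (E.acc E.m E.Y u x) ≤ 1 + 2 / E.T ^ 780 := by
  have hT := OData.T0 hE.prt_ok.dat
  have hb := hE.prt_ok.dat.big
  have h1 := acc_le hE h
  have h2 := hE.inv.acc_nonneg u x h
  have h3 : 1 / E.T ^ 780 ≤ 1 / 1000000 := hb.small (by norm_num)
  have h4 : |Real.exp (E.acc E.m E.Y u x) - 1| ≤ 2 * |E.acc E.m E.Y u x| :=
    Real.abs_exp_sub_one_le (by rw [abs_of_nonneg h2]; linarith)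
  rw [abs_of_nonneg h2] at h4
  have h5 := le_abs_self (Real.exp (E.acc E.m E.Y u x) - 1)
  have h6 : 2 / E.T ^ 780 = 2 * (1 / E.T ^ 780) := by ring
  rw [h6]
  linarith

theorem exp_acc_le' {u x : V} (h : E.site u x) :
    Real.exp (E.acc E.m E.Y u x) ≤ 1001 / 1000 := by
  have hb := hE.prt_ok.dat.big
  have h1 := exp_acc_le hE h
  have h3 : 1 / E.T ^ 780 ≤ 1 / 1000000 := hb.small (by norm_num)
  have h6 : 2 / E.T ^ 780 = 2 * (1 / E.T ^ 780) := by ring
  rw [h6] at h1
  linarith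

theorem X_le (u x : V) : E.s.X u x ≤ E.th ^ 2 := by
  have h0 := hE.prt_ok.inv.X_le u x
  by_cases hs : E.site u x
  · by_cases ha : E.s0.st u x = .act
    · have h1 := hE.inv.asl_le u x hs ha
      have h2 := hE.prt_ok.inv.act_le u x hs.1 hs.2.le ha
      have h3 := exp_acc_le hE hs
      have hth := OData.th_ge hE.prt_ok.dat
      have hb := hE.prt_ok.dat.big
      have hT := OData.T0 hE.prt_ok.dat
      have hT1 := OData.T1 hE.prt_ok.dat
      have hN := hE.prt_ok.dat.NN_le
      have hX := OPart.s0_nonneg hE.prt_ok u x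
      have hN0 : (0 : ℝ) ≤ E.NN := by positivity
      have h4 : E.th * 2 / E.T ^ 780 ≤ 1 := by
        rw [div_le_one (by positivity)]
        have h5 : E.th ^ 2 ≤ E.T / 10000 := OData.th2 hE.prt_ok.dat
        have h6 : E.T ≤ E.T ^ 780 := by
          have := pow_le_pow_right₀ hT1 (show 1 ≤ 780 by norm_num)
          simpa using this
        nlinarith
      have h7 : Real.exp (E.acc E.m E.Y u x) * (2 * E.NN + 3) ≤ E.th := by
        calc Real.exp (E.acc E.m E.Y u x) * (2 * E.NN + 3) ≤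
            (1 + 2 / E.T ^ 780) * (2 * E.NN + 3) :=
              mul_le_mul_of_nonneg_right h3 (by positivity)
          _ = (2 * E.NN + 3) + (2 * E.NN + 3) * 2 / E.T ^ 780 := by ring
          _ ≤ (2 * E.NN + 3) + E.th * 2 / E.T ^ 780 := by
              have h8 : (2 * (E.NN : ℝ) + 3) * 2 / E.T ^ 780 ≤ E.th * 2 / E.T ^ 780 := by
                apply div_le_div_of_nonneg_right _ (by positivity)
                linarith
              linarith
          _ ≤ E.th := by linarith
      calc E.s.X u x ≤ E.s0.X u x * Real.exp (E.acc E.m E.Y u x) * (2 * E.NN + 3) := h1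
        _ = E.s0.X u x * (Real.exp (E.acc E.m E.Y u x) * (2 * E.NN + 3)) := by ring
        _ ≤ E.th * E.th := by
            apply mul_le_mul h2 h7 _ (by linarith)
            have := Real.exp_pos (E.acc E.m E.Y u x)
            positivity
        _ = E.th ^ 2 := by ring
    · rw [(hE.inv.fr0 u x ha).1]; exact h0
  · rw [(hE.inv.off u x hs).1]; exact h0

theorem act_X_le {u x : V} (h : E.act u x) : E.s.X u x ≤ 1001 / 1000 * E.s0.X u x := by
  have h1 := hE.inv.act_le u x h.1 h.2.1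
  have h2 := exp_acc_le' hE h.1
  have hX := OPart.s0_nonneg hE.prt_ok u x
  calc E.s.X u x ≤ E.s0.X u x * Real.exp (E.acc E.m E.Y u x) := h1
    _ ≤ E.s0.X u x * (1001 / 1000) := mul_le_mul_of_nonneg_left h2 hX
    _ = 1001 / 1000 * E.s0.X u x := by ring

theorem act_s0 {u x : V} (h : E.act u x) :
    E.s0.st u x = .act ∧ 1 ≤ E.s0.X u x ∧ E.s0.X u x ≤ E.th ∧ 1 ≤ E.s.X u x := by
  have h1 : E.s0.st u x = .act := hE.inv.act0 u x (Or.inl h.2.1)
  have h2 : E.s0.X u x ≠ 0 := fun h0 => h.2.2 (hE.inv.dead0 u x h0)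
  refine ⟨h1, (hE.prt_ok.inv.cases u x).resolve_left h2,
    hE.prt_ok.inv.act_le u x h.1.1 h.1.2.le h1, (hE.inv.cases u x).resolve_left h.2.2⟩

theorem H_nonneg (u x : V) : 0 ≤ E.H u x :=
  sum_nonneg fun z _ => sum_nonneg fun c _ => hE.p_pm.nonneg z c

theorem H_le {u x : V} (h : E.rel u x) : E.H u x ≤ 1 / E.T ^ 923 := by
  have hT := OData.T0 hE.prt_ok.dat
  have hT1 := OData.T1 hE.prt_ok.dat
  have hk := OData.k_pos hE.prt_ok.dat
  have hb := hE.prt_ok.dat.big
  have h1 := hE.LA u x h.2.2.2.2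
  have h2 := A_card hE h
  have h3 : ((colsOn E.col (E.A u x)).card : ℝ) ≤ E.T ^ 1603 := by
    refine le_trans ?_ h2
    exact_mod_cast colsOn_card _ _
  unfold H
  have h4 : ∀ z ∈ E.A u x ∩ E.L, ∑ c ∈ colsOn E.col (E.A u x), E.p z c ≤
      E.T ^ 1603 * (2 * E.T / E.k) := by
    intro z _
    refine (sum_le_card_nsmul _ _ _ fun c _ => hE.p_le z c).trans ?_
    rw [nsmul_eq_mul]
    exact mul_le_mul_of_nonneg_right h3 (by positivity)
  refine (sum_le_card_nsmul _ _ _ h4).trans ?_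
  rw [nsmul_eq_mul]
  have h5 : E.T ^ 3075 / E.k ≤ 1 / E.T ^ 924 := OData.div_k hE.prt_ok.dat (by norm_num)
  calc ((E.A u x ∩ E.L).card : ℝ) * (E.T ^ 1603 * (2 * E.T / E.k)) ≤
      E.T ^ 1471 * (E.T ^ 1603 * (2 * E.T / E.k)) :=
        mul_le_mul_of_nonneg_right h1 (by positivity)
    _ = 2 * (E.T ^ 3075 / E.k) := by
        have h6 : E.T ^ 3075 = E.T ^ 1471 * E.T ^ 1603 * E.T := by
          rw [← pow_add, ← pow_succ]
        rw [h6]; ring
    _ ≤ 2 * (1 / E.T ^ 924) := by linarith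
    _ ≤ 1 / E.T ^ 923 := by
        have h7 : E.T ^ 924 = E.T ^ 923 * E.T := by rw [← pow_succ]
        have h8 := hb.big
        have h9 : 0 < E.T ^ 923 := by positivity
        rw [h7, mul_one_div, div_le_div_iff₀ (by positivity) (by positivity)]
        nlinarith

/-- The hazard as a sum over the dangerous colours. -/
theorem H_eq (u x : V) : E.H u x = ∑ z, ∑ c, if E.hc u x z c then E.p z c else 0 := by
  unfold H
  rw [← sum_filter_add_sum_filter_not univ (fun z => z ∈ E.A u x ∩ E.L)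
    (fun z => ∑ c, if E.hc u x z c then E.p z c else 0)]
  have h1 : ∑ z ∈ univ.filter (fun z => ¬ z ∈ E.A u x ∩ E.L),
      ∑ c, (if E.hc u x z c then E.p z c else 0) = 0 := by
    refine sum_eq_zero fun z hz => sum_eq_zero fun c _ => ?_
    rw [if_neg]
    intro hc
    exact (mem_filter.1 hz).2 (mem_inter.2 ⟨hc.1, hc.2.1⟩)
  rw [h1, add_zero]
  have h2 : (univ.filter fun z => z ∈ E.A u x ∩ E.L) = E.A u x ∩ E.L := by
    ext z; simp
  rw [h2]
  refine sum_congr rfl fun z hz => ?_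
  rw [mem_inter] at hz
  have h3 : ∀ c, (if E.hc u x z c then E.p z c else 0) =
      if c ∈ colsOn E.col (E.A u x) then E.p z c else 0 := by
    intro c
    by_cases hc : c ∈ colsOn E.col (E.A u x)
    · rw [if_pos hc]
      by_cases hp : 0 < E.p z c
      · rw [if_pos]
        exact ⟨hz.1, hz.2, hp, mem_colsOn.1 hc⟩
      · have hp0 : E.p z c = 0 := le_antisymm (not_lt.1 hp) (hE.p_pm.nonneg z c)
        rw [hp0, ite_self]
    · rw [if_neg hc, if_neg]
      intro h
      exact hc (mem_colsOn.2 h.2.2.2)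
  rw [sum_congr rfl fun c _ => h3 c, sum_ite_mem, univ_inter]

/-- What `sep` means. -/
theorem sep' {z z' : V} {c : Fin E.k} (hz : z ∈ E.L) (hp : 0 < E.p z c)
    (hc : hasCol E.col z' c) (hj : E.lv z' = E.j) (hj' : E.lv z = E.j) :
    z ≠ z' ∧ ¬ E.spe z z' ∧ E.cod z z' ≤ E.T ^ 2401 ∧
      (E.rel z z' → E.s0.st z z' = .act ∧ E.s0.X z z' ≠ 0) := by
  have hD := hE.prt_ok.dat
  obtain ⟨r, hr⟩ := hc
  unfold L Sel at hz
  rw [mem_filter] at hz
  have hne : z ≠ z' := by
    rintro rfl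
    rw [hz.2.1] at hr
    exact absurd hr (by simp)
  obtain ⟨h1, h2⟩ := hE.sep z c hz.2.2 hp z' r hr
  have h1' : E.K E.s0 z' z ≠ -1 := by
    simpa only [OPart.nib, hj, if_true] using h1
  have h2' : E.hz E.s0 z' z ≤ 1 := by
    simpa only [OPart.nib, hj, if_true] using h2
  have hns : ¬ E.spe z z' := by
    intro hs
    have hs' := OData.spe_symm hD hs
    unfold OData.hz at h2'
    rw [if_pos hs'] at h2'
    linarith
  refine ⟨hne, hns, ?_, ?_⟩
  · by_contra hcon
    apply hns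
    refine ⟨hne, by rw [hj, hj'], Or.inr ?_⟩
    exact lt_of_le_of_lt hD.am_hi (not_le.1 hcon)
  · intro hr'
    have hrel := OData.rel_symm hD hr'
    have hX : E.s0.X z' z ≠ 0 := by
      intro h0
      apply h1'
      unfold OData.K
      rw [if_pos hrel, h0]
      ring
    have hst : E.s0.st z' z = .act := by
      by_contra hcon
      unfold OData.hz at h2'
      rw [if_neg (OData.rel_not_spe hD hrel), if_pos hrel, if_neg hX, if_neg hcon] at h2'
      linarith
    rw [hE.prt_ok.inv.st_symm z z', hE.prt_ok.inv.X_symm z z']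
    exact ⟨hst, hX⟩

theorem prt_card {u x : V} (h : E.act u x) (z : V) (c : Fin E.k) :
    (E.prt u x z c).card ≤ 1 := by
  rw [card_le_one]
  intro a ha b hb
  unfold prt at ha hb
  rw [mem_filter] at ha hb
  by_contra hne
  exact hE.inv.inj u x h.1 (Or.inl h.2.1) h.2.2 a ha.1 b hb.1 hne ⟨c, ha.2.1, hb.2.1⟩

theorem ev_le_hit {u x : V} (h : E.act u x) (z : V) (e : E.Pick) :
    E.ev u x z e ≤ E.hit u x z e := by
  unfold ev hit
  have := prt_card hE h z e.2.1
  split_ifs <;> omega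

theorem hit_le_two (u x z : V) (e : E.Pick) : E.hit u x z e ≤ 2 := by
  unfold hit
  split_ifs <;> omega

theorem qq_le_one (z z' : V) (i : Fin (E.NN + 1)) : E.qq z z' i ≤ 1 :=
  (single_le_sum (f := fun i => E.qq z z' i) (fun i _ => (OPart.qq_pos hE.prt_ok z z' i).le)
    (mem_univ i)).trans (hE.prt_ok.qq_sum z z')

theorem inv_qq_le (z z' : V) (i : Fin (E.NN + 1)) : 1 / E.qq z z' i ≤ 2 * E.NN + 2 := by
  rw [div_le_iff₀ (OPart.qq_pos hE.prt_ok z z' i)]
  have h1 := hE.prt_ok.qq_lo z z' i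
  rw [div_le_iff₀ (by positivity)] at h1
  linarith

theorem one_le_inv_qq (z z' : V) (i : Fin (E.NN + 1)) : 1 ≤ 1 / E.qq z z' i := by
  rw [le_div_iff₀ (OPart.qq_pos hE.prt_ok z z' i)]
  linarith [qq_le_one hE z z' i]

theorem won_le {u x : V} (h : E.act u x) (z : V) (e : E.Pick) :
    0 ≤ E.won u x z e ∧ E.won u x z e ≤ 2 * E.NN + 2 := by
  unfold won
  split_ifs with hc
  · have h1 : ∀ z' ∈ E.prt u x z e.2.1,
        0 ≤ (if e.2.2 z' = some (E.J z z' u x) then 1 / E.qq z z' (E.J z z' u x) else 0) ∧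
        (if e.2.2 z' = some (E.J z z' u x) then 1 / E.qq z z' (E.J z z' u x) else 0) ≤
          2 * (E.NN : ℝ) + 2 := by
      intro z' _
      split_ifs
      · exact ⟨by linarith [one_le_inv_qq hE z z' (E.J z z' u x)],
          inv_qq_le hE z z' (E.J z z' u x)⟩
      · exact ⟨le_rfl, by positivity⟩
    refine ⟨sum_nonneg fun z' hz' => (h1 z' hz').1, ?_⟩
    refine (sum_le_card_nsmul _ _ _ fun z' hz' => (h1 z' hz').2).trans ?_
    rw [nsmul_eq_mul]
    have h2 : ((E.prt u x z e.2.1).card : ℝ) ≤ 1 := by exact_mod_cast prt_card hE h z e.2.1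
    have h3 : 0 ≤ 2 * (E.NN : ℝ) + 2 := by positivity
    nlinarith
  · exact ⟨le_rfl, by positivity⟩

/-- A won lottery is a hit. -/
theorem won_le_hit {u x : V} (h : E.act u x) (z : V) (e : E.Pick) :
    E.won u x z e ≤ (2 * E.NN + 2) * E.hit u x z e := by
  by_cases hc : E.hc u x z e.2.1
  · have h1 := (won_le hE h z e).2
    have h2 : (1 : ℝ) ≤ E.hit u x z e := by
      unfold hit
      rw [if_pos hc]
      push_cast
      have : (0 : ℝ) ≤ ((if E.hc u x z e.1 then 1 else 0 : ℕ) : ℝ) := by positivity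
      push_cast at this
      linarith
    have h3 : 0 ≤ 2 * (E.NN : ℝ) + 2 := by positivity
    nlinarith
  · unfold won
    rw [if_neg hc]
    positivity

theorem g_abs {u x : V} (h : E.act u x) (z : V) (e : E.Pick) :
    |E.g u x z e| ≤ E.th * E.hit u x z e := by
  have h1 := (won_le hE h z e).1
  have h2 := won_le_hit hE h z e
  have h3 : (E.ev u x z e : ℝ) ≤ E.hit u x z e := by exact_mod_cast ev_le_hit hE h z e
  have h4 : (0 : ℝ) ≤ E.ev u x z e := by positivity
  have h5 : (0 : ℝ) ≤ E.hit u x z e := by positivity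
  have hN := hE.prt_ok.dat.NN_le
  have hth := OData.th_ge hE.prt_ok.dat
  unfold g
  rw [abs_le]
  constructor
  · nlinarith
  · nlinarith

theorem psi_le {u x : V} (h : E.act u x) (z : V) (e : E.Pick) :
    0 ≤ E.psi u x z e ∧ E.psi u x z e ≤ E.th ^ 2 * E.hit u x z e := by
  have hN := hE.prt_ok.dat.NN_le
  have hth := OData.th_ge hE.prt_ok.dat
  by_cases hc : E.hc u x z e.2.1
  · have h2 : (1 : ℝ) ≤ E.hit u x z e := by
      unfold hit
      rw [if_pos hc]
      push_cast
      have : (0 : ℝ) ≤ ((if E.hc u x z e.1 then 1 else 0 : ℕ) : ℝ) := by positivity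
      push_cast at this
      linarith
    have h0 : ∀ z', 0 ≤ 1 / E.qq z z' (E.J z z' u x) *
        Real.log (1 / E.qq z z' (E.J z z' u x)) ∧
        1 / E.qq z z' (E.J z z' u x) * Real.log (1 / E.qq z z' (E.J z z' u x)) ≤
          E.th ^ 2 := by
      intro z'
      have h3 := one_le_inv_qq hE z z' (E.J z z' u x)
      have h4 := inv_qq_le hE z z' (E.J z z' u x)
      have h5 := Real.log_nonneg h3
      have h6 := Real.log_le_self (x := 1 / E.qq z z' (E.J z z' u x)) (by linarith)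
      refine ⟨mul_nonneg (by linarith) h5, ?_⟩
      calc 1 / E.qq z z' (E.J z z' u x) * Real.log (1 / E.qq z z' (E.J z z' u x)) ≤
          E.th * E.th := mul_le_mul (by linarith) (by linarith) h5 (by linarith)
        _ = E.th ^ 2 := by ring
    have h1 : ∀ z' ∈ E.prt u x z e.2.1,
        0 ≤ (if e.2.2 z' = some (E.J z z' u x) then
          1 / E.qq z z' (E.J z z' u x) * Real.log (1 / E.qq z z' (E.J z z' u x)) else 0) ∧
        (if e.2.2 z' = some (E.J z z' u x) then
          1 / E.qq z z' (E.J z z' u x) * Real.log (1 / E.qq z z' (E.J z z' u x)) else 0) ≤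
          E.th ^ 2 := by
      intro z' _
      split_ifs
      · exact h0 z'
      · exact ⟨le_rfl, by positivity⟩
    unfold psi
    rw [if_pos hc]
    refine ⟨sum_nonneg fun z' hz' => (h1 z' hz').1, ?_⟩
    refine (sum_le_card_nsmul _ _ _ fun z' hz' => (h1 z' hz').2).trans ?_
    rw [nsmul_eq_mul]
    have h7 : ((E.prt u x z e.2.1).card : ℝ) ≤ 1 := by exact_mod_cast prt_card hE h z e.2.1
    have h8 : 0 ≤ E.th ^ 2 := by positivity
    nlinarith
  · unfold psi
    rw [if_neg hc]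
    exact ⟨le_rfl, by positivity⟩

omit hE in
/-- Coordinates on which the pair depends. -/
theorem hc_mem' {u x z : V} {c : Fin E.k} (h : E.hc u x z c) : z ∈ E.N x ∧ z ∈ E.N u := by
  have h1 := h.1
  unfold OPart.A OData.cj at h1
  rw [mem_filter, OData.mem_cN] at h1
  exact ⟨h1.1.2, h1.1.1⟩

/-- Coordinates on which the pair depends. -/
theorem hc_mem {u x z : V} {c : Fin E.k} (h : E.hc u x z c) : z ∈ E.N x ∧ z ∈ E.N u :=
  hc_mem' h

end

end ORd

end

end Pool.Agent.AcyK
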