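import Pool.Agent.AcyK.OStat
import Pool.Agent.AcyK.OBas

/-! # The outer process (project MP_af9dfb_K): extents (row OX) -/

set_option autoImplicit false
set_option linter.unusedSectionVars false

namespace Pool.Agent.AcyK

open Finset
open Pool.Agent.Acy (IsPM wt Ex Pr mean)
open scoped Classical

universe u v w

section

/-- Union bound for a covered set. -/
theorem card_le_cover {α : Type u} {β : Type v} (S : Finset α) (Z : Finset β)
    (P : β → α → Prop) {B : ℝ} (hcov : ∀ a ∈ S, ∃ b ∈ Z, P b a)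
    (hB : ∀ b ∈ Z, ∀ S' ⊆ S, (∀ a ∈ S', P b a) → (S'.card : ℝ) ≤ B) :
    (S.card : ℝ) ≤ Z.card * B := by
  have h1 : S ⊆ Z.biUnion fun b => S.filter (P b) := by
    intro a ha
    obtain ⟨b, hb, hP⟩ := hcov a ha
    exact mem_biUnion.2 ⟨b, hb, mem_filter.2 ⟨ha, hP⟩⟩
  have h2 : (S.card : ℝ) ≤ ∑ b ∈ Z, ((S.filter (P b)).card : ℝ) := by
    exact_mod_cast (card_le_card h1).trans card_biUnion_le
  refine h2.trans ?_
  have := Finset.sum_le_card_nsmul Z (fun b => ((S.filter (P b)).card : ℝ)) B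
    fun b hb => hB b hb _ (filter_subset _ _) fun a ha => (mem_filter.1 ha).2
  rwa [nsmul_eq_mul] at this

variable {V : Type u} [Fintype V] [DecidableEq V]

namespace ORd

variable {E : ORd V} {C : V → Option (Fin E.k × ℕ)}

theorem mem_A {u x z : V} : z ∈ E.A u x ↔ (z ∈ E.N u ∧ z ∈ E.N x) ∧ E.lv z = E.j := by
  unfold OPart.A OData.cj
  rw [mem_filter, OData.mem_cN]

theorem A_comm' (u x : V) : E.A u x = E.A x u := by
  ext z
  rw [mem_A, mem_A, and_comm (a := z ∈ E.N u)]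

theorem hc_comm {u x z : V} {c : Fin E.k} : E.hc u x z c ↔ E.hc x u z c := by
  unfold hc
  rw [A_comm']

section
variable (hE : E.Ok C)
include hE

theorem ox_m : (E.m : ℝ) ≤ E.T ^ 150 := OData.mM hE.prt_ok.dat hE.m_lt.le

theorem ox_col (v : V) (c : Fin E.k) :
    (((E.N v).filter fun z => E.lv z = E.j ∧ hasCol E.col z c).card : ℝ) ≤ E.T ^ 154 := by
  have h1 := hE.inv.e0 v c
  have h2 := ox_m hE
  have hT : 0 ≤ E.T := (OData.T0 hE.prt_ok.dat).le
  refine h1.trans ?_
  calc (E.m : ℝ) * E.T ^ 4 ≤ E.T ^ 150 * E.T ^ 4 :=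
        mul_le_mul_of_nonneg_right h2 (pow_nonneg hT _)
    _ = E.T ^ 154 := by rw [← pow_add]

theorem ext1 {x z : V} {c : Fin E.k} (hx : E.j < E.lv x) :
    ((univ.filter fun u => E.site u x ∧ E.hc u x z c).card : ℝ) ≤ E.T ^ 1757 := by
  have hT : 0 ≤ E.T := (OData.T0 hE.prt_ok.dat).le
  have key := card_le_cover (univ.filter fun u => E.site u x ∧ E.hc u x z c)
    ((E.N x).filter fun z' => E.lv z' = E.j ∧ hasCol E.col z' c)
    (fun z' u => z' ∈ E.N u) (B := E.T ^ 1603) ?_ ?_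
  · refine key.trans ?_
    calc (((E.N x).filter fun z' => E.lv z' = E.j ∧ hasCol E.col z' c).card : ℝ) * E.T ^ 1603
        ≤ E.T ^ 154 * E.T ^ 1603 :=
          mul_le_mul_of_nonneg_right (ox_col hE x c) (pow_nonneg hT _)
      _ = E.T ^ 1757 := by rw [← pow_add]
  · intro u hu
    rw [mem_filter] at hu
    obtain ⟨_, hs, hzA, hzL, hp, z', hz', hc'⟩ := hu
    rw [mem_A] at hz'
    exact ⟨z', mem_filter.2 ⟨hz'.1.2, hz'.2, hc'⟩, hz'.1.1⟩
  · intro z' hz' S' hS' hP'
    rw [mem_filter] at hz'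
    rcases S'.eq_empty_or_nonempty with h0 | ⟨u0, hu0⟩
    · rw [h0, card_empty, Nat.cast_zero]
      exact pow_nonneg hT _
    · obtain ⟨_, hs, hzA, hzL, hp, _⟩ := mem_filter.1 (hS' hu0)
      rw [mem_A] at hzA
      have hcod := (sep' hE hzL hp hz'.2.2 hz'.2.1 hzA.2).2.2.1
      refine le_trans ?_ (OData.both_card hE.prt_ok.dat hcod x)
      rw [Nat.cast_le]
      apply card_le_card
      intro u hu
      obtain ⟨_, hs', hzA', _⟩ := mem_filter.1 (hS' hu)
      rw [mem_A] at hzA'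
      exact mem_filter.2 ⟨mem_univ _, hs'.1.2.1, hzA'.1.1, hP' u hu⟩

theorem ox_am {u x : V} (h : E.rel u x) : E.cod u x ≤ E.T ^ 2401 :=
  h.2.2.2.2.trans hE.prt_ok.dat.am_hi

theorem ox_f {x z : V} {c : Fin E.k} :
    ((univ.filter fun f : V × V => f.1 ∈ E.N x ∧ E.j < E.lv f.1 ∧ E.rel f.1 f.2 ∧
      E.hc f.1 f.2 z c).card : ℝ) ≤ E.T ^ 5357 := by
  have hT : 0 ≤ E.T := (OData.T0 hE.prt_ok.dat).le
  have key := card_le_cover (univ.filter fun f : V × V => f.1 ∈ E.N x ∧ E.j < E.lv f.1 ∧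
      E.rel f.1 f.2 ∧ E.hc f.1 f.2 z c) (E.N x)
    (fun a f => f.1 = a) (B := E.T ^ 1757) ?_ ?_
  · refine key.trans ?_
    calc ((E.N x).card : ℝ) * E.T ^ 1757 ≤ E.T ^ 3600 * E.T ^ 1757 :=
          mul_le_mul_of_nonneg_right (hE.prt_ok.dat.deg x) (pow_nonneg hT _)
      _ = E.T ^ 5357 := by rw [← pow_add]
  · intro f hf
    rw [mem_filter] at hf
    exact ⟨f.1, hf.2.1, rfl⟩
  · intro a ha S' hS' hP'
    by_cases hj : E.j < E.lv a
    · refine le_trans ?_ (ext1 hE (x := a) (z := z) (c := c) hj)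
      rw [Nat.cast_le]
      apply card_le_card_of_injOn (fun f : V × V => f.2)
      · intro f hf
        rw [mem_coe] at hf
        obtain ⟨_, h1, h2, h3, h4⟩ := mem_filter.1 (hS' hf)
        have h5 := hP' f hf
        subst h5
        rw [mem_coe, mem_filter]
        refine ⟨mem_univ _, ⟨OData.rel_symm hE.prt_ok.dat h3, ?_⟩, hc_comm.1 h4⟩
        show E.j < E.lv f.2
        rw [← h3.2.1]
        exact h2
      · intro f hf g hg hfg
        rw [mem_coe] at hf hg
        exact Prod.ext ((hP' f hf).trans (hP' g hg).symm) hfg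
    · have : S' = ∅ := by
        rw [eq_empty_iff_forall_notMem]
        intro f hf
        have h1 := (mem_filter.1 (hS' hf)).2.2.1
        rw [hP' f hf] at h1
        exact hj h1
      rw [this, card_empty, Nat.cast_zero]
      exact pow_nonneg hT _

theorem ext2 {x z : V} {c : Fin E.k} (hx : E.j < E.lv x) :
    ∑ u, (if E.site u x then (((E.prs (E.j + 1) u x).filter fun f => E.rel f.1 f.2 ∧
      E.hc f.1 f.2 z c).card : ℝ) else 0) ≤ E.T ^ 6960 := by
  have hT : 0 ≤ E.T := (OData.T0 hE.prt_ok.dat).le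
  have h1 : ∀ u, (if E.site u x then (((E.prs (E.j + 1) u x).filter fun f => E.rel f.1 f.2 ∧
      E.hc f.1 f.2 z c).card : ℝ) else 0) ≤
      ∑ f ∈ univ.filter (fun f : V × V => f.1 ∈ E.N x ∧ E.j < E.lv f.1 ∧ E.rel f.1 f.2 ∧
      E.hc f.1 f.2 z c), (if E.lv u = E.lv x ∧ f.1 ∈ E.N u ∧ f.2 ∈ E.N u then (1 : ℝ) else 0) := by
    intro u
    split_ifs with hs
    · rw [← Finset.sum_filter, sum_const, nsmul_eq_mul, mul_one, Nat.cast_le]
      apply card_le_card
      intro f hf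
      rw [mem_filter] at hf
      obtain ⟨hf, hr, hh⟩ := hf
      unfold OData.prs at hf
      rw [mem_filter, mem_product, OData.mem_cN, OData.mem_cN] at hf
      obtain ⟨⟨⟨a1, a2⟩, b1, b2⟩, hne, hl, hj⟩ := hf
      rw [mem_filter, mem_filter]
      exact ⟨⟨mem_univ _, a2, hj, hr, hh⟩, hs.1.2.1, a1, b1⟩
    · apply sum_nonneg
      intro f _
      split_ifs <;> norm_num
  refine (sum_le_sum fun u _ => h1 u).trans ?_
  rw [sum_comm]
  have h2 : ∀ f ∈ univ.filter (fun f : V × V => f.1 ∈ E.N x ∧ E.j < E.lv f.1 ∧ E.rel f.1 f.2 ∧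
      E.hc f.1 f.2 z c), ∑ u, (if E.lv u = E.lv x ∧ f.1 ∈ E.N u ∧ f.2 ∈ E.N u then (1 : ℝ)
        else 0) ≤ E.T ^ 1603 := by
    intro f hf
    rw [mem_filter] at hf
    rw [← Finset.sum_filter, sum_const, nsmul_eq_mul, mul_one]
    exact OData.both_card hE.prt_ok.dat (ox_am hE hf.2.2.2.1) x
  refine (Finset.sum_le_card_nsmul _ _ _ h2).trans ?_
  rw [nsmul_eq_mul]
  calc _ ≤ E.T ^ 5357 * E.T ^ 1603 :=
        mul_le_mul_of_nonneg_right (ox_f hE) (pow_nonneg hT _)
    _ = E.T ^ 6960 := by rw [← pow_add]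

/-- A sum over the related pairs. -/
theorem ox_sum_site {x : V} {F : V → ℝ} {B : ℝ} (hB : 0 ≤ B)
    (h : ∀ u, E.rel u x → F u ≤ B) :
    ∑ u, (if E.site u x then F u else 0) ≤ E.T ^ 4016 * B := by
  have h1 : ∀ u, (if E.site u x then F u else 0) ≤ if E.rel u x then B else 0 := by
    intro u
    by_cases hr : E.rel u x
    · rw [if_pos hr]
      split_ifs
      · exact h u hr
      · exact hB
    · rw [if_neg hr, if_neg fun hs => hr hs.1]
  refine (sum_le_sum fun u _ => h1 u).trans ?_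
  rw [← Finset.sum_filter, sum_const, nsmul_eq_mul]
  exact mul_le_mul_of_nonneg_right (OData.rel_card hE.prt_ok.dat x) hB

/-- Sum of the hazards. -/
theorem sumH1 {x : V} (hx : E.j < E.lv x) : ∑ u, (if E.site u x then E.H u x else 0) ≤
    E.T ^ 3093 := by
  have hT : 0 < E.T := OData.T0 hE.prt_ok.dat
  refine (ox_sum_site hE (B := 1 / E.T ^ 923) (by positivity) fun u hr => H_le hE hr).trans
    (le_of_eq ?_)
  rw [show (4016 : ℕ) = 3093 + 923 by norm_num, pow_add]
  field_simp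

theorem sumH2 {x : V} (hx : E.j < E.lv x) : ∑ u, (if E.site u x then
    ∑ f ∈ E.prs (E.j + 1) u x, (if E.rel f.1 f.2 then E.H f.1 f.2 else 0) else 0) ≤
      E.T ^ 7097 := by
  have hT : 0 < E.T := OData.T0 hE.prt_ok.dat
  have h1 : ∀ u, E.rel u x → ∑ f ∈ E.prs (E.j + 1) u x,
      (if E.rel f.1 f.2 then E.H f.1 f.2 else 0) ≤ E.T ^ 3081 := by
    intro u hr
    have h2 : ∀ f ∈ E.prs (E.j + 1) u x, (if E.rel f.1 f.2 then E.H f.1 f.2 else 0) ≤
        1 / E.T ^ 923 := by
      intro f _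
      split_ifs with h
      · exact H_le hE h
      · positivity
    refine (Finset.sum_le_card_nsmul _ _ _ h2).trans ?_
    rw [nsmul_eq_mul]
    have h3 := OData.prs_card hE.prt_ok.dat hr.2.2.2.2 (E.j + 1)
    calc ((E.prs (E.j + 1) u x).card : ℝ) * (1 / E.T ^ 923) ≤ E.T ^ 4004 * (1 / E.T ^ 923) :=
          mul_le_mul_of_nonneg_right h3 (by positivity)
      _ = E.T ^ 3081 := by
          rw [show (4004 : ℕ) = 3081 + 923 by norm_num, pow_add]
          field_simp
  refine (ox_sum_site hE (B := E.T ^ 3081) (by positivity) h1).trans (le_of_eq ?_)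
  rw [← pow_add]

/-- One pair of pairs: the picks that are dangerous for both. -/
theorem ox_both {u y y' : V} (ha : E.act u y) (ha' : E.act u y') :
    ∑ z, ∑ c, (if E.hc u y z c ∧ E.hc u y' z c then E.p z c else 0) ≤
      2 * E.T / E.k * ((∑ z ∈ E.L.filter (fun z => z ∈ E.N y ∧ E.lv z = E.j),
        ∑ w ∈ E.A y y', (if E.cod z w ≤ E.T ^ 2401 then
          (if E.lv u = E.lv y ∧ z ∈ E.N u ∧ w ∈ E.N u then (1 : ℝ) else 0) else 0)) +
        E.T ^ 1626) := by
  have hT : 0 < E.T := OData.T0 hE.prt_ok.dat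
  have hk : (0 : ℝ) < E.k := OData.k_pos hE.prt_ok.dat
  have hq : 0 ≤ 2 * E.T / E.k := by positivity
  have hone : ∀ w : V, (univ.filter fun c => hasCol E.col w c).card ≤ 1 := by
    intro w
    rw [card_le_one]
    intro c hc c' hc'
    rw [mem_filter] at hc hc'
    obtain ⟨_, r, h1⟩ := hc
    obtain ⟨_, r', h2⟩ := hc'
    rw [h1] at h2
    exact (Prod.mk.inj (Option.some.inj h2)).1
  -- one vertex
  have hz : ∀ z, ∑ c, (if E.hc u y z c ∧ E.hc u y' z c then E.p z c else 0) ≤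
      if z ∈ E.A u y ∩ E.L then 2 * E.T / E.k * ((∑ w ∈ E.A y y',
        (if E.cod z w ≤ E.T ^ 2401 then
          (if E.lv u = E.lv y ∧ z ∈ E.N u ∧ w ∈ E.N u then (1 : ℝ) else 0) else 0)) +
            E.coin E.col u y u y') else 0 := by
    intro z
    split_ifs with hzA
    · rw [mem_inter] at hzA
      have h1 : ∑ c, (if E.hc u y z c ∧ E.hc u y' z c then E.p z c else 0) ≤
          2 * E.T / E.k * ((univ.filter fun c => E.hc u y z c ∧ E.hc u y' z c).card : ℝ) := by
        rw [← Finset.sum_filter]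
        refine (Finset.sum_le_card_nsmul _ _ _ fun c _ => hE.p_le z c).trans ?_
        rw [nsmul_eq_mul, mul_comm]
      refine h1.trans (mul_le_mul_of_nonneg_left ?_ hq)
      have h2 : (univ.filter fun c => E.hc u y z c ∧ E.hc u y' z c) ⊆
          ((E.A y y').filter fun w => E.cod z w ≤ E.T ^ 2401 ∧
            (E.lv u = E.lv y ∧ z ∈ E.N u ∧ w ∈ E.N u)).biUnion
              (fun w => univ.filter fun c => hasCol E.col w c) ∪
          ((E.A u y ×ˢ E.A u y').filter fun e => e.1 ≠ e.2 ∧ sameCol E.col e.1 e.2).biUnion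
            (fun e => univ.filter fun c => hasCol E.col e.1 c) := by
        intro c hc
        rw [mem_filter] at hc
        obtain ⟨_, ⟨hz1, hz2, hp, z1, hz1A, hz1c⟩, ⟨_, _, _, z2, hz2A, hz2c⟩⟩ := hc
        rw [mem_union]
        by_cases h12 : z1 = z2
        · left
          subst h12
          rw [mem_A] at hz1A hz2A
          rw [mem_biUnion]
          refine ⟨z1, mem_filter.2 ⟨mem_A.2 ⟨⟨hz1A.1.2, hz2A.1.2⟩, hz1A.2⟩, ?_, ha.1.1.2.1, ?_,
            hz1A.1.1⟩, mem_filter.2 ⟨mem_univ _, hz1c⟩⟩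
          · exact (sep' hE hz2 hp hz1c hz1A.2 (mem_A.1 hz1).2).2.2.1
          · exact (mem_A.1 hz1).1.1
        · right
          rw [mem_biUnion]
          exact ⟨(z1, z2), mem_filter.2 ⟨mem_product.2 ⟨hz1A, hz2A⟩, h12, c, hz1c, hz2c⟩,
            mem_filter.2 ⟨mem_univ _, hz1c⟩⟩
      have h3 : ((univ.filter fun c => E.hc u y z c ∧ E.hc u y' z c).card : ℝ) ≤
          (((E.A y y').filter fun w => E.cod z w ≤ E.T ^ 2401 ∧
            (E.lv u = E.lv y ∧ z ∈ E.N u ∧ w ∈ E.N u)).card : ℝ) +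
          (((E.A u y ×ˢ E.A u y').filter fun e => e.1 ≠ e.2 ∧
            sameCol E.col e.1 e.2).card : ℝ) := by
        rw [← Nat.cast_add, Nat.cast_le]
        refine (card_le_card h2).trans ((card_union_le _ _).trans ?_)
        refine Nat.add_le_add ?_ ?_
        · refine (card_biUnion_le_card_mul _ _ 1 fun w _ => hone w).trans ?_
          rw [mul_one]
        · refine (card_biUnion_le_card_mul _ _ 1 fun e _ => hone e.1).trans ?_
          rw [mul_one]
      refine h3.trans (le_of_eq ?_)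
      congr 1
      rw [← Finset.sum_filter, ← Finset.sum_filter, filter_filter, sum_const, nsmul_eq_mul,
        mul_one]
    · apply le_of_eq
      apply sum_eq_zero
      intro c _
      rw [if_neg]
      rintro ⟨⟨h1, h2, _⟩, _⟩
      exact hzA (mem_inter.2 ⟨h1, h2⟩)
  refine (sum_le_sum fun z _ => hz z).trans ?_
  rw [← Finset.sum_filter, ← mul_sum, sum_add_distrib]
  refine mul_le_mul_of_nonneg_left (add_le_add ?_ ?_) hq
  · apply sum_le_sum_of_subset_of_nonneg
    · intro z hz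
      rw [mem_filter, mem_inter, mem_A] at hz
      exact mem_filter.2 ⟨hz.2.2, hz.2.1.1.2, hz.2.1.2⟩
    · intro z _ _
      apply sum_nonneg
      intro w _
      split_ifs <;> norm_num
  · rw [sum_const, nsmul_eq_mul]
    have h1 : ((univ.filter fun z => z ∈ E.A u y ∩ E.L).card : ℝ) ≤ E.T ^ 1471 := by
      have : (univ.filter fun z => z ∈ E.A u y ∩ E.L) = E.A u y ∩ E.L := by
        ext z
        simp
      rw [this]
      exact hE.LA u y ha.1.1.2.2.2.2
    have h2 : E.coin E.col u y u y' ≤ E.T ^ 155 := by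
      refine (hE.inv.e5 u y u y' ha.1 ha'.1 ha.2.1 ha'.2.1 ha.2.2 ha'.2.2 (Or.inr rfl)).trans ?_
      calc (E.m : ℝ) * E.T ^ 5 ≤ E.T ^ 150 * E.T ^ 5 :=
            mul_le_mul_of_nonneg_right (ox_m hE) (pow_nonneg hT.le _)
        _ = E.T ^ 155 := by rw [← pow_add]
    have h3 : 0 ≤ E.coin E.col u y u y' := Nat.cast_nonneg _
    calc _ ≤ E.T ^ 1471 * E.T ^ 155 := mul_le_mul h1 h2 h3 (pow_nonneg hT.le _)
      _ = E.T ^ 1626 := by rw [← pow_add]

/-- For `c3`: picks that are dangerous for both pairs. -/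
theorem sumBoth {y y' : V} (hy : E.j < E.lv y) (hyy : E.lv y = E.lv y') (hne : y ≠ y') :
    ∑ u, (if E.act u y ∧ E.act u y' then ∑ z, ∑ c, (if E.hc u y z c ∧ E.hc u y' z c then
      E.p z c else 0) else 0) ≤ 2 * (E.A y y').card * E.T ^ 273 + E.T ^ 1645 := by
  have hT : 0 < E.T := OData.T0 hE.prt_ok.dat
  have hk : (0 : ℝ) < E.k := OData.k_pos hE.prt_ok.dat
  have hq : 0 ≤ 2 * E.T / E.k := by positivity
  have hq2 : 2 * E.T / E.k ≤ 2 / E.T ^ 3998 := by
    rw [div_le_div_iff₀ hk (by positivity)]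
    calc 2 * E.T * E.T ^ 3998 = 2 * E.T ^ 3999 := by
          rw [mul_assoc, ← pow_succ']
      _ ≤ 2 * (E.k : ℝ) := mul_le_mul_of_nonneg_left hE.prt_ok.dat.k_lo (by norm_num)
  set G : V → ℝ := fun u => ∑ z ∈ E.L.filter (fun z => z ∈ E.N y ∧ E.lv z = E.j),
        ∑ w ∈ E.A y y', (if E.cod z w ≤ E.T ^ 2401 then
          (if E.lv u = E.lv y ∧ z ∈ E.N u ∧ w ∈ E.N u then (1 : ℝ) else 0) else 0) with hG
  have hG0 : ∀ u, 0 ≤ G u := by
    intro u
    apply sum_nonneg
    intro z _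
    apply sum_nonneg
    intro w _
    split_ifs <;> norm_num
  have h1 : ∀ u, (if E.act u y ∧ E.act u y' then ∑ z, ∑ c,
      (if E.hc u y z c ∧ E.hc u y' z c then E.p z c else 0) else 0) ≤
      2 * E.T / E.k * G u + (if E.rel u y then 2 * E.T / E.k * E.T ^ 1626 else 0) := by
    intro u
    split_ifs with ha hr hr
    · rw [← mul_add]
      exact ox_both hE ha.1 ha.2
    · exact absurd ha.1.1.1 hr
    · have := mul_nonneg hq (hG0 u)
      positivity
    · have := mul_nonneg hq (hG0 u)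
      linarith
  refine (sum_le_sum fun u _ => h1 u).trans ?_
  rw [sum_add_distrib, ← mul_sum]
  have h2 : ∑ u, G u ≤ E.T ^ 2668 * ((E.A y y').card * E.T ^ 1603) := by
    rw [hG, sum_comm]
    have h3 : ∀ z ∈ E.L.filter (fun z => z ∈ E.N y ∧ E.lv z = E.j),
        ∑ u, ∑ w ∈ E.A y y', (if E.cod z w ≤ E.T ^ 2401 then
          (if E.lv u = E.lv y ∧ z ∈ E.N u ∧ w ∈ E.N u then (1 : ℝ) else 0) else 0) ≤
          (E.A y y').card * E.T ^ 1603 := by
      intro z _
      rw [sum_comm]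
      have h4 : ∀ w ∈ E.A y y', ∑ u, (if E.cod z w ≤ E.T ^ 2401 then
          (if E.lv u = E.lv y ∧ z ∈ E.N u ∧ w ∈ E.N u then (1 : ℝ) else 0) else 0) ≤
          E.T ^ 1603 := by
        intro w _
        by_cases hc : E.cod z w ≤ E.T ^ 2401
        · simp only [if_pos hc]
          rw [← Finset.sum_filter, sum_const, nsmul_eq_mul, mul_one]
          exact OData.both_card hE.prt_ok.dat hc y
        · simp only [if_neg hc, sum_const_zero]
          positivity
      refine (Finset.sum_le_card_nsmul _ _ _ h4).trans ?_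
      rw [nsmul_eq_mul]
    refine (Finset.sum_le_card_nsmul _ _ _ h3).trans ?_
    rw [nsmul_eq_mul]
    exact mul_le_mul_of_nonneg_right (hE.LN y) (by positivity)
  have h5 : ∑ u, (if E.rel u y then 2 * E.T / E.k * E.T ^ 1626 else 0) ≤
      E.T ^ 4016 * (2 * E.T / E.k * E.T ^ 1626) := by
    rw [← Finset.sum_filter, sum_const, nsmul_eq_mul]
    exact mul_le_mul_of_nonneg_right (OData.rel_card hE.prt_ok.dat y) (by positivity)
  have hA0 : (0 : ℝ) ≤ (E.A y y').card := Nat.cast_nonneg _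
  have h6 : 2 * E.T / E.k * ∑ u, G u ≤ 2 * (E.A y y').card * E.T ^ 273 := by
    calc 2 * E.T / E.k * ∑ u, G u
        ≤ 2 / E.T ^ 3998 * (E.T ^ 2668 * ((E.A y y').card * E.T ^ 1603)) :=
          mul_le_mul hq2 h2 (sum_nonneg fun u _ => hG0 u) (by positivity)
      _ = 2 * (E.A y y').card * (E.T ^ 2668 * E.T ^ 1603 / E.T ^ 3998) := by ring
      _ = 2 * (E.A y y').card * E.T ^ 273 := by
          have h8 : E.T ^ 2668 * E.T ^ 1603 / E.T ^ 3998 = E.T ^ 273 := by
            rw [div_eq_iff (pow_pos hT _).ne', ← pow_add, ← pow_add]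
          rw [h8]
  have h7 : E.T ^ 4016 * (2 * E.T / E.k * E.T ^ 1626) ≤ E.T ^ 1645 := by
    have hT2 : 2 ≤ E.T := by
      have := hE.prt_ok.dat.big.big
      norm_num at this
      linarith
    calc E.T ^ 4016 * (2 * E.T / E.k * E.T ^ 1626)
        ≤ E.T ^ 4016 * (2 / E.T ^ 3998 * E.T ^ 1626) :=
          mul_le_mul_of_nonneg_left (mul_le_mul_of_nonneg_right hq2 (by positivity))
            (by positivity)
      _ = 2 * (E.T ^ 4016 * E.T ^ 1626 / E.T ^ 3998) := by ring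
      _ = 2 * E.T ^ 1644 := by
          have h8 : E.T ^ 4016 * E.T ^ 1626 / E.T ^ 3998 = E.T ^ 1644 := by
            rw [div_eq_iff (pow_pos hT _).ne', ← pow_add, ← pow_add]
          rw [h8]
      _ ≤ E.T * E.T ^ 1644 := mul_le_mul_of_nonneg_right hT2 (by positivity)
      _ = E.T ^ 1645 := by rw [← pow_succ']
  linarith

end

end ORd

end

end Pool.Agent.AcyK
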