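import Pool.Agent.AcyK.ODefs

/-! # The outer process (project MP_af9dfb_K): row OL, the law of the coordinates -/

set_option autoImplicit false
set_option linter.unusedSectionVars false

namespace Pool.Agent.AcyK

open Finset
open Pool.Agent.Acy (IsPM wt Ex Pr mean)
open scoped Classical

universe u

section

variable {V : Type u} [Fintype V] [DecidableEq V]

namespace ORd

/-! ### laws on a product of three factors -/

section law3

variable {α β : Type*} [Fintype α] [Fintype β]

/-- expectation of a function of the first two components -/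
theorem Ex_law3 {μ : V → α → ℝ} {ν : V → β → ℝ} (hν : IsPM ν) (f : (V → α) → (V → α) → ℝ) :
    Ex (prodLaw μ fun y (e : α × β) => μ y e.1 * ν y e.2)
      (fun ω => f (fun y => (ω y).1) (fun y => (ω y).2.1)) =
      ∑ ω₁, ∑ ω₂, wt μ ω₁ * wt μ ω₂ * f ω₁ ω₂ := by
  unfold Ex
  let e : (V → α × (α × β)) ≃ (V → α) × ((V → α) × (V → β)) :=
    { toFun := fun ω => (fun y => (ω y).1, (fun y => (ω y).2.1, fun y => (ω y).2.2))
      invFun := fun ω y => (ω.1 y, (ω.2.1 y, ω.2.2 y))
      left_inv := fun ω => rfl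
      right_inv := fun ω => rfl }
  have h1 : ∀ ω : V → α × (α × β), wt (prodLaw μ fun y (e : α × β) => μ y e.1 * ν y e.2) ω *
      f (fun y => (ω y).1) (fun y => (ω y).2.1) =
      (fun q : (V → α) × ((V → α) × (V → β)) =>
        wt μ q.1 * wt μ q.2.1 * f q.1 q.2.1 * wt ν q.2.2) (e ω) := by
    intro ω
    show _ = wt μ (fun y => (ω y).1) * wt μ (fun y => (ω y).2.1) *
      f (fun y => (ω y).1) (fun y => (ω y).2.1) * wt ν (fun y => (ω y).2.2)
    have h2 : wt (prodLaw μ fun y (e : α × β) => μ y e.1 * ν y e.2) ω =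
        wt μ (fun y => (ω y).1) * wt μ (fun y => (ω y).2.1) * wt ν (fun y => (ω y).2.2) := by
      unfold wt prodLaw
      rw [← Finset.prod_mul_distrib, ← Finset.prod_mul_distrib]
      exact Finset.prod_congr rfl fun y _ => by ring
    rw [h2]
    ring
  rw [Finset.sum_congr rfl fun ω _ => h1 ω,
    e.sum_comp (fun q : (V → α) × ((V → α) × (V → β)) =>
      wt μ q.1 * wt μ q.2.1 * f q.1 q.2.1 * wt ν q.2.2),
    Fintype.sum_prod_type]
  refine Finset.sum_congr rfl fun ω₁ _ => ?_
  rw [Fintype.sum_prod_type]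
  refine Finset.sum_congr rfl fun ω₂ _ => ?_
  simp only
  rw [← Finset.mul_sum, Pool.Agent.Acy.sum_wt hν, mul_one]

/-- expectation over `V × Bool` -/
theorem Ex_bool {μ : V → α → ℝ} (f : (V × Bool → α) → ℝ) :
    Ex (fun y : V × Bool => μ y.1) f =
      ∑ ω₁ : V → α, ∑ ω₂ : V → α, wt μ ω₁ * wt μ ω₂ * f (fun y => if y.2 then ω₁ y.1 else ω₂ y.1) := by
  unfold Ex
  let e : (V × Bool → α) ≃ (V → α) × (V → α) :=
    { toFun := fun ω => (fun y => ω (y, true), fun y => ω (y, false))
      invFun := fun ω y => if y.2 then ω.1 y.1 else ω.2 y.1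
      left_inv := fun ω => by
        funext y
        obtain ⟨y, b⟩ := y
        cases b <;> rfl
      right_inv := fun ω => rfl }
  have h1 : ∀ ω : V × Bool → α, wt (fun y : V × Bool => μ y.1) ω * f ω =
      (fun q : (V → α) × (V → α) => wt μ q.1 * wt μ q.2 *
        f (fun y => if y.2 then q.1 y.1 else q.2 y.1)) (e ω) := by
    intro ω
    have h3 : (fun y : V × Bool => if y.2 then (e ω).1 y.1 else (e ω).2 y.1) = ω :=
      e.left_inv ω
    show _ = wt μ (e ω).1 * wt μ (e ω).2 *
      f (fun y : V × Bool => if y.2 then (e ω).1 y.1 else (e ω).2 y.1)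
    rw [h3]
    congr 1
    unfold wt
    rw [Fintype.prod_prod_type, ← Finset.prod_mul_distrib]
    refine Finset.prod_congr rfl fun y _ => ?_
    rw [Fintype.prod_bool]
    rfl
  rw [Finset.sum_congr rfl fun ω _ => h1 ω,
    e.sum_comp (fun q : (V → α) × (V → α) => wt μ q.1 * wt μ q.2 *
        f (fun y => if y.2 then q.1 y.1 else q.2 y.1)),
    Fintype.sum_prod_type]

end law3

/-! ### expectations over the lotteries -/

section lot

variable {β : Type*} [Fintype β] {μ : V → β → ℝ}

/-- a function of one coordinate -/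
theorem Ex_one (h : IsPM μ) (z : V) (f : β → ℝ) :
    Ex μ (fun l => f (l z)) = ∑ b, μ z b * f b := by
  have h1 := Pool.Agent.Acy.Ex_resample h z (fun l => f (l z))
  simp only [Function.update_self] at h1
  rw [h1, Pool.Agent.Acy.Ex_const h]

/-- functions of two different coordinates -/
theorem Ex_two (h : IsPM μ) {z z' : V} (hz : z ≠ z') (f g : β → ℝ) :
    Ex μ (fun l => f (l z) * g (l z')) = (∑ b, μ z b * f b) * ∑ b, μ z' b * g b := by
  rw [← Ex_one h, ← Ex_one h]
  refine Pool.Agent.Acy.Ex_mul_of_disjoint h (S := {z}) (T := {z'}) ?_ ?_ ?_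
  · intro l l' hl
    simp only
    rw [hl z rfl]
  · intro l l' hl
    simp only
    rw [hl z' rfl]
  · exact Set.disjoint_singleton.2 hz

end lot

variable {E : ORd V} {C : V → Option (Fin E.k × ℕ)}

section
variable (hE : E.Ok C)
include hE

theorem law_qq_pos (z z' : V) (i : Fin (E.NN + 1)) : 0 < E.qq z z' i := by
  have h1 := hE.prt_ok.qq_lo z z' i
  have h2 : (0 : ℝ) < 1 / (2 * (E.NN : ℝ) + 2) := by positivity
  linarith

theorem qo_isPM (z : V) : IsPM (E.qo z) := by
  refine ⟨fun z' o => ?_, fun z' => ?_⟩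
  · cases o with
    | none =>
      have := hE.prt_ok.qq_sum z z'
      show 0 ≤ 1 - ∑ i, E.qq z z' i
      linarith
    | some i => exact (law_qq_pos hE z z' i).le
  · rw [Fintype.sum_option]
    show 1 - ∑ i, E.qq z z' i + ∑ i, E.qq z z' i = 1
    ring

theorem nu_eq (z : V) (e : Fin E.k × (V → Option (Fin (E.NN + 1)))) :
    E.nu z e = E.p z e.1 * wt (E.qo z) e.2 := rfl

theorem nu_isPM : IsPM E.nu := by
  refine ⟨fun z e => ?_, fun z => ?_⟩
  · exact mul_nonneg (hE.p_pm.nonneg z e.1) (Pool.Agent.Acy.wt_nonneg (qo_isPM hE z) e.2)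
  · rw [Fintype.sum_prod_type]
    have h1 : ∀ c, ∑ l, E.nu z (c, l) = E.p z c := by
      intro c
      have h2 : ∀ l, E.nu z (c, l) = E.p z c * wt (E.qo z) l := fun l => rfl
      rw [Finset.sum_congr rfl fun l _ => h2 l, ← Finset.mul_sum,
        Pool.Agent.Acy.sum_wt (qo_isPM hE z), mul_one]
    rw [Finset.sum_congr rfl fun c _ => h1 c, hE.p_pm.sum_one]

theorem law_isPM : IsPM E.law := prodLaw_isPM hE.p_pm (nu_isPM hE)

/-- The law of the real and virtual picks. -/
theorem Pr_picks (P : (V × Bool → Fin E.k) → Prop) :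
    Pr E.law (fun ω => P fun y => if y.2 then (ω y.1).1 else (ω y.1).2.1) =
      Pr (fun y : V × Bool => E.p y.1) P := by
  have hν : IsPM fun (z : V) (l : V → Option (Fin (E.NN + 1))) => wt (E.qo z) l :=
    ⟨fun z l => Pool.Agent.Acy.wt_nonneg (qo_isPM hE z) l,
      fun z => Pool.Agent.Acy.sum_wt (qo_isPM hE z)⟩
  unfold Pr
  rw [Ex_bool]
  have h1 := Ex_law3 (μ := E.p) hν (fun ω₁ ω₂ : V → Fin E.k =>
    if P (fun y : V × Bool => if y.2 then ω₁ y.1 else ω₂ y.1) then (1 : ℝ) else 0)
  exact h1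

/-- the mean as an iterated sum -/
theorem mean_eq (F : V → E.Pick → ℝ) (z : V) : mean E.law F z =
    ∑ c, ∑ c', E.p z c * (E.p z c' * Ex (E.qo z) fun l => F z (c, c', l)) := by
  unfold mean
  rw [Fintype.sum_prod_type]
  refine Finset.sum_congr rfl fun c _ => ?_
  rw [Fintype.sum_prod_type]
  refine Finset.sum_congr rfl fun c' _ => ?_
  unfold Ex
  rw [Finset.mul_sum, Finset.mul_sum]
  refine Finset.sum_congr rfl fun l _ => ?_
  show E.p z c * (E.p z c' * wt (E.qo z) l) * F z (c, c', l) = _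
  ring

/-- one lottery -/
theorem sum_qo (z z' : V) (j : Fin (E.NN + 1)) (f : ℝ) :
    ∑ o, E.qo z z' o * (if o = some j then f else 0) = E.qq z z' j * f := by
  rw [Finset.sum_eq_single (some j)]
  · rw [if_pos rfl]
    rfl
  · intro o _ ho
    rw [if_neg ho, mul_zero]
  · intro h
    exact absurd (mem_univ _) h

theorem Ex_won (u x z z' : V) : Ex (E.qo z) (fun l : V → Option (Fin (E.NN + 1)) =>
    if l z' = some (E.J z z' u x) then 1 / E.qq z z' (E.J z z' u x) else 0) = 1 := by
  have h1 := Ex_one (qo_isPM hE z) z' (fun o => if o = some (E.J z z' u x) then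
    1 / E.qq z z' (E.J z z' u x) else 0)
  rw [h1, sum_qo hE]
  exact mul_one_div_cancel (law_qq_pos hE z z' _).ne'

theorem Ex_psi (u x z z' : V) : Ex (E.qo z) (fun l : V → Option (Fin (E.NN + 1)) =>
    if l z' = some (E.J z z' u x) then 1 / E.qq z z' (E.J z z' u x) *
      Real.log (1 / E.qq z z' (E.J z z' u x)) else 0) =
      Real.log (1 / E.qq z z' (E.J z z' u x)) := by
  have h1 := Ex_one (qo_isPM hE z) z' (fun o => if o = some (E.J z z' u x) then
    1 / E.qq z z' (E.J z z' u x) * Real.log (1 / E.qq z z' (E.J z z' u x)) else 0)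
  rw [h1, sum_qo hE, ← mul_assoc, mul_one_div_cancel (law_qq_pos hE z z' _).ne', one_mul]

/-- hazards as sums over the dangerous colours -/
theorem law_H_eq (u x : V) : E.H u x = ∑ z, ∑ c, if E.hc u x z c then E.p z c else 0 := by
  unfold H
  rw [← Finset.sum_filter_add_sum_filter_not univ (fun z => z ∈ E.A u x ∩ E.L)]
  have h1 : ∑ z with ¬ z ∈ E.A u x ∩ E.L, ∑ c, (if E.hc u x z c then E.p z c else 0) = 0 := by
    refine Finset.sum_eq_zero fun z hz => Finset.sum_eq_zero fun c _ => ?_
    rw [Finset.mem_filter] at hz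
    rw [if_neg]
    intro h
    exact hz.2 (Finset.mem_inter.2 ⟨h.1, h.2.1⟩)
  rw [h1, add_zero]
  have h2 : (univ.filter fun z => z ∈ E.A u x ∩ E.L) = E.A u x ∩ E.L := by
    ext z
    simp
  rw [h2]
  refine Finset.sum_congr rfl fun z hz => ?_
  unfold colsOn
  rw [Finset.sum_filter]
  refine Finset.sum_congr rfl fun c _ => ?_
  rw [Finset.mem_inter] at hz
  by_cases hp : 0 < E.p z c
  · have h3 : (∃ z ∈ E.A u x, ∃ r, E.col z = some (c, r)) ↔ E.hc u x z c :=
      ⟨fun h => ⟨hz.1, hz.2, hp, h⟩, fun h => h.2.2.2⟩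
    by_cases h4 : E.hc u x z c
    · rw [if_pos h4, if_pos (h3.2 h4)]
    · rw [if_neg h4, if_neg fun h => h4 (h3.1 h)]
  · have h3 : E.p z c = 0 := le_antisymm (not_lt.1 hp) (hE.p_pm.nonneg z c)
    rw [h3]
    simp

theorem Ex_won_one (u x z z' : V) : Ex (E.qo z) (fun l : V → Option (Fin (E.NN + 1)) =>
    ((if l z' = some (E.J z z' u x) then 1 / E.qq z z' (E.J z z' u x) else 0) - 1)) = 0 := by
  rw [Pool.Agent.Acy.Ex_sub, Ex_won hE, Pool.Agent.Acy.Ex_const (qo_isPM hE z), sub_self]

/-- centred gain of the virtual pick -/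
noncomputable def cw (E : ORd V) (u x z : V) (c : Fin E.k)
    (l : V → Option (Fin (E.NN + 1))) : ℝ :=
  if E.hc u x z c then ∑ z' ∈ E.prt u x z c,
    ((if l z' = some (E.J z z' u x) then 1 / E.qq z z' (E.J z z' u x) else 0) - 1) else 0

omit hE in
theorem g_eq_cw (u x z : V) (c c' : Fin E.k) (l : V → Option (Fin (E.NN + 1))) :
    E.g u x z (c, c', l) = E.cw u x z c' l - (if E.hc u x z c then 1 else 0) := by
  unfold g won ev cw
  simp only
  by_cases h : E.hc u x z c'
  · simp only [if_pos h]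
    rw [Finset.sum_sub_distrib, Finset.sum_const, nsmul_eq_mul, mul_one]
    push_cast
    ring
  · simp only [if_neg h]
    push_cast
    ring

theorem Ex_cw (u x z : V) (c : Fin E.k) : Ex (E.qo z) (E.cw u x z c) = 0 := by
  unfold cw
  by_cases h : E.hc u x z c
  · simp only [if_pos h]
    rw [Pool.Agent.Acy.Ex_sum]
    exact Finset.sum_eq_zero fun z' _ => Ex_won_one hE u x z z'
  · simp only [if_neg h]
    exact Pool.Agent.Acy.Ex_const (qo_isPM hE z) 0

theorem mean_g (u x z : V) :
    mean E.law (E.g u x) z = -∑ c, if E.hc u x z c then E.p z c else 0 := by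
  rw [mean_eq hE]
  have h1 : ∀ c c', Ex (E.qo z) (fun l => E.g u x z (c, c', l)) =
      -(if E.hc u x z c then (1 : ℝ) else 0) := by
    intro c c'
    rw [show (fun l => E.g u x z (c, c', l)) = fun l => E.cw u x z c' l -
      (if E.hc u x z c then (1 : ℝ) else 0) from funext fun l => g_eq_cw u x z c c' l]
    have h2 : Ex (E.qo z) (fun l => E.cw u x z c' l) = 0 := Ex_cw hE u x z c'
    rw [Pool.Agent.Acy.Ex_sub, Pool.Agent.Acy.Ex_const (qo_isPM hE z), h2, zero_sub]
  rw [← Finset.sum_neg_distrib]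
  refine Finset.sum_congr rfl fun c _ => ?_
  rw [Finset.sum_congr rfl fun c' _ => by rw [h1 c c']]
  rw [← Finset.mul_sum, ← Finset.sum_mul, hE.p_pm.sum_one]
  split_ifs <;> ring

theorem sum_mean_g0 (u x : V) : ∑ z, mean E.law (E.g0 u x) z = -E.H0 u x := by
  unfold H0
  by_cases h : E.act u x
  · rw [if_pos h, law_H_eq hE, ← Finset.sum_neg_distrib]
    refine Finset.sum_congr rfl fun z _ => ?_
    rw [← mean_g hE]
    unfold mean g0
    simp only [if_pos h]
  · rw [if_neg h, neg_zero]
    refine Finset.sum_eq_zero fun z _ => ?_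
    unfold mean g0
    simp only [if_neg h, mul_zero, Finset.sum_const_zero]

theorem mean_hit (u x z : V) : mean E.law (fun z e => (E.hit u x z e : ℝ)) z =
    2 * ∑ c, if E.hc u x z c then E.p z c else 0 := by
  rw [mean_eq hE]
  have h1 : ∀ c c', Ex (E.qo z) (fun l => (E.hit u x z (c, c', l) : ℝ)) =
      (if E.hc u x z c then (1 : ℝ) else 0) + (if E.hc u x z c' then (1 : ℝ) else 0) := by
    intro c c'
    rw [show (fun l => (E.hit u x z (c, c', l) : ℝ)) = fun _ =>
      (if E.hc u x z c then (1 : ℝ) else 0) + (if E.hc u x z c' then (1 : ℝ) else 0) from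
      funext fun l => by
        unfold hit
        push_cast
        rfl]
    rw [Pool.Agent.Acy.Ex_const (qo_isPM hE z)]
  have h2 : ∀ c c', E.p z c * (E.p z c' * Ex (E.qo z) (fun l => (E.hit u x z (c, c', l) : ℝ))) =
      (if E.hc u x z c then E.p z c else 0) * E.p z c' +
        E.p z c * (if E.hc u x z c' then E.p z c' else 0) := by
    intro c c'
    rw [h1]
    split_ifs <;> ring
  rw [Finset.sum_congr rfl fun c _ => Finset.sum_congr rfl fun c' _ => h2 c c']
  simp only [Finset.sum_add_distrib]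
  rw [← Finset.sum_mul_sum, ← Finset.sum_mul_sum, hE.p_pm.sum_one]
  ring

theorem law_prt_card {u x : V} (h : E.act u x) (z : V) (c : Fin E.k) :
    (E.prt u x z c).card ≤ 1 := by
  rw [Finset.card_le_one]
  intro a ha b hb
  by_contra hab
  unfold prt at ha hb
  rw [Finset.mem_filter] at ha hb
  exact hE.inv.inj u x h.1 (Or.inl h.2.1) h.2.2 a ha.1 b hb.1 hab ⟨c, ha.2.1, hb.2.1⟩

theorem sum_mean_psi {u x : V} (h : E.act u x) : ∑ z, mean E.law (E.psi u x) z ≤
    Real.log (2 * E.NN + 2) * E.H u x := by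
  rw [law_H_eq hE, Finset.mul_sum]
  refine Finset.sum_le_sum fun z _ => ?_
  rw [mean_eq hE]
  have hlog : 0 ≤ Real.log (2 * (E.NN : ℝ) + 2) := Real.log_nonneg (by
    have : (0 : ℝ) ≤ E.NN := Nat.cast_nonneg _
    linarith)
  have h1 : ∀ c c', Ex (E.qo z) (fun l => E.psi u x z (c, c', l)) ≤
      (if E.hc u x z c' then Real.log (2 * E.NN + 2) else 0) := by
    intro c c'
    unfold psi
    simp only
    by_cases h2 : E.hc u x z c'
    · simp only [if_pos h2]
      rw [Pool.Agent.Acy.Ex_sum, Finset.sum_congr rfl fun z' _ => Ex_psi hE u x z z']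
      have h3 : ∀ z' ∈ E.prt u x z c', Real.log (1 / E.qq z z' (E.J z z' u x)) ≤
          Real.log (2 * E.NN + 2) := by
        intro z' _
        have h4 := law_qq_pos hE z z' (E.J z z' u x)
        refine Real.log_le_log (by positivity) ?_
        have h5 := hE.prt_ok.qq_lo z z' (E.J z z' u x)
        rw [div_le_iff₀ h4]
        rw [div_le_iff₀ (by positivity)] at h5
        linarith
      refine (Finset.sum_le_sum h3).trans ?_
      rw [Finset.sum_const, nsmul_eq_mul]
      have h6 : ((E.prt u x z c').card : ℝ) ≤ 1 := by exact_mod_cast law_prt_card hE h z c'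
      nlinarith
    · simp only [if_neg h2]
      rw [Pool.Agent.Acy.Ex_const (qo_isPM hE z)]
  have h2 : ∑ c, ∑ c', E.p z c * (E.p z c' * Ex (E.qo z) fun l => E.psi u x z (c, c', l)) ≤
      ∑ c, ∑ c', E.p z c * (if E.hc u x z c' then E.p z c' * Real.log (2 * E.NN + 2) else 0) := by
    refine Finset.sum_le_sum fun c _ => Finset.sum_le_sum fun c' _ => ?_
    refine mul_le_mul_of_nonneg_left ?_ (hE.p_pm.nonneg z c)
    have h3 := mul_le_mul_of_nonneg_left (h1 c c') (hE.p_pm.nonneg z c')
    rwa [mul_ite, mul_zero] at h3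
  refine h2.trans (le_of_eq ?_)
  rw [← Finset.sum_mul_sum, hE.p_pm.sum_one, one_mul, Finset.mul_sum]
  refine Finset.sum_congr rfl fun c _ => ?_
  split_ifs <;> ring

/-- product of two centred lotteries -/
theorem Ex_won_won (u x u' x' z z' z'' : V) : Ex (E.qo z) (fun l : V → Option (Fin (E.NN + 1)) =>
    ((if l z' = some (E.J z z' u x) then 1 / E.qq z z' (E.J z z' u x) else 0) - 1) *
    ((if l z'' = some (E.J z z'' u' x') then 1 / E.qq z z'' (E.J z z'' u' x') else 0) - 1)) =
    if z' = z'' then ((if E.J z z' u x = E.J z z' u' x' then 1 / E.qq z z' (E.J z z' u x)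
      else 0) - 1) else 0 := by
  by_cases h : z' = z''
  · subst h
    rw [if_pos rfl]
    have h1 := Ex_one (qo_isPM hE z) z' (fun o =>
      ((if o = some (E.J z z' u x) then 1 / E.qq z z' (E.J z z' u x) else 0) - 1) *
      ((if o = some (E.J z z' u' x') then 1 / E.qq z z' (E.J z z' u' x') else 0) - 1))
    rw [h1]
    have h2 : ∀ o, E.qo z z' o * (((if o = some (E.J z z' u x) then
        1 / E.qq z z' (E.J z z' u x) else 0) - 1) *
        ((if o = some (E.J z z' u' x') then 1 / E.qq z z' (E.J z z' u' x') else 0) - 1)) =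
        E.qo z z' o * (if o = some (E.J z z' u x) then (if E.J z z' u x = E.J z z' u' x' then
          1 / E.qq z z' (E.J z z' u x) * (1 / E.qq z z' (E.J z z' u x)) else 0) else 0) -
        E.qo z z' o * (if o = some (E.J z z' u x) then 1 / E.qq z z' (E.J z z' u x) else 0) -
        E.qo z z' o * (if o = some (E.J z z' u' x') then 1 / E.qq z z' (E.J z z' u' x')
          else 0) + E.qo z z' o := by
      intro o
      by_cases h3 : o = some (E.J z z' u x)
      · by_cases h4 : E.J z z' u x = E.J z z' u' x'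
        · rw [h3, h4]
          simp only [if_true]
          ring
        · have h5 : ¬ o = some (E.J z z' u' x') := by
            rw [h3]
            intro h6
            exact h4 (Option.some.inj h6)
          rw [if_pos h3, if_neg h5, if_pos h3, if_neg h4]
          ring
      · rw [if_neg h3, if_neg h3]
        split_ifs <;> ring
    rw [Finset.sum_congr rfl fun o _ => h2 o]
    rw [Finset.sum_add_distrib, Finset.sum_sub_distrib, Finset.sum_sub_distrib, sum_qo hE,
      sum_qo hE, sum_qo hE, (qo_isPM hE z).sum_one]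
    have h3 := (law_qq_pos hE z z' (E.J z z' u x)).ne'
    have h4 := (law_qq_pos hE z z' (E.J z z' u' x')).ne'
    rw [mul_one_div_cancel h3, mul_one_div_cancel h4]
    split_ifs with h5
    · field_simp
      ring
    · ring
  · rw [if_neg h]
    have h1 := Ex_two (qo_isPM hE z) h
      (fun o => (if o = some (E.J z z' u x) then 1 / E.qq z z' (E.J z z' u x) else 0) - 1)
      (fun o => (if o = some (E.J z z'' u' x') then 1 / E.qq z z'' (E.J z z'' u' x') else 0) - 1)
    rw [h1]
    have h2 : ∑ b, E.qo z z' b * ((if b = some (E.J z z' u x) then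
        1 / E.qq z z' (E.J z z' u x) else 0) - 1) = 0 := by
      simp only [mul_sub, mul_one]
      rw [Finset.sum_sub_distrib, sum_qo hE, (qo_isPM hE z).sum_one,
        mul_one_div_cancel (law_qq_pos hE z z' _).ne', sub_self]
    rw [h2, zero_mul]

theorem Ex_cw_cw (u x u' x' z : V) (c : Fin E.k) :
    Ex (E.qo z) (fun l => E.cw u x z c l * E.cw u' x' z c l) =
      if E.hc u x z c ∧ E.hc u' x' z c then ∑ z' ∈ E.prt u x z c ∩ E.prt u' x' z c,
        ((if E.J z z' u x = E.J z z' u' x' then 1 / E.qq z z' (E.J z z' u x) else 0) - 1)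
      else 0 := by
  unfold cw
  by_cases h : E.hc u x z c
  · by_cases h' : E.hc u' x' z c
    · simp only [if_pos h, if_pos h']
      rw [if_pos ⟨h, h'⟩]
      have h1 : ∀ l : V → Option (Fin (E.NN + 1)),
          (∑ z' ∈ E.prt u x z c, ((if l z' = some (E.J z z' u x) then
            1 / E.qq z z' (E.J z z' u x) else 0) - 1)) *
          (∑ z' ∈ E.prt u' x' z c, ((if l z' = some (E.J z z' u' x') then
            1 / E.qq z z' (E.J z z' u' x') else 0) - 1)) =
          ∑ z' ∈ E.prt u x z c, ∑ z'' ∈ E.prt u' x' z c,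
            ((if l z' = some (E.J z z' u x) then 1 / E.qq z z' (E.J z z' u x) else 0) - 1) *
            ((if l z'' = some (E.J z z'' u' x') then
              1 / E.qq z z'' (E.J z z'' u' x') else 0) - 1) := fun l =>
        Finset.sum_mul_sum _ _ _ _
      have h2 : Ex (E.qo z) (fun l : V → Option (Fin (E.NN + 1)) =>
          (∑ z' ∈ E.prt u x z c, ((if l z' = some (E.J z z' u x) then
            1 / E.qq z z' (E.J z z' u x) else 0) - 1)) *
          (∑ z' ∈ E.prt u' x' z c, ((if l z' = some (E.J z z' u' x') then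
            1 / E.qq z z' (E.J z z' u' x') else 0) - 1))) =
          ∑ z' ∈ E.prt u x z c, ∑ z'' ∈ E.prt u' x' z c,
            if z' = z'' then ((if E.J z z' u x = E.J z z' u' x' then
              1 / E.qq z z' (E.J z z' u x) else 0) - 1) else 0 := by
        rw [show (fun l : V → Option (Fin (E.NN + 1)) => _) = _ from funext h1]
        rw [Pool.Agent.Acy.Ex_sum]
        refine Finset.sum_congr rfl fun z' _ => ?_
        rw [Pool.Agent.Acy.Ex_sum]
        exact Finset.sum_congr rfl fun z'' _ => Ex_won_won hE u x u' x' z z' z''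
      rw [h2]
      rw [← Finset.filter_mem_eq_inter, Finset.sum_filter]
      refine Finset.sum_congr rfl fun z' _ => ?_
      rw [Finset.sum_ite_eq]
    · simp only [if_neg h', mul_zero]
      rw [if_neg fun h3 => h' h3.2]
      exact Pool.Agent.Acy.Ex_const (qo_isPM hE z) 0
  · simp only [if_neg h, zero_mul]
    rw [if_neg fun h3 => h h3.1]
    exact Pool.Agent.Acy.Ex_const (qo_isPM hE z) 0

/-- Covariance (2) of the note. -/
theorem mean_gg (u x u' x' z : V) : mean E.law (fun z e => E.g u x z e * E.g u' x' z e) z =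
    ∑ c, if E.hc u x z c ∧ E.hc u' x' z c then E.p z c * (1 +
      ∑ z' ∈ E.prt u x z c ∩ E.prt u' x' z c,
        ((if E.J z z' u x = E.J z z' u' x' then 1 / E.qq z z' (E.J z z' u x) else 0) - 1))
      else 0 := by
  rw [mean_eq hE]
  have h1 : ∀ c c', Ex (E.qo z) (fun l => E.g u x z (c, c', l) * E.g u' x' z (c, c', l)) =
      (if E.hc u x z c ∧ E.hc u' x' z c then (1 : ℝ) else 0) +
      (if E.hc u x z c' ∧ E.hc u' x' z c' then ∑ z' ∈ E.prt u x z c' ∩ E.prt u' x' z c',
        ((if E.J z z' u x = E.J z z' u' x' then 1 / E.qq z z' (E.J z z' u x) else 0) - 1)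
      else 0) := by
    intro c c'
    have h2 : ∀ l : V → Option (Fin (E.NN + 1)),
        E.g u x z (c, c', l) * E.g u' x' z (c, c', l) =
        E.cw u x z c' l * E.cw u' x' z c' l -
          ((if E.hc u' x' z c then 1 else 0) * E.cw u x z c' l +
            (if E.hc u x z c then 1 else 0) * E.cw u' x' z c' l) +
          (if E.hc u x z c ∧ E.hc u' x' z c then (1 : ℝ) else 0) := by
      intro l
      rw [g_eq_cw, g_eq_cw]
      by_cases h3 : E.hc u x z c
      · by_cases h4 : E.hc u' x' z c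
        · rw [if_pos h3, if_pos h4, if_pos ⟨h3, h4⟩]
          ring
        · rw [if_pos h3, if_neg h4, if_neg fun h5 => h4 h5.2]
          ring
      · rw [if_neg h3, if_neg (fun h5 : E.hc u x z c ∧ E.hc u' x' z c => h3 h5.1)]
        ring
    rw [show (fun l : V → Option (Fin (E.NN + 1)) =>
      E.g u x z (c, c', l) * E.g u' x' z (c, c', l)) = _ from funext h2]
    rw [Pool.Agent.Acy.Ex_add, Pool.Agent.Acy.Ex_sub, Pool.Agent.Acy.Ex_add,
      Pool.Agent.Acy.Ex_mul_left, Pool.Agent.Acy.Ex_mul_left,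
      Pool.Agent.Acy.Ex_const (qo_isPM hE z), Ex_cw_cw hE]
    have h5 : Ex (E.qo z) (fun l => E.cw u x z c' l) = 0 := Ex_cw hE u x z c'
    have h6 : Ex (E.qo z) (fun l => E.cw u' x' z c' l) = 0 := Ex_cw hE u' x' z c'
    rw [h5, h6]
    ring
  have h2 : ∀ c c', E.p z c * (E.p z c' *
      Ex (E.qo z) (fun l => E.g u x z (c, c', l) * E.g u' x' z (c, c', l))) =
      (if E.hc u x z c ∧ E.hc u' x' z c then E.p z c else 0) * E.p z c' +
      E.p z c * (if E.hc u x z c' ∧ E.hc u' x' z c' then E.p z c' *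
        ∑ z' ∈ E.prt u x z c' ∩ E.prt u' x' z c',
        ((if E.J z z' u x = E.J z z' u' x' then 1 / E.qq z z' (E.J z z' u x) else 0) - 1)
      else 0) := by
    intro c c'
    rw [h1]
    split_ifs <;> ring
  rw [Finset.sum_congr rfl fun c _ => Finset.sum_congr rfl fun c' _ => h2 c c']
  simp only [Finset.sum_add_distrib]
  rw [← Finset.sum_mul_sum, ← Finset.sum_mul_sum, hE.p_pm.sum_one, mul_one, one_mul,
    ← Finset.sum_add_distrib]
  refine Finset.sum_congr rfl fun c _ => ?_
  split_ifs <;> ring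

end

end ORd

end

end Pool.Agent.AcyK
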