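import Pool.Agent.AcyK.Part
import Pool.Agent.AcyK.LamA

/-! # The outer process (project MP_af9dfb_K): definitions

`V` is coloured part by part, the part of `v` is `lv v`.  For every related pair `u x` inside a
later part there is a weight `X u x` (and a status); `K u x = X u x - 1` is the compensation kernel
with which the part of `u, x` will be coloured. -/

set_option autoImplicit false
set_option linter.unusedSectionVars false

namespace Pool.Agent.AcyK

open Finset
open Pool.Agent.Acy (IsPM wt Ex Pr mean)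
open scoped Classical

universe u

section

variable {V : Type u} [Fintype V] [DecidableEq V]

/-- `z` has colour `c` (assigned in some round). -/
def hasCol {V : Type*} {k : ℕ} (col : V → Option (Fin k × ℕ)) (z : V) (c : Fin k) : Prop :=
  ∃ r, col z = some (c, r)

/-- `z` and `z'` have the same colour. -/
def sameCol {V : Type*} {k : ℕ} (col : V → Option (Fin k × ℕ)) (z z' : V) : Prop :=
  ∃ c, hasCol col z c ∧ hasCol col z' c

/-! ## Static data -/

/-- Static data. -/
structure OData (V : Type u) where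
  /-- large parameter -/
  T : ℝ
  /-- colours per part -/
  k : ℕ
  /-- time scale of the rounds -/
  q : ℕ
  /-- rounds per part -/
  M : ℕ
  /-- number of parts -/
  R : ℕ
  /-- number of classes of the splitting is `NN + 1` -/
  NN : ℕ
  /-- largest codegree of a related pair -/
  am : ℝ
  /-- neighbourhoods -/
  N : V → Finset V
  /-- parts -/
  part : V → Fin R

namespace OData

variable (D : OData V)

/-- `T ^ (1/10)`. -/
noncomputable def th : ℝ := Real.exp (Real.log D.T / 10)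

/-- Price of the splitting. -/
noncomputable def tau : ℝ := 1 + Real.log (2 * D.NN + 2)

/-- Index of the part of `v`. -/
def lv (v : V) : ℕ := (D.part v : ℕ)

/-- Codegree. -/
noncomputable def cod (u x : V) : ℝ := ((cN D.N u x).card : ℝ)

/-- Related pairs of one part that are not special. -/
def rel (u x : V) : Prop :=
  u ≠ x ∧ D.lv u = D.lv x ∧ u ∉ D.N x ∧ D.T ^ 2385 ≤ D.cod u x ∧ D.cod u x ≤ D.am

/-- Special pairs of one part. -/
def spe (u x : V) : Prop := u ≠ x ∧ D.lv u = D.lv x ∧ (u ∈ D.N x ∨ D.am < D.cod u x)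

/-- Common neighbours in part `j`. -/
noncomputable def cj (j : ℕ) (u x : V) : Finset V := (cN D.N u x).filter fun z => D.lv z = j

/-- Ordered pairs of common neighbours inside one of the parts `≥ j`. -/
noncomputable def prs (j : ℕ) (u x : V) : Finset (V × V) :=
  (cN D.N u x ×ˢ cN D.N u x).filter fun e => e.1 ≠ e.2 ∧ D.lv e.1 = D.lv e.2 ∧ j ≤ D.lv e.1

/-- The hypotheses on the static data. -/
structure Ok : Prop where
  big : Big D.T
  k_lo : D.T ^ 3999 ≤ D.k
  k_hi : (D.k : ℝ) ≤ D.T ^ 4000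
  q_hi : (D.q : ℝ) ≤ D.T ^ 150
  M_le : (D.M : ℝ) + D.T ^ 133 ≤ D.q
  R_lo : D.T ^ 800 / 2 ≤ D.R
  R_hi : (D.R : ℝ) ≤ D.T ^ 800
  am_pos : 0 < D.am
  am_hi : D.am ≤ D.T ^ 2401
  par1 : 2000 * D.T ^ 7200 ≤ D.R * D.k * D.am
  par2 : 100 * D.tau * D.am ^ 2 ≤ D.R * D.k * Real.log D.T
  NN_le : 2 * (D.NN : ℝ) + 4 ≤ D.th
  N_symm : ∀ u v, u ∈ D.N v → v ∈ D.N u
  N_irrefl : ∀ v, v ∉ D.N v
  deg : ∀ v, ((D.N v).card : ℝ) ≤ D.T ^ 3600
  part_ok : PartOK D.T D.am D.R D.N D.part

end OData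

/-- The hypothesis on the graph: the link graph of the pairs inside a common neighbourhood can be
split into `NN + 1` classes such that every pair sees only a small fraction of its class. -/
def Splittable (N : V → Finset V) (NN : ℕ) (ε : ℝ) : Prop :=
  ∀ z z' : V, z ≠ z' → z ∉ N z' → ∀ μ : V → V → ℝ, (∀ u x, 0 ≤ μ u x) →
    (∀ u x, μ u x = μ x u) →
    (∀ u x, μ u x ≠ 0 → u ≠ x ∧ u ∉ N x ∧ u ∈ cN N z z' ∧ x ∈ cN N z z') →
    ∃ (J : V → V → Fin (NN + 1)) (qq : Fin (NN + 1) → ℝ), (∀ u x, J u x = J x u) ∧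
      (∀ i, 1 / (2 * (NN : ℝ) + 2) ≤ qq i) ∧ ∑ i, qq i ≤ 1 ∧
      ∀ u x, μ u x ≠ 0 →
        ∑ s ∈ cN N u x, ∑ s' ∈ cN N u x, (if J s s' = J u x then μ s s' else 0) ≤
          2 * ε * qq (J u x) * ∑ s, ∑ s', μ s s'

/-! ## The state -/

/-- Status of a related pair: active, asleep (until the end of the part), frozen because of its
predicted hazard, frozen because of its size, frozen for another reason. A pair of weight `0` is
dead, whatever its status. -/
inductive Stat
  | act | asl | frY | frS | frO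

/-- State of the outer process. -/
structure OState (V : Type u) where
  X : V → V → ℝ
  st : V → V → Stat

/-- Not frozen. -/
def OState.nf (s : OState V) (u x : V) : Prop := s.st u x = .act ∨ s.st u x = .asl

namespace OData

variable (D : OData V) (s : OState V)

/-- Compensation kernel. -/
noncomputable def K (u x : V) : ℝ := if D.rel u x then s.X u x - 1 else 0

/-- Normalised hazard of a pair at the beginning of its part. -/
noncomputable def hz (u x : V) : ℝ :=
  if D.spe u x then 2 else if D.rel u x then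
    (if s.X u x = 0 then 0 else if s.st u x = .act then 10 / Real.log D.T * Real.log (s.X u x)
      else 2) else 0

/-- Weight of a pair (of one part) that may become monochromatic. -/
noncomputable def chi (u x : V) : ℝ :=
  if D.spe u x then 0 else if D.rel u x then (if s.nf u x then s.X u x else 0) else 1

/-- First statistic. -/
noncomputable def Ma (x : V) : ℝ := ∑ u, D.K s u x

/-- Second statistic. -/
noncomputable def La (x : V) : ℝ := ∑ u, if D.rel u x then s.X u x * Real.log (s.X u x) else 0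

/-- Third statistic: future hazard, with respect to the parts `≥ j`. -/
noncomputable def Om (j : ℕ) (x : V) : ℝ :=
  2 / D.k * (∑ u, if D.rel u x ∧ s.nf u x then
    s.X u x * ∑ e ∈ D.prs j u x, D.chi s e.1 e.2 else 0) +
  4 * Real.log D.T * ∑ u, if D.rel u x ∧ s.st u x = .frY then s.X u x else 0

/-- Gram matrix. -/
noncomputable def Gr (y y' : V) : ℝ := ∑ u, D.K s u y * D.K s u y'

/-- Number of pairs frozen for other reasons. -/
noncomputable def nF (x : V) : ℝ :=
  ((univ.filter fun u => D.rel u x ∧ s.st u x = .frO).card : ℝ)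

/-- Number of pairs asleep. -/
noncomputable def nA (x : V) : ℝ :=
  ((univ.filter fun u => D.rel u x ∧ s.st u x = .asl).card : ℝ)

/-- Predicted hazard of a pair at the beginning of part `j`. -/
noncomputable def Yj (j : ℕ) (u x : V) : ℝ :=
  1 / (2 * D.k) * ∑ e ∈ D.prs j u x, if D.rel e.1 e.2 ∧ s.st e.1 e.2 = .act then
    s.X e.1 e.2 else 0

/-- Freezing at the beginning of part `j`. -/
noncomputable def frz (j : ℕ) : OState V where
  X := s.X
  st := fun u x =>
    if D.rel u x ∧ j ≤ D.lv u ∧ s.st u x = .act ∧ s.X u x ≠ 0 then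
      (if Real.log D.T < D.Yj s j u x then .frY else if D.th < s.X u x then .frS else .act)
    else s.st u x

/-- Waking up at the end of a part. -/
noncomputable def wake : OState V where
  X := s.X
  st := fun u x => if s.st u x = .asl then .act else s.st u x

/-- Combined colouring after part `j` has been coloured by `col`. -/
noncomputable def addCol (C : V → Option (Fin D.k × ℕ)) (j : ℕ) (col : V → Option (Fin D.k × ℕ))
    (v : V) : Option (Fin D.k × ℕ) := if D.lv v = j then col v else C v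

/-- The bound for `La + 1.2 tau Om`. -/
noncomputable def Bd (j : ℕ) : ℝ := D.k * Real.log D.T / 80000 + j * D.T ^ 3189

/-- Invariants before part `j` (before freezing); `C` is the colouring of the parts `< j`. -/
structure PInv (j : ℕ) (C : V → Option (Fin D.k × ℕ)) : Prop where
  X_symm : ∀ u x, s.X u x = s.X x u
  st_symm : ∀ u x, s.st u x = s.st x u
  cases : ∀ u x, s.X u x = 0 ∨ 1 ≤ s.X u x
  X_le : ∀ u x, s.X u x ≤ D.th ^ 2
  no_asl : ∀ u x, s.st u x ≠ .asl
  frS_ge : ∀ u x, s.st u x = .frS → D.th ≤ s.X u x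
  fr_ne : ∀ u x, s.st u x ≠ .act → s.X u x ≠ 0
  inj : ∀ u x, D.rel u x → s.st u x = .act → s.X u x ≠ 0 → ∀ z ∈ cN D.N u x, ∀ z' ∈ cN D.N u x,
    z ≠ z' → D.lv z = D.lv z' → D.lv z < j → D.lv z < D.lv u → ¬ sameCol C z z'
  ma : ∀ x, j ≤ D.lv x → |D.Ma s x| ≤ j * D.T ^ 2584
  la : ∀ x, j ≤ D.lv x → D.La s x + 12 / 10 * D.tau * D.Om s j x ≤ D.Bd j
  gr : ∀ y y', j ≤ D.lv y → D.lv y = D.lv y' → y ≠ y' → D.cod y y' ≤ D.T ^ 3000 →
    |D.Gr s y y'| ≤ ((cN D.N y y').filter fun z => D.lv z < j).card * D.T ^ 429 + j * D.T ^ 2584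
  nF : ∀ x, j ≤ D.lv x → D.nF s x ≤ j * D.T ^ 3121

/-- Invariants at the beginning of part `j` (after freezing). -/
structure PInvF (j : ℕ) (C : V → Option (Fin D.k × ℕ)) : Prop extends D.PInv s j C where
  act_le : ∀ u x, D.rel u x → j ≤ D.lv u → s.st u x = .act → s.X u x ≤ D.th
  act_Y : ∀ u x, D.rel u x → j ≤ D.lv u → s.st u x = .act → s.X u x ≠ 0 →
    D.Yj s j u x ≤ Real.log D.T

end OData

/-! ## One part -/

/-- Data of one part: its index, the state at its beginning, the lotteries. -/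
structure OPart (V : Type u) extends OData V where
  /-- index of the part -/
  j : ℕ
  /-- state at the beginning of the part -/
  s0 : OState V
  /-- class of the pair `u x` for the pair `z z'` -/
  J : V → V → V → V → Fin (NN + 1)
  /-- probabilities of the classes -/
  qq : V → V → Fin (NN + 1) → ℝ

namespace OPart

variable (E : OPart V)

/-- Sites of the process. -/
def site (u x : V) : Prop := E.rel u x ∧ E.j < E.lv u

/-- Common neighbours in the current part. -/
noncomputable def A (u x : V) : Finset V := E.cj E.j u x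

/-- Hypotheses on the data of one part. -/
structure Ok (C : V → Option (Fin E.k × ℕ)) : Prop where
  dat : E.toOData.Ok
  j_lt : E.j < E.R
  inv : E.PInvF E.s0 E.j C
  J_symm : ∀ z z' u x, E.J z z' u x = E.J z z' x u
  qq_lo : ∀ z z' i, 1 / (2 * (E.NN : ℝ) + 2) ≤ E.qq z z' i
  qq_sum : ∀ z z', ∑ i, E.qq z z' i ≤ 1
  split : ∀ z z', E.rel z z' → E.lv z = E.j → E.s0.st z z' = .act → E.s0.X z z' ≠ 0 →
    ∀ u x, E.site u x → E.s0.st u x = .act → E.s0.X u x ≠ 0 →
    u ∈ cN E.N z z' → x ∈ cN E.N z z' →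
    1 / (2 * E.k) * (∑ e ∈ E.prs (E.j + 1) u x, if e.1 ∈ cN E.N z z' ∧ e.2 ∈ cN E.N z z' ∧
      E.rel e.1 e.2 ∧ E.s0.st e.1 e.2 = .act ∧ E.J z z' e.1 e.2 = E.J z z' u x then
        E.s0.X e.1 e.2 else 0) ≤ E.qq z z' (E.J z z' u x) / 50

/-- The data of the semi-random colouring of the part. -/
noncomputable def nib : NibData V ((V × V) ⊕ V) where
  T := E.T
  k := E.k
  q := E.q
  M := E.M
  rp := fun x y => E.lv x = E.j ∧ (E.rel x y ∨ E.spe x y)
  K := fun x y => if E.lv x = E.j then E.K E.s0 x y else 0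
  h := fun x y => if E.lv x = E.j then E.hz E.s0 x y else 0
  tw := fun x y => E.lv x = E.j ∧ E.lv y = E.j ∧ (x = y ∨ E.T ^ 3000 < E.cod x y)
  pr := fun x y => E.lv x = E.j ∧ E.lv y = E.j ∧ x ≠ y ∧ 0 < E.cod x y ∧ E.cod x y ≤ E.T ^ 3000
  A := Sum.elim (fun P => if E.cod P.1 P.2 ≤ E.am then E.A P.1 P.2 else ∅)
    (fun v => (E.N v).filter fun z => E.lv z = E.j)

/-- Predicted hazard at the beginning of the part. -/
noncomputable def y0 (u x : V) : ℝ :=
  2 / E.k * ((1 + 1 / E.T ^ 5) * ∑ z ∈ E.A u x, ∑ z' ∈ (E.A u x).erase z, E.chi E.s0 z z')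

/-- Upper bound for the accumulated hazard of a pair. -/
noncomputable def acc (m : ℕ) (Y : V → V → ℝ) (u x : V) : ℝ :=
  E.y0 u x - Y u x + m / E.T ^ 1000

/-- Number of monochromatic pairs between `A u x` and `A u' x'`. -/
noncomputable def coin (col : V → Option (Fin E.k × ℕ)) (u x u' x' : V) : ℝ :=
  (((E.A u x ×ˢ E.A u' x').filter fun e => e.1 ≠ e.2 ∧ sameCol col e.1 e.2).card : ℝ)

/-- Couples of pairs for which coincidences are counted. -/
def near (u x u' x' : V) : Prop := (u' ∈ cN E.N u x ∧ x' ∈ cN E.N u x) ∨ u = u'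

/-- Accumulated hazards of the pairs at `x`. -/
noncomputable def accS (m : ℕ) (Y : V → V → ℝ) (x : V) : ℝ :=
  ∑ u, if E.site u x ∧ E.s0.nf u x then E.s0.X u x * E.acc m Y u x else 0

/-- The state predicate before round `m` of the part. -/
structure SInv (m : ℕ) (col : V → Option (Fin E.k × ℕ)) (Y : V → V → ℝ) (s : OState V) :
    Prop where
  Y_nonneg : ∀ u x, 0 ≤ Y u x
  acc_nonneg : ∀ u x, E.site u x → 0 ≤ E.acc m Y u x
  X_symm : ∀ u x, s.X u x = s.X x u
  st_symm : ∀ u x, s.st u x = s.st x u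
  off : ∀ u x, ¬ E.site u x → s.X u x = E.s0.X u x ∧ s.st u x = E.s0.st u x
  cases : ∀ u x, s.X u x = 0 ∨ 1 ≤ s.X u x
  dead0 : ∀ u x, E.s0.X u x = 0 → s.X u x = 0
  fr_ne : ∀ u x, s.st u x ≠ .act → s.X u x ≠ 0
  act0 : ∀ u x, s.nf u x → E.s0.st u x = .act
  frYS : ∀ u x, s.st u x = .frY ∨ s.st u x = .frS → E.s0.st u x = s.st u x
  fr0 : ∀ u x, E.s0.st u x ≠ .act → s.X u x = E.s0.X u x ∧ s.st u x = E.s0.st u x
  act_le : ∀ u x, E.site u x → s.st u x = .act →
    s.X u x ≤ E.s0.X u x * Real.exp (E.acc m Y u x)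
  asl_le : ∀ u x, E.site u x → E.s0.st u x = .act →
    s.X u x ≤ E.s0.X u x * Real.exp (E.acc m Y u x) * (2 * E.NN + 3)
  inj : ∀ u x, E.site u x → s.nf u x → s.X u x ≠ 0 → ∀ z ∈ E.A u x, ∀ z' ∈ E.A u x,
    z ≠ z' → ¬ sameCol col z z'
  e0 : ∀ v c, (((E.N v).filter fun z => E.lv z = E.j ∧ hasCol col z c).card : ℝ) ≤ m * E.T ^ 4
  e5 : ∀ u x u' x', E.site u x → E.site u' x' → s.st u x = .act → s.st u' x' = .act →
    s.X u x ≠ 0 → s.X u' x' ≠ 0 → E.near u x u' x' → E.coin col u x u' x' ≤ m * E.T ^ 5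
  ma : ∀ x, E.j < E.lv x → |E.Ma s x - E.Ma E.s0 x| ≤ m * E.T ^ 2433
  la : ∀ x, E.j < E.lv x → E.La s x ≤ E.La E.s0 x + 103 / 100 * E.tau * E.accS m Y x +
    m * E.T ^ 2434
  om : ∀ x, E.j < E.lv x → E.Om s (E.j + 1) x ≤ E.Om E.s0 (E.j + 1) x +
    9 / 100 * E.accS m Y x + m * E.T ^ 3036
  gr : ∀ y y', E.j < E.lv y → E.lv y = E.lv y' → y ≠ y' → E.cod y y' ≤ E.T ^ 3000 →
    |E.Gr s y y' - E.Gr E.s0 y y'| ≤ m * ((E.A y y').card * E.T ^ 279 + E.T ^ 2433)
  nA : ∀ x, E.j < E.lv x → E.nA s x ≤ m * E.T ^ 3102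
  nF : ∀ x, E.j < E.lv x → E.nF s x ≤ E.nF E.s0 x + m * E.T ^ 2971

end OPart

/-! ## One round -/

/-- Data of one round of one part: the state before the round, the selection, the law of the
picks. -/
structure ORd (V : Type u) extends OPart V where
  m : ℕ
  col : V → Option (Fin k × ℕ)
  Y : V → V → ℝ
  s : OState V
  lam : V → Option Bool
  p : V → Fin k → ℝ

/-- The coordinate of a vertex: real pick, virtual pick, lotteries. -/
abbrev ORd.Pick (E : ORd V) : Type u :=
  Fin E.k × (Fin E.k × (V → Option (Fin (E.NN + 1))))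

namespace ORd

variable (E : ORd V)

/-- Vertices that pick in this round. -/
noncomputable def L : Finset V := Sel E.col E.lam true

/-- Hypotheses on the data of a round. -/
structure Ok (C : V → Option (Fin E.k × ℕ)) : Prop where
  prt_ok : E.toOPart.Ok C
  m_lt : E.m < E.M
  inv : E.SInv E.m E.col E.Y E.s
  LN : ∀ v, ((E.L.filter fun z => z ∈ E.N v ∧ E.lv z = E.j).card : ℝ) ≤ E.T ^ 2668
  LA : ∀ u x, E.cod u x ≤ E.am → ((E.A u x ∩ E.L).card : ℝ) ≤ E.T ^ 1471
  p_pm : IsPM E.p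
  p_le : ∀ z c, E.p z c ≤ 2 * E.T / E.k
  sep : ∀ z c, E.lam z = some true → 0 < E.p z c → ∀ u r, E.col u = some (c, r) →
    E.nib.K u z ≠ -1 ∧ E.nib.h u z ≤ 1

/-- The colour `c` is dangerous for the pair `u x` at `z`. -/
def hc (u x z : V) (c : Fin E.k) : Prop :=
  z ∈ E.A u x ∧ z ∈ E.L ∧ 0 < E.p z c ∧ ∃ z' ∈ E.A u x, hasCol E.col z' c

/-- Partners of `z` in `A u x`. -/
noncomputable def prt (u x z : V) (c : Fin E.k) : Finset V :=
  (E.A u x).filter fun z' => hasCol E.col z' c ∧ E.rel z z'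

/-- Hazard of the pair in this round. -/
noncomputable def H (u x : V) : ℝ :=
  ∑ z ∈ E.A u x ∩ E.L, ∑ c ∈ colsOn E.col (E.A u x), E.p z c

/-- Law of a lottery. -/
noncomputable def qo (z z' : V) (o : Option (Fin (E.NN + 1))) : ℝ :=
  o.elim (1 - ∑ i, E.qq z z' i) (E.qq z z')

/-- Law of the additional coordinates. -/
noncomputable def nu (z : V) (e : Fin E.k × (V → Option (Fin (E.NN + 1)))) : ℝ :=
  E.p z e.1 * ∏ z', E.qo z z' (e.2 z')

/-- Law of the coordinates. -/
noncomputable def law : V → E.Pick → ℝ := prodLaw E.p E.nu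

/-- Gain of a won lottery. -/
noncomputable def won (u x z : V) (e : E.Pick) : ℝ :=
  if E.hc u x z e.2.1 then ∑ z' ∈ E.prt u x z e.2.1,
    (if e.2.2 z' = some (E.J z z' u x) then 1 / E.qq z z' (E.J z z' u x) else 0) else 0

/-- Price of a won lottery. -/
noncomputable def psi (u x z : V) (e : E.Pick) : ℝ :=
  if E.hc u x z e.2.1 then ∑ z' ∈ E.prt u x z e.2.1,
    (if e.2.2 z' = some (E.J z z' u x) then
      1 / E.qq z z' (E.J z z' u x) * Real.log (1 / E.qq z z' (E.J z z' u x)) else 0) else 0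

/-- Number of events at `z`. -/
noncomputable def ev (u x z : V) (e : E.Pick) : ℕ :=
  (if E.hc u x z e.1 then 1 else 0) +
    (if E.hc u x z e.2.1 then (E.prt u x z e.2.1).card else 0)

/-- Number of dangerous picks at `z`. -/
noncomputable def hit (u x z : V) (e : E.Pick) : ℕ :=
  (if E.hc u x z e.1 then 1 else 0) + (if E.hc u x z e.2.1 then 1 else 0)

/-- First order effect of the picks of `z` on the pair. -/
noncomputable def g (u x z : V) (e : E.Pick) : ℝ := E.won u x z e - E.ev u x z e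

/-- Active pairs. -/
def act (u x : V) : Prop := E.site u x ∧ E.s.st u x = .act ∧ E.s.X u x ≠ 0

/-- The effect, for active pairs. -/
noncomputable def g0 (u x z : V) (e : E.Pick) : ℝ := if E.act u x then E.g u x z e else 0

/-- The hazard, for active pairs. -/
noncomputable def H0 (u x : V) : ℝ := if E.act u x then E.H u x else 0

variable (ω : V → E.Pick)

/-- Number of events. -/
noncomputable def nev (u x : V) : ℕ := ∑ z, E.ev u x z (ω z)

/-- Number of dangerous picks. -/
noncomputable def nh (u x : V) : ℕ := ∑ z, E.hit u x z (ω z)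

/-- Total gain. -/
noncomputable def W (u x : V) : ℝ := ∑ z, E.won u x z (ω z)

/-- Some real pick is dangerous. -/
def realHit (u x : V) : Prop := ∃ z, E.hc u x z (ω z).1

/-- Two vertices of `A u x` pick the same colour. -/
def clash (u x : V) : Prop :=
  ∃ z ∈ E.A u x ∩ E.L, ∃ z' ∈ E.A u x ∩ E.L, z ≠ z' ∧ (ω z).1 = (ω z').1

/-- New weights. -/
noncomputable def nX (u x : V) : ℝ :=
  if E.act u x then
    (if E.nev ω u x = 0 then E.s.X u x * (1 + E.H u x) else
      if E.nev ω u x = 1 ∧ 0 < E.W ω u x then E.s.X u x * (E.W ω u x + E.H u x) else 0)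
  else E.s.X u x

/-- The state after the round. -/
noncomputable def next : OState V where
  X := E.nX ω
  st := fun u x =>
    if E.act u x then
      (if E.nX ω u x = 0 then .act else if E.clash ω u x then .frO else
        if E.nev ω u x = 0 then .act else .asl)
    else if E.site u x ∧ E.s.st u x = .asl then
      (if E.clash ω u x ∨ E.realHit ω u x then .frO else .asl)
    else E.s.st u x

/-- The colouring after the round. -/
noncomputable def nCol : V → Option (Fin E.k × ℕ) := updCol E.m E.col E.lam fun z => (ω z).1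

/-- Centred sum. -/
noncomputable def cen (F : V → E.Pick → ℝ) : ℝ := ∑ z, (F z (ω z) - mean E.law F z)

/-- Test function for `Ma`. -/
noncomputable def F1 (x z : V) (e : E.Pick) : ℝ := ∑ u, E.s.X u x * E.g0 u x z e

/-- First test function for `La`. -/
noncomputable def F2 (x z : V) (e : E.Pick) : ℝ :=
  ∑ u, E.s.X u x * Real.log (E.s.X u x) * E.g0 u x z e

/-- Second test function for `La`. -/
noncomputable def F3 (x z : V) (e : E.Pick) : ℝ :=
  ∑ u, if E.act u x then E.s.X u x * E.psi u x z e else 0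

/-- Test function for `Om`. -/
noncomputable def F4 (x z : V) (e : E.Pick) : ℝ :=
  2 / E.k * ∑ u, if E.rel u x ∧ E.s.nf u x then E.s.X u x * ∑ f ∈ E.prs (E.j + 1) u x,
    E.chi E.s f.1 f.2 * (E.g0 u x z e + E.g0 f.1 f.2 z e + E.g0 u x z e * E.g0 f.1 f.2 z e)
    else 0

/-- Test function for `Gr`. -/
noncomputable def F5 (y y' z : V) (e : E.Pick) : ℝ :=
  ∑ u, (E.s.X u y * E.g0 u y z e * E.K E.s u y' + E.s.X u y' * E.g0 u y' z e * E.K E.s u y)

/-- Covariance. -/
noncomputable def cov (u x u' x' : V) : ℝ :=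
  ∑ z, mean E.law (fun z e => E.g0 u x z e * E.g0 u' x' z e) z

/-- Typical picks. -/
structure Good : Prop where
  pos : ∀ z, 0 < E.p z (ω z).1
  t1 : ∀ x, E.j < E.lv x → |E.cen ω (E.F1 x)| ≤ E.T ^ 2430
  t2 : ∀ x, E.j < E.lv x → |E.cen ω (E.F2 x)| ≤ E.T ^ 2430
  t3 : ∀ x, E.j < E.lv x → |E.cen ω (E.F3 x)| ≤ E.T ^ 2430
  t4 : ∀ x, E.j < E.lv x → |E.cen ω (E.F4 x)| ≤ E.T ^ 3034
  t5 : ∀ y y', E.j < E.lv y → E.lv y = E.lv y' → y ≠ y' → E.cod y y' ≤ E.T ^ 3000 →
    |E.cen ω (E.F5 y y')| ≤ E.T ^ 2430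
  c1 : ∀ x, E.j < E.lv x → ∑ u, (if E.site u x then (E.nh ω u x : ℝ) else 0) ≤ E.T ^ 3102
  c2 : ∀ x, E.j < E.lv x → ∑ u, (if E.site u x then ∑ f ∈ E.prs (E.j + 1) u x,
    (if E.rel f.1 f.2 then (E.nh ω f.1 f.2 : ℝ) else 0) else 0) ≤ E.T ^ 7110
  c3 : ∀ y y', E.j < E.lv y → E.lv y = E.lv y' → y ≠ y' → E.cod y y' ≤ E.T ^ 3000 →
    ∑ u, (if E.act u y ∧ E.act u y' then (E.nh ω u y : ℝ) * E.nh ω u y' else 0) ≤
      (E.A y y').card * E.T ^ 278 + E.T ^ 2200
  c4 : ∀ x, E.j < E.lv x → ∑ u, (if E.site u x then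
    (E.nh ω u x : ℝ) * ((E.nh ω u x : ℝ) - 1) else 0) ≤ E.T ^ 2200
  c5 : ∀ x, E.j < E.lv x → ∑ u, (if E.site u x then ∑ f ∈ E.prs (E.j + 1) u x,
    (if E.rel f.1 f.2 then (E.nh ω f.1 f.2 : ℝ) * ((E.nh ω f.1 f.2 : ℝ) - 1) else 0) else 0) ≤
      E.T ^ 6975
  c6 : ∀ x, E.j < E.lv x → ∑ u, (if E.site u x then ∑ f ∈ E.prs (E.j + 1) u x,
    (if E.rel f.1 f.2 then ∑ z, ∑ z' ∈ univ.erase z,
      (E.hit u x z (ω z) : ℝ) * E.hit f.1 f.2 z' (ω z') else 0) else 0) ≤ E.T ^ 6200
  c7 : ∀ x, E.j < E.lv x → ((univ.filter fun u => E.site u x ∧ E.s.st u x = .asl ∧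
    E.realHit ω u x).card : ℝ) ≤ E.T ^ 2334
  c8 : ∀ x, E.j < E.lv x → ((univ.filter fun u => E.site u x ∧ E.clash ω u x).card : ℝ) ≤
    E.T ^ 2970
  c9 : ∀ v c, (((E.N v).filter fun z => E.lv z = E.j ∧ z ∈ E.L ∧ (ω z).1 = c).card : ℝ) ≤
    E.T ^ 4
  c10 : ∀ u x u' x', E.act u x → E.act u' x' → E.near u x u' x' →
    E.coin (E.nCol ω) u x u' x' ≤ E.coin E.col u x u' x' + E.T ^ 5

end ORd

end

end Pool.Agent.AcyK
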