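import Pool.Agent.AcyK.DKind
import Pool.Agent.AcyK.ODefs

/-! # Local families for pairs of arbitrary picks (project MP_af9dfb_K) -/

set_option autoImplicit false
set_option linter.unusedSectionVars false

namespace Pool.Agent.AcyK

open Finset
open Pool.Agent.Acy (IsPM wt Ex Pr mean cnt ext Holds)
open scoped Classical

universe u v

section

variable {Q : Type u} [Fintype Q] [DecidableEq Q]

/-- Extension sums of a system of pairs of picks. -/
theorem ext_pair2 {α : Type*} [Fintype α] [DecidableEq α] {μ : Q → α → ℝ} (hμ : IsPM μ)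
    (g : Q → α → Q → α → ℝ) (hg : ∀ u c u' c', 0 ≤ g u c u' c')
    (hgd : ∀ u c c', g u c u c' = 0) (M : ℝ)
    (h0 : ∑ u, ∑ c, ∑ u', ∑ c', g u c u' c' * (μ u c * μ u' c') ≤ M)
    (h1 : ∀ u c, ∑ u', ∑ c', (g u c u' c' + g u' c' u c) * μ u' c' ≤ M)
    (h2 : ∀ u c u' c', g u c u' c' + g u' c' u c ≤ M) (W : Finset (Q × α)) :
    ext μ (fun U : (Q × α) × (Q × α) => g U.1.1 U.1.2 U.2.1 U.2.2)
      (fun U => {U.1, U.2}) W ≤ M := by
  set w : (Q × α) × (Q × α) → ℝ := fun U => g U.1.1 U.1.2 U.2.1 U.2.2 with hw'
  set cd : (Q × α) × (Q × α) → Finset (Q × α) := fun U => {U.1, U.2} with hcd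
  have hμ0 : ∀ u c, 0 ≤ μ u c := hμ.nonneg
  have hw : ∀ U, 0 ≤ w U := fun U => hg _ _ _ _
  have hne : ∀ U, U.1.1 = U.2.1 → w U = 0 := by
    rintro ⟨⟨u, c⟩, ⟨u', c'⟩⟩ hU
    simp only at hU
    subst hU
    exact hgd u c c'
  have hcard : ∀ U : (Q × α) × (Q × α), (cd U).card ≤ 2 := fun U => by
    refine (card_insert_le _ _).trans ?_
    rw [card_singleton]
  unfold Pool.Agent.Acy.ext
  rcases lt_trichotomy W.card 1 with hc | hc | hc
  · -- no condition
    have hW : W = ∅ := card_eq_zero.1 (by omega)
    subst hW
    calc _ ≤ ∑ U : (Q × α) × (Q × α), w U * (μ U.1.1 U.1.2 * μ U.2.1 U.2.2) := by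
          refine Finset.sum_le_sum fun U _ => ?_
          rw [if_pos (empty_subset _), sdiff_empty]
          by_cases hU : U.1.1 = U.2.1
          · rw [hne U hU, zero_mul, zero_mul]
          · simp only [hcd]
            rw [prod_pair]
            intro h
            exact hU (by rw [h])
      _ = ∑ u, ∑ c, ∑ u', ∑ c', g u c u' c' * (μ u c * μ u' c') := by
          simp only [Fintype.sum_prod_type, w]
      _ ≤ M := h0
  · -- one condition
    obtain ⟨q, hq⟩ := card_eq_one.1 hc
    subst hq
    calc _ ≤ ∑ U : (Q × α) × (Q × α),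
          ((if U.1 = q then w U * μ U.2.1 U.2.2 else 0) +
           (if U.2 = q then w U * μ U.1.1 U.1.2 else 0)) := by
          refine Finset.sum_le_sum fun U _ => ?_
          have hn1 : (0 : ℝ) ≤ if U.1 = q then w U * μ U.2.1 U.2.2 else 0 := by
            split_ifs
            · exact mul_nonneg (hw U) (hμ0 _ _)
            · exact le_rfl
          have hn2 : (0 : ℝ) ≤ if U.2 = q then w U * μ U.1.1 U.1.2 else 0 := by
            split_ifs
            · exact mul_nonneg (hw U) (hμ0 _ _)
            · exact le_rfl
          by_cases h : {q} ⊆ cd U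
          · rw [if_pos h]
            by_cases hU : U.1.1 = U.2.1
            · rw [hne U hU, zero_mul]
              simp
            · have h3 : q ∈ cd U := h (mem_singleton_self q)
              have hne2 : U.1 ≠ U.2 := fun hh => hU (by rw [hh])
              simp only [cd, mem_insert, mem_singleton] at h3
              rcases h3 with h3 | h3
              · have h4 : cd U \ {q} = {U.2} := by
                  simp only [cd]
                  rw [h3]
                  ext z
                  simp only [mem_sdiff, mem_insert, mem_singleton]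
                  constructor
                  · rintro ⟨rfl | rfl, hh⟩
                    · exact absurd rfl hh
                    · rfl
                  · rintro rfl
                    exact ⟨Or.inr rfl, fun hh => hne2 hh.symm⟩
                rw [h4, prod_singleton, if_pos h3.symm]
                linarith
              · have h4 : cd U \ {q} = {U.1} := by
                  simp only [cd]
                  rw [h3]
                  ext z
                  simp only [mem_sdiff, mem_insert, mem_singleton]
                  constructor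
                  · rintro ⟨rfl | rfl, hh⟩
                    · rfl
                    · exact absurd rfl hh
                  · rintro rfl
                    exact ⟨Or.inl rfl, fun hh => hne2 hh⟩
                rw [h4, prod_singleton, if_pos (c := U.2 = q) h3.symm]
                linarith
          · rw [if_neg h]
            linarith
      _ = ∑ u', ∑ c', (g q.1 q.2 u' c' + g u' c' q.1 q.2) * μ u' c' := by
          rw [Finset.sum_add_distrib]
          have e1 : ∑ U : (Q × α) × (Q × α), (if U.1 = q then w U * μ U.2.1 U.2.2 else 0) =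
              ∑ u', ∑ c', g q.1 q.2 u' c' * μ u' c' := by
            rw [Fintype.sum_prod_type, Finset.sum_eq_single q]
            · simp only [if_true, w, Fintype.sum_prod_type]
            · intro b _ hb
              apply Finset.sum_eq_zero
              intro x _
              rw [if_neg hb]
            · intro h; exact absurd (mem_univ _) h
          have e2 : ∑ U : (Q × α) × (Q × α), (if U.2 = q then w U * μ U.1.1 U.1.2 else 0) =
              ∑ u', ∑ c', g u' c' q.1 q.2 * μ u' c' := by
            rw [Fintype.sum_prod_type]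
            have e3 : ∀ x : Q × α, ∑ y : Q × α, (if (x, y).2 = q then
                w (x, y) * μ (x, y).1.1 (x, y).1.2 else 0) =
                g x.1 x.2 q.1 q.2 * μ x.1 x.2 := by
              intro x
              rw [Finset.sum_eq_single q]
              · simp only [if_true, w]
              · intro b _ hb
                rw [if_neg hb]
              · intro h; exact absurd (mem_univ _) h
            rw [Finset.sum_congr rfl fun x _ => e3 x, Fintype.sum_prod_type]
          rw [e1, e2, ← Finset.sum_add_distrib]
          refine Finset.sum_congr rfl fun u' _ => ?_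
          rw [← Finset.sum_add_distrib]
          refine Finset.sum_congr rfl fun c' _ => ?_
          rw [add_mul]
      _ ≤ M := h1 q.1 q.2
  · -- both conditions
    obtain ⟨q, hq, q', hq', hne'⟩ := one_lt_card.1 hc
    calc _ ≤ ∑ U : (Q × α) × (Q × α),
          ((if U = (q, q') then w U else 0) + (if U = (q', q) then w U else 0)) := by
          refine Finset.sum_le_sum fun U _ => ?_
          have hn1 : (0 : ℝ) ≤ if U = (q, q') then w U else 0 := by
            split_ifs
            · exact hw U
            · exact le_rfl
          have hn2 : (0 : ℝ) ≤ if U = (q', q) then w U else 0 := by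
            split_ifs
            · exact hw U
            · exact le_rfl
          by_cases h : W ⊆ cd U
          · rw [if_pos h]
            have h1 : cd U \ W = ∅ := by
              rw [← card_eq_zero]
              rw [card_sdiff_of_subset h]
              have := hcard U
              omega
            rw [h1, prod_empty, mul_one]
            have h3 := h hq
            have h4 := h hq'
            simp only [cd, mem_insert, mem_singleton] at h3 h4
            rcases h3 with h3 | h3 <;> rcases h4 with h4 | h4
            · exact absurd (h3.trans h4.symm) hne'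
            · have : U = (q, q') := Prod.ext h3.symm h4.symm
              rw [if_pos this]
              linarith
            · have : U = (q', q) := Prod.ext h4.symm h3.symm
              rw [if_pos (c := U = (q', q)) this]
              linarith
            · exact absurd (h3.trans h4.symm) hne'
          · rw [if_neg h]
            linarith
      _ = w (q, q') + w (q', q) := by
          rw [Finset.sum_add_distrib]
          simp
      _ ≤ M := h2 q.1 q.2 q'.1 q'.2

theorem cnt_pair2 {α : Type*} [Fintype α] [DecidableEq α] (g : Q → α → Q → α → ℝ) (ω : Q → α) :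
    cnt (fun U : (Q × α) × (Q × α) => g U.1.1 U.1.2 U.2.1 U.2.2)
      (fun U => {U.1, U.2}) ω = ∑ u, ∑ u', g u (ω u) u' (ω u') := by
  have hHolds : ∀ (U : (Q × α) × (Q × α)),
      Holds ({U.1, U.2} : Finset (Q × α)) ω ↔ ω U.1.1 = U.1.2 ∧ ω U.2.1 = U.2.2 := by
    intro U
    constructor
    · intro hh
      exact ⟨hh U.1 (by simp), hh U.2 (by simp)⟩
    · rintro ⟨ha, hb⟩ z hz
      simp only [mem_insert, mem_singleton] at hz
      rcases hz with rfl | rfl
      · exact ha
      · exact hb
  unfold cnt
  simp only [hHolds]
  simp only [Fintype.sum_prod_type]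
  refine Finset.sum_congr rfl fun u _ => ?_
  rw [Finset.sum_eq_single (ω u)]
  · refine Finset.sum_congr rfl fun u' _ => ?_
    rw [Finset.sum_eq_single (ω u')]
    · rw [if_pos ⟨rfl, rfl⟩]
    · intro c _ hc
      rw [if_neg]
      rintro ⟨-, h⟩
      exact hc h.symm
    · intro h
      exact absurd (mem_univ _) h
  · intro c _ hc
    apply Finset.sum_eq_zero
    intro u' _
    apply Finset.sum_eq_zero
    intro c' _
    rw [if_neg]
    rintro ⟨h, -⟩
    exact hc h.symm
  · intro h
    exact absurd (mem_univ _) h

/-- Local family of sums over pairs of picks. -/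
theorem loc_pair2 {α : Type*} [Fintype α] [DecidableEq α] {T : ℝ} (hT : Big T)
    {μ : Q → α → ℝ} (hμ : IsPM μ) {κ : Type u} [Fintype κ] (P : κ → Prop)
    (g : κ → Q → α → Q → α → ℝ) (hg : ∀ a u c u' c', 0 ≤ g a u c u' c')
    (hgd : ∀ a u c c', g a u c u c' = 0)
    (M : κ → ℝ) (hM : ∀ a, P a → 0 < M a)
    (h0 : ∀ a, P a → ∑ u, ∑ c, ∑ u', ∑ c', g a u c u' c' * (μ u c * μ u' c') ≤ M a)
    (h1 : ∀ a, P a → ∀ u c, ∑ u', ∑ c', (g a u c u' c' + g a u' c' u c) * μ u' c' ≤ M a)
    (h2 : ∀ a, P a → ∀ u c u' c', g a u c u' c' + g a u' c' u c ≤ M a)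
    (S : κ → Finset Q)
    (hS : ∀ a, P a → ∀ u c u' c', g a u c u' c' ≠ 0 → u ∈ S a ∧ u' ∈ S a) (e : ℕ)
    (hcard : ∀ a, P a → ((S a).card : ℝ) ≤ T ^ e)
    (hdeg : ∀ y, ∃ F : Finset κ, (∀ a, P a → y ∈ S a → a ∈ F) ∧ (F.card : ℝ) ≤ T ^ e) :
    LocOK e T μ (fun ω => ∀ a, P a →
      ∑ u, ∑ u', g a u (ω u) u' (ω u') ≤ 12 * T ^ 2 * M a) := by
  have h := loc_count hT hμ P
    (fun a (U : (Q × α) × (Q × α)) => g a U.1.1 U.1.2 U.2.1 U.2.2)
    (fun a x => hg a _ _ _ _) (fun _ U => {U.1, U.2}) 2
    (fun a x => by
      refine (card_insert_le _ _).trans ?_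
      rw [card_singleton]) M hM
    (fun a ha W _ => ext_pair2 hμ (g a) (hg a) (hgd a) (M a) (h0 a ha) (h1 a ha) (h2 a ha) W) S
    (fun a ha x hx q hq => by
      have h3 := hS a ha _ _ _ _ hx
      simp only [mem_insert, mem_singleton] at hq
      rcases hq with hq | hq
      · rw [hq]; exact h3.1
      · rw [hq]; exact h3.2) e hcard hdeg
  obtain ⟨κ', hκ', E, S', hd, hp, hs, hi, hgood⟩ := h
  refine ⟨κ', hκ', E, S', hd, hp, hs, hi, fun ω hE a ha => ?_⟩
  have h2 := hgood ω hE a ha
  rw [cnt_pair2] at h2
  exact h2.trans (mul_le_mul_of_nonneg_right (cr2 hT) (hM a ha).le)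

/-- A local family for a law on `V × Bool` gives one for the law on `V` with two picks. -/
theorem LocOK.two {α β : Type*} [Fintype α] [Fintype β] {T : ℝ} (hT : Big T) {e : ℕ}
    {μ : Q × Bool → α → ℝ} {ν : Q → β → ℝ} (f : Bool → β → α)
    (hPr : ∀ P : (Q × Bool → α) → Prop, Pr ν (fun ω => P fun y => f y.2 (ω y.1)) = Pr μ P)
    {G : (Q × Bool → α) → Prop} (h : LocOK e T μ G) :
    LocOK (e + 1) T ν (fun ω => G fun y => f y.2 (ω y.1)) := by
  obtain ⟨κ, hκ, E, S, hd, hp, hs, hi, hg⟩ := h
  have hT0 := hT.pos
  have hTb := hT.big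
  norm_num at hTb
  refine ⟨κ, hκ, fun b ω => E b fun y => f y.2 (ω y.1), fun b => (S b).image Prod.fst,
    ?_, ?_, ?_, ?_, ?_⟩
  · intro b ω ω' hω
    apply hd b
    intro y hy
    have h1 : y.1 ∈ (S b).image Prod.fst := mem_image.2 ⟨y, by exact_mod_cast hy, rfl⟩
    have h2 : ω y.1 = ω' y.1 := hω _ (by exact_mod_cast h1)
    simp only [h2]
  · intro b
    rw [hPr (E b)]
    exact hp b
  · intro b
    have h1 : ((S b).image Prod.fst).card ≤ (S b).card := card_image_le
    have h2 : (((S b).image Prod.fst).card : ℝ) ≤ ((S b).card : ℝ) := by exact_mod_cast h1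
    exact h2.trans ((hs b).trans (hT.pw (Nat.le_succ e)))
  · intro i
    have h1 : (univ.filter fun b => i ∈ (S b).image Prod.fst) ⊆
        (univ.filter fun b => (i, true) ∈ S b) ∪ (univ.filter fun b => (i, false) ∈ S b) := by
      intro b hb
      rw [mem_filter, mem_image] at hb
      obtain ⟨-, ⟨j, c⟩, hj, hji⟩ := hb
      simp only at hji
      subst hji
      rw [mem_union, mem_filter, mem_filter]
      cases c
      · exact Or.inr ⟨mem_univ _, hj⟩
      · exact Or.inl ⟨mem_univ _, hj⟩
    have h2 : ((univ.filter fun b => i ∈ (S b).image Prod.fst).card : ℝ) ≤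
        ((univ.filter fun b => (i, true) ∈ S b).card : ℝ) +
        ((univ.filter fun b => (i, false) ∈ S b).card : ℝ) := by
      exact_mod_cast (card_le_card h1).trans (card_union_le _ _)
    have h3 := hi (i, true)
    have h4 := hi (i, false)
    have h5 : T ^ e + T ^ e ≤ T ^ (e + 1) := by
      have h6 : 0 ≤ T ^ e := by positivity
      rw [pow_succ]
      nlinarith
    linarith
  · intro ω hω
    exact hg _ hω

end

end Pool.Agent.AcyK
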