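import Pool.Agent.AcyK.OStat
import Pool.Agent.AcyK.OBas
import Pool.Agent.AcyK.OLaw
import Pool.Agent.AcyK.OExt
import Pool.Agent.AcyK.Pair2

/-! # The outer process (project MP_af9dfb_K): counting events, row OC1 -/

set_option autoImplicit false
set_option linter.unusedSectionVars false

namespace Pool.Agent.AcyK

open Finset
open Pool.Agent.Acy (IsPM wt Ex Pr mean cnt ext Holds)
open scoped Classical

universe u v w

section

variable {V : Type u} [Fintype V] [DecidableEq V]

namespace ORd

variable {E : ORd V} {C : V → Option (Fin E.k × ℕ)}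

section
variable (hE : E.Ok C)
include hE

theorem isPM_picks1 : IsPM (fun y : V × Bool => E.p y.1) :=
  ⟨fun y c => hE.p_pm.nonneg y.1 c, fun y => hE.p_pm.sum_one y.1⟩

/-- Transfer of local families for the real and virtual picks. -/
theorem locOK_picks1 {e : ℕ} {G : (V × Bool → Fin E.k) → Prop}
    (h : LocOK e E.T (fun y : V × Bool => E.p y.1) G) :
    LocOK (e + 1) E.T E.law (fun ω => G fun y => if y.2 then (ω y.1).1 else (ω y.1).2.1) :=
  LocOK.two hE.prt_ok.dat.big (fun b (e : E.Pick) => if b then e.1 else e.2.1)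
    (fun P => Pr_picks hE P) h

omit hE in
/-- The number of dangerous picks. -/
theorem nh_picks1 (ω : V → E.Pick) (u x : V) : (E.nh ω u x : ℝ) = ∑ y : V × Bool,
    if E.hc u x y.1 (if y.2 then (ω y.1).1 else (ω y.1).2.1) then (1 : ℝ) else 0 := by
  rw [Fintype.sum_prod_type]
  unfold nh hit
  push_cast
  refine Finset.sum_congr rfl fun z _ => ?_
  rw [Fintype.sum_bool]
  simp only [if_true, Bool.false_eq_true, if_false]

/-- The neighbourhood of `x`, with both kinds of picks. -/
theorem nbd_card1 (x : V) : (((E.N x ×ˢ (univ : Finset Bool)).card : ℕ) : ℝ) ≤ E.T ^ 19999 := by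
  have hT := hE.prt_ok.dat.big
  have h1 := hE.prt_ok.dat.deg x
  have h2 := hT.big
  norm_num at h2
  have h3 : E.T ^ 3601 = E.T ^ 3600 * E.T := pow_succ _ _
  have h4 : E.T ^ 3600 * 2 ≤ E.T ^ 3600 * E.T :=
    mul_le_mul_of_nonneg_left (by linarith) (pow_nonneg hT.pos.le _)
  have h5 : E.T ^ 3601 ≤ E.T ^ 19999 := hT.pw (by norm_num)
  rw [card_product, card_univ, Fintype.card_bool]
  push_cast
  linarith

theorem nbd_deg1 (y : V × Bool) : ∃ F : Finset V,
    (∀ a, E.j < E.lv a → y ∈ E.N a ×ˢ (univ : Finset Bool) → a ∈ F) ∧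
      (F.card : ℝ) ≤ E.T ^ 19999 := by
  refine ⟨E.N y.1, fun a _ ha => ?_, ?_⟩
  · rw [mem_product] at ha
    exact hE.prt_ok.dat.N_symm _ _ ha.1
  · exact (hE.prt_ok.dat.deg y.1).trans (hE.prt_ok.dat.big.pw (by norm_num))

/-- The sum over the two kinds of picks. -/
theorem sum_two1 (u x : V) : ∑ y : V × Bool, ∑ c, (if E.hc u x y.1 c then E.p y.1 c else 0) =
    2 * E.H u x := by
  rw [Fintype.sum_prod_type, H_eq hE]
  simp only [Fintype.sum_bool]
  rw [Finset.sum_add_distrib]
  ring

theorem loc_pos : LocOK 20000 E.T E.law (fun ω => ∀ z, 0 < E.p z (ω z).1) := by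
  have hT := hE.prt_ok.dat.big
  refine ⟨V, inferInstance, fun z ω => ¬ 0 < E.p z (ω z).1, fun z => {z}, ?_, ?_, ?_, ?_, ?_⟩
  · intro z ω ω' h
    have h1 : ω z = ω' z := h z (by simp)
    simp only [h1]
  · intro z
    have h1 : Pr E.law (fun ω => ¬ 0 < E.p z (ω z).1) = 0 := by
      unfold Pr
      have h2 := Ex_one (law_isPM hE) z
        (fun e : E.Pick => @ite ℝ (¬ 0 < E.p z e.1) (Classical.propDecidable _) 1 0)
      refine h2.trans (Finset.sum_eq_zero fun e _ => ?_)
      by_cases h3 : 0 < E.p z e.1
      · rw [if_neg (not_not.2 h3), mul_zero]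
      · have h4 : E.p z e.1 = 0 := le_antisymm (not_lt.1 h3) (hE.p_pm.nonneg z e.1)
        unfold law prodLaw
        rw [h4, zero_mul, zero_mul]
    rw [h1]
    exact (Real.exp_pos _).le
  · intro z
    rw [card_singleton]
    push_cast
    exact one_le_pow₀ hT.one_le
  · intro z
    have h1 : (univ.filter fun b : V => z ∈ ({b} : Finset V)) = {z} := by
      ext b
      simp [eq_comm]
    rw [h1, card_singleton]
    push_cast
    exact one_le_pow₀ hT.one_le
  · intro ω h z
    exact not_not.1 (h z)

theorem loc_c1 : LocOK 20000 E.T E.law (fun ω => ∀ x, E.j < E.lv x →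
    ∑ u, (if E.site u x then (E.nh ω u x : ℝ) else 0) ≤ E.T ^ 3102) := by
  have hT := hE.prt_ok.dat.big
  have hT0 := hT.pos
  have hTb := hT.big
  norm_num at hTb
  have h := loc_single hT (isPM_picks1 hE) (fun x => E.j < E.lv x)
    (fun x (y : V × Bool) c => ((univ.filter fun u => E.site u x ∧ E.hc u x y.1 c).card : ℝ))
    (fun _ _ _ => Nat.cast_nonneg _) (fun _ => 2 * E.T ^ 3093)
    (fun _ _ => mul_pos two_pos (pow_pos hT0 _))
    (fun x hx => by
      have h1 : ∀ y : V × Bool, ∀ c,
          ((univ.filter fun u => E.site u x ∧ E.hc u x y.1 c).card : ℝ) * E.p y.1 c =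
          ∑ u, if E.site u x then (if E.hc u x y.1 c then E.p y.1 c else 0) else 0 := by
        intro y c
        rw [Finset.card_filter]
        push_cast
        rw [Finset.sum_mul]
        refine Finset.sum_congr rfl fun u _ => ?_
        by_cases h2 : E.site u x <;> by_cases h3 : E.hc u x y.1 c <;> simp [h2, h3]
      calc _ = ∑ y : V × Bool, ∑ c, ∑ u,
            (if E.site u x then (if E.hc u x y.1 c then E.p y.1 c else 0) else 0) := by
            refine Finset.sum_congr rfl fun y _ => Finset.sum_congr rfl fun c _ => h1 y c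
        _ = ∑ u, ∑ y : V × Bool, ∑ c,
            (if E.site u x then (if E.hc u x y.1 c then E.p y.1 c else 0) else 0) := by
            rw [Finset.sum_congr rfl fun y _ => Finset.sum_comm, Finset.sum_comm]
        _ = ∑ u, 2 * (if E.site u x then E.H u x else 0) := by
            refine Finset.sum_congr rfl fun u _ => ?_
            by_cases h2 : E.site u x
            · simp only [if_pos h2]
              exact sum_two1 hE u x
            · simp only [if_neg h2, Finset.sum_const_zero, mul_zero]
        _ = 2 * ∑ u, (if E.site u x then E.H u x else 0) := by rw [Finset.mul_sum]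
        _ ≤ 2 * E.T ^ 3093 := mul_le_mul_of_nonneg_left (sumH1 hE hx) (by norm_num))
    (fun x hx y c => by
      refine (ext1 hE hx).trans ?_
      have h1 : E.T ^ 1757 ≤ E.T ^ 3093 := hT.pw (by norm_num)
      have h2 : 0 ≤ E.T ^ 3093 := pow_nonneg hT0.le _
      linarith)
    (fun x => E.N x ×ˢ (univ : Finset Bool))
    (fun x _ y c hne => by
      rw [mem_product]
      refine ⟨?_, mem_univ _⟩
      have h1 : (univ.filter fun u => E.site u x ∧ E.hc u x y.1 c).Nonempty := by
        rw [← card_pos]
        by_contra h2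
        exact hne (by rw [Nat.eq_zero_of_not_pos h2]; simp)
      obtain ⟨u, hu⟩ := h1
      exact (hc_mem hE (mem_filter.1 hu).2.2).1)
    19999 (fun x _ => nbd_card1 hE x) (fun y => nbd_deg1 hE y)
  obtain ⟨κ, hκ, EE, S', hd, hp, hs, hi, hg⟩ := locOK_picks1 hE h
  refine ⟨κ, hκ, EE, S', hd, hp, hs, hi, fun ω hEE x hx => ?_⟩
  have h2 := hg ω hEE x hx
  have h3 : ∑ u, (if E.site u x then (E.nh ω u x : ℝ) else 0) =
      ∑ y : V × Bool, ((univ.filter fun u => E.site u x ∧
        E.hc u x y.1 (if y.2 then (ω y.1).1 else (ω y.1).2.1)).card : ℝ) := by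
    have h4 : ∀ y : V × Bool, ((univ.filter fun u => E.site u x ∧
        E.hc u x y.1 (if y.2 then (ω y.1).1 else (ω y.1).2.1)).card : ℝ) =
        ∑ u, if E.site u x then (if E.hc u x y.1 (if y.2 then (ω y.1).1 else (ω y.1).2.1)
          then (1 : ℝ) else 0) else 0 := by
      intro y
      rw [Finset.card_filter]
      push_cast
      refine Finset.sum_congr rfl fun u _ => ?_
      by_cases h2 : E.site u x <;>
        by_cases h3 : E.hc u x y.1 (if y.2 then (ω y.1).1 else (ω y.1).2.1) <;> simp [h2, h3]
    rw [Finset.sum_congr rfl fun y _ => h4 y, Finset.sum_comm]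
    refine Finset.sum_congr rfl fun u _ => ?_
    by_cases h5 : E.site u x
    · simp only [if_pos h5]
      exact nh_picks1 ω u x
    · simp only [if_neg h5, Finset.sum_const_zero]
  rw [h3]
  refine h2.trans ?_
  calc 4 * E.T * (2 * E.T ^ 3093) = 8 * (E.T * E.T ^ 3093) := by ring
    _ ≤ E.T * (E.T * E.T ^ 3093) := by
        apply mul_le_mul_of_nonneg_right (by linarith) (by positivity)
    _ = E.T ^ 3095 := by ring
    _ ≤ E.T ^ 3102 := hT.pw (by norm_num)

theorem loc_c4 : LocOK 20000 E.T E.law (fun ω => ∀ x, E.j < E.lv x →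
    ∑ u, (if E.site u x then (E.nh ω u x : ℝ) * ((E.nh ω u x : ℝ) - 1) else 0) ≤
      E.T ^ 2200) := by
  have hT := hE.prt_ok.dat.big
  have hT0 := hT.pos
  have hTb := hT.big
  norm_num at hTb
  -- number of pairs seeing both picks
  let N2 : V → V × Bool → Fin E.k → V × Bool → Fin E.k → ℝ := fun x y c y' c' =>
    ∑ u, if E.site u x then (if E.hc u x y.1 c then (1 : ℝ) else 0) *
      (if E.hc u x y'.1 c' then (1 : ℝ) else 0) else 0
  have hN0 : ∀ x y c y' c', 0 ≤ N2 x y c y' c' := by
    intro x y c y' c'
    refine Finset.sum_nonneg fun u _ => ?_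
    split_ifs <;> norm_num
  have hNs : ∀ x y c y' c', N2 x y c y' c' = N2 x y' c' y c := by
    intro x y c y' c'
    refine Finset.sum_congr rfl fun u _ => ?_
    rw [mul_comm]
  have hNle : ∀ x, E.j < E.lv x → ∀ y c y' c', N2 x y c y' c' ≤ E.T ^ 1757 := by
    intro x hx y c y' c'
    refine le_trans ?_ (ext1 hE (z := y.1) (c := c) hx)
    rw [Finset.card_filter]
    push_cast
    refine Finset.sum_le_sum fun u _ => ?_
    by_cases h1 : E.site u x <;> by_cases h2 : E.hc u x y.1 c <;>
      by_cases h3 : E.hc u x y'.1 c' <;> simp [h1, h2, h3]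
  have hsum : ∀ x y c, ∑ y' : V × Bool, ∑ c', N2 x y c y' c' * E.p y'.1 c' =
      ∑ u, if E.site u x then (if E.hc u x y.1 c then (1 : ℝ) else 0) * (2 * E.H u x) else 0 := by
    intro x y c
    have h1 : ∀ y' : V × Bool, ∀ c', N2 x y c y' c' * E.p y'.1 c' =
        ∑ u, if E.site u x then (if E.hc u x y.1 c then (1 : ℝ) else 0) *
          (if E.hc u x y'.1 c' then E.p y'.1 c' else 0) else 0 := by
      intro y' c'
      rw [Finset.sum_mul]
      refine Finset.sum_congr rfl fun u _ => ?_
      by_cases h1 : E.site u x <;> by_cases h2 : E.hc u x y.1 c <;>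
        by_cases h3 : E.hc u x y'.1 c' <;> simp [h1, h2, h3]
    rw [Finset.sum_congr rfl fun y' _ => Finset.sum_congr rfl fun c' _ => h1 y' c',
      Finset.sum_congr rfl fun y' _ => Finset.sum_comm, Finset.sum_comm]
    refine Finset.sum_congr rfl fun u _ => ?_
    by_cases h2 : E.site u x
    · simp only [if_pos h2]
      rw [← sum_two1 hE, Finset.mul_sum]
      refine Finset.sum_congr rfl fun y' _ => ?_
      rw [Finset.mul_sum]
    · simp only [if_neg h2, Finset.sum_const_zero]
  have hH : ∀ u x, E.site u x → E.H u x ≤ 1 / E.T ^ 923 := fun u x h => H_le hE h.1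
  have h := loc_pair2 hT (isPM_picks1 hE) (fun x => E.j < E.lv x)
    (fun x (y : V × Bool) c (y' : V × Bool) c' => if y = y' then 0 else N2 x y c y' c')
    (fun x y c y' c' => by
      show 0 ≤ if y = y' then 0 else N2 x y c y' c'
      split_ifs
      · exact le_rfl
      · exact hN0 _ _ _ _ _)
    (fun x y c c' => if_pos rfl)
    (fun _ => 4 * E.T ^ 2170)
    (fun _ _ => mul_pos (by norm_num) (pow_pos hT0 _))
    (fun x hx => by
      calc _ ≤ ∑ y : V × Bool, ∑ c, ∑ y' : V × Bool, ∑ c', E.p y.1 c *
            (N2 x y c y' c' * E.p y'.1 c') := by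
            refine Finset.sum_le_sum fun y _ => Finset.sum_le_sum fun c _ =>
              Finset.sum_le_sum fun y' _ => Finset.sum_le_sum fun c' _ => ?_
            have h1 : 0 ≤ E.p y.1 c * (N2 x y c y' c' * E.p y'.1 c') :=
              mul_nonneg (hE.p_pm.nonneg _ _) (mul_nonneg (hN0 _ _ _ _ _) (hE.p_pm.nonneg _ _))
            split_ifs
            · rw [zero_mul]
              exact h1
            · exact le_of_eq (by ring)
        _ = ∑ y : V × Bool, ∑ c, E.p y.1 c * ∑ u, (if E.site u x then
            (if E.hc u x y.1 c then (1 : ℝ) else 0) * (2 * E.H u x) else 0) := by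
            refine Finset.sum_congr rfl fun y _ => Finset.sum_congr rfl fun c _ => ?_
            rw [← hsum, Finset.mul_sum]
            refine Finset.sum_congr rfl fun y' _ => ?_
            rw [Finset.mul_sum]
        _ = ∑ u, (if E.site u x then (2 * E.H u x) * (2 * E.H u x) else 0) := by
            have h1 : ∀ y : V × Bool, ∀ c, E.p y.1 c * ∑ u, (if E.site u x then
                (if E.hc u x y.1 c then (1 : ℝ) else 0) * (2 * E.H u x) else 0) =
                ∑ u, (if E.site u x then (2 * E.H u x) *
                  (if E.hc u x y.1 c then E.p y.1 c else 0) else 0) := by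
              intro y c
              rw [Finset.mul_sum]
              refine Finset.sum_congr rfl fun u _ => ?_
              by_cases h1 : E.site u x <;> by_cases h2 : E.hc u x y.1 c <;> simp [h1, h2]
              ring
            rw [Finset.sum_congr rfl fun y _ => Finset.sum_congr rfl fun c _ => h1 y c,
              Finset.sum_congr rfl fun y _ => Finset.sum_comm, Finset.sum_comm]
            refine Finset.sum_congr rfl fun u _ => ?_
            by_cases h2 : E.site u x
            · simp only [if_pos h2]
              rw [← sum_two1 hE, Finset.mul_sum]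
              refine Finset.sum_congr rfl fun y _ => ?_
              rw [Finset.mul_sum]
            · simp only [if_neg h2, Finset.sum_const_zero]
        _ ≤ ∑ u, 4 * (1 / E.T ^ 923) * (if E.site u x then E.H u x else 0) := by
            refine Finset.sum_le_sum fun u _ => ?_
            split_ifs with h1
            · have h2 := hH u x h1
              have h3 := H_nonneg hE u x
              have h4 := mul_le_mul_of_nonneg_right h2 h3
              linarith
            · rw [mul_zero]
        _ = 4 * (1 / E.T ^ 923) * ∑ u, (if E.site u x then E.H u x else 0) := by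
            rw [Finset.mul_sum]
        _ ≤ 4 * (1 / E.T ^ 923) * E.T ^ 3093 :=
            mul_le_mul_of_nonneg_left (sumH1 hE hx) (by positivity)
        _ = 4 * E.T ^ 2170 := by
            rw [show (3093 : ℕ) = 923 + 2170 from rfl, pow_add]
            field_simp)
    (fun x hx y c => by
      calc _ ≤ ∑ y' : V × Bool, ∑ c', 2 * (N2 x y c y' c' * E.p y'.1 c') := by
            refine Finset.sum_le_sum fun y' _ => Finset.sum_le_sum fun c' _ => ?_
            have h1 : 0 ≤ N2 x y c y' c' * E.p y'.1 c' :=
              mul_nonneg (hN0 _ _ _ _ _) (hE.p_pm.nonneg _ _)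
            by_cases h2 : y = y'
            · rw [if_pos h2, if_pos h2.symm, add_zero, zero_mul]
              linarith
            · rw [if_neg h2, if_neg (Ne.symm h2), hNs x y' c' y c]
              exact le_of_eq (by ring)
        _ = 2 * ∑ u, (if E.site u x then
            (if E.hc u x y.1 c then (1 : ℝ) else 0) * (2 * E.H u x) else 0) := by
            rw [← hsum, Finset.mul_sum]
            refine Finset.sum_congr rfl fun y' _ => ?_
            rw [Finset.mul_sum]
        _ ≤ 2 * ∑ u, (if E.site u x ∧ E.hc u x y.1 c then (1 : ℝ) else 0) := by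
            apply mul_le_mul_of_nonneg_left _ (by norm_num)
            refine Finset.sum_le_sum fun u _ => ?_
            by_cases h1 : E.site u x
            · by_cases h2 : E.hc u x y.1 c
              · rw [if_pos h1, if_pos h2, if_pos ⟨h1, h2⟩, one_mul]
                have h3 := hH u x h1
                have h4 := hT.small (n := 923) (by norm_num)
                linarith
              · rw [if_pos h1, if_neg h2, zero_mul]
                split_ifs <;> norm_num
            · rw [if_neg h1]
              split_ifs <;> norm_num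
        _ = 2 * ((univ.filter fun u => E.site u x ∧ E.hc u x y.1 c).card : ℝ) := by
            rw [Finset.card_filter]
            push_cast
            rfl
        _ ≤ 2 * E.T ^ 1757 := mul_le_mul_of_nonneg_left (ext1 hE hx) (by norm_num)
        _ ≤ 4 * E.T ^ 2170 := by
            have h1 : E.T ^ 1757 ≤ E.T ^ 2170 := hT.pw (by norm_num)
            have h2 : 0 ≤ E.T ^ 2170 := pow_nonneg hT0.le _
            linarith)
    (fun x hx y c y' c' => by
      have h1 : E.T ^ 1757 ≤ E.T ^ 2170 := hT.pw (by norm_num)
      have h2 : 0 ≤ E.T ^ 2170 := pow_nonneg hT0.le _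
      have h3 := hNle x hx y c y' c'
      have h4 := hNle x hx y' c' y c
      split_ifs <;> linarith)
    (fun x => E.N x ×ˢ (univ : Finset Bool))
    (fun x _ y c y' c' hne => by
      have h1 : N2 x y c y' c' ≠ 0 := by
        by_cases h2 : y = y'
        · exact absurd (if_pos h2) hne
        · rw [if_neg h2] at hne
          exact hne
      obtain ⟨u, -, hu⟩ := Finset.exists_ne_zero_of_sum_ne_zero h1
      have h2 : E.hc u x y.1 c ∧ E.hc u x y'.1 c' := by
        by_cases h3 : E.site u x
        · rw [if_pos h3] at hu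
          refine ⟨?_, ?_⟩
          · by_contra h4
            rw [if_neg h4, zero_mul] at hu
            exact hu rfl
          · by_contra h4
            rw [if_neg h4, mul_zero] at hu
            exact hu rfl
        · rw [if_neg h3] at hu
          exact absurd rfl hu
      exact ⟨mem_product.2 ⟨(hc_mem hE h2.1).1, mem_univ _⟩,
        mem_product.2 ⟨(hc_mem hE h2.2).1, mem_univ _⟩⟩)
    19999 (fun x _ => nbd_card1 hE x) (fun y => nbd_deg1 hE y)
  obtain ⟨κ, hκ, EE, S', hd, hp, hs, hi, hg⟩ := locOK_picks1 hE h
  refine ⟨κ, hκ, EE, S', hd, hp, hs, hi, fun ω hEE x hx => ?_⟩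
  have h2 := hg ω hEE x hx
  have h3 : ∑ u, (if E.site u x then (E.nh ω u x : ℝ) * ((E.nh ω u x : ℝ) - 1) else 0) =
      ∑ y : V × Bool, ∑ y' : V × Bool, (if y = y' then 0 else
        N2 x y (if y.2 then (ω y.1).1 else (ω y.1).2.1) y'
          (if y'.2 then (ω y'.1).1 else (ω y'.1).2.1)) := by
    let a : V → V × Bool → ℝ := fun u y =>
      if E.hc u x y.1 (if y.2 then (ω y.1).1 else (ω y.1).2.1) then (1 : ℝ) else 0
    have ha : ∀ u y, a u y * a u y = a u y := by
      intro u y
      simp only [a]
      split_ifs <;> norm_num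
    have h4 : ∀ u, (E.nh ω u x : ℝ) * ((E.nh ω u x : ℝ) - 1) =
        ∑ y : V × Bool, ∑ y' : V × Bool, (if y = y' then 0 else a u y * a u y') := by
      intro u
      have h5 : (E.nh ω u x : ℝ) = ∑ y, a u y := nh_picks1 ω u x
      have h6 : ∀ y : V × Bool, ∑ y' : V × Bool, (if y = y' then 0 else a u y * a u y') =
          a u y * (∑ y', a u y') - a u y := by
        intro y
        have h7 : ∀ y', (if y = y' then 0 else a u y * a u y') =
            a u y * a u y' - (if y = y' then a u y else 0) := by
          intro y'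
          split_ifs with h8
          · rw [← h8, ha, sub_self]
          · rw [sub_zero]
        rw [Finset.sum_congr rfl fun y' _ => h7 y', Finset.sum_sub_distrib, ← Finset.mul_sum]
        simp
      rw [Finset.sum_congr rfl fun y _ => h6 y, Finset.sum_sub_distrib, ← Finset.sum_mul, h5]
      ring
    have h5 : ∀ y y' : V × Bool, (if y = y' then 0 else
        N2 x y (if y.2 then (ω y.1).1 else (ω y.1).2.1) y'
          (if y'.2 then (ω y'.1).1 else (ω y'.1).2.1)) =
        ∑ u, (if E.site u x then (if y = y' then 0 else a u y * a u y') else 0) := by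
      intro y y'
      by_cases h6 : y = y'
      · simp only [if_pos h6, ite_self, Finset.sum_const_zero]
      · simp only [if_neg h6]
        rfl
    rw [Finset.sum_congr rfl fun y _ => Finset.sum_congr rfl fun y' _ => h5 y y',
      Finset.sum_congr rfl fun y _ => Finset.sum_comm, Finset.sum_comm]
    refine Finset.sum_congr rfl fun u _ => ?_
    by_cases h6 : E.site u x
    · simp only [if_pos h6]
      exact h4 u
    · simp only [if_neg h6, Finset.sum_const_zero]
  rw [h3]
  refine h2.trans ?_
  calc 12 * E.T ^ 2 * (4 * E.T ^ 2170) = 48 * E.T ^ 2172 := by ring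
    _ ≤ E.T * E.T ^ 2172 := by
        apply mul_le_mul_of_nonneg_right (by linarith) (by positivity)
    _ = E.T ^ 2173 := by ring
    _ ≤ E.T ^ 2200 := hT.pw (by norm_num)

theorem loc_c7 : LocOK 20000 E.T E.law (fun ω => ∀ x, E.j < E.lv x →
    ((univ.filter fun u => E.site u x ∧ E.s.st u x = .asl ∧ E.realHit ω u x).card : ℝ) ≤
      E.T ^ 2334) := by
  have hT := hE.prt_ok.dat.big
  have hT0 := hT.pos
  have hTb := hT.big
  norm_num at hTb
  have h := loc_single hT (isPM_picks1 hE) (fun x => E.j < E.lv x)
    (fun x (y : V × Bool) c => if y.2 then ((univ.filter fun u => E.site u x ∧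
      E.s.st u x = .asl ∧ E.hc u x y.1 c).card : ℝ) else 0)
    (fun _ _ _ => by split_ifs <;> positivity) (fun _ => E.T ^ 2329)
    (fun _ _ => pow_pos hT0 _)
    (fun x hx => by
      have h1 : ∀ z : V, ∀ c, ((univ.filter fun u => E.site u x ∧
          E.s.st u x = .asl ∧ E.hc u x z c).card : ℝ) * E.p z c =
          ∑ u, if E.site u x ∧ E.s.st u x = .asl then
            (if E.hc u x z c then E.p z c else 0) else 0 := by
        intro z c
        rw [Finset.card_filter]
        push_cast
        rw [Finset.sum_mul]
        refine Finset.sum_congr rfl fun u _ => ?_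
        by_cases h2 : E.site u x <;> by_cases h3 : E.hc u x z c <;>
          by_cases h4 : E.s.st u x = .asl <;> simp [h2, h3, h4]
      calc _ = ∑ z : V, ∑ c, ∑ u, (if E.site u x ∧ E.s.st u x = .asl then
            (if E.hc u x z c then E.p z c else 0) else 0) := by
            rw [Fintype.sum_prod_type]
            refine Finset.sum_congr rfl fun z _ => ?_
            rw [Fintype.sum_bool]
            simp only [if_true, Bool.false_eq_true, if_false, zero_mul, Finset.sum_const_zero,
              add_zero]
            exact Finset.sum_congr rfl fun c _ => h1 z c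
        _ = ∑ u, ∑ z : V, ∑ c, (if E.site u x ∧ E.s.st u x = .asl then
            (if E.hc u x z c then E.p z c else 0) else 0) := by
            rw [Finset.sum_congr rfl fun y _ => Finset.sum_comm, Finset.sum_comm]
        _ = ∑ u, (if E.site u x ∧ E.s.st u x = .asl then E.H u x else 0) := by
            refine Finset.sum_congr rfl fun u _ => ?_
            by_cases h2 : E.site u x ∧ E.s.st u x = .asl
            · simp only [if_pos h2]
              exact (H_eq hE u x).symm
            · simp only [if_neg h2, Finset.sum_const_zero]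
        _ ≤ ∑ u, (if E.rel u x ∧ E.s.st u x = .asl then (1 : ℝ) else 0) * (1 / E.T ^ 923) := by
            refine Finset.sum_le_sum fun u _ => ?_
            by_cases h2 : E.site u x ∧ E.s.st u x = .asl
            · rw [if_pos h2, if_pos ⟨h2.1.1, h2.2⟩, one_mul]
              exact H_le hE h2.1.1
            · rw [if_neg h2]
              split_ifs
              · positivity
              · rw [zero_mul]
        _ = E.nA E.s x * (1 / E.T ^ 923) := by
            rw [← Finset.sum_mul]
            unfold OData.nA
            rw [Finset.card_filter]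
            push_cast
            rfl
        _ ≤ (E.T ^ 150 * E.T ^ 3102) * (1 / E.T ^ 923) := by
            apply mul_le_mul_of_nonneg_right _ (by positivity)
            refine (hE.inv.nA x hx).trans ?_
            exact mul_le_mul_of_nonneg_right (m_le hE) (by positivity)
        _ = E.T ^ 2329 := by
            rw [← pow_add, show (150 + 3102 : ℕ) = 923 + 2329 from rfl, pow_add]
            field_simp)
    (fun x hx y c => by
      have h1 : ((univ.filter fun u => E.site u x ∧
          E.s.st u x = .asl ∧ E.hc u x y.1 c).card : ℝ) ≤ E.T ^ 1757 := by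
        refine le_trans ?_ (ext1 hE (z := y.1) (c := c) hx)
        rw [Nat.cast_le]
        apply Finset.card_le_card
        intro u hu
        rw [mem_filter] at hu ⊢
        exact ⟨hu.1, hu.2.1, hu.2.2.2⟩
      have h2 : E.T ^ 1757 ≤ E.T ^ 2329 := hT.pw (by norm_num)
      split_ifs
      · exact h1.trans h2
      · positivity)
    (fun x => E.N x ×ˢ (univ : Finset Bool))
    (fun x _ y c hne => by
      rw [mem_product]
      refine ⟨?_, mem_univ _⟩
      have h1 : (univ.filter fun u => E.site u x ∧
          E.s.st u x = .asl ∧ E.hc u x y.1 c).Nonempty := by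
        rw [← card_pos]
        by_contra h2
        apply hne
        rw [Nat.eq_zero_of_not_pos h2]
        simp
      obtain ⟨u, hu⟩ := h1
      exact (hc_mem hE (mem_filter.1 hu).2.2.2).1)
    19999 (fun x _ => nbd_card1 hE x) (fun y => nbd_deg1 hE y)
  obtain ⟨κ, hκ, EE, S', hd, hp, hs, hi, hg⟩ := locOK_picks1 hE h
  refine ⟨κ, hκ, EE, S', hd, hp, hs, hi, fun ω hEE x hx => ?_⟩
  have h2 := hg ω hEE x hx
  have h3 : ((univ.filter fun u => E.site u x ∧ E.s.st u x = .asl ∧
      E.realHit ω u x).card : ℝ) ≤ ∑ y : V × Bool, (if y.2 then ((univ.filter fun u =>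
        E.site u x ∧ E.s.st u x = .asl ∧ E.hc u x y.1
          (if y.2 then (ω y.1).1 else (ω y.1).2.1)).card : ℝ) else 0) := by
    rw [Fintype.sum_prod_type]
    simp only [Fintype.sum_bool, if_true, Bool.false_eq_true, if_false, add_zero]
    have h4 : (univ.filter fun u => E.site u x ∧ E.s.st u x = .asl ∧ E.realHit ω u x) ⊆
        (univ : Finset V).biUnion fun z => univ.filter fun u =>
          E.site u x ∧ E.s.st u x = .asl ∧ E.hc u x z (ω z).1 := by
      intro u hu
      rw [mem_filter] at hu
      obtain ⟨-, h5, h6, z, hz⟩ := hu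
      rw [mem_biUnion]
      exact ⟨z, mem_univ _, mem_filter.2 ⟨mem_univ _, h5, h6, hz⟩⟩
    have h5 := (card_le_card h4).trans card_biUnion_le
    exact_mod_cast h5
  refine h3.trans (h2.trans ?_)
  calc 4 * E.T * E.T ^ 2329 ≤ E.T * E.T * E.T ^ 2329 := by
        apply mul_le_mul_of_nonneg_right _ (by positivity)
        apply mul_le_mul_of_nonneg_right (by linarith) hT0.le
    _ = E.T ^ 2331 := by ring
    _ ≤ E.T ^ 2334 := hT.pw (by norm_num)

theorem loc_c9 : LocOK 20000 E.T E.law (fun ω => ∀ v c, (((E.N v).filter fun z =>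
    E.lv z = E.j ∧ z ∈ E.L ∧ (ω z).1 = c).card : ℝ) ≤ E.T ^ 4) := by
  have hT := hE.prt_ok.dat.big
  have hT0 := hT.pos
  have hTb := hT.big
  norm_num at hTb
  have hk := OData.k_pos hE.prt_ok.dat
  have h := loc_single hT (isPM_picks1 hE) (κ := V × Fin E.k) (fun _ => True)
    (fun a (y : V × Bool) c => if y.2 ∧ c = a.2 ∧ y.1 ∈ E.N a.1 ∧ E.lv y.1 = E.j ∧ y.1 ∈ E.L then
      (1 : ℝ) else 0)
    (fun _ _ _ => by split_ifs <;> norm_num) (fun _ => 1)
    (fun _ _ => one_pos)
    (fun a _ => by
      calc _ = ∑ z : V, (if z ∈ E.N a.1 ∧ E.lv z = E.j ∧ z ∈ E.L then E.p z a.2 else 0) := by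
            rw [Fintype.sum_prod_type]
            refine Finset.sum_congr rfl fun z _ => ?_
            rw [Fintype.sum_bool]
            simp only [true_and, Bool.false_eq_true, false_and, if_false, zero_mul,
              Finset.sum_const_zero, add_zero]
            rw [Finset.sum_eq_single a.2]
            · by_cases h1 : z ∈ E.N a.1 ∧ E.lv z = E.j ∧ z ∈ E.L
              · rw [if_pos ⟨rfl, h1⟩, if_pos h1, one_mul]
              · rw [if_neg fun h2 => h1 h2.2, if_neg h1, zero_mul]
            · intro c _ hc
              rw [if_neg fun h2 => hc h2.1, zero_mul]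
            · intro h1
              exact absurd (mem_univ _) h1
        _ ≤ ∑ z : V, (if z ∈ E.N a.1 ∧ E.lv z = E.j ∧ z ∈ E.L then 2 * E.T / E.k else 0) := by
            refine Finset.sum_le_sum fun z _ => ?_
            split_ifs
            · exact hE.p_le z a.2
            · exact le_rfl
        _ = ((E.L.filter fun z => z ∈ E.N a.1 ∧ E.lv z = E.j).card : ℝ) * (2 * E.T / E.k) := by
            rw [← Finset.sum_filter, Finset.sum_const, nsmul_eq_mul]
            congr 2
            apply congrArg
            ext z
            simp only [mem_filter, mem_univ, true_and]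
            tauto
        _ ≤ E.T ^ 2668 * (2 * E.T / E.k) :=
            mul_le_mul_of_nonneg_right (hE.LN a.1) (by positivity)
        _ = 2 * (E.T ^ 2669 / E.k) := by
            rw [pow_succ E.T 2668]
            ring
        _ ≤ 2 * (1 / E.T ^ 1) := by
            apply mul_le_mul_of_nonneg_left _ (by norm_num)
            exact OData.div_k hE.prt_ok.dat (by norm_num)
        _ ≤ 1 := by
            have h1 := hT.small (n := 1) le_rfl
            linarith)
    (fun a _ y c => by split_ifs <;> norm_num)
    (fun a => E.N a.1 ×ˢ (univ : Finset Bool))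
    (fun a _ y c hne => by
      rw [mem_product]
      refine ⟨?_, mem_univ _⟩
      by_contra h1
      exact hne (if_neg fun h2 => h1 h2.2.2.1))
    19999 (fun a _ => nbd_card1 hE a.1)
    (fun y => by
      refine ⟨E.N y.1 ×ˢ univ, fun a _ ha => ?_, ?_⟩
      · rw [mem_product] at ha ⊢
        exact ⟨hE.prt_ok.dat.N_symm _ _ ha.1, mem_univ _⟩
      · rw [card_product, card_univ, Fintype.card_fin]
        push_cast
        calc ((E.N y.1).card : ℝ) * E.k ≤ E.T ^ 3600 * E.T ^ 4000 :=
              mul_le_mul (hE.prt_ok.dat.deg y.1) hE.prt_ok.dat.k_hi hk.le (by positivity)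
          _ = E.T ^ 7600 := by rw [← pow_add]
          _ ≤ E.T ^ 19999 := hT.pw (by norm_num))
  obtain ⟨κ, hκ, EE, S', hd, hp, hs, hi, hg⟩ := locOK_picks1 hE h
  refine ⟨κ, hκ, EE, S', hd, hp, hs, hi, fun ω hEE v c => ?_⟩
  have h2 := hg ω hEE (v, c) trivial
  have h3 : (((E.N v).filter fun z => E.lv z = E.j ∧ z ∈ E.L ∧ (ω z).1 = c).card : ℝ) =
      ∑ y : V × Bool, (if y.2 ∧ (if y.2 then (ω y.1).1 else (ω y.1).2.1) = c ∧ y.1 ∈ E.N v ∧
        E.lv y.1 = E.j ∧ y.1 ∈ E.L then (1 : ℝ) else 0) := by
    rw [Fintype.sum_prod_type]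
    simp only [Fintype.sum_bool, true_and, if_true, Bool.false_eq_true, false_and, if_false,
      add_zero]
    rw [← Finset.sum_filter, Finset.sum_const, nsmul_eq_mul, mul_one]
    congr 1
    apply congrArg
    ext z
    simp only [mem_filter, mem_univ, true_and]
    tauto
  rw [h3]
  refine h2.trans ?_
  calc 4 * E.T * 1 ≤ E.T * E.T := by
        rw [mul_one]
        exact mul_le_mul_of_nonneg_right (by linarith) hT0.le
    _ = E.T ^ 2 := by ring
    _ ≤ E.T ^ 4 := hT.pw (by norm_num)

end

end ORd

end

end Pool.Agent.AcyK
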