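import Pool.Agent.AcyK.OLaw
import Pool.Agent.AcyK.OStat
import Pool.Agent.AcyK.EvY
import Pool.Agent.AcyK.OBas
import Pool.Agent.AcyK.OExt

/-! # The outer process (project MP_af9dfb_K): row OC2, the counts c2, c5, c6 -/

set_option autoImplicit false
set_option linter.unusedSectionVars false

namespace Pool.Agent.AcyK

open Finset
open Pool.Agent.Acy (IsPM wt Ex Pr mean cnt Holds count_T Pr_mono)
open scoped Classical

universe u

section generic

variable {Q : Type*} [Fintype Q] [DecidableEq Q] {α : Type*} [Fintype α] [DecidableEq α]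

/-- Weighted counts of couples of picks of two different coordinates. -/
theorem couple_tailB {T : ℝ} (hT : Big T) {μ : Q → α → ℝ} (h : IsPM μ)
    (g : Q → α → Q → α → ℝ) (hg : ∀ u c u' c', 0 ≤ g u c u' c') (M : ℝ) (hM : 0 < M)
    (h0 : ∑ u, ∑ c, ∑ u', ∑ c', g u c u' c' * (μ u c * μ u' c') ≤ M)
    (h1 : ∀ u c, ∑ u', ∑ c', g u c u' c' * μ u' c' ≤ M / 2)
    (h1' : ∀ u' c', ∑ u, ∑ c, g u c u' c' * μ u c ≤ M / 2)
    (h2 : ∀ u c u' c', g u c u' c' ≤ M / 2) :
    Pr μ (fun ω => T ^ 4 * M ≤ ∑ u, ∑ u', if u ≠ u' then g u (ω u) u' (ω u') else 0) ≤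
      Real.exp (-(2 * T)) := by
  let w : (Q × α) × (Q × α) → ℝ := fun U =>
    if U.1.1 ≠ U.2.1 then g U.1.1 U.1.2 U.2.1 U.2.2 else 0
  let cd : (Q × α) × (Q × α) → Finset (Q × α) := fun U => {U.1, U.2}
  have hw : ∀ U, 0 ≤ w U := fun U => by
    simp only [w]
    split_ifs
    · exact hg _ _ _ _
    · exact le_rfl
  have hwg : ∀ U, w U ≤ g U.1.1 U.1.2 U.2.1 U.2.2 := fun U => by
    simp only [w]
    split_ifs
    · exact le_rfl
    · exact hg _ _ _ _
  have hHolds : ∀ (ω : Q → α) (u u' : Q) (c c' : α),
      Holds (cd ((u, c), (u', c'))) ω ↔ ω u = c ∧ ω u' = c' := by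
    intro ω u u' c c'
    constructor
    · intro hh
      exact ⟨hh (u, c) (by simp [cd]), hh (u', c') (by simp [cd])⟩
    · rintro ⟨ha, hb⟩ z hz
      simp only [cd, mem_insert, mem_singleton] at hz
      rcases hz with rfl | rfl
      · exact ha
      · exact hb
  have hcnt : ∀ ω : Q → α, (∑ u, ∑ u', if u ≠ u' then g u (ω u) u' (ω u') else 0) =
      cnt w cd ω := by
    intro ω
    unfold cnt
    rw [Fintype.sum_prod_type, Fintype.sum_prod_type]
    refine Finset.sum_congr rfl fun u _ => ?_
    rw [Finset.sum_eq_single (ω u)]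
    · rw [Fintype.sum_prod_type]
      refine Finset.sum_congr rfl fun u' _ => ?_
      rw [Finset.sum_eq_single (ω u')]
      · rw [if_pos ((hHolds _ _ _ _ _).2 ⟨rfl, rfl⟩)]
      · intro c' _ hc'
        rw [if_neg]
        intro hh
        exact hc' ((hHolds _ _ _ _ _).1 hh).2.symm
      · intro h
        exact absurd (mem_univ _) h
    · intro c _ hc
      refine Finset.sum_eq_zero fun U _ => ?_
      rw [if_neg]
      intro hh
      exact hc (hh (u, c) (by simp [cd])).symm
    · intro h
      exact absurd (mem_univ _) h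
  have hμ : ∀ q : Q × α, 0 ≤ μ q.1 q.2 := fun q => h.nonneg _ _
  have ht := count_T hT.old h μ (fun i a => le_rfl) w hw cd
    (fun U => by
      refine (card_insert_le _ _).trans ?_
      rw [card_singleton]
      norm_num) M hM (by
      intro W _
      unfold Pool.Agent.Acy.ext
      rcases lt_trichotomy W.card 1 with hc | hc | hc
      · -- no condition
        have hW : W = ∅ := card_eq_zero.1 (by omega)
        subst hW
        calc _ ≤ ∑ U : (Q × α) × (Q × α), g U.1.1 U.1.2 U.2.1 U.2.2 *
              (μ U.1.1 U.1.2 * μ U.2.1 U.2.2) := by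
              refine Finset.sum_le_sum fun U _ => ?_
              rw [if_pos (empty_subset _), sdiff_empty]
              have hn : 0 ≤ g U.1.1 U.1.2 U.2.1 U.2.2 * (μ U.1.1 U.1.2 * μ U.2.1 U.2.2) :=
                mul_nonneg (hg _ _ _ _) (mul_nonneg (hμ _) (hμ _))
              by_cases hU : U.1.1 = U.2.1
              · have : w U = 0 := by simp only [w, hU, ne_eq, not_true_eq_false, if_false]
                rw [this, zero_mul]
                exact hn
              · have h3 : U.1 ≠ U.2 := fun h4 => hU (congrArg Prod.fst h4)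
                simp only [cd]
                rw [Finset.prod_pair h3]
                exact mul_le_mul_of_nonneg_right (hwg U) (mul_nonneg (hμ _) (hμ _))
          _ = ∑ u, ∑ c, ∑ u', ∑ c', g u c u' c' * (μ u c * μ u' c') := by
              simp only [Fintype.sum_prod_type]
          _ ≤ M := h0
      · -- one condition
        obtain ⟨q, hq⟩ := card_eq_one.1 hc
        subst hq
        calc _ ≤ ∑ U : (Q × α) × (Q × α),
              ((if U.1 = q then g q.1 q.2 U.2.1 U.2.2 * μ U.2.1 U.2.2 else 0) +
               (if U.2 = q then g U.1.1 U.1.2 q.1 q.2 * μ U.1.1 U.1.2 else 0)) := by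
              refine Finset.sum_le_sum fun U _ => ?_
              have hn1 : (0 : ℝ) ≤ if U.1 = q then g q.1 q.2 U.2.1 U.2.2 * μ U.2.1 U.2.2
                  else 0 := by
                split_ifs
                · exact mul_nonneg (hg _ _ _ _) (hμ _)
                · exact le_rfl
              have hn2 : (0 : ℝ) ≤ if U.2 = q then g U.1.1 U.1.2 q.1 q.2 * μ U.1.1 U.1.2
                  else 0 := by
                split_ifs
                · exact mul_nonneg (hg _ _ _ _) (hμ _)
                · exact le_rfl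
              by_cases h : {q} ⊆ cd U
              · rw [if_pos h]
                by_cases hU : U.1.1 = U.2.1
                · have : w U = 0 := by simp only [w, hU, ne_eq, not_true_eq_false, if_false]
                  rw [this, zero_mul]
                  linarith
                · have hne : U.1 ≠ U.2 := fun h4 => hU (congrArg Prod.fst h4)
                  have h3 : q ∈ cd U := h (mem_singleton_self q)
                  simp only [cd, mem_insert, mem_singleton] at h3
                  rcases h3 with h3 | h3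
                  · have h5 : cd U \ {q} = {U.2} := by
                      simp only [cd]
                      rw [h3, Finset.insert_sdiff_of_mem _ (mem_singleton_self _)]
                      rw [Finset.sdiff_eq_self_iff_disjoint, Finset.disjoint_singleton]
                      exact hne.symm
                    rw [h5, prod_singleton, if_pos h3.symm]
                    have h6 := mul_le_mul_of_nonneg_right (hwg U) (hμ U.2)
                    rw [← h3] at h6
                    linarith
                  · have h5 : cd U \ {q} = {U.1} := by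
                      simp only [cd]
                      rw [h3, Finset.pair_comm, Finset.insert_sdiff_of_mem _
                        (mem_singleton_self _)]
                      rw [Finset.sdiff_eq_self_iff_disjoint, Finset.disjoint_singleton]
                      exact hne
                    rw [h5, prod_singleton, if_pos (c := U.2 = q) h3.symm]
                    have h6 := mul_le_mul_of_nonneg_right (hwg U) (hμ U.1)
                    rw [← h3] at h6
                    linarith
              · rw [if_neg h]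
                linarith
          _ = ∑ u', ∑ c', g q.1 q.2 u' c' * μ u' c' + ∑ u, ∑ c, g u c q.1 q.2 * μ u c := by
              rw [Finset.sum_add_distrib]
              congr 1
              · rw [Fintype.sum_prod_type, Finset.sum_eq_single q]
                · simp only [if_true]
                  rw [Fintype.sum_prod_type]
                · intro y _ hy
                  simp only [hy, if_false, sum_const_zero]
                · intro h; exact absurd (mem_univ _) h
              · rw [Fintype.sum_prod_type_right, Finset.sum_eq_single q]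
                · simp only [if_true]
                  rw [Fintype.sum_prod_type]
                · intro y _ hy
                  simp only [hy, if_false, sum_const_zero]
                · intro h; exact absurd (mem_univ _) h
          _ ≤ M := by
              have := h1 q.1 q.2
              have := h1' q.1 q.2
              linarith
      · -- both conditions
        obtain ⟨q, hq, q', hq', hne'⟩ := one_lt_card.1 hc
        calc _ ≤ ∑ U : (Q × α) × (Q × α),
              ((if U = (q, q') then w U else 0) + (if U = (q', q) then w U else 0)) := by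
              refine Finset.sum_le_sum fun U _ => ?_
              have hn1 : (0 : ℝ) ≤ if U = (q, q') then w U else 0 := by
                split_ifs
                · exact hw U
                · exact le_rfl
              have hn2 : (0 : ℝ) ≤ if U = (q', q) then w U else 0 := by
                split_ifs
                · exact hw U
                · exact le_rfl
              by_cases h : W ⊆ cd U
              · rw [if_pos h]
                have h1 : cd U \ W = ∅ := by
                  rw [← card_eq_zero]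
                  rw [card_sdiff_of_subset h]
                  have : (cd U).card ≤ 2 := by
                    refine (card_insert_le _ _).trans ?_
                    rw [card_singleton]
                  omega
                rw [h1, prod_empty, mul_one]
                have h3 := h hq
                have h4 := h hq'
                simp only [cd, mem_insert, mem_singleton] at h3 h4
                rcases h3 with h3 | h3 <;> rcases h4 with h4 | h4
                · exact absurd (h3.trans h4.symm) hne'
                · have : U = (q, q') := by rw [h3, h4]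
                  rw [if_pos this]
                  linarith
                · have : U = (q', q) := by rw [h3, h4]
                  rw [if_pos (c := U = (q', q)) this]
                  linarith
                · exact absurd (h3.trans h4.symm) hne'
              · rw [if_neg h]
                linarith
          _ = w (q, q') + w (q', q) := by
              rw [Finset.sum_add_distrib]
              simp
          _ ≤ M := by
              have := (hwg (q, q')).trans (h2 q.1 q.2 q'.1 q'.2)
              have := (hwg (q', q)).trans (h2 q'.1 q'.2 q.1 q.2)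
              linarith)
  simpa only [hcnt] using ht

end generic

namespace ORd

section

variable {V : Type u} [Fintype V] [DecidableEq V] {E : ORd V} {C : V → Option (Fin E.k × ℕ)}

/-- The picks of a vertex: the real one (`true`) and the virtual one (`false`). -/
def pksB (E : ORd V) (ω : V → E.Pick) (y : V × Bool) : Fin E.k :=
  if y.2 then (ω y.1).1 else (ω y.1).2.1

/-- Indicator of a dangerous colour. -/
noncomputable def ihB (E : ORd V) (f : V × V) (y : V × Bool) (c : Fin E.k) : ℝ :=
  if E.hc f.1 f.2 y.1 c then 1 else 0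

theorem ih_nonnegB (f : V × V) (y : V × Bool) (c : Fin E.k) : 0 ≤ E.ihB f y c := by
  unfold ihB
  split_ifs
  · exact zero_le_one
  · exact le_rfl

theorem ih_le_oneB (f : V × V) (y : V × Bool) (c : Fin E.k) : E.ihB f y c ≤ 1 := by
  unfold ihB
  split_ifs
  · exact le_rfl
  · exact zero_le_one

theorem ih_sqB (f : V × V) (y : V × Bool) (c : Fin E.k) : E.ihB f y c * E.ihB f y c = E.ihB f y c := by
  unfold ihB
  split_ifs <;> norm_num

theorem hit_eqB (ω : V → E.Pick) (f : V × V) (z : V) : (E.hit f.1 f.2 z (ω z) : ℝ) =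
    ∑ b : Bool, E.ihB f (z, b) (E.pksB ω (z, b)) := by
  rw [Fintype.sum_bool]
  unfold hit ihB pksB
  push_cast
  rfl

theorem nh_eqB (ω : V → E.Pick) (f : V × V) : (E.nh ω f.1 f.2 : ℝ) =
    ∑ y : V × Bool, E.ihB f y (E.pksB ω y) := by
  unfold nh
  rw [Fintype.sum_prod_type]
  push_cast
  exact Finset.sum_congr rfl fun z _ => hit_eqB ω f z

/-- `n (n - 1)` as a sum over couples. -/
theorem sq_subB {β : Type*} [Fintype β] [DecidableEq β] (a : β → ℝ) (ha : ∀ y, a y * a y = a y) :
    (∑ y, a y) * ((∑ y, a y) - 1) = ∑ y, ∑ y', if y ≠ y' then a y * a y' else 0 := by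
  have h1 : ∀ y, (∑ y', if y ≠ y' then a y * a y' else 0) = a y * (∑ y', a y') - a y := by
    intro y
    have h2 : ∀ y', (if y ≠ y' then a y * a y' else 0) =
        a y * a y' - (if y' = y then a y' else 0) := by
      intro y'
      by_cases h : y = y'
      · subst h
        simp [ha]
      · rw [if_pos h, if_neg fun h' => h h'.symm, sub_zero]
    rw [Finset.sum_congr rfl fun y' _ => h2 y', Finset.sum_sub_distrib, ← Finset.mul_sum]
    simp
  rw [Finset.sum_congr rfl fun y _ => h1 y, Finset.sum_sub_distrib, ← Finset.sum_mul]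
  ring

/-- Weight of an index. -/
noncomputable def awB (E : ORd V) (x : V) (i : V × (V × V)) : ℝ :=
  if E.site i.1 x ∧ i.2 ∈ E.prs (E.j + 1) i.1 x ∧ E.rel i.2.1 i.2.2 then 1 else 0

theorem aw_nonnegB (x : V) (i : V × (V × V)) : 0 ≤ E.awB x i := by
  unfold awB
  split_ifs
  · exact zero_le_one
  · exact le_rfl

theorem aw_sumB (x : V) (F : V → V × V → ℝ) : (∑ u, if E.site u x then
    ∑ f ∈ E.prs (E.j + 1) u x, (if E.rel f.1 f.2 then F u f else 0) else 0) =
      ∑ i : V × (V × V), E.awB x i * F i.1 i.2 := by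
  rw [Fintype.sum_prod_type]
  refine Finset.sum_congr rfl fun u _ => ?_
  by_cases hu : E.site u x
  · rw [if_pos hu, ← Finset.sum_filter_add_sum_filter_not univ
      (fun f => f ∈ E.prs (E.j + 1) u x)]
    have h1 : (univ.filter fun f => f ∈ E.prs (E.j + 1) u x) = E.prs (E.j + 1) u x := by
      ext f
      simp
    have h2 : ∑ f with ¬ f ∈ E.prs (E.j + 1) u x, E.awB x (u, f) * F u f = 0 := by
      refine Finset.sum_eq_zero fun f hf => ?_
      have h3 : E.awB x (u, f) = 0 := by
        unfold awB
        rw [if_neg]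
        rintro ⟨-, h4, -⟩
        exact (mem_filter.1 hf).2 h4
      rw [h3, zero_mul]
    rw [h2, add_zero, h1]
    refine Finset.sum_congr rfl fun f hf => ?_
    unfold awB
    by_cases hr : E.rel f.1 f.2
    · rw [if_pos hr, if_pos ⟨hu, hf, hr⟩, one_mul]
    · rw [if_neg hr, if_neg fun h => hr h.2.2, zero_mul]
  · rw [if_neg hu]
    symm
    refine Finset.sum_eq_zero fun f _ => ?_
    unfold awB
    rw [if_neg fun h => hu h.1, zero_mul]

/-- Vertices on which the statistics at `x` depend. -/
noncomputable def SxB (E : ORd V) (x : V) : Finset V := E.N x ∪ (E.N x).biUnion E.N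

section
variable (hE : E.Ok C)
include hE

theorem Sx_cardB (x : V) : ((E.SxB x).card : ℝ) ≤ E.T ^ 7201 := by
  have hD := hE.prt_ok.dat
  have hT := hD.big
  have h1 : (E.SxB x).card ≤ (E.N x).card + ∑ z ∈ E.N x, (E.N z).card :=
    (card_union_le _ _).trans (Nat.add_le_add_left card_biUnion_le _)
  have h2 : ((E.SxB x).card : ℝ) ≤ (E.N x).card + ∑ z ∈ E.N x, ((E.N z).card : ℝ) := by
    exact_mod_cast h1
  have h3 : ∑ z ∈ E.N x, ((E.N z).card : ℝ) ≤ E.T ^ 3600 * E.T ^ 3600 := by
    calc ∑ z ∈ E.N x, ((E.N z).card : ℝ) ≤ ∑ _z ∈ E.N x, E.T ^ 3600 :=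
          Finset.sum_le_sum fun z _ => hD.deg z
      _ = (E.N x).card * E.T ^ 3600 := by rw [sum_const, nsmul_eq_mul]
      _ ≤ _ := mul_le_mul_of_nonneg_right (hD.deg x) (pow_nonneg hT.pos.le _)
  rw [← pow_add, show 3600 + 3600 = 7200 from rfl] at h3
  have h4 := hD.deg x
  have h5 : E.T ^ 3600 ≤ E.T ^ 7200 := hT.pw (by norm_num)
  have h6 : 2 * E.T ^ 7200 ≤ E.T ^ 7201 := by
    have h7 : (2 : ℝ) ≤ E.T := by linarith [hT.big]
    have h8 : 0 ≤ E.T ^ 7200 := pow_nonneg hT.pos.le _
    rw [pow_succ]
    nlinarith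
  linarith

theorem Sx_symmB {x z : V} (h : z ∈ E.SxB x) : x ∈ E.SxB z := by
  have hD := hE.prt_ok.dat
  rcases mem_union.1 h with h | h
  · exact mem_union_left _ (hD.N_symm z x h)
  · obtain ⟨y, hy, hz⟩ := mem_biUnion.1 h
    exact mem_union_right _ (mem_biUnion.2 ⟨y, hD.N_symm z y hz, hD.N_symm y x hy⟩)

theorem Sx_degB (z : V) : ((univ.filter fun x => z ∈ E.SxB x).card : ℝ) ≤ E.T ^ 7201 := by
  refine le_trans ?_ (Sx_cardB hE z)
  exact_mod_cast card_le_card fun x hx => Sx_symmB hE (mem_filter.1 hx).2

theorem site_memB {u x z : V} {c : Fin E.k} (h : E.hc u x z c) : z ∈ E.SxB x :=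
  mem_union_left _ (hc_mem hE h).1

theorem prs_memB {u x z : V} {f : V × V} {j : ℕ} (hf : f ∈ E.prs j u x) {c : Fin E.k}
    (h : E.hc f.1 f.2 z c) : z ∈ E.SxB x := by
  have h1 := mem_filter.1 hf
  have h2 := mem_product.1 h1.1
  have h3 : f.1 ∈ cN E.N u x := h2.1
  have h4 : f.1 ∈ E.N x := by
    unfold cN at h3
    exact (mem_inter.1 h3).2
  exact mem_union_right _ (mem_biUnion.2 ⟨f.1, h4, (hc_mem hE h).2⟩)

/-- A local family of events that depend on the picks. -/
theorem loc_picksB (Φ : V → (V × Bool → Fin E.k) → ℝ) (B : ℝ)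
    (hdep : ∀ x π π', (∀ y : V × Bool, y.1 ∈ E.SxB x → π y = π' y) → Φ x π = Φ x π')
    (hpr : ∀ x, E.j < E.lv x → Pr (fun y : V × Bool => E.p y.1) (fun π => ¬ Φ x π ≤ B) ≤
      Real.exp (-E.T)) :
    LocOK 20000 E.T E.law (fun ω => ∀ x, E.j < E.lv x → Φ x (E.pksB ω) ≤ B) := by
  have hT := hE.prt_ok.dat.big
  refine ⟨V, inferInstance, fun x ω => E.j < E.lv x ∧ ¬ Φ x (E.pksB ω) ≤ B, E.SxB, ?_, ?_, ?_,
    ?_, ?_⟩
  · intro x ω ω' h
    have h1 : Φ x (E.pksB ω) = Φ x (E.pksB ω') := by
      refine hdep x _ _ fun y hy => ?_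
      unfold pksB
      rw [h y.1 (by exact_mod_cast hy)]
    simp only [h1]
  · intro x
    by_cases hx : E.j < E.lv x
    · have h1 := Pr_picks hE (fun π => ¬ Φ x π ≤ B)
      refine le_trans (Pr_mono (law_isPM hE) fun ω hω => hω.2) ?_
      exact h1.le.trans (hpr x hx)
    · have h1 : Pr E.law (fun ω => E.j < E.lv x ∧ ¬ Φ x (E.pksB ω) ≤ B) = 0 := by
        unfold Pr Ex
        refine sum_eq_zero fun ω _ => ?_
        simp only [hx, false_and, if_false, mul_zero]
      rw [h1]
      exact (Real.exp_pos _).le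
  · exact fun x => (Sx_cardB hE x).trans (hT.pw (by norm_num))
  · exact fun z => (Sx_degB hE z).trans (hT.pw (by norm_num))
  · intro ω h x hx
    exact not_not.1 fun h1 => h x ⟨hx, h1⟩

/-- Mean number of dangerous picks. -/
theorem sum_ihB (f : V × V) : ∑ y : V × Bool, ∑ c, E.ihB f y c * E.p y.1 c = 2 * E.H f.1 f.2 := by
  rw [Fintype.sum_prod_type, law_H_eq hE, Finset.mul_sum]
  refine Finset.sum_congr rfl fun z _ => ?_
  rw [Fintype.sum_bool]
  have h1 : ∀ b : Bool, ∑ c, E.ihB f (z, b) c * E.p z c =
      ∑ c, if E.hc f.1 f.2 z c then E.p z c else 0 := by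
    intro b
    refine Finset.sum_congr rfl fun c _ => ?_
    unfold ihB
    simp only [ite_mul, one_mul, zero_mul]
  rw [h1, h1]
  ring

theorem p_isPMB : IsPM (fun y : V × Bool => E.p y.1) :=
  ⟨fun y c => hE.p_pm.nonneg y.1 c, fun y => hE.p_pm.sum_one y.1⟩

theorem sum_aw_HB {x : V} (hx : E.j < E.lv x) :
    ∑ i : V × (V × V), E.awB x i * E.H i.2.1 i.2.2 ≤ E.T ^ 7097 := by
  rw [← aw_sumB x (fun _ f => E.H f.1 f.2)]
  exact sumH2 hE hx

theorem sum_aw_ihB {x : V} (hx : E.j < E.lv x) (y : V × Bool) (c : Fin E.k) :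
    ∑ i : V × (V × V), E.awB x i * E.ihB i.2 y c ≤ E.T ^ 6960 := by
  rw [← aw_sumB x (fun _ f => E.ihB f y c)]
  refine le_trans (le_of_eq ?_) (ext2 hE (z := y.1) (c := c) hx)
  refine Finset.sum_congr rfl fun u _ => ?_
  by_cases hu : E.site u x
  · rw [if_pos hu, if_pos hu, Finset.card_filter]
    push_cast
    refine Finset.sum_congr rfl fun f _ => ?_
    unfold ihB
    by_cases hr : E.rel f.1 f.2
    · by_cases h : E.hc f.1 f.2 y.1 c
      · rw [if_pos hr, if_pos h, if_pos ⟨hr, h⟩]
      · rw [if_pos hr, if_neg h, if_neg fun h' => h h'.2]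
    · rw [if_neg hr, if_neg fun h' => hr h'.1]
  · rw [if_neg hu, if_neg hu]

theorem sum_aw_ih1B {x : V} (hx : E.j < E.lv x) (y : V × Bool) (c : Fin E.k) :
    ∑ i : V × (V × V), E.awB x i * E.ihB (i.1, x) y c ≤ E.T ^ 5761 := by
  have hD := hE.prt_ok.dat
  have hT := hD.big
  rw [← aw_sumB x (fun u _ => E.ihB (u, x) y c)]
  calc _ ≤ ∑ u, (if E.site u x ∧ E.hc u x y.1 c then E.T ^ 4004 else 0) := by
        refine Finset.sum_le_sum fun u _ => ?_
        by_cases hu : E.site u x
        · rw [if_pos hu]
          by_cases h : E.hc u x y.1 c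
          · rw [if_pos ⟨hu, h⟩]
            calc _ ≤ ∑ _f ∈ E.prs (E.j + 1) u x, (1 : ℝ) := by
                  refine Finset.sum_le_sum fun f _ => ?_
                  split_ifs
                  · exact ih_le_oneB _ _ _
                  · exact zero_le_one
              _ = (E.prs (E.j + 1) u x).card := by simp
              _ ≤ E.T ^ 4004 := OData.prs_card hD hu.1.2.2.2.2 _
          · rw [if_neg fun h' => h h'.2]
            refine le_of_eq (Finset.sum_eq_zero fun f _ => ?_)
            unfold ihB
            rw [if_neg h]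
            split_ifs <;> rfl
        · rw [if_neg hu, if_neg fun h' => hu h'.1]
    _ = ((univ.filter fun u => E.site u x ∧ E.hc u x y.1 c).card : ℝ) * E.T ^ 4004 := by
        rw [← Finset.sum_filter, Finset.sum_const, nsmul_eq_mul]
    _ ≤ E.T ^ 1757 * E.T ^ 4004 :=
        mul_le_mul_of_nonneg_right (ext1 hE hx) (pow_nonneg hT.pos.le _)
    _ = E.T ^ 5761 := by rw [← pow_add]

theorem aw_neB {x : V} {i : V × (V × V)} (h : E.awB x i ≠ 0) :
    E.site i.1 x ∧ i.2 ∈ E.prs (E.j + 1) i.1 x ∧ E.rel i.2.1 i.2.2 := by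
  unfold awB at h
  by_contra h'
  exact h (if_neg h')

theorem ih_depB {x : V} {f : V × V}
    (hf : ∀ (y : V × Bool) c, E.hc f.1 f.2 y.1 c → y.1 ∈ E.SxB x)
    {π π' : V × Bool → Fin E.k} (h : ∀ y : V × Bool, y.1 ∈ E.SxB x → π y = π' y)
    (y : V × Bool) : E.ihB f y (π y) = E.ihB f y (π' y) := by
  by_cases hy : y.1 ∈ E.SxB x
  · rw [h y hy]
  · unfold ihB
    rw [if_neg fun h' => hy (hf y _ h'), if_neg fun h' => hy (hf y _ h')]

theorem two_pwB (n : ℕ) : 2 * E.T ^ n ≤ E.T ^ (n + 1) := by
  have hT := hE.prt_ok.dat.big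
  have h7 : (2 : ℝ) ≤ E.T := by linarith [hT.big]
  have h8 : 0 ≤ E.T ^ n := pow_nonneg hT.pos.le _
  rw [pow_succ]
  nlinarith

/-- Couples of dangerous picks. -/
theorem couple_locB (q : V → V × (V × V) → V × V)
    (hq1 : ∀ x i, E.awB x i ≠ 0 → E.H (q x i).1 (q x i).2 ≤ 1 / E.T ^ 923)
    (hq2 : ∀ x i, E.awB x i ≠ 0 → ∀ (y : V × Bool) c, E.hc (q x i).1 (q x i).2 y.1 c →
      y.1 ∈ E.SxB x) (e b : ℕ) (he : 6175 ≤ e) (hb : e + 5 ≤ b)
    (hK : ∀ x, E.j < E.lv x → ∀ y c, ∑ i, E.awB x i * E.ihB (q x i) y c ≤ E.T ^ e) :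
    LocOK 20000 E.T E.law (fun ω => ∀ x, E.j < E.lv x → ∑ i, E.awB x i * (∑ y, ∑ y',
      if y ≠ y' then E.ihB (q x i) y (E.pksB ω y) * E.ihB i.2 y' (E.pksB ω y') else 0) ≤
        E.T ^ b) := by
  have hD := hE.prt_ok.dat
  have hT := hD.big
  have hT0 := hT.pos
  have hT1 := hT.one_le
  refine loc_picksB hE (fun x π => ∑ i, E.awB x i * (∑ y, ∑ y',
      if y ≠ y' then E.ihB (q x i) y (π y) * E.ihB i.2 y' (π y') else 0)) (E.T ^ b) ?_ ?_
  · intro x π π' h
    refine Finset.sum_congr rfl fun i _ => ?_
    by_cases hi : E.awB x i = 0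
    · rw [hi, zero_mul, zero_mul]
    · congr 1
      refine Finset.sum_congr rfl fun y _ => Finset.sum_congr rfl fun y' _ => ?_
      rw [ih_depB hE (hq2 x i hi) h y, ih_depB hE (fun y c hc => prs_memB hE (aw_neB hE hi).2.1 hc) h y']
  · intro x hx
    set M : ℝ := 2 * E.T ^ e with hMdef
    have hM : 0 < M := by positivity
    have hM2 : M / 2 = E.T ^ e := by rw [hMdef]; ring
    have hH0 : ∀ f : V × V, 0 ≤ E.H f.1 f.2 := fun f => H_nonneg hE _ _
    have hinv : (1 : ℝ) / E.T ^ 923 ≤ 1 := by
      rw [div_le_one (by positivity)]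
      exact one_le_pow₀ hT1
    have hinv0 : (0 : ℝ) ≤ 1 / E.T ^ 923 := by positivity
    have hinv2 : 2 * (1 / E.T ^ 923) ≤ 1 := by
      have h1 : (1 : ℝ) / E.T ^ 923 ≤ 1 / 1000000 := hT.small (by norm_num)
      linarith
    let g : V × Bool → Fin E.k → V × Bool → Fin E.k → ℝ := fun y c y' c' =>
      ∑ i, E.awB x i * (E.ihB (q x i) y c * E.ihB i.2 y' c')
    have hg : ∀ y c y' c', 0 ≤ g y c y' c' := fun y c y' c' => Finset.sum_nonneg fun i _ =>
      mul_nonneg (aw_nonnegB _ _) (mul_nonneg (ih_nonnegB _ _ _) (ih_nonnegB _ _ _))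
    -- one fixed pick
    have hA : ∀ y' : V × Bool, ∀ c', ∑ y : V × Bool, ∑ c, g y c y' c' * E.p y.1 c =
        ∑ i, E.awB x i * (E.ihB i.2 y' c' * (2 * E.H (q x i).1 (q x i).2)) := by
      intro y' c'
      have h1 : ∀ y : V × Bool, ∑ c, g y c y' c' * E.p y.1 c = ∑ i, E.awB x i *
          (E.ihB i.2 y' c' * ∑ c, E.ihB (q x i) y c * E.p y.1 c) := by
        intro y
        simp only [g, Finset.sum_mul]
        rw [Finset.sum_comm]
        refine Finset.sum_congr rfl fun i _ => ?_
        rw [Finset.mul_sum, Finset.mul_sum]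
        exact Finset.sum_congr rfl fun c _ => by ring
      rw [Finset.sum_congr rfl fun y _ => h1 y, Finset.sum_comm]
      refine Finset.sum_congr rfl fun i _ => ?_
      rw [← Finset.mul_sum, ← Finset.mul_sum, sum_ihB hE]
    have hB : ∀ y : V × Bool, ∀ c, ∑ y' : V × Bool, ∑ c', g y c y' c' * E.p y'.1 c' =
        ∑ i, E.awB x i * (E.ihB (q x i) y c * (2 * E.H i.2.1 i.2.2)) := by
      intro y c
      have h1 : ∀ y' : V × Bool, ∑ c', g y c y' c' * E.p y'.1 c' = ∑ i, E.awB x i *
          (E.ihB (q x i) y c * ∑ c', E.ihB i.2 y' c' * E.p y'.1 c') := by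
        intro y'
        simp only [g, Finset.sum_mul]
        rw [Finset.sum_comm]
        refine Finset.sum_congr rfl fun i _ => ?_
        rw [Finset.mul_sum, Finset.mul_sum]
        exact Finset.sum_congr rfl fun c _ => by ring
      rw [Finset.sum_congr rfl fun y _ => h1 y, Finset.sum_comm]
      refine Finset.sum_congr rfl fun i _ => ?_
      rw [← Finset.mul_sum, ← Finset.mul_sum, sum_ihB hE]
    have hfH : ∀ i, E.awB x i ≠ 0 → E.H i.2.1 i.2.2 ≤ 1 / E.T ^ 923 :=
      fun i hi => H_le hE (aw_neB hE hi).2.2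
    have ht := couple_tailB hT (p_isPMB hE) g hg M hM (by
        -- mean
        have h1 : ∑ y : V × Bool, ∑ c, ∑ y' : V × Bool, ∑ c', g y c y' c' *
            (E.p y.1 c * E.p y'.1 c') = ∑ i, E.awB x i *
              ((2 * E.H (q x i).1 (q x i).2) * (2 * E.H i.2.1 i.2.2)) := by
          have h2 : ∀ (y : V × Bool) c, ∑ y' : V × Bool, ∑ c', g y c y' c' *
              (E.p y.1 c * E.p y'.1 c') = ∑ i, E.awB x i *
                ((E.ihB (q x i) y c * E.p y.1 c) * (2 * E.H i.2.1 i.2.2)) := by
            intro y c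
            have h3 : ∀ y' : V × Bool, ∑ c', g y c y' c' * (E.p y.1 c * E.p y'.1 c') =
                E.p y.1 c * ∑ c', g y c y' c' * E.p y'.1 c' := by
              intro y'
              rw [Finset.mul_sum]
              exact Finset.sum_congr rfl fun c' _ => by ring
            rw [Finset.sum_congr rfl fun y' _ => h3 y', ← Finset.mul_sum, hB, Finset.mul_sum]
            exact Finset.sum_congr rfl fun i _ => by ring
          rw [Finset.sum_congr rfl fun y _ => Finset.sum_congr rfl fun c _ => h2 y c]
          have h4 : ∀ y : V × Bool, ∑ c, ∑ i, E.awB x i *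
              ((E.ihB (q x i) y c * E.p y.1 c) * (2 * E.H i.2.1 i.2.2)) =
              ∑ i, E.awB x i * ((∑ c, E.ihB (q x i) y c * E.p y.1 c) *
                (2 * E.H i.2.1 i.2.2)) := by
            intro y
            rw [Finset.sum_comm]
            refine Finset.sum_congr rfl fun i _ => ?_
            rw [Finset.sum_mul, Finset.mul_sum]
          rw [Finset.sum_congr rfl fun y _ => h4 y, Finset.sum_comm]
          refine Finset.sum_congr rfl fun i _ => ?_
          rw [← Finset.mul_sum, ← Finset.sum_mul, sum_ihB hE]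
        rw [h1]
        calc _ ≤ ∑ i : V × (V × V), 4 * (1 / E.T ^ 923) * (E.awB x i * E.H i.2.1 i.2.2) := by
              refine Finset.sum_le_sum fun i _ => ?_
              by_cases hi : E.awB x i = 0
              · rw [hi]
                simp
              · have h2 := mul_le_mul_of_nonneg_right (hq1 x i hi)
                  (mul_nonneg (aw_nonnegB (E := E) x i) (hH0 i.2))
                linarith
          _ = 4 * (1 / E.T ^ 923) * ∑ i : V × (V × V), E.awB x i * E.H i.2.1 i.2.2 := by
              rw [Finset.mul_sum]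
          _ ≤ 4 * (1 / E.T ^ 923) * E.T ^ 7097 :=
              mul_le_mul_of_nonneg_left (sum_aw_HB hE hx) (by positivity)
          _ = 4 * E.T ^ 6174 := by
              have h3 : E.T ^ 7097 = E.T ^ 6174 * E.T ^ 923 := by rw [← pow_add]
              rw [h3]
              field_simp
          _ ≤ M := by
              have h3 := two_pwB hE 6174
              have h4 : E.T ^ (6174 + 1) ≤ E.T ^ e := hT.pw he
              rw [hMdef]
              linarith) (by
        -- the first pick fixed
        intro y c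
        rw [hB, hM2]
        calc _ ≤ ∑ i, E.awB x i * E.ihB (q x i) y c := by
              refine Finset.sum_le_sum fun i _ => ?_
              by_cases hi : E.awB x i = 0
              · rw [hi]
                simp
              · have h2 : 2 * E.H i.2.1 i.2.2 ≤ 1 := by
                  have := hfH i hi
                  linarith
                exact mul_le_mul_of_nonneg_left
                  (mul_le_of_le_one_right (ih_nonnegB _ _ _) h2) (aw_nonnegB _ _)
          _ ≤ _ := hK x hx y c) (by
        -- the second pick fixed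
        intro y' c'
        rw [hA, hM2]
        calc _ ≤ ∑ i : V × (V × V), 2 * (1 / E.T ^ 923) * (E.awB x i * E.ihB i.2 y' c') := by
              refine Finset.sum_le_sum fun i _ => ?_
              by_cases hi : E.awB x i = 0
              · rw [hi]
                simp
              · have h2 := mul_le_mul_of_nonneg_right (hq1 x i hi)
                  (mul_nonneg (aw_nonnegB (E := E) x i) (ih_nonnegB (E := E) i.2 y' c'))
                linarith
          _ = 2 * (1 / E.T ^ 923) * ∑ i : V × (V × V), E.awB x i * E.ihB i.2 y' c' := by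
              rw [Finset.mul_sum]
          _ ≤ 2 * (1 / E.T ^ 923) * E.T ^ 6960 :=
              mul_le_mul_of_nonneg_left (sum_aw_ihB hE hx y' c') (by positivity)
          _ = 2 * E.T ^ 6037 := by
              have h3 : E.T ^ 6960 = E.T ^ 6037 * E.T ^ 923 := by rw [← pow_add]
              rw [h3]
              field_simp
          _ ≤ _ := (two_pwB hE 6037).trans (hT.pw (by omega))) (by
        -- both fixed
        intro y c y' c'
        rw [hM2]
        refine le_trans (Finset.sum_le_sum fun i _ => ?_) (hK x hx y c)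
        exact mul_le_mul_of_nonneg_left
          (mul_le_of_le_one_right (ih_nonnegB _ _ _) (ih_le_oneB _ _ _)) (aw_nonnegB _ _))
    have hexp : Real.exp (-(2 * E.T)) ≤ Real.exp (-E.T) := Real.exp_le_exp.mpr (by linarith)
    refine le_trans (Pr_mono (p_isPMB hE) fun π hπ => ?_) (ht.trans hexp)
    have h1 : ∑ y : V × Bool, ∑ y' : V × Bool, (if y ≠ y' then g y (π y) y' (π y') else 0) =
        ∑ i, E.awB x i * (∑ y : V × Bool, ∑ y' : V × Bool,
          if y ≠ y' then E.ihB (q x i) y (π y) * E.ihB i.2 y' (π y') else 0) := by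
      have h2 : ∀ i, E.awB x i * (∑ y : V × Bool, ∑ y' : V × Bool,
          if y ≠ y' then E.ihB (q x i) y (π y) * E.ihB i.2 y' (π y') else 0) =
          ∑ y : V × Bool, ∑ y' : V × Bool,
            if y ≠ y' then E.awB x i * (E.ihB (q x i) y (π y) * E.ihB i.2 y' (π y'))
            else 0 := by
        intro i
        rw [Finset.mul_sum]
        refine Finset.sum_congr rfl fun y _ => ?_
        rw [Finset.mul_sum]
        refine Finset.sum_congr rfl fun y' _ => ?_
        rw [mul_ite, mul_zero]
      symm
      rw [Finset.sum_congr rfl fun i _ => h2 i, Finset.sum_comm]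
      refine Finset.sum_congr rfl fun y _ => ?_
      rw [Finset.sum_comm]
      refine Finset.sum_congr rfl fun y' _ => ?_
      by_cases hy : y ≠ y'
      · simp only [if_pos hy, g]
      · simp only [if_neg hy, sum_const_zero]
    rw [h1]
    refine le_trans ?_ (not_le.1 hπ).le
    calc E.T ^ 4 * M = 2 * E.T ^ (e + 4) := by rw [hMdef, pow_add]; ring
      _ ≤ E.T ^ (e + 4 + 1) := two_pwB hE _
      _ ≤ E.T ^ b := hT.pw (by omega)

theorem loc_c2 : LocOK 20000 E.T E.law (fun ω => ∀ x, E.j < E.lv x →
    ∑ u, (if E.site u x then ∑ f ∈ E.prs (E.j + 1) u x,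
    (if E.rel f.1 f.2 then (E.nh ω f.1 f.2 : ℝ) else 0) else 0) ≤ E.T ^ 7110) := by
  have hD := hE.prt_ok.dat
  have hT := hD.big
  have hT0 := hT.pos
  have key := loc_picksB hE (fun x π => ∑ i : V × (V × V), E.awB x i * ∑ y, E.ihB i.2 y (π y))
    (E.T ^ 7110) (by
      intro x π π' h
      refine Finset.sum_congr rfl fun i _ => ?_
      by_cases hi : E.awB x i = 0
      · rw [hi, zero_mul, zero_mul]
      · congr 1
        refine Finset.sum_congr rfl fun y _ => ?_
        rw [ih_depB hE (fun y c hc => prs_memB hE (aw_neB hE hi).2.1 hc) h y]) (by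
      intro x hx
      have hexp : Real.exp (-(2 * E.T)) ≤ Real.exp (-E.T) := Real.exp_le_exp.mpr (by linarith)
      have ht := single_tail hT (p_isPMB hE)
        (fun y c => ∑ i : V × (V × V), E.awB x i * E.ihB i.2 y c)
        (fun y c => Finset.sum_nonneg fun i _ => mul_nonneg (aw_nonnegB _ _) (ih_nonnegB _ _ _))
        (2 * E.T ^ 7097) (by positivity) (by
          have h1 : ∑ y : V × Bool, ∑ c, (∑ i : V × (V × V), E.awB x i * E.ihB i.2 y c) *
              E.p y.1 c = ∑ i : V × (V × V), E.awB x i * (2 * E.H i.2.1 i.2.2) := by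
            have h2 : ∀ y : V × Bool, ∑ c, (∑ i : V × (V × V), E.awB x i * E.ihB i.2 y c) *
                E.p y.1 c = ∑ i : V × (V × V), E.awB x i * ∑ c, E.ihB i.2 y c * E.p y.1 c := by
              intro y
              simp only [Finset.sum_mul]
              rw [Finset.sum_comm]
              refine Finset.sum_congr rfl fun i _ => ?_
              rw [Finset.mul_sum]
              exact Finset.sum_congr rfl fun c _ => by ring
            rw [Finset.sum_congr rfl fun y _ => h2 y, Finset.sum_comm]
            refine Finset.sum_congr rfl fun i _ => ?_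
            rw [← Finset.mul_sum, sum_ihB hE]
          rw [h1]
          have h3 : ∑ i : V × (V × V), E.awB x i * (2 * E.H i.2.1 i.2.2) =
              2 * ∑ i : V × (V × V), E.awB x i * E.H i.2.1 i.2.2 := by
            rw [Finset.mul_sum]
            exact Finset.sum_congr rfl fun i _ => by ring
          rw [h3]
          have := sum_aw_HB hE hx
          linarith) (by
          intro y c
          have h1 := sum_aw_ihB hE hx y c
          have h2 : E.T ^ 6960 ≤ E.T ^ 7097 := hT.pw (by norm_num)
          have h3 : 0 ≤ E.T ^ 7097 := by positivity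
          linarith)
      refine le_trans (Pr_mono (p_isPMB hE) fun π hπ => ?_) (ht.trans hexp)
      have h1 : ∑ y : V × Bool, (∑ i : V × (V × V), E.awB x i * E.ihB i.2 y (π y)) =
          ∑ i : V × (V × V), E.awB x i * ∑ y : V × Bool, E.ihB i.2 y (π y) := by
        rw [Finset.sum_comm]
        refine Finset.sum_congr rfl fun i _ => ?_
        rw [Finset.mul_sum]
      rw [h1]
      refine le_trans ?_ (not_le.1 hπ).le
      calc E.T ^ 4 * (2 * E.T ^ 7097) = 2 * E.T ^ (4 + 7097) := by rw [pow_add]; ring
        _ ≤ E.T ^ (4 + 7097 + 1) := two_pwB hE _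
        _ ≤ E.T ^ 7110 := hT.pw (by norm_num))
  obtain ⟨κ, hκ, EE, S', hd, hp, hs, hi, hg⟩ := key
  refine ⟨κ, hκ, EE, S', hd, hp, hs, hi, fun ω hω x hx => ?_⟩
  have h1 := hg ω hω x hx
  rw [aw_sumB x (fun _ f => (E.nh ω f.1 f.2 : ℝ))]
  simp only [nh_eqB]
  exact h1

theorem loc_c5 : LocOK 20000 E.T E.law (fun ω => ∀ x, E.j < E.lv x →
    ∑ u, (if E.site u x then ∑ f ∈ E.prs (E.j + 1) u x,
    (if E.rel f.1 f.2 then (E.nh ω f.1 f.2 : ℝ) * ((E.nh ω f.1 f.2 : ℝ) - 1) else 0)
      else 0) ≤ E.T ^ 6975) := by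
  have key := couple_locB hE (fun _ i => i.2) (fun x i hi => H_le hE (aw_neB hE hi).2.2)
    (fun x i hi y c hc => prs_memB hE (aw_neB hE hi).2.1 hc) 6960 6975 (by norm_num)
    (by norm_num) (fun x hx y c => sum_aw_ihB hE hx y c)
  obtain ⟨κ, hκ, EE, S', hd, hp, hs, hi, hg⟩ := key
  refine ⟨κ, hκ, EE, S', hd, hp, hs, hi, fun ω hω x hx => ?_⟩
  have h1 := hg ω hω x hx
  rw [aw_sumB x (fun _ f => (E.nh ω f.1 f.2 : ℝ) * ((E.nh ω f.1 f.2 : ℝ) - 1))]
  simp only [nh_eqB]
  refine le_trans (le_of_eq ?_) h1
  refine Finset.sum_congr rfl fun i _ => ?_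
  rw [sq_subB _ fun y => ih_sqB _ _ _]

theorem loc_c6 : LocOK 20000 E.T E.law (fun ω => ∀ x, E.j < E.lv x →
    ∑ u, (if E.site u x then ∑ f ∈ E.prs (E.j + 1) u x,
    (if E.rel f.1 f.2 then ∑ z, ∑ z' ∈ univ.erase z,
      (E.hit u x z (ω z) : ℝ) * E.hit f.1 f.2 z' (ω z') else 0) else 0) ≤ E.T ^ 6200) := by
  have hT := hE.prt_ok.dat.big
  have key := couple_locB hE (fun x i => (i.1, x)) (fun x i hi => H_le hE (aw_neB hE hi).1.1)
    (fun x i hi y c hc => site_memB hE hc) 6175 6200 (by norm_num)
    (by norm_num) (fun x hx y c => (sum_aw_ih1B hE hx y c).trans (hT.pw (by norm_num)))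
  obtain ⟨κ, hκ, EE, S', hd, hp, hs, hi, hg⟩ := key
  refine ⟨κ, hκ, EE, S', hd, hp, hs, hi, fun ω hω x hx => ?_⟩
  have h1 := hg ω hω x hx
  rw [aw_sumB x (fun u f => ∑ z, ∑ z' ∈ univ.erase z,
      (E.hit u x z (ω z) : ℝ) * E.hit f.1 f.2 z' (ω z'))]
  refine le_trans (Finset.sum_le_sum fun i _ => mul_le_mul_of_nonneg_left ?_ (aw_nonnegB _ _)) h1
  rw [Fintype.sum_prod_type]
  refine Finset.sum_le_sum fun z _ => ?_
  have h2 : ∀ z', (E.hit i.1 x z (ω z) : ℝ) * E.hit i.2.1 i.2.2 z' (ω z') =
      ∑ b : Bool, ∑ b' : Bool, E.ihB (i.1, x) (z, b) (E.pksB ω (z, b)) *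
        E.ihB i.2 (z', b') (E.pksB ω (z', b')) := by
    intro z'
    have h3 := hit_eqB ω (i.1, x) z
    have h4 := hit_eqB ω i.2 z'
    rw [h3, h4, Finset.sum_mul_sum]
  have h5 : ∀ b : Bool, ∑ y' : V × Bool, (if ((z, b) : V × Bool) ≠ y' then
      E.ihB (i.1, x) (z, b) (E.pksB ω (z, b)) * E.ihB i.2 y' (E.pksB ω y') else 0) ≥
      ∑ z' ∈ univ.erase z, ∑ b' : Bool, E.ihB (i.1, x) (z, b) (E.pksB ω (z, b)) *
        E.ihB i.2 (z', b') (E.pksB ω (z', b')) := by
    intro b
    rw [Fintype.sum_prod_type, ge_iff_le]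
    have h6 : ∑ z' ∈ univ.erase z, ∑ b' : Bool, E.ihB (i.1, x) (z, b) (E.pksB ω (z, b)) *
        E.ihB i.2 (z', b') (E.pksB ω (z', b')) =
        ∑ z' ∈ univ.erase z, ∑ b' : Bool, (if ((z, b) : V × Bool) ≠ (z', b') then
          E.ihB (i.1, x) (z, b) (E.pksB ω (z, b)) * E.ihB i.2 (z', b') (E.pksB ω (z', b'))
          else 0) := by
      refine Finset.sum_congr rfl fun z' hz' => Finset.sum_congr rfl fun b' _ => ?_
      rw [if_pos]
      intro h
      exact (mem_erase.1 hz').1 (congrArg Prod.fst h).symm
    rw [h6]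
    refine Finset.sum_le_sum_of_subset_of_nonneg (Finset.subset_univ _) fun z' _ _ =>
      Finset.sum_nonneg fun b' _ => ?_
    split_ifs
    · exact mul_nonneg (ih_nonnegB _ _ _) (ih_nonnegB _ _ _)
    · exact le_rfl
  calc _ = ∑ b : Bool, ∑ z' ∈ univ.erase z, ∑ b' : Bool,
        E.ihB (i.1, x) (z, b) (E.pksB ω (z, b)) * E.ihB i.2 (z', b') (E.pksB ω (z', b')) := by
        rw [Finset.sum_comm]
        exact Finset.sum_congr rfl fun z' _ => h2 z'
    _ ≤ _ := Finset.sum_le_sum fun b _ => h5 b

end

end

end ORd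

end Pool.Agent.AcyK
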