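import Pool.Agent.AcyK.OPick
import Pool.Agent.AcyK.OExt

/-! # The outer process: products of numbers of dangerous picks (row OC3) -/

set_option autoImplicit false
set_option linter.unusedSectionVars false

namespace Pool.Agent.AcyK

open Finset
open Pool.Agent.Acy (IsPM wt Ex Pr mean)
open scoped Classical

universe u v w

/-- Real form of the union bound. -/
theorem card_biUnion_real3 {α β : Type*} [DecidableEq β] (s : Finset α) (f : α → Finset β)
    {a B : ℝ} (hs : (s.card : ℝ) ≤ a) (hB : 0 ≤ B) (h : ∀ x ∈ s, ((f x).card : ℝ) ≤ B) :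
    ((s.biUnion f).card : ℝ) ≤ a * B := by
  have h1 : ((s.biUnion f).card : ℝ) ≤ ∑ x ∈ s, ((f x).card : ℝ) := by
    exact_mod_cast card_biUnion_le
  have h2 : ∑ x ∈ s, ((f x).card : ℝ) ≤ s.card * B := by
    have := sum_le_card_nsmul s (fun x => ((f x).card : ℝ)) B h
    rwa [nsmul_eq_mul] at this
  exact h1.trans (h2.trans (mul_le_mul_of_nonneg_right hs hB))

namespace ORd

section

variable {V : Type u} [Fintype V] [DecidableEq V]

variable (E : ORd V)

/-- Both pairs are active. -/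
def bb3 (a : V × V) (u : V) : Prop := E.act u a.1 ∧ E.act u a.2

/-- Indicator of a dangerous colour. -/
noncomputable def ci3 (u x z : V) (c : Fin E.k) : ℝ := if E.hc u x z c then 1 else 0

/-- Weights with one condition. -/
noncomputable def g31 (a : V × V) (y : V × Bool) (c : Fin E.k) : ℝ :=
  ∑ u, if E.bb3 a u then E.ci3 u a.1 y.1 c * E.ci3 u a.2 y.1 c else 0

/-- Weights with two conditions. -/
noncomputable def g32 (a : V × V) (y : V × Bool) (c : Fin E.k) (y' : V × Bool) (c' : Fin E.k) :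
    ℝ :=
  ∑ u, if E.bb3 a u then E.ci3 u a.1 y.1 c * E.ci3 u a.2 y'.1 c' else 0

/-- Relevant indices. -/
def P3 (a : V × V) : Prop := E.j < E.lv a.1 ∧ E.lv a.1 = E.lv a.2 ∧ a.1 ≠ a.2 ∧
  E.cod a.1 a.2 ≤ E.T ^ 3000 ∧ ∃ u, E.bb3 a u

variable {E}

theorem ci3_nonneg (u x z : V) (c : Fin E.k) : 0 ≤ E.ci3 u x z c := by
  unfold ci3
  split_ifs <;> norm_num

theorem ci3_le (u x z : V) (c : Fin E.k) : E.ci3 u x z c ≤ 1 := by
  unfold ci3
  split_ifs <;> norm_num

theorem g31_nonneg (a : V × V) (y : V × Bool) (c : Fin E.k) : 0 ≤ E.g31 a y c := by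
  refine sum_nonneg fun u _ => ?_
  split_ifs
  · exact mul_nonneg (ci3_nonneg _ _ _ _) (ci3_nonneg _ _ _ _)
  · exact le_rfl

theorem g32_nonneg (a : V × V) (y : V × Bool) (c : Fin E.k) (y' : V × Bool) (c' : Fin E.k) :
    0 ≤ E.g32 a y c y' c' := by
  refine sum_nonneg fun u _ => ?_
  split_ifs
  · exact mul_nonneg (ci3_nonneg _ _ _ _) (ci3_nonneg _ _ _ _)
  · exact le_rfl

/-- The product of the numbers of dangerous picks. -/
theorem sum_nh_nh3 (a : V × V) (ω : V → E.Pick) :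
    ∑ u, (if E.act u a.1 ∧ E.act u a.2 then (E.nh ω u a.1 : ℝ) * E.nh ω u a.2 else 0) =
      (∑ y, E.g31 a y (E.picks ω y)) +
      ∑ y, ∑ y' ∈ univ.erase y, E.g32 a y (E.picks ω y) y' (E.picks ω y') := by
  have h1 : ∀ u, (if E.act u a.1 ∧ E.act u a.2 then (E.nh ω u a.1 : ℝ) * E.nh ω u a.2 else 0) =
      ∑ y : V × Bool, ∑ y' : V × Bool, if E.bb3 a u then
        E.ci3 u a.1 y.1 (E.picks ω y) * E.ci3 u a.2 y'.1 (E.picks ω y') else 0 := by
    intro u
    by_cases h : E.bb3 a u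
    · have h' : E.act u a.1 ∧ E.act u a.2 := h
      rw [if_pos h', nh_eq, nh_eq, sum_mul_sum]
      refine sum_congr rfl fun y _ => sum_congr rfl fun y' _ => ?_
      rw [if_pos h]
      rfl
    · have h' : ¬ (E.act u a.1 ∧ E.act u a.2) := h
      rw [if_neg h']
      symm
      refine sum_eq_zero fun y _ => sum_eq_zero fun y' _ => ?_
      rw [if_neg h]
  rw [sum_congr rfl fun u _ => h1 u, sum_comm, ← sum_add_distrib]
  refine sum_congr rfl fun y _ => ?_
  rw [sum_comm, ← add_sum_erase univ _ (mem_univ y)]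
  rfl

section
variable {C : V → Option (Fin E.k × ℕ)} (hE : E.Ok C)
include hE

/-- Number of `u` for which a colour is dangerous. -/
theorem sum_ci3 {x : V} (hx : E.j < E.lv x) (z : V) (c : Fin E.k) :
    ∑ u, (if E.act u x then E.ci3 u x z c else 0) ≤ E.T ^ 1757 := by
  refine le_trans ?_ (ext1 hE (x := x) (z := z) (c := c) hx)
  have h1 : ((univ.filter fun u => E.site u x ∧ E.hc u x z c).card : ℝ) =
      ∑ u, if E.site u x ∧ E.hc u x z c then (1 : ℝ) else 0 := by
    rw [sum_boole]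
  rw [h1]
  refine sum_le_sum fun u _ => ?_
  unfold ci3
  by_cases h : E.act u x
  · rw [if_pos h]
    by_cases h' : E.hc u x z c
    · rw [if_pos h', if_pos ⟨h.1, h'⟩]
    · rw [if_neg h', if_neg fun h'' => h' h''.2]
  · rw [if_neg h]
    split_ifs <;> norm_num

/-- The mean number of dangerous picks. -/
theorem sum_ci3_p (u x : V) : ∑ y : V × Bool, ∑ c, E.ci3 u x y.1 c * E.p y.1 c = 2 * E.H u x := by
  rw [Fintype.sum_prod_type, H_eq hE, mul_sum]
  refine sum_congr rfl fun z _ => ?_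
  rw [Fintype.sum_bool, ← two_mul]
  congr 1
  refine sum_congr rfl fun c _ => ?_
  unfold ci3
  split_ifs <;> simp

theorem sum_act_H3 {x : V} (hx : E.j < E.lv x) : ∑ u, (if E.act u x then E.H u x else 0) ≤
    E.T ^ 3093 := by
  refine le_trans (sum_le_sum fun u _ => ?_) (sumH1 hE hx)
  by_cases h : E.act u x
  · rw [if_pos h, if_pos h.1]
  · rw [if_neg h]
    split_ifs
    · exact H_nonneg hE u x
    · exact le_rfl

theorem g31_le {a : V × V} (ha : E.P3 a) (y : V × Bool) (c : Fin E.k) :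
    E.g31 a y c ≤ E.T ^ 1757 := by
  refine le_trans (sum_le_sum fun u _ => ?_) (sum_ci3 hE ha.1 y.1 c)
  by_cases h : E.bb3 a u
  · rw [if_pos h, if_pos h.1]
    exact mul_le_of_le_one_right (ci3_nonneg _ _ _ _) (ci3_le _ _ _ _)
  · rw [if_neg h]
    split_ifs
    · exact ci3_nonneg _ _ _ _
    · exact le_rfl

theorem g32_le {a : V × V} (ha : E.P3 a) (y : V × Bool) (c : Fin E.k) (y' : V × Bool)
    (c' : Fin E.k) : E.g32 a y c y' c' ≤ E.T ^ 1757 := by
  refine le_trans (sum_le_sum fun u _ => ?_) (sum_ci3 hE ha.1 y.1 c)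
  by_cases h : E.bb3 a u
  · rw [if_pos h, if_pos h.1]
    exact mul_le_of_le_one_right (ci3_nonneg _ _ _ _) (ci3_le _ _ _ _)
  · rw [if_neg h]
    split_ifs
    · exact ci3_nonneg _ _ _ _
    · exact le_rfl

theorem g31_sum {a : V × V} (ha : E.P3 a) :
    ∑ y, ∑ c, E.g31 a y c * E.p y.1 c ≤
      2 * (2 * (E.A a.1 a.2).card * E.T ^ 273 + E.T ^ 1645) := by
  have h1 := sumBoth hE ha.1 ha.2.1 ha.2.2.1
  have h2 : ∑ y : V × Bool, ∑ c, E.g31 a y c * E.p y.1 c =
      2 * ∑ u, (if E.act u a.1 ∧ E.act u a.2 then ∑ z, ∑ c, (if E.hc u a.1 z c ∧ E.hc u a.2 z c then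
      E.p z c else 0) else 0) := by
    have h3 : ∀ y : V × Bool, ∑ c, E.g31 a y c * E.p y.1 c =
        ∑ u, if E.act u a.1 ∧ E.act u a.2 then
          ∑ c, (if E.hc u a.1 y.1 c ∧ E.hc u a.2 y.1 c then E.p y.1 c else 0) else 0 := by
      intro y
      unfold g31
      simp only [sum_mul]
      rw [sum_comm]
      refine sum_congr rfl fun u _ => ?_
      by_cases h : E.bb3 a u
      · have h' : E.act u a.1 ∧ E.act u a.2 := h
        rw [if_pos h']
        refine sum_congr rfl fun c _ => ?_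
        rw [if_pos h]
        unfold ci3
        by_cases h4 : E.hc u a.1 y.1 c <;> by_cases h5 : E.hc u a.2 y.1 c <;> simp [h4, h5]
      · have h' : ¬ (E.act u a.1 ∧ E.act u a.2) := h
        rw [if_neg h']
        refine sum_eq_zero fun c _ => ?_
        rw [if_neg h, zero_mul]
    rw [sum_congr rfl fun y _ => h3 y, Fintype.sum_prod_type]
    simp only [Fintype.sum_bool]
    rw [sum_add_distrib, ← two_mul, sum_comm]
    congr 1
    refine sum_congr rfl fun u _ => ?_
    by_cases h : E.act u a.1 ∧ E.act u a.2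
    · simp only [h, and_self, if_true]
    · simp only [h, if_false, sum_const_zero]
  rw [h2]
  linarith

theorem g32_sum {a : V × V} (ha : E.P3 a) :
    ∑ y, ∑ c, ∑ y', ∑ c', E.g32 a y c y' c' * (E.p y.1 c * E.p y'.1 c') ≤ 4 * E.T ^ 2170 := by
  have hT := hE.prt_ok.dat.big.pos
  have h1 : ∑ y, ∑ c, ∑ y', ∑ c', E.g32 a y c y' c' * (E.p y.1 c * E.p y'.1 c') =
      ∑ u, if E.bb3 a u then (2 * E.H u a.1) * (2 * E.H u a.2) else 0 := by
    have h2 : ∀ u, (if E.bb3 a u then (2 * E.H u a.1) * (2 * E.H u a.2) else 0) =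
        ∑ y : V × Bool, ∑ c, ∑ y' : V × Bool, ∑ c', (if E.bb3 a u then
          E.ci3 u a.1 y.1 c * E.ci3 u a.2 y'.1 c' else 0) * (E.p y.1 c * E.p y'.1 c') := by
      intro u
      by_cases h : E.bb3 a u
      · simp only [if_pos h]
        rw [← sum_ci3_p hE, ← sum_ci3_p hE, sum_mul]
        refine sum_congr rfl fun y _ => ?_
        rw [sum_mul]
        refine sum_congr rfl fun c _ => ?_
        rw [mul_sum]
        refine sum_congr rfl fun y' _ => ?_
        rw [mul_sum]
        refine sum_congr rfl fun c' _ => ?_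
        ring
      · simp [if_neg h]
    rw [sum_congr rfl fun u _ => h2 u]
    unfold g32
    simp only [sum_mul]
    symm
    rw [sum_comm]
    refine sum_congr rfl fun y _ => ?_
    rw [sum_comm]
    refine sum_congr rfl fun c _ => ?_
    rw [sum_comm]
    refine sum_congr rfl fun y' _ => ?_
    rw [sum_comm]
  rw [h1]
  have h3 : ∀ u, (if E.bb3 a u then (2 * E.H u a.1) * (2 * E.H u a.2) else 0) ≤
      4 * (1 / E.T ^ 923) * (if E.act u a.1 then E.H u a.1 else 0) := by
    intro u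
    by_cases h : E.bb3 a u
    · rw [if_pos h, if_pos h.1]
      have h4 := H_le hE h.2.1.1
      have h5 := H_nonneg hE u a.1
      nlinarith
    · rw [if_neg h]
      refine mul_nonneg (by positivity) ?_
      split_ifs
      · exact H_nonneg hE u a.1
      · exact le_rfl
  refine (sum_le_sum fun u _ => h3 u).trans ?_
  rw [← mul_sum]
  calc 4 * (1 / E.T ^ 923) * ∑ u, (if E.act u a.1 then E.H u a.1 else 0) ≤
      4 * (1 / E.T ^ 923) * E.T ^ 3093 :=
        mul_le_mul_of_nonneg_left (sum_act_H3 hE ha.1) (by positivity)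
    _ = 4 * E.T ^ 2170 := by
        have h6 : E.T ^ 3093 = E.T ^ 923 * E.T ^ 2170 := by rw [← pow_add]
        rw [h6]
        field_simp

theorem g32_sum1 {a : V × V} (ha : E.P3 a) (y : V × Bool) (c : Fin E.k) :
    ∑ y', ∑ c', E.g32 a y c y' c' * E.p y'.1 c' ≤ 2 * E.T ^ 1757 := by
  have hT := hE.prt_ok.dat.big.pos
  have hs := hE.prt_ok.dat.big.small (n := 923) (by norm_num)
  have h1 : ∑ y', ∑ c', E.g32 a y c y' c' * E.p y'.1 c' =
      ∑ u, if E.bb3 a u then E.ci3 u a.1 y.1 c * (2 * E.H u a.2) else 0 := by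
    have h2 : ∀ u, (if E.bb3 a u then E.ci3 u a.1 y.1 c * (2 * E.H u a.2) else 0) =
        ∑ y' : V × Bool, ∑ c', (if E.bb3 a u then
          E.ci3 u a.1 y.1 c * E.ci3 u a.2 y'.1 c' else 0) * E.p y'.1 c' := by
      intro u
      by_cases h : E.bb3 a u
      · simp only [if_pos h]
        rw [← sum_ci3_p hE, mul_sum]
        refine sum_congr rfl fun y' _ => ?_
        rw [mul_sum]
        refine sum_congr rfl fun c' _ => ?_
        ring
      · simp [if_neg h]
    rw [sum_congr rfl fun u _ => h2 u]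
    unfold g32
    simp only [sum_mul]
    symm
    rw [sum_comm]
    refine sum_congr rfl fun y' _ => ?_
    rw [sum_comm]
  rw [h1]
  have h3 : ∀ u, (if E.bb3 a u then E.ci3 u a.1 y.1 c * (2 * E.H u a.2) else 0) ≤
      2 * (if E.act u a.1 then E.ci3 u a.1 y.1 c else 0) := by
    intro u
    by_cases h : E.bb3 a u
    · rw [if_pos h, if_pos h.1]
      have h4 := H_le hE h.2.1.1
      have h5 := H_nonneg hE u a.2
      have h6 := ci3_nonneg (E := E) u a.1 y.1 c
      nlinarith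
    · rw [if_neg h]
      refine mul_nonneg (by norm_num) ?_
      split_ifs
      · exact ci3_nonneg _ _ _ _
      · exact le_rfl
  refine (sum_le_sum fun u _ => h3 u).trans ?_
  rw [← mul_sum]
  linarith [sum_ci3 hE ha.1 y.1 c]

theorem g32_sum2 {a : V × V} (ha : E.P3 a) (y' : V × Bool) (c' : Fin E.k) :
    ∑ y, ∑ c, E.g32 a y c y' c' * E.p y.1 c ≤ 2 * E.T ^ 1757 := by
  have hT := hE.prt_ok.dat.big.pos
  have hs := hE.prt_ok.dat.big.small (n := 923) (by norm_num)
  have h1 : ∑ y, ∑ c, E.g32 a y c y' c' * E.p y.1 c =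
      ∑ u, if E.bb3 a u then E.ci3 u a.2 y'.1 c' * (2 * E.H u a.1) else 0 := by
    have h2 : ∀ u, (if E.bb3 a u then E.ci3 u a.2 y'.1 c' * (2 * E.H u a.1) else 0) =
        ∑ y : V × Bool, ∑ c, (if E.bb3 a u then
          E.ci3 u a.1 y.1 c * E.ci3 u a.2 y'.1 c' else 0) * E.p y.1 c := by
      intro u
      by_cases h : E.bb3 a u
      · simp only [if_pos h]
        rw [← sum_ci3_p hE, mul_sum]
        refine sum_congr rfl fun y _ => ?_
        rw [mul_sum]
        refine sum_congr rfl fun c _ => ?_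
        ring
      · simp [if_neg h]
    rw [sum_congr rfl fun u _ => h2 u]
    unfold g32
    simp only [sum_mul]
    symm
    rw [sum_comm]
    refine sum_congr rfl fun y _ => ?_
    rw [sum_comm]
  rw [h1]
  have hx : E.j < E.lv a.2 := by rw [← ha.2.1]; exact ha.1
  have h3 : ∀ u, (if E.bb3 a u then E.ci3 u a.2 y'.1 c' * (2 * E.H u a.1) else 0) ≤
      2 * (if E.act u a.2 then E.ci3 u a.2 y'.1 c' else 0) := by
    intro u
    by_cases h : E.bb3 a u
    · rw [if_pos h, if_pos h.2]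
      have h4 := H_le hE h.1.1.1
      have h5 := H_nonneg hE u a.1
      have h6 := ci3_nonneg (E := E) u a.2 y'.1 c'
      nlinarith
    · rw [if_neg h]
      refine mul_nonneg (by norm_num) ?_
      split_ifs
      · exact ci3_nonneg _ _ _ _
      · exact le_rfl
  refine (sum_le_sum fun u _ => h3 u).trans ?_
  rw [← mul_sum]
  linarith [sum_ci3 hE hx y'.1 c']

/-- The coordinates on which the pair of pairs depends. -/
theorem c3_card (a : V × V) :
    (((E.N a.1 ∪ E.N a.2) ×ˢ (univ : Finset Bool)).card : ℝ) ≤ E.T ^ 3602 := by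
  have hD := hE.prt_ok.dat
  have h1 := hD.deg a.1
  have h2 := hD.deg a.2
  have h3 : ((E.N a.1 ∪ E.N a.2).card : ℝ) ≤ (E.N a.1).card + (E.N a.2).card := by
    exact_mod_cast card_union_le _ _
  rw [card_product, card_univ, Fintype.card_bool]
  push_cast
  have h4 : E.T ^ 3602 = E.T ^ 3600 * E.T ^ 2 := by rw [← pow_add]
  have h5 := hD.big.big
  have h6 : 0 < E.T ^ 3600 := pow_pos hD.big.pos _
  have h7 : 4 ≤ E.T ^ 2 := by nlinarith
  rw [h4]
  nlinarith

theorem c3_deg (y : V × Bool) : ∃ F : Finset (V × V), (∀ a, E.P3 a →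
    y ∈ (E.N a.1 ∪ E.N a.2) ×ˢ (univ : Finset Bool) → a ∈ F) ∧ (F.card : ℝ) ≤ E.T ^ 19000 := by
  have hD := hE.prt_ok.dat
  have hT := hD.big.pos
  set R : V → Finset V := fun x => univ.filter fun u => E.rel u x with hR
  have hRc : ∀ x, ((R x).card : ℝ) ≤ E.T ^ 4016 := fun x => OData.rel_card hD x
  set F1 : Finset (V × V) := (E.N y.1).biUnion fun x => (R x).biUnion fun u =>
    (R u).image fun x' => (x, x') with hF1
  have hF1c : (F1.card : ℝ) ≤ E.T ^ 3600 * (E.T ^ 4016 * E.T ^ 4016) := by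
    refine card_biUnion_real3 _ _ (hD.deg y.1) (by positivity) fun x _ => ?_
    refine card_biUnion_real3 _ _ (hRc x) (by positivity) fun u _ => ?_
    refine le_trans ?_ (hRc u)
    exact_mod_cast card_image_le
  refine ⟨F1 ∪ F1.image Prod.swap, ?_, ?_⟩
  · rintro ⟨x, x'⟩ ⟨-, -, -, -, u, hu, hu'⟩ hy
    rw [mem_product, mem_union] at hy
    simp only at hy hu hu'
    rw [mem_union]
    rcases hy.1 with h | h
    · left
      rw [hF1, mem_biUnion]
      refine ⟨x, hD.N_symm _ _ h, ?_⟩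
      rw [mem_biUnion]
      refine ⟨u, by rw [hR]; simp only [mem_filter, mem_univ, true_and]; exact hu.1.1, ?_⟩
      rw [mem_image]
      refine ⟨x', ?_, rfl⟩
      rw [hR]
      simp only [mem_filter, mem_univ, true_and]
      exact OData.rel_symm hD hu'.1.1
    · right
      rw [mem_image]
      refine ⟨(x', x), ?_, rfl⟩
      rw [hF1, mem_biUnion]
      refine ⟨x', hD.N_symm _ _ h, ?_⟩
      rw [mem_biUnion]
      refine ⟨u, by rw [hR]; simp only [mem_filter, mem_univ, true_and]; exact hu'.1.1, ?_⟩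
      rw [mem_image]
      refine ⟨x, ?_, rfl⟩
      rw [hR]
      simp only [mem_filter, mem_univ, true_and]
      exact OData.rel_symm hD hu.1.1
  · have h1 : ((F1 ∪ F1.image Prod.swap).card : ℝ) ≤ F1.card + F1.card := by
      have h2 : (F1 ∪ F1.image Prod.swap).card ≤ F1.card + F1.card :=
        (card_union_le _ _).trans (Nat.add_le_add_left card_image_le _)
      exact_mod_cast h2
    have h3 : E.T ^ 3600 * (E.T ^ 4016 * E.T ^ 4016) = E.T ^ 11632 := by
      rw [← pow_add, ← pow_add]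
    have h4 : E.T ^ 11633 ≤ E.T ^ 19000 := hD.big.pw (by norm_num)
    have h5 : E.T ^ 11633 = E.T ^ 11632 * E.T := by rw [← pow_succ]
    have h6 := hD.big.big
    have h7 : 0 < E.T ^ 11632 := by positivity
    rw [h3] at hF1c
    nlinarith

theorem loc_c31 : LocOK 19000 E.T (fun y : V × Bool => E.p y.1) (fun ϖ => ∀ a, E.P3 a →
    ∑ y, E.g31 a y (ϖ y) ≤ 4 * E.T * ((E.A a.1 a.2).card * E.T ^ 274 + E.T ^ 1757)) := by
  have hD := hE.prt_ok.dat
  have hT := hD.big
  have hT0 := hT.pos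
  have hTb := hT.big
  have hpm : IsPM (fun y : V × Bool => E.p y.1) :=
    ⟨fun y c => hE.p_pm.nonneg y.1 c, fun y => hE.p_pm.sum_one y.1⟩
  refine loc_single hT hpm E.P3 E.g31 (fun a y c => g31_nonneg a y c)
    (fun a => (E.A a.1 a.2).card * E.T ^ 274 + E.T ^ 1757) (fun a _ => by positivity)
    (fun a ha => (g31_sum hE ha).trans ?_)
    (fun a ha y c => (g31_le hE ha y c).trans ?_)
    (fun a => (E.N a.1 ∪ E.N a.2) ×ˢ univ) (fun a ha y c hne => ?_) 19000 (fun a _ => ?_)
    (fun y => c3_deg hE y)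
  · have h1 : E.T ^ 274 = E.T ^ 273 * E.T := by rw [← pow_succ]
    have h2 : E.T ^ 1646 = E.T ^ 1645 * E.T := by rw [← pow_succ]
    have h3 : E.T ^ 1646 ≤ E.T ^ 1757 := hT.pw (by norm_num)
    have h4 : 0 < E.T ^ 273 := by positivity
    have h5 : 0 < E.T ^ 1645 := by positivity
    have h6 : (0 : ℝ) ≤ (E.A a.1 a.2).card := by positivity
    have h7 : (0 : ℝ) ≤ (E.A a.1 a.2).card * E.T ^ 273 := by positivity
    rw [h1]
    nlinarith
  · have h6 : (0 : ℝ) ≤ (E.A a.1 a.2).card * E.T ^ 274 := by positivity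
    linarith
  · obtain ⟨u, -, hu⟩ := exists_ne_zero_of_sum_ne_zero hne
    have h1 : E.hc u a.1 y.1 c := by
      by_contra hcon
      apply hu
      unfold ci3
      rw [if_neg hcon, zero_mul, ite_self]
    rw [mem_product]
    exact ⟨mem_union_left _ (hc_mem hE h1).1, mem_univ _⟩
  · exact (c3_card hE a).trans (hT.pw (by norm_num))

theorem loc_c32 : LocOK 19000 E.T (fun y : V × Bool => E.p y.1) (fun ϖ => ∀ a, E.P3 a →
    ∑ y, ∑ y' ∈ univ.erase y, E.g32 a y (ϖ y) y' (ϖ y') ≤ 24 * E.T ^ 2 * E.T ^ 2171) := by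
  have hD := hE.prt_ok.dat
  have hT := hD.big
  have hT0 := hT.pos
  have hTb := hT.big
  have hpm : IsPM (fun y : V × Bool => E.p y.1) :=
    ⟨fun y c => hE.p_pm.nonneg y.1 c, fun y => hE.p_pm.sum_one y.1⟩
  have h1 : E.T ^ 2171 = E.T ^ 2170 * E.T := by rw [← pow_succ]
  have h2 : E.T ^ 1758 = E.T ^ 1757 * E.T := by rw [← pow_succ]
  have h3 : E.T ^ 1758 ≤ E.T ^ 2171 := hT.pw (by norm_num)
  have h4 : 0 < E.T ^ 2170 := by positivity
  have h5 : 0 < E.T ^ 1757 := by positivity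
  refine loc_two hT hpm E.P3 E.g32 (fun a y c y' c' => g32_nonneg a y c y' c')
    (fun _ => E.T ^ 2171) (fun a _ => by positivity)
    (fun a ha => (g32_sum hE ha).trans ?_)
    (fun a ha y c => (g32_sum1 hE ha y c).trans ?_)
    (fun a ha y' c' => (g32_sum2 hE ha y' c').trans ?_)
    (fun a ha y c y' c' => (g32_le hE ha y c y' c').trans (hT.pw (by norm_num)))
    (fun a => (E.N a.1 ∪ E.N a.2) ×ˢ univ) (fun a ha y c y' c' hne => ?_) 19000 (fun a _ => ?_)
    (fun y => c3_deg hE y)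
  · nlinarith
  · nlinarith
  · nlinarith
  · obtain ⟨u, -, hu⟩ := exists_ne_zero_of_sum_ne_zero hne
    have h1 : E.hc u a.1 y.1 c := by
      by_contra hcon
      apply hu
      unfold ci3
      rw [if_neg hcon, zero_mul, ite_self]
    have h2 : E.hc u a.2 y'.1 c' := by
      by_contra hcon
      apply hu
      unfold ci3
      rw [if_neg hcon, mul_zero, ite_self]
    rw [mem_product, mem_product]
    exact ⟨⟨mem_union_left _ (hc_mem hE h1).1, mem_univ _⟩,
      ⟨mem_union_right _ (hc_mem hE h2).1, mem_univ _⟩⟩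
  · exact (c3_card hE a).trans (hT.pw (by norm_num))

/-- Row OC3. -/
theorem loc_c3 : LocOK 20000 E.T E.law (fun ω => ∀ y y', E.j < E.lv y → E.lv y = E.lv y' →
    y ≠ y' → E.cod y y' ≤ E.T ^ 3000 →
    ∑ u, (if E.act u y ∧ E.act u y' then (E.nh ω u y : ℝ) * E.nh ω u y' else 0) ≤
      (E.A y y').card * E.T ^ 278 + E.T ^ 2200) := by
  have hD := hE.prt_ok.dat
  have hT := hD.big
  have hT0 := hT.pos
  have hTb := hT.big
  have h := loc_picks hE (LocOK.and hT (loc_c31 hE) (loc_c32 hE))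
  obtain ⟨κ, hκ, EE, S, hd, hp, hs, hi, hg⟩ := LocOK.mono hT h (show 19000 + 1 + 1 ≤ 20000 by norm_num)
  refine ⟨κ, hκ, EE, S, hd, hp, hs, hi, fun ω hω y y' hy hyy hne hc => ?_⟩
  by_cases hu : ∃ u, E.bb3 (y, y') u
  · have hP : E.P3 (y, y') := ⟨hy, hyy, hne, hc, hu⟩
    obtain ⟨h1, h2⟩ := hg ω hω
    have h3 := h1 (y, y') hP
    have h4 := h2 (y, y') hP
    have h5 := sum_nh_nh3 (E := E) (y, y') ω
    simp only at h3 h4 h5
    rw [h5]
    have e1 : E.T ^ 278 = E.T ^ 274 * E.T ^ 4 := by rw [← pow_add]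
    have e2 : E.T ^ 2200 = E.T ^ 2173 * E.T ^ 27 := by rw [← pow_add]
    have e3 : E.T ^ 2173 = E.T ^ 2 * E.T ^ 2171 := by rw [← pow_add]
    have e4 : E.T ^ 1758 = E.T ^ 1757 * E.T := by rw [← pow_succ]
    have e5 : E.T ^ 1758 ≤ E.T ^ 2173 := hT.pw (by norm_num)
    have e6 : E.T ≤ E.T ^ 4 := by
      have := hT.pw (show 1 ≤ 4 by norm_num)
      simpa using this
    have e7 : E.T ≤ E.T ^ 27 := by
      have := hT.pw (show 1 ≤ 27 by norm_num)
      simpa using this
    have e8 : 4 * E.T ≤ E.T ^ 4 := by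
      have : E.T ^ 4 = E.T * E.T ^ 3 := by ring
      have h9 : (4 : ℝ) ≤ E.T ^ 3 := by
        have := hT.pw (show 1 ≤ 3 by norm_num)
        rw [pow_one] at this
        linarith
      nlinarith
    have p1 : 0 < E.T ^ 274 := by positivity
    have p2 : 0 < E.T ^ 2173 := by positivity
    have p3 : (0 : ℝ) ≤ (E.A y y').card * E.T ^ 274 := by positivity
    have f1 : 4 * E.T * ((E.A y y').card * E.T ^ 274) ≤ (E.A y y').card * E.T ^ 278 := by
      rw [e1]
      nlinarith
    have f2 : 4 * E.T * E.T ^ 1757 + 24 * E.T ^ 2 * E.T ^ 2171 ≤ E.T ^ 2200 := by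
      rw [e2]
      nlinarith
    linarith
  · have h0 : ∑ u, (if E.act u y ∧ E.act u y' then (E.nh ω u y : ℝ) * E.nh ω u y' else 0) = 0 := by
      refine sum_eq_zero fun u _ => ?_
      rw [if_neg]
      intro h'
      exact hu ⟨u, h'⟩
    rw [h0]
    positivity

end

end

end ORd

end Pool.Agent.AcyK
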