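import Pool.Agent.AcyK.OBas
import Pool.Agent.AcyK.OLaw
import Pool.Agent.AcyK.DKind

/-! # Counts of coincidences in a round (row OC4) -/

set_option autoImplicit false
set_option linter.unusedSectionVars false

namespace Pool.Agent.AcyK

open Finset
open Pool.Agent.Acy (IsPM wt Ex Pr mean)
open scoped Classical

universe u v

section

variable {Q : Type u} [Fintype Q] [DecidableEq Q] {α β : Type*} [Fintype α] [Fintype β]

/-- A goal for the first components. -/
theorem LocOK.fst8 {e : ℕ} {T : ℝ} {μ : Q → α → ℝ} {ν : Q → β → ℝ} (hμ : IsPM μ)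
    (hν : IsPM ν) {G : (Q → α) → Prop} (h : LocOK e T μ G) :
    LocOK e T (prodLaw μ ν) (fun ω => G fun y => (ω y).1) := by
  obtain ⟨κ, hκ, E, S, hd, hp, hs, hi, hg⟩ := h
  refine ⟨κ, hκ, fun b ω => E b fun y => (ω y).1, S, ?_, ?_, hs, hi, ?_⟩
  · intro b ω ω' hω
    exact hd b fun i hi => by rw [hω i hi]
  · intro b
    rw [Pr_prodLaw_fst hμ hν]
    exact hp b
  · intro ω hω
    exact hg _ hω

theorem sum_swap8 (a b : Q → Q → ℝ) : ∑ z, ∑ z', ∑ u, a u z * b u z' =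
    ∑ u, (∑ z, a u z) * (∑ z', b u z') := by
  calc ∑ z, ∑ z', ∑ u, a u z * b u z' = ∑ z, ∑ u, ∑ z', a u z * b u z' :=
        sum_congr rfl fun z _ => sum_comm
    _ = ∑ u, ∑ z, ∑ z', a u z * b u z' := sum_comm
    _ = _ := sum_congr rfl fun u _ => by rw [sum_mul_sum]

/-- Consequences of a local goal. -/
theorem LocOK.weaken8 {e : ℕ} {T : ℝ} {μ : Q → α → ℝ} {G G' : (Q → α) → Prop}
    (h : LocOK e T μ G) (hG : ∀ ω, G ω → G' ω) : LocOK e T μ G' := by
  obtain ⟨κ, hκ, E, S, hd, hp, hs, hi, hg⟩ := h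
  exact ⟨κ, hκ, E, S, hd, hp, hs, hi, fun ω hω => hG ω (hg ω hω)⟩

end

section

variable {V : Type u} [Fintype V] [DecidableEq V]

namespace ORd

variable (E : ORd V)

/-- Indicator: `u x` is a site and `z` a tested vertex of it. -/
noncomputable def ind8 (u x z : V) : ℝ := if E.site u x ∧ z ∈ E.A u x ∩ E.L then 1 else 0

/-- Number of sites at `x` tested by both `z` and `z'`. -/
noncomputable def g8 (x z z' : V) : ℝ :=
  if z = z' then 0 else ∑ u, E.ind8 u x z * E.ind8 u x z'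

variable {E} {C : V → Option (Fin E.k × ℕ)}

theorem ind8_nonneg (u x z : V) : 0 ≤ E.ind8 u x z := by
  unfold ind8
  split_ifs <;> norm_num

theorem ind8_le (u x z : V) : E.ind8 u x z ≤ 1 := by
  unfold ind8
  split_ifs <;> norm_num

theorem g8_nonneg (x z z' : V) : 0 ≤ E.g8 x z z' := by
  unfold g8
  split_ifs
  · exact le_rfl
  · exact sum_nonneg fun u _ => mul_nonneg (ind8_nonneg _ _ _) (ind8_nonneg _ _ _)

theorem g8_le (x z z' : V) : E.g8 x z z' ≤ ∑ u, E.ind8 u x z * E.ind8 u x z' := by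
  unfold g8
  split_ifs
  · exact sum_nonneg fun u _ => mul_nonneg (ind8_nonneg _ _ _) (ind8_nonneg _ _ _)
  · exact le_rfl

theorem mem_A8 {u x z : V} : z ∈ E.A u x ↔ (z ∈ E.N u ∧ z ∈ E.N x) ∧ E.lv z = E.j := by
  unfold OPart.A OData.cj
  rw [mem_filter]
  unfold cN
  rw [mem_inter]

section
variable (hE : E.Ok C)
include hE

theorem sum_ind8 (u x : V) :
    ∑ z, E.ind8 u x z ≤ if E.site u x then E.T ^ 1471 else 0 := by
  unfold ind8
  by_cases hs : E.site u x
  · simp only [hs, true_and, if_true]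
    have h1 : (∑ z, if z ∈ E.A u x ∩ E.L then (1 : ℝ) else 0) = ((E.A u x ∩ E.L).card : ℝ) := by
      rw [← sum_filter, sum_const, nsmul_eq_mul, mul_one]
      congr 2
      ext z
      simp
    rw [h1]
    exact hE.LA u x hs.1.2.2.2.2
  · simp [hs]

theorem sum_site8 (x : V) (a : ℝ) (ha : 0 ≤ a) :
    ∑ u, (if E.site u x then a else 0) ≤ E.T ^ 4016 * a := by
  have hD := hE.prt_ok.dat
  rw [← sum_filter, sum_const, nsmul_eq_mul]
  refine mul_le_mul_of_nonneg_right ?_ ha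
  refine le_trans ?_ (OData.rel_card hD x)
  have h1 : (univ.filter fun u => E.site u x) ⊆ univ.filter fun u => E.rel u x := by
    intro u hu
    rw [mem_filter] at hu ⊢
    exact ⟨hu.1, hu.2.1⟩
  exact_mod_cast card_le_card h1

theorem sum_ind8_u (x z : V) : ∑ u, E.ind8 u x z ≤ 3 * E.T ^ 2800 := by
  have hD := hE.prt_ok.dat
  have h1 : ∑ u, E.ind8 u x z ≤
      (((E.N z).filter fun u => E.lv u = E.lv x).card : ℝ) := by
    unfold ind8
    rw [← sum_filter, sum_const, nsmul_eq_mul, mul_one]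
    have h2 : (univ.filter fun u => E.site u x ∧ z ∈ E.A u x ∩ E.L) ⊆
        (E.N z).filter fun u => E.lv u = E.lv x := by
      intro u hu
      rw [mem_filter] at hu ⊢
      have h3 := (mem_A8.1 (mem_inter.1 hu.2.2).1).1.1
      exact ⟨hD.N_symm _ _ h3, hu.2.1.1.2.1⟩
    exact_mod_cast card_le_card h2
  exact h1.trans (OData.b1 hD z (E.lv x))

theorem sum_p_mul8 (z z' : V) : ∑ c, E.p z c * E.p z' c ≤ 2 * E.T / E.k := by
  calc ∑ c, E.p z c * E.p z' c ≤ ∑ c, E.p z c * (2 * E.T / E.k) :=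
        sum_le_sum fun c _ => mul_le_mul_of_nonneg_left (hE.p_le z' c) (hE.p_pm.nonneg z c)
    _ = 2 * E.T / E.k := by rw [← sum_mul, hE.p_pm.sum_one, one_mul]

theorem c8_h0 (x : V) : ∑ z, ∑ z', ∑ c, E.g8 x z z' * (E.p z c * E.p z' c) ≤ E.T ^ 2962 := by
  have hD := hE.prt_ok.dat
  have hT := hD.big
  have hk := OData.k_pos hD
  have hT0 := hT.pos
  have hTb := hT.big
  norm_num at hTb
  calc ∑ z, ∑ z', ∑ c, E.g8 x z z' * (E.p z c * E.p z' c)
      ≤ ∑ z, ∑ z', (∑ u, E.ind8 u x z * E.ind8 u x z') * (2 * E.T / E.k) := by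
        refine sum_le_sum fun z _ => sum_le_sum fun z' _ => ?_
        rw [← mul_sum]
        exact mul_le_mul (g8_le x z z') (sum_p_mul8 hE z z')
          (sum_nonneg fun c _ => mul_nonneg (hE.p_pm.nonneg _ _) (hE.p_pm.nonneg _ _))
          (sum_nonneg fun u _ => mul_nonneg (ind8_nonneg _ _ _) (ind8_nonneg _ _ _))
    _ = (∑ u, (∑ z, E.ind8 u x z) * (∑ z', E.ind8 u x z')) * (2 * E.T / E.k) := by
        rw [← sum_swap8, sum_mul]
        exact sum_congr rfl fun z _ => by rw [sum_mul]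
    _ ≤ (E.T ^ 4016 * (E.T ^ 1471 * E.T ^ 1471)) * (2 * E.T / E.k) := by
        refine mul_le_mul_of_nonneg_right ?_ (by positivity)
        refine le_trans (sum_le_sum fun u _ => ?_) (sum_site8 hE x _ (by positivity))
        have h1 := sum_ind8 hE u x
        have h0 : 0 ≤ ∑ z, E.ind8 u x z := sum_nonneg fun z _ => ind8_nonneg _ _ _
        by_cases hs : E.site u x
        · rw [if_pos hs] at h1 ⊢
          exact mul_le_mul h1 h1 h0 (by positivity)
        · rw [if_neg hs] at h1 ⊢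
          have h2 : ∑ z, E.ind8 u x z = 0 := le_antisymm h1 h0
          rw [h2, zero_mul]
    _ = 2 * (E.T ^ 6959 / E.k) := by ring
    _ ≤ 2 * E.T ^ 2960 := mul_le_mul_of_nonneg_left (OData.div_k' hD (by norm_num)) (by norm_num)
    _ ≤ E.T ^ 2962 := by
        rw [show (2962 : ℕ) = 2960 + 2 from rfl, pow_add]
        have h1 : (2 : ℝ) ≤ E.T ^ 2 := by nlinarith
        have h2 : 0 < E.T ^ 2960 := by positivity
        nlinarith

theorem c8_h1 (x z : V) (c : Fin E.k) :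
    ∑ z', (E.g8 x z z' + E.g8 x z' z) * E.p z' c ≤ E.T ^ 2962 := by
  have hD := hE.prt_ok.dat
  have hT := hD.big
  have hk := OData.k_pos hD
  have hT0 := hT.pos
  have hTb := hT.big
  norm_num at hTb
  have hi : ∀ u, ∑ z', E.ind8 u x z' ≤ if E.site u x then E.T ^ 1471 else 0 :=
    fun u => sum_ind8 hE u x
  calc ∑ z', (E.g8 x z z' + E.g8 x z' z) * E.p z' c
      ≤ ∑ z', (∑ u, E.ind8 u x z * E.ind8 u x z' + ∑ u, E.ind8 u x z' * E.ind8 u x z) *
          (2 * E.T / E.k) := by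
        refine sum_le_sum fun z' _ => ?_
        exact mul_le_mul (add_le_add (g8_le x z z') (g8_le x z' z)) (hE.p_le z' c)
          (hE.p_pm.nonneg _ _) (add_nonneg
            (sum_nonneg fun u _ => mul_nonneg (ind8_nonneg _ _ _) (ind8_nonneg _ _ _))
            (sum_nonneg fun u _ => mul_nonneg (ind8_nonneg _ _ _) (ind8_nonneg _ _ _)))
    _ ≤ (∑ z', 2 * ∑ u, E.ind8 u x z') * (2 * E.T / E.k) := by
        rw [← sum_mul]
        refine mul_le_mul_of_nonneg_right (sum_le_sum fun z' _ => ?_) (by positivity)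
        rw [two_mul]
        refine add_le_add (sum_le_sum fun u _ => ?_) (sum_le_sum fun u _ => ?_)
        · exact mul_le_of_le_one_left (ind8_nonneg _ _ _) (ind8_le _ _ _)
        · exact mul_le_of_le_one_right (ind8_nonneg _ _ _) (ind8_le _ _ _)
    _ = 2 * (∑ u, ∑ z', E.ind8 u x z') * (2 * E.T / E.k) := by
        rw [← mul_sum, sum_comm]
    _ ≤ 2 * (E.T ^ 4016 * E.T ^ 1471) * (2 * E.T / E.k) := by
        refine mul_le_mul_of_nonneg_right (mul_le_mul_of_nonneg_left ?_ (by norm_num))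
          (by positivity)
        exact (sum_le_sum fun u _ => hi u).trans (sum_site8 hE x _ (by positivity))
    _ = 4 * (E.T ^ 5488 / E.k) := by ring
    _ ≤ 4 * E.T ^ 1489 := mul_le_mul_of_nonneg_left (OData.div_k' hD (by norm_num)) (by norm_num)
    _ ≤ E.T * E.T ^ 1489 := mul_le_mul_of_nonneg_right (by linarith) (by positivity)
    _ = E.T ^ 1490 := by ring
    _ ≤ E.T ^ 2962 := hT.pw (by norm_num)

theorem c8_h2 (x z z' : V) : E.g8 x z z' + E.g8 x z' z ≤ E.T ^ 2962 := by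
  have hD := hE.prt_ok.dat
  have hT := hD.big
  have hT0 := hT.pos
  have hTb := hT.big
  norm_num at hTb
  calc E.g8 x z z' + E.g8 x z' z ≤ ∑ u, E.ind8 u x z + ∑ u, E.ind8 u x z := by
        refine add_le_add ((g8_le x z z').trans (sum_le_sum fun u _ => ?_))
          ((g8_le x z' z).trans (sum_le_sum fun u _ => ?_))
        · exact mul_le_of_le_one_right (ind8_nonneg _ _ _) (ind8_le _ _ _)
        · exact mul_le_of_le_one_left (ind8_nonneg _ _ _) (ind8_le _ _ _)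
    _ ≤ 3 * E.T ^ 2800 + 3 * E.T ^ 2800 := add_le_add (sum_ind8_u hE x z) (sum_ind8_u hE x z)
    _ = 6 * E.T ^ 2800 := by ring
    _ ≤ E.T * E.T ^ 2800 := mul_le_mul_of_nonneg_right (by linarith) (by positivity)
    _ = E.T ^ 2801 := by ring
    _ ≤ E.T ^ 2962 := hT.pw (by norm_num)

theorem c8_S {x z z' : V} (h : E.g8 x z z' ≠ 0) :
    z ∈ (E.N x).filter (fun z => E.lv z = E.j) ∧
      z' ∈ (E.N x).filter (fun z => E.lv z = E.j) := by
  have h1 : ∃ u, E.ind8 u x z * E.ind8 u x z' ≠ 0 := by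
    by_contra hc
    push Not at hc
    apply h
    unfold g8
    split_ifs
    · rfl
    · exact sum_eq_zero fun u _ => hc u
  obtain ⟨u, hu⟩ := h1
  have h2 : E.ind8 u x z ≠ 0 := left_ne_zero_of_mul hu
  have h3 : E.ind8 u x z' ≠ 0 := right_ne_zero_of_mul hu
  have key : ∀ z, E.ind8 u x z ≠ 0 → z ∈ (E.N x).filter (fun z => E.lv z = E.j) := by
    intro z hz
    have h4 : E.site u x ∧ z ∈ E.A u x ∩ E.L := by
      by_contra hc
      exact hz (if_neg hc)
    have h5 := mem_A8.1 (mem_inter.1 h4.2).1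
    exact mem_filter.2 ⟨h5.1.2, h5.2⟩
  exact ⟨key z h2, key z' h3⟩

theorem loc_c8_fst : LocOK 20000 E.T E.p (fun ω => ∀ x, E.j < E.lv x →
    ∑ z, ∑ z', (if ω z = ω z' then E.g8 x z z' else 0) ≤ 12 * E.T ^ 2 * E.T ^ 2962) := by
  have hD := hE.prt_ok.dat
  have hT := hD.big
  have hT0 := hT.pos
  refine loc_pair (κ := V) hT hE.p_pm (fun x => E.j < E.lv x) (fun x z z' _ => E.g8 x z z')
    (fun x z z' _ => g8_nonneg x z z') (fun x z _ => by unfold g8; rw [if_pos rfl])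
    (fun _ => E.T ^ 2962) (fun _ _ => by positivity) (fun x _ => c8_h0 hE x)
    (fun x _ z c => c8_h1 hE x z c) (fun x _ z z' _ => c8_h2 hE x z z')
    (fun x => (E.N x).filter fun z => E.lv z = E.j)
    (fun x _ z z' _ h => c8_S hE h) 20000 (fun x _ => ?_) (fun y => ⟨E.N y, fun x _ hy => ?_, ?_⟩)
  · refine (OData.b1 hD x E.j).trans ?_
    have h1 : (3 : ℝ) * E.T ^ 2800 ≤ E.T * E.T ^ 2800 :=
      mul_le_mul_of_nonneg_right (by linarith [hT.big]) (by positivity)
    refine h1.trans ?_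
    rw [← pow_succ']
    exact hT.pw (by norm_num)
  · exact hD.N_symm _ _ (mem_filter.1 hy).1
  · exact (hD.deg y).trans (hT.pw (by norm_num))

theorem c8_count (ω : V → E.Pick) (x : V) :
    ((univ.filter fun u => E.site u x ∧ E.clash ω u x).card : ℝ) ≤
      ∑ z, ∑ z', (if (ω z).1 = (ω z').1 then E.g8 x z z' else 0) := by
  have h1 : ∑ z, ∑ z', (if (ω z).1 = (ω z').1 then E.g8 x z z' else 0) =
      ∑ u, ∑ z, ∑ z', (if (ω z).1 = (ω z').1 ∧ z ≠ z' then E.ind8 u x z * E.ind8 u x z'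
        else 0) := by
    calc ∑ z, ∑ z', (if (ω z).1 = (ω z').1 then E.g8 x z z' else 0)
        = ∑ z, ∑ z', ∑ u, (if (ω z).1 = (ω z').1 ∧ z ≠ z' then E.ind8 u x z * E.ind8 u x z'
          else 0) := by
          refine sum_congr rfl fun z _ => sum_congr rfl fun z' _ => ?_
          unfold g8
          by_cases ha : (ω z).1 = (ω z').1 <;> by_cases hb : z = z' <;> simp [ha, hb]
      _ = ∑ z, ∑ u, ∑ z', (if (ω z).1 = (ω z').1 ∧ z ≠ z' then E.ind8 u x z * E.ind8 u x z'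
          else 0) := sum_congr rfl fun z _ => sum_comm
      _ = _ := sum_comm
  rw [h1, card_filter]
  push_cast
  refine sum_le_sum fun u _ => ?_
  have hn : ∀ z z', (0 : ℝ) ≤ (if (ω z).1 = (ω z').1 ∧ z ≠ z' then
      E.ind8 u x z * E.ind8 u x z' else 0) := by
    intro z z'
    split_ifs
    · exact mul_nonneg (ind8_nonneg _ _ _) (ind8_nonneg _ _ _)
    · exact le_rfl
  split_ifs with h
  · obtain ⟨hs, z, hz, z', hz', hne, heq⟩ := h
    refine le_trans ?_ (single_le_sum (f := fun z => ∑ z', (if (ω z).1 = (ω z').1 ∧ z ≠ z' then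
      E.ind8 u x z * E.ind8 u x z' else 0)) (fun z _ => sum_nonneg fun z' _ => hn z z')
      (mem_univ z))
    refine le_trans ?_ (single_le_sum (f := fun z' => (if (ω z).1 = (ω z').1 ∧ z ≠ z' then
      E.ind8 u x z * E.ind8 u x z' else 0)) (fun z' _ => hn z z') (mem_univ z'))
    rw [if_pos ⟨heq, hne⟩]
    unfold ind8
    rw [if_pos ⟨hs, hz⟩, if_pos ⟨hs, hz'⟩, one_mul]
  · exact sum_nonneg fun z _ => sum_nonneg fun z' _ => hn z z'

theorem loc_c8 : LocOK 20000 E.T E.law (fun ω => ∀ x, E.j < E.lv x →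
    ((univ.filter fun u => E.site u x ∧ E.clash ω u x).card : ℝ) ≤ E.T ^ 2970) := by
  have hT := hE.prt_ok.dat.big
  have hT0 := hT.pos
  refine LocOK.weaken8 (LocOK.fst8 hE.p_pm (nu_isPM hE) (loc_c8_fst hE)) fun ω h x hx => ?_
  refine (c8_count hE ω x).trans ((h x hx).trans ?_)
  calc 12 * E.T ^ 2 * E.T ^ 2962 ≤ E.T * E.T ^ 2 * E.T ^ 2962 := by
        refine mul_le_mul_of_nonneg_right (mul_le_mul_of_nonneg_right ?_ (by positivity))
          (by positivity)
        linarith [hT.big]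
    _ = E.T ^ 2965 := by ring
    _ ≤ E.T ^ 2970 := hT.pw (by norm_num)

/-! ### Coincidences of two active pairs -/

/-- Vertices near `v`. -/
noncomputable def Z10 (E : ORd V) (v : V) : Finset V :=
  insert v (E.N v ∪ univ.filter fun u => E.rel u v)

omit hE in
theorem mem_Z10_self (v : V) : v ∈ Z10 E v := mem_insert_self _ _

omit hE in
theorem mem_Z10_N {v u : V} (h : u ∈ E.N v) : u ∈ Z10 E v :=
  mem_insert_of_mem (mem_union_left _ h)

omit hE in
theorem mem_Z10_rel {v u : V} (h : E.rel u v) : u ∈ Z10 E v :=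
  mem_insert_of_mem (mem_union_right _ (mem_filter.2 ⟨mem_univ _, h⟩))

theorem Z10_card (v : V) : ((Z10 E v).card : ℝ) ≤ E.T ^ 4017 := by
  have hD := hE.prt_ok.dat
  have hT := hD.big
  have hT0 := hT.pos
  have h1 : (Z10 E v).card ≤ 1 + ((E.N v).card + (univ.filter fun u => E.rel u v).card) := by
    unfold Z10
    refine (card_insert_le _ _).trans ?_
    have := card_union_le (E.N v) (univ.filter fun u => E.rel u v)
    omega
  have h2 : ((Z10 E v).card : ℝ) ≤
      1 + ((E.N v).card + ((univ.filter fun u => E.rel u v).card : ℝ)) := by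
    exact_mod_cast h1
  have h3 := hD.deg v
  have h4 := OData.rel_card hD v
  have h5 : E.T ^ 3600 ≤ E.T ^ 4016 := hT.pw (by norm_num)
  have h6 : (1 : ℝ) ≤ E.T ^ 4016 := one_le_pow₀ hT.one_le
  have h7 : 3 * E.T ^ 4016 ≤ E.T * E.T ^ 4016 :=
    mul_le_mul_of_nonneg_right (by linarith [hT.big]) (by positivity)
  have h8 : E.T * E.T ^ 4016 = E.T ^ 4017 := by ring
  linarith

/-- Couples of pairs near `y`. -/
noncomputable def F10 (E : ORd V) (y : V) : Finset (V × V × V × V) :=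
  ((E.N y ×ˢ E.N y).biUnion fun p => (Z10 E p.1 ×ˢ Z10 E p.1).image fun q =>
    (p.1, p.2, q.1, q.2)) ∪
  ((E.N y ×ˢ E.N y).biUnion fun p => (Z10 E p.1 ×ˢ Z10 E p.1).image fun q =>
    (q.1, q.2, p.1, p.2))

theorem F10_card (y : V) : ((F10 E y).card : ℝ) ≤ E.T ^ 16000 := by
  have hD := hE.prt_ok.dat
  have hT := hD.big
  have hT0 := hT.pos
  have key : ∀ f : V × V → V × V → V × V × V × V,
      ((((E.N y ×ˢ E.N y).biUnion fun p => (Z10 E p.1 ×ˢ Z10 E p.1).image (f p)).card : ℕ) : ℝ) ≤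
        E.T ^ 15234 := by
    intro f
    have h1 : ((E.N y ×ˢ E.N y).biUnion fun p => (Z10 E p.1 ×ˢ Z10 E p.1).image (f p)).card ≤
        ∑ p ∈ E.N y ×ˢ E.N y, (Z10 E p.1).card * (Z10 E p.1).card := by
      refine card_biUnion_le.trans (sum_le_sum fun p _ => ?_)
      refine card_image_le.trans ?_
      rw [card_product]
    have h2 : ((((E.N y ×ˢ E.N y).biUnion fun p =>
        (Z10 E p.1 ×ˢ Z10 E p.1).image (f p)).card : ℕ) : ℝ) ≤
        ∑ p ∈ E.N y ×ˢ E.N y, ((Z10 E p.1).card : ℝ) * (Z10 E p.1).card := by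
      exact_mod_cast h1
    calc _ ≤ _ := h2
      _ ≤ ∑ _p ∈ E.N y ×ˢ E.N y, E.T ^ 4017 * E.T ^ 4017 := by
          refine sum_le_sum fun p _ => ?_
          exact mul_le_mul (Z10_card hE _) (Z10_card hE _) (Nat.cast_nonneg _) (by positivity)
      _ = ((E.N y).card * (E.N y).card) * (E.T ^ 4017 * E.T ^ 4017) := by
          rw [sum_const, nsmul_eq_mul, card_product]
          push_cast
          ring
      _ ≤ (E.T ^ 3600 * E.T ^ 3600) * (E.T ^ 4017 * E.T ^ 4017) := by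
          refine mul_le_mul_of_nonneg_right ?_ (by positivity)
          exact mul_le_mul (hD.deg y) (hD.deg y) (Nat.cast_nonneg _) (by positivity)
      _ = E.T ^ 15234 := by ring
  have h3 : ((F10 E y).card : ℝ) ≤ E.T ^ 15234 + E.T ^ 15234 := by
    unfold F10
    refine le_trans (by exact_mod_cast card_union_le _ _) (add_le_add (key _) (key _))
  have h4 : E.T ^ 15234 + E.T ^ 15234 ≤ E.T * E.T ^ 15234 := by
    have : 0 < E.T ^ 15234 := by positivity
    nlinarith [hT.big]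
  have h5 : E.T * E.T ^ 15234 = E.T ^ 15235 := by ring
  have h6 : E.T ^ 15235 ≤ E.T ^ 16000 := hT.pw (by norm_num)
  linarith

/-- The couples of pairs for which coincidences are counted. -/
def P10 (E : ORd V) (a : V × V × V × V) : Prop :=
  E.act a.1 a.2.1 ∧ E.act a.2.2.1 a.2.2.2 ∧ E.near a.1 a.2.1 a.2.2.1 a.2.2.2

theorem mem_F10 {a : V × V × V × V} (h : P10 E a) {y : V}
    (hy : y ∈ E.A a.1 a.2.1 ∪ E.A a.2.2.1 a.2.2.2) : a ∈ F10 E y := by
  have hD := hE.prt_ok.dat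
  obtain ⟨u, x, u', x'⟩ := a
  obtain ⟨h1, h2, h3⟩ := h
  simp only at h1 h2 h3 hy
  unfold F10
  rcases mem_union.1 hy with hy | hy
  · have h4 := (mem_A8.1 hy).1
    refine mem_union_left _ (mem_biUnion.2 ⟨(u, x), mem_product.2 ⟨hD.N_symm _ _ h4.1,
      hD.N_symm _ _ h4.2⟩, mem_image.2 ⟨(u', x'), mem_product.2 ?_, rfl⟩⟩)
    rcases h3 with ⟨h5, h6⟩ | h5
    · unfold cN at h5 h6
      exact ⟨mem_Z10_N (mem_inter.1 h5).1, mem_Z10_N (mem_inter.1 h6).1⟩
    · subst h5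
      exact ⟨mem_Z10_self _, mem_Z10_rel (OData.rel_symm hD h2.1.1)⟩
  · have h4 := (mem_A8.1 hy).1
    refine mem_union_right _ (mem_biUnion.2 ⟨(u', x'), mem_product.2 ⟨hD.N_symm _ _ h4.1,
      hD.N_symm _ _ h4.2⟩, mem_image.2 ⟨(u, x), mem_product.2 ?_, rfl⟩⟩)
    rcases h3 with ⟨h5, h6⟩ | h5
    · unfold cN at h5 h6
      exact ⟨mem_Z10_N (hD.N_symm _ _ (mem_inter.1 h5).1),
        mem_Z10_N (hD.N_symm _ _ (mem_inter.1 h5).2)⟩
    · subst h5
      exact ⟨mem_Z10_self _, mem_Z10_rel (OData.rel_symm hD h1.1.1)⟩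

/-- Colours of the vertices of a tested set of an active pair are distinct. -/
theorem col_unique8 {u x : V} (h : E.act u x) (c : Fin E.k) :
    ((E.A u x).filter fun z => hasCol E.col z c).card ≤ 1 := by
  refine card_le_one.2 fun z hz z' hz' => ?_
  by_contra hne
  have h1 := mem_filter.1 hz
  have h2 := mem_filter.1 hz'
  exact hE.inv.inj u x h.1 (Or.inl h.2.1) h.2.2 z h1.1 z' h2.1 hne ⟨c, h1.2, h2.2⟩

theorem S10_card {a : V × V × V × V} (h : P10 E a) :
    ((E.A a.1 a.2.1 ∪ E.A a.2.2.1 a.2.2.2).card : ℝ) ≤ E.T ^ 16000 := by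
  have hD := hE.prt_ok.dat
  have hT := hD.big
  have hT0 := hT.pos
  have h1 : ((E.A a.1 a.2.1 ∪ E.A a.2.2.1 a.2.2.2).card : ℝ) ≤
      (E.A a.1 a.2.1).card + (E.A a.2.2.1 a.2.2.2).card := by
    exact_mod_cast card_union_le _ _
  have h2 := A_card hE h.1.1.1
  have h3 := A_card hE h.2.1.1.1
  have h4 : E.T ^ 1603 + E.T ^ 1603 ≤ E.T * E.T ^ 1603 := by
    have : 0 < E.T ^ 1603 := by positivity
    nlinarith [hT.big]
  have h5 : E.T * E.T ^ 1603 = E.T ^ 1604 := by ring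
  have h6 : E.T ^ 1604 ≤ E.T ^ 16000 := hT.pw (by norm_num)
  linarith

/-- Pairs of picks. -/
noncomputable def g10 (E : ORd V) (a : V × V × V × V) (z z' : V) : ℝ :=
  if z ≠ z' ∧ z ∈ E.A a.1 a.2.1 ∩ E.L ∧ z' ∈ E.A a.2.2.1 a.2.2.2 ∩ E.L then 1 else 0

/-- Picks of a colour of the other set. -/
noncomputable def s10 (E : ORd V) (B B' : Finset V) (z : V) (c : Fin E.k) : ℝ :=
  if z ∈ B ∩ E.L then ((B'.filter fun z' => hasCol E.col z' c).card : ℝ) else 0

omit hE in
theorem g10_nonneg (a : V × V × V × V) (z z' : V) : 0 ≤ g10 E a z z' := by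
  unfold g10
  split_ifs <;> norm_num

omit hE in
theorem g10_le (a : V × V × V × V) (z z' : V) : g10 E a z z' ≤
    (if z ∈ E.A a.1 a.2.1 ∩ E.L then 1 else 0) *
      (if z' ∈ E.A a.2.2.1 a.2.2.2 ∩ E.L then 1 else 0) := by
  unfold g10
  by_cases h1 : z ∈ E.A a.1 a.2.1 ∩ E.L <;> by_cases h2 : z' ∈ E.A a.2.2.1 a.2.2.2 ∩ E.L <;>
    simp only [h1, h2, and_true, and_false, if_true, if_false, mul_zero, mul_one, le_refl]
  split_ifs <;> norm_num

omit hE in
theorem sum_mem8 (B : Finset V) : (∑ z, if z ∈ B then (1 : ℝ) else 0) = B.card := by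
  rw [← sum_filter, sum_const, nsmul_eq_mul, mul_one]
  congr 2
  ext z
  simp

theorem loc_c10a : LocOK 16000 E.T E.p (fun ω => ∀ a, P10 E a →
    ∑ z, ∑ z', (if ω z = ω z' then g10 E a z z' else 0) ≤ 12 * E.T ^ 2 * 2) := by
  have hD := hE.prt_ok.dat
  have hT := hD.big
  have hT0 := hT.pos
  have hk := OData.k_pos hD
  have hc1 : ∀ a, P10 E a → ((E.A a.1 a.2.1 ∩ E.L).card : ℝ) ≤ E.T ^ 1471 :=
    fun a ha => hE.LA _ _ ha.1.1.1.2.2.2.2
  have hc2 : ∀ a, P10 E a → ((E.A a.2.2.1 a.2.2.2 ∩ E.L).card : ℝ) ≤ E.T ^ 1471 :=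
    fun a ha => hE.LA _ _ ha.2.1.1.1.2.2.2.2
  refine loc_pair (κ := V × V × V × V) hT hE.p_pm (P10 E) (fun a z z' _ => g10 E a z z')
    (fun a z z' _ => g10_nonneg a z z')
    (fun a z _ => by unfold g10; rw [if_neg]; exact fun h => h.1 rfl)
    (fun _ => 2) (fun _ _ => by norm_num) (fun a ha => ?_) (fun a ha z c => ?_)
    (fun a ha z z' _ => ?_) (fun a => E.A a.1 a.2.1 ∪ E.A a.2.2.1 a.2.2.2)
    (fun a ha z z' _ h => ?_) 16000 (fun a ha => S10_card hE ha)
    (fun y => ⟨F10 E y, fun a ha hy => mem_F10 hE ha hy, F10_card hE y⟩)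
  · calc ∑ z, ∑ z', ∑ c, g10 E a z z' * (E.p z c * E.p z' c)
        ≤ ∑ z, ∑ z', ((if z ∈ E.A a.1 a.2.1 ∩ E.L then 1 else 0) *
          (if z' ∈ E.A a.2.2.1 a.2.2.2 ∩ E.L then 1 else 0)) * (2 * E.T / E.k) := by
          refine sum_le_sum fun z _ => sum_le_sum fun z' _ => ?_
          rw [← mul_sum]
          refine mul_le_mul (g10_le a z z') (sum_p_mul8 hE z z')
            (sum_nonneg fun c _ => mul_nonneg (hE.p_pm.nonneg _ _) (hE.p_pm.nonneg _ _)) ?_
          split_ifs <;> norm_num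
      _ = ((E.A a.1 a.2.1 ∩ E.L).card * (E.A a.2.2.1 a.2.2.2 ∩ E.L).card) *
            (2 * E.T / E.k) := by
          rw [← sum_mem8, ← sum_mem8, sum_mul_sum, sum_mul]
          exact sum_congr rfl fun z _ => by rw [sum_mul]
      _ ≤ (E.T ^ 1471 * E.T ^ 1471) * (2 * E.T / E.k) := by
          refine mul_le_mul_of_nonneg_right ?_ (by positivity)
          exact mul_le_mul (hc1 a ha) (hc2 a ha) (Nat.cast_nonneg _) (by positivity)
      _ = 2 * (E.T ^ 2943 / E.k) := by ring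
      _ ≤ 2 * (1 / E.T ^ 1) :=
          mul_le_mul_of_nonneg_left (OData.div_k hD (by norm_num)) (by norm_num)
      _ ≤ 2 := by linarith [hT.small (le_refl 1)]
  · calc ∑ z', (g10 E a z z' + g10 E a z' z) * E.p z' c
        ≤ ∑ z', ((if z' ∈ E.A a.2.2.1 a.2.2.2 ∩ E.L then 1 else 0) +
            (if z' ∈ E.A a.1 a.2.1 ∩ E.L then 1 else 0)) * (2 * E.T / E.k) := by
          refine sum_le_sum fun z' _ => ?_
          refine mul_le_mul (add_le_add ((g10_le a z z').trans ?_) ((g10_le a z' z).trans ?_))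
            (hE.p_le z' c) (hE.p_pm.nonneg _ _) ?_
          · refine mul_le_of_le_one_left ?_ ?_ <;> split_ifs <;> norm_num
          · refine mul_le_of_le_one_right ?_ ?_ <;> split_ifs <;> norm_num
          · split_ifs <;> norm_num
      _ = ((E.A a.2.2.1 a.2.2.2 ∩ E.L).card + (E.A a.1 a.2.1 ∩ E.L).card) *
            (2 * E.T / E.k) := by
          rw [← sum_mul, sum_add_distrib, sum_mem8, sum_mem8]
      _ ≤ (E.T ^ 1471 + E.T ^ 1471) * (2 * E.T / E.k) :=
          mul_le_mul_of_nonneg_right (add_le_add (hc2 a ha) (hc1 a ha)) (by positivity)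
      _ = 4 * (E.T ^ 1472 / E.k) := by ring
      _ ≤ 4 * (1 / E.T ^ 1) :=
          mul_le_mul_of_nonneg_left (OData.div_k hD (by norm_num)) (by norm_num)
      _ ≤ 2 := by linarith [hT.small (le_refl 1)]
  · have h1 : g10 E a z z' ≤ 1 := by unfold g10; split_ifs <;> norm_num
    have h2 : g10 E a z' z ≤ 1 := by unfold g10; split_ifs <;> norm_num
    linarith
  · have h1 : z ≠ z' ∧ z ∈ E.A a.1 a.2.1 ∩ E.L ∧ z' ∈ E.A a.2.2.1 a.2.2.2 ∩ E.L := by
      by_contra hc
      exact h (if_neg hc)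
    exact ⟨mem_union_left _ (mem_inter.1 h1.2.1).1, mem_union_right _ (mem_inter.1 h1.2.2).1⟩

/-- Picks of colours of the other set. -/
theorem loc_c10b (B B' : V × V × V × V → Finset V)
    (hB : ∀ a, P10 E a → ((B a ∩ E.L).card : ℝ) ≤ E.T ^ 1471)
    (hBs : ∀ a, P10 E a → B a ⊆ E.A a.1 a.2.1 ∪ E.A a.2.2.1 a.2.2.2)
    (hB' : ∀ a, P10 E a → ((B' a).card : ℝ) ≤ E.T ^ 1603)
    (hB1 : ∀ a, P10 E a → ∀ c, ((B' a).filter fun z => hasCol E.col z c).card ≤ 1) :
    LocOK 16000 E.T E.p (fun ω => ∀ a, P10 E a →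
      ∑ z, s10 E (B a) (B' a) z (ω z) ≤ 4 * E.T * 1) := by
  have hD := hE.prt_ok.dat
  have hT := hD.big
  have hT0 := hT.pos
  have hk := OData.k_pos hD
  have hn : ∀ a z c, 0 ≤ s10 E (B a) (B' a) z c := by
    intro a z c
    unfold s10
    split_ifs
    · exact Nat.cast_nonneg _
    · exact le_rfl
  refine loc_single (κ := V × V × V × V) hT hE.p_pm (P10 E)
    (fun a z c => s10 E (B a) (B' a) z c) hn (fun _ => 1) (fun _ _ => by norm_num)
    (fun a ha => ?_) (fun a ha z c => ?_) (fun a => E.A a.1 a.2.1 ∪ E.A a.2.2.1 a.2.2.2)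
    (fun a ha z c h => ?_) 16000 (fun a ha => S10_card hE ha)
    (fun y => ⟨F10 E y, fun a ha hy => mem_F10 hE ha hy, F10_card hE y⟩)
  · have h1 : ∀ z, ∑ c, s10 E (B a) (B' a) z c * E.p z c ≤
        (if z ∈ B a ∩ E.L then 1 else 0) * (E.T ^ 1603 * (2 * E.T / E.k)) := by
      intro z
      by_cases hz : z ∈ B a ∩ E.L
      · rw [if_pos hz, one_mul]
        calc ∑ c, s10 E (B a) (B' a) z c * E.p z c
            ≤ ∑ c, (((B' a).filter fun z' => hasCol E.col z' c).card : ℝ) * (2 * E.T / E.k) := by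
              refine sum_le_sum fun c _ => ?_
              unfold s10
              rw [if_pos hz]
              exact mul_le_mul_of_nonneg_left (hE.p_le z c) (Nat.cast_nonneg _)
          _ = (∑ c, (((B' a).filter fun z' => hasCol E.col z' c).card : ℝ)) *
                (2 * E.T / E.k) := by rw [sum_mul]
          _ ≤ E.T ^ 1603 * (2 * E.T / E.k) := by
              refine mul_le_mul_of_nonneg_right (le_trans ?_ (hB' a ha)) (by positivity)
              have h2 : ∑ c, ((B' a).filter fun z' => hasCol E.col z' c).card ≤ (B' a).card := by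
                rw [← card_biUnion]
                · refine card_le_card fun z' hz' => ?_
                  obtain ⟨c, -, hc⟩ := mem_biUnion.1 hz'
                  exact (mem_filter.1 hc).1
                · intro c _ c' _ hcc
                  rw [Function.onFun, disjoint_left]
                  intro z' h3 h4
                  exact hcc (HasC.uniq (mem_filter.1 h3).2 (mem_filter.1 h4).2)
              exact_mod_cast h2
      · rw [if_neg hz, zero_mul]
        refine le_of_eq (sum_eq_zero fun c _ => ?_)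
        unfold s10
        rw [if_neg hz, zero_mul]
    calc ∑ z, ∑ c, s10 E (B a) (B' a) z c * E.p z c
        ≤ ∑ z, (if z ∈ B a ∩ E.L then 1 else 0) * (E.T ^ 1603 * (2 * E.T / E.k)) :=
          sum_le_sum fun z _ => h1 z
      _ = (B a ∩ E.L).card * (E.T ^ 1603 * (2 * E.T / E.k)) := by rw [← sum_mul, sum_mem8]
      _ ≤ E.T ^ 1471 * (E.T ^ 1603 * (2 * E.T / E.k)) :=
          mul_le_mul_of_nonneg_right (hB a ha) (by positivity)
      _ = 2 * (E.T ^ 3075 / E.k) := by ring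
      _ ≤ 2 * (1 / E.T ^ 1) :=
          mul_le_mul_of_nonneg_left (OData.div_k hD (by norm_num)) (by norm_num)
      _ ≤ 1 := by linarith [hT.small (le_refl 1)]
  · unfold s10
    split_ifs
    · exact_mod_cast hB1 a ha c
    · norm_num
  · have h1 : z ∈ B a ∩ E.L := by
      by_contra hc
      exact h (if_neg hc)
    exact hBs a ha (mem_inter.1 h1).1

omit hE in
theorem coin_eq8 (col : V → Option (Fin E.k × ℕ)) (u x u' x' : V) : E.coin col u x u' x' =
    ∑ z, ∑ z', if z ∈ E.A u x ∧ z' ∈ E.A u' x' ∧ z ≠ z' ∧ sameCol col z z' then (1 : ℝ)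
      else 0 := by
  unfold OPart.coin
  have h1 : ((E.A u x ×ˢ E.A u' x').filter fun e => e.1 ≠ e.2 ∧ sameCol col e.1 e.2) =
      univ.filter fun e : V × V => e.1 ∈ E.A u x ∧ e.2 ∈ E.A u' x' ∧ e.1 ≠ e.2 ∧
        sameCol col e.1 e.2 := by
    ext e
    simp only [mem_filter, mem_product, mem_univ, true_and]
    tauto
  rw [h1, card_filter]
  push_cast
  rw [Fintype.sum_prod_type]

omit hE in
theorem coin_step8 (ω : V → E.Pick) (u x u' x' : V) :
    E.coin (E.nCol ω) u x u' x' ≤ E.coin E.col u x u' x' +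
      ∑ z, ∑ z', (if (ω z).1 = (ω z').1 then g10 E (u, x, u', x') z z' else 0) +
      ∑ z, s10 E (E.A u x) (E.A u' x') z (ω z).1 +
      ∑ z, s10 E (E.A u' x') (E.A u x) z (ω z).1 := by
  have e1 : ∑ z, s10 E (E.A u x) (E.A u' x') z (ω z).1 =
      ∑ z, ∑ z', if z ∈ E.A u x ∩ E.L ∧ z' ∈ E.A u' x' ∧ hasCol E.col z' (ω z).1 then (1 : ℝ)
        else 0 := by
    refine sum_congr rfl fun z _ => ?_
    unfold s10
    by_cases hz : z ∈ E.A u x ∩ E.L
    · rw [if_pos hz, card_filter]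
      push_cast
      rw [← sum_filter, ← sum_filter]
      refine sum_congr ?_ fun _ _ => rfl
      ext z'
      simp [hz]
    · simp [hz]
  have e2 : ∑ z, s10 E (E.A u' x') (E.A u x) z (ω z).1 =
      ∑ z, ∑ z', if z' ∈ E.A u' x' ∩ E.L ∧ z ∈ E.A u x ∧ hasCol E.col z (ω z').1 then (1 : ℝ)
        else 0 := by
    rw [sum_comm]
    refine sum_congr rfl fun z _ => ?_
    unfold s10
    by_cases hz : z ∈ E.A u' x' ∩ E.L
    · rw [if_pos hz, card_filter]
      push_cast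
      rw [← sum_filter, ← sum_filter]
      refine sum_congr ?_ fun _ _ => rfl
      ext z'
      simp [hz]
    · simp [hz]
  rw [e1, e2, coin_eq8, coin_eq8, ← sum_add_distrib, ← sum_add_distrib, ← sum_add_distrib]
  refine sum_le_sum fun z _ => ?_
  rw [← sum_add_distrib, ← sum_add_distrib, ← sum_add_distrib]
  refine sum_le_sum fun z' _ => ?_
  have n1 : (0 : ℝ) ≤ if z ∈ E.A u x ∧ z' ∈ E.A u' x' ∧ z ≠ z' ∧ sameCol E.col z z' then (1 : ℝ)
      else 0 := by split_ifs <;> norm_num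
  have n2 : (0 : ℝ) ≤ if (ω z).1 = (ω z').1 then g10 E (u, x, u', x') z z' else 0 := by
    split_ifs
    · exact g10_nonneg _ _ _
    · exact le_rfl
  have n3 : (0 : ℝ) ≤ if z ∈ E.A u x ∩ E.L ∧ z' ∈ E.A u' x' ∧ hasCol E.col z' (ω z).1 then (1 : ℝ)
      else 0 := by split_ifs <;> norm_num
  have n4 : (0 : ℝ) ≤ if z' ∈ E.A u' x' ∩ E.L ∧ z ∈ E.A u x ∧ hasCol E.col z (ω z').1 then (1 : ℝ)
      else 0 := by split_ifs <;> norm_num
  by_cases h : z ∈ E.A u x ∧ z' ∈ E.A u' x' ∧ z ≠ z' ∧ sameCol (E.nCol ω) z z'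
  · rw [if_pos h]
    obtain ⟨hz, hz', hne, c, hc, hc'⟩ := h
    have hc1 := (hasC_upd E.m E.col E.lam (fun z => (ω z).1) z c).1 hc
    have hc2 := (hasC_upd E.m E.col E.lam (fun z => (ω z).1) z' c).1 hc'
    rcases hc1 with h1 | ⟨h1, h1'⟩ <;> rcases hc2 with h2 | ⟨h2, h2'⟩
    · rw [if_pos (c := z ∈ E.A u x ∧ z' ∈ E.A u' x' ∧ z ≠ z' ∧ sameCol E.col z z')
        ⟨hz, hz', hne, c, h1, h2⟩]
      linarith
    · rw [if_pos (c := z' ∈ E.A u' x' ∩ E.L ∧ z ∈ E.A u x ∧ hasCol E.col z (ω z').1)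
        ⟨mem_inter.2 ⟨hz', h2⟩, hz, by rw [h2']; exact h1⟩]
      linarith
    · rw [if_pos (c := z ∈ E.A u x ∩ E.L ∧ z' ∈ E.A u' x' ∧ hasCol E.col z' (ω z).1)
        ⟨mem_inter.2 ⟨hz, h1⟩, hz', by rw [h1']; exact h2⟩]
      linarith
    · have h3 : g10 E (u, x, u', x') z z' = 1 :=
        if_pos ⟨hne, mem_inter.2 ⟨hz, h1⟩, mem_inter.2 ⟨hz', h2⟩⟩
      rw [if_pos (c := (ω z).1 = (ω z').1) (h1'.trans h2'.symm), h3]
      linarith
  · rw [if_neg h]
    linarith

theorem loc_c10 : LocOK 20000 E.T E.law (fun ω => ∀ u x u' x', E.act u x → E.act u' x' →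
    E.near u x u' x' → E.coin (E.nCol ω) u x u' x' ≤ E.coin E.col u x u' x' + E.T ^ 5) := by
  have hD := hE.prt_ok.dat
  have hT := hD.big
  have hT0 := hT.pos
  have hb1 := loc_c10b hE (fun a => E.A a.1 a.2.1) (fun a => E.A a.2.2.1 a.2.2.2)
    (fun a ha => hE.LA _ _ ha.1.1.1.2.2.2.2) (fun a _ => subset_union_left)
    (fun a ha => A_card hE ha.2.1.1.1) (fun a ha c => col_unique8 hE ha.2.1 c)
  have hb2 := loc_c10b hE (fun a => E.A a.2.2.1 a.2.2.2) (fun a => E.A a.1 a.2.1)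
    (fun a ha => hE.LA _ _ ha.2.1.1.1.2.2.2.2) (fun a _ => subset_union_right)
    (fun a ha => A_card hE ha.1.1.1) (fun a ha c => col_unique8 hE ha.1 c)
  have h := LocOK.mono hT (LocOK.and hT (LocOK.mono hT (loc_c10a hE) (Nat.le_succ _))
    (LocOK.and hT hb1 hb2)) (show 16001 + 1 ≤ 20000 by norm_num)
  refine LocOK.weaken8 (LocOK.fst8 hE.p_pm (nu_isPM hE) h) fun ω hω u x u' x' hu hu' hn => ?_
  obtain ⟨h1, h2, h3⟩ := hω
  have hP : P10 E (u, x, u', x') := ⟨hu, hu', hn⟩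
  have k1 := h1 _ hP
  have k2 := h2 _ hP
  have k3 := h3 _ hP
  simp only at k1 k2 k3
  refine (coin_step8 ω u x u' x').trans ?_
  have h4 : 12 * E.T ^ 2 * 2 + 4 * E.T * 1 + 4 * E.T * 1 ≤ E.T ^ 5 := by
    have hTb := hT.big
    norm_num at hTb
    have e1 : E.T ≤ E.T ^ 2 := by nlinarith
    calc 12 * E.T ^ 2 * 2 + 4 * E.T * 1 + 4 * E.T * 1 ≤ 32 * E.T ^ 2 := by linarith
      _ ≤ E.T * E.T ^ 2 := mul_le_mul_of_nonneg_right (by linarith) (by positivity)
      _ = E.T ^ 3 := by ring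
      _ ≤ E.T ^ 5 := hT.pw (by norm_num)
  linarith

end

end ORd

end

end Pool.Agent.AcyK
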