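import Pool.Agent.AcyK.OBas
import Pool.Agent.AcyK.OLaw
import Pool.Agent.AcyK.OExt

/-! # The outer process (project MP_af9dfb_K): the diagonal of the drift of `Om` (row OV) -/

set_option autoImplicit false
set_option linter.unusedSectionVars false

namespace Pool.Agent.AcyK

open Finset
open Pool.Agent.Acy (IsPM wt Ex Pr mean)
open scoped Classical

universe u v w

section

variable {V : Type u} [Fintype V] [DecidableEq V]

namespace ORd

variable {E : ORd V} {C : V → Option (Fin E.k × ℕ)}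

/-- The bracket in the covariance of two pairs. -/
noncomputable def ovB (E : ORd V) (u x : V) (f : V × V) (z : V) (c : Fin E.k) : ℝ :=
  1 + ∑ z' ∈ E.prt u x z c ∩ E.prt f.1 f.2 z c,
    ((if E.J z z' u x = E.J z z' f.1 f.2 then 1 / E.qq z z' (E.J z z' u x) else 0) - 1)

/-- A coincidence in colour `c` between the two common neighbourhoods. -/
def ovC (E : ORd V) (u x : V) (f : V × V) (c : Fin E.k) : Prop :=
  ∃ w ∈ E.A u x, ∃ w' ∈ E.A f.1 f.2, w ≠ w' ∧ hasCol E.col w c ∧ hasCol E.col w' c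

section
variable (hE : E.Ok C)
include hE

theorem ov_uniq {u x : V} (ha : E.act u x) {w w' : V} {c : Fin E.k} (hw : w ∈ E.A u x)
    (hw' : w' ∈ E.A u x) (hc : hasCol E.col w c) (hc' : hasCol E.col w' c) : w = w' := by
  by_contra hne
  exact hE.inv.inj u x ha.1 (Or.inl ha.2.1) ha.2.2 w hw w' hw' hne ⟨c, hc, hc'⟩

theorem ov_cov {u x : V} {f : V × V} (ha : E.act u x) (hf : E.act f.1 f.2) :
    E.cov u x f.1 f.2 = ∑ z, ∑ c, (if E.hc u x z c ∧ E.hc f.1 f.2 z c then
      E.p z c * E.ovB u x f z c else 0) := by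
  unfold cov
  refine sum_congr rfl fun z _ => ?_
  simp only [g0, if_pos ha, if_pos hf]
  exact mean_gg hE u x f.1 f.2 z

theorem ov_cov0 {u x : V} {f : V × V} (h : ¬ (E.act u x ∧ E.act f.1 f.2)) :
    E.cov u x f.1 f.2 = 0 := by
  unfold cov
  refine sum_eq_zero fun z _ => ?_
  rcases not_and_or.1 h with h | h
  · simp only [g0, if_neg h, mean, zero_mul, mul_zero, sum_const_zero]
  · simp only [g0, if_neg h, mean, mul_zero, sum_const_zero]

/-- The pairs that see the same partner `w`. -/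
theorem ov_same {u x z w : V} {c : Fin E.k} (ha : E.act u x) (hz : z ∈ E.A u x)
    (hzL : z ∈ E.L) (hp : 0 < E.p z c) (hw : w ∈ E.A u x) (hwc : hasCol E.col w c) :
    2 / E.k * (∑ f ∈ E.prs (E.j + 1) u x, (if E.act f.1 f.2 ∧ E.hc f.1 f.2 z c ∧
      w ∈ E.A f.1 f.2 then E.s.X f.1 f.2 * E.ovB u x f z c else 0)) ≤ 81 / 1000 := by
  have hD := hE.prt_ok.dat
  have hT : 0 < E.T := OData.T0 hD
  have hk : (0 : ℝ) < E.k := OData.k_pos hD
  have hzj := (mem_A.1 hz).2
  have hwj := (mem_A.1 hw).2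
  obtain ⟨hne, hnsp, hcod, hrel⟩ := sep' hE hzL hp hwc hwj hzj
  by_cases hr : E.rel z w
  · -- lottery
    obtain ⟨hst, hX0⟩ := hrel hr
    have hq : 0 < E.qq z w (E.J z w u x) := OPart.qq_pos hE.prt_ok z w _
    have hsplit := hE.prt_ok.split z w hr hzj hst hX0 u x ha.1 (act_s0 hE ha).1
      (by
        have := (act_s0 hE ha).2.1
        intro h0
        rw [h0] at this
        norm_num at this)
      (OData.mem_cN.2 ⟨hE.prt_ok.dat.N_symm _ _ (mem_A.1 hz).1.1,
        hE.prt_ok.dat.N_symm _ _ (mem_A.1 hw).1.1⟩)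
      (OData.mem_cN.2 ⟨hE.prt_ok.dat.N_symm _ _ (mem_A.1 hz).1.2,
        hE.prt_ok.dat.N_symm _ _ (mem_A.1 hw).1.2⟩)
    have h1 : ∀ f ∈ E.prs (E.j + 1) u x, (if E.act f.1 f.2 ∧ E.hc f.1 f.2 z c ∧
        w ∈ E.A f.1 f.2 then E.s.X f.1 f.2 * E.ovB u x f z c else 0) ≤
        1001 / 1000 * (1 / E.qq z w (E.J z w u x)) * (if f.1 ∈ cN E.N z w ∧ f.2 ∈ cN E.N z w ∧
          E.rel f.1 f.2 ∧ E.s0.st f.1 f.2 = .act ∧ E.J z w f.1 f.2 = E.J z w u x then
            E.s0.X f.1 f.2 else 0) := by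
      intro f _
      have hX0' := OPart.s0_nonneg hE.prt_ok f.1 f.2
      split_ifs with hf hg hg
      · obtain ⟨hfa, hfc, hwf⟩ := hf
        have hB : E.ovB u x f z c = 1 / E.qq z w (E.J z w u x) := by
          have hp1 : E.prt u x z c ∩ E.prt f.1 f.2 z c = {w} := by
            ext w'
            unfold prt
            rw [mem_inter, mem_filter, mem_filter, mem_singleton]
            constructor
            · rintro ⟨⟨h1, h2, _⟩, _⟩
              exact ov_uniq hE ha h1 hw h2 hwc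
            · rintro rfl
              exact ⟨⟨hw, hwc, hr⟩, hwf, hwc, hr⟩
          unfold ovB
          rw [hp1, sum_singleton, if_pos hg.2.2.2.2.symm]
          ring
        rw [hB]
        have h2 := act_X_le hE hfa
        have h3 : 0 ≤ 1 / E.qq z w (E.J z w u x) := by positivity
        calc E.s.X f.1 f.2 * (1 / E.qq z w (E.J z w u x)) ≤
            1001 / 1000 * E.s0.X f.1 f.2 * (1 / E.qq z w (E.J z w u x)) :=
              mul_le_mul_of_nonneg_right h2 h3
          _ = _ := by ring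
      · obtain ⟨hfa, hfc, hwf⟩ := hf
        have hJ : ¬ E.J z w u x = E.J z w f.1 f.2 := by
          intro hJ
          apply hg
          have hzf := mem_A.1 hfc.1
          have hwf' := mem_A.1 hwf
          exact ⟨OData.mem_cN.2 ⟨hE.prt_ok.dat.N_symm _ _ hzf.1.1,
            hE.prt_ok.dat.N_symm _ _ hwf'.1.1⟩, OData.mem_cN.2
            ⟨hE.prt_ok.dat.N_symm _ _ hzf.1.2, hE.prt_ok.dat.N_symm _ _ hwf'.1.2⟩,
            hfa.1.1, (act_s0 hE hfa).1, hJ.symm⟩
        have hB : E.ovB u x f z c = 0 := by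
          have hp1 : E.prt u x z c ∩ E.prt f.1 f.2 z c = {w} := by
            ext w'
            unfold prt
            rw [mem_inter, mem_filter, mem_filter, mem_singleton]
            constructor
            · rintro ⟨⟨h1, h2, _⟩, _⟩
              exact ov_uniq hE ha h1 hw h2 hwc
            · rintro rfl
              exact ⟨⟨hw, hwc, hr⟩, hwf, hwc, hr⟩
          unfold ovB
          rw [hp1, sum_singleton, if_neg hJ]
          ring
        rw [hB]
        simp
      · positivity
      · simp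
    have h2 := mul_le_mul_of_nonneg_left ((sum_le_sum h1).trans_eq (mul_sum _ _ _).symm)
      (show (0 : ℝ) ≤ 2 / E.k by positivity)
    refine h2.trans ?_
    set S := ∑ f ∈ E.prs (E.j + 1) u x, (if f.1 ∈ cN E.N z w ∧ f.2 ∈ cN E.N z w ∧
          E.rel f.1 f.2 ∧ E.s0.st f.1 f.2 = .act ∧ E.J z w f.1 f.2 = E.J z w u x then
            E.s0.X f.1 f.2 else 0) with hS
    calc 2 / (E.k : ℝ) * (1001 / 1000 * (1 / E.qq z w (E.J z w u x)) * S) =
        4 * (1001 / 1000) * (1 / E.qq z w (E.J z w u x)) * (1 / (2 * E.k) * S) := by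
          field_simp
          ring
      _ ≤ 4 * (1001 / 1000) * (1 / E.qq z w (E.J z w u x)) *
          (E.qq z w (E.J z w u x) / 50) :=
            mul_le_mul_of_nonneg_left hsplit (by positivity)
      _ = 4 * (1001 / 1000) / 50 := by
          field_simp
      _ ≤ 81 / 1000 := by norm_num
  · -- light partner
    have hlight : E.cod z w < E.T ^ 2385 := by
      by_contra hcon
      push_neg at hcon
      have h1 : E.lv z = E.lv w := hzj.trans hwj.symm
      have h2 : ¬ (z ∈ E.N w ∨ E.am < E.cod z w) := fun h => hnsp ⟨hne, h1, h⟩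
      push_neg at h2
      exact hr ⟨hne, h1, h2.1, hcon, h2.2⟩
    have h1 : ∀ f ∈ E.prs (E.j + 1) u x, (if E.act f.1 f.2 ∧ E.hc f.1 f.2 z c ∧
        w ∈ E.A f.1 f.2 then E.s.X f.1 f.2 * E.ovB u x f z c else 0) ≤
        if f ∈ E.prs (E.j + 1) z w then E.T / 10000 else 0 := by
      intro f hfp
      split_ifs with hf hg hg
      · obtain ⟨hfa, hfc, hwf⟩ := hf
        have hB : E.ovB u x f z c = 1 := by
          have hp1 : E.prt u x z c ∩ E.prt f.1 f.2 z c = ∅ := by
            rw [eq_empty_iff_forall_notMem]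
            intro w' hw'
            unfold prt at hw'
            rw [mem_inter, mem_filter, mem_filter] at hw'
            obtain ⟨⟨h1, h2, h3⟩, _⟩ := hw'
            have := ov_uniq hE ha h1 hw h2 hwc
            subst this
            exact hr h3
          unfold ovB
          rw [hp1, sum_empty, add_zero]
        rw [hB, mul_one]
        exact (X_le hE _ _).trans (OData.th2 hD)
      · exfalso
        apply hg
        obtain ⟨hfa, hfc, hwf⟩ := hf
        have hzf := mem_A.1 hfc.1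
        have hwf' := mem_A.1 hwf
        unfold OData.prs at hfp ⊢
        rw [mem_filter] at hfp ⊢
        refine ⟨mem_product.2 ⟨OData.mem_cN.2 ⟨hE.prt_ok.dat.N_symm _ _ hzf.1.1,
            hE.prt_ok.dat.N_symm _ _ hwf'.1.1⟩, OData.mem_cN.2
            ⟨hE.prt_ok.dat.N_symm _ _ hzf.1.2, hE.prt_ok.dat.N_symm _ _ hwf'.1.2⟩⟩, hfp.2⟩
      · positivity
      · exact le_refl _
    have h2 := sum_le_sum h1
    have h3 : ∑ f ∈ E.prs (E.j + 1) u x, (if f ∈ E.prs (E.j + 1) z w then E.T / 10000 else 0) ≤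
        E.T ^ 3975 * (E.T / 10000) := by
      rw [← Finset.sum_filter, sum_const, nsmul_eq_mul]
      apply mul_le_mul_of_nonneg_right _ (by positivity)
      refine le_trans ?_ (OData.prs_card_light hD hlight (E.j + 1))
      rw [Nat.cast_le]
      apply card_le_card
      intro f hf
      exact (mem_filter.1 hf).2
    have h4 : E.T ^ 3976 / E.k ≤ 1 / E.T ^ 23 := OData.div_k hD (by norm_num)
    have h5 : 1 / E.T ^ 23 ≤ 1 / 1000000 := hD.big.small (by norm_num)
    calc 2 / (E.k : ℝ) * (∑ f ∈ E.prs (E.j + 1) u x, (if E.act f.1 f.2 ∧ E.hc f.1 f.2 z c ∧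
        w ∈ E.A f.1 f.2 then E.s.X f.1 f.2 * E.ovB u x f z c else 0)) ≤
        2 / (E.k : ℝ) * (E.T ^ 3975 * (E.T / 10000)) :=
          mul_le_mul_of_nonneg_left (h2.trans h3) (by positivity)
      _ = 2 / 10000 * (E.T ^ 3976 / E.k) := by
          rw [show (3976 : ℕ) = 3975 + 1 by norm_num, pow_succ]
          ring
      _ ≤ 81 / 1000 := by linarith

/-- One dangerous pick of one pair, without the coincidences. -/
theorem ov_point {u x z : V} {c : Fin E.k} (ha : E.act u x) (hc : E.hc u x z c) :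
    2 / E.k * (∑ f ∈ E.prs (E.j + 1) u x, (if E.act f.1 f.2 ∧ E.hc f.1 f.2 z c then
      E.s.X f.1 f.2 * (E.ovB u x f z c - (if E.ovC u x f c then 1 else 0)) else 0)) ≤
      81 / 1000 := by
  have hk : (0 : ℝ) < E.k := OData.k_pos hE.prt_ok.dat
  obtain ⟨hzA, hzL, hp, w, hw, hwc⟩ := hc
  refine le_trans (mul_le_mul_of_nonneg_left (sum_le_sum fun f _ => ?_) (by positivity))
    (ov_same hE ha hzA hzL hp hw hwc)
  have hX := X_nonneg hE f.1 f.2
  by_cases hwf : w ∈ E.A f.1 f.2
  · by_cases h : E.act f.1 f.2 ∧ E.hc f.1 f.2 z c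
    · have hh : E.act f.1 f.2 ∧ E.hc f.1 f.2 z c ∧ w ∈ E.A f.1 f.2 := ⟨h.1, h.2, hwf⟩
      rw [if_pos h, if_pos hh]
      apply mul_le_mul_of_nonneg_left _ hX
      split_ifs <;> linarith
    · rw [if_neg h, if_neg fun h' => h ⟨h'.1, h'.2.1⟩]
  · rw [if_neg fun h' : E.act f.1 f.2 ∧ E.hc f.1 f.2 z c ∧ w ∈ E.A f.1 f.2 => hwf h'.2.2]
    split_ifs with h hC
    · have hB : E.ovB u x f z c = 1 := by
        have hp1 : E.prt u x z c ∩ E.prt f.1 f.2 z c = ∅ := by
          rw [eq_empty_iff_forall_notMem]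
          intro w' hw'
          unfold prt at hw'
          rw [mem_inter, mem_filter, mem_filter] at hw'
          obtain ⟨⟨h1, h2, h3⟩, h4, _⟩ := hw'
          have := ov_uniq hE ha h1 hw h2 hwc
          subst this
          exact hwf h4
        unfold ovB
        rw [hp1, sum_empty, add_zero]
      rw [hB, sub_self, mul_zero]
    · exfalso
      apply hC
      obtain ⟨_, _, _, w', hw', hwc'⟩ := h.2
      refine ⟨w, hw, w', hw', ?_, hwc, hwc'⟩
      rintro rfl
      exact hwf hw'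
    · exact le_refl _

/-- The coincidences. -/
theorem ov_coin {u x : V} {f : V × V} (ha : E.act u x) (hf : E.act f.1 f.2)
    (hfp : f ∈ E.prs (E.j + 1) u x) :
    ∑ z, ∑ c, (if E.hc u x z c ∧ E.hc f.1 f.2 z c then
      E.p z c * (if E.ovC u x f c then 1 else 0) else 0) ≤ 2 * E.T / E.k * E.T ^ 1626 := by
  have hT : 0 < E.T := OData.T0 hE.prt_ok.dat
  have hk : (0 : ℝ) < E.k := OData.k_pos hE.prt_ok.dat
  have hq : 0 ≤ 2 * E.T / E.k := by positivity
  have hone : ∀ w : V, (univ.filter fun c => hasCol E.col w c).card ≤ 1 := by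
    intro w
    rw [card_le_one]
    intro c hc c' hc'
    rw [mem_filter] at hc hc'
    obtain ⟨_, r, h1⟩ := hc
    obtain ⟨_, r', h2⟩ := hc'
    rw [h1] at h2
    exact (Prod.mk.inj (Option.some.inj h2)).1
  have hcard : ((univ.filter fun c => E.ovC u x f c).card : ℝ) ≤ E.coin E.col u x f.1 f.2 := by
    unfold OPart.coin
    rw [Nat.cast_le]
    have hsub : (univ.filter fun c => E.ovC u x f c) ⊆
        ((E.A u x ×ˢ E.A f.1 f.2).filter fun e => e.1 ≠ e.2 ∧ sameCol E.col e.1 e.2).biUnion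
          (fun e => univ.filter fun c => hasCol E.col e.1 c) := by
      intro c hc
      obtain ⟨_, w, hw, w', hw', hne, h1, h2⟩ := mem_filter.1 hc
      rw [mem_biUnion]
      exact ⟨(w, w'), mem_filter.2 ⟨mem_product.2 ⟨hw, hw'⟩, hne, c, h1, h2⟩,
        mem_filter.2 ⟨mem_univ _, h1⟩⟩
    refine (card_le_card hsub).trans ?_
    refine (card_biUnion_le_card_mul _ _ 1 fun e _ => hone e.1).trans ?_
    rw [mul_one]
  have hcoin : E.coin E.col u x f.1 f.2 ≤ E.T ^ 155 := by
    unfold OData.prs at hfp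
    rw [mem_filter, mem_product] at hfp
    refine (hE.inv.e5 u x f.1 f.2 ha.1 hf.1 ha.2.1 hf.2.1 ha.2.2 hf.2.2
      (Or.inl hfp.1)).trans ?_
    calc (E.m : ℝ) * E.T ^ 5 ≤ E.T ^ 150 * E.T ^ 5 :=
          mul_le_mul_of_nonneg_right (ox_m hE) (pow_nonneg hT.le _)
      _ = E.T ^ 155 := by rw [← pow_add]
  have hz : ∀ z, ∑ c, (if E.hc u x z c ∧ E.hc f.1 f.2 z c then
      E.p z c * (if E.ovC u x f c then 1 else 0) else 0) ≤
      if z ∈ E.A u x ∩ E.L then 2 * E.T / E.k * E.T ^ 155 else 0 := by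
    intro z
    split_ifs with hzA
    · calc ∑ c, (if E.hc u x z c ∧ E.hc f.1 f.2 z c then
            E.p z c * (if E.ovC u x f c then 1 else 0) else 0) ≤
            ∑ c, (if E.ovC u x f c then 2 * E.T / E.k else 0) := by
            refine sum_le_sum fun c _ => ?_
            have := hE.p_le z c
            split_ifs <;> simp <;> first | exact this | exact hq
        _ = 2 * E.T / E.k * ((univ.filter fun c => E.ovC u x f c).card : ℝ) := by
            rw [← Finset.sum_filter, sum_const, nsmul_eq_mul, mul_comm]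
        _ ≤ 2 * E.T / E.k * E.T ^ 155 := mul_le_mul_of_nonneg_left (hcard.trans hcoin) hq
    · apply le_of_eq
      apply sum_eq_zero
      intro c _
      rw [if_neg]
      rintro ⟨⟨h1, h2, _⟩, _⟩
      exact hzA (mem_inter.2 ⟨h1, h2⟩)
  refine (sum_le_sum fun z _ => hz z).trans ?_
  rw [← Finset.sum_filter, sum_const, nsmul_eq_mul]
  have h1 : ((univ.filter fun z => z ∈ E.A u x ∩ E.L).card : ℝ) ≤ E.T ^ 1471 := by
    have : (univ.filter fun z => z ∈ E.A u x ∩ E.L) = E.A u x ∩ E.L := by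
      ext z
      simp
    rw [this]
    exact hE.LA u x ha.1.1.2.2.2.2
  calc _ ≤ E.T ^ 1471 * (2 * E.T / E.k * E.T ^ 155) :=
        mul_le_mul_of_nonneg_right h1 (by positivity)
    _ = 2 * E.T / E.k * E.T ^ 1626 := by
        rw [show (1626 : ℕ) = 1471 + 155 by norm_num, pow_add]
        ring

/-- One active pair. -/
theorem ov_act {u x : V} (ha : E.act u x) :
    2 / E.k * (∑ f ∈ E.prs (E.j + 1) u x, E.chi E.s f.1 f.2 * E.cov u x f.1 f.2) ≤
      81 / 1000 * E.H u x + 1 / E.T ^ 2360 := by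
  have hD := hE.prt_ok.dat
  have hT : 0 < E.T := OData.T0 hD
  have hk : (0 : ℝ) < E.k := OData.k_pos hD
  have hchi : ∀ f : V × V, E.act f.1 f.2 → E.chi E.s f.1 f.2 = E.s.X f.1 f.2 := by
    intro f hf
    unfold OData.chi
    have hnf : E.s.nf f.1 f.2 := Or.inl hf.2.1
    rw [if_neg (OData.rel_not_spe hD hf.1.1), if_pos hf.1.1, if_pos hnf]
  have h1 : ∀ f ∈ E.prs (E.j + 1) u x, E.chi E.s f.1 f.2 * E.cov u x f.1 f.2 ≤
      (∑ z, ∑ c, (if E.hc u x z c then E.p z c * (if E.act f.1 f.2 ∧ E.hc f.1 f.2 z c then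
        E.s.X f.1 f.2 * (E.ovB u x f z c - (if E.ovC u x f c then 1 else 0)) else 0) else 0)) +
      E.T / 10000 * (2 * E.T / E.k * E.T ^ 1626) := by
    intro f hfp
    by_cases hf : E.act f.1 f.2
    · rw [hchi f hf, ov_cov hE ha hf, mul_sum]
      have h2 : ∀ z, E.s.X f.1 f.2 * (∑ c, (if E.hc u x z c ∧ E.hc f.1 f.2 z c then
          E.p z c * E.ovB u x f z c else 0)) =
          (∑ c, (if E.hc u x z c then E.p z c * (if E.act f.1 f.2 ∧ E.hc f.1 f.2 z c then
            E.s.X f.1 f.2 * (E.ovB u x f z c - (if E.ovC u x f c then 1 else 0)) else 0)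
              else 0)) +
          E.s.X f.1 f.2 * ∑ c, (if E.hc u x z c ∧ E.hc f.1 f.2 z c then
            E.p z c * (if E.ovC u x f c then 1 else 0) else 0) := by
        intro z
        rw [mul_sum, mul_sum, ← sum_add_distrib]
        refine sum_congr rfl fun c _ => ?_
        by_cases hz1 : E.hc u x z c
        · by_cases hz2 : E.hc f.1 f.2 z c
          · have hh : E.hc u x z c ∧ E.hc f.1 f.2 z c := ⟨hz1, hz2⟩
            have hh' : E.act f.1 f.2 ∧ E.hc f.1 f.2 z c := ⟨hf, hz2⟩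
            rw [if_pos hh, if_pos hz1, if_pos hh', if_pos hh]
            ring
          · rw [if_neg fun h => hz2 h.2, if_pos hz1, if_neg fun h => hz2 h.2,
              if_neg fun h => hz2 h.2]
            ring
        · rw [if_neg fun h => hz1 h.1, if_neg hz1, if_neg fun h => hz1 h.1]
          ring
      rw [sum_congr rfl fun z _ => h2 z, sum_add_distrib, ← mul_sum]
      apply add_le_add (le_refl _)
      refine mul_le_mul ((X_le hE _ _).trans (OData.th2 hD)) (ov_coin hE ha hf hfp) ?_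
        (by positivity)
      refine sum_nonneg fun z _ => sum_nonneg fun c _ => ?_
      have := hE.p_pm.1 z c
      split_ifs <;> simp <;> exact this
    · rw [ov_cov0 hE fun h => hf h.2, mul_zero]
      have h3 : (∑ z, ∑ c, (if E.hc u x z c then E.p z c *
          (if E.act f.1 f.2 ∧ E.hc f.1 f.2 z c then
        E.s.X f.1 f.2 * (E.ovB u x f z c - (if E.ovC u x f c then 1 else 0)) else 0) else 0)) =
          0 := by
        refine sum_eq_zero fun z _ => sum_eq_zero fun c _ => ?_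
        rw [if_neg fun h : E.act f.1 f.2 ∧ E.hc f.1 f.2 z c => hf h.1]
        simp
      rw [h3]
      positivity
  have h4 := sum_le_sum h1
  rw [sum_add_distrib, sum_const, nsmul_eq_mul, sum_comm] at h4
  have h5 : ∀ z, 2 / E.k * (∑ f ∈ E.prs (E.j + 1) u x, ∑ c, (if E.hc u x z c then E.p z c *
      (if E.act f.1 f.2 ∧ E.hc f.1 f.2 z c then
        E.s.X f.1 f.2 * (E.ovB u x f z c - (if E.ovC u x f c then 1 else 0)) else 0) else 0)) ≤
      81 / 1000 * ∑ c, (if E.hc u x z c then E.p z c else 0) := by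
    intro z
    rw [sum_comm, mul_sum, mul_sum]
    refine sum_le_sum fun c _ => ?_
    by_cases hz1 : E.hc u x z c
    · simp only [if_pos hz1]
      rw [← mul_sum]
      have h6 := ov_point hE ha hz1
      have h7 := mul_le_mul_of_nonneg_left h6 (hE.p_pm.1 z c)
      calc _ = E.p z c * (2 / E.k * (∑ f ∈ E.prs (E.j + 1) u x,
            (if E.act f.1 f.2 ∧ E.hc f.1 f.2 z c then
            E.s.X f.1 f.2 * (E.ovB u x f z c - (if E.ovC u x f c then 1 else 0)) else 0))) := by
            ring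
        _ ≤ _ := h7
        _ = _ := by ring
    · simp only [if_neg hz1, sum_const_zero, mul_zero, le_refl]
  have h8 : 2 / (E.k : ℝ) * (∑ z, ∑ f ∈ E.prs (E.j + 1) u x, ∑ c,
      (if E.hc u x z c then E.p z c * (if E.act f.1 f.2 ∧ E.hc f.1 f.2 z c then
        E.s.X f.1 f.2 * (E.ovB u x f z c - (if E.ovC u x f c then 1 else 0)) else 0) else 0)) ≤
      81 / 1000 * E.H u x := by
    rw [H_eq hE, mul_sum, mul_sum]
    exact sum_le_sum fun z _ => h5 z
  have hq2 : E.T / E.k ≤ 1 / E.T ^ 3998 := by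
    have := OData.div_k hD (a := 1) (b := 3998) (by norm_num)
    rwa [pow_one] at this
  have h9 : 2 / (E.k : ℝ) * (((E.prs (E.j + 1) u x).card : ℝ) *
      (E.T / 10000 * (2 * E.T / E.k * E.T ^ 1626))) ≤ 1 / E.T ^ 2360 := by
    have h10 := OData.prs_card hD ha.1.1.2.2.2.2 (E.j + 1)
    calc 2 / (E.k : ℝ) * (((E.prs (E.j + 1) u x).card : ℝ) *
          (E.T / 10000 * (2 * E.T / E.k * E.T ^ 1626))) ≤
          2 / (E.k : ℝ) * (E.T ^ 4004 * (E.T / 10000 * (2 * E.T / E.k * E.T ^ 1626))) :=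
            mul_le_mul_of_nonneg_left (mul_le_mul_of_nonneg_right h10 (by positivity))
              (by positivity)
      _ = 4 / 10000 * ((E.T / E.k) * (E.T / E.k) * (E.T ^ 4004 * E.T ^ 1626)) := by
            field_simp
            ring
      _ ≤ 4 / 10000 * ((1 / E.T ^ 3998) * (1 / E.T ^ 3998) * (E.T ^ 4004 * E.T ^ 1626)) := by
            gcongr
      _ = 4 / 10000 * (1 / E.T ^ 2366) := by
            have h11 : E.T ^ 3998 * E.T ^ 3998 = E.T ^ 2366 * (E.T ^ 4004 * E.T ^ 1626) := by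
              rw [← pow_add, ← pow_add, ← pow_add]
            have h12 : (1 / E.T ^ 3998) * (1 / E.T ^ 3998) = 1 / (E.T ^ 3998 * E.T ^ 3998) := by
              ring
            rw [h12, h11]
            field_simp
      _ ≤ 1 * (1 / E.T ^ 2366) := mul_le_mul_of_nonneg_right (by norm_num) (by positivity)
      _ ≤ 1 / E.T ^ 2360 := by
            rw [one_mul]
            exact hD.big.ipw (by norm_num)
  calc 2 / (E.k : ℝ) * (∑ f ∈ E.prs (E.j + 1) u x, E.chi E.s f.1 f.2 * E.cov u x f.1 f.2) ≤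
      2 / (E.k : ℝ) * _ := mul_le_mul_of_nonneg_left h4 (by positivity)
    _ ≤ _ := by
        rw [mul_add]
        exact add_le_add h8 h9

theorem cov_le {x : V} (hx : E.j < E.lv x) :
    2 / E.k * ∑ u, (if E.rel u x ∧ E.s.nf u x then E.s.X u x *
      ∑ f ∈ E.prs (E.j + 1) u x, E.chi E.s f.1 f.2 * E.cov u x f.1 f.2 else 0) ≤
      85 / 1000 * (∑ u, E.s.X u x * E.H0 u x) + E.T ^ 1700 := by
  have hD := hE.prt_ok.dat
  have hT : 0 < E.T := OData.T0 hD
  have hT1 : 1 ≤ E.T := OData.T1 hD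
  have hk : (0 : ℝ) < E.k := OData.k_pos hD
  have hH0 : ∀ u, 0 ≤ E.s.X u x * E.H0 u x := by
    intro u
    refine mul_nonneg (X_nonneg hE _ _) ?_
    unfold H0
    split_ifs
    · exact H_nonneg hE _ _
    · exact le_refl _
  have h1 : ∀ u, 2 / (E.k : ℝ) * (if E.rel u x ∧ E.s.nf u x then E.s.X u x *
      ∑ f ∈ E.prs (E.j + 1) u x, E.chi E.s f.1 f.2 * E.cov u x f.1 f.2 else 0) ≤
      85 / 1000 * (E.s.X u x * E.H0 u x) + (if E.rel u x then E.T * (1 / E.T ^ 2360) else 0) := by
    intro u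
    by_cases ha : E.act u x
    · have h2 := ov_act hE ha
      have hX := X_nonneg hE u x
      have hXT : E.s.X u x ≤ E.T := by
        have := (X_le hE u x).trans (OData.th2 hD)
        linarith
      rw [if_pos ⟨ha.1.1, Or.inl ha.2.1⟩, if_pos ha.1.1]
      have h3 := mul_le_mul_of_nonneg_left h2 hX
      have h4 : E.H0 u x = E.H u x := by
        unfold H0
        rw [if_pos ha]
      have h5 := hH0 u
      rw [h4] at h5 ⊢
      calc 2 / (E.k : ℝ) * (E.s.X u x * ∑ f ∈ E.prs (E.j + 1) u x,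
            E.chi E.s f.1 f.2 * E.cov u x f.1 f.2) =
            E.s.X u x * (2 / (E.k : ℝ) * ∑ f ∈ E.prs (E.j + 1) u x,
              E.chi E.s f.1 f.2 * E.cov u x f.1 f.2) := by ring
        _ ≤ E.s.X u x * (81 / 1000 * E.H u x + 1 / E.T ^ 2360) := h3
        _ = 81 / 1000 * (E.s.X u x * E.H u x) + E.s.X u x * (1 / E.T ^ 2360) := by ring
        _ ≤ 85 / 1000 * (E.s.X u x * E.H u x) + E.T * (1 / E.T ^ 2360) := by
            apply add_le_add
            · linarith
            · exact mul_le_mul_of_nonneg_right hXT (by positivity)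
    · have h2 : ∑ f ∈ E.prs (E.j + 1) u x, E.chi E.s f.1 f.2 * E.cov u x f.1 f.2 = 0 := by
        refine sum_eq_zero fun f _ => ?_
        rw [ov_cov0 hE fun h => ha h.1, mul_zero]
      rw [h2, mul_zero, ite_self, mul_zero]
      have h3 := hH0 u
      split_ifs
      · positivity
      · linarith
  rw [mul_sum]
  refine (sum_le_sum fun u _ => h1 u).trans ?_
  rw [sum_add_distrib, ← mul_sum, ← Finset.sum_filter, sum_const, nsmul_eq_mul]
  apply add_le_add (le_refl _)
  calc ((univ.filter fun u => E.rel u x).card : ℝ) * (E.T * (1 / E.T ^ 2360)) ≤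
      E.T ^ 4016 * (E.T * (1 / E.T ^ 2360)) :=
        mul_le_mul_of_nonneg_right (OData.rel_card hD x) (by positivity)
    _ = E.T ^ 1657 := by
        rw [show (4016 : ℕ) = 1656 + 2360 by norm_num, pow_add, pow_succ E.T 1656]
        field_simp
    _ ≤ E.T ^ 1700 := pow_le_pow_right₀ hT1 (by norm_num)

end

end ORd

end

end Pool.Agent.AcyK
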