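import Pool.Agent.AcyK.OUpdA
import Pool.Agent.AcyK.OLaw
import Pool.Agent.AcyK.OExt

/-! # Drifts of the first two statistics (row OM1) -/

set_option autoImplicit false
set_option linter.unusedSectionVars false

namespace Pool.Agent.AcyK

open Finset
open Pool.Agent.Acy (IsPM wt Ex Pr mean)
open scoped Classical

universe u v w

/-- Powers with different exponents. -/
theorem Big.driftA_pw {T : ℝ} (hT : Big T) {a b : ℕ} (h : a + 1 ≤ b) : 1000000 * T ^ a ≤ T ^ b := by
  have h1 : T ^ (a + 1) ≤ T ^ b := hT.pw h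
  have h2 : (1000000 : ℝ) * T ^ a ≤ T * T ^ a :=
    mul_le_mul_of_nonneg_right (by linarith [hT.big]) (pow_nonneg hT.pos.le a)
  have h3 : T * T ^ a = T ^ (a + 1) := (pow_succ' T a).symm
  linarith

section

variable {V : Type u} [Fintype V] [DecidableEq V]

namespace ORd

variable {E : ORd V} {C : V → Option (Fin E.k × ℕ)}

section
variable (hE : E.Ok C)
include hE

/-- First order terms, compensated. -/
theorem driftA_cen (ω : V → E.Pick) (x : V) (w : V → ℝ) :
    E.cen ω (fun z e => ∑ u, w u * E.g0 u x z e) =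
      ∑ u, w u * (E.H0 u x + ∑ z, E.g0 u x z (ω z)) := by
  have h0 : ∀ z, mean E.law (fun z e => ∑ u, w u * E.g0 u x z e) z =
      ∑ u, w u * mean E.law (E.g0 u x) z := by
    intro z
    unfold mean
    simp only [mul_sum]
    rw [sum_comm]
    exact sum_congr rfl fun u _ => sum_congr rfl fun a _ => by ring
  unfold cen
  rw [sum_sub_distrib]
  have h1 : ∑ z, mean E.law (fun z e => ∑ u, w u * E.g0 u x z e) z =
      ∑ u, w u * (-E.H0 u x) := by
    simp only [h0]
    rw [sum_comm]
    refine sum_congr rfl fun u _ => ?_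
    rw [← mul_sum, sum_mean_g0 hE]
  rw [h1, sum_comm, ← sum_sub_distrib]
  refine sum_congr rfl fun u _ => ?_
  rw [← mul_sum]
  ring

theorem driftA_nh_nonneg (ω : V → E.Pick) (u x : V) :
    0 ≤ (E.nh ω u x : ℝ) * ((E.nh ω u x : ℝ) - 1) := by
  rcases Nat.eq_zero_or_pos (E.nh ω u x) with h | h
  · rw [h]
    simp
  · have h1 : (1 : ℝ) ≤ (E.nh ω u x : ℝ) := by exact_mod_cast h
    exact mul_nonneg (by linarith) (by linarith)

theorem driftA_big : Big E.T := hE.prt_ok.dat.big

theorem driftA_site {u x : V} (h : E.act u x) : E.site u x := h.1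

theorem driftA_rel {u x : V} (h : E.act u x) : E.rel u x := h.1.1

/-- The second order errors of all pairs at `x`. -/
theorem driftA_err (ω : V → E.Pick) (hG : E.Good ω) {x : V} (hx : E.j < E.lv x) :
    ∑ u, (if E.act u x then
      E.T * (E.H u x * E.nh ω u x + (E.nh ω u x : ℝ) * ((E.nh ω u x : ℝ) - 1)) else 0) ≤
      E.T ^ 2202 := by
  have hT := driftA_big hE
  have hT0 := hT.pos
  have h1 : ∀ u, (if E.act u x then
      E.T * (E.H u x * E.nh ω u x + (E.nh ω u x : ℝ) * ((E.nh ω u x : ℝ) - 1)) else 0) ≤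
      E.T * (1 / E.T ^ 923) * (if E.site u x then (E.nh ω u x : ℝ) else 0) +
      E.T * (if E.site u x then (E.nh ω u x : ℝ) * ((E.nh ω u x : ℝ) - 1) else 0) := by
    intro u
    by_cases ha : E.act u x
    · have hs := driftA_site hE ha
      rw [if_pos ha, if_pos hs, if_pos hs]
      have hH := H_le hE (driftA_rel hE ha)
      have hn : (0 : ℝ) ≤ (E.nh ω u x : ℝ) := Nat.cast_nonneg _
      have h2 := mul_le_mul_of_nonneg_right hH hn
      have h3 := mul_le_mul_of_nonneg_left h2 hT0.le
      nlinarith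
    · rw [if_neg ha]
      have hq := driftA_nh_nonneg hE ω u x
      by_cases hs : E.site u x
      · rw [if_pos hs, if_pos hs]
        have hn : (0 : ℝ) ≤ (E.nh ω u x : ℝ) := Nat.cast_nonneg _
        positivity
      · rw [if_neg hs, if_neg hs]
        simp
  refine (sum_le_sum fun u _ => h1 u).trans ?_
  rw [sum_add_distrib, ← mul_sum, ← mul_sum]
  have c1 := hG.c1 x hx
  have c4 := hG.c4 x hx
  have h2 : E.T * (1 / E.T ^ 923) * (∑ u, if E.site u x then (E.nh ω u x : ℝ) else 0) ≤
      E.T * (1 / E.T ^ 923) * E.T ^ 3102 := mul_le_mul_of_nonneg_left c1 (by positivity)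
  have h3 : E.T * (∑ u, if E.site u x then (E.nh ω u x : ℝ) * ((E.nh ω u x : ℝ) - 1) else 0) ≤
      E.T * E.T ^ 2200 := mul_le_mul_of_nonneg_left c4 hT0.le
  have h4 : E.T * (1 / E.T ^ 923) * E.T ^ 3102 = E.T ^ 2180 := by
    rw [show (3102 : ℕ) = 923 + 2179 from rfl, pow_add, show (2180 : ℕ) = 2179 + 1 from rfl,
      pow_succ]
    field_simp
  have h5 : E.T * E.T ^ 2200 = E.T ^ 2201 := (pow_succ' E.T 2200).symm
  have h6 : E.T ^ 2180 ≤ E.T ^ 2201 := hT.pw (by norm_num)
  have h7 := hT.driftA_pw (show 2201 + 1 ≤ 2202 by norm_num)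
  have h8 : 0 ≤ E.T ^ 2201 := pow_nonneg hT0.le _
  linarith

/-- Sums over active pairs. -/
theorem driftA_site_of_rel {u x : V} (hx : E.j < E.lv x) (h : E.rel u x) : E.site u x :=
  ⟨h, by rw [h.2.1]; exact hx⟩

theorem ma_step (ω : V → E.Pick) (hG : E.Good ω) {x : V} (hx : E.j < E.lv x) :
    |E.Ma (E.next ω) x - E.Ma E.s x| ≤ E.T ^ 2433 := by
  have hT := driftA_big hE
  have hT0 := hT.pos
  have hcen := driftA_cen hE ω x (fun u => E.s.X u x)
  have ht1 : |E.cen ω (fun z e => ∑ u, E.s.X u x * E.g0 u x z e)| ≤ E.T ^ 2430 := hG.t1 x hx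
  rw [hcen] at ht1
  have herr := driftA_err hE ω hG hx
  have hdiff : E.Ma (E.next ω) x - E.Ma E.s x =
      ∑ u, (if E.act u x then (E.nX ω u x - E.s.X u x) else 0) := by
    unfold OData.Ma OData.K
    rw [← sum_sub_distrib]
    refine sum_congr rfl fun u _ => ?_
    by_cases ha : E.act u x
    · rw [if_pos (driftA_rel hE ha), if_pos (driftA_rel hE ha), if_pos ha]
      show E.nX ω u x - 1 - (E.s.X u x - 1) = _
      ring
    · rw [if_neg ha]
      have h1 : E.nX ω u x = E.s.X u x := nX_not_act hE ω ha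
      by_cases hr : E.rel u x
      · rw [if_pos hr, if_pos hr]
        show E.nX ω u x - 1 - (E.s.X u x - 1) = _
        rw [h1]
        ring
      · rw [if_neg hr, if_neg hr]
        ring
  have hpt : ∀ u, |(if E.act u x then (E.nX ω u x - E.s.X u x) else 0) -
      E.s.X u x * (E.H0 u x + ∑ z, E.g0 u x z (ω z))| ≤ (if E.act u x then
      E.T * (E.H u x * E.nh ω u x + (E.nh ω u x : ℝ) * ((E.nh ω u x : ℝ) - 1)) else 0) := by
    intro u
    by_cases ha : E.act u x
    · rw [if_pos ha, if_pos ha]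
      have h1 := nX_lin hE ω ha
      have h2 : E.H0 u x = E.H u x := by unfold H0; rw [if_pos ha]
      have h3 : ∑ z, E.g0 u x z (ω z) = ∑ z, E.g u x z (ω z) :=
        sum_congr rfl fun z _ => by unfold g0; rw [if_pos ha]
      rw [h2, h3]
      have h4 : E.nX ω u x - E.s.X u x - E.s.X u x * (E.H u x + ∑ z, E.g u x z (ω z)) =
          E.nX ω u x - E.s.X u x * (1 + E.H u x + ∑ z, E.g u x z (ω z)) := by ring
      rw [h4]
      exact h1
    · rw [if_neg ha, if_neg ha]
      have h2 : E.H0 u x = 0 := by unfold H0; rw [if_neg ha]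
      have h3 : ∑ z, E.g0 u x z (ω z) = 0 :=
        sum_eq_zero fun z _ => by unfold g0; rw [if_neg ha]
      rw [h2, h3]
      simp
  have hsum : |∑ u, (if E.act u x then (E.nX ω u x - E.s.X u x) else 0) -
      ∑ u, E.s.X u x * (E.H0 u x + ∑ z, E.g0 u x z (ω z))| ≤ E.T ^ 2202 := by
    rw [← sum_sub_distrib]
    exact (abs_sum_le_sum_abs _ _).trans ((sum_le_sum fun u _ => hpt u).trans herr)
  rw [hdiff]
  have h7 := hT.driftA_pw (show 2430 + 1 ≤ 2433 by norm_num)
  have h8 : E.T ^ 2202 ≤ E.T ^ 2430 := hT.pw (by norm_num)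
  have h9 : 0 ≤ E.T ^ 2430 := pow_nonneg hT0.le _
  rw [abs_le] at hsum ht1 ⊢
  constructor <;> linarith [hsum.1, hsum.2, ht1.1, ht1.2]

theorem la_step (ω : V → E.Pick) (hG : E.Good ω) {x : V} (hx : E.j < E.lv x) :
    E.La (E.next ω) x ≤ E.La E.s x +
    102 / 100 * E.tau * (∑ u, E.s.X u x * E.H0 u x) + E.T ^ 2434 := by
  have hT := driftA_big hE
  have hT0 := hT.pos
  have hcen := driftA_cen hE ω x (fun u => E.s.X u x * Real.log (E.s.X u x))
  have ht2 : |E.cen ω (fun z e => ∑ u, E.s.X u x * Real.log (E.s.X u x) * E.g0 u x z e)| ≤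
      E.T ^ 2430 := hG.t2 x hx
  rw [hcen] at ht2
  have ht3 := hG.t3 x hx
  have herr := driftA_err hE ω hG hx
  have hF3 : ∑ z, E.F3 x z (ω z) ≤ E.T ^ 2430 +
      Real.log (2 * E.NN + 2) * ∑ u, E.s.X u x * E.H0 u x := by
    have h1 : ∑ z, E.F3 x z (ω z) = E.cen ω (E.F3 x) + ∑ z, mean E.law (E.F3 x) z := by
      unfold cen
      rw [sum_sub_distrib]
      ring
    have h2 : ∑ z, mean E.law (E.F3 x) z ≤
        Real.log (2 * E.NN + 2) * ∑ u, E.s.X u x * E.H0 u x := by
      have h3 : ∀ z, mean E.law (E.F3 x) z =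
          ∑ u, (if E.act u x then E.s.X u x * mean E.law (E.psi u x) z else 0) := by
        intro z
        unfold mean F3
        simp only [mul_sum]
        rw [sum_comm]
        refine sum_congr rfl fun u _ => ?_
        by_cases ha : E.act u x
        · simp only [if_pos ha]
          exact sum_congr rfl fun a _ => by ring
        · simp only [if_neg ha, mul_zero, sum_const_zero]
      simp only [h3]
      rw [sum_comm, mul_sum]
      refine sum_le_sum fun u _ => ?_
      by_cases ha : E.act u x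
      · simp only [if_pos ha]
        rw [← mul_sum]
        have h4 := sum_mean_psi hE ha
        have h5 : E.H0 u x = E.H u x := by unfold H0; rw [if_pos ha]
        rw [h5]
        have h6 := mul_le_mul_of_nonneg_left h4 (X_nonneg hE u x)
        calc _ ≤ _ := h6
          _ = _ := by ring
      · simp only [if_neg ha, sum_const_zero]
        have h5 : E.H0 u x = 0 := by unfold H0; rw [if_neg ha]
        rw [h5]
        simp
    have h4 := (abs_le.mp ht3).2
    linarith
  have hF3' : ∑ z, E.F3 x z (ω z) =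
      ∑ u, (if E.act u x then E.s.X u x * ∑ z, E.psi u x z (ω z) else 0) := by
    unfold F3
    rw [sum_comm]
    refine sum_congr rfl fun u _ => ?_
    by_cases ha : E.act u x
    · simp only [if_pos ha]
      rw [← mul_sum]
    · simp only [if_neg ha, sum_const_zero]
  have hpt : ∀ u, (if E.rel u x then E.nX ω u x * Real.log (E.nX ω u x) else 0) ≤
      (if E.rel u x then E.s.X u x * Real.log (E.s.X u x) else 0) +
      E.s.X u x * Real.log (E.s.X u x) * (E.H0 u x + ∑ z, E.g0 u x z (ω z)) +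
      (if E.act u x then E.s.X u x * ∑ z, E.psi u x z (ω z) else 0) +
      101 / 100 * (E.s.X u x * E.H0 u x) + (if E.act u x then
      E.T * (E.H u x * E.nh ω u x + (E.nh ω u x : ℝ) * ((E.nh ω u x : ℝ) - 1)) else 0) := by
    intro u
    by_cases ha : E.act u x
    · rw [if_pos ha, if_pos ha, if_pos (driftA_rel hE ha), if_pos (driftA_rel hE ha)]
      have h1 := nX_log hE ω ha
      have h2 : E.H0 u x = E.H u x := by unfold H0; rw [if_pos ha]
      have h3 : ∑ z, E.g0 u x z (ω z) = ∑ z, E.g u x z (ω z) :=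
        sum_congr rfl fun z _ => by unfold g0; rw [if_pos ha]
      rw [h2, h3]
      refine h1.trans (le_of_eq ?_)
      ring
    · rw [if_neg ha, if_neg ha]
      have h2 : E.H0 u x = 0 := by unfold H0; rw [if_neg ha]
      have h3 : ∑ z, E.g0 u x z (ω z) = 0 :=
        sum_eq_zero fun z _ => by unfold g0; rw [if_neg ha]
      rw [h2, h3, nX_not_act hE ω ha]
      simp
  have hsum := sum_le_sum fun u (_ : u ∈ univ) => hpt u
  rw [sum_add_distrib, sum_add_distrib, sum_add_distrib, sum_add_distrib, ← mul_sum,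
    ← hF3'] at hsum
  have hLa : E.La (E.next ω) x =
      ∑ u, (if E.rel u x then E.nX ω u x * Real.log (E.nX ω u x) else 0) := rfl
  have hLa' : E.La E.s x =
      ∑ u, (if E.rel u x then E.s.X u x * Real.log (E.s.X u x) else 0) := rfl
  rw [← hLa, ← hLa'] at hsum
  have hH : 0 ≤ ∑ u, E.s.X u x * E.H0 u x := sum_nonneg fun u _ =>
    mul_nonneg (X_nonneg hE u x) (by
      unfold H0
      split_ifs
      · exact H_nonneg hE u x
      · exact le_rfl)
  have htau : E.tau = 1 + Real.log (2 * E.NN + 2) := rfl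
  have htau1 : 1 ≤ E.tau := OData.tau_ge hE.prt_ok.dat
  have h7 := hT.driftA_pw (show 2430 + 1 ≤ 2434 by norm_num)
  have h8 : E.T ^ 2202 ≤ E.T ^ 2430 := hT.pw (by norm_num)
  have h9 : 0 ≤ E.T ^ 2430 := pow_nonneg hT0.le _
  have h10 : (Real.log (2 * E.NN + 2) + 101 / 100) * (∑ u, E.s.X u x * E.H0 u x) ≤
      102 / 100 * E.tau * (∑ u, E.s.X u x * E.H0 u x) :=
    mul_le_mul_of_nonneg_right (by rw [htau] at htau1 ⊢; linarith) hH
  have h11 := (abs_le.mp ht2).2
  nlinarith

/-- From the actual hazards to the accumulated predicted hazards. -/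
theorem accS_step {Y' : V → V → ℝ}
    (hY : ∀ u x, E.site u x → Y' u x ≤ E.Y u x - E.H u x + 1 / E.T ^ 1000)
    {x : V} (hx : E.j < E.lv x) : 1000 / 1001 * (∑ u, E.s.X u x * E.H0 u x) ≤
      E.accS (E.m + 1) Y' x - E.accS E.m E.Y x := by
  unfold OPart.accS
  rw [← sum_sub_distrib, mul_sum]
  refine sum_le_sum fun u _ => ?_
  have hacc : ∀ h : E.site u x, E.H u x ≤ E.acc (E.m + 1) Y' u x - E.acc E.m E.Y u x := by
    intro h
    have h1 := hY u x h
    unfold OPart.acc
    push_cast
    rw [add_div]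
    linarith
  by_cases ha : E.act u x
  · have hs := driftA_site hE ha
    obtain ⟨h1, h2, h3, h4⟩ := act_s0 hE ha
    rw [if_pos ⟨hs, Or.inl h1⟩, if_pos ⟨hs, Or.inl h1⟩]
    have h5 : E.H0 u x = E.H u x := by unfold H0; rw [if_pos ha]
    have h6 := act_X_le hE ha
    have h7 := H_nonneg hE u x
    have h8 := hacc hs
    rw [h5, ← mul_sub]
    have h9 : E.s0.X u x * E.H u x ≤
        E.s0.X u x * (E.acc (E.m + 1) Y' u x - E.acc E.m E.Y u x) :=
      mul_le_mul_of_nonneg_left h8 (by linarith)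
    have h10 := mul_le_mul_of_nonneg_right h6 h7
    nlinarith
  · have h5 : E.H0 u x = 0 := by unfold H0; rw [if_neg ha]
    rw [h5]
    split_ifs with h
    · have h8 := hacc h.1
      have h7 := H_nonneg hE u x
      have h9 : 0 ≤ E.s0.X u x := by
        rcases hE.prt_ok.inv.cases u x with h | h <;> linarith
      have h10 := mul_nonneg h9 (h7.trans h8)
      nlinarith
    · simp

end

end ORd

end

end Pool.Agent.AcyK
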