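import Pool.Agent.AcyK.OUpdA

/-! # The pointwise invariants after the round (row OU3) -/

set_option autoImplicit false
set_option linter.unusedSectionVars false

namespace Pool.Agent.AcyK

open Finset
open Pool.Agent.Acy (IsPM wt Ex Pr mean)
open scoped Classical

universe u

section

variable {V : Type u} [Fintype V] [DecidableEq V]

namespace ORd

variable {E : ORd V} {C : V → Option (Fin E.k × ℕ)}

/-! Symmetry. -/

theorem A_symm' (u x : V) : E.A u x = E.A x u := by
  unfold OPart.A OData.cj cN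
  rw [inter_comm]

theorem H_symm' (u x : V) : E.H u x = E.H x u := by
  unfold H
  rw [A_symm' u x]

theorem hc_symm' (u x z : V) (c : Fin E.k) : E.hc u x z c = E.hc x u z c := by
  unfold hc
  rw [A_symm' u x]

theorem prt_symm' (u x z : V) (c : Fin E.k) : E.prt u x z c = E.prt x u z c := by
  unfold prt
  rw [A_symm' u x]

theorem ev_symm' (u x z : V) (e : E.Pick) : E.ev u x z e = E.ev x u z e := by
  unfold ev
  simp only [hc_symm' u x, prt_symm' u x]

section
variable (hE : E.Ok C)
include hE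

theorem won_symm' (u x z : V) (e : E.Pick) : E.won u x z e = E.won x u z e := by
  unfold won
  simp only [hc_symm' u x, prt_symm' u x, hE.prt_ok.J_symm z _ u x]

variable (ω : V → E.Pick)

theorem act_symm_iff (u x : V) : E.act u x ↔ E.act x u :=
  ⟨fun h => act_symm hE h, fun h => act_symm hE h⟩

theorem nX_symm' (u x : V) : E.nX ω u x = E.nX ω x u := by
  have h1 : E.nev ω u x = E.nev ω x u := by
    unfold nev
    exact sum_congr rfl fun z _ => ev_symm' u x z (ω z)
  have h2 : E.W ω u x = E.W ω x u := by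
    unfold W
    exact sum_congr rfl fun z _ => won_symm' hE u x z (ω z)
  unfold nX
  rw [h1, h2, H_symm' u x, hE.inv.X_symm u x]
  simp only [act_symm_iff hE u x]

theorem next_symm (u x : V) : (E.next ω).X u x = (E.next ω).X x u ∧
    (E.next ω).st u x = (E.next ω).st x u := by
  have h1 : E.nev ω u x = E.nev ω x u := by
    unfold nev
    exact sum_congr rfl fun z _ => ev_symm' u x z (ω z)
  have h2 : E.clash ω u x = E.clash ω x u := by
    unfold clash
    rw [A_symm' u x]
  have h3 : E.realHit ω u x = E.realHit ω x u := by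
    unfold realHit
    simp only [hc_symm' u x]
  have h4 : E.site u x ↔ E.site x u := ⟨fun h => site_symm hE h, fun h => site_symm hE h⟩
  refine ⟨nX_symm' hE ω u x, ?_⟩
  unfold next
  simp only
  rw [h1, h2, h3, nX_symm' hE ω u x, hE.inv.st_symm u x]
  simp only [act_symm_iff hE u x, h4]

/-! Statuses. -/

/-- The status after the round: all cases. -/
theorem st_cases (u x : V) :
    (E.act u x ∧ ((E.nX ω u x = 0 ∧ (E.next ω).st u x = .act) ∨
      (E.nX ω u x ≠ 0 ∧ E.clash ω u x ∧ (E.next ω).st u x = .frO) ∨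
      (E.nX ω u x ≠ 0 ∧ ¬ E.clash ω u x ∧ E.nev ω u x = 0 ∧ (E.next ω).st u x = .act) ∨
      (E.nX ω u x ≠ 0 ∧ ¬ E.clash ω u x ∧ E.nev ω u x ≠ 0 ∧ (E.next ω).st u x = .asl))) ∨
    (¬ E.act u x ∧ E.site u x ∧ E.s.st u x = .asl ∧
      (((E.clash ω u x ∨ E.realHit ω u x) ∧ (E.next ω).st u x = .frO) ∨
      (¬ (E.clash ω u x ∨ E.realHit ω u x) ∧ (E.next ω).st u x = .asl))) ∨
    (¬ E.act u x ∧ ¬ (E.site u x ∧ E.s.st u x = .asl) ∧ (E.next ω).st u x = E.s.st u x) := by
  unfold next
  simp only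
  by_cases ha : E.act u x
  · left
    refine ⟨ha, ?_⟩
    rw [if_pos ha]
    by_cases h0 : E.nX ω u x = 0
    · left
      exact ⟨h0, if_pos h0⟩
    · right
      rw [if_neg h0]
      by_cases hc : E.clash ω u x
      · left
        exact ⟨h0, hc, if_pos hc⟩
      · right
        rw [if_neg hc]
        by_cases hn : E.nev ω u x = 0
        · left
          exact ⟨h0, hc, hn, if_pos hn⟩
        · right
          exact ⟨h0, hc, hn, if_neg hn⟩
  · right
    rw [if_neg ha]
    by_cases hs : E.site u x ∧ E.s.st u x = .asl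
    · left
      refine ⟨ha, hs.1, hs.2, ?_⟩
      rw [if_pos hs]
      by_cases hc : E.clash ω u x ∨ E.realHit ω u x
      · left
        exact ⟨hc, if_pos hc⟩
      · right
        exact ⟨hc, if_neg hc⟩
    · right
      exact ⟨ha, hs, if_neg hs⟩

theorem next_off {u x : V} (h : ¬ E.site u x) : (E.next ω).X u x = E.s0.X u x ∧
    (E.next ω).st u x = E.s0.st u x := by
  have h1 := hE.inv.off u x h
  have ha : ¬ E.act u x := fun ha => h ha.1
  constructor
  · rw [← h1.1]
    exact nX_not_act hE ω ha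
  · rcases st_cases hE ω u x with h2 | h2 | h2
    · exact absurd h2.1 ha
    · exact absurd h2.2.1 h
    · rw [h2.2.2]
      exact h1.2

theorem next_cases (u x : V) : (E.next ω).X u x = 0 ∨ 1 ≤ (E.next ω).X u x := by
  change E.nX ω u x = 0 ∨ 1 ≤ E.nX ω u x
  by_cases ha : E.act u x
  · have hX := (act_s0 hE ha).2.2.2
    have hH := H_nonneg hE u x
    rcases nX_cases hE ω ha with h | h | h | h
    · right
      rw [h.2.1]
      nlinarith
    · right
      rw [h.2.2.2.1]
      nlinarith [h.2.1]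
    · exact Or.inl h.2.2
    · exact Or.inl h.2
  · rw [nX_not_act hE ω ha]
    exact hE.inv.cases u x

theorem next_dead0 {u x : V} (h : E.s0.X u x = 0) : (E.next ω).X u x = 0 := by
  have h1 := hE.inv.dead0 u x h
  change E.nX ω u x = 0
  rw [nX_not_act hE ω fun ha => ha.2.2 h1]
  exact h1

theorem next_fr_ne {u x : V} (h : (E.next ω).st u x ≠ .act) : (E.next ω).X u x ≠ 0 := by
  change E.nX ω u x ≠ 0
  rcases st_cases hE ω u x with h2 | h2 | h2
  · rcases h2.2 with h3 | h3 | h3 | h3
    · exact absurd h3.2 h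
    · exact h3.1
    · exact absurd h3.2.2.2 h
    · exact h3.1
  · rw [nX_not_act hE ω h2.1]
    refine hE.inv.fr_ne u x ?_
    rw [h2.2.2.1]
    exact fun h => by cases h
  · rw [nX_not_act hE ω h2.1]
    refine hE.inv.fr_ne u x ?_
    rw [← h2.2.2]
    exact h

theorem next_nf {u x : V} (h : (E.next ω).nf u x) : E.s.nf u x := by
  rcases st_cases hE ω u x with h2 | h2 | h2
  · exact Or.inl h2.1.2.1
  · exact Or.inr h2.2.2.1
  · unfold OState.nf at h ⊢
    rw [← h2.2.2]
    exact h

theorem next_act {u x : V} (h : (E.next ω).st u x = .act) (h0 : (E.next ω).X u x ≠ 0) :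
    E.s.st u x = .act ∧ E.s.X u x ≠ 0 := by
  change E.nX ω u x ≠ 0 at h0
  rcases st_cases hE ω u x with h2 | h2 | h2
  · exact h2.1.2
  · rcases h2.2.2.2 with h3 | h3
    · rw [h3.2] at h
      cases h
    · rw [h3.2] at h
      cases h
  · rw [nX_not_act hE ω h2.1] at h0
    rw [h2.2.2] at h
    exact ⟨h, h0⟩

theorem next_frY {u x : V} : (E.next ω).st u x = .frY ↔ E.s.st u x = .frY := by
  rcases st_cases hE ω u x with h2 | h2 | h2
  · have h4 : E.s.st u x = .act := h2.1.2.1
    rw [h4]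
    rcases h2.2 with h3 | h3 | h3 | h3
    · rw [h3.2]
    · rw [h3.2.2]
      constructor <;> intro h <;> cases h
    · rw [h3.2.2.2]
    · rw [h3.2.2.2]
      constructor <;> intro h <;> cases h
  · rw [h2.2.2.1]
    rcases h2.2.2.2 with h3 | h3
    · rw [h3.2]
      constructor <;> intro h <;> cases h
    · rw [h3.2]
  · rw [h2.2.2]

theorem next_frYS {u x : V} (h : (E.next ω).st u x = .frY ∨ (E.next ω).st u x = .frS) :
    E.s0.st u x = (E.next ω).st u x := by
  rcases st_cases hE ω u x with h2 | h2 | h2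
  · rcases h2.2 with h3 | h3 | h3 | h3
    · rw [h3.2] at h
      rcases h with h | h <;> cases h
    · rw [h3.2.2] at h
      rcases h with h | h <;> cases h
    · rw [h3.2.2.2] at h
      rcases h with h | h <;> cases h
    · rw [h3.2.2.2] at h
      rcases h with h | h <;> cases h
  · rcases h2.2.2.2 with h3 | h3
    · rw [h3.2] at h
      rcases h with h | h <;> cases h
    · rw [h3.2] at h
      rcases h with h | h <;> cases h
  · rw [h2.2.2] at h ⊢
    exact hE.inv.frYS u x h

theorem next_fr0 {u x : V} (h : E.s0.st u x ≠ .act) : (E.next ω).X u x = E.s0.X u x ∧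
    (E.next ω).st u x = E.s0.st u x := by
  have h1 := hE.inv.fr0 u x h
  have ha : ¬ E.act u x := fun ha => h (act_s0 hE ha).1
  constructor
  · rw [← h1.1]
    exact nX_not_act hE ω ha
  · rcases st_cases hE ω u x with h2 | h2 | h2
    · exact absurd h2.1 ha
    · have h3 := hE.prt_ok.inv.no_asl u x
      rw [← h1.2] at h3
      exact absurd h2.2.2.1 h3
    · rw [h2.2.2]
      exact h1.2

/-! Upper bounds. -/

theorem acc_next {Y' : V → V → ℝ}
    (hY : ∀ u x, E.site u x → Y' u x ≤ E.Y u x - E.H u x + 1 / E.T ^ 1000)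
    {u x : V} (hs : E.site u x) :
    E.acc E.m E.Y u x + E.H u x ≤ E.acc (E.m + 1) Y' u x := by
  have h1 := hY u x hs
  unfold OPart.acc
  have h2 : ((E.m + 1 : ℕ) : ℝ) / E.T ^ 1000 = E.m / E.T ^ 1000 + 1 / E.T ^ 1000 := by
    push_cast
    ring
  rw [h2]
  linarith

theorem exp_next {Y' : V → V → ℝ}
    (hY : ∀ u x, E.site u x → Y' u x ≤ E.Y u x - E.H u x + 1 / E.T ^ 1000)
    {u x : V} (hs : E.site u x) :
    Real.exp (E.acc E.m E.Y u x) * (1 + E.H u x) ≤ Real.exp (E.acc (E.m + 1) Y' u x) := by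
  have h1 := acc_next hE hY hs
  have h2 : 1 + E.H u x ≤ Real.exp (E.H u x) := by
    have := Real.add_one_le_exp (E.H u x)
    linarith
  calc _ ≤ Real.exp (E.acc E.m E.Y u x) * Real.exp (E.H u x) :=
        mul_le_mul_of_nonneg_left h2 (Real.exp_pos _).le
    _ = Real.exp (E.acc E.m E.Y u x + E.H u x) := (Real.exp_add _ _).symm
    _ ≤ _ := Real.exp_le_exp.2 h1

theorem exp_next' {Y' : V → V → ℝ}
    (hY : ∀ u x, E.site u x → Y' u x ≤ E.Y u x - E.H u x + 1 / E.T ^ 1000)
    {u x : V} (hs : E.site u x) :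
    Real.exp (E.acc E.m E.Y u x) ≤ Real.exp (E.acc (E.m + 1) Y' u x) := by
  have h1 := acc_next hE hY hs
  have h2 := H_nonneg hE u x
  exact Real.exp_le_exp.2 (by linarith)

theorem next_act_le {Y' : V → V → ℝ}
    (hY : ∀ u x, E.site u x → Y' u x ≤ E.Y u x - E.H u x + 1 / E.T ^ 1000)
    {u x : V} (hs : E.site u x) (h : (E.next ω).st u x = .act) :
    (E.next ω).X u x ≤ E.s0.X u x * Real.exp (E.acc (E.m + 1) Y' u x) := by
  have h0 := OPart.s0_nonneg hE.prt_ok u x
  have hH := H_nonneg hE u x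
  have hpos : 0 ≤ E.s0.X u x * Real.exp (E.acc (E.m + 1) Y' u x) :=
    mul_nonneg h0 (Real.exp_pos _).le
  change E.nX ω u x ≤ _
  rcases st_cases hE ω u x with h2 | h2 | h2
  · have ha := h2.1
    have hle := hE.inv.act_le u x hs ha.2.1
    rcases nX_cases hE ω ha with h4 | h4 | h4 | h4
    · rw [h4.2.1]
      calc E.s.X u x * (1 + E.H u x)
          ≤ E.s0.X u x * Real.exp (E.acc E.m E.Y u x) * (1 + E.H u x) :=
            mul_le_mul_of_nonneg_right hle (by linarith)
        _ = E.s0.X u x * (Real.exp (E.acc E.m E.Y u x) * (1 + E.H u x)) := by ring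
        _ ≤ _ := mul_le_mul_of_nonneg_left (exp_next hE hY hs) h0
    · rcases h2.2 with h3 | h3 | h3 | h3
      · rw [h3.1]
        exact hpos
      · rw [h3.2.2] at h
        cases h
      · have := h3.2.2.1
        omega
      · rw [h3.2.2.2] at h
        cases h
    · rw [h4.2.2]
      exact hpos
    · rw [h4.2]
      exact hpos
  · rcases h2.2.2.2 with h3 | h3
    · rw [h3.2] at h
      cases h
    · rw [h3.2] at h
      cases h
  · rw [nX_not_act hE ω h2.1]
    rw [h2.2.2] at h
    have hle := hE.inv.act_le u x hs h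
    exact hle.trans (mul_le_mul_of_nonneg_left (exp_next' hE hY hs) h0)

theorem next_asl_le {Y' : V → V → ℝ}
    (hY : ∀ u x, E.site u x → Y' u x ≤ E.Y u x - E.H u x + 1 / E.T ^ 1000)
    {u x : V} (hs : E.site u x) (h : E.s0.st u x = .act) :
    (E.next ω).X u x ≤ E.s0.X u x * Real.exp (E.acc (E.m + 1) Y' u x) * (2 * E.NN + 3) := by
  have h0 := OPart.s0_nonneg hE.prt_ok u x
  have hH := H_nonneg hE u x
  have hN : (0 : ℝ) ≤ 2 * E.NN + 3 := by positivity
  have hpos : 0 ≤ E.s0.X u x * Real.exp (E.acc (E.m + 1) Y' u x) :=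
    mul_nonneg h0 (Real.exp_pos _).le
  change E.nX ω u x ≤ _
  by_cases ha : E.act u x
  · have hle := hE.inv.act_le u x hs ha.2.1
    have hXp := X_nonneg hE u x
    have hH1 : E.H u x ≤ 1 := by
      have h5 := H_le hE hs.1
      have h6 : 1 / E.T ^ 923 ≤ 1 / 1000000 := hE.prt_ok.dat.big.small (by norm_num)
      linarith
    have key : ∀ w : ℝ, w ≤ (1 + E.H u x) * (2 * E.NN + 3) → E.s.X u x * w ≤
        E.s0.X u x * Real.exp (E.acc (E.m + 1) Y' u x) * (2 * E.NN + 3) := by
      intro w hw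
      calc E.s.X u x * w ≤ E.s.X u x * ((1 + E.H u x) * (2 * E.NN + 3)) :=
            mul_le_mul_of_nonneg_left hw hXp
        _ ≤ E.s0.X u x * Real.exp (E.acc E.m E.Y u x) * ((1 + E.H u x) * (2 * E.NN + 3)) :=
            mul_le_mul_of_nonneg_right hle (mul_nonneg (by linarith) hN)
        _ = E.s0.X u x * (Real.exp (E.acc E.m E.Y u x) * (1 + E.H u x)) * (2 * E.NN + 3) := by
            ring
        _ ≤ _ := mul_le_mul_of_nonneg_right
            (mul_le_mul_of_nonneg_left (exp_next hE hY hs) h0) hN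
    have hNN : (0 : ℝ) ≤ E.NN := Nat.cast_nonneg _
    rcases nX_cases hE ω ha with h4 | h4 | h4 | h4
    · rw [h4.2.1]
      refine key _ ?_
      nlinarith
    · rw [h4.2.2.2.1]
      refine key _ ?_
      nlinarith [h4.2.2.1]
    · rw [h4.2.2]
      exact mul_nonneg hpos hN
    · rw [h4.2]
      exact mul_nonneg hpos hN
  · rw [nX_not_act hE ω ha]
    refine (hE.inv.asl_le u x hs h).trans (mul_le_mul_of_nonneg_right ?_ hN)
    exact mul_le_mul_of_nonneg_left (exp_next' hE hY hs) h0

/-! Colours. -/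

theorem hasCol_nCol {z : V} {c : Fin E.k} : hasCol (E.nCol ω) z c ↔
    (z ∈ E.L ∧ (ω z).1 = c) ∨ (z ∉ E.L ∧ hasCol E.col z c) := by
  unfold hasCol nCol updCol L Sel
  simp only [mem_filter, mem_univ, true_and]
  by_cases h : E.col z = none ∧ E.lam z = some true
  · rw [if_pos h]
    simp [h]
  · simp [h]

theorem hasCol_nCol' {z : V} {c : Fin E.k} (h : hasCol (E.nCol ω) z c) :
    (z ∈ E.L ∧ (ω z).1 = c) ∨ hasCol E.col z c := by
  rcases (hasCol_nCol hE ω).1 h with h | h
  · exact Or.inl h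
  · exact Or.inr h.2

/-- A real hit kills an active pair. -/
theorem nX_realHit {u x : V} (ha : E.act u x) (h : E.realHit ω u x) : E.nX ω u x = 0 := by
  rcases nX_cases hE ω ha with h4 | h4 | h4 | h4
  · exfalso
    obtain ⟨z, hz⟩ := h
    have h5 : E.ev u x z (ω z) = 0 := by
      have := h4.1
      unfold nev at this
      exact (sum_eq_zero_iff.1 this) z (mem_univ z)
    unfold ev at h5
    rw [if_pos hz] at h5
    omega
  · exact absurd h h4.2.2.2.2.2
  · exact h4.2.2
  · exact h4.2

theorem next_inj (hpos : ∀ z, 0 < E.p z (ω z).1) {u x : V} (hs : E.site u x)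
    (h : (E.next ω).nf u x) (h0 : (E.next ω).X u x ≠ 0) {z z' : V} (hz : z ∈ E.A u x)
    (hz' : z' ∈ E.A u x) (hne : z ≠ z') : ¬ sameCol (E.nCol ω) z z' := by
  change E.nX ω u x ≠ 0 at h0
  have hsnf := next_nf hE ω h
  have hX : E.s.X u x ≠ 0 := by
    intro hX
    rw [nX_not_act hE ω fun ha => ha.2.2 hX] at h0
    exact h0 hX
  -- no clash and no real hit
  have key : ¬ E.clash ω u x ∧ ¬ E.realHit ω u x := by
    unfold OState.nf at h
    rcases st_cases hE ω u x with h2 | h2 | h2
    · refine ⟨fun hc => ?_, fun hr => h0 (nX_realHit hE ω h2.1 hr)⟩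
      rcases h2.2 with h3 | h3 | h3 | h3
      · exact h0 h3.1
      · rw [h3.2.2] at h
        rcases h with h | h <;> cases h
      · exact h3.2.1 hc
      · exact h3.2.1 hc
    · rcases h2.2.2.2 with h3 | h3
      · rw [h3.2] at h
        rcases h with h | h <;> cases h
      · exact ⟨fun hc => h3.1 (Or.inl hc), fun hr => h3.1 (Or.inr hr)⟩
    · exfalso
      rcases hsnf with h4 | h4
      · exact h2.1 ⟨hs, h4, hX⟩
      · exact h2.2.1 ⟨hs, h4⟩
  rintro ⟨c, hc, hc'⟩
  rcases hasCol_nCol' hE ω hc with h1 | h1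
  · rcases hasCol_nCol' hE ω hc' with h2 | h2
    · exact key.1 ⟨z, mem_inter.2 ⟨hz, h1.1⟩, z', mem_inter.2 ⟨hz', h2.1⟩, hne, h1.2.trans h2.2.symm⟩
    · refine key.2 ⟨z, hz, h1.1, hpos z, z', hz', ?_⟩
      rw [h1.2]
      exact h2
  · rcases hasCol_nCol' hE ω hc' with h2 | h2
    · refine key.2 ⟨z', hz', h2.1, hpos z', z, hz, ?_⟩
      rw [h2.2]
      exact h1
    · exact hE.inv.inj u x hs hsnf hX z hz z' hz' hne ⟨c, h1, h2⟩

theorem next_e0 (h9 : ∀ v c, (((E.N v).filter fun z => E.lv z = E.j ∧ z ∈ E.L ∧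
    (ω z).1 = c).card : ℝ) ≤ E.T ^ 4) (v : V) (c : Fin E.k) :
    (((E.N v).filter fun z => E.lv z = E.j ∧ hasCol (E.nCol ω) z c).card : ℝ) ≤
      (E.m + 1 : ℕ) * E.T ^ 4 := by
  have h1 := h9 v c
  have h2 := hE.inv.e0 v c
  have h3 : ((E.N v).filter fun z => E.lv z = E.j ∧ hasCol (E.nCol ω) z c).card ≤
      ((E.N v).filter fun z => E.lv z = E.j ∧ hasCol E.col z c).card +
      ((E.N v).filter fun z => E.lv z = E.j ∧ z ∈ E.L ∧ (ω z).1 = c).card := by
    refine (card_le_card ?_).trans (card_union_le _ _)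
    intro z hz
    rw [mem_filter] at hz
    rw [mem_union, mem_filter, mem_filter]
    rcases hasCol_nCol' hE ω hz.2.2 with h4 | h4
    · exact Or.inr ⟨hz.1, hz.2.1, h4⟩
    · exact Or.inl ⟨hz.1, hz.2.1, h4⟩
  have h4 : (((E.N v).filter fun z => E.lv z = E.j ∧ hasCol (E.nCol ω) z c).card : ℝ) ≤
      (((E.N v).filter fun z => E.lv z = E.j ∧ hasCol E.col z c).card : ℝ) +
      (((E.N v).filter fun z => E.lv z = E.j ∧ z ∈ E.L ∧ (ω z).1 = c).card : ℝ) := by
    exact_mod_cast h3
  push_cast
  linarith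

/-- New pairs asleep. -/
theorem next_nA {x : V} (hx : E.j < E.lv x) : E.nA (E.next ω) x ≤ E.nA E.s x +
    ∑ u, (if E.site u x then (E.nh ω u x : ℝ) else 0) := by
  unfold OData.nA
  have e1 : ∀ s : OState V, ((univ.filter fun u => E.rel u x ∧ s.st u x = .asl).card : ℝ) =
      ∑ u, (if E.rel u x ∧ s.st u x = .asl then (1:ℝ) else 0) := by
    intro s
    rw [card_eq_sum_ones, sum_filter]
    push_cast
    rfl
  rw [e1, e1, ← sum_add_distrib]
  refine sum_le_sum fun u _ => ?_
  have h0 : 0 ≤ (if E.site u x then (E.nh ω u x : ℝ) else 0) := by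
    split_ifs
    · positivity
    · exact le_rfl
  have h0' : 0 ≤ (if E.rel u x ∧ E.s.st u x = .asl then (1:ℝ) else 0) := by
    split_ifs <;> norm_num
  by_cases h : E.rel u x ∧ (E.next ω).st u x = .asl
  · rw [if_pos h]
    rcases st_cases hE ω u x with h2 | h2 | h2
    · have h3 : E.nev ω u x ≠ 0 := by
        rcases h2.2 with h3 | h3 | h3 | h3
        · rw [h3.2] at h
          exact absurd h.2 (fun h => by cases h)
        · rw [h3.2.2] at h
          exact absurd h.2 (fun h => by cases h)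
        · rw [h3.2.2.2] at h
          exact absurd h.2 (fun h => by cases h)
        · exact h3.2.2.1
      have h4 := nev_le_nh hE ω h2.1
      have h5 : (1 : ℝ) ≤ E.nh ω u x := by
        have : 1 ≤ E.nh ω u x := by omega
        exact_mod_cast this
      rw [if_pos h2.1.1]
      linarith
    · rw [if_pos ⟨h.1, h2.2.2.1⟩]
      linarith
    · rw [if_pos ⟨h.1, h2.2.2.symm.trans h.2⟩]
      linarith
  · rw [if_neg h]
    linarith

/-- New frozen pairs. -/
theorem next_nF {x : V} (hx : E.j < E.lv x) : E.nF (E.next ω) x ≤ E.nF E.s x +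
    ((univ.filter fun u => E.site u x ∧ E.s.st u x = .asl ∧ E.realHit ω u x).card : ℝ) +
    ((univ.filter fun u => E.site u x ∧ E.clash ω u x).card : ℝ) := by
  unfold OData.nF
  have h3 : (univ.filter fun u => E.rel u x ∧ (E.next ω).st u x = .frO).card ≤
      (univ.filter fun u => E.rel u x ∧ E.s.st u x = .frO).card +
      (univ.filter fun u => E.site u x ∧ E.s.st u x = .asl ∧ E.realHit ω u x).card +
      (univ.filter fun u => E.site u x ∧ E.clash ω u x).card := by
    refine (card_le_card ?_).trans ((card_union_le _ _).trans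
      (Nat.add_le_add_right (card_union_le _ _) _))
    intro u hu
    rw [mem_filter] at hu
    rw [mem_union, mem_union, mem_filter, mem_filter, mem_filter]
    rcases st_cases hE ω u x with h2 | h2 | h2
    · rcases h2.2 with h3 | h3 | h3 | h3
      · rw [h3.2] at hu
        exact absurd hu.2.2 (fun h => by cases h)
      · exact Or.inr ⟨mem_univ _, h2.1.1, h3.2.1⟩
      · rw [h3.2.2.2] at hu
        exact absurd hu.2.2 (fun h => by cases h)
      · rw [h3.2.2.2] at hu
        exact absurd hu.2.2 (fun h => by cases h)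
    · rcases h2.2.2.2 with h3 | h3
      · rcases h3.1 with h4 | h4
        · exact Or.inr ⟨mem_univ _, h2.2.1, h4⟩
        · exact Or.inl (Or.inr ⟨mem_univ _, h2.2.1, h2.2.2.1, h4⟩)
      · rw [h3.2] at hu
        exact absurd hu.2.2 (fun h => by cases h)
    · exact Or.inl (Or.inl ⟨mem_univ _, hu.2.1, h2.2.2.symm.trans hu.2.2⟩)
  exact_mod_cast h3

end

end ORd

end

end Pool.Agent.AcyK
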