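import Pool.Agent.AcyK.OUpdB
import Pool.Agent.AcyK.OUpdC
import Pool.Agent.AcyK.OCov
import Pool.Agent.AcyK.OLaw
import Pool.Agent.AcyK.OExt

/-! # The drift of `Om` (project MP_af9dfb_K, row OM2) -/

set_option autoImplicit false
set_option linter.unusedSectionVars false

namespace Pool.Agent.AcyK

open Finset
open Pool.Agent.Acy (IsPM wt Ex Pr mean)
open scoped Classical

universe u v w

section

variable {V : Type u} [Fintype V] [DecidableEq V]

namespace ORd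

variable {E : ORd V} {C : V → Option (Fin E.k × ℕ)}

theorem nat_mul_pred' (n : ℕ) : 0 ≤ (n : ℝ) * ((n : ℝ) - 1) := by
  rcases Nat.eq_zero_or_pos n with h | h
  · simp [h]
  · have : (1 : ℝ) ≤ n := by exact_mod_cast h
    exact mul_nonneg (Nat.cast_nonneg _) (by linarith)

/-- `F4` under a linear functional. -/
theorem F4_lin (x : V) (a : V → E.Pick → ℝ) :
    ∑ z, ∑ e, a z e * E.F4 x z e = 2 / E.k * ∑ u, (if E.rel u x ∧ E.s.nf u x then
      E.s.X u x * ∑ f ∈ E.prs (E.j + 1) u x, E.chi E.s f.1 f.2 *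
        ((∑ z, ∑ e, a z e * E.g0 u x z e) + (∑ z, ∑ e, a z e * E.g0 f.1 f.2 z e) +
          ∑ z, ∑ e, a z e * (E.g0 u x z e * E.g0 f.1 f.2 z e)) else 0) := by
  unfold F4
  have h1 : ∀ z e, a z e * (2 / E.k * ∑ u, if E.rel u x ∧ E.s.nf u x then
      E.s.X u x * ∑ f ∈ E.prs (E.j + 1) u x, E.chi E.s f.1 f.2 *
        (E.g0 u x z e + E.g0 f.1 f.2 z e + E.g0 u x z e * E.g0 f.1 f.2 z e) else 0) =
      2 / E.k * ∑ u, if E.rel u x ∧ E.s.nf u x then
        E.s.X u x * ∑ f ∈ E.prs (E.j + 1) u x, E.chi E.s f.1 f.2 *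
        (a z e * E.g0 u x z e + a z e * E.g0 f.1 f.2 z e +
          a z e * (E.g0 u x z e * E.g0 f.1 f.2 z e)) else 0 := by
    intro z e
    rw [mul_left_comm, Finset.mul_sum]
    congr 1
    refine Finset.sum_congr rfl fun u _ => ?_
    split_ifs
    · rw [mul_left_comm, Finset.mul_sum]
      congr 1
      refine Finset.sum_congr rfl fun f _ => ?_
      ring
    · rw [mul_zero]
  simp only [h1]
  simp only [← Finset.mul_sum]
  congr 1
  have h2 : ∀ z : V, (∑ e, ∑ u, if E.rel u x ∧ E.s.nf u x then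
        E.s.X u x * ∑ f ∈ E.prs (E.j + 1) u x, E.chi E.s f.1 f.2 *
        (a z e * E.g0 u x z e + a z e * E.g0 f.1 f.2 z e +
          a z e * (E.g0 u x z e * E.g0 f.1 f.2 z e)) else 0) =
      ∑ u, ∑ e, if E.rel u x ∧ E.s.nf u x then
        E.s.X u x * ∑ f ∈ E.prs (E.j + 1) u x, E.chi E.s f.1 f.2 *
        (a z e * E.g0 u x z e + a z e * E.g0 f.1 f.2 z e +
          a z e * (E.g0 u x z e * E.g0 f.1 f.2 z e)) else 0 := fun z => Finset.sum_comm
  rw [Finset.sum_congr rfl fun z _ => h2 z, Finset.sum_comm]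
  refine Finset.sum_congr rfl fun u _ => ?_
  split_ifs
  · simp only [← Finset.mul_sum]
    congr 1
    have h3 : ∀ z : V, (∑ e, ∑ f ∈ E.prs (E.j + 1) u x, E.chi E.s f.1 f.2 *
        (a z e * E.g0 u x z e + a z e * E.g0 f.1 f.2 z e +
          a z e * (E.g0 u x z e * E.g0 f.1 f.2 z e))) =
        ∑ f ∈ E.prs (E.j + 1) u x, ∑ e, E.chi E.s f.1 f.2 *
        (a z e * E.g0 u x z e + a z e * E.g0 f.1 f.2 z e +
          a z e * (E.g0 u x z e * E.g0 f.1 f.2 z e)) := fun z => Finset.sum_comm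
    rw [Finset.sum_congr rfl fun z _ => h3 z, Finset.sum_comm]
    refine Finset.sum_congr rfl fun f _ => ?_
    simp only [← Finset.mul_sum]
    congr 1
    simp only [Finset.sum_add_distrib]
  · simp

/-- `F4` at the picks. -/
theorem F4_sum (x : V) (ω : V → E.Pick) :
    ∑ z, E.F4 x z (ω z) = 2 / E.k * ∑ u, (if E.rel u x ∧ E.s.nf u x then
      E.s.X u x * ∑ f ∈ E.prs (E.j + 1) u x, E.chi E.s f.1 f.2 *
        ((∑ z, E.g0 u x z (ω z)) + (∑ z, E.g0 f.1 f.2 z (ω z)) +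
          ∑ z, E.g0 u x z (ω z) * E.g0 f.1 f.2 z (ω z)) else 0) := by
  have h := F4_lin x (fun z e => if e = ω z then 1 else 0)
  simpa [ite_mul] using h

/-- Mean of `F4`. -/
theorem F4_mean (hE : E.Ok C) (x : V) :
    ∑ z, mean E.law (E.F4 x) z = 2 / E.k * ∑ u, (if E.rel u x ∧ E.s.nf u x then
      E.s.X u x * ∑ f ∈ E.prs (E.j + 1) u x, E.chi E.s f.1 f.2 *
        (-E.H0 u x - E.H0 f.1 f.2 + E.cov u x f.1 f.2) else 0) := by
  have h := F4_lin x E.law
  have h1 : ∀ u x : V, ∑ z, ∑ e, E.law z e * E.g0 u x z e = -E.H0 u x := fun u x =>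
    sum_mean_g0 hE u x
  have h2 : ∀ u x u' x' : V, ∑ z, ∑ e, E.law z e * (E.g0 u x z e * E.g0 u' x' z e) =
    E.cov u x u' x' := fun u x u' x' => rfl
  simp only [h1, h2] at h
  have h' : ∑ z, mean E.law (E.F4 x) z = ∑ z, ∑ e, E.law z e * E.F4 x z e := rfl
  rw [h', h]
  simp only [sub_eq_add_neg]

section
variable (hE : E.Ok C) (ω : V → E.Pick)
include hE

/-- Bound for the new weight of a pair of common neighbours. -/
noncomputable def chiN (_ : E.Ok C) (ω : V → E.Pick) (f : V × V) : ℝ :=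
  if E.spe f.1 f.2 then 0 else if E.rel f.1 f.2 then
    (if E.s.nf f.1 f.2 then E.nX ω f.1 f.2 else 0) else 1

theorem chiN_nonneg (f : V × V) : 0 ≤ chiN hE ω f := by
  unfold chiN
  split_ifs
  · exact le_rfl
  · exact nX_nonneg hE ω _ _
  · exact le_rfl
  · norm_num

theorem chi_next (f : V × V) : 0 ≤ E.chi (E.next ω) f.1 f.2 ∧
    E.chi (E.next ω) f.1 f.2 ≤ chiN hE ω f := by
  have h0 : (E.next ω).X f.1 f.2 = E.nX ω f.1 f.2 := rfl
  have h1 := nX_nonneg hE ω f.1 f.2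
  unfold OData.chi chiN
  by_cases hs : E.spe f.1 f.2
  · simp [hs]
  · by_cases hr : E.rel f.1 f.2
    · by_cases hn : (E.next ω).nf f.1 f.2
      · have hn' := next_nf hE ω hn
        simp only [hs, hr, hn, hn', if_true, if_false, h0]
        exact ⟨h1, le_rfl⟩
      · simp only [hs, hr, hn, if_true, if_false]
        split_ifs
        · exact ⟨le_rfl, h1⟩
        · exact ⟨le_rfl, le_rfl⟩
    · simp [hs, hr]

theorem chi_s (f : V × V) : 0 ≤ E.chi E.s f.1 f.2 ∧ E.chi E.s f.1 f.2 ≤ E.th ^ 2 := by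
  have hth := OData.th_ge hE.prt_ok.dat
  have h1 := X_nonneg hE f.1 f.2
  have h2 := X_le hE f.1 f.2
  have h3 : (1 : ℝ) ≤ E.th ^ 2 := by nlinarith
  unfold OData.chi
  split_ifs
  · exact ⟨le_rfl, by linarith⟩
  · exact ⟨h1, h2⟩
  · exact ⟨le_rfl, by linarith⟩
  · exact ⟨by norm_num, h3⟩

theorem chiN_not_act {f : V × V} (h : ¬ E.act f.1 f.2) : chiN hE ω f = E.chi E.s f.1 f.2 := by
  unfold OData.chi chiN
  rw [nX_not_act hE ω h]

theorem chi_act {f : V × V} (h : E.act f.1 f.2) : E.chi E.s f.1 f.2 = E.s.X f.1 f.2 ∧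
    chiN hE ω f = E.nX ω f.1 f.2 := by
  have h1 : E.rel f.1 f.2 := h.1.1
  have h2 := OData.rel_not_spe hE.prt_ok.dat h1
  have h3 : E.s.nf f.1 f.2 := Or.inl h.2.1
  unfold OData.chi chiN
  simp only [h1, h2, h3, if_true, if_false, and_self]

/-- The error terms of a couple of pairs. -/
noncomputable def errP (_ : E.Ok C) (ω : V → E.Pick) (u x : V) (f : V × V) : ℝ :=
  E.th ^ 2 * ((E.nh ω u x : ℝ) * ((E.nh ω u x : ℝ) - 1) + E.H u x * E.nh ω u x) +
  (if E.rel f.1 f.2 then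
    E.th ^ 2 * ((E.nh ω f.1 f.2 : ℝ) * ((E.nh ω f.1 f.2 : ℝ) - 1) +
      E.H f.1 f.2 * E.nh ω f.1 f.2) +
    (∑ z, ∑ z' ∈ univ.erase z, (E.hit u x z (ω z) : ℝ) * E.hit f.1 f.2 z' (ω z')) +
    E.H u x * E.nh ω f.1 f.2 + E.H f.1 f.2 * E.nh ω u x + E.H u x * E.H f.1 f.2 else 0)

theorem off_nonneg (u x u' x' : V) : 0 ≤ ∑ z, ∑ z' ∈ univ.erase z,
    (E.hit u x z (ω z) : ℝ) * E.hit u' x' z' (ω z') :=
  Finset.sum_nonneg fun z _ => Finset.sum_nonneg fun z' _ => by positivity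

theorem errP_nonneg (u x : V) (f : V × V) : 0 ≤ errP hE ω u x f := by
  have h1 := H_nonneg hE u x
  have h2 := H_nonneg hE f.1 f.2
  have h3 := nat_mul_pred' (E.nh ω u x)
  have h4 := nat_mul_pred' (E.nh ω f.1 f.2)
  have h5 := off_nonneg hE ω u x f.1 f.2
  unfold errP
  split_ifs
  · positivity
  · positivity

/-- One couple of pairs. -/
theorem pair_le (u x : V) (f : V × V) :
    E.nX ω u x * chiN hE ω f ≤ E.s.X u x * (E.chi E.s f.1 f.2 *
      (1 + (E.H0 u x + E.H0 f.1 f.2) + ((∑ z, E.g0 u x z (ω z)) +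
        (∑ z, E.g0 f.1 f.2 z (ω z)) + ∑ z, E.g0 u x z (ω z) * E.g0 f.1 f.2 z (ω z)))) +
      E.T * errP hE ω u x f := by
  have hD := hE.prt_ok.dat
  have hth := OData.th_ge hD
  have hth2 : (1 : ℝ) ≤ E.th ^ 2 := by nlinarith
  have hT : (1 : ℝ) ≤ E.T := OData.T1 hD
  have hH := H_nonneg hE u x
  have hH' := H_nonneg hE f.1 f.2
  have hn := nat_mul_pred' (E.nh ω u x)
  have hn' := nat_mul_pred' (E.nh ω f.1 f.2)
  have hoff := off_nonneg hE ω u x f.1 f.2
  have hm0 : (0 : ℝ) ≤ E.nh ω u x := Nat.cast_nonneg _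
  have hm0' : (0 : ℝ) ≤ E.nh ω f.1 f.2 := Nat.cast_nonneg _
  obtain ⟨c0, c1⟩ := chi_s hE f
  have x0 := X_nonneg hE u x
  have x1 := X_le hE u x
  by_cases ha : E.act u x
  · have g1 : ∀ z, E.g0 u x z (ω z) = E.g u x z (ω z) := fun z => if_pos ha
    have g2 : E.H0 u x = E.H u x := if_pos ha
    by_cases hb : E.act f.1 f.2
    · have g1' : ∀ z, E.g0 f.1 f.2 z (ω z) = E.g f.1 f.2 z (ω z) := fun z => if_pos hb
      have g2' : E.H0 f.1 f.2 = E.H f.1 f.2 := if_pos hb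
      have hm := nX_mul hE ω ha hb
      rw [Finset.sum_add_distrib, Finset.sum_add_distrib] at hm
      obtain ⟨d1, d2⟩ := chi_act hE ω hb
      rw [d1, d2]
      simp only [g1, g1', g2, g2']
      have hr : E.rel f.1 f.2 := hb.1.1
      have k1 : (∑ z, ∑ z' ∈ univ.erase z, (E.hit u x z (ω z) : ℝ) * E.hit f.1 f.2 z' (ω z')) +
        (E.nh ω u x : ℝ) * ((E.nh ω u x : ℝ) - 1) +
        (E.nh ω f.1 f.2 : ℝ) * ((E.nh ω f.1 f.2 : ℝ) - 1) +
        E.H u x * E.nh ω f.1 f.2 + E.H f.1 f.2 * E.nh ω u x + E.H u x * E.H f.1 f.2 ≤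
          errP hE ω u x f := by
        unfold errP
        rw [if_pos hr]
        have k2 : (E.nh ω u x : ℝ) * ((E.nh ω u x : ℝ) - 1) ≤
            E.th ^ 2 * ((E.nh ω u x : ℝ) * ((E.nh ω u x : ℝ) - 1) + E.H u x * E.nh ω u x) := by
          have : 0 ≤ E.H u x * E.nh ω u x := mul_nonneg hH hm0
          calc _ ≤ 1 * ((E.nh ω u x : ℝ) * ((E.nh ω u x : ℝ) - 1) + E.H u x * E.nh ω u x) := by
                linarith
            _ ≤ _ := mul_le_mul_of_nonneg_right hth2 (by linarith)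
        have k3 : (E.nh ω f.1 f.2 : ℝ) * ((E.nh ω f.1 f.2 : ℝ) - 1) ≤
            E.th ^ 2 * ((E.nh ω f.1 f.2 : ℝ) * ((E.nh ω f.1 f.2 : ℝ) - 1) +
              E.H f.1 f.2 * E.nh ω f.1 f.2) := by
          have : 0 ≤ E.H f.1 f.2 * E.nh ω f.1 f.2 := mul_nonneg hH' hm0'
          calc _ ≤ 1 * ((E.nh ω f.1 f.2 : ℝ) * ((E.nh ω f.1 f.2 : ℝ) - 1) +
              E.H f.1 f.2 * E.nh ω f.1 f.2) := by linarith
            _ ≤ _ := mul_le_mul_of_nonneg_right hth2 (by linarith)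
        linarith
      have k4 := mul_le_mul_of_nonneg_left k1 (by linarith : (0 : ℝ) ≤ E.T)
      have k5 : E.s.X u x * (E.s.X f.1 f.2 * (1 + (E.H u x + E.H f.1 f.2) +
          ((∑ z, E.g u x z (ω z)) + (∑ z, E.g f.1 f.2 z (ω z)) +
            ∑ z, E.g u x z (ω z) * E.g f.1 f.2 z (ω z)))) =
          E.s.X u x * E.s.X f.1 f.2 * (1 + E.H u x + E.H f.1 f.2 +
          ((∑ z, E.g u x z (ω z)) + (∑ z, E.g f.1 f.2 z (ω z)) +
            ∑ z, E.g u x z (ω z) * E.g f.1 f.2 z (ω z))) := by ring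
      rw [k5]
      linarith
    · have g1' : ∀ z, E.g0 f.1 f.2 z (ω z) = 0 := fun z => if_neg hb
      have g2' : E.H0 f.1 f.2 = 0 := if_neg hb
      simp only [g1, g1', g2, g2', mul_zero, Finset.sum_const_zero, add_zero]
      rw [chiN_not_act hE ω hb]
      have hl := (abs_le.1 (nX_lin hE ω ha)).2
      have k1 : E.th ^ 2 * ((E.nh ω u x : ℝ) * ((E.nh ω u x : ℝ) - 1) + E.H u x * E.nh ω u x) ≤
          errP hE ω u x f := by
        unfold errP
        have : (0 : ℝ) ≤ if E.rel f.1 f.2 then E.th ^ 2 * ((E.nh ω f.1 f.2 : ℝ) *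
            ((E.nh ω f.1 f.2 : ℝ) - 1) + E.H f.1 f.2 * E.nh ω f.1 f.2) +
            (∑ z, ∑ z' ∈ univ.erase z, (E.hit u x z (ω z) : ℝ) * E.hit f.1 f.2 z' (ω z')) +
            E.H u x * E.nh ω f.1 f.2 + E.H f.1 f.2 * E.nh ω u x + E.H u x * E.H f.1 f.2
            else 0 := by
          split_ifs
          · positivity
          · exact le_rfl
        linarith
      have k2 : 0 ≤ E.T * ((E.nh ω u x : ℝ) * ((E.nh ω u x : ℝ) - 1) +
        E.H u x * E.nh ω u x) := by positivity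
      calc E.nX ω u x * E.chi E.s f.1 f.2
          ≤ (E.s.X u x * (1 + E.H u x + ∑ z, E.g u x z (ω z)) +
              E.T * ((E.nh ω u x : ℝ) * ((E.nh ω u x : ℝ) - 1) + E.H u x * E.nh ω u x)) *
              E.chi E.s f.1 f.2 := by
            refine mul_le_mul_of_nonneg_right ?_ c0
            linarith
        _ = E.s.X u x * (E.chi E.s f.1 f.2 * (1 + E.H u x + ∑ z, E.g u x z (ω z))) +
              E.T * ((E.nh ω u x : ℝ) * ((E.nh ω u x : ℝ) - 1) + E.H u x * E.nh ω u x) *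
              E.chi E.s f.1 f.2 := by ring
        _ ≤ E.s.X u x * (E.chi E.s f.1 f.2 * (1 + E.H u x + ∑ z, E.g u x z (ω z))) +
              E.T * ((E.nh ω u x : ℝ) * ((E.nh ω u x : ℝ) - 1) + E.H u x * E.nh ω u x) *
              E.th ^ 2 := by
            have := mul_le_mul_of_nonneg_left c1 k2
            linarith
        _ ≤ _ := by
            have := mul_le_mul_of_nonneg_left k1 (by linarith : (0 : ℝ) ≤ E.T)
            linarith
  · have g1 : ∀ z, E.g0 u x z (ω z) = 0 := fun z => if_neg ha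
    have g2 : E.H0 u x = 0 := if_neg ha
    rw [nX_not_act hE ω ha]
    by_cases hb : E.act f.1 f.2
    · have g1' : ∀ z, E.g0 f.1 f.2 z (ω z) = E.g f.1 f.2 z (ω z) := fun z => if_pos hb
      have g2' : E.H0 f.1 f.2 = E.H f.1 f.2 := if_pos hb
      obtain ⟨d1, d2⟩ := chi_act hE ω hb
      rw [d1, d2]
      simp only [g1, g1', g2, g2', zero_mul, Finset.sum_const_zero, add_zero, zero_add]
      have hl := (abs_le.1 (nX_lin hE ω hb)).2
      have k1 : E.th ^ 2 * ((E.nh ω f.1 f.2 : ℝ) * ((E.nh ω f.1 f.2 : ℝ) - 1) +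
          E.H f.1 f.2 * E.nh ω f.1 f.2) ≤ errP hE ω u x f := by
        unfold errP
        have hr : E.rel f.1 f.2 := hb.1.1
        rw [if_pos hr]
        have l1 : 0 ≤ E.th ^ 2 * ((E.nh ω u x : ℝ) * ((E.nh ω u x : ℝ) - 1) +
          E.H u x * E.nh ω u x) := by positivity
        have l2 : 0 ≤ E.H u x * E.nh ω f.1 f.2 := by positivity
        have l3 : 0 ≤ E.H f.1 f.2 * E.nh ω u x := by positivity
        have l4 : 0 ≤ E.H u x * E.H f.1 f.2 := by positivity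
        linarith
      have k2 : 0 ≤ E.T * ((E.nh ω f.1 f.2 : ℝ) * ((E.nh ω f.1 f.2 : ℝ) - 1) +
        E.H f.1 f.2 * E.nh ω f.1 f.2) := by positivity
      calc E.s.X u x * E.nX ω f.1 f.2
          ≤ E.s.X u x * (E.s.X f.1 f.2 * (1 + E.H f.1 f.2 + ∑ z, E.g f.1 f.2 z (ω z)) +
              E.T * ((E.nh ω f.1 f.2 : ℝ) * ((E.nh ω f.1 f.2 : ℝ) - 1) +
                E.H f.1 f.2 * E.nh ω f.1 f.2)) := by
            refine mul_le_mul_of_nonneg_left ?_ x0
            linarith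
        _ = E.s.X u x * (E.s.X f.1 f.2 * (1 + E.H f.1 f.2 + ∑ z, E.g f.1 f.2 z (ω z))) +
              E.T * ((E.nh ω f.1 f.2 : ℝ) * ((E.nh ω f.1 f.2 : ℝ) - 1) +
                E.H f.1 f.2 * E.nh ω f.1 f.2) * E.s.X u x := by ring
        _ ≤ E.s.X u x * (E.s.X f.1 f.2 * (1 + E.H f.1 f.2 + ∑ z, E.g f.1 f.2 z (ω z))) +
              E.T * ((E.nh ω f.1 f.2 : ℝ) * ((E.nh ω f.1 f.2 : ℝ) - 1) +
                E.H f.1 f.2 * E.nh ω f.1 f.2) * E.th ^ 2 := by
            have := mul_le_mul_of_nonneg_left x1 k2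
            linarith
        _ ≤ _ := by
            have := mul_le_mul_of_nonneg_left k1 (by linarith : (0 : ℝ) ≤ E.T)
            linarith
    · have g1' : ∀ z, E.g0 f.1 f.2 z (ω z) = 0 := fun z => if_neg hb
      have g2' : E.H0 f.1 f.2 = 0 := if_neg hb
      simp only [g1, g1', g2, g2', mul_zero, Finset.sum_const_zero, add_zero, mul_one]
      rw [chiN_not_act hE ω hb]
      have := errP_nonneg hE ω u x f
      have h0 : 0 ≤ E.T * errP hE ω u x f := by positivity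
      linarith

/-- The errors of the couples of one site. -/
theorem errP_sum {u x : V} (hr : E.rel u x) :
    ∑ f ∈ E.prs (E.j + 1) u x, errP hE ω u x f ≤
      E.T ^ 4004 * (E.T * ((E.nh ω u x : ℝ) * ((E.nh ω u x : ℝ) - 1)) +
        2 * E.T * (1 / E.T ^ 923) * E.nh ω u x + 1 / E.T ^ 923 * E.H u x) +
      E.T * (∑ f ∈ E.prs (E.j + 1) u x,
        if E.rel f.1 f.2 then (E.nh ω f.1 f.2 : ℝ) * ((E.nh ω f.1 f.2 : ℝ) - 1) else 0) +
      2 * E.T * (1 / E.T ^ 923) * (∑ f ∈ E.prs (E.j + 1) u x,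
        if E.rel f.1 f.2 then (E.nh ω f.1 f.2 : ℝ) else 0) +
      ∑ f ∈ E.prs (E.j + 1) u x, (if E.rel f.1 f.2 then ∑ z, ∑ z' ∈ univ.erase z,
        (E.hit u x z (ω z) : ℝ) * E.hit f.1 f.2 z' (ω z') else 0) := by
  have hD := hE.prt_ok.dat
  have hT : (1 : ℝ) ≤ E.T := OData.T1 hD
  have hth := OData.th2 hD
  have hthT : E.th ^ 2 ≤ E.T := hth.trans (by linarith)
  have hth0 : 0 ≤ E.th ^ 2 := sq_nonneg _
  have hn := nat_mul_pred' (E.nh ω u x)
  have hm0 : (0 : ℝ) ≤ E.nh ω u x := Nat.cast_nonneg _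
  have hH0 := H_nonneg hE u x
  have hH := H_le hE hr
  set ε : ℝ := 1 / E.T ^ 923 with hε
  have hε0 : 0 ≤ ε := by positivity
  set n : ℝ := (E.nh ω u x : ℝ) with hnn
  have hc := OData.prs_card hD hr.2.2.2.2 (E.j + 1)
  have key : ∀ f ∈ E.prs (E.j + 1) u x, errP hE ω u x f ≤
      (E.T * (n * (n - 1)) + 2 * E.T * ε * n + ε * E.H u x) +
      (E.T * (if E.rel f.1 f.2 then (E.nh ω f.1 f.2 : ℝ) * ((E.nh ω f.1 f.2 : ℝ) - 1) else 0) +
      2 * E.T * ε * (if E.rel f.1 f.2 then (E.nh ω f.1 f.2 : ℝ) else 0) +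
      (if E.rel f.1 f.2 then ∑ z, ∑ z' ∈ univ.erase z,
        (E.hit u x z (ω z) : ℝ) * E.hit f.1 f.2 z' (ω z') else 0)) := by
    intro f _
    have hn' := nat_mul_pred' (E.nh ω f.1 f.2)
    have hm0' : (0 : ℝ) ≤ E.nh ω f.1 f.2 := Nat.cast_nonneg _
    have hH0' := H_nonneg hE f.1 f.2
    have hoff := off_nonneg hE ω u x f.1 f.2
    unfold errP
    rw [← hnn]
    have a1 : E.th ^ 2 * (n * (n - 1) + E.H u x * n) ≤ E.T * (n * (n - 1)) + E.T * ε * n := by
      have b1 : E.H u x * n ≤ ε * n := mul_le_mul_of_nonneg_right hH hm0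
      calc E.th ^ 2 * (n * (n - 1) + E.H u x * n) ≤ E.T * (n * (n - 1) + E.H u x * n) :=
            mul_le_mul_of_nonneg_right hthT (by positivity)
        _ ≤ E.T * (n * (n - 1) + ε * n) :=
            mul_le_mul_of_nonneg_left (by linarith) (by linarith)
        _ = _ := by ring
    have a2 : 0 ≤ E.T * ε * n := by positivity
    have a3 : 0 ≤ ε * E.H u x := by positivity
    by_cases hrf : E.rel f.1 f.2
    · have hH' := H_le hE hrf
      rw [← hε] at hH'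
      simp only [if_pos hrf]
      set n' : ℝ := (E.nh ω f.1 f.2 : ℝ) with hnn'
      have a4 : E.th ^ 2 * (n' * (n' - 1) + E.H f.1 f.2 * n') ≤
          E.T * (n' * (n' - 1)) + E.T * ε * n' := by
        have b1 : E.H f.1 f.2 * n' ≤ ε * n' := mul_le_mul_of_nonneg_right hH' hm0'
        calc E.th ^ 2 * (n' * (n' - 1) + E.H f.1 f.2 * n') ≤
              E.T * (n' * (n' - 1) + E.H f.1 f.2 * n') :=
              mul_le_mul_of_nonneg_right hthT (by positivity)
          _ ≤ E.T * (n' * (n' - 1) + ε * n') :=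
              mul_le_mul_of_nonneg_left (by linarith) (by linarith)
          _ = _ := by ring
      have a5 : E.H u x * n' ≤ E.T * ε * n' := by
        have b1 : E.H u x * n' ≤ ε * n' := mul_le_mul_of_nonneg_right hH hm0'
        have b2 : 0 ≤ ε * n' := by positivity
        nlinarith
      have a6 : E.H f.1 f.2 * n ≤ E.T * ε * n := by
        have b1 : E.H f.1 f.2 * n ≤ ε * n := mul_le_mul_of_nonneg_right hH' hm0
        have b2 : 0 ≤ ε * n := by positivity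
        nlinarith
      have a7 : E.H u x * E.H f.1 f.2 ≤ ε * E.H u x := by
        rw [mul_comm]
        exact mul_le_mul_of_nonneg_right hH' hH0
      linarith
    · simp only [if_neg hrf]
      linarith
  refine (Finset.sum_le_sum key).trans ?_
  have a8 : 0 ≤ E.T * (n * (n - 1)) + 2 * E.T * ε * n + ε * E.H u x := by positivity
  generalize E.T * (n * (n - 1)) + 2 * E.T * ε * n + ε * E.H u x = c at a8 ⊢
  rw [Finset.sum_add_distrib, Finset.sum_add_distrib, Finset.sum_add_distrib, Finset.sum_const,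
    nsmul_eq_mul, ← Finset.mul_sum, ← Finset.mul_sum]
  have := mul_le_mul_of_nonneg_right hc a8
  linarith

/-- All the errors. -/
theorem errP_total (hG : E.Good ω) {x : V} (hx : E.j < E.lv x) :
    ∑ u, (if E.site u x then ∑ f ∈ E.prs (E.j + 1) u x, errP hE ω u x f else 0) ≤
      E.T ^ 6977 := by
  have hD := hE.prt_ok.dat
  have hT : (1 : ℝ) ≤ E.T := OData.T1 hD
  have hT0 : (0 : ℝ) < E.T := by linarith
  have hB := hD.big
  have c4 := hG.c4 x hx
  have c1 := hG.c1 x hx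
  have c5 := hG.c5 x hx
  have c2 := hG.c2 x hx
  have c6 := hG.c6 x hx
  have cH := sumH1 hE hx
  set A4 : ℝ := ∑ u, (if E.site u x then (E.nh ω u x : ℝ) * ((E.nh ω u x : ℝ) - 1) else 0)
    with hA4
  set A1 : ℝ := ∑ u, (if E.site u x then (E.nh ω u x : ℝ) else 0) with hA1
  set A5 : ℝ := ∑ u, (if E.site u x then ∑ f ∈ E.prs (E.j + 1) u x,
    (if E.rel f.1 f.2 then (E.nh ω f.1 f.2 : ℝ) * ((E.nh ω f.1 f.2 : ℝ) - 1) else 0) else 0)
    with hA5
  set A2 : ℝ := ∑ u, (if E.site u x then ∑ f ∈ E.prs (E.j + 1) u x,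
    (if E.rel f.1 f.2 then (E.nh ω f.1 f.2 : ℝ) else 0) else 0) with hA2
  set A6 : ℝ := ∑ u, (if E.site u x then ∑ f ∈ E.prs (E.j + 1) u x,
    (if E.rel f.1 f.2 then ∑ z, ∑ z' ∈ univ.erase z,
      (E.hit u x z (ω z) : ℝ) * E.hit f.1 f.2 z' (ω z') else 0) else 0) with hA6
  set AH : ℝ := ∑ u, (if E.site u x then E.H u x else 0) with hAH
  set ε : ℝ := 1 / E.T ^ 923 with hε
  have hε0 : 0 ≤ ε := by positivity
  have h1 : ∑ u, (if E.site u x then ∑ f ∈ E.prs (E.j + 1) u x, errP hE ω u x f else 0) ≤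
      E.T ^ 4004 * (E.T * A4 + 2 * E.T * ε * A1 + ε * AH) + E.T * A5 + 2 * E.T * ε * A2 + A6 := by
    rw [hA4, hA1, hA5, hA2, hA6, hAH]
    rw [Finset.mul_sum, Finset.mul_sum, Finset.mul_sum, Finset.mul_sum, Finset.mul_sum,
      ← Finset.sum_add_distrib, ← Finset.sum_add_distrib, Finset.mul_sum,
      ← Finset.sum_add_distrib, ← Finset.sum_add_distrib, ← Finset.sum_add_distrib]
    refine Finset.sum_le_sum fun u _ => ?_
    by_cases h : E.site u x
    · simp only [if_pos h]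
      exact errP_sum hE ω h.1
    · simp only [if_neg h]
      simp
  refine h1.trans ?_
  have b4 : E.T * A4 ≤ E.T * E.T ^ 2200 := mul_le_mul_of_nonneg_left c4 hT0.le
  have b1 : 2 * E.T * ε * A1 ≤ 2 * E.T * ε * E.T ^ 3102 :=
    mul_le_mul_of_nonneg_left c1 (by positivity)
  have bH : ε * AH ≤ ε * E.T ^ 3093 := mul_le_mul_of_nonneg_left cH hε0
  have b5 : E.T * A5 ≤ E.T * E.T ^ 6975 := mul_le_mul_of_nonneg_left c5 hT0.le
  have b2 : 2 * E.T * ε * A2 ≤ 2 * E.T * ε * E.T ^ 7110 :=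
    mul_le_mul_of_nonneg_left c2 (by positivity)
  have bb : E.T ^ 4004 * (E.T * A4 + 2 * E.T * ε * A1 + ε * AH) ≤
      E.T ^ 4004 * (E.T * E.T ^ 2200 + 2 * E.T * ε * E.T ^ 3102 + ε * E.T ^ 3093) :=
    mul_le_mul_of_nonneg_left (by linarith) (by positivity)
  have ee : ε * E.T ^ 923 = 1 := by
    rw [hε]
    field_simp
  have e1 : ε * E.T ^ 3102 = E.T ^ 2179 := by
    calc ε * E.T ^ 3102 = (ε * E.T ^ 923) * E.T ^ 2179 := by ring
      _ = _ := by rw [ee, one_mul]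
  have e2 : ε * E.T ^ 3093 = E.T ^ 2170 := by
    calc ε * E.T ^ 3093 = (ε * E.T ^ 923) * E.T ^ 2170 := by ring
      _ = _ := by rw [ee, one_mul]
  have e3 : ε * E.T ^ 7110 = E.T ^ 6187 := by
    calc ε * E.T ^ 7110 = (ε * E.T ^ 923) * E.T ^ 6187 := by ring
      _ = _ := by rw [ee, one_mul]
  have e4 : E.T ^ 4004 * (E.T * E.T ^ 2200 + 2 * E.T * ε * E.T ^ 3102 + ε * E.T ^ 3093) =
      E.T ^ 6205 + 2 * E.T ^ 6184 + E.T ^ 6174 := by
    have : 2 * E.T * ε * E.T ^ 3102 = 2 * E.T * (ε * E.T ^ 3102) := by ring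
    rw [this, e1, e2]
    ring
  have e5 : 2 * E.T * ε * E.T ^ 7110 = 2 * E.T ^ 6188 := by
    have : 2 * E.T * ε * E.T ^ 7110 = 2 * E.T * (ε * E.T ^ 7110) := by ring
    rw [this, e3]
    ring
  have e6 : E.T * E.T ^ 6975 = E.T ^ 6976 := by ring
  rw [e4] at bb
  rw [e5] at b2
  rw [e6] at b5
  have f1 : E.T ^ 6205 ≤ E.T ^ 6976 := hB.pw (by norm_num)
  have f2 : E.T ^ 6184 ≤ E.T ^ 6976 := hB.pw (by norm_num)
  have f3 : E.T ^ 6174 ≤ E.T ^ 6976 := hB.pw (by norm_num)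
  have f4 : E.T ^ 6188 ≤ E.T ^ 6976 := hB.pw (by norm_num)
  have f5 : E.T ^ 6200 ≤ E.T ^ 6976 := hB.pw (by norm_num)
  have f6 : 8 * E.T ^ 6976 ≤ E.T ^ 6977 := by
    have g1 : (8 : ℝ) ≤ E.T := by linarith [hB.big]
    calc 8 * E.T ^ 6976 ≤ E.T * E.T ^ 6976 := mul_le_mul_of_nonneg_right g1 (by positivity)
      _ = E.T ^ 6977 := by ring
  linarith

/-- The drift of `Om`. -/
theorem om_step (hG : E.Good ω) {x : V} (hx : E.j < E.lv x) :
    E.Om (E.next ω) (E.j + 1) x ≤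
    E.Om E.s (E.j + 1) x + 86 / 1000 * (∑ u, E.s.X u x * E.H0 u x) + E.T ^ 3036 := by
  have hD := hE.prt_ok.dat
  have hT : (1 : ℝ) ≤ E.T := OData.T1 hD
  have hT0 : (0 : ℝ) < E.T := by linarith
  have hB := hD.big
  have hk : (0 : ℝ) < E.k := OData.k_pos hD
  -- first part
  have s1 : (∑ u, if E.rel u x ∧ (E.next ω).nf u x then
      (E.next ω).X u x * ∑ e ∈ E.prs (E.j + 1) u x, E.chi (E.next ω) e.1 e.2 else 0) ≤
      ∑ u, if E.rel u x ∧ E.s.nf u x then
        E.nX ω u x * ∑ f ∈ E.prs (E.j + 1) u x, chiN hE ω f else 0 := by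
    refine Finset.sum_le_sum fun u _ => ?_
    have h0 : 0 ≤ E.nX ω u x := nX_nonneg hE ω u x
    have h2 : 0 ≤ ∑ f ∈ E.prs (E.j + 1) u x, chiN hE ω f :=
      Finset.sum_nonneg fun f _ => chiN_nonneg hE ω f
    by_cases h : E.rel u x ∧ (E.next ω).nf u x
    · rw [if_pos h, if_pos ⟨h.1, next_nf hE ω h.2⟩]
      exact mul_le_mul_of_nonneg_left (Finset.sum_le_sum fun f _ => (chi_next hE ω f).2) h0
    · rw [if_neg h]
      split_ifs
      · exact mul_nonneg h0 h2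
      · exact le_rfl
  -- second part
  have s2 : (∑ u, if E.rel u x ∧ (E.next ω).st u x = .frY then (E.next ω).X u x else 0) =
      ∑ u, if E.rel u x ∧ E.s.st u x = .frY then E.s.X u x else 0 := by
    refine Finset.sum_congr rfl fun u _ => ?_
    rw [next_frY hE ω]
    by_cases h : E.rel u x ∧ E.s.st u x = .frY
    · rw [if_pos h, if_pos h]
      refine nX_not_act hE ω fun ha => ?_
      have := ha.2.1
      rw [h.2] at this
      cases this
    · rw [if_neg h, if_neg h]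
  -- pointwise bound
  have s3 : (∑ u, if E.rel u x ∧ E.s.nf u x then
        E.nX ω u x * ∑ f ∈ E.prs (E.j + 1) u x, chiN hE ω f else 0) ≤
      (∑ u, if E.rel u x ∧ E.s.nf u x then
        E.s.X u x * ∑ f ∈ E.prs (E.j + 1) u x, E.chi E.s f.1 f.2 else 0) +
      (∑ u, if E.rel u x ∧ E.s.nf u x then
        E.s.X u x * ∑ f ∈ E.prs (E.j + 1) u x, E.chi E.s f.1 f.2 *
          (E.H0 u x + E.H0 f.1 f.2) else 0) +
      (∑ u, if E.rel u x ∧ E.s.nf u x then
        E.s.X u x * ∑ f ∈ E.prs (E.j + 1) u x, E.chi E.s f.1 f.2 *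
        ((∑ z, E.g0 u x z (ω z)) + (∑ z, E.g0 f.1 f.2 z (ω z)) +
          ∑ z, E.g0 u x z (ω z) * E.g0 f.1 f.2 z (ω z)) else 0) +
      E.T * ∑ u, (if E.site u x then ∑ f ∈ E.prs (E.j + 1) u x, errP hE ω u x f else 0) := by
    rw [Finset.mul_sum, ← Finset.sum_add_distrib, ← Finset.sum_add_distrib,
      ← Finset.sum_add_distrib]
    refine Finset.sum_le_sum fun u _ => ?_
    by_cases h : E.rel u x ∧ E.s.nf u x
    · have hs : E.site u x := ⟨h.1, by rw [h.1.2.1]; exact hx⟩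
      simp only [if_pos h, if_pos hs]
      rw [Finset.mul_sum, Finset.mul_sum, Finset.mul_sum, Finset.mul_sum, Finset.mul_sum,
        ← Finset.sum_add_distrib, ← Finset.sum_add_distrib, ← Finset.sum_add_distrib]
      refine Finset.sum_le_sum fun f _ => ?_
      refine (pair_le hE ω u x f).trans (le_of_eq ?_)
      ring
    · simp only [if_neg h]
      have h0 : 0 ≤ E.T * (if E.site u x then ∑ f ∈ E.prs (E.j + 1) u x, errP hE ω u x f
          else 0) := by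
        refine mul_nonneg hT0.le ?_
        split_ifs
        · exact Finset.sum_nonneg fun f _ => errP_nonneg hE ω u x f
        · exact le_rfl
      linarith
  have s4 := F4_sum x ω
  have s5 := F4_mean hE x
  have s6 := cov_le hE hx
  have s7 := (abs_le.1 (hG.t4 x hx)).2
  have s8 := errP_total hE ω hG hx
  have s9 : ∑ z, E.F4 x z (ω z) = E.cen ω (E.F4 x) + ∑ z, mean E.law (E.F4 x) z := by
    unfold cen
    rw [Finset.sum_sub_distrib]
    ring
  have s10 : (∑ u, (if E.rel u x ∧ E.s.nf u x then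
      E.s.X u x * ∑ f ∈ E.prs (E.j + 1) u x, E.chi E.s f.1 f.2 *
        (-E.H0 u x - E.H0 f.1 f.2 + E.cov u x f.1 f.2) else 0)) =
      (∑ u, (if E.rel u x ∧ E.s.nf u x then E.s.X u x *
      ∑ f ∈ E.prs (E.j + 1) u x, E.chi E.s f.1 f.2 * E.cov u x f.1 f.2 else 0)) -
      ∑ u, (if E.rel u x ∧ E.s.nf u x then
        E.s.X u x * ∑ f ∈ E.prs (E.j + 1) u x, E.chi E.s f.1 f.2 *
          (E.H0 u x + E.H0 f.1 f.2) else 0) := by
    rw [← Finset.sum_sub_distrib]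
    refine Finset.sum_congr rfl fun u _ => ?_
    by_cases h : E.rel u x ∧ E.s.nf u x
    · simp only [if_pos h]
      rw [← mul_sub, ← Finset.sum_sub_distrib]
      congr 1
      refine Finset.sum_congr rfl fun f _ => ?_
      ring
    · simp only [if_neg h, sub_zero]
  rw [s10] at s5
  have s11 : 0 ≤ ∑ u, E.s.X u x * E.H0 u x := by
    refine Finset.sum_nonneg fun u _ => mul_nonneg (X_nonneg hE u x) ?_
    unfold H0
    split_ifs
    · exact H_nonneg hE u x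
    · exact le_rfl
  unfold OData.Om
  rw [s2]
  set Q1 := ∑ u, if E.rel u x ∧ (E.next ω).nf u x then
      (E.next ω).X u x * ∑ e ∈ E.prs (E.j + 1) u x, E.chi (E.next ω) e.1 e.2 else 0 with hQ1
  set Q2 := ∑ u, if E.rel u x ∧ E.s.nf u x then
        E.nX ω u x * ∑ f ∈ E.prs (E.j + 1) u x, chiN hE ω f else 0 with hQ2
  set Q3 := ∑ u, if E.rel u x ∧ E.s.nf u x then
        E.s.X u x * ∑ f ∈ E.prs (E.j + 1) u x, E.chi E.s f.1 f.2 else 0 with hQ3
  set Q4 := ∑ u, if E.rel u x ∧ E.s.nf u x then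
        E.s.X u x * ∑ f ∈ E.prs (E.j + 1) u x, E.chi E.s f.1 f.2 *
          (E.H0 u x + E.H0 f.1 f.2) else 0 with hQ4
  set Q5 := ∑ u, if E.rel u x ∧ E.s.nf u x then
        E.s.X u x * ∑ f ∈ E.prs (E.j + 1) u x, E.chi E.s f.1 f.2 *
        ((∑ z, E.g0 u x z (ω z)) + (∑ z, E.g0 f.1 f.2 z (ω z)) +
          ∑ z, E.g0 u x z (ω z) * E.g0 f.1 f.2 z (ω z)) else 0 with hQ5
  set Q6 := ∑ u, (if E.site u x then ∑ f ∈ E.prs (E.j + 1) u x, errP hE ω u x f else 0)
    with hQ6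
  set Q7 := ∑ u, (if E.rel u x ∧ E.s.nf u x then E.s.X u x *
      ∑ f ∈ E.prs (E.j + 1) u x, E.chi E.s f.1 f.2 * E.cov u x f.1 f.2 else 0) with hQ7
  have t1 : 2 / E.k * Q1 ≤ 2 / E.k * (Q3 + Q4 + Q5 + E.T * Q6) :=
    mul_le_mul_of_nonneg_left (s1.trans s3) (by positivity)
  have t2 : 2 / E.k * (Q3 + Q4 + Q5 + E.T * Q6) = 2 / E.k * Q3 + 2 / E.k * Q4 +
      2 / E.k * Q5 + 2 / E.k * (E.T * Q6) := by ring
  have t3 : 2 / E.k * (Q7 - Q4) = 2 / E.k * Q7 - 2 / E.k * Q4 := by ring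
  have t4 : 2 / E.k * (E.T * Q6) ≤ 2 * E.T ^ 2979 := by
    calc 2 / E.k * (E.T * Q6) ≤ 2 / E.k * (E.T * E.T ^ 6977) := by
          refine mul_le_mul_of_nonneg_left (mul_le_mul_of_nonneg_left s8 hT0.le) (by positivity)
      _ = 2 * (E.T ^ 6978 / E.k) := by ring
      _ ≤ 2 * E.T ^ 2979 := by
          have := OData.div_k' hD (a := 6978) (b := 2979) (by norm_num)
          linarith
  have f1 : E.T ^ 1700 ≤ E.T ^ 3034 := hB.pw (by norm_num)
  have f2 : E.T ^ 2979 ≤ E.T ^ 3034 := hB.pw (by norm_num)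
  have f3 : 4 * E.T ^ 3034 ≤ E.T ^ 3036 := by
    have g1 : (4 : ℝ) ≤ E.T := by linarith [hB.big]
    calc 4 * E.T ^ 3034 ≤ E.T * E.T ^ 3034 := mul_le_mul_of_nonneg_right g1 (by positivity)
      _ = E.T ^ 3035 := by ring
      _ ≤ E.T ^ 3036 := hB.pw (by norm_num)
  linarith

end

end ORd

end

end Pool.Agent.AcyK
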