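import Pool.Agent.AcyK.ODriftA

/-! # Drift of the Gram matrix (row OM3) -/

set_option autoImplicit false
set_option linter.unusedSectionVars false

namespace Pool.Agent.AcyK

open Finset
open Pool.Agent.Acy (IsPM wt Ex Pr mean)
open scoped Classical

universe u v w

section

variable {V : Type u} [Fintype V] [DecidableEq V]

namespace ORd

variable {E : ORd V} {C : V → Option (Fin E.k × ℕ)}

section
variable (hE : E.Ok C)
include hE

/-- Pointwise form of the first order expansion. -/
theorem driftC_lin (ω : V → E.Pick) (u x : V) :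
    |(if E.act u x then (E.nX ω u x - E.s.X u x) else 0) -
      E.s.X u x * (E.H0 u x + ∑ z, E.g0 u x z (ω z))| ≤ (if E.act u x then
      E.T * (E.H u x * E.nh ω u x + (E.nh ω u x : ℝ) * ((E.nh ω u x : ℝ) - 1)) else 0) := by
  by_cases ha : E.act u x
  · rw [if_pos ha, if_pos ha]
    have h1 := nX_lin hE ω ha
    have h2 : E.H0 u x = E.H u x := by unfold H0; rw [if_pos ha]
    have h3 : ∑ z, E.g0 u x z (ω z) = ∑ z, E.g u x z (ω z) :=
      sum_congr rfl fun z _ => by unfold g0; rw [if_pos ha]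
    rw [h2, h3]
    have h4 : E.nX ω u x - E.s.X u x - E.s.X u x * (E.H u x + ∑ z, E.g u x z (ω z)) =
        E.nX ω u x - E.s.X u x * (1 + E.H u x + ∑ z, E.g u x z (ω z)) := by ring
    rw [h4]
    exact h1
  · rw [if_neg ha, if_neg ha]
    have h2 : E.H0 u x = 0 := by unfold H0; rw [if_neg ha]
    have h3 : ∑ z, E.g0 u x z (ω z) = 0 :=
      sum_eq_zero fun z _ => by unfold g0; rw [if_neg ha]
    rw [h2, h3]
    simp

theorem driftC_K (ω : V → E.Pick) (u x : V) : E.K (E.next ω) u x =
    E.K E.s u x + (if E.act u x then (E.nX ω u x - E.s.X u x) else 0) := by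
  unfold OData.K
  by_cases ha : E.act u x
  · rw [if_pos (driftA_rel hE ha), if_pos (driftA_rel hE ha), if_pos ha]
    show E.nX ω u x - 1 = _
    ring
  · rw [if_neg ha]
    have h1 : E.nX ω u x = E.s.X u x := nX_not_act hE ω ha
    by_cases hr : E.rel u x
    · rw [if_pos hr, if_pos hr]
      show E.nX ω u x - 1 = _
      rw [h1]
      ring
    · rw [if_neg hr, if_neg hr]
      ring

theorem driftC_K_le (u x : V) : |E.K E.s u x| ≤ E.T := by
  have hT := driftA_big hE
  have h1 := OData.th2 hE.prt_ok.dat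
  have h2 := X_le hE u x
  have h3 := X_nonneg hE u x
  have h4 := hT.big
  unfold OData.K
  split_ifs
  · rw [abs_le]
    constructor <;> linarith
  · rw [abs_zero]
    exact hT.pos.le

theorem gr_step (ω : V → E.Pick) (hG : E.Good ω) {y y' : V} (hy : E.j < E.lv y)
    (hyy : E.lv y = E.lv y') (hne : y ≠ y')
    (hc : E.cod y y' ≤ E.T ^ 3000) : |E.Gr (E.next ω) y y' - E.Gr E.s y y'| ≤
      (E.A y y').card * E.T ^ 279 + E.T ^ 2433 := by
  have hT := driftA_big hE
  have hT0 := hT.pos
  have hT1 := hT.one_le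
  have hy' : E.j < E.lv y' := by rw [← hyy]; exact hy
  have ht5 := hG.t5 y y' hy hyy hne hc
  have hc3 := hG.c3 y y' hy hyy hne hc
  have herr := driftA_err hE ω hG hy
  have herr' := driftA_err hE ω hG hy'
  -- abbreviations
  set d : V → ℝ := fun u => if E.act u y then (E.nX ω u y - E.s.X u y) else 0 with hd
  set d' : V → ℝ := fun u => if E.act u y' then (E.nX ω u y' - E.s.X u y') else 0 with hd'
  set L : V → ℝ := fun u => E.s.X u y * (E.H0 u y + ∑ z, E.g0 u y z (ω z)) with hL
  set L' : V → ℝ := fun u => E.s.X u y' * (E.H0 u y' + ∑ z, E.g0 u y' z (ω z)) with hL'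
  set r : V → ℝ := fun u => if E.act u y then
      E.T * (E.H u y * E.nh ω u y + (E.nh ω u y : ℝ) * ((E.nh ω u y : ℝ) - 1)) else 0 with hr
  set r' : V → ℝ := fun u => if E.act u y' then
      E.T * (E.H u y' * E.nh ω u y' + (E.nh ω u y' : ℝ) * ((E.nh ω u y' : ℝ) - 1)) else 0
    with hr'
  have e1 : ∀ u, |d u - L u| ≤ r u := fun u => driftC_lin hE ω u y
  have e1' : ∀ u, |d' u - L' u| ≤ r' u := fun u => driftC_lin hE ω u y'
  -- the linear part
  have hlin : E.cen ω (E.F5 y y') = ∑ u, (L u * E.K E.s u y' + L' u * E.K E.s u y) := by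
    have a1 := driftA_cen hE ω y (fun u => E.s.X u y * E.K E.s u y')
    have a2 := driftA_cen hE ω y' (fun u => E.s.X u y' * E.K E.s u y)
    have a3 : E.cen ω (E.F5 y y') =
        E.cen ω (fun z e => ∑ u, E.s.X u y * E.K E.s u y' * E.g0 u y z e) +
        E.cen ω (fun z e => ∑ u, E.s.X u y' * E.K E.s u y * E.g0 u y' z e) := by
      unfold cen
      rw [← sum_add_distrib]
      refine sum_congr rfl fun z _ => ?_
      have b1 : ∀ e, E.F5 y y' z e = (∑ u, E.s.X u y * E.K E.s u y' * E.g0 u y z e) +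
          ∑ u, E.s.X u y' * E.K E.s u y * E.g0 u y' z e := by
        intro e
        unfold F5
        rw [← sum_add_distrib]
        exact sum_congr rfl fun u _ => by ring
      have b2 : mean E.law (E.F5 y y') z =
          mean E.law (fun z e => ∑ u, E.s.X u y * E.K E.s u y' * E.g0 u y z e) z +
          mean E.law (fun z e => ∑ u, E.s.X u y' * E.K E.s u y * E.g0 u y' z e) z := by
        unfold mean
        rw [← sum_add_distrib]
        exact sum_congr rfl fun e _ => by rw [b1]; ring
      rw [b1, b2]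
      ring
    rw [a3, a1, a2, ← sum_add_distrib]
    refine sum_congr rfl fun u _ => ?_
    simp only [hL, hL']
    ring
  -- the quadratic part
  have hquad : ∀ u, |d u * d' u| ≤ 1003 / 1000 * (
      E.T ^ 2 / E.T ^ 923 * (if E.site u y then (E.nh ω u y : ℝ) else 0) +
      E.T ^ 2 / E.T ^ 923 * (if E.site u y' then (E.nh ω u y' : ℝ) else 0) +
      E.T ^ 2 / E.T ^ 923 * (if E.site u y then E.H u y else 0) +
      E.T / 1000 * (if E.act u y ∧ E.act u y' then (E.nh ω u y : ℝ) * E.nh ω u y' else 0)) := by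
    intro u
    have hH := H_nonneg hE u y
    have hH' := H_nonneg hE u y'
    have hn : (0 : ℝ) ≤ (E.nh ω u y : ℝ) := Nat.cast_nonneg _
    have hn' : (0 : ℝ) ≤ (E.nh ω u y' : ℝ) := Nat.cast_nonneg _
    by_cases ha : E.act u y ∧ E.act u y'
    · obtain ⟨ha1, ha2⟩ := ha
      rw [if_pos (driftA_site hE ha1), if_pos (driftA_site hE ha2),
        if_pos (driftA_site hE ha1), if_pos ⟨ha1, ha2⟩]
      have c1 := nX_diff hE ω ha1
      have c2 := nX_diff hE ω ha2
      have k1 : min 1 (E.nh ω u y : ℝ) ≤ E.nh ω u y := min_le_right _ _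
      have k2 : min 1 (E.nh ω u y' : ℝ) ≤ E.nh ω u y' := min_le_right _ _
      have k3 : min 1 (E.nh ω u y : ℝ) ≤ 1 := min_le_left _ _
      have th0 : 0 < E.th := Real.exp_pos _
      have t2 := OData.th2 hE.prt_ok.dat
      have t4 := OData.th4 hE.prt_ok.dat
      have t1 : 4 ≤ E.th := OData.th_ge hE.prt_ok.dat
      have h1 := H_le hE (driftA_rel hE ha1)
      have h2 := H_le hE (driftA_rel hE ha2)
      have d1 : |d u| ≤ 1001 / 1000 * (E.th * E.H u y + E.th ^ 2 * E.nh ω u y) := by
        simp only [hd, if_pos ha1]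
        refine c1.trans ?_
        have := mul_le_mul_of_nonneg_left k1 (sq_nonneg E.th)
        linarith
      have d2 : |d' u| ≤ 1001 / 1000 * (E.th * E.H u y' + E.th ^ 2 * E.nh ω u y') := by
        simp only [hd', if_pos ha2]
        refine c2.trans ?_
        have := mul_le_mul_of_nonneg_left k2 (sq_nonneg E.th)
        linarith
      rw [abs_mul]
      refine (mul_le_mul d1 d2 (abs_nonneg _) (by positivity)).trans ?_
      have m1 : E.th ≤ E.T := by nlinarith
      have m2 : E.th ^ 2 ≤ E.T := by linarith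
      have m3 : E.th * E.th ^ 2 ≤ E.T ^ 2 := by
        have := mul_le_mul m1 m2 (by positivity) hT0.le
        nlinarith
      have m4 : E.th * E.th ≤ E.T ^ 2 := by nlinarith
      -- four products
      have p1 : (E.th * E.H u y) * (E.th * E.H u y') ≤
          E.T ^ 2 / E.T ^ 923 * E.H u y := by
        have q1 : (E.th * E.H u y) * (E.th * E.H u y') =
            (E.th * E.th) * (E.H u y' * E.H u y) := by ring
        rw [q1]
        have q2 : E.H u y' * E.H u y ≤ 1 / E.T ^ 923 * E.H u y :=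
          mul_le_mul_of_nonneg_right h2 hH
        calc _ ≤ E.T ^ 2 * (1 / E.T ^ 923 * E.H u y) :=
              mul_le_mul m4 q2 (by positivity) (by positivity)
          _ = _ := by ring
      have p2 : (E.th * E.H u y) * (E.th ^ 2 * E.nh ω u y') ≤
          E.T ^ 2 / E.T ^ 923 * E.nh ω u y' := by
        have q1 : (E.th * E.H u y) * (E.th ^ 2 * E.nh ω u y') =
            (E.th * E.th ^ 2) * (E.H u y * E.nh ω u y') := by ring
        rw [q1]
        have q2 : E.H u y * E.nh ω u y' ≤ 1 / E.T ^ 923 * E.nh ω u y' :=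
          mul_le_mul_of_nonneg_right h1 hn'
        calc _ ≤ E.T ^ 2 * (1 / E.T ^ 923 * E.nh ω u y') :=
              mul_le_mul m3 q2 (by positivity) (by positivity)
          _ = _ := by ring
      have p3 : (E.th ^ 2 * E.nh ω u y) * (E.th * E.H u y') ≤
          E.T ^ 2 / E.T ^ 923 * E.nh ω u y := by
        have q1 : (E.th ^ 2 * E.nh ω u y) * (E.th * E.H u y') =
            (E.th * E.th ^ 2) * (E.H u y' * E.nh ω u y) := by ring
        rw [q1]
        have q2 : E.H u y' * E.nh ω u y ≤ 1 / E.T ^ 923 * E.nh ω u y :=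
          mul_le_mul_of_nonneg_right h2 hn
        calc _ ≤ E.T ^ 2 * (1 / E.T ^ 923 * E.nh ω u y) :=
              mul_le_mul m3 q2 (by positivity) (by positivity)
          _ = _ := by ring
      have p4 : (E.th ^ 2 * E.nh ω u y) * (E.th ^ 2 * E.nh ω u y') ≤
          E.T / 1000 * (E.nh ω u y * E.nh ω u y') := by
        have q1 : (E.th ^ 2 * E.nh ω u y) * (E.th ^ 2 * E.nh ω u y') =
            E.th ^ 4 * (E.nh ω u y * E.nh ω u y') := by ring
        rw [q1]
        exact mul_le_mul_of_nonneg_right t4 (by positivity)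
      have q0 : 1001 / 1000 * (E.th * E.H u y + E.th ^ 2 * E.nh ω u y) *
          (1001 / 1000 * (E.th * E.H u y' + E.th ^ 2 * E.nh ω u y')) =
          1002001 / 1000000 * ((E.th * E.H u y) * (E.th * E.H u y') +
            (E.th * E.H u y) * (E.th ^ 2 * E.nh ω u y') +
            (E.th ^ 2 * E.nh ω u y) * (E.th * E.H u y') +
            (E.th ^ 2 * E.nh ω u y) * (E.th ^ 2 * E.nh ω u y')) := by ring
      rw [q0]
      have s0 : 0 ≤ (E.th * E.H u y) * (E.th * E.H u y') +
            (E.th * E.H u y) * (E.th ^ 2 * E.nh ω u y') +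
            (E.th ^ 2 * E.nh ω u y) * (E.th * E.H u y') +
            (E.th ^ 2 * E.nh ω u y) * (E.th ^ 2 * E.nh ω u y') := by positivity
      have s1 := mul_le_mul_of_nonneg_right
        (show (1002001 / 1000000 : ℝ) ≤ 1003 / 1000 by norm_num) s0
      refine s1.trans (mul_le_mul_of_nonneg_left ?_ (by norm_num))
      linarith
    · rw [if_neg ha]
      have hz : d u * d' u = 0 := by
        by_cases h1 : E.act u y
        · have h2 : ¬ E.act u y' := fun h2 => ha ⟨h1, h2⟩
          simp only [hd', if_neg h2, mul_zero]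
        · simp only [hd, if_neg h1, zero_mul]
      rw [hz, abs_zero]
      have f1 : 0 ≤ (if E.site u y then (E.nh ω u y : ℝ) else 0) := by
        split_ifs
        · exact hn
        · exact le_rfl
      have f2 : 0 ≤ (if E.site u y' then (E.nh ω u y' : ℝ) else 0) := by
        split_ifs
        · exact hn'
        · exact le_rfl
      have f3 : 0 ≤ (if E.site u y then E.H u y else 0) := by
        split_ifs
        · exact hH
        · exact le_rfl
      positivity
  -- the sum of the quadratic parts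
  have hq : ∑ u, |d u * d' u| ≤ (E.A y y').card * E.T ^ 279 / 100 + E.T ^ 2202 := by
    refine (sum_le_sum fun u _ => hquad u).trans ?_
    rw [← mul_sum, sum_add_distrib, sum_add_distrib, sum_add_distrib, ← mul_sum, ← mul_sum,
      ← mul_sum, ← mul_sum]
    have b1 := mul_le_mul_of_nonneg_left (hG.c1 y hy)
      (show 0 ≤ E.T ^ 2 / E.T ^ 923 by positivity)
    have b2 := mul_le_mul_of_nonneg_left (hG.c1 y' hy')
      (show 0 ≤ E.T ^ 2 / E.T ^ 923 by positivity)
    have b3 := mul_le_mul_of_nonneg_left (sumH1 hE hy)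
      (show 0 ≤ E.T ^ 2 / E.T ^ 923 by positivity)
    have b4 := mul_le_mul_of_nonneg_left hc3 (show 0 ≤ E.T / 1000 by positivity)
    have g1 : E.T ^ 2 / E.T ^ 923 * E.T ^ 3102 = E.T ^ 2181 := by
      rw [show (3102 : ℕ) = 923 + 2179 from rfl, pow_add, show (2181 : ℕ) = 2 + 2179 from rfl,
        pow_add]
      field_simp
    have g2 : E.T ^ 2 / E.T ^ 923 * E.T ^ 3093 = E.T ^ 2172 := by
      rw [show (3093 : ℕ) = 923 + 2170 from rfl, pow_add, show (2172 : ℕ) = 2 + 2170 from rfl,
        pow_add]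
      field_simp
    have g3 : E.T / 1000 * ((E.A y y').card * E.T ^ 278 + E.T ^ 2200) =
        (E.A y y').card * E.T ^ 279 / 1000 + E.T ^ 2201 / 1000 := by
      rw [show (279 : ℕ) = 278 + 1 from rfl, pow_succ, show (2201 : ℕ) = 2200 + 1 from rfl,
        pow_succ]
      ring
    rw [g1] at b1 b2
    rw [g2] at b3
    rw [g3] at b4
    have i1 : E.T ^ 2181 ≤ E.T ^ 2201 := hT.pw (by norm_num)
    have i2 : E.T ^ 2172 ≤ E.T ^ 2201 := hT.pw (by norm_num)
    have i3 := hT.driftA_pw (show 2201 + 1 ≤ 2202 by norm_num)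
    have i4 : 0 ≤ E.T ^ 2201 := pow_nonneg hT0.le _
    have i5 : 0 ≤ ((E.A y y').card : ℝ) * E.T ^ 279 := by positivity
    linarith
  -- the errors of the linear parts
  have hl : ∑ u, |(d u - L u) * E.K E.s u y' + (d' u - L' u) * E.K E.s u y| ≤
      2 * E.T ^ 2203 := by
    have j1 : ∀ u, |(d u - L u) * E.K E.s u y' + (d' u - L' u) * E.K E.s u y| ≤
        E.T * r u + E.T * r' u := by
      intro u
      refine (abs_add_le _ _).trans (add_le_add ?_ ?_)
      · rw [abs_mul, mul_comm]
        exact mul_le_mul (driftC_K_le hE u y') (e1 u) (abs_nonneg _) hT0.le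
      · rw [abs_mul, mul_comm]
        exact mul_le_mul (driftC_K_le hE u y) (e1' u) (abs_nonneg _) hT0.le
    refine (sum_le_sum fun u _ => j1 u).trans ?_
    rw [sum_add_distrib, ← mul_sum, ← mul_sum]
    have j2 := mul_le_mul_of_nonneg_left herr hT0.le
    have j3 := mul_le_mul_of_nonneg_left herr' hT0.le
    have j4 : E.T * E.T ^ 2202 = E.T ^ 2203 := (pow_succ' E.T 2202).symm
    rw [j4] at j2 j3
    linarith
  -- assembly
  have hdiff : E.Gr (E.next ω) y y' - E.Gr E.s y y' = E.cen ω (E.F5 y y') +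
      ∑ u, ((d u - L u) * E.K E.s u y' + (d' u - L' u) * E.K E.s u y) +
      ∑ u, d u * d' u := by
    rw [hlin, ← sum_add_distrib, ← sum_add_distrib]
    unfold OData.Gr
    rw [← sum_sub_distrib]
    refine sum_congr rfl fun u _ => ?_
    rw [driftC_K hE ω u y, driftC_K hE ω u y']
    show (E.K E.s u y + d u) * (E.K E.s u y' + d' u) - _ = _
    ring
  rw [hdiff]
  have z1 : |∑ u, ((d u - L u) * E.K E.s u y' + (d' u - L' u) * E.K E.s u y)| ≤
      2 * E.T ^ 2203 := (abs_sum_le_sum_abs _ _).trans hl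
  have z2 : |∑ u, d u * d' u| ≤ (E.A y y').card * E.T ^ 279 / 100 + E.T ^ 2202 :=
    (abs_sum_le_sum_abs _ _).trans hq
  have z3 := hT.driftA_pw (show 2430 + 1 ≤ 2433 by norm_num)
  have z4 : E.T ^ 2202 ≤ E.T ^ 2430 := hT.pw (by norm_num)
  have z5 : E.T ^ 2203 ≤ E.T ^ 2430 := hT.pw (by norm_num)
  have z6 : 0 ≤ E.T ^ 2430 := pow_nonneg hT0.le _
  have z7 : 0 ≤ ((E.A y y').card : ℝ) * E.T ^ 279 := by positivity
  rw [abs_le] at z1 z2 ht5 ⊢
  constructor <;> linarith [z1.1, z1.2, z2.1, z2.2, ht5.1, ht5.2]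

end

end ORd

end

end Pool.Agent.AcyK
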