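import Pool.Agent.AcyK.Defs

/-! # The parameters (row FP) -/

set_option autoImplicit false

namespace Pool.Agent.AcyK

open Finset

theorem op_pow {T : ℝ} (hT : 10 ^ 9 ≤ T) (a b : ℕ) (h : a < b) : 10 ^ 9 * T ^ a ≤ T ^ b := by
  have h1 : 1 ≤ T := le_trans (by norm_num) hT
  calc 10 ^ 9 * T ^ a ≤ T * T ^ a := mul_le_mul_of_nonneg_right hT (by positivity)
    _ = T ^ (a + 1) := by rw [pow_succ]; ring
    _ ≤ T ^ b := pow_le_pow_right₀ h1 h

theorem exists_params : ∃ d₀ : ℕ, ∀ d : ℕ, d₀ ≤ d → ∀ NN : ℕ,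
    10 ^ 9 * (1 + Real.log (2 * NN + 2)) ≤ Real.log d / 3600 →
    ∃ (T : ℝ) (k q M R : ℕ) (am : ℝ), T ^ 3600 = d ∧ Real.log T = Real.log d / 3600 ∧
      Big T ∧ T ^ 3999 ≤ k ∧ (k : ℝ) ≤ T ^ 4000 ∧ (q : ℝ) ≤ T ^ 150 ∧
      (M : ℝ) + T ^ 133 ≤ q ∧ ((q : ℝ) - M) / q ≤ 1 / T ^ 10 ∧
      T ^ 800 / 2 ≤ R ∧ (R : ℝ) ≤ T ^ 800 ∧ 0 < am ∧ am ≤ T ^ 2401 ∧
      2000 * T ^ 7200 ≤ R * k * am ∧
      100 * (1 + Real.log (2 * NN + 2)) * am ^ 2 ≤ R * k * Real.log T ∧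
      2 * (NN : ℝ) + 4 ≤ Real.exp (Real.log T / 10) ∧
      (R : ℝ) * k ≤ 50000 * (((1 + Real.log (2 * NN + 2)) / Real.log d) ^ ((1 : ℝ) / 3) *
        (d : ℝ) ^ ((4 : ℝ) / 3)) := by
  refine ⟨1, fun d hd NN hNN => ?_⟩
  have hd0 : (0 : ℝ) < d := by exact_mod_cast hd
  obtain ⟨τ, hτdef⟩ : ∃ τ : ℝ, τ = 1 + Real.log (2 * NN + 2) := ⟨_, rfl⟩
  rw [← hτdef] at hNN ⊢
  have hNN0 : (0 : ℝ) ≤ (NN : ℝ) := Nat.cast_nonneg _
  have hlog0 : 0 ≤ Real.log (2 * (NN : ℝ) + 2) := Real.log_nonneg (by linarith)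
  have hτ : 1 ≤ τ := by linarith
  obtain ⟨L, hLdef⟩ : ∃ L : ℝ, L = Real.log d / 3600 := ⟨_, rfl⟩
  rw [← hLdef] at hNN ⊢
  have hL : 10 ^ 9 ≤ L := by linarith
  have hL0 : 0 < L := lt_of_lt_of_le (by norm_num) hL
  have hlogd : Real.log d = 3600 * L := by rw [hLdef]; ring
  obtain ⟨T, hTdef⟩ : ∃ T : ℝ, T = Real.exp L := ⟨_, rfl⟩
  have hT0 : 0 < T := by rw [hTdef]; exact Real.exp_pos _
  have hlogT : Real.log T = L := by rw [hTdef]; exact Real.log_exp _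
  have hTL : 10 ^ 9 / 2 * L ≤ T := by
    have h1 := Real.quadratic_le_exp_of_nonneg hL0.le
    rw [← hTdef] at h1
    have h2 : 10 ^ 9 / 2 * L ≤ L ^ 2 / 2 := by
      have h3 := mul_le_mul_of_nonneg_right hL hL0.le
      rw [sq]
      linarith
    linarith
  have hT : 10 ^ 9 ≤ T := by linarith
  have hT1 : 1 ≤ T := le_trans (by norm_num) hT
  have hTd : T ^ 3600 = d := by
    rw [hTdef, ← Real.exp_nat_mul]
    have : ((3600 : ℕ) : ℝ) * L = Real.log d := by rw [hlogd]; norm_num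
    rw [this, Real.exp_log hd0]
  have hbig : Big T := by
    refine ⟨le_trans (by norm_num) hT, ?_⟩
    have e : T ^ 200000 = Real.exp (200000 * L) := by
      rw [hTdef, ← Real.exp_nat_mul]
      norm_num
    rw [e]
    apply Real.exp_le_exp.mpr
    linarith
  -- the number of parts
  have hp800 := pow_pos hT0 800
  have hR1 : (⌊T ^ 800⌋₊ : ℝ) ≤ T ^ 800 := Nat.floor_le hp800.le
  have hR2 : T ^ 800 - 1 < (⌊T ^ 800⌋₊ : ℝ) := by
    have := Nat.lt_floor_add_one (T ^ 800)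
    linarith
  have h800 : 10 ^ 9 ≤ T ^ 800 := by
    have := op_pow hT 0 800 (by norm_num)
    rwa [pow_zero, mul_one] at this
  obtain ⟨R, hRdef⟩ : ∃ R : ℕ, R = ⌊T ^ 800⌋₊ := ⟨_, rfl⟩
  rw [← hRdef] at hR1 hR2
  have hR0 : (0 : ℝ) < R := by linarith
  have hR3 : T ^ 800 / 2 ≤ R := by linarith
  -- the rounds
  have hq1 : (⌊T ^ 150⌋₊ : ℝ) ≤ T ^ 150 := Nat.floor_le (pow_pos hT0 150).le
  have hq2 : T ^ 150 - 1 < (⌊T ^ 150⌋₊ : ℝ) := by
    have := Nat.lt_floor_add_one (T ^ 150)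
    linarith
  obtain ⟨q, hqdef⟩ : ∃ q : ℕ, q = ⌊T ^ 150⌋₊ := ⟨_, rfl⟩
  rw [← hqdef] at hq1 hq2
  have hm1 : T ^ 133 ≤ (⌈T ^ 133⌉₊ : ℝ) := Nat.le_ceil _
  have hm2 : (⌈T ^ 133⌉₊ : ℝ) < T ^ 133 + 1 := Nat.ceil_lt_add_one (pow_pos hT0 133).le
  obtain ⟨mc, hmcdef⟩ : ∃ mc : ℕ, mc = ⌈T ^ 133⌉₊ := ⟨_, rfl⟩
  rw [← hmcdef] at hm1 hm2
  have h133 : 10 ^ 9 * T ^ 133 ≤ T ^ 150 := op_pow hT 133 150 (by norm_num)
  have h133' : 1 ≤ T ^ 133 := one_le_pow₀ hT1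
  have hmq : mc ≤ q := by
    have h1 : (mc : ℝ) ≤ q := by linarith
    exact_mod_cast h1
  have hMcast : ((q - mc : ℕ) : ℝ) = (q : ℝ) - mc := by push_cast [hmq]; ring
  have hq0 : (0 : ℝ) < q := by linarith
  -- the number of colours
  have hx0 : 0 < 4 * 10 ^ 8 * τ / L := by positivity
  obtain ⟨c, hcdef⟩ : ∃ c : ℝ, c = (4 * 10 ^ 8 * τ / L) ^ ((1 : ℝ) / 3) := ⟨_, rfl⟩
  have hc0 : 0 < c := by rw [hcdef]; exact Real.rpow_pos_of_pos hx0 _
  have hc3 : c ^ 3 = 4 * 10 ^ 8 * τ / L := by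
    rw [hcdef, ← Real.rpow_natCast, ← Real.rpow_mul hx0.le]
    norm_num
  have hcle : c ≤ 3 / 4 := by
    by_contra hcon
    have h1 : 3 / 4 < c := not_le.mp hcon
    have h2 : (3 / 4 : ℝ) ^ 3 < c ^ 3 := pow_lt_pow_left₀ h1 (by norm_num) (by norm_num)
    rw [hc3, lt_div_iff₀ hL0] at h2
    norm_num at h2
    linarith
  have hcge : 1 / T ≤ c := by
    by_contra hcon
    have h1 : c < 1 / T := not_le.mp hcon
    have h2 : c ^ 3 < (1 / T) ^ 3 := pow_lt_pow_left₀ h1 hc0.le (by norm_num)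
    rw [hc3, one_div, inv_pow, div_lt_iff₀ hL0, inv_mul_eq_div, lt_div_iff₀ (by positivity)] at h2
    have h3 : T ≤ T ^ 3 := by
      calc T = T ^ 1 := (pow_one _).symm
        _ ≤ T ^ 3 := pow_le_pow_right₀ hT1 (by norm_num)
    have h4 : 1 * T ≤ τ * T ^ 3 := mul_le_mul hτ h3 hT0.le (by linarith)
    linarith
  obtain ⟨y, hydef⟩ : ∃ y : ℝ, y = c * T ^ 4800 := ⟨_, rfl⟩
  have hp4800 := pow_pos hT0 4800
  have hy0 : 0 < y := by rw [hydef]; exact mul_pos hc0 hp4800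
  have hyR0 : 0 < y / R := div_pos hy0 hR0
  have hk1 : y / R ≤ (⌈y / R⌉₊ : ℝ) := Nat.le_ceil _
  have hk2 : (⌈y / R⌉₊ : ℝ) < y / R + 1 := Nat.ceil_lt_add_one hyR0.le
  obtain ⟨k, hkdef⟩ : ∃ k : ℕ, k = ⌈y / R⌉₊ := ⟨_, rfl⟩
  rw [← hkdef] at hk1 hk2
  have hk0 : (0 : ℝ) < k := lt_of_lt_of_le hyR0 hk1
  have hRk : y ≤ R * k := by
    rw [div_le_iff₀ hR0] at hk1
    linarith
  have hRk' : (R : ℝ) * k ≤ y + R := by
    have h1 : (R : ℝ) * k ≤ R * (y / R + 1) := mul_le_mul_of_nonneg_left hk2.le hR0.le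
    have h2 : (R : ℝ) * (y / R + 1) = y + R := by field_simp
    linarith
  have e4800 : T ^ 4800 = T ^ 4000 * T ^ 800 := by rw [← pow_add]
  have e4000 : T ^ 4000 = T ^ 3999 * T := pow_succ T 3999
  have hp4000 := pow_pos hT0 4000
  have hp3999 := pow_pos hT0 3999
  have hk_lo : T ^ 3999 ≤ k := by
    refine le_trans ?_ hk1
    rw [le_div_iff₀ hR0]
    calc T ^ 3999 * R ≤ T ^ 3999 * T ^ 800 := mul_le_mul_of_nonneg_left hR1 hp3999.le
      _ = (1 / T) * T ^ 4800 := by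
        rw [e4800, e4000]
        field_simp
      _ ≤ y := by
        rw [hydef]
        exact mul_le_mul_of_nonneg_right hcge hp4800.le
  have hk_hi : (k : ℝ) ≤ T ^ 4000 := by
    have h1 : y / R ≤ 9 / 10 * T ^ 4000 := by
      rw [div_le_iff₀ hR0, hydef, e4800]
      have h2 : T ^ 800 ≤ 10 / 9 * (R : ℝ) := by linarith
      calc c * (T ^ 4000 * T ^ 800) ≤ 3 / 4 * (T ^ 4000 * T ^ 800) :=
            mul_le_mul_of_nonneg_right hcle (by positivity)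
        _ ≤ 3 / 4 * (T ^ 4000 * (10 / 9 * R)) := by
            apply mul_le_mul_of_nonneg_left _ (by norm_num)
            exact mul_le_mul_of_nonneg_left h2 hp4000.le
        _ ≤ 9 / 10 * T ^ 4000 * R := by
            have h3 := mul_pos hp4000 hR0
            linarith
    have h2 : 10 ^ 9 ≤ T ^ 4000 := by
      have := op_pow hT 0 4000 (by norm_num)
      rwa [pow_zero, mul_one] at this
    linarith
  have hRkpos : (0 : ℝ) < R * k := mul_pos hR0 hk0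
  have hRkle : (R : ℝ) * k ≤ T ^ 4800 := by
    rw [e4800, mul_comm]
    exact mul_le_mul hk_hi hR1 hR0.le hp4000.le
  -- the largest codegree
  have hτ0 : 0 < τ := by linarith
  obtain ⟨w, hwdef⟩ : ∃ w : ℝ, w = R * k * L / (100 * τ) := ⟨_, rfl⟩
  have hw0 : 0 < w := by
    rw [hwdef]
    exact div_pos (mul_pos hRkpos hL0) (by linarith)
  have ham2 : Real.sqrt w ^ 2 = w := Real.sq_sqrt hw0.le
  have ham0 : 0 < Real.sqrt w := Real.sqrt_pos.mpr hw0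
  refine ⟨T, k, q, q - mc, R, Real.sqrt w, hTd, hlogT, hbig, hk_lo, hk_hi, hq1, ?_, ?_, hR3, hR1,
    ham0, ?_, ?_, ?_, ?_, ?_⟩
  · rw [hMcast]
    linarith
  · rw [hMcast, div_le_div_iff₀ hq0 (by positivity)]
    have h1 : (q : ℝ) - (q - mc) = mc := by ring
    rw [h1, one_mul]
    have h2 : (mc : ℝ) ≤ 2 * T ^ 133 := by linarith
    have h3 : (mc : ℝ) * T ^ 10 ≤ 2 * T ^ 133 * T ^ 10 :=
      mul_le_mul_of_nonneg_right h2 (by positivity)
    have h4 : 2 * T ^ 133 * T ^ 10 = 2 * T ^ 143 := by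
      rw [mul_assoc, ← pow_add]
    have h5 : 10 ^ 9 * T ^ 143 ≤ T ^ 150 := op_pow hT 143 150 (by norm_num)
    have h6 : 1 ≤ T ^ 143 := one_le_pow₀ hT1
    linarith
  · rw [show T ^ 2401 = Real.sqrt ((T ^ 2401) ^ 2) from (Real.sqrt_sq (by positivity)).symm]
    apply Real.sqrt_le_sqrt
    have h1 : w ≤ T ^ 4800 * L := by
      rw [hwdef, div_le_iff₀ (by positivity)]
      have h2 : (R : ℝ) * k * L ≤ T ^ 4800 * L := mul_le_mul_of_nonneg_right hRkle hL0.le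
      have h3 : 0 < T ^ 4800 * L := mul_pos hp4800 hL0
      have h4 : T ^ 4800 * L * 1 ≤ T ^ 4800 * L * (100 * τ) :=
        mul_le_mul_of_nonneg_left (by linarith) h3.le
      linarith
    have h2 : L ≤ T ^ 2 := by
      have h3 : T ^ 1 ≤ T ^ 2 := pow_le_pow_right₀ hT1 (by norm_num)
      rw [pow_one] at h3
      linarith
    calc w ≤ T ^ 4800 * L := h1
      _ ≤ T ^ 4800 * T ^ 2 := mul_le_mul_of_nonneg_left h2 hp4800.le
      _ = (T ^ 2401) ^ 2 := by rw [← pow_add, ← pow_mul]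
  · have h1 : 2000 * T ^ 7200 = Real.sqrt (4 * 10 ^ 6 * T ^ 14400) := by
      have h2 : 4 * 10 ^ 6 * T ^ 14400 = (2000 * T ^ 7200) ^ 2 := by
        rw [mul_pow, ← pow_mul]
        norm_num
      rw [h2, Real.sqrt_sq (by positivity)]
    have h2 : (R : ℝ) * k * Real.sqrt w = Real.sqrt ((R * k) ^ 2 * w) := by
      rw [Real.sqrt_mul (sq_nonneg _), Real.sqrt_sq hRkpos.le]
    rw [h1, h2]
    apply Real.sqrt_le_sqrt
    have h3 : y ^ 3 ≤ ((R : ℝ) * k) ^ 3 := pow_le_pow_left₀ hy0.le hRk 3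
    have h4 : y ^ 3 = 4 * 10 ^ 8 * τ / L * T ^ 14400 := by
      rw [hydef, mul_pow, hc3, ← pow_mul]
    have h5 : ((R : ℝ) * k) ^ 2 * w = ((R : ℝ) * k) ^ 3 * (L / (100 * τ)) := by
      rw [hwdef]
      field_simp
    rw [h5]
    calc 4 * 10 ^ 6 * T ^ 14400 = y ^ 3 * (L / (100 * τ)) := by
          rw [h4]
          field_simp
          ring
      _ ≤ ((R : ℝ) * k) ^ 3 * (L / (100 * τ)) := mul_le_mul_of_nonneg_right h3 (by positivity)
  · rw [hlogT, ham2, hwdef]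
    apply le_of_eq
    field_simp
  · rw [hlogT]
    have h1 : Real.log (2 * (NN : ℝ) + 2) ≤ L / 10 ^ 9 - 1 := by
      rw [le_sub_iff_add_le, le_div_iff₀ (by norm_num)]
      linarith
    have h2 : 2 * (NN : ℝ) + 2 ≤ Real.exp (L / 10 ^ 9 - 1) := by
      rw [← Real.exp_log (show (0 : ℝ) < 2 * NN + 2 by linarith)]
      exact Real.exp_le_exp.mpr h1
    have h3 : 2 * (NN : ℝ) + 4 ≤ Real.exp 1 * Real.exp (L / 10 ^ 9 - 1) := by
      have h4 := Real.add_one_le_exp (1 : ℝ)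
      have h5 := Real.exp_pos (L / 10 ^ 9 - 1)
      have h6 := mul_le_mul_of_nonneg_right h4 h5.le
      linarith
    refine h3.trans ?_
    rw [← Real.exp_add]
    apply Real.exp_le_exp.mpr
    linarith
  · have hz0 : 0 < τ / Real.log d := by rw [hlogd]; positivity
    obtain ⟨z, hzdef⟩ : ∃ z : ℝ, z = (τ / Real.log d) ^ ((1 : ℝ) / 3) := ⟨_, rfl⟩
    rw [← hzdef]
    have hzpos : 0 < z := by rw [hzdef]; exact Real.rpow_pos_of_pos hz0 _
    have hz3 : z ^ 3 = τ / (3600 * L) := by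
      rw [hzdef, ← Real.rpow_natCast, ← Real.rpow_mul hz0.le, ← hlogd]
      norm_num
    have hd43 : (d : ℝ) ^ ((4 : ℝ) / 3) = T ^ 4800 := by
      rw [← hTd, ← Real.rpow_natCast, ← Real.rpow_natCast, ← Real.rpow_mul hT0.le]
      norm_num
    rw [hd43]
    have hcz : c ≤ 12000 * z := by
      by_contra hcon
      have h1 : 12000 * z < c := not_le.mp hcon
      have h2 : (12000 * z) ^ 3 < c ^ 3 := pow_lt_pow_left₀ h1 (by positivity) (by norm_num)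
      rw [mul_pow, hz3, hc3] at h2
      have h3 : (12000 : ℝ) ^ 3 * (τ / (3600 * L)) = 4.8 * 10 ^ 8 * τ / L := by
        field_simp
        norm_num
      rw [h3, div_lt_div_iff_of_pos_right hL0] at h2
      norm_num at h2
      linarith
    have hzT : 1 / T ≤ z := by
      by_contra hcon
      have h1 : z < 1 / T := not_le.mp hcon
      have h2 : z ^ 3 < (1 / T) ^ 3 := pow_lt_pow_left₀ h1 hzpos.le (by norm_num)
      rw [hz3, one_div, inv_pow, div_lt_iff₀ (by positivity), inv_mul_eq_div,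
        lt_div_iff₀ (by positivity)] at h2
      have h3 : T ≤ T ^ 3 := by
        calc T = T ^ 1 := (pow_one _).symm
          _ ≤ T ^ 3 := pow_le_pow_right₀ hT1 (by norm_num)
      have h4 : 1 * T ≤ τ * T ^ 3 := mul_le_mul hτ h3 hT0.le (by linarith)
      linarith
    have h1 : y ≤ 12000 * z * T ^ 4800 := by
      rw [hydef]
      exact mul_le_mul_of_nonneg_right hcz hp4800.le
    have h2 : (R : ℝ) ≤ z * T ^ 4800 := by
      have h3 : T ^ 800 ≤ 1 / T * T ^ 4800 := by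
        have h4 : 1 / T * T ^ 4800 = T ^ 3999 * T ^ 800 := by
          rw [e4800, e4000]
          field_simp
        rw [h4]
        exact le_mul_of_one_le_left hp800.le (one_le_pow₀ hT1)
      have h6 : 1 / T * T ^ 4800 ≤ z * T ^ 4800 := mul_le_mul_of_nonneg_right hzT hp4800.le
      linarith
    have h3 : 0 < z * T ^ 4800 := by positivity
    linarith

end Pool.Agent.AcyK
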