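import Pool.Agent.AcyK.OPartA

/-! # Row OP2: the state at the beginning of a part (project MP_af9dfb_K) -/

set_option autoImplicit false
set_option linter.unusedSectionVars false

namespace Pool.Agent.AcyK

open Finset
open Pool.Agent.Acy (IsPM wt Ex Pr mean)
open scoped Classical

universe u v w

section

variable {V : Type u} [Fintype V] [DecidableEq V]

namespace OPart

variable {E : OPart V} {C : V → Option (Fin E.k × ℕ)}

section
variable (hE : E.Ok C)
include hE

theorem chi_nib {z z' : V} (hz : E.lv z = E.j) (hz' : E.lv z' = E.j) (hne : z ≠ z') :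
    E.nib.chi z z' = E.chi E.s0 z z' := by
  have hlog : 0 < Real.log E.T := by
    have := pa_log hE
    linarith
  unfold NibData.chi
  rw [nibh' hz z', nibK' hz z']
  unfold OData.hz OData.K OData.chi
  by_cases hs : E.spe z z'
  · rw [if_pos hs, if_pos hs, if_neg (by norm_num)]
  · rw [if_neg hs, if_neg hs]
    by_cases hr : E.rel z z'
    · rw [if_pos hr, if_pos hr, if_pos hr]
      by_cases h0 : E.s0.X z z' = 0
      · rw [if_pos h0, h0, if_pos (by norm_num)]
        split_ifs <;> norm_num
      · rw [if_neg h0]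
        by_cases ha : E.s0.st z z' = .act
        · have hnf : E.s0.nf z z' := Or.inl ha
          have hle := hE.inv.act_le z z' hr (by rw [hz]) ha
          have hX1 := pa_s0_one hE h0
          have hlogX : Real.log (E.s0.X z z') ≤ Real.log E.T / 10 := by
            have h1 : Real.log (E.s0.X z z') ≤ Real.log E.th :=
              Real.log_le_log (by linarith) hle
            rwa [OData.th, Real.log_exp] at h1
          have h2 : 10 / Real.log E.T * Real.log (E.s0.X z z') ≤ 1 := by
            calc 10 / Real.log E.T * Real.log (E.s0.X z z') ≤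
                10 / Real.log E.T * (Real.log E.T / 10) :=
                  mul_le_mul_of_nonneg_left hlogX (by positivity)
              _ = 1 := by field_simp
          rw [if_pos ha, if_pos h2, if_pos hnf]
          ring
        · have hnf : ¬ E.s0.nf z z' := by
            rintro (h | h)
            · exact ha h
            · exact hE.inv.no_asl z z' h
          rw [if_neg ha, if_neg (by norm_num), if_neg hnf]
    · rw [if_neg hr, if_neg hr, if_neg hr, if_pos (by norm_num)]
      ring

omit hE in
theorem un_init : Un (NState.init V E.k).col = univ := by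
  unfold Un NState.init
  simp

theorem nib_chi_nonneg (z z' : V) : 0 ≤ E.nib.chi z z' := by
  unfold NibData.chi
  split_ifs
  · rcases (nib_ok hE).K_cases z z' with h | h <;> linarith
  · exact le_refl _

omit hE in
theorem YbC_init (i : (V × V) ⊕ V) : E.nib.YbC (NState.init V E.k) i = 0 := by
  unfold NibData.YbC
  refine sum_eq_zero fun z _ => sum_eq_zero fun c _ => ?_
  have h1 : E.nib.nc (NState.init V E.k) i c = 0 := by
    unfold NibData.nc
    rw [Nat.cast_eq_zero, card_eq_zero, filter_eq_empty_iff]
    rintro z _ ⟨r, hr⟩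
    simp [NState.init] at hr
  split_ifs
  · rw [h1, zero_mul]
  · rfl

theorem Yb_init {u x : V} (h : E.cod u x ≤ E.am) :
    E.nib.Yb (NState.init V E.k) (Sum.inl (u, x)) = E.y0 u x := by
  unfold NibData.Yb y0
  rw [YbC_init, add_zero]
  have h1 : E.nib.YbU (NState.init V E.k) (Sum.inl (u, x)) =
      ∑ z ∈ E.A u x, ∑ z' ∈ (E.A u x).erase z, E.chi E.s0 z z' := by
    unfold NibData.YbU
    have hA : E.nib.A (Sum.inl (u, x)) = E.A u x := by
      show (if E.cod u x ≤ E.am then E.A u x else ∅) = E.A u x
      rw [if_pos h]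
    have hU : Un (k := E.nib.k) (NState.init V E.nib.k).col = univ := un_init (E := E)
    change ∑ z ∈ E.nib.A (Sum.inl (u, x)) ∩ Un (k := E.nib.k) (NState.init V E.nib.k).col,
      ∑ z' ∈ (E.nib.A (Sum.inl (u, x)) ∩ Un (k := E.nib.k)
        (NState.init V E.nib.k).col).erase z, E.nib.chi z z' = _
    rw [hU, inter_univ, hA]
    refine sum_congr rfl fun z hz => sum_congr rfl fun z' hz' => ?_
    have hzj : E.lv z = E.j := (mem_filter.1 hz).2
    have hzj' : E.lv z' = E.j := (mem_filter.1 (mem_of_mem_erase hz')).2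
    exact chi_nib hE hzj hzj' (ne_of_mem_erase hz').symm
  rw [h1]
  rfl

theorem Yb_init_nonneg (i : (V × V) ⊕ V) : 0 ≤ E.nib.Yb (NState.init V E.k) i := by
  have hT := OData.T0 hE.dat
  have hk := OData.k_pos hE.dat
  have hT' : 0 < E.nib.T := hT
  have hk' : (0 : ℝ) < E.nib.k := hk
  unfold NibData.Yb
  rw [YbC_init, add_zero]
  refine mul_nonneg (by positivity) (mul_nonneg (by positivity) ?_)
  unfold NibData.YbU
  exact sum_nonneg fun z _ => sum_nonneg fun z' _ => nib_chi_nonneg hE z z'

theorem y0_le {u x : V} (h : E.rel u x) : E.y0 u x ≤ 1 / E.T ^ 785 :=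
  y0_bd hE h.2.2.2.2

theorem acc_zero {u x : V} (h : E.site u x) :
    E.acc 0 (fun u x => E.nib.Yb (NState.init V E.k) (Sum.inl (u, x))) u x = 0 := by
  unfold acc
  simp only [Yb_init hE h.1.2.2.2.2]
  simp

theorem accS_zero (x : V) :
    E.accS 0 (fun u x => E.nib.Yb (NState.init V E.k) (Sum.inl (u, x))) x = 0 := by
  unfold accS
  refine sum_eq_zero fun u _ => ?_
  split_ifs with h
  · rw [acc_zero hE h.1, mul_zero]
  · rfl

theorem inv_zero : E.SInv 0 (fun _ => none)
    (fun u x => E.nib.Yb (NState.init V E.k) (Sum.inl (u, x))) E.s0 where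
  Y_nonneg := fun u x => Yb_init_nonneg hE _
  acc_nonneg := fun u x h => (acc_zero hE h).ge
  X_symm := hE.inv.X_symm
  st_symm := hE.inv.st_symm
  off := fun u x _ => ⟨rfl, rfl⟩
  cases := hE.inv.cases
  dead0 := fun u x h => h
  fr_ne := hE.inv.fr_ne
  act0 := by
    rintro u x (h | h)
    · exact h
    · exact absurd h (hE.inv.no_asl u x)
  frYS := fun u x _ => rfl
  fr0 := fun u x _ => ⟨rfl, rfl⟩
  act_le := fun u x h _ => by
    rw [acc_zero hE h, Real.exp_zero, mul_one]
  asl_le := fun u x h _ => by
    rw [acc_zero hE h, Real.exp_zero, mul_one]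
    have h1 := s0_nonneg hE u x
    have h2 : (0 : ℝ) ≤ E.NN := Nat.cast_nonneg _
    nlinarith
  inj := by
    rintro u x _ _ _ z _ z' _ _ ⟨c, ⟨r, hr⟩, _⟩
    simp at hr
  e0 := by
    intro v c
    have h1 : ((E.N v).filter fun z => E.lv z = E.j ∧
        hasCol (fun _ : V => (none : Option (Fin E.k × ℕ))) z c) = ∅ := by
      rw [filter_eq_empty_iff]
      rintro z _ ⟨_, r, hr⟩
      simp at hr
    rw [h1]
    simp
  e5 := by
    intro u x u' x' _ _ _ _ _ _ _
    have h1 : E.coin (fun _ : V => (none : Option (Fin E.k × ℕ))) u x u' x' = 0 := by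
      unfold coin
      rw [Nat.cast_eq_zero, card_eq_zero, filter_eq_empty_iff]
      rintro e _ ⟨_, c, ⟨r, hr⟩, _⟩
      simp at hr
    rw [h1]
    simp
  ma := fun x _ => by simp
  la := fun x _ => by
    rw [accS_zero hE]
    simp
  om := fun x _ => by
    rw [accS_zero hE]
    simp
  gr := fun y y' _ _ _ _ => by simp
  nA := fun x _ => by
    unfold OData.nA
    have h1 : (univ.filter fun u => E.rel u x ∧ E.s0.st u x = .asl) = ∅ := by
      rw [filter_eq_empty_iff]
      rintro u _ ⟨_, h⟩
      exact hE.inv.no_asl u x h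
    rw [h1]
    simp
  nF := fun x _ => by simp

end

end OPart

end

end Pool.Agent.AcyK
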