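import Pool.Agent.AcyK.OPartA

/-! # Row OP2b: the state at the end of a part (project MP_af9dfb_K) -/

set_option autoImplicit false
set_option linter.unusedSectionVars false

namespace Pool.Agent.AcyK

open Finset
open Pool.Agent.Acy (IsPM wt Ex Pr mean)
open scoped Classical

universe u v w

section

variable {V : Type u} [Fintype V] [DecidableEq V]

namespace OPart

variable {E : OPart V} {C : V → Option (Fin E.k × ℕ)}

section
variable (hE : E.Ok C)
include hE

omit hE in
/-- Pairs inside part `j` or inside a later part. -/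
theorem prs_split (s : OState V) (u x : V) :
    ∑ e ∈ E.prs E.j u x, E.chi s e.1 e.2 = ∑ e ∈ E.prs (E.j + 1) u x, E.chi s e.1 e.2 +
      ∑ z ∈ E.A u x, ∑ z' ∈ (E.A u x).erase z, E.chi s z z' := by
  have h1 : ∑ z ∈ E.A u x, ∑ z' ∈ (E.A u x).erase z, E.chi s z z' =
      ∑ e ∈ (E.A u x ×ˢ E.A u x).filter (fun e => e.1 ≠ e.2), E.chi s e.1 e.2 := by
    rw [Finset.sum_filter, Finset.sum_product]
    refine Finset.sum_congr rfl fun z _ => ?_
    rw [← Finset.sum_filter]
    refine Finset.sum_congr ?_ fun _ _ => rfl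
    ext z'
    simp only [mem_erase, mem_filter]
    constructor
    · rintro ⟨h1, h2⟩
      exact ⟨h2, h1.symm⟩
    · rintro ⟨h1, h2⟩
      exact ⟨h2.symm, h1⟩
  rw [h1, ← Finset.sum_union]
  · refine Finset.sum_congr ?_ fun _ _ => rfl
    ext e
    simp only [OData.prs, OPart.A, OData.cj, mem_union, mem_filter, mem_product]
    constructor
    · rintro ⟨⟨h2, h3⟩, h4, h5, h6⟩
      rcases Nat.eq_or_lt_of_le h6 with h7 | h7
      · right
        exact ⟨⟨⟨h2, h7.symm⟩, h3, h5.symm.trans h7.symm⟩, h4⟩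
      · left
        exact ⟨⟨h2, h3⟩, h4, h5, h7⟩
    · rintro (⟨⟨h2, h3⟩, h4, h5, h6⟩ | ⟨⟨⟨h2, h3⟩, h4, h5⟩, h6⟩)
      · exact ⟨⟨h2, h3⟩, h4, h5, by omega⟩
      · exact ⟨⟨h2, h4⟩, h6, h3.trans h5.symm, h3.ge⟩
  · rw [Finset.disjoint_left]
    intro e he he'
    simp only [OData.prs, OPart.A, OData.cj, mem_filter, mem_product] at he he'
    have h2 := he.2.2.2
    have h3 := he'.1.1.2
    omega

/-- `Om_(j+1) = Om_j - dec`, `sum s0.X y0 = (1 + T^-5) dec`. -/
theorem om_dec {x : V} (hx : E.j < E.lv x) : E.Om E.s0 (E.j + 1) x = E.Om E.s0 E.j x -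
    1 / (1 + 1 / E.T ^ 5) * ∑ u, (if E.site u x ∧ E.s0.nf u x then E.s0.X u x * E.y0 u x
      else 0) := by
  have hT := hE.dat.big
  have h5 : 0 < 1 + 1 / E.T ^ 5 := by
    have := hT.pos
    positivity
  have h1 : ∀ u, (if E.rel u x ∧ E.s0.nf u x then
      E.s0.X u x * ∑ e ∈ E.prs E.j u x, E.chi E.s0 e.1 e.2 else 0) =
      (if E.rel u x ∧ E.s0.nf u x then
        E.s0.X u x * ∑ e ∈ E.prs (E.j + 1) u x, E.chi E.s0 e.1 e.2 else 0) +
      (if E.rel u x ∧ E.s0.nf u x then E.s0.X u x *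
        ∑ z ∈ E.A u x, ∑ z' ∈ (E.A u x).erase z, E.chi E.s0 z z' else 0) := by
    intro u
    split_ifs
    · rw [prs_split, mul_add]
    · rw [add_zero]
  have h2 : ∀ u, (if E.site u x ∧ E.s0.nf u x then E.s0.X u x * E.y0 u x else 0) =
      (1 + 1 / E.T ^ 5) * (2 / E.k * (if E.rel u x ∧ E.s0.nf u x then E.s0.X u x *
        ∑ z ∈ E.A u x, ∑ z' ∈ (E.A u x).erase z, E.chi E.s0 z z' else 0)) := by
    intro u
    have h3 : E.site u x ↔ E.rel u x := by
      constructor
      · intro h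
        exact h.1
      · intro h
        refine ⟨h, ?_⟩
        rw [pa_rel_lv h]
        exact hx
    simp only [h3]
    split_ifs
    · unfold OPart.y0
      ring
    · ring
  unfold OData.Om
  rw [Finset.sum_congr rfl fun u _ => h1 u, Finset.sum_congr rfl fun u _ => h2 u,
    Finset.sum_add_distrib, ← Finset.mul_sum, ← Finset.mul_sum, one_div_mul_eq_div,
    mul_div_cancel_left₀ _ h5.ne']
  ring

/-! Waking up. -/

omit hE in
theorem wake_st (s : OState V) (u x : V) :
    (OData.wake s).st u x = if s.st u x = .asl then .act else s.st u x := rfl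

omit hE in
theorem wake_nf (s : OState V) (u x : V) : (OData.wake s).nf u x ↔ s.nf u x := by
  unfold OState.nf
  rw [wake_st]
  cases s.st u x <;> simp

omit hE in
theorem wake_act {s : OState V} {u x : V} (h : (OData.wake s).st u x = .act) : s.nf u x := by
  rw [← wake_nf]
  exact Or.inl h

omit hE in
theorem wake_ne {s : OState V} {u x : V} (h : (OData.wake s).st u x ≠ .act) :
    s.st u x ≠ .act := by
  intro h'
  apply h
  rw [wake_st, h']
  simp

omit hE in
theorem wake_no_asl (s : OState V) (u x : V) : (OData.wake s).st u x ≠ .asl := by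
  rw [wake_st]
  cases s.st u x <;> simp

omit hE in
theorem wake_frY (s : OState V) (u x : V) :
    (OData.wake s).st u x = .frY ↔ s.st u x = .frY := by
  rw [wake_st]
  cases s.st u x <;> simp

omit hE in
theorem wake_frS (s : OState V) (u x : V) :
    (OData.wake s).st u x = .frS ↔ s.st u x = .frS := by
  rw [wake_st]
  cases s.st u x <;> simp

omit hE in
theorem wake_frO (s : OState V) (u x : V) :
    (OData.wake s).st u x = .frO ↔ s.st u x = .frO := by
  rw [wake_st]
  cases s.st u x <;> simp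

omit hE in
theorem wake_chi (s : OState V) (u x : V) : E.chi (OData.wake s) u x = E.chi s u x := by
  unfold OData.chi
  simp only [wake_nf]
  rfl

omit hE in
theorem wake_Om (s : OState V) (j : ℕ) (x : V) : E.Om (OData.wake s) j x = E.Om s j x := by
  unfold OData.Om
  simp only [wake_nf, wake_chi, wake_frY]
  rfl

/-! The end of the part. -/

theorem acc_last (Y : V → V → ℝ) (hY : ∀ u x, 0 ≤ Y u x) (u x : V) :
    E.acc E.M Y u x ≤ E.y0 u x + 1 / E.T ^ 850 := by
  unfold OPart.acc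
  have hT := hE.dat.big
  have h1 := OData.mM hE.dat (m := E.M) le_rfl
  have h2 : (E.M : ℝ) / E.T ^ 1000 ≤ 1 / E.T ^ 850 := by
    rw [div_le_div_iff₀ (pow_pos hT.pos _) (pow_pos hT.pos _), one_mul]
    calc (E.M : ℝ) * E.T ^ 850 ≤ E.T ^ 150 * E.T ^ 850 :=
          mul_le_mul_of_nonneg_right h1 (pow_nonneg hT.pos.le _)
      _ = E.T ^ 1000 := by rw [← pow_add]
  have h3 := hY u x
  linarith

theorem acc_last' (Y : V → V → ℝ) (hY : ∀ u x, 0 ≤ Y u x) {u x : V} (h : E.site u x) :
    E.acc E.M Y u x ≤ 1 / E.T ^ 784 := by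
  have hT := hE.dat.big
  have h1 := acc_last hE Y hY u x
  have h2 := y0_bd hE h.1.2.2.2.2
  have h3 : 1 / E.T ^ 850 ≤ 1 / E.T ^ 785 := hT.ipw (by norm_num)
  have h4 : 1 / E.T ^ 785 + 1 / E.T ^ 785 ≤ 1 / E.T ^ 784 := by
    rw [show (785 : ℕ) = 784 + 1 from rfl, pow_succ, ← two_mul, ← mul_div_assoc, mul_one,
      div_le_div_iff₀ (mul_pos (pow_pos hT.pos _) hT.pos) (pow_pos hT.pos _), one_mul, mul_comm]
    refine mul_le_mul_of_nonneg_left ?_ (pow_nonneg hT.pos.le _)
    have := hT.big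
    norm_num at this
    linarith
  linarith

theorem X_last {col : V → Option (Fin E.k × ℕ)} {Y : V → V → ℝ} {s : OState V}
    (h : E.SInv E.M col Y s) (u x : V) : s.X u x ≤ E.th ^ 2 := by
  have hT := hE.dat.big
  by_cases hs : E.site u x
  · by_cases ha : E.s0.st u x = .act
    · have h1 := h.asl_le u x hs ha
      have h2 := hE.inv.act_le u x hs.1 hs.2.le ha
      have h3 := acc_last' hE Y h.Y_nonneg hs
      have h4 := h.acc_nonneg u x hs
      have h5 : E.acc E.M Y u x ≤ 1 / 1000000 := h3.trans (hT.small (by norm_num))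
      have h6 : Real.exp (E.acc E.M Y u x) ≤ 1 + 2 * (1 / E.T ^ 784) := by
        have h7 := Real.abs_exp_sub_one_le (x := E.acc E.M Y u x) (by
          rw [abs_of_nonneg h4]
          linarith)
        rw [abs_of_nonneg h4] at h7
        have h8 := le_abs_self (Real.exp (E.acc E.M Y u x) - 1)
        linarith
      have h7 := hE.dat.NN_le
      have h8 := OData.th_ge hE.dat
      have h9 := pa_th_sq_le hE
      have h10 : E.th ≤ E.T := by nlinarith
      have h11 : Real.exp (E.acc E.M Y u x) * (2 * E.NN + 3) ≤ E.th := by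
        calc Real.exp (E.acc E.M Y u x) * (2 * E.NN + 3)
            ≤ (1 + 2 * (1 / E.T ^ 784)) * (2 * E.NN + 3) :=
              mul_le_mul_of_nonneg_right h6 (by positivity)
          _ = 2 * E.NN + 3 + 2 * ((2 * E.NN + 3) * (1 / E.T ^ 784)) := by ring
          _ ≤ 2 * E.NN + 3 + 2 * (E.T * (1 / E.T ^ 784)) := by
              have := hT.pos
              have h12 : (2 * (E.NN : ℝ) + 3) * (1 / E.T ^ 784) ≤ E.T * (1 / E.T ^ 784) :=
                mul_le_mul_of_nonneg_right (by linarith) (by positivity)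
              linarith
          _ = 2 * E.NN + 3 + 2 * (1 / E.T ^ 783) := by
              have h13 : E.T * (1 / E.T ^ 784) = 1 / E.T ^ 783 := by
                have := hT.pos
                rw [show (784 : ℕ) = 783 + 1 from rfl, pow_succ]
                field_simp
              rw [h13]
          _ ≤ E.th := by
              have h14 := hT.small (n := 783) (by norm_num)
              linarith
      calc s.X u x ≤ E.s0.X u x * Real.exp (E.acc E.M Y u x) * (2 * E.NN + 3) := h1
        _ = E.s0.X u x * (Real.exp (E.acc E.M Y u x) * (2 * E.NN + 3)) := by ring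
        _ ≤ E.th * E.th :=
            mul_le_mul h2 h11 (by positivity) (by linarith)
        _ = E.th ^ 2 := by ring
    · rw [(h.fr0 u x ha).1]
      exact hE.inv.X_le u x
  · rw [(h.off u x hs).1]
    exact hE.inv.X_le u x

theorem inj_last {col : V → Option (Fin E.k × ℕ)} {Y : V → V → ℝ} {s : OState V}
    (h : E.SInv E.M col Y s) (u x : V) (hr : E.rel u x) (hst : (OData.wake s).st u x = .act)
    (h0 : s.X u x ≠ 0) (z : V) (hz : z ∈ cN E.N u x) (z' : V) (hz' : z' ∈ cN E.N u x)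
    (hne : z ≠ z') (hl : E.lv z = E.lv z') (hj : E.lv z < E.j + 1) (hu : E.lv z < E.lv u) :
    ¬ sameCol (E.addCol C E.j col) z z' := by
  have hnf := wake_act hst
  rintro ⟨c, ⟨r, hr1⟩, r', hr2⟩
  unfold OData.addCol at hr1 hr2
  by_cases hzj : E.lv z = E.j
  · rw [if_pos hzj] at hr1
    rw [if_pos (hl.symm.trans hzj)] at hr2
    exact h.inj u x ⟨hr, by omega⟩ hnf h0 z (mem_filter.2 ⟨hz, hzj⟩) z'
      (mem_filter.2 ⟨hz', hl.symm.trans hzj⟩) hne ⟨c, ⟨r, hr1⟩, r', hr2⟩
  · rw [if_neg hzj] at hr1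
    rw [if_neg (by omega)] at hr2
    refine hE.inv.inj u x hr (h.act0 u x hnf) ?_ z hz z' hz' hne hl (by omega) hu
      ⟨c, ⟨r, hr1⟩, r', hr2⟩
    intro h1
    exact h0 (h.dead0 u x h1)

theorem ma_last {col : V → Option (Fin E.k × ℕ)} {Y : V → V → ℝ} {s : OState V}
    (h : E.SInv E.M col Y s) (x : V) (hx : E.j + 1 ≤ E.lv x) :
    |E.Ma s x| ≤ (E.j + 1 : ℕ) * E.T ^ 2584 := by
  have hT := hE.dat.big
  have h1 := h.ma x hx
  have h2 := hE.inv.ma x (by omega)
  have h3 : (E.M : ℝ) * E.T ^ 2433 ≤ E.T ^ 2584 := by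
    calc (E.M : ℝ) * E.T ^ 2433 ≤ E.T ^ 150 * E.T ^ 2433 :=
          mul_le_mul_of_nonneg_right (OData.mM hE.dat le_rfl) (pow_nonneg hT.pos.le _)
      _ = E.T ^ 2583 := by rw [← pow_add]
      _ ≤ E.T ^ 2584 := hT.pw (by norm_num)
  have h4 : |E.Ma s x| ≤ |E.Ma s x - E.Ma E.s0 x| + |E.Ma E.s0 x| := by
    have := abs_add_le (E.Ma s x - E.Ma E.s0 x) (E.Ma E.s0 x)
    rwa [sub_add_cancel] at this
  push_cast
  rw [add_mul, one_mul]
  linarith

theorem gr_last {col : V → Option (Fin E.k × ℕ)} {Y : V → V → ℝ} {s : OState V}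
    (h : E.SInv E.M col Y s) (y y' : V) (hy : E.j + 1 ≤ E.lv y) (hyy : E.lv y = E.lv y')
    (hne : y ≠ y') (hc : E.cod y y' ≤ E.T ^ 3000) : |E.Gr s y y'| ≤
      ((cN E.N y y').filter fun z => E.lv z < E.j + 1).card * E.T ^ 429 +
        (E.j + 1 : ℕ) * E.T ^ 2584 := by
  have hT := hE.dat.big
  have h1 := h.gr y y' hy hyy hne hc
  have h2 := hE.inv.gr y y' (by omega) hyy hne hc
  have hM := OData.mM hE.dat (m := E.M) le_rfl
  have h3 : (E.M : ℝ) * ((E.A y y').card * E.T ^ 279 + E.T ^ 2433) ≤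
      (E.A y y').card * E.T ^ 429 + E.T ^ 2584 := by
    calc (E.M : ℝ) * ((E.A y y').card * E.T ^ 279 + E.T ^ 2433) ≤
          E.T ^ 150 * ((E.A y y').card * E.T ^ 279 + E.T ^ 2433) := by
          refine mul_le_mul_of_nonneg_right hM ?_
          have := hT.pos
          positivity
      _ = (E.A y y').card * (E.T ^ 150 * E.T ^ 279) + E.T ^ 150 * E.T ^ 2433 := by ring
      _ = (E.A y y').card * E.T ^ 429 + E.T ^ 2583 := by rw [← pow_add, ← pow_add]
      _ ≤ (E.A y y').card * E.T ^ 429 + E.T ^ 2584 := by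
          have := hT.pw (a := 2583) (b := 2584) (by norm_num)
          linarith
  have h4 : |E.Gr s y y'| ≤ |E.Gr s y y' - E.Gr E.s0 y y'| + |E.Gr E.s0 y y'| := by
    have := abs_add_le (E.Gr s y y' - E.Gr E.s0 y y') (E.Gr E.s0 y y')
    rwa [sub_add_cancel] at this
  have h5 : (((cN E.N y y').filter fun z => E.lv z < E.j + 1).card : ℝ) =
      ((cN E.N y y').filter fun z => E.lv z < E.j).card + (E.A y y').card := by
    have h6 : (cN E.N y y').filter (fun z => E.lv z < E.j + 1) =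
        (cN E.N y y').filter (fun z => E.lv z < E.j) ∪ E.A y y' := by
      ext z
      simp only [OPart.A, OData.cj, mem_union, mem_filter]
      constructor
      · rintro ⟨h7, h8⟩
        rcases Nat.lt_succ_iff_lt_or_eq.1 h8 with h9 | h9
        · exact Or.inl ⟨h7, h9⟩
        · exact Or.inr ⟨h7, h9⟩
      · rintro (⟨h7, h8⟩ | ⟨h7, h8⟩)
        · exact ⟨h7, by omega⟩
        · exact ⟨h7, by omega⟩
    rw [h6, Finset.card_union_of_disjoint]
    · push_cast
      ring
    · rw [Finset.disjoint_left]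
      intro z hz hz'
      have h7 := (mem_filter.1 hz).2
      have h8 : E.lv z = E.j := (mem_filter.1 hz').2
      omega
  rw [h5]
  push_cast
  rw [add_mul, add_mul, one_mul]
  linarith

theorem nF_last {col : V → Option (Fin E.k × ℕ)} {Y : V → V → ℝ} {s : OState V}
    (h : E.SInv E.M col Y s) (x : V) (hx : E.j + 1 ≤ E.lv x) :
    E.nF (OData.wake s) x ≤ (E.j + 1 : ℕ) * E.T ^ 3121 := by
  have hT := hE.dat.big
  have h1 := h.nF x hx
  have h2 := hE.inv.nF x (by omega)
  have h3 : (E.M : ℝ) * E.T ^ 2971 ≤ E.T ^ 3121 := by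
    calc (E.M : ℝ) * E.T ^ 2971 ≤ E.T ^ 150 * E.T ^ 2971 :=
          mul_le_mul_of_nonneg_right (OData.mM hE.dat le_rfl) (pow_nonneg hT.pos.le _)
      _ = E.T ^ 3121 := by rw [← pow_add]
  have h4 : E.nF (OData.wake s) x = E.nF s x := by
    unfold OData.nF
    simp only [wake_frO]
  rw [h4]
  push_cast
  rw [add_mul, one_mul]
  linarith

theorem accS_le (Y : V → V → ℝ) (hY : ∀ u x, 0 ≤ Y u x) (x : V) :
    E.accS E.M Y x ≤ (∑ u, (if E.site u x ∧ E.s0.nf u x then E.s0.X u x * E.y0 u x else 0)) +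
      E.T ^ 3167 := by
  have hT := hE.dat.big
  unfold OPart.accS
  have h1 : ∀ u, (if E.site u x ∧ E.s0.nf u x then E.s0.X u x * E.acc E.M Y u x else 0) ≤
      (if E.site u x ∧ E.s0.nf u x then E.s0.X u x * E.y0 u x else 0) +
        (if E.rel u x then 1 else 0) * (E.T * (1 / E.T ^ 850)) := by
    intro u
    split_ifs with h2 h3 h3
    · have h4 := acc_last hE Y hY u x
      have h5 := s0_nonneg hE u x
      have h6 := mul_le_mul_of_nonneg_left h4 h5
      have h7 : E.s0.X u x * (1 / E.T ^ 850) ≤ E.T * (1 / E.T ^ 850) := by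
        have := hT.pos
        exact mul_le_mul_of_nonneg_right ((hE.inv.X_le u x).trans (pa_th_sq_le hE))
          (by positivity)
      rw [mul_add] at h6
      linarith
    · exact absurd h2.1.1 h3
    · have := hT.pos
      positivity
    · simp
  refine (Finset.sum_le_sum fun u _ => h1 u).trans ?_
  rw [Finset.sum_add_distrib, ← Finset.sum_mul, Finset.sum_boole]
  have h2 := OData.rel_card hE.dat x
  have h3 : ((univ.filter fun u => E.rel u x).card : ℝ) * (E.T * (1 / E.T ^ 850)) ≤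
      E.T ^ 3167 := by
    calc ((univ.filter fun u => E.rel u x).card : ℝ) * (E.T * (1 / E.T ^ 850)) ≤
          E.T ^ 4016 * (E.T * (1 / E.T ^ 850)) := by
          have := hT.pos
          exact mul_le_mul_of_nonneg_right h2 (by positivity)
      _ = E.T ^ 3167 := by
          have := hT.pos
          have h4 : E.T ^ 4016 * E.T = E.T ^ 3167 * E.T ^ 850 := by
            rw [← pow_succ, ← pow_add]
          have h5 : E.T ^ 4016 * (E.T * (1 / E.T ^ 850)) = E.T ^ 4016 * E.T / E.T ^ 850 := by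
            ring
          rw [h5, h4, mul_div_assoc, div_self (pow_pos this _).ne', mul_one]
  linarith

theorem la_last {col : V → Option (Fin E.k × ℕ)} {Y : V → V → ℝ} {s : OState V}
    (h : E.SInv E.M col Y s) (x : V) (hx : E.j + 1 ≤ E.lv x) :
    E.La s x + 12 / 10 * E.tau * E.Om s (E.j + 1) x ≤ E.Bd (E.j + 1) := by
  have hT := hE.dat.big
  have h1 := h.la x hx
  have h2 := h.om x hx
  have h3 := hE.inv.la x (by omega)
  have h4 := om_dec hE (x := x) hx
  have h5 := accS_le hE Y h.Y_nonneg x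
  have htau := OData.tau_ge hE.dat
  have htau' := OData.tau_le hE.dat
  have hM := OData.mM hE.dat (m := E.M) le_rfl
  set S := ∑ u, (if E.site u x ∧ E.s0.nf u x then E.s0.X u x * E.y0 u x else 0) with hS
  have hS0 : 0 ≤ S := by
    refine Finset.sum_nonneg fun u _ => ?_
    split_ifs
    · exact mul_nonneg (s0_nonneg hE u x) (y0_nonneg hE u x)
    · exact le_rfl
  have h6 : 1138 / 1000 * S ≤ 12 / 10 * (1 / (1 + 1 / E.T ^ 5) * S) := by
    have h7 := hT.small (n := 5) (by norm_num)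
    have h8 : 1138 / 1200 ≤ 1 / (1 + 1 / E.T ^ 5) := by
      have := hT.pos
      rw [le_div_iff₀ (by positivity)]
      linarith
    have h9 := mul_le_mul_of_nonneg_right h8 hS0
    linarith
  have hMa : (E.M : ℝ) * E.T ^ 2434 ≤ E.T ^ 2584 := by
    calc (E.M : ℝ) * E.T ^ 2434 ≤ E.T ^ 150 * E.T ^ 2434 :=
          mul_le_mul_of_nonneg_right hM (pow_nonneg hT.pos.le _)
      _ = E.T ^ 2584 := by rw [← pow_add]
  have hMb : (E.M : ℝ) * E.T ^ 3036 ≤ E.T ^ 3186 := by
    calc (E.M : ℝ) * E.T ^ 3036 ≤ E.T ^ 150 * E.T ^ 3036 :=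
          mul_le_mul_of_nonneg_right hM (pow_nonneg hT.pos.le _)
      _ = E.T ^ 3186 := by rw [← pow_add]
  have hR : E.T ^ 2584 + 2 * (E.T * (E.T ^ 3167 + E.T ^ 3186)) ≤ E.T ^ 3189 := by
    have p0 : (0 : ℝ) ≤ E.T ^ 3188 := pow_nonneg hT.pos.le _
    have p1 : E.T ^ 2584 ≤ E.T ^ 3188 := hT.pw (by norm_num)
    have p2 : E.T * E.T ^ 3167 ≤ E.T ^ 3188 := by
      rw [← pow_succ']
      exact hT.pw (by norm_num)
    have p3 : E.T * E.T ^ 3186 ≤ E.T ^ 3188 := by
      rw [← pow_succ']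
      exact hT.pw (by norm_num)
    have p4 : 5 * E.T ^ 3188 ≤ E.T ^ 3189 := by
      rw [pow_succ' _ 3188]
      refine mul_le_mul_of_nonneg_right ?_ p0
      have := hT.big
      norm_num at this
      linarith
    calc E.T ^ 2584 + 2 * (E.T * (E.T ^ 3167 + E.T ^ 3186)) =
          E.T ^ 2584 + 2 * (E.T * E.T ^ 3167 + E.T * E.T ^ 3186) := by ring
      _ ≤ 5 * E.T ^ 3188 := by linarith
      _ ≤ E.T ^ 3189 := p4
  unfold OData.Bd at h3 ⊢
  set A := E.accS E.M Y x with hA
  have hP : (0 : ℝ) ≤ E.T ^ 3167 := pow_nonneg hT.pos.le _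
  have hQ : (0 : ℝ) ≤ E.T ^ 3186 := pow_nonneg hT.pos.le _
  have h10 : 12 / 10 * E.tau * E.Om s (E.j + 1) x ≤ 12 / 10 * E.tau * (E.Om E.s0 E.j x -
      1 / (1 + 1 / E.T ^ 5) * S + 9 / 100 * A + E.T ^ 3186) := by
    refine mul_le_mul_of_nonneg_left ?_ (by positivity)
    linarith
  have h11 : E.tau * (1138 / 1000 * A - 12 / 10 * (1 / (1 + 1 / E.T ^ 5) * S)) ≤
      E.tau * (1138 / 1000 * E.T ^ 3167) := by
    refine mul_le_mul_of_nonneg_left ?_ (by linarith)
    linarith
  have h12 : E.tau * (1138 / 1000 * E.T ^ 3167 + 12 / 10 * E.T ^ 3186) ≤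
      2 * (E.T * (E.T ^ 3167 + E.T ^ 3186)) := by
    calc E.tau * (1138 / 1000 * E.T ^ 3167 + 12 / 10 * E.T ^ 3186) ≤
          E.T * (2 * (E.T ^ 3167 + E.T ^ 3186)) :=
          mul_le_mul htau' (by linarith) (by linarith) hT.pos.le
      _ = _ := by ring
  push_cast
  rw [add_mul (E.j : ℝ), one_mul]
  generalize (E.j : ℝ) * E.T ^ 3189 = z1 at *
  generalize (E.M : ℝ) * E.T ^ 2434 = z2 at *
  generalize E.T ^ 3189 = z3 at *
  generalize E.T ^ 3167 = z4 at *
  generalize E.T ^ 3186 = z5 at *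
  generalize E.T ^ 2584 = z6 at *
  generalize 1 / (1 + 1 / E.T ^ 5) * S = z7 at *
  nlinarith

theorem inv_last {col : V → Option (Fin E.k × ℕ)} {Y : V → V → ℝ} {s : OState V}
    (h : E.SInv E.M col Y s) :
    E.PInv (OData.wake s) (E.j + 1) (E.addCol C E.j col) where
  X_symm := h.X_symm
  st_symm := by
    intro u x
    rw [wake_st, wake_st, h.st_symm]
  cases := h.cases
  X_le := by
    intro u x
    exact X_last hE h u x
  no_asl := wake_no_asl s
  frS_ge := by
    intro u x hs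
    rw [wake_frS] at hs
    have h1 := h.frYS u x (Or.inr hs)
    rw [hs] at h1
    have h2 := h.fr0 u x (by rw [h1]; simp)
    show E.th ≤ s.X u x
    rw [h2.1]
    exact hE.inv.frS_ge u x h1
  fr_ne := by
    intro u x hs
    exact h.fr_ne u x (wake_ne hs)
  inj := by
    intro u x hr hst h0
    exact inj_last hE h u x hr hst h0
  ma := by
    intro x hx
    exact ma_last hE h x hx
  la := by
    intro x hx
    rw [wake_Om]
    exact la_last hE h x hx
  gr := by
    intro y y' hy hyy hne hc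
    exact gr_last hE h y y' hy hyy hne hc
  nF := nF_last hE h

end

end OPart

end

end Pool.Agent.AcyK
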