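import Pool.Agent.AcyK.ORound
import Pool.Agent.AcyK.OAux
import Pool.Agent.AcyK.OPartA
import Pool.Agent.AcyK.OPartB
import Pool.Agent.AcyK.OPartB2
import Pool.Agent.AcyK.OPartC
import Pool.Agent.AcyK.DBase
import Pool.Agent.AcyK.Iter

/-! # The outer process along the semi-random colouring of one part (row OP4) -/

set_option autoImplicit false
set_option linter.unusedSectionVars false

namespace Pool.Agent.AcyK

open Finset
open Pool.Agent.Acy (IsPM wt Ex Pr mean)
open scoped Classical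

universe u v w

section

variable {V : Type u} [Fintype V] [DecidableEq V]

theorem LocOK.ofTrue {Q : Type u} [Fintype Q] [DecidableEq Q] {α : Type*} [Fintype α] (e : ℕ)
    {T : ℝ} (hT : Big T) (μ : Q → α → ℝ) : LocOK e T μ (fun _ => True) := by
  have hT0 := hT.pos
  refine ⟨PEmpty, inferInstance, fun b => b.elim, fun b => b.elim, fun b => b.elim,
    fun b => b.elim, fun b => b.elim, fun i => ?_, fun _ _ => trivial⟩
  have : (univ.filter fun b : PEmpty => i ∈ (b.elim : Finset Q)) = ∅ := by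
    ext b
    exact b.elim
  rw [this, Finset.card_empty, Nat.cast_zero]
  positivity

namespace OPart

variable {E : OPart V} {C : V → Option (Fin E.k × ℕ)}

/-- The data of a round. -/
def toRd (E : OPart V) (m : ℕ) (col : V → Option (Fin E.k × ℕ)) (Y : (V × V) ⊕ V → ℝ)
    (s : OState V) (lam : V → Option Bool) (p : V → Fin E.k → ℝ) : ORd V :=
  { E with m := m, col := col, Y := fun u x => Y (Sum.inl (u, x)), s := s, lam := lam, p := p }

theorem toRd_ok (hE : E.Ok C) {m : ℕ} (hm : m < E.M) {col : V → Option (Fin E.k × ℕ)}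
    {Y : (V × V) ⊕ V → ℝ} {s : OState V} {lam : V → Option Bool} {p : V → Fin E.k → ℝ}
    (hI : E.SInv m col (fun u x => Y (Sum.inl (u, x))) s)
    (h9 : ∀ b i, |((E.nib.A i ∩ Sel col lam b).card : ℝ) -
      E.nib.t m * (E.nib.A i ∩ Un col).card| ≤ E.nib.T ^ 1502)
    (h10 : ∀ b i, ((E.nib.A i).card : ℝ) ≤ E.nib.T ^ 1603 →
      |((E.nib.A i ∩ Sel col lam b).card : ℝ) - E.nib.t m * (E.nib.A i ∩ Un col).card| ≤
        E.nib.T ^ 805)
    (hp : IsPM p) (hpl : ∀ u c, p u c ≤ 2 * E.nib.T / E.nib.k)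
    (hsep : ∀ z c, lam z = some true → 0 < p z c → ∀ u r, col u = some (c, r) →
      E.nib.K u z ≠ -1 ∧ E.nib.h u z ≤ 1) :
    (E.toRd m col Y s lam p).Ok C := by
  have hT := hE.dat.big
  have hT0 := hT.pos
  have hT1 := hT.one_le
  have hTb := hT.big
  have hnib := nib_ok hE
  have ht0 : 0 < E.nib.t m := NibData.t_pos hnib hm.le
  have ht1 : E.nib.t m ≤ 1 / E.T ^ 133 := NibData.t_le hnib hm.le
  refine ⟨hE, hm, hI, ?_, ?_, hp, hpl, hsep⟩
  · intro v
    show (((Sel col lam true).filter fun z => z ∈ E.N v ∧ E.lv z = E.j).card : ℝ) ≤ E.T ^ 2668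
    have h1 := h9 true (Sum.inr v)
    have h2 : E.nib.A (Sum.inr v) = (E.N v).filter fun z => E.lv z = E.j := rfl
    have h3 := OData.b1 hE.dat v E.j
    have h4 : ((E.nib.A (Sum.inr v) ∩ Un col).card : ℝ) ≤ 3 * E.T ^ 2800 := by
      have h5 : (E.nib.A (Sum.inr v) ∩ Un col).card ≤ (E.nib.A (Sum.inr v)).card :=
        Finset.card_le_card inter_subset_left
      have h6 : ((E.nib.A (Sum.inr v) ∩ Un col).card : ℝ) ≤ ((E.nib.A (Sum.inr v)).card : ℝ) := by
        exact_mod_cast h5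
      rw [h2] at h6 ⊢
      exact h6.trans h3
    have h5 : (Sel col lam true).filter (fun z => z ∈ E.N v ∧ E.lv z = E.j) =
        E.nib.A (Sum.inr v) ∩ Sel col lam true := by
      rw [h2]
      ext z
      simp only [mem_filter, mem_inter]
      tauto
    rw [h5]
    have h6 := (abs_le.1 h1).2
    have h7 : E.nib.t m * ((E.nib.A (Sum.inr v) ∩ Un col).card : ℝ) ≤
        1 / E.T ^ 133 * (3 * E.T ^ 2800) :=
      mul_le_mul ht1 h4 (Nat.cast_nonneg _) (by positivity)
    have h8 : 1 / E.T ^ 133 * (3 * E.T ^ 2800) = 3 * E.T ^ 2667 := by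
      rw [show (2800 : ℕ) = 133 + 2667 from rfl, pow_add]
      field_simp
    have h11 : E.T ^ 2668 = E.T ^ 2667 * E.T := pow_succ _ _
    have h12 : E.T ^ 1502 ≤ E.T ^ 2667 := hT.pw (by norm_num)
    have h13 := pow_pos hT0 2667
    have h14 : E.nib.T = E.T := rfl
    rw [h14] at h6
    rw [h11]
    nlinarith
  · intro u x hux
    show ((E.A u x ∩ Sel col lam true).card : ℝ) ≤ E.T ^ 1471
    have hux' : E.cod u x ≤ E.am := hux
    have h2 : E.nib.A (Sum.inl (u, x)) = E.A u x := by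
      show (if E.cod u x ≤ E.am then E.A u x else ∅) = _
      rw [if_pos hux']
    have h3 : ((E.A u x).card : ℝ) ≤ E.T ^ 1603 :=
      OData.b2 hE.dat (hux'.trans hE.dat.am_hi) E.j
    have h1 := h10 true (Sum.inl (u, x)) (by rw [h2]; exact h3)
    rw [h2] at h1
    have h4 : ((E.A u x ∩ Un col).card : ℝ) ≤ E.T ^ 1603 := by
      have h5 : (E.A u x ∩ Un col).card ≤ (E.A u x).card :=
        Finset.card_le_card inter_subset_left
      have h6 : ((E.A u x ∩ Un col).card : ℝ) ≤ ((E.A u x).card : ℝ) := by exact_mod_cast h5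
      exact h6.trans h3
    have h6 := (abs_le.1 h1).2
    have h7 : E.nib.t m * ((E.A u x ∩ Un col).card : ℝ) ≤ 1 / E.T ^ 133 * E.T ^ 1603 :=
      mul_le_mul ht1 h4 (Nat.cast_nonneg _) (by positivity)
    have h8 : 1 / E.T ^ 133 * E.T ^ 1603 = E.T ^ 1470 := by
      rw [show (1603 : ℕ) = 133 + 1470 from rfl, pow_add]
      field_simp
    have h11 : E.T ^ 1471 = E.T ^ 1470 * E.T := pow_succ _ _
    have h12 : E.T ^ 805 ≤ E.T ^ 1470 := hT.pw (by norm_num)
    have h13 := pow_pos hT0 1470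
    have h14 : E.nib.T = E.T := rfl
    rw [h14] at h6
    rw [h11]
    nlinarith

theorem aux_outer (hE : E.Ok C) : AuxLoc 20010 E.nib
    (fun m col Y (s : OState V) => E.SInv m col (fun u x => Y (Sum.inl (u, x))) s) := by
  intro m hm col Y s hI _
  have hT := hE.dat.big
  refine ⟨fun _ => True, LocOK.ofTrue _ hT _, fun lam _ h9 h10 p hp hpl hsep => ?_⟩
  have hF := toRd_ok hE hm hI h9 h10 hp hpl hsep
  refine ⟨Fin E.k × (V → Option (Fin (E.NN + 1))), inferInstance,
    (E.toRd m col Y s lam p).nu, fun ω => (E.toRd m col Y s lam p).next ω,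
    ORd.nu_isPM hF, ?_⟩
  refine LocOK.imp (ORd.good_loc hF) fun ω hG Y' hY0 hY => ?_
  refine ORd.inv_next hF ω hG (Y' := fun u x => Y' (Sum.inl (u, x))) (fun u x => hY0 _)
    fun u x hs => ?_
  have hcod : E.cod u x ≤ E.am := hs.1.2.2.2.2
  have h2 : E.nib.A (Sum.inl (u, x)) = E.A u x := by
    show (if E.cod u x ≤ E.am then E.A u x else ∅) = _
    rw [if_pos hcod]
  have h3 : ((E.A u x).card : ℝ) ≤ E.T ^ 1603 :=
    OData.b2 hE.dat (hcod.trans hE.dat.am_hi) E.j
  have h4 := hY (Sum.inl (u, x)) (by rw [h2]; exact h3)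
  have h5 : E.nib.Hz lam p col (Sum.inl (u, x)) = (E.toRd m col Y s lam p).H u x := by
    unfold NibData.Hz ORd.H
    rw [h2]
    rfl
  rw [h5] at h4
  exact h4

theorem run_part (hE : E.Ok C) {σ : Type v} {e : ℕ} (he : 20010 ≤ e) (he' : e < 60000)
    (X : ℕ → (V → Option (Fin E.k × ℕ)) → ((V × V) ⊕ V → ℝ) → σ → Prop)
    (hX : AuxLoc e E.nib X) (s₀ : σ)
    (h0 : X 0 (fun _ => none) (E.nib.Yb (NState.init V E.k)) s₀) :
    ∃ (col : V → Option (Fin E.k × ℕ)) (Y : (V × V) ⊕ V → ℝ) (s : OState V) (t : σ),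
      X E.M col Y t ∧ E.PInv s (E.j + 1) (E.addCol C E.j col) ∧
      (∀ v x c r r', E.lv v = E.j → E.lv x = E.j → v ≠ x → col v = some (c, r) →
        col x = some (c, r') → r ≠ r' → ¬ E.spe v x ∧
        (E.rel v x → ∀ z ∈ cN E.N v x, ∀ z' ∈ cN E.N v x, z ≠ z' → E.lv z = E.lv z' →
          E.lv z < E.j → ¬ sameCol C z z')) ∧
      (∀ v, (((E.N v).filter fun z => E.lv z = E.j ∧ col z = none).card : ℝ) ≤
        ((E.q : ℝ) - E.M) / E.q * (3 * E.T ^ 2800) + E.T ^ 1652) := by
  have hT := hE.dat.big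
  have hT0 := hT.pos
  have hT1 := hT.one_le
  have hnib := nib_ok hE
  have hAux := AuxLoc.and (D := E.nib) hT he' (AuxLoc.mono hT he (aux_outer hE)) hX
  obtain ⟨col, Y, ⟨s, t⟩, ⟨hS, hXt⟩, hcol, hcard⟩ := NibData.nibble hnib _ hAux (E.s0, s₀)
    ⟨inv_zero hE, h0⟩
  refine ⟨col, Y, OData.wake s, t, hXt, inv_last hE hS, ?_, ?_⟩
  · intro v x c r r' hv hx hne hcv hcx hr
    have key : E.nib.K v x ≠ -1 ∧ E.nib.h v x ≤ 1 := by
      rcases lt_or_gt_of_ne hr with h | h
      · exact hcol v x c r r' hcv hcx h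
      · have h1 := hcol x v c r' r hcx hcv h
        rw [hnib.K_symm v x, hnib.h_symm v x]
        exact h1
    obtain ⟨hK, hh⟩ := key
    have hK' : E.K E.s0 v x ≠ -1 := by
      intro h
      apply hK
      show (if E.lv v = E.j then E.K E.s0 v x else 0) = -1
      rw [if_pos hv, h]
    have hh' : E.hz E.s0 v x ≤ 1 := by
      have h1 : E.nib.h v x = E.hz E.s0 v x := by
        show (if E.lv v = E.j then E.hz E.s0 v x else 0) = _
        rw [if_pos hv]
      rw [← h1]
      exact hh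
    have hns : ¬ E.spe v x := by
      intro h
      unfold OData.hz at hh'
      rw [if_pos h] at hh'
      norm_num at hh'
    refine ⟨hns, fun hrel z hz z' hz' hzz hlv hlt => ?_⟩
    have hX0 : E.s0.X v x ≠ 0 := by
      intro h
      apply hK'
      unfold OData.K
      rw [if_pos hrel, h]
      ring
    have hst : E.s0.st v x = .act := by
      by_contra h
      unfold OData.hz at hh'
      rw [if_neg hns, if_pos hrel, if_neg hX0, if_neg h] at hh'
      norm_num at hh'
    exact hE.inv.inj v x hrel hst hX0 z hz z' hz' hzz hlv hlt (by rw [hv]; exact hlt)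
  · intro v
    have h1 := hcard (Sum.inr v)
    have h2 : E.nib.A (Sum.inr v) = (E.N v).filter fun z => E.lv z = E.j := rfl
    have h3 := OData.b1 hE.dat v E.j
    have hMq : (E.M : ℝ) + E.T ^ 133 ≤ E.q := hE.dat.M_le
    have hp133 := pow_pos hT0 133
    have hM0 : (0 : ℝ) ≤ E.M := Nat.cast_nonneg _
    have h4 : (0 : ℝ) ≤ ((E.q : ℝ) - E.M) / E.q := by
      apply div_nonneg
      · linarith
      · exact Nat.cast_nonneg _
    have h5 : (E.M : ℝ) * E.T ^ 1502 ≤ E.T ^ 1652 := by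
      have h6 := OData.mM hE.dat (le_refl E.M)
      calc (E.M : ℝ) * E.T ^ 1502 ≤ E.T ^ 150 * E.T ^ 1502 := by gcongr
        _ = E.T ^ 1652 := by rw [← pow_add]
    have h6 : (E.N v).filter (fun z => E.lv z = E.j ∧ col z = none) =
        E.nib.A (Sum.inr v) ∩ Un col := by
      rw [h2]
      ext z
      simp only [mem_filter, mem_inter, Un, mem_univ, true_and]
      tauto
    refine (le_of_eq (congrArg (fun s : Finset V => (s.card : ℝ)) h6)).trans (h1.trans ?_)
    have h7 : ((E.nib.q : ℝ) - E.nib.M) / E.nib.q * ((E.nib.A (Sum.inr v)).card : ℝ) ≤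
        ((E.q : ℝ) - E.M) / E.q * (3 * E.T ^ 2800) := by
      apply mul_le_mul_of_nonneg_left _ h4
      rw [h2]
      exact h3
    have h8 : (E.nib.M : ℝ) * E.nib.T ^ 1502 ≤ E.T ^ 1652 := h5
    linarith

end OPart

end

end Pool.Agent.AcyK
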