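import Pool.Agent.AcyK.OBas
import Pool.Agent.AcyK.OLaw
import Pool.Agent.AcyK.DKind

/-! # Counts with two conditions at different coordinates; real and virtual picks -/

set_option autoImplicit false
set_option linter.unusedSectionVars false

namespace Pool.Agent.AcyK

open Finset
open Pool.Agent.Acy (IsPM wt Ex Pr mean cnt ext Holds)
open scoped Classical

universe u v

section

variable {Q : Type u} [Fintype Q] [DecidableEq Q] {α : Type*} [Fintype α] [DecidableEq α]

/-- Weights of configurations with two conditions. -/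
noncomputable def w2 (g : Q → α → Q → α → ℝ) (U : (Q × α) × (Q × α)) : ℝ :=
  if U.1.1 = U.2.1 then 0 else g U.1.1 U.1.2 U.2.1 U.2.2

theorem w2_nonneg {g : Q → α → Q → α → ℝ} (hg : ∀ y c y' c', 0 ≤ g y c y' c')
    (U : (Q × α) × (Q × α)) : 0 ≤ w2 g U := by
  unfold w2
  split_ifs
  · exact le_rfl
  · exact hg _ _ _ _

theorem w2_le {g : Q → α → Q → α → ℝ} (hg : ∀ y c y' c', 0 ≤ g y c y' c')
    (U : (Q × α) × (Q × α)) : w2 g U ≤ g U.1.1 U.1.2 U.2.1 U.2.2 := by
  unfold w2
  split_ifs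
  · exact hg _ _ _ _
  · exact le_rfl

theorem w2_ne {g : Q → α → Q → α → ℝ} {U : (Q × α) × (Q × α)} (h : w2 g U ≠ 0) :
    U.1 ≠ U.2 := by
  intro he
  apply h
  unfold w2
  rw [if_pos (by rw [he])]

theorem sdiff_fst {β : Type*} [DecidableEq β] {a b : β} (h : a ≠ b) :
    ({a, b} : Finset β) \ {a} = {b} := by
  ext z
  simp only [mem_sdiff, mem_insert, mem_singleton]
  constructor
  · rintro ⟨h6 | h6, h7⟩
    · exact absurd h6 h7
    · exact h6
  · rintro rfl
    exact ⟨Or.inr rfl, h.symm⟩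

theorem sdiff_snd {β : Type*} [DecidableEq β] {a b : β} (h : a ≠ b) :
    ({a, b} : Finset β) \ {b} = {a} := by
  ext z
  simp only [mem_sdiff, mem_insert, mem_singleton]
  constructor
  · rintro ⟨h6 | h6, h7⟩
    · exact h6
    · exact absurd h6 h7
  · rintro rfl
    exact ⟨Or.inl rfl, h⟩

theorem ext_two_one {μ : Q → α → ℝ} (hμ : IsPM μ) (g : Q → α → Q → α → ℝ)
    (hg : ∀ y c y' c', 0 ≤ g y c y' c') (q : Q × α) (U : (Q × α) × (Q × α)) :
    (if ({q} : Finset (Q × α)) ⊆ ({U.1, U.2} : Finset (Q × α)) then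
      w2 g U * ∏ q ∈ ({U.1, U.2} : Finset (Q × α)) \ {q}, μ q.1 q.2 else 0) ≤
    (if U.1 = q then g q.1 q.2 U.2.1 U.2.2 * μ U.2.1 U.2.2 else 0) +
    (if U.2 = q then g U.1.1 U.1.2 q.1 q.2 * μ U.1.1 U.1.2 else 0) := by
  have hμ0 : ∀ u c, 0 ≤ μ u c := hμ.nonneg
  have ha : 0 ≤ (if U.1 = q then g q.1 q.2 U.2.1 U.2.2 * μ U.2.1 U.2.2 else 0) := by
    split_ifs
    · exact mul_nonneg (hg _ _ _ _) (hμ0 _ _)
    · exact le_rfl
  have hb : 0 ≤ (if U.2 = q then g U.1.1 U.1.2 q.1 q.2 * μ U.1.1 U.1.2 else 0) := by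
    split_ifs
    · exact mul_nonneg (hg _ _ _ _) (hμ0 _ _)
    · exact le_rfl
  by_cases hs : ({q} : Finset (Q × α)) ⊆ ({U.1, U.2} : Finset (Q × α))
  swap
  · rw [if_neg hs]
    exact add_nonneg ha hb
  rw [if_pos hs]
  by_cases h4 : w2 g U = 0
  · rw [h4, zero_mul]
    exact add_nonneg ha hb
  have hne := w2_ne h4
  rw [singleton_subset_iff, mem_insert, mem_singleton] at hs
  rcases hs with hs | hs
  · subst hs
    rw [sdiff_fst hne, prod_singleton]
    refine le_add_of_le_of_nonneg ?_ hb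
    rw [if_pos rfl]
    exact mul_le_mul_of_nonneg_right (w2_le hg U) (hμ0 _ _)
  · subst hs
    rw [sdiff_snd hne, prod_singleton]
    refine le_add_of_nonneg_of_le ha ?_
    rw [if_pos rfl]
    exact mul_le_mul_of_nonneg_right (w2_le hg U) (hμ0 _ _)

theorem ext_two {μ : Q → α → ℝ} (hμ : IsPM μ) (g : Q → α → Q → α → ℝ)
    (hg : ∀ y c y' c', 0 ≤ g y c y' c') (M : ℝ)
    (h0 : ∑ y, ∑ c, ∑ y', ∑ c', g y c y' c' * (μ y c * μ y' c') ≤ M)
    (h1 : ∀ y c, ∑ y', ∑ c', g y c y' c' * μ y' c' ≤ M)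
    (h1' : ∀ y' c', ∑ y, ∑ c, g y c y' c' * μ y c ≤ M)
    (h2 : ∀ y c y' c', g y c y' c' ≤ M) (W : Finset (Q × α)) :
    ext μ (w2 g) (fun U => {U.1, U.2}) W ≤ 2 * M := by
  have hμ0 : ∀ u c, 0 ≤ μ u c := hμ.nonneg
  have hw := w2_nonneg hg
  have hle := w2_le hg
  have hM : 0 ≤ M := by
    refine le_trans ?_ h0
    exact sum_nonneg fun y _ => sum_nonneg fun c _ => sum_nonneg fun y' _ => sum_nonneg fun c' _ =>
      mul_nonneg (hg _ _ _ _) (mul_nonneg (hμ0 _ _) (hμ0 _ _))
  unfold Pool.Agent.Acy.ext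
  by_cases hW : W = ∅
  · subst hW
    have h3 : ∀ U : (Q × α) × (Q × α),
        (if (∅ : Finset (Q × α)) ⊆ ({U.1, U.2} : Finset (Q × α)) then
          w2 g U * ∏ q ∈ ({U.1, U.2} : Finset (Q × α)) \ ∅, μ q.1 q.2 else 0) ≤
        g U.1.1 U.1.2 U.2.1 U.2.2 * (μ U.1.1 U.1.2 * μ U.2.1 U.2.2) := by
      intro U
      rw [if_pos (empty_subset _), sdiff_empty]
      by_cases h4 : w2 g U = 0
      · rw [h4, zero_mul]
        exact mul_nonneg (hg _ _ _ _) (mul_nonneg (hμ0 _ _) (hμ0 _ _))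
      · rw [prod_pair (w2_ne h4)]
        exact mul_le_mul_of_nonneg_right (hle U) (mul_nonneg (hμ0 _ _) (hμ0 _ _))
    refine (sum_le_sum fun U _ => h3 U).trans ?_
    rw [Fintype.sum_prod_type]
    simp only [Fintype.sum_prod_type]
    linarith
  · obtain ⟨q, hq⟩ := nonempty_iff_ne_empty.2 hW
    by_cases hW1 : W = {q}
    · subst hW1
      refine (sum_le_sum fun U _ => ext_two_one hμ g hg q U).trans ?_
      rw [sum_add_distrib]
      have h5 : ∑ U : (Q × α) × (Q × α),
          (if U.1 = q then g q.1 q.2 U.2.1 U.2.2 * μ U.2.1 U.2.2 else 0) ≤ M := by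
        rw [Fintype.sum_prod_type_right]
        simp only [sum_ite_eq', mem_univ, if_true]
        rw [Fintype.sum_prod_type]
        exact h1 q.1 q.2
      have h6 : ∑ U : (Q × α) × (Q × α),
          (if U.2 = q then g U.1.1 U.1.2 q.1 q.2 * μ U.1.1 U.1.2 else 0) ≤ M := by
        rw [Fintype.sum_prod_type]
        simp only [sum_ite_eq', mem_univ, if_true]
        rw [Fintype.sum_prod_type]
        exact h1' q.1 q.2
      linarith
    · obtain ⟨q', hq', hne⟩ : ∃ q' ∈ W, q' ≠ q := by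
        by_contra hcon
        push Not at hcon
        exact hW1 (eq_singleton_iff_unique_mem.2 ⟨hq, hcon⟩)
      have h3 : ∀ U : (Q × α) × (Q × α),
          (if W ⊆ ({U.1, U.2} : Finset (Q × α)) then
            w2 g U * ∏ q ∈ ({U.1, U.2} : Finset (Q × α)) \ W, μ q.1 q.2 else 0) ≤
          (if U = (q, q') then M else 0) + (if U = (q', q) then M else 0) := by
        intro U
        by_cases hs : W ⊆ ({U.1, U.2} : Finset (Q × α))
        swap
        · rw [if_neg hs]
          split_ifs <;> linarith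
        rw [if_pos hs]
        have h7 := hs hq
        have h8 := hs hq'
        rw [mem_insert, mem_singleton] at h7 h8
        have h9 : (U.1 = q ∧ U.2 = q') ∨ (U.1 = q' ∧ U.2 = q) := by
          rcases h7 with h7 | h7 <;> rcases h8 with h8 | h8
          · exact absurd (h8.trans h7.symm) hne
          · exact Or.inl ⟨h7.symm, h8.symm⟩
          · exact Or.inr ⟨h8.symm, h7.symm⟩
          · exact absurd (h8.trans h7.symm) hne
        have h10 : ({U.1, U.2} : Finset (Q × α)) \ W = ∅ := by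
          rw [sdiff_eq_empty_iff_subset]
          intro z hz
          rw [mem_insert, mem_singleton] at hz
          rcases h9 with ⟨ha, hb⟩ | ⟨ha, hb⟩ <;> rcases hz with hz | hz
          · rw [hz, ha]; exact hq
          · rw [hz, hb]; exact hq'
          · rw [hz, ha]; exact hq'
          · rw [hz, hb]; exact hq
        rw [h10, prod_empty, mul_one]
        have h11 : w2 g U ≤ M := (hle U).trans (h2 _ _ _ _)
        rcases h9 with ⟨ha, hb⟩ | ⟨ha, hb⟩
        · have h12 : U = (q, q') := Prod.ext ha hb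
          rw [if_pos h12]
          split_ifs <;> linarith
        · have h12 : U = (q', q) := Prod.ext ha hb
          rw [if_pos h12]
          split_ifs <;> linarith
      refine (sum_le_sum fun U _ => h3 U).trans ?_
      rw [sum_add_distrib]
      simp only [sum_ite_eq', mem_univ, if_true]
      linarith

theorem cnt_two (g : Q → α → Q → α → ℝ) (ω : Q → α) :
    cnt (w2 g) (fun U => {U.1, U.2}) ω =
      ∑ y, ∑ y' ∈ univ.erase y, g y (ω y) y' (ω y') := by
  unfold Pool.Agent.Acy.cnt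
  rw [Fintype.sum_prod_type]
  rw [Fintype.sum_prod_type]
  refine sum_congr rfl fun y _ => ?_
  have hH : ∀ (c : α) (U : Q × α), Holds ({(y, c), U} : Finset (Q × α)) ω ↔
      ω y = c ∧ ω U.1 = U.2 := by
    intro c U
    constructor
    · intro hh
      exact ⟨hh (y, c) (by simp), hh U (by simp)⟩
    · rintro ⟨ha, hb⟩ z hz
      rw [mem_insert, mem_singleton] at hz
      rcases hz with rfl | rfl
      · exact ha
      · exact hb
  rw [Finset.sum_eq_single (ω y)]
  · rw [Fintype.sum_prod_type]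
    rw [← sum_erase_add univ _ (mem_univ y)]
    have h1 : ∑ c, (if Holds ({(y, ω y), (y, c)} : Finset (Q × α)) ω then
        w2 g ((y, ω y), (y, c)) else 0) = 0 := by
      refine sum_eq_zero fun c _ => ?_
      unfold w2
      simp
    rw [h1, add_zero]
    refine sum_congr rfl fun y' hy' => ?_
    rw [Finset.sum_eq_single (ω y')]
    · rw [if_pos ((hH _ _).2 ⟨rfl, rfl⟩)]
      unfold w2
      rw [if_neg]
      exact fun h => (mem_erase.1 hy').1 h.symm
    · intro c _ hc
      rw [if_neg]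
      intro hh
      exact hc ((hH _ _).1 hh).2.symm
    · intro h; exact absurd (mem_univ _) h
  · intro c _ hc
    refine sum_eq_zero fun U _ => ?_
    rw [if_neg]
    intro hh
    exact hc ((hH _ _).1 hh).1.symm
  · intro h; exact absurd (mem_univ _) h

/-- Local counting lemma for two conditions at different coordinates. -/
theorem loc_two {T : ℝ} (hT : Big T) {μ : Q → α → ℝ} (hμ : IsPM μ) {κ : Type u} [Fintype κ]
    (P : κ → Prop) (g : κ → Q → α → Q → α → ℝ) (hg : ∀ a y c y' c', 0 ≤ g a y c y' c')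
    (M : κ → ℝ) (hM : ∀ a, P a → 0 < M a)
    (h0 : ∀ a, P a → ∑ y, ∑ c, ∑ y', ∑ c', g a y c y' c' * (μ y c * μ y' c') ≤ M a)
    (h1 : ∀ a, P a → ∀ y c, ∑ y', ∑ c', g a y c y' c' * μ y' c' ≤ M a)
    (h1' : ∀ a, P a → ∀ y' c', ∑ y, ∑ c, g a y c y' c' * μ y c ≤ M a)
    (h2 : ∀ a, P a → ∀ y c y' c', g a y c y' c' ≤ M a)
    (S : κ → Finset Q) (hS : ∀ a, P a → ∀ y c y' c', g a y c y' c' ≠ 0 → y ∈ S a ∧ y' ∈ S a)
    (e : ℕ) (hcard : ∀ a, P a → ((S a).card : ℝ) ≤ T ^ e)
    (hdeg : ∀ y, ∃ F : Finset κ, (∀ a, P a → y ∈ S a → a ∈ F) ∧ (F.card : ℝ) ≤ T ^ e) :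
    LocOK e T μ (fun ω => ∀ a, P a →
      ∑ y, ∑ y' ∈ univ.erase y, g a y (ω y) y' (ω y') ≤ 24 * T ^ 2 * M a) := by
  have h := loc_count hT hμ P (fun a (U : (Q × α) × (Q × α)) => w2 (g a) U)
    (fun a x => w2_nonneg (hg a) x) (fun _ U => {U.1, U.2}) 2
    (fun a x => card_le_two) (fun a => 2 * M a) (fun a ha => by linarith [hM a ha])
    (fun a ha W _ => ext_two hμ (g a) (hg a) (M a) (h0 a ha) (h1 a ha) (h1' a ha) (h2 a ha) W) S
    (fun a ha x hx q hq => by
      have h3 : g a x.1.1 x.1.2 x.2.1 x.2.2 ≠ 0 := by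
        intro h4
        apply hx
        unfold w2
        rw [h4, ite_self]
      have h5 := hS a ha _ _ _ _ h3
      rw [mem_insert, mem_singleton] at hq
      rcases hq with rfl | rfl
      · exact h5.1
      · exact h5.2) e hcard hdeg
  obtain ⟨κ', hκ', EE, S', hd, hp, hs, hi, hgd⟩ := h
  refine ⟨κ', hκ', EE, S', hd, hp, hs, hi, fun ω hω a ha => ?_⟩
  have h3 := hgd ω hω a ha
  rw [cnt_two] at h3
  refine h3.trans ?_
  have h4 := cr2 hT
  have h5 := hM a ha
  nlinarith

end

namespace ORd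

section

variable {V : Type u} [Fintype V] [DecidableEq V]

/-- The picks: `(z, true)` real, `(z, false)` virtual. -/
def picks (E : ORd V) (ω : V → E.Pick) (y : V × Bool) : Fin E.k :=
  if y.2 then (ω y.1).1 else (ω y.1).2.1

theorem nh_eq (E : ORd V) (ω : V → E.Pick) (u x : V) : (E.nh ω u x : ℝ) =
    ∑ y : V × Bool, if E.hc u x y.1 (E.picks ω y) then 1 else 0 := by
  unfold nh hit
  rw [Fintype.sum_prod_type]
  push_cast
  refine sum_congr rfl fun z _ => ?_
  rw [Fintype.sum_bool]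
  unfold picks
  simp

variable {E : ORd V} {C : V → Option (Fin E.k × ℕ)} (hE : E.Ok C)
include hE

/-- Transfer of local goals from the picks to the law of the round. -/
theorem loc_picks {e : ℕ} {G : (V × Bool → Fin E.k) → Prop}
    (h : LocOK e E.T (fun y : V × Bool => E.p y.1) G) :
    LocOK (e + 1) E.T E.law (fun ω => G (E.picks ω)) := by
  have hb := hE.prt_ok.dat.big
  have hT1 := hb.one_le
  obtain ⟨κ, hκ, EE, S, hd, hp, hs, hi, hg⟩ := h
  have h2 : 2 * E.T ^ e ≤ E.T ^ (e + 1) := by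
    rw [pow_succ]
    have h5 := hb.big
    have h6 : 0 < E.T ^ e := pow_pos hb.pos e
    nlinarith
  have h6 : 0 < E.T ^ e := pow_pos hb.pos e
  refine ⟨κ, hκ, fun b ω => EE b (E.picks ω), fun b => (S b).image Prod.fst, ?_, ?_, ?_, ?_, ?_⟩
  · intro b ω ω' hω
    refine hd b fun y hy => ?_
    have h3 := hω y.1 (by
      rw [mem_coe, mem_image]
      exact ⟨y, by exact_mod_cast hy, rfl⟩)
    unfold picks
    rw [h3]
  · intro b
    have h3 := Pr_picks hE (EE b)
    have h4 : (fun ω : V → E.Pick => EE b fun y => if y.2 then (ω y.1).1 else (ω y.1).2.1) =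
        fun ω => EE b (E.picks ω) := rfl
    rw [h4] at h3
    rw [h3]
    exact hp b
  · intro b
    have h3 : (((S b).image Prod.fst).card : ℝ) ≤ (S b).card := by
      exact_mod_cast card_image_le
    linarith [hs b]
  · intro z
    have h3 : (univ.filter fun b => z ∈ (S b).image Prod.fst) ⊆
        (univ.filter fun b => (z, true) ∈ S b) ∪ (univ.filter fun b => (z, false) ∈ S b) := by
      intro b hb'
      rw [mem_filter, mem_image] at hb'
      obtain ⟨-, ⟨z', i⟩, h4, rfl⟩ := hb'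
      rw [mem_union, mem_filter, mem_filter]
      cases i
      · exact Or.inr ⟨mem_univ _, h4⟩
      · exact Or.inl ⟨mem_univ _, h4⟩
    have h4 : ((univ.filter fun b => z ∈ (S b).image Prod.fst).card : ℝ) ≤
        (univ.filter fun b => (z, true) ∈ S b).card +
        (univ.filter fun b => (z, false) ∈ S b).card := by
      exact_mod_cast (card_le_card h3).trans (card_union_le _ _)
    linarith [hi (z, true), hi (z, false)]
  · exact fun ω hω => hg _ hω

end

end ORd

end Pool.Agent.AcyK
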