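import Pool.Agent.AcyK.OTailB

/-! # Tails of the test functions of `Ma`, `La`, `Gr` (row OT1) -/

set_option autoImplicit false
set_option linter.unusedSectionVars false

namespace Pool.Agent.AcyK

open Finset
open Pool.Agent.Acy (IsPM wt Ex Pr mean)
open scoped Classical

universe u

section

variable {V : Type u} [Fintype V] [DecidableEq V]

namespace ORd

/-- Upper bound for the test functions. -/
noncomputable def H1 (E : ORd V) (x z : V) (e : E.Pick) : ℝ :=
  E.th ^ 6 * ∑ u, if E.site u x then (E.hit u x z e : ℝ) else 0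

variable {E : ORd V} {C : V → Option (Fin E.k × ℕ)}

section
variable (hE : E.Ok C)
include hE

theorem t1_sum_nonneg (x z : V) (e : E.Pick) :
    0 ≤ ∑ u, if E.site u x then (E.hit u x z e : ℝ) else 0 := by
  refine sum_nonneg fun u _ => ?_
  split_ifs
  · exact Nat.cast_nonneg _
  · exact le_rfl

theorem t1_nonneg (x z : V) (e : E.Pick) : 0 ≤ E.H1 x z e := by
  have h1 := t4_th1 hE
  exact mul_nonneg (by positivity) (t1_sum_nonneg hE x z e)

theorem t1_th6 : E.th ^ 6 ≤ E.T ^ 2 / 10000000 := by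
  have hD := hE.prt_ok.dat
  have hT0 := hD.big.pos
  have h2 := OData.th2 hD
  have h4 := OData.th4 hD
  have hth := t4_th1 hE
  calc E.th ^ 6 = E.th ^ 4 * E.th ^ 2 := by ring
    _ ≤ E.T / 1000 * (E.T / 10000) := mul_le_mul h4 h2 (by positivity) (by positivity)
    _ = _ := by ring

theorem t1_le {x : V} (hx : E.j < E.lv x) (z : V) (e : E.Pick) : E.H1 x z e ≤ E.T ^ 1759 := by
  have hD := hE.prt_ok.dat
  have hT0 := hD.big.pos
  have hth := t4_th1 hE
  have h1 := t4_hit_card hE x z e hx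
  have h2 := t1_th6 hE
  unfold H1
  calc E.th ^ 6 * _ ≤ E.T ^ 2 / 10000000 * (2 * E.T ^ 1757) :=
        mul_le_mul h2 h1 (t1_sum_nonneg hE x z e) (by positivity)
    _ = 2 / 10000000 * E.T ^ 1759 := by
        rw [show E.T ^ 1759 = E.T ^ 2 * E.T ^ 1757 by rw [← pow_add]]
        ring
    _ ≤ E.T ^ 1759 := by nlinarith [pow_pos hT0 1759]

theorem t1_mean {x : V} (hx : E.j < E.lv x) :
    ∑ z, ∑ e, E.law z e * E.H1 x z e ≤ E.T ^ 3095 := by
  have hD := hE.prt_ok.dat
  have hT0 := hD.big.pos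
  have hth := t4_th1 hE
  have e1 : ∑ z, ∑ e, E.law z e * E.H1 x z e = E.th ^ 6 *
      (∑ u, if E.site u x then 2 * E.H u x else 0) := by
    have a1 : ∀ z e, E.law z e * E.H1 x z e = E.th ^ 6 *
        (∑ u, if E.site u x then E.law z e * (E.hit u x z e : ℝ) else 0) := by
      intro z e
      have b1 : (∑ u, if E.site u x then E.law z e * (E.hit u x z e : ℝ) else 0) =
          E.law z e * ∑ u, if E.site u x then (E.hit u x z e : ℝ) else 0 := by
        rw [mul_sum]
        exact sum_congr rfl fun u _ => by split_ifs <;> simp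
      rw [b1]
      unfold H1
      ring
    have a2 : ∀ z, ∑ e, E.law z e * E.H1 x z e = E.th ^ 6 *
        (∑ u, if E.site u x then ∑ e, E.law z e * (E.hit u x z e : ℝ) else 0) := by
      intro z
      rw [sum_congr rfl fun e _ => a1 z e, ← mul_sum]
      congr 1
      rw [sum_comm]
      refine sum_congr rfl fun u _ => ?_
      split_ifs <;> simp
    rw [sum_congr rfl fun z _ => a2 z, ← mul_sum]
    congr 1
    rw [sum_comm]
    refine sum_congr rfl fun u _ => ?_
    split_ifs
    · exact t4_mean_hit hE u x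
    · simp
  have h1 : (∑ u, if E.site u x then 2 * E.H u x else 0) ≤ 2 * E.T ^ 3093 := by
    have a1 := sumH1 hE hx
    have a2 : (∑ u, if E.site u x then 2 * E.H u x else 0) =
        2 * ∑ u, (if E.site u x then E.H u x else 0) := by
      rw [mul_sum]
      exact sum_congr rfl fun u _ => by split_ifs <;> simp
    rw [a2]
    linarith
  have h0 : 0 ≤ ∑ u, if E.site u x then 2 * E.H u x else 0 := by
    refine sum_nonneg fun u _ => ?_
    split_ifs
    · have := H_nonneg hE u x
      linarith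
    · exact le_rfl
  rw [e1]
  calc E.th ^ 6 * _ ≤ E.T ^ 2 / 10000000 * (2 * E.T ^ 3093) :=
        mul_le_mul (t1_th6 hE) h1 h0 (by positivity)
    _ = 2 / 10000000 * E.T ^ 3095 := by
        rw [show E.T ^ 3095 = E.T ^ 2 * E.T ^ 3093 by rw [← pow_add]]
        ring
    _ ≤ E.T ^ 3095 := by nlinarith [pow_pos hT0 3095]

theorem t1_zero {x z : V} (hz : z ∉ E.N x) (e : E.Pick) : E.H1 x z e = 0 := by
  have h1 : ∀ u c, ¬ E.hc u x z c := fun u c h => hz (hc_mem hE h).1
  unfold H1
  have a1 : (∑ u, if E.site u x then (E.hit u x z e : ℝ) else 0) = 0 := by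
    refine sum_eq_zero fun u _ => ?_
    unfold hit
    simp [h1]
  rw [a1, mul_zero]

theorem t1_tail {a b : V} (ha : E.j < E.lv a) (hb : E.j < E.lv b) (F : V → E.Pick → ℝ)
    (hF : ∀ z e, |F z e| ≤ E.H1 a z e + E.H1 b z e) :
    Pr E.law (fun ω => ¬ |E.cen ω F| ≤ E.T ^ 2430) ≤ Real.exp (-E.T) := by
  have hD := hE.prt_ok.dat
  have hT0 := hD.big.pos
  have hT : (1000000 : ℝ) ≤ E.T := by
    have := hD.big.big
    norm_num at this
    exact this
  have hp := law_isPM hE
  have htwo : ∀ n, 2 * E.T ^ n ≤ E.T ^ (n + 1) := by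
    intro n
    rw [pow_succ]
    nlinarith [pow_pos hT0 n]
  have hG : ∀ z e, E.H1 a z e + E.H1 b z e ≤ E.T ^ 1760 := by
    intro z e
    have h1 := t1_le hE ha z e
    have h2 := t1_le hE hb z e
    have h3 : 2 * E.T ^ 1759 ≤ E.T ^ 1760 := htwo 1759
    linarith
  have hG0 : ∀ z e, 0 ≤ E.H1 a z e + E.H1 b z e := fun z e =>
    add_nonneg (t1_nonneg hE a z e) (t1_nonneg hE b z e)
  have hY : ∀ z e, |F z e| ≤ E.T ^ 1760 := fun z e => (hF z e).trans (hG z e)
  have hm : ∑ z, ∑ e, E.law z e * (E.H1 a z e + E.H1 b z e) ≤ E.T ^ 3096 := by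
    have h1 : ∑ z, ∑ e, E.law z e * (E.H1 a z e + E.H1 b z e) =
        (∑ z, ∑ e, E.law z e * E.H1 a z e) + ∑ z, ∑ e, E.law z e * E.H1 b z e := by
      rw [← sum_add_distrib]
      refine sum_congr rfl fun z _ => ?_
      rw [← sum_add_distrib]
      exact sum_congr rfl fun e _ => mul_add _ _ _
    have h2 := t1_mean hE ha
    have h3 := t1_mean hE hb
    have h4 : 2 * E.T ^ 3095 ≤ E.T ^ 3096 := htwo 3095
    rw [h1]
    linarith
  have hV : ∑ z, ∑ e, E.law z e * F z e ^ 2 ≤ E.T ^ 4856 := by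
    calc ∑ z, ∑ e, E.law z e * F z e ^ 2 ≤
          ∑ z, ∑ e, E.T ^ 1760 * (E.law z e * (E.H1 a z e + E.H1 b z e)) := by
          refine sum_le_sum fun z _ => sum_le_sum fun e _ => ?_
          have h1 : F z e ^ 2 ≤ E.T ^ 1760 * (E.H1 a z e + E.H1 b z e) := by
            rw [← sq_abs, sq]
            exact mul_le_mul (hY z e) (hF z e) (abs_nonneg _) (by positivity)
          calc E.law z e * F z e ^ 2 ≤ E.law z e * (E.T ^ 1760 * (E.H1 a z e + E.H1 b z e)) :=
                mul_le_mul_of_nonneg_left h1 (hp.nonneg z e)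
            _ = _ := by ring
      _ = E.T ^ 1760 * ∑ z, ∑ e, E.law z e * (E.H1 a z e + E.H1 b z e) := by
          rw [mul_sum]
          exact sum_congr rfl fun z _ => by rw [mul_sum]
      _ ≤ E.T ^ 1760 * E.T ^ 3096 := mul_le_mul_of_nonneg_left hm (by positivity)
      _ = _ := by rw [← pow_add]
  have ht := Pool.Agent.Acy.indep_tail hp F (E.T ^ 1760) hY (E.T ^ 4856) hV
    (4 / E.T ^ 2429) (by positivity)
    (by
      have e1 : E.T ^ 2429 = E.T ^ 1760 * E.T ^ 669 := by rw [← pow_add]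
      have e2 : 8 ≤ E.T ^ 669 := by
        have := hD.big.pw (show 1 ≤ 669 by norm_num)
        rw [pow_one] at this
        linarith
      have e3 : 2 * (4 / E.T ^ 2429 * E.T ^ 1760) = 8 / E.T ^ 669 := by
        rw [e1]
        field_simp
        norm_num
      rw [e3, div_le_one (by positivity)]
      exact e2) (E.T ^ 2430)
  refine (Pool.Agent.Acy.Pr_mono hp fun ω hω => ?_).trans (ht.trans (NibData.exp_bd hT ?_))
  · exact (not_le.1 hω).le
  · have e1 : (4 / E.T ^ 2429) ^ 2 * E.T ^ 4856 = 16 / E.T ^ 2 := by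
      have a1 : (E.T ^ 2429) ^ 2 = E.T ^ 4856 * E.T ^ 2 := by
        rw [← pow_mul, ← pow_add]
      rw [div_pow, a1]
      field_simp
      norm_num
    have e2 : 4 / E.T ^ 2429 * E.T ^ 2430 = 4 * E.T := by
      rw [pow_succ E.T 2429]
      field_simp
    rw [e1, e2]
    have e3 : 16 / E.T ^ 2 ≤ 1 := by
      rw [div_le_one (by positivity)]
      nlinarith
    linarith

/-- A local family of test functions. -/
theorem t1_loc {κ : Type u} [Fintype κ] (P : κ → Prop) (F : κ → V → E.Pick → ℝ)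
    (a b : κ → V) (ha : ∀ i, P i → E.j < E.lv (a i)) (hb : ∀ i, P i → E.j < E.lv (b i))
    (hF : ∀ i, P i → ∀ z e, |F i z e| ≤ E.H1 (a i) z e + E.H1 (b i) z e)
    (hdeg : ∀ z, ∃ Fs : Finset κ, (∀ i, P i → z ∈ E.N (a i) ∪ E.N (b i) → i ∈ Fs) ∧
      (Fs.card : ℝ) ≤ E.T ^ 20000) :
    LocOK 20000 E.T E.law (fun ω => ∀ i, P i → |E.cen ω (F i)| ≤ E.T ^ 2430) := by
  have hD := hE.prt_ok.dat
  have hT := hD.big
  have hT0 := hT.pos
  refine ⟨κ, inferInstance, fun i ω => P i ∧ ¬ |E.cen ω (F i)| ≤ E.T ^ 2430,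
    fun i => if P i then E.N (a i) ∪ E.N (b i) else ∅, ?_, ?_, ?_, ?_, ?_⟩
  · intro i ω ω' h
    by_cases hP : P i
    · have h1 : E.cen ω (F i) = E.cen ω' (F i) := by
        unfold cen
        refine sum_congr rfl fun z _ => ?_
        by_cases hz : z ∈ E.N (a i) ∪ E.N (b i)
        · rw [h z (by simp only [hP, if_true]; exact_mod_cast hz)]
        · have h0 : ∀ e, F i z e = 0 := by
            intro e
            have h2 := hF i hP z e
            rw [t1_zero hE (fun hh => hz (mem_union_left _ hh)) e,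
              t1_zero hE (fun hh => hz (mem_union_right _ hh)) e, add_zero] at h2
            exact abs_nonpos_iff.1 h2
          rw [h0, h0]
      simp only [h1]
    · simp only [hP, false_and]
  · intro i
    by_cases hP : P i
    · exact le_trans (Pool.Agent.Acy.Pr_mono (law_isPM hE) fun ω hω => hω.2)
        (t1_tail hE (ha i hP) (hb i hP) (F i) (hF i hP))
    · have h1 : Pr E.law (fun ω => P i ∧ ¬ |E.cen ω (F i)| ≤ E.T ^ 2430) = 0 := by
        unfold Pr Ex
        refine sum_eq_zero fun lam _ => ?_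
        simp only [hP, false_and, if_false, mul_zero]
      rw [h1]
      exact (Real.exp_pos _).le
  · intro i
    by_cases hP : P i
    · simp only [hP, if_true]
      have h1 : (((E.N (a i)) ∪ (E.N (b i))).card : ℝ) ≤ (E.N (a i)).card + (E.N (b i)).card := by
        exact_mod_cast card_union_le _ _
      have h2 := hD.deg (a i)
      have h3 := hD.deg (b i)
      have h4 : 2 * E.T ^ 3600 ≤ E.T ^ 3601 := by
        have := hT.big
        rw [pow_succ E.T 3600]
        nlinarith [pow_pos hT0 3600]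
      have h5 : E.T ^ 3601 ≤ E.T ^ 20000 := hT.pw (by norm_num)
      linarith
    · simp only [hP, if_false, card_empty, Nat.cast_zero]
      positivity
  · intro z
    obtain ⟨Fs, hF1, hF2⟩ := hdeg z
    have h1 : (univ.filter fun i => z ∈ if P i then E.N (a i) ∪ E.N (b i) else ∅) ⊆ Fs := by
      intro i hi
      have h2 := (mem_filter.1 hi).2
      by_cases hP : P i
      · rw [if_pos hP] at h2
        exact hF1 i hP h2
      · rw [if_neg hP] at h2
        exact absurd h2 (notMem_empty _)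
    exact le_trans (by exact_mod_cast card_le_card h1) hF2
  · intro ω h i hi
    exact not_not.1 fun h1 => h i ⟨hi, h1⟩

/-- Family indexed by the vertices. -/
theorem t1_loc1 (F : V → V → E.Pick → ℝ)
    (hF : ∀ x, E.j < E.lv x → ∀ z e, |F x z e| ≤ E.H1 x z e) :
    LocOK 20000 E.T E.law (fun ω => ∀ x, E.j < E.lv x → |E.cen ω (F x)| ≤ E.T ^ 2430) := by
  refine t1_loc hE (fun x => E.j < E.lv x) F id id (fun i h => h) (fun i h => h) ?_ ?_
  · intro x hx z e
    have h1 := hF x hx z e
    have h2 := t1_nonneg hE x z e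
    simp only [id]
    linarith
  · intro z
    refine ⟨E.N z, ?_, ?_⟩
    · intro x _ hz
      simp only [id, union_self] at hz
      exact hE.prt_ok.dat.N_symm z x hz
    · exact (hE.prt_ok.dat.deg z).trans (hE.prt_ok.dat.big.pw (by norm_num))

/-- A weighted sum of effects. -/
theorem t1_sum (w : V → ℝ) (f : V → ℝ) (x z : V) (e : E.Pick)
    (hw : ∀ u, |w u * f u| ≤ E.th ^ 6 * (if E.site u x then (E.hit u x z e : ℝ) else 0)) :
    |∑ u, w u * f u| ≤ E.H1 x z e := by
  refine (abs_sum_le_sum_abs _ _).trans ((sum_le_sum fun u _ => hw u).trans ?_)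
  rw [← mul_sum]
  exact le_rfl

theorem t1_abs_X (u x : V) : |E.s.X u x| ≤ E.th ^ 2 := by
  rw [abs_of_nonneg (X_nonneg hE u x)]
  exact X_le hE u x

theorem t1_abs_XL (u x : V) : |E.s.X u x * Real.log (E.s.X u x)| ≤ E.th ^ 4 := by
  have hth := t4_th1 hE
  rcases hE.inv.cases u x with h | h
  · rw [h, zero_mul, abs_zero]
    positivity
  · have h1 := X_le hE u x
    have h2 : 0 ≤ Real.log (E.s.X u x) := Real.log_nonneg h
    have h3 : Real.log (E.s.X u x) ≤ E.th ^ 2 := by
      have := Real.log_le_sub_one_of_pos (lt_of_lt_of_le one_pos h)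
      linarith
    rw [abs_of_nonneg (mul_nonneg (by linarith) h2)]
    calc E.s.X u x * Real.log (E.s.X u x) ≤ E.th ^ 2 * E.th ^ 2 :=
          mul_le_mul h1 h3 h2 (by positivity)
      _ = _ := by ring

theorem t1_abs_K (u x : V) : |E.K E.s u x| ≤ E.th ^ 2 := by
  have hth := t4_th1 hE
  have hth2 : 1 ≤ E.th ^ 2 := one_le_pow₀ hth
  unfold OData.K
  split_ifs
  · have h1 := X_le hE u x
    have h2 := X_nonneg hE u x
    rw [abs_le]
    constructor <;> linarith
  · rw [abs_zero]
    positivity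

/-- A bounded weight times the effect. -/
theorem t1_mul {c : ℝ} (hc : |c| ≤ E.th ^ 4) (u x z : V) (e : E.Pick) :
    |c * E.g0 u x z e| ≤ E.th ^ 6 * (if E.site u x then (E.hit u x z e : ℝ) else 0) := by
  have hth := t4_th1 hE
  have h1 := t4_g0 hE u x z e
  have h0 : 0 ≤ (if E.site u x then (E.hit u x z e : ℝ) else 0) := by
    split_ifs
    · exact Nat.cast_nonneg _
    · exact le_rfl
  rw [abs_mul]
  calc |c| * |E.g0 u x z e| ≤ E.th ^ 4 * (E.th *
        (if E.site u x then (E.hit u x z e : ℝ) else 0)) :=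
        mul_le_mul hc h1 (abs_nonneg _) (by positivity)
    _ = E.th ^ 5 * (if E.site u x then (E.hit u x z e : ℝ) else 0) := by ring
    _ ≤ E.th ^ 6 * (if E.site u x then (E.hit u x z e : ℝ) else 0) :=
        mul_le_mul_of_nonneg_right (pow_le_pow_right₀ hth (by norm_num)) h0

theorem loc_t1 : LocOK 20000 E.T E.law (fun ω => ∀ x, E.j < E.lv x →
    |E.cen ω (E.F1 x)| ≤ E.T ^ 2430) := by
  refine t1_loc1 hE E.F1 fun x _ z e => ?_
  unfold F1
  refine t1_sum hE (fun u => E.s.X u x) (fun u => E.g0 u x z e) x z e fun u => ?_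
  have hth := t4_th1 hE
  exact t1_mul hE ((t1_abs_X hE u x).trans (pow_le_pow_right₀ hth (by norm_num))) u x z e

theorem loc_t2 : LocOK 20000 E.T E.law (fun ω => ∀ x, E.j < E.lv x →
    |E.cen ω (E.F2 x)| ≤ E.T ^ 2430) := by
  refine t1_loc1 hE E.F2 fun x _ z e => ?_
  unfold F2
  exact t1_sum hE (fun u => E.s.X u x * Real.log (E.s.X u x)) (fun u => E.g0 u x z e) x z e
    fun u => t1_mul hE (t1_abs_XL hE u x) u x z e

theorem loc_t3 : LocOK 20000 E.T E.law (fun ω => ∀ x, E.j < E.lv x →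
    |E.cen ω (E.F3 x)| ≤ E.T ^ 2430) := by
  refine t1_loc1 hE E.F3 fun x _ z e => ?_
  have hth := t4_th1 hE
  have h1 : E.F3 x z e = ∑ u, 1 * (if E.act u x then E.s.X u x * E.psi u x z e else 0) := by
    unfold F3
    exact sum_congr rfl fun u _ => (one_mul _).symm
  rw [h1]
  refine t1_sum hE (fun _ => 1) (fun u => if E.act u x then E.s.X u x * E.psi u x z e else 0)
    x z e fun u => ?_
  simp only [one_mul]
  by_cases ha : E.act u x
  · rw [if_pos ha, if_pos ha.1, abs_mul]
    obtain ⟨h2, h3⟩ := psi_le hE ha z e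
    rw [abs_of_nonneg h2]
    calc |E.s.X u x| * E.psi u x z e ≤ E.th ^ 2 * (E.th ^ 2 * E.hit u x z e) :=
          mul_le_mul (t1_abs_X hE u x) h3 h2 (by positivity)
      _ = E.th ^ 4 * E.hit u x z e := by ring
      _ ≤ E.th ^ 6 * E.hit u x z e :=
          mul_le_mul_of_nonneg_right (pow_le_pow_right₀ hth (by norm_num)) (Nat.cast_nonneg _)
  · rw [if_neg ha, abs_zero]
    refine mul_nonneg (by positivity) ?_
    split_ifs
    · exact Nat.cast_nonneg _
    · exact le_rfl

theorem t1_F5 (y y' z : V) (e : E.Pick) :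
    |E.F5 y y' z e| ≤ E.H1 y z e + E.H1 y' z e := by
  unfold F5
  rw [sum_add_distrib]
  refine (abs_add_le _ _).trans (add_le_add ?_ ?_)
  · have h1 : ∑ u, E.s.X u y * E.g0 u y z e * E.K E.s u y' =
        ∑ u, (E.s.X u y * E.K E.s u y') * E.g0 u y z e :=
      sum_congr rfl fun u _ => by ring
    rw [h1]
    refine t1_sum hE (fun u => E.s.X u y * E.K E.s u y') (fun u => E.g0 u y z e) y z e fun u =>
      t1_mul hE ?_ u y z e
    rw [abs_mul]
    calc |E.s.X u y| * |E.K E.s u y'| ≤ E.th ^ 2 * E.th ^ 2 :=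
          mul_le_mul (t1_abs_X hE u y) (t1_abs_K hE u y') (abs_nonneg _)
            (by have := t4_th1 hE; positivity)
      _ = _ := by ring
  · have h1 : ∑ u, E.s.X u y' * E.g0 u y' z e * E.K E.s u y =
        ∑ u, (E.s.X u y' * E.K E.s u y) * E.g0 u y' z e :=
      sum_congr rfl fun u _ => by ring
    rw [h1]
    refine t1_sum hE (fun u => E.s.X u y' * E.K E.s u y) (fun u => E.g0 u y' z e) y' z e fun u =>
      t1_mul hE ?_ u y' z e
    rw [abs_mul]
    calc |E.s.X u y'| * |E.K E.s u y| ≤ E.th ^ 2 * E.th ^ 2 :=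
          mul_le_mul (t1_abs_X hE u y') (t1_abs_K hE u y) (abs_nonneg _)
            (by have := t4_th1 hE; positivity)
      _ = _ := by ring

/-- Without a common related vertex the test function of `Gr` vanishes. -/
theorem t1_F5_zero {y y' : V} (h : ¬ ∃ u, E.rel u y ∧ E.rel u y') (z : V) (e : E.Pick) :
    E.F5 y y' z e = 0 := by
  push Not at h
  unfold F5
  refine sum_eq_zero fun u _ => ?_
  have h1 : E.g0 u y z e * E.K E.s u y' = 0 := by
    by_cases ha : E.act u y
    · have : ¬ E.rel u y' := h u ha.1.1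
      unfold OData.K
      rw [if_neg this, mul_zero]
    · unfold g0
      rw [if_neg ha, zero_mul]
  have h2 : E.g0 u y' z e * E.K E.s u y = 0 := by
    by_cases ha : E.act u y'
    · have : ¬ E.rel u y := fun hh => h u hh ha.1.1
      unfold OData.K
      rw [if_neg this, mul_zero]
    · unfold g0
      rw [if_neg ha, zero_mul]
  rw [mul_assoc, h1, mul_assoc, h2, mul_zero, mul_zero, add_zero]

/-- Vertices with a common related vertex. -/
theorem t1_two (y : V) :
    ((univ.filter fun y' => ∃ u, E.rel u y ∧ E.rel u y').card : ℝ) ≤ E.T ^ 8032 := by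
  have hD := hE.prt_ok.dat
  have hT0 := hD.big.pos
  have h1 : (univ.filter fun y' => ∃ u, E.rel u y ∧ E.rel u y') ⊆
      (univ.filter fun u => E.rel u y).biUnion fun u => univ.filter fun y' => E.rel y' u := by
    intro y' hy'
    obtain ⟨u, hu, hu'⟩ := (mem_filter.1 hy').2
    exact mem_biUnion.2 ⟨u, mem_filter.2 ⟨mem_univ _, hu⟩,
      mem_filter.2 ⟨mem_univ _, OData.rel_symm hD hu'⟩⟩
  have h2 : ((univ.filter fun y' => ∃ u, E.rel u y ∧ E.rel u y').card : ℝ) ≤
      ∑ u ∈ univ.filter (fun u => E.rel u y), ((univ.filter fun y' => E.rel y' u).card : ℝ) := by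
    exact_mod_cast (card_le_card h1).trans card_biUnion_le
  refine h2.trans ?_
  calc ∑ u ∈ univ.filter (fun u => E.rel u y), ((univ.filter fun y' => E.rel y' u).card : ℝ) ≤
        ∑ u ∈ univ.filter (fun u => E.rel u y), E.T ^ 4016 :=
        sum_le_sum fun u _ => OData.rel_card hD u
    _ = ((univ.filter fun u => E.rel u y).card : ℝ) * E.T ^ 4016 := by
        rw [sum_const, nsmul_eq_mul]
    _ ≤ E.T ^ 4016 * E.T ^ 4016 :=
        mul_le_mul_of_nonneg_right (OData.rel_card hD y) (by positivity)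
    _ = _ := by rw [← pow_add]

theorem loc_t5 : LocOK 20000 E.T E.law (fun ω => ∀ y y', E.j < E.lv y → E.lv y = E.lv y' →
    y ≠ y' → E.cod y y' ≤ E.T ^ 3000 → |E.cen ω (E.F5 y y')| ≤ E.T ^ 2430) := by
  have hD := hE.prt_ok.dat
  have hT0 := hD.big.pos
  have h := t1_loc hE (κ := V × V) (fun q => E.j < E.lv q.1 ∧ E.j < E.lv q.2 ∧
    ∃ u, E.rel u q.1 ∧ E.rel u q.2) (fun q => E.F5 q.1 q.2) (fun q => q.1) (fun q => q.2)
    (fun q hq => hq.1) (fun q hq => hq.2.1) (fun q _ z e => t1_F5 hE q.1 q.2 z e) (by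
      intro z
      refine ⟨(E.N z).biUnion (fun y => (univ.filter fun y' => ∃ u, E.rel u y ∧ E.rel u y').image
        fun y' => (y, y')) ∪ (E.N z).biUnion (fun y => (univ.filter fun y' => ∃ u, E.rel u y ∧
        E.rel u y').image fun y' => (y', y)), ?_, ?_⟩
      · rintro ⟨y, y'⟩ ⟨_, _, u, hu, hu'⟩ hz
        rcases mem_union.1 hz with hz | hz
        · refine mem_union_left _ (mem_biUnion.2 ⟨y, hD.N_symm z y hz, mem_image.2
            ⟨y', mem_filter.2 ⟨mem_univ _, u, hu, hu'⟩, rfl⟩⟩)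
        · refine mem_union_right _ (mem_biUnion.2 ⟨y', hD.N_symm z y' hz, mem_image.2
            ⟨y, mem_filter.2 ⟨mem_univ _, u, hu', hu⟩, rfl⟩⟩)
      · have h1 : ∀ (g : V → V → V × V), (((E.N z).biUnion (fun y => (univ.filter fun y' =>
            ∃ u, E.rel u y ∧ E.rel u y').image (g y))).card : ℝ) ≤ E.T ^ 3600 * E.T ^ 8032 := by
          intro g
          have a1 : (((E.N z).biUnion (fun y => (univ.filter fun y' =>
              ∃ u, E.rel u y ∧ E.rel u y').image (g y))).card : ℝ) ≤ ∑ y ∈ E.N z,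
              ((univ.filter fun y' => ∃ u, E.rel u y ∧ E.rel u y').card : ℝ) := by
            have a2 := card_biUnion_le (s := E.N z) (t := fun y => (univ.filter fun y' =>
              ∃ u, E.rel u y ∧ E.rel u y').image (g y))
            have a3 : ∑ y ∈ E.N z, ((univ.filter fun y' =>
              ∃ u, E.rel u y ∧ E.rel u y').image (g y)).card ≤ ∑ y ∈ E.N z,
              (univ.filter fun y' => ∃ u, E.rel u y ∧ E.rel u y').card :=
              sum_le_sum fun y _ => card_image_le
            exact_mod_cast a2.trans a3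
          refine a1.trans ?_
          calc ∑ y ∈ E.N z, ((univ.filter fun y' => ∃ u, E.rel u y ∧ E.rel u y').card : ℝ) ≤
                ∑ y ∈ E.N z, E.T ^ 8032 := sum_le_sum fun y _ => t1_two hE y
            _ = ((E.N z).card : ℝ) * E.T ^ 8032 := by rw [sum_const, nsmul_eq_mul]
            _ ≤ _ := mul_le_mul_of_nonneg_right (hD.deg z) (by positivity)
        have h2 := h1 (fun y y' => (y, y'))
        have h3 := h1 (fun y y' => (y', y))
        have h4 : E.T ^ 3600 * E.T ^ 8032 = E.T ^ 11632 := by rw [← pow_add]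
        have h5 : 2 * E.T ^ 11632 ≤ E.T ^ 11633 := by
          have := hD.big.big
          rw [pow_succ E.T 11632]
          nlinarith [pow_pos hT0 11632]
        have h6 : E.T ^ 11633 ≤ E.T ^ 20000 := hD.big.pw (by norm_num)
        refine le_trans (Nat.cast_le.2 (card_union_le _ _)) ?_
        push_cast
        linarith)
  obtain ⟨κ, hκ, EE, S', hd, hp, hs, hi, hg⟩ := h
  refine ⟨κ, hκ, EE, S', hd, hp, hs, hi, fun ω hEE y y' hy hyy hne _ => ?_⟩
  by_cases hu : ∃ u, E.rel u y ∧ E.rel u y'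
  · exact hg ω hEE (y, y') ⟨hy, by rw [← hyy]; exact hy, hu⟩
  · have h1 : E.cen ω (E.F5 y y') = 0 := by
      unfold cen
      refine sum_eq_zero fun z _ => ?_
      unfold mean
      rw [t1_F5_zero hE hu, sum_eq_zero fun e _ => by rw [t1_F5_zero hE hu, mul_zero], sub_zero]
    rw [h1, abs_zero]
    positivity

end

end ORd

end

end Pool.Agent.AcyK
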