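import Pool.Agent.AcyK.OBas
import Pool.Agent.AcyK.OLaw
import Pool.Agent.AcyK.OExt

/-! # Tail of the test function of `Om` (row OT2) -/

set_option autoImplicit false
set_option linter.unusedSectionVars false

namespace Pool.Agent.AcyK

open Finset
open Pool.Agent.Acy (IsPM wt Ex Pr mean)
open scoped Classical

universe u

section

variable {V : Type u} [Fintype V] [DecidableEq V]

namespace ORd

/-- Upper bound for the test function of `Om`. -/
noncomputable def G4 (E : ORd V) (x z : V) (e : E.Pick) : ℝ :=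
  6 * E.th ^ 6 / E.k * (E.T ^ 4004 * (∑ u, if E.site u x then (E.hit u x z e : ℝ) else 0) +
    ∑ u, if E.site u x then ∑ f ∈ E.prs (E.j + 1) u x,
      (if E.rel f.1 f.2 then (E.hit f.1 f.2 z e : ℝ) else 0) else 0)

/-- Vertices on which the test function of `Om` depends. -/
noncomputable def S4 (E : ORd V) (x : V) : Finset V := E.N x ∪ (E.N x).biUnion E.N

variable {E : ORd V} {C : V → Option (Fin E.k × ℕ)}

section
variable (hE : E.Ok C)
include hE

theorem t4_th1 : 1 ≤ E.th := by linarith [OData.th_ge hE.prt_ok.dat]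

theorem t4_chi (u x : V) : |E.chi E.s u x| ≤ E.th ^ 2 := by
  have h1 := t4_th1 hE
  have h2 : 1 ≤ E.th ^ 2 := one_le_pow₀ h1
  unfold OData.chi
  split_ifs with ha hb hc
  · rw [abs_zero]; positivity
  · rw [abs_of_nonneg (X_nonneg hE u x)]
    exact X_le hE u x
  · rw [abs_zero]; positivity
  · rw [abs_one]; exact h2

theorem t4_g0 (u x z : V) (e : E.Pick) :
    |E.g0 u x z e| ≤ E.th * (if E.site u x then (E.hit u x z e : ℝ) else 0) := by
  unfold g0
  have h1 := t4_th1 hE
  split_ifs with ha hb hb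
  · exact g_abs hE ha z e
  · exact absurd ha.1 hb
  · rw [abs_zero]; positivity
  · rw [abs_zero, mul_zero]

theorem t4_g0' (u x z : V) (e : E.Pick) :
    |E.g0 u x z e| ≤ E.th * (if E.rel u x then (E.hit u x z e : ℝ) else 0) := by
  unfold g0
  have h1 := t4_th1 hE
  split_ifs with ha hb hb
  · exact g_abs hE ha z e
  · exact absurd ha.1.1 hb
  · rw [abs_zero]; positivity
  · rw [abs_zero, mul_zero]

theorem t4_g0_two (u x z : V) (e : E.Pick) : |E.g0 u x z e| ≤ 2 * E.th := by
  have h1 := t4_th1 hE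
  have h2 := t4_g0' hE u x z e
  have h3 : ((E.hit u x z e : ℕ) : ℝ) ≤ 2 := by exact_mod_cast hit_le_two hE u x z e
  have h4 : (if E.rel u x then (E.hit u x z e : ℝ) else 0) ≤ 2 := by
    split_ifs
    · exact h3
    · norm_num
  nlinarith

theorem t4_bound {x : V} (hx : E.j < E.lv x) (z : V) (e : E.Pick) :
    |E.F4 x z e| ≤ E.G4 x z e := by
  have hth := t4_th1 hE
  have hth2 : 1 ≤ E.th ^ 2 := one_le_pow₀ hth
  have hk := OData.k_pos hE.prt_ok.dat
  unfold F4 G4
  rw [abs_mul, abs_of_nonneg (by positivity : (0 : ℝ) ≤ 2 / E.k)]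
  have key : ∀ u, |if E.rel u x ∧ E.s.nf u x then E.s.X u x * ∑ f ∈ E.prs (E.j + 1) u x,
      E.chi E.s f.1 f.2 * (E.g0 u x z e + E.g0 f.1 f.2 z e + E.g0 u x z e * E.g0 f.1 f.2 z e)
      else 0| ≤ 3 * E.th ^ 6 * (E.T ^ 4004 * (if E.site u x then (E.hit u x z e : ℝ) else 0) +
        (if E.site u x then ∑ f ∈ E.prs (E.j + 1) u x,
          (if E.rel f.1 f.2 then (E.hit f.1 f.2 z e : ℝ) else 0) else 0)) := by
    intro u
    have hT0 := hE.prt_ok.dat.big.pos
    by_cases hr : E.rel u x ∧ E.s.nf u x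
    · rw [if_pos hr]
      have hs : E.site u x := ⟨hr.1, by rw [hr.1.2.1]; exact hx⟩
      rw [if_pos hs, if_pos hs, abs_mul]
      set H := (E.hit u x z e : ℝ) with hH
      have hH0 : 0 ≤ H := Nat.cast_nonneg _
      have h1 : |E.s.X u x| ≤ E.th ^ 2 := by
        rw [abs_of_nonneg (X_nonneg hE u x)]
        exact X_le hE u x
      have h2 : ∀ f : V × V, |E.chi E.s f.1 f.2 * (E.g0 u x z e + E.g0 f.1 f.2 z e +
          E.g0 u x z e * E.g0 f.1 f.2 z e)| ≤ 3 * E.th ^ 4 * H +
          3 * E.th ^ 4 * (if E.rel f.1 f.2 then (E.hit f.1 f.2 z e : ℝ) else 0) := by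
        intro f
        set F := (if E.rel f.1 f.2 then (E.hit f.1 f.2 z e : ℝ) else 0) with hF
        have hF0 : 0 ≤ F := by
          rw [hF]
          split_ifs
          · exact Nat.cast_nonneg _
          · exact le_rfl
        have a1 : |E.g0 u x z e| ≤ E.th * H := by
          have := t4_g0 hE u x z e
          rwa [if_pos hs] at this
        have a2 : |E.g0 f.1 f.2 z e| ≤ E.th * F := t4_g0' hE f.1 f.2 z e
        have a3 : |E.g0 f.1 f.2 z e| ≤ 2 * E.th := t4_g0_two hE f.1 f.2 z e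
        have a4 : |E.g0 u x z e + E.g0 f.1 f.2 z e + E.g0 u x z e * E.g0 f.1 f.2 z e| ≤
            E.th * H + E.th * F + (E.th * H) * (2 * E.th) := by
          refine (abs_add_le _ _).trans (add_le_add ((abs_add_le _ _).trans (add_le_add a1 a2)) ?_)
          rw [abs_mul]
          exact mul_le_mul a1 a3 (abs_nonneg _) (by positivity)
        have a5 : E.th * H + E.th * F + (E.th * H) * (2 * E.th) ≤
            E.th ^ 2 * (3 * H + 3 * F) := by
          have b1 : E.th * H ≤ E.th ^ 2 * H := by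
            apply mul_le_mul_of_nonneg_right _ hH0
            nlinarith
          have b2 : E.th * F ≤ E.th ^ 2 * F := by
            apply mul_le_mul_of_nonneg_right _ hF0
            nlinarith
          have b3 : 0 ≤ E.th ^ 2 * F := by positivity
          nlinarith
        rw [abs_mul]
        calc |E.chi E.s f.1 f.2| * _ ≤ E.th ^ 2 * (E.th ^ 2 * (3 * H + 3 * F)) :=
              mul_le_mul (t4_chi hE _ _) (a4.trans a5) (abs_nonneg _) (by positivity)
          _ = _ := by ring
      have h3 : |∑ f ∈ E.prs (E.j + 1) u x, E.chi E.s f.1 f.2 * (E.g0 u x z e +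
          E.g0 f.1 f.2 z e + E.g0 u x z e * E.g0 f.1 f.2 z e)| ≤
          3 * E.th ^ 4 * (E.T ^ 4004 * H + ∑ f ∈ E.prs (E.j + 1) u x,
            (if E.rel f.1 f.2 then (E.hit f.1 f.2 z e : ℝ) else 0)) := by
        refine (abs_sum_le_sum_abs _ _).trans ((sum_le_sum fun f _ => h2 f).trans ?_)
        rw [sum_add_distrib, sum_const, nsmul_eq_mul, ← mul_sum, mul_add]
        have h4 := OData.prs_card hE.prt_ok.dat hr.1.2.2.2.2 (E.j + 1)
        have h5 : ((E.prs (E.j + 1) u x).card : ℝ) * (3 * E.th ^ 4 * H) ≤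
            E.T ^ 4004 * (3 * E.th ^ 4 * H) :=
          mul_le_mul_of_nonneg_right h4 (by positivity)
        linarith
      have h6 : 0 ≤ E.T ^ 4004 * H + ∑ f ∈ E.prs (E.j + 1) u x,
            (if E.rel f.1 f.2 then (E.hit f.1 f.2 z e : ℝ) else 0) := by
        refine add_nonneg (by positivity) (sum_nonneg fun f _ => ?_)
        split_ifs
        · exact Nat.cast_nonneg _
        · exact le_rfl
      calc |E.s.X u x| * _ ≤ E.th ^ 2 * (3 * E.th ^ 4 * (E.T ^ 4004 * H +
            ∑ f ∈ E.prs (E.j + 1) u x,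
            (if E.rel f.1 f.2 then (E.hit f.1 f.2 z e : ℝ) else 0))) :=
            mul_le_mul h1 h3 (abs_nonneg _) (by positivity)
        _ = _ := by ring
    · rw [if_neg hr, abs_zero]
      refine mul_nonneg (by positivity) (add_nonneg ?_ ?_)
      · split_ifs
        · positivity
        · rw [mul_zero]
      · split_ifs
        · refine sum_nonneg fun f _ => ?_
          split_ifs
          · exact Nat.cast_nonneg _
          · exact le_rfl
        · exact le_rfl
  calc 2 / (E.k : ℝ) * |∑ u, _| ≤ 2 / E.k * ∑ u, 3 * E.th ^ 6 * (E.T ^ 4004 *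
        (if E.site u x then (E.hit u x z e : ℝ) else 0) +
        (if E.site u x then ∑ f ∈ E.prs (E.j + 1) u x,
          (if E.rel f.1 f.2 then (E.hit f.1 f.2 z e : ℝ) else 0) else 0)) :=
        mul_le_mul_of_nonneg_left ((abs_sum_le_sum_abs _ _).trans (sum_le_sum fun u _ => key u))
          (by positivity)
    _ = _ := by
        rw [← mul_sum, sum_add_distrib, ← mul_sum]
        ring

theorem t4_th6 : 6 * E.th ^ 6 / E.k ≤ 1 / (1000000 * E.T ^ 3997) := by
  have hD := hE.prt_ok.dat
  have hT0 := hD.big.pos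
  have h2 := OData.th2 hD
  have h4 := OData.th4 hD
  have hth := t4_th1 hE
  have hk := OData.k_pos hD
  have h6 : E.th ^ 6 ≤ E.T ^ 2 / 10000000 := by
    calc E.th ^ 6 = E.th ^ 4 * E.th ^ 2 := by ring
      _ ≤ E.T / 1000 * (E.T / 10000) := mul_le_mul h4 h2 (by positivity) (by positivity)
      _ = _ := by ring
  have h7 : E.T ^ 3999 = E.T ^ 3997 * E.T ^ 2 := by rw [← pow_add]
  have h8 := hD.k_lo
  rw [div_le_div_iff₀ hk (by positivity)]
  have h9 : 0 < E.T ^ 3997 := by positivity
  calc 6 * E.th ^ 6 * (1000000 * E.T ^ 3997) ≤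
        6 * (E.T ^ 2 / 10000000) * (1000000 * E.T ^ 3997) := by gcongr
    _ ≤ E.T ^ 3997 * E.T ^ 2 := by nlinarith [pow_pos hT0 2, mul_pos h9 (pow_pos hT0 2)]
    _ ≤ 1 * E.k := by rw [one_mul, ← h7]; exact h8

theorem t4_hit_card (x z : V) (e : E.Pick) (hx : E.j < E.lv x) :
    (∑ u, if E.site u x then (E.hit u x z e : ℝ) else 0) ≤ 2 * E.T ^ 1757 := by
  have h1 : ∀ u, (if E.site u x then (E.hit u x z e : ℝ) else 0) =
      (if E.site u x ∧ E.hc u x z e.1 then 1 else 0) +
        (if E.site u x ∧ E.hc u x z e.2.1 then 1 else 0) := by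
    intro u
    unfold hit
    by_cases hs : E.site u x
    · simp [hs]
    · simp [hs]
  rw [sum_congr rfl fun u _ => h1 u, sum_add_distrib, sum_boole, sum_boole]
  have a1 := ext1 hE hx (z := z) (c := e.1)
  have a2 := ext1 hE hx (z := z) (c := e.2.1)
  linarith

theorem t4_hit2_card (x z : V) (e : E.Pick) (hx : E.j < E.lv x) :
    (∑ u, if E.site u x then ∑ f ∈ E.prs (E.j + 1) u x,
      (if E.rel f.1 f.2 then (E.hit f.1 f.2 z e : ℝ) else 0) else 0) ≤ 2 * E.T ^ 6960 := by
  have h1 : ∀ u, (if E.site u x then ∑ f ∈ E.prs (E.j + 1) u x,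
      (if E.rel f.1 f.2 then (E.hit f.1 f.2 z e : ℝ) else 0) else 0) =
      (if E.site u x then (((E.prs (E.j + 1) u x).filter fun f => E.rel f.1 f.2 ∧
        E.hc f.1 f.2 z e.1).card : ℝ) else 0) +
      (if E.site u x then (((E.prs (E.j + 1) u x).filter fun f => E.rel f.1 f.2 ∧
        E.hc f.1 f.2 z e.2.1).card : ℝ) else 0) := by
    intro u
    by_cases hs : E.site u x
    · rw [if_pos hs, if_pos hs, if_pos hs, ← sum_boole, ← sum_boole, ← sum_add_distrib]
      refine sum_congr rfl fun f _ => ?_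
      unfold hit
      by_cases hr : E.rel f.1 f.2
      · simp [hr]
      · simp [hr]
    · simp [hs]
  rw [sum_congr rfl fun u _ => h1 u, sum_add_distrib]
  have a1 := ext2 hE hx (z := z) (c := e.1)
  have a2 := ext2 hE hx (z := z) (c := e.2.1)
  linarith

theorem t4_G_nonneg (x z : V) (e : E.Pick) : 0 ≤ E.G4 x z e := by
  have hD := hE.prt_ok.dat
  have hT0 := hD.big.pos
  have hth := t4_th1 hE
  have hk := OData.k_pos hD
  unfold G4
  refine mul_nonneg (by positivity) (add_nonneg (mul_nonneg (by positivity) ?_) ?_)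
  · refine sum_nonneg fun u _ => ?_
    split_ifs
    · exact Nat.cast_nonneg _
    · exact le_rfl
  · refine sum_nonneg fun u _ => ?_
    split_ifs
    · refine sum_nonneg fun f _ => ?_
      split_ifs
      · exact Nat.cast_nonneg _
      · exact le_rfl
    · exact le_rfl

/-- `a * (T^4004 * (2 T^p) + 2 T^q) <= T^r` for the constant `a` of `G4`. -/
theorem t4_arith {p q r : ℕ} (hp : 4004 + p ≤ q) (hq : q ≤ 3997 + r) :
    6 * E.th ^ 6 / E.k * (E.T ^ 4004 * (2 * E.T ^ p) + 2 * E.T ^ q) ≤ E.T ^ r := by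
  have hD := hE.prt_ok.dat
  have hT0 := hD.big.pos
  have h1 := t4_th6 hE
  have h2 : E.T ^ 4004 * (2 * E.T ^ p) ≤ 2 * E.T ^ q := by
    have : E.T ^ 4004 * E.T ^ p ≤ E.T ^ q := by
      rw [← pow_add]
      exact hD.big.pw hp
    linarith
  have h3 : E.T ^ q ≤ E.T ^ 3997 * E.T ^ r := by
    rw [← pow_add]
    exact hD.big.pw hq
  calc 6 * E.th ^ 6 / E.k * (E.T ^ 4004 * (2 * E.T ^ p) + 2 * E.T ^ q) ≤
        1 / (1000000 * E.T ^ 3997) * (4 * (E.T ^ 3997 * E.T ^ r)) := by
        apply mul_le_mul h1 (by linarith) (by positivity) (by positivity)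
    _ = 4 / 1000000 * E.T ^ r := by field_simp
    _ ≤ E.T ^ r := by nlinarith [pow_pos hT0 r]

theorem t4_G_le {x : V} (hx : E.j < E.lv x) (z : V) (e : E.Pick) : E.G4 x z e ≤ E.T ^ 2963 := by
  have hD := hE.prt_ok.dat
  have hT0 := hD.big.pos
  have hth := t4_th1 hE
  have hk := OData.k_pos hD
  have h1 := t4_hit_card hE x z e hx
  have h2 := t4_hit2_card hE x z e hx
  unfold G4
  refine le_trans ?_ (t4_arith hE (p := 1757) (q := 6960) (r := 2963) (by norm_num) (by norm_num))
  apply mul_le_mul_of_nonneg_left _ (by positivity)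
  exact add_le_add (mul_le_mul_of_nonneg_left h1 (by positivity)) h2

/-- Sum of the means of `hit`. -/
theorem t4_mean_hit (u x : V) :
    ∑ z, ∑ e, E.law z e * (E.hit u x z e : ℝ) = 2 * E.H u x := by
  have h1 : ∀ z, ∑ e, E.law z e * (E.hit u x z e : ℝ) =
      2 * ∑ c, if E.hc u x z c then E.p z c else 0 := fun z => mean_hit hE u x z
  rw [sum_congr rfl fun z _ => h1 z, ← mul_sum, H_eq hE u x]

theorem t4_mean {x : V} (hx : E.j < E.lv x) :
    ∑ z, ∑ e, E.law z e * E.G4 x z e ≤ E.T ^ 3102 := by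
  have hD := hE.prt_ok.dat
  have hT0 := hD.big.pos
  have hth := t4_th1 hE
  have hk := OData.k_pos hD
  have e1 : ∑ z, ∑ e, E.law z e * E.G4 x z e = 6 * E.th ^ 6 / E.k * (E.T ^ 4004 *
      (∑ u, if E.site u x then 2 * E.H u x else 0) + ∑ u, if E.site u x then
      ∑ f ∈ E.prs (E.j + 1) u x, (if E.rel f.1 f.2 then 2 * E.H f.1 f.2 else 0) else 0) := by
    have a1 : ∀ z e, E.law z e * E.G4 x z e = 6 * E.th ^ 6 / E.k * (E.T ^ 4004 *
        (∑ u, if E.site u x then E.law z e * (E.hit u x z e : ℝ) else 0) + ∑ u, if E.site u x then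
        ∑ f ∈ E.prs (E.j + 1) u x, (if E.rel f.1 f.2 then E.law z e * (E.hit f.1 f.2 z e : ℝ)
          else 0) else 0) := by
      intro z e
      have b1 : (∑ u, if E.site u x then E.law z e * (E.hit u x z e : ℝ) else 0) =
          E.law z e * ∑ u, if E.site u x then (E.hit u x z e : ℝ) else 0 := by
        rw [mul_sum]
        exact sum_congr rfl fun u _ => by split_ifs <;> simp
      have b2 : (∑ u, if E.site u x then ∑ f ∈ E.prs (E.j + 1) u x, (if E.rel f.1 f.2 then
          E.law z e * (E.hit f.1 f.2 z e : ℝ) else 0) else 0) =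
          E.law z e * ∑ u, if E.site u x then ∑ f ∈ E.prs (E.j + 1) u x,
            (if E.rel f.1 f.2 then (E.hit f.1 f.2 z e : ℝ) else 0) else 0 := by
        rw [mul_sum]
        refine sum_congr rfl fun u _ => ?_
        split_ifs
        · rw [mul_sum]
          exact sum_congr rfl fun f _ => by split_ifs <;> simp
        · simp
      rw [b1, b2]
      unfold G4
      ring
    have a2 : ∀ z, ∑ e, E.law z e * E.G4 x z e = 6 * E.th ^ 6 / E.k * (E.T ^ 4004 *
        (∑ u, if E.site u x then ∑ e, E.law z e * (E.hit u x z e : ℝ) else 0) +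
        ∑ u, if E.site u x then ∑ f ∈ E.prs (E.j + 1) u x, (if E.rel f.1 f.2 then
          ∑ e, E.law z e * (E.hit f.1 f.2 z e : ℝ) else 0) else 0) := by
      intro z
      rw [sum_congr rfl fun e _ => a1 z e, ← mul_sum, sum_add_distrib, ← mul_sum]
      congr 2
      · congr 1
        rw [sum_comm]
        refine sum_congr rfl fun u _ => ?_
        split_ifs <;> simp
      · rw [sum_comm]
        refine sum_congr rfl fun u _ => ?_
        split_ifs
        · rw [sum_comm]
          refine sum_congr rfl fun f _ => ?_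
          split_ifs <;> simp
        · simp
    rw [sum_congr rfl fun z _ => a2 z, ← mul_sum, sum_add_distrib, ← mul_sum]
    congr 2
    · congr 1
      rw [sum_comm]
      refine sum_congr rfl fun u _ => ?_
      split_ifs
      · exact t4_mean_hit hE u x
      · simp
    · rw [sum_comm]
      refine sum_congr rfl fun u _ => ?_
      split_ifs
      · rw [sum_comm]
        refine sum_congr rfl fun f _ => ?_
        split_ifs
        · exact t4_mean_hit hE f.1 f.2
        · simp
      · simp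
  have h1 : (∑ u, if E.site u x then 2 * E.H u x else 0) ≤ 2 * E.T ^ 3093 := by
    have a1 := sumH1 hE hx
    have a2 : (∑ u, if E.site u x then 2 * E.H u x else 0) =
        2 * ∑ u, (if E.site u x then E.H u x else 0) := by
      rw [mul_sum]
      exact sum_congr rfl fun u _ => by split_ifs <;> simp
    rw [a2]
    linarith
  have h2 : (∑ u, if E.site u x then ∑ f ∈ E.prs (E.j + 1) u x,
      (if E.rel f.1 f.2 then 2 * E.H f.1 f.2 else 0) else 0) ≤ 2 * E.T ^ 7097 := by
    have a1 := sumH2 hE hx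
    have a2 : (∑ u, if E.site u x then ∑ f ∈ E.prs (E.j + 1) u x,
        (if E.rel f.1 f.2 then 2 * E.H f.1 f.2 else 0) else 0) =
        2 * ∑ u, (if E.site u x then ∑ f ∈ E.prs (E.j + 1) u x,
          (if E.rel f.1 f.2 then E.H f.1 f.2 else 0) else 0) := by
      rw [mul_sum]
      refine sum_congr rfl fun u _ => ?_
      split_ifs
      · rw [mul_sum]
        exact sum_congr rfl fun f _ => by split_ifs <;> simp
      · simp
    rw [a2]
    linarith
  rw [e1]
  refine le_trans ?_ (t4_arith hE (p := 3093) (q := 7097) (r := 3102) (by norm_num) (by norm_num))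
  apply mul_le_mul_of_nonneg_left _ (by positivity)
  exact add_le_add (mul_le_mul_of_nonneg_left h1 (by positivity)) h2

/-- The test function vanishes outside `S4`. -/
theorem t4_zero {x z : V} (hx : E.j < E.lv x) (hz : z ∉ E.S4 x) (e : E.Pick) :
    E.F4 x z e = 0 := by
  have h1 : ∀ u c, ¬ E.hc u x z c := by
    intro u c h
    exact hz (mem_union_left _ (hc_mem hE h).1)
  have h2 : ∀ u, ∀ f ∈ E.prs (E.j + 1) u x, ∀ c, ¬ E.hc f.1 f.2 z c := by
    intro u f hf c h
    unfold OData.prs at hf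
    have h3 := mem_product.1 (mem_filter.1 hf).1
    have h4 : f.1 ∈ E.N x := (mem_inter.1 h3.1).2
    exact hz (mem_union_right _ (mem_biUnion.2 ⟨f.1, h4, (hc_mem hE h).2⟩))
  have h3 : E.G4 x z e = 0 := by
    unfold G4
    have a1 : (∑ u, if E.site u x then (E.hit u x z e : ℝ) else 0) = 0 := by
      refine sum_eq_zero fun u _ => ?_
      unfold hit
      simp [h1]
    have a2 : (∑ u, if E.site u x then ∑ f ∈ E.prs (E.j + 1) u x,
        (if E.rel f.1 f.2 then (E.hit f.1 f.2 z e : ℝ) else 0) else 0) = 0 := by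
      refine sum_eq_zero fun u _ => ?_
      split_ifs
      · refine sum_eq_zero fun f hf => ?_
        have := h2 u f hf
        unfold hit
        simp [this]
      · rfl
    rw [a1, a2]
    simp
  have h4 := t4_bound hE hx z e
  rw [h3] at h4
  exact abs_nonpos_iff.1 h4

theorem t4_S_card (x : V) : ((E.S4 x).card : ℝ) ≤ E.T ^ 20000 := by
  have hD := hE.prt_ok.dat
  have hT0 := hD.big.pos
  have hT1 : (2 : ℝ) ≤ E.T := by linarith [hD.big.big]
  have h1 : ((E.S4 x).card : ℝ) ≤ (E.N x).card + ((E.N x).biUnion E.N).card := by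
    exact_mod_cast card_union_le _ _
  have h2 : (((E.N x).biUnion E.N).card : ℝ) ≤ ∑ y ∈ E.N x, ((E.N y).card : ℝ) := by
    exact_mod_cast card_biUnion_le
  have h3 : ∑ y ∈ E.N x, ((E.N y).card : ℝ) ≤ (E.N x).card * E.T ^ 3600 := by
    rw [← nsmul_eq_mul, ← sum_const]
    exact sum_le_sum fun y _ => hD.deg y
  have h4 := hD.deg x
  have h5 : ((E.N x).card : ℝ) * E.T ^ 3600 ≤ E.T ^ 3600 * E.T ^ 3600 :=
    mul_le_mul_of_nonneg_right h4 (by positivity)
  have h6 : E.T ^ 3600 * E.T ^ 3600 = E.T ^ 7200 := by rw [← pow_add]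
  have h7 : E.T ^ 3600 ≤ E.T ^ 7200 := hD.big.pw (by norm_num)
  have h8 : 2 * E.T ^ 7200 ≤ E.T ^ 7201 := by
    rw [pow_succ E.T 7200]
    nlinarith [pow_pos hT0 7200]
  have h9 : E.T ^ 7201 ≤ E.T ^ 20000 := hD.big.pw (by norm_num)
  linarith

theorem t4_S_symm {x z : V} (h : z ∈ E.S4 x) : x ∈ E.S4 z := by
  have hs := hE.prt_ok.dat.N_symm
  rcases mem_union.1 h with h | h
  · exact mem_union_left _ (hs z x h)
  · obtain ⟨y, hy, hz⟩ := mem_biUnion.1 h
    exact mem_union_right _ (mem_biUnion.2 ⟨y, hs z y hz, hs y x hy⟩)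

theorem t4_tail {x : V} (hx : E.j < E.lv x) :
    Pr E.law (fun ω => ¬ |E.cen ω (E.F4 x)| ≤ E.T ^ 3034) ≤ Real.exp (-E.T) := by
  have hD := hE.prt_ok.dat
  have hT0 := hD.big.pos
  have hT : (1000000 : ℝ) ≤ E.T := by
    have := hD.big.big
    norm_num at this
    exact this
  have hp := law_isPM hE
  have hY : ∀ z e, |E.F4 x z e| ≤ E.T ^ 2963 := fun z e =>
    (t4_bound hE hx z e).trans (t4_G_le hE hx z e)
  have hV : ∑ z, ∑ e, E.law z e * E.F4 x z e ^ 2 ≤ E.T ^ 6065 := by
    calc ∑ z, ∑ e, E.law z e * E.F4 x z e ^ 2 ≤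
          ∑ z, ∑ e, E.T ^ 2963 * (E.law z e * E.G4 x z e) := by
          refine sum_le_sum fun z _ => sum_le_sum fun e _ => ?_
          have h1 : E.F4 x z e ^ 2 ≤ E.T ^ 2963 * E.G4 x z e := by
            rw [← sq_abs, sq]
            exact mul_le_mul (hY z e) (t4_bound hE hx z e) (abs_nonneg _) (by positivity)
          calc E.law z e * E.F4 x z e ^ 2 ≤ E.law z e * (E.T ^ 2963 * E.G4 x z e) :=
                mul_le_mul_of_nonneg_left h1 (hp.nonneg z e)
            _ = _ := by ring
      _ = E.T ^ 2963 * ∑ z, ∑ e, E.law z e * E.G4 x z e := by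
          rw [mul_sum]
          exact sum_congr rfl fun z _ => by rw [mul_sum]
      _ ≤ E.T ^ 2963 * E.T ^ 3102 :=
          mul_le_mul_of_nonneg_left (t4_mean hE hx) (by positivity)
      _ = _ := by rw [← pow_add]
  have ht := Pool.Agent.Acy.indep_tail hp (E.F4 x) (E.T ^ 2963) hY (E.T ^ 6065) hV
    (4 / E.T ^ 3033) (by positivity)
    (by
      have e1 : E.T ^ 3033 = E.T ^ 2963 * E.T ^ 70 := by rw [← pow_add]
      have e2 : 8 ≤ E.T ^ 70 := by
        have := hD.big.pw (show 1 ≤ 70 by norm_num)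
        rw [pow_one] at this
        linarith
      have e3 : 2 * (4 / E.T ^ 3033 * E.T ^ 2963) = 8 / E.T ^ 70 := by
        rw [e1]
        field_simp
        norm_num
      rw [e3, div_le_one (by positivity)]
      exact e2) (E.T ^ 3034)
  refine (Pool.Agent.Acy.Pr_mono hp fun ω hω => ?_).trans (ht.trans (NibData.exp_bd hT ?_))
  · exact (not_le.1 hω).le
  · have e1 : (4 / E.T ^ 3033) ^ 2 * E.T ^ 6065 = 16 / E.T := by
      have a1 : (E.T ^ 3033) ^ 2 = E.T ^ 6065 * E.T := by
        rw [← pow_mul, ← pow_succ]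
      rw [div_pow, a1]
      field_simp
      norm_num
    have e2 : 4 / E.T ^ 3033 * E.T ^ 3034 = 4 * E.T := by
      rw [pow_succ E.T 3033]
      field_simp
    rw [e1, e2]
    have e3 : 16 / E.T ≤ 1 := by
      rw [div_le_one hT0]
      linarith
    linarith

theorem loc_t4 : LocOK 20000 E.T E.law (fun ω => ∀ x, E.j < E.lv x →
    |E.cen ω (E.F4 x)| ≤ E.T ^ 3034) := by
  have hD := hE.prt_ok.dat
  have hT := hD.big
  refine ⟨V, inferInstance, fun x ω => E.j < E.lv x ∧ ¬ |E.cen ω (E.F4 x)| ≤ E.T ^ 3034,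
    fun x => E.S4 x, ?_, ?_, fun x => t4_S_card hE x, ?_, ?_⟩
  · intro x ω ω' h
    by_cases hP : E.j < E.lv x
    · have h1 : E.cen ω (E.F4 x) = E.cen ω' (E.F4 x) := by
        unfold cen
        refine sum_congr rfl fun z _ => ?_
        by_cases hz : z ∈ E.S4 x
        · rw [h z (by exact_mod_cast hz)]
        · rw [t4_zero hE hP hz, t4_zero hE hP hz]
      simp only [h1]
    · simp only [hP, false_and]
  · intro x
    by_cases hP : E.j < E.lv x
    · exact le_trans (Pool.Agent.Acy.Pr_mono (law_isPM hE) fun ω hω => hω.2) (t4_tail hE hP)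
    · have h1 : Pr E.law (fun ω => E.j < E.lv x ∧ ¬ |E.cen ω (E.F4 x)| ≤ E.T ^ 3034) = 0 := by
        unfold Pr Ex
        refine sum_eq_zero fun lam _ => ?_
        simp only [hP, false_and, if_false, mul_zero]
      rw [h1]
      exact (Real.exp_pos _).le
  · intro z
    refine le_trans ?_ (t4_S_card hE z)
    exact_mod_cast card_le_card fun x hx => t4_S_symm hE (mem_filter.1 hx).2
  · intro ω h x hx
    exact not_not.1 fun h1 => h x ⟨hx, h1⟩

end

end ORd

end

end Pool.Agent.AcyK
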