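import Pool.Agent.AcyK.OBas

/-! # The update of one pair, pathwise (row OU1) -/

set_option autoImplicit false
set_option linter.unusedSectionVars false

namespace Pool.Agent.AcyK

open Finset
open Pool.Agent.Acy (IsPM wt Ex Pr mean)
open scoped Classical

universe u

section

variable {V : Type u} [Fintype V] [DecidableEq V]

namespace ORd

variable {E : ORd V} {C : V → Option (Fin E.k × ℕ)}

/-- No event at `z`. -/
theorem of_ev_zero {u x z : V} {e : E.Pick} (h : E.ev u x z e = 0) :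
    ¬ E.hc u x z e.1 ∧ E.won u x z e = 0 ∧ E.psi u x z e = 0 := by
  unfold ev at h
  have h1 : (if E.hc u x z e.1 then 1 else 0) = 0 := by omega
  have h2 : (if E.hc u x z e.2.1 then (E.prt u x z e.2.1).card else 0) = 0 := by omega
  refine ⟨fun hc => by rw [if_pos hc] at h1; omega, ?_, ?_⟩
  · unfold won
    by_cases hc : E.hc u x z e.2.1
    · rw [if_pos hc] at h2 ⊢
      rw [Finset.card_eq_zero.1 h2, Finset.sum_empty]
    · rw [if_neg hc]
  · unfold psi
    by_cases hc : E.hc u x z e.2.1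
    · rw [if_pos hc] at h2 ⊢
      rw [Finset.card_eq_zero.1 h2, Finset.sum_empty]
    · rw [if_neg hc]

section
variable (hE : E.Ok C)
include hE

theorem qq_bd (z z' : V) (i : Fin (E.NN + 1)) :
    1 ≤ 1 / E.qq z z' i ∧ 1 / E.qq z z' i ≤ 2 * E.NN + 2 := by
  have hlo := hE.prt_ok.qq_lo z z' i
  have hNN : (0 : ℝ) < 2 * (E.NN : ℝ) + 2 := by positivity
  have hpos : 0 < E.qq z z' i := lt_of_lt_of_le (by positivity) hlo
  have hle : E.qq z z' i ≤ 1 := by
    refine le_trans ?_ (hE.prt_ok.qq_sum z z')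
    refine Finset.single_le_sum (f := E.qq z z') (fun j _ => ?_) (Finset.mem_univ i)
    exact le_trans (by positivity) (hE.prt_ok.qq_lo z z' j)
  constructor
  · rw [le_div_iff₀ hpos]
    linarith
  · rw [div_le_iff₀ hpos]
    rw [div_le_iff₀ hNN] at hlo
    linarith

/-- Exactly one event at `z`. -/
theorem of_ev_one {u x z : V} {e : E.Pick} (h : E.ev u x z e = 1) :
    E.won u x z e = 0 ∨ (¬ E.hc u x z e.1 ∧ 1 ≤ E.won u x z e ∧
      E.won u x z e ≤ 2 * E.NN + 2 ∧
      E.won u x z e * Real.log (E.won u x z e) = E.psi u x z e) := by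
  unfold ev at h
  by_cases h1 : E.hc u x z e.1
  · rw [if_pos h1] at h
    have h2 : (if E.hc u x z e.2.1 then (E.prt u x z e.2.1).card else 0) = 0 := by omega
    left
    unfold won
    by_cases hc : E.hc u x z e.2.1
    · rw [if_pos hc] at h2 ⊢
      rw [Finset.card_eq_zero.1 h2, Finset.sum_empty]
    · rw [if_neg hc]
  · rw [if_neg h1, zero_add] at h
    by_cases hc : E.hc u x z e.2.1
    · rw [if_pos hc] at h
      obtain ⟨z', hz'⟩ := Finset.card_eq_one.1 h
      unfold won psi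
      rw [if_pos hc, if_pos hc, hz', Finset.sum_singleton, Finset.sum_singleton]
      by_cases hw : e.2.2 z' = some (E.J z z' u x)
      · right
        rw [if_pos hw, if_pos hw]
        obtain ⟨hq1, hq2⟩ := qq_bd hE z z' (E.J z z' u x)
        exact ⟨h1, hq1, hq2, rfl⟩
      · left
        rw [if_neg hw]
    · rw [if_neg hc] at h
      omega

variable (ω : V → E.Pick)

/-- One active pair: all cases. -/
theorem nX_cases {u x : V} (h : E.act u x) :
    (E.nev ω u x = 0 ∧ E.nX ω u x = E.s.X u x * (1 + E.H u x) ∧ E.W ω u x = 0) ∨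
    (E.nev ω u x = 1 ∧ 1 ≤ E.W ω u x ∧ E.W ω u x ≤ 2 * E.NN + 2 ∧
      E.nX ω u x = E.s.X u x * (E.W ω u x + E.H u x) ∧
      E.W ω u x * Real.log (E.W ω u x) = ∑ z, E.psi u x z (ω z) ∧ ¬ E.realHit ω u x) ∨
    (E.nev ω u x = 1 ∧ E.W ω u x = 0 ∧ E.nX ω u x = 0) ∨
    (2 ≤ E.nev ω u x ∧ E.nX ω u x = 0) := by
  rcases Nat.lt_trichotomy (E.nev ω u x) 1 with h0 | h1 | h2
  · left
    have hn : E.nev ω u x = 0 := by omega
    refine ⟨hn, ?_, ?_⟩
    · unfold nX
      rw [if_pos h, if_pos hn]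
    · unfold W
      unfold nev at hn
      rw [Finset.sum_eq_zero_iff] at hn
      exact Finset.sum_eq_zero fun z hz => (of_ev_zero (hn z hz)).2.1
  · right
    have hsum := h1
    unfold nev at hsum
    obtain ⟨z₀, -, hz₀⟩ : ∃ z ∈ (univ : Finset V), E.ev u x z (ω z) ≠ 0 := by
      by_contra hcon
      push Not at hcon
      rw [Finset.sum_eq_zero hcon] at hsum
      omega
    have hz1 : E.ev u x z₀ (ω z₀) = 1 := by
      have h3 := Finset.single_le_sum (f := fun z => E.ev u x z (ω z))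
        (fun z _ => Nat.zero_le _) (Finset.mem_univ z₀)
      rw [hsum] at h3
      have h4 : E.ev u x z₀ (ω z₀) ≤ 1 := h3
      omega
    have hother : ∀ z, z ≠ z₀ → E.ev u x z (ω z) = 0 := by
      intro z hz
      have h3 := Finset.sum_le_sum_of_subset (f := fun z => E.ev u x z (ω z))
        (Finset.subset_univ {z, z₀})
      rw [hsum, Finset.sum_pair hz] at h3
      have h4 : E.ev u x z (ω z) + E.ev u x z₀ (ω z₀) ≤ 1 := h3
      omega
    have hW : E.W ω u x = E.won u x z₀ (ω z₀) := by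
      unfold W
      exact Finset.sum_eq_single z₀ (fun z _ hz => (of_ev_zero (hother z hz)).2.1)
        (fun hz => absurd (Finset.mem_univ z₀) hz)
    have hpsi : ∑ z, E.psi u x z (ω z) = E.psi u x z₀ (ω z₀) :=
      Finset.sum_eq_single z₀ (fun z _ hz => (of_ev_zero (hother z hz)).2.2)
        (fun hz => absurd (Finset.mem_univ z₀) hz)
    rcases of_ev_one hE hz1 with hw | ⟨hr, hw1, hw2, hw3⟩
    · right
      left
      refine ⟨h1, by rw [hW, hw], ?_⟩
      unfold nX
      rw [if_pos h, if_neg (by omega), if_neg]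
      rw [hW, hw]
      simp
    · left
      refine ⟨h1, by rw [hW]; exact hw1, by rw [hW]; exact hw2, ?_, ?_, ?_⟩
      · unfold nX
        rw [if_pos h, if_neg (by omega), if_pos]
        refine ⟨h1, ?_⟩
        rw [hW]
        linarith
      · rw [hW, hpsi, hw3]
      · rintro ⟨z, hz⟩
        by_cases hzz : z = z₀
        · subst hzz
          exact hr hz
        · exact (of_ev_zero (hother z hzz)).1 hz
  · right
    right
    right
    refine ⟨h2, ?_⟩
    unfold nX
    rw [if_pos h, if_neg (by omega), if_neg (by omega)]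

theorem nev_le_nh {u x : V} (h : E.act u x) : E.nev ω u x ≤ E.nh ω u x := by
  unfold nev nh
  exact Finset.sum_le_sum fun z _ => ev_le_hit hE h z (ω z)

omit hE in
theorem sum_g (u x : V) : ∑ z, E.g u x z (ω z) = E.W ω u x - (E.nev ω u x : ℝ) := by
  unfold g W nev
  rw [Finset.sum_sub_distrib]
  push_cast
  rfl

theorem W_nonneg {u x : V} (h : E.act u x) : 0 ≤ E.W ω u x :=
  Finset.sum_nonneg fun z _ => (won_le hE h z (ω z)).1

theorem psi_sum_nonneg {u x : V} (h : E.act u x) : 0 ≤ ∑ z, E.psi u x z (ω z) :=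
  Finset.sum_nonneg fun z _ => (psi_le hE h z (ω z)).1

theorem sum_g_abs {u x : V} (h : E.act u x) :
    |∑ z, E.g u x z (ω z)| ≤ E.th * (E.nh ω u x : ℝ) := by
  refine le_trans (Finset.abs_sum_le_sum_abs _ _) ?_
  refine le_trans (Finset.sum_le_sum fun z _ => g_abs hE h z (ω z)) (le_of_eq ?_)
  unfold nh
  push_cast
  rw [Finset.mul_sum]

/-- Identity (1) of the note. -/
theorem nX_lin {u x : V} (h : E.act u x) :
    |E.nX ω u x - E.s.X u x * (1 + E.H u x + ∑ z, E.g u x z (ω z))| ≤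
      E.T * (E.H u x * E.nh ω u x + (E.nh ω u x : ℝ) * ((E.nh ω u x : ℝ) - 1)) := by
  have hD := hE.prt_ok.dat
  have hth := OData.th_ge hD
  have hth4 := OData.th4 hD
  have hT : 0 < E.T := hD.big.pos
  have hH := H_nonneg hE u x
  have hX0 := X_nonneg hE u x
  have hX2 := X_le hE u x
  have hnn := nev_le_nh hE ω h
  have hJJ : 0 ≤ (E.nh ω u x : ℝ) * ((E.nh ω u x : ℝ) - 1) := by
    rcases Nat.eq_zero_or_pos (E.nh ω u x) with h0 | h0
    · rw [h0]
      simp
    · have : (1 : ℝ) ≤ (E.nh ω u x : ℝ) := by exact_mod_cast h0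
      exact mul_nonneg (by linarith) (by linarith)
  have hn0 : (0 : ℝ) ≤ (E.nh ω u x : ℝ) := Nat.cast_nonneg _
  have hR0 : 0 ≤ E.T * (E.H u x * E.nh ω u x +
      (E.nh ω u x : ℝ) * ((E.nh ω u x : ℝ) - 1)) :=
    mul_nonneg hT.le (add_nonneg (mul_nonneg hH hn0) hJJ)
  have hth2 : E.th ^ 2 ≤ E.T := by
    have h1 : E.th ^ 2 ≤ E.th ^ 4 := pow_le_pow_right₀ (by linarith) (by norm_num)
    linarith
  have hXT : E.s.X u x ≤ E.T := hX2.trans hth2
  rcases nX_cases hE ω h with ⟨hn, hX, hW⟩ | ⟨hn, hW1, hW2, hX, -, -⟩ | ⟨hn, hW, hX⟩ | ⟨hn, hX⟩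
  · rw [sum_g, hX, hW, hn]
    have : E.s.X u x * (1 + E.H u x) - E.s.X u x * (1 + E.H u x + (0 - ((0 : ℕ) : ℝ))) = 0 := by
      push_cast
      ring
    rw [this, abs_zero]
    exact hR0
  · rw [sum_g, hX, hn]
    have : E.s.X u x * (E.W ω u x + E.H u x) -
        E.s.X u x * (1 + E.H u x + (E.W ω u x - ((1 : ℕ) : ℝ))) = 0 := by
      push_cast
      ring
    rw [this, abs_zero]
    exact hR0
  · rw [sum_g, hX, hn, hW]
    have h1 : (0 : ℝ) - E.s.X u x * (1 + E.H u x + (0 - ((1 : ℕ) : ℝ))) =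
        -(E.s.X u x * E.H u x) := by
      push_cast
      ring
    rw [h1, abs_neg, abs_of_nonneg (mul_nonneg hX0 hH)]
    have hn1 : (1 : ℝ) ≤ (E.nh ω u x : ℝ) := by
      have : 1 ≤ E.nh ω u x := by omega
      exact_mod_cast this
    have h2 : E.s.X u x * E.H u x ≤ E.T * (E.H u x * E.nh ω u x) := by
      calc E.s.X u x * E.H u x ≤ E.T * E.H u x := mul_le_mul_of_nonneg_right hXT hH
        _ = E.T * (E.H u x * 1) := by ring
        _ ≤ E.T * (E.H u x * E.nh ω u x) :=
          mul_le_mul_of_nonneg_left (mul_le_mul_of_nonneg_left hn1 hH) hT.le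
    have h3 := mul_nonneg hT.le hJJ
    rw [mul_add]
    linarith
  · have hn2 : (2 : ℝ) ≤ (E.nh ω u x : ℝ) := by
      have : 2 ≤ E.nh ω u x := by omega
      exact_mod_cast this
    have hg := sum_g_abs hE ω h
    rw [hX, zero_sub, abs_neg, abs_mul, abs_of_nonneg hX0]
    have h1 : |1 + E.H u x + ∑ z, E.g u x z (ω z)| ≤
        1 + E.H u x + E.th * (E.nh ω u x : ℝ) := by
      refine le_trans (abs_add_le _ _) ?_
      rw [abs_of_nonneg (by linarith : (0 : ℝ) ≤ 1 + E.H u x)]
      linarith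
    set n : ℝ := (E.nh ω u x : ℝ) with hndef
    have hnn1 : n ≤ n * (n - 1) := by nlinarith
    have h2 : E.s.X u x * |1 + E.H u x + ∑ z, E.g u x z (ω z)| ≤
        E.th ^ 2 * (1 + E.H u x + E.th * n) :=
      mul_le_mul hX2 h1 (abs_nonneg _) (by positivity)
    have h3 : E.th ^ 2 * E.H u x ≤ E.T * (E.H u x * n) := by
      calc E.th ^ 2 * E.H u x ≤ E.T * E.H u x := mul_le_mul_of_nonneg_right hth2 hH
        _ = E.T * (E.H u x * 1) := by ring
        _ ≤ E.T * (E.H u x * n) :=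
          mul_le_mul_of_nonneg_left (mul_le_mul_of_nonneg_left (by linarith) hH) hT.le
    have h4 : E.th ^ 2 * (1 + E.th * n) ≤ E.T * (n * (n - 1)) := by
      have h41 : 1 + E.th * n ≤ 2 * E.th * n := by nlinarith
      have h42 : E.th ^ 2 * (1 + E.th * n) ≤ E.th ^ 2 * (2 * E.th * n) :=
        mul_le_mul_of_nonneg_left h41 (by positivity)
      have h43 : E.th ^ 2 * (2 * E.th * n) ≤ E.th ^ 4 * n := by
        have h431 : E.th ^ 4 * n - E.th ^ 2 * (2 * E.th * n) =
            E.th ^ 3 * (E.th - 2) * n := by ring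
        have h432 : 0 ≤ E.th ^ 3 * (E.th - 2) * n :=
          mul_nonneg (mul_nonneg (by positivity) (by linarith)) (by linarith)
        linarith
      have h44 : E.th ^ 4 * n ≤ E.T * n := mul_le_mul_of_nonneg_right (by linarith) (by linarith)
      have h45 : E.T * n ≤ E.T * (n * (n - 1)) := mul_le_mul_of_nonneg_left hnn1 hT.le
      linarith
    have h5 : E.th ^ 2 * (1 + E.H u x + E.th * n) =
        E.th ^ 2 * (1 + E.th * n) + E.th ^ 2 * E.H u x := by ring
    rw [mul_add]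
    linarith

/-- Difference of the weights. -/
theorem nX_diff {u x : V} (h : E.act u x) : |E.nX ω u x - E.s.X u x| ≤
    1001 / 1000 * E.th * E.H u x + 1001 / 1000 * E.th ^ 2 * min 1 (E.nh ω u x : ℝ) := by
  have hD := hE.prt_ok.dat
  have hth := OData.th_ge hD
  have hNN := hD.NN_le
  have hH := H_nonneg hE u x
  have hX0 := X_nonneg hE u x
  obtain ⟨-, -, hs2, -⟩ := act_s0 hE h
  have hXt : E.s.X u x ≤ 1001 / 1000 * E.th := by
    refine (act_X_le hE h).trans ?_
    linarith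
  have hnn := nev_le_nh hE ω h
  have hmin0 : (0 : ℝ) ≤ min 1 (E.nh ω u x : ℝ) := le_min zero_le_one (Nat.cast_nonneg _)
  have hXH : E.s.X u x * E.H u x ≤ 1001 / 1000 * E.th * E.H u x :=
    mul_le_mul_of_nonneg_right hXt hH
  have hb0 : 0 ≤ 1001 / 1000 * E.th ^ 2 * min 1 (E.nh ω u x : ℝ) := by positivity
  have hmin1 : 1 ≤ E.nh ω u x → min 1 (E.nh ω u x : ℝ) = 1 := by
    intro h1
    exact min_eq_left (by exact_mod_cast h1)
  have hXbig : E.s.X u x ≤ 1001 / 1000 * E.th ^ 2 := by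
    refine hXt.trans ?_
    nlinarith
  rcases nX_cases hE ω h with ⟨hn, hX, hW⟩ | ⟨hn, hW1, hW2, hX, -, -⟩ | ⟨hn, hW, hX⟩ | ⟨hn, hX⟩
  · have h1 : E.s.X u x * (1 + E.H u x) - E.s.X u x = E.s.X u x * E.H u x := by ring
    rw [hX, h1, abs_of_nonneg (mul_nonneg hX0 hH)]
    linarith
  · rw [hmin1 (by omega), hX]
    have h1 : E.s.X u x * (E.W ω u x + E.H u x) - E.s.X u x =
        E.s.X u x * E.H u x + E.s.X u x * (E.W ω u x - 1) := by ring
    have h2 : 0 ≤ E.s.X u x * (E.W ω u x - 1) := mul_nonneg hX0 (by linarith)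
    rw [h1, abs_of_nonneg (add_nonneg (mul_nonneg hX0 hH) h2)]
    have h3 : E.s.X u x * (E.W ω u x - 1) ≤ 1001 / 1000 * E.th * E.th := by
      refine mul_le_mul hXt ?_ (by linarith) (by positivity)
      linarith
    nlinarith
  · rw [hmin1 (by omega), hX, zero_sub, abs_neg, abs_of_nonneg hX0]
    have h1 : 0 ≤ 1001 / 1000 * E.th * E.H u x := by positivity
    linarith
  · rw [hmin1 (by omega), hX, zero_sub, abs_neg, abs_of_nonneg hX0]
    have h1 : 0 ≤ 1001 / 1000 * E.th * E.H u x := by positivity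
    linarith

/-- `X log X` of the new weight. -/
theorem nX_log {u x : V} (h : E.act u x) :
    E.nX ω u x * Real.log (E.nX ω u x) ≤ E.s.X u x * Real.log (E.s.X u x) *
      (1 + E.H u x + ∑ z, E.g u x z (ω z)) + E.s.X u x * (∑ z, E.psi u x z (ω z)) +
      101 / 100 * (E.s.X u x * E.H u x) +
      E.T * (E.H u x * E.nh ω u x + (E.nh ω u x : ℝ) * ((E.nh ω u x : ℝ) - 1)) := by
  have hD := hE.prt_ok.dat
  have hth := OData.th_ge hD
  have hth4 := OData.th4 hD
  have hNN := hD.NN_le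
  have hT : 0 < E.T := hD.big.pos
  have hH := H_nonneg hE u x
  have hH1 : E.H u x ≤ 1 / 1000000 := (H_le hE h.1.1).trans (hD.big.small (by norm_num))
  have hX0 := X_nonneg hE u x
  have hX2 := X_le hE u x
  obtain ⟨-, -, -, hX1⟩ := act_s0 hE h
  have hnn := nev_le_nh hE ω h
  have hpsi := psi_sum_nonneg hE ω h
  have hL : 0 ≤ Real.log (E.s.X u x) := Real.log_nonneg hX1
  have hn0 : (0 : ℝ) ≤ (E.nh ω u x : ℝ) := Nat.cast_nonneg _
  have hJJ : 0 ≤ (E.nh ω u x : ℝ) * ((E.nh ω u x : ℝ) - 1) := by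
    rcases Nat.eq_zero_or_pos (E.nh ω u x) with h0 | h0
    · rw [h0]
      simp
    · have : (1 : ℝ) ≤ (E.nh ω u x : ℝ) := by exact_mod_cast h0
      exact mul_nonneg (by linarith) (by linarith)
  have hTH : 0 ≤ E.T * (E.H u x * E.nh ω u x) := mul_nonneg hT.le (mul_nonneg hH hn0)
  have hTJ : 0 ≤ E.T * ((E.nh ω u x : ℝ) * ((E.nh ω u x : ℝ) - 1)) := mul_nonneg hT.le hJJ
  have hXP : 0 ≤ E.s.X u x * (∑ z, E.psi u x z (ω z)) := mul_nonneg hX0 hpsi
  have hXH : 0 ≤ E.s.X u x * E.H u x := mul_nonneg hX0 hH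
  have hXL : 0 ≤ E.s.X u x * Real.log (E.s.X u x) := mul_nonneg hX0 hL
  have hXpos : 0 < E.s.X u x := by linarith
  rw [mul_add E.T]
  rcases nX_cases hE ω h with ⟨hn, hX, hW⟩ | ⟨hn, hW1, hW2, hX, hWl, -⟩ | ⟨hn, hW, hX⟩ | ⟨hn, hX⟩
  · rw [sum_g, hX, hW, hn]
    have h1 : Real.log (E.s.X u x * (1 + E.H u x)) ≤ Real.log (E.s.X u x) + E.H u x := by
      rw [Real.log_mul hXpos.ne' (by linarith : (1 : ℝ) + E.H u x ≠ 0)]
      have := Real.log_le_sub_one_of_pos (by linarith : (0 : ℝ) < 1 + E.H u x)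
      linarith
    have h2 : E.s.X u x * (1 + E.H u x) * Real.log (E.s.X u x * (1 + E.H u x)) ≤
        E.s.X u x * (1 + E.H u x) * (Real.log (E.s.X u x) + E.H u x) :=
      mul_le_mul_of_nonneg_left h1 (by positivity)
    have h3 : E.s.X u x * (1 + E.H u x) * (Real.log (E.s.X u x) + E.H u x) =
        E.s.X u x * Real.log (E.s.X u x) * (1 + E.H u x) +
          (E.s.X u x * E.H u x) * (1 + E.H u x) := by ring
    have h4 : (E.s.X u x * E.H u x) * (1 + E.H u x) ≤
        101 / 100 * (E.s.X u x * E.H u x) := by nlinarith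
    have h5 : (1 : ℝ) + E.H u x + (0 - ((0 : ℕ) : ℝ)) = 1 + E.H u x := by
      push_cast
      ring
    rw [h5]
    linarith
  · rw [sum_g, hX, hn, ← hWl]
    set w : ℝ := E.W ω u x with hw
    set X : ℝ := E.s.X u x with hXdef
    set Hh : ℝ := E.H u x with hHdef
    have hwpos : 0 < w := by linarith
    have h1 : Real.log (X * (w + Hh)) ≤ Real.log X + (Real.log w + Hh) := by
      rw [Real.log_mul hXpos.ne' (by linarith : w + Hh ≠ 0)]
      have h11 : w + Hh ≤ w * (1 + Hh) := by nlinarith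
      have h12 : Real.log (w + Hh) ≤ Real.log (w * (1 + Hh)) :=
        Real.log_le_log (by linarith) h11
      rw [Real.log_mul hwpos.ne' (by linarith : (1 : ℝ) + Hh ≠ 0)] at h12
      have := Real.log_le_sub_one_of_pos (by linarith : (0 : ℝ) < 1 + Hh)
      linarith
    have h2 : X * (w + Hh) * Real.log (X * (w + Hh)) ≤
        X * (w + Hh) * (Real.log X + (Real.log w + Hh)) :=
      mul_le_mul_of_nonneg_left h1 (by positivity)
    have hlw : Real.log w ≤ w := by
      have := Real.log_le_sub_one_of_pos hwpos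
      linarith
    have hlw0 : 0 ≤ Real.log w := Real.log_nonneg hW1
    have hwth : w ≤ E.th := by linarith
    have h3 : X * (w + Hh) * (Real.log X + (Real.log w + Hh)) =
        X * Real.log X * (1 + Hh + (w - ((1 : ℕ) : ℝ))) + X * (w * Real.log w) +
          X * Hh * (w + Real.log w + Hh) := by
      push_cast
      ring
    have hn1 : (1 : ℝ) ≤ (E.nh ω u x : ℝ) := by
      have : 1 ≤ E.nh ω u x := by omega
      exact_mod_cast this
    have h4 : X * Hh * (w + Real.log w + Hh) ≤ E.T * (Hh * E.nh ω u x) := by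
      have h41 : w + Real.log w + Hh ≤ E.th ^ 2 := by nlinarith
      have h42 : X * (w + Real.log w + Hh) ≤ E.th ^ 2 * E.th ^ 2 :=
        mul_le_mul hX2 h41 (by linarith) (by positivity)
      have h43 : X * (w + Real.log w + Hh) ≤ E.T := by
        have : E.th ^ 2 * E.th ^ 2 = E.th ^ 4 := by ring
        linarith
      calc X * Hh * (w + Real.log w + Hh) = X * (w + Real.log w + Hh) * Hh := by ring
        _ ≤ E.T * Hh := mul_le_mul_of_nonneg_right h43 hH
        _ = E.T * (Hh * 1) := by ring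
        _ ≤ E.T * (Hh * E.nh ω u x) :=
          mul_le_mul_of_nonneg_left (mul_le_mul_of_nonneg_left hn1 hH) hT.le
    linarith
  · rw [sum_g, hX, hn, hW, zero_mul]
    have h1 : (1 : ℝ) + E.H u x + (0 - ((1 : ℕ) : ℝ)) = E.H u x := by
      push_cast
      ring
    rw [h1]
    have h2 := mul_nonneg hXL hH
    linarith
  · rw [sum_g, hX, zero_mul]
    have hW0 := W_nonneg hE ω h
    have hn2 : (2 : ℝ) ≤ (E.nh ω u x : ℝ) := by
      have : 2 ≤ E.nh ω u x := by omega
      exact_mod_cast this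
    have hne : (E.nev ω u x : ℝ) ≤ (E.nh ω u x : ℝ) := by exact_mod_cast hnn
    set n : ℝ := (E.nh ω u x : ℝ) with hndef
    set X : ℝ := E.s.X u x with hXdef
    have hnn1 : n ≤ n * (n - 1) := by nlinarith
    have hlX : Real.log X ≤ X := by
      have := Real.log_le_sub_one_of_pos hXpos
      linarith
    have hXLT : X * Real.log X ≤ E.T := by
      have h1 : X * Real.log X ≤ X * X := mul_le_mul_of_nonneg_left hlX hX0
      have h2 : X * X ≤ E.th ^ 2 * E.th ^ 2 := mul_le_mul hX2 hX2 hX0 (by positivity)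
      have h3 : E.th ^ 2 * E.th ^ 2 = E.th ^ 4 := by ring
      linarith
    have h4 : -n ≤ 1 + E.H u x + (E.W ω u x - (E.nev ω u x : ℝ)) := by linarith
    have h5 : X * Real.log X * -n ≤
        X * Real.log X * (1 + E.H u x + (E.W ω u x - (E.nev ω u x : ℝ))) :=
      mul_le_mul_of_nonneg_left h4 hXL
    have h6 : X * Real.log X * n ≤ E.T * (n * (n - 1)) :=
      mul_le_mul hXLT hnn1 (by linarith) hT.le
    linarith

theorem nX_not_act {u x : V} (h : ¬ E.act u x) : E.nX ω u x = E.s.X u x := by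
  unfold nX
  rw [if_neg h]

theorem nX_nonneg (u x : V) : 0 ≤ E.nX ω u x := by
  have hX0 := X_nonneg hE u x
  have hH := H_nonneg hE u x
  unfold nX
  split_ifs with h1 h2 h3
  · exact mul_nonneg hX0 (by linarith)
  · exact mul_nonneg hX0 (by linarith [h3.2])
  · exact le_rfl
  · exact hX0

end

end ORd

end

end Pool.Agent.AcyK
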