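import Pool.Agent.AcyK.OUpdA

/-! # The product of two updated weights (project MP_af9dfb_K, row OU2) -/

set_option autoImplicit false
set_option linter.unusedSectionVars false

namespace Pool.Agent.AcyK

open Finset
open Pool.Agent.Acy (IsPM wt Ex Pr mean)
open scoped Classical

universe u v w

section

variable {V : Type u} [Fintype V] [DecidableEq V]

/-- Arithmetic: products with the weights. -/
theorem mulB_key {X X' th T a : ℝ} (hXX : X * X' ≤ 101 / 100 * th ^ 2)
    (ht4 : th ^ 4 ≤ T / 1000) (hth : 4 ≤ th) (ha : 0 ≤ a) :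
    X * X' * (th ^ 2 * a) ≤ T / 100 * a := by
  have h4 : 0 ≤ th ^ 4 := by positivity
  calc X * X' * (th ^ 2 * a) ≤ 101 / 100 * th ^ 2 * (th ^ 2 * a) :=
        mul_le_mul_of_nonneg_right hXX (by positivity)
    _ = 101 / 100 * th ^ 4 * a := by ring
    _ ≤ T / 100 * a := mul_le_mul_of_nonneg_right (by linarith) ha

/-- Arithmetic: both pairs have at most one event. -/
theorem mulB_one {X X' th T H H' G G' DD off n n' Z Z' : ℝ} (hX : 0 ≤ X) (hX' : 0 ≤ X')
    (hXX : X * X' ≤ 101 / 100 * th ^ 2) (hth : 4 ≤ th) (ht4 : th ^ 4 ≤ T / 1000)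
    (hH : 0 ≤ H) (hH' : 0 ≤ H') (hG : |G| ≤ th * n) (hG' : |G'| ≤ th * n')
    (hD : |G * G' - DD| ≤ th ^ 2 * off) (hoff : 0 ≤ off) (hn : 0 ≤ n) (hn' : 0 ≤ n')
    (hq : 0 ≤ n * (n - 1)) (hq' : 0 ≤ n' * (n' - 1))
    (hZ : Z ≤ X * (1 + G + H)) (h1 : 0 ≤ 1 + G) (hZ' : Z' ≤ X' * (1 + G' + H'))
    (hZ0 : 0 ≤ Z') :
    Z * Z' ≤ X * X' * (1 + H + H' + (G + G' + DD)) + T * (off + n * (n - 1) +
      n' * (n' - 1) + H * n' + H' * n + H * H') := by
  have hXX0 : 0 ≤ X * X' := mul_nonneg hX hX'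
  have hT : 0 ≤ T := by
    have : 0 ≤ th ^ 4 := by positivity
    linarith
  have p1 : Z * Z' ≤ (X * (1 + G + H)) * (X' * (1 + G' + H')) :=
    mul_le_mul hZ hZ' hZ0 (mul_nonneg hX (by linarith))
  have hth2 : th ≤ th ^ 2 := by nlinarith
  have a1 : X * X' * (G * G' - DD) ≤ T / 100 * off :=
    (mul_le_mul_of_nonneg_left (abs_le.1 hD).2 hXX0).trans (mulB_key hXX ht4 hth hoff)
  have a2 : X * X' * (H * G') ≤ T / 100 * (H * n') := by
    refine (mul_le_mul_of_nonneg_left ?_ hXX0).trans (mulB_key hXX ht4 hth (by positivity))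
    calc H * G' ≤ H * (th * n') := mul_le_mul_of_nonneg_left (abs_le.1 hG').2 hH
      _ = th * (H * n') := by ring
      _ ≤ _ := mul_le_mul_of_nonneg_right hth2 (by positivity)
  have a3 : X * X' * (H' * G) ≤ T / 100 * (H' * n) := by
    refine (mul_le_mul_of_nonneg_left ?_ hXX0).trans (mulB_key hXX ht4 hth (by positivity))
    calc H' * G ≤ H' * (th * n) := mul_le_mul_of_nonneg_left (abs_le.1 hG).2 hH'
      _ = th * (H' * n) := by ring
      _ ≤ _ := mul_le_mul_of_nonneg_right hth2 (by positivity)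
  have a4 : X * X' * (H * H') ≤ T / 100 * (H * H') := by
    refine (mul_le_mul_of_nonneg_left ?_ hXX0).trans (mulB_key hXX ht4 hth (by positivity))
    have : (1 : ℝ) ≤ th ^ 2 := by nlinarith
    nlinarith [mul_nonneg hH hH']
  have e : (X * (1 + G + H)) * (X' * (1 + G' + H')) =
      X * X' * (1 + H + H' + (G + G' + DD)) + X * X' * (G * G' - DD) + X * X' * (H * G') +
      X * X' * (H' * G) + X * X' * (H * H') := by ring
  rw [e] at p1
  have b1 : 0 ≤ T * off := by positivity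
  have b2 : 0 ≤ T * (H * n') := by positivity
  have b3 : 0 ≤ T * (H' * n) := by positivity
  have b4 : 0 ≤ T * (H * H') := by positivity
  have b5 : 0 ≤ T * (n * (n - 1)) := mul_nonneg hT hq
  have b6 : 0 ≤ T * (n' * (n' - 1)) := mul_nonneg hT hq'
  linarith

/-- Arithmetic: the first pair has at least two events. -/
theorem mulB_two {X X' th T H H' G G' DD off n n' : ℝ} (hX : 0 ≤ X) (hX' : 0 ≤ X')
    (hXX : X * X' ≤ 101 / 100 * th ^ 2) (hth : 4 ≤ th) (ht4 : th ^ 4 ≤ T / 1000)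
    (hH : 0 ≤ H) (hH' : 0 ≤ H') (hG : |G| ≤ th * n) (hG' : |G'| ≤ th * n')
    (hD : |DD| ≤ th ^ 2 * (2 * n)) (hoff : 0 ≤ off) (hn : 2 ≤ n) (hn' : 0 ≤ n')
    (hq' : 0 ≤ n' * (n' - 1)) :
    0 ≤ X * X' * (1 + H + H' + (G + G' + DD)) + T * (off + n * (n - 1) +
      n' * (n' - 1) + H * n' + H' * n + H * H') := by
  have hXX0 : 0 ≤ X * X' := mul_nonneg hX hX'
  have hT : 0 ≤ T := by
    have : 0 ≤ th ^ 4 := by positivity
    linarith
  have hth2 : th ≤ th ^ 2 := by nlinarith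
  have a1 : X * X' * (-G) ≤ T / 100 * n := by
    refine (mul_le_mul_of_nonneg_left ?_ hXX0).trans (mulB_key hXX ht4 hth (by linarith))
    have := (abs_le.1 hG).1
    have h2 : th * n ≤ th ^ 2 * n := mul_le_mul_of_nonneg_right hth2 (by linarith)
    linarith
  have a2 : X * X' * (-G') ≤ T / 100 * n' := by
    refine (mul_le_mul_of_nonneg_left ?_ hXX0).trans (mulB_key hXX ht4 hth hn')
    have := (abs_le.1 hG').1
    have h2 : th * n' ≤ th ^ 2 * n' := mul_le_mul_of_nonneg_right hth2 hn'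
    linarith
  have a3 : X * X' * (-DD) ≤ T / 100 * (2 * n) := by
    refine (mul_le_mul_of_nonneg_left ?_ hXX0).trans (mulB_key hXX ht4 hth (by linarith))
    have := (abs_le.1 hD).1
    linarith
  have a4 : 0 ≤ X * X' * (1 + H + H') := by positivity
  have c1 : 3 * n + n' ≤ 4 * (n * (n - 1)) + n' * (n' - 1) := by
    nlinarith [sq_nonneg (n' - 1), sq_nonneg (n - 2)]
  have c2 : T * (3 * n + n') ≤ T * (4 * (n * (n - 1)) + n' * (n' - 1)) :=
    mul_le_mul_of_nonneg_left c1 hT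
  have c3 : 0 ≤ n * (n - 1) := by nlinarith
  have b1 : 0 ≤ T * off := by positivity
  have b2 : 0 ≤ T * (H * n') := by positivity
  have b3 : 0 ≤ T * (H' * n) := mul_nonneg hT (mul_nonneg hH' (by linarith))
  have b4 : 0 ≤ T * (H * H') := by positivity
  have b5 : 0 ≤ T * (n * (n - 1)) := mul_nonneg hT c3
  have b6 : 0 ≤ T * (n' * (n' - 1)) := mul_nonneg hT hq'
  have e : X * X' * (1 + H + H' + (G + G' + DD)) = X * X' * (1 + H + H') -
      X * X' * (-G) - X * X' * (-G') - X * X' * (-DD) := by ring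
  rw [e]
  linarith

theorem nat_mul_pred (n : ℕ) : 0 ≤ (n : ℝ) * ((n : ℝ) - 1) := by
  rcases Nat.eq_zero_or_pos n with h | h
  · simp [h]
  · have : (1 : ℝ) ≤ n := by exact_mod_cast h
    exact mul_nonneg (Nat.cast_nonneg _) (by linarith)

namespace ORd

variable {E : ORd V} {C : V → Option (Fin E.k × ℕ)}

section
variable (hE : E.Ok C) (ω : V → E.Pick)
include hE

theorem sum_g_eq (u x : V) :
    ∑ z, E.g u x z (ω z) = E.W ω u x - E.nev ω u x := by
  unfold g W nev
  rw [Finset.sum_sub_distrib]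
  push_cast
  rfl

theorem abs_sum_g {u x : V} (h : E.act u x) :
    |∑ z, E.g u x z (ω z)| ≤ E.th * E.nh ω u x := by
  refine (Finset.abs_sum_le_sum_abs _ _).trans ?_
  unfold nh
  push_cast
  rw [Finset.mul_sum]
  exact Finset.sum_le_sum fun z _ => g_abs hE h z _

/-- Bound of one pair whose number of events is at most one. -/
theorem nX_le_of_le_one {u x : V} (h : E.act u x) (h1 : E.nev ω u x ≤ 1) :
    E.nX ω u x ≤ E.s.X u x * (1 + ∑ z, E.g u x z (ω z) + E.H u x) ∧
      0 ≤ 1 + ∑ z, E.g u x z (ω z) := by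
  have hX := (act_s0 hE h).2.2.2
  have hH := H_nonneg hE u x
  rw [sum_g_eq hE ω u x]
  rcases nX_cases hE ω h with ⟨h2, h3, h4⟩ | ⟨h2, h3, h4, h5, -, -⟩ | ⟨h2, h3, h4⟩ | ⟨h2, h3⟩
  · rw [h3, h2, h4]
    norm_num
  · rw [h5, h2]
    push_cast
    constructor
    · apply le_of_eq; ring
    · linarith
  · rw [h4, h2, h3]
    push_cast
    constructor
    · have : 0 ≤ E.s.X u x * E.H u x := mul_nonneg (by linarith) hH
      linarith
    · norm_num
  · omega

theorem X_le' {u x : V} (h : E.act u x) :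
    0 ≤ E.s.X u x ∧ E.s.X u x ≤ 1001 / 1000 * E.th := by
  have h1 := act_X_le hE h
  have h2 := act_s0 hE h
  constructor
  · linarith [h2.2.2.2]
  · refine h1.trans ?_
    linarith [h2.2.2.1]

/-- Product of two new weights. -/
theorem nX_mul {u x u' x' : V} (h : E.act u x) (h' : E.act u' x') :
    E.nX ω u x * E.nX ω u' x' ≤ E.s.X u x * E.s.X u' x' * (1 + E.H u x + E.H u' x' +
      ∑ z, (E.g u x z (ω z) + E.g u' x' z (ω z) + E.g u x z (ω z) * E.g u' x' z (ω z))) +
      E.T * ((∑ z, ∑ z' ∈ univ.erase z, (E.hit u x z (ω z) : ℝ) * E.hit u' x' z' (ω z')) +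
        (E.nh ω u x : ℝ) * ((E.nh ω u x : ℝ) - 1) +
        (E.nh ω u' x' : ℝ) * ((E.nh ω u' x' : ℝ) - 1) +
        E.H u x * E.nh ω u' x' + E.H u' x' * E.nh ω u x + E.H u x * E.H u' x') := by
  have hD := hE.prt_ok.dat
  have hth := OData.th_ge hD
  have hth4 := OData.th4 hD
  have hX := X_le' hE h
  have hX' := X_le' hE h'
  have hH := H_nonneg hE u x
  have hH' := H_nonneg hE u' x'
  have hg := abs_sum_g hE ω h
  have hg' := abs_sum_g hE ω h'
  have hn := nev_le_nh hE ω h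
  have hn' := nev_le_nh hE ω h'
  set G := ∑ z, E.g u x z (ω z) with hG
  set G' := ∑ z, E.g u' x' z (ω z) with hG'
  set DD := ∑ z, E.g u x z (ω z) * E.g u' x' z (ω z) with hDD
  set off := ∑ z, ∑ z' ∈ univ.erase z, (E.hit u x z (ω z) : ℝ) * E.hit u' x' z' (ω z') with hoff
  set n : ℝ := (E.nh ω u x : ℝ) with hnn
  set n' : ℝ := (E.nh ω u' x' : ℝ) with hnn'
  have hoff0 : 0 ≤ off := Finset.sum_nonneg fun z _ => Finset.sum_nonneg fun z' _ => by
    positivity
  have hn0 : 0 ≤ n := Nat.cast_nonneg _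
  have hn0' : 0 ≤ n' := Nat.cast_nonneg _
  have e1 : ∑ z, (E.g u x z (ω z) + E.g u' x' z (ω z) + E.g u x z (ω z) * E.g u' x' z (ω z)) =
      G + G' + DD := by
    rw [Finset.sum_add_distrib, Finset.sum_add_distrib]
  rw [e1]
  -- the off-diagonal part
  have e2 : |G * G' - DD| ≤ E.th ^ 2 * off := by
    have e3 : G * G' - DD = ∑ z, ∑ z' ∈ univ.erase z, E.g u x z (ω z) * E.g u' x' z' (ω z') := by
      rw [hG, hG', hDD, Finset.sum_mul_sum, ← Finset.sum_sub_distrib]
      refine Finset.sum_congr rfl fun z _ => ?_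
      rw [← Finset.add_sum_erase univ _ (mem_univ z)]
      ring
    rw [e3, hoff, Finset.mul_sum]
    refine (Finset.abs_sum_le_sum_abs _ _).trans (Finset.sum_le_sum fun z _ => ?_)
    rw [Finset.mul_sum]
    refine (Finset.abs_sum_le_sum_abs _ _).trans (Finset.sum_le_sum fun z' _ => ?_)
    rw [abs_mul]
    calc |E.g u x z (ω z)| * |E.g u' x' z' (ω z')|
        ≤ (E.th * E.hit u x z (ω z)) * (E.th * E.hit u' x' z' (ω z')) :=
          mul_le_mul (g_abs hE h _ _) (g_abs hE h' _ _) (abs_nonneg _) (by positivity)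
      _ = _ := by ring
  -- the diagonal part
  have e4 : |DD| ≤ E.th ^ 2 * (2 * n) ∧ |DD| ≤ E.th ^ 2 * (2 * n') := by
    have e5 : |DD| ≤ ∑ z, E.th ^ 2 * ((E.hit u x z (ω z) : ℝ) * E.hit u' x' z (ω z)) := by
      rw [hDD]
      refine (Finset.abs_sum_le_sum_abs _ _).trans (Finset.sum_le_sum fun z _ => ?_)
      rw [abs_mul]
      calc |E.g u x z (ω z)| * |E.g u' x' z (ω z)|
          ≤ (E.th * E.hit u x z (ω z)) * (E.th * E.hit u' x' z (ω z)) :=
            mul_le_mul (g_abs hE h _ _) (g_abs hE h' _ _) (abs_nonneg _) (by positivity)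
        _ = _ := by ring
    constructor
    · refine e5.trans ?_
      rw [← Finset.mul_sum]
      refine mul_le_mul_of_nonneg_left ?_ (by positivity)
      rw [hnn]
      unfold nh
      push_cast
      rw [Finset.mul_sum]
      refine Finset.sum_le_sum fun z _ => ?_
      have h2 : (E.hit u' x' z (ω z) : ℝ) ≤ 2 := by exact_mod_cast hit_le_two hE u' x' z (ω z)
      have h3 : (0 : ℝ) ≤ E.hit u x z (ω z) := Nat.cast_nonneg _
      nlinarith
    · refine e5.trans ?_
      rw [← Finset.mul_sum]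
      refine mul_le_mul_of_nonneg_left ?_ (by positivity)
      rw [hnn']
      unfold nh
      push_cast
      rw [Finset.mul_sum]
      refine Finset.sum_le_sum fun z _ => ?_
      have h2 : (E.hit u x z (ω z) : ℝ) ≤ 2 := by exact_mod_cast hit_le_two hE u x z (ω z)
      have h3 : (0 : ℝ) ≤ E.hit u' x' z (ω z) := Nat.cast_nonneg _
      nlinarith
  obtain ⟨hX0, hX1⟩ := hX
  obtain ⟨hX0', hX1'⟩ := hX'
  have hXX : E.s.X u x * E.s.X u' x' ≤ 101 / 100 * E.th ^ 2 := by
    calc E.s.X u x * E.s.X u' x' ≤ (1001 / 1000 * E.th) * (1001 / 1000 * E.th) :=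
          mul_le_mul hX1 hX1' hX0' (by positivity)
      _ ≤ 101 / 100 * E.th ^ 2 := by nlinarith [sq_nonneg E.th]
  by_cases c1 : E.nev ω u x ≤ 1
  · by_cases c2 : E.nev ω u' x' ≤ 1
    · obtain ⟨a1, a2⟩ := nX_le_of_le_one hE ω h c1
      obtain ⟨a1', a2'⟩ := nX_le_of_le_one hE ω h' c2
      exact mulB_one hX0 hX0' hXX hth hth4 hH hH' hg hg' e2 hoff0 hn0 hn0' (nat_mul_pred _)
        (nat_mul_pred _) a1 a2 a1' (nX_nonneg hE ω u' x')
    · have h0 : E.nX ω u' x' = 0 := by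
        rcases nX_cases hE ω h' with ⟨h2, -⟩ | ⟨h2, -⟩ | ⟨h2, -⟩ | ⟨-, h3⟩
        · omega
        · omega
        · omega
        · exact h3
      rw [h0, mul_zero]
      have h2n : (2 : ℝ) ≤ n' := by
        have : 2 ≤ E.nh ω u' x' := by omega
        rw [hnn']
        exact_mod_cast this
      have hh := mulB_two (X := E.s.X u' x') (X' := E.s.X u x) (th := E.th) (T := E.T)
        (H := E.H u' x') (H' := E.H u x) (G := G') (G' := G) (DD := DD) (off := off) (n := n')
        (n' := n) hX0' hX0 (by rw [mul_comm]; exact hXX) hth hth4 hH' hH hg' hg e4.2 hoff0 h2n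
        hn0 (nat_mul_pred _)
      refine hh.trans (le_of_eq ?_)
      ring
  · have h0 : E.nX ω u x = 0 := by
      rcases nX_cases hE ω h with ⟨h2, -⟩ | ⟨h2, -⟩ | ⟨h2, -⟩ | ⟨-, h3⟩
      · omega
      · omega
      · omega
      · exact h3
    rw [h0, zero_mul]
    have h2n : (2 : ℝ) ≤ n := by
      have : 2 ≤ E.nh ω u x := by omega
      rw [hnn]
      exact_mod_cast this
    exact mulB_two hX0 hX0' hXX hth hth4 hH hH' hg hg' e4.1 hoff0 h2n hn0' (nat_mul_pred _)

end

end ORd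

end

end Pool.Agent.AcyK
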