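import Pool.Agent.AcyK.OStat
import Pool.Agent.AcyK.OBas
import Pool.Agent.AcyK.OLaw
import Pool.Agent.AcyK.OExt
import Pool.Agent.AcyK.OUpdA
import Pool.Agent.AcyK.OUpdB
import Pool.Agent.AcyK.OUpdC
import Pool.Agent.AcyK.OTailA
import Pool.Agent.AcyK.OTailB
import Pool.Agent.AcyK.OCntA
import Pool.Agent.AcyK.OCntB
import Pool.Agent.AcyK.OCntC
import Pool.Agent.AcyK.OCntD
import Pool.Agent.AcyK.OCov
import Pool.Agent.AcyK.ODriftA
import Pool.Agent.AcyK.ODriftB
import Pool.Agent.AcyK.ODriftC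

/-! # The invariants after one round (row OR) -/

set_option autoImplicit false
set_option linter.unusedSectionVars false

namespace Pool.Agent.AcyK

open Finset
open Pool.Agent.Acy (IsPM wt Ex Pr mean)
open scoped Classical

universe u v w

section

variable {V : Type u} [Fintype V] [DecidableEq V]

namespace ORd

variable {E : ORd V} {C : V → Option (Fin E.k × ℕ)}

/-- All events of the round together, as one local family. -/
theorem good_loc (hE : E.Ok C) : LocOK 20010 E.T E.law E.Good := by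
  have hT := hE.prt_ok.dat.big
  have h1 := LocOK.and hT (LocOK.and hT (loc_t1 hE) (loc_t2 hE))
    (LocOK.and hT (loc_t3 hE) (loc_t4 hE))
  have h2 := LocOK.and hT (LocOK.and hT (loc_t5 hE) (loc_pos hE))
    (LocOK.and hT (loc_c1 hE) (loc_c2 hE))
  have h3 := LocOK.and hT (LocOK.and hT (loc_c3 hE) (loc_c4 hE))
    (LocOK.and hT (loc_c5 hE) (loc_c6 hE))
  have h4 := LocOK.and hT (LocOK.and hT (loc_c7 hE) (loc_c8 hE))
    (LocOK.and hT (loc_c9 hE) (loc_c10 hE))
  have h5 := LocOK.mono hT (LocOK.and hT (LocOK.and hT h1 h2) (LocOK.and hT h3 h4))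
    (show 20000 + 1 + 1 + 1 + 1 ≤ 20010 by norm_num)
  obtain ⟨κ, hκ, EE, S', hd, hp, hs, hi, hg⟩ := h5
  refine ⟨κ, hκ, EE, S', hd, hp, hs, hi, fun ω hEE => ?_⟩
  obtain ⟨⟨⟨⟨a1, a2⟩, a3, a4⟩, ⟨a5, a6⟩, b1, b2⟩, ⟨⟨b3, b4⟩, b5, b6⟩, ⟨b7, b8⟩, b9, b10⟩ :=
    hg ω hEE
  exact ⟨a6, a1, a2, a3, a4, a5, b1, b2, b3, b4, b5, b6, b7, b8, b9, b10⟩

theorem inv_next (hE : E.Ok C) (ω : V → E.Pick) (hG : E.Good ω)
    {Y' : V → V → ℝ} (hY0 : ∀ u x, 0 ≤ Y' u x)
    (hY : ∀ u x, E.site u x → Y' u x ≤ E.Y u x - E.H u x + 1 / E.T ^ 1000) :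
    E.SInv (E.m + 1) (E.nCol ω) Y' (E.next ω) := by
  have hT := hE.prt_ok.dat.big
  have hT0 := hT.pos
  have hT1 := hT.one_le
  have hI := hE.inv
  have htau := OData.tau_ge hE.prt_ok.dat
  have hm : ((E.m + 1 : ℕ) : ℝ) = (E.m : ℝ) + 1 := by push_cast; ring
  have hacc : ∀ u x, E.site u x → E.acc E.m E.Y u x ≤ E.acc (E.m + 1) Y' u x := by
    intro u x h
    have h1 := hY u x h
    have h2 := H_nonneg hE u x
    unfold OPart.acc
    rw [hm, add_div]
    linarith
  -- the sum of the actual hazards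
  have hXH : ∀ x, 0 ≤ ∑ u, E.s.X u x * E.H0 u x := by
    intro x
    refine Finset.sum_nonneg fun u _ => mul_nonneg (X_nonneg hE u x) ?_
    unfold ORd.H0
    split_ifs
    · exact H_nonneg hE u x
    · exact le_rfl
  refine
    { Y_nonneg := hY0
      acc_nonneg := fun u x h => (hI.acc_nonneg u x h).trans (hacc u x h)
      X_symm := fun u x => (next_symm hE ω u x).1
      st_symm := fun u x => (next_symm hE ω u x).2
      off := fun u x h => next_off hE ω h
      cases := next_cases hE ω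
      dead0 := fun u x h => next_dead0 hE ω h
      fr_ne := fun u x h => next_fr_ne hE ω h
      act0 := fun u x h => hI.act0 u x (next_nf hE ω h)
      frYS := fun u x h => next_frYS hE ω h
      fr0 := fun u x h => next_fr0 hE ω h
      act_le := fun u x h h1 => next_act_le hE ω hY h h1
      asl_le := fun u x h h1 => next_asl_le hE ω hY h h1
      inj := fun u x hs h h0 z hz z' hz' hne => next_inj hE ω hG.pos hs h h0 hz hz' hne
      e0 := fun v c => next_e0 hE ω hG.c9 v c
      e5 := ?_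
      ma := ?_
      la := ?_
      om := ?_
      gr := ?_
      nA := ?_
      nF := ?_ }
  · intro u x u' x' hs hs' h h' h0 h0' hn
    obtain ⟨h1, h2⟩ := next_act hE ω h h0
    obtain ⟨h1', h2'⟩ := next_act hE ω h' h0'
    have h3 := hG.c10 u x u' x' ⟨hs, h1, h2⟩ ⟨hs', h1', h2'⟩ hn
    have h4 := hI.e5 u x u' x' hs hs' h1 h1' h2 h2' hn
    rw [hm, add_mul, one_mul]
    linarith
  · intro x hx
    have h1 := hI.ma x hx
    have h2 := ma_step hE ω hG hx
    have h3 : E.Ma (E.next ω) x - E.Ma E.s0 x =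
      (E.Ma (E.next ω) x - E.Ma E.s x) + (E.Ma E.s x - E.Ma E.s0 x) := by ring
    rw [h3, hm, add_mul, one_mul]
    refine (abs_add_le _ _).trans ?_
    linarith
  · intro x hx
    have h1 := hI.la x hx
    have h2 := la_step hE ω hG hx
    have h3 := accS_step hE hY hx
    have h4 := hXH x
    have h5 : 102 / 100 * E.tau * (∑ u, E.s.X u x * E.H0 u x) ≤
        103 / 100 * E.tau * (E.accS (E.m + 1) Y' x - E.accS E.m E.Y x) := by
      have h6 : 102 / 100 * (∑ u, E.s.X u x * E.H0 u x) ≤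
          103 / 100 * (E.accS (E.m + 1) Y' x - E.accS E.m E.Y x) := by linarith
      have h7 := mul_le_mul_of_nonneg_left h6 (show (0 : ℝ) ≤ E.tau by linarith)
      linarith
    rw [hm, add_mul, one_mul]
    have h8 : 103 / 100 * E.tau * (E.accS (E.m + 1) Y' x - E.accS E.m E.Y x) =
      103 / 100 * E.tau * E.accS (E.m + 1) Y' x - 103 / 100 * E.tau * E.accS E.m E.Y x := by ring
    linarith
  · intro x hx
    have h1 := hI.om x hx
    have h2 := om_step hE ω hG hx
    have h3 := accS_step hE hY hx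
    have h4 := hXH x
    rw [hm, add_mul, one_mul]
    linarith
  · intro y y' hy hyy hne hc
    have h1 := hI.gr y y' hy hyy hne hc
    have h2 := gr_step hE ω hG hy hyy hne hc
    have h3 : E.Gr (E.next ω) y y' - E.Gr E.s0 y y' =
      (E.Gr (E.next ω) y y' - E.Gr E.s y y') + (E.Gr E.s y y' - E.Gr E.s0 y y') := by ring
    rw [h3, hm, add_mul, one_mul]
    refine (abs_add_le _ _).trans ?_
    linarith
  · intro x hx
    have h1 := hI.nA x hx
    have h2 := next_nA hE ω hx
    have h3 := hG.c1 x hx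
    rw [hm, add_mul, one_mul]
    linarith
  · intro x hx
    have h1 := hI.nF x hx
    have h2 := next_nF hE ω hx
    have h3 := hG.c7 x hx
    have h4 := hG.c8 x hx
    have h5 : E.T ^ 2334 + E.T ^ 2970 ≤ E.T ^ 2971 := by
      have h6 : E.T ^ 2334 ≤ E.T ^ 2970 := hT.pw (by norm_num)
      have h7 : 2 * E.T ^ 2970 ≤ E.T ^ 2971 := by
        have h7 : E.T ^ 2971 = E.T ^ 2970 * E.T := pow_succ _ _
        have h8 := pow_pos hT0 2970
        have h9 := hT.big
        rw [h7]
        nlinarith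
      linarith
    rw [hm, add_mul, one_mul]
    linarith

end ORd

end

end Pool.Agent.AcyK
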