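import Mathlib

/-! # Rosenfeld counting (module RC1) -/

set_option autoImplicit false
set_option linter.unusedSectionVars false

namespace Pool.Agent.AcyK

open Finset
open scoped Classical

universe u

/-- Colourings without violated constraint inside `S`. -/
noncomputable def rgood {W κ : Type*} [Fintype W] [DecidableEq W] [Fintype κ] {n : ℕ}
    (sup : κ → Finset W) (bad : κ → (W → Fin n) → Prop) (S : Finset W) : Finset (W → Fin n) :=
  univ.filter fun g => ∀ c, sup c ⊆ S → ¬ bad c g

theorem mem_rgood {W κ : Type*} [Fintype W] [DecidableEq W] [Fintype κ] {n : ℕ}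
    (sup : κ → Finset W) (bad : κ → (W → Fin n) → Prop) (S : Finset W) (g : W → Fin n) :
    g ∈ rgood sup bad S ↔ ∀ c, sup c ⊆ S → ¬ bad c g := by
  simp [rgood]

/-- Resampling a set of coordinates on which the values are determined. -/
theorem rosen_count {W : Type*} [Fintype W] [DecidableEq W] {n : ℕ} (T : Finset W)
    (F : Finset (W → Fin n)) (Q : (W → Fin n) → Prop)
    (hP : ∀ g g', (∀ u, u ∉ T → g u = g' u) → g ∈ F → g' ∈ F)
    (hQ : ∀ g g', Q g → Q g' → (∀ u, u ∉ T → g u = g' u) → ∀ u ∈ T, g u = g' u) :
    (F.filter Q).card * n ^ T.card ≤ F.card := by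
  have h1 : ((F.filter Q) ×ˢ (univ : Finset ({x // x ∈ T} → Fin n))).card =
      (F.filter Q).card * n ^ T.card := by
    rw [card_product, card_univ, Fintype.card_fun, Fintype.card_fin, Fintype.card_coe]
  rw [← h1]
  apply card_le_card_of_injOn
    (fun x : (W → Fin n) × ({x // x ∈ T} → Fin n) =>
      fun u => if hu : u ∈ T then x.2 ⟨u, hu⟩ else x.1 u)
  · rintro ⟨g, h⟩ hgh
    simp only [coe_product, coe_filter, coe_univ, Set.mem_prod,
      Set.mem_ofPred_eq, Set.mem_univ, and_true] at hgh
    refine mem_coe.2 (hP g _ (fun u hu => ?_) hgh.1)
    simp [hu]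
  · rintro ⟨g, h⟩ hgh ⟨g', h'⟩ hgh' heq
    simp only [coe_product, coe_filter, coe_univ, Set.mem_prod,
      Set.mem_ofPred_eq, Set.mem_univ, and_true] at hgh hgh'
    have h2 : ∀ u, u ∉ T → g u = g' u := by
      intro u hu
      have := congrFun heq u
      simpa [hu] using this
    have h3 := hQ g g' hgh.2 hgh'.2 h2
    have h4 : g = g' := by
      funext u
      by_cases hu : u ∈ T
      · exact h3 u hu
      · exact h2 u hu
    have h5 : h = h' := by
      funext u
      have := congrFun heq u.1
      simpa [u.2] using this
    rw [h4, h5]

/-- RC1 (Rosen.lean): Rosenfeld counting. `sup c` is the set of vertices of the constraint `c`, `e c` the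
number of equalities in it. Proof: `Pr(good on S + v) >= (beta / n) Pr(good on S)` for uniform colours, by
induction on `S`: a violated constraint `c` through `v` has probability at most
`n ^ (-e c) Pr(good on S minus T)`. -/
theorem rosenfeld {W κ : Type*} [Fintype W] [DecidableEq W] [Fintype κ] {n : ℕ} (β : ℝ) (hβ : 0 < β)
    (hn : 0 < n) (sup : κ → Finset W) (e : κ → ℕ) (bad : κ → (W → Fin n) → Prop)
    (hne : ∀ c, (sup c).Nonempty)
    (hdep : ∀ c g g', (∀ v ∈ sup c, g v = g' v) → bad c g → bad c g')
    (hdet : ∀ c, ∀ v ∈ sup c, ∃ T ⊆ sup c, v ∈ T ∧ T.card = e c ∧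
      ∀ g g', bad c g → bad c g' → (∀ u ∈ sup c \ T, g u = g' u) → ∀ u ∈ T, g u = g' u)
    (hsum : ∀ v, ∑ c ∈ univ.filter (fun c => v ∈ sup c), 1 / β ^ (e c - 1) ≤ n - β) :
    ∃ g : W → Fin n, ∀ c, ¬ bad c g := by
  have hn' : (0 : ℝ) < n := by exact_mod_cast hn
  set N : Finset W → ℝ := fun S => ((rgood sup bad S).card : ℝ) with hN
  have hN0 : ∀ S, 0 ≤ N S := fun S => by positivity
  -- chains
  have hchain : ∀ S : Finset W, (∀ S' : Finset W, S'.card < S.card → ∀ v, v ∉ S' →
      β / n * N S' ≤ N (insert v S')) →
      ∀ T : Finset W, T ⊆ S → (β / n) ^ T.card * N (S \ T) ≤ N S := by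
    intro S hS T
    induction T using Finset.induction_on with
    | empty => intro _; simp
    | insert u T hu ih =>
      intro hT
      have hT' : T ⊆ S := fun x hx => hT (mem_insert_of_mem hx)
      have huS : u ∈ S := hT (mem_insert_self u T)
      have h1 : insert u (S \ insert u T) = S \ T := by
        ext x
        simp only [mem_insert, mem_sdiff, not_or]
        constructor
        · rintro (rfl | ⟨hx, _, hxT⟩)
          · exact ⟨huS, hu⟩
          · exact ⟨hx, hxT⟩
        · rintro ⟨hx, hxT⟩
          by_cases hxu : x = u
          · exact Or.inl hxu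
          · exact Or.inr ⟨hx, hxu, hxT⟩
      have h2 : (S \ insert u T).card < S.card := by
        apply card_lt_card
        refine ⟨sdiff_subset, fun h => ?_⟩
        have := h huS
        simp at this
      have h3 := hS _ h2 u (by simp)
      rw [h1] at h3
      rw [card_insert_of_notMem hu, pow_succ]
      calc (β / n) ^ T.card * (β / n) * N (S \ insert u T)
          = (β / n) ^ T.card * (β / n * N (S \ insert u T)) := by ring
        _ ≤ (β / n) ^ T.card * N (S \ T) := mul_le_mul_of_nonneg_left h3 (by positivity)
        _ ≤ N S := ih hT'
  -- main step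
  have hstep : ∀ m : ℕ, ∀ S : Finset W, S.card = m → ∀ v, v ∉ S →
      β / n * N S ≤ N (insert v S) := by
    intro m
    induction m using Nat.strong_induction_on with
    | _ m ih =>
      intro S hSm v hv
      have hch := hchain S (fun S' hS' w hw => ih S'.card (hSm ▸ hS') S' rfl w hw)
      -- the violating colourings of a constraint
      have hviol : ∀ c, v ∈ sup c → sup c ⊆ insert v S →
          (((rgood sup bad S).filter fun g => bad c g).card : ℝ) ≤
            N S / n * (1 / β ^ (e c - 1)) := by
        intro c hvc hcS
        obtain ⟨T, hTs, hvT, hTe, hTd⟩ := hdet c v hvc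
        have hTne : T.card ≠ 0 := card_ne_zero_of_mem hvT
        have h1 := rosen_count T (rgood sup bad (insert v S \ T)) (bad c)
          (by
            intro g g' hgg hg
            rw [mem_rgood] at hg ⊢
            intro c' hc' hb
            refine hg c' hc' (hdep c' g' g (fun u hu => ?_) hb)
            have := hc' hu
            rw [mem_sdiff] at this
            exact (hgg u this.2).symm)
          (by
            intro g g' hg hg' hgg
            exact hTd g g' hg hg' (fun u hu => hgg u (mem_sdiff.1 hu).2))
        have h2 : insert v S \ T = S \ (T.erase v) := by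
          ext x
          simp only [mem_sdiff, mem_insert, mem_erase, not_and]
          constructor
          · rintro ⟨rfl | hx, hxT⟩
            · exact absurd hvT hxT
            · exact ⟨hx, fun _ => hxT⟩
          · rintro ⟨hx, hxT⟩
            exact ⟨Or.inr hx, hxT (fun h => hv (h ▸ hx))⟩
        have h3 : T.erase v ⊆ S := by
          intro x hx
          rw [mem_erase] at hx
          have := hcS (hTs hx.2)
          rw [mem_insert] at this
          exact this.resolve_left hx.1
        have h4 := hch (T.erase v) h3
        rw [card_erase_of_mem hvT, hTe, ← h2] at h4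
        have h5 : (((rgood sup bad S).filter fun g => bad c g).card : ℝ) ≤
            (((rgood sup bad (insert v S \ T)).filter fun g => bad c g).card : ℝ) := by
          apply Nat.cast_le.2
          apply card_le_card
          intro g hg
          rw [mem_filter, mem_rgood] at hg
          rw [mem_filter, mem_rgood]
          refine ⟨fun c' hc' => hg.1 c' ?_, hg.2⟩
          rw [h2] at hc'
          exact hc'.trans sdiff_subset
        have h6 : (((rgood sup bad (insert v S \ T)).filter fun g => bad c g).card : ℝ) *
            (n : ℝ) ^ (e c) ≤ N (insert v S \ T) := by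
          rw [hTe] at h1
          simp only [hN]
          exact_mod_cast h1
        obtain ⟨j, hj⟩ : ∃ j, e c = j + 1 := ⟨e c - 1, by omega⟩
        rw [hj] at h4 h6 ⊢
        simp only [Nat.add_sub_cancel] at h4 ⊢
        have h7 : 0 < (n : ℝ) ^ (j + 1) := by positivity
        have h8 : 0 < β ^ j := by positivity
        have h9 : 0 < (n : ℝ) ^ j := by positivity
        rw [div_pow] at h4
        have h10 : N (insert v S \ T) ≤ N S * (n : ℝ) ^ j / β ^ j := by
          rw [le_div_iff₀ h8]
          have : β ^ j / (n : ℝ) ^ j * N (insert v S \ T) * (n : ℝ) ^ j ≤ N S * (n : ℝ) ^ j :=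
            mul_le_mul_of_nonneg_right h4 h9.le
          calc N (insert v S \ T) * β ^ j
              = β ^ j / (n : ℝ) ^ j * N (insert v S \ T) * (n : ℝ) ^ j := by
                field_simp
            _ ≤ _ := this
        refine h5.trans ?_
        rw [← le_div_iff₀ h7] at h6
        refine h6.trans ((div_le_div_of_nonneg_right h10 h7.le).trans (le_of_eq ?_))
        rw [pow_succ]
        field_simp
      -- union bound
      have hun : rgood sup bad S ⊆ rgood sup bad (insert v S) ∪
          (univ.filter fun c => v ∈ sup c ∧ sup c ⊆ insert v S).biUnion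
            (fun c => (rgood sup bad S).filter fun g => bad c g) := by
        intro g hg
        by_cases h : g ∈ rgood sup bad (insert v S)
        · exact mem_union_left _ h
        · apply mem_union_right
          rw [mem_rgood] at h
          push Not at h
          obtain ⟨c, hc, hb⟩ := h
          rw [mem_biUnion]
          refine ⟨c, ?_, mem_filter.2 ⟨hg, hb⟩⟩
          rw [mem_filter]
          refine ⟨mem_univ _, ?_, hc⟩
          by_contra hvc
          rw [mem_rgood] at hg
          refine hg c (fun x hx => ?_) hb
          have := hc hx
          rw [mem_insert] at this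
          rcases this with rfl | h
          · exact absurd hx hvc
          · exact h
      have hcard : N S ≤ N (insert v S) +
          ∑ c ∈ univ.filter (fun c => v ∈ sup c ∧ sup c ⊆ insert v S),
            (((rgood sup bad S).filter fun g => bad c g).card : ℝ) := by
        have h1 := card_le_card hun
        have h2 := h1.trans (card_union_le _ _)
        have h3 := h2.trans (Nat.add_le_add_left card_biUnion_le _)
        simp only [hN]
        exact_mod_cast h3
      have hle : ∑ c ∈ univ.filter (fun c => v ∈ sup c ∧ sup c ⊆ insert v S),
            (((rgood sup bad S).filter fun g => bad c g).card : ℝ) ≤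
          N S / n * (n - β) := by
        calc ∑ c ∈ univ.filter (fun c => v ∈ sup c ∧ sup c ⊆ insert v S),
            (((rgood sup bad S).filter fun g => bad c g).card : ℝ)
            ≤ ∑ c ∈ univ.filter (fun c => v ∈ sup c ∧ sup c ⊆ insert v S),
              N S / n * (1 / β ^ (e c - 1)) := by
              refine sum_le_sum fun c hc => ?_
              rw [mem_filter] at hc
              exact hviol c hc.2.1 hc.2.2
          _ ≤ ∑ c ∈ univ.filter (fun c => v ∈ sup c), N S / n * (1 / β ^ (e c - 1)) := by
              apply sum_le_sum_of_subset_of_nonneg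
              · intro c hc
                rw [mem_filter] at hc ⊢
                exact ⟨hc.1, hc.2.1⟩
              · intro c _ _
                have := hN0 S
                positivity
          _ = N S / n * ∑ c ∈ univ.filter (fun c => v ∈ sup c), 1 / β ^ (e c - 1) := by
              rw [mul_sum]
          _ ≤ N S / n * (n - β) := mul_le_mul_of_nonneg_left (hsum v) (by
              have := hN0 S
              positivity)
      have h1 : N S / n * (n - β) = N S - β / n * N S := by
        field_simp
      rw [h1] at hle
      linarith
  -- conclusion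
  have hfin := hchain univ (fun S' _ v hv => hstep S'.card S' rfl v hv) univ (subset_refl _)
  have h0 : N (univ \ univ) = (n : ℝ) ^ Fintype.card W := by
    have : rgood sup bad (univ \ univ) = univ := by
      ext g
      simp only [mem_rgood, sdiff_self, mem_univ, iff_true]
      intro c hc
      obtain ⟨x, hx⟩ := hne c
      have := hc hx
      simp at this
    simp only [hN]
    rw [this, card_univ, Fintype.card_fun, Fintype.card_fin]
    push_cast
    rfl
  have hpos : 0 < N univ := by
    refine lt_of_lt_of_le ?_ hfin
    rw [h0]
    positivity
  have hne' : (rgood sup bad univ).Nonempty := by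
    rw [← card_pos]
    simp only [hN] at hpos
    exact_mod_cast hpos
  obtain ⟨g, hg⟩ := hne'
  rw [mem_rgood] at hg
  exact ⟨g, fun c => hg c (subset_univ _)⟩

end Pool.Agent.AcyK
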