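import Pool.Agent.AcyK.DRecol

/-! # The acyclic chromatic number; the bound `14 d ^ (4/3)` (project MP_af9dfb_K) -/

set_option autoImplicit false
set_option linter.unusedSectionVars false

namespace Pool.Agent.AcyK

open Finset
open scoped Classical

universe u v

/-- Acyclic chromatic number. -/
noncomputable def acyclicNumber {V : Type*} (G : SimpleGraph V) : ℕ :=
  sInf {n | ∃ f : V → Fin n, IsAcyclicColouring G f}

/-- Acyclic colourings can be transported along an equivalence of the colours. -/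
theorem IsAcyclicColouring.equiv {V α β : Type*} {G : SimpleGraph V} {f : V → α}
    (h : IsAcyclicColouring G f) (e : α ≃ β) : IsAcyclicColouring G (fun v => e (f v)) := by
  refine ⟨fun u v huv he => h.1 u v huv (e.injective he), fun a b => ?_⟩
  have : {v | e (f v) = a ∨ e (f v) = b} = {v | f v = e.symm a ∨ f v = e.symm b} := by
    ext v
    simp only [Set.mem_ofPred_eq, Equiv.eq_symm_apply]
  rw [this]
  exact h.2 _ _

theorem acyclicNumber_le {V α : Type*} [Fintype α] {G : SimpleGraph V} {f : V → α}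
    (h : IsAcyclicColouring G f) : acyclicNumber G ≤ Fintype.card α :=
  Nat.sInf_le ⟨fun v => Fintype.equivFin α (f v), h.equiv (Fintype.equivFin α)⟩

/-- An arithmetic estimate. -/
theorem triv_num {y N : ℝ} (hy : 1 ≤ y) (hN : 6 * y ^ 4 ≤ N) :
    2 * (y ^ 3 + 0 + (y ^ 3) ^ 2 / y ^ 2) +
      (4 * y ^ 2 * (y ^ 3) ^ 2 + 0 * (y ^ 3) ^ 2 + 2 * 0 * y ^ 3) / N +
      5 * (y ^ 3) ^ 4 / N ^ 2 ≤ N := by
  have hy0 : 0 < y := by linarith
  have hN0 : 0 < N := lt_of_lt_of_le (by positivity) hN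
  have e1 : (y ^ 3) ^ 2 / y ^ 2 = y ^ 4 := by
    field_simp
  have e2 : (4 * y ^ 2 * (y ^ 3) ^ 2 + 0 * (y ^ 3) ^ 2 + 2 * 0 * y ^ 3) / N ≤ 2 / 3 * y ^ 4 := by
    rw [div_le_iff₀ hN0]
    have : 2 / 3 * y ^ 4 * (6 * y ^ 4) ≤ 2 / 3 * y ^ 4 * N :=
      mul_le_mul_of_nonneg_left hN (by positivity)
    calc 4 * y ^ 2 * (y ^ 3) ^ 2 + 0 * (y ^ 3) ^ 2 + 2 * 0 * y ^ 3 = 2 / 3 * y ^ 4 * (6 * y ^ 4) := by
          ring
      _ ≤ _ := this
  have e3 : 5 * (y ^ 3) ^ 4 / N ^ 2 ≤ 1 / 2 * y ^ 4 := by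
    rw [div_le_iff₀ (by positivity)]
    have h1 : (6 * y ^ 4) ^ 2 ≤ N ^ 2 := pow_le_pow_left₀ (by positivity) hN 2
    have h2 : 1 / 2 * y ^ 4 * (6 * y ^ 4) ^ 2 ≤ 1 / 2 * y ^ 4 * N ^ 2 :=
      mul_le_mul_of_nonneg_left h1 (by positivity)
    have h3 : 5 * (y ^ 3) ^ 4 ≤ 1 / 2 * y ^ 4 * (6 * y ^ 4) ^ 2 := by
      have : 1 / 2 * y ^ 4 * (6 * y ^ 4) ^ 2 = 18 * (y ^ 3) ^ 4 := by ring
      rw [this]
      have : 0 ≤ (y ^ 3) ^ 4 := by positivity
      linarith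
    linarith
  have e4 : y ^ 3 ≤ y ^ 4 := pow_le_pow_right₀ hy (by norm_num)
  rw [e1]
  have e5 : 0 ≤ y ^ 4 := by positivity
  linarith

theorem card_le_zero {α : Type*} (S : Finset α) (h : ∀ a, a ∉ S) : (S.card : ℝ) ≤ 0 := by
  rw [Finset.eq_empty_of_forall_notMem h, Finset.card_empty, Nat.cast_zero]

/-- All vertices dropped. -/
theorem triv_ok {V : Type u} [Fintype V] {γ : Type v} (f : V → γ) (G : SimpleGraph V)
    (D : Finset V) (hD : ∀ v, v ∈ D) {n : ℕ} {y : ℝ} (hy : 1 ≤ y)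
    (hn : 0 < n) (hny : 12 * y ^ 4 ≤ (n : ℝ)) (hdeg : ∀ v, ((nb G v).card : ℝ) ≤ y ^ 3) :
    RecolOk G D f n (y ^ 3) (y ^ 2) 0 0 0 := by
  refine RecolOk.mk ?_ ?_ ?_ ?_ ?_ ?_ ?_ ?_ ?_
  · exact fun u v hu => absurd (hD u) hu
  · exact fun α β v => absurd (hD v.1) v.2.1
  · positivity
  · intro v
    refine le_trans ?_ (hdeg v)
    exact_mod_cast Finset.card_le_card Finset.inter_subset_left
  · intro w _
    refine card_le_zero _ fun y' hy' => ?_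
    obtain ⟨-, z, z', hz, -⟩ := (Finset.mem_filter.1 hy').2
    exact hz (hD z)
  · intro w _
    exact card_le_zero _ fun y' hy' => (Finset.mem_filter.1 hy').2.1 (hD _)
  · intro w _
    exact (Finset.sum_eq_zero fun w _ => if_neg fun hw => hw.1 (hD w.1)).le
  · exact hn
  · exact triv_num hy (by linarith)

theorem triv_col {V : Type u} [Fintype V] {γ : Type v} (f : V → γ) (G : SimpleGraph V)
    {n : ℕ} {y : ℝ} (hy : 1 ≤ y)
    (hn : 0 < n) (hny : 12 * y ^ 4 ≤ (n : ℝ)) (hdeg : ∀ v, ((nb G v).card : ℝ) ≤ y ^ 3) :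
    ∃ g : V → γ ⊕ Fin n, IsAcyclicColouring G g :=
  D1.recolour_ok (triv_ok f G univ (fun v => mem_univ v) hy hn hny hdeg)

/-- The bound of Alon, McDiarmid and Reed, from the recolouring lemma with all vertices dropped. -/
theorem triv_bound {V : Type u} [Fintype V] (G : SimpleGraph V) {d : ℕ} (hd : 1 ≤ d)
    (hdeg : ∀ v, (nb G v).card ≤ d) :
    (acyclicNumber G : ℝ) ≤ 14 * (d : ℝ) ^ ((4 : ℝ) / 3) := by
  have hd1 : (1 : ℝ) ≤ d := by exact_mod_cast hd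
  have hd0 : (0 : ℝ) ≤ d := by linarith
  obtain ⟨y, hy1, hy3, hy4⟩ : ∃ y : ℝ, 1 ≤ y ∧ y ^ 3 = d ∧ y ^ 4 = (d : ℝ) ^ ((4 : ℝ) / 3) := by
    refine ⟨(d : ℝ) ^ ((1 : ℝ) / 3), Real.one_le_rpow hd1 (by norm_num), ?_, ?_⟩
    · rw [← Real.rpow_natCast, ← Real.rpow_mul hd0]
      norm_num
    · rw [← Real.rpow_natCast, ← Real.rpow_mul hd0]
      norm_num
  obtain ⟨n, hn1, hn2⟩ : ∃ n : ℕ, 12 * y ^ 4 ≤ (n : ℝ) ∧ (n : ℝ) < 12 * y ^ 4 + 1 :=
    ⟨_, Nat.le_ceil _, Nat.ceil_lt_add_one (by positivity)⟩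
  have hy41 : 1 ≤ y ^ 4 := one_le_pow₀ hy1
  have hnpos : 0 < n := by
    have : (0 : ℝ) < n := by linarith
    exact_mod_cast this
  obtain ⟨g, hg⟩ := triv_col (fun _ => ()) G hy1 hnpos hn1 (fun v => by
    rw [hy3]
    exact_mod_cast hdeg v)
  have h1 := acyclicNumber_le hg
  have h2 : Fintype.card (Unit ⊕ Fin n) = n + 1 := by simp [add_comm]
  rw [h2] at h1
  have h3 : (acyclicNumber G : ℝ) ≤ n + 1 := by exact_mod_cast h1
  rw [← hy4]
  linarith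

end Pool.Agent.AcyK
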