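import Pool.Agent.AcyK.DFinal
import Pool.Agent.AcyK.DTop
import Pool.Agent.AcyK.OParam
import Pool.Agent.AcyK.Triv

/-! # From the engine to all graphs with splittable link graphs (project MP_af9dfb_K) -/

set_option autoImplicit false
set_option linter.unusedSectionVars false

namespace Pool.Agent.AcyK

open Finset
open scoped Classical

universe u

/-- The number of colours, as a function of the degree and of the number of classes. -/
noncomputable def bnd (d NN : ℕ) : ℝ :=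
  ((1 + Real.log (2 * NN + 2)) / Real.log d) ^ ((1 : ℝ) / 3) * (d : ℝ) ^ ((4 : ℝ) / 3)

/-- The main case. -/
theorem main_case {V : Type u} [Fintype V] [DecidableEq V] (G : SimpleGraph V) {d NN : ℕ}
    (hdeg : ∀ v, (nb G v).card ≤ d)
    (hS : Splittable (nb G) NN (1 / (100 * (Real.log d / 3600))))
    {T : ℝ} {k q M R : ℕ} {am : ℝ} (h1 : T ^ 3600 = d) (h2 : Real.log T = Real.log d / 3600)
    (h3 : Big T) (h4 : T ^ 3999 ≤ k) (h5 : (k : ℝ) ≤ T ^ 4000) (h6 : (q : ℝ) ≤ T ^ 150)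
    (h7 : (M : ℝ) + T ^ 133 ≤ q) (h8 : ((q : ℝ) - M) / q ≤ 1 / T ^ 10)
    (h9 : T ^ 800 / 2 ≤ R) (h10 : (R : ℝ) ≤ T ^ 800) (h11 : 0 < am) (h12 : am ≤ T ^ 2401)
    (h13 : 2000 * T ^ 7200 ≤ R * k * am)
    (h14 : 100 * (1 + Real.log (2 * NN + 2)) * am ^ 2 ≤ R * k * Real.log T)
    (h15 : 2 * (NN : ℝ) + 4 ≤ Real.exp (Real.log T / 10)) :
    (acyclicNumber G : ℝ) ≤ 3 * (R * k) := by
  have hT0 := h3.pos
  have hT1 := h3.one_le
  have hsym : ∀ u v, u ∈ nb G v → v ∈ nb G u := by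
    intro u v huv
    rw [mem_nb] at huv ⊢
    exact huv.symm
  have hdeg' : ∀ v, ((nb G v).card : ℝ) ≤ T ^ 3600 := by
    intro v
    rw [h1]
    exact_mod_cast hdeg v
  obtain ⟨part, hpart⟩ := exists_part h3 h9 h10 h11 h12 hsym hdeg'
  let D : OData V := ⟨T, k, q, M, R, NN, am, nb G, part⟩
  have hD : D.Ok := by
    refine ⟨h3, h4, h5, h6, h7, h9, h10, h11, h12, h13, ?_, h15, hsym, ?_, hdeg', hpart⟩
    · exact h14
    · intro v hv
      have hv' : v ∈ nb G v := hv
      rw [mem_nb] at hv'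
      exact G.irrefl hv'
  have hS' : Splittable D.N D.NN (1 / (100 * Real.log D.T)) := by
    show Splittable (nb G) NN (1 / (100 * Real.log T))
    rw [h2]
    exact hS
  obtain ⟨f, f1, f2, f3, f4⟩ := OData.all_parts hD hS' h8
  have hRk : (0 : ℝ) ≤ (R : ℝ) * k := by positivity
  have hn : 100 * D.T ^ 4799 ≤ ((R * k : ℕ) : ℝ) := by
    show 100 * T ^ 4799 ≤ ((R * k : ℕ) : ℝ)
    push_cast
    have e1 : 2000 * T ^ 7200 ≤ R * k * T ^ 2401 :=
      h13.trans (mul_le_mul_of_nonneg_left h12 hRk)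
    have e2 : 2000 * T ^ 7200 = 2000 * T ^ 4799 * T ^ 2401 := by
      rw [mul_assoc, ← pow_add]
    rw [e2] at e1
    have e3 := le_of_mul_le_mul_right e1 (by positivity)
    have e4 : 0 ≤ T ^ 4799 := by positivity
    linarith
  obtain ⟨F, hF⟩ := OData.final_colouring hD (G := G) (fun v => rfl) f1 f2 f3 f4 hn
  have g1 := acyclicNumber_le hF
  have g2 : Fintype.card ((Fin D.R × Option (Fin D.k)) ⊕ Fin (R * k)) = R * (k + 1) + R * k := by
    simp [D]
  rw [g2] at g1
  have hk1 : 1 ≤ k := by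
    have : (0 : ℝ) < k := lt_of_lt_of_le (by positivity) h4
    have : 0 < k := by exact_mod_cast this
    exact this
  have g3 : R * (k + 1) + R * k ≤ 3 * (R * k) := by
    have : R ≤ R * k := Nat.le_mul_of_pos_right R hk1
    ring_nf
    ring_nf at this
    omega
  exact_mod_cast g1.trans g3

/-- Upper bound for all graphs with splittable link graphs. -/
theorem upper_core : ∃ d₀ : ℕ, ∀ d : ℕ, d₀ ≤ d → ∀ (V : Type u) [Fintype V] [DecidableEq V]
    (G : SimpleGraph V), (∀ v, (nb G v).card ≤ d) → ∀ NN : ℕ,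
    Splittable (nb G) NN (1 / (100 * (Real.log d / 3600))) →
    (acyclicNumber G : ℝ) ≤ 250000 * bnd d NN := by
  obtain ⟨d₀, h₀⟩ := exists_params
  refine ⟨max d₀ 3, fun d hd V _ _ G hdeg NN hS => ?_⟩
  have hd3 : 3 ≤ d := le_trans (le_max_right _ _) hd
  have hd3' : (3 : ℝ) ≤ d := by exact_mod_cast hd3
  have hlog : 0 < Real.log d := Real.log_pos (by linarith)
  have hτ : 0 < 1 + Real.log (2 * (NN : ℝ) + 2) := by
    have : 0 ≤ Real.log (2 * (NN : ℝ) + 2) := Real.log_nonneg (by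
      have : (0 : ℝ) ≤ NN := Nat.cast_nonneg _
      linarith)
    linarith
  have hb0 : 0 ≤ bnd d NN := by
    unfold bnd
    positivity
  by_cases hc : 10 ^ 9 * (1 + Real.log (2 * NN + 2)) ≤ Real.log d / 3600
  · obtain ⟨T, k, q, M, R, am, h1, h2, h3, h4, h5, h6, h7, h8, h9, h10, h11, h12, h13, h14, h15,
      h16⟩ := h₀ d (le_trans (le_max_left _ _) hd) NN hc
    have := main_case G hdeg hS h1 h2 h3 h4 h5 h6 h7 h8 h9 h10 h11 h12 h13 h14 h15
    have h16' : (R : ℝ) * k ≤ 50000 * bnd d NN := h16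
    linarith
  · push Not at hc
    have h1 := triv_bound G (d := d) (by omega) hdeg
    have h2 : (1 / 250000 * 14 : ℝ) ≤
        ((1 + Real.log (2 * NN + 2)) / Real.log d) ^ ((1 : ℝ) / 3) := by
      have h3 : ((1 / 250000 * 14 : ℝ)) = ((1 / 250000 * 14 : ℝ) ^ 3) ^ ((1 : ℝ) / 3) := by
        rw [← Real.rpow_natCast, ← Real.rpow_mul (by norm_num)]
        norm_num
      rw [h3]
      refine Real.rpow_le_rpow (by positivity) ?_ (by norm_num)
      rw [le_div_iff₀ hlog]
      have h4 : Real.log d / 3600 / 10 ^ 9 ≤ 1 + Real.log (2 * (NN : ℝ) + 2) := by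
        rw [div_le_iff₀ (by positivity)]
        linarith
      refine le_trans ?_ h4
      rw [div_div, div_eq_mul_inv, mul_comm]
      exact mul_le_mul_of_nonneg_left (by norm_num) hlog.le
    have h3 : 14 * (d : ℝ) ^ ((4 : ℝ) / 3) ≤ 250000 * bnd d NN := by
      unfold bnd
      have h4 : (0 : ℝ) ≤ (d : ℝ) ^ ((4 : ℝ) / 3) := by positivity
      have := mul_le_mul_of_nonneg_right h2 h4
      nlinarith
    linarith

end Pool.Agent.AcyK
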