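import Pool.Agent.AcyK.LamA

/-! # Tracked statistics of the real colours (project MP_af9dfb_K, end game) -/

set_option autoImplicit false
set_option linter.unusedSectionVars false

namespace Pool.Agent.AcyK

open Finset
open Pool.Agent.Acy (IsPM wt Ex Pr mean)
open scoped Classical

universe u v

section

variable {Q ι : Type u} [Fintype Q] [DecidableEq Q] [Fintype ι] [DecidableEq ι]
variable {A κ : Type u} [Fintype A] [Fintype κ]

/-- Conditional probability bound of the condition `q.1 has colour q.2`. -/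
noncomputable def rho {k : ℕ} (π : ℝ) (col : Q → Option (Fin k × ℕ)) (q : Q × Fin k) : ℝ :=
  if col q.1 = none then π else if ∃ r, col q.1 = some (q.2, r) then 1 else 0

/-- The potential of the configurations containing `W`. -/
noncomputable def Psi {k : ℕ} (π : ℝ) (col : Q → Option (Fin k × ℕ)) (w : κ → ℝ)
    (cd : κ → Finset (Q × Fin k)) (W : Finset (Q × Fin k)) : ℝ :=
  ∑ U, if W ⊆ cd U then w U * ∏ q ∈ cd U \ W, rho π col q else 0

/-- Number of new conditions. -/
noncomputable def newc {k : ℕ} (col : Q → Option (Fin k × ℕ)) (lam : Q → Option Bool)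
    (C : Finset (Q × Fin k)) : ℕ :=
  (C.filter fun q => q.1 ∈ Sel col lam true).card

/-- Potential with weight `#new` (`j = 1`) or `#new (#new - 1)` (`j = 2`). -/
noncomputable def PsiN {k : ℕ} (j : ℕ) (π : ℝ) (col : Q → Option (Fin k × ℕ))
    (lam : Q → Option Bool) (w : κ → ℝ) (cd : κ → Finset (Q × Fin k))
    (W : Finset (Q × Fin k)) : ℝ :=
  ∑ U, if W ⊆ cd U then
    w U * (∏ q ∈ cd U \ W, rho π col q) * ((newc col lam (cd U \ W)).descFactorial j : ℝ) else 0

/-- A local family of weight systems (index `a`) with levels `b`. -/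
structure Track (D : NibData Q ι) (w : A → κ → ℝ) (cd : κ → Finset (Q × Fin D.k)) (r : ℕ)
    (b : A → ℕ → ℝ) (S : A → Finset Q) : Prop where
  r_le : r ≤ 5
  w_nonneg : ∀ a U, 0 ≤ w a U
  cd_card : ∀ U, (cd U).card ≤ r
  cd_inj : ∀ U, ∀ q ∈ cd U, ∀ q' ∈ cd U, q.1 = q'.1 → q = q'
  supp : ∀ a U, w a U ≠ 0 → ∀ q ∈ cd U, q.1 ∈ S a
  supp_card : ∀ a, ((univ.filter fun U => w a U ≠ 0).card : ℝ) ≤ D.T ^ 30000
  S_card : ∀ a, ((S a).card : ℝ) ≤ D.T ^ 50000
  S_deg : ∀ i, ((univ.filter fun a => i ∈ S a).card : ℝ) ≤ D.T ^ 20000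
  b_pos : ∀ a s, 0 < b a s
  b_lev : ∀ a s, s < r → D.T ^ 320 * b a (s + 1) ≤ b a s

/-- The tracked bounds before round `m`. -/
def TrInv (D : NibData Q ι) (w : A → κ → ℝ) (cd : κ → Finset (Q × Fin D.k)) (r : ℕ)
    (b : A → ℕ → ℝ) (m : ℕ) (col : Q → Option (Fin D.k × ℕ)) : Prop :=
  ∀ a W, W.card ≤ r →
    Psi (2 * D.T / D.k) col (w a) cd W ≤ b a W.card * (1 / 2 + m / D.T ^ 151)

/-- The selection is typical for the tracked statistics. -/
def TrA (D : NibData Q ι) (w : A → κ → ℝ) (cd : κ → Finset (Q × Fin D.k)) (r : ℕ)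
    (b : A → ℕ → ℝ) (col : Q → Option (Fin D.k × ℕ)) (lam : Q → Option Bool) : Prop :=
  ∀ a W, W.card ≤ r →
    PsiN 1 (2 * D.T / D.k) col lam (w a) cd W ≤ b a W.card / D.T ^ 120 ∧
    PsiN 2 (2 * D.T / D.k) col lam (w a) cd W ≤ b a W.card / D.T ^ 240

/-- A configuration is realised. -/
def Real_ {k : ℕ} (col : Q → Option (Fin k × ℕ)) (C : Finset (Q × Fin k)) : Prop :=
  ∀ q ∈ C, ∃ r, col q.1 = some (q.2, r)

end

end Pool.Agent.AcyK
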