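import Mathlib

/-! # The tuple kernel

`M` a symmetric probability weight on `V × V`, `M u v ≤ Q / |V|²`.  There is a symmetric
sub-probability `J` on pairs of pairs, bounded by `T M(f) M(f')`, with marginals at most `M`,
total mass at least `1 - ε`, such that `J(f,f') ≠ 0` implies that `(f.1,f'.2)` and `(f'.1,f.2)`
are in the support of `M`, and which is positive up to small errors: `∑ a J a ≥ (∑ a M)² - …`. -/

set_option autoImplicit false

namespace AcyK.Tup
open Finset

set_option linter.unusedSectionVars false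

variable {V : Type*} [Fintype V] [DecidableEq V]

/-- the marginal -/
noncomputable def p (M : V → V → ℝ) (w : V) : ℝ := ∑ v, M v w

noncomputable def g {j : ℕ} (M : V → V → ℝ) (v : Fin j → V) (w : V) : ℝ :=
  (∏ i, M (v i) w) / p M w ^ (j - 1)

noncomputable def R {j : ℕ} (M : V → V → ℝ) (v : Fin j → V) : ℝ := ∑ w, g M v w

noncomputable def L {j : ℕ} (M : V → V → ℝ) (v w : Fin j → V) : ℝ :=
  (∏ l, g M v (w l)) / R M v ^ (j - 1)

/-- the good event -/
def Good {j : ℕ} (M : V → V → ℝ) (δ r : ℝ) (v w : Fin j → V) : Prop :=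
  (∀ i, δ / Fintype.card V ≤ p M (v i)) ∧ (∀ i, δ / Fintype.card V ≤ p M (w i)) ∧
    r * ∏ i, p M (v i) ≤ R M v

section
variable {j : ℕ} {M : V → V → ℝ} (h0 : ∀ u v, 0 ≤ M u v)
include h0

theorem p_nonneg (w : V) : 0 ≤ p M w := sum_nonneg fun _ _ => h0 _ _

theorem g_nonneg (v : Fin j → V) (w : V) : 0 ≤ g M v w :=
  div_nonneg (prod_nonneg fun _ _ => h0 _ _) (pow_nonneg (p_nonneg h0 w) _)

theorem R_nonneg (v : Fin j → V) : 0 ≤ R M v := sum_nonneg fun _ _ => g_nonneg h0 v _

theorem L_nonneg (v w : Fin j → V) : 0 ≤ L M v w :=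
  div_nonneg (prod_nonneg fun _ _ => g_nonneg h0 v _) (pow_nonneg (R_nonneg h0 v) _)

theorem g_le_R (v : Fin j → V) (w : V) : g M v w ≤ R M v :=
  single_le_sum (f := fun w => g M v w) (fun _ _ => g_nonneg h0 v _) (mem_univ w)

/-- sum over the second tuple of a function of one coordinate -/
theorem sum_L (v : Fin j → V) (l : Fin j) (F : V → ℝ) :
    ∑ w : Fin j → V, L M v w * F (w l) = ∑ x, g M v x * F x := by
  classical
  by_cases hR : R M v = 0
  · have hg : ∀ x, g M v x = 0 := fun x => le_antisymm (hR ▸ g_le_R h0 v x) (g_nonneg h0 v x)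
    have hL : ∀ w, L M v w = 0 := fun w => by
      unfold L
      rw [prod_eq_zero (mem_univ l) (hg _), zero_div]
    simp [hg, hL]
  have e1 : ∀ w : Fin j → V, L M v w * F (w l) =
      (∏ i, (g M v (w i) * if i = l then F (w i) else 1)) / R M v ^ (j - 1) := by
    intro w
    unfold L
    rw [prod_mul_distrib, prod_ite_eq' univ l (fun i => F (w i)), if_pos (mem_univ l)]
    ring
  rw [sum_congr rfl fun w _ => e1 w, ← sum_div]
  have e2 : ∑ w : Fin j → V, ∏ i, (g M v (w i) * if i = l then F (w i) else 1)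
      = ∏ i : Fin j, ∑ x, (g M v x * if i = l then F x else 1) := by
    rw [prod_univ_sum, Fintype.piFinset_univ]
  have e3 : ∏ i : Fin j, ∑ x, (g M v x * if i = l then F x else 1)
      = (∑ x, g M v x * F x) * R M v ^ (j - 1) := by
    rw [← mul_prod_erase univ _ (mem_univ l)]
    congr 1
    · simp
    · have : ∀ i ∈ univ.erase l, (∑ x, (g M v x * if i = l then F x else 1)) = R M v := by
        intro i hi
        simp [R, ne_of_mem_erase hi]
      rw [prod_congr rfl this, prod_const, card_erase_of_mem (mem_univ l), card_univ,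
        Fintype.card_fin]
  rw [e2, e3, mul_div_assoc, div_self (pow_ne_zero _ hR), mul_one]

theorem sum_g (i : Fin j) (x : V) (F : V → ℝ) :
    ∑ v : Fin j → V, g M v x * F (v i) = ∑ u, M u x * F u := by
  classical
  by_cases hp : p M x = 0
  · have hM : ∀ u, M u x = 0 := fun u => le_antisymm
      (hp ▸ single_le_sum (f := fun u => M u x) (fun _ _ => h0 _ _) (mem_univ u)) (h0 _ _)
    have hg : ∀ v : Fin j → V, g M v x = 0 := fun v => by
      unfold g
      rw [prod_eq_zero (mem_univ i) (hM _), zero_div]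
    simp [hg, hM]
  have e1 : ∀ v : Fin j → V, g M v x * F (v i) =
      (∏ k, (M (v k) x * if k = i then F (v k) else 1)) / p M x ^ (j - 1) := by
    intro v
    unfold g
    rw [prod_mul_distrib, prod_ite_eq' univ i (fun k => F (v k)), if_pos (mem_univ i)]
    ring
  rw [sum_congr rfl fun v _ => e1 v, ← sum_div]
  have e2 : ∑ v : Fin j → V, ∏ k, (M (v k) x * if k = i then F (v k) else 1)
      = ∏ k : Fin j, ∑ u, (M u x * if k = i then F u else 1) := by
    rw [prod_univ_sum, Fintype.piFinset_univ]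
  have e3 : ∏ k : Fin j, ∑ u, (M u x * if k = i then F u else 1)
      = (∑ u, M u x * F u) * p M x ^ (j - 1) := by
    rw [← mul_prod_erase univ _ (mem_univ i)]
    congr 1
    · simp
    · have : ∀ k ∈ univ.erase i, (∑ u, (M u x * if k = i then F u else 1)) = p M x := by
        intro k hk
        simp [p, ne_of_mem_erase hk]
      rw [prod_congr rfl this, prod_const, card_erase_of_mem (mem_univ i), card_univ,
        Fintype.card_fin]
  rw [e2, e3, mul_div_assoc, div_self (pow_ne_zero _ hp), mul_one]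

/-- the law of `(v i, w l)` is `M` -/
theorem sum_pair (i l : Fin j) (F : V → V → ℝ) :
    ∑ v : Fin j → V, ∑ w : Fin j → V, L M v w * F (v i) (w l) = ∑ u, ∑ x, M u x * F u x := by
  rw [sum_congr rfl fun v _ => sum_L h0 v l (fun x => F (v i) x), sum_comm,
    sum_congr rfl fun x _ => sum_g h0 i x (fun u => F u x), sum_comm]


/-! ## The bad event -/

theorem sum_law (hj : 2 ≤ j) (v : Fin j → V) : ∑ w : Fin j → V, L M v w = R M v := by
  have := sum_L h0 v ⟨0, by omega⟩ (fun _ => 1)
  simpa [R] using this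

theorem bad_v (hsym : ∀ u v, M u v = M v u) {δ : ℝ} (hδ : 0 ≤ δ) (i : Fin j) :
    ∑ v : Fin j → V, ∑ w : Fin j → V, L M v w *
      (if p M (v i) < δ / Fintype.card V then 1 else 0) ≤ δ := by
  have h := sum_pair h0 i i (fun u _ => if p M u < δ / Fintype.card V then (1:ℝ) else 0)
  rw [h]
  have h1 : ∀ u, ∑ x, M u x * (if p M u < δ / Fintype.card V then (1:ℝ) else 0)
      ≤ δ / Fintype.card V := by
    intro u
    rw [← sum_mul]
    have h2 : ∑ x, M u x = p M u := by
      unfold p
      exact sum_congr rfl fun x _ => hsym _ _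
    rw [h2]
    split_ifs with h3
    · linarith
    · simpa using div_nonneg hδ (Nat.cast_nonneg _)
  calc _ ≤ ∑ _u : V, δ / Fintype.card V := sum_le_sum fun u _ => h1 u
    _ ≤ δ := by
      rw [sum_const, card_univ, nsmul_eq_mul]
      by_cases hc : (Fintype.card V : ℝ) = 0
      · simp [hc, hδ]
      · rw [mul_div_cancel₀ _ hc]

theorem bad_w {δ : ℝ} (hδ : 0 ≤ δ) (i : Fin j) :
    ∑ v : Fin j → V, ∑ w : Fin j → V, L M v w *
      (if p M (w i) < δ / Fintype.card V then 1 else 0) ≤ δ := by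
  have h := sum_pair h0 i i (fun _ x => if p M x < δ / Fintype.card V then (1:ℝ) else 0)
  rw [h, sum_comm]
  have h1 : ∀ x, ∑ u, M u x * (if p M x < δ / Fintype.card V then (1:ℝ) else 0)
      ≤ δ / Fintype.card V := by
    intro x
    rw [← sum_mul]
    change p M x * _ ≤ _
    split_ifs with h3
    · linarith
    · simpa using div_nonneg hδ (Nat.cast_nonneg _)
  calc _ ≤ ∑ _u : V, δ / Fintype.card V := sum_le_sum fun u _ => h1 u
    _ ≤ δ := by
      rw [sum_const, card_univ, nsmul_eq_mul]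
      by_cases hc : (Fintype.card V : ℝ) = 0
      · simp [hc, hδ]
      · rw [mul_div_cancel₀ _ hc]

theorem bad_R (hj : 2 ≤ j) (hone : ∑ u, ∑ v, M u v = 1) {r : ℝ} (hr : 0 ≤ r) :
    ∑ v : Fin j → V, ∑ w : Fin j → V, L M v w *
      (if R M v < r * ∏ i, p M (v i) then 1 else 0) ≤ r := by
  have h1 : ∀ v : Fin j → V, ∑ w : Fin j → V, L M v w *
      (if R M v < r * ∏ i, p M (v i) then 1 else 0) ≤ r * ∏ i, p M (v i) := by
    intro v
    rw [← sum_mul, sum_law h0 hj]
    split_ifs with h3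
    · linarith
    · simpa using mul_nonneg hr (prod_nonneg fun i _ => p_nonneg h0 _)
  calc _ ≤ ∑ v : Fin j → V, r * ∏ i, p M (v i) := sum_le_sum fun v _ => h1 v
    _ = r * ∏ _i : Fin j, ∑ x, p M x := by
      rw [← mul_sum, prod_univ_sum, Fintype.piFinset_univ]
    _ = r := by
      have : ∑ x, p M x = 1 := by
        unfold p
        rw [sum_comm]
        exact hone
      simp [this]

open Classical in
theorem bad_le (hj : 2 ≤ j) (hsym : ∀ u v, M u v = M v u) (hone : ∑ u, ∑ v, M u v = 1)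
    {δ r : ℝ} (hδ : 0 ≤ δ) (hr : 0 ≤ r) :
    ∑ v : Fin j → V, ∑ w : Fin j → V, L M v w * (if Good M δ r v w then 0 else 1)
      ≤ 2 * j * δ + r := by
  have key : ∀ v w : Fin j → V, (if Good M δ r v w then (0:ℝ) else 1) ≤
      (∑ i, if p M (v i) < δ / Fintype.card V then (1:ℝ) else 0)
      + (∑ i, if p M (w i) < δ / Fintype.card V then (1:ℝ) else 0)
      + (if R M v < r * ∏ i, p M (v i) then 1 else 0) := by
    intro v w
    have n1 : ∀ (q : Fin j → V) (i : Fin j),
        (0:ℝ) ≤ if p M (q i) < δ / Fintype.card V then (1:ℝ) else 0 := by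
      intro q i; split_ifs <;> norm_num
    have n2 : (0:ℝ) ≤ if R M v < r * ∏ i, p M (v i) then (1:ℝ) else 0 := by
      split_ifs <;> norm_num
    by_cases hG : Good M δ r v w
    · rw [if_pos hG]
      have := sum_nonneg fun i (_ : i ∈ (univ : Finset (Fin j))) => n1 v i
      have := sum_nonneg fun i (_ : i ∈ (univ : Finset (Fin j))) => n1 w i
      linarith
    · rw [if_neg hG]
      unfold Good at hG
      rw [not_and_or, not_and_or] at hG
      have s1 := sum_nonneg fun i (_ : i ∈ (univ : Finset (Fin j))) => n1 v i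
      have s2 := sum_nonneg fun i (_ : i ∈ (univ : Finset (Fin j))) => n1 w i
      rcases hG with hG | hG | hG
      · push Not at hG
        obtain ⟨i, hi⟩ := hG
        have := single_le_sum (fun i _ => n1 v i) (mem_univ i)
        simp only [if_pos hi] at this
        linarith
      · push Not at hG
        obtain ⟨i, hi⟩ := hG
        have := single_le_sum (fun i _ => n1 w i) (mem_univ i)
        simp only [if_pos hi] at this
        linarith
      · push Not at hG
        rw [if_pos hG]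
        linarith
  calc _ ≤ ∑ v : Fin j → V, ∑ w : Fin j → V, L M v w *
        ((∑ i, if p M (v i) < δ / Fintype.card V then (1:ℝ) else 0)
      + (∑ i, if p M (w i) < δ / Fintype.card V then (1:ℝ) else 0)
      + (if R M v < r * ∏ i, p M (v i) then 1 else 0)) :=
        sum_le_sum fun v _ => sum_le_sum fun w _ =>
          mul_le_mul_of_nonneg_left (key v w) (L_nonneg h0 v w)
    _ = ∑ i : Fin j, (∑ v : Fin j → V, ∑ w : Fin j → V, L M v w *
          (if p M (v i) < δ / Fintype.card V then (1:ℝ) else 0))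
        + ∑ i : Fin j, (∑ v : Fin j → V, ∑ w : Fin j → V, L M v w *
          (if p M (w i) < δ / Fintype.card V then (1:ℝ) else 0))
        + ∑ v : Fin j → V, ∑ w : Fin j → V, L M v w *
          (if R M v < r * ∏ i, p M (v i) then 1 else 0) := by
        have sw : ∀ X : Fin j → (Fin j → V) → (Fin j → V) → ℝ,
            ∑ i, ∑ v, ∑ w, X i v w = ∑ v, ∑ w, ∑ i, X i v w := fun X => by
          rw [sum_comm]
          exact sum_congr rfl fun v _ => sum_comm
        rw [sw, sw, ← sum_add_distrib, ← sum_add_distrib]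
        refine sum_congr rfl fun v _ => ?_
        rw [← sum_add_distrib, ← sum_add_distrib]
        refine sum_congr rfl fun w _ => ?_
        rw [← mul_sum, ← mul_sum]
        ring
    _ ≤ ∑ _i : Fin j, δ + ∑ _i : Fin j, δ + r :=
        add_le_add (add_le_add (sum_le_sum fun i _ => bad_v h0 hsym hδ i)
          (sum_le_sum fun i _ => bad_w h0 hδ i)) (bad_R h0 hj hone hr)
    _ = 2 * j * δ + r := by
        rw [sum_const, card_univ, Fintype.card_fin, nsmul_eq_mul]
        ring

/-! ## The upper bound on the good event -/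

theorem L_le {δ r Q : ℝ} (hδ : 0 < δ) (hr : 0 < r) (hV : 0 < Fintype.card V)
    (hQ : ∀ u v, M u v * (Fintype.card V : ℝ) ^ 2 ≤ Q) {v w : Fin j → V}
    (hG : Good M δ r v w) :
    L M v w ≤ (Q / δ ^ 2) ^ (j * (j - 1)) / r ^ (j - 1) * ∏ i, M (v i) (w i) := by
  set N : ℝ := (Fintype.card V : ℝ) with hN
  have hN0 : 0 < N := by rw [hN]; exact_mod_cast hV
  obtain ⟨g1, g2, g3⟩ := hG
  have hd : 0 < δ / N := div_pos hδ hN0
  have hpw : ∀ l, 0 < p M (w l) := fun l => lt_of_lt_of_le hd (g2 l)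
  have hP : (δ / N) ^ j ≤ ∏ i, p M (v i) := by
    calc (δ / N) ^ j = ∏ _i : Fin j, δ / N := by
          rw [prod_const, card_univ, Fintype.card_fin]
      _ ≤ _ := prod_le_prod (fun _ _ => hd.le) (fun i _ => g1 i)
  have hR : r * (δ / N) ^ j ≤ R M v := le_trans (mul_le_mul_of_nonneg_left hP hr.le) g3
  have hRpos : 0 < R M v := lt_of_lt_of_le (by positivity) hR
  have hQ' : ∀ u v, M u v ≤ Q / N ^ 2 := fun u v => by
    rw [le_div_iff₀ (by positivity)]
    exact hQ u v
  have hQ0 : 0 ≤ Q := by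
    obtain ⟨u⟩ : Nonempty V := Fintype.card_pos_iff.mp hV
    exact le_trans (mul_nonneg (h0 u u) (by positivity)) (hQ u u)
  have hg : ∀ l, g M v (w l) ≤ M (v l) (w l) * ((Q / N ^ 2) ^ (j - 1) / (δ / N) ^ (j - 1)) := by
    intro l
    unfold g
    rw [← mul_prod_erase univ _ (mem_univ l), mul_div_assoc]
    refine mul_le_mul_of_nonneg_left ?_ (h0 _ _)
    refine div_le_div₀ (by positivity) ?_ (by positivity)
      (pow_le_pow_left₀ hd.le (g2 l) _)
    calc ∏ i ∈ univ.erase l, M (v i) (w l) ≤ ∏ _i ∈ univ.erase l, Q / N ^ 2 :=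
          prod_le_prod (fun _ _ => h0 _ _) (fun i _ => hQ' _ _)
      _ = (Q / N ^ 2) ^ (j - 1) := by
          rw [prod_const, card_erase_of_mem (mem_univ l), card_univ, Fintype.card_fin]
  have h1 : ∏ l, g M v (w l) ≤ (∏ i, M (v i) (w i)) *
      ((Q / N ^ 2) ^ (j - 1) / (δ / N) ^ (j - 1)) ^ j := by
    calc ∏ l, g M v (w l) ≤ ∏ l, (M (v l) (w l) *
          ((Q / N ^ 2) ^ (j - 1) / (δ / N) ^ (j - 1))) :=
          prod_le_prod (fun _ _ => g_nonneg h0 v _) (fun l _ => hg l)
      _ = _ := by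
          rw [prod_mul_distrib, prod_const, card_univ, Fintype.card_fin]
  have h2 : (r * (δ / N) ^ j) ^ (j - 1) ≤ R M v ^ (j - 1) :=
    pow_le_pow_left₀ (by positivity) hR _
  unfold L
  calc (∏ l, g M v (w l)) / R M v ^ (j - 1)
      ≤ ((∏ i, M (v i) (w i)) * ((Q / N ^ 2) ^ (j - 1) / (δ / N) ^ (j - 1)) ^ j)
        / (r * (δ / N) ^ j) ^ (j - 1) := by
        refine div_le_div₀ ?_ h1 (by positivity) h2
        exact mul_nonneg (prod_nonneg fun _ _ => h0 _ _) (by positivity)
    _ = _ := by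
        have e1 : (Q / N ^ 2) ^ (j - 1) / (δ / N) ^ (j - 1) = (Q / (N * δ)) ^ (j - 1) := by
          rw [← div_pow]
          congr 1
          field_simp
        rw [e1, ← pow_mul, mul_pow, ← pow_mul, mul_comm (j - 1) j]
        have e2 : (Q / (N * δ)) ^ (j * (j - 1)) = (Q / δ ^ 2) ^ (j * (j - 1)) *
            (δ / N) ^ (j * (j - 1)) := by
          rw [← mul_pow]
          congr 1
          field_simp
        rw [e2]
        field_simp

end

/-! ## The kernel -/

theorem push {I S : Type*} [Fintype I] [Fintype S] [DecidableEq S] (κ : I → ℝ) (a b : I → S)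
    (F : S → S → ℝ) :
    ∑ f, ∑ f', (∑ x, κ x * (if a x = f ∧ b x = f' then 1 else 0)) * F f f'
      = ∑ x, κ x * F (a x) (b x) := by
  calc ∑ f, ∑ f', (∑ x, κ x * (if a x = f ∧ b x = f' then 1 else 0)) * F f f'
      = ∑ f, ∑ f', ∑ x, κ x * ((if a x = f ∧ b x = f' then 1 else 0) * F f f') := by
        simp only [sum_mul, mul_assoc]
    _ = ∑ f, ∑ x, ∑ f', κ x * ((if a x = f ∧ b x = f' then 1 else 0) * F f f') :=
        sum_congr rfl fun f _ => sum_comm
    _ = ∑ x, ∑ f, ∑ f', κ x * ((if a x = f ∧ b x = f' then 1 else 0) * F f f') := sum_comm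
    _ = _ := by
        refine sum_congr rfl fun x _ => ?_
        rw [sum_eq_single (a x), sum_eq_single (b x)]
        · simp
        · intro f' _ hf'
          simp [hf'.symm]
        · simp
        · intro f _ hf
          simp [hf.symm]
        · simp

/-- index of the sum: the two tuples and two positions -/
abbrev Idx (V : Type*) (j : ℕ) : Type _ := ((Fin j → V) × (Fin j → V)) × (Fin j × Fin j)

open Classical in
noncomputable def kap {j : ℕ} (M : V → V → ℝ) (δ r : ℝ) (x : Idx V j) : ℝ :=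
  L M x.1.1 x.1.2 * (if Good M δ r x.1.1 x.1.2 then 1 else 0) *
    (if x.2.1 ≠ x.2.2 then 1 else 0) / (j * (j - 1))

def sa {j : ℕ} (x : Idx V j) : V × V := (x.1.1 x.2.1, x.1.2 x.2.1)
def sb {j : ℕ} (x : Idx V j) : V × V := (x.1.1 x.2.2, x.1.2 x.2.2)

noncomputable def J (j : ℕ) (M : V → V → ℝ) (δ r : ℝ) (f f' : V × V) : ℝ :=
  ∑ x : Idx V j, kap M δ r x * (if sa x = f ∧ sb x = f' then 1 else 0)

theorem sum_J (j : ℕ) (M : V → V → ℝ) (δ r : ℝ) (F : V × V → V × V → ℝ) :
    ∑ f, ∑ f', J j M δ r f f' * F f f' = ∑ x : Idx V j, kap M δ r x * F (sa x) (sb x) :=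
  push _ _ _ F

theorem J_symm (j : ℕ) (M : V → V → ℝ) (δ r : ℝ) (f f' : V × V) :
    J j M δ r f f' = J j M δ r f' f := by
  unfold J
  refine Fintype.sum_equiv ((Equiv.refl _).prodCongr (Equiv.prodComm _ _)) _ _ ?_
  rintro ⟨⟨v, w⟩, i, l⟩
  have e1 : kap M δ r ((v, w), (i, l)) = kap M δ r ((v, w), (l, i)) := by
    unfold kap
    simp only [ne_comm]
  simp only [Equiv.prodCongr_apply, Equiv.coe_refl, Prod.map, id, Equiv.prodComm_apply,
    Prod.swap, sa, sb, e1]
  congr 1
  by_cases h1 : (v i, w i) = f <;> by_cases h2 : (v l, w l) = f' <;> simp [h1, h2]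

/-- sums over `Idx` with a nonnegative function of the two sites -/
theorem sum_idx {j : ℕ} (F : Idx V j → ℝ) : ∑ x : Idx V j, F x =
    ∑ i : Fin j, ∑ l : Fin j, ∑ v : Fin j → V, ∑ w : Fin j → V, F ((v, w), (i, l)) := by
  rw [Fintype.sum_prod_type, sum_comm, Fintype.sum_prod_type]
  refine sum_congr rfl fun i _ => sum_congr rfl fun l _ => ?_
  rw [Fintype.sum_prod_type]

theorem card_offdiag_sum (j : ℕ) (c : ℝ) :
    ∑ i : Fin j, ∑ l : Fin j, (if i ≠ l then c else 0) = j * (j - 1) * c := by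
  have h : ∀ i : Fin j, ∑ l : Fin j, (if i ≠ l then c else 0) = (j - 1) * c := by
    intro i
    have h1 : ∑ l : Fin j, (if i ≠ l then c else 0) =
        ∑ l : Fin j, c - ∑ l : Fin j, (if i = l then c else 0) := by
      rw [← sum_sub_distrib]
      refine sum_congr rfl fun l _ => ?_
      by_cases hil : i = l <;> simp [hil]
    rw [h1, sum_ite_eq]
    simp
    ring
  rw [sum_congr rfl fun i _ => h i]
  simp
  ring

section
variable {j : ℕ} {M : V → V → ℝ} (h0 : ∀ u v, 0 ≤ M u v)
include h0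

theorem kap_nonneg (hj : 2 ≤ j) (δ r : ℝ) (x : Idx V j) : 0 ≤ kap M δ r x := by
  unfold kap
  have hj' : (0:ℝ) ≤ (j:ℝ) * (j - 1) := by
    have : (2:ℝ) ≤ j := by exact_mod_cast hj
    nlinarith
  refine div_nonneg (mul_nonneg (mul_nonneg (L_nonneg h0 _ _) ?_) ?_) hj'
  · split_ifs <;> norm_num
  · split_ifs <;> norm_num

theorem J_nonneg (hj : 2 ≤ j) (δ r : ℝ) (f f' : V × V) : 0 ≤ J j M δ r f f' :=
  sum_nonneg fun x _ => mul_nonneg (kap_nonneg h0 hj δ r x) (by split_ifs <;> norm_num)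

theorem J_supp {δ r : ℝ} {f f' : V × V} (h : J j M δ r f f' ≠ 0) :
    M f.1 f'.2 ≠ 0 ∧ M f'.1 f.2 ≠ 0 := by
  obtain ⟨x, _, hx⟩ := exists_ne_zero_of_sum_ne_zero h
  obtain ⟨⟨v, w⟩, i, l⟩ := x
  have h1 : kap M δ r ((v, w), (i, l)) ≠ 0 := left_ne_zero_of_mul hx
  have h2 : sa (((v, w), (i, l)) : Idx V j) = f ∧ sb (((v, w), (i, l)) : Idx V j) = f' := by
    by_contra hc
    rw [if_neg hc, mul_zero] at hx
    exact hx rfl
  have h3 : L M v w ≠ 0 := by
    intro hL
    apply h1
    unfold kap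
    simp [hL]
  have h4 : ∀ a b, M (v a) (w b) ≠ 0 := by
    intro a b hab
    apply h3
    unfold L
    rw [prod_eq_zero (mem_univ b), zero_div]
    unfold g
    rw [prod_eq_zero (mem_univ a) hab, zero_div]
  rw [← h2.1, ← h2.2]
  exact ⟨h4 i l, h4 l i⟩

theorem J_row (hj : 2 ≤ j) (δ r : ℝ) (f : V × V) :
    ∑ f', J j M δ r f f' ≤ M f.1 f.2 := by
  have hj' : (0:ℝ) < (j:ℝ) * (j - 1) := by
    have : (2:ℝ) ≤ j := by exact_mod_cast hj
    nlinarith
  have h1 : ∑ f', J j M δ r f f' = ∑ x : Idx V j, kap M δ r x * (if sa x = f then 1 else 0) := by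
    have h2 := sum_J j M δ r (fun a _ => if a = f then (1:ℝ) else 0)
    rw [← h2]
    symm
    rw [sum_eq_single f]
    · refine sum_congr rfl fun f' _ => ?_
      rw [if_pos rfl, mul_one]
    · intro b _ hb
      refine sum_eq_zero fun f' _ => ?_
      rw [if_neg hb, mul_zero]
    · intro h
      exact absurd (mem_univ f) h
  rw [h1, sum_idx]
  calc ∑ i : Fin j, ∑ l : Fin j, ∑ v : Fin j → V, ∑ w : Fin j → V,
        kap M δ r ((v, w), (i, l)) * (if sa (((v, w), (i, l)) : Idx V j) = f then 1 else 0)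
      ≤ ∑ i : Fin j, ∑ l : Fin j, (if i ≠ l then M f.1 f.2 / (j * (j - 1)) else 0) := by
        refine sum_le_sum fun i _ => sum_le_sum fun l _ => ?_
        by_cases hil : i = l
        · have : ∀ v w : Fin j → V, kap M δ r ((v, w), (i, l)) = 0 := by
            intro v w
            unfold kap
            simp [hil]
          rw [if_neg (not_not.mpr hil)]
          exact le_of_eq (sum_eq_zero fun v _ => sum_eq_zero fun w _ => by rw [this, zero_mul])
        · rw [if_pos hil]
          have h3 : ∀ v w : Fin j → V, kap M δ r ((v, w), (i, l)) *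
              (if sa (((v, w), (i, l)) : Idx V j) = f then 1 else 0)
              ≤ L M v w * (if (v i, w i) = f then 1 else 0) / (j * (j - 1)) := by
            intro v w
            unfold kap sa
            simp only [ne_eq, hil, not_false_eq_true, if_true, mul_one]
            rw [div_mul_eq_mul_div]
            refine div_le_div_of_nonneg_right ?_ hj'.le
            refine mul_le_mul_of_nonneg_right ?_ (by split_ifs <;> norm_num)
            have := L_nonneg h0 v w
            split_ifs <;> simp [this]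
          refine le_trans (sum_le_sum fun v _ => sum_le_sum fun w _ => h3 v w) ?_
          simp only [← sum_div]
          rw [sum_pair h0 i i (fun a b => if (a, b) = f then (1:ℝ) else 0)]
          refine le_of_eq ?_
          congr 1
          rw [sum_eq_single f.1, sum_eq_single f.2]
          · simp
          · intro b _ hb
            have : (f.1, b) ≠ f := fun e => hb (by rw [← e])
            simp [this]
          · simp
          · intro a _ ha
            refine sum_eq_zero fun b _ => ?_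
            have : (a, b) ≠ f := fun e => ha (by rw [← e])
            simp [this]
          · simp
    _ = M f.1 f.2 := by
        rw [card_offdiag_sum, mul_div_cancel₀ _ hj'.ne']

theorem sum_prod_two (hone : ∑ u, ∑ v, M u v = 1) {i l : Fin j} (hil : i ≠ l) (f f' : V × V) :
    ∑ v : Fin j → V, ∑ w : Fin j → V, (∏ k, M (v k) (w k)) *
      (if (v i, w i) = f ∧ (v l, w l) = f' then 1 else 0) = M f.1 f.2 * M f'.1 f'.2 := by
  have e0 : ∑ v : Fin j → V, ∑ w : Fin j → V, (∏ k, M (v k) (w k)) *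
      (if (v i, w i) = f ∧ (v l, w l) = f' then (1:ℝ) else 0) =
      ∑ s : Fin j → V × V, (∏ k, M (s k).1 (s k).2) *
        (if s i = f ∧ s l = f' then 1 else 0) := by
    rw [← Fintype.sum_prod_type']
    refine (Fintype.sum_equiv (Equiv.arrowProdEquivProdArrow (Fin j) (fun _ => V) (fun _ => V))
      _ _ ?_).symm
    intro s
    rfl
  rw [e0]
  have e1 : ∀ s : Fin j → V × V, (∏ k, M (s k).1 (s k).2) *
      (if s i = f ∧ s l = f' then (1:ℝ) else 0) =
      ∏ k, (M (s k).1 (s k).2 * (if k = i then (if s k = f then 1 else 0) else 1) *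
        (if k = l then (if s k = f' then 1 else 0) else 1)) := by
    intro s
    rw [prod_mul_distrib, prod_mul_distrib, prod_ite_eq' univ i (fun k => if s k = f then (1:ℝ) else 0),
      prod_ite_eq' univ l (fun k => if s k = f' then (1:ℝ) else 0), if_pos (mem_univ i),
      if_pos (mem_univ l), mul_assoc]
    congr 1
    by_cases h1 : s i = f <;> by_cases h2 : s l = f' <;> simp [h1, h2]
  rw [sum_congr rfl fun s _ => e1 s]
  have e2 : ∑ s : Fin j → V × V, ∏ k, (M (s k).1 (s k).2 *
        (if k = i then (if s k = f then 1 else 0) else 1) *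
        (if k = l then (if s k = f' then 1 else 0) else 1))
      = ∏ k : Fin j, ∑ a : V × V, (M a.1 a.2 * (if k = i then (if a = f then 1 else 0) else 1) *
        (if k = l then (if a = f' then 1 else 0) else 1)) := by
    rw [prod_univ_sum, Fintype.piFinset_univ]
  rw [e2, ← mul_prod_erase univ _ (mem_univ i),
    ← mul_prod_erase (univ.erase i) _ (mem_erase.2 ⟨hil.symm, mem_univ l⟩)]
  have f1 : ∑ a : V × V, (M a.1 a.2 * (if i = i then (if a = f then 1 else 0) else 1) *
        (if i = l then (if a = f' then 1 else 0) else 1)) = M f.1 f.2 := by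
    simp [hil]
  have f2 : ∑ a : V × V, (M a.1 a.2 * (if l = i then (if a = f then 1 else 0) else 1) *
        (if l = l then (if a = f' then 1 else 0) else 1)) = M f'.1 f'.2 := by
    simp [hil.symm]
  have f3 : ∏ k ∈ (univ.erase i).erase l, ∑ a : V × V, (M a.1 a.2 *
        (if k = i then (if a = f then 1 else 0) else 1) *
        (if k = l then (if a = f' then 1 else 0) else 1)) = 1 := by
    refine prod_eq_one fun k hk => ?_
    have k1 : k ≠ l := ne_of_mem_erase hk
    have k2 : k ≠ i := ne_of_mem_erase (mem_of_mem_erase hk)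
    simp only [k1, k2, if_false, mul_one]
    rw [Fintype.sum_prod_type]
    exact hone
  rw [f1, f2, f3, mul_one]

theorem J_le (hj : 2 ≤ j) (hone : ∑ u, ∑ v, M u v = 1) {δ r Q : ℝ} (hδ : 0 < δ) (hr : 0 < r)
    (hQ : ∀ u v, M u v * (Fintype.card V : ℝ) ^ 2 ≤ Q) (f f' : V × V) :
    J j M δ r f f' ≤ (Q / δ ^ 2) ^ (j * (j - 1)) / r ^ (j - 1) * (M f.1 f.2 * M f'.1 f'.2) := by
  set T : ℝ := (Q / δ ^ 2) ^ (j * (j - 1)) / r ^ (j - 1) with hT
  have hj' : (0:ℝ) < (j:ℝ) * (j - 1) := by
    have : (2:ℝ) ≤ j := by exact_mod_cast hj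
    nlinarith
  have hV : 0 < Fintype.card V := by
    by_contra hc
    have : IsEmpty V := Fintype.card_eq_zero_iff.mp (by omega)
    simp at hone
  have hQ0 : 0 ≤ Q := by
    obtain ⟨u⟩ : Nonempty V := Fintype.card_pos_iff.mp hV
    exact le_trans (mul_nonneg (h0 u u) (by positivity)) (hQ u u)
  have hT0 : 0 ≤ T := by positivity
  unfold J
  rw [sum_idx]
  calc ∑ i : Fin j, ∑ l : Fin j, ∑ v : Fin j → V, ∑ w : Fin j → V,
        kap M δ r ((v, w), (i, l)) *
        (if sa (((v, w), (i, l)) : Idx V j) = f ∧ sb (((v, w), (i, l)) : Idx V j) = f'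
          then 1 else 0)
      ≤ ∑ i : Fin j, ∑ l : Fin j,
          (if i ≠ l then T * (M f.1 f.2 * M f'.1 f'.2) / (j * (j - 1)) else 0) := by
        refine sum_le_sum fun i _ => sum_le_sum fun l _ => ?_
        by_cases hil : i = l
        · have : ∀ v w : Fin j → V, kap M δ r ((v, w), (i, l)) = 0 := by
            intro v w
            unfold kap
            simp [hil]
          rw [if_neg (not_not.mpr hil)]
          exact le_of_eq (sum_eq_zero fun v _ => sum_eq_zero fun w _ => by rw [this, zero_mul])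
        · rw [if_pos hil]
          have h3 : ∀ v w : Fin j → V, kap M δ r ((v, w), (i, l)) *
              (if sa (((v, w), (i, l)) : Idx V j) = f ∧ sb (((v, w), (i, l)) : Idx V j) = f'
                then 1 else 0)
              ≤ T * ((∏ k, M (v k) (w k)) * (if (v i, w i) = f ∧ (v l, w l) = f' then 1 else 0))
                / (j * (j - 1)) := by
            intro v w
            unfold kap sa sb
            simp only [ne_eq, hil, not_false_eq_true, if_true, mul_one]
            rw [div_mul_eq_mul_div]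
            refine div_le_div_of_nonneg_right ?_ hj'.le
            rw [← mul_assoc]
            refine mul_le_mul_of_nonneg_right ?_ (by split_ifs <;> norm_num)
            by_cases hG : Good M δ r v w
            · rw [if_pos hG, mul_one]
              exact L_le h0 hδ hr hV hQ hG
            · rw [if_neg hG, mul_zero]
              exact mul_nonneg hT0 (prod_nonneg fun _ _ => h0 _ _)
          refine le_trans (sum_le_sum fun v _ => sum_le_sum fun w _ => h3 v w) ?_
          simp only [← sum_div, ← mul_sum]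
          rw [sum_prod_two h0 hone hil]
    _ = T * (M f.1 f.2 * M f'.1 f'.2) := by
        rw [card_offdiag_sum, mul_div_cancel₀ _ hj'.ne']

theorem sum_L_one (hj : 2 ≤ j) (hone : ∑ u, ∑ v, M u v = 1) :
    ∑ v : Fin j → V, ∑ w : Fin j → V, L M v w = 1 := by
  have := sum_pair h0 (⟨0, by omega⟩ : Fin j) ⟨0, by omega⟩ (fun _ _ => (1:ℝ))
  simp only [mul_one] at this
  rw [this, hone]

/-- the sum over `Idx`, in terms of the tuple law -/
theorem sum_kap (δ r : ℝ) (F : V × V → V × V → ℝ) :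
    ∑ x : Idx V j, kap M δ r x * F (sa x) (sb x) =
      (∑ v : Fin j → V, ∑ w : Fin j → V, L M v w *
        ((open Classical in if Good M δ r v w then (1:ℝ) else 0) *
          ∑ i : Fin j, ∑ l : Fin j, (if i ≠ l then F (v i, w i) (v l, w l) else 0)))
        / (j * (j - 1)) := by
  classical
  rw [sum_idx, sum_div]
  have sw : ∀ X : Fin j → Fin j → (Fin j → V) → (Fin j → V) → ℝ,
      ∑ i, ∑ l, ∑ v, ∑ w, X i l v w = ∑ v, ∑ w, ∑ i, ∑ l, X i l v w := fun X => by
    calc ∑ i, ∑ l, ∑ v, ∑ w, X i l v w = ∑ i, ∑ v, ∑ l, ∑ w, X i l v w :=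
          sum_congr rfl fun i _ => sum_comm
      _ = ∑ v, ∑ i, ∑ l, ∑ w, X i l v w := sum_comm
      _ = ∑ v, ∑ i, ∑ w, ∑ l, X i l v w :=
          sum_congr rfl fun v _ => sum_congr rfl fun i _ => sum_comm
      _ = ∑ v, ∑ w, ∑ i, ∑ l, X i l v w := sum_congr rfl fun v _ => sum_comm
  rw [sw]
  refine sum_congr rfl fun v _ => ?_
  rw [sum_div]
  refine sum_congr rfl fun w _ => ?_
  rw [mul_sum, mul_sum, sum_div]
  refine sum_congr rfl fun i _ => ?_
  rw [mul_sum, mul_sum, sum_div]
  refine sum_congr rfl fun l _ => ?_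
  unfold kap sa sb
  by_cases hil : i = l
  · simp [hil]
  · simp only [ne_eq, hil, not_false_eq_true, if_true, mul_one]
    ring

theorem J_mass (hj : 2 ≤ j) (hsym : ∀ u v, M u v = M v u) (hone : ∑ u, ∑ v, M u v = 1)
    {δ r : ℝ} (hδ : 0 ≤ δ) (hr : 0 ≤ r) :
    1 - (2 * j * δ + r) ≤ ∑ f, ∑ f', J j M δ r f f' := by
  classical
  have hj' : (0:ℝ) < (j:ℝ) * (j - 1) := by
    have : (2:ℝ) ≤ j := by exact_mod_cast hj
    nlinarith
  have h1 := sum_J j M δ r (fun _ _ => (1:ℝ))
  simp only [mul_one] at h1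
  have h2 := sum_kap h0 (j := j) δ r (fun _ _ => (1:ℝ))
  simp only [mul_one] at h2
  rw [h1, h2]
  have h3 : ∀ v w : Fin j → V, L M v w * ((if Good M δ r v w then (1:ℝ) else 0) *
      ∑ i : Fin j, ∑ l : Fin j, (if i ≠ l then (1:ℝ) else 0)) =
      (L M v w - L M v w * (if Good M δ r v w then 0 else 1)) * (j * (j - 1)) := by
    intro v w
    rw [card_offdiag_sum]
    split_ifs <;> ring
  rw [sum_congr rfl fun v _ => sum_congr rfl fun w _ => h3 v w]
  simp only [← sum_mul, sum_sub_distrib]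
  rw [mul_div_cancel_right₀ _ hj'.ne', sum_L_one h0 hj hone]
  have := bad_le h0 hj hsym hone hδ hr
  linarith

theorem J_quad (hj : 2 ≤ j) (hsym : ∀ u v, M u v = M v u) (hone : ∑ u, ∑ v, M u v = 1)
    {δ r : ℝ} (hδ : 0 ≤ δ) (hr : 0 ≤ r) {a : V × V → ℝ} (a0 : ∀ f, 0 ≤ a f)
    (a1 : ∀ f, a f ≤ 1) :
    (∑ u, ∑ v, M u v * a (u, v)) ^ 2 - (∑ u, ∑ v, M u v * a (u, v)) / (j - 1)
      - (2 * j * δ + r) ≤ ∑ f, ∑ f', a f * J j M δ r f f' * a f' := by
  classical
  set m : ℝ := ∑ u, ∑ v, M u v * a (u, v) with hm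
  have hj1 : (2:ℝ) ≤ j := by exact_mod_cast hj
  have hj' : (0:ℝ) < (j:ℝ) * (j - 1) := by nlinarith
  have hm0 : 0 ≤ m := sum_nonneg fun u _ => sum_nonneg fun v _ => mul_nonneg (h0 u v) (a0 _)
  have h1 := sum_J j M δ r (fun f f' => a f * a f')
  have h1' : ∑ f, ∑ f', a f * J j M δ r f f' * a f' =
      ∑ f, ∑ f', J j M δ r f f' * (a f * a f') :=
    sum_congr rfl fun f _ => sum_congr rfl fun f' _ => by ring
  rw [h1', h1, sum_kap h0 (j := j) δ r (fun f f' => a f * a f'), le_div_iff₀ hj']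
  have key : ∀ v w : Fin j → V,
      L M v w * ((∑ i, a (v i, w i)) ^ 2 - ∑ i, a (v i, w i) ^ 2
        - (j * (j - 1)) * (if Good M δ r v w then 0 else 1)) ≤
      L M v w * ((if Good M δ r v w then (1:ℝ) else 0) *
        ∑ i : Fin j, ∑ l : Fin j, (if i ≠ l then a (v i, w i) * a (v l, w l) else 0)) := by
    intro v w
    refine mul_le_mul_of_nonneg_left ?_ (L_nonneg h0 v w)
    have e1 : ∑ i : Fin j, ∑ l : Fin j, (if i ≠ l then a (v i, w i) * a (v l, w l) else 0)
        = (∑ i, a (v i, w i)) ^ 2 - ∑ i, a (v i, w i) ^ 2 := by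
      rw [sq, sum_mul_sum, ← sum_sub_distrib]
      refine sum_congr rfl fun i _ => ?_
      have e2 : ∀ l, (if i ≠ l then a (v i, w i) * a (v l, w l) else 0) =
          a (v i, w i) * a (v l, w l) - (if i = l then a (v i, w i) * a (v l, w l) else 0) := by
        intro l
        by_cases hil : i = l <;> simp [hil]
      rw [sum_congr rfl fun l _ => e2 l, sum_sub_distrib, sum_ite_eq, if_pos (mem_univ i)]
      ring
    by_cases hG : Good M δ r v w
    · rw [if_pos hG, if_pos hG, e1]
      linarith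
    · rw [if_neg hG, if_neg hG, ← e1]
      have e3 : ∑ i : Fin j, ∑ l : Fin j, (if i ≠ l then a (v i, w i) * a (v l, w l) else 0)
          ≤ ∑ i : Fin j, ∑ l : Fin j, (if i ≠ l then (1:ℝ) else 0) := by
        refine sum_le_sum fun i _ => sum_le_sum fun l _ => ?_
        by_cases hil : i = l
        · simp [hil]
        · simp only [ne_eq, hil, not_false_eq_true, if_true]
          exact mul_le_one₀ (a1 _) (a0 _) (a1 _)
      rw [card_offdiag_sum] at e3
      linarith
  have h2 := sum_le_sum fun v (_ : v ∈ (univ : Finset (Fin j → V))) =>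
    sum_le_sum fun w (_ : w ∈ (univ : Finset (Fin j → V))) => key v w
  refine le_trans ?_ h2
  have s1 : ∑ v : Fin j → V, ∑ w : Fin j → V, L M v w * ∑ i, a (v i, w i) = j * m := by
    have : ∀ v w : Fin j → V, L M v w * ∑ i, a (v i, w i) = ∑ i, L M v w * a (v i, w i) :=
      fun v w => mul_sum _ _ _
    rw [sum_congr rfl fun v _ => sum_congr rfl fun w _ => this v w]
    have sw : ∑ v : Fin j → V, ∑ w : Fin j → V, ∑ i, L M v w * a (v i, w i) =
        ∑ i, ∑ v : Fin j → V, ∑ w : Fin j → V, L M v w * a (v i, w i) := by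
      rw [sum_congr rfl fun v _ => sum_comm, sum_comm]
    rw [sw, sum_congr rfl fun i _ => sum_pair h0 i i (fun u x => a (u, x))]
    simp [hm]
  have s2 : ∑ v : Fin j → V, ∑ w : Fin j → V, L M v w * ∑ i, a (v i, w i) ^ 2 ≤ j * m := by
    refine le_trans (sum_le_sum fun v _ => sum_le_sum fun w _ =>
      mul_le_mul_of_nonneg_left (sum_le_sum fun i _ => ?_) (L_nonneg h0 v w)) (le_of_eq s1)
    nlinarith [a0 (v i, w i), a1 (v i, w i)]
  have s3 : (j * m) ^ 2 ≤ ∑ v : Fin j → V, ∑ w : Fin j → V,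
      L M v w * (∑ i, a (v i, w i)) ^ 2 := by
    have hL1 := sum_L_one h0 hj hone
    have h4 : ∀ v w : Fin j → V, L M v w * (2 * (j * m) * ∑ i, a (v i, w i) - (j * m) ^ 2) ≤
        L M v w * (∑ i, a (v i, w i)) ^ 2 := by
      intro v w
      refine mul_le_mul_of_nonneg_left ?_ (L_nonneg h0 v w)
      nlinarith [sq_nonneg (∑ i, a (v i, w i) - j * m)]
    refine le_trans ?_ (sum_le_sum fun v _ => sum_le_sum fun w _ => h4 v w)
    have h5 : ∑ v : Fin j → V, ∑ w : Fin j → V,
        L M v w * (2 * (j * m) * ∑ i, a (v i, w i) - (j * m) ^ 2) =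
        2 * (j * m) * (∑ v : Fin j → V, ∑ w : Fin j → V, L M v w * ∑ i, a (v i, w i))
        - (j * m) ^ 2 * ∑ v : Fin j → V, ∑ w : Fin j → V, L M v w := by
      simp only [mul_sum, ← sum_sub_distrib]
      refine sum_congr rfl fun v _ => sum_congr rfl fun w _ => ?_
      rw [mul_sub, mul_sum, mul_sum]
      congr 1
      · refine sum_congr rfl fun i _ => by ring
      · ring
    rw [h5, s1, hL1]
    nlinarith
  have s4 := bad_le h0 hj hsym hone hδ hr
  have h6 : ∑ v : Fin j → V, ∑ w : Fin j → V,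
      L M v w * ((∑ i, a (v i, w i)) ^ 2 - ∑ i, a (v i, w i) ^ 2
        - (j * (j - 1)) * (if Good M δ r v w then (0:ℝ) else 1)) =
      ∑ v : Fin j → V, ∑ w : Fin j → V, L M v w * (∑ i, a (v i, w i)) ^ 2
      - ∑ v : Fin j → V, ∑ w : Fin j → V, L M v w * ∑ i, a (v i, w i) ^ 2
      - (j * (j - 1)) * ∑ v : Fin j → V, ∑ w : Fin j → V, L M v w *
        (if Good M δ r v w then (0:ℝ) else 1) := by
    rw [mul_sum, ← sum_sub_distrib, ← sum_sub_distrib]
    refine sum_congr rfl fun v _ => ?_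
    rw [mul_sum, ← sum_sub_distrib, ← sum_sub_distrib]
    refine sum_congr rfl fun w _ => by ring
  rw [h6]
  have s5 : (m ^ 2 - m / (j - 1) - (2 * j * δ + r)) * (j * (j - 1)) ≤
      (j * m) ^ 2 - j * m - (j * (j - 1)) * (2 * j * δ + r) := by
    have e : m / ((j:ℝ) - 1) * (j * (j - 1)) = j * m := by
      have : (j:ℝ) - 1 ≠ 0 := by linarith
      field_simp
    have e2 : (m ^ 2 - m / (j - 1) - (2 * j * δ + r)) * (j * (j - 1)) =
        m ^ 2 * (j * (j - 1)) - m / ((j:ℝ) - 1) * (j * (j - 1))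
          - (2 * j * δ + r) * (j * (j - 1)) := by ring
    rw [e2, e]
    nlinarith [sq_nonneg m, mul_nonneg (sq_nonneg m) (by linarith : (0:ℝ) ≤ j)]
  have s6 := mul_le_mul_of_nonneg_left s4 hj'.le
  linarith

end

/-- the bound of the density -/
noncomputable def bd (j : ℕ) (ε Q : ℝ) : ℝ :=
  (Q / (ε ^ 2 / (4 * j)) ^ 2) ^ (j * (j - 1)) / (ε ^ 2 / 2) ^ (j - 1)

/-- **Tuple kernel.**  `M` symmetric probability weight on `V × V` with `M u v ≤ Q / |V|²`. -/
theorem exists_kernel {j : ℕ} (hj : 2 ≤ j) {ε Q : ℝ} (hε : 0 < ε) {V : Type*} [Fintype V]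
    {M : V → V → ℝ} (h0 : ∀ u v, 0 ≤ M u v) (hsym : ∀ u v, M u v = M v u)
    (hone : ∑ u, ∑ v, M u v = 1) (hQ : ∀ u v, M u v * (Fintype.card V : ℝ) ^ 2 ≤ Q) :
    ∃ J : V × V → V × V → ℝ, (∀ f f', 0 ≤ J f f') ∧ (∀ f f', J f f' = J f' f) ∧
      (∀ f f', J f f' ≠ 0 → M f.1 f'.2 ≠ 0 ∧ M f'.1 f.2 ≠ 0) ∧
      (∀ f f', J f f' ≤ bd j ε Q * (M f.1 f.2 * M f'.1 f'.2)) ∧
      (∀ f, ∑ f', J f f' ≤ M f.1 f.2) ∧
      1 - ε ^ 2 ≤ ∑ f, ∑ f', J f f' ∧
      ∀ a : V × V → ℝ, (∀ f, 0 ≤ a f) → (∀ f, a f ≤ 1) →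
        (∑ f : V × V, M f.1 f.2 * a f) ^ 2
          - (1 / (j - 1) + ε) * (∑ f : V × V, M f.1 f.2 * a f)
          ≤ ∑ f, ∑ f', a f * J f f' * a f' := by
  classical
  have hj1 : (2:ℝ) ≤ j := by exact_mod_cast hj
  have hδ : 0 < ε ^ 2 / (4 * j) := by positivity
  have hr : 0 < ε ^ 2 / 2 := by positivity
  have hb : 2 * j * (ε ^ 2 / (4 * j)) + ε ^ 2 / 2 = ε ^ 2 := by
    field_simp
    ring
  refine ⟨J j M (ε ^ 2 / (4 * j)) (ε ^ 2 / 2), J_nonneg h0 hj _ _, J_symm _ _ _ _,
    fun f f' h => J_supp h0 h, J_le h0 hj hone hδ hr hQ, J_row h0 hj _ _, ?_, ?_⟩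
  · have := J_mass h0 hj hsym hone hδ.le hr.le
    rw [hb] at this
    exact this
  · intro a a0 a1
    have e : ∑ f : V × V, M f.1 f.2 * a f = ∑ u, ∑ v, M u v * a (u, v) :=
      Fintype.sum_prod_type _
    rw [e]
    set m : ℝ := ∑ u, ∑ v, M u v * a (u, v) with hm
    have hm0 : 0 ≤ m := sum_nonneg fun u _ => sum_nonneg fun v _ => mul_nonneg (h0 u v) (a0 _)
    rcases le_total ε m with h | h
    · have := J_quad h0 hj hsym hone hδ.le hr.le a0 a1
      rw [hb] at this
      refine le_trans ?_ this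
      rw [← hm]
      have : ε ^ 2 ≤ ε * m := by nlinarith
      have e2 : (1 / ((j:ℝ) - 1) + ε) * m = m / (j - 1) + ε * m := by ring
      rw [e2]
      linarith
    · refine le_trans ?_ (sum_nonneg fun f _ => sum_nonneg fun f' _ =>
        mul_nonneg (mul_nonneg (a0 f) (J_nonneg h0 hj _ _ f f')) (a0 f'))
      have h7 : 0 ≤ 1 / ((j:ℝ) - 1) := by
        apply div_nonneg zero_le_one
        linarith
      nlinarith [mul_nonneg h7 hm0]

end AcyK.Tup
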